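import Pool.Agent.Lib.MP_be1941_al.Defs2

/-!
# MP_be1941_al, exact bound: the setting of the MAIN PROPOSITION (H.md section 3)

`H` is a finite solvable group, `C` a normal subgroup, `W` a finite irreducible `H`-module,
`phi : H →* G` is a surjective homomorphism whose kernel is `C₀ = C_C(W)`. So `G = H / C₀`,
`N = phi(C)` acts faithfully on `W`. In the tight case (`C₀ = 1`) one takes `G = H`, `phi = id`.
-/

set_option autoImplicit false

namespace Pool.Agent.Lib.MPbe1941.X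

open Pool.Agent.Lib.MPbe1941

section

variable {G : Type} [Group G]

/-- `O_l(N)`: the subgroup generated by the normal `l`-subgroups of the subgroup `N`. -/
def Oc (l : ℕ) (N : Subgroup G) : Subgroup G :=
  sSup {K | K ≤ N ∧ IsPGroup l K ∧ ∀ n ∈ N, ∀ k ∈ K, n * k * n⁻¹ ∈ K}

/-- The Fitting subgroup of the subgroup `N`. -/
def Fit (N : Subgroup G) : Subgroup G := sSup {K | ∃ l, l.Prime ∧ K = Oc l N}

/-- The subgroup of the elements of `K` fixing the point `w`. -/
def Stb {W : Type} [MulAction G W] (K : Subgroup G) (w : W) : Subgroup G where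
  carrier := {g | g ∈ K ∧ g • w = w}
  one_mem' := ⟨K.one_mem, one_smul G w⟩
  mul_mem' := fun {a b} ha hb => ⟨K.mul_mem ha.1 hb.1, by rw [mul_smul, hb.2, ha.2]⟩
  inv_mem' := fun {a} ha => ⟨K.inv_mem ha.1, by rw [inv_smul_eq_iff, ha.2]⟩

/-- `x` is an `l`-element. -/
def LE (l : ℕ) (x : G) : Prop := ∃ n : ℕ, x ^ l ^ n = 1

end

/-- The setting of the main proposition. -/
structure PS where
  H : Type
  G : Type
  W : Type
  [gH : Group H]
  [gG : Group G]
  [aW : AddCommGroup W]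
  [dH : DistribMulAction H W]
  [dG : DistribMulAction G W]
  phi : H →* G
  C : Subgroup H
  finH : Finite H
  finG : Finite G
  finW : Finite W
  ntW : Nontrivial W
  sol : Group.IsSolvable H
  surj : Function.Surjective phi
  cmp : ∀ (h : H) (w : W), phi h • w = h • w
  ker : ∀ h : H, phi h = 1 ↔ h ∈ C ∧ ∀ w : W, h • w = w
  nor : C.Normal
  irr : ∀ A : AddSubgroup W, (∀ h : H, ∀ x ∈ A, h • x ∈ A) → A = ⊥ ∨ A = ⊤

attribute [instance] PS.gH PS.gG PS.aW PS.dH PS.dG

instance (S : PS) : Finite S.H := S.finH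
instance (S : PS) : Finite S.G := S.finG
instance (S : PS) : Finite S.W := S.finW
instance (S : PS) : Nontrivial S.W := S.ntW
instance (S : PS) : S.C.Normal := S.nor

namespace PS

variable (S : PS)

/-- The image of `C`, it acts faithfully on `W`. -/
def N : Subgroup S.G := S.C.map S.phi

/-- `P_l = O_l(C/C₀)`. -/
def P (l : ℕ) : Subgroup S.G := Oc l S.N

/-- The Fitting subgroup of `C/C₀`. -/
def F : Subgroup S.G := Fit S.N

/-- `B_l`: the stabiliser of `w` in `P_l`. -/
def B (w : S.W) (l : ℕ) : Subgroup S.G := Stb (S.P l) w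

/-- `w` is extremal. -/
def Ext (w : S.W) : Prop :=
  w ≠ 0 ∧ ∀ v : S.W, v ≠ 0 → Nat.card (Stb S.F v) ≤ Nat.card (Stb S.F w)

/-- `T` is a Sylow `r`-subgroup of `H`, contained in `C`, abelian, fixing `w` and normal in the
stabiliser of `w` in `H` (so `r ∈ M(w)`). -/
def Mi (w : S.W) (r : ℕ) (T : Subgroup S.H) : Prop :=
  SylIn r ⊤ T ∧ T ≤ S.C ∧ (∀ x ∈ T, ∀ y ∈ T, x * y = y * x) ∧ (∀ t ∈ T, t • w = w) ∧
    ∀ h : S.H, h • w = w → ∀ t ∈ T, h * t * h⁻¹ ∈ T

/-- `T` acts non-trivially on `W`. -/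
def Nt (T : Subgroup S.H) : Prop := ∃ t ∈ T, ∃ v : S.W, t • v ≠ v

/-- `r ∈ Π`: `r ∈ M(w)` and the Sylow `r`-subgroup acts non-trivially on `W` (by `SpecPA` this says
`r ∈ M(w) \ Π₀₀`). -/
def Pr (w : S.W) (r : ℕ) (T : Subgroup S.H) : Prop := r.Prime ∧ S.Mi w r T ∧ S.Nt T

/-- `r` is a good prime of `Π`, `T` the Sylow `r`-subgroup of the stabiliser of `w`: `r` is odd,
`L_r` centralises `P_2`, and the image of `D_r` is contained in the Fitting subgroup `F`. -/
def Good (w : S.W) (r : ℕ) (T : Subgroup S.H) : Prop :=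
  S.Pr w r T ∧ r ≠ 2 ∧ (∀ h ∈ Or S.H r, ∀ g ∈ S.P 2, S.phi h * g = g * S.phi h) ∧
    (Dr S.H r).map S.phi ≤ S.F

/-- The group `D` of the vector `w`: generated by the `D_r`, `r` good. -/
def D (w : S.W) : Subgroup S.H := sSup {K | ∃ r T, S.Good w r T ∧ K = Dr S.H r}

/-- `h` centralises `P_l`. -/
def CP (l : ℕ) (h : S.H) : Prop := ∀ g ∈ S.P l, S.phi h * g = g * S.phi h

end PS

/-- A linear character of the subgroup `D`, as a function on the group. -/
def Lin {H : Type} [Group H] (D : Subgroup H) (bet : H → ℂ) : Prop :=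
  bet 1 = 1 ∧ ∀ x ∈ D, ∀ y ∈ D, bet (x * y) = bet x * bet y

/-- `h` fixes the character `bet` of `D`. -/
def FixB {H : Type} [Group H] (D : Subgroup H) (bet : H → ℂ) (h : H) : Prop :=
  ∀ x ∈ D, bet (h * x * h⁻¹) = bet x

/-- `bet` is non-trivial on the `l`-part of `D` for every prime `l` dividing the order of `D`. -/
def Full {H : Type} [Group H] (D : Subgroup H) (bet : H → ℂ) : Prop :=
  ∀ l, l.Prime → l ∣ Nat.card D → ∃ x ∈ D, LE l x ∧ bet x ≠ 1

end Pool.Agent.Lib.MPbe1941.X
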