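import Pool.Agent.Lib.MP_be1941_al.X.DefsP

/-!
# MP_be1941_al, exact bound, block PROP (H.md sections 2 and 3)

Every Spec below is a module; the complete proof is in its docstring. File `X/Xxx.lean` (`XXX` the
name of the module), `import Pool.Agent.Lib.MP_be1941_al.X.SpecP`, namespace
`Pool.Agent.Lib.MPbe1941.X`, `theorem specXXX (hYYY : SpecYYY) .. : SpecXXX`; own lemmas in the
namespace `Pool.Agent.Lib.MPbe1941.X.XXXM`. If a hypothesis of the list is not needed, drop it and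
say so when you report.

Conventions. `LE l x`: `x` is an `l`-element. Conjugation of `x` by `g` is `g * x * g⁻¹`.
-/

set_option autoImplicit false

namespace Pool.Agent.Lib.MPbe1941.X

open Pool.Agent.Lib.MPbe1941

/-! ## Part 1: pure group theory -/

/-- **OCF** [150 lines] (pure). Basic facts on `O_l(N)`.
PROOF. The set of the `l`-subgroups `K ≤ N` normalised by `N` is not empty (`⊥`) and closed under
`⊔` (for `K₁, K₂` in it: `K₁ K₂` is a subgroup as `K₂ ≤ N` normalises `K₁`; it is an `l`-group: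
`IsPGroup.to_sup_of_normal_left'` or similar in Mathlib, or every element of the sup is
`k₁ k₂` and `|K₁ K₂|` divides `|K₁| |K₂|`; it is normalised by `N`). `G` is finite: take `K` in
the set with `Nat.card K` maximal; for every other member `K'`, `K ⊔ K' = K`. So
`Oc l N = K`: (1), (2), (4), and `N` normalises `Oc l N`. (3) if `g n g⁻¹ ∈ N` for all `n ∈ N` then
also `g⁻¹ n g ∈ N` (finite), and `g (Oc l N) g⁻¹` is an `l`-subgroup of `N` normalised by `N`.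
(5) `(Oc l N) R` is an `l`-subgroup of `N` containing the Sylow subgroup `R` of `N`, so equal to `R`
(`l ∤ R.relIndex N`). (6) `x y x⁻¹ y⁻¹ ∈ Oc l N ⊓ Oc m N = ⊥` (coprime orders). -/
def SpecOCF : Prop :=
  ∀ (G : Type) [Group G] [Finite G] (l : ℕ), l.Prime → ∀ N : Subgroup G,
    Oc l N ≤ N ∧ IsPGroup l (Oc l N) ∧
    (∀ g : G, (∀ n ∈ N, g * n * g⁻¹ ∈ N) → ∀ k ∈ Oc l N, g * k * g⁻¹ ∈ Oc l N) ∧
    (∀ K : Subgroup G, K ≤ N → IsPGroup l K → (∀ n ∈ N, ∀ k ∈ K, n * k * n⁻¹ ∈ K) →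
      K ≤ Oc l N) ∧
    (∀ R : Subgroup G, SylIn l N R → Oc l N ≤ R) ∧
    ∀ m, m.Prime → m ≠ l → ∀ x ∈ Oc l N, ∀ y ∈ Oc m N, x * y = y * x

/-- **FTF** [200 lines] (pure). Basic facts on the Fitting subgroup. (3) the `l`-elements of `Fit N`
are in `O_l(N)`; (4) the `l`-part of an element is a power of it, and the rest centralises `O_l(N)`;
(5) product formula for the order of a subgroup.
PROOF. (1), (2) from OCF. `Fit N` is the sup of the pairwise commuting groups `O_l(N)` (OCF (6)), for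
the primes `l` dividing `|G|` (the others are trivial); so by `Subgroup.iSup_induction` every
`x ∈ Fit N` is `∏ x_l` with `x_l ∈ O_l(N)` commuting (or use `Subgroup.noncommPiCoprod`). Let `m` be
`= 1 mod |O_l(N)|` and `= 0 mod |O_k(N)|` for the other primes `k` dividing `|G|` (CRT): then
`x^m = x_l`, and `x^m x⁻¹ = ∏_{k ≠ l} x_k⁻¹` centralises `O_l(N)`: (4). (3) if `x` is an
`l`-element then all `x_k = x^(m_k)`, `k ≠ l`, are `l`-elements and `k`-elements, so `1`.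
(5) the map `K → ∏_l (K ⊓ O_l(N))`, `x ↦ (x^(m_l))_l` is a bijection with inverse the product
(`x_l = x^(m_l) ∈ K`); `Nat.card` of a product over `primeFactors`. -/
def SpecFTF : Prop :=
  ∀ (G : Type) [Group G] [Finite G] (N : Subgroup G),
    Fit N ≤ N ∧
    (∀ g : G, (∀ n ∈ N, g * n * g⁻¹ ∈ N) → ∀ k ∈ Fit N, g * k * g⁻¹ ∈ Fit N) ∧
    (∀ l, l.Prime → ∀ x ∈ Fit N, LE l x → x ∈ Oc l N) ∧
    (∀ l, l.Prime → ∀ x ∈ Fit N, ∃ m : ℕ, x ^ m ∈ Oc l N ∧
      ∀ y ∈ Oc l N, x ^ m * x⁻¹ * y = y * (x ^ m * x⁻¹)) ∧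
    ∀ K : Subgroup G, K ≤ Fit N →
      Nat.card K = ∏ l ∈ (Nat.card G).primeFactors, Nat.card (K ⊓ Oc l N : Subgroup G)

/-- **CFF** [80 lines] (pure). `C_N(Fit N) ≤ Fit N` for `N` solvable.
PROOF. Apply `RD.cent_le` (file RD/Red.lean) to the group `N` (as a type), `F := (Fit N).subgroupOf N`
and `X :=` the centraliser of `F` in `N` (normal in `N`). Its hypothesis `hF`: a normal `l`-subgroup `O` of
the group `N` is mapped to an `l`-subgroup of `G` contained in `N` and normalised by `N`, so it is in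
`Oc l N` by definition. -/
def SpecCFF : Prop :=
  ∀ (G : Type) [Group G] [Finite G] (N : Subgroup G), Group.IsSolvable N →
    ∀ x ∈ N, (∀ l, l.Prime → ∀ y ∈ Oc l N, x * y = y * x) → x ∈ Fit N

/-- **FTN** [180 lines] (pure). Let `D ≤ N` be normalised by `N`, `N` solvable. If for every prime `l` all
elements of `D` of order prime to `l` centralise `O_l(N)` then `D ≤ Fit N`.
PROOF. `Z := {x ∈ D : x centralises all O_l(N)} ≤ Fit N` (CFF). Let `x, y ∈ D`, `x` a `t`-element, `y` of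
order prime to `t`, `t` prime. `x` centralises `O_l(N)` for `l ≠ t`, `y` centralises `O_t(N)`. So
`z := x⁻¹ y⁻¹ x y` acts trivially on every `O_l(N)` (`l ≠ t`: `x` acts trivially; `l = t`: `y` acts
trivially): `z ∈ Z ≤ Fit N`. By FTF (4) `z = a b`, `a` a power of `z` in `O_t(N)`, `b` a power of `z`
(up to sign) centralising `O_t(N)`, of order prime to `t` (choose the decomposition of `z` in the cyclic
group generated by `z` in `t`-part and `t'`-part; the `t`-part is in `O_t(N)` by FTF (3), the `t'`-part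
is a product of elements of `O_l(N)`, `l ≠ t`). `x` commutes with `b`, `y` commutes with `a`, and `a, b`
commute. `y⁻¹ x y = x z = (x a) b`; `x a` is a `t`-element (it is in the `t`-group generated by `x`
and the normalised `t`-group `O_t(N)`), it commutes with `b`, `b` has order prime to `t`; as
`y⁻¹ x y` is a `t`-element, `b = 1`. Then `x⁻¹ y x = y z⁻¹...`: `x⁻¹ y⁻¹ x = z y⁻¹ = a y⁻¹`, `a` and `y⁻¹`
commute, `a` is a `t`-element and the orders of `y⁻¹` and of `x⁻¹ y⁻¹ x` are prime to `t`: `a = 1`. So `x`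
and `y` commute. Hence for a Sylow `t`-subgroup `T` of `D` the normaliser of `T` in `D` contains `T` and
all elements of `D` of order prime to `t`, in particular a Sylow `l`-subgroup of `D` for every prime
`l`: it is `D`. So `T` is the unique Sylow `t`-subgroup of `D`, it is normalised by `N`, so `T ≤ O_t(N)`.
`D` is generated by its Sylow subgroups (the index of `D ⊓ Fit N` in `D` is not divisible by any
prime). -/
def SpecFTN : Prop :=
  ∀ (G : Type) [Group G] [Finite G] (N D : Subgroup G), Group.IsSolvable N → D ≤ N →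
    (∀ n ∈ N, ∀ d ∈ D, n * d * n⁻¹ ∈ D) →
    (∀ l, l.Prime → ∀ x ∈ D, ¬ l ∣ orderOf x → ∀ y ∈ Oc l N, x * y = y * x) → D ≤ Fit N

/-- **THO** [150 lines] (pure). Thompson's `A × B` lemma (L1; helper16).
PROOF. Induction on `|P|`. `P B` is an `l`-group, so `P₁ := [P,B] < P` (if `P ≠ 1`), it is normalised by
`A`, `B`; `C_{P₁}(B) ≤ C_P(B)`, so `A` centralises `P₁` by induction. Three subgroups lemma:
`[P,B,A] = 1`, `[B,A,P] = 1`, so `[A,P,B] = 1`, i.e. `[A,P] ≤ C_P(B)` is centralised by `A`: for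
`a ∈ A`, `x ∈ P`, `u = a x a⁻¹ x⁻¹` commutes with `a`, `a^n x a⁻ⁿ = u^n x`, `n = orderOf a`: `u^n = 1`, `u`
is an `l`-element and `l ∤ n`: `u = 1`. -/
def SpecTHO : Prop :=
  ∀ (G : Type) [Group G] [Finite G] (l : ℕ) (P A B : Subgroup G), l.Prime → IsPGroup l P →
    IsPGroup l B → ¬ l ∣ Nat.card A → (∀ a ∈ A, ∀ x ∈ P, a * x * a⁻¹ ∈ P) →
    (∀ b ∈ B, ∀ x ∈ P, b * x * b⁻¹ ∈ P) → (∀ a ∈ A, ∀ b ∈ B, a * b = b * a) →
    (∀ a ∈ A, ∀ x ∈ P, (∀ b ∈ B, b * x = x * b) → a * x = x * a) →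
    ∀ a ∈ A, ∀ x ∈ P, a * x = x * a

/-- **LTC** [250 lines] (pure). L2 (c) (helper69). `[P,ρ]` is abelian, `ρ` acts on it by a power.
`N_P(B)/B` is cyclic: generated by `g`.
PROOF. See H.md section 2 (L2) and the message of helper69: induction on `|P|` with the
hypothesis (*) every `x ∈ C_P(B)`, `B = C_P(ρ)`, with `ρ x ρ⁻¹ = x^c` has `x = 1` or `c = 1` or `c = a`
modulo `l`. -/
def SpecLTC : Prop :=
  ∀ (G : Type) [Group G] [Finite G] (l : ℕ) (P B : Subgroup G) (ρ : G), l.Prime → l ≠ 2 →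
    IsPGroup l P → B ≤ P → (∀ x ∈ P, ρ * x * ρ⁻¹ ∈ P) → (∀ b ∈ B, ρ * b = b * ρ) →
    ¬ 2 ∣ orderOf ρ → ¬ l ∣ orderOf ρ → (∃ x ∈ P, ρ * x ≠ x * ρ) →
    (∃ g ∈ P, ∀ x ∈ P, (∀ b, b ∈ B ↔ x * b * x⁻¹ ∈ B) → ∃ n : ℤ, x * g ^ n ∈ B) →
    ∃ (a : ℤ) (Q : Subgroup G), Q ≤ P ∧
      Q = Subgroup.closure {y | ∃ x ∈ P, y = ρ * x * ρ⁻¹ * x⁻¹} ∧
      (∀ x ∈ Q, ∀ y ∈ Q, x * y = y * x) ∧ (∀ y ∈ Q, ρ * y * ρ⁻¹ = y ^ a) ∧
      Q ⊓ B = ⊥ ∧ Q ⊔ B = P ∧ (∀ x ∈ P, ρ * x = x * ρ → x ∈ B) ∧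
      ¬ (l : ℤ) ∣ a - 1 ∧ ¬ (l : ℤ) ∣ a ^ 2 - 1 ∧ (∀ x ∈ P, ∀ y ∈ Q, x * y * x⁻¹ ∈ Q) ∧
      ∃ c ∈ Q, (∀ b ∈ B, b * c = c * b) ∧
        ∀ y ∈ Q, (∀ b ∈ B, b * y = y * b) → ∃ n : ℤ, y = c ^ n

/-- **RAT** [300 lines] (pure). L3 (helper16). Ratio lemma.
PROOF. See the message 26061 of helper42: coprime action reduces to `V = P/Φ(P)`, where
`(ρ-1)(ρ-a) = 0`; two idempotents generate an algebra whose irreducible modules have dimension at
most 2. -/
def SpecRAT : Prop :=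
  ∀ (G : Type) [Group G] [Finite G] (l t : ℕ) (P T : Subgroup G) (ρ : G) (a : ℤ), l.Prime →
    l ≠ 2 → t.Prime → t ≠ l → IsPGroup l P → IsPGroup t T → (∀ x ∈ P, ρ * x * ρ⁻¹ ∈ P) →
    (∀ g ∈ T, ∀ x ∈ P, g * x * g⁻¹ ∈ P) → (∀ g ∈ T, ρ * g * ρ⁻¹ ∈ T) →
    ¬ 2 ∣ orderOf ρ → ¬ t ∣ orderOf ρ → ¬ l ∣ orderOf ρ →
    (∀ x ∈ P, ρ * (ρ * x * ρ⁻¹ * x⁻¹) * ρ⁻¹ = (ρ * x * ρ⁻¹ * x⁻¹) ^ a) →
    (t ≠ 2 ∨ ¬ 3 ∣ orderOf ρ ∨ ∀ g ∈ T, ∀ h ∈ T, g * h = h * g) →
    ∀ g ∈ T, ∀ x ∈ P, ρ * g * ρ⁻¹ * g⁻¹ * x = x * (ρ * g * ρ⁻¹ * g⁻¹)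

/-- **CEN** [150 lines] (pure). `S` an `r`-group normalising the solvable `r'`-group `D = [D,S]`, `M` a
normal subgroup of `G`, `T` an `S`-invariant Sylow `t`-subgroup of `D` centralised by `S` modulo `M`. Then
`D/(D ⊓ M)` is a `t'`-group.
PROOF. Work in `G/M`: `D̄ = [D̄,S̄]`, `T̄` is a Sylow `t`-subgroup of `D̄` (image of a Sylow subgroup),
centralised by `S̄`. Claim (for `M = 1`): `T = 1`. Induction on `|D|`. If `D = 1` fine. Let `N ≤ D` be
minimal among the non-trivial subgroups normalised by `D` and `S` (e.g. in the last non-trivial term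
of the derived series of `D`, and take there the elements of prime order `q`: so `N` is an elementary
abelian `q`-group). Apply the induction to `D/N` (in the group `N_G(N)/N`; or formulate the
induction with the subgroup `M` as in the statement, decreasing `|D : D ⊓ M|`): `t ∤ |D/N|`. If
`q ≠ t` then `t ∤ |D|`. If `q = t` then `N = T` is centralised by `S`; the centraliser of `N` in `D S`
is normal in `D S` and contains `S`, so it contains `[D,S] = D`: `N` is central in `D`. By Schur -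
Zassenhaus (or Burnside transfer) `D = N K`, `K` the set of elements of order prime to `t`, a
subgroup normalised by `S` (`Subgroup.exists_right_complement'_of_coprime`; since `N` is central
`D = N × K` and `K = {d^|N|}`: here `d ↦ d^|N|` restricted..., `K` is characteristic), and `S` is
trivial on `D/K = N`, so `[D,S] ≤ K`, `D = K`, `N = 1`, contradiction. -/
def SpecCEN : Prop :=
  ∀ (G : Type) [Group G] [Finite G] (r t : ℕ) (S D M T : Subgroup G), r.Prime → t.Prime →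
    IsPGroup r S → ¬ r ∣ Nat.card D → Group.IsSolvable D → (∀ s ∈ S, ∀ d ∈ D, s * d * s⁻¹ ∈ D) →
    D ≤ Subgroup.closure {y | ∃ s ∈ S, ∃ x ∈ D, y = s * x * s⁻¹ * x⁻¹} → M.Normal →
    SylIn t D T → (∀ s ∈ S, ∀ x ∈ T, s * x * s⁻¹ ∈ T) →
    (∀ s ∈ S, ∀ x ∈ T, s * x * s⁻¹ * x⁻¹ ∈ M) → ∀ x ∈ D, ∃ n : ℕ, ¬ t ∣ n ∧ x ^ n ∈ M

/-- **RLO** [200 lines] (pure). `r`-length one. `H` solvable with an abelian Sylow `r`-subgroup `T`.
PROOF. Let `M := O_{r'}(H)` be the sup of all normal subgroups of order prime to `r` (it has order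
prime to `r`). In `Ḡ := H/M` every normal `l`-subgroup with `l ≠ r` is trivial, so `Fit ⊤ = O_r(Ḡ)`
and its centraliser is contained in it (`RD.cent_le`, or CFF for `N = ⊤`). `O_r(Ḡ) ≤ T̄` (Sylow
subgroup) and `T̄` is abelian, so `T̄` centralises `O_r(Ḡ)`, `T̄ ≤ O_r(Ḡ)`, `T̄` is normal: `T M` is
normal in `H` and contains all Sylow `r`-subgroups. (0) all conjugates of a Sylow subgroup are Sylow
subgroups: `Or` and so `Dr = [Or,Or]` are normal. (1) `Or ≤ T M`, `Or/(Or ⊓ M)` embeds in `TM/M`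
which is abelian, so `Dr ≤ M`: `r ∤ |Dr|`. (2) `Or/Dr` is abelian, generated by the images of the
Sylow `r`-subgroups, which are all conjugate in `Or` (Sylow subgroups of `Or`): their images are
equal, `Or = Dr T`. (3) `X := [Dr,T]` (generated by the `t x t⁻¹ x⁻¹`) is normal in `Dr T = Or`
(`[ab,t] = a[b,t]a⁻¹[a,t]` and `T` is abelian), and `Dr = [Dr T, Dr T] ≤ [Dr,Dr] X`; so `Dr/X` is equal
to its own derived group, `Dr` is solvable: `Dr = X`. -/
def SpecRLO : Prop :=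
  ∀ (H : Type) [Group H] [Finite H], Group.IsSolvable H → ∀ (r : ℕ) (T : Subgroup H), r.Prime →
    SylIn r ⊤ T → (∀ x ∈ T, ∀ y ∈ T, x * y = y * x) →
    (Or H r).Normal ∧ (Dr H r).Normal ∧ T ≤ Or H r ∧ Dr H r ≤ Or H r ∧
    (¬ r ∣ Nat.card (Dr H r)) ∧
    (∀ g ∈ Or H r, ∃ d ∈ Dr H r, ∃ t ∈ T, g = d * t) ∧
    Dr H r = Subgroup.closure {y | ∃ s ∈ T, ∃ x ∈ Dr H r, y = s * x * s⁻¹ * x⁻¹}

/-- **FRA** [150 lines] (pure). Frattini complement. `D` abelian normal in `H`, `|S|` and `|D|` coprime,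
`D S` normal in `H`, `C_D(S) = 1`. Then the normaliser `K` of `S` is a complement of `D` in `H`.
PROOF. `D ⊓ K`: `d ∈ D` normalises `S`, then `d s d⁻¹ s⁻¹ ∈ S ⊓ D = 1`, so `d ∈ C_D(S) = 1`. `D K = H`: let
`h ∈ H`; `S' := h S h⁻¹ ≤ D S`. For `s' ∈ S'` let `f(s') ∈ S` be the unique element with `s' ∈ D f(s')`; `f` is
an isomorphism `S' → S` (injective as `S' ⊓ D = 1`, same order). For `s ∈ S` write `s' = c(s) s`,
`s' = f⁻¹(s)`, `c(s) ∈ D`: a cocycle `c(s s₁) = c(s) · s c(s₁) s⁻¹`. Put `e := ∏_{s ∈ S} c(s) ∈ D` (abelian):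
`e = c(s)^n · s e s⁻¹`, `n = |S|` prime to `|D|`: take `d ∈ D` with `d^n = e`: `(c(s) · s d s⁻¹ d⁻¹)^n = 1`, so
`c(s) = d s d⁻¹ s⁻¹`, `s' = d s d⁻¹`: `S' = d S d⁻¹`, so `d⁻¹ h ∈ K`. -/
def SpecFRA : Prop :=
  ∀ (H : Type) [Group H] [Finite H] (D S : Subgroup H), D.Normal →
    (∀ x ∈ D, ∀ y ∈ D, x * y = y * x) → Nat.Coprime (Nat.card D) (Nat.card S) →
    (D ⊔ S).Normal → (∀ d ∈ D, (∀ s ∈ S, s * d = d * s) → d = 1) →
    ∃ K : Subgroup H, (∀ k, k ∈ K ↔ ∀ s, s ∈ S ↔ k * s * k⁻¹ ∈ S) ∧ D ⊓ K = ⊥ ∧ D ⊔ K = ⊤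

/-- **FRC** [250 lines] (pure; helper49). `K` an `l`-subgroup, `l` odd, acting on the non-zero subgroup
`Y` of `V`; an element with a non-zero fixed point in `Y` is in `B`, and `B` is trivial on `Y`. Then `K/B` is
cyclic.
PROOF. (i) An abelian section `A` of `K/B` is cyclic: otherwise it contains `E`, of type `(l,l)`; `l` does not
divide `|Y|` (if `K ≠ B`: the orbits of an element of order `l` of `K/B` on `Y \ 0` have length `l`, so
`l ∣ |Y| - 1`); for `y ∈ Y`, `∑_{e ∈ E'} e y = 0` for every subgroup `E' ≠ 1` (it is a point fixed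
by `E'`); the `l + 1` subgroups of order `l` cover `E`: `0 = ∑_{E'} ∑_{e ∈ E'} e y = ∑_{e ∈ E} e y
+ l y = l y`, so `y = 0` for all `y`, contradiction. (ii) Let `A` be a maximal abelian normal subgroup
of `R = K/B`; it is its own centraliser and cyclic, of order `l^n`. Suppose `A ≠ R`. `R/A` embeds in
`Aut(A)`; choose `x` with `xA` of order `l` in `R/A`; `x` acts on `A` as `a ↦ a^k`, `k^l = 1 mod l^n`,
`k ≠ 1 mod l^n`; `l` odd: `k = 1 + l^(n-1) u`, `n ≥ 2`. So the centraliser of `x` in `A` is the group of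
`l`-th powers, and `[x,a]` is in the central subgroup `Z` of order `l` of `A`. `x^l ∈ A` commutes with
`x`: `x^l = b^l`, `b ∈ A`. `(x b⁻¹)^l = x^l b^(-l) [..]^(l(l-1)/2) = 1` (class 2, `l` odd). So `x b⁻¹`,
not in `A`, has order `l` and generates with `Z` a non-cyclic abelian subgroup of order `l²`:
contradiction. So `R = A` is cyclic. -/
def SpecFRC : Prop :=
  ∀ (G V : Type) [Group G] [Finite G] [AddCommGroup V] [Finite V] [DistribMulAction G V] (l : ℕ)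
    (K B : Subgroup G) (Y : AddSubgroup V), l.Prime → l ≠ 2 → IsPGroup l K → B ≤ K →
    (∀ x ∈ K, ∀ v ∈ Y, x • v ∈ Y) → (∃ v ∈ Y, v ≠ 0) → (∀ b ∈ B, ∀ v ∈ Y, b • v = v) →
    (∀ x ∈ K, ∀ v ∈ Y, v ≠ 0 → x • v = v → x ∈ B) →
    ∃ g ∈ K, ∀ x ∈ K, ∃ n : ℤ, x * g ^ n ∈ B

/-- **FRT** [300 lines] (pure; helper49). The same for `l = 2`: an element `ρ` of odd order prime to `3`
normalising `K` and `B` centralises `K/B`.
PROOF. `R := K/B`. Every abelian subgroup of `R` is cyclic (part (i) of FRC with `l = 2`; the same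
proof). `α` the automorphism of `R` induced by `ρ`. Induction on `|R|`: let `R` with `α ≠ 1` be minimal
(so every proper `α`-invariant subgroup is centralised by `α`; subgroups inherit the free action).
Coprime action: `R₁ := [R,α]` satisfies `[R₁,α] = R₁` and `R = R₁ C_R(α)`, so `R₁ = R` (otherwise `α` is
trivial on `R₁`, `R₁ = 1`). Let `K₀` be a proper characteristic subgroup of `R`: for `k ∈ K₀`, `x ∈ R`: `k` and
`x k x⁻¹` are fixed by `α`, so `x⁻¹ α(x)` commutes with `k`; these elements generate `R = [R,α]`: `K₀` is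
central. `R` abelian would be cyclic, and the automorphism group of a cyclic `2`-group is a `2`-group:
`α = 1`. So `R' ≤ Φ(R) ≤ Z := Z(R)`, `Z` is cyclic, `[x,y]² = [x²,y] = 1`: `R'` is the subgroup of order
`2` of `Z`. `R/Z` is elementary abelian with the nondegenerate alternating form `[x,y] ∈ R' = F_2`. If
`|R/Z| > 4` there are `x, u` independent modulo `Z` with `[x,u] = 1` (given `x ∉ Z`, the elements `u` with
`[x,u] = 1` form a subgroup of index `2`): `⟨x,u⟩Z` is abelian, not cyclic, contradiction. So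
`|R/Z| = 4`, its automorphism group (order 6) has no element `≠ 1` of order prime to `6`: `α` is
trivial on `R/Z` and on `Z`, so on `R` (coprime). -/
def SpecFRT : Prop :=
  ∀ (G V : Type) [Group G] [Finite G] [AddCommGroup V] [Finite V] [DistribMulAction G V]
    (K B : Subgroup G) (Y : AddSubgroup V) (ρ : G), IsPGroup 2 K → B ≤ K →
    (∀ x ∈ K, ∀ v ∈ Y, x • v ∈ Y) → (∃ v ∈ Y, v ≠ 0) → (∀ b ∈ B, ∀ v ∈ Y, b • v = v) →
    (∀ x ∈ K, ∀ v ∈ Y, v ≠ 0 → x • v = v → x ∈ B) →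
    (∀ x ∈ K, ρ * x * ρ⁻¹ ∈ K) → (∀ b ∈ B, ρ * b * ρ⁻¹ ∈ B) →
    ¬ 2 ∣ orderOf ρ → ¬ 3 ∣ orderOf ρ → ∀ x ∈ K, ρ * x * ρ⁻¹ * x⁻¹ ∈ B

/-- **LFO** [150 lines] (pure). L4 (helper69). `Q` an abelian `l`-group, `C_Q(B)` cyclic, `S` of order prime
to `l` acts on `Q` and commutes with the action of `B`. Then `S` acts on `Q` by powers.
PROOF (helper69). Let `s ∈ S` and `c ∈ Q` the generator of `C_Q(B)`; `s c s⁻¹` is again in `C_Q(B)`, so
`s c s⁻¹ = c^k`; (if `c = 1` then `Q = 1` as `B` is an `l`-group acting on the `l`-group `Q`). Choose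
`k` such that `k^m = 1 mod exp(Q)`, `m = orderOf s` (replace `k` by `k^(l^(N (l-1)) ..)`, i.e. by a
Teichmueller representative: `k ↦ k^(l^N)`, adapted). `θ(x) := s x s⁻¹ x^(-k)` is an endomorphism of
`Q` commuting with `B` and `s`, and `(X^m - 1) = (X - k) g(X)` modulo `exp(Q)`: `g(s) θ = 0`. If
`θ(Q) ≠ 1` then `θ(Q)` contains `y ≠ 1` fixed by `B` (`l`-groups), we may take `y` of order `l`:
`s y s⁻¹ = y^k` (`y` is a power of `c`), so `1 = g(s) y = y^(g(k))`, `g(k) = m k^(m-1)` is prime to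
`l`: `y = 1`, contradiction. So `s x s⁻¹ = x^k`. -/
def SpecLFO : Prop :=
  ∀ (G : Type) [Group G] [Finite G] (l : ℕ) (Q B S : Subgroup G), l.Prime → IsPGroup l Q →
    (∀ x ∈ Q, ∀ y ∈ Q, x * y = y * x) → IsPGroup l B → ¬ l ∣ Nat.card S →
    (∀ b ∈ B, ∀ x ∈ Q, b * x * b⁻¹ ∈ Q) → (∀ s ∈ S, ∀ x ∈ Q, s * x * s⁻¹ ∈ Q) →
    (∀ b ∈ B, ∀ s ∈ S, ∀ x ∈ Q, b * s * b⁻¹ * s⁻¹ * x = x * (b * s * b⁻¹ * s⁻¹)) →
    (∃ c ∈ Q, (∀ b ∈ B, b * c = c * b) ∧
      ∀ y ∈ Q, (∀ b ∈ B, b * y = y * b) → ∃ n : ℤ, y = c ^ n) →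
    ∀ s ∈ S, ∃ k : ℤ, ∀ x ∈ Q, s * x * s⁻¹ = x ^ k

end Pool.Agent.Lib.MPbe1941.X
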