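import Pool.Agent.Lib.MP_be1941_al.X.SpecP

/-!
# MP_be1941_al, exact bound, block PROP, part 2: the main proposition (H.md section 3)

Every Spec below is a module; the complete proof is in its docstring. File `X/Xxx.lean`,
`import Pool.Agent.Lib.MP_be1941_al.X.SpecQ`, namespace `Pool.Agent.Lib.MPbe1941.X`,
`theorem specXXX (hYYY : SpecYYY) .. : SpecXXX`; own lemmas in the namespace
`Pool.Agent.Lib.MPbe1941.X.XXXM`.

Notation in the docstrings: `φ = S.phi`, `C₀ = ker φ` (the elements of `C` trivial on `W`), `P_l = S.P l`,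
`B_l = S.B w l`, `L_r = Or S.H r`, `D_r = Dr S.H r`, `[a,b] = a b a⁻¹ b⁻¹`. The projection `F → P_l` is the power map of PWM. Coprime action:
`comm_eq_one` (X/THO.lean): if `a x a⁻¹ = c x`, `c` commutes with `a`, coprime orders, then `c = 1`.
-/

set_option autoImplicit false

namespace Pool.Agent.Lib.MPbe1941.X

open Pool.Agent.Lib.MPbe1941

/-- **PWM** [120 lines] (pure). The projection of the Fitting subgroup to `O_l(N)` is a power map.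
(hyps: OCF)
PROOF. `Fit N` is the sup of the pairwise commuting `k`-groups `O_k(N)`, `k` a prime dividing `|G|` (the
others are trivial); by `Subgroup.iSup_induction` (or `Subgroup.closure_induction`) every `x ∈ Fit N` is a
product `∏ x_k` of commuting elements `x_k ∈ O_k(N)`. Let `m = 1 mod |O_l(N)|`, `m = 0 mod |O_k(N)|` for the
other primes `k ∣ |G|` (CRT, `Nat.chineseRemainder` with the coprime numbers `|O_l(N)|` and
`∏_{k ≠ l} |O_k(N)|`). Let `R` be the sup of the `O_k(N)`, `k ≠ l`: it commutes with `O_l(N)`,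
`Fit N = O_l(N) R`, and `y^m = 1` for `y ∈ R` (its order divides the product: `R` is a product of commuting
groups of these orders). So `x = a y`, `a ∈ O_l(N)`, `y ∈ R` gives `x^m = a`, `x^m x⁻¹ = y⁻¹`, and
`x ↦ x^m` is multiplicative (`a y a' y' = a a' y y'`). -/
def SpecPWM : Prop :=
  ∀ (G : Type) [Group G] [Finite G] (N : Subgroup G) (l : ℕ), l.Prime → ∃ m : ℕ,
    (∀ x ∈ Fit N, x ^ m ∈ Oc l N) ∧ (∀ x ∈ Oc l N, x ^ m = x) ∧
    (∀ x ∈ Fit N, ∀ y ∈ Fit N, (x * y) ^ m = x ^ m * y ^ m) ∧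
    ∀ x ∈ Fit N, ∀ y ∈ Oc l N, x ^ m * x⁻¹ * y = y * (x ^ m * x⁻¹)

/-- **PSB** [120 lines]. Basic facts on the setting. (hyps: OCF, FTF)
PROOF. (1) image of a normal subgroup under a surjective map; `N` is a quotient of a subgroup of
`H`. (2) `g = φ c`, `c ∈ C`, trivial on `W`: `φ c = 1` by `ker`. (3), (4) OCF, FTF with `g n g⁻¹ ∈ N`.
(5) `{v : ∀ g ∈ K, g • v = v}` is an additive subgroup invariant under `H` (`h • v = φ h • v`, `K` normal),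
it contains `w ≠ 0`, so it is `⊤` by `irr`. (6) the same in `H`. (7) definition of `N`, `cmp`.
(8) `C₀` is normal and `Or` of a `T ≤ C` is in `C`: every Sylow `r`-subgroup is a conjugate of `T`
(CO.specSYL), `C` is normal. (9) `Or` and `Dr` are normal for every `r` prime. -/
def SpecPSB : Prop :=
  ∀ S : PS, S.N.Normal ∧ Group.IsSolvable S.N ∧
    (∀ g ∈ S.N, (∀ v : S.W, g • v = v) → g = 1) ∧
    (∀ l, l.Prime → (S.P l).Normal ∧ IsPGroup l (S.P l) ∧ S.P l ≤ S.N) ∧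
    (S.F.Normal ∧ S.F ≤ S.N) ∧
    (∀ K : Subgroup S.G, K.Normal → ∀ w : S.W, w ≠ 0 → (∀ g ∈ K, g • w = w) →
      ∀ g ∈ K, ∀ v : S.W, g • v = v) ∧
    (∀ K : Subgroup S.H, K.Normal → ∀ w : S.W, w ≠ 0 → (∀ g ∈ K, g • w = w) →
      ∀ g ∈ K, ∀ v : S.W, g • v = v) ∧
    (∀ g ∈ S.N, ∃ c ∈ S.C, S.phi c = g ∧ ∀ v : S.W, c • v = g • v) ∧
    (∀ (r : ℕ) (T : Subgroup S.H), r.Prime → SylIn r ⊤ T → T ≤ S.C → Or S.H r ≤ S.C) ∧
    ∀ r, r.Prime → (Or S.H r).Normal ∧ (Dr S.H r).Normal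

/-- **PAA** [150 lines]. H.md section 3 (a). `w ≠ 0`, `r ∈ M(w)`. (hyps: PSB, OCF, FTF, CFF)
(1) if `T` is trivial on `W` then it is normal in `H`; (2) `P_r = 1`; (3) `φ(T)` commutes with `B_l`;
(4) if `T` is non-trivial on `W` then it is non-trivial on some `P_l`, `l ≠ r`.
PROOF. (1) `T ≤ C₀` which is normal in `H` and fixes `w`, so it normalises `T`: `T` is the unique Sylow
`r`-subgroup of `C₀` (CO.specSYL), `h T h⁻¹ ≤ C₀` is another one. (2) `φ(T)` is a Sylow `r`-subgroup of `N`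
(`T ≤ C` is one of `C`; index of the image divides the index), so `P_r ≤ φ(T)` (OCF (5)) fixes `w`; `P_r`
is normal in `G`, so it is trivial on `W` (PSB), so `1`. (3) `b ∈ B_l`, `t ∈ T`: `l = r` is clear by (2). `b = φ c`,
`c ∈ C`, `c • w = w`, so `c t c⁻¹ ∈ T`: `[b, φ t] = φ (c t c⁻¹ t⁻¹) ∈ φ(T)`, and it is in `P_l` (normal in `G`): an
`l`-element and an `r`-element, so `1`. (4) otherwise (with (2)) `φ(T)` centralises all `P_l`, so
`φ(T) ≤ F` (CFF), its elements are `r`-elements, in `P_r = 1` (FTF (3)): `T ≤ ker φ` is trivial on `W`. -/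
def SpecPAA : Prop :=
  ∀ (S : PS) (w : S.W) (r : ℕ) (T : Subgroup S.H), w ≠ 0 → r.Prime → S.Mi w r T →
    ((∀ t ∈ T, ∀ v : S.W, t • v = v) → T.Normal) ∧ S.P r = ⊥ ∧
    (∀ l, l.Prime → ∀ b ∈ S.B w l, ∀ t ∈ T, b * S.phi t = S.phi t * b) ∧
    (S.Nt T → ∃ l, l.Prime ∧ l ≠ r ∧ ∃ t ∈ T, ¬ S.CP l t)

/-- **PSR** [100 lines]. Semiregularity. `w` extremal. (hyps: PSB, FTF)
PROOF. `B := Stb F w`. (1) `b ∈ B`; by FTF (4) `b^m ∈ P_l` and `b^m b⁻¹` centralises `P_l`; `b^m ∈ B_l`.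
`x⁻¹ b x = x⁻¹ b^m x · (b^m b⁻¹)⁻¹` (careful with the order, all powers of `b` commute with each other and
`b^m b⁻¹` commutes with `x`): in `B_l B ≤ B`. So `b (x v) = x (x⁻¹ b x) v = x v`. (2) `B ≤ Stb F v`, so by
maximality (`Subgroup.eq_of_le_of_card_ge`) `Stb F v = B`, and `x ∈ Stb F v` (`P_l ≤ F`), so `x ∈ B`,
`x ∈ P_l`, `x • w = w`. -/
def SpecPSR : Prop :=
  ∀ (S : PS) (w : S.W), S.Ext w → ∀ l, l.Prime → ∀ x ∈ S.P l,
    (∀ b, b ∈ S.B w l ↔ x * b * x⁻¹ ∈ S.B w l) →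
    ∀ v : S.W, (∀ b ∈ Stb S.F w, b • v = v) →
      (∀ b ∈ Stb S.F w, b • (x • v) = x • v) ∧ (v ≠ 0 → x • v = v → x ∈ S.B w l)

/-- **PBC** [120 lines]. H.md section 3 (b). `w` extremal. (hyps: PSR, FRC, FRT)
PROOF. `K := {x ∈ P_l : x normalises B_l}` (a subgroup), `Y := {v : all b ∈ Stb F w fix v}` (an additive
subgroup, `w ∈ Y`, `w ≠ 0`). PSR: `K` acts on `Y` and an element with a fixed point is in `B_l`. `B_l ≤ Stb F w`
is trivial on `Y`. FRC, FRT. -/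
def SpecPBC : Prop :=
  ∀ (S : PS) (w : S.W), S.Ext w →
    (∀ l, l.Prime → l ≠ 2 → ∃ g ∈ S.P l, ∀ x ∈ S.P l,
      (∀ b, b ∈ S.B w l ↔ x * b * x⁻¹ ∈ S.B w l) → ∃ n : ℤ, x * g ^ n ∈ S.B w l) ∧
    ∀ ρ : S.G, (∀ b ∈ S.B w 2, ρ * b = b * ρ) → ¬ 2 ∣ orderOf ρ → ¬ 3 ∣ orderOf ρ →
      ∀ x ∈ S.P 2, (∀ b, b ∈ S.B w 2 ↔ x * b * x⁻¹ ∈ S.B w 2) → ρ * x * ρ⁻¹ * x⁻¹ ∈ S.B w 2

/-- The conclusion of L2 (c) for `P_l`, `B_l` and `ρ = φ t`: with `Q = [P_l, ρ]`, `ρ` acts on `Q` as the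
power `a`. -/
def PS.Pow (S : PS) (w : S.W) (l : ℕ) (t : S.H) (a : ℤ) (Q : Subgroup S.G) : Prop :=
  Q ≤ S.P l ∧ Q = Subgroup.closure {y | ∃ x ∈ S.P l, y = S.phi t * x * (S.phi t)⁻¹ * x⁻¹} ∧
    (∀ x ∈ Q, ∀ y ∈ Q, x * y = y * x) ∧ (∀ y ∈ Q, S.phi t * y * (S.phi t)⁻¹ = y ^ a) ∧
    Q ⊓ S.B w l = ⊥ ∧ Q ⊔ S.B w l = S.P l ∧
    (∀ x ∈ S.P l, S.phi t * x = x * S.phi t → x ∈ S.B w l) ∧
    ¬ (l : ℤ) ∣ a - 1 ∧ ¬ (l : ℤ) ∣ a ^ 2 - 1 ∧ (∀ x ∈ S.P l, ∀ y ∈ Q, x * y * x⁻¹ ∈ Q) ∧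
    ∃ c ∈ Q, (∀ b ∈ S.B w l, b * c = c * b) ∧
      ∀ y ∈ Q, (∀ b ∈ S.B w l, b * y = y * b) → ∃ n : ℤ, y = c ^ n

/-- **PCC** [150 lines]. H.md section 3 (c). `w` extremal, `r ∈ M(w)` odd, `t ∈ T`.
(hyps: PAA, PBC, LTC, THO)
PROOF. `ρ := φ t` has order a power of `r`, so odd; it normalises `P_l` and commutes with `B_l` (PAA (3)).
(1) `¬ CP l t` so `P_l ≠ 1`, `l ≠ r` (PAA (2)), `l ∤ orderOf ρ`; LTC with PBC. (2) `3 ∤ orderOf ρ`. Let
`x ∈ P_2` commute with all of `B_2`: it normalises `B_2`, so `ρ x ρ⁻¹ = b x` with `b ∈ B_2` by PBC; `ρ` commutes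
with `b`; coprime orders: `b = 1` (`comm_eq_one`). So `ρ`, hence `A := ⟨ρ⟩`, centralises `C_{P_2}(B_2)`:
THO (`P := P_2`, `B := B_2`). -/
def SpecPCC : Prop :=
  ∀ (S : PS) (w : S.W), S.Ext w → ∀ (r : ℕ) (T : Subgroup S.H), r.Prime → r ≠ 2 → S.Mi w r T →
    ∀ t ∈ T, (∀ l, l.Prime → l ≠ 2 → ¬ S.CP l t → ∃ a Q, S.Pow w l t a Q) ∧
      (5 ≤ r → S.CP 2 t)

/-- **PCG** [120 lines]. The same for the group `T`: `[P_l, t]` does not depend on `t ∈ T`, nor on `r`.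
`r, r' ∈ M(w)` odd. (hyps: PAA, PCC)
PROOF. Let `t ∈ T`, `t' ∈ T'` be non-trivial on `P_l`, `Q, Q'` from PCC. `φ t` and `φ t'` commute: if `T = T'` (same
prime) `T` is abelian; else `[t,t'] ∈ T ⊓ T' = 1` since both are normal in the stabiliser of `w` and coprime
(for the same prime `T = T'`: the Sylow subgroup of the stabiliser is unique). `φ t'` normalises `Q`
(it commutes with `φ t` and normalises `P_l`), and `Q ⊓ B_l = 1`, so `y ↦ [φ t', y]` is an injective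
endomorphism of the finite abelian group `Q` (kernel: elements of `Q` commuting with `φ t'` are in
`B_l`), so it is onto: `Q ≤ Q'`. By symmetry `Q = Q'`. -/
def SpecPCG : Prop :=
  ∀ (S : PS) (w : S.W), S.Ext w → ∀ (r r' : ℕ) (T T' : Subgroup S.H), r.Prime → r ≠ 2 →
    r'.Prime → r' ≠ 2 → S.Mi w r T → S.Mi w r' T' → ∀ t ∈ T, ∀ t' ∈ T', t * t' = t' * t ∧
      ∀ l, l.Prime → l ≠ 2 → ∀ a Q a' Q', S.Pow w l t a Q → S.Pow w l t' a' Q' → Q = Q'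

/-- **PDG** [200 lines]. Criterion for good primes. (hyps: PSB, PAA, FTN, CEN, RLO)
PROOF. `L_r` centralises `P_2`: `T` does, `L_r` is generated by the conjugates of `T` (Sylow), and
`{h : CP 2 h}` is a normal subgroup of `H` (`P_2` is normal in `G`, `φ` surjective). `φ(D_r) ≤ F`: we apply
FTN to `φ(D_r)` (normal in `G`, contained in `N`, as `L_r ≤ C` by PSB). Let `l` be a prime, `x ∈ D_r`,
`l ∤ orderOf (φ x)`; to show: `CP l x`. `l = 2`: above. `l = r`: `P_r = 1` (PAA). Otherwise let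
`M := {h : CP l h}`, normal in `H`. For every prime `t ≠ l` let `T₁` be a `T`-invariant Sylow `t`-subgroup
of `D_r` (XF.exists_inv_sylow, `r ∤ |D_r|` by RLO). Hypothesis: `[T,T₁] ≤ M`. CEN: some `x^n ∈ M` with
`t ∤ n`. So the order of `x` modulo `M` is prime to every `t ≠ l`, and it divides `orderOf (φ x)` (as `ker φ ≤
M`), so it is prime to `l` too: `x ∈ M`. -/
def SpecPDG : Prop :=
  ∀ (S : PS) (w : S.W) (r : ℕ) (T : Subgroup S.H), w ≠ 0 → S.Pr w r T → r ≠ 2 →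
    (∀ t ∈ T, S.CP 2 t) →
    (∀ l t, l.Prime → l ≠ 2 → l ≠ r → t.Prime → t ≠ l → ∀ T₁ : Subgroup S.H,
      SylIn t (Dr S.H r) T₁ → (∀ s ∈ T, ∀ x ∈ T₁, s * x * s⁻¹ ∈ T₁) →
        ∀ s ∈ T, ∀ x ∈ T₁, S.CP l (s * x * s⁻¹ * x⁻¹)) → S.Good w r T

/-- **PDA** [150 lines]. The primes `≥ 5` are good, and `3` is good if `2 ∈ M(w)`. `w` extremal.
(hyps: PSB, PAA, PCC, PDG, RAT, RLO)
PROOF. PDG. First hypothesis: `r ≥ 5`: PCC (2). `r = 3`, `2 ∈ M(w)`: `P_2 = 1` by PAA (2). Second hypothesis: if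
`CP l s` then `CP l [s,x]` as `{CP l}` is normal. Otherwise PCC (1): `Q, a`. `t = r`: `T₁ = 1`, as `r ∤ |D_r|`
(RLO). `t ≠ r`: RAT in the group `G` with `P := P_l`, `T := φ(T₁)`, `ρ := φ s`; `y := [ρ,x] ∈ Q` for `x ∈ P_l`, so
`ρ y ρ⁻¹ = y^a`. Last hypothesis of RAT: `r ≥ 5`: `3 ∤ orderOf ρ`. `r = 3`: if `t = 2` then `T₁` is contained in a
Sylow `2`-subgroup of `H`, which is abelian, so `φ(T₁)` is abelian. -/
def SpecPDA : Prop :=
  ∀ (S : PS) (w : S.W), S.Ext w → ∀ (r : ℕ) (T : Subgroup S.H), S.Pr w r T →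
    (5 ≤ r ∨ (r = 3 ∧ ∃ T₂, S.Mi w 2 T₂)) → S.Good w r T

/-- **PDB** [250 lines]. The group `D_r`, `r` good. (hyps: PSB, PAA, PCC, FTF, RLO, OCF, PWM)
PROOF. `L_r ≤ C` (PSB). RLO: `r ∤ |D_r|`, `L_r = D_r T`, `D_r` is generated by the `[s,x]`, `s ∈ T`, `x ∈ D_r`.
(z) `Z := D_r ⊓ C₀` is centralised by `L_r`: for `z ∈ Z`, `s ∈ T`: `z` fixes `w`, so `[z,s] ∈ T`, and `[z,s] ∈ D_r`
(normal): orders prime, `[z,s] = 1`. `Z` is normal in `H`, so every conjugate of `T` centralises `Z`, they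
generate `L_r`. (y) Let `l` be a prime, `s ∈ T`, `¬ CP l s`: `l ≠ 2` (Good), `l ≠ r`; PCC: `Q = [P_l, φ s]`.
`Q = φ(D_r) ⊓ P_l`: `[φ s, x] ∈ φ(L_r)` for `x ∈ P_l` (`φ(L_r)` is normal in `G`), it is an `l`-element, and
`φ(L_r) = φ(D_r) φ(T)`: it is in `φ(D_r)` (an `l`-element of `φ(D_r) φ(T)` modulo `φ(D_r)` is an `r`-element).
So `Q ≤ φ(D_r) ⊓ P_l`. Conversely `φ(D_r) ≤ F` is generated by the `[φ s', y]`, `s' ∈ T`, `y ∈ φ(D_r)`;
with FTF (4) (`y = y_l y'`, `y_l ∈ P_l` and `y'` a product of elements of the other `P_k`, normal in `G`) the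
`l`-part of `[φ s', y]` is in `[P_l, φ s']`, which is trivial or `= Q` (for `s'` with `¬ CP l s'` the same
argument as in PCG, `T` abelian). So the `l`-part of the subgroup generated by them (inside the
nilpotent group `F`, the product of the `P_k`; the projection of `F` to `P_l`, `x ↦ x_l`, is a homomorphism
commuting with conjugation) is `≤ Q`. If no `s ∈ T` is non-trivial on `P_l` the same argument gives
`φ(D_r) ⊓ P_l = 1`. In particular `φ(D_r)` is abelian. (x) For `s ∈ T` there is `k ∈ ℤ` with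
`φ s y (φ s)⁻¹ = y^k` for all `y ∈ φ(D_r)` and, for every prime `l` with `¬ CP l s`, `k = a_l mod |Q_l|`, so
`l ∤ k² - 1` (CRT over the `l` with `φ(D_r) ⊓ P_l ≠ 1`; `k = 1` modulo it if `CP l s`). (w) `D_r` is abelian: let
`x, y ∈ D_r`, `c := [x,y]`; `φ(D_r)` abelian, so `c ∈ Z` is central in `L_r`. So `[·,·]` is bimultiplicative on
`D_r` and only depends on the classes modulo `Z`: `c = s c s⁻¹ = [s x s⁻¹, s y s⁻¹] = [x^k, y^k] = c^(k²)`. If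
`c ≠ 1` let `l` be a prime dividing the order of `c`; `c^|φ(D_r)| = [x^|φ(D_r)|, y] = 1`, so `l ∣ |φ(D_r)|`, so
`φ(D_r) ⊓ P_l ≠ 1` and some `s ∈ T` has `¬ CP l s`: `l ∣ k² - 1`, contradiction. (v) `D_r` abelian and
`D_r = [D_r,T]`: `C_{D_r}(T) = 1` (XF.comm_inf_cen or norm map `x ↦ ∏_{s ∈ T} s x s⁻¹`), so `Z = 1`: (3).
Conclusions: (1), (2) done. (5) if `D_r = 1` then `φ(D_r) = 1`, but by PAA (4) some `¬ CP l s`, `Q ≠ 1` (else
`φ s` centralises `P_l`). (6) `φ x ∈ F` is an `l`-element, FTF (3). (7) if `CP l s` then `φ [s,x] = 1`, so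
`[s,x] ∈ Z = 1`. (8) `φ x ∈ φ(D_r) ⊓ P_l = Q`, so `φ (s x s⁻¹) = φ (x^a)` and `Z = 1`. -/
def SpecPDB : Prop :=
  ∀ (S : PS) (w : S.W), S.Ext w → ∀ (r : ℕ) (T : Subgroup S.H), S.Good w r T →
    Dr S.H r ≤ S.C ∧ (∀ x ∈ Dr S.H r, ∀ y ∈ Dr S.H r, x * y = y * x) ∧
    (∀ x ∈ Dr S.H r, (∀ v : S.W, x • v = v) → x = 1) ∧
    (∀ x ∈ Dr S.H r, (∀ s ∈ T, s * x = x * s) → x = 1) ∧ Dr S.H r ≠ ⊥ ∧
    (∀ l, l.Prime → ∀ x ∈ Dr S.H r, LE l x → S.phi x ∈ S.P l) ∧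
    (∀ l, l.Prime → ∀ s ∈ T, S.CP l s → ∀ x ∈ Dr S.H r, LE l x → s * x = x * s) ∧
    (∀ l, l.Prime → ∀ s ∈ T, ¬ S.CP l s → l ≠ 2 ∧ l ≠ r ∧ ∃ a Q, S.Pow w l s a Q ∧
      (∀ x ∈ Dr S.H r, LE l x → s * x * s⁻¹ = x ^ a) ∧
      (Dr S.H r).map S.phi ⊓ S.P l = Q)

/-- **PDC** [250 lines]. The group `D = D(w)`. (hyps: PSB, PAA, PDB, PCG, RLO)
PROOF. `D ≤ C` and normal: sup of normal subgroups. (i) KEY: let `r₁, r` be good, `T` for `r`, `t ∈ T` with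
`¬ CP l t`, `x ∈ D_{r₁}` an `l`-element. Then `x ∈ D_r`. Let `E` be the group of the `l`-elements of `D_{r₁}` (abelian
group), normal in `H`; we may assume `E ≠ 1`. Some `s ∈ T₁` (the `T` of `r₁`) has `¬ CP l s` (else `E` is
centralised by `T₁` by PDB (7), `E = 1` by PDB (4)); `φ(E) ≤ φ(D_{r₁}) ⊓ P_l = Q`, `Q ⊓ B_l = 1`. Elements of
`P_l` commuting with `φ t` are in `B_l` (PDB (8) for `r`). So `y ↦ [t,y]` on `E` has trivial kernel (`φ` is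
injective on `D_{r₁}` by PDB (3)); it is an endomorphism of the finite abelian group `E` (normal in `H`), so
it is onto: `x = t y t⁻¹ y⁻¹ ∈ L_r` (normal in `H`, contains `t`), and `x` is an `l`-element, `l ≠ r`,
`L_r = D_r T` (RLO): `x ∈ D_r`. (ii) `D_{r₁}` and `D_{r₂}` commute: both are abelian, generated by their
elements of prime power order. `x ∈ D_{r₁}` an `l`-element, `y ∈ D_{r₂}` an `l'`-element, both `≠ 1`. If
`l ≠ l'`: `φ x ∈ P_l`, `φ y ∈ P_{l'}` commute (`[φ x, φ y]` in the intersection), so `[x,y] ∈ D_{r₁} ⊓ ker φ`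
is trivial on `W`, `= 1` by PDB (3). If `l = l'`: some `t ∈ T₂` has `¬ CP l t`, so `x ∈ D_{r₂}` by (i), abelian.
(iii) So `D` is abelian, every `x ∈ D` is a product of elements of the `D_r`, and if `x` is an `l`-element
it is a product of `l`-elements of the `D_r` (raise to a power `m`, `m = 1` modulo the `l`-part and `= 0`
modulo the `l'`-part of `|D|`). (3) each factor `x_i ∈ D_{r_i}` is in `D_r` by (i). (4) some factor `x_i ≠ 1`,
then some `s ∈ T_i` has `¬ CP l s`. (2) let `x ∈ D` be trivial on `W`, `x ≠ 1`: some power is an `l`-element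
`≠ 1`, trivial on `W`; by (4) and (3) it is in some `D_r`: `1` by PDB (3). (5) otherwise let `x ∈ D` have order
`r`: by (4), (3) it is in some `D_{r'}`, `φ x ∈ P_r = 1` (PAA (2)), so `x = 1`. (6) a power of `x` is an
`l`-element `≠ 1` commuting with all `T`; (4), (3), PDB (4). (7) `φ x` by (3), (4) and PDB (6). (8) by (3)
and (4), PDB (8). -/
def SpecPDC : Prop :=
  ∀ (S : PS) (w : S.W), S.Ext w →
    ((S.D w).Normal ∧ S.D w ≤ S.C ∧ ∀ x ∈ S.D w, ∀ y ∈ S.D w, x * y = y * x) ∧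
    (∀ x ∈ S.D w, (∀ v : S.W, x • v = v) → x = 1) ∧
    (∀ (r l : ℕ) (T : Subgroup S.H), l.Prime → S.Good w r T → (∃ t ∈ T, ¬ S.CP l t) →
      ∀ x ∈ S.D w, LE l x → x ∈ Dr S.H r) ∧
    (∀ l, l.Prime → ∀ x ∈ S.D w, LE l x → x ≠ 1 → ∃ r T, S.Good w r T ∧ ∃ t ∈ T, ¬ S.CP l t) ∧
    (∀ r T, S.Good w r T → ¬ r ∣ Nat.card (S.D w)) ∧
    (∀ x ∈ S.D w, (∀ r T, S.Good w r T → ∀ t ∈ T, t * x = x * t) → x = 1) ∧
    (∀ l, l.Prime → ∀ x ∈ S.D w, LE l x → S.phi x ∈ S.P l) ∧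
    (∀ (r l : ℕ) (T : Subgroup S.H), l.Prime → S.Good w r T → ∀ t ∈ T, ¬ S.CP l t →
      l ≠ 2 ∧ l ≠ r ∧ ∃ a Q, S.Pow w l t a Q ∧ (∀ x ∈ S.D w, LE l x → t * x * t⁻¹ = x ^ a) ∧
        (S.D w).map S.phi ⊓ S.P l = Q)

/-- **PEC** [120 lines]. `D` is complemented in `H`. (hyps: PSB, PDC, PCG, RLO, FRA)
PROOF. `A := sSup {T | ∃ r, Good w r T}`. The groups `T` commute (PCG; good primes are odd), so every
element of `A` is a product of elements of such `T` (commuting): a prime dividing `|A|` divides some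
`|T|`, it is a good prime `r`, `r ∤ |D|` (PDC (5)): `|A|`, `|D|` are coprime. `D ⊔ A = ⨆ (D_r ⊔ T) = ⨆ L_r`
(RLO) is normal. `C_D(A) = 1` by PDC (6). FRA. -/
def SpecPEC : Prop :=
  ∀ (S : PS) (w : S.W), S.Ext w → ∃ K : Subgroup S.H, S.D w ⊓ K = ⊥ ∧ S.D w ⊔ K = ⊤

/-- `E` is an abelian normal subgroup of `H`, contained in `C`, faithful on `W`, its `l`-elements are
mapped into `P_l`. -/
def PS.Adm (S : PS) (E : Subgroup S.H) : Prop :=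
  E.Normal ∧ E ≤ S.C ∧ (∀ x ∈ E, ∀ y ∈ E, x * y = y * x) ∧
    (∀ x ∈ E, (∀ v : S.W, x • v = v) → x = 1) ∧
    ∀ l, l.Prime → ∀ x ∈ E, LE l x → S.phi x ∈ S.P l

/-- `C_{E_l}(P_l)` is cyclic for all primes `l` dividing `|E|`. -/
def PS.Cyc (S : PS) (E : Subgroup S.H) : Prop :=
  ∀ l, l.Prime → l ∣ Nat.card E → ∃ c ∈ E, LE l c ∧ S.CP l c ∧
    ∀ y ∈ E, LE l y → S.CP l y → ∃ n : ℤ, y = c ^ n

/-- `bet` is invariant under the preimages of the `P_l`, `l` dividing `|E|`. -/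
def PS.InvB (S : PS) (E : Subgroup S.H) (bet : S.H → ℂ) : Prop :=
  ∀ l, l.Prime → l ∣ Nat.card E → ∀ h ∈ S.C, S.phi h ∈ S.P l → FixB E bet h

/-- **PEA** [100 lines]. `D(w)` is admissible, and `C_{D_l}(P_l)` is cyclic. (hyps: PDC, PSB)
PROOF. `Adm`: PDC. `Cyc`: `l ∣ |D|`: there is an `l`-element `x ≠ 1` in `D`, so by PDC (4) a good `r`, `t ∈ T` with
`¬ CP l t`, and by PDC (8) `Pow w l t a Q` with `Q = φ(D) ⊓ P_l`. Let `c' ∈ Q` be its generator of `C_Q(B_l)`.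
`C_Q(P_l)` is a subgroup of the cyclic group `C_Q(B_l)`, so it is cyclic, generated by `c''`; `c'' = φ c`,
`c ∈ D`; replacing `c` by a power (prime to `l` part removed) `c` is an `l`-element (`φ` is injective on `D`, so
`c` has the order of `c''`). For `y ∈ D` an `l`-element with `CP l y`: `φ y ∈ φ(D) ⊓ P_l = Q`, so
`φ y = c''^n`, `y = c^n`. -/
def SpecPEA : Prop :=
  ∀ (S : PS) (w : S.W), S.Ext w → S.Adm (S.D w) ∧ S.Cyc (S.D w)

/-- The `l`-part of a subgroup `E` (for abelian `E`: the set of its `l`-elements). -/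
def Lp {H : Type} [Group H] (l : ℕ) (E : Subgroup H) : Subgroup H :=
  Subgroup.closure {x | x ∈ E ∧ LE l x}

/-- `Q` is a special `l`-subgroup: a complemented abelian normal `l`-subgroup of `H` in `C`, faithful on
`W`, mapped into `P_l`, with `C_Q(P_l)` cyclic. -/
def PS.Spc (S : PS) (l : ℕ) (Q : Subgroup S.H) : Prop :=
  l.Prime ∧ Q.Normal ∧ Q ≤ S.C ∧ IsPGroup l Q ∧ (∀ x ∈ Q, ∀ y ∈ Q, x * y = y * x) ∧
    (∀ x ∈ Q, (∀ v : S.W, x • v = v) → x = 1) ∧ (∀ x ∈ Q, S.phi x ∈ S.P l) ∧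
    (∃ c ∈ Q, S.CP l c ∧ ∀ y ∈ Q, S.CP l y → ∃ n : ℤ, y = c ^ n) ∧
    ∃ K : Subgroup S.H, Q ⊓ K = ⊥ ∧ Q ⊔ K = ⊤

/-- **SPA** [150 lines]. The `l`-parts of `D(w)` are special; a good `r` with `T` non-trivial on `P_l` acts
on it by a power `a`, `l ∤ a - 1`. (hyps: PSB, PDC, PEC, PEA)
PROOF. `D` is abelian: `Lp l D = {x ∈ D : LE l x}` (this set is a subgroup), normal in `H`. It is
complemented: `D = Lp l D × D'`, `D'` the elements of order prime to `l`, and `K' := D' K`, `K` the complement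
of `D` (`D'` is normal). The rest is PEA (`Adm`, `Cyc`; if `l ∤ |D|` then `Lp l D = 1`, `c = 1`) and PDC (8):
(2) `Lp l D ≠ 1` iff `¬ CP l t` for some good `r`, `t ∈ T` (PDC (4); conversely `Q = φ(D) ⊓ P_l ≠ 1`). -/
def SpecSPA : Prop :=
  ∀ (S : PS) (w : S.W), S.Ext w → ∀ l, l.Prime → S.Spc l (Lp l (S.D w)) ∧
    (∀ x, x ∈ Lp l (S.D w) ↔ x ∈ S.D w ∧ LE l x) ∧
    ((∃ r T, S.Good w r T ∧ ∃ t ∈ T, ¬ S.CP l t) → Lp l (S.D w) ≠ ⊥) ∧
    ∀ r T, S.Good w r T → ∀ t ∈ T, ¬ S.CP l t → ∃ a : ℤ, ¬ (l : ℤ) ∣ a - 1 ∧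
      ∀ x ∈ Lp l (S.D w), t * x * t⁻¹ = x ^ a

/-- **SPM** [150 lines]. A family of special subgroups for different primes: its sup `E` is admissible,
`Cyc`, complemented, and `Q l` is its `l`-part. (hyps: PSB)
PROOF. Induction on the finite set `I`. The `Q l` are normal of coprime orders, so they commute and `E` is
their direct product: `x ∈ E` is `∏ x_l`, `x_l ∈ Q l` a power of `x`. So the `l`-elements of `E` are the
elements of `Q l` if `l ∈ I`, and `1` otherwise. Faithful: a non-trivial `x ∈ E` trivial on `W` has a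
non-trivial power in some `Q l`. Complement: let `E₁ = E_I`, `E₂ = Q l`, `l ∉ I`, with complements `K₁`, `K₂`:
`E₂ ≤ ` ... `K₁ ⊓ E₁ E₂` is a complement of `E₁` in `E₁ E₂ = E₁ × E₂`; `|K₂| = |H|/|E₂|`. Put
`K := K₁ ⊓ K₂'`, where we first replace `K₂` by a conjugate? Simplest: `K₁` and `K₂` have coprime indices
`|E₁|`, `|E₂|`, so `|H : K₁ ⊓ K₂| = |E₁| |E₂|` (`Subgroup.index_inf_of_coprime` or
`Nat.Coprime` + `relIndex`), and `E ⊓ (K₁ ⊓ K₂) = 1`: `x = x₁ x₂` in it, `x₁`, `x₂` are powers of `x`, so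
`x₁ ∈ E₁ ⊓ K₁ = 1`, `x₂ ∈ E₂ ⊓ K₂ = 1`. By orders `E (K₁ ⊓ K₂) = H`. -/
def SpecSPM : Prop :=
  ∀ (S : PS) (I : Finset ℕ) (Q : ℕ → Subgroup S.H), (∀ l ∈ I, S.Spc l (Q l)) →
    S.Adm (sSup {K | ∃ l ∈ I, K = Q l}) ∧ S.Cyc (sSup {K | ∃ l ∈ I, K = Q l}) ∧
    (∃ K : Subgroup S.H, sSup {K | ∃ l ∈ I, K = Q l} ⊓ K = ⊥ ∧
      sSup {K | ∃ l ∈ I, K = Q l} ⊔ K = ⊤) ∧
    (∀ l ∈ I, ∀ x, (x ∈ sSup {K | ∃ l ∈ I, K = Q l} ∧ LE l x) ↔ x ∈ Q l) ∧
    ∀ l, l.Prime → l ∣ Nat.card (sSup {K | ∃ l ∈ I, K = Q l} : Subgroup S.H) → l ∈ I ∧ Q l ≠ ⊥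

/-- **PBX** [250 lines]. Existence of an invariant `bet` on an admissible group `E`. (hyps: PSB)
PROOF. `E` is a finite abelian group; `X := (E →* ℂˣ)` its dual. For a prime `l ∣ |E|` let `X_l` be the
subgroup of the `χ ∈ X` trivial on all elements of `E` of order prime to `l` (equivalently, the
`l`-elements of `X`). `X_l` is an `l`-group and not trivial (characters separate points:
`CommGroup.exists_apply_ne_one_of_hasEnoughRootsOfUnity`; compose with the projection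
`x ↦ x^m` to the `l`-part, `m = 1` modulo the `l`-part and `0` modulo the rest of `|E|`). The group
`R_l := {h ∈ C : φ h ∈ P_l}` acts on `E` by conjugation and so on `X_l`; the elements of `ker φ` act
trivially on `E`: `[h,x] ∈ ker φ ⊓ E = 1` (elements of `E` trivial on `W` are `1`). So the action of `R_l`
on `X_l` is through the `l`-group `P_l`; the number of its fixed points on `X_l` is divisible by `l`
(`IsPGroup.card_modEq_card_fixedPoints`, for the image of `R_l` in `Equiv.Perm X_l`), there is a fixed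
`χ_l ≠ 1`. `χ_l` is not trivial on the `l`-elements. For `k ≠ l` the group `R_k` acts trivially on the
`l`-elements `x` of `E`: `φ x ∈ P_l` and `φ h ∈ P_k` commute, `[h,x] ∈ E ⊓ ker φ = 1`; so `R_k` fixes `χ_l`.
`bet := ∏_l χ_l` on `E` (and `1` outside): it is `χ_l` on the `l`-elements. -/
def SpecPBX : Prop :=
  ∀ (S : PS) (E : Subgroup S.H), S.Adm E → ∃ bet : S.H → ℂ, Lin E bet ∧ Full E bet ∧ S.InvB E bet

/-- **PEM** [250 lines]. (M): H.md section 3 (2). `E` admissible with `Cyc`, `bet` full and invariant, `T` a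
Sylow `r`-subgroup of `H`, `r ∤ |E|`, fixing `bet`, normal modulo `E` in the stabiliser of `bet`, abelian
modulo `E`. Then `T` is normal in `H`, abelian and centralises `E`. (hyps: PSB, LFO)
PROOF. Let `l` be a prime dividing `|E|`, `l ≠ r`, `E_l` the `l`-elements of `E`, `Q := φ(E_l) = φ(E) ⊓ P_l` (if
`φ x ∈ P_l`, `x ∈ E`, then `x` is an `l`-element since `φ` is injective on `E`), normal in `G`, abelian. (i) for
`g ∈ P_l`, `s ∈ T`: `[g, φ s] ∈ Q`: `g = φ c`, `c ∈ C` fixes `bet` (InvB), so `c s c⁻¹ ∈ E ⊔ T`,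
`[g, φ s] = φ (c s c⁻¹ s⁻¹) ∈ φ(E) φ(T)`, and it is in `P_l`, an `l`-element; modulo `φ(E)` it is an
`r`-element: it is in `φ(E) ⊓ P_l = Q`, abelian, so it centralises `Q`. (ii) LFO in `G` with
`Q`, `B := P_l`, `S := φ(T)`: every `s ∈ T` acts on `Q` as a power, and as `φ` is injective on `E`:
`s x s⁻¹ = x^k` for all `x ∈ E_l`. (iii) take `x₀ ∈ E_l` with `bet x₀ ≠ 1`: `bet x₀ = bet (x₀^k) = (bet x₀)^k`,
and `bet x₀` is a root of unity of `l`-power order: `l ∣ k - 1`. `s^(r^m) = 1`: `x^(k^(r^m)) = x`, and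
`k^n - 1 = (k - 1)(1 + k + .. + k^(n-1))`, the second factor is `n = r^m ≠ 0` modulo `l`: so
`x^(k-1) = 1` for every `x ∈ E_l` (the order of `x` is a power of `l`): `s` centralises `E_l`, for all
`l`: `T` centralises `E`. (iv) `[T,T] ≤ E ⊓ T = 1`. (v) `T` is normal in `E ⊔ T` (`= E T`, `E` commutes with
`T`), it is the set of the `r`-elements of `E T`, so it is normalised by the stabiliser of `bet`. That
stabiliser contains `C_H(E)` (normal in `H`), `T ≤ C_H(E)`: `T` is the unique Sylow `r`-subgroup of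
`C_H(E)`, so for `h ∈ H`: `h T h⁻¹ ≤ C_H(E)` is equal to `T`. -/
def SpecPEM : Prop :=
  ∀ (S : PS) (E : Subgroup S.H) (bet : S.H → ℂ) (r : ℕ) (T : Subgroup S.H), S.Adm E → S.Cyc E →
    Lin E bet → Full E bet → S.InvB E bet → r.Prime → ¬ r ∣ Nat.card E → SylIn r ⊤ T →
    (∀ t ∈ T, FixB E bet t) → (∀ x ∈ T, ∀ y ∈ T, x * y * x⁻¹ * y⁻¹ ∈ E) →
    (∀ h : S.H, FixB E bet h → ∀ t ∈ T, h * t * h⁻¹ ∈ E ⊔ T) →
    T.Normal ∧ (∀ x ∈ T, ∀ y ∈ T, x * y = y * x) ∧ ∀ t ∈ T, ∀ x ∈ E, t * x = x * t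

/-- **PE1** [80 lines]. (E1). An admissible `E`, `r ∣ |E|`: no Sylow `r`-subgroup of `H` fixes `w ≠ 0`.
(hyps: PSB)
PROOF. `E_r`, the subgroup of the `r`-elements of `E`, is a normal `r`-subgroup of `H`, so it is in
every Sylow `r`-subgroup `T`; if `T` fixes `w` then `E_r` fixes `w`, so it is trivial on `W` (PSB), so
`E_r = 1`. -/
def SpecPE1 : Prop :=
  ∀ (S : PS) (E : Subgroup S.H) (r : ℕ) (T : Subgroup S.H) (w : S.W), S.Adm E → r.Prime →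
    r ∣ Nat.card E → SylIn r ⊤ T → w ≠ 0 → ∃ t ∈ T, t • w ≠ w

/-- **PE2** [100 lines]. (E2). `w` extremal, `r` good, `bet` full: no Sylow `r`-subgroup of `H` fixes
`bet`. (hyps: PDC, PAA, PSB)
PROOF. Let `R` be a Sylow `r`-subgroup fixing `bet`, `R = g T g⁻¹`. By PAA (4) there are a prime `l`
and `t ∈ T` with `¬ CP l t`; PDC (8): `t x t⁻¹ = x^a` for all `l`-elements `x ∈ D`, `l ∤ a - 1`, and
`φ(D) ⊓ P_l = Q ≠ 1` (as `φ t` does not centralise `P_l`), so `l ∣ |D|`: by `Full` there is an `l`-element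
`x₀ ∈ D` with `bet x₀ ≠ 1`. Let `x := g⁻¹ x₀ g ∈ D`, `t' := g t g⁻¹ ∈ R`: `t' x₀ t'⁻¹ = g t x t⁻¹ g⁻¹ =
g x^a g⁻¹ = x₀^a`, so `bet x₀ = (bet x₀)^a`, `(bet x₀)^(a-1) = 1` and `bet x₀` has `l`-power order: `bet x₀ = 1`,
contradiction. -/
def SpecPE2 : Prop :=
  ∀ (S : PS) (w : S.W), S.Ext w → ∀ (r : ℕ) (T : Subgroup S.H), S.Good w r T →
    ∀ bet : S.H → ℂ, Lin (S.D w) bet → Full (S.D w) bet →
      ∀ R : Subgroup S.H, SylIn r ⊤ R → ∃ t ∈ R, ¬ FixB (S.D w) bet t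

/-- `r ∈ M(w)` in unbundled form. -/
def MiH {H W : Type} [Group H] [AddCommGroup W] [DistribMulAction H W] (C : Subgroup H) (w : W)
    (r : ℕ) (T : Subgroup H) : Prop :=
  SylIn r ⊤ T ∧ T ≤ C ∧ (∀ x ∈ T, ∀ y ∈ T, x * y = y * x) ∧ (∀ t ∈ T, t • w = w) ∧
    ∀ h : H, h • w = w → ∀ t ∈ T, h * t * h⁻¹ ∈ T

/-- `r ∈ M(bet)`. -/
def MiB {H : Type} [Group H] (C D : Subgroup H) (bet : H → ℂ) (r : ℕ) (T : Subgroup H) : Prop :=
  SylIn r ⊤ T ∧ T ≤ C ∧ (∀ t ∈ T, FixB D bet t) ∧ (∀ x ∈ T, ∀ y ∈ T, x * y * x⁻¹ * y⁻¹ ∈ D) ∧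
    ∀ h : H, FixB D bet h → ∀ t ∈ T, h * t * h⁻¹ ∈ D ⊔ T

/-- **MAIN PROPOSITION** (H.md section 3), unbundled; module **PRO** [150 lines].
(hyps: PAA, PDA, PDC, PEC, PEA, PBX, PEM, PE1, PE2)
PROOF. `C₀ := {c ∈ C : c trivial on W}`, a normal subgroup of `H`; `G := H ⧸ C₀` acts on `W`
(`DistribMulAction.compHom` with the lift of `DistribMulAction.toAddMonoidEnd H W`), `φ` the quotient
map: `S : PS`. An extremal `w` exists (finite set of non-zero vectors). `D := S.D w`, `bet` from PBX (with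
PEA). (E1) PE1. (E2) PDA and PE2. (M) PEM. (T) PAA (1). -/
def SpecPRO : Prop :=
  ∀ (H W : Type) [Group H] [Finite H] [AddCommGroup W] [Finite W] [Nontrivial W]
    [DistribMulAction H W], Group.IsSolvable H →
    (∀ A : AddSubgroup W, (∀ h : H, ∀ x ∈ A, h • x ∈ A) → A = ⊥ ∨ A = ⊤) →
    ∀ C : Subgroup H, C.Normal →
    ∃ (w : W) (D K : Subgroup H) (bet : H → ℂ), w ≠ 0 ∧ D.Normal ∧ D ≤ C ∧
      (∀ x ∈ D, ∀ y ∈ D, x * y = y * x) ∧ (∀ x ∈ D, (∀ v : W, x • v = v) → x = 1) ∧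
      D ⊓ K = ⊥ ∧ D ⊔ K = ⊤ ∧ Lin D bet ∧
      (∀ r, r.Prime → r ∣ Nat.card D → ∀ T : Subgroup H, SylIn r ⊤ T → ∃ t ∈ T, t • w ≠ w) ∧
      (∀ r T, r.Prime → MiH C w r T → (∃ t ∈ T, ∃ v : W, t • v ≠ v) →
        (5 ≤ r ∨ (r = 3 ∧ ∃ T₂, MiH C w 2 T₂)) →
          ∀ R : Subgroup H, SylIn r ⊤ R → ∃ t ∈ R, ¬ FixB D bet t) ∧
      (∀ r T, r.Prime → ¬ r ∣ Nat.card D → SylIn r ⊤ T → (∀ t ∈ T, FixB D bet t) →
        (∀ x ∈ T, ∀ y ∈ T, x * y * x⁻¹ * y⁻¹ ∈ D) →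
        (∀ h : H, FixB D bet h → ∀ t ∈ T, h * t * h⁻¹ ∈ D ⊔ T) →
        T.Normal ∧ (∀ x ∈ T, ∀ y ∈ T, x * y = y * x) ∧ ∀ t ∈ T, ∀ x ∈ D, t * x = x * t) ∧
      ∀ r T, r.Prime → MiH C w r T → (∀ t ∈ T, ∀ v : W, t • v = v) → T.Normal

/-- **CNT** [150 lines]. The counting form of the main proposition. `Th` a finite set of primes. The
primes `r ∈ Th` such that a Sylow `r`-subgroup is normal in `H`, abelian, contained in `C` and trivial on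
`W` are counted in the last term. (hyps: PRO, RLO not needed)
PROOF. Take PRO. For `r ∈ Th` let `m_r = [r ∈ M(w)]`, `m'_r = [r ∈ M(bet)]`, `a_r = [no Sylow r-subgroup fixes
w]`, `a'_r = [no Sylow r-subgroup fixes bet]`, `z_r = [r ∈ Π₀₀]`. Claim: `m_r + m'_r ≤ a_r + a'_r + 2 z_r` for all `r`
except at most one, for which the right side plus one is enough. Proof of the claim. Let `z_r = 0`.
(i) `m'_r = 1` implies `a_r = 1`: if `r ∣ |D|` by (E1). Else by (M) `T` is normal in `H` and abelian, `T ≤ C`; if some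
Sylow `r`-subgroup fixes `w` it is `T`, so (irreducibility) `T` is trivial on `W`, `z_r = 1`. So
`m_r + m'_r ≤ 1` always (`m_r = 1` implies `a_r = 0`), and `m'_r = 1` is fine. (ii) `m_r = 1`: `T` is non-trivial on
`W` (else it is normal by (T), and `z_r = 1`); (E2) gives `a'_r = 1` if `r ≥ 5`, or `r = 3` and `2 ∈ M(w)`. So the
claim fails at most for `r = 2`, and for `r = 3` only if `2 ∉ M(w)`, then it does not fail for `r = 2`. -/
def SpecCNT : Prop :=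
  ∀ (H W : Type) [Group H] [Finite H] [AddCommGroup W] [Finite W] [Nontrivial W]
    [DistribMulAction H W], Group.IsSolvable H →
    (∀ A : AddSubgroup W, (∀ h : H, ∀ x ∈ A, h • x ∈ A) → A = ⊥ ∨ A = ⊤) →
    ∀ C : Subgroup H, C.Normal → ∀ Th : Finset ℕ, (∀ r ∈ Th, r.Prime) →
    ∃ (w : W) (D K : Subgroup H) (bet : H → ℂ), w ≠ 0 ∧ D.Normal ∧ D ≤ C ∧
      (∀ x ∈ D, ∀ y ∈ D, x * y = y * x) ∧ (∀ x ∈ D, (∀ v : W, x • v = v) → x = 1) ∧
      D ⊓ K = ⊥ ∧ D ⊔ K = ⊤ ∧ Lin D bet ∧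
      Set.ncard {r | r ∈ Th ∧ ∃ T, MiH C w r T} + Set.ncard {r | r ∈ Th ∧ ∃ T, MiB C D bet r T} ≤
        Set.ncard {r | r ∈ Th ∧ ∀ T : Subgroup H, SylIn r ⊤ T → ∃ t ∈ T, t • w ≠ w} +
        Set.ncard {r | r ∈ Th ∧ ∀ T : Subgroup H, SylIn r ⊤ T → ∃ t ∈ T, ¬ FixB D bet t} +
        2 * Set.ncard {r | r ∈ Th ∧ ∃ T : Subgroup H, SylIn r ⊤ T ∧ T.Normal ∧ T ≤ C ∧
          (∀ x ∈ T, ∀ y ∈ T, x * y = y * x) ∧ ∀ t ∈ T, ∀ v : W, t • v = v} + 1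

/-- `r ∈ M(w)` relative to the subgroup `J`. -/
def MiJ {H W : Type} [Group H] [AddCommGroup W] [DistribMulAction H W] (J C : Subgroup H) (w : W)
    (r : ℕ) (T : Subgroup H) : Prop :=
  SylIn r J T ∧ T ≤ C ∧ (∀ x ∈ T, ∀ y ∈ T, x * y = y * x) ∧ (∀ t ∈ T, t • w = w) ∧
    ∀ h ∈ J, h • w = w → ∀ t ∈ T, h * t * h⁻¹ ∈ T

/-- `r ∈ M(bet)` relative to the subgroup `J`. -/
def MiBJ {H : Type} [Group H] (J C D : Subgroup H) (bet : H → ℂ) (r : ℕ) (T : Subgroup H) : Prop :=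
  SylIn r J T ∧ T ≤ C ∧ (∀ t ∈ T, FixB D bet t) ∧ (∀ x ∈ T, ∀ y ∈ T, x * y * x⁻¹ * y⁻¹ ∈ D) ∧
    ∀ h ∈ J, FixB D bet h → ∀ t ∈ T, h * t * h⁻¹ ∈ D ⊔ T

/-- **REL** [200 lines]. The relative (ambient) form of CNT: `J` a solvable subgroup of `H`, `C` normal in
`J`, `W` a `J`-irreducible subgroup of the `H`-module `X`. (hyps: CNT)
PROOF. CNT for the group `J`, the module `W` (action by restriction) and `C.subgroupOf J`; push everything
forward with `Subgroup.map J.subtype`. -/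
def SpecREL : Prop :=
  ∀ (H X : Type) [Group H] [Finite H] [AddCommGroup X] [Finite X] [DistribMulAction H X]
    (J C : Subgroup H) (W : AddSubgroup X), Group.IsSolvable J → W ≠ ⊥ →
    (∀ h ∈ J, ∀ x ∈ W, h • x ∈ W) →
    (∀ A : AddSubgroup X, A ≤ W → (∀ h ∈ J, ∀ x ∈ A, h • x ∈ A) → A = ⊥ ∨ A = W) →
    C ≤ J → (∀ h ∈ J, ∀ c ∈ C, h * c * h⁻¹ ∈ C) → ∀ Th : Finset ℕ, (∀ r ∈ Th, r.Prime) →
    ∃ (w : X) (D K : Subgroup H) (bet : H → ℂ), w ∈ W ∧ w ≠ 0 ∧ D ≤ C ∧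
      (∀ h ∈ J, ∀ d ∈ D, h * d * h⁻¹ ∈ D) ∧ (∀ x ∈ D, ∀ y ∈ D, x * y = y * x) ∧
      (∀ x ∈ D, (∀ v ∈ W, x • v = v) → x = 1) ∧ K ≤ J ∧ D ⊓ K = ⊥ ∧ D ⊔ K = J ∧ Lin D bet ∧
      Set.ncard {r | r ∈ Th ∧ ∃ T, MiJ J C w r T} +
          Set.ncard {r | r ∈ Th ∧ ∃ T, MiBJ J C D bet r T} ≤
        Set.ncard {r | r ∈ Th ∧ ∀ T : Subgroup H, SylIn r J T → ∃ t ∈ T, t • w ≠ w} +
        Set.ncard {r | r ∈ Th ∧ ∀ T : Subgroup H, SylIn r J T → ∃ t ∈ T, ¬ FixB D bet t} +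
        2 * Set.ncard {r | r ∈ Th ∧ ∃ T : Subgroup H, SylIn r J T ∧
          (∀ h ∈ J, ∀ t ∈ T, h * t * h⁻¹ ∈ T) ∧ T ≤ C ∧ (∀ x ∈ T, ∀ y ∈ T, x * y = y * x) ∧
          ∀ t ∈ T, ∀ v ∈ W, t • v = v} + 1

end Pool.Agent.Lib.MPbe1941.X
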