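import Pool.Agent.Lib.MP_be1941_al.Defs
import Pool.Agent.Lib.MP_be1941_al.X.SpecP
import Pool.Agent.Lib.MP_be1941_al.X.SpecQ

section
/-!
# MP_be1941_al, block RED : elementary lemmas on normal subgroups
-/
set_option autoImplicit false

namespace Pool.Agent.Lib.MPbe1941.RD

open Subgroup
open scoped commutatorElement

variable {G : Type} [Group G]

/-- Minimal normal subgroups. -/
def MinN (N : Subgroup G) : Prop :=
  N.Normal ∧ N ≠ ⊥ ∧ ∀ M : Subgroup G, M.Normal → M ≤ N → M = ⊥ ∨ M = N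

/-- Elements of exponent `n` of a commutative subgroup. -/
def expSub (A : Subgroup G) (hA : ∀ x ∈ A, ∀ y ∈ A, x * y = y * x) (n : ℕ) : Subgroup G where
  carrier := {x | x ∈ A ∧ x ^ n = 1}
  one_mem' := ⟨A.one_mem, one_pow n⟩
  mul_mem' := by
    rintro x y ⟨hx, hxn⟩ ⟨hy, hyn⟩
    refine ⟨A.mul_mem hx hy, ?_⟩
    have hc : Commute x y := hA x hx y hy
    rw [hc.mul_pow, hxn, hyn, one_mul]
  inv_mem' := by
    rintro x ⟨hx, hxn⟩
    exact ⟨A.inv_mem hx, by rw [inv_pow, hxn, inv_one]⟩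

lemma mem_expSub {A : Subgroup G} {hA : ∀ x ∈ A, ∀ y ∈ A, x * y = y * x} {n : ℕ} {x : G} :
    x ∈ expSub A hA n ↔ x ∈ A ∧ x ^ n = 1 := Iff.rfl

lemma expSub_normal {A : Subgroup G} (hN : A.Normal) (hA : ∀ x ∈ A, ∀ y ∈ A, x * y = y * x)
    (n : ℕ) : (expSub A hA n).Normal where
  conj_mem := by
    rintro x ⟨hx, hxn⟩ g
    refine ⟨hN.conj_mem x hx g, ?_⟩
    rw [conj_pow, hxn, mul_one, mul_inv_cancel]

/-- `n`-th powers of a commutative subgroup. -/
def powSub (A : Subgroup G) (hA : ∀ x ∈ A, ∀ y ∈ A, x * y = y * x) (n : ℕ) : Subgroup G where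
  carrier := {x | ∃ y ∈ A, y ^ n = x}
  one_mem' := ⟨1, A.one_mem, one_pow n⟩
  mul_mem' := by
    rintro _ _ ⟨x, hx, rfl⟩ ⟨y, hy, rfl⟩
    refine ⟨x * y, A.mul_mem hx hy, ?_⟩
    have hc : Commute x y := hA x hx y hy
    rw [hc.mul_pow]
  inv_mem' := by
    rintro _ ⟨x, hx, rfl⟩
    exact ⟨x⁻¹, A.inv_mem hx, by rw [inv_pow]⟩

lemma powSub_normal {A : Subgroup G} (hN : A.Normal) (hA : ∀ x ∈ A, ∀ y ∈ A, x * y = y * x)
    (n : ℕ) : (powSub A hA n).Normal where
  conj_mem := by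
    rintro _ ⟨x, hx, rfl⟩ g
    exact ⟨g * x * g⁻¹, hN.conj_mem x hx g, by rw [conj_pow]⟩

lemma powSub_le {A : Subgroup G} (hA : ∀ x ∈ A, ∀ y ∈ A, x * y = y * x)
    (n : ℕ) : powSub A hA n ≤ A := by
  rintro _ ⟨x, hx, rfl⟩
  exact A.pow_mem hx n

/-- Every nontrivial normal subgroup contains a minimal normal subgroup. -/
lemma exists_minN [Finite G] : ∀ (n : ℕ) (B : Subgroup G), Nat.card B = n → B.Normal → B ≠ ⊥ →
    ∃ N : Subgroup G, MinN N ∧ N ≤ B := by
  intro n
  induction n using Nat.strong_induction_on with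
  | _ n ih =>
    intro B hn hB hne
    by_cases hm : ∀ M : Subgroup G, M.Normal → M ≤ B → M = ⊥ ∨ M = B
    · exact ⟨B, ⟨hB, hne, hm⟩, le_rfl⟩
    · push Not at hm
      obtain ⟨M, hM, hMB, hM1, hM2⟩ := hm
      have hlt : Nat.card M < n := by
        rw [← hn]
        refine lt_of_le_of_ne (Subgroup.card_le_of_le hMB) ?_
        intro h
        exact hM2 (Subgroup.eq_of_le_of_card_ge hMB h.ge)
      obtain ⟨N, hN, hNM⟩ := ih _ hlt M rfl hM hM1
      exact ⟨N, hN, hNM.trans hMB⟩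

/-- A subgroup of prime power order equal to a power of another prime is trivial. -/
lemma eq_one_of_pow {p q : ℕ} (hp : p.Prime) (hq : q.Prime) (hpq : p ≠ q) {x : G} {a b : ℕ}
    (h1 : x ^ p ^ a = 1) (h2 : x ^ q ^ b = 1) : x = 1 := by
  have h3 : orderOf x ∣ p ^ a := orderOf_dvd_of_pow_eq_one h1
  have h4 : orderOf x ∣ q ^ b := orderOf_dvd_of_pow_eq_one h2
  have h5 : Nat.Coprime (p ^ a) (q ^ b) :=
    Nat.Coprime.pow _ _ ((Nat.coprime_primes hp hq).2 hpq)
  have h6 : orderOf x ∣ 1 := by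
    rw [← h5.gcd_eq_one]
    exact Nat.dvd_gcd h3 h4
  exact orderOf_eq_one_iff.1 (Nat.dvd_one.1 h6)

/-- elements of a `p`-subgroup. -/
lemma pgroup_mem {p : ℕ} {P : Subgroup G} (hP : IsPGroup p P) {x : G} (hx : x ∈ P) :
    ∃ k, x ^ p ^ k = 1 := by
  obtain ⟨k, hk⟩ := hP ⟨x, hx⟩
  refine ⟨k, ?_⟩
  have := congrArg Subtype.val hk
  simpa using this

lemma pgroup_of {p : ℕ} {P : Subgroup G} (h : ∀ x ∈ P, ∃ k, x ^ p ^ k = 1) : IsPGroup p P := by
  rintro ⟨x, hx⟩
  obtain ⟨k, hk⟩ := h x hx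
  exact ⟨k, Subtype.ext (by simpa using hk)⟩

/-- A normal `r`-subgroup of index prime to `r` contains every `r`-subgroup. -/
lemma le_of_sylow [Finite G] {r : ℕ} (hr : r.Prime) {P Q : Subgroup G} (hP : P.Normal)
    (hi : ¬ r ∣ P.index) (hQ : IsPGroup r Q) : Q ≤ P := by
  intro x hx
  obtain ⟨k, hk⟩ := pgroup_mem hQ hx
  have h1 : ((x : G) : G ⧸ P) ^ r ^ k = 1 := by
    rw [← QuotientGroup.mk_pow, hk, QuotientGroup.mk_one]
  have h2 : orderOf (x : G ⧸ P) ∣ r ^ k := orderOf_dvd_of_pow_eq_one h1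
  have h3 : orderOf (x : G ⧸ P) ∣ P.index := by
    rw [Subgroup.index_eq_card]
    exact orderOf_dvd_natCard _
  have h4 : Nat.Coprime (r ^ k) P.index := Nat.Coprime.pow_left _ ((Nat.Prime.coprime_iff_not_dvd hr).2 hi)
  have h6 : orderOf (x : G ⧸ P) ∣ 1 := by
    rw [← h4.gcd_eq_one]
    exact Nat.dvd_gcd h2 h3
  have h7 : (x : G ⧸ P) = 1 := orderOf_eq_one_iff.1 (Nat.dvd_one.1 h6)
  exact (QuotientGroup.eq_one_iff x).1 h7

/-- `NAS` passes to quotients. -/
lemma nas_quot [Finite G] {N : Subgroup G} [N.Normal] {r : ℕ} (h : NAS G r) : NAS (G ⧸ N) r := by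
  obtain ⟨P, hPn, hPc, hPp, hPi⟩ := h
  have hsurj : Function.Surjective (QuotientGroup.mk' N) := QuotientGroup.mk'_surjective N
  refine ⟨P.map (QuotientGroup.mk' N), hPn.map _ hsurj, ?_, hPp.map _, ?_⟩
  · rintro _ ⟨x, hx, rfl⟩ _ ⟨y, hy, rfl⟩
    rw [← map_mul, ← map_mul, hPc x hx y hy]
  · intro hd
    exact hPi (hd.trans (Subgroup.index_map_dvd P hsurj))

lemma rs_quot [Finite G] (N : Subgroup G) [N.Normal] : RS (G ⧸ N) ⊆ RS G := by
  rintro r ⟨h1, h2⟩
  exact ⟨h1, fun h => h2 (nas_quot h)⟩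

/-- Minimal normal subgroups of solvable groups are elementary abelian. -/
lemma minN_abel [Finite G] (hs : Group.IsSolvable G) {N : Subgroup G} (hN : MinN N) :
    (∀ x ∈ N, ∀ y ∈ N, x * y = y * x) ∧ ∃ l : ℕ, l.Prime ∧ ∀ x ∈ N, x ^ l = 1 := by
  obtain ⟨hn, hne, hmin⟩ := hN
  have hc : ∀ x ∈ N, ∀ y ∈ N, x * y = y * x := by
    have h1 : ⁅N, N⁆ < N := Group.IsSolvable.commutator_lt_of_ne_bot hne
    have h2 : ⁅N, N⁆ = ⊥ := by
      rcases hmin ⁅N, N⁆ inferInstance h1.le with h | h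
      · exact h
      · exact absurd h h1.ne
    intro x hx y hy
    have h3 : ⁅x, y⁆ ∈ ⁅N, N⁆ := Subgroup.commutator_mem_commutator hx hy
    rw [h2, Subgroup.mem_bot, commutatorElement_eq_one_iff_mul_comm] at h3
    exact h3
  refine ⟨hc, ?_⟩
  have hcard : Nat.card N ≠ 1 := by
    intro h
    exact hne (Subgroup.card_eq_one.1 h)
  obtain ⟨l, hl, hld⟩ := Nat.exists_prime_and_dvd hcard
  haveI : Fact l.Prime := ⟨hl⟩
  obtain ⟨x, hx⟩ := exists_prime_orderOf_dvd_card' l hld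
  refine ⟨l, hl, ?_⟩
  have h4 : expSub N hc l = N := by
    rcases hmin (expSub N hc l) (expSub_normal hn hc l) (fun x hx => hx.1) with h | h
    · exfalso
      have hx1 : (x : G) ∈ expSub N hc l := by
        refine ⟨x.2, ?_⟩
        have := pow_orderOf_eq_one x
        rw [hx] at this
        have h5 := congrArg Subtype.val this
        simpa using h5
      rw [h, Subgroup.mem_bot] at hx1
      have hx2 : x = 1 := Subtype.ext hx1
      rw [hx2, orderOf_one] at hx
      exact hl.one_lt.ne hx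
    · exact h
  intro x hx
  rw [← h4] at hx
  exact hx.2

/-- Intersections with supplements of centralising normal subgroups are normal. -/
lemma inf_normal {N K A : Subgroup G} (hN : N.Normal) (hNK : N ⊔ K = ⊤) (hA : A.Normal)
    (hc : ∀ x ∈ N, ∀ y ∈ A, x * y = y * x) : (A ⊓ K).Normal where
  conj_mem := by
    rintro x ⟨hxA, hxK⟩ g
    have hg : g ∈ N ⊔ K := by rw [hNK]; exact Subgroup.mem_top g
    obtain ⟨n, hn, k, hk, rfl⟩ := Subgroup.mem_sup_of_normal_left.1 hg
    have h1 : k * x * k⁻¹ ∈ A := hA.conj_mem x hxA k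
    have h2 : k * x * k⁻¹ ∈ K := K.mul_mem (K.mul_mem hk hxK) (K.inv_mem hk)
    have h3 : n * k * x * (n * k)⁻¹ = k * x * k⁻¹ := by
      have h4 := hc n hn _ h1
      calc n * k * x * (n * k)⁻¹ = (n * (k * x * k⁻¹)) * n⁻¹ := by group
        _ = ((k * x * k⁻¹) * n) * n⁻¹ := by rw [h4]
        _ = k * x * k⁻¹ := by group
    rw [h3]
    exact ⟨h1, h2⟩

/-- A minimal normal subgroup inside a normal `p`-subgroup is central in it. -/
lemma minN_central [Finite G] {p : ℕ} (hp : p.Prime) {N P : Subgroup G} (hN : MinN N)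
    (hP : P.Normal) (hPp : IsPGroup p P) (hNP : N ≤ P) : ∀ x ∈ N, ∀ y ∈ P, x * y = y * x := by
  haveI : Fact p.Prime := ⟨hp⟩
  obtain ⟨hn, hne, hmin⟩ := hN
  have hNp : IsPGroup p N := hPp.to_le hNP
  have hdvd : p ∣ Nat.card N := by
    obtain ⟨k, hk⟩ := IsPGroup.iff_card.1 hNp
    rcases Nat.eq_zero_or_pos k with h0 | h0
    · exfalso
      rw [h0, pow_zero] at hk
      exact hne (Subgroup.card_eq_one.1 hk)
    · rw [hk]
      exact dvd_pow_self p h0.ne'
  letI : MulAction P N := MulAction.compHom N ((MulAut.conjNormal : G →* MulAut N).comp P.subtype)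
  have hsm : ∀ (y : P) (x : N), ((y • x : N) : G) = y * x * (y : G)⁻¹ := by
    intro y x
    exact MulAut.conjNormal_apply (y : G) x
  have h1 : (1 : N) ∈ MulAction.fixedPoints P N := by
    intro y
    apply Subtype.ext
    rw [hsm]
    simp
  obtain ⟨b, hb, hb1⟩ := hPp.exists_fixed_point_of_prime_dvd_card_of_fixed_point N hdvd h1
  have hbc : (b : G) ∈ N ⊓ centralizer (P : Set G) := by
    refine ⟨b.2, ?_⟩
    change (b : G) ∈ centralizer (P : Set G)
    rw [Subgroup.mem_centralizer_iff]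
    intro y hy
    have h2 := congrArg Subtype.val (hb ⟨y, hy⟩)
    rw [hsm] at h2
    have h3 : y * (b : G) * y⁻¹ = b := h2
    exact mul_inv_eq_iff_eq_mul.1 h3
  rcases hmin (N ⊓ centralizer (P : Set G)) inferInstance inf_le_left with h | h
  · exfalso
    rw [h, Subgroup.mem_bot] at hbc
    exact hb1 (Subtype.ext hbc.symm)
  · intro x hx y hy
    rw [← h] at hx
    exact (Subgroup.mem_centralizer_iff.1 hx.2 y hy).symm

/-- A central normal subgroup inside the commutator subgroup is not complemented. -/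
lemma not_compl {O N K : Subgroup G} (hN : N.Normal) (hne : N ≠ ⊥) (hNO : N ≤ ⁅O, O⁆)
    (hO : O.Normal)
    (hcen : ∀ x ∈ N, ∀ y ∈ O, x * y = y * x) (h1 : N ⊓ K = ⊥) (h2 : N ⊔ K = ⊤) : False := by
  have hNO' : N ≤ O := hNO.trans (Subgroup.commutator_le_left O O)
  have hle : ⁅O, O⁆ ≤ K := by
    rw [Subgroup.commutator_le]
    intro x hx y hy
    have hxm : x ∈ N ⊔ K := by rw [h2]; exact Subgroup.mem_top x
    have hym : y ∈ N ⊔ K := by rw [h2]; exact Subgroup.mem_top y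
    obtain ⟨n, hn, k, hk, rfl⟩ := Subgroup.mem_sup_of_normal_left.1 hxm
    obtain ⟨m, hm, l, hl, rfl⟩ := Subgroup.mem_sup_of_normal_left.1 hym
    have hkO : k ∈ O := by
      have := O.mul_mem (O.inv_mem (hNO' hn)) hx
      simpa using this
    have hlO : l ∈ O := by
      have := O.mul_mem (O.inv_mem (hNO' hm)) hy
      simpa using this
    have e1 : Commute n k := hcen n hn k hkO
    have e2 : Commute n l := hcen n hn l hlO
    have e3 : Commute n m := hcen n hn m (hNO' hm)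
    have e4 : Commute m k := hcen m hm k hkO
    have e5 : Commute m l := hcen m hm l hlO
    have h6 : ⁅n * k, m * l⁆ = ⁅k, l⁆ := by
      rw [commutatorElement_def, commutatorElement_def]
      have hnc : Commute n (k * (m * l) * k⁻¹) :=
        ((e1.mul_right (e3.mul_right e2)).mul_right e1.inv_right)
      have hmc : Commute m (k * l * k⁻¹) :=
        ((e4.mul_right e5).mul_right e4.inv_right)
      calc n * k * (m * l) * (n * k)⁻¹ * (m * l)⁻¹
          = (n * (k * (m * l) * k⁻¹)) * n⁻¹ * (m * l)⁻¹ := by group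
        _ = ((k * (m * l) * k⁻¹) * n) * n⁻¹ * (m * l)⁻¹ := by rw [hnc.eq]
        _ = (k * m) * l * k⁻¹ * l⁻¹ * m⁻¹ := by group
        _ = (m * k) * l * k⁻¹ * l⁻¹ * m⁻¹ := by rw [e4.eq]
        _ = (m * (k * l * k⁻¹)) * l⁻¹ * m⁻¹ := by group
        _ = ((k * l * k⁻¹) * m) * l⁻¹ * m⁻¹ := by rw [hmc.eq]
        _ = (k * l * k⁻¹) * (m * l⁻¹) * m⁻¹ := by group
        _ = (k * l * k⁻¹) * (l⁻¹ * m) * m⁻¹ := by rw [e5.inv_right.eq]
        _ = k * l * k⁻¹ * l⁻¹ := by group
    rw [h6, commutatorElement_def]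
    exact K.mul_mem (K.mul_mem (K.mul_mem hk hl) (K.inv_mem hk)) (K.inv_mem hl)
  apply hne
  rw [← h1]
  exact (inf_eq_left.2 (hNO.trans hle)).symm

end Pool.Agent.Lib.MPbe1941.RD
end

section
/-!
# MP_be1941_al, block RED : minimal normal subgroups (1a), (1b), (1c)
-/
set_option autoImplicit false

namespace Pool.Agent.Lib.MPbe1941.RD

open Subgroup
open scoped commutatorElement

variable {G : Type} [Group G]

/-- `P` is a normal Sylow `r`-subgroup, `r` large. -/
def SylN (r : ℕ) (P : Subgroup G) : Prop :=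
  Large r ∧ P.Normal ∧ IsPGroup r P ∧ ¬ r ∣ P.index

/-- The conclusion of (1a). -/
def Cl (G : Type) [Group G] : Prop :=
  ∀ N : Subgroup G, MinN N → (∃ K : Subgroup G, N ⊓ K = ⊥ ∧ N ⊔ K = ⊤) ∨
    ∃ (r : ℕ) (P : Subgroup G), SylN r P ∧ ⁅P, P⁆ = N

lemma cl_case_ne [Finite G] {N : Subgroup G} (hN : MinN N)
    (hNc : ∀ x ∈ N, ∀ y ∈ N, x * y = y * x) {l r : ℕ} (hl : l.Prime) (hNl : ∀ x ∈ N, x ^ l = 1)
    (hr : r.Prime) (hlr : l ≠ r) (hnas : ¬ NAS G r) {M : Subgroup G} (hM : M.Normal)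
    (hNM : N ≤ M) (hMi : ¬ r ∣ M.index) (hMc : ∀ x ∈ M, ∀ y ∈ M, ⁅x, y⁆ ∈ N)
    (hMp : ∀ x ∈ M, ∃ k, x ^ r ^ k ∈ N) (hMr : ∃ k, N.relIndex M = r ^ k) :
    ∃ K : Subgroup G, N ⊓ K = ⊥ ∧ N ⊔ K = ⊤ := by
  haveI : Fact r.Prime := ⟨hr⟩
  haveI := hM
  haveI hNn : N.Normal := hN.1
  let R : Sylow r G := default
  have hRM : (R : Subgroup G) ≤ M := le_of_sylow hr hM hMi R.isPGroup'
  have hRi : ¬ r ∣ (R : Subgroup G).index := R.not_dvd_index
  -- M ≤ N ⊔ R
  have hMNR : M ≤ N ⊔ R := by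
    rw [← Subgroup.relIndex_eq_one]
    have h1 : (N ⊔ (R : Subgroup G)).relIndex M ∣ (R : Subgroup G).index := by
      have h2 : (N ⊔ (R : Subgroup G)) ≤ M := sup_le hNM hRM
      have h3 : (N ⊔ (R : Subgroup G)).index ∣ (R : Subgroup G).index :=
        Subgroup.index_dvd_of_le le_sup_right
      have h4 : (N ⊔ (R : Subgroup G)).relIndex M ∣ (N ⊔ (R : Subgroup G)).index :=
        ⟨_, (Subgroup.relIndex_mul_index h2).symm⟩
      exact h4.trans h3
    obtain ⟨k, hk⟩ := hMr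
    have h5 : (N ⊔ (R : Subgroup G)).relIndex M ∣ r ^ k := by
      rw [← hk]
      exact Subgroup.relIndex_dvd_of_le_left M le_sup_left
    have h6 : Nat.Coprime (r ^ k) (R : Subgroup G).index :=
      Nat.Coprime.pow_left _ ((Nat.Prime.coprime_iff_not_dvd hr).2 hRi)
    have h7 := Nat.dvd_gcd h5 h1
    rw [h6.gcd_eq_one] at h7
    exact Nat.dvd_one.1 h7
  let K : Subgroup G := normalizer (R : Subgroup G)
  have hRK : (R : Subgroup G) ≤ K := Subgroup.le_normalizer
  have hKM : K ⊔ M = ⊤ := Sylow.normalizer_sup_eq_top' R hRM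
  have hNK : N ⊔ K = ⊤ := by
    apply top_le_iff.1
    rw [← hKM]
    refine sup_le le_sup_right (hMNR.trans (sup_le le_sup_left (hRK.trans le_sup_right)))
  have hnn : (N ⊓ K).Normal := inf_normal hNn hNK hNn hNc
  rcases hN.2.2 (N ⊓ K) hnn inf_le_left with h | h
  · exact ⟨K, h, hNK⟩
  · exfalso
    have hNleK : N ≤ K := inf_eq_left.1 h
    have hKtop : K = ⊤ := by
      apply top_le_iff.1
      rw [← hNK]
      exact sup_le hNleK le_rfl
    have hRn : (R : Subgroup G).Normal := Subgroup.normalizer_eq_top_iff.1 hKtop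
    apply hnas
    refine ⟨R, hRn, ?_, R.isPGroup', hRi⟩
    intro x hx y hy
    have h1 : ⁅x, y⁆ ∈ N := hMc x (hRM hx) y (hRM hy)
    have h2 : ⁅x, y⁆ ∈ (R : Subgroup G) := by
      rw [commutatorElement_def]
      exact mul_mem (mul_mem (mul_mem hx hy) (inv_mem hx)) (inv_mem hy)
    obtain ⟨k, hk⟩ := pgroup_mem R.isPGroup' h2
    have h3 : ⁅x, y⁆ ^ l ^ 1 = 1 := by
      rw [pow_one]
      exact hNl _ h1
    have h4 : ⁅x, y⁆ = 1 := eq_one_of_pow hl hr hlr h3 hk
    exact commutatorElement_eq_one_iff_mul_comm.1 h4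

/-- (1a). -/
theorem cl_of [Finite G] (hs : Group.IsSolvable G)
    (hstar : ∀ N : Subgroup G, ∀ _ : N.Normal, N ≠ ⊥ → RS (G ⧸ N) ≠ RS G) : Cl G := by
  intro N hN
  haveI hNn : N.Normal := hN.1
  obtain ⟨hNc, l, hl, hNl⟩ := minN_abel hs hN
  have h1 : ∃ r ∈ RS G, r ∉ RS (G ⧸ N) := by
    by_contra hcon
    push Not at hcon
    exact hstar N hNn hN.2.1 (Set.Subset.antisymm (rs_quot N) hcon)
  obtain ⟨r, ⟨hrL, hrn⟩, hr2⟩ := h1
  have hr : r.Prime := hrL.1
  haveI : Fact r.Prime := ⟨hr⟩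
  have h2 : NAS (G ⧸ N) r := by
    by_contra h
    exact hr2 ⟨hrL, h⟩
  obtain ⟨Q, hQn, hQc, hQp, hQi⟩ := h2
  have hsurj : Function.Surjective (QuotientGroup.mk' N) := QuotientGroup.mk'_surjective N
  let M : Subgroup G := Q.comap (QuotientGroup.mk' N)
  have hM : M.Normal := hQn.comap _
  have hNM : N ≤ M := by
    intro x hx
    have h3 : QuotientGroup.mk' N x = 1 := (QuotientGroup.eq_one_iff x).2 hx
    change QuotientGroup.mk' N x ∈ Q
    rw [h3]
    exact Q.one_mem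
  have hMi : ¬ r ∣ M.index := by
    have h3 : M.index = Q.index := Subgroup.index_comap_of_surjective Q hsurj
    rw [h3]
    exact hQi
  have hMc : ∀ x ∈ M, ∀ y ∈ M, ⁅x, y⁆ ∈ N := by
    intro x hx y hy
    rw [← QuotientGroup.eq_one_iff]
    have h3 := hQc _ hx _ hy
    change QuotientGroup.mk' N ⁅x, y⁆ = 1
    rw [map_commutatorElement]
    exact commutatorElement_eq_one_iff_mul_comm.2 h3
  have hMp : ∀ x ∈ M, ∃ k, x ^ r ^ k ∈ N := by
    intro x hx
    obtain ⟨k, hk⟩ := pgroup_mem hQp hx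
    refine ⟨k, ?_⟩
    rw [← QuotientGroup.eq_one_iff]
    rw [← map_pow] at hk
    exact hk
  have hMr : ∃ k, N.relIndex M = r ^ k := by
    have h3 : N.relIndex M = Nat.card Q := by
      have h4 := Subgroup.relIndex_ker (QuotientGroup.mk' N) (K := M)
      rw [QuotientGroup.ker_mk'] at h4
      rw [h4, Subgroup.map_comap_eq_self_of_surjective hsurj]
    rw [h3]
    exact IsPGroup.iff_card.1 hQp
  by_cases hlr : l = r
  · right
    refine ⟨r, M, ⟨hrL, hM, ?_, hMi⟩, ?_⟩
    · apply pgroup_of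
      intro x hx
      obtain ⟨k, hk⟩ := hMp x hx
      refine ⟨k + 1, ?_⟩
      rw [pow_succ, pow_mul]
      rw [hlr] at hNl
      exact hNl _ hk
    · have h3 : ⁅M, M⁆ ≤ N := by
        rw [Subgroup.commutator_le]
        exact hMc
      rcases hN.2.2 ⁅M, M⁆ inferInstance h3 with h | h
      · exfalso
        apply hrn
        refine ⟨M, hM, ?_, ?_, hMi⟩
        · intro x hx y hy
          have h4 : ⁅x, y⁆ ∈ ⁅M, M⁆ := Subgroup.commutator_mem_commutator hx hy
          rw [h, Subgroup.mem_bot] at h4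
          exact commutatorElement_eq_one_iff_mul_comm.1 h4
        · apply pgroup_of
          intro x hx
          obtain ⟨k, hk⟩ := hMp x hx
          refine ⟨k + 1, ?_⟩
          rw [pow_succ, pow_mul]
          rw [hlr] at hNl
          exact hNl _ hk
      · exact h
  · left
    exact cl_case_ne hN hNc hl hNl hr hlr hrn hM hNM hMi hMc hMp hMr

/-- (1b). -/
theorem comm_minN [Finite G] (hcl : Cl G) {r : ℕ} {P : Subgroup G} (hP : SylN r P)
    (hne : ⁅P, P⁆ ≠ ⊥) : MinN ⁅P, P⁆ ∧ ∀ x ∈ ⁅P, P⁆, ∀ y ∈ P, x * y = y * x := by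
  obtain ⟨hL, hPn, hPp, hPi⟩ := hP
  have hr : r.Prime := hL.1
  obtain ⟨N, hN, hNP⟩ := exists_minN _ ⁅P, P⁆ rfl inferInstance hne
  have hNP' : N ≤ P := hNP.trans (Subgroup.commutator_le_left P P)
  have hcen := minN_central hr hN hPn hPp hNP'
  suffices h : N = ⁅P, P⁆ by
    rw [← h]
    exact ⟨hN, hcen⟩
  rcases hcl N hN with ⟨K, hK1, hK2⟩ | ⟨r', P', hP', hNP2⟩
  · exact (not_compl hN.1 hN.2.1 hNP hPn hcen hK1 hK2).elim
  · have hNle : N ≤ P' := by
      have hPn' : P'.Normal := hP'.2.1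
      rw [← hNP2]
      exact Subgroup.commutator_le_left P' P'
    have hrr : r = r' := by
      by_contra hrr
      apply hN.2.1
      rw [Subgroup.eq_bot_iff_forall]
      intro x hx
      obtain ⟨a, ha⟩ := pgroup_mem hPp (hNP' hx)
      obtain ⟨b, hb⟩ := pgroup_mem hP'.2.2.1 (hNle hx)
      exact eq_one_of_pow hr hP'.1.1 hrr ha hb
    subst hrr
    have h1 : P' = P := le_antisymm (le_of_sylow hr hPn hPi hP'.2.2.1)
      (le_of_sylow hr hP'.2.1 hP'.2.2.2 hPp)
    rw [← hNP2, h1]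

/-- (1c). -/
theorem cop_abel [Finite G] (hs : Group.IsSolvable G) (hcl : Cl G) {l : ℕ} (hl : l.Prime)
    (hno : ∀ P : Subgroup G, SylN l P → ⁅P, P⁆ = ⊥)
    {O : Subgroup G} (hO : O.Normal) (hOp : IsPGroup l O) :
    (∀ x ∈ O, ∀ y ∈ O, x * y = y * x) ∧ ∀ x ∈ O, x ^ l = 1 := by
  have hcompl : ∀ N : Subgroup G, MinN N → N ≤ O → ∃ K : Subgroup G, N ⊓ K = ⊥ ∧ N ⊔ K = ⊤ := by
    intro N hN hNO
    rcases hcl N hN with h | ⟨r', P', hP', hNP2⟩
    · exact h
    · exfalso
      have hNle : N ≤ P' := by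
        have hPn' : P'.Normal := hP'.2.1
        rw [← hNP2]
        exact Subgroup.commutator_le_left P' P'
      have hrr : l = r' := by
        by_contra hrr
        apply hN.2.1
        rw [Subgroup.eq_bot_iff_forall]
        intro x hx
        obtain ⟨a, ha⟩ := pgroup_mem hOp (hNO hx)
        obtain ⟨b, hb⟩ := pgroup_mem hP'.2.2.1 (hNle hx)
        exact eq_one_of_pow hl hP'.1.1 hrr ha hb
      subst hrr
      apply hN.2.1
      rw [← hNP2]
      exact hno P' hP'
  have hc : ∀ x ∈ O, ∀ y ∈ O, x * y = y * x := by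
    have h1 : ⁅O, O⁆ = ⊥ := by
      by_contra hne
      obtain ⟨N, hN, hNO⟩ := exists_minN _ ⁅O, O⁆ rfl inferInstance hne
      have hNO' : N ≤ O := hNO.trans (Subgroup.commutator_le_left O O)
      obtain ⟨K, hK1, hK2⟩ := hcompl N hN hNO'
      exact not_compl hN.1 hN.2.1 hNO hO (minN_central hl hN hO hOp hNO') hK1 hK2
    intro x hx y hy
    have h4 : ⁅x, y⁆ ∈ ⁅O, O⁆ := Subgroup.commutator_mem_commutator hx hy
    rw [h1, Subgroup.mem_bot] at h4
    exact commutatorElement_eq_one_iff_mul_comm.1 h4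
  refine ⟨hc, ?_⟩
  have h1 : powSub O hc l = ⊥ := by
    by_contra hne
    obtain ⟨N, hN, hNO⟩ := exists_minN _ (powSub O hc l) rfl (powSub_normal hO hc l) hne
    haveI := hN.1
    have hNO' : N ≤ O := hNO.trans (powSub_le hc l)
    obtain ⟨K, hK1, hK2⟩ := hcompl N hN hNO'
    obtain ⟨_, l', hl', hNl⟩ := minN_abel hs hN
    have hll : ∀ x ∈ N, x ^ l = 1 := by
      intro x hx
      obtain ⟨a, ha⟩ := pgroup_mem hOp (hNO' hx)
      by_cases h : l' = l
      · rw [← h]
        exact hNl x hx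
      · have := eq_one_of_pow hl' hl h (a := 1) (by rw [pow_one]; exact hNl x hx) ha
        rw [this, one_pow]
    have hle : powSub O hc l ≤ K := by
      rintro _ ⟨x, hx, rfl⟩
      have hxm : x ∈ N ⊔ K := by rw [hK2]; exact Subgroup.mem_top x
      obtain ⟨n, hn, k, hk, rfl⟩ := Subgroup.mem_sup_of_normal_left.1 hxm
      have hkO : k ∈ O := by
        have := O.mul_mem (O.inv_mem (hNO' hn)) hx
        simpa using this
      have hcm : Commute n k := hc n (hNO' hn) k hkO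
      rw [hcm.mul_pow, hll n hn, one_mul]
      exact K.pow_mem hk l
    apply hN.2.1
    rw [← hK1]
    exact (inf_eq_left.2 (hNO.trans hle)).symm
  intro x hx
  have h2 : x ^ l ∈ powSub O hc l := ⟨x, hx, rfl⟩
  rw [h1, Subgroup.mem_bot] at h2
  exact h2

/-- General complement lemma. -/
theorem compl_of [Finite G] {A : Subgroup G} (hAc : ∀ x ∈ A, ∀ y ∈ A, x * y = y * x)
    (hmin : ∀ N : Subgroup G, MinN N → N ≤ A → ∃ K : Subgroup G, N ⊓ K = ⊥ ∧ N ⊔ K = ⊤) :
    ∀ (n : ℕ) (B : Subgroup G), Nat.card B = n → B.Normal → B ≤ A →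
      ∃ L : Subgroup G, B ⊓ L = ⊥ ∧ B ⊔ L = ⊤ := by
  intro n
  induction n using Nat.strong_induction_on with
  | _ n ih =>
    intro B hn hB hBA
    by_cases hne : B = ⊥
    · exact ⟨⊤, by rw [hne]; simp, by rw [hne]; simp⟩
    · obtain ⟨N, hN, hNB⟩ := exists_minN _ B rfl hB hne
      obtain ⟨K, hK1, hK2⟩ := hmin N hN (hNB.trans hBA)
      have hBK : (B ⊓ K).Normal :=
        inf_normal hN.1 hK2 hB (fun x hx y hy => hAc x (hBA (hNB hx)) y (hBA hy))
      have hlt : Nat.card (B ⊓ K : Subgroup G) < n := by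
        rw [← hn]
        refine lt_of_le_of_ne (Subgroup.card_le_of_le inf_le_left) ?_
        intro h
        have h1 : B ⊓ K = B := Subgroup.eq_of_le_of_card_ge inf_le_left h.ge
        have h2 : N ≤ K := hNB.trans (inf_eq_left.1 h1)
        apply hN.2.1
        rw [← hK1]
        exact (inf_eq_left.2 h2).symm
      obtain ⟨L, hL1, hL2⟩ := ih _ hlt (B ⊓ K) rfl hBK (inf_le_left.trans hBA)
      refine ⟨K ⊓ L, ?_, ?_⟩
      · rw [← inf_assoc]
        exact hL1
      · have hKle : K ≤ B ⊔ (K ⊓ L) := by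
          intro k hk
          have hkm : k ∈ (B ⊓ K) ⊔ L := by rw [hL2]; exact Subgroup.mem_top k
          obtain ⟨b, hb, l, hl, rfl⟩ := Subgroup.mem_sup_of_normal_left.1 hkm
          have hlK : l ∈ K := by
            have := K.mul_mem (K.inv_mem hb.2) hk
            simpa using this
          exact Subgroup.mul_mem_sup hb.1 ⟨hlK, hl⟩
        apply top_le_iff.1
        rw [← hK2]
        exact sup_le (hNB.trans le_sup_left) hKle

/-- Invariant complements. -/
theorem crit_of [Finite G] {A : Subgroup G} (hA : A.Normal)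
    (hAc : ∀ x ∈ A, ∀ y ∈ A, x * y = y * x)
    (hmin : ∀ N : Subgroup G, MinN N → N ≤ A → ∃ K : Subgroup G, N ⊓ K = ⊥ ∧ N ⊔ K = ⊤)
    (N : Subgroup G) (hN : N.Normal) (hNA : N ≤ A) :
    ∃ N' : Subgroup G, N'.Normal ∧ N' ≤ A ∧ N ⊓ N' = ⊥ ∧ N ⊔ N' = A := by
  obtain ⟨L, hL1, hL2⟩ := compl_of hAc hmin _ N rfl hN hNA
  refine ⟨A ⊓ L, inf_normal hN hL2 hA (fun x hx y hy => hAc x (hNA hx) y hy), inf_le_left, ?_, ?_⟩
  · apply le_bot_iff.1
    rw [← hL1]
    exact inf_le_inf_left N inf_le_right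
  · apply le_antisymm (sup_le hNA inf_le_left)
    intro u hu
    have hum : u ∈ N ⊔ L := by rw [hL2]; exact Subgroup.mem_top u
    obtain ⟨n, hn, l, hl, rfl⟩ := Subgroup.mem_sup_of_normal_left.1 hum
    have hlA : l ∈ A := by
      have := A.mul_mem (A.inv_mem (hNA hn)) hu
      simpa using this
    exact Subgroup.mul_mem_sup hn ⟨hlA, hl⟩

end Pool.Agent.Lib.MPbe1941.RD
end

section
/-!
# MP_be1941_al, block RED : the reduction (SpecRED)
-/
set_option autoImplicit false

namespace Pool.Agent.Lib.MPbe1941.RD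

open Subgroup
open scoped commutatorElement

variable {G : Type} [Group G]

lemma card_rel {K L : Subgroup G} (h : K ≤ L) : Nat.card K * K.relIndex L = Nat.card L := by
  have h1 := Subgroup.relIndex_mul_relIndex (⊥ : Subgroup G) K L bot_le h
  rw [Subgroup.relIndex_bot_left, Subgroup.relIndex_bot_left] at h1
  exact h1

lemma card_compl {F H : Subgroup G} (hF : F.Normal) (h1 : F ⊓ H = ⊥) (h2 : F ⊔ H = ⊤) :
    Nat.card H = F.index := by
  have e1 : F.relIndex H = Nat.card H := by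
    rw [← Subgroup.inf_relIndex_right, h1, Subgroup.relIndex_bot_left]
  have e2 : F.relIndex (F ⊔ H) = F.relIndex H := Subgroup.relIndex_sup_left H F
  rw [h2, Subgroup.relIndex_top_right] at e2
  rw [← e1, ← e2]

/-- A normal subgroup of order prime to the index of `L` lies in `L`. -/
lemma le_of_coprime [Finite G] {L U : Subgroup G} (hU : U.Normal)
    (h : Nat.Coprime L.index (Nat.card U)) : U ≤ L := by
  rw [← Subgroup.relIndex_eq_one]
  have e0 : U.relIndex (U ⊔ L) = U.relIndex L := Subgroup.relIndex_sup_left L U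
  have e1 : Nat.card L * L.relIndex (U ⊔ L) = Nat.card (U ⊔ L : Subgroup G) :=
    card_rel le_sup_right
  have e2 : Nat.card U * U.relIndex (U ⊔ L) = Nat.card (U ⊔ L : Subgroup G) :=
    card_rel le_sup_left
  have e3 : Nat.card (U ⊓ L : Subgroup G) * (U ⊓ L).relIndex L = Nat.card L :=
    card_rel inf_le_right
  have e4 : Nat.card (U ⊓ L : Subgroup G) * (U ⊓ L).relIndex U = Nat.card U :=
    card_rel inf_le_left
  rw [Subgroup.inf_relIndex_right] at e3
  rw [Subgroup.inf_relIndex_left] at e4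
  have hpos : 0 < Nat.card L := Nat.card_pos
  have e5 : L.relIndex (U ⊔ L) = L.relIndex U := by
    apply Nat.eq_of_mul_eq_mul_left hpos
    rw [e1, ← e2, e0, ← e4]
    calc Nat.card (U ⊓ L : Subgroup G) * L.relIndex U * U.relIndex L
        = (Nat.card (U ⊓ L : Subgroup G) * U.relIndex L) * L.relIndex U := by ring
      _ = Nat.card L * L.relIndex U := by rw [e3]
  have h1 : L.relIndex U ∣ L.index := by
    rw [← e5]
    exact ⟨_, (Subgroup.relIndex_mul_index (le_sup_right : L ≤ U ⊔ L)).symm⟩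
  have h2 : L.relIndex U ∣ Nat.card U := Subgroup.relIndex_dvd_card L U
  have h3 := Nat.dvd_gcd h1 h2
  rw [h.gcd_eq_one] at h3
  exact Nat.dvd_one.1 h3

lemma prime_iSup [Finite G] {ι : Type} {pr : ι → ℕ} {P : ι → Subgroup G}
    (hL : ∀ i, (pr i).Prime) (hPn : ∀ i, (P i).Normal) (hPp : ∀ i, IsPGroup (pr i) (P i))
    (s : Finset ι) : ∀ q : ℕ, q.Prime → q ∣ Nat.card (⨆ i ∈ s, P i : Subgroup G) →
      ∃ i ∈ s, q = pr i := by
  classical
  induction s using Finset.induction_on with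
  | empty =>
    intro q hq hd
    exfalso
    have h1 : (⨆ i ∈ (∅ : Finset ι), P i : Subgroup G) = ⊥ := by simp
    rw [h1, Subgroup.card_bot] at hd
    exact hq.one_lt.ne' (Nat.dvd_one.1 hd)
  | insert a s ha ih =>
    intro q hq hd
    rw [Finset.iSup_insert] at hd
    haveI := hPn a
    have e1 : Nat.card (P a) * (P a).relIndex (P a ⊔ ⨆ i ∈ s, P i) =
        Nat.card (P a ⊔ ⨆ i ∈ s, P i : Subgroup G) := card_rel le_sup_left
    rw [Subgroup.relIndex_sup_left] at e1
    rw [← e1] at hd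
    rcases (Nat.Prime.dvd_mul hq).1 hd with h | h
    · haveI : Fact (pr a).Prime := ⟨hL a⟩
      obtain ⟨k, hk⟩ := IsPGroup.iff_card.1 (hPp a)
      rw [hk] at h
      refine ⟨a, Finset.mem_insert_self _ _, ?_⟩
      exact (Nat.prime_dvd_prime_iff_eq hq (hL a)).1 (hq.dvd_of_dvd_pow h)
    · obtain ⟨i, hi, hqi⟩ := ih q hq (h.trans (Subgroup.relIndex_dvd_card _ _))
      exact ⟨i, Finset.mem_insert_of_mem hi, hqi⟩

/-- (1d). -/
lemma cent_le [Finite G] (hs : Group.IsSolvable G) {F : Subgroup G}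
    (hF : ∀ (l : ℕ) (O : Subgroup G), l.Prime → O.Normal → IsPGroup l O → O ≤ F) :
    ∀ (n : ℕ) (X : Subgroup G), Nat.card X = n → X.Normal →
      (∀ x ∈ X, ∀ y ∈ F, x * y = y * x) → X ≤ F := by
  intro n
  induction n using Nat.strong_induction_on with
  | _ n ih =>
    intro X hn hX hXF
    by_cases hne : X = ⊥
    · rw [hne]
      exact bot_le
    · have h1 : ⁅X, X⁆ < X := Group.IsSolvable.commutator_lt_of_ne_bot hne
      have hlt : Nat.card (⁅X, X⁆ : Subgroup G) < n := by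
        rw [← hn]
        refine lt_of_le_of_ne (Subgroup.card_le_of_le h1.le) ?_
        intro h
        exact h1.ne (Subgroup.eq_of_le_of_card_ge h1.le h.ge)
      have h2 : ⁅X, X⁆ ≤ F := ih _ hlt ⁅X, X⁆ rfl inferInstance
        (fun x hx y hy => hXF x (h1.le hx) y hy)
      have h3 : (commutator X) ≤ center X := by
        intro x hx
        rw [Subgroup.mem_center_iff]
        intro y
        apply Subtype.ext
        have h4 : (x : G) ∈ ⁅X, X⁆ := by
          rw [← Subgroup.map_subtype_commutator]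
          exact ⟨x, hx, rfl⟩
        exact hXF y y.2 x (h2 h4)
      haveI hnil : Group.IsNilpotent X := by
        haveI h5 : Group.IsNilpotent (Abelianization X) := inferInstance
        refine Subgroup.isNilpotent_of_ker_le_center
          (Abelianization.of : X →* Abelianization X) ?_
        rw [Abelianization.ker_of]
        exact h3
      rw [← Subgroup.relIndex_eq_one]
      rw [Nat.eq_one_iff_not_exists_prime_dvd]
      intro q hq hqd
      haveI : Fact q.Prime := ⟨hq⟩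
      let Q : Sylow q X := default
      haveI hQn : (Q : Subgroup X).Normal := inferInstance
      haveI hQc : (Q : Subgroup X).Characteristic := Q.characteristic_of_normal hQn
      haveI := hX
      have hQm : ((Q : Subgroup X).map X.subtype).Normal := inferInstance
      have hQF : (Q : Subgroup X).map X.subtype ≤ F :=
        hF q _ hq hQm (Q.isPGroup'.map X.subtype)
      have hle : (Q : Subgroup X) ≤ F.subgroupOf X := by
        intro x hx
        rw [Subgroup.mem_subgroupOf]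
        exact hQF ⟨x, hx, rfl⟩
      have h5 : (F.subgroupOf X).index ∣ (Q : Subgroup X).index := Subgroup.index_dvd_of_le hle
      exact Q.not_dvd_index (hqd.trans h5)

end Pool.Agent.Lib.MPbe1941.RD

namespace Pool.Agent.Lib.MPbe1941

open Subgroup RD
open scoped commutatorElement

theorem specRED : SpecRED := by
  classical
  intro G _ _ hs hstar
  have hcl : Cl G := cl_of hs hstar
  let BAD : ℕ → Prop := fun q => ∃ P : Subgroup G, SylN q P ∧ ⁅P, P⁆ ≠ ⊥
  let ι : Type := {r : ℕ // BAD r}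
  let pr : ι → ℕ := Subtype.val
  let P : ι → Subgroup G := fun i => i.2.choose
  have hP : ∀ i : ι, SylN (pr i) (P i) ∧ ⁅P i, P i⁆ ≠ ⊥ := fun i => i.2.choose_spec
  have hprime : ∀ i, (pr i).Prime := fun i => (hP i).1.1.1
  have hPn : ∀ i, (P i).Normal := fun i => (hP i).1.2.1
  have hPp : ∀ i, IsPGroup (pr i) (P i) := fun i => (hP i).1.2.2.1
  have hPi : ∀ i, ¬ pr i ∣ (P i).index := fun i => (hP i).1.2.2.2
  have hfin : Finite ι := by
    have h1 : ∀ i : ι, pr i ∈ (Nat.card G).primeFactors := by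
      intro i
      rw [Nat.mem_primeFactors]
      refine ⟨hprime i, ?_, Nat.card_pos.ne'⟩
      haveI : Fact (pr i).Prime := ⟨hprime i⟩
      obtain ⟨k, hk⟩ := IsPGroup.iff_card.1 (hPp i)
      rcases Nat.eq_zero_or_pos k with h0 | h0
      · exfalso
        rw [h0, pow_zero] at hk
        have h2 : P i = ⊥ := Subgroup.card_eq_one.1 hk
        apply (hP i).2
        rw [h2, Subgroup.commutator_bot_left]
      · have h3 : pr i ∣ Nat.card (P i) := by
          rw [hk]
          exact dvd_pow_self _ h0.ne'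
        exact h3.trans (Subgroup.card_subgroup_dvd_card (P i))
    exact Finite.of_injective (fun i : ι => (⟨pr i, h1 i⟩ : (Nat.card G).primeFactors))
      (fun i j hij => by
        have h2 : pr i = pr j := congrArg (fun x : (Nat.card G).primeFactors => (x : ℕ)) hij
        exact Subtype.ext h2)
  haveI : Fintype ι := Fintype.ofFinite ι
  -- the group U
  have hnb : ∀ l : ℕ, ¬ BAD l → ∀ P : Subgroup G, SylN l P → ⁅P, P⁆ = ⊥ := by
    intro l hl P hP
    by_contra h
    exact hl ⟨P, hP, h⟩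
  let S : Set (Subgroup G) := {O | O.Normal ∧ ∃ l : ℕ, l.Prime ∧ ¬ BAD l ∧ IsPGroup l O}
  let U : Subgroup G := sSup S
  have hSn : ∀ O ∈ S, O.Normal := fun O hO => hO.1
  have hUn : U.Normal := Subgroup.sSup_normal S hSn
  have hSc : ∀ O ∈ S, ∀ O' ∈ S, O ≤ centralizer (O' : Set G) := by
    rintro O ⟨hO, l, hl, hlb, hlO⟩ O' ⟨hO', l', hl', hlb', hlO'⟩
    haveI := hO
    haveI := hO'
    by_cases hll : l = l'
    · subst hll
      have h1 : IsPGroup l (O ⊔ O' : Subgroup G) := IsPGroup.to_sup_of_normal_left hlO hlO'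
      obtain ⟨h2, -⟩ := cop_abel hs hcl hl (hnb l hlb) (Subgroup.sup_normal O O') h1
      intro x hx
      rw [Subgroup.mem_centralizer_iff]
      intro y hy
      exact h2 y ((le_sup_right : O' ≤ O ⊔ O') hy) x ((le_sup_left : O ≤ O ⊔ O') hx)
    · have h1 : Disjoint O O' := by
        rw [disjoint_iff, Subgroup.eq_bot_iff_forall]
        rintro x ⟨hx, hx'⟩
        obtain ⟨a, ha⟩ := pgroup_mem hlO hx
        obtain ⟨b, hb⟩ := pgroup_mem hlO' hx'
        exact eq_one_of_pow hl hl' hll ha hb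
      intro x hx
      rw [Subgroup.mem_centralizer_iff]
      intro y hy
      exact (Subgroup.commute_of_normal_of_disjoint O O' hO hO' h1 x y hx hy).eq.symm
  have hUc : ∀ x ∈ U, ∀ y ∈ U, x * y = y * x := by
    have h1 : U ≤ centralizer (U : Set G) := by
      apply sSup_le
      intro O hO
      rw [Subgroup.le_centralizer_iff]
      apply sSup_le
      intro O' hO'
      exact hSc O' hO' O hO
    intro x hx y hy
    exact (Subgroup.mem_centralizer_iff.1 (h1 hx) y hy).symm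
  let T : Finset ℕ := (Nat.card G).primeFactors.filter (fun q => ¬ BAD q)
  let N : ℕ := ∏ q ∈ T, q
  have hNsf : Squarefree N := by
    apply Finset.squarefree_prod_of_pairwise_isCoprime
    · intro p hp q hq hpq
      have hp1 : p.Prime := Nat.prime_of_mem_primeFactors (Finset.mem_filter.1 hp).1
      have hq1 : q.Prime := Nat.prime_of_mem_primeFactors (Finset.mem_filter.1 hq).1
      change IsRelPrime p q
      exact Nat.coprime_iff_isRelPrime.1 ((Nat.coprime_primes hp1 hq1).2 hpq)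
    · intro q hq
      exact (Nat.prime_of_mem_primeFactors (Finset.mem_filter.1 hq).1).prime.squarefree
  have hUexp : ∀ x ∈ U, x ^ N = 1 := by
    have h1 : U ≤ expSub U hUc N := by
      apply sSup_le
      intro O hO x hx
      refine ⟨(le_sSup hO : O ≤ U) hx, ?_⟩
      obtain ⟨hO', l, hl, hlb, hlO⟩ := hO
      obtain ⟨-, h3⟩ := cop_abel hs hcl hl (hnb l hlb) hO' hlO
      have h4 := h3 x hx
      by_cases hx1 : x = 1
      · rw [hx1, one_pow]
      · have h5 : orderOf x = l := by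
          have h6 : orderOf x ∣ l := orderOf_dvd_of_pow_eq_one h4
          rcases (Nat.dvd_prime hl).1 h6 with h | h
          · exact absurd (orderOf_eq_one_iff.1 h) hx1
          · exact h
        have h7 : l ∈ T := by
          rw [Finset.mem_filter, Nat.mem_primeFactors]
          refine ⟨⟨hl, ?_, Nat.card_pos.ne'⟩, hlb⟩
          rw [← h5]
          exact orderOf_dvd_natCard x
        obtain ⟨m, hm⟩ : l ∣ N := Finset.dvd_prod_of_mem (fun q => q) h7
        rw [hm, pow_mul, h4, one_pow]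
    intro x hx
    exact (h1 hx).2
  have hUpr : ∀ q : ℕ, q.Prime → q ∣ Nat.card U → ¬ BAD q := by
    intro q hq hd
    haveI : Fact q.Prime := ⟨hq⟩
    obtain ⟨x, hx⟩ := exists_prime_orderOf_dvd_card' q hd
    have h1 : (x : G) ^ N = 1 := hUexp x x.2
    have h2 : x ^ N = 1 := Subtype.ext (by simpa using h1)
    have h3 : q ∣ N := by
      rw [← hx]
      exact orderOf_dvd_of_pow_eq_one h2
    obtain ⟨p, hp, hqp⟩ := (Prime.dvd_finsetProd_iff hq.prime (fun q => q)).1 h3
    have hp1 : p.Prime := Nat.prime_of_mem_primeFactors (Finset.mem_filter.1 hp).1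
    have h4 : q = p := (Nat.prime_dvd_prime_iff_eq hq hp1).1 hqp
    rw [h4]
    exact (Finset.mem_filter.1 hp).2
  have hminc : ∀ M : Subgroup G, MinN M → M ≤ U → ∃ K : Subgroup G, M ⊓ K = ⊥ ∧ M ⊔ K = ⊤ := by
    intro M hM hMU
    rcases hcl M hM with h | ⟨r, Q, hQ, hQM⟩
    · exact h
    · exfalso
      have hr : r.Prime := hQ.1.1
      haveI : Fact r.Prime := ⟨hr⟩
      have hQn : Q.Normal := hQ.2.1
      have hMQ : M ≤ Q := by
        rw [← hQM]
        exact Subgroup.commutator_le_left Q Q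
      have hbad : BAD r := ⟨Q, hQ, by rw [hQM]; exact hM.2.1⟩
      obtain ⟨k, hk⟩ := IsPGroup.iff_card.1 (hQ.2.2.1.to_le hMQ)
      rcases Nat.eq_zero_or_pos k with h0 | h0
      · rw [h0, pow_zero] at hk
        exact hM.2.1 (Subgroup.card_eq_one.1 hk)
      · have h3 : r ∣ Nat.card M := by
          rw [hk]
          exact dvd_pow_self _ h0.ne'
        exact hUpr r hr (h3.trans (Subgroup.card_dvd_of_le hMU)) hbad
  -- N0
  let N0 : Subgroup G := ⨆ i, P i
  haveI hN0n : N0.Normal := Subgroup.iSup_normal P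
  have hN0p : ∀ q : ℕ, q.Prime → q ∣ Nat.card N0 → ∃ i, q = pr i := by
    intro q hq hd
    have h1 : (⨆ i ∈ (Finset.univ : Finset ι), P i : Subgroup G) = N0 := by simp [N0]
    rw [← h1] at hd
    obtain ⟨i, -, hi⟩ := prime_iSup hprime hPn hPp Finset.univ q hq hd
    exact ⟨i, hi⟩
  have hN0i : ∀ i, ¬ pr i ∣ N0.index := by
    intro i hd
    exact hPi i (hd.trans (Subgroup.index_dvd_of_le (le_iSup P i)))
  have hcop0 : Nat.Coprime (Nat.card N0) N0.index := by
    apply Nat.coprime_of_dvd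
    intro q hq hd hd2
    obtain ⟨i, rfl⟩ := hN0p q hq hd
    exact hN0i i hd2
  have hcopU : Nat.Coprime (Nat.card N0) (Nat.card U) := by
    apply Nat.coprime_of_dvd
    intro q hq hd hd2
    obtain ⟨i, rfl⟩ := hN0p q hq hd
    exact hUpr _ hq hd2 i.2
  obtain ⟨L, hL⟩ := Subgroup.exists_right_complement'_of_coprime hcop0
  have hL1 : N0 ⊓ L = ⊥ := hL.disjoint.eq_bot
  have hL2 : N0 ⊔ L = ⊤ := hL.sup_eq_top
  have hLi : L.index = Nat.card N0 := by
    have h1 : Nat.card L = N0.index := card_compl hN0n hL1 hL2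
    have h2 := Subgroup.card_mul_index L
    have h3 := Subgroup.card_mul_index N0
    rw [h1, ← h3, mul_comm (Nat.card N0)] at h2
    have hpos : 0 < N0.index := Nat.pos_of_ne_zero Subgroup.FiniteIndex.index_ne_zero
    exact Nat.eq_of_mul_eq_mul_left hpos h2
  have hUL : U ≤ L := by
    apply le_of_coprime hUn
    rw [hLi]
    exact hcopU
  obtain ⟨H1, hH11, hH12⟩ := compl_of hUc hminc _ U rfl hUn le_rfl
  let H : Subgroup G := L ⊓ H1
  let F : Subgroup G := N0 ⊔ U
  haveI := hUn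
  haveI hFn : F.Normal := Subgroup.sup_normal N0 U
  have hsup : F ⊔ H = ⊤ := by
    have h1 : L ≤ F ⊔ H := by
      intro l hl
      have hlm : l ∈ U ⊔ H1 := by rw [hH12]; exact Subgroup.mem_top l
      obtain ⟨u, hu, h, hh, rfl⟩ := Subgroup.mem_sup_of_normal_left.1 hlm
      have hhL : h ∈ L := by
        have := L.mul_mem (L.inv_mem (hUL hu)) hl
        simpa using this
      exact Subgroup.mul_mem_sup ((le_sup_right : U ≤ N0 ⊔ U) hu) ⟨hhL, hh⟩
    apply top_le_iff.1
    rw [← hL2]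
    exact sup_le (le_sup_left.trans le_sup_left) h1
  have hinf : F ⊓ H = ⊥ := by
    rw [Subgroup.eq_bot_iff_forall]
    rintro x ⟨hxF, hxL, hxH⟩
    obtain ⟨n, hn, u, hu, rfl⟩ := Subgroup.mem_sup_of_normal_left.1 hxF
    have hnL : n ∈ L := by
      have := L.mul_mem hxL (L.inv_mem (hUL hu))
      simpa using this
    have hn1 : n = 1 := by
      have : n ∈ N0 ⊓ L := ⟨hn, hnL⟩
      rw [hL1, Subgroup.mem_bot] at this
      exact this
    subst hn1
    rw [one_mul] at hxH ⊢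
    have : u ∈ U ⊓ H1 := ⟨hu, hxH⟩
    rw [hH11, Subgroup.mem_bot] at this
    exact this
  have hcH : Nat.card H = F.index := card_compl hFn hinf hsup
  have hFO : ∀ (l : ℕ) (O : Subgroup G), l.Prime → O.Normal → IsPGroup l O → O ≤ F := by
    intro l O hl hO hlO
    by_cases hb : BAD l
    · exact ((le_of_sylow hl (hPn ⟨l, hb⟩) (hPi ⟨l, hb⟩) hlO).trans (le_iSup P ⟨l, hb⟩)).trans
        le_sup_left
    · have h1 : O ∈ S := ⟨hO, l, hl, hb, hlO⟩
      exact (le_sSup h1 : O ≤ U).trans le_sup_right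
  refine ⟨ι, hfin, pr, P, U, H, ?_, ?_⟩
  · exact
      { large := fun i => (hP i).1.1
        inj := Subtype.val_injective
        Pn := hPn
        Pp := hPp
        Pi := hPi
        Un := hUn
        Uc := hUc
        Usf := ⟨N, hNsf, hUexp⟩
        Ucop := fun i hd => hUpr _ (hprime i) hd i.2
        Ucr := crit_of hUn hUc hminc
        cen := fun i => (comm_minN hcl (hP i).1 (hP i).2).2
        nab := fun i => (hP i).2
        mn := fun i => (comm_minN hcl (hP i).1 (hP i).2).1.2.2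
        sol := hs
        cop := by
          intro i hd
          apply hPi i
          rw [hcH] at hd
          exact hd.trans (Subgroup.index_dvd_of_le ((le_iSup P i).trans le_sup_left))
        sup := hsup
        inf := hinf
        faith := by
          intro h hh hhP hhU
          have h1 : F ≤ centralizer {h} := by
            apply sup_le
            · apply iSup_le
              intro i x hx
              rw [Subgroup.mem_centralizer_iff]
              intro y hy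
              rw [Set.mem_singleton_iff.1 hy]
              exact hhP i x hx
            · intro x hx
              rw [Subgroup.mem_centralizer_iff]
              intro y hy
              rw [Set.mem_singleton_iff.1 hy]
              exact hhU x hx
          have h2 : h ∈ centralizer (F : Set G) := by
            rw [Subgroup.mem_centralizer_iff]
            intro y hy
            exact (Subgroup.mem_centralizer_iff.1 (h1 hy) h rfl).symm
          have h3 : centralizer (F : Set G) ≤ F := by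
            apply cent_le hs hFO _ _ rfl inferInstance
            intro x hx y hy
            exact (Subgroup.mem_centralizer_iff.1 hx y hy).symm
          have h4 : h ∈ F ⊓ H := ⟨h3 h2, hh⟩
          rw [hinf, Subgroup.mem_bot] at h4
          exact h4 }
  · rintro r ⟨hrL, hrn⟩
    by_cases hb : BAD r
    · exact Or.inl ⟨⟨r, hb⟩, rfl⟩
    · right
      by_contra hrH
      apply hrn
      have hr : r.Prime := hrL.1
      haveI : Fact r.Prime := ⟨hr⟩
      let R : Subgroup G := expSub U hUc r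
      have hRU : R ≤ U := fun x hx => hx.1
      refine ⟨R, expSub_normal hUn hUc r, fun x hx y hy => hUc x hx.1 y hy.1, ?_, ?_⟩
      · apply pgroup_of
        intro x hx
        exact ⟨1, by rw [pow_one]; exact hx.2⟩
      · intro hd
        rw [← Subgroup.relIndex_mul_index hRU] at hd
        rcases (Nat.Prime.dvd_mul hr).1 hd with h | h
        · let Q : Sylow r U := default
          have hle : (Q : Subgroup U) ≤ R.subgroupOf U := by
            intro x hx
            rw [Subgroup.mem_subgroupOf]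
            refine ⟨x.2, ?_⟩
            obtain ⟨k, hk⟩ := pgroup_mem Q.isPGroup' hx
            have h1 : (x : G) ^ N = 1 := hUexp x x.2
            have h2 : x ^ N = 1 := Subtype.ext (by simpa using h1)
            have h3 : orderOf x ∣ N := orderOf_dvd_of_pow_eq_one h2
            have h4 : orderOf x ∣ r ^ k := orderOf_dvd_of_pow_eq_one hk
            have h5 : orderOf x ∣ r := by
              obtain ⟨j, hj, hjo⟩ := (Nat.dvd_prime_pow hr).1 h4
              rw [hjo] at h3 ⊢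
              rcases Nat.lt_or_ge j 2 with hj2 | hj2
              · interval_cases j
                · simp
                · simp
              · exfalso
                have h6 : r * r ∣ N := by
                  refine Dvd.dvd.trans ?_ h3
                  rw [← pow_two]
                  exact pow_dvd_pow r hj2
                exact hr.one_lt.ne' (Nat.isUnit_iff.1 (hNsf r h6))
            have h7 : x ^ r = 1 := orderOf_dvd_iff_pow_eq_one.1 h5
            have := congrArg Subtype.val h7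
            simpa using this
          have h5 : (R.subgroupOf U).index ∣ (Q : Subgroup U).index :=
            Subgroup.index_dvd_of_le hle
          exact Q.not_dvd_index (h.trans h5)
        · rw [← Subgroup.relIndex_mul_index (le_sup_right : U ≤ N0 ⊔ U)] at h
          rcases (Nat.Prime.dvd_mul hr).1 h with h' | h'
          · have e0 : U.relIndex (N0 ⊔ U) ∣ Nat.card N0 := by
              rw [Subgroup.relIndex_sup_right]
              exact Subgroup.relIndex_dvd_card U N0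
            obtain ⟨i, hi⟩ := hN0p r hr (h'.trans e0)
            apply hb
            rw [hi]
            exact i.2
          · apply hrH
            rw [hcH]
            exact h'

end Pool.Agent.Lib.MPbe1941
end

section
/-!
# MP_be1941_al, block GOOD : the family of degrees
-/
set_option autoImplicit false

namespace Pool.Agent.Lib.MPbe1941.RD

/-- Inflation of irreducible representations. -/
def inflIso {G : Type} [Group G] (N : Subgroup G) [N.Normal] {V : Type} [AddCommGroup V]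
    [Module ℂ V] (ρ : Representation ℂ (G ⧸ N) V) :
    Subrepresentation ρ ≃o
      Subrepresentation (show Representation ℂ G V from MonoidHom.comp ρ (QuotientGroup.mk' N)) where
  toFun S := ⟨S.toSubmodule, fun g _ hv => S.apply_mem_toSubmodule (QuotientGroup.mk' N g) hv⟩
  invFun S := ⟨S.toSubmodule, fun g v hv => by
    obtain ⟨g, rfl⟩ := QuotientGroup.mk'_surjective N g
    exact S.apply_mem_toSubmodule g hv⟩
  left_inv _ := rfl
  right_inv _ := rfl
  map_rel_iff' := Iff.rfl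

lemma isDeg_infl {G : Type} [Group G] (N : Subgroup G) [N.Normal] {d : ℕ}
    (h : IsDeg (G ⧸ N) d) : IsDeg G d := by
  obtain ⟨ρ, hρ⟩ := h
  exact ⟨MonoidHom.comp ρ (QuotientGroup.mk' N), (OrderIso.isSimpleOrder_iff (inflIso N ρ)).1 hρ⟩

lemma good_infl {G : Type} [Group G] (N : Subgroup G) [N.Normal] (hRS : RS (G ⧸ N) = RS G)
    (h : Good (G ⧸ N)) : Good G := by
  obtain ⟨S, hS1, hS2, d, hd, hcov⟩ := h
  exact ⟨S, hS1, hS2, d, fun s => isDeg_infl N (hd s), fun r hr => hcov r (hRS ▸ hr)⟩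

lemma flip_flip {K : Type} (s : K → Bool) (k : K) : flip (flip s k) k = s := by
  classical
  funext j
  unfold flip
  by_cases h : j = k
  · simp [h]
  · simp [h]

lemma flip_self {K : Type} (s : K → Bool) (k : K) : flip s k k = !s k := by
  unfold flip
  simp

/-- Pairing gives one half. -/
lemma half_of_pair {K : Type} [Finite K] (Q : (K → Bool) → Prop) (k : K)
    (h : ∀ s, Q s ∨ Q (flip s k)) : Nat.card (K → Bool) ≤ 2 * Nat.card {s : K → Bool // Q s} := by
  classical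
  have e : Nat.card ({s : K → Bool // Q s} ⊕ {s : K → Bool // Q s}) =
      2 * Nat.card {s : K → Bool // Q s} := by
    rw [Nat.card_sum, two_mul]
  rw [← e]
  let f : (K → Bool) → {s : K → Bool // Q s} ⊕ {s : K → Bool // Q s} := fun s =>
    if hs : Q s then Sum.inl ⟨s, hs⟩ else Sum.inr ⟨flip s k, (h s).resolve_left hs⟩
  apply Nat.card_le_card_of_injective f
  intro s t hst
  by_cases hs : Q s
  · by_cases ht : Q t
    · simp only [f, hs, ht, dif_pos] at hst
      exact congrArg Subtype.val (Sum.inl_injective hst)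
    · simp only [f, hs, ht, dif_pos, dif_neg, not_false_eq_true] at hst
      exact absurd hst (by simp)
  · by_cases ht : Q t
    · simp only [f, hs, ht, dif_pos, dif_neg, not_false_eq_true] at hst
      exact absurd hst (by simp)
    · simp only [f, hs, ht, dif_neg, not_false_eq_true] at hst
      have h1 : flip s k = flip t k := congrArg Subtype.val (Sum.inr_injective hst)
      rw [← flip_flip s k, h1, flip_flip]

end Pool.Agent.Lib.MPbe1941.RD

namespace Pool.Agent.Lib.MPbe1941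

open RD

theorem specGOOD (hRED : SpecRED) (hREP : SpecREP) (hCORE : SpecCORE) : SpecGOOD := by
  have key : ∀ (n : ℕ) (G : Type) [Group G] [Finite G], Nat.card G = n → Group.IsSolvable G →
      Good G := by
    intro n
    induction n using Nat.strong_induction_on with
    | _ n ih =>
      intro G _ _ hn hs
      by_cases hstar : ∀ N : Subgroup G, ∀ _ : N.Normal, N ≠ ⊥ → RS (G ⧸ N) ≠ RS G
      · obtain ⟨ι, hι, pr, P, U, H, hsplit, hcov⟩ := hRED G hs hstar
        obtain ⟨W, hW1, hW2, Z, hZ1, hZ2, κ, cmp, B, hcore, hdeg⟩ :=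
          hREP G ι pr P U H hsplit
        obtain ⟨c, hval, hmu, hpair⟩ := hCORE H W ι κ Z pr cmp B hcore
        choose d hd1 hd2 hd3 using fun s => hdeg (c s) (hval s)
        refine ⟨Option ι → Bool, inferInstance, inferInstance, d, hd1, ?_⟩
        intro r hr
        rcases hcov r hr with ⟨i, hi⟩ | hrH
        · apply half_of_pair (fun s => r ∣ d s) (some i)
          intro s
          have h1 : ∀ t : Option ι → Bool, t (some i) = true → r ∣ d t := by
            intro t ht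
            rw [hi]
            exact hd2 t i ((hmu t i).2 ht)
          cases hsi : s (some i) with
          | true => exact Or.inl (h1 s hsi)
          | false =>
            right
            apply h1
            rw [flip_self, hsi]
            rfl
        · obtain ⟨k, hk⟩ := hpair r hr.1 hrH
          apply half_of_pair (fun s => r ∣ d s) k
          intro s
          rcases hk s with h | h
          · exact Or.inl (hd3 s r hr.1.1 h)
          · exact Or.inr (hd3 _ r hr.1.1 h)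
      · push Not at hstar
        obtain ⟨N, hN, hne, hRS⟩ := hstar
        have hlt : Nat.card (G ⧸ N) < n := by
          rw [← Subgroup.index_eq_card, ← hn, ← Subgroup.card_mul_index N]
          have h1 : 1 < Nat.card N := by
            rcases Nat.lt_or_ge 1 (Nat.card N) with h | h
            · exact h
            · exfalso
              have h2 : 0 < Nat.card N := Nat.card_pos
              exact hne (Subgroup.card_eq_one.1 (le_antisymm h h2))
          have h2 : 0 < N.index := Nat.pos_of_ne_zero Subgroup.FiniteIndex.index_ne_zero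
          nlinarith
        have hsq : Group.IsSolvable (G ⧸ N) := inferInstance
        exact good_infl N hRS (ih _ hlt (G ⧸ N) rfl hsq)
  intro G _ _ hs
  exact key _ G rfl hs

end Pool.Agent.Lib.MPbe1941
end

section
/-!
# CFF: `C_N(Fit N) ≤ Fit N` for `N` solvable
-/
set_option autoImplicit false

namespace Pool.Agent.Lib.MPbe1941.X

open Pool.Agent.Lib.MPbe1941

namespace CFFM

variable {G : Type} [Group G]

theorem sSup_conj {A : Set (Subgroup G)} {g : G}
    (h : ∀ K ∈ A, ∀ k ∈ K, g * k * g⁻¹ ∈ K) : ∀ k ∈ sSup A, g * k * g⁻¹ ∈ sSup A := by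
  have h1 : sSup A ≤ (sSup A).comap (MulAut.conj g).toMonoidHom := by
    refine sSup_le fun K hK k hk => ?_
    show g * k * g⁻¹ ∈ sSup A
    exact (le_sSup hK : K ≤ sSup A) (h K hK k hk)
  exact fun k hk => h1 hk

theorem oc_conj {l : ℕ} {N : Subgroup G} {n : G} (hn : n ∈ N) :
    ∀ k ∈ Oc l N, n * k * n⁻¹ ∈ Oc l N :=
  sSup_conj fun _ hK k hk => hK.2.2 n hn k hk

theorem oc_le_fit {l : ℕ} (hl : l.Prime) (N : Subgroup G) : Oc l N ≤ Fit N :=
  le_sSup ⟨l, hl, rfl⟩

theorem fit_conj {N : Subgroup G} {n : G} (hn : n ∈ N) : ∀ k ∈ Fit N, n * k * n⁻¹ ∈ Fit N := by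
  refine sSup_conj ?_
  rintro _ ⟨l, _, rfl⟩ k hk
  exact oc_conj hn k hk

end CFFM

open CFFM in
theorem specCFF : SpecCFF := by
  intro G _ _ N hs x hx hc
  have hF : ∀ (l : ℕ) (O : Subgroup N), l.Prime → O.Normal → IsPGroup l O →
      O ≤ (Fit N).subgroupOf N := by
    intro l O hl hO hOl y hy
    have h1 : O.map N.subtype ≤ Oc l N := by
      refine le_sSup ⟨?_, hOl.map _, ?_⟩
      · rintro _ ⟨z, _, rfl⟩
        exact z.2
      · rintro n hn _ ⟨z, hz, rfl⟩
        exact ⟨⟨n, hn⟩ * z * ⟨n, hn⟩⁻¹, hO.conj_mem z hz ⟨n, hn⟩, rfl⟩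
    exact oc_le_fit hl N (h1 ⟨y, hy, rfl⟩)
  have hXn : ((Subgroup.centralizer (Fit N : Set G)).subgroupOf N).Normal := by
    refine ⟨?_⟩
    rintro ⟨z, hz⟩ hzc ⟨n, hn⟩
    have h1 : z ∈ Subgroup.centralizer (Fit N : Set G) := hzc
    show n * z * n⁻¹ ∈ Subgroup.centralizer (Fit N : Set G)
    rw [Subgroup.mem_centralizer_iff] at h1 ⊢
    intro y hy
    have h2 : n⁻¹ * y * n ∈ Fit N := by
      have := fit_conj (N.inv_mem hn) y hy
      rwa [inv_inv] at this
    have h3 := h1 _ h2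
    calc y * (n * z * n⁻¹) = n * ((n⁻¹ * y * n) * z) * n⁻¹ := by group
      _ = n * (z * (n⁻¹ * y * n)) * n⁻¹ := by rw [h3]
      _ = n * z * n⁻¹ * y := by group
  have h4 := RD.cent_le hs hF _ _ rfl hXn (by
    rintro ⟨z, hz⟩ hzc ⟨y, hy'⟩ hy
    have h1 : z ∈ Subgroup.centralizer (Fit N : Set G) := hzc
    rw [Subgroup.mem_centralizer_iff] at h1
    exact Subtype.ext (h1 y hy).symm)
  have h5 : x ∈ Subgroup.centralizer (Fit N : Set G) := by
    have h6 : Fit N ≤ Subgroup.centralizer {x} := by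
      refine sSup_le ?_
      rintro _ ⟨l, hl, rfl⟩ y hy
      rw [Subgroup.mem_centralizer_singleton_iff]
      exact (hc l hl y hy).symm
    rw [Subgroup.mem_centralizer_iff]
    intro y hy
    exact Subgroup.mem_centralizer_singleton_iff.1 (h6 hy)
  exact h4 (show (⟨x, hx⟩ : N) ∈ (Subgroup.centralizer (Fit N : Set G)).subgroupOf N from h5)

end Pool.Agent.Lib.MPbe1941.X
end

section
/-!
# Module FRA: the normaliser of `S` is a complement of `D`
-/
set_option autoImplicit false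

namespace Pool.Agent.Lib.MPbe1941.X

open Pool.Agent.Lib.MPbe1941

namespace FRAM

variable {H : Type} [Group H]

/-- the cocycle argument in the abelian group `D` -/
theorem cocycle {D : Subgroup H} [hD : D.Normal] (hab : ∀ x ∈ D, ∀ y ∈ D, x * y = y * x)
    {S : Subgroup H} [Finite H] (hcop : Nat.Coprime (Nat.card D) (Nat.card S)) (c f : S → H)
    (hc : ∀ s, c s ∈ D) (hcc : ∀ s s₁, c (s * s₁) = c s * (f s * c s₁ * (f s)⁻¹)) :
    ∃ d ∈ D, ∀ s, c s * f s = d * f s * d⁻¹ := by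
  classical
  let _ : CommGroup D :=
    { (inferInstance : Group D) with
      mul_comm := fun a b => Subtype.ext (hab a a.2 b b.2) }
  have : Fintype S := Fintype.ofFinite S
  let cD : S → D := fun s => ⟨c s, hc s⟩
  let e : D := ∏ s, cD s
  have h1 : ∀ s, e = cD s ^ Nat.card S * MulAut.conjNormal (f s) e := by
    intro s
    have h2 : ∀ s₁, cD (s * s₁) = cD s * MulAut.conjNormal (f s) (cD s₁) := by
      intro s₁
      apply Subtype.ext
      rw [Subgroup.coe_mul, MulAut.conjNormal_apply]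
      exact hcc s s₁
    calc e = ∏ s₁, cD (s * s₁) := (Equiv.prod_comp (Equiv.mulLeft s) cD).symm
      _ = ∏ s₁, (cD s * MulAut.conjNormal (f s) (cD s₁)) := Finset.prod_congr rfl fun s₁ _ => h2 s₁
      _ = (∏ _s₁ : S, cD s) * ∏ s₁, MulAut.conjNormal (f s) (cD s₁) := Finset.prod_mul_distrib
      _ = cD s ^ Nat.card S * MulAut.conjNormal (f s) e := by
        rw [Finset.prod_const, Finset.card_univ, Nat.card_eq_fintype_card, map_prod]
  obtain ⟨d, hd⟩ : ∃ d : D, d ^ Nat.card S = e := by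
    obtain ⟨d, hd⟩ := (powCoprime hcop).surjective e
    exact ⟨d, hd⟩
  refine ⟨d, d.2, fun s => ?_⟩
  have h3 : (cD s * (MulAut.conjNormal (f s) d * d⁻¹)) ^ Nat.card S = 1 := by
    rw [mul_pow, mul_pow, ← map_pow, inv_pow, hd, ← mul_assoc, ← h1 s, mul_inv_cancel]
  have h4 : cD s * (MulAut.conjNormal (f s) d * d⁻¹) = 1 := by
    apply (powCoprime hcop).injective
    show _ ^ Nat.card S = (1 : D) ^ Nat.card S
    rw [h3, one_pow]
  have h5 : c s * ((f s * d * (f s)⁻¹) * (d : H)⁻¹) = 1 := by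
    have := congrArg Subtype.val h4
    rw [Subgroup.coe_mul, Subgroup.coe_mul, MulAut.conjNormal_apply] at this
    exact this
  have h6 : c s = (d : H) * f s * (d : H)⁻¹ * (f s)⁻¹ := by
    rw [mul_eq_one_iff_eq_inv] at h5
    rw [h5]
    group
  rw [h6]
  group

theorem exists_dec {D S : Subgroup H} [hD : D.Normal] {x : H} (hx : x ∈ D ⊔ S) :
    ∃ a ∈ D, ∃ s ∈ S, x = a * s := by
  obtain ⟨a, ha, s, hs, h⟩ := Subgroup.mem_sup_of_normal_left.1 hx
  exact ⟨a, ha, s, hs, h.symm⟩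

end FRAM

open FRAM in
/-- **FRA**. -/
theorem specFRA : SpecFRA := by
  intro H _ _ D S hDn hab hcop hDS hfix
  have := hDn
  have hdis : D ⊓ S = ⊥ := Subgroup.inf_eq_bot_of_coprime hcop
  have huniq : ∀ a ∈ D, ∀ s ∈ S, ∀ a' ∈ D, ∀ s' ∈ S, a * s = a' * s' → a = a' ∧ s = s' := by
    intro a ha s hs a' ha' s' hs' h
    have h1 : a'⁻¹ * a = s' * s⁻¹ := by
      rw [inv_mul_eq_iff_eq_mul, ← mul_assoc, ← h, mul_assoc, mul_inv_cancel, mul_one]
    have h2 : a'⁻¹ * a ∈ D ⊓ S :=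
      ⟨D.mul_mem (D.inv_mem ha') ha, by rw [h1]; exact S.mul_mem hs' (S.inv_mem hs)⟩
    rw [hdis, Subgroup.mem_bot] at h2
    refine ⟨(inv_mul_eq_one.1 h2).symm, ?_⟩
    rw [h2] at h1
    exact (mul_inv_eq_one.1 h1.symm).symm
  refine ⟨Subgroup.normalizer (S : Set H), fun k => Subgroup.mem_normalizer_iff, ?_, ?_⟩
  · rw [eq_bot_iff]
    rintro d ⟨hd, hdn⟩
    rw [Subgroup.mem_bot]
    refine hfix d hd fun s hs => ?_
    have h1 : d * s * d⁻¹ ∈ S := (Subgroup.mem_normalizer_iff.1 hdn s).1 hs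
    have h2 : d * s * d⁻¹ * s⁻¹ ∈ D ⊓ S := by
      refine ⟨?_, S.mul_mem h1 (S.inv_mem hs)⟩
      have := D.mul_mem hd (hDn.conj_mem _ (D.inv_mem hd) s)
      rwa [show d * (s * d⁻¹ * s⁻¹) = d * s * d⁻¹ * s⁻¹ by group] at this
    rw [hdis, Subgroup.mem_bot, mul_inv_eq_one, mul_inv_eq_iff_eq_mul] at h2
    exact h2.symm
  · rw [eq_top_iff]
    intro h _
    have h1 : ∀ s : S, ∃ a ∈ D, ∃ t ∈ S, h * s * h⁻¹ = a * t := fun s =>
      exists_dec (hDS.conj_mem _ (Subgroup.mem_sup_right s.2) h)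
    choose c hc f hf hcf using h1
    have hcc : ∀ s s₁, c (s * s₁) = c s * (f s * c s₁ * (f s)⁻¹) := by
      intro s s₁
      refine (huniq _ (hc (s * s₁)) _ (hf (s * s₁)) _ ?_ _ (S.mul_mem (hf s) (hf s₁)) ?_).1
      · exact D.mul_mem (hc s) (hDn.conj_mem _ (hc s₁) _)
      · rw [← hcf]
        have e1 : h * ((s * s₁ : S) : H) * h⁻¹ = (h * s * h⁻¹) * (h * s₁ * h⁻¹) := by
          rw [Subgroup.coe_mul]
          group
        rw [e1, hcf, hcf]
        group
    obtain ⟨d, hd, hds⟩ := cocycle hab hcop c f hc hcc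
    have h2 : d⁻¹ * h ∈ Subgroup.normalizer (S : Set H) := by
      have h3 : S.map (MulAut.conj (d⁻¹ * h)).toMonoidHom ≤ S := by
        rintro _ ⟨s, hs, rfl⟩
        have h4 := hcf ⟨s, hs⟩
        rw [hds] at h4
        have h5 : d⁻¹ * h * s * (d⁻¹ * h)⁻¹ = f ⟨s, hs⟩ := by
          calc d⁻¹ * h * s * (d⁻¹ * h)⁻¹ = d⁻¹ * (h * s * h⁻¹) * d := by group
            _ = d⁻¹ * (d * f ⟨s, hs⟩ * d⁻¹) * d := by rw [← h4]
            _ = f ⟨s, hs⟩ := by group
        show d⁻¹ * h * s * (d⁻¹ * h)⁻¹ ∈ S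
        rw [h5]
        exact hf _
      have heq : S.map (MulAut.conj (d⁻¹ * h)).toMonoidHom = S := by
        apply Subgroup.eq_of_le_of_card_ge h3
        exact (Nat.card_congr (S.equivMapOfInjective _ (MulAut.conj _).injective).toEquiv).le
      exact Subgroup.mem_normalizer_iff_map_conj_eq.2 heq
    have h6 : h = d * (d⁻¹ * h) := by group
    rw [h6]
    exact Subgroup.mul_mem_sup hd h2

end Pool.Agent.Lib.MPbe1941.X
end

section
/-!
# Module FTF: basic facts on the Fitting subgroup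
-/
set_option autoImplicit false

namespace Pool.Agent.Lib.MPbe1941.X

open Pool.Agent.Lib.MPbe1941

namespace FTFM

variable {G : Type} [Group G]

/-- elements of the join of two commuting subgroups -/
theorem mem_sup_comm {A C : Subgroup G} (h : ∀ a ∈ A, ∀ c ∈ C, a * c = c * a) {x : G}
    (hx : x ∈ A ⊔ C) : ∃ a ∈ A, ∃ c ∈ C, x = a * c := by
  let T : Subgroup G :=
    { carrier := {x | ∃ a ∈ A, ∃ c ∈ C, x = a * c}
      one_mem' := ⟨1, A.one_mem, 1, C.one_mem, by simp⟩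
      mul_mem' := by
        rintro _ _ ⟨a, ha, c, hc, rfl⟩ ⟨a', ha', c', hc', rfl⟩
        refine ⟨a * a', A.mul_mem ha ha', c * c', C.mul_mem hc hc', ?_⟩
        have := h a' ha' c hc
        calc a * c * (a' * c') = a * (c * a') * c' := by group
          _ = a * (a' * c) * c' := by rw [this]
          _ = a * a' * (c * c') := by group
      inv_mem' := by
        rintro _ ⟨a, ha, c, hc, rfl⟩
        refine ⟨a⁻¹, A.inv_mem ha, c⁻¹, C.inv_mem hc, ?_⟩
        have := h a⁻¹ (A.inv_mem ha) c⁻¹ (C.inv_mem hc)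
        rw [this, mul_inv_rev] }
  have hle : A ⊔ C ≤ T :=
    sup_le (fun a ha => ⟨a, ha, 1, C.one_mem, by simp⟩) (fun c hc => ⟨1, A.one_mem, c, hc, by simp⟩)
  exact hle hx

/-- a family of pairwise commuting `l`-subgroups -/
structure Fam (O : ℕ → Subgroup G) : Prop where
  hp : ∀ l, l.Prime → IsPGroup l (O l)
  hc : ∀ l m, l.Prime → m.Prime → m ≠ l → ∀ x ∈ O l, ∀ y ∈ O m, x * y = y * x

variable {O : ℕ → Subgroup G}

theorem Fam.key [Finite G] (hO : Fam O) (s : Finset ℕ) : (∀ k ∈ s, k.Prime) →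
    ∀ b ∈ s.sup O, ∀ l, l.Prime → l ∉ s → (¬ l ∣ orderOf b) ∧ ∀ y ∈ O l, b * y = y * b := by
  classical
  induction s using Finset.induction_on with
  | empty =>
    intro _ b hb l hl _
    have hb1 : b = 1 := by simpa using hb
    subst hb1
    exact ⟨by rw [orderOf_one]; exact hl.one_lt.ne' ∘ Nat.dvd_one.1, fun y _ => by simp⟩
  | insert k s hks ih =>
    intro hs b hb l hl hls
    have hk : k.Prime := hs k (Finset.mem_insert_self k s)
    have hs' : ∀ j ∈ s, j.Prime := fun j hj => hs j (Finset.mem_insert_of_mem hj)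
    rw [Finset.sup_insert] at hb
    have hcm : ∀ a ∈ O k, ∀ c ∈ s.sup O, a * c = c * a := fun a ha c hc =>
      ((ih hs' c hc k hk hks).2 a ha).symm
    obtain ⟨a, ha, c, hc, rfl⟩ := mem_sup_comm hcm hb
    rw [Finset.mem_insert, not_or] at hls
    obtain ⟨h1, h2⟩ := ih hs' c hc l hl hls.2
    refine ⟨fun hd => ?_, fun y hy => ?_⟩
    · have hd' := hd.trans (Commute.orderOf_mul_dvd_lcm (hcm a ha c hc))
      rcases (hl.dvd_mul.1 (hd'.trans (Nat.lcm_dvd_mul _ _))) with h | h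
      · obtain ⟨n, hn⟩ := (hO.hp k hk) ⟨a, ha⟩
        have hn' : a ^ k ^ n = 1 := by simpa using congrArg Subtype.val hn
        have := h.trans (orderOf_dvd_of_pow_eq_one hn')
        exact hls.1 ((Nat.prime_dvd_prime_iff_eq hl hk).1 (hl.dvd_of_dvd_pow this))
      · exact h1 h
    · have h3 := hO.hc k l hk hl hls.1 a ha y hy
      calc a * c * y = a * (c * y) := by group
        _ = a * (y * c) := by rw [h2 y hy]
        _ = (a * y) * c := by group
        _ = (y * a) * c := by rw [h3]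
        _ = y * (a * c) := by group

/-- decomposition of an element -/
theorem Fam.dec [Finite G] (hO : Fam O) {s : Finset ℕ} (hs : ∀ k ∈ s, k.Prime) {l : ℕ}
    (hl : l.Prime) (hls : l ∉ s) {x : G} (hx : x ∈ O l ⊔ s.sup O) :
    ∃ m : ℕ, ∃ a ∈ O l, ∃ b ∈ s.sup O, x = a * b ∧ x ^ m = a ∧ a * b = b * a := by
  have hcm : ∀ a ∈ O l, ∀ c ∈ s.sup O, a * c = c * a := fun a ha c hc =>
    ((hO.key s hs c hc l hl hls).2 a ha).symm
  obtain ⟨a, ha, b, hb, rfl⟩ := mem_sup_comm hcm hx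
  obtain ⟨n, hn⟩ := (hO.hp l hl) ⟨a, ha⟩
  have hn' : a ^ l ^ n = 1 := by simpa using congrArg Subtype.val hn
  have hcop : Nat.Coprime (l ^ n) (orderOf b) :=
    Nat.Coprime.pow_left n ((Nat.Prime.coprime_iff_not_dvd hl).2 (hO.key s hs b hb l hl hls).1)
  obtain ⟨m, hm1, hm2⟩ := Nat.chineseRemainder hcop 1 0
  refine ⟨m, a, ha, b, hb, rfl, ?_, hcm a ha b hb⟩
  have h1 : a ^ m = a := by
    have : a ^ m = a ^ 1 := by
      rw [pow_eq_pow_iff_modEq]
      exact hm1.of_dvd (orderOf_dvd_of_pow_eq_one hn')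
    simpa using this
  have h2 : b ^ m = 1 := by
    have : b ^ m = b ^ 0 := by
      rw [pow_eq_pow_iff_modEq]
      exact hm2
    simpa using this
  rw [(show Commute a b from hcm a ha b hb).mul_pow, h1, h2, mul_one]

/-- product formula -/
theorem Fam.card [Finite G] (hO : Fam O) (s : Finset ℕ) : (∀ k ∈ s, k.Prime) →
    ∀ K : Subgroup G, K ≤ s.sup O → Nat.card K = ∏ l ∈ s, Nat.card (K ⊓ O l : Subgroup G) := by
  classical
  induction s using Finset.induction_on with
  | empty =>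
    intro _ K hK
    have : K = ⊥ := by simpa using hK
    subst this
    simp
  | insert k s hks ih =>
    intro hs K hK
    have hk : k.Prime := hs k (Finset.mem_insert_self k s)
    have hs' : ∀ j ∈ s, j.Prime := fun j hj => hs j (Finset.mem_insert_of_mem hj)
    rw [Finset.sup_insert] at hK
    rw [Finset.prod_insert hks]
    have h2 := ih hs' (K ⊓ s.sup O) inf_le_right
    have h3 : ∀ l ∈ s, Nat.card ((K ⊓ s.sup O) ⊓ O l : Subgroup G) = Nat.card (K ⊓ O l : Subgroup G) := by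
      intro l hl
      have : (K ⊓ s.sup O) ⊓ O l = K ⊓ O l := by
        rw [inf_assoc, inf_eq_right.2 (Finset.le_sup (f := O) hl)]
      rw [this]
    rw [Finset.prod_congr rfl h3] at h2
    rw [← h2, ← Nat.card_prod]
    symm
    refine Nat.card_congr (Equiv.ofBijective
      (fun p : (K ⊓ O k : Subgroup G) × (K ⊓ s.sup O : Subgroup G) =>
        (⟨p.1.1 * p.2.1, K.mul_mem p.1.2.1 p.2.2.1⟩ : K)) ⟨?_, ?_⟩)
    · rintro ⟨⟨a, ha⟩, ⟨b, hb⟩⟩ ⟨⟨a', ha'⟩, ⟨b', hb'⟩⟩ h
      have h' : a * b = a' * b' := congrArg Subtype.val h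
      have h4 : a'⁻¹ * a = b' * b⁻¹ := by
        rw [inv_mul_eq_iff_eq_mul, ← mul_assoc, ← h', mul_assoc, mul_inv_cancel, mul_one]
      have h5 : a'⁻¹ * a ∈ O k := (O k).mul_mem ((O k).inv_mem ha'.2) ha.2
      have h6 : a'⁻¹ * a ∈ s.sup O := by
        rw [h4]; exact (s.sup O).mul_mem hb'.2 ((s.sup O).inv_mem hb.2)
      have h7 : a'⁻¹ * a = 1 := by
        obtain ⟨n, hn⟩ := (hO.hp k hk) ⟨_, h5⟩
        have hn' : (a'⁻¹ * a) ^ k ^ n = 1 := by simpa using congrArg Subtype.val hn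
        have hnd := (hO.key s hs' _ h6 k hk hks).1
        have hd := orderOf_dvd_of_pow_eq_one hn'
        have hcop : Nat.Coprime (orderOf (a'⁻¹ * a)) (k ^ n) :=
          (Nat.Coprime.pow_left n ((Nat.Prime.coprime_iff_not_dvd hk).2 hnd)).symm
        exact orderOf_eq_one_iff.1 (Nat.Coprime.eq_one_of_dvd hcop hd)
      have h8 : a = a' := by rw [inv_mul_eq_one] at h7; exact h7.symm
      subst h8
      have h9 : b = b' := mul_left_cancel h'
      subst h9
      rfl
    · rintro ⟨x, hx⟩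
      obtain ⟨m, a, ha, b, hb, hab, hxa, _⟩ := hO.dec hs' hk hks (hK hx)
      have haK : a ∈ K := by rw [← hxa]; exact K.pow_mem hx m
      have hbK : b ∈ K := by
        have : b = a⁻¹ * x := by rw [hab, inv_mul_cancel_left]
        rw [this]; exact K.mul_mem (K.inv_mem haK) hx
      exact ⟨⟨⟨a, haK, ha⟩, ⟨b, hbK, hb⟩⟩, Subtype.ext hab.symm⟩

/-- the family `O_l(N)` -/
theorem fam (hOCF : SpecOCF) [Finite G] (N : Subgroup G) : Fam (fun l => Oc l N) :=
  ⟨fun l hl => (hOCF G l hl N).2.1,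
    fun l m hl hm hml x hx y hy => (hOCF G l hl N).2.2.2.2.2 m hm hml x hx y hy⟩

theorem oc_bot (hOCF : SpecOCF) [Finite G] (N : Subgroup G) {l : ℕ} (hl : l.Prime)
    (h : ¬ l ∣ Nat.card G) : Oc l N = ⊥ := by
  rw [Subgroup.eq_bot_iff_forall]
  intro x hx
  obtain ⟨n, hn⟩ := (hOCF G l hl N).2.1 ⟨x, hx⟩
  have hn' : x ^ l ^ n = 1 := by simpa using congrArg Subtype.val hn
  have hd := orderOf_dvd_of_pow_eq_one hn'
  have hcop : Nat.Coprime (orderOf x) (l ^ n) := by
    refine (Nat.Coprime.pow_left n ((Nat.Prime.coprime_iff_not_dvd hl).2 fun h2 => h ?_)).symm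
    exact h2.trans (orderOf_dvd_natCard x)
  exact orderOf_eq_one_iff.1 (Nat.Coprime.eq_one_of_dvd hcop hd)

theorem fit_le (hOCF : SpecOCF) [Finite G] (N : Subgroup G) :
    Fit N ≤ (Nat.card G).primeFactors.sup (fun l => Oc l N) := by
  refine sSup_le ?_
  rintro K ⟨l, hl, rfl⟩
  by_cases h : l ∣ Nat.card G
  · exact Finset.le_sup (f := fun l => Oc l N)
      (Nat.mem_primeFactors.2 ⟨hl, h, Nat.card_pos.ne'⟩)
  · rw [oc_bot hOCF N hl h]; exact bot_le

theorem oc_le_fit (N : Subgroup G) {l : ℕ} (hl : l.Prime) : Oc l N ≤ Fit N :=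
  le_sSup ⟨l, hl, rfl⟩

/-- decomposition of an element of the Fitting subgroup -/
theorem fit_dec (hOCF : SpecOCF) [Finite G] (N : Subgroup G) {l : ℕ} (hl : l.Prime) {x : G}
    (hx : x ∈ Fit N) :
    ∃ m : ℕ, ∃ a ∈ Oc l N, ∃ b ∈ ((Nat.card G).primeFactors.erase l).sup (fun l => Oc l N),
      x = a * b ∧ x ^ m = a ∧ a * b = b * a := by
  classical
  refine (fam hOCF N).dec (fun k hk => (Nat.mem_primeFactors.1 (Finset.mem_of_mem_erase hk)).1) hl
    (Finset.notMem_erase l _) ?_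
  have h1 := fit_le hOCF N hx
  have h2 : (Nat.card G).primeFactors.sup (fun l => Oc l N) ≤
      Oc l N ⊔ ((Nat.card G).primeFactors.erase l).sup (fun l => Oc l N) := by
    refine Finset.sup_le fun k hk => ?_
    by_cases hkl : k = l
    · subst hkl; exact le_sup_left
    · exact (Finset.le_sup (f := fun l => Oc l N) (Finset.mem_erase.2 ⟨hkl, hk⟩)).trans le_sup_right
  exact h2 h1

end FTFM

open FTFM

theorem specFTF (hOCF : SpecOCF) : SpecFTF := by
  classical
  intro G _ _ N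
  refine ⟨?_, ?_, ?_, ?_, ?_⟩
  · refine sSup_le ?_
    rintro K ⟨l, hl, rfl⟩
    exact (hOCF G l hl N).1
  · intro g hg
    have : Fit N ≤ (Fit N).comap (MulAut.conj g).toMonoidHom := by
      refine sSup_le ?_
      rintro K ⟨l, hl, rfl⟩ k hk
      rw [Subgroup.mem_comap]
      exact oc_le_fit N hl ((hOCF G l hl N).2.2.1 g hg k hk)
    intro k hk
    have := this hk
    rw [Subgroup.mem_comap] at this
    exact this
  · rintro l hl x hx ⟨n, hn⟩
    obtain ⟨m, a, ha, b, hb, hab, hxa, hcm⟩ := fit_dec hOCF N hl hx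
    have hbn : b ^ l ^ n = 1 := by
      have h1 : (a * b) ^ l ^ n = a ^ l ^ n * b ^ l ^ n := (show Commute a b from hcm).mul_pow _
      have h2 : a ^ l ^ n = 1 := by
        rw [← hxa, ← pow_mul, mul_comm, pow_mul, hn, one_pow]
      rw [← hab, hn, h2, one_mul] at h1
      exact h1.symm
    have hnd := ((fam hOCF N).key _ (fun k hk =>
      (Nat.mem_primeFactors.1 (Finset.mem_of_mem_erase hk)).1) b hb l hl
      (Finset.notMem_erase l _)).1
    have hd := orderOf_dvd_of_pow_eq_one hbn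
    have hcop : Nat.Coprime (orderOf b) (l ^ n) :=
      (Nat.Coprime.pow_left n ((Nat.Prime.coprime_iff_not_dvd hl).2 hnd)).symm
    have hb1 := orderOf_eq_one_iff.1 (Nat.Coprime.eq_one_of_dvd hcop hd)
    rw [hab, hb1, mul_one]
    exact ha
  · intro l hl x hx
    obtain ⟨m, a, ha, b, hb, hab, hxa, hcm⟩ := fit_dec hOCF N hl hx
    refine ⟨m, by rw [hxa]; exact ha, ?_⟩
    have hbc := ((fam hOCF N).key _ (fun k hk =>
      (Nat.mem_primeFactors.1 (Finset.mem_of_mem_erase hk)).1) b hb l hl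
      (Finset.notMem_erase l _)).2
    have h1 : x ^ m * x⁻¹ = b⁻¹ := by
      rw [hxa, hab, hcm, mul_inv_rev, mul_inv_cancel_left]
    intro y hy
    rw [h1]
    have := hbc y hy
    rw [inv_mul_eq_iff_eq_mul, ← mul_assoc, this, mul_assoc, mul_inv_cancel, mul_one]
  · intro K hK
    exact (fam hOCF N).card _ (fun k hk => (Nat.mem_primeFactors.1 hk).1) K
      (hK.trans (fit_le hOCF N))

end Pool.Agent.Lib.MPbe1941.X
end

section
/-!
# Module OCF: basic facts on `O_l(N)`
-/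
set_option autoImplicit false

namespace Pool.Agent.Lib.MPbe1941.X

open Pool.Agent.Lib.MPbe1941

namespace OCFM

variable {G : Type} [Group G]

/-- the family of the normal `l`-subgroups of `N` -/
def Fam (l : ℕ) (N : Subgroup G) : Set (Subgroup G) :=
  {K | K ≤ N ∧ IsPGroup l K ∧ ∀ n ∈ N, ∀ k ∈ K, n * k * n⁻¹ ∈ K}

theorem conj_mem_iff {K : Subgroup G} {g : G} (h : ∀ k ∈ K, g * k * g⁻¹ ∈ K)
    (h' : ∀ k ∈ K, g⁻¹ * k * g ∈ K) : g ∈ Subgroup.normalizer (K : Set G) := by
  rw [Subgroup.mem_normalizer_iff]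
  intro k
  refine ⟨h k, fun hk => ?_⟩
  have := h' _ hk
  rwa [show g⁻¹ * (g * k * g⁻¹) * g = k by group] at this

theorem le_normalizer {N K : Subgroup G} (h : ∀ n ∈ N, ∀ k ∈ K, n * k * n⁻¹ ∈ K) :
    N ≤ Subgroup.normalizer (K : Set G) := by
  intro n hn
  refine conj_mem_iff (h n hn) fun k hk => ?_
  have := h n⁻¹ (N.inv_mem hn) k hk
  rwa [inv_inv] at this

theorem sup_mem {l : ℕ} {N K L : Subgroup G} (hK : K ∈ Fam l N) (hL : L ∈ Fam l N) :
    K ⊔ L ∈ Fam l N := by
  obtain ⟨hK1, hK2, hK3⟩ := hK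
  obtain ⟨hL1, hL2, hL3⟩ := hL
  refine ⟨sup_le hK1 hL1, ?_, ?_⟩
  · exact hK2.to_sup_of_normal_right' hL2 (hK1.trans (le_normalizer hL3))
  · intro n hn k hk
    have hle : K ⊔ L ≤ (K ⊔ L).comap (MulAut.conj n).toMonoidHom := by
      refine sup_le ?_ ?_
      · intro k hk
        exact Subgroup.mem_sup_left (hK3 n hn k hk)
      · intro k hk
        exact Subgroup.mem_sup_right (hL3 n hn k hk)
    exact hle hk

theorem Oc_mem [Finite G] (l : ℕ) (N : Subgroup G) : Oc l N ∈ Fam l N := by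
  classical
  have hfin : (Fam l N).Finite := Set.toFinite _
  have h1 : Oc l N = hfin.toFinset.sup id := by
    rw [Finset.sup_id_eq_sSup, Set.Finite.coe_toFinset]
    rfl
  rw [h1]
  refine Finset.sup_mem (Fam l N) ?_ (fun x hx y hy => sup_mem hx hy) _ _ ?_
  · exact ⟨bot_le, IsPGroup.of_bot, fun n _ k hk => by
      rw [Subgroup.mem_bot.1 hk]
      simp⟩
  · intro K hK
    exact (Set.Finite.mem_toFinset hfin).1 hK

theorem inv_conj_mem [Finite G] {N : Subgroup G} {g : G} (h : ∀ n ∈ N, g * n * g⁻¹ ∈ N) :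
    ∀ n ∈ N, g⁻¹ * n * g ∈ N := by
  have hle : N.map (MulAut.conj g).toMonoidHom ≤ N := by
    rintro _ ⟨n, hn, rfl⟩
    exact h n hn
  have heq : N.map (MulAut.conj g).toMonoidHom = N := by
    apply Subgroup.eq_of_le_of_card_ge hle
    exact (Nat.card_congr (N.equivMapOfInjective _ (MulAut.conj g).injective).toEquiv).le
  intro n hn
  rw [← heq] at hn
  obtain ⟨n', hn', rfl⟩ := hn
  have : g⁻¹ * (MulAut.conj g).toMonoidHom n' * g = n' := by
    simp [MulAut.conj_apply]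
    group
  rwa [this]

theorem Oc_inv [Finite G] {l : ℕ} {N : Subgroup G} {g : G} (h : ∀ n ∈ N, g * n * g⁻¹ ∈ N) :
    ∀ k ∈ Oc l N, g * k * g⁻¹ ∈ Oc l N := by
  obtain ⟨h1, h2, h3⟩ := Oc_mem l N
  have h4 := inv_conj_mem h
  have hmem : (Oc l N).map (MulAut.conj g).toMonoidHom ∈ Fam l N := by
    refine ⟨?_, h2.map _, ?_⟩
    · rintro _ ⟨k, hk, rfl⟩
      exact h k (h1 hk)
    · rintro n hn _ ⟨k, hk, rfl⟩
      refine ⟨(g⁻¹ * n * g) * k * (g⁻¹ * n * g)⁻¹, h3 _ (h4 n hn) k hk, ?_⟩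
      simp only [MulEquiv.coe_toMonoidHom, MulAut.conj_apply]
      group
  intro k hk
  exact le_sSup hmem ⟨k, hk, rfl⟩

theorem Oc_le_syl [Finite G] {l : ℕ} (hl : l.Prime) {N R : Subgroup G} (hR : SylIn l N R) :
    Oc l N ≤ R := by
  obtain ⟨h1, h2, h3⟩ := Oc_mem l N
  obtain ⟨r1, r2, r3⟩ := hR
  have : Fact l.Prime := ⟨hl⟩
  have hp : IsPGroup l (R ⊔ Oc l N : Subgroup G) :=
    r2.to_sup_of_normal_right' h2 (r1.trans (le_normalizer h3))
  have hmul := Subgroup.relIndex_mul_relIndex R (R ⊔ Oc l N) N le_sup_left (sup_le r1 h1)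
  have hone : R.relIndex (R ⊔ Oc l N) = 1 := by
    obtain ⟨n, hn⟩ := IsPGroup.iff_card.1 hp
    have hd : R.relIndex (R ⊔ Oc l N) ∣ l ^ n := by
      rw [← hn]
      exact Subgroup.relIndex_dvd_card _ _
    obtain ⟨m, -, hm⟩ := (Nat.dvd_prime_pow hl).1 hd
    rcases Nat.eq_zero_or_pos m with h0 | h0
    · rw [hm, h0, pow_zero]
    · exfalso
      apply r3
      rw [← hmul, hm]
      exact dvd_mul_of_dvd_left (dvd_pow_self l h0.ne') _
  exact le_sup_right.trans (Subgroup.relIndex_eq_one.1 hone)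

theorem Oc_comm [Finite G] {l m : ℕ} (hl : l.Prime) (hm : m.Prime) (hml : m ≠ l)
    {N : Subgroup G} {x y : G} (hx : x ∈ Oc l N) (hy : y ∈ Oc m N) : x * y = y * x := by
  obtain ⟨h1, h2, h3⟩ := Oc_mem l N
  obtain ⟨k1, k2, k3⟩ := Oc_mem m N
  have : Fact l.Prime := ⟨hl⟩
  have : Fact m.Prime := ⟨hm⟩
  have hd := IsPGroup.disjoint_of_ne l m (Ne.symm hml) _ _ h2 k2
  have hz1 : x * y * x⁻¹ * y⁻¹ ∈ Oc m N :=
    (Oc m N).mul_mem (k3 x (h1 hx) y hy) ((Oc m N).inv_mem hy)
  have hz2 : x * y * x⁻¹ * y⁻¹ ∈ Oc l N := by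
    have := (Oc l N).mul_mem hx (h3 y (k1 hy) x⁻¹ ((Oc l N).inv_mem hx))
    rwa [show x * (y * x⁻¹ * y⁻¹) = x * y * x⁻¹ * y⁻¹ by group] at this
  have hz : x * y * x⁻¹ * y⁻¹ = 1 := Subgroup.disjoint_def.1 hd hz2 hz1
  have := congrArg (fun z => z * y * x) hz
  simpa [mul_assoc] using this

end OCFM

open OCFM in
/-- **OCF**. -/
theorem specOCF : SpecOCF := by
  intro G _ _ l hl N
  obtain ⟨h1, h2, h3⟩ := Oc_mem l N
  refine ⟨h1, h2, fun g hg => Oc_inv hg, fun K k1 k2 k3 => le_sSup ⟨k1, k2, k3⟩,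
    fun R hR => Oc_le_syl hl hR, fun m hm hml x hx y hy => Oc_comm hl hm hml hx hy⟩

end Pool.Agent.Lib.MPbe1941.X
end

section
/-!
# Module FTN: a criterion for `D ≤ Fit N`
-/
set_option autoImplicit false

namespace Pool.Agent.Lib.MPbe1941.X

open Pool.Agent.Lib.MPbe1941

namespace FTNM

open FTFM

variable {G : Type} [Group G]

/-- a conjugate of an element acting trivially on an invariant subgroup acts trivially -/
theorem conj_comm {O : Subgroup G} {u v : G} (hu : ∀ g ∈ O, u * g = g * u)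
    (hv : ∀ g ∈ O, v * g * v⁻¹ ∈ O) : ∀ g ∈ O, v⁻¹ * u * v * g = g * (v⁻¹ * u * v) := by
  intro g hg
  have h := hu _ (hv g hg)
  calc v⁻¹ * u * v * g = v⁻¹ * (u * (v * g * v⁻¹)) * v := by group
    _ = v⁻¹ * (v * g * v⁻¹ * u) * v := by rw [h]
    _ = g * (v⁻¹ * u * v) := by group

theorem pow_eq_one_of {l n : ℕ} (hl : l.Prime) {b : G} (h : b ^ l ^ n = 1)
    (hnd : ¬ l ∣ orderOf b) : b = 1 := by
  have hcop : Nat.Coprime (orderOf b) (l ^ n) :=
    (Nat.Coprime.pow_left n ((Nat.Prime.coprime_iff_not_dvd hl).2 hnd)).symm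
  exact orderOf_eq_one_iff.1 (Nat.Coprime.eq_one_of_dvd hcop (orderOf_dvd_of_pow_eq_one h))

theorem not_dvd_of_LE {l t : ℕ} (hl : l.Prime) (ht : t.Prime) (hlt : l ≠ t) {x : G}
    (hx : LE t x) : ¬ l ∣ orderOf x := by
  obtain ⟨n, hn⟩ := hx
  intro h
  have := h.trans (orderOf_dvd_of_pow_eq_one hn)
  exact hlt ((Nat.prime_dvd_prime_iff_eq hl ht).1 (hl.dvd_of_dvd_pow this))

theorem isPGroup_zpowers {t : ℕ} {x : G} (hx : LE t x) : IsPGroup t (Subgroup.zpowers x) := by
  obtain ⟨n, hn⟩ := hx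
  rintro ⟨y, k, rfl⟩
  refine ⟨n, Subtype.ext ?_⟩
  change ((x ^ k) ^ t ^ n : G) = 1
  rw [← zpow_natCast, ← zpow_mul, mul_comm, zpow_mul, zpow_natCast, hn, one_zpow]

theorem LE_of_isPGroup {t : ℕ} {P : Subgroup G} (hP : IsPGroup t P) {x : G} (hx : x ∈ P) :
    LE t x := by
  obtain ⟨n, hn⟩ := hP ⟨x, hx⟩
  exact ⟨n, by simpa using congrArg Subtype.val hn⟩

/-- `t`-elements and `t'`-elements of `D` commute -/
theorem comm (hOCF : SpecOCF) (hCFF : SpecCFF) [Finite G] {N D : Subgroup G}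
    (hsol : Group.IsSolvable N) (hDN : D ≤ N)
    (hcent : ∀ l, l.Prime → ∀ x ∈ D, ¬ l ∣ orderOf x → ∀ y ∈ Oc l N, x * y = y * x)
    {t : ℕ} (ht : t.Prime) {x y : G} (hx : x ∈ D) (hxt : LE t x) (hy : y ∈ D)
    (hyt : ¬ t ∣ orderOf y) : x * y = y * x := by
  classical
  have hN : ∀ l, l.Prime → ∀ v ∈ N, ∀ g ∈ Oc l N, v * g * v⁻¹ ∈ Oc l N := fun l hl v hv =>
    (hOCF G l hl N).2.2.1 v (fun n hn => N.mul_mem (N.mul_mem hv hn) (N.inv_mem hv))
  have hxc : ∀ l, l.Prime → l ≠ t → ∀ g ∈ Oc l N, x * g = g * x := fun l hl hlt =>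
    hcent l hl x hx (not_dvd_of_LE hl ht hlt hxt)
  have hyc : ∀ g ∈ Oc t N, y * g = g * y := hcent t ht y hy hyt
  obtain ⟨z, hz⟩ : ∃ z, z = x⁻¹ * y⁻¹ * x * y := ⟨_, rfl⟩
  have hzD : z ∈ D := by
    rw [hz]
    exact D.mul_mem (D.mul_mem (D.mul_mem (D.inv_mem hx) (D.inv_mem hy)) hx) hy
  have hzc : ∀ l, l.Prime → ∀ g ∈ Oc l N, z * g = g * z := by
    intro l hl g hg
    by_cases hlt : l = t
    · subst hlt
      have h1 : ∀ g ∈ Oc l N, y⁻¹ * g = g * y⁻¹ := fun g hg => by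
        rw [inv_mul_eq_iff_eq_mul, ← mul_assoc, hyc g hg, mul_assoc, mul_inv_cancel, mul_one]
      have h2 := conj_comm h1 (hN l hl x (hDN hx)) g hg
      rw [hz]
      calc x⁻¹ * y⁻¹ * x * y * g = x⁻¹ * y⁻¹ * x * (y * g) := by group
        _ = x⁻¹ * y⁻¹ * x * g * y := by rw [hyc g hg]; group
        _ = g * (x⁻¹ * y⁻¹ * x * y) := by rw [h2]; group
    · have h1 : x⁻¹ * g = g * x⁻¹ := by
        rw [inv_mul_eq_iff_eq_mul, ← mul_assoc, hxc l hl hlt g hg, mul_assoc, mul_inv_cancel,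
          mul_one]
      have h2 := conj_comm (hxc l hl hlt) (hN l hl y (hDN hy)) g hg
      rw [hz]
      calc x⁻¹ * y⁻¹ * x * y * g = x⁻¹ * (y⁻¹ * x * y * g) := by group
        _ = x⁻¹ * g * (y⁻¹ * x * y) := by rw [h2]; group
        _ = g * (x⁻¹ * y⁻¹ * x * y) := by rw [h1]; group
  have hzF : z ∈ Fit N := hCFF G N hsol z (hDN hzD) hzc
  obtain ⟨m, a, ha, b, hb, hab, hza, hcm⟩ := fit_dec hOCF N ht hzF
  have hpr : ∀ k ∈ (Nat.card G).primeFactors.erase t, k.Prime := fun k hk =>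
    (Nat.mem_primeFactors.1 (Finset.mem_of_mem_erase hk)).1
  have hbt := ((fam hOCF N).key _ hpr b hb t ht (Finset.notMem_erase t _)).1
  -- `x` commutes with `b`
  have hxb : x * b = b * x := by
    have hle : ((Nat.card G).primeFactors.erase t).sup (fun l => Oc l N) ≤
        Subgroup.centralizer {x} := by
      refine Finset.sup_le fun k hk g hg => ?_
      rw [Subgroup.mem_centralizer_singleton_iff]
      first
        | exact hxc k (hpr k hk) (Finset.ne_of_mem_erase hk) g hg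
        | exact (hxc k (hpr k hk) (Finset.ne_of_mem_erase hk) g hg).symm
    have := hle hb
    rw [Subgroup.mem_centralizer_singleton_iff] at this
    first
      | exact this
      | exact this.symm
  have hya : y * a = a * y := hyc a ha
  -- `x * a` is a `t`-element
  have hxa : LE t (x * a) := by
    have hnor : Subgroup.zpowers x ≤ Subgroup.normalizer (Oc t N : Set G) := by
      rw [Subgroup.zpowers_le, Subgroup.mem_normalizer_iff]
      intro g
      refine ⟨fun hg => hN t ht x (hDN hx) g hg, fun hg => ?_⟩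
      have := hN t ht x⁻¹ (N.inv_mem (hDN hx)) _ hg
      have h3 : x⁻¹ * (x * g * x⁻¹) * x⁻¹⁻¹ = g := by group
      rwa [h3] at this
    have hP := IsPGroup.to_sup_of_normal_right' (isPGroup_zpowers hxt) ((hOCF G t ht N).2.1) hnor
    exact LE_of_isPGroup hP (Subgroup.mul_mem_sup (Subgroup.mem_zpowers x) ha)
  have hxz : x * z = y⁻¹ * x * y := by rw [hz]; group
  obtain ⟨n, hn⟩ := hxt
  obtain ⟨n1, hn1⟩ := hxa
  have hb1 : b = 1 := by
    refine pow_eq_one_of (n := n + n1) ht ?_ hbt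
    have h1 : (x * a * b) ^ t ^ (n + n1) = 1 := by
      have : x * a * b = y⁻¹ * x * y⁻¹⁻¹ := by rw [inv_inv, ← hxz, hab]; group
      rw [this, conj_pow, pow_add, pow_mul, hn, one_pow]; group
    have h2 : (x * a) ^ t ^ (n + n1) = 1 := by
      rw [pow_add, mul_comm, pow_mul, hn1, one_pow]
    have h3 : Commute (x * a) b := by
      change x * a * b = b * (x * a)
      rw [mul_assoc, hcm, ← mul_assoc, hxb, mul_assoc]
    rw [h3.mul_pow, h2, one_mul] at h1
    exact h1
  have hza' : z = a := by rw [hab, hb1, mul_one]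
  have ha1 : a = 1 := by
    have hac : Commute a y⁻¹ := by
      change a * y⁻¹ = y⁻¹ * a
      rw [mul_inv_eq_iff_eq_mul, mul_assoc, ← hya, inv_mul_cancel_left]
    have h1 : x⁻¹ * y⁻¹ * x⁻¹⁻¹ = a * y⁻¹ := by rw [← hza', hz]; group
    have h2 : (a * y⁻¹) ^ orderOf y = 1 := by
      rw [← h1, conj_pow, inv_pow, pow_orderOf_eq_one]; group
    rw [hac.mul_pow, inv_pow, pow_orderOf_eq_one, inv_one, mul_one] at h2
    obtain ⟨j, hj⟩ := LE_of_isPGroup ((hOCF G t ht N).2.1) ha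
    refine pow_eq_one_of ht hj fun h => hyt (h.trans (orderOf_dvd_of_pow_eq_one h2))
  rw [hza', ha1] at hz
  have h4 : y⁻¹ * x * y = x := by
    calc y⁻¹ * x * y = x * (x⁻¹ * y⁻¹ * x * y) := by group
      _ = x := by rw [← hz, mul_one]
  calc x * y = y * (y⁻¹ * x * y) := by group
    _ = y * x := by rw [h4]

/-- if the `t`-elements and `t'`-elements commute the Sylow subgroups are normal -/
theorem sylow_normal {H : Type} [Group H] [Finite H]
    (hc : ∀ t, t.Prime → ∀ x y : H, LE t x → ¬ t ∣ orderOf y → x * y = y * x)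
    {t : ℕ} (ht : t.Prime) (P : Sylow t H) : (P : Subgroup H).Normal := by
  have : Fact t.Prime := ⟨ht⟩
  rw [← Subgroup.normalizer_eq_top_iff, ← Subgroup.index_eq_one]
  by_contra hne
  obtain ⟨l, hl, hd⟩ := Nat.exists_prime_and_dvd hne
  by_cases hlt : l = t
  · subst hlt
    exact Sylow.not_dvd_index P (hd.trans (Subgroup.index_dvd_of_le Subgroup.le_normalizer))
  · have : Fact l.Prime := ⟨hl⟩
    obtain ⟨Q⟩ : Nonempty (Sylow l H) := inferInstance
    refine Sylow.not_dvd_index Q (hd.trans (Subgroup.index_dvd_of_le fun q hq => ?_))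
    have hqt : ¬ t ∣ orderOf q := not_dvd_of_LE ht hl (Ne.symm hlt) (LE_of_isPGroup Q.2 hq)
    rw [Subgroup.mem_normalizer_iff]
    intro g
    constructor
    · intro hg
      have h := hc t ht g q (LE_of_isPGroup P.2 hg) hqt
      rw [← h, mul_inv_cancel_right]; exact hg
    · intro hg
      have h := hc t ht (q * g * q⁻¹) q (LE_of_isPGroup P.2 hg) hqt
      have h2 : g = q * g * q⁻¹ := by
        have : q * g = q * (q * g * q⁻¹) := by rw [← h]; group
        exact mul_left_cancel this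
      rw [h2]; exact hg

theorem gen {D F : Subgroup G} (h : ∀ t, t.Prime → ∀ x ∈ D, LE t x → x ∈ F) (n : ℕ) :
    n ≠ 0 → ∀ x ∈ D, x ^ n = 1 → x ∈ F := by
  refine Nat.recOnPosPrimePosCoprime (motive := fun n => n ≠ 0 → ∀ x ∈ D, x ^ n = 1 → x ∈ F)
    ?_ ?_ ?_ ?_ n
  · intro p k hp _ _ x hx hxn
    exact h p hp x hx ⟨k, hxn⟩
  · intro h0; exact absurd rfl h0
  · intro _ x _ hx
    rw [pow_one] at hx
    rw [hx]; exact F.one_mem
  · intro a b ha hb hab iha ihb _ x hx hxn
    have h1 : x ^ a ∈ F := ihb (by omega) _ (D.pow_mem hx a) (by rw [← pow_mul]; exact hxn)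
    have h2 : x ^ b ∈ F := iha (by omega) _ (D.pow_mem hx b)
      (by rw [← pow_mul, mul_comm]; exact hxn)
    have h3 : x = (x ^ a) ^ (Nat.gcdA a b) * (x ^ b) ^ (Nat.gcdB a b) := by
      have := Nat.gcd_eq_gcd_ab a b
      rw [Nat.Coprime.gcd_eq_one hab] at this
      rw [← zpow_natCast, ← zpow_natCast, ← zpow_mul, ← zpow_mul, ← zpow_add, ← this]
      simp
    rw [h3]
    exact F.mul_mem (F.zpow_mem h1 _) (F.zpow_mem h2 _)

end FTNM

open FTNM FTFM

theorem specFTN (hOCF : SpecOCF) (hCFF : SpecCFF) : SpecFTN := by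
  classical
  intro G _ _ N D hsol hDN hnor hcent
  have hcomm : ∀ t, t.Prime → ∀ x y : D, LE t x → ¬ t ∣ orderOf y → x * y = y * x := by
    rintro t ht ⟨x, hx⟩ ⟨y, hy⟩ ⟨n, hn⟩ hyt
    apply Subtype.ext
    refine FTNM.comm hOCF hCFF hsol hDN hcent ht hx ⟨n, by simpa using congrArg Subtype.val hn⟩ hy ?_
    rwa [Subgroup.orderOf_mk] at hyt
  have key : ∀ t, t.Prime → ∀ x ∈ D, LE t x → x ∈ Fit N := by
    intro t ht x hx hxt
    have : Fact t.Prime := ⟨ht⟩
    have hxt' : LE t (⟨x, hx⟩ : D) := by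
      obtain ⟨n, hn⟩ := hxt
      exact ⟨n, Subtype.ext (by simpa using hn)⟩
    obtain ⟨P, hP⟩ := (isPGroup_zpowers hxt').exists_le_sylow
    have hPn := sylow_normal hcomm ht P
    have huniq : ∀ u : D, LE t u → u ∈ (P : Subgroup D) := by
      intro u hu
      obtain ⟨Q, hQ⟩ := (isPGroup_zpowers hu).exists_le_sylow
      have h1 : Q = P := by
        have := Sylow.unique_of_normal P hPn
        exact Subsingleton.elim Q P
      rw [← h1]; exact hQ (Subgroup.mem_zpowers u)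
    refine oc_le_fit N ht ((hOCF G t ht N).2.2.2.1 ((P : Subgroup D).map D.subtype) ?_ ?_ ?_ ?_)
    · rintro _ ⟨u, _, rfl⟩
      exact hDN u.2
    · exact P.2.map D.subtype
    · rintro n hn _ ⟨u, hu, rfl⟩
      have hu' : LE t u := LE_of_isPGroup P.2 hu
      refine ⟨⟨n * u * n⁻¹, hnor n hn u u.2⟩, huniq _ ?_, rfl⟩
      obtain ⟨j, hj⟩ := hu'
      refine ⟨j, Subtype.ext ?_⟩
      have hj' : (u : G) ^ t ^ j = 1 := by simpa using congrArg Subtype.val hj
      change (n * (u : G) * n⁻¹) ^ t ^ j = 1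
      rw [conj_pow, hj']; group
    · exact ⟨⟨x, hx⟩, huniq _ hxt', rfl⟩
  intro x hx
  exact gen key (orderOf x) (orderOf_pos x).ne' x hx (pow_orderOf_eq_one x)

end Pool.Agent.Lib.MPbe1941.X
end

section
/-!
# Module PAA: H.md section 3 (a)
-/
set_option autoImplicit false

namespace Pool.Agent.Lib.MPbe1941.X

open Pool.Agent.Lib.MPbe1941

namespace PAAM

open FTNM

variable {H : Type} [Group H]

theorem syl_max [Finite H] {r : ℕ} (hr : r.Prime) {T K : Subgroup H} (hT : SylIn r ⊤ T)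
    (hTK : T ≤ K) (hK : IsPGroup r K) : K ≤ T := by
  have : Fact r.Prime := ⟨hr⟩
  have h1 : ¬ r ∣ T.index := by
    have := hT.2.2
    rwa [Subgroup.relIndex_top_right] at this
  have h2 := (hT.2.1.toSylow h1).is_maximal' hK (by rw [IsPGroup.toSylow_coe]; exact hTK)
  rw [h2, IsPGroup.toSylow_coe]

/-- an `r`-element normalising a Sylow `r`-subgroup is in it -/
theorem mem_syl [Finite H] {r : ℕ} (hr : r.Prime) {T : Subgroup H} (hT : SylIn r ⊤ T) {x : H}
    (hx : LE r x) (h1 : ∀ t ∈ T, x * t * x⁻¹ ∈ T) (h2 : ∀ t ∈ T, x⁻¹ * t * x ∈ T) : x ∈ T := by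
  have hnor : Subgroup.zpowers x ≤ Subgroup.normalizer (T : Set H) := by
    rw [Subgroup.zpowers_le, Subgroup.mem_normalizer_iff]
    intro g
    refine ⟨fun hg => h1 g hg, fun hg => ?_⟩
    have := h2 _ hg
    have h3 : x⁻¹ * (x * g * x⁻¹) * x = g := by group
    rwa [h3] at this
  have hP := IsPGroup.to_sup_of_normal_right' (isPGroup_zpowers hx) hT.2.1 hnor
  exact syl_max hr hT le_sup_right hP (Subgroup.mem_sup_left (Subgroup.mem_zpowers x))

/-- an element which is an `l`-element and an `r`-element is trivial -/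
theorem eq_one_of_LE {l r : ℕ} (hl : l.Prime) (hr : r.Prime) (hlr : l ≠ r) {x : H}
    (h1 : LE l x) (h2 : LE r x) : x = 1 := by
  obtain ⟨n, hn⟩ := h1
  exact pow_eq_one_of hl hn (not_dvd_of_LE hl hr hlr h2)

end PAAM

open PAAM FTNM

theorem specPAA (hPSB : SpecPSB) (hFTF : SpecFTF) (hCFF : SpecCFF) : SpecPAA := by
  intro S w r T hw hr hM
  obtain ⟨hT, hTC, hab, hfix, hnor⟩ := hM
  obtain ⟨hNn, hNs, hNf, hP, hF, hG6, hH7, hN8, hC9, hO10⟩ := hPSB S
  -- `P_r = 1`
  have hPr : S.P r = ⊥ := by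
    have hTm : SylIn r ⊤ (T.map S.phi) := by
      refine ⟨le_top, hT.2.1.map _, ?_⟩
      rw [Subgroup.relIndex_top_right]
      intro h
      have h2 := hT.2.2
      rw [Subgroup.relIndex_top_right] at h2
      exact h2 (h.trans (Subgroup.index_map_dvd T S.surj))
    have hle : S.P r ≤ T.map S.phi := by
      have := (hP r hr).1
      have h3 : IsPGroup r (S.P r ⊔ T.map S.phi : Subgroup S.G) :=
        IsPGroup.to_sup_of_normal_left (hP r hr).2.1 hTm.2.1
      exact le_sup_left.trans (syl_max hr hTm le_sup_right h3)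
    rw [Subgroup.eq_bot_iff_forall]
    intro g hg
    refine hNf g ((hP r hr).2.2 hg) (hG6 (S.P r) (hP r hr).1 w hw ?_ g hg)
    intro g' hg'
    obtain ⟨t, ht, rfl⟩ := hle hg'
    rw [S.cmp]
    exact hfix t ht
  have hmapN : ∀ t ∈ T, S.phi t ∈ S.N := fun t ht => ⟨t, hTC ht, rfl⟩
  refine ⟨?_, hPr, ?_, ?_⟩
  · intro htriv
    refine ⟨fun t ht g => ?_⟩
    have hx : ∀ v : S.W, (g * t * g⁻¹) • v = v := by
      intro v
      rw [mul_smul, mul_smul, htriv t ht, smul_inv_smul]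
    have hx' : ∀ v : S.W, (g * t * g⁻¹)⁻¹ • v = v := by
      intro v
      rw [inv_smul_eq_iff, hx]
    refine mem_syl hr hT ?_ (hnor _ (hx w)) ?_
    · obtain ⟨n, hn⟩ := LE_of_isPGroup hT.2.1 ht
      exact ⟨n, by rw [conj_pow, hn]; group⟩
    · intro t' ht'
      have := hnor _ (hx' w) t' ht'
      rwa [inv_inv] at this
  · intro l hl b hb t ht
    by_cases hlr : l = r
    · subst hlr
      have hb1 : b ∈ S.P l := hb.1
      rw [hPr, Subgroup.mem_bot] at hb1
      rw [hb1, one_mul, mul_one]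
    · obtain ⟨c, hcC, hcb, hcv⟩ := hN8 b ((hP l hl).2.2 hb.1)
      have hcw : c • w = w := by rw [hcv]; exact hb.2
      have h1 := hnor c hcw t ht
      have h2 : b * S.phi t * b⁻¹ * (S.phi t)⁻¹ = 1 := by
        refine eq_one_of_LE hl hr hlr (LE_of_isPGroup (hP l hl).2.1 ?_)
          (LE_of_isPGroup (hT.2.1.map S.phi) ?_)
        · have h3 := (hP l hl).1.conj_mem b⁻¹ ((S.P l).inv_mem hb.1) (S.phi t)
          have h4 := (S.P l).mul_mem hb.1 h3
          have h5 : b * (S.phi t * b⁻¹ * (S.phi t)⁻¹) = b * S.phi t * b⁻¹ * (S.phi t)⁻¹ := by group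
          rwa [h5] at h4
        · refine ⟨c * t * c⁻¹ * t⁻¹, T.mul_mem h1 (T.inv_mem ht), ?_⟩
          rw [map_mul, map_mul, map_mul, map_inv, map_inv, hcb]
      rw [mul_inv_eq_one, mul_inv_eq_iff_eq_mul] at h2
      exact h2
  · intro hNt
    by_contra hcon
    push Not at hcon
    obtain ⟨t, ht, v, hv⟩ := hNt
    have hall : ∀ l, l.Prime → ∀ g ∈ Oc l S.N, S.phi t * g = g * S.phi t := by
      intro l hl g hg
      by_cases hlr : l = r
      · subst hlr
        have hg' : g ∈ S.P l := hg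
        rw [hPr, Subgroup.mem_bot] at hg'
        rw [hg', one_mul, mul_one]
      · exact hcon l hl hlr t ht g hg
    have h1 : S.phi t ∈ Fit S.N := hCFF S.G S.N hNs _ (hmapN t ht) hall
    have h2 : LE r (S.phi t) := by
      obtain ⟨n, hn⟩ := LE_of_isPGroup hT.2.1 ht
      exact ⟨n, by rw [← map_pow, hn, map_one]⟩
    have h3 : S.phi t ∈ S.P r := (hFTF S.G S.N).2.2.1 r hr _ h1 h2
    rw [hPr, Subgroup.mem_bot] at h3
    exact hv (((S.ker t).1 h3).2 v)

end Pool.Agent.Lib.MPbe1941.X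
end

section
/-!
# Module PWM: the projection of the Fitting subgroup is a power map
-/
set_option autoImplicit false

namespace Pool.Agent.Lib.MPbe1941.X

open Pool.Agent.Lib.MPbe1941

namespace PWMM

open FTFM

/-- PWM -/
theorem main (hOCF : SpecOCF) : SpecPWM := by
  intro G _ _ N l hl
  set n := Nat.card G with hn
  have hn0 : n ≠ 0 := Nat.card_pos.ne'
  set S : Subgroup G := (n.primeFactors.erase l).sup (fun l => Oc l N) with hS
  have hO := fam hOCF N
  have hSp : ∀ k ∈ n.primeFactors.erase l, k.Prime := fun k hk =>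
    (Nat.mem_primeFactors.1 (Finset.mem_of_mem_erase hk)).1
  have hcop : Nat.Coprime (l ^ n.factorization l) (n / l ^ n.factorization l) :=
    Nat.Coprime.pow_left _ (Nat.coprime_ordCompl hl hn0)
  obtain ⟨m, hm1, hm2⟩ := Nat.chineseRemainder hcop 1 0
  have hmul : l ^ n.factorization l * (n / l ^ n.factorization l) = n :=
    Nat.ordProj_mul_ordCompl_eq_self n l
  have ha : ∀ a ∈ Oc l N, a ^ m = a := by
    intro a ha
    obtain ⟨j, hj⟩ := (hOCF G l hl N).2.1 ⟨a, ha⟩
    have hj' : a ^ l ^ j = 1 := by simpa using congrArg Subtype.val hj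
    have h1 : orderOf a ∣ l ^ j := orderOf_dvd_of_pow_eq_one hj'
    have h2 : orderOf a ∣ n := orderOf_dvd_natCard a
    have h3 : orderOf a ∣ l ^ n.factorization l := by
      obtain ⟨i, _, hi⟩ := (Nat.dvd_prime_pow hl).1 h1
      rw [hi] at h2 ⊢
      exact pow_dvd_pow l ((hl.pow_dvd_iff_le_factorization hn0).1 h2)
    have : a ^ m = a ^ 1 := by
      rw [pow_eq_pow_iff_modEq]
      exact hm1.of_dvd h3
    simpa using this
  have hb : ∀ b ∈ S, b ^ m = 1 := by
    intro b hb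
    have h1 := (hO.key _ hSp b hb l hl (Finset.notMem_erase l _)).1
    have h2 : orderOf b ∣ n := orderOf_dvd_natCard b
    have h3 : orderOf b ∣ n / l ^ n.factorization l := by
      rw [← hmul] at h2
      exact Nat.Coprime.dvd_of_dvd_mul_left
        ((Nat.Coprime.pow_left _ ((Nat.Prime.coprime_iff_not_dvd hl).2 h1)).symm) h2
    have : b ^ m = b ^ 0 := by
      rw [pow_eq_pow_iff_modEq]
      exact hm2.of_dvd h3
    simpa using this
  have hcm : ∀ a ∈ Oc l N, ∀ b ∈ S, a * b = b * a := fun a ha b hb =>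
    ((hO.key _ hSp b hb l hl (Finset.notMem_erase l _)).2 a ha).symm
  have hab : ∀ a ∈ Oc l N, ∀ b ∈ S, (a * b) ^ m = a := by
    intro a haa b hbb
    rw [(show Commute a b from hcm a haa b hbb).mul_pow, ha a haa, hb b hbb, mul_one]
  have hdec : ∀ x ∈ Fit N, ∃ a ∈ Oc l N, ∃ b ∈ S, x = a * b := by
    intro x hx
    obtain ⟨_, a, ha, b, hb, hxab, _, _⟩ := fit_dec hOCF N hl hx
    exact ⟨a, ha, b, hb, hxab⟩
  refine ⟨m, ?_, ha, ?_, ?_⟩
  · intro x hx
    obtain ⟨a, haa, b, hbb, rfl⟩ := hdec x hx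
    rw [hab a haa b hbb]
    exact haa
  · intro x hx y hy
    obtain ⟨a, haa, b, hbb, rfl⟩ := hdec x hx
    obtain ⟨a', haa', b', hbb', rfl⟩ := hdec y hy
    have e : a * b * (a' * b') = (a * a') * (b * b') := by
      calc a * b * (a' * b') = a * (b * a') * b' := by group
        _ = a * (a' * b) * b' := by rw [hcm a' haa' b hbb]
        _ = (a * a') * (b * b') := by group
    rw [e, hab _ ((Oc l N).mul_mem haa haa') _ (S.mul_mem hbb hbb'), hab a haa b hbb,
      hab a' haa' b' hbb']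
  · intro x hx y hy
    obtain ⟨a, haa, b, hbb, rfl⟩ := hdec x hx
    have e : a * (a * b)⁻¹ = b⁻¹ := by
      rw [hcm a haa b hbb, mul_inv_rev, mul_inv_cancel_left]
    rw [hab a haa b hbb, e]
    exact (hcm y hy b⁻¹ (S.inv_mem hbb)).symm

end PWMM

/-- PWM -/
theorem specPWM (hOCF : SpecOCF) : SpecPWM := PWMM.main hOCF

end Pool.Agent.Lib.MPbe1941.X
end

section
/-!
# PBC: H.md section 3 (b)
-/
set_option autoImplicit false

namespace Pool.Agent.Lib.MPbe1941.X

open Pool.Agent.Lib.MPbe1941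

namespace PBCM

/-- The normaliser of `B` in `P`. -/
def NB {G : Type} [Group G] (P B : Subgroup G) : Subgroup G where
  carrier := {x | x ∈ P ∧ ∀ b, b ∈ B ↔ x * b * x⁻¹ ∈ B}
  one_mem' := ⟨P.one_mem, fun b => by simp⟩
  mul_mem' := by
    rintro x y ⟨hx, hx'⟩ ⟨hy, hy'⟩
    refine ⟨P.mul_mem hx hy, fun b => ?_⟩
    have e : x * y * b * (x * y)⁻¹ = x * (y * b * y⁻¹) * x⁻¹ := by group
    rw [e, ← hx', ← hy']
  inv_mem' := by
    rintro x ⟨hx, hx'⟩
    refine ⟨P.inv_mem hx, fun b => ?_⟩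
    have e : x * (x⁻¹ * b * x⁻¹⁻¹) * x⁻¹ = b := by group
    rw [hx' (x⁻¹ * b * x⁻¹⁻¹), e]

/-- The vectors fixed by the stabiliser. -/
def YY (S : PS) (w : S.W) : AddSubgroup S.W where
  carrier := {v | ∀ b ∈ Stb S.F w, b • v = v}
  zero_mem' := fun g _ => smul_zero g
  add_mem' := fun {a b} ha hb g hg => by rw [smul_add, ha g hg, hb g hg]
  neg_mem' := fun {a} ha g hg => by rw [smul_neg, ha g hg]

theorem b_le (S : PS) (w : S.W) {l : ℕ} (hl : l.Prime) : S.B w l ≤ Stb S.F w := by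
  rintro b ⟨hb, hb'⟩
  exact ⟨(le_sSup ⟨l, hl, rfl⟩ : S.P l ≤ S.F) hb, hb'⟩

end PBCM

open PBCM in
theorem specPBC (hPSB : SpecPSB) (hPSR : SpecPSR) (hFRC : SpecFRC) (hFRT : SpecFRT) :
    SpecPBC := by
  intro S w hw
  obtain ⟨-, -, -, hP, -⟩ := hPSB S
  have hBK : ∀ l, S.B w l ≤ NB (S.P l) (S.B w l) := by
    intro l x hx
    refine ⟨hx.1, fun b => ⟨fun hb => ?_, fun hb => ?_⟩⟩
    · exact Subgroup.mul_mem _ (Subgroup.mul_mem _ hx hb) (Subgroup.inv_mem _ hx)
    · have h1 := Subgroup.mul_mem _ (Subgroup.mul_mem _ (Subgroup.inv_mem _ hx) hb) hx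
      have e : x⁻¹ * (x * b * x⁻¹) * x = b := by group
      rwa [e] at h1
  have hKY : ∀ l, l.Prime → ∀ x ∈ NB (S.P l) (S.B w l), ∀ v ∈ YY S w, x • v ∈ YY S w :=
    fun l hl x hx v hv => (hPSR S w hw l hl x hx.1 hx.2 v hv).1
  have hY0 : ∃ v ∈ YY S w, v ≠ 0 := ⟨w, fun b hb => hb.2, hw.1⟩
  have hBY : ∀ l, l.Prime → ∀ b ∈ S.B w l, ∀ v ∈ YY S w, b • v = v :=
    fun l hl b hb v hv => hv b (b_le S w hl hb)
  have hfr : ∀ l, l.Prime → ∀ x ∈ NB (S.P l) (S.B w l), ∀ v ∈ YY S w, v ≠ 0 → x • v = v →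
      x ∈ S.B w l :=
    fun l hl x hx v hv h0 hxv => (hPSR S w hw l hl x hx.1 hx.2 v hv).2 h0 hxv
  have hPK : ∀ l, l.Prime → IsPGroup l (NB (S.P l) (S.B w l)) := fun l hl =>
    (hP l hl).2.1.to_le (fun x hx => hx.1)
  refine ⟨fun l hl hl2 => ?_, fun ρ hρ h2 h3 x hx hxB => ?_⟩
  · obtain ⟨g, hg, hg'⟩ := hFRC S.G S.W l (NB (S.P l) (S.B w l)) (S.B w l) (YY S w) hl hl2
      (hPK l hl) (hBK l) (hKY l hl) hY0 (hBY l hl) (hfr l hl)
    exact ⟨g, hg.1, fun x hx hxB => hg' x ⟨hx, hxB⟩⟩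
  · have hl := Nat.prime_two
    refine hFRT S.G S.W (NB (S.P 2) (S.B w 2)) (S.B w 2) (YY S w) ρ
      (hPK 2 hl) (hBK 2) (hKY 2 hl) hY0 (hBY 2 hl) (hfr 2 hl) ?_ ?_ h2 h3 x ⟨hx, hxB⟩
    · rintro y ⟨hy, hy'⟩
      refine ⟨(hP 2 hl).1.conj_mem y hy ρ, fun b => ⟨fun hb => ?_, fun hb => ?_⟩⟩
      · have h4 : ρ⁻¹ * b * ρ = b := by
          rw [mul_assoc, ← hρ b hb]
          group
        have h5 := (hy' b).1 hb
        have e : ρ * y * ρ⁻¹ * b * (ρ * y * ρ⁻¹)⁻¹ = ρ * (y * (ρ⁻¹ * b * ρ) * y⁻¹) * ρ⁻¹ := by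
          group
        have h6 : ρ * (y * b * y⁻¹) * ρ⁻¹ = y * b * y⁻¹ := by
          rw [hρ _ h5]
          group
        rw [e, h4, h6]
        exact h5
      · set c := ρ * y * ρ⁻¹ * b * (ρ * y * ρ⁻¹)⁻¹ with hc
        have h4 : ρ⁻¹ * c * ρ = c := by
          rw [mul_assoc, ← hρ c hb]
          group
        have e : y * (ρ⁻¹ * b * ρ) * y⁻¹ = ρ⁻¹ * c * ρ := by
          rw [hc]
          group
        have h5 : ρ⁻¹ * b * ρ ∈ S.B w 2 := by
          rw [hy', e, h4]
          exact hb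
        have h6 : b = ρ * (ρ⁻¹ * b * ρ) * ρ⁻¹ := by group
        rw [h6, hρ _ h5]
        have e2 : ρ⁻¹ * b * ρ * ρ * ρ⁻¹ = ρ⁻¹ * b * ρ := by group
        rw [e2]
        exact h5
    · intro b hb
      rw [hρ b hb]
      have e : b * ρ * ρ⁻¹ = b := by group
      rw [e]
      exact hb

end Pool.Agent.Lib.MPbe1941.X
end

section
/-!
# MP_be1941_al (exact bound), module PBX: an invariant linear character of an admissible group
-/
set_option autoImplicit false

namespace Pool.Agent.Lib.MPbe1941.X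

open Pool.Agent.Lib.MPbe1941

namespace PBXM

theorem one_of_coprime {G : Type*} [Group G] {x : G} {a b : ℕ} (ha : x ^ a = 1) (hb : x ^ b = 1)
    (h : a.Coprime b) : x = 1 := by
  have h1 : orderOf x ∣ a := orderOf_dvd_of_pow_eq_one ha
  have h2 : orderOf x ∣ b := orderOf_dvd_of_pow_eq_one hb
  have h3 : orderOf x ∣ 1 := by
    have h4 := Nat.dvd_gcd h1 h2
    rwa [Nat.Coprime.gcd_eq_one h] at h4
  exact orderOf_eq_one_iff.1 (Nat.dvd_one.1 h3)

/-- The action of an automorphism on characters. -/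
def act {E : Type} [CommGroup E] (σ : MulAut E) (χ : E →* ℂˣ) : E →* ℂˣ :=
  χ.comp (σ⁻¹ : MulAut E).toMonoidHom

/-- An `l`-group of automorphisms of a finite abelian group `E`, `l` dividing `|E|`, fixes a
character of `E`, which is trivial on the elements of order prime to `l` and not trivial on the
`l`-elements. -/
theorem exists_fixed {E : Type} [CommGroup E] [Finite E] (A : Subgroup (MulAut E)) {l : ℕ}
    (hl : l.Prime) (hA : IsPGroup l A) (hd : l ∣ Nat.card E) :
    ∃ χ : E →* ℂˣ, (∀ σ ∈ A, ∀ x, χ (σ x) = χ x) ∧ (∀ x, ¬ l ∣ orderOf x → χ x = 1) ∧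
      ∃ x, (∃ n, x ^ l ^ n = 1) ∧ χ x ≠ 1 := by
  have hF : Fact l.Prime := ⟨hl⟩
  have : NeZero (Monoid.exponent E) := ⟨Monoid.exponent_ne_zero_of_finite⟩
  obtain ⟨e⟩ := CommGroup.monoidHom_mulEquiv_of_hasEnoughRootsOfUnity E ℂ
  have : Finite (E →* ℂˣ) := Finite.of_equiv E e.symm.toEquiv
  have hcard : Nat.card (E →* ℂˣ) = Nat.card E := Nat.card_congr e.toEquiv
  let Xs : Subgroup (E →* ℂˣ) :=
    { carrier := {χ | ∃ n : ℕ, χ ^ l ^ n = 1}
      one_mem' := ⟨0, by simp⟩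
      mul_mem' := by
        rintro a b ⟨n, hn⟩ ⟨m, hm⟩
        refine ⟨n + m, ?_⟩
        apply MonoidHom.ext
        intro x
        have h1 : (a x) ^ l ^ n = 1 := by simpa using DFunLike.congr_fun hn x
        have h2 : (b x) ^ l ^ m = 1 := by simpa using DFunLike.congr_fun hm x
        have h3 : (a x * b x) ^ l ^ (n + m) = 1 := by
          rw [mul_pow, pow_add, pow_mul, h1, one_pow, one_mul, mul_comm, pow_mul, h2, one_pow]
        simpa using h3
      inv_mem' := by
        rintro a ⟨n, hn⟩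
        refine ⟨n, ?_⟩
        apply MonoidHom.ext
        intro x
        have h1 : (a x) ^ l ^ n = 1 := by simpa using DFunLike.congr_fun hn x
        have h3 : ((a x)⁻¹) ^ l ^ n = 1 := by rw [inv_pow, h1, inv_one]
        simpa using h3 }
  have hXd : l ∣ Nat.card Xs := by
    obtain ⟨χ, hχ⟩ := exists_prime_orderOf_dvd_card' (G := E →* ℂˣ) l (by rw [hcard]; exact hd)
    have hmem : χ ∈ Xs := ⟨1, by rw [pow_one, ← hχ, pow_orderOf_eq_one]⟩
    have h1 := orderOf_dvd_natCard (⟨χ, hmem⟩ : Xs)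
    rwa [Subgroup.orderOf_mk, hχ] at h1
  let act' : MulAction A Xs :=
    { smul := fun σ χ => ⟨act σ.1 χ.1, by
        obtain ⟨n, hn⟩ := χ.2
        refine ⟨n, ?_⟩
        ext x
        have := DFunLike.congr_fun hn ((σ.1)⁻¹ x)
        simpa [act] using congrArg Units.val this⟩
      one_smul := by
        rintro ⟨χ, hχ⟩
        apply Subtype.ext
        apply MonoidHom.ext
        intro x
        change χ _ = χ x
        simp
      mul_smul := by
        rintro σ τ ⟨χ, hχ⟩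
        apply Subtype.ext
        apply MonoidHom.ext
        intro x
        change χ _ = χ _
        simp }
  have h1 : (1 : Xs) ∈ MulAction.fixedPoints A Xs := by
    intro σ
    apply Subtype.ext
    apply MonoidHom.ext
    intro x
    change (1 : E →* ℂˣ) _ = (1 : E →* ℂˣ) _
    simp
  obtain ⟨b, hb, hb1⟩ := hA.exists_fixed_point_of_prime_dvd_card_of_fixed_point Xs hXd h1
  obtain ⟨n, hn⟩ := b.2
  have hpow : ∀ x, (b.1 x) ^ l ^ n = 1 := by
    intro x
    have := DFunLike.congr_fun hn x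
    simpa using this
  refine ⟨b.1, ?_, ?_, ?_⟩
  · intro σ hσ x
    have h2 := hb ⟨σ, hσ⟩
    have h3 := congrArg (fun c : Xs => c.1 (σ x)) h2
    have h4 : b.1 (σ⁻¹ (σ x)) = b.1 (σ x) := h3
    rw [MulAut.inv_apply_self] at h4
    exact h4.symm
  · intro x hx
    have h2 : (b.1 x) ^ orderOf x = 1 := by rw [← map_pow, pow_orderOf_eq_one, map_one]
    exact one_of_coprime (hpow x) h2 (((Nat.Prime.coprime_iff_not_dvd hl).2 hx).pow_left n)
  · have h2 : ∃ x, b.1 x ≠ 1 := by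
      by_contra hcon
      push Not at hcon
      apply hb1
      apply Subtype.ext
      apply MonoidHom.ext
      intro x
      simp [hcon x]
    obtain ⟨x, hx⟩ := h2
    have hpos : orderOf x ≠ 0 := (orderOf_pos x).ne'
    obtain ⟨a, q, hq, haq⟩ := Nat.exists_eq_pow_mul_and_not_dvd hpos l hl.ne_one
    refine ⟨x ^ q, ⟨a, ?_⟩, ?_⟩
    · rw [← pow_mul, mul_comm, ← haq, pow_orderOf_eq_one]
    · intro hcon
      rw [map_pow] at hcon
      exact hx (one_of_coprime (hpow x) hcon (((Nat.Prime.coprime_iff_not_dvd hl).2 hq).pow_left n))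

/-- The same for a group which is commutative as a property. -/
theorem exists_fixed' {E : Type} [Group E] [Finite E] (hc : ∀ x y : E, x * y = y * x)
    (A : Subgroup (MulAut E)) {l : ℕ} (hl : l.Prime) (hA : IsPGroup l A) (hd : l ∣ Nat.card E) :
    ∃ χ : E →* ℂˣ, (∀ σ ∈ A, ∀ x, χ (σ x) = χ x) ∧ (∀ x, ¬ l ∣ orderOf x → χ x = 1) ∧
      ∃ x, (∃ n, x ^ l ^ n = 1) ∧ χ x ≠ 1 := by
  let inst : CommGroup E := { (inferInstance : Group E) with mul_comm := hc }
  exact exists_fixed A hl hA hd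

/-- Two normal subgroups of coprime prime power orders commute elementwise. -/
theorem comm_of_normal {G : Type} [Group G] {P Q : Subgroup G} (hP : P.Normal) (hQ : Q.Normal)
    {l k : ℕ} (hl : l.Prime) (hk : k.Prime) (hlk : l ≠ k) (hPl : IsPGroup l P) (hQk : IsPGroup k Q)
    {g x : G} (hg : g ∈ P) (hx : x ∈ Q) : g * x * g⁻¹ * x⁻¹ = 1 := by
  have h1 : g * x * g⁻¹ * x⁻¹ ∈ Q := Q.mul_mem (hQ.conj_mem x hx g) (Q.inv_mem hx)
  have h2 : g * x * g⁻¹ * x⁻¹ ∈ P := by
    have : g * x * g⁻¹ * x⁻¹ = g * (x * g⁻¹ * x⁻¹) := by group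
    rw [this]
    exact P.mul_mem hg (hP.conj_mem _ (P.inv_mem hg) x)
  obtain ⟨a, ha⟩ := hPl ⟨_, h2⟩
  obtain ⟨b, hb⟩ := hQk ⟨_, h1⟩
  have ha' : (g * x * g⁻¹ * x⁻¹) ^ l ^ a = 1 := by simpa using congrArg Subtype.val ha
  have hb' : (g * x * g⁻¹ * x⁻¹) ^ k ^ b = 1 := by simpa using congrArg Subtype.val hb
  exact one_of_coprime ha' hb' (((Nat.coprime_primes hl hk).2 hlk).pow a b)

end PBXM

open PBXM in
theorem specPBX (hPSB : SpecPSB) : SpecPBX := by
  classical
  rintro S E ⟨hEn, hEC, hcom, hfa, hlP⟩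
  obtain ⟨-, -, -, hP, -⟩ := hPSB S
  have : E.Normal := hEn
  have hEcard : Nat.card E ≠ 0 := Nat.card_pos.ne'
  -- elements of `ker φ` and of the other `P_l` act trivially
  have hker : ∀ g : S.H, ∀ x ∈ E, S.phi (g * x * g⁻¹ * x⁻¹) = 1 → g * x * g⁻¹ = x := by
    intro g x hx h
    have h1 : g * x * g⁻¹ * x⁻¹ ∈ E := E.mul_mem (hEn.conj_mem x hx g) (E.inv_mem hx)
    have h2 := hfa _ h1 ((S.ker _).1 h).2
    exact mul_inv_eq_one.1 h2
  have hc : ∀ x y : E, x * y = y * x := fun x y => Subtype.ext (hcom x.1 x.2 y.1 y.2)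
  -- the characters
  have hex : ∀ l : ℕ, ∃ χ : E →* ℂˣ, l.Prime → l ∣ Nat.card E →
      (∀ h ∈ S.C, S.phi h ∈ S.P l → ∀ x, χ (MulAut.conjNormal h x) = χ x) ∧
      (∀ x, ¬ l ∣ orderOf x → χ x = 1) ∧ ∃ x, (∃ n, x ^ l ^ n = 1) ∧ χ x ≠ 1 := by
    intro l
    by_cases hl : l.Prime ∧ l ∣ Nat.card E
    · obtain ⟨hl, hd⟩ := hl
      have hA : IsPGroup l ((S.C ⊓ (S.P l).comap S.phi).map
          (MulAut.conjNormal : S.H →* MulAut E)) := by
        rintro ⟨σ, hσ⟩
        obtain ⟨h, ⟨hhC, hhP⟩, rfl⟩ := hσ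
        obtain ⟨k, hk⟩ := (hP l hl).2.1 ⟨S.phi h, hhP⟩
        refine ⟨k, ?_⟩
        apply Subtype.ext
        have hk' : S.phi h ^ l ^ k = 1 := by simpa using congrArg Subtype.val hk
        have h3 : (MulAut.conjNormal h : MulAut E) ^ l ^ k = 1 := by
          rw [← map_pow]
          ext x
          rw [MulAut.conjNormal_apply]
          have h4 : S.phi (h ^ l ^ k) = 1 := by rw [map_pow]; exact hk'
          have h5 : h ^ l ^ k * (x : S.H) * (h ^ l ^ k)⁻¹ = x := by
            apply hker _ _ x.2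
            rw [map_mul, map_mul, map_mul, map_inv, map_inv, h4]
            group
          rw [h5]
          rfl
        exact h3
      obtain ⟨χ, h1, h2, h3⟩ := exists_fixed' hc _ hl hA hd
      refine ⟨χ, fun _ _ => ⟨?_, h2, h3⟩⟩
      intro h hhC hhP x
      exact h1 _ ⟨h, ⟨hhC, hhP⟩, rfl⟩ x
    · exact ⟨1, fun h1 h2 => (hl ⟨h1, h2⟩).elim⟩
  choose χ hχ using hex
  let b0 : E →* ℂˣ := ∏ k ∈ (Nat.card E).primeFactors, χ k
  have hb0 : ∀ x, b0 x = ∏ k ∈ (Nat.card E).primeFactors, χ k x := by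
    intro x
    exact MonoidHom.finsetProd_apply _ _ _
  -- value on `l`-elements
  have hval : ∀ l, l.Prime → l ∣ Nat.card E → ∀ x : E, (∃ n, x ^ l ^ n = 1) → b0 x = χ l x := by
    rintro l hl hd x ⟨n, hn⟩
    rw [hb0, Finset.prod_eq_single l]
    · intro k hk hkl
      have hkp := Nat.prime_of_mem_primeFactors hk
      apply (hχ k hkp (Nat.dvd_of_mem_primeFactors hk)).2.1
      intro hk2
      have h1 : k ∣ l ^ n := hk2.trans (orderOf_dvd_of_pow_eq_one hn)
      exact hkl ((Nat.prime_dvd_prime_iff_eq hkp hl).1 (hkp.dvd_of_dvd_pow h1))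
    · intro hl'
      exact (hl' (Nat.mem_primeFactors.2 ⟨hl, hd, hEcard⟩)).elim
  -- invariance
  have hinv : ∀ l, l.Prime → l ∣ Nat.card E → ∀ h ∈ S.C, S.phi h ∈ S.P l → ∀ x : E,
      b0 (MulAut.conjNormal h x) = b0 x := by
    intro l hl hd h hhC hhP x
    rw [hb0, hb0]
    apply Finset.prod_congr rfl
    intro k hk
    have hkp := Nat.prime_of_mem_primeFactors hk
    have hkd := Nat.dvd_of_mem_primeFactors hk
    by_cases hkl : k = l
    · subst hkl
      exact (hχ k hkp hkd).1 h hhC hhP x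
    · have hpos : orderOf x ≠ 0 := (orderOf_pos x).ne'
      obtain ⟨a, q, hq, haq⟩ := Nat.exists_eq_pow_mul_and_not_dvd hpos k hkp.ne_one
      have hxq : (x ^ q) ^ k ^ a = 1 := by rw [← pow_mul, mul_comm, ← haq, pow_orderOf_eq_one]
      have hxq' : ((x : S.H) ^ q) ^ k ^ a = 1 := by simpa using congrArg Subtype.val hxq
      have h1 : S.phi ((x : S.H) ^ q) ∈ S.P k := hlP k hkp _ (E.pow_mem x.2 q) ⟨a, hxq'⟩
      have h2 : h * (x : S.H) ^ q * h⁻¹ = (x : S.H) ^ q := by
        apply hker _ _ (E.pow_mem x.2 q)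
        rw [map_mul, map_mul, map_mul, map_inv, map_inv]
        exact comm_of_normal (hP l hl).1 (hP k hkp).1 hl hkp (Ne.symm hkl) (hP l hl).2.1
          (hP k hkp).2.1 hhP h1
      have h3 : (MulAut.conjNormal h x * x⁻¹) ^ q = 1 := by
        have h4 : Commute (MulAut.conjNormal h x) x⁻¹ := hc _ _
        rw [h4.mul_pow, inv_pow, ← map_pow, mul_inv_eq_one]
        apply Subtype.ext
        rw [MulAut.conjNormal_apply]
        simpa using h2
      have h5 : ¬ k ∣ orderOf (MulAut.conjNormal h x * x⁻¹) := fun h6 =>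
        hq (h6.trans (orderOf_dvd_of_pow_eq_one h3))
      have h7 := (hχ k hkp hkd).2.1 _ h5
      rw [map_mul, map_inv, mul_inv_eq_one] at h7
      exact h7
  refine ⟨fun h => if hh : h ∈ E then ((b0 ⟨h, hh⟩ : ℂˣ) : ℂ) else 1, ⟨?_, ?_⟩, ?_, ?_⟩
  · have h1 : (⟨1, E.one_mem⟩ : E) = 1 := rfl
    simp only [E.one_mem, dif_pos]
    rw [h1, map_one]
    rfl
  · intro x hx y hy
    simp only [E.mul_mem hx hy, hx, hy, dif_pos]
    have h1 : (⟨x * y, E.mul_mem hx hy⟩ : E) = ⟨x, hx⟩ * ⟨y, hy⟩ := rfl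
    rw [h1, map_mul]
    rfl
  · intro l hl hd
    obtain ⟨-, -, x, hxl, hx1⟩ := hχ l hl hd
    obtain ⟨n, hn⟩ := hxl
    refine ⟨x.1, x.2, ⟨n, by simpa using congrArg Subtype.val hn⟩, ?_⟩
    simp only [x.2, dif_pos]
    rw [hval l hl hd x ⟨n, hn⟩]
    intro hcon
    exact hx1 (Units.ext hcon)
  · intro l hl hd h hhC hhP x hx
    have h1 := hinv l hl hd h hhC hhP ⟨x, hx⟩
    have h2 : h * x * h⁻¹ ∈ E := hEn.conj_mem x hx h
    simp only [h2, hx, dif_pos]
    have h3 : (MulAut.conjNormal h (⟨x, hx⟩ : E)) = ⟨h * x * h⁻¹, h2⟩ := by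
      apply Subtype.ext
      rw [MulAut.conjNormal_apply]
    rw [← h3, h1]

end Pool.Agent.Lib.MPbe1941.X
end

section
/-!
# MP_be1941_al, exact bound, module PCG: `[P_l, t]` does not depend on `t`
-/
set_option autoImplicit false

namespace Pool.Agent.Lib.MPbe1941.X

open Pool.Agent.Lib.MPbe1941

namespace PCGM

/-- An `r`-subgroup normalising a Sylow `r`-subgroup is contained in it. -/
theorem le_of_norm {H : Type} [Group H] [Finite H] {r : ℕ} (hr : r.Prime) {T T' : Subgroup H}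
    (hT : SylIn r ⊤ T) (hT' : IsPGroup r T') (hn : ∀ h ∈ T', ∀ t ∈ T, h * t * h⁻¹ ∈ T) :
    T' ≤ T := by
  have : Fact r.Prime := ⟨hr⟩
  have hle : T' ≤ Subgroup.normalizer T := by
    intro h hh
    rw [Subgroup.mem_normalizer_iff]
    intro t
    refine ⟨fun ht => hn h hh t ht, fun ht => ?_⟩
    have h1 := hn h⁻¹ (inv_mem hh) _ ht
    have h2 : h⁻¹ * (h * t * h⁻¹) * h⁻¹⁻¹ = t := by group
    rwa [h2] at h1
  have hsup : IsPGroup r (T' ⊔ T : Subgroup H) :=
    IsPGroup.to_sup_of_normal_right' hT' hT.2.1 hle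
  have hidx : ¬ r ∣ T.index := by
    have := hT.2.2
    rwa [Subgroup.relIndex_top_right] at this
  obtain ⟨n, hn⟩ := IsPGroup.iff_card.1 hsup
  have h1 : T.relIndex (T' ⊔ T) ∣ r ^ n := by
    rw [← hn]
    exact Subgroup.relIndex_dvd_card T (T' ⊔ T)
  obtain ⟨m, -, hm⟩ := (Nat.dvd_prime_pow hr).1 h1
  have h2 : T.relIndex (T' ⊔ T) ∣ T.index := by
    have := Subgroup.relIndex_mul_index (le_sup_right : T ≤ T' ⊔ T)
    exact ⟨_, this.symm⟩
  have h3 : m = 0 := by
    by_contra hm0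
    apply hidx
    refine dvd_trans ?_ h2
    rw [hm]
    exact dvd_pow_self r hm0
  rw [h3, pow_zero, Subgroup.relIndex_eq_one] at hm
  exact le_trans le_sup_left hm

theorem comm {S : PS} {w : S.W} {r r' : ℕ} {T T' : Subgroup S.H} (hr : r.Prime)
    (hr' : r'.Prime) (hM : S.Mi w r T) (hM' : S.Mi w r' T') {t t' : S.H} (ht : t ∈ T)
    (ht' : t' ∈ T') : t * t' = t' * t := by
  have hnT : ∀ h ∈ T', ∀ t ∈ T, h * t * h⁻¹ ∈ T :=
    fun h hh t ht => hM.2.2.2.2 h (hM'.2.2.2.1 h hh) t ht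
  have hnT' : ∀ h ∈ T, ∀ t ∈ T', h * t * h⁻¹ ∈ T' :=
    fun h hh t ht => hM'.2.2.2.2 h (hM.2.2.2.1 h hh) t ht
  by_cases hrr : r = r'
  · subst hrr
    have h1 : T' ≤ T := le_of_norm hr hM.1 hM'.1.2.1 hnT
    exact hM.2.2.1 t ht t' (h1 ht')
  · haveI : Fact r.Prime := ⟨hr⟩
    have : Fact r'.Prime := ⟨hr'⟩
    have hdis : Disjoint T T' := IsPGroup.disjoint_of_ne r r' hrr T T' hM.1.2.1 hM'.1.2.1
    have h1 : t * t' * t⁻¹ * t'⁻¹ ∈ T := by
      have h2 : t * t' * t⁻¹ * t'⁻¹ = t * (t' * t⁻¹ * t'⁻¹) := by group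
      rw [h2]
      exact T.mul_mem ht (hnT t' ht' _ (T.inv_mem ht))
    have h2 : t * t' * t⁻¹ * t'⁻¹ ∈ T' :=
      T'.mul_mem (hnT' t ht t' ht') (T'.inv_mem ht')
    have h3 : t * t' * t⁻¹ * t'⁻¹ = 1 := Subgroup.disjoint_def.1 hdis h1 h2
    have h4 := mul_inv_eq_one.1 h3
    exact mul_inv_eq_iff_eq_mul.1 h4

theorem le_of {S : PS} {w : S.W} {l : ℕ} {t t' : S.H} (hP : (S.P l).Normal)
    (htt : t * t' = t' * t) {a a' : ℤ} {Q Q' : Subgroup S.G} (h : S.Pow w l t a Q)
    (h' : S.Pow w l t' a' Q') : Q ≤ Q' := by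
  obtain ⟨hQP, hQ, -, -, hQB, -⟩ := h
  obtain ⟨-, hQ', -, -, -, -, hfix, -⟩ := h'
  have hρ : S.phi t * S.phi t' = S.phi t' * S.phi t := by
    rw [← map_mul, htt, map_mul]
  have hnorm : ∀ y ∈ Q, S.phi t' * y * (S.phi t')⁻¹ ∈ Q := by
    intro y hy
    rw [hQ] at hy ⊢
    induction hy using Subgroup.closure_induction with
    | mem y hy =>
      obtain ⟨x, hx, rfl⟩ := hy
      refine Subgroup.subset_closure ⟨S.phi t' * x * (S.phi t')⁻¹, hP.conj_mem x hx _, ?_⟩
      have h1 : S.phi t' * (S.phi t * x * (S.phi t)⁻¹ * x⁻¹) * (S.phi t')⁻¹ =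
          (S.phi t' * S.phi t) * x * (S.phi t' * S.phi t)⁻¹ *
            (S.phi t' * x * (S.phi t')⁻¹)⁻¹ := by group
      rw [h1, ← hρ]
      group
    | one =>
      rw [mul_one, mul_inv_cancel]
      exact Subgroup.one_mem _
    | mul x y _ _ hx hy =>
      have h1 : S.phi t' * (x * y) * (S.phi t')⁻¹ =
          (S.phi t' * x * (S.phi t')⁻¹) * (S.phi t' * y * (S.phi t')⁻¹) := by group
      rw [h1]
      exact Subgroup.mul_mem _ hx hy
    | inv x _ hx =>
      have h1 : S.phi t' * x⁻¹ * (S.phi t')⁻¹ = (S.phi t' * x * (S.phi t')⁻¹)⁻¹ := by group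
      rw [h1]
      exact Subgroup.inv_mem _ hx
  let f : Q → Q := fun y =>
    ⟨S.phi t' * y.1 * (S.phi t')⁻¹ * y.1⁻¹, Q.mul_mem (hnorm y.1 y.2) (Q.inv_mem y.2)⟩
  have hinj : Function.Injective f := by
    intro y z hyz
    have h1 : S.phi t' * y.1 * (S.phi t')⁻¹ * y.1⁻¹ = S.phi t' * z.1 * (S.phi t')⁻¹ * z.1⁻¹ :=
      congrArg Subtype.val hyz
    have h2 : S.phi t' * (z.1⁻¹ * y.1) = (z.1⁻¹ * y.1) * S.phi t' := by
      have h3 : S.phi t' * y.1 * (S.phi t')⁻¹ =
          S.phi t' * z.1 * (S.phi t')⁻¹ * z.1⁻¹ * y.1 := mul_inv_eq_iff_eq_mul.1 h1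
      have h4 : S.phi t' * (z.1⁻¹ * y.1) = (S.phi t' * z.1 * (S.phi t')⁻¹)⁻¹ *
          (S.phi t' * y.1 * (S.phi t')⁻¹) * S.phi t' := by group
      rw [h4, h3]
      group
    have hmem : z.1⁻¹ * y.1 ∈ Q := Q.mul_mem (Q.inv_mem z.2) y.2
    have h3 : z.1⁻¹ * y.1 ∈ S.B w l := hfix _ (hQP hmem) h2
    have h4 : z.1⁻¹ * y.1 ∈ Q ⊓ S.B w l := ⟨hmem, h3⟩
    rw [hQB, Subgroup.mem_bot] at h4
    exact Subtype.ext (inv_mul_eq_one.1 h4).symm
  have hsurj : Function.Surjective f := Finite.injective_iff_surjective.1 hinj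
  intro y hy
  obtain ⟨z, hz⟩ := hsurj ⟨y, hy⟩
  have hz' : S.phi t' * z.1 * (S.phi t')⁻¹ * z.1⁻¹ = y := congrArg Subtype.val hz
  rw [hQ']
  exact Subgroup.subset_closure ⟨z.1, hQP z.2, hz'.symm⟩

end PCGM

open PCGM in
theorem specPCG (hPSB : SpecPSB) : SpecPCG := by
  intro S w _ r r' T T' hr _ hr' _ hM hM' t ht t' ht'
  have hc : t * t' = t' * t := comm hr hr' hM hM' ht ht'
  obtain ⟨-, -, -, hP, -⟩ := hPSB S
  refine ⟨hc, fun l hl _ a Q a' Q' h h' => le_antisymm ?_ ?_⟩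
  · exact le_of (hP l hl).1 hc h h'
  · exact le_of (hP l hl).1 hc.symm h' h

end Pool.Agent.Lib.MPbe1941.X
end

section
/-!
# PE1: (E1), an admissible `E`, `r ∣ |E|`: no Sylow `r`-subgroup of `H` fixes `w ≠ 0`
-/
set_option autoImplicit false

namespace Pool.Agent.Lib.MPbe1941.X

open Pool.Agent.Lib.MPbe1941

namespace PE1M

/-- The `l`-elements of an abelian subgroup. -/
def El {H : Type} [Group H] (E : Subgroup H) (l : ℕ)
    (hc : ∀ x ∈ E, ∀ y ∈ E, x * y = y * x) : Subgroup H where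
  carrier := {x | x ∈ E ∧ LE l x}
  one_mem' := ⟨E.one_mem, 0, by simp⟩
  mul_mem' := by
    rintro x y ⟨hx, m, hm⟩ ⟨hy, n, hn⟩
    refine ⟨E.mul_mem hx hy, m + n, ?_⟩
    have hxy : Commute x y := hc x hx y hy
    rw [hxy.mul_pow, pow_add, pow_mul, hm, one_pow, mul_comm, pow_mul, hn, one_pow, mul_one]
  inv_mem' := by
    rintro x ⟨hx, m, hm⟩
    exact ⟨E.inv_mem hx, m, by rw [inv_pow, hm, inv_one]⟩

theorem mem_El {H : Type} [Group H] (E : Subgroup H) (l : ℕ)
    (hc : ∀ x ∈ E, ∀ y ∈ E, x * y = y * x) (x : H) : x ∈ El E l hc ↔ x ∈ E ∧ LE l x := Iff.rfl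

theorem El_normal {H : Type} [Group H] (E : Subgroup H) (hE : E.Normal) (l : ℕ)
    (hc : ∀ x ∈ E, ∀ y ∈ E, x * y = y * x) : (El E l hc).Normal := by
  constructor
  rintro x ⟨hx, m, hm⟩ g
  exact ⟨hE.conj_mem x hx g, m, by rw [conj_pow, hm, mul_one, mul_inv_cancel]⟩

theorem El_pgroup {H : Type} [Group H] (E : Subgroup H) (l : ℕ)
    (hc : ∀ x ∈ E, ∀ y ∈ E, x * y = y * x) : IsPGroup l (El E l hc) := by
  rintro ⟨x, hx, m, hm⟩
  exact ⟨m, Subtype.ext (by simpa using hm)⟩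

/-- A normal `r`-subgroup is contained in every Sylow `r`-subgroup. -/
theorem le_syl {H : Type} [Group H] [Finite H] {r : ℕ} (hr : r.Prime) {K T : Subgroup H}
    (hK : K.Normal) (hKp : IsPGroup r K) (hT : SylIn r ⊤ T) : K ≤ T := by
  have := Fact.mk hr
  obtain ⟨-, hTp, hTi⟩ := hT
  rw [Subgroup.relIndex_top_right] at hTi
  let P : Sylow r H := hTp.toSylow hTi
  have hP : (P : Subgroup H) = T := IsPGroup.toSylow_coe _ _
  have h1 : IsPGroup r ((P : Subgroup H) ⊔ K : Subgroup H) :=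
    IsPGroup.to_sup_of_normal_right P.2 hKp
  have h2 : (P : Subgroup H) ⊔ K = P := P.is_maximal' h1 le_sup_left
  rw [← hP, ← h2]
  exact le_sup_right

end PE1M

theorem specPE1 (hPSB : SpecPSB) : SpecPE1 := by
  intro S E r T w hE hr hdvd hT hw
  obtain ⟨hEn, hEC, hEc, hEf, -⟩ := hE
  by_contra hcon
  push Not at hcon
  have hK := (hPSB S).2.2.2.2.2.2.1
  have := Fact.mk hr
  have hle := PE1M.le_syl hr (PE1M.El_normal E hEn r hEc) (PE1M.El_pgroup E r hEc) hT
  have htriv := hK (PE1M.El E r hEc) (PE1M.El_normal E hEn r hEc) w hw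
    (fun g hg => hcon g (hle hg))
  obtain ⟨x, hx⟩ := exists_prime_orderOf_dvd_card' (G := E) r hdvd
  have hxr : (x : S.H) ^ r = 1 := by
    have h1 : x ^ r = 1 := by rw [← hx]; exact pow_orderOf_eq_one x
    have h2 := congrArg (fun y : E => (y : S.H)) h1
    simpa using h2
  have hxE : (x : S.H) ∈ PE1M.El E r hEc := ⟨x.2, 1, by rw [pow_one]; exact hxr⟩
  have hx1 : (x : S.H) = 1 := hEf x x.2 (htriv x hxE)
  have : x = 1 := Subtype.ext hx1
  rw [this, orderOf_one] at hx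
  exact hr.one_lt.ne hx

end Pool.Agent.Lib.MPbe1941.X
end

section
/-!
# PEA: `D(w)` is admissible, and `C_{D_l}(P_l)` is cyclic
-/
set_option autoImplicit false

namespace Pool.Agent.Lib.MPbe1941.X

open Pool.Agent.Lib.MPbe1941

namespace PEAM

/-- The `l`-elements of an abelian subgroup which centralise `P_l`. -/
def Y (S : PS) (E : Subgroup S.H) (l : ℕ)
    (hc : ∀ x ∈ E, ∀ y ∈ E, x * y = y * x) : Subgroup S.H where
  carrier := {x | x ∈ E ∧ LE l x ∧ S.CP l x}
  one_mem' := ⟨E.one_mem, ⟨0, by simp⟩, fun g _ => by simp⟩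
  mul_mem' := by
    rintro x y ⟨hx, ⟨m, hm⟩, hx1⟩ ⟨hy, ⟨n, hn⟩, hy1⟩
    refine ⟨E.mul_mem hx hy, ⟨m + n, ?_⟩, fun g hg => ?_⟩
    · have hxy : Commute x y := hc x hx y hy
      rw [hxy.mul_pow, pow_add, pow_mul, hm, one_pow, mul_comm, pow_mul, hn, one_pow, mul_one]
    · rw [map_mul, mul_assoc, hy1 g hg, ← mul_assoc, hx1 g hg, mul_assoc]
  inv_mem' := by
    rintro x ⟨hx, ⟨m, hm⟩, hx1⟩
    refine ⟨E.inv_mem hx, ⟨m, by rw [inv_pow, hm, inv_one]⟩, fun g hg => ?_⟩
    rw [map_inv]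
    have := hx1 g hg
    rw [inv_mul_eq_iff_eq_mul, ← mul_assoc, this, mul_inv_cancel_right]

end PEAM

theorem specPEA (hPDC : SpecPDC) : SpecPEA := by
  intro S w hw
  obtain ⟨⟨hn, hC, hc⟩, hf, -, h4, -, -, h7, h8⟩ := hPDC S w hw
  refine ⟨⟨hn, hC, hc, hf, h7⟩, ?_⟩
  intro l hl hdvd
  have := Fact.mk hl
  obtain ⟨x, hx⟩ := exists_prime_orderOf_dvd_card' (G := S.D w) l hdvd
  have hxl : (x : S.H) ^ l = 1 := by
    have h1 : x ^ l = 1 := by rw [← hx]; exact pow_orderOf_eq_one x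
    have h2 := congrArg (fun y : S.D w => (y : S.H)) h1
    simpa using h2
  have hx1 : (x : S.H) ≠ 1 := by
    intro h
    have : x = 1 := Subtype.ext h
    rw [this, orderOf_one] at hx
    exact hl.one_lt.ne hx
  obtain ⟨r, T, hg, t, ht, htl⟩ := h4 l hl x x.2 ⟨1, by rw [pow_one]; exact hxl⟩ hx1
  obtain ⟨-, -, a, Q, hpow, -, hQ⟩ := h8 r l T hl hg t ht htl
  obtain ⟨-, -, -, -, -, -, -, -, -, -, c', hc', hc'B, hgen⟩ := hpow
  let Y := PEAM.Y S (S.D w) l hc
  have hmem : ∀ y : Y, S.phi (y : S.H) ∈ Subgroup.zpowers c' := by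
    rintro ⟨y, hy, hyl, hyc⟩
    have hyQ : S.phi y ∈ Q := by
      rw [← hQ]
      exact ⟨Subgroup.mem_map_of_mem _ hy, h7 l hl y hy hyl⟩
    obtain ⟨n, hn⟩ := hgen _ hyQ (fun b hb => (hyc b hb.1).symm)
    exact Subgroup.mem_zpowers_iff.2 ⟨n, hn.symm⟩
  let f : Y →* Subgroup.zpowers c' :=
    (S.phi.comp Y.subtype).codRestrict (Subgroup.zpowers c') hmem
  have hinj : Function.Injective f := by
    rw [injective_iff_map_eq_one]
    intro y hy
    have h1 : S.phi (y : S.H) = 1 := congrArg Subtype.val hy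
    refine Subtype.ext (hf y y.2.1 fun v => ?_)
    rw [← S.cmp, h1, one_smul]
  have hcyc : IsCyclic Y := isCyclic_of_injective f hinj
  obtain ⟨c, hcg⟩ := hcyc.exists_generator
  refine ⟨c, c.2.1, c.2.2.1, c.2.2.2, fun y hy hyl hyc => ?_⟩
  obtain ⟨n, hn⟩ := Subgroup.mem_zpowers_iff.1 (hcg ⟨y, hy, hyl, hyc⟩)
  refine ⟨n, ?_⟩
  have h2 := congrArg (fun z : Y => (z : S.H)) hn
  simpa using h2.symm

end Pool.Agent.Lib.MPbe1941.X
end

section
/-!
# MP_be1941_al (exact bound), module PEC: `D(w)` is complemented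
-/
set_option autoImplicit false

namespace Pool.Agent.Lib.MPbe1941.X

open Pool.Agent.Lib.MPbe1941

namespace PECM

/-- The sup `A` of a family of pairwise commuting subgroups is abelian. -/
theorem sSup_comm {G : Type*} [Group G] {F : Set (Subgroup G)}
    (h : ∀ T ∈ F, ∀ T' ∈ F, ∀ t ∈ T, ∀ t' ∈ T', t * t' = t' * t) :
    ∀ x ∈ sSup F, ∀ y ∈ sSup F, x * y = y * x := by
  have h1 : ∀ T ∈ F, ∀ t ∈ T, ∀ y ∈ sSup F, t * y = y * t := by
    intro T hT t ht
    have h2 : sSup F ≤ Subgroup.centralizer {t} := by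
      refine sSup_le fun T' hT' t' ht' => ?_
      rw [Subgroup.mem_centralizer_singleton_iff]
      exact (h T hT T' hT' t ht t' ht').symm
    intro y hy
    have := h2 hy
    rw [Subgroup.mem_centralizer_singleton_iff] at this
    exact this.symm
  intro x hx y hy
  have h3 : sSup F ≤ Subgroup.centralizer {y} := by
    refine sSup_le fun T hT t ht => ?_
    rw [Subgroup.mem_centralizer_singleton_iff]
    exact h1 T hT t ht y hy
  have := h3 hx
  rw [Subgroup.mem_centralizer_singleton_iff] at this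
  exact this

/-- If `q` divides the order of the sup of commuting subgroups, it divides the order of some
element of one of them. -/
theorem exists_of_dvd {G : Type*} [Group G] [Finite G] {F : Set (Subgroup G)}
    (h : ∀ T ∈ F, ∀ T' ∈ F, ∀ t ∈ T, ∀ t' ∈ T', t * t' = t' * t) {q : ℕ} (hq : q.Prime)
    (hd : q ∣ Nat.card (sSup F : Subgroup G)) : ∃ T ∈ F, ∃ t ∈ T, q ∣ orderOf t := by
  by_contra hcon
  push Not at hcon
  have : Fact q.Prime := ⟨hq⟩
  obtain ⟨⟨z, hz⟩, hzq⟩ := exists_prime_orderOf_dvd_card' q hd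
  rw [Subgroup.orderOf_mk] at hzq
  have hab := sSup_comm h
  let K : Subgroup G :=
    { carrier := {x | x ∈ sSup F ∧ ¬ q ∣ orderOf x}
      one_mem' := ⟨one_mem _, by rw [orderOf_one]; exact hq.one_lt.ne' ∘ Nat.dvd_one.1⟩
      mul_mem' := fun {a b} ha hb => ⟨mul_mem ha.1 hb.1, fun hd => by
        have hc : Commute a b := hab a ha.1 b hb.1
        have h1 := hd.trans hc.orderOf_mul_dvd_mul_orderOf
        rcases hq.dvd_mul.1 h1 with h2 | h2
        · exact ha.2 h2
        · exact hb.2 h2⟩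
      inv_mem' := fun {a} ha => ⟨inv_mem ha.1, by rw [orderOf_inv]; exact ha.2⟩ }
  have hK : sSup F ≤ K := sSup_le fun T hT t ht =>
    ⟨Subgroup.mem_sSup_of_mem hT ht, hcon T hT t ht⟩
  exact (hK hz).2 (by rw [hzq])

end PECM

open PECM in
theorem specPEC (hPDC : SpecPDC) (hPCG : SpecPCG) (hRLO : SpecRLO) (hFRA : SpecFRA) :
    SpecPEC := by
  intro S w hE
  obtain ⟨⟨hDn, hDC, hDab⟩, -, -, -, h5, h6, -, -⟩ := hPDC S w hE
  set F : Set (Subgroup S.H) := {T | ∃ r, S.Good w r T} with hF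
  have hcomm : ∀ T ∈ F, ∀ T' ∈ F, ∀ t ∈ T, ∀ t' ∈ T', t * t' = t' * t := by
    rintro T ⟨r, hT⟩ T' ⟨r', hT'⟩ t ht t' ht'
    exact (hPCG S w hE r r' T T' hT.1.1 hT.2.1 hT'.1.1 hT'.2.1 hT.1.2.1 hT'.1.2.1 t ht t' ht').1
  have hcop : Nat.Coprime (Nat.card (S.D w)) (Nat.card (sSup F : Subgroup S.H)) := by
    refine Nat.Coprime.symm (Nat.coprime_of_dvd fun q hq hqA hqD => ?_)
    obtain ⟨T, ⟨r, hT⟩, t, ht, hqt⟩ := exists_of_dvd hcomm hq hqA
    have : Fact r.Prime := ⟨hT.1.1⟩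
    have hpg : IsPGroup r T := hT.1.2.1.1.2.1
    obtain ⟨k, hk⟩ := (IsPGroup.iff_orderOf.1 hpg) ⟨t, ht⟩
    rw [Subgroup.orderOf_mk] at hk
    rw [hk] at hqt
    have hqr : q = r := (Nat.prime_dvd_prime_iff_eq hq hT.1.1).1 (hq.dvd_of_dvd_pow hqt)
    subst hqr
    exact h5 q T hT hqD
  have hnorm : (S.D w ⊔ sSup F).Normal := by
    refine ⟨fun x hx g => ?_⟩
    have hle : S.D w ⊔ sSup F ≤ (S.D w ⊔ sSup F).comap (MulAut.conj g).toMonoidHom := by
      refine sup_le (fun d hd => ?_) (sSup_le fun T hT t ht => ?_)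
      · exact Subgroup.mem_sup_left (hDn.conj_mem d hd g)
      · obtain ⟨r, hT'⟩ := hT
        obtain ⟨hOn, -, hTO, -, -, hdec, -⟩ :=
          hRLO S.H S.sol r T hT'.1.1 hT'.1.2.1.1 hT'.1.2.1.2.2.1
        obtain ⟨d, hd, t', ht', he⟩ := hdec _ (hOn.conj_mem t (hTO ht) g)
        have hmem : Dr S.H r ∈ {K | ∃ r T, S.Good w r T ∧ K = Dr S.H r} := ⟨r, T, hT', rfl⟩
        have hdD : d ∈ S.D w := Subgroup.mem_sSup_of_mem hmem hd
        show g * t * g⁻¹ ∈ S.D w ⊔ sSup F
        rw [he]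
        exact mul_mem (Subgroup.mem_sup_left hdD)
          (Subgroup.mem_sup_right (Subgroup.mem_sSup_of_mem (⟨r, hT'⟩ : T ∈ F) ht'))
    exact hle hx
  obtain ⟨K, -, hK1, hK2⟩ := hFRA S.H (S.D w) (sSup F) hDn hDab hcop hnorm
    (fun d hd hc => h6 d hd fun r T hT t ht =>
      hc t (Subgroup.mem_sSup_of_mem (⟨r, hT⟩ : T ∈ F) ht))
  exact ⟨K, hK1, hK2⟩

end Pool.Agent.Lib.MPbe1941.X
end

section
/-!
# Module PRO: the main proposition, unbundled
-/
set_option autoImplicit false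

namespace Pool.Agent.Lib.MPbe1941.X

open Pool.Agent.Lib.MPbe1941

namespace PROM

/-- an extremal vector exists -/
theorem exists_ext (S : PS) : ∃ w : S.W, S.Ext w := by
  obtain ⟨v0, hv0⟩ := exists_ne (0 : S.W)
  have : Nonempty {v : S.W // v ≠ 0} := ⟨⟨v0, hv0⟩⟩
  obtain ⟨w, hw⟩ := Finite.exists_max fun v : {v : S.W // v ≠ 0} => Nat.card (Stb S.F v.1)
  exact ⟨w.1, w.2, fun v hv => hw ⟨v, hv⟩⟩

/-- the main proposition for a setting -/
theorem main (hPAA : SpecPAA) (hPDA : SpecPDA) (hPEC : SpecPEC) (hPEA : SpecPEA)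
    (hPBX : SpecPBX) (hPEM : SpecPEM) (hPE1 : SpecPE1) (hPE2 : SpecPE2) (S : PS) :
    ∃ (w : S.W) (D K : Subgroup S.H) (bet : S.H → ℂ), w ≠ 0 ∧ D.Normal ∧ D ≤ S.C ∧
      (∀ x ∈ D, ∀ y ∈ D, x * y = y * x) ∧ (∀ x ∈ D, (∀ v : S.W, x • v = v) → x = 1) ∧
      D ⊓ K = ⊥ ∧ D ⊔ K = ⊤ ∧ Lin D bet ∧
      (∀ r, r.Prime → r ∣ Nat.card D → ∀ T : Subgroup S.H, SylIn r ⊤ T → ∃ t ∈ T, t • w ≠ w) ∧
      (∀ r T, r.Prime → MiH S.C w r T → (∃ t ∈ T, ∃ v : S.W, t • v ≠ v) →
        (5 ≤ r ∨ (r = 3 ∧ ∃ T₂, MiH S.C w 2 T₂)) →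
          ∀ R : Subgroup S.H, SylIn r ⊤ R → ∃ t ∈ R, ¬ FixB D bet t) ∧
      (∀ r T, r.Prime → ¬ r ∣ Nat.card D → SylIn r ⊤ T → (∀ t ∈ T, FixB D bet t) →
        (∀ x ∈ T, ∀ y ∈ T, x * y * x⁻¹ * y⁻¹ ∈ D) →
        (∀ h : S.H, FixB D bet h → ∀ t ∈ T, h * t * h⁻¹ ∈ D ⊔ T) →
        T.Normal ∧ (∀ x ∈ T, ∀ y ∈ T, x * y = y * x) ∧ ∀ t ∈ T, ∀ x ∈ D, t * x = x * t) ∧
      ∀ r T, r.Prime → MiH S.C w r T → (∀ t ∈ T, ∀ v : S.W, t • v = v) → T.Normal := by
  obtain ⟨w, hw⟩ := exists_ext S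
  obtain ⟨hA, hC⟩ := hPEA S w hw
  obtain ⟨K, hK1, hK2⟩ := hPEC S w hw
  obtain ⟨bet, hL, hF, hI⟩ := hPBX S (S.D w) hA
  refine ⟨w, S.D w, K, bet, hw.1, hA.1, hA.2.1, hA.2.2.1, hA.2.2.2.1, hK1, hK2, hL, ?_, ?_, ?_, ?_⟩
  · intro r hr hd T hT
    exact hPE1 S (S.D w) r T w hA hr hd hT hw.1
  · intro r T hr hM hN hcase R hR
    exact hPE2 S w hw r T (hPDA S w hw r T ⟨hr, hM, hN⟩ hcase) bet hL hF R hR
  · intro r T hr hd hT h1 h2 h3
    exact hPEM S (S.D w) bet r T hA hC hL hF hI hr hd hT h1 h2 h3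
  · intro r T hr hM h1
    exact (hPAA S w r T hw.1 hr hM).1 h1

variable {H W : Type} [Group H] [Finite H] [AddCommGroup W] [Finite W] [Nontrivial W]
  [DistribMulAction H W]

/-- the elements of `C` acting trivially -/
def C0 (W : Type) [AddCommGroup W] [DistribMulAction H W] (C : Subgroup H) : Subgroup H where
  carrier := {h | h ∈ C ∧ ∀ w : W, h • w = w}
  one_mem' := ⟨C.one_mem, fun w => one_smul H w⟩
  mul_mem' := fun {a b} ha hb => ⟨C.mul_mem ha.1 hb.1, fun w => by rw [mul_smul, hb.2, ha.2]⟩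
  inv_mem' := fun {a} ha => ⟨C.inv_mem ha.1, fun w => by rw [inv_smul_eq_iff, ha.2]⟩

instance C0_normal (C : Subgroup H) [hC : C.Normal] : (C0 W C).Normal := by
  refine ⟨fun x hx g => ⟨hC.conj_mem x hx.1 g, fun w => ?_⟩⟩
  rw [mul_smul, mul_smul, hx.2, smul_inv_smul]

/-- the action of the quotient -/
def quoHom (C : Subgroup H) [C.Normal] : (H ⧸ C0 W C) →* AddMonoid.End W :=
  QuotientGroup.lift (C0 W C) (DistribMulAction.toAddMonoidEnd H W) fun x hx => by
    rw [MonoidHom.mem_ker]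
    ext w
    exact hx.2 w

/-- the setting -/
noncomputable def mkPS (hsol : Group.IsSolvable H)
    (hirr : ∀ A : AddSubgroup W, (∀ h : H, ∀ x ∈ A, h • x ∈ A) → A = ⊥ ∨ A = ⊤)
    (C : Subgroup H) (hC : C.Normal) : PS :=
  letI : DistribMulAction (H ⧸ C0 W C) W := DistribMulAction.compHom W (quoHom (W := W) C)
  { H := H
    G := H ⧸ C0 W C
    W := W
    phi := QuotientGroup.mk' (C0 W C)
    C := C
    finH := inferInstance
    finG := inferInstance
    finW := inferInstance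
    ntW := inferInstance
    sol := hsol
    surj := QuotientGroup.mk'_surjective _
    cmp := fun h w => rfl
    ker := fun h => by
      rw [QuotientGroup.mk'_apply, QuotientGroup.eq_one_iff]
      exact Iff.rfl
    nor := hC
    irr := hirr }

end PROM

theorem specPRO (hPAA : SpecPAA) (hPDA : SpecPDA) (hPEC : SpecPEC) (hPEA : SpecPEA)
    (hPBX : SpecPBX) (hPEM : SpecPEM) (hPE1 : SpecPE1) (hPE2 : SpecPE2) : SpecPRO := by
  intro H W _ _ _ _ _ _ hsol hirr C hC
  exact PROM.main hPAA hPDA hPEC hPEA hPBX hPEM hPE1 hPE2 (PROM.mkPS hsol hirr C hC)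

end Pool.Agent.Lib.MPbe1941.X
end

section
/-!
# PSR: semiregularity
-/
set_option autoImplicit false

namespace Pool.Agent.Lib.MPbe1941.X

open Pool.Agent.Lib.MPbe1941

theorem specPSR (hFTF : SpecFTF) : SpecPSR := by
  intro S w hw l hl x hx hxB v hv
  have hPF : S.P l ≤ S.F := le_sSup ⟨l, hl, rfl⟩
  refine ⟨?_, ?_⟩
  · intro b hb
    obtain ⟨_, _, _, h4, _⟩ := hFTF S.G S.N
    obtain ⟨m, hm, hc⟩ := h4 l hl b hb.1
    have hbm : b ^ m ∈ S.B w l := by
      refine ⟨hm, ?_⟩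
      have h : b ^ m ∈ Stb S.F w := Subgroup.pow_mem _ hb m
      exact h.2
    have hb' : x⁻¹ * b ^ m * x ∈ S.B w l := by
      rw [hxB]
      have : x * (x⁻¹ * b ^ m * x) * x⁻¹ = b ^ m := by group
      rw [this]
      exact hbm
    have hx1 := hc x hx
    have key : b * x = x * ((b * (b ^ m)⁻¹) * (x⁻¹ * b ^ m * x)) := by
      have h2 : x * (b * (b ^ m)⁻¹) = (b * (b ^ m)⁻¹) * x := by
        have h3 : (b * (b ^ m)⁻¹) = (b ^ m * b⁻¹)⁻¹ := by group
        rw [h3]
        have h4 : Commute (b ^ m * b⁻¹) x := hx1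
        exact (h4.inv_left).eq.symm
      calc b * x = (b * (b ^ m)⁻¹) * (b ^ m * x) := by group
        _ = (b * (b ^ m)⁻¹) * x * (x⁻¹ * b ^ m * x) := by group
        _ = x * (b * (b ^ m)⁻¹) * (x⁻¹ * b ^ m * x) := by rw [h2]
        _ = _ := by group
    have hfix : ((b * (b ^ m)⁻¹) * (x⁻¹ * b ^ m * x)) • v = v := by
      apply hv
      refine Subgroup.mul_mem _ ?_ ?_
      · exact Subgroup.mul_mem _ hb (Subgroup.inv_mem _ (Subgroup.pow_mem _ hb m))
      · exact ⟨hPF hb'.1, hb'.2⟩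
    rw [smul_smul, key, mul_smul, hfix]
  · intro hv0 hxv
    have hle : Stb S.F w ≤ Stb S.F v := fun b hb => ⟨hb.1, hv b hb⟩
    have heq : Stb S.F w = Stb S.F v :=
      Subgroup.eq_of_le_of_card_ge hle (hw.2 v hv0)
    have hxs : x ∈ Stb S.F w := by
      rw [heq]
      exact ⟨hPF hx, hxv⟩
    exact ⟨hx, hxs.2⟩

end Pool.Agent.Lib.MPbe1941.X
end

section
/-!
# MP_be1941_al, exact bound, module REL: the relative form of the main proposition
-/
set_option autoImplicit false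

namespace Pool.Agent.Lib.MPbe1941.X

open Pool.Agent.Lib.MPbe1941

namespace RELM

section

variable {H : Type} [Group H] {J : Subgroup H}

lemma sub_map (T : Subgroup J) : (T.map J.subtype).subgroupOf J = T :=
  Subgroup.comap_map_eq_self_of_injective J.subtype_injective T

lemma map_le (T : Subgroup J) : T.map J.subtype ≤ J := by
  rintro _ ⟨x, _, rfl⟩
  exact x.2

lemma mem_map (T : Subgroup J) (x : J) : (x : H) ∈ T.map J.subtype ↔ x ∈ T := by
  constructor
  · rintro ⟨y, hy, hyx⟩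
    have : y = x := Subtype.ext hyx
    rwa [← this]
  · intro hx
    exact ⟨x, hx, rfl⟩

lemma exists_of_le {T : Subgroup H} (hT : T ≤ J) : ∃ T' : Subgroup J, T = T'.map J.subtype :=
  ⟨T.subgroupOf J, by rw [Subgroup.map_subgroupOf_eq_of_le hT]⟩

lemma pgroup_iff {r : ℕ} (T : Subgroup J) : IsPGroup r (T.map J.subtype) ↔ IsPGroup r T := by
  constructor
  · intro h
    exact h.of_injective (J.subtype.subgroupMap T) (by
      intro a b hab
      apply Subtype.ext
      apply Subtype.ext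
      exact congrArg (fun z => ((z : T.map J.subtype) : H)) hab)
  · intro h
    exact h.map J.subtype

lemma syl_iff {r : ℕ} (T : Subgroup J) : SylIn r J (T.map J.subtype) ↔ SylIn r ⊤ T := by
  unfold SylIn
  rw [pgroup_iff, Subgroup.relIndex, sub_map, Subgroup.relIndex_top_right]
  constructor
  · rintro ⟨_, h2, h3⟩
    exact ⟨le_top, h2, h3⟩
  · rintro ⟨_, h2, h3⟩
    exact ⟨map_le T, h2, h3⟩

/-- Extension of a function on `J`. -/
noncomputable def ext (bet : J → ℂ) : H → ℂ :=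
  fun h => open Classical in if hh : h ∈ J then bet ⟨h, hh⟩ else 1

lemma ext_coe (bet : J → ℂ) (x : J) : ext bet (x : H) = bet x := by
  unfold ext
  rw [dif_pos x.2]

lemma fixB_iff (D : Subgroup J) (bet : J → ℂ) (h : J) :
    FixB (D.map J.subtype) (ext bet) (h : H) ↔ FixB D bet h := by
  unfold FixB
  constructor
  · intro H1 x hx
    have h1 := H1 (x : H) ((mem_map D x).2 hx)
    have h2 : (h : H) * (x : H) * (h : H)⁻¹ = ((h * x * h⁻¹ : J) : H) := by simp
    rwa [h2, ext_coe, ext_coe] at h1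
  · rintro H1 _ ⟨x, hx, rfl⟩
    have h2 : (h : H) * J.subtype x * (h : H)⁻¹ = ((h * x * h⁻¹ : J) : H) := by simp
    have h3 : J.subtype x = (x : H) := rfl
    rw [h2, h3, ext_coe, ext_coe]
    exact H1 x hx

lemma forall_map (T : Subgroup J) (P : H → Prop) :
    (∀ t ∈ T.map J.subtype, P t) ↔ ∀ t ∈ T, P (t : H) := by
  constructor
  · intro h t ht
    exact h _ ((mem_map T t).2 ht)
  · rintro h _ ⟨t, ht, rfl⟩
    exact h t ht

lemma exists_map (T : Subgroup J) (P : H → Prop) :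
    (∃ t ∈ T.map J.subtype, P t) ↔ ∃ t ∈ T, P (t : H) := by
  constructor
  · rintro ⟨_, ⟨t, ht, rfl⟩, h⟩
    exact ⟨t, ht, h⟩
  · rintro ⟨t, ht, h⟩
    exact ⟨_, (mem_map T t).2 ht, h⟩

lemma forall_J (P : H → Prop) : (∀ h ∈ J, P h) ↔ ∀ h : J, P (h : H) :=
  ⟨fun H1 h => H1 h h.2, fun H1 h hh => H1 ⟨h, hh⟩⟩

end

end RELM

open RELM in
theorem specREL (hCNT : SpecCNT) : SpecREL := by
  intro H X _ _ _ _ _ J C W hsol hW hWJ hirr hCJ hCn Th hTh
  classical
  let act : DistribMulAction J W :=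
    { smul := fun h x => ⟨(h : H) • (x : X), hWJ h h.2 x x.2⟩
      one_smul := fun x => Subtype.ext (one_smul H (x : X))
      mul_smul := fun a b x => Subtype.ext (mul_smul (a : H) (b : H) (x : X))
      smul_zero := fun a => Subtype.ext (smul_zero (a : H))
      smul_add := fun a x y => Subtype.ext (smul_add (a : H) (x : X) (y : X)) }
  have hcoe : ∀ (h : J) (x : W), ((h • x : W) : X) = (h : H) • (x : X) := fun _ _ => rfl
  have : Nontrivial W := by
    rw [AddSubgroup.nontrivial_iff_ne_bot]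
    exact hW
  have : Finite J := inferInstance
  have : Finite W := inferInstance
  have hirr' : ∀ A : AddSubgroup W, (∀ h : J, ∀ x ∈ A, h • x ∈ A) → A = ⊥ ∨ A = ⊤ := by
    intro A hA
    rcases hirr (A.map W.subtype) (by
      rintro _ ⟨x, _, rfl⟩
      exact x.2) (by
      rintro h hh _ ⟨x, hx, rfl⟩
      exact ⟨(⟨h, hh⟩ : J) • x, hA ⟨h, hh⟩ x hx, rfl⟩) with h1 | h1
    · left
      rw [eq_bot_iff]
      intro x hx
      have h2 : (x : X) ∈ A.map W.subtype := ⟨x, hx, rfl⟩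
      rw [h1, AddSubgroup.mem_bot] at h2
      rw [AddSubgroup.mem_bot]
      exact Subtype.ext h2
    · right
      rw [eq_top_iff]
      intro x _
      have h2 : (x : X) ∈ A.map W.subtype := by rw [h1]; exact x.2
      obtain ⟨y, hy, hyx⟩ := h2
      have : y = x := Subtype.ext hyx
      rwa [← this]
  have hCn' : (C.subgroupOf J).Normal := by
    refine ⟨fun n hn g => ?_⟩
    rw [Subgroup.mem_subgroupOf] at hn ⊢
    have := hCn g g.2 n hn
    simpa using this
  obtain ⟨w, D, K, bet, hw0, hDn, hDC, hDab, hDf, hDK, hDK', hLin, hcnt⟩ :=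
    hCNT J W hsol hirr' (C.subgroupOf J) hCn' Th hTh
  have hfix : ∀ t : J, t • w = w ↔ (t : H) • (w : X) = (w : X) := by
    intro t
    rw [← hcoe]
    exact ⟨fun h => congrArg _ h, fun h => Subtype.ext h⟩
  have htriv : ∀ t : J, (∀ v : W, t • v = v) ↔ ∀ v ∈ W, (t : H) • v = v := by
    intro t
    constructor
    · intro h v hv
      have := congrArg (fun z : W => (z : X)) (h ⟨v, hv⟩)
      exact this
    · intro h v
      exact Subtype.ext (h v v.2)
  have hleC : ∀ T : Subgroup J, T.map J.subtype ≤ C ↔ T ≤ C.subgroupOf J := by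
    intro T
    constructor
    · intro h t ht
      rw [Subgroup.mem_subgroupOf]
      exact h ((mem_map T t).2 ht)
    · rintro h _ ⟨t, ht, rfl⟩
      exact Subgroup.mem_subgroupOf.1 (h ht)
  have hcomm : ∀ T : Subgroup J, (∀ x ∈ T.map J.subtype, ∀ y ∈ T.map J.subtype, x * y = y * x) ↔
      ∀ x ∈ T, ∀ y ∈ T, x * y = y * x := by
    intro T
    rw [forall_map]
    constructor
    · intro h x hx y hy
      have := (forall_map T _).1 (h x hx) y hy
      exact Subtype.ext this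
    · intro h x hx
      rw [forall_map]
      intro y hy
      exact congrArg (fun z : J => (z : H)) (h x hx y hy)
  have key : ∀ P Q : Subgroup H → Prop, ∀ P' : Subgroup J → Prop,
      (∀ T, P T → T ≤ J) → (∀ T : Subgroup J, P (T.map J.subtype) ↔ P' T) →
      ((∃ T, P T) ↔ ∃ T', P' T') := by
    intro P Q P' h1 h2
    constructor
    · rintro ⟨T, hT⟩
      obtain ⟨T', rfl⟩ := exists_of_le (h1 T hT)
      exact ⟨T', (h2 T').1 hT⟩
    · rintro ⟨T', hT'⟩
      exact ⟨_, (h2 T').2 hT'⟩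
  have key' : ∀ P : Subgroup H → Prop, ∀ P' : Subgroup J → Prop, ∀ r : ℕ,
      (∀ T : Subgroup J, P (T.map J.subtype) ↔ P' T) →
      ((∀ T, SylIn r J T → P T) ↔ ∀ T', SylIn r ⊤ T' → P' T') := by
    intro P P' r h2
    constructor
    · intro h T' hT'
      exact (h2 T').1 (h _ ((syl_iff T').2 hT'))
    · intro h T hT
      obtain ⟨T', rfl⟩ := exists_of_le hT.1
      exact (h2 T').2 (h _ ((syl_iff T').1 hT))
  have e1 : {r | r ∈ Th ∧ ∃ T, MiJ J C (w : X) r T} =
      {r | r ∈ Th ∧ ∃ T, MiH (C.subgroupOf J) w r T} := by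
    ext r
    simp only [Set.mem_ofPred_eq]
    apply and_congr_right
    intro _
    refine key _ (fun _ => True) _ (fun T hT => hT.1.1) ?_
    intro T
    unfold MiJ MiH
    rw [syl_iff, hleC, hcomm, forall_map, forall_J (J := J)]
    refine and_congr_right fun _ => and_congr_right fun _ => and_congr_right fun _ => ?_
    refine and_congr ?_ ?_
    · exact forall_congr' fun t => forall_congr' fun _ => (hfix t).symm
    · refine forall_congr' fun h => ?_
      rw [hfix, forall_map]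
      refine forall_congr' fun _ => forall_congr' fun t => forall_congr' fun _ => ?_
      rw [← mem_map T]
      simp
  have e2 : {r | r ∈ Th ∧ ∃ T, MiBJ J C (D.map J.subtype) (ext bet) r T} =
      {r | r ∈ Th ∧ ∃ T, MiB (C.subgroupOf J) D bet r T} := by
    ext r
    simp only [Set.mem_ofPred_eq]
    apply and_congr_right
    intro _
    refine key _ (fun _ => True) _ (fun T hT => hT.1.1) ?_
    intro T
    unfold MiBJ MiB
    rw [syl_iff, hleC, forall_map, forall_J (J := J)]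
    refine and_congr_right fun _ => and_congr_right fun _ => ?_
    refine and_congr ?_ (and_congr ?_ ?_)
    · exact forall_congr' fun t => forall_congr' fun _ => fixB_iff D bet t
    · rw [forall_map]
      refine forall_congr' fun x => forall_congr' fun _ => ?_
      rw [forall_map]
      refine forall_congr' fun y => forall_congr' fun _ => ?_
      rw [← mem_map D]
      simp
    · refine forall_congr' fun h => ?_
      rw [fixB_iff, forall_map]
      refine forall_congr' fun _ => forall_congr' fun t => forall_congr' fun _ => ?_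
      rw [← Subgroup.map_sup, ← mem_map (D ⊔ T)]
      simp
  have e3 : {r | r ∈ Th ∧ ∀ T : Subgroup H, SylIn r J T → ∃ t ∈ T, t • (w : X) ≠ (w : X)} =
      {r | r ∈ Th ∧ ∀ T : Subgroup J, SylIn r ⊤ T → ∃ t ∈ T, t • w ≠ w} := by
    ext r
    simp only [Set.mem_ofPred_eq]
    apply and_congr_right
    intro _
    refine key' _ _ r ?_
    intro T
    rw [exists_map]
    exact exists_congr fun t => and_congr_right fun _ => not_congr (hfix t).symm
  have e4 : {r | r ∈ Th ∧ ∀ T : Subgroup H, SylIn r J T →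
        ∃ t ∈ T, ¬ FixB (D.map J.subtype) (ext bet) t} =
      {r | r ∈ Th ∧ ∀ T : Subgroup J, SylIn r ⊤ T → ∃ t ∈ T, ¬ FixB D bet t} := by
    ext r
    simp only [Set.mem_ofPred_eq]
    apply and_congr_right
    intro _
    refine key' _ _ r ?_
    intro T
    rw [exists_map]
    exact exists_congr fun t => and_congr_right fun _ => not_congr (fixB_iff D bet t)
  have e5 : {r | r ∈ Th ∧ ∃ T : Subgroup H, SylIn r J T ∧
          (∀ h ∈ J, ∀ t ∈ T, h * t * h⁻¹ ∈ T) ∧ T ≤ C ∧ (∀ x ∈ T, ∀ y ∈ T, x * y = y * x) ∧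
          ∀ t ∈ T, ∀ v ∈ W, t • v = v} =
      {r | r ∈ Th ∧ ∃ T : Subgroup J, SylIn r ⊤ T ∧ T.Normal ∧ T ≤ C.subgroupOf J ∧
          (∀ x ∈ T, ∀ y ∈ T, x * y = y * x) ∧ ∀ t ∈ T, ∀ v : W, t • v = v} := by
    ext r
    simp only [Set.mem_ofPred_eq]
    apply and_congr_right
    intro _
    refine key _ (fun _ => True) _ (fun T hT => hT.1.1) ?_
    intro T
    rw [syl_iff, hleC, hcomm, forall_map, forall_J (J := J)]
    refine and_congr_right fun _ => and_congr ?_ (and_congr_right fun _ =>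
      and_congr_right fun _ => ?_)
    · constructor
      · intro h
        refine ⟨fun t ht g => ?_⟩
        have := h g (t : H) ((mem_map T t).2 ht)
        rw [← mem_map T]
        simpa using this
      · intro h g
        rw [forall_map]
        intro t ht
        have := (mem_map T _).2 (h.conj_mem t ht g)
        simpa using this
    · exact forall_congr' fun t => forall_congr' fun _ => (htriv t).symm
  refine ⟨w, D.map J.subtype, K.map J.subtype, ext bet, w.2, ?_, (hleC D).2 hDC, ?_, (hcomm D).2 hDab,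
    ?_, map_le K, ?_, ?_, ?_, ?_⟩
  · intro h
    exact hw0 (Subtype.ext h)
  · rw [forall_J (J := J)]
    intro g
    rw [forall_map]
    intro t ht
    have := (mem_map D _).2 (hDn.conj_mem t ht g)
    simpa using this
  · rw [forall_map]
    intro x hx h
    have := hDf x hx ((htriv x).2 h)
    rw [this]
    rfl
  · rw [← Subgroup.map_inf_eq D K J.subtype J.subtype_injective, hDK, Subgroup.map_bot]
  · rw [← Subgroup.map_sup, hDK', ← MonoidHom.range_eq_map, Subgroup.range_subtype]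
  · refine ⟨?_, ?_⟩
    · have := ext_coe bet 1
      rw [hLin.1] at this
      exact this
    · rw [forall_map]
      intro x hx
      rw [forall_map]
      intro y hy
      have h1 : (x : H) * (y : H) = ((x * y : J) : H) := rfl
      rw [h1, ext_coe, ext_coe, ext_coe]
      exact hLin.2 x hx y hy
  · rw [e1, e2, e3, e4, e5]
    exact hcnt

end Pool.Agent.Lib.MPbe1941.X
end
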