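import Pool.Agent.Lib.MP_be1941_al.CO.SpecC
import Pool.Agent.Lib.MP_be1941_al.X.REL
import Pool.Agent.Lib.MP_be1941_al.X.SpecP
import Pool.Agent.Lib.MP_be1941_al.X.SpecQ

section
/-!
# MP_be1941_al, block CO, module FFA: automorphisms of finite fields (helper41)
-/
set_option autoImplicit false

namespace Pool.Agent.Lib.MPbe1941.CO

open Pool.Agent.Lib.MPbe1941

namespace FFAM

/-- ring automorphisms are automorphisms over the prime field -/
theorem exists_hom (F : Type) [Field F] [Finite F] :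
    ∃ (p : ℕ) (_ : Fact p.Prime) (_ : Algebra (ZMod p) F) (f : (F ≃+* F) →* Gal(F/ZMod p)),
      Function.Injective f := by
  obtain ⟨p, hp⟩ := CharP.exists F
  have hpp : Fact p.Prime := ⟨CharP.char_is_prime F p⟩
  let _ : Algebra (ZMod p) F := ZMod.algebra F p
  have h : ∀ (s : F ≃+* F) (r : ZMod p), s (algebraMap (ZMod p) F r) = algebraMap (ZMod p) F r := by
    intro s r
    have : (s : F →+* F).comp (algebraMap (ZMod p) F) = algebraMap (ZMod p) F :=
      RingHom.ext_zmod _ _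
    exact congrArg (fun g : ZMod p →+* F => g r) this
  refine ⟨p, hpp, inferInstance,
    { toFun := fun s => AlgEquiv.ofRingEquiv (f := s) (h s)
      map_one' := ?_
      map_mul' := ?_ }, ?_⟩
  · ext x; rfl
  · intro s t; ext x; rfl
  · intro s t hst
    ext x
    exact congrArg (fun g : Gal(F/ZMod p) => g x) hst

theorem cyc (F : Type) [Field F] [Finite F] : IsCyclic (F ≃+* F) := by
  obtain ⟨p, hp, _, f, hf⟩ := exists_hom F
  exact isCyclic_of_injective f hf

theorem comm (F : Type) [Field F] [Finite F] (s t : F ≃+* F) : s * t = t * s := by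
  have := cyc F
  exact (IsCyclic.isMulCommutative (α := F ≃+* F)).is_comm.comm s t

/-- the fixed points of `σ` and of the group generated by `σ` -/
theorem card_fix (F : Type) [Field F] [Finite F] (σ : F ≃+* F) :
    Nat.card F = Nat.card {y : F // σ y = y} ^ orderOf σ := by
  have hfin : Finite (F ≃+* F) := by
    obtain ⟨p, hp, _, f, hf⟩ := exists_hom F
    exact Finite.of_injective f hf
  let G : Subgroup (RingAut F) := Subgroup.zpowers (σ : RingAut F)
  have : Finite G := inferInstance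
  have : Fintype G := Fintype.ofFinite G
  have h1 := FixedPoints.finrank_eq_card G F
  have h2 : Nat.card G = orderOf σ := Nat.card_zpowers σ
  have h3 := Module.natCard_eq_pow_finrank (K := FixedPoints.subfield G F) (V := F)
  rw [h1, ← Nat.card_eq_fintype_card, h2] at h3
  rw [h3]
  congr 1
  refine Nat.card_congr (Equiv.subtypeEquivRight fun y => ?_)
  constructor
  · intro hy
    exact hy ⟨σ, Subgroup.mem_zpowers σ⟩
  · intro hy
    rintro ⟨g, hg⟩
    have hle : G ≤ MulAction.stabilizer (RingAut F) y := by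
      rw [Subgroup.zpowers_le]
      exact hy
    exact hle hg

theorem pow_apply {F : Type} [Field F] (σ : F ≃+* F) {x y : F} (h1 : σ x = y * x)
    (h2 : σ y = y) (n : ℕ) : (σ ^ n) x = y ^ n * x := by
  induction n with
  | zero => simp
  | succ n ih =>
    rw [pow_succ', RingAut.mul_apply, ih, map_mul, map_pow, h1, h2]
    ring

/-- the homomorphism `x ↦ σ x / x` -/
def hm {F : Type} [Field F] (σ : F ≃+* F) : Fˣ →* Fˣ :=
  Units.map (σ : F →* F) / MonoidHom.id Fˣ

theorem hm_apply {F : Type} [Field F] (σ : F ≃+* F) (x : Fˣ) :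
    ((hm σ x : Fˣ) : F) = σ x / x := by
  simp [hm]

theorem dec {F : Type} [Field F] [Finite F] (σ : F ≃+* F)
    (h : ∀ x, x ≠ 0 → σ (σ x / x) = σ x / x → σ x = x) (y : F) (hy : y ≠ 0) :
    ∃ x z, x ≠ 0 ∧ z ≠ 0 ∧ σ z = z ∧ y = σ x / x * z := by
  have hc : Nat.card (hm σ).range * Nat.card (hm σ).ker = Nat.card Fˣ := by
    rw [← Subgroup.index_ker, mul_comm]
    exact Subgroup.card_mul_index _
  have hker : ∀ z : Fˣ, z ∈ (hm σ).ker ↔ σ z = z := by
    intro z
    rw [MonoidHom.mem_ker, ← Units.val_inj, hm_apply, Units.val_one,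
      div_eq_one_iff_eq z.ne_zero]
  have hd : Disjoint (hm σ).range (hm σ).ker := by
    rw [Subgroup.disjoint_def]
    rintro n ⟨x, rfl⟩ hn
    rw [hker, hm_apply] at hn
    rw [← MonoidHom.mem_ker, hker]
    exact h x x.ne_zero hn
  have hcomp := Subgroup.isComplement'_of_card_mul_and_disjoint hc hd
  obtain ⟨⟨⟨n, hn⟩, ⟨z, hz⟩⟩, hnz⟩ := hcomp.2 (Units.mk0 y hy)
  obtain ⟨x, rfl⟩ := hn
  refine ⟨x, z, x.ne_zero, z.ne_zero, (hker z).1 hz, ?_⟩
  have := congrArg (fun a : Fˣ => (a : F)) hnz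
  simp only [Units.val_mul, Units.val_mk0] at this
  rw [hm_apply] at this
  exact this.symm

end FFAM

open FFAM in
theorem specFFA : SpecFFA := by
  intro F _ _
  refine ⟨?_, ?_, ?_⟩
  · intro s t y
    exact congrArg (fun g : F ≃+* F => g y) (comm F s t)
  · intro K
    have := cyc F
    infer_instance
  · intro σ
    refine ⟨card_fix F σ, ?_, dec σ⟩
    intro x hx hy
    have h1 : σ x = σ x / x * x := by rw [div_mul_cancel₀ _ hx]
    have h2 := pow_apply σ h1 hy (orderOf σ)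
    rw [pow_orderOf_eq_one] at h2
    have h3 : (1 : F ≃+* F) x = x := rfl
    rw [h3] at h2
    exact mul_right_cancel₀ hx (by rw [← h2, one_mul])

end Pool.Agent.Lib.MPbe1941.CO
end

section
/-!
# SYL: Sylow theory for `SylIn`
-/
namespace Pool.Agent.Lib.MPbe1941.CO

open Pool.Agent.Lib.MPbe1941

namespace SYLM

open scoped Pointwise

variable {H : Type} [Group H] {r : ℕ}

/-- A Sylow subgroup of `S`, as a subgroup of `H`. -/
theorem sylIn_map [Finite H] [Fact r.Prime] {S : Subgroup H} (P : Sylow r S) :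
    SylIn r S ((P : Subgroup S).map S.subtype) := by
  refine ⟨Subgroup.map_subtype_le _, P.isPGroup'.map _, ?_⟩
  have h1 : ((P : Subgroup S).map S.subtype).subgroupOf S = (P : Subgroup S) :=
    Subgroup.comap_map_eq_self_of_injective S.subtype_injective _
  rw [Subgroup.relIndex, h1]
  exact P.not_dvd_index

/-- Conversely. -/
theorem exists_sylow [Finite H] [Fact r.Prime] {S R : Subgroup H} (h : SylIn r S R) :
    ∃ P : Sylow r S, (P : Subgroup S) = R.subgroupOf S := by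
  have h1 : IsPGroup r (R.subgroupOf S) := h.2.1.comap_subtype
  exact ⟨h1.toSylow h.2.2, IsPGroup.toSylow_coe _ _⟩

theorem mem_map {S : Subgroup H} (P : Subgroup S) (x : H) :
    x ∈ P.map S.subtype ↔ ∃ h : x ∈ S, (⟨x, h⟩ : S) ∈ P := by
  constructor
  · rintro ⟨y, hy, rfl⟩
    exact ⟨y.2, hy⟩
  · rintro ⟨h, hx⟩
    exact ⟨⟨x, h⟩, hx, rfl⟩

theorem conj_mem [Finite H] [Fact r.Prime] {S : Subgroup H} (P : Sylow r S) (g : S) (x : S) :
    x ∈ ((g • P : Sylow r S) : Subgroup S) ↔ g⁻¹ * x * g ∈ (P : Subgroup S) := by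
  rw [Sylow.coe_subgroup_smul, Subgroup.mem_pointwise_smul_iff_inv_smul_mem]
  have : (MulAut.conj g)⁻¹ • x = g⁻¹ * x * g := by
    rw [MulAut.smul_def, MulAut.conj_inv_apply]
  rw [this]

end SYLM

open SYLM in
theorem specSYL : SpecSYL := by
  intro H _ _ r hr
  have hF : Fact r.Prime := ⟨hr⟩
  have ha : ∀ S : Subgroup H, ∃ R, SylIn r S R := fun S => ⟨_, sylIn_map (default : Sylow r S)⟩
  have he : ∀ S T R : Subgroup H, T ≤ S → ¬ r ∣ T.relIndex S → SylIn r T R → SylIn r S R := by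
    intro S T R hTS hd hR
    refine ⟨hR.1.trans hTS, hR.2.1, ?_⟩
    rw [← Subgroup.relIndex_mul_relIndex R T S hR.1 hTS]
    intro h
    rcases hr.dvd_mul.1 h with h | h
    · exact hR.2.2 h
    · exact hd h
  refine ⟨ha, ?_, ?_, ?_, he, ?_, ?_, ?_, ?_⟩
  · intro S Q hQS hQ
    have h1 : IsPGroup r (Q.subgroupOf S) := hQ.comap_subtype
    obtain ⟨P, hP⟩ := h1.exists_le_sylow
    refine ⟨_, sylIn_map P, ?_⟩
    intro x hx
    rw [mem_map]
    exact ⟨hQS hx, hP hx⟩
  · intro S R R' hR hR'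
    obtain ⟨P, hP⟩ := exists_sylow hR
    obtain ⟨P', hP'⟩ := exists_sylow hR'
    obtain ⟨g, hg⟩ := MulAction.exists_smul_eq S P P'
    refine ⟨g.1, g.2, ?_⟩
    intro x
    have key : ∀ hx : x ∈ S, x ∈ R' ↔ g.1⁻¹ * x * g.1 ∈ R := by
      intro hx
      have h1 : (⟨x, hx⟩ : S) ∈ (P' : Subgroup S) ↔ x ∈ R' := by
        rw [hP']
        rfl
      rw [← h1, ← hg, conj_mem, hP]
      rfl
    by_cases hx : x ∈ S
    · exact key hx
    · constructor
      · intro h
        exact absurd (hR'.1 h) hx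
      · intro h
        exfalso
        apply hx
        have h1 := hR.1 h
        have h2 := S.mul_mem (S.mul_mem g.2 h1) (S.inv_mem g.2)
        have h3 : g.1 * (g.1⁻¹ * x * g.1) * g.1⁻¹ = x := by group
        rwa [h3] at h2
  · intro S T R hR hRT hTS
    refine ⟨hRT, hR.2.1, ?_⟩
    intro h
    apply hR.2.2
    rw [← Subgroup.relIndex_mul_relIndex R T S hRT hTS]
    exact h.mul_right _
  · intro S R R' hR g hg hR'
    obtain ⟨P, hP⟩ := exists_sylow hR
    have h1 := sylIn_map ((⟨g, hg⟩ : S) • P)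
    have h2 : R' = (((⟨g, hg⟩ : S) • P : Sylow r S) : Subgroup S).map S.subtype := by
      ext x
      rw [mem_map, hR']
      constructor
      · intro h
        have hx : x ∈ S := by
          have h1 := hR.1 h
          have h2 := S.mul_mem (S.mul_mem hg h1) (S.inv_mem hg)
          have h3 : g * (g⁻¹ * x * g) * g⁻¹ = x := by group
          rwa [h3] at h2
        refine ⟨hx, ?_⟩
        rw [conj_mem, hP]
        exact h
      · rintro ⟨hx, h⟩
        rw [conj_mem, hP] at h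
        exact h
    rw [h2]
    exact h1
  · intro T hT
    by_contra hd
    obtain ⟨R, hR⟩ := ha T
    apply hT
    refine ⟨R, he ⊤ T R le_top ?_ hR, hR.1⟩
    rwa [Subgroup.relIndex_top_right]
  · intro R hR hd hbot
    apply hR.2.2
    rw [hbot, Subgroup.relIndex_bot_left, Subgroup.card_top]
    exact hd
  · intro N R hN hR
    refine ⟨inf_le_right, hR.2.1.to_le inf_le_left, ?_⟩
    rw [Subgroup.inf_relIndex_right]
    have h1 : R.relIndex (R ⊔ N) = R.relIndex N := by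
      have h2 := Subgroup.relIndex_mul_relIndex (R ⊓ N) R (R ⊔ N) inf_le_left le_sup_left
      have h3 := Subgroup.relIndex_mul_relIndex (R ⊓ N) N (R ⊔ N) inf_le_right le_sup_right
      rw [Subgroup.inf_relIndex_left] at h2
      rw [Subgroup.inf_relIndex_right, Subgroup.relIndex_sup_right] at h3
      have h4 : N.relIndex R ≠ 0 := by
        rw [Subgroup.relIndex]
        exact Subgroup.index_ne_zero_of_finite
      have h5 : N.relIndex R * R.relIndex (R ⊔ N) = N.relIndex R * R.relIndex N := by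
        rw [h2, ← h3, mul_comm]
      exact mul_left_cancel₀ h4 h5
    rw [← h1]
    intro h
    apply hR.2.2
    rw [Subgroup.relIndex_top_right]
    exact h.trans (Subgroup.relIndex_dvd_index_of_le le_sup_left)

end Pool.Agent.Lib.MPbe1941.CO
end

section
/-!
# Coprime action, ambient form

`S` is an `r`-subgroup of the finite group `G` which normalises the subgroup `K`, and `r` does not
divide the order of `K`.
-/
set_option autoImplicit false

namespace Pool.Agent.Lib.MPbe1941.XF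

open Pool.Agent.Lib.MPbe1941
open scoped commutatorElement

variable {G : Type} [Group G] {r : ℕ}

theorem sup_ind {S T : Subgroup G} {p : G → Prop} (hl : ∀ x ∈ S, p x) (hr : ∀ x ∈ T, p x)
    (mul : ∀ x y, p x → p y → p (x * y)) {x : G} (hx : x ∈ S ⊔ T) : p x := by
  rw [Subgroup.sup_eq_closure] at hx
  have h1 : ∀ y ∈ Subgroup.closure ((S : Set G) ∪ T), p y ∧ p y⁻¹ := by
    intro y hy
    induction hy using Subgroup.closure_induction with
    | mem x hx =>
      rcases hx with hx | hx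
      · exact ⟨hl x hx, hl _ (S.inv_mem hx)⟩
      · exact ⟨hr x hx, hr _ (T.inv_mem hx)⟩
    | one => exact ⟨hl 1 S.one_mem, by rw [inv_one]; exact hl 1 S.one_mem⟩
    | mul x y _ _ hx hy =>
      refine ⟨mul x y hx.1 hy.1, ?_⟩
      rw [mul_inv_rev]
      exact mul _ _ hy.2 hx.2
    | inv x _ hx => exact ⟨hx.2, by rw [inv_inv]; exact hx.1⟩
  exact (h1 x hx).1

/-- `S` normalises `K`. -/
def Nrm (S K : Subgroup G) : Prop := ∀ s ∈ S, ∀ k ∈ K, s * k * s⁻¹ ∈ K

/-- `S` centralises `K`. -/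
def Cen (S K : Subgroup G) : Prop := ∀ s ∈ S, ∀ k ∈ K, s * k = k * s

/-- The elements of `K` centralised by `S`. -/
def CK (K S : Subgroup G) : Subgroup G := K ⊓ Subgroup.centralizer (S : Set G)

theorem mem_CK {K S : Subgroup G} {x : G} : x ∈ CK K S ↔ x ∈ K ∧ ∀ s ∈ S, s * x = x * s := by
  unfold CK
  rw [Subgroup.mem_inf, Subgroup.mem_centralizer_iff]
  rfl

theorem Nrm.inv {S K : Subgroup G} (h : Nrm S K) {s k : G} (hs : s ∈ S) (hk : k ∈ K) :
    s⁻¹ * k * s ∈ K := by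
  have := h s⁻¹ (S.inv_mem hs) k hk
  rwa [inv_inv] at this

theorem Nrm.conj_iff {S K : Subgroup G} (h : Nrm S K) {s : G} (hs : s ∈ S) (k : G) :
    s * k * s⁻¹ ∈ K ↔ k ∈ K := by
  constructor
  · intro hk
    have h1 := h.inv hs hk
    have h2 : s⁻¹ * (s * k * s⁻¹) * s = k := by group
    rwa [h2] at h1
  · exact h s hs k

theorem Nrm.mono {S S' K : Subgroup G} (h : Nrm S K) (hS : S' ≤ S) : Nrm S' K :=
  fun s hs k hk => h s (hS hs) k hk

theorem Nrm.sup {S S' K : Subgroup G} (h : Nrm S K) (h' : Nrm S' K) : Nrm (S ⊔ S') K := by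
  intro s hs
  have h1 : ∀ x ∈ S ⊔ S', ∀ k, x * k * x⁻¹ ∈ K ↔ k ∈ K := by
    intro x hx
    refine sup_ind (p := fun x => ∀ k, x * k * x⁻¹ ∈ K ↔ k ∈ K) (fun x hx k => h.conj_iff hx k)
      (fun x hx k => h'.conj_iff hx k) (fun x y hx' hy' k => ?_) hx
    have h2 : x * y * k * (x * y)⁻¹ = x * (y * k * y⁻¹) * x⁻¹ := by group
    rw [h2, hx', hy']
  exact fun k hk => (h1 s hs k).2 hk

theorem nrm_of_normal {S K : Subgroup G} (h : K.Normal) : Nrm S K :=
  fun s _ k hk => h.conj_mem k hk s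

theorem nrm_self (S : Subgroup G) : Nrm S S :=
  fun _ hs _ hk => S.mul_mem (S.mul_mem hs hk) (S.inv_mem hs)

theorem nrm_le {S K : Subgroup G} (h : S ≤ K) : Nrm S K := (nrm_self K).mono h

theorem Nrm.inf {S K K' : Subgroup G} (h : Nrm S K) (h' : Nrm S K') : Nrm S (K ⊓ K') :=
  fun s hs k hk => ⟨h s hs k hk.1, h' s hs k hk.2⟩

theorem Nrm.le_normalizer {S K : Subgroup G} (h : Nrm S K) : S ≤ Subgroup.normalizer K := by
  intro s hs
  rw [Subgroup.mem_normalizer_iff]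
  exact fun k => (h.conj_iff hs k).symm

/-- The product `N S` when `S` normalises `N`. -/
theorem mem_sup {S N : Subgroup G} (h : Nrm S N) {x : G} :
    x ∈ N ⊔ S ↔ ∃ n ∈ N, ∃ s ∈ S, n * s = x := by
  constructor
  · intro hx
    refine sup_ind (p := fun x => ∃ n ∈ N, ∃ s ∈ S, n * s = x)
      (fun x hx => ⟨x, hx, 1, S.one_mem, mul_one x⟩)
      (fun x hx => ⟨1, N.one_mem, x, hx, one_mul x⟩) (fun x y hx' hy' => ?_) hx
    obtain ⟨n, hn, s, hs, rfl⟩ := hx'
    obtain ⟨m, hm, t, ht, rfl⟩ := hy'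
    exact ⟨n * (s * m * s⁻¹), N.mul_mem hn (h s hs m hm), s * t, S.mul_mem hs ht, by group⟩
  · rintro ⟨n, hn, s, hs, rfl⟩
    exact (N ⊔ S).mul_mem (Subgroup.mem_sup_left hn) (Subgroup.mem_sup_right hs)

theorem card_sup {S N : Subgroup G} (h : Nrm S N) (h0 : N ⊓ S = ⊥) :
    Nat.card (N ⊔ S : Subgroup G) = Nat.card N * Nat.card S := by
  rw [← Nat.card_prod]
  symm
  refine Nat.card_congr (Equiv.ofBijective
    (fun p : N × S => (⟨p.1.1 * p.2.1, (mem_sup h).2 ⟨_, p.1.2, _, p.2.2, rfl⟩⟩ :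
      (N ⊔ S : Subgroup G))) ⟨?_, ?_⟩)
  · rintro ⟨⟨n, hn⟩, ⟨s, hs⟩⟩ ⟨⟨m, hm⟩, ⟨t, ht⟩⟩ heq
    have h1 : n * s = m * t := congrArg Subtype.val heq
    have h2 : m⁻¹ * n = t * s⁻¹ := by
      calc m⁻¹ * n = m⁻¹ * (n * s) * s⁻¹ := by group
        _ = t * s⁻¹ := by rw [h1]; group
    have h3 : m⁻¹ * n ∈ N ⊓ S := by
      refine ⟨N.mul_mem (N.inv_mem hm) hn, ?_⟩
      rw [h2]
      exact S.mul_mem ht (S.inv_mem hs)
    rw [h0, Subgroup.mem_bot] at h3
    have h4 : n = m := (inv_mul_eq_one.1 h3).symm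
    subst h4
    have h5 : s = t := mul_left_cancel h1
    subst h5
    rfl
  · rintro ⟨x, hx⟩
    obtain ⟨n, hn, s, hs, rfl⟩ := (mem_sup h).1 hx
    exact ⟨⟨⟨n, hn⟩, ⟨s, hs⟩⟩, rfl⟩

/-- An `r`-group and an `r'`-group meet trivially. -/
theorem inf_bot (hr : r.Prime) {S K : Subgroup G} (hS : IsPGroup r S)
    (hK : ¬ r ∣ Nat.card K) : K ⊓ S = ⊥ := by
  rw [eq_bot_iff]
  intro x hx
  obtain ⟨k, hk⟩ := hS ⟨x, hx.2⟩
  have h1 : x ^ r ^ k = 1 := by
    have := congrArg Subtype.val hk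
    simpa using this
  have h2 : orderOf x ∣ Nat.card K := by
    have := orderOf_dvd_natCard (⟨x, hx.1⟩ : K)
    rwa [Subgroup.orderOf_mk] at this
  have h3 : orderOf x ∣ r ^ k := orderOf_dvd_of_pow_eq_one h1
  obtain ⟨j, _, hj⟩ := (Nat.dvd_prime_pow hr).1 h3
  rcases Nat.eq_zero_or_pos j with h4 | h4
  · subst h4
    rw [pow_zero, orderOf_eq_one_iff] at hj
    rw [Subgroup.mem_bot]
    exact hj
  · exfalso
    apply hK
    refine dvd_trans ?_ h2
    rw [hj]
    exact dvd_pow_self r h4.ne'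

theorem relIndex_eq [Finite G] {S N R : Subgroup G} (h : Nrm S N) (h0 : N ⊓ S = ⊥)
    (hR : R ≤ N ⊔ S) (hc : Nat.card R = Nat.card S) : R.relIndex (N ⊔ S) = Nat.card N := by
  have h1 := Subgroup.card_mul_index (R.subgroupOf (N ⊔ S))
  have h2 : Nat.card (R.subgroupOf (N ⊔ S)) = Nat.card R :=
    Nat.card_congr (Subgroup.subgroupOfEquivOfLe hR).toEquiv
  rw [h2, card_sup h h0, hc, mul_comm (Nat.card N)] at h1
  exact mul_left_cancel₀ (Nat.card_pos.ne') h1

theorem syl_of_card [Finite G] (hr : r.Prime) {S N R : Subgroup G} (h : Nrm S N)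
    (hS : IsPGroup r S) (hN : ¬ r ∣ Nat.card N) (hR : R ≤ N ⊔ S) (hRp : IsPGroup r R)
    (hc : Nat.card R = Nat.card S) : SylIn r (N ⊔ S) R := by
  refine ⟨hR, hRp, ?_⟩
  rw [relIndex_eq h (inf_bot hr hS hN) hR hc]
  exact hN

/-- Two conjugates of `S` inside `N S` are conjugate by an element of `N`. -/
theorem conj_of [Finite G] (hr : r.Prime) {S N : Subgroup G} (h : Nrm S N)
    (hS : IsPGroup r S) (hN : ¬ r ∣ Nat.card N) (k : G)
    (hk : ∀ s ∈ S, k * s * k⁻¹ ∈ N ⊔ S) :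
    ∃ n ∈ N, ∀ s ∈ S, (n * k) * s * (n * k)⁻¹ ∈ S := by
  obtain ⟨R, hR⟩ : ∃ R : Subgroup G, R = S.map (MulAut.conj k).toMonoidHom := ⟨_, rfl⟩
  have hmem : ∀ x, x ∈ R ↔ k⁻¹ * x * k ∈ S := by
    intro x
    rw [hR, Subgroup.mem_map]
    constructor
    · rintro ⟨s, hs, rfl⟩
      have : k⁻¹ * (MulAut.conj k).toMonoidHom s * k = s := by
        change k⁻¹ * (k * s * k⁻¹) * k = s
        group
      rwa [this]
    · intro hx
      refine ⟨_, hx, ?_⟩
      change k * (k⁻¹ * x * k) * k⁻¹ = x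
      group
  have hRle : R ≤ N ⊔ S := by
    intro x hx
    have h1 := hk _ ((hmem x).1 hx)
    have h2 : k * (k⁻¹ * x * k) * k⁻¹ = x := by group
    rwa [h2] at h1
  have hRp : IsPGroup r R := by
    rw [hR]
    exact hS.map _
  have hRc : Nat.card R = Nat.card S := by
    rw [hR]
    exact (Nat.card_congr (Subgroup.equivMapOfInjective S _
      (MulAut.conj k).injective).toEquiv).symm
  have h1 := syl_of_card hr h hS hN hRle hRp hRc
  have h2 := syl_of_card hr h hS hN (le_sup_right) hS rfl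
  obtain ⟨g, hg, hgx⟩ := (CO.specSYL G r hr).2.2.1 _ _ _ h1 h2
  obtain ⟨n, hn, s, hs, hns⟩ := (mem_sup h).1 ((N ⊔ S).inv_mem hg)
  refine ⟨n⁻¹, N.inv_mem hn, fun t ht => ?_⟩
  have h3 : s⁻¹ * (s * ((n⁻¹ * k) * t * (n⁻¹ * k)⁻¹) * s⁻¹) * s
      = (n⁻¹ * k) * t * (n⁻¹ * k)⁻¹ := by group
  have h4 : s⁻¹ * ((n⁻¹ * k) * t * (n⁻¹ * k)⁻¹) * s ∈ S := by
    rw [hgx, hmem]
    have h5 : g = s⁻¹ * n⁻¹ := by
      rw [← inv_inv g, ← hns]
      group
    rw [h5]
    have h6 : k⁻¹ * ((s⁻¹ * n⁻¹)⁻¹ * (s⁻¹ * (n⁻¹ * k * t * (n⁻¹ * k)⁻¹) * s) * (s⁻¹ * n⁻¹)) * k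
        = t := by group
    rw [h6]
    exact ht
  have h7 := S.mul_mem (S.mul_mem hs h4) (S.inv_mem hs)
  have h8 : s * (s⁻¹ * ((n⁻¹ * k) * t * (n⁻¹ * k)⁻¹) * s) * s⁻¹
      = (n⁻¹ * k) * t * (n⁻¹ * k)⁻¹ := by group
  rwa [h8] at h7

/-- An element of `K` which normalises `S` centralises `S`. -/
theorem cen_of_norm (hr : r.Prime) {S K : Subgroup G} (hSK : Nrm S K)
    (hS : IsPGroup r S) (hK : ¬ r ∣ Nat.card K) {k : G} (hk : k ∈ K)
    (h : ∀ s ∈ S, k * s * k⁻¹ ∈ S) : k ∈ CK K S := by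
  rw [mem_CK]
  refine ⟨hk, fun s hs => ?_⟩
  have h1 : k * s * k⁻¹ * s⁻¹ ∈ K ⊓ S := by
    refine ⟨?_, S.mul_mem (h s hs) (S.inv_mem hs)⟩
    have h2 : k * s * k⁻¹ * s⁻¹ = k * (s * k⁻¹ * s⁻¹) := by group
    rw [h2]
    exact K.mul_mem hk (hSK s hs _ (K.inv_mem hk))
  rw [inf_bot hr hS hK, Subgroup.mem_bot] at h1
  calc s * k = (k * s * k⁻¹ * s⁻¹)⁻¹ * (k * s) := by group
    _ = k * s := by rw [h1]; simp

/-- **CA1**: fixed points of the coprime action on the cosets of `N` lift. -/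
theorem fix_lift [Finite G] (hr : r.Prime) {S K N : Subgroup G} (hSK : Nrm S K)
    (hS : IsPGroup r S) (hK : ¬ r ∣ Nat.card K) (hNK : N ≤ K) (hSN : Nrm S N) {k : G}
    (hk : k ∈ K) (h : ∀ s ∈ S, k * s * k⁻¹ * s⁻¹ ∈ N) : ∃ n ∈ N, n * k ∈ CK K S := by
  have hN : ¬ r ∣ Nat.card N := fun hd => hK (hd.trans (Subgroup.card_dvd_of_le hNK))
  obtain ⟨n, hn, h1⟩ := conj_of hr hSN hS hN k (fun s hs => by
    rw [mem_sup hSN]
    exact ⟨_, h s hs, s, hs, by group⟩)
  exact ⟨n, hn, cen_of_norm hr hSK hS hK (K.mul_mem (hNK hn) hk) h1⟩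

/-! ## Commutators -/

theorem comm_le {S K : Subgroup G} (hSK : Nrm S K) : ⁅K, S⁆ ≤ K := by
  rw [Subgroup.commutator_le]
  intro k hk s hs
  rw [commutatorElement_def]
  have h2 : k * s * k⁻¹ * s⁻¹ = k * (s * k⁻¹ * s⁻¹) := by group
  rw [h2]
  exact K.mul_mem hk (hSK s hs _ (K.inv_mem hk))

theorem comm_mem {S K : Subgroup G} {k s : G} (hk : k ∈ K) (hs : s ∈ S) :
    k * s * k⁻¹ * s⁻¹ ∈ ⁅K, S⁆ := by
  have := Subgroup.commutator_mem_commutator hk hs
  rwa [commutatorElement_def] at this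

/-- Normalising by generators. -/
theorem nrm_closure {A : Set G} {S : Subgroup G}
    (h : ∀ s ∈ S, ∀ a ∈ A, s * a * s⁻¹ ∈ Subgroup.closure A) : Nrm S (Subgroup.closure A) := by
  intro s hs k hk
  induction hk using Subgroup.closure_induction with
  | mem x hx => exact h s hs x hx
  | one => simp
  | mul x y _ _ hx hy =>
    have h1 : s * (x * y) * s⁻¹ = (s * x * s⁻¹) * (s * y * s⁻¹) := by group
    rw [h1]
    exact Subgroup.mul_mem _ hx hy
  | inv x _ hx =>
    have h1 : s * x⁻¹ * s⁻¹ = (s * x * s⁻¹)⁻¹ := by group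
    rw [h1]
    exact Subgroup.inv_mem _ hx

theorem nrm_comm {S K T : Subgroup G} (h1 : Nrm T K) (h2 : Nrm T S) : Nrm T ⁅K, S⁆ := by
  rw [Subgroup.commutator_def]
  apply nrm_closure
  rintro t ht a ⟨k, hk, s, hs, rfl⟩
  apply Subgroup.subset_closure
  refine ⟨t * k * t⁻¹, h1 t ht k hk, t * s * t⁻¹, h2 t ht s hs, ?_⟩
  rw [commutatorElement_def, commutatorElement_def]
  group

theorem nrm_comm_left (S K : Subgroup G) : Nrm K ⁅K, S⁆ := by
  rw [Subgroup.commutator_def]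
  apply nrm_closure
  rintro t ht a ⟨k, hk, s, hs, rfl⟩
  rw [commutatorElement_def]
  have h1 : t * (k * s * k⁻¹ * s⁻¹) * t⁻¹
      = ((t * k) * s * (t * k)⁻¹ * s⁻¹) * (t * s * t⁻¹ * s⁻¹)⁻¹ := by group
  rw [h1]
  have h2 : ∀ x ∈ K, x * s * x⁻¹ * s⁻¹ ∈
      Subgroup.closure {g | ∃ g₁ ∈ K, ∃ g₂ ∈ S, ⁅g₁, g₂⁆ = g} := by
    intro x hx
    apply Subgroup.subset_closure
    exact ⟨x, hx, s, hs, commutatorElement_def x s⟩
  exact Subgroup.mul_mem _ (h2 _ (K.mul_mem ht hk)) (Subgroup.inv_mem _ (h2 _ ht))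

theorem nrm_comm_right {S K : Subgroup G} (hSK : Nrm S K) : Nrm S ⁅K, S⁆ :=
  nrm_comm hSK (nrm_self S)

/-- **CA2**: `K = [K, S] C_K(S)`. -/
theorem mem_comm_mul [Finite G] (hr : r.Prime) {S K : Subgroup G} (hSK : Nrm S K)
    (hS : IsPGroup r S) (hK : ¬ r ∣ Nat.card K) {k : G} (hk : k ∈ K) :
    ∃ d ∈ ⁅K, S⁆, ∃ c ∈ CK K S, d * c = k := by
  obtain ⟨n, hn, h1⟩ := fix_lift hr hSK hS hK (comm_le hSK) (nrm_comm_right hSK) hk
    (fun s hs => comm_mem hk hs)
  exact ⟨n⁻¹, Subgroup.inv_mem _ hn, n * k, h1, by group⟩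

theorem comm_sup_CK [Finite G] (hr : r.Prime) {S K : Subgroup G} (hSK : Nrm S K)
    (hS : IsPGroup r S) (hK : ¬ r ∣ Nat.card K) : ⁅K, S⁆ ⊔ CK K S = K := by
  apply le_antisymm
  · exact sup_le (comm_le hSK) inf_le_left
  · intro k hk
    obtain ⟨d, hd, c, hc, rfl⟩ := mem_comm_mul hr hSK hS hK hk
    exact Subgroup.mul_mem _ (Subgroup.mem_sup_left hd) (Subgroup.mem_sup_right hc)

/-- **CA3**: `[[K, S], S] = [K, S]`. -/
theorem comm_comm [Finite G] (hr : r.Prime) {S K : Subgroup G} (hSK : Nrm S K)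
    (hS : IsPGroup r S) (hK : ¬ r ∣ Nat.card K) : ⁅⁅K, S⁆, S⁆ = ⁅K, S⁆ := by
  apply le_antisymm
  · exact comm_le (nrm_comm_right hSK)
  · rw [Subgroup.commutator_le]
    intro k hk s hs
    obtain ⟨d, hd, c, hc, rfl⟩ := mem_comm_mul hr hSK hS hK hk
    rw [commutatorElement_def]
    have h1 := (mem_CK.1 hc).2 s hs
    have h2 : d * c * s * (d * c)⁻¹ * s⁻¹ = d * s * d⁻¹ * s⁻¹ := by
      calc d * c * s * (d * c)⁻¹ * s⁻¹ = d * (c * s) * c⁻¹ * d⁻¹ * s⁻¹ := by group
        _ = d * (s * c) * c⁻¹ * d⁻¹ * s⁻¹ := by rw [h1]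
        _ = d * s * d⁻¹ * s⁻¹ := by group
    rw [h2]
    exact comm_mem hd hs

theorem comm_eq_bot_iff {S K : Subgroup G} : ⁅K, S⁆ = ⊥ ↔ Cen S K := by
  rw [eq_bot_iff, Subgroup.commutator_le]
  constructor
  · intro h s hs k hk
    have h1 := h k hk s hs
    rw [Subgroup.mem_bot, commutatorElement_eq_one_iff_mul_comm] at h1
    exact h1.symm
  · intro h k hk s hs
    rw [Subgroup.mem_bot, commutatorElement_eq_one_iff_mul_comm]
    exact (h s hs k hk).symm

/-- **CA5**: if `S` centralises `N` and `[K, S] ≤ N` then `S` centralises `K`. -/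
theorem cen_of_cen [Finite G] (hr : r.Prime) {S K N : Subgroup G} (hSK : Nrm S K)
    (hS : IsPGroup r S) (hK : ¬ r ∣ Nat.card K) (h1 : ∀ k ∈ K, ∀ s ∈ S, k * s * k⁻¹ * s⁻¹ ∈ N)
    (h2 : Cen S N) : Cen S K := by
  rw [← comm_eq_bot_iff, ← comm_comm hr hSK hS hK, comm_eq_bot_iff]
  intro s hs k hk
  apply h2 s hs
  have h3 : ⁅K, S⁆ ≤ N := by
    rw [Subgroup.commutator_le]
    intro k hk s hs
    rw [commutatorElement_def]
    exact h1 k hk s hs
  exact h3 hk

end Pool.Agent.Lib.MPbe1941.XF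
end

section
/-!
# Coprime action, ambient form, second part

Invariant Sylow subgroups, `[K, S]` is normal, abelian `K`, `r`-length one for abelian Sylow
subgroups.
-/
set_option autoImplicit false

namespace Pool.Agent.Lib.MPbe1941.XF

open Pool.Agent.Lib.MPbe1941
open scoped commutatorElement

variable {G : Type} [Group G] {r : ℕ}

/-- The action by conjugation of `S` on `K`. -/
@[reducible] def conjAct {S K : Subgroup G} (h : Nrm S K) : MulDistribMulAction S K where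
  smul s k := ⟨s.1 * k.1 * s.1⁻¹, h s.1 s.2 k.1 k.2⟩
  one_smul k := Subtype.ext (by
    change (1 : G) * k.1 * (1 : G)⁻¹ = k.1
    simp)
  mul_smul s t k := Subtype.ext (by
    change (s.1 * t.1) * k.1 * (s.1 * t.1)⁻¹ = s.1 * (t.1 * k.1 * t.1⁻¹) * s.1⁻¹
    group)
  smul_one s := Subtype.ext (by
    change s.1 * (1 : G) * s.1⁻¹ = 1
    simp)
  smul_mul s k l := Subtype.ext (by
    change s.1 * (k.1 * l.1) * s.1⁻¹ = (s.1 * k.1 * s.1⁻¹) * (s.1 * l.1 * s.1⁻¹)
    group)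

/-- The powers of an element which maps `S` into `S` normalise `S`. -/
theorem nrm_zpowers [Finite G] {S : Subgroup G} {g : G} (h : ∀ s ∈ S, g * s * g⁻¹ ∈ S) :
    Nrm (Subgroup.zpowers g) S := by
  intro z hz s hs
  rw [← mem_powers_iff_mem_zpowers, Submonoid.mem_powers_iff] at hz
  obtain ⟨n, rfl⟩ := hz
  induction n generalizing s with
  | zero => simpa using hs
  | succ n ih =>
    have h1 : g ^ (n + 1) * s * (g ^ (n + 1))⁻¹ = g ^ n * (g * s * g⁻¹) * (g ^ n)⁻¹ := by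
      rw [pow_succ]
      group
    rw [h1]
    exact ih _ (h s hs)

/-- **CA4**: there is an `S`-invariant Sylow `t`-subgroup of `K`. -/
theorem exists_inv_sylow [Finite G] (hr : r.Prime) {S K : Subgroup G} (hSK : Nrm S K)
    (hS : IsPGroup r S) (hK : ¬ r ∣ Nat.card K) {t : ℕ} (ht : t.Prime) :
    ∃ T : Subgroup G, SylIn t K T ∧ Nrm S T := by
  haveI : Fact r.Prime := ⟨hr⟩
  haveI : Fact t.Prime := ⟨ht⟩
  letI := conjAct hSK
  have h1 : ¬ r ∣ Nat.card (Sylow t K) := by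
    intro h
    apply hK
    refine h.trans ?_
    rw [Sylow.card_eq_index_normalizer (default : Sylow t K)]
    exact Subgroup.index_dvd_card _
  obtain ⟨P, hP⟩ := hS.nonempty_fixed_point_of_prime_not_dvd_card (Sylow t K) h1
  refine ⟨_, CO.SYLM.sylIn_map P, ?_⟩
  intro s hs k hk
  rw [CO.SYLM.mem_map] at hk ⊢
  obtain ⟨hk1, hk2⟩ := hk
  refine ⟨hSK s hs k hk1, ?_⟩
  have h2 := hP ⟨s, hs⟩
  have h3 : (⟨s, hs⟩ : S) • (⟨k, hk1⟩ : K) ∈ (((⟨s, hs⟩ : S) • P : Sylow t K) : Subgroup K) := by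
    rw [Sylow.pointwise_smul_def]
    exact Subgroup.smul_mem_pointwise_smul _ _ _ hk2
  rw [h2] at h3
  exact h3

/-- `S`-invariant Sylow `t`-subgroups of `K` are conjugate under `C_K(S)`. -/
theorem inv_sylow_conj [Finite G] (hr : r.Prime) {S K : Subgroup G} (hSK : Nrm S K)
    (hS : IsPGroup r S) (hK : ¬ r ∣ Nat.card K) {t : ℕ} (ht : t.Prime) {T T' : Subgroup G}
    (hT : SylIn t K T) (hT' : SylIn t K T') (hST : Nrm S T) (hST' : Nrm S T') :
    ∃ c ∈ CK K S, ∀ x, x ∈ T' ↔ c⁻¹ * x * c ∈ T := by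
  obtain ⟨k, hk, hkx⟩ := (CO.specSYL G t ht).2.2.1 _ _ _ hT hT'
  obtain ⟨L, hL⟩ : ∃ L : Subgroup G, L = Subgroup.normalizer (T : Set G) ⊓ K := ⟨_, rfl⟩
  have hLK : L ≤ K := by rw [hL]; exact inf_le_right
  have hmem : ∀ x, x ∈ L ↔ (∀ y, y ∈ T ↔ x * y * x⁻¹ ∈ T) ∧ x ∈ K := by
    intro x
    rw [hL, Subgroup.mem_inf, Subgroup.mem_normalizer_iff]
  have hSL : Nrm S L := by
    intro s hs x hx
    rw [hmem] at hx ⊢
    refine ⟨fun y => ?_, hSK s hs x hx.2⟩
    rw [← hST.conj_iff (S.inv_mem hs) y]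
    rw [← hST.conj_iff (S.inv_mem hs) (s * x * s⁻¹ * y * (s * x * s⁻¹)⁻¹)]
    have h1 : s⁻¹ * (s * x * s⁻¹ * y * (s * x * s⁻¹)⁻¹) * s⁻¹⁻¹
        = x * (s⁻¹ * y * s⁻¹⁻¹) * x⁻¹ := by group
    rw [h1]
    exact hx.1 _
  obtain ⟨n, hn, hc⟩ := fix_lift hr hSK hS hK hLK hSL (K.inv_mem hk) (fun s hs => by
    rw [hmem]
    refine ⟨fun y => ?_, ?_⟩
    · -- `k⁻¹ s k s⁻¹` normalises `T`
      have e1 : ∀ y, y ∈ T ↔ k * y * k⁻¹ ∈ T' := by
        intro y
        rw [hkx]
        have : k⁻¹ * (k * y * k⁻¹) * k = y := by group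
        rw [this]
      have e2 : k⁻¹ * s * k⁻¹⁻¹ * s⁻¹ * y * (k⁻¹ * s * k⁻¹⁻¹ * s⁻¹)⁻¹
          = k⁻¹ * (s * (k * (s⁻¹ * y * s⁻¹⁻¹) * k⁻¹) * s⁻¹) * k := by group
      rw [e2, ← hkx, hST'.conj_iff hs, ← e1, hST.conj_iff (S.inv_mem hs)]
    · have e3 : k⁻¹ * s * k⁻¹⁻¹ * s⁻¹ = k⁻¹ * (s * k * s⁻¹) := by group
      rw [e3]
      exact K.mul_mem (K.inv_mem hk) (hSK s hs k hk))
  refine ⟨(n * k⁻¹)⁻¹, Subgroup.inv_mem _ hc, fun x => ?_⟩
  rw [hkx, ((hmem n).1 hn).1]
  have : (n * k⁻¹)⁻¹⁻¹ * x * (n * k⁻¹)⁻¹ = n * (k⁻¹ * x * k) * n⁻¹ := by group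
  rw [this]

/-! ## Normality of `[K, S]` -/

/-- If `K` and `K S` are normal in `G` then `[K, S]` is normal in `G`. -/
theorem comm_normal [Finite G] (hr : r.Prime) {S K : Subgroup G} (hKn : K.Normal)
    (hS : IsPGroup r S) (hK : ¬ r ∣ Nat.card K) (hKS : (K ⊔ S).Normal) : (⁅K, S⁆).Normal := by
  have key : ∀ g : G, ∀ x ∈ ⁅K, S⁆, g * x * g⁻¹ ∈ ⁅K, S⁆ := by
    intro g
    obtain ⟨n, hn, h1⟩ := conj_of hr (nrm_of_normal (S := S) hKn) hS hK g (fun s hs =>
      hKS.conj_mem s (Subgroup.mem_sup_right hs) g)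
    intro x hx
    have hx' : (n * g) * x * (n * g)⁻¹ ∈ ⁅K, S⁆ := by
      have h2 : Nrm (Subgroup.zpowers (n * g)) S := nrm_zpowers h1
      exact nrm_comm (nrm_of_normal hKn) h2 _ (Subgroup.mem_zpowers _) x hx
    have h3 := (nrm_comm_left S K) n⁻¹ (K.inv_mem hn) _ hx'
    have h4 : n⁻¹ * (n * g * x * (n * g)⁻¹) * n⁻¹⁻¹ = g * x * g⁻¹ := by group
    rwa [h4] at h3
  exact ⟨fun x hx g => key g x hx⟩

/-- If `K` and `K S` are normal in `G` then `[K, S] S` is normal in `G`: it is the normal closure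
of `S`. -/
theorem comm_sup_normal [Finite G] (hr : r.Prime) {S K : Subgroup G} (hKn : K.Normal)
    (hS : IsPGroup r S) (hK : ¬ r ∣ Nat.card K) (hKS : (K ⊔ S).Normal) :
    (⁅K, S⁆ ⊔ S).Normal := by
  have hD := comm_normal hr hKn hS hK hKS
  refine ⟨fun x hx g => ?_⟩
  obtain ⟨d, hd, s, hs, rfl⟩ := (mem_sup (nrm_of_normal (S := S) hD)).1 hx
  have h1 : g * (d * s) * g⁻¹ = (g * d * g⁻¹) * (g * s * g⁻¹) := by group
  rw [h1]
  refine Subgroup.mul_mem _ (Subgroup.mem_sup_left (hD.conj_mem d hd g)) ?_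
  obtain ⟨n, hn, h2⟩ := conj_of hr (nrm_of_normal (S := S) hKn) hS hK g (fun s hs =>
    hKS.conj_mem s (Subgroup.mem_sup_right hs) g)
  have h3 := h2 s hs
  have h4 : g * s * g⁻¹ = (n⁻¹ * ((n * g) * s * (n * g)⁻¹) * n⁻¹⁻¹
      * ((n * g) * s * (n * g)⁻¹)⁻¹) * ((n * g) * s * (n * g)⁻¹) := by group
  rw [h4]
  exact Subgroup.mul_mem _ (Subgroup.mem_sup_left (comm_mem (K.inv_mem hn) h3))
    (Subgroup.mem_sup_right h3)

/-- Every normal subgroup of `K S` which contains `S` contains `[K, S]`. -/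
theorem comm_le_of {S K L : Subgroup G} (hSL : S ≤ L) (hL : Nrm K L) : ⁅K, S⁆ ≤ L := by
  rw [Subgroup.commutator_le]
  intro k hk s hs
  rw [commutatorElement_def]
  exact L.mul_mem (hL k hk s (hSL hs)) (L.inv_mem (hSL hs))

/-! ## Abelian `K` -/

/-- **CA7**: if `K` is abelian then `[K, S]` and `C_K(S)` meet trivially. -/
theorem comm_inf_cen [Finite G] (hr : r.Prime) {S K : Subgroup G} (hSK : Nrm S K)
    (hS : IsPGroup r S) (hK : ¬ r ∣ Nat.card K) (hab : ∀ x ∈ K, ∀ y ∈ K, x * y = y * x) :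
    ⁅K, S⁆ ⊓ CK K S = ⊥ := by
  classical
  haveI := Fintype.ofFinite S
  letI : CommGroup K := { mul_comm := fun x y => Subtype.ext (hab x.1 x.2 y.1 y.2) }
  letI := conjAct hSK
  obtain ⟨N, hN⟩ : ∃ N : K → K, ∀ x, N x = ∏ s : S, s • x := ⟨_, fun _ => rfl⟩
  have hmul : ∀ x y, N (x * y) = N x * N y := by
    intro x y
    rw [hN, hN, hN, ← Finset.prod_mul_distrib]
    exact Finset.prod_congr rfl (fun s _ => smul_mul' s x y)
  have hinv : ∀ x, N x⁻¹ = (N x)⁻¹ := by
    intro x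
    rw [hN, hN, ← Finset.prod_inv_distrib]
    exact Finset.prod_congr rfl (fun s _ => smul_inv' s x)
  have hsm : ∀ (t : S) x, N (t • x) = N x := by
    intro t x
    rw [hN, hN]
    refine Fintype.prod_equiv (Equiv.mulRight t) _ _ (fun s => ?_)
    rw [Equiv.coe_mulRight, mul_smul]
  have hD : ∀ x, ∀ hx : x ∈ K, x ∈ ⁅K, S⁆ → N ⟨x, hx⟩ = 1 := by
    intro x hx hxD
    have h1 : ⁅K, S⁆ ≤ (MonoidHom.ker (MonoidHom.mk' N hmul)).map K.subtype := by
      rw [Subgroup.commutator_le]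
      intro k hk s hs
      have hc : ⁅k, s⁆ ∈ K := comm_le hSK (Subgroup.commutator_mem_commutator hk hs)
      rw [CO.SYLM.mem_map]
      refine ⟨hc, ?_⟩
      rw [MonoidHom.mem_ker]
      change N ⟨⁅k, s⁆, hc⟩ = 1
      have h2 : (⟨⁅k, s⁆, hc⟩ : K) = ⟨k, hk⟩ * ((⟨s, hs⟩ : S) • (⟨k, hk⟩ : K)⁻¹) := by
        apply Subtype.ext
        change ⁅k, s⁆ = k * (s * k⁻¹ * s⁻¹)
        rw [commutatorElement_def]
        group
      rw [h2, hmul, hsm, hinv, mul_inv_cancel]
    have h2 := h1 hxD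
    rw [CO.SYLM.mem_map] at h2
    exact h2.2
  rw [eq_bot_iff]
  intro x hx
  have hxK : x ∈ K := (mem_CK.1 hx.2).1
  have h1 := hD x hxK hx.1
  have h2 : N ⟨x, hxK⟩ = (⟨x, hxK⟩ : K) ^ Nat.card S := by
    rw [hN]
    have h3 : ∀ s : S, s • (⟨x, hxK⟩ : K) = ⟨x, hxK⟩ := by
      intro s
      apply Subtype.ext
      change s.1 * x * s.1⁻¹ = x
      rw [(mem_CK.1 hx.2).2 s.1 s.2]
      group
    rw [Finset.prod_congr rfl (fun s _ => h3 s), Finset.prod_const, Finset.card_univ,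
      Nat.card_eq_fintype_card]
  rw [h1] at h2
  have h4 : orderOf (⟨x, hxK⟩ : K) ∣ Nat.card S := orderOf_dvd_of_pow_eq_one h2.symm
  have h5 : orderOf (⟨x, hxK⟩ : K) ∣ Nat.card K := orderOf_dvd_natCard _
  haveI : Fact r.Prime := ⟨hr⟩
  obtain ⟨n, hn⟩ := IsPGroup.iff_card.1 hS
  have h6 : Nat.Coprime (Nat.card S) (Nat.card K) := by
    rw [hn]
    exact Nat.Coprime.pow_left _ ((Nat.Prime.coprime_iff_not_dvd hr).2 hK)
  have h7 : orderOf (⟨x, hxK⟩ : K) = 1 := Nat.eq_one_of_dvd_coprimes h6 h4 h5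
  rw [orderOf_eq_one_iff] at h7
  rw [Subgroup.mem_bot]
  exact congrArg Subtype.val h7

end Pool.Agent.Lib.MPbe1941.XF
end

section
/-!
# Coprime action of an abelian group, ambient form

`A` is an abelian subgroup of the finite group `G` which normalises `K`, `|A|` and `|K|` are coprime.
The same statements as in `CA.lean` (there `A` is an `r`-group).
-/
set_option autoImplicit false

namespace Pool.Agent.Lib.MPbe1941.XF

open Pool.Agent.Lib.MPbe1941
open scoped commutatorElement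

variable {G : Type} [Group G]

/-- `C_K(A ⊔ B) = C_K(A) ∩ C_K(B)`. -/
theorem mem_CK_sup {K A B : Subgroup G} {x : G} :
    x ∈ CK K (A ⊔ B) ↔ x ∈ CK K A ∧ x ∈ CK K B := by
  rw [mem_CK, mem_CK, mem_CK]
  constructor
  · rintro ⟨h1, h2⟩
    exact ⟨⟨h1, fun s hs => h2 s (Subgroup.mem_sup_left hs)⟩,
      ⟨h1, fun s hs => h2 s (Subgroup.mem_sup_right hs)⟩⟩
  · rintro ⟨⟨h1, h2⟩, ⟨_, h3⟩⟩
    refine ⟨h1, fun s hs => ?_⟩
    refine sup_ind (p := fun s => s * x = x * s) h2 h3 (fun y z hy hz => ?_) hs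
    calc y * z * x = y * (z * x) := by group
      _ = y * (x * z) := by rw [hz]
      _ = (y * x) * z := by group
      _ = (x * y) * z := by rw [hy]
      _ = x * (y * z) := by group

/-- If `B` normalises `K` and centralises `A` then `B` normalises `C_K(A)`. -/
theorem nrm_CK {K A B : Subgroup G} (h : Nrm B K) (hc : ∀ a ∈ A, ∀ b ∈ B, a * b = b * a) :
    Nrm B (CK K A) := by
  intro b hb x hx
  rw [mem_CK] at hx ⊢
  refine ⟨h b hb x hx.1, fun a ha => ?_⟩
  have h1 := hc a ha b hb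
  have h2 := hx.2 a ha
  have h3 : a * b⁻¹ = b⁻¹ * a := by
    calc a * b⁻¹ = b⁻¹ * (b * a) * b⁻¹ := by group
      _ = b⁻¹ * (a * b) * b⁻¹ := by rw [h1]
      _ = b⁻¹ * a := by group
  calc a * (b * x * b⁻¹) = (a * b) * x * b⁻¹ := by group
    _ = b * (a * x) * b⁻¹ := by rw [h1]; group
    _ = b * x * (a * b⁻¹) := by rw [h2]; group
    _ = b * x * b⁻¹ * a := by rw [h3]; group

/-- Fixed points lift, for `A`. -/
def Lifts (A : Subgroup G) : Prop :=
  ∀ K N : Subgroup G, Nat.Coprime (Nat.card A) (Nat.card K) → Nrm A K → N ≤ K → Nrm A N →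
    ∀ k ∈ K, (∀ a ∈ A, k * a * k⁻¹ * a⁻¹ ∈ N) → ∃ n ∈ N, n * k ∈ CK K A

theorem lifts_step [Finite G] {r : ℕ} (hr : r.Prime) {A S : Subgroup G} (hA : Lifts A)
    (hS : IsPGroup r S) (hAS : ∀ a ∈ A, ∀ s ∈ S, a * s = s * a) : Lifts (A ⊔ S) := by
  intro K N hco hK hNK hN k hk h
  haveI : Fact r.Prime := ⟨hr⟩
  have hcA : Nat.Coprime (Nat.card A) (Nat.card K) :=
    Nat.Coprime.coprime_dvd_left (Subgroup.card_dvd_of_le le_sup_left) hco
  have hcS : Nat.Coprime (Nat.card S) (Nat.card K) :=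
    Nat.Coprime.coprime_dvd_left (Subgroup.card_dvd_of_le le_sup_right) hco
  obtain ⟨n, hn, hnk⟩ := hA K N hcA (hK.mono le_sup_left) hNK (hN.mono le_sup_left) k hk
    (fun a ha => h a (Subgroup.mem_sup_left ha))
  have hSK := hK.mono (le_sup_right : S ≤ A ⊔ S)
  have hSN := hN.mono (le_sup_right : S ≤ A ⊔ S)
  have hS1 : Nrm S (CK K A) := nrm_CK hSK hAS
  have hS2 : Nrm S (CK K A ⊓ N) := hS1.inf hSN
  -- `S` may be trivial
  by_cases hrK : r ∣ Nat.card K
  · have hS0 : S = ⊥ := by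
      obtain ⟨j, hj⟩ := IsPGroup.iff_card.1 hS
      rcases Nat.eq_zero_or_pos j with h0 | h0
      · rw [h0, pow_zero] at hj
        exact Subgroup.card_eq_one.1 hj
      · exfalso
        have h1 : r ∣ Nat.card S := by rw [hj]; exact dvd_pow_self r h0.ne'
        have h2 := Nat.dvd_gcd h1 hrK
        rw [hcS, Nat.dvd_one] at h2
        exact hr.one_lt.ne' h2
    refine ⟨n, hn, ?_⟩
    rw [hS0, sup_bot_eq]
    exact hnk
  · have hr1 : ¬ r ∣ Nat.card (CK K A) := fun hd =>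
      hrK (hd.trans (Subgroup.card_dvd_of_le inf_le_left))
    obtain ⟨m, hm, hmk⟩ := fix_lift hr hS1 hS hr1 (inf_le_left : CK K A ⊓ N ≤ CK K A) hS2 hnk
      (fun s hs => by
        refine ⟨?_, ?_⟩
        · have e : n * k * s * (n * k)⁻¹ * s⁻¹ = (n * k) * (s * (n * k)⁻¹ * s⁻¹) := by group
          rw [e]
          exact Subgroup.mul_mem _ hnk (hS1 s hs _ (Subgroup.inv_mem _ hnk))
        · have e : n * k * s * (n * k)⁻¹ * s⁻¹
              = n * (k * s * k⁻¹ * s⁻¹) * (s * n⁻¹ * s⁻¹) := by group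
          rw [e]
          exact N.mul_mem (N.mul_mem hn (h s (Subgroup.mem_sup_right hs)))
            (hSN s hs _ (N.inv_mem hn)))
    refine ⟨m * n, N.mul_mem hm.2 hn, ?_⟩
    have e : m * n * k = m * (n * k) := by group
    rw [e, mem_CK_sup]
    refine ⟨(mem_CK.1 hmk).1, ?_⟩
    rw [mem_CK]
    exact ⟨(mem_CK.1 (mem_CK.1 hmk).1).1, (mem_CK.1 hmk).2⟩

/-- Every finite group is generated by its elements of prime power order. -/
theorem closure_primePow [Finite G] (A : Subgroup G) :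
    Subgroup.closure {a : G | a ∈ A ∧ ∃ r : ℕ, r.Prime ∧ IsPGroup r (Subgroup.zpowers a)} = A := by
  obtain ⟨M, hM⟩ : ∃ M : Subgroup G, M = Subgroup.closure
      {a : G | a ∈ A ∧ ∃ r : ℕ, r.Prime ∧ IsPGroup r (Subgroup.zpowers a)} := ⟨_, rfl⟩
  rw [← hM]
  have hMA : M ≤ A := by
    rw [hM, Subgroup.closure_le]
    exact fun a ha => ha.1
  apply le_antisymm hMA
  rw [← Subgroup.relIndex_eq_one, Nat.eq_one_iff_not_exists_prime_dvd]
  intro q hq hqd
  obtain ⟨Q, hQ⟩ := (CO.specSYL G q hq).1 A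
  have hQM : Q ≤ M := by
    intro x hx
    rw [hM]
    apply Subgroup.subset_closure
    refine ⟨hQ.1 hx, q, hq, ?_⟩
    exact hQ.2.1.to_le (Subgroup.zpowers_le.2 hx)
  apply hQ.2.2
  exact hqd.trans (Subgroup.relIndex_dvd_of_le_left A hQM)

theorem lifts_bot : Lifts (⊥ : Subgroup G) := by
  intro K N _ _ _ _ k hk _
  refine ⟨1, N.one_mem, ?_⟩
  rw [one_mul, mem_CK]
  refine ⟨hk, fun s hs => ?_⟩
  rw [Subgroup.mem_bot] at hs
  rw [hs, one_mul, mul_one]

/-- **CA1** for an abelian group `A`. -/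
theorem lifts_of_abelian [Finite G] {A : Subgroup G} (hA : ∀ x ∈ A, ∀ y ∈ A, x * y = y * x) :
    Lifts A := by
  classical
  have hfin : ({a : G | a ∈ A ∧ ∃ r : ℕ, r.Prime ∧ IsPGroup r (Subgroup.zpowers a)}).Finite :=
    Set.toFinite _
  have key : ∀ F : Finset G, (∀ a ∈ F, a ∈ A ∧ ∃ r : ℕ, r.Prime ∧
      IsPGroup r (Subgroup.zpowers a)) → Lifts (Subgroup.closure (F : Set G)) := by
    intro F
    induction F using Finset.induction_on with
    | empty =>
      intro _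
      rw [Finset.coe_empty, Subgroup.closure_empty]
      exact lifts_bot
    | insert a F _ ih =>
      intro h
      rw [Finset.coe_insert, ← Set.union_singleton, Subgroup.closure_union,
        ← Subgroup.zpowers_eq_closure]
      obtain ⟨ha, r, hr, har⟩ := h a (Finset.mem_insert_self _ _)
      refine lifts_step hr (ih (fun b hb => h b (Finset.mem_insert_of_mem hb))) har ?_
      intro b hb s hs
      have hbA : b ∈ A := by
        have h1 : Subgroup.closure (F : Set G) ≤ A := by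
          rw [Subgroup.closure_le]
          intro x hx
          exact (h x (Finset.mem_insert_of_mem hx)).1
        exact h1 hb
      exact hA b hbA s ((Subgroup.zpowers_le.2 ha) hs)
  have h1 := key hfin.toFinset (fun a ha => by
    rw [Set.Finite.mem_toFinset] at ha
    exact ha)
  rwa [Set.Finite.coe_toFinset, closure_primePow] at h1

/-- **CA2** for abelian `A`: `K = [K, A] C_K(A)`. -/
theorem mem_comm_mul_ab [Finite G] {A K : Subgroup G} (hA : ∀ x ∈ A, ∀ y ∈ A, x * y = y * x)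
    (hAK : Nrm A K) (hco : Nat.Coprime (Nat.card A) (Nat.card K)) {k : G} (hk : k ∈ K) :
    ∃ d ∈ ⁅K, A⁆, ∃ c ∈ CK K A, d * c = k := by
  obtain ⟨n, hn, h1⟩ := lifts_of_abelian hA K ⁅K, A⁆ hco hAK (comm_le hAK) (nrm_comm_right hAK)
    k hk (fun s hs => comm_mem hk hs)
  exact ⟨n⁻¹, Subgroup.inv_mem _ hn, n * k, h1, by group⟩

theorem comm_sup_CK_ab [Finite G] {A K : Subgroup G} (hA : ∀ x ∈ A, ∀ y ∈ A, x * y = y * x)
    (hAK : Nrm A K) (hco : Nat.Coprime (Nat.card A) (Nat.card K)) : ⁅K, A⁆ ⊔ CK K A = K := by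
  apply le_antisymm
  · exact sup_le (comm_le hAK) inf_le_left
  · intro k hk
    obtain ⟨d, hd, c, hc, rfl⟩ := mem_comm_mul_ab hA hAK hco hk
    exact Subgroup.mul_mem _ (Subgroup.mem_sup_left hd) (Subgroup.mem_sup_right hc)

/-- **CA3** for abelian `A`: `[[K, A], A] = [K, A]`. -/
theorem comm_comm_ab [Finite G] {A K : Subgroup G} (hA : ∀ x ∈ A, ∀ y ∈ A, x * y = y * x)
    (hAK : Nrm A K) (hco : Nat.Coprime (Nat.card A) (Nat.card K)) : ⁅⁅K, A⁆, A⁆ = ⁅K, A⁆ := by
  apply le_antisymm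
  · exact comm_le (nrm_comm_right hAK)
  · rw [Subgroup.commutator_le]
    intro k hk s hs
    obtain ⟨d, hd, c, hc, rfl⟩ := mem_comm_mul_ab hA hAK hco hk
    rw [commutatorElement_def]
    have h1 := (mem_CK.1 hc).2 s hs
    have h2 : d * c * s * (d * c)⁻¹ * s⁻¹ = d * s * d⁻¹ * s⁻¹ := by
      calc d * c * s * (d * c)⁻¹ * s⁻¹ = d * (c * s) * c⁻¹ * d⁻¹ * s⁻¹ := by group
        _ = d * (s * c) * c⁻¹ * d⁻¹ * s⁻¹ := by rw [h1]
        _ = d * s * d⁻¹ * s⁻¹ := by group
    rw [h2]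
    exact comm_mem hd hs

/-- **CA5** for abelian `A`. -/
theorem cen_of_cen_ab [Finite G] {A K N : Subgroup G} (hA : ∀ x ∈ A, ∀ y ∈ A, x * y = y * x)
    (hAK : Nrm A K) (hco : Nat.Coprime (Nat.card A) (Nat.card K))
    (h1 : ∀ k ∈ K, ∀ s ∈ A, k * s * k⁻¹ * s⁻¹ ∈ N) (h2 : Cen A N) : Cen A K := by
  rw [← comm_eq_bot_iff, ← comm_comm_ab hA hAK hco, comm_eq_bot_iff]
  intro s hs k hk
  apply h2 s hs
  have h3 : ⁅K, A⁆ ≤ N := by
    rw [Subgroup.commutator_le]
    intro k hk s hs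
    rw [commutatorElement_def]
    exact h1 k hk s hs
  exact h3 hk

/-- **CA7** for an arbitrary coprime group `A`: if `K` is abelian then `[K, A]` and `C_K(A)` meet
trivially. -/
theorem comm_inf_cen_cop [Finite G] {A K : Subgroup G} (hAK : Nrm A K)
    (hco : Nat.Coprime (Nat.card A) (Nat.card K)) (hab : ∀ x ∈ K, ∀ y ∈ K, x * y = y * x) :
    ⁅K, A⁆ ⊓ CK K A = ⊥ := by
  classical
  haveI := Fintype.ofFinite A
  letI : CommGroup K := { mul_comm := fun x y => Subtype.ext (hab x.1 x.2 y.1 y.2) }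
  letI := conjAct hAK
  obtain ⟨N, hN⟩ : ∃ N : K → K, ∀ x, N x = ∏ s : A, s • x := ⟨_, fun _ => rfl⟩
  have hmul : ∀ x y, N (x * y) = N x * N y := by
    intro x y
    rw [hN, hN, hN, ← Finset.prod_mul_distrib]
    exact Finset.prod_congr rfl (fun s _ => smul_mul' s x y)
  have hinv : ∀ x, N x⁻¹ = (N x)⁻¹ := by
    intro x
    rw [hN, hN, ← Finset.prod_inv_distrib]
    exact Finset.prod_congr rfl (fun s _ => smul_inv' s x)
  have hsm : ∀ (t : A) x, N (t • x) = N x := by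
    intro t x
    rw [hN, hN]
    refine Fintype.prod_equiv (Equiv.mulRight t) _ _ (fun s => ?_)
    rw [Equiv.coe_mulRight, mul_smul]
  have hD : ∀ x, ∀ hx : x ∈ K, x ∈ ⁅K, A⁆ → N ⟨x, hx⟩ = 1 := by
    intro x hx hxD
    have h1 : ⁅K, A⁆ ≤ (MonoidHom.ker (MonoidHom.mk' N hmul)).map K.subtype := by
      rw [Subgroup.commutator_le]
      intro k hk s hs
      have hc : ⁅k, s⁆ ∈ K := comm_le hAK (Subgroup.commutator_mem_commutator hk hs)
      rw [CO.SYLM.mem_map]
      refine ⟨hc, ?_⟩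
      rw [MonoidHom.mem_ker]
      change N ⟨⁅k, s⁆, hc⟩ = 1
      have h2 : (⟨⁅k, s⁆, hc⟩ : K) = ⟨k, hk⟩ * ((⟨s, hs⟩ : A) • (⟨k, hk⟩ : K)⁻¹) := by
        apply Subtype.ext
        change ⁅k, s⁆ = k * (s * k⁻¹ * s⁻¹)
        rw [commutatorElement_def]
        group
      rw [h2, hmul, hsm, hinv, mul_inv_cancel]
    have h2 := h1 hxD
    rw [CO.SYLM.mem_map] at h2
    exact h2.2
  rw [eq_bot_iff]
  intro x hx
  have hxK : x ∈ K := (mem_CK.1 hx.2).1
  have h1 := hD x hxK hx.1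
  have h2 : N ⟨x, hxK⟩ = (⟨x, hxK⟩ : K) ^ Nat.card A := by
    rw [hN]
    have h3 : ∀ s : A, s • (⟨x, hxK⟩ : K) = ⟨x, hxK⟩ := by
      intro s
      apply Subtype.ext
      change s.1 * x * s.1⁻¹ = x
      rw [(mem_CK.1 hx.2).2 s.1 s.2]
      group
    rw [Finset.prod_congr rfl (fun s _ => h3 s), Finset.prod_const, Finset.card_univ,
      Nat.card_eq_fintype_card]
  rw [h1] at h2
  have h4 : orderOf (⟨x, hxK⟩ : K) ∣ Nat.card A := orderOf_dvd_of_pow_eq_one h2.symm
  have h5 : orderOf (⟨x, hxK⟩ : K) ∣ Nat.card K := orderOf_dvd_natCard _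
  have h7 : orderOf (⟨x, hxK⟩ : K) = 1 := Nat.eq_one_of_dvd_coprimes hco h4 h5
  rw [orderOf_eq_one_iff] at h7
  rw [Subgroup.mem_bot]
  exact congrArg Subtype.val h7

end Pool.Agent.Lib.MPbe1941.XF
end

section
/-!
# MP_be1941_al (exact bound), module CEN

`S` an `r`-group normalising the solvable `r'`-group `D = [D, S]`, `t` a prime: if every
`S`-invariant `t`-subgroup of `D` is centralised by `S` then `t` does not divide `|D|`.
-/
set_option autoImplicit false

namespace Pool.Agent.Lib.MPbe1941.X.CEN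

open Pool.Agent.Lib.MPbe1941 Pool.Agent.Lib.MPbe1941.XF
open scoped commutatorElement Pointwise

/-- The central case: all `t`-elements of `D` are central in `D` and centralised by `S`. -/
theorem central_case {G : Type} [Group G] [Finite G] {t : ℕ} (ht : t.Prime) {S D N : Subgroup G}
    (hcomm : ⁅D, S⁆ = D) (hN : IsPGroup t N) (hidx : ¬ t ∣ N.relIndex D)
    (hcS : ∀ s ∈ S, ∀ z ∈ N, s * z = z * s) (hcD : ∀ d ∈ D, ∀ z ∈ N, d * z = z * d) :
    ¬ t ∣ Nat.card D := by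
  intro htD
  have hFt : Fact t.Prime := ⟨ht⟩
  -- the centre of `D`
  obtain ⟨c, hc⟩ : ∃ c, c = (Subgroup.center D).index := ⟨_, rfl⟩
  obtain ⟨n, hn⟩ : ∃ n, n = Nat.card (Subgroup.center D) := ⟨_, rfl⟩
  have hNc : N.subgroupOf D ≤ Subgroup.center D := by
    intro z hz
    rw [Subgroup.mem_center_iff]
    intro d
    apply Subtype.ext
    exact hcD d d.2 z hz
  have hcn : ¬ t ∣ c := by
    intro h
    apply hidx
    rw [hc] at h
    exact h.trans (Subgroup.index_dvd_of_le hNc)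
  -- `n = |N| n'`
  obtain ⟨n', hn'⟩ : Nat.card (N.subgroupOf D) ∣ n := by
    rw [hn]
    exact Subgroup.card_dvd_of_le hNc
  have hn't : ¬ t ∣ n' := by
    intro h
    apply hidx
    have h1 : (N.subgroupOf D).index = n' * c := by
      have h2 := Subgroup.card_mul_index (N.subgroupOf D)
      have h3 := Subgroup.card_mul_index (Subgroup.center D)
      rw [← hc, ← hn, hn', ← h2, mul_assoc] at h3
      exact (mul_left_cancel₀ (Nat.card_pos.ne') h3).symm
    rw [Subgroup.relIndex, h1]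
    exact h.mul_right c
  obtain ⟨M, hM⟩ : ∃ M, M = c * n' := ⟨_, rfl⟩
  have hMt : ¬ t ∣ M := by
    rw [hM, ht.dvd_mul]
    tauto
  -- `x ↦ x ^ c` is a homomorphism of `D` into its centre
  have hpow : ∀ x : D, x ^ c ∈ Subgroup.center D := by
    intro x
    have := (MonoidHom.transferCenterPow D x).2
    rw [MonoidHom.transferCenterPow_apply, ← hc] at this
    exact this
  have hmul : ∀ x y : D, (x * y) ^ c = x ^ c * y ^ c := by
    intro x y
    have h1 := congrArg Subtype.val ((MonoidHom.transferCenterPow D).map_mul x y)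
    rw [Subgroup.coe_mul, MonoidHom.transferCenterPow_apply, MonoidHom.transferCenterPow_apply,
      MonoidHom.transferCenterPow_apply, ← hc] at h1
    exact h1
  have hmulM : ∀ x y : D, (x * y) ^ M = x ^ M * y ^ M := by
    intro x y
    rw [hM, pow_mul, pow_mul, pow_mul, hmul]
    exact (show Commute (x ^ c) (y ^ c) from
      ((Subgroup.mem_center_iff.1 (hpow x)) (y ^ c)).symm).mul_pow n'
  -- `x ^ M ∈ N`
  have hMN : ∀ x : D, ((x ^ M : D) : G) ∈ N := by
    intro x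
    have h1 : (x ^ M) ^ Nat.card (N.subgroupOf D) = 1 := by
      rw [hM, pow_mul, ← pow_mul, mul_comm n', ← hn', hn]
      have h2 := pow_card_eq_one' (x := (⟨x ^ c, hpow x⟩ : Subgroup.center D))
      exact congrArg Subtype.val h2
    -- `x ^ M` is a `t`-element; `N` is the Sylow `t`-subgroup
    have hNp : IsPGroup t (N.subgroupOf D) := hN.comap_subtype
    obtain ⟨k, hk⟩ := hNp.exists_card_eq
    have hnorm : (N.subgroupOf D).Normal := by
      constructor
      intro z hz d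
      have h3 := (Subgroup.mem_center_iff.1 (hNc hz)) d
      rw [h3, mul_assoc, mul_inv_cancel, mul_one]
      exact hz
    let Q : Sylow t D := hNp.toSylow hidx
    have hQ : (Q : Subgroup D) = N.subgroupOf D := IsPGroup.toSylow_coe _ _
    have hz : IsPGroup t (Subgroup.zpowers (x ^ M)) := by
      apply IsPGroup.of_card (n := Nat.factorization (orderOf (x ^ M)) t)
      rw [Nat.card_zpowers]
      have h4 : orderOf (x ^ M) ∣ t ^ k := by
        rw [← hk]
        exact orderOf_dvd_of_pow_eq_one h1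
      obtain ⟨j, _, hj⟩ := (Nat.dvd_prime_pow ht).1 h4
      rw [hj, Nat.Prime.factorization_pow ht, Finsupp.single_eq_same]
    obtain ⟨P, hP⟩ := hz.exists_le_sylow
    have hPQ : P = Q := by
      obtain ⟨g, hg⟩ := MulAction.exists_smul_eq D P Q
      have h5 : (g⁻¹ • Q : Sylow t D) = Q := by
        apply Sylow.ext
        rw [Sylow.coe_subgroup_smul, hQ]
        exact Subgroup.Normal.conj_smul_eq_self g⁻¹ (N.subgroupOf D)
      rw [← hg, inv_smul_smul] at h5
      rw [h5, hg]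
    have h6 : x ^ M ∈ (P : Subgroup D) := hP (Subgroup.mem_zpowers _)
    rw [hPQ, hQ] at h6
    exact h6
  -- the kernel
  have hker : ∀ x ∈ D, x ^ M = 1 := by
    let K : Subgroup D := MonoidHom.ker
      (MonoidHom.mk' (fun x : D => x ^ M) hmulM)
    have hK : ∀ x : D, x ∈ K ↔ x ^ M = 1 := fun x => Iff.rfl
    have h1 : ⁅D, S⁆ ≤ K.map D.subtype := by
      rw [Subgroup.commutator_le]
      intro x hx s hs
      have h2 : s * x⁻¹ * s⁻¹ ∈ D := by
        have h3 : x⁻¹ * ⁅x, s⁆ ∈ D := by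
          apply D.mul_mem (D.inv_mem hx)
          have := Subgroup.commutator_mem_commutator hx hs
          rwa [hcomm] at this
        have h4 : s * x⁻¹ * s⁻¹ = x⁻¹ * ⁅x, s⁆ := by
          rw [commutatorElement_def]; group
        rwa [h4]
      refine ⟨⟨x, hx⟩ * ⟨s * x⁻¹ * s⁻¹, h2⟩, ?_, ?_⟩
      · change _ ∈ K
        rw [hK, hmulM]
        apply Subtype.ext
        change x ^ M * (s * x⁻¹ * s⁻¹) ^ M = 1
        rw [conj_pow, inv_pow]
        have h5 : x ^ M ∈ N := hMN ⟨x, hx⟩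
        have h6 := hcS s hs _ (N.inv_mem h5)
        rw [h6]
        group
      · change x * (s * x⁻¹ * s⁻¹) = ⁅x, s⁆
        rw [commutatorElement_def]
        group
    rw [hcomm] at h1
    intro x hx
    obtain ⟨y, hy, hyx⟩ := h1 hx
    have h2 := (hK y).1 hy
    rw [← hyx]
    exact congrArg Subtype.val h2
  -- an element of order `t`
  obtain ⟨z, hz⟩ := exists_prime_orderOf_dvd_card' t htD
  have h1 : z ^ M = 1 := Subtype.ext (hker z z.2)
  have h2 := orderOf_dvd_of_pow_eq_one h1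
  rw [hz] at h2
  exact hMt h2

/-- A nontrivial solvable normal subgroup contains a nontrivial abelian normal subgroup. -/
theorem exists_abelian_normal {G : Type} [Group G] {D : Subgroup G} (hD : D.Normal)
    (hs : Group.IsSolvable D) (hne : D ≠ ⊥) :
    ∃ N ≤ D, N ≠ ⊥ ∧ N.Normal ∧ ∀ x ∈ N, ∀ y ∈ N, x * y = y * x := by
  classical
  obtain ⟨m, hm, hmin⟩ : ∃ m, derivedSeries D m = ⊥ ∧ ∀ k < m, derivedSeries D k ≠ ⊥ :=
    ⟨Nat.find hs.solvable, Nat.find_spec hs.solvable, fun k hk => Nat.find_min hs.solvable hk⟩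
  cases m with
  | zero =>
    exfalso
    rw [derivedSeries_zero] at hm
    apply hne
    rw [eq_bot_iff]
    intro x hx
    have h1 : (⟨x, hx⟩ : D) ∈ (⊤ : Subgroup D) := Subgroup.mem_top _
    rw [hm, Subgroup.mem_bot] at h1
    rw [Subgroup.mem_bot]
    exact congrArg Subtype.val h1
  | succ k =>
    have h1 := hmin k (Nat.lt_succ_self k)
    rw [derivedSeries_succ] at hm
    refine ⟨(derivedSeries D k).map D.subtype, Subgroup.map_subtype_le _, ?_, ?_, ?_⟩
    · intro h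
      apply h1
      rwa [Subgroup.map_eq_bot_iff_of_injective _ D.subtype_injective] at h
    · exact ConjAct.normal_of_characteristic_of_normal
    · rintro _ ⟨x, hx, rfl⟩ _ ⟨y, hy, rfl⟩
      have h2 := Subgroup.commutator_mem_commutator hx hy
      rw [hm, Subgroup.mem_bot, commutatorElement_eq_one_iff_mul_comm] at h2
      exact congrArg Subtype.val h2

/-- A Sylow subgroup is mapped to a Sylow subgroup of the image. -/
theorem syl_map {G G' : Type} [Group G] [Group G'] {t : ℕ} (f : G →* G') {D T : Subgroup G}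
    (h : SylIn t D T) : SylIn t (D.map f) (T.map f) := by
  refine ⟨Subgroup.map_mono h.1, h.2.1.map f, ?_⟩
  intro hd
  apply h.2.2
  rw [Subgroup.relIndex_map_map] at hd
  have h1 : (T ⊔ f.ker).relIndex (D ⊔ f.ker) ∣ T.relIndex D := by
    have h2 : (T ⊔ f.ker).relIndex (D ⊔ f.ker) = (T ⊔ f.ker).relIndex D := by
      have h3 : D ⊔ f.ker = D ⊔ (T ⊔ f.ker) := by
        rw [← sup_assoc, sup_eq_left.2 h.1]
      rw [h3]
      have h4 : ∀ x ∈ D ⊔ (T ⊔ f.ker), ∃ d ∈ D, ∃ k ∈ T ⊔ f.ker, d * k = x := by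
        intro x hx
        rw [← h3] at hx
        obtain ⟨d, hd, k, hk, rfl⟩ := Subgroup.mem_sup_of_normal_right.1 hx
        exact ⟨d, hd, k, Subgroup.mem_sup_right hk, rfl⟩
      rw [Subgroup.relIndex, Subgroup.relIndex, Subgroup.index, Subgroup.index]
      symm
      refine Nat.card_congr (Equiv.ofBijective (Quotient.map' (fun d : D =>
        (⟨d, Subgroup.mem_sup_left d.2⟩ : (D ⊔ (T ⊔ f.ker) : Subgroup G))) ?_) ⟨?_, ?_⟩)
      · intro a b hab
        rw [QuotientGroup.leftRel_apply] at hab ⊢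
        exact hab
      · intro a b
        refine Quotient.inductionOn₂' a b fun a b => ?_
        intro hab
        rw [Quotient.map'_mk'', Quotient.map'_mk'', Quotient.eq'', QuotientGroup.leftRel_apply] at hab
        rw [Quotient.eq'', QuotientGroup.leftRel_apply]
        exact hab
      · intro x
        refine Quotient.inductionOn' x fun x => ?_
        obtain ⟨d, hd, k, hk, hdk⟩ := h4 x x.2
        refine ⟨Quotient.mk'' ⟨d, hd⟩, ?_⟩
        rw [Quotient.map'_mk'', Quotient.eq'', QuotientGroup.leftRel_apply,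
          Subgroup.mem_subgroupOf]
        change d⁻¹ * (x : G) ∈ T ⊔ f.ker
        rw [← hdk, inv_mul_cancel_left]
        exact hk
    rw [h2]
    exact Subgroup.relIndex_dvd_of_le_left D le_sup_left
  exact hd.trans h1

/-- A normal `t`-subgroup of `G` contained in `D` is in every Sylow `t`-subgroup of `D`. -/
theorem le_syl {G : Type} [Group G] [Finite G] {t : ℕ} (ht : t.Prime) {D T N : Subgroup G}
    (hT : SylIn t D T) (hN : N.Normal) (hND : N ≤ D) (hNp : IsPGroup t N) : N ≤ T := by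
  have hFt : Fact t.Prime := ⟨ht⟩
  have h1 : IsPGroup t (N ⊔ T : Subgroup G) := hNp.to_sup_of_normal_left hT.2.1
  have h2 : N ⊔ T ≤ T := by
    rw [← Subgroup.relIndex_eq_one]
    have h3 : T.relIndex (N ⊔ T) ∣ T.relIndex D := by
      rw [← Subgroup.relIndex_mul_relIndex T (N ⊔ T) D le_sup_right (sup_le hND hT.1)]
      exact Dvd.intro _ rfl
    have h4 : T.relIndex (N ⊔ T) ∣ Nat.card (N ⊔ T : Subgroup G) :=
      Subgroup.relIndex_dvd_card T (N ⊔ T)
    obtain ⟨k, hk⟩ := h1.exists_card_eq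
    rw [hk] at h4
    obtain ⟨j, _, hj⟩ := (Nat.dvd_prime_pow ht).1 h4
    rcases Nat.eq_zero_or_pos j with h5 | h5
    · rw [hj, h5, pow_zero]
    · exfalso
      apply hT.2.2
      refine dvd_trans ?_ h3
      rw [hj]
      exact dvd_pow_self t h5.ne'
  exact le_sup_left.trans h2

theorem cen_normal {r t : ℕ} (ht : t.Prime) : ∀ n : ℕ, ∀ (G : Type) [Group G]
    [Finite G] (S D T : Subgroup G), Nat.card D ≤ n → D.Normal → IsPGroup r S →
    ¬ r ∣ Nat.card D → Group.IsSolvable D → ⁅D, S⁆ = D → SylIn t D T → Cen S T →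
    ¬ t ∣ Nat.card D := by
  intro n
  induction n with
  | zero =>
    intro G _ _ S D T h
    exact absurd h (by have := Nat.card_pos (α := D); omega)
  | succ n ih =>
    intro G _ _ S D T hn hDn hS hrD hsol hcomm hT hcen
    have hFt : Fact t.Prime := ⟨ht⟩
    by_cases hD0 : D = ⊥
    · rw [hD0, Subgroup.card_bot]
      exact fun h => ht.one_lt.ne' (Nat.dvd_one.1 h)
    obtain ⟨N, hND, hN0, hNn, hNab⟩ := exists_abelian_normal hDn hsol hD0
    have hkerN : (QuotientGroup.mk' N).ker = N := QuotientGroup.ker_mk' N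
    have hcard : ∀ K : Subgroup G, Nat.card (K.map (QuotientGroup.mk' N)) = N.relIndex K := by
      intro K
      rw [← Subgroup.relIndex_ker, hkerN]
    have hcardD : Nat.card N * N.relIndex D = Nat.card D := by
      have := Subgroup.relIndex_mul_relIndex ⊥ N D bot_le hND
      rwa [Subgroup.relIndex_bot_left, Subgroup.relIndex_bot_left] at this
    have hN1 : 1 < Nat.card N := by
      have h1 := Nat.card_pos (α := N)
      have h2 : Nat.card N ≠ 1 := fun h => hN0 (Subgroup.card_eq_one.1 h)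
      omega
    have hrel0 : 0 < N.relIndex D := by
      rw [← hcard]; exact Nat.card_pos
    -- the quotient
    have hquot : ¬ t ∣ N.relIndex D := by
      rw [← hcard]
      apply ih (G ⧸ N) (S.map (QuotientGroup.mk' N)) (D.map (QuotientGroup.mk' N))
        (T.map (QuotientGroup.mk' N))
      · rw [hcard]
        nlinarith
      · exact hDn.map _ (QuotientGroup.mk'_surjective N)
      · exact hS.map _
      · rw [hcard]
        intro h
        exact hrD (h.trans (hcardD ▸ Dvd.intro_left _ rfl))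
      · have := hsol
        exact Group.isSolvable_of_surjective ((QuotientGroup.mk' N).subgroupMap_surjective D)
      · rw [← Subgroup.map_commutator, hcomm]
      · exact syl_map _ hT
      · rintro _ ⟨s, hs, rfl⟩ _ ⟨k, hk, rfl⟩
        rw [← map_mul, ← map_mul, hcen s hs k hk]
    -- the `t`-part of `N`
    obtain ⟨R, hR⟩ := (CO.specSYL G t ht).1 N
    let Nt : Subgroup G :=
      { carrier := {x | x ∈ N ∧ ∃ k : ℕ, x ^ t ^ k = 1}
        mul_mem' := by
          rintro a b ⟨ha, k, hk⟩ ⟨hb, j, hj⟩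
          refine ⟨N.mul_mem ha hb, k + j, ?_⟩
          have h1 : (a * b) ^ t ^ (k + j) = a ^ t ^ (k + j) * b ^ t ^ (k + j) :=
            (show Commute a b from hNab a ha b hb).mul_pow _
          rw [h1, pow_add, pow_mul, hk, one_pow, one_mul, mul_comm (t ^ k), pow_mul, hj, one_pow]
        one_mem' := ⟨N.one_mem, 0, by simp⟩
        inv_mem' := by
          rintro a ⟨ha, k, hk⟩
          exact ⟨N.inv_mem ha, k, by rw [inv_pow, hk, inv_one]⟩ }
    have hNtN : Nt ≤ N := fun x hx => hx.1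
    have hNtp : IsPGroup t Nt := by
      rintro ⟨x, hx, k, hk⟩
      exact ⟨k, Subtype.ext hk⟩
    have hNtn : Nt.Normal := by
      constructor
      rintro x ⟨hx, k, hk⟩ g
      exact ⟨hNn.conj_mem x hx g, k, by rw [conj_pow, hk]; group⟩
    have hRNt : R ≤ Nt := by
      intro x hx
      obtain ⟨k, hk⟩ := hR.2.1 ⟨x, hx⟩
      exact ⟨hR.1 hx, k, congrArg Subtype.val hk⟩
    have hidx : ¬ t ∣ Nt.relIndex D := by
      rw [← Subgroup.relIndex_mul_relIndex Nt N D hNtN hND, ht.dvd_mul]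
      rintro (h | h)
      · exact hR.2.2 (h.trans (Subgroup.relIndex_dvd_of_le_left N hRNt))
      · exact hquot h
    have hNtT : Nt ≤ T := le_syl ht hT hNtn (hNtN.trans hND) hNtp
    have hcS : Cen S Nt := fun s hs z hz => hcen s hs z (hNtT hz)
    have hSC : S ≤ Subgroup.centralizer (Nt : Set G) := by
      intro s hs
      rw [Subgroup.mem_centralizer_iff]
      intro z hz
      exact (hcS s hs z hz).symm
    have hDC : D ≤ Subgroup.centralizer (Nt : Set G) := by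
      have hCn : (Subgroup.centralizer (Nt : Set G)).Normal := inferInstance
      calc D = ⁅D, S⁆ := hcomm.symm
        _ ≤ ⁅D, Subgroup.centralizer (Nt : Set G)⁆ := Subgroup.commutator_mono le_rfl hSC
        _ ≤ Subgroup.centralizer (Nt : Set G) := Subgroup.commutator_le_right _ _
    exact central_case ht hcomm hNtp hidx hcS
      (fun d hd z hz => ((Subgroup.mem_centralizer_iff.1 (hDC hd)) z hz).symm)

/-- **CEN**, for `M = 1`: `S` an `r`-group normalising the solvable `r'`-group `D = [D, S]`; if a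
Sylow `t`-subgroup of `D` is centralised by `S` then `t` does not divide `|D|`. -/
theorem cen_syl {G : Type} [Group G] [Finite G] {r t : ℕ} (ht : t.Prime)
    {S D T : Subgroup G} (hSD : Nrm S D) (hS : IsPGroup r S) (hD : ¬ r ∣ Nat.card D)
    (hsol : Group.IsSolvable D) (hcomm : ⁅D, S⁆ = D) (hT : SylIn t D T)
    (hcen : Cen S T) : ¬ t ∣ Nat.card D := by
  obtain ⟨L, hL⟩ : ∃ L, L = D ⊔ S := ⟨_, rfl⟩
  have hDL : D ≤ L := hL ▸ le_sup_left
  have hSL : S ≤ L := hL ▸ le_sup_right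
  have hTL : T ≤ L := hT.1.trans hDL
  have hcardD : Nat.card (D.subgroupOf L) = Nat.card D :=
    Nat.card_congr (Subgroup.subgroupOfEquivOfLe hDL).toEquiv
  have hmapD : (D.subgroupOf L).map L.subtype = D := by
    rw [Subgroup.subgroupOf_map_subtype, inf_eq_left.2 hDL]
  have hmapS : (S.subgroupOf L).map L.subtype = S := by
    rw [Subgroup.subgroupOf_map_subtype, inf_eq_left.2 hSL]
  have hmapT : (T.subgroupOf L).map L.subtype = T := by
    rw [Subgroup.subgroupOf_map_subtype, inf_eq_left.2 hTL]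
  have hnorm : (D.subgroupOf L).Normal := by
    constructor
    intro x hx g
    rw [Subgroup.mem_subgroupOf] at hx ⊢
    have hg : (g : G) ∈ D ⊔ S := by rw [← hL]; exact g.2
    obtain ⟨d, hd, s, hs, hds⟩ := (mem_sup hSD).1 hg
    have h1 : ((g * x * g⁻¹ : L) : G) = d * (s * x * s⁻¹) * d⁻¹ := by
      rw [Subgroup.coe_mul, Subgroup.coe_mul, Subgroup.coe_inv, ← hds]; group
    rw [h1]
    exact D.mul_mem (D.mul_mem hd (hSD s hs x hx)) (D.inv_mem hd)
  have h := cen_normal ht (Nat.card D) L (S.subgroupOf L) (D.subgroupOf L) (T.subgroupOf L)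
    hcardD.le hnorm hS.comap_subtype (by rwa [hcardD])
    (by
      have := hsol
      exact Group.isSolvable_of_surjective
        (f := (Subgroup.subgroupOfEquivOfLe hDL).symm.toMonoidHom)
        (Subgroup.subgroupOfEquivOfLe hDL).symm.surjective)
    (by
      apply Subgroup.map_injective L.subtype_injective
      rw [Subgroup.map_commutator, hmapD, hmapS, hcomm])
    (by
      refine ⟨?_, hT.2.1.comap_subtype, ?_⟩
      · intro x hx
        exact hT.1 hx
      · have h1 := Subgroup.relIndex_map_map_of_injective (T.subgroupOf L) (D.subgroupOf L)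
          L.subtype_injective
        rw [hmapD, hmapT] at h1
        rw [← h1]
        exact hT.2.2)
    (fun s hs k hk => Subtype.ext (hcen s hs k hk))
  rwa [hcardD] at h

/-- Version with all `S`-invariant `t`-subgroups. -/
theorem cen {G : Type} [Group G] [Finite G] {r t : ℕ} (hr : r.Prime) (ht : t.Prime)
    {S D : Subgroup G} (hSD : Nrm S D) (hS : IsPGroup r S) (hD : ¬ r ∣ Nat.card D)
    (hsol : Group.IsSolvable D) (hcomm : ⁅D, S⁆ = D)
    (hcen : ∀ T ≤ D, IsPGroup t T → Nrm S T → Cen S T) : ¬ t ∣ Nat.card D := by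
  obtain ⟨T, hT, hST⟩ := exists_inv_sylow hr hSD hS hD ht
  exact cen_syl ht hSD hS hD hsol hcomm hT (hcen T hT.1 hT.2.1 hST)

end Pool.Agent.Lib.MPbe1941.X.CEN

namespace Pool.Agent.Lib.MPbe1941.X

open Pool.Agent.Lib.MPbe1941 Pool.Agent.Lib.MPbe1941.XF

theorem specCEN : SpecCEN := by
  intro G _ _ r t S D M T _ ht hS hrD hsol hSD hDc hM hT _ hTM
  have hFt : Fact t.Prime := ⟨ht⟩
  have hcomm : ⁅D, S⁆ = D := by
    apply le_antisymm
    · exact comm_le hSD
    · refine hDc.trans ?_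
      rw [Subgroup.closure_le]
      rintro _ ⟨s, hs, x, hx, rfl⟩
      have h1 : s * x * s⁻¹ * x⁻¹ = (x * s * x⁻¹ * s⁻¹)⁻¹ := by group
      rw [h1]
      exact Subgroup.inv_mem _ (comm_mem hx hs)
  have hkerM : (QuotientGroup.mk' M).ker = M := QuotientGroup.ker_mk' M
  have hcard : Nat.card (D.map (QuotientGroup.mk' M)) ∣ Nat.card D := by
    rw [← Subgroup.relIndex_ker]
    exact Subgroup.relIndex_dvd_card _ _
  have h := CEN.cen_syl (r := r) ht (S := S.map (QuotientGroup.mk' M))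
    (D := D.map (QuotientGroup.mk' M)) (T := T.map (QuotientGroup.mk' M))
    (by
      rintro _ ⟨s, hs, rfl⟩ _ ⟨k, hk, rfl⟩
      exact ⟨_, hSD s hs k hk, by rw [map_mul, map_mul, map_inv]⟩)
    (hS.map _) (fun h => hrD (h.trans hcard))
    (by
      have := hsol
      exact Group.isSolvable_of_surjective ((QuotientGroup.mk' M).subgroupMap_surjective D))
    (by rw [← Subgroup.map_commutator, hcomm]) (CEN.syl_map _ hT)
    (by
      rintro _ ⟨s, hs, rfl⟩ _ ⟨k, hk, rfl⟩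
      have h1 : (QuotientGroup.mk' M) (s * k * s⁻¹ * k⁻¹) = 1 := by
        rw [← MonoidHom.mem_ker, hkerM]
        exact hTM s hs k hk
      rw [map_mul, map_mul, map_mul, map_inv, map_inv] at h1
      have h2 := mul_inv_eq_one.1 h1
      exact mul_inv_eq_iff_eq_mul.1 h2)
  intro x hx
  obtain ⟨m, hm⟩ : ∃ m, m = Nat.card (D.map (QuotientGroup.mk' M)) := ⟨_, rfl⟩
  have h1 := pow_card_eq_one' (x := (⟨_, Subgroup.mem_map_of_mem (QuotientGroup.mk' M) hx⟩ :
    D.map (QuotientGroup.mk' M)))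
  have h2 : (QuotientGroup.mk' M) x ^ m = 1 := by
    rw [hm]
    exact congrArg Subtype.val h1
  refine ⟨m, hm ▸ h, ?_⟩
  rw [← map_pow, ← MonoidHom.mem_ker, hkerM] at h2
  exact h2

end Pool.Agent.Lib.MPbe1941.X
end

section
/-!
# CNT: the counting form of the main proposition
-/
set_option autoImplicit false

namespace Pool.Agent.Lib.MPbe1941.X

open Pool.Agent.Lib.MPbe1941

namespace CNTM

/-- A normal subgroup fixing a non-zero vector of an irreducible module is trivial on it. -/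
theorem triv {H W : Type} [Group H] [AddCommGroup W] [DistribMulAction H W]
    (irr : ∀ A : AddSubgroup W, (∀ h : H, ∀ x ∈ A, h • x ∈ A) → A = ⊥ ∨ A = ⊤)
    (T : Subgroup H) (hT : T.Normal) (w : W) (hw : w ≠ 0) (hf : ∀ t ∈ T, t • w = w) :
    ∀ t ∈ T, ∀ v : W, t • v = v := by
  let A : AddSubgroup W :=
    { carrier := {v | ∀ t ∈ T, t • v = v}
      zero_mem' := fun t _ => smul_zero t
      add_mem' := fun {a b} ha hb t ht => by
        rw [smul_add, ha t ht, hb t ht]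
      neg_mem' := fun {a} ha t ht => by
        rw [smul_neg, ha t ht] }
  have hA : A = ⊥ ∨ A = ⊤ := by
    apply irr
    intro h x hx t ht
    have h1 : h⁻¹ * t * h ∈ T := by
      have := hT.conj_mem t ht h⁻¹
      simpa using this
    have h2 : (h⁻¹ * t * h) • x = x := hx _ h1
    have h3 : t • h • x = h • ((h⁻¹ * t * h) • x) := by
      rw [smul_smul, smul_smul]
      congr 1
      group
    rw [h3, h2]
  rcases hA with hA | hA
  · exfalso
    apply hw
    have : w ∈ A := hf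
    rw [hA] at this
    exact (AddSubgroup.mem_bot).1 this
  · intro t ht v
    have : v ∈ A := by rw [hA]; exact AddSubgroup.mem_top v
    exact this t ht

/-- A normal Sylow subgroup is the only Sylow subgroup. -/
theorem syl_unique {H : Type} [Group H] [Finite H] {r : ℕ} (hr : r.Prime) {T T' : Subgroup H}
    (hT : SylIn r ⊤ T) (hT' : SylIn r ⊤ T') (hn : T.Normal) : T' = T := by
  obtain ⟨_, _, h3, _⟩ := CO.specSYL H r hr
  obtain ⟨g, _, hg⟩ := h3 ⊤ T T' hT hT'
  ext x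
  rw [hg]
  constructor
  · intro h
    have := hn.conj_mem _ h g
    have h2 : g * (g⁻¹ * x * g) * g⁻¹ = x := by group
    rwa [h2] at this
  · intro h
    have := hn.conj_mem _ h g⁻¹
    simpa using this

end CNTM

open CNTM in
theorem specCNT (hPRO : SpecPRO) : SpecCNT := by
  intro H W _ _ _ _ _ _ hsol irr C hC Th hTh
  obtain ⟨w, D, K, bet, hw, hDn, hDC, hDa, hDf, hDK, hDK', hLin, hE1, hE2, hM, hT⟩ :=
    hPRO H W hsol irr C hC
  refine ⟨w, D, K, bet, hw, hDn, hDC, hDa, hDf, hDK, hDK', hLin, ?_⟩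
  set Mw : Set ℕ := {r | r ∈ Th ∧ ∃ T, MiH C w r T} with hMw
  set Mb : Set ℕ := {r | r ∈ Th ∧ ∃ T, MiB C D bet r T} with hMb
  set Aw : Set ℕ := {r | r ∈ Th ∧ ∀ T : Subgroup H, SylIn r ⊤ T → ∃ t ∈ T, t • w ≠ w} with hAw
  set Ab : Set ℕ :=
    {r | r ∈ Th ∧ ∀ T : Subgroup H, SylIn r ⊤ T → ∃ t ∈ T, ¬ FixB D bet t} with hAb
  set Z : Set ℕ := {r | r ∈ Th ∧ ∃ T : Subgroup H, SylIn r ⊤ T ∧ T.Normal ∧ T ≤ C ∧
          (∀ x ∈ T, ∀ y ∈ T, x * y = y * x) ∧ ∀ t ∈ T, ∀ v : W, t • v = v} with hZ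
  have fAw : Aw.Finite := Th.finite_toSet.subset (fun r hr => hr.1)
  have fAb : Ab.Finite := Th.finite_toSet.subset (fun r hr => hr.1)
  have fZ : Z.Finite := Th.finite_toSet.subset (fun r hr => hr.1)
  have h1 : Mb ⊆ Aw ∪ Z := by
    rintro r ⟨hr, T, hTs, hTC, hTf, hTa, hTn⟩
    have hrp := hTh r hr
    by_cases hd : r ∣ Nat.card D
    · exact Or.inl ⟨hr, fun T' hT' => hE1 r hrp hd T' hT'⟩
    · obtain ⟨hn, ha, _⟩ := hM r T hrp hd hTs hTf hTa hTn
      by_cases hA : r ∈ Aw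
      · exact Or.inl hA
      · right
        have : ∃ T' : Subgroup H, SylIn r ⊤ T' ∧ ∀ t ∈ T', t • w = w := by
          by_contra hne
          apply hA
          refine ⟨hr, fun T' hT' => ?_⟩
          by_contra hne'
          apply hne
          refine ⟨T', hT', fun t ht => ?_⟩
          by_contra hne''
          exact hne' ⟨t, ht, hne''⟩
        obtain ⟨T', hT', hf⟩ := this
        have he : T' = T := syl_unique hrp hTs hT' hn
        subst he
        exact ⟨hr, T', hTs, hn, hTC, ha, triv irr T' hn w hw hf⟩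
  have h2 : ∀ r ∈ Mw, r ∉ Z → (5 ≤ r ∨ (r = 3 ∧ ∃ T₂, MiH C w 2 T₂)) → r ∈ Ab := by
    rintro r ⟨hr, T, hTm⟩ hz h5
    have hrp := hTh r hr
    have hnt : ∃ t ∈ T, ∃ v : W, t • v ≠ v := by
      by_contra hne
      have htr : ∀ t ∈ T, ∀ v : W, t • v = v := by
        intro t ht v
        by_contra hne'
        exact hne ⟨t, ht, v, hne'⟩
      apply hz
      exact ⟨hr, T, hTm.1, hT r T hrp hTm htr, hTm.2.1, hTm.2.2.1, htr⟩
    exact ⟨hr, fun R hR => hE2 r T hrp hTm hnt h5 R hR⟩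
  obtain ⟨e, he⟩ : ∃ e : ℕ, Mw ⊆ (Ab ∪ Z) ∪ {e} := by
    by_cases h2M : 2 ∈ Mw
    · refine ⟨2, fun r hr => ?_⟩
      by_cases hz : r ∈ Z
      · exact Or.inl (Or.inr hz)
      · by_cases hr2 : r = 2
        · right; exact hr2
        · left; left
          apply h2 r hr hz
          have hrp := hTh r hr.1
          by_cases hr3 : r = 3
          · exact Or.inr ⟨hr3, h2M.2⟩
          · left
            have h4 : r ≠ 4 := by
              rintro rfl
              revert hrp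
              decide
            have := hrp.two_le
            omega
    · refine ⟨3, fun r hr => ?_⟩
      by_cases hz : r ∈ Z
      · exact Or.inl (Or.inr hz)
      · by_cases hr3 : r = 3
        · right; exact hr3
        · left; left
          apply h2 r hr hz
          have hrp := hTh r hr.1
          left
          have h4 : r ≠ 4 := by
            rintro rfl
            revert hrp
            decide
          have h22 : r ≠ 2 := by
            rintro rfl
            exact h2M hr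
          have := hrp.two_le
          omega
  have c1 : Mb.ncard ≤ Aw.ncard + Z.ncard :=
    (Set.ncard_le_ncard h1 (fAw.union fZ)).trans (Set.ncard_union_le _ _)
  have c2 : Mw.ncard ≤ Ab.ncard + Z.ncard + 1 := by
    refine (Set.ncard_le_ncard he ((fAb.union fZ).union (Set.finite_singleton e))).trans ?_
    refine (Set.ncard_union_le _ _).trans ?_
    rw [Set.ncard_singleton]
    exact Nat.add_le_add_right (Set.ncard_union_le _ _) 1
  omega

end Pool.Agent.Lib.MPbe1941.X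
end

section
/-!
# `r`-length one for abelian Sylow subgroups

`C` is normal in the finite solvable group `G` and has an abelian Sylow `r`-subgroup `R`. Then there
is a normal `r'`-subgroup `K ≤ C` of `G` with `K R` normal in `G`. So `D = [K, R]` and `L = [K, R] R`
are normal in `G`, `[D, R] = D`, and `L` is the normal closure of `R`.
-/
set_option autoImplicit false

namespace Pool.Agent.Lib.MPbe1941.XF

open Pool.Agent.Lib.MPbe1941 Subgroup
open scoped commutatorElement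

variable {G : Type} [Group G] {r : ℕ}

/-- A relative form of `RD.cent_le`. -/
theorem cent_le_rel [Finite G] (hs : Group.IsSolvable G) {F Y : Subgroup G}
    (hF : ∀ (l : ℕ) (O : Subgroup G), l.Prime → O.Normal → IsPGroup l O → O ≤ Y → O ≤ F) :
    ∀ (n : ℕ) (X : Subgroup G), Nat.card X = n → X.Normal → X ≤ Y →
      (∀ x ∈ X, ∀ y ∈ F, x * y = y * x) → X ≤ F := by
  intro n
  induction n using Nat.strong_induction_on with
  | _ n ih =>
    intro X hn hX hXY hXF
    by_cases hne : X = ⊥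
    · rw [hne]
      exact bot_le
    · have h1 : ⁅X, X⁆ < X := Group.IsSolvable.commutator_lt_of_ne_bot hne
      have hlt : Nat.card (⁅X, X⁆ : Subgroup G) < n := by
        rw [← hn]
        refine lt_of_le_of_ne (Subgroup.card_le_of_le h1.le) ?_
        intro h
        exact h1.ne (Subgroup.eq_of_le_of_card_ge h1.le h.ge)
      have h2 : ⁅X, X⁆ ≤ F := ih _ hlt ⁅X, X⁆ rfl inferInstance (h1.le.trans hXY)
        (fun x hx y hy => hXF x (h1.le hx) y hy)
      have h3 : (commutator X) ≤ center X := by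
        intro x hx
        rw [Subgroup.mem_center_iff]
        intro y
        apply Subtype.ext
        have h4 : (x : G) ∈ ⁅X, X⁆ := by
          rw [← Subgroup.map_subtype_commutator]
          exact ⟨x, hx, rfl⟩
        exact hXF y y.2 x (h2 h4)
      haveI hnil : Group.IsNilpotent X := by
        haveI h5 : Group.IsNilpotent (Abelianization X) := inferInstance
        refine Subgroup.isNilpotent_of_ker_le_center
          (Abelianization.of : X →* Abelianization X) ?_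
        rw [Abelianization.ker_of]
        exact h3
      rw [← Subgroup.relIndex_eq_one]
      rw [Nat.eq_one_iff_not_exists_prime_dvd]
      intro q hq hqd
      haveI : Fact q.Prime := ⟨hq⟩
      let Q : Sylow q X := default
      haveI hQn : (Q : Subgroup X).Normal := inferInstance
      haveI hQc : (Q : Subgroup X).Characteristic := Q.characteristic_of_normal hQn
      haveI := hX
      have hQm : ((Q : Subgroup X).map X.subtype).Normal := inferInstance
      have hQF : (Q : Subgroup X).map X.subtype ≤ F :=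
        hF q _ hq hQm (Q.isPGroup'.map X.subtype) ((Subgroup.map_subtype_le _).trans hXY)
      have hle : (Q : Subgroup X) ≤ F.subgroupOf X := by
        intro x hx
        rw [Subgroup.mem_subgroupOf]
        exact hQF ⟨x, hx, rfl⟩
      have h5 : (F.subgroupOf X).index ∣ (Q : Subgroup X).index := Subgroup.index_dvd_of_le hle
      exact Q.not_dvd_index (hqd.trans h5)

/-- A normal `r`-subgroup is contained in every Sylow `r`-subgroup. -/
theorem normal_le_syl [Finite G] (hr : r.Prime) {C R O : Subgroup G} (hR : SylIn r C R)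
    (hO : O.Normal) (hOr : IsPGroup r O) (hOC : O ≤ C) : O ≤ R := by
  haveI : Fact r.Prime := ⟨hr⟩
  obtain ⟨R', hR', hOR⟩ := (CO.specSYL G r hr).2.1 C O hOC hOr
  obtain ⟨g, _, hg⟩ := (CO.specSYL G r hr).2.2.1 C R R' hR hR'
  intro x hx
  have h1 := hO.conj_mem x hx g
  have h2 := (hg _).1 (hOR h1)
  have h3 : g⁻¹ * (g * x * g⁻¹) * g = x := by group
  rwa [h3] at h2

theorem card_comap_quot [Finite G] {K : Subgroup G} [K.Normal] (O : Subgroup (G ⧸ K)) :
    Nat.card (O.comap (QuotientGroup.mk' K)) = Nat.card K * Nat.card O := by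
  have h1 := Subgroup.card_mul_index (O.comap (QuotientGroup.mk' K))
  rw [Subgroup.index_comap_of_surjective O (QuotientGroup.mk'_surjective K)] at h1
  have h2 := Subgroup.card_mul_index O
  have h3 : Nat.card G = Nat.card (G ⧸ K) * Nat.card K :=
    Subgroup.card_eq_card_quotient_mul_card_subgroup K
  have h4 : O.index ≠ 0 := Subgroup.index_ne_zero_of_finite
  have h5 : Nat.card (O.comap (QuotientGroup.mk' K)) * O.index
      = Nat.card K * Nat.card O * O.index := by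
    rw [h1, h3, ← h2]
    ring
  exact Nat.eq_of_mul_eq_mul_right (Nat.pos_of_ne_zero h4) h5

/-- **CA9**. -/
theorem rlen [Finite G] (hs : Group.IsSolvable G) (hr : r.Prime) {C R : Subgroup G}
    (hC : C.Normal) (hR : SylIn r C R) (hab : ∀ x ∈ R, ∀ y ∈ R, x * y = y * x) :
    ∃ K : Subgroup G, K.Normal ∧ K ≤ C ∧ ¬ r ∣ Nat.card K ∧ (K ⊔ R).Normal := by
  classical
  haveI : Fact r.Prime := ⟨hr⟩
  -- choose `K` of maximal order
  have hfin : {n : ℕ | ∃ K : Subgroup G, (K.Normal ∧ K ≤ C ∧ ¬ r ∣ Nat.card K) ∧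
      Nat.card K = n}.Finite := by
    refine Set.Finite.subset (Set.finite_Iic (Nat.card G)) ?_
    rintro n ⟨K, _, rfl⟩
    exact Subgroup.card_le_card_group K
  have hne : {n : ℕ | ∃ K : Subgroup G, (K.Normal ∧ K ≤ C ∧ ¬ r ∣ Nat.card K) ∧
      Nat.card K = n}.Nonempty := by
    refine ⟨1, ⊥, ⟨inferInstance, bot_le, ?_⟩, Subgroup.card_bot⟩
    rw [Subgroup.card_bot, Nat.dvd_one]
    exact hr.one_lt.ne'
  obtain ⟨n, ⟨K, ⟨hKn, hKC, hKr⟩, hKc⟩, hmax⟩ := Set.exists_max_image _ id hfin hne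
  refine ⟨K, hKn, hKC, hKr, ?_⟩
  haveI := hKn
  obtain ⟨π, hπ⟩ : ∃ π : G →* G ⧸ K, π = QuotientGroup.mk' K := ⟨_, rfl⟩
  have hπs : Function.Surjective π := by rw [hπ]; exact QuotientGroup.mk'_surjective K
  have hπk : π.ker = K := by rw [hπ]; exact QuotientGroup.ker_mk' K
  haveI hsq : Group.IsSolvable (G ⧸ K) := inferInstance
  obtain ⟨Cb, hCb⟩ : ∃ Cb : Subgroup (G ⧸ K), Cb = C.map π := ⟨_, rfl⟩
  obtain ⟨Rb, hRb⟩ : ∃ Rb : Subgroup (G ⧸ K), Rb = R.map π := ⟨_, rfl⟩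
  have hCbn : Cb.Normal := by rw [hCb]; exact hC.map π hπs
  have hRbs : SylIn r Cb Rb := by
    refine ⟨by rw [hRb, hCb]; exact Subgroup.map_mono hR.1, by rw [hRb]; exact hR.2.1.map π, ?_⟩
    intro h
    apply hR.2.2
    refine h.trans ?_
    rw [hRb, hCb, ← Subgroup.relIndex_comap, Subgroup.comap_map_eq]
    exact Subgroup.relIndex_dvd_of_le_left _ le_sup_left
  -- the largest normal `r`-subgroup of `G / K` inside `Cb`
  obtain ⟨Q, hQ⟩ : ∃ Q : Subgroup (G ⧸ K), Q = Rb.normalCore := ⟨_, rfl⟩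
  have hQn : Q.Normal := by rw [hQ]; infer_instance
  have hQR : Q ≤ Rb := by rw [hQ]; exact Subgroup.normalCore_le Rb
  have hcl : ∀ (l : ℕ) (O : Subgroup (G ⧸ K)), l.Prime → O.Normal → IsPGroup l O → O ≤ Cb →
      O ≤ Q := by
    intro l O hl hO hOl hOC
    by_cases hlr : l = r
    · subst hlr
      rw [hQ]
      haveI := hO
      exact Subgroup.normal_le_normalCore.2 (normal_le_syl hr hRbs hO hOl hOC)
    · -- `O` is an `r'`-group, so trivial
      haveI : Fact l.Prime := ⟨hl⟩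
      have h1 : ¬ r ∣ Nat.card O := by
        obtain ⟨k, hk⟩ := IsPGroup.iff_card.1 hOl
        rw [hk]
        intro h
        exact hlr ((Nat.prime_dvd_prime_iff_eq hr hl).1 (hr.dvd_of_dvd_pow h)).symm
      have h2 : Nat.card (O.comap (QuotientGroup.mk' K)) ≤ Nat.card K := by
        have h3 := hmax (Nat.card (O.comap (QuotientGroup.mk' K)))
          ⟨O.comap (QuotientGroup.mk' K), ⟨hO.comap _, ?_, ?_⟩, rfl⟩
        · rw [hKc]
          exact h3
        · intro x hx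
          have h4 := hOC hx
          rw [hCb, ← hπ] at h4
          obtain ⟨c, hc, hcx⟩ := h4
          have h5 : x * c⁻¹ ∈ K := by
            rw [← hπk, MonoidHom.mem_ker, map_mul, map_inv, hcx, mul_inv_cancel]
          have h6 : x = (x * c⁻¹) * c := by group
          rw [h6]
          exact C.mul_mem (hKC h5) hc
        · rw [card_comap_quot]
          intro h
          rcases hr.dvd_mul.1 h with h | h
          · exact hKr h
          · exact h1 h
      rw [card_comap_quot] at h2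
      have h3 : Nat.card O = 1 := by
        have h4 : 0 < Nat.card K := Nat.card_pos
        have h5 : 0 < Nat.card O := Nat.card_pos
        have h6 : Nat.card K * Nat.card O ≤ Nat.card K * 1 := by rw [mul_one]; exact h2
        have h7 := Nat.le_of_mul_le_mul_left h6 h4
        omega
      rw [Subgroup.card_eq_one.1 h3]
      exact bot_le
  -- the centralizer of `Q` in `Cb`
  have hX : (Subgroup.centralizer (Q : Set (G ⧸ K)) ⊓ Cb) ≤ Q := by
    haveI := hQn
    haveI := hCbn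
    refine cent_le_rel hsq hcl _ _ rfl inferInstance inf_le_right ?_
    intro x hx y hy
    exact ((Subgroup.mem_centralizer_iff.1 hx.1) y hy).symm
  have hRQ : Rb ≤ Q := by
    intro x hx
    apply hX
    have hxc : x ∈ Subgroup.centralizer (Q : Set (G ⧸ K)) := by
      rw [Subgroup.mem_centralizer_iff]
      intro y hy
      have hy' := hQR hy
      rw [hRb] at hx hy'
      obtain ⟨a, ha, rfl⟩ := hx
      obtain ⟨b, hb, rfl⟩ := hy'
      rw [← map_mul, ← map_mul, hab b hb a ha]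
    exact ⟨hxc, hRbs.1 hx⟩
  have hRbn : Rb.Normal := by rw [le_antisymm hRQ hQR]; exact hQn
  have h1 : K ⊔ R = Rb.comap π := by
    rw [hRb, Subgroup.comap_map_eq, hπk, sup_comm]
  rw [h1]
  exact hRbn.comap π

/-- The normal closure `D R` of an abelian Sylow `r`-subgroup `R` of a normal subgroup `C`. -/
theorem exists_D [Finite G] (hs : Group.IsSolvable G) (hr : r.Prime) {C R : Subgroup G}
    (hC : C.Normal) (hR : SylIn r C R) (hab : ∀ x ∈ R, ∀ y ∈ R, x * y = y * x) :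
    ∃ D : Subgroup G, D.Normal ∧ D ≤ C ∧ ¬ r ∣ Nat.card D ∧ (D ⊔ R).Normal ∧ ⁅D, R⁆ = D ∧
      ∀ L : Subgroup G, L.Normal → R ≤ L → D ≤ L := by
  obtain ⟨K, hKn, hKC, hKr, hKR⟩ := rlen hs hr hC hR hab
  refine ⟨⁅K, R⁆, comm_normal hr hKn hR.2.1 hKr hKR,
    (comm_le (nrm_of_normal hKn)).trans hKC, ?_, comm_sup_normal hr hKn hR.2.1 hKr hKR,
    comm_comm hr (nrm_of_normal hKn) hR.2.1 hKr, fun L hL hRL =>
      comm_le_of hRL (nrm_of_normal hL)⟩
  intro h
  exact hKr (h.trans (Subgroup.card_dvd_of_le (comm_le (nrm_of_normal hKn))))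

end Pool.Agent.Lib.MPbe1941.XF
end

section
/-!
# Module PDA: the primes `≥ 5` are good, and `3` is good if `2 ∈ M(w)`
-/
set_option autoImplicit false

namespace Pool.Agent.Lib.MPbe1941.X

open Pool.Agent.Lib.MPbe1941

namespace PDAM

variable {S : PS} {l : ℕ}

theorem cp_one : S.CP l 1 := by
  intro g _
  rw [map_one, one_mul, mul_one]

theorem cp_mul {a b : S.H} (ha : S.CP l a) (hb : S.CP l b) : S.CP l (a * b) := by
  intro g hg
  rw [map_mul, mul_assoc, hb g hg, ← mul_assoc, ha g hg, mul_assoc]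

theorem cp_inv {a : S.H} (ha : S.CP l a) : S.CP l a⁻¹ := by
  intro g hg
  have h := ha g hg
  rw [map_inv]
  have : Commute (S.phi a) g := h
  exact this.inv_left.eq

theorem cp_conj (hn : (S.P l).Normal) {a : S.H} (ha : S.CP l a) (x : S.H) :
    S.CP l (x * a * x⁻¹) := by
  intro g hg
  have h1 : (S.phi x)⁻¹ * g * S.phi x ∈ S.P l := by
    have := hn.conj_mem g hg (S.phi x)⁻¹
    rwa [inv_inv] at this
  have h2 := ha _ h1
  rw [map_mul, map_mul, map_inv]
  calc S.phi x * S.phi a * (S.phi x)⁻¹ * g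
      = S.phi x * (S.phi a * ((S.phi x)⁻¹ * g * S.phi x)) * (S.phi x)⁻¹ := by group
    _ = S.phi x * ((S.phi x)⁻¹ * g * S.phi x * S.phi a) * (S.phi x)⁻¹ := by rw [h2]
    _ = g * (S.phi x * S.phi a * (S.phi x)⁻¹) := by group

theorem cp_comm (hn : (S.P l).Normal) {s : S.H} (hs : S.CP l s) (x : S.H) :
    S.CP l (s * x * s⁻¹ * x⁻¹) := by
  have h1 : s * x * s⁻¹ * x⁻¹ = s * (x * s⁻¹ * x⁻¹) := by group
  rw [h1]
  exact cp_mul hs (cp_conj hn (cp_inv hs) x)

/-- a prime different from `r` does not divide the order of the image of an element of `T` -/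
theorem not_dvd_order {r q : ℕ} (hr : r.Prime) (hq : q.Prime) (hqr : q ≠ r) {T : Subgroup S.H}
    (hT : IsPGroup r T) {s : S.H} (hs : s ∈ T) : ¬ q ∣ orderOf (S.phi s) := by
  obtain ⟨n, hn⟩ := hT ⟨s, hs⟩
  have h1 : s ^ r ^ n = 1 := by simpa using congrArg Subtype.val hn
  have h2 : (S.phi s) ^ r ^ n = 1 := by rw [← map_pow, h1, map_one]
  intro h
  have h3 := h.trans (orderOf_dvd_of_pow_eq_one h2)
  exact hqr ((Nat.prime_dvd_prime_iff_eq hq hr).1 (hq.dvd_of_dvd_pow h3))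

end PDAM

open PDAM in
theorem specPDA (hPSB : SpecPSB) (hPAA : SpecPAA) (hPCC : SpecPCC) (hPDG : SpecPDG)
    (hRAT : SpecRAT) (hRLO : SpecRLO) : SpecPDA := by
  intro S w hw r T hT hcase
  obtain ⟨hr, hMi, hNt⟩ := hT
  obtain ⟨-, -, -, hP, -⟩ := hPSB S
  obtain ⟨hsyl, hTC, hTab, hTw, hTn⟩ := hMi
  have hr2 : r ≠ 2 := by
    rcases hcase with h | ⟨h, -⟩ <;> omega
  have hMi' : S.Mi w r T := ⟨hsyl, hTC, hTab, hTw, hTn⟩
  have hcc := hPCC S w hw r T hr hr2 hMi'
  refine hPDG S w r T hw.1 ⟨hr, hMi', hNt⟩ hr2 ?_ ?_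
  · intro t ht
    rcases hcase with h5 | ⟨-, T₂, hT₂⟩
    · exact (hcc t ht).2 h5
    · have h2 : S.P 2 = ⊥ := (hPAA S w 2 T₂ hw.1 Nat.prime_two hT₂).2.1
      intro g hg
      rw [h2, Subgroup.mem_bot] at hg
      rw [hg, one_mul, mul_one]
  · intro l t hl hl2 hlr ht htl T₁ hT₁ hsT s hs x hx
    by_cases hcp : S.CP l s
    · exact cp_comm (hP l hl).1 hcp x
    obtain ⟨a, Q, hQP, hQc, hQab, hQa, -⟩ := (hcc s hs).1 l hl hl2 hcp
    by_cases htr : t = r
    · subst htr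
      obtain ⟨-, -, -, -, hnd, -⟩ := hRLO S.H S.sol t T ht hsyl hTab
      have h1 : x = 1 := by
        have : Fact t.Prime := ⟨ht⟩
        obtain ⟨k, hk⟩ := (IsPGroup.iff_card (p := t) (G := T₁)).1 hT₁.2.1
        have h2 : Nat.card T₁ ∣ Nat.card (Dr S.H t) := Subgroup.card_dvd_of_le hT₁.1
        have h3 : k = 0 := by
          by_contra hk0
          apply hnd
          refine Dvd.dvd.trans ?_ h2
          rw [hk]
          exact dvd_pow_self t hk0
        rw [h3, pow_zero] at hk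
        have h4 : T₁ = ⊥ := Subgroup.card_eq_one.1 hk
        rw [h4, Subgroup.mem_bot] at hx
        exact hx
      rw [h1]
      have : s * 1 * s⁻¹ * 1⁻¹ = (1 : S.H) := by group
      rw [this]
      exact cp_one
    · have hPn := (hP l hl).1
      have key := hRAT S.G l t (S.P l) (T₁.map S.phi) (S.phi s) a hl hl2 ht htl (hP l hl).2.1
        (hT₁.2.1.map S.phi) (fun x hx => hPn.conj_mem x hx _) (fun g _ x hx => hPn.conj_mem x hx _)
        ?_ (not_dvd_order hr Nat.prime_two hr2.symm hsyl.2.1 hs)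
        (not_dvd_order hr ht htr hsyl.2.1 hs) (not_dvd_order hr hl hlr hsyl.2.1 hs) ?_ ?_
      · intro g hg
        have := key (S.phi x) (Subgroup.mem_map_of_mem _ hx) g hg
        rw [map_mul, map_mul, map_mul, map_inv, map_inv]
        exact this
      · rintro g ⟨y, hy, rfl⟩
        exact ⟨s * y * s⁻¹, hsT s hs y hy, by rw [map_mul, map_mul, map_inv]⟩
      · intro y hy
        have : S.phi s * y * (S.phi s)⁻¹ * y⁻¹ ∈ Q := by
          rw [hQc]
          exact Subgroup.subset_closure ⟨y, hy, rfl⟩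
        exact hQa _ this
      · by_cases ht2 : t = 2
        · right
          rcases hcase with h5 | ⟨h3, T₂, hT₂⟩
          · left
            exact not_dvd_order hr Nat.prime_three (by omega) hsyl.2.1 hs
          · right
            subst ht2
            obtain ⟨-, hex, hcj, -⟩ := CO.specSYL S.H 2 Nat.prime_two
            obtain ⟨R, hR, hTR⟩ := hex ⊤ T₁ le_top hT₁.2.1
            obtain ⟨c, -, hc⟩ := hcj ⊤ T₂ R hT₂.1 hR
            rintro g ⟨y, hy, rfl⟩ h ⟨z, hz, rfl⟩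
            have h1 := hT₂.2.2.1 _ ((hc y).1 (hTR hy)) _ ((hc z).1 (hTR hz))
            have h2 : y * z = z * y := by
              have e1 : y * z = c * (c⁻¹ * y * c * (c⁻¹ * z * c)) * c⁻¹ := by group
              have e2 : z * y = c * (c⁻¹ * z * c * (c⁻¹ * y * c)) * c⁻¹ := by group
              rw [e1, e2, h1]
            have h3 : S.phi (y * z) = S.phi (z * y) := by rw [h2]
            rw [map_mul, map_mul] at h3
            exact h3
        · left
          exact ht2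

end Pool.Agent.Lib.MPbe1941.X
end

section
/-!
# MP_be1941_al, exact bound: the group `D_r`, `r` good
-/
set_option autoImplicit false

namespace Pool.Agent.Lib.MPbe1941.X

open Pool.Agent.Lib.MPbe1941

namespace PDBM

variable {G : Type} [Group G]

/-- coprime powers -/
theorem mem_of_cop {K : Subgroup G} {x : G} {a b : ℕ} (h : Nat.Coprime a b) (ha : x ^ a ∈ K)
    (hb : x ^ b ∈ K) : x ∈ K := by
  have h1 := Nat.gcd_eq_gcd_ab a b
  rw [h.gcd_eq_one] at h1
  have h2 : x = (x ^ a) ^ (Nat.gcdA a b) * (x ^ b) ^ (Nat.gcdB a b) := by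
    rw [← zpow_natCast x a, ← zpow_mul, ← zpow_natCast x b, ← zpow_mul, ← zpow_add, ← h1]
    simp
  rw [h2]
  exact K.mul_mem (K.zpow_mem ha _) (K.zpow_mem hb _)

theorem one_of_cop {x : G} {a b : ℕ} (h : Nat.Coprime a b) (ha : x ^ a = 1) (hb : x ^ b = 1) :
    x = 1 :=
  Subgroup.mem_bot.1 (mem_of_cop (K := ⊥) h (by rw [ha]; exact one_mem _)
    (by rw [hb]; exact one_mem _))

theorem cop_pp {l m : ℕ} (hl : l.Prime) (hm : m.Prime) (h : l ≠ m) (a b : ℕ) :
    (l ^ a).Coprime (m ^ b) :=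
  Nat.Coprime.pow a b ((Nat.coprime_primes hl hm).2 h)

theorem le_of_p {K : Subgroup G} {l : ℕ} (h : IsPGroup l K) {x : G} (hx : x ∈ K) : LE l x := by
  obtain ⟨k, hk⟩ := h ⟨x, hx⟩
  exact ⟨k, congrArg Subtype.val hk⟩

theorem le_map {H : Type} [Group H] (f : G →* H) {l : ℕ} {x : G} (h : LE l x) : LE l (f x) := by
  obtain ⟨n, hn⟩ := h
  exact ⟨n, by rw [← map_pow, hn, map_one]⟩

theorem pow_mem_mul {K : Subgroup G} (hK : K.Normal) {d t : G} (hd : d ∈ K) {j : ℕ}
    (ht : t ^ j = 1) : (d * t) ^ j ∈ K := by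
  rw [← QuotientGroup.eq_one_iff (N := K), QuotientGroup.mk_pow, QuotientGroup.mk_mul,
    (QuotientGroup.eq_one_iff d).2 hd, one_mul, ← QuotientGroup.mk_pow, ht, QuotientGroup.mk_one]

/-- a group is generated by its elements of prime power order -/
theorem le_gen [Finite G] {D K : Subgroup G}
    (h : ∀ l, l.Prime → ∀ x ∈ D, LE l x → x ∈ K) : D ≤ K := by
  rw [← XF.closure_primePow D, Subgroup.closure_le]
  rintro a ⟨ha, l, hl, hp⟩
  exact h l hl a ha (le_of_p hp (Subgroup.mem_zpowers a))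

theorem zcop {c : G} {k : ℤ} {l n : ℕ} (hl : l.Prime) (h1 : c ^ k = 1) (h2 : c ^ l ^ n = 1)
    (h3 : ¬ (l : ℤ) ∣ k) : c = 1 := by
  have h4 := (Nat.dvd_prime_pow hl).1 (orderOf_dvd_of_pow_eq_one h2)
  obtain ⟨j, -, hj⟩ := h4
  rcases Nat.eq_zero_or_pos j with h5 | h5
  · rw [h5, pow_zero, orderOf_eq_one_iff] at hj
    exact hj
  · exfalso
    apply h3
    have h6 : ((orderOf c : ℕ) : ℤ) ∣ k := orderOf_dvd_iff_zpow_eq_one.2 h1
    refine dvd_trans ?_ h6
    rw [hj]
    exact_mod_cast dvd_pow_self l h5.ne'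

/-- powers in the first entry of a central commutator -/
theorem comm_zpow {x y c : G} (h : x * y = c * (y * x)) (hx : Commute c x) (a : ℤ) :
    x ^ a * y = c ^ a * (y * x ^ a) := by
  have h1 : y * x * y⁻¹ = c⁻¹ * x := by
    rw [mul_inv_eq_iff_eq_mul, mul_assoc, h, inv_mul_cancel_left]
  have h2 : y * x ^ a * y⁻¹ = c⁻¹ ^ a * x ^ a := by
    rw [← conj_zpow, h1, (hx.inv_left).mul_zpow]
  rw [mul_inv_eq_iff_eq_mul] at h2
  rw [h2, inv_zpow, ← mul_assoc, ← mul_assoc, mul_inv_cancel, one_mul]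

theorem comm_zpow2 {x y c : G} (h : x * y = c * (y * x)) (hx : Commute c x) (hy : Commute c y)
    (a : ℤ) : x ^ a * y ^ a = c ^ (a * a) * (y ^ a * x ^ a) := by
  have h1 := comm_zpow h hx a
  have h2 : y * x ^ a = (c ^ a)⁻¹ * (x ^ a * y) := by rw [h1, inv_mul_cancel_left]
  have h3 := comm_zpow h2 ((hy.zpow_left a).inv_left) a
  rw [h3, inv_zpow, ← zpow_mul, mul_inv_cancel_left]

/-- commutators of elements of prime power order -/
theorem comm_one {x y c : G} (h : x * y = c * (y * x)) (hx : Commute c x) {n : ℕ}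
    (hn : x ^ n = 1) : c ^ n = 1 := by
  have h1 := comm_zpow h hx n
  rw [zpow_natCast, zpow_natCast, hn, one_mul, mul_one] at h1
  exact (mul_eq_right.1 h1.symm)

end PDBM

open PDBM

theorem specPDB (hPSB : SpecPSB) (hPAA : SpecPAA) (hPCC : SpecPCC) (hPCG : SpecPCG)
    (hFTF : SpecFTF) (hRLO : SpecRLO) (hOCF : SpecOCF) (hPWM : SpecPWM) : SpecPDB := by
  intro S w hw r T hg
  obtain ⟨⟨hrp, hMi, hNt⟩, hr2, hP2, hDF⟩ := hg
  have hMi' := hMi
  obtain ⟨hsyl, hTC, hTab, hTw, hTn⟩ := hMi'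
  obtain ⟨hNn, hNs, hNf, hPn, hFn, hfixG, hfixH, hlift, hOC, hOD⟩ := hPSB S
  obtain ⟨hOn, hDn, hTO, hDO, hrD, hDT, hDgen⟩ := hRLO S.H S.sol r T hrp hsyl hTab
  obtain ⟨-, hPr, -, hPNt⟩ := hPAA S w r T hw.1 hrp hMi
  have hLC : Or S.H r ≤ S.C := hOC r T hrp hsyl hTC
  have hDC : Dr S.H r ≤ S.C := hDO.trans hLC
  have hTp : IsPGroup r T := hsyl.2.1
  have hDT0 : Dr S.H r ⊓ T = ⊥ := XF.inf_bot hrp hTp hrD
  have hker : ∀ h ∈ Dr S.H r, S.phi h = 1 → ∀ v : S.W, h • v = v :=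
    fun h _ h1 => ((S.ker h).1 h1).2
  -- (z) elements of `D` which are trivial on `W` are central in `L`
  have hZ : ∀ z ∈ Dr S.H r, (∀ v : S.W, z • v = v) → ∀ s ∈ T, z * s = s * z := by
    intro z hz hzt s hs
    have h1 : z * s * z⁻¹ * s⁻¹ ∈ T := T.mul_mem (hTn z (hzt w) s hs) (T.inv_mem hs)
    have h2 : z * s * z⁻¹ * s⁻¹ ∈ Dr S.H r := by
      have h3 : z * s * z⁻¹ * s⁻¹ = z * (s * z⁻¹ * s⁻¹) := by group
      rw [h3]
      exact Subgroup.mul_mem _ hz (hDn.conj_mem _ (Subgroup.inv_mem _ hz) s)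
    have h4 : z * s * z⁻¹ * s⁻¹ = 1 := by
      have h5 : z * s * z⁻¹ * s⁻¹ ∈ Dr S.H r ⊓ T := ⟨h2, h1⟩
      rw [hDT0] at h5
      exact Subgroup.mem_bot.1 h5
    rw [mul_inv_eq_one, mul_inv_eq_iff_eq_mul] at h4
    exact h4
  have hZc : ∀ z ∈ Dr S.H r, (∀ v : S.W, z • v = v) → ∀ s ∈ T, ∀ h : S.H,
      z * (h * s * h⁻¹) = h * s * h⁻¹ * z := by
    intro z hz hzt s hs h
    have h1 : h⁻¹ * z * h ∈ Dr S.H r := by
      have := hDn.conj_mem z hz h⁻¹
      rwa [inv_inv] at this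
    have h2 := hZ (h⁻¹ * z * h) h1 (fun v => by
      rw [mul_smul, mul_smul, hzt, inv_smul_smul]) s hs
    calc z * (h * s * h⁻¹) = h * (h⁻¹ * z * h * s) * h⁻¹ := by group
      _ = h * (s * (h⁻¹ * z * h)) * h⁻¹ := by rw [h2]
      _ = h * s * h⁻¹ * z := by group
  have hDle : ∀ K : Subgroup S.H, (∀ s ∈ T, ∀ x ∈ Dr S.H r, s * x * s⁻¹ * x⁻¹ ∈ K) →
      Dr S.H r ≤ K := by
    intro K hK
    rw [hDgen, Subgroup.closure_le]
    rintro y ⟨s, hs, x, hx, rfl⟩
    exact hK s hs x hx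
  have hZD : ∀ z ∈ Dr S.H r, (∀ v : S.W, z • v = v) → ∀ x ∈ Dr S.H r, z * x = x * z := by
    intro z hz hzt
    have h1 : Dr S.H r ≤ Subgroup.centralizer {z} := by
      refine hDle _ fun s hs x hx => ?_
      rw [Subgroup.mem_centralizer_singleton_iff]
      have h2 : s * x * s⁻¹ * x⁻¹ = s * (x * s⁻¹ * x⁻¹) := by group
      rw [h2]
      have h3 := hZ z hz hzt s hs
      have h4 := hZc z hz hzt s⁻¹ (T.inv_mem hs) x
      rw [mul_assoc, ← h4, ← mul_assoc, ← h3, mul_assoc]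
    intro x hx
    exact (Subgroup.mem_centralizer_singleton_iff.1 (h1 hx)).symm
  -- (4)
  have h4 : ∀ y ∈ Dr S.H r, (∀ x ∈ Dr S.H r, ∀ y ∈ Dr S.H r, x * y = y * x) →
      (∀ s ∈ T, s * y = y * s) → y = 1 := by
    intro y hy hab hys
    have h1 : XF.Nrm T (Dr S.H r) := XF.nrm_of_normal hDn
    have h2 := XF.comm_inf_cen hrp h1 hTp hrD hab
    have h3 : Dr S.H r ≤ ⁅Dr S.H r, T⁆ := by
      refine hDle _ fun s hs x hx => ?_
      rw [Subgroup.commutator_comm]
      exact Subgroup.commutator_mem_commutator hs hx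
    have h5 : y ∈ ⁅Dr S.H r, T⁆ ⊓ XF.CK (Dr S.H r) T := ⟨h3 hy, XF.mem_CK.2 ⟨hy, hys⟩⟩
    rw [h2] at h5
    exact Subgroup.mem_bot.1 h5
  -- the upper bound for the `l`-part of the image
  have hup : ∀ l, l.Prime → ∀ Q : Subgroup S.G, (∀ s ∈ T, ∀ y ∈ S.P l,
      S.phi s * y * (S.phi s)⁻¹ * y⁻¹ ∈ Q) → (Dr S.H r).map S.phi ⊓ S.P l ≤ Q := by
    intro l hl Q hQ
    obtain ⟨m, hm1, hm2, hm3, -⟩ := hPWM S.G S.N l hl
    have hF : ∀ g ∈ Dr S.H r, S.phi g ∈ Fit S.N := fun g hg => hDF ⟨g, hg, rfl⟩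
    let K : Subgroup S.H :=
      { carrier := {g | g ∈ Dr S.H r ∧ S.phi g ^ m ∈ Q}
        one_mem' := ⟨Subgroup.one_mem _, by rw [map_one, one_pow]; exact Q.one_mem⟩
        mul_mem' := fun {a b} ha hb => ⟨Subgroup.mul_mem _ ha.1 hb.1, by
          rw [map_mul, hm3 _ (hF a ha.1) _ (hF b hb.1)]
          exact Q.mul_mem ha.2 hb.2⟩
        inv_mem' := fun {a} ha => ⟨Subgroup.inv_mem _ ha.1, by
          rw [map_inv, inv_pow]
          exact Q.inv_mem ha.2⟩ }
    have hK : Dr S.H r ≤ K := by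
      refine hDle K fun s hs x hx => ⟨?_, ?_⟩
      · exact Subgroup.mul_mem _ (hDn.conj_mem x hx s) (Subgroup.inv_mem _ hx)
      · have e : S.phi (s * x * s⁻¹ * x⁻¹) = S.phi s * S.phi x * (S.phi s)⁻¹ * (S.phi x)⁻¹ := by
          rw [map_mul, map_mul, map_mul, map_inv, map_inv]
        rw [e, hm3 _ (hFn.1.conj_mem _ (hF x hx) _) _ (Subgroup.inv_mem _ (hF x hx)), conj_pow,
          inv_pow]
        exact hQ s hs _ (hm1 _ (hF x hx))
    rintro y ⟨⟨g, hg, rfl⟩, hy⟩
    have h1 := (hK hg).2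
    rwa [hm2 _ hy] at h1
  -- the `l`-part of the image
  have hQ : ∀ l, l.Prime → ∀ s ∈ T, ¬ S.CP l s → l ≠ 2 ∧ l ≠ r ∧ ∃ a Q, S.Pow w l s a Q ∧
      (Dr S.H r).map S.phi ⊓ S.P l = Q := by
    intro l hl s hs hCP
    have hl2 : l ≠ 2 := by
      rintro rfl
      exact hCP (hP2 s (hTO hs))
    have hlr : l ≠ r := by
      rintro rfl
      refine hCP fun g hg => ?_
      rw [hPr, Subgroup.mem_bot] at hg
      rw [hg, mul_one, one_mul]
    refine ⟨hl2, hlr, ?_⟩
    obtain ⟨a, Q, hpow⟩ := (hPCC S w hw r T hrp hr2 hMi s hs).1 l hl hl2 hCP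
    refine ⟨a, Q, hpow, le_antisymm ?_ ?_⟩
    · refine hup l hl Q fun s' hs' y hy => ?_
      by_cases hCP' : S.CP l s'
      · rw [hCP' y hy, mul_inv_cancel_right, mul_inv_cancel]
        exact Q.one_mem
      · obtain ⟨a', Q', hpow'⟩ := (hPCC S w hw r T hrp hr2 hMi s' hs').1 l hl hl2 hCP'
        have h1 := (hPCG S w hw r r T T hrp hr2 hrp hr2 hMi hMi s hs s' hs').2 l hl hl2 a Q a' Q'
          hpow hpow'
        rw [h1, hpow'.2.1]
        exact Subgroup.subset_closure ⟨y, hy, rfl⟩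
    · refine le_inf ?_ hpow.1
      rw [hpow.2.1, Subgroup.closure_le]
      rintro y ⟨x, hx, rfl⟩
      obtain ⟨h, rfl⟩ := S.surj x
      obtain ⟨k, hk⟩ := le_of_p hTp hs
      have hyP : S.phi s * S.phi h * (S.phi s)⁻¹ * (S.phi h)⁻¹ ∈ S.P l :=
        Subgroup.mul_mem _ ((hPn l hl).1.conj_mem _ hx _) (Subgroup.inv_mem _ hx)
      obtain ⟨n, hn⟩ := le_of_p (hPn l hl).2.1 hyP
      have hgL : s * h * s⁻¹ * h⁻¹ ∈ Or S.H r := by
        have e : s * h * s⁻¹ * h⁻¹ = s * (h * s⁻¹ * h⁻¹) := by group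
        rw [e]
        exact Subgroup.mul_mem _ (hTO hs) (hOn.conj_mem _ (Subgroup.inv_mem _ (hTO hs)) h)
      obtain ⟨d, hd, t, ht, hdt⟩ := hDT _ hgL
      obtain ⟨j, hj⟩ := le_of_p hTp ht
      have e2 : S.phi s * S.phi h * (S.phi s)⁻¹ * (S.phi h)⁻¹ = S.phi (d * t) := by
        rw [← hdt, map_mul, map_mul, map_mul, map_inv, map_inv]
      have h1 : (S.phi s * S.phi h * (S.phi s)⁻¹ * (S.phi h)⁻¹) ^ r ^ j ∈
          (Dr S.H r).map S.phi := by
        rw [e2, ← map_pow]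
        exact ⟨_, pow_mem_mul hDn hd hj, rfl⟩
      exact mem_of_cop (cop_pp hl hrp hlr n j) (by rw [hn]; exact Subgroup.one_mem _) h1
  have hQ0 : ∀ l, l.Prime → (∀ s ∈ T, S.CP l s) → (Dr S.H r).map S.phi ⊓ S.P l = ⊥ := by
    intro l hl hall
    rw [eq_bot_iff]
    refine hup l hl ⊥ fun s hs y hy => ?_
    rw [hall s hs y hy, mul_inv_cancel_right, mul_inv_cancel]
    exact Subgroup.one_mem _
  -- (6)
  have h6 : ∀ l, l.Prime → ∀ x ∈ Dr S.H r, LE l x → S.phi x ∈ S.P l := by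
    intro l hl x hx hlx
    exact (hFTF S.G S.N).2.2.1 l hl _ (hDF ⟨x, hx, rfl⟩) (le_map S.phi hlx)
  -- (w) `D` is abelian
  have hab : ∀ x ∈ Dr S.H r, ∀ y ∈ Dr S.H r, x * y = y * x := by
    have hpp : ∀ l, l.Prime → ∀ l', l'.Prime → ∀ x ∈ Dr S.H r, LE l x → ∀ y ∈ Dr S.H r,
        LE l' y → x * y = y * x := by
      intro l hl l' hl' x hx hlx y hy hly
      obtain ⟨n, hn⟩ := hlx
      obtain ⟨n', hn'⟩ := hly
      set c := x * y * x⁻¹ * y⁻¹ with hc
      have hxy : x * y = c * (y * x) := by rw [hc]; group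
      have hyx : y * x = c⁻¹ * (x * y) := by rw [hxy, inv_mul_cancel_left]
      have hcD : c ∈ Dr S.H r := Subgroup.mul_mem _ (hDn.conj_mem y hy x) (Subgroup.inv_mem _ hy)
      have hphic : S.phi x * S.phi y = S.phi y * S.phi x → S.phi c = 1 := by
        intro h
        rw [hc, map_mul, map_mul, map_mul, map_inv, map_inv, h, mul_inv_cancel_right,
          mul_inv_cancel]
      have hfin : c = 1 → x * y = y * x := by
        intro h
        rw [hxy, h, one_mul]
      by_cases hll : l = l'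
      · subst hll
        by_cases hall : ∀ s ∈ T, S.CP l s
        · have h1 : S.phi x = 1 := by
            have h2 : S.phi x ∈ (Dr S.H r).map S.phi ⊓ S.P l :=
              ⟨⟨x, hx, rfl⟩, h6 l hl x hx ⟨n, hn⟩⟩
            rw [hQ0 l hl hall] at h2
            exact Subgroup.mem_bot.1 h2
          exact hZD x hx (hker x hx h1) y hy
        · push Not at hall
          obtain ⟨s, hs, hCP⟩ := hall
          obtain ⟨-, -, a, Q, hpow, hQe⟩ := hQ l hl s hs hCP
          have hxQ : S.phi x ∈ Q := by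
            rw [← hQe]
            exact ⟨⟨x, hx, rfl⟩, h6 l hl x hx ⟨n, hn⟩⟩
          have hyQ : S.phi y ∈ Q := by
            rw [← hQe]
            exact ⟨⟨y, hy, rfl⟩, h6 l hl y hy ⟨n', hn'⟩⟩
          have hct := hker c hcD (hphic (hpow.2.2.1 _ hxQ _ hyQ))
          have hcD' := hZD c hcD hct
          -- the conjugates by `s`
          have hz : ∀ u ∈ Dr S.H r, S.phi u ∈ Q → ∃ z ∈ Dr S.H r, (∀ v : S.W, z • v = v) ∧
              s * u * s⁻¹ = u ^ a * z := by
            intro u hu huQ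
            refine ⟨(u ^ a)⁻¹ * (s * u * s⁻¹), Subgroup.mul_mem _ (Subgroup.inv_mem _
              (Subgroup.zpow_mem _ hu a)) (hDn.conj_mem u hu s), ?_, by group⟩
            apply hker _ (Subgroup.mul_mem _ (Subgroup.inv_mem _
              (Subgroup.zpow_mem _ hu a)) (hDn.conj_mem u hu s))
            rw [map_mul, map_inv, map_zpow, map_mul, map_mul, map_inv, hpow.2.2.2.1 _ huQ,
              inv_mul_cancel]
          obtain ⟨z1, hz1D, hz1t, hz1⟩ := hz x hx hxQ
          obtain ⟨z2, hz2D, hz2t, hz2⟩ := hz y hy hyQ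
          have hxa : x ^ a ∈ Dr S.H r := Subgroup.zpow_mem _ hx a
          have hya : y ^ a ∈ Dr S.H r := Subgroup.zpow_mem _ hy a
          have e1 : x ^ a * y ^ a = c ^ (a * a) * (y ^ a * x ^ a) :=
            comm_zpow2 hxy (hcD' x hx) (hcD' y hy) a
          have e2 : x ^ a * y ^ a = c * (y ^ a * x ^ a) := by
            have h1 : s * (x * y) * s⁻¹ = s * (c * (y * x)) * s⁻¹ := by rw [hxy]
            have h2 : s * c = c * s := (hZ c hcD hct s hs).symm
            have h3 : s * (x * y) * s⁻¹ = (s * x * s⁻¹) * (s * y * s⁻¹) := by group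
            have h4 : s * (c * (y * x)) * s⁻¹ = c * ((s * y * s⁻¹) * (s * x * s⁻¹)) := by
              have h5 : s * (c * (y * x)) * s⁻¹ = (s * c) * s⁻¹ * ((s * y * s⁻¹) * (s * x * s⁻¹)) := by
                group
              rw [h5, h2, mul_inv_cancel_right]
            rw [h3, h4, hz1, hz2] at h1
            have c1 := hZD z1 hz1D hz1t _ hya
            have c2 := hZD z1 hz1D hz1t z2 hz2D
            have c3 := hZD z2 hz2D hz2t _ hxa
            have h6 : x ^ a * z1 * (y ^ a * z2) = x ^ a * y ^ a * (z1 * z2) := by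
              rw [mul_assoc, ← mul_assoc z1, c1]
              group
            have h7 : c * (y ^ a * z2 * (x ^ a * z1)) = c * (y ^ a * x ^ a) * (z1 * z2) := by
              rw [mul_assoc (y ^ a), ← mul_assoc z2, c3, c2]
              group
            rw [h6, h7] at h1
            exact mul_right_cancel h1
          have e3 : c ^ (a * a) = c := mul_right_cancel (e1.symm.trans e2)
          have e4 : c ^ (a ^ 2 - 1) = 1 := by
            rw [zpow_sub, zpow_one, pow_two, e3, mul_inv_cancel]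
          have e5 : c ^ l ^ n = 1 := comm_one hxy (hcD' x hx) hn
          exact hfin (zcop hl e4 e5 hpow.2.2.2.2.2.2.2.2.1)
      · have h1 : S.phi x * S.phi y = S.phi y * S.phi x :=
          (hOCF S.G l hl S.N).2.2.2.2.2 l' hl' (Ne.symm hll) _ (h6 l hl x hx ⟨n, hn⟩) _
            (h6 l' hl' y hy ⟨n', hn'⟩)
        have hct := hker c hcD (hphic h1)
        have hcD' := hZD c hcD hct
        have e5 : c ^ l ^ n = 1 := comm_one hxy (hcD' x hx) hn
        have e6 : c⁻¹ ^ l' ^ n' = 1 := comm_one hyx (Commute.inv_left (show Commute c y from hcD' y hy)) hn'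
        rw [inv_pow, inv_eq_one] at e6
        exact hfin (one_of_cop (cop_pp hl hl' hll n n') e5 e6)
    intro x hx y hy
    have h1 : Dr S.H r ≤ Subgroup.centralizer {x} := by
      refine le_gen fun l' hl' y hy hly => ?_
      have h2 : Dr S.H r ≤ Subgroup.centralizer {y} := by
        refine le_gen fun l hl x hx hlx => ?_
        rw [Subgroup.mem_centralizer_singleton_iff]
        exact hpp l hl l' hl' x hx hlx y hy hly
      have h3 := Subgroup.mem_centralizer_singleton_iff.1 (h2 hx)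
      rw [Subgroup.mem_centralizer_singleton_iff]
      exact h3.symm
    exact (Subgroup.mem_centralizer_singleton_iff.1 (h1 hy)).symm
  -- (3)
  have h3 : ∀ x ∈ Dr S.H r, (∀ v : S.W, x • v = v) → x = 1 :=
    fun x hx hxt => h4 x hx hab fun s hs => (hZ x hx hxt s hs).symm
  have hinj : ∀ x ∈ Dr S.H r, S.phi x = 1 → x = 1 := fun x hx h => h3 x hx (hker x hx h)
  refine ⟨hDC, hab, h3, fun x hx hxs => h4 x hx hab hxs, ?_, h6, ?_, ?_⟩
  · intro hbot
    obtain ⟨l, hl, hlr, t, ht, hCP⟩ := hPNt hNt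
    obtain ⟨-, -, a, Q, hpow, hQe⟩ := hQ l hl t ht hCP
    rw [hbot, Subgroup.map_bot, bot_inf_eq] at hQe
    refine hCP fun g hg => ?_
    have h5 : S.phi t * g * (S.phi t)⁻¹ * g⁻¹ ∈ Q := by
      rw [hpow.2.1]
      exact Subgroup.subset_closure ⟨g, hg, rfl⟩
    rw [← hQe, Subgroup.mem_bot, mul_inv_eq_one, mul_inv_eq_iff_eq_mul] at h5
    exact h5
  · intro l hl s hs hCP x hx hlx
    have h5 := hCP _ (h6 l hl x hx hlx)
    have h7 : s * x * s⁻¹ * x⁻¹ = 1 := by
      refine hinj _ (Subgroup.mul_mem _ (hDn.conj_mem x hx s) (Subgroup.inv_mem _ hx)) ?_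
      rw [map_mul, map_mul, map_mul, map_inv, map_inv, h5, mul_inv_cancel_right, mul_inv_cancel]
    rw [mul_inv_eq_one, mul_inv_eq_iff_eq_mul] at h7
    exact h7
  · intro l hl s hs hCP
    obtain ⟨hl2, hlr, a, Q, hpow, hQe⟩ := hQ l hl s hs hCP
    refine ⟨hl2, hlr, a, Q, hpow, fun x hx hlx => ?_, hQe⟩
    have hxQ : S.phi x ∈ Q := by
      rw [← hQe]
      exact ⟨⟨x, hx, rfl⟩, h6 l hl x hx hlx⟩
    have h7 : s * x * s⁻¹ * (x ^ a)⁻¹ = 1 := by
      refine hinj _ (Subgroup.mul_mem _ (hDn.conj_mem x hx s) (Subgroup.inv_mem _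
        (Subgroup.zpow_mem _ hx a))) ?_
      rw [map_mul, map_mul, map_mul, map_inv, map_inv, map_zpow, hpow.2.2.2.1 _ hxQ,
        mul_inv_cancel]
    exact mul_inv_eq_one.1 h7

end Pool.Agent.Lib.MPbe1941.X
end

section
/-!
# MP_be1941_al, exact bound: the group `D = D(w)`
-/
set_option autoImplicit false

namespace Pool.Agent.Lib.MPbe1941.X

open Pool.Agent.Lib.MPbe1941

namespace PDCM

open PDBM

variable {G : Type} [Group G]

/-- the projection to the `l`-part of an abelian group is a power map -/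
theorem exists_proj [Finite G] (D : Subgroup G) {l : ℕ} (hl : l.Prime) :
    ∃ m : ℕ, (∀ x ∈ D, LE l (x ^ m)) ∧ (∀ x ∈ D, LE l x → x ^ m = x) ∧
      ∀ (A : Type) [Group A] (f : G →* A), ∀ x ∈ D, LE l (f x) → f (x ^ m) = f x := by
  set n := Nat.card D with hn
  have hn0 : n ≠ 0 := Nat.card_pos.ne'
  have hco : (ordProj[l] n).Coprime (ordCompl[l] n) :=
    Nat.Coprime.pow_left _ (Nat.coprime_ordCompl hl hn0)
  obtain ⟨m, hm1, hm2⟩ := Nat.chineseRemainder hco 1 0
  have hcard : ∀ x ∈ D, x ^ n = 1 := by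
    intro x hx
    have h := pow_card_eq_one' (x := (⟨x, hx⟩ : D))
    exact congrArg Subtype.val h
  have hgen : ∀ (A : Type) [Group A] (y : A), y ^ n = 1 → LE l y → y ^ m = y := by
    rintro A _ y hy ⟨j, hj⟩
    have h1 : orderOf y ∣ n := orderOf_dvd_of_pow_eq_one hy
    have h2 : orderOf y ∣ ordProj[l] n := by
      have h3 : orderOf y ∣ ordProj[l] n * ordCompl[l] n := by
        rwa [Nat.ordProj_mul_ordCompl_eq_self]
      refine Nat.Coprime.dvd_of_dvd_mul_right ?_ h3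
      exact Nat.Coprime.coprime_dvd_left (orderOf_dvd_of_pow_eq_one hj)
        (Nat.Coprime.pow_left _ (Nat.coprime_ordCompl hl hn0))
    have h3 : m ≡ 1 [MOD orderOf y] := hm1.of_dvd h2
    have h4 : y ^ m = y ^ 1 := pow_eq_pow_iff_modEq.2 h3
    rwa [pow_one] at h4
  refine ⟨m, fun x hx => ⟨n.factorization l, ?_⟩, fun x hx hlx => hgen G x (hcard x hx) hlx, ?_⟩
  · obtain ⟨k, hk⟩ := (Nat.modEq_zero_iff_dvd).1 hm2
    have h1 : m * l ^ n.factorization l = n * k := by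
      calc m * l ^ n.factorization l = ordCompl[l] n * k * l ^ n.factorization l := by rw [← hk]
        _ = (l ^ n.factorization l * ordCompl[l] n) * k := by ring
        _ = n * k := by rw [Nat.ordProj_mul_ordCompl_eq_self]
    rw [← pow_mul, h1, pow_mul, hcard x hx, one_pow]
  · intro A _ f x hx hlx
    rw [map_pow]
    exact hgen A (f x) (by rw [← map_pow, hcard x hx, map_one]) hlx

theorem exists_pp [Finite G] {x : G} (hx : x ≠ 1) :
    ∃ l j : ℕ, l.Prime ∧ LE l (x ^ j) ∧ x ^ j ≠ 1 := by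
  have h1 : orderOf x ≠ 1 := fun h => hx (orderOf_eq_one_iff.1 h)
  have h2 : orderOf x ≠ 0 := (orderOf_pos x).ne'
  have hl := Nat.minFac_prime h1
  obtain ⟨j, hj⟩ := Nat.minFac_dvd (orderOf x)
  refine ⟨(orderOf x).minFac, j, hl, ⟨1, ?_⟩, ?_⟩
  · rw [pow_one, ← pow_mul, mul_comm, ← hj, pow_orderOf_eq_one]
  · intro h
    have h3 : j ≠ 0 := by
      rintro rfl
      rw [mul_zero] at hj
      exact h2 hj
    have h4 := Nat.le_of_dvd (Nat.pos_of_ne_zero h3) (orderOf_dvd_of_pow_eq_one h)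
    have h5 := hl.two_le
    nlinarith [Nat.pos_of_ne_zero h3]

theorem normal_sSup {A : Set (Subgroup G)} (h : ∀ K ∈ A, K.Normal) : (sSup A).Normal := by
  constructor
  intro n hn g
  have h1 : sSup A ≤ (sSup A).comap (MulAut.conj g).toMonoidHom := by
    refine sSup_le fun K hK x hx => ?_
    show g * x * g⁻¹ ∈ sSup A
    exact (le_sSup hK) ((h K hK).conj_mem x hx g)
  exact h1 hn

end PDCM

open PDBM PDCM

theorem specPDC (hPAA : SpecPAA) (hPDB : SpecPDB) (hPSB : SpecPSB) (hOCF : SpecOCF)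
    (hRLO : SpecRLO) : SpecPDC := by
  intro S w hw
  have hB := hPDB S w hw
  have hOD := (hPSB S).2.2.2.2.2.2.2.2.2
  have hDle : ∀ K : Subgroup S.H, (∀ r T, S.Good w r T → Dr S.H r ≤ K) → S.D w ≤ K := by
    intro K hK
    refine sSup_le ?_
    rintro L ⟨r, T, hg, rfl⟩
    exact hK r T hg
  have hleD : ∀ r T, S.Good w r T → Dr S.H r ≤ S.D w := fun r T hg =>
    le_sSup ⟨r, T, hg, rfl⟩
  have hDn : (S.D w).Normal := by
    refine normal_sSup ?_
    rintro L ⟨r, T, hg, rfl⟩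
    exact (hOD r hg.1.1).2
  have hDC : S.D w ≤ S.C := hDle _ fun r T hg => (hB r T hg).1
  have hinj : ∀ r T, S.Good w r T → ∀ x ∈ Dr S.H r, S.phi x = 1 → x = 1 :=
    fun r T hg x hx h => (hB r T hg).2.2.1 x hx ((S.ker x).1 h).2
  -- (i) the key
  have hkey : ∀ (r l : ℕ) (T : Subgroup S.H), l.Prime → S.Good w r T → (∃ t ∈ T, ¬ S.CP l t) →
      ∀ r₁ T₁, S.Good w r₁ T₁ → ∀ x ∈ Dr S.H r₁, LE l x → x ∈ Dr S.H r := by
    rintro r l T hl hg ⟨t, ht, hCP⟩ r₁ T₁ hg₁ x hx hlx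
    obtain ⟨-, hab₁, -, hcen₁, -, h6₁, h7₁, h8₁⟩ := hB r₁ T₁ hg₁
    obtain ⟨-, -, -, -, -, -, -, h8⟩ := hB r T hg
    by_cases hx1 : x = 1
    · rw [hx1]
      exact Subgroup.one_mem _
    have hs : ∃ s ∈ T₁, ¬ S.CP l s := by
      by_contra hcon
      push Not at hcon
      exact hx1 (hcen₁ x hx fun s hs => h7₁ l hl s hs (hcon s hs) x hx hlx)
    obtain ⟨s, hs, hCPs⟩ := hs
    obtain ⟨-, -, a₁, Q₁, hpow₁, -, hQ₁⟩ := h8₁ l hl s hs hCPs
    obtain ⟨-, hlr, a, Q, hpow, -, -⟩ := h8 l hl t ht hCP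
    have hDn₁ := (hOD r₁ hg₁.1.1).2
    -- the `l`-elements of `D_{r₁}`
    let E : Subgroup S.H :=
      { carrier := {u | u ∈ Dr S.H r₁ ∧ LE l u}
        one_mem' := ⟨Subgroup.one_mem _, 0, one_pow _⟩
        mul_mem' := by
          rintro u v ⟨hu, n, hn⟩ ⟨hv, m, hm⟩
          refine ⟨Subgroup.mul_mem _ hu hv, n + m, ?_⟩
          have hc : Commute u v := hab₁ u hu v hv
          rw [hc.mul_pow, pow_add, pow_mul, hn, one_pow, one_mul, mul_comm, pow_mul, hm, one_pow]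
        inv_mem' := by
          rintro u ⟨hu, n, hn⟩
          exact ⟨Subgroup.inv_mem _ hu, n, by rw [inv_pow, hn, inv_one]⟩ }
    have hEn : ∀ (g u : S.H), u ∈ E → g * u * g⁻¹ ∈ E := by
      rintro g u ⟨hu, n, hn⟩
      exact ⟨hDn₁.conj_mem u hu g, n, by rw [conj_pow, hn, mul_one, mul_inv_cancel]⟩
    have hEQ : ∀ u ∈ E, S.phi u ∈ Q₁ := by
      intro u hu
      rw [← hQ₁]
      exact ⟨⟨u, hu.1, rfl⟩, h6₁ l hl u hu.1 hu.2⟩
    let f : E → E := fun u => ⟨t * u * t⁻¹ * (u : S.H)⁻¹,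
      E.mul_mem (hEn t u u.2) (E.inv_mem u.2)⟩
    have hf : Function.Injective f := by
      rintro ⟨u, hu⟩ ⟨v, hv⟩ huv
      have h1 : t * u * t⁻¹ * u⁻¹ = t * v * t⁻¹ * v⁻¹ := congrArg Subtype.val huv
      have hz : u * v⁻¹ ∈ E := E.mul_mem hu (E.inv_mem hv)
      have h2 : t * (u * v⁻¹) = u * v⁻¹ * t := by
        have hc1 : u * v⁻¹ = v⁻¹ * u := hab₁ u hu.1 v⁻¹ (Subgroup.inv_mem _ hv.1)
        have hc2 : (t * v⁻¹ * t⁻¹) * (t * u * t⁻¹ * u⁻¹) = (t * u * t⁻¹ * u⁻¹) * (t * v⁻¹ * t⁻¹) :=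
          hab₁ _ (hEn t _ (E.inv_mem hv)).1 _ (E.mul_mem (hEn t u hu) (E.inv_mem hu)).1
        have h3 : t * (u * v⁻¹) * t⁻¹ = u * v⁻¹ := by
          calc t * (u * v⁻¹) * t⁻¹ = (t * u * t⁻¹) * (t * v⁻¹ * t⁻¹) := by group
            _ = (t * v⁻¹ * t⁻¹) * (t * u * t⁻¹) := hab₁ _ (hEn t u hu).1 _
                (hEn t _ (E.inv_mem hv)).1
            _ = (t * v⁻¹ * t⁻¹) * ((t * u * t⁻¹ * u⁻¹) * u) := by group
            _ = (t * v⁻¹ * t⁻¹) * ((t * v * t⁻¹ * v⁻¹) * u) := by rw [h1]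
            _ = v⁻¹ * u := by group
            _ = u * v⁻¹ := hc1.symm
        exact mul_inv_eq_iff_eq_mul.1 h3
      have h3 : S.phi t * S.phi (u * v⁻¹) = S.phi (u * v⁻¹) * S.phi t := by
        rw [← map_mul, h2, map_mul]
      have h4 : S.phi (u * v⁻¹) ∈ S.B w l :=
        hpow.2.2.2.2.2.2.1 _ (h6₁ l hl _ hz.1 hz.2) h3
      have h5 : S.phi (u * v⁻¹) ∈ Q₁ ⊓ S.B w l := ⟨hEQ _ hz, h4⟩
      rw [hpow₁.2.2.2.2.1, Subgroup.mem_bot] at h5
      have h6 := hinj r₁ T₁ hg₁ _ hz.1 h5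
      exact Subtype.ext (mul_inv_eq_one.1 h6)
    obtain ⟨⟨y, hy⟩, hyx⟩ := (Finite.injective_iff_surjective.1 hf) ⟨x, hx, hlx⟩
    have hyx' : t * y * t⁻¹ * y⁻¹ = x := congrArg Subtype.val hyx
    obtain ⟨hrp, hMi, hNt⟩ := hg.1
    obtain ⟨hsyl, hTC, hTab, hTw, hTn⟩ := hMi
    obtain ⟨hOn, hDrn, hTO, hDO, hrD, hDT, hDgen⟩ := hRLO S.H S.sol r T hrp hsyl hTab
    have hxL : x ∈ Or S.H r := by
      have e : x = t * (y * t⁻¹ * y⁻¹) := by rw [← hyx']; group
      rw [e]
      exact Subgroup.mul_mem _ (hTO ht) (hOn.conj_mem _ (Subgroup.inv_mem _ (hTO ht)) y)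
    obtain ⟨d, hd, t', ht', hdt⟩ := hDT _ hxL
    obtain ⟨j, hj⟩ := le_of_p hsyl.2.1 ht'
    obtain ⟨n, hn⟩ := hlx
    have h1 : x ^ r ^ j ∈ Dr S.H r := by
      rw [hdt]
      exact pow_mem_mul hDrn hd hj
    exact mem_of_cop (cop_pp hl hrp hlr n j) (by rw [hn]; exact Subgroup.one_mem _) h1
  -- (ii) the groups commute
  have hcomm : ∀ r₁ T₁, S.Good w r₁ T₁ → ∀ r₂ T₂, S.Good w r₂ T₂ → ∀ x ∈ Dr S.H r₁,
      ∀ y ∈ Dr S.H r₂, x * y = y * x := by
    intro r₁ T₁ hg₁ r₂ T₂ hg₂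
    obtain ⟨-, hab₁, -, hcen₁, -, h6₁, h7₁, h8₁⟩ := hB r₁ T₁ hg₁
    obtain ⟨-, hab₂, -, hcen₂, -, h6₂, h7₂, h8₂⟩ := hB r₂ T₂ hg₂
    have hDn₁ := (hOD r₁ hg₁.1.1).2
    have hpp : ∀ l, l.Prime → ∀ l', l'.Prime → ∀ x ∈ Dr S.H r₁, LE l x → ∀ y ∈ Dr S.H r₂,
        LE l' y → x * y = y * x := by
      intro l hl l' hl' x hx hlx y hy hly
      by_cases hll : l = l'
      · subst hll
        by_cases hy1 : y = 1
        · rw [hy1, mul_one, one_mul]
        have hs : ∃ s ∈ T₂, ¬ S.CP l s := by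
          by_contra hcon
          push Not at hcon
          exact hy1 (hcen₂ y hy fun s hs => h7₂ l hl s hs (hcon s hs) y hy hly)
        exact hab₂ x (hkey r₂ l T₂ hl hg₂ hs r₁ T₁ hg₁ x hx hlx) y hy
      · have h1 : S.phi x * S.phi y = S.phi y * S.phi x :=
          (hOCF S.G l hl S.N).2.2.2.2.2 l' hl' (Ne.symm hll) _ (h6₁ l hl x hx hlx) _
            (h6₂ l' hl' y hy hly)
        have h2 : x * y * x⁻¹ * y⁻¹ = 1 := by
          refine hinj r₁ T₁ hg₁ _ ?_ ?_
          · have e : x * y * x⁻¹ * y⁻¹ = x * (y * x⁻¹ * y⁻¹) := by group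
            rw [e]
            exact Subgroup.mul_mem _ hx (hDn₁.conj_mem _ (Subgroup.inv_mem _ hx) y)
          · rw [map_mul, map_mul, map_mul, map_inv, map_inv, h1, mul_inv_cancel_right,
              mul_inv_cancel]
        rw [mul_inv_eq_one, mul_inv_eq_iff_eq_mul] at h2
        exact h2
    intro x hx y hy
    have h1 : Dr S.H r₂ ≤ Subgroup.centralizer {x} := by
      refine le_gen fun l' hl' y hy hly => ?_
      have h2 : Dr S.H r₁ ≤ Subgroup.centralizer {y} := by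
        refine le_gen fun l hl x hx hlx => ?_
        rw [Subgroup.mem_centralizer_singleton_iff]
        exact hpp l hl l' hl' x hx hlx y hy hly
      have h3 := Subgroup.mem_centralizer_singleton_iff.1 (h2 hx)
      rw [Subgroup.mem_centralizer_singleton_iff]
      exact h3.symm
    exact (Subgroup.mem_centralizer_singleton_iff.1 (h1 hy)).symm
  have hab : ∀ x ∈ S.D w, ∀ y ∈ S.D w, x * y = y * x := by
    intro x hx y hy
    have h1 : S.D w ≤ Subgroup.centralizer {x} := by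
      refine hDle _ fun r₂ T₂ hg₂ y hy => ?_
      have h2 : S.D w ≤ Subgroup.centralizer {y} := by
        refine hDle _ fun r₁ T₁ hg₁ x hx => ?_
        rw [Subgroup.mem_centralizer_singleton_iff]
        exact hcomm r₁ T₁ hg₁ r₂ T₂ hg₂ x hx y hy
      have h3 := Subgroup.mem_centralizer_singleton_iff.1 (h2 hx)
      rw [Subgroup.mem_centralizer_singleton_iff]
      exact h3.symm
    exact (Subgroup.mem_centralizer_singleton_iff.1 (h1 hy)).symm
  -- a criterion
  have hcrit : ∀ l, l.Prime → ∀ K : Subgroup S.H, (∀ r T, S.Good w r T → ∀ x ∈ Dr S.H r, LE l x →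
      x ∈ K) → ∀ x ∈ S.D w, LE l x → x ∈ K := by
    intro l hl K hK x hx hlx
    obtain ⟨m, hm1, hm2, -⟩ := exists_proj (S.D w) hl
    let M : Subgroup S.H :=
      { carrier := {u | u ∈ S.D w ∧ u ^ m ∈ K}
        one_mem' := ⟨Subgroup.one_mem _, by rw [one_pow]; exact K.one_mem⟩
        mul_mem' := by
          rintro u v ⟨hu, hu'⟩ ⟨hv, hv'⟩
          refine ⟨Subgroup.mul_mem _ hu hv, ?_⟩
          have hc : Commute u v := hab u hu v hv
          rw [hc.mul_pow]
          exact K.mul_mem hu' hv'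
        inv_mem' := by
          rintro u ⟨hu, hu'⟩
          exact ⟨Subgroup.inv_mem _ hu, by rw [inv_pow]; exact K.inv_mem hu'⟩ }
    have hM : S.D w ≤ M := by
      refine hDle M fun r T hg u hu => ⟨hleD r T hg hu, ?_⟩
      exact hK r T hg _ (Subgroup.pow_mem _ hu m) (hm1 u (hleD r T hg hu))
    have h1 := (hM hx).2
    rwa [hm2 x hx hlx] at h1
  -- (3)
  have h3 : ∀ (r l : ℕ) (T : Subgroup S.H), l.Prime → S.Good w r T → (∃ t ∈ T, ¬ S.CP l t) →
      ∀ x ∈ S.D w, LE l x → x ∈ Dr S.H r := fun r l T hl hg ht =>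
    hcrit l hl _ fun r₁ T₁ hg₁ x hx hlx => hkey r l T hl hg ht r₁ T₁ hg₁ x hx hlx
  -- (4)
  have h4 : ∀ l, l.Prime → ∀ x ∈ S.D w, LE l x → x ≠ 1 →
      ∃ r T, S.Good w r T ∧ ∃ t ∈ T, ¬ S.CP l t := by
    intro l hl x hx hlx hx1
    by_contra hcon
    push Not at hcon
    refine hx1 (Subgroup.mem_bot.1 (hcrit l hl ⊥ (fun r T hg y hy hly => ?_) x hx hlx))
    obtain ⟨-, -, -, hcen, -, -, h7, -⟩ := hB r T hg
    exact Subgroup.mem_bot.2 (hcen y hy fun s hs => h7 l hl s hs (hcon r T hg s hs) y hy hly)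
  -- an element `≠ 1` has a power in some `D_r`
  have h9 : ∀ x ∈ S.D w, x ≠ 1 → ∃ j r T, S.Good w r T ∧ x ^ j ≠ 1 ∧ x ^ j ∈ Dr S.H r := by
    intro x hx hx1
    obtain ⟨l, j, hl, hlj, hj⟩ := exists_pp hx1
    obtain ⟨r, T, hg, ht⟩ := h4 l hl _ (Subgroup.pow_mem _ hx j) hlj hj
    exact ⟨j, r, T, hg, hj, h3 r l T hl hg ht _ (Subgroup.pow_mem _ hx j) hlj⟩
  refine ⟨⟨hDn, hDC, hab⟩, ?_, h3, h4, ?_, ?_, ?_, ?_⟩
  · intro x hx hxt
    by_contra hx1
    obtain ⟨j, r, T, hg, hj, hxr⟩ := h9 x hx hx1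
    refine hj ((hB r T hg).2.2.1 _ hxr fun v => ?_)
    clear hj hxr
    induction j with
    | zero => rw [pow_zero, one_smul]
    | succ j ih => rw [pow_succ, mul_smul, hxt, ih]
  · intro r T hg hd
    have : Fact r.Prime := ⟨hg.1.1⟩
    obtain ⟨⟨x, hx⟩, hox⟩ := exists_prime_orderOf_dvd_card' r hd
    rw [Subgroup.orderOf_mk] at hox
    have hx1 : x ≠ 1 := by
      rintro rfl
      rw [orderOf_one] at hox
      exact hg.1.1.one_lt.ne hox
    obtain ⟨r', T', hg', t', ht', hCP⟩ := h4 r hg.1.1 x hx ⟨1, by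
      rw [pow_one, ← hox, pow_orderOf_eq_one]⟩ hx1
    refine hCP fun g hgP => ?_
    rw [(hPAA S w r T hw.1 hg.1.1 hg.1.2.1).2.1, Subgroup.mem_bot] at hgP
    rw [hgP, mul_one, one_mul]
  · intro x hx hxT
    by_contra hx1
    obtain ⟨j, r, T, hg, hj, hxr⟩ := h9 x hx hx1
    refine hj ((hB r T hg).2.2.2.1 _ hxr fun s hs => ?_)
    exact (Commute.pow_right (show Commute s x from hxT r T hg s hs) j)
  · intro l hl x hx hlx
    by_cases hx1 : x = 1
    · rw [hx1, map_one]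
      exact Subgroup.one_mem _
    obtain ⟨r, T, hg, ht⟩ := h4 l hl x hx hlx hx1
    exact (hB r T hg).2.2.2.2.2.1 l hl x (h3 r l T hl hg ht x hx hlx) hlx
  · intro r l T hl hg t ht hCP
    obtain ⟨hl2, hlr, a, Q, hpow, ha, hQ⟩ := (hB r T hg).2.2.2.2.2.2.2 l hl t ht hCP
    refine ⟨hl2, hlr, a, Q, hpow, fun x hx hlx =>
      ha x (h3 r l T hl hg ⟨t, ht, hCP⟩ x hx hlx) hlx, ?_⟩
    rw [← hQ]
    apply le_antisymm
    · rintro y ⟨⟨x, hx, rfl⟩, hy⟩
      refine ⟨?_, hy⟩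
      obtain ⟨m, hm1, -, hm3⟩ := exists_proj (S.D w) hl
      refine ⟨x ^ m, h3 r l T hl hg ⟨t, ht, hCP⟩ _ (Subgroup.pow_mem _ hx m) (hm1 x hx), ?_⟩
      exact hm3 S.G S.phi x hx (le_of_p ((hPSB S).2.2.2.1 l hl).2.1 hy)
    · exact inf_le_inf_right _ (Subgroup.map_mono (hleD r T hg))

end Pool.Agent.Lib.MPbe1941.X
end

section
/-!
# Module PDG: criterion for good primes
-/
set_option autoImplicit false

namespace Pool.Agent.Lib.MPbe1941.X

open Pool.Agent.Lib.MPbe1941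

namespace PDGM

open FTNM

/-- `{h : CP l h}` as a subgroup -/
def MC (S : PS) (l : ℕ) : Subgroup S.H := (Subgroup.centralizer (S.P l : Set S.G)).comap S.phi

theorem mem_MC (S : PS) (l : ℕ) (h : S.H) : h ∈ MC S l ↔ S.CP l h := by
  rw [MC, Subgroup.mem_comap, Subgroup.mem_centralizer_iff]
  exact ⟨fun H g hg => (H g hg).symm, fun H g hg => (H g hg).symm⟩

theorem MC_normal (S : PS) {l : ℕ} (hP : (S.P l).Normal) : (MC S l).Normal := by
  refine ⟨fun h hh g => ?_⟩
  rw [mem_MC] at hh ⊢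
  intro y hy
  have h1 : S.phi g⁻¹ * y * (S.phi g⁻¹)⁻¹ ∈ S.P l := hP.conj_mem y hy _
  have h2 := hh _ h1
  have h3 : S.phi (g * h * g⁻¹) = S.phi g * S.phi h * (S.phi g)⁻¹ := by
    rw [map_mul, map_mul, map_inv]
  rw [map_inv, inv_inv] at h2
  rw [h3]
  calc S.phi g * S.phi h * (S.phi g)⁻¹ * y
      = S.phi g * (S.phi h * ((S.phi g)⁻¹ * y * S.phi g)) * (S.phi g)⁻¹ := by group
    _ = S.phi g * ((S.phi g)⁻¹ * y * S.phi g * S.phi h) * (S.phi g)⁻¹ := by rw [h2]
    _ = y * (S.phi g * S.phi h * (S.phi g)⁻¹) := by group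

/-- a subgroup containing a Sylow subgroup and normal contains `Or` -/
theorem or_le {H : Type} [Group H] [Finite H] {r : ℕ} (hr : r.Prime) {T M : Subgroup H}
    (hT : SylIn r ⊤ T) (hM : M.Normal) (hTM : T ≤ M) : Or H r ≤ M := by
  refine sSup_le fun R hR x hx => ?_
  obtain ⟨g, _, hg⟩ := (CO.specSYL H r hr).2.2.1 ⊤ T R hT hR
  have h1 := hTM ((hg x).1 hx)
  have h2 := hM.conj_mem _ h1 g
  have h3 : g * (g⁻¹ * x * g) * g⁻¹ = x := by group
  rwa [h3] at h2

/-- an element with powers of order prime to every prime in a normal subgroup is in it -/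
theorem mem_of_pow {H : Type} [Group H] [Finite H] {M : Subgroup H} (hM : M.Normal) {x : H}
    (h : ∀ t : ℕ, t.Prime → ∃ n : ℕ, ¬ t ∣ n ∧ x ^ n ∈ M) : x ∈ M := by
  have := hM
  rw [← QuotientGroup.eq_one_iff, ← orderOf_eq_one_iff]
  by_contra hne
  obtain ⟨t, ht, hd⟩ := Nat.exists_prime_and_dvd hne
  obtain ⟨n, hn, hx⟩ := h t ht
  refine hn (hd.trans (orderOf_dvd_of_pow_eq_one ?_))
  rw [← QuotientGroup.mk_pow]
  exact (QuotientGroup.eq_one_iff _).2 hx

end PDGM

open PDGM FTNM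

theorem specPDG (hPSB : SpecPSB) (hPAA : SpecPAA) (hFTN : SpecFTN) (hCEN : SpecCEN)
    (hRLO : SpecRLO) : SpecPDG := by
  intro S w r T hw hPr hr2 hcp2 hmain
  have hPr' := hPr
  obtain ⟨hr, hM, hNt⟩ := hPr
  have hM' := hM
  obtain ⟨hT, hTC, hab, hfix, hnor⟩ := hM
  obtain ⟨hNn, hNs, hNf, hP, hF, hG6, hH7, hN8, hC9, hO10⟩ := hPSB S
  obtain ⟨hOn, hDn, hTO, hDO, hrD, hOd, hDgen⟩ := hRLO S.H S.sol r T hr hT hab
  have hA : Or S.H r ≤ MC S 2 := or_le hr hT (MC_normal S (hP 2 Nat.prime_two).1)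
    (fun t ht => (mem_MC S 2 t).2 (hcp2 t ht))
  have hOC : Or S.H r ≤ S.C := hC9 r T hr hT hTC
  have hPr1 : S.P r = ⊥ := (hPAA S w r T hw hr hM').2.1
  refine ⟨hPr', hr2, fun h hh => (mem_MC S 2 h).1 (hA hh), ?_⟩
  refine hFTN S.G S.N _ hNs (Subgroup.map_mono (hDO.trans hOC)) ?_ ?_
  · intro n _ d hd
    have := hDn.map S.phi S.surj
    exact this.conj_mem d hd n
  · rintro l hl _ ⟨x, hx, rfl⟩ hlx
    by_cases hl2 : l = 2
    · subst hl2
      exact (mem_MC S 2 x).1 (hA (hDO hx))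
    by_cases hlr : l = r
    · subst hlr
      intro y hy
      have hy' : y ∈ S.P l := hy
      rw [hPr1, Subgroup.mem_bot] at hy'
      rw [hy', one_mul, mul_one]
    have hMn := MC_normal S (hP l hl).1
    have hxM : x ∈ MC S l := by
      refine mem_of_pow hMn fun t ht => ?_
      by_cases htl : t = l
      · subst htl
        refine ⟨orderOf (S.phi x), hlx, ?_⟩
        rw [mem_MC]
        intro g _
        rw [map_pow, pow_orderOf_eq_one, one_mul, mul_one]
      · have hNrm : XF.Nrm T (Dr S.H r) := fun s _ k hk => hDn.conj_mem k hk s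
        obtain ⟨T₁, hT₁, hTT₁⟩ := XF.exists_inv_sylow hr hNrm hT.2.1 hrD ht
        have hsolD : Group.IsSolvable (Dr S.H r) := by
          have := S.sol
          infer_instance
        obtain ⟨n, hn, hxn⟩ := hCEN S.H r t T (Dr S.H r) (MC S l) T₁ hr ht hT.2.1 hrD hsolD hNrm
          hDgen.le hMn hT₁ hTT₁ (fun s hs y hy => (mem_MC S l _).2
            (hmain l t hl hl2 hlr ht htl T₁ hT₁ hTT₁ s hs y hy)) x hx
        exact ⟨n, hn, hxn⟩
    exact (mem_MC S l x).1 hxM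

end Pool.Agent.Lib.MPbe1941.X
end

section
/-!
# MP_be1941_al (exact bound), module PE2: a good prime moves every full character of `D(w)`
-/
set_option autoImplicit false

namespace Pool.Agent.Lib.MPbe1941.X

open Pool.Agent.Lib.MPbe1941

namespace PE2M

/-- A linear character of the subgroup `D` as a homomorphism to the units. -/
theorem lin_hom {H : Type} [Group H] {D : Subgroup H} {bet : H → ℂ} (hL : Lin D bet) :
    ∃ ψ : D →* ℂˣ, ∀ x : D, ((ψ x : ℂˣ) : ℂ) = bet x := by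
  let f : D →* ℂ :=
    { toFun := fun x => bet x
      map_one' := hL.1
      map_mul' := fun x y => hL.2 x x.2 y y.2 }
  exact ⟨f.toHomUnits, fun x => rfl⟩

/-- An element of `l`-power order with `b ^ (a - 1) = 1`, `l ∤ a - 1`, is trivial. -/
theorem eq_one_of {G : Type*} [Group G] {l : ℕ} (hl : l.Prime) {b : G} {n : ℕ} {a : ℤ}
    (h1 : b ^ l ^ n = 1) (h2 : b ^ a = b) (h3 : ¬ (l : ℤ) ∣ a - 1) : b = 1 := by
  have h4 : b ^ (a - 1) = 1 := by rw [zpow_sub_one, h2, mul_inv_cancel]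
  have h5 : orderOf b ∣ l ^ n := orderOf_dvd_of_pow_eq_one h1
  have h6 : (orderOf b : ℤ) ∣ a - 1 := orderOf_dvd_iff_zpow_eq_one.2 h4
  obtain ⟨k, -, hk⟩ := (Nat.dvd_prime_pow hl).1 h5
  rcases Nat.eq_zero_or_pos k with rfl | hk0
  · rw [pow_zero] at hk
    exact orderOf_eq_one_iff.1 hk
  · exfalso
    apply h3
    have h7 : l ∣ orderOf b := by rw [hk]; exact dvd_pow_self l hk0.ne'
    exact (Int.natCast_dvd_natCast.2 h7).trans h6

end PE2M

open PE2M in
theorem specPE2 (hPDC : SpecPDC) (hPAA : SpecPAA) (hPSB : SpecPSB) : SpecPE2 := by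
  intro S w hE r T hG bet hL hF R hR
  by_contra hcon
  push Not at hcon
  obtain ⟨⟨hr, hMi, hNt⟩, -, -, -⟩ := id hG
  obtain ⟨l, hl, -, t, ht, hCP⟩ := (hPAA S w r T hE.1 hr hMi).2.2.2 hNt
  obtain ⟨⟨hDn, -, -⟩, -, -, -, -, -, -, h8⟩ := hPDC S w hE
  obtain ⟨-, -, a, Q, hPow, hact, hDQ⟩ := h8 r l T hl hG t ht hCP
  obtain ⟨hQP, hQc, -, -, -, -, -, ha1, -, -, -⟩ := hPow
  -- `Q` is not trivial
  have hQ : ∃ y ∈ Q, y ≠ 1 := by
    by_contra hno
    push Not at hno
    apply hCP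
    intro x hx
    have h1 : S.phi t * x * (S.phi t)⁻¹ * x⁻¹ ∈ Q := by
      rw [hQc]
      exact Subgroup.subset_closure ⟨x, hx, rfl⟩
    have h2 := hno _ h1
    rw [mul_inv_eq_one, mul_inv_eq_iff_eq_mul] at h2
    exact h2
  obtain ⟨y, hyQ, hy1⟩ := hQ
  have hyD : y ∈ (S.D w).map S.phi := by
    have h := hyQ
    rw [← hDQ] at h
    exact h.1
  obtain ⟨x, hxD, rfl⟩ := hyD
  -- `l` divides the order of `D`
  have hlD : l ∣ Nat.card (S.D w) := by
    obtain ⟨-, -, -, h4, -⟩ := hPSB S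
    have : Fact l.Prime := ⟨hl⟩
    have hpg := (h4 l hl).2.1
    obtain ⟨k, hk⟩ := (IsPGroup.iff_orderOf.1 hpg) ⟨S.phi x, hQP hyQ⟩
    rw [Subgroup.orderOf_mk] at hk
    have hk0 : k ≠ 0 := by
      rintro rfl
      rw [pow_zero] at hk
      exact hy1 (orderOf_eq_one_iff.1 hk)
    have h5 : l ∣ orderOf (S.phi x) := by
      rw [hk]
      exact dvd_pow_self l hk0
    have h6 : orderOf (S.phi x) ∣ orderOf x := orderOf_map_dvd S.phi x
    have h7 : orderOf x ∣ Nat.card (S.D w) := by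
      have := orderOf_dvd_natCard (⟨x, hxD⟩ : S.D w)
      rwa [Subgroup.orderOf_mk] at this
    exact h5.trans (h6.trans h7)
  obtain ⟨x₀, hx₀, ⟨n, hn⟩, hb⟩ := hF l hl hlD
  obtain ⟨g, -, hg⟩ := (CO.specSYL S.H r hr).2.2.1 ⊤ T R hMi.1 hR
  have ht' : g * t * g⁻¹ ∈ R := by
    rw [hg]
    have : g⁻¹ * (g * t * g⁻¹) * g = t := by group
    rw [this]
    exact ht
  have hfix := hcon _ ht' x₀ hx₀
  have hxg : g⁻¹ * x₀ * g ∈ S.D w := by
    have := hDn.conj_mem x₀ hx₀ g⁻¹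
    rwa [inv_inv] at this
  have hLE : LE l (g⁻¹ * x₀ * g) := by
    refine ⟨n, ?_⟩
    have h1 : g⁻¹ * x₀ * g = g⁻¹ * x₀ * (g⁻¹)⁻¹ := by rw [inv_inv]
    rw [h1, conj_pow, hn]
    group
  have h9 := hact _ hxg hLE
  have h10 : g * t * g⁻¹ * x₀ * (g * t * g⁻¹)⁻¹ = x₀ ^ a := by
    have h1 : g * t * g⁻¹ * x₀ * (g * t * g⁻¹)⁻¹ = g * (t * (g⁻¹ * x₀ * g) * t⁻¹) * g⁻¹ := by
      group
    have h2 : g⁻¹ * x₀ * g = g⁻¹ * x₀ * (g⁻¹)⁻¹ := by rw [inv_inv]
    rw [h1, h9, h2, conj_zpow]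
    group
  rw [h10] at hfix
  obtain ⟨ψ, hψ⟩ := lin_hom hL
  apply hb
  have h11 : (ψ ⟨x₀, hx₀⟩) = 1 := by
    refine eq_one_of hl (n := n) (a := a) ?_ ?_ ha1
    · rw [← map_pow]
      have : (⟨x₀, hx₀⟩ : S.D w) ^ l ^ n = 1 := Subtype.ext hn
      rw [this, map_one]
    · rw [← map_zpow]
      apply Units.ext
      rw [hψ, hψ]
      exact hfix
  have h12 := hψ ⟨x₀, hx₀⟩
  rw [h11] at h12
  exact h12.symm

end Pool.Agent.Lib.MPbe1941.X
end

section
/-!
# PSB: basic facts on the setting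
-/
set_option autoImplicit false

namespace Pool.Agent.Lib.MPbe1941.X

open Pool.Agent.Lib.MPbe1941

namespace PSBM

/-- The fixed points of a normal subgroup of `H`. -/
theorem triv_H (S : PS) (K : Subgroup S.H) (hK : K.Normal) (w : S.W) (hw : w ≠ 0)
    (h : ∀ g ∈ K, g • w = w) : ∀ g ∈ K, ∀ v : S.W, g • v = v := by
  let A : AddSubgroup S.W :=
    { carrier := {v | ∀ g ∈ K, g • v = v}
      zero_mem' := fun g _ => smul_zero g
      add_mem' := fun {a b} ha hb g hg => by rw [smul_add, ha g hg, hb g hg]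
      neg_mem' := fun {a} ha g hg => by rw [smul_neg, ha g hg] }
  have hA : A = ⊥ ∨ A = ⊤ := by
    refine S.irr A fun h' x hx g hg => ?_
    have h1 : h'⁻¹ * g * h' ∈ K := by
      have := hK.conj_mem g hg h'⁻¹
      rwa [inv_inv] at this
    have h2 : (h'⁻¹ * g * h') • x = x := hx _ h1
    calc g • h' • x = h' • (h'⁻¹ * g * h') • x := by
          rw [← mul_smul, ← mul_smul]
          congr 1
          group
      _ = h' • x := by rw [h2]
  rcases hA with hA | hA
  · exfalso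
    have h1 : w ∈ A := h
    rw [hA, AddSubgroup.mem_bot] at h1
    exact hw h1
  · intro g hg v
    have h1 : v ∈ A := by rw [hA]; exact AddSubgroup.mem_top v
    exact h1 g hg

end PSBM

open PSBM in
theorem specPSB (hOCF : SpecOCF) (hFTF : SpecFTF) : SpecPSB := by
  intro S
  have hNn : S.N.Normal := S.nor.map _ S.surj
  have hsol : Group.IsSolvable S.H := S.sol
  refine ⟨hNn, ?_, ?_, ?_, ?_, ?_, triv_H S, ?_, ?_, ?_⟩
  · have h1 : Group.IsSolvable S.G := Group.isSolvable_of_surjective S.surj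
    infer_instance
  · rintro _ ⟨c, hc, rfl⟩ h
    rw [S.ker]
    exact ⟨hc, fun w => by rw [← S.cmp]; exact h w⟩
  · intro l hl
    obtain ⟨h1, h2, h3, -⟩ := hOCF S.G l hl S.N
    exact ⟨⟨fun k hk g => h3 g (fun n hn => hNn.conj_mem n hn g) k hk⟩, h2, h1⟩
  · obtain ⟨h1, h2, -⟩ := hFTF S.G S.N
    exact ⟨⟨fun k hk g => h2 g (fun n hn => hNn.conj_mem n hn g) k hk⟩, h1⟩
  · intro K hK w hw h
    have h1 := triv_H S (K.comap S.phi) (hK.comap _) w hw
      (fun g hg => by rw [← S.cmp]; exact h _ hg)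
    intro g hg v
    obtain ⟨h', rfl⟩ := S.surj g
    rw [S.cmp]
    exact h1 h' hg v
  · rintro _ ⟨c, hc, rfl⟩
    exact ⟨c, hc, rfl, fun v => (S.cmp c v).symm⟩
  · intro r T hr hT hTC
    refine sSup_le fun R hR => ?_
    obtain ⟨g, -, hg⟩ := (CO.specSYL S.H r hr).2.2.1 ⊤ T R hT hR
    intro x hx
    have h1 := hTC ((hg x).1 hx)
    have h2 := S.nor.conj_mem _ h1 g
    have e : g * (g⁻¹ * x * g) * g⁻¹ = x := by group
    rwa [e] at h2
  · intro r hr
    have hOr : (Or S.H r).Normal := by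
      refine ⟨fun k hk g => ?_⟩
      have h1 : Or S.H r ≤ (Or S.H r).comap (MulAut.conj g).toMonoidHom := by
        refine sSup_le fun R hR k hk => ?_
        show g * k * g⁻¹ ∈ Or S.H r
        have h2 : SylIn r ⊤ (R.map (MulAut.conj g).toMonoidHom) := by
          refine (CO.specSYL S.H r hr).2.2.2.2.2.1 ⊤ R _ hR g (Subgroup.mem_top g) fun x => ?_
          constructor
          · rintro ⟨y, hy, rfl⟩
            show g⁻¹ * (g * y * g⁻¹) * g ∈ R
            have e : g⁻¹ * (g * y * g⁻¹) * g = y := by group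
            rwa [e]
          · intro hx
            refine ⟨_, hx, ?_⟩
            show g * (g⁻¹ * x * g) * g⁻¹ = x
            group
        exact (le_sSup h2 : _ ≤ Or S.H r) ⟨k, hk, rfl⟩
      exact h1 hk
    exact ⟨hOr, Subgroup.commutator_normal _ _⟩

end Pool.Agent.Lib.MPbe1941.X
end
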