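import Pool.Agent.Lib.MP_be1941_al.X.SpecU

/-!
# MP_be1941_al EXACT: the abstract data of Case I and Case II, and the end of the proof

Owner helper15. Text: /team-store/MP_be1941_al_EXACT.md (numbers refer to it).

* `Ch C S0 S D K`: a chain of states. `S0` is the stabiliser of the first choice, `S` the
  stabiliser of all choices, `D ≤ S` normal in `S`, `K` a complement of `D` in `S` (the state is `E K`).
* `Iq C T c S D`: the state inequality `|A| + c ≤ |M|`.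
* `DatI`, `DatII`: what the reduction (block R, helper4) delivers in Case I and Case II.

Files `X/Xxx.lean`, `import Pool.Agent.Lib.MP_be1941_al.X.SpecD`, namespace
`Pool.Agent.Lib.MPbe1941.X`, `theorem specXXX (hYYY : SpecYYY) .. : SpecXXX`; own lemmas in
the namespace `Pool.Agent.Lib.MPbe1941.X.XXXM`.
-/

set_option autoImplicit false

namespace Pool.Agent.Lib.MPbe1941.X

open Pool.Agent.Lib.MPbe1941
open Pool.Agent.Lib.MPbe1941.XF
open scoped commutatorElement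

section

variable {H : Type} [Group H]

/-- Chains of states (steps `(D', β')`, `D' ≤ C`). -/
inductive Ch (C S0 : Subgroup H) : Subgroup H → Subgroup H → Subgroup H → Prop
  | base : Ch C S0 S0 ⊥ S0
  | step {S D K : Subgroup H} (D1 K1 K' : Subgroup H) (bet : H → ℂ) : Ch C S0 S D K → D1 ≤ K →
      D1 ≤ C → (∀ x ∈ D1, ∀ y ∈ D1, x * y = y * x) → (∀ k ∈ K, ∀ x ∈ D1, k * x * k⁻¹ ∈ D1) →
      K1 ≤ K → D1 ⊓ K1 = ⊥ → D1 ⊔ K1 = K → Lin D1 bet →
      (∀ k, k ∈ K' ↔ k ∈ K1 ∧ FixB D1 bet k) → Ch C S0 (D ⊔ D1 ⊔ K') (D ⊔ D1) K'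

/-- The killed primes. -/
noncomputable def chA (T : Finset ℕ) (S : Subgroup H) : Finset ℕ :=
  open Classical in T.filter fun r => r ∣ S.index

/-- The missed primes. -/
noncomputable def chM (C : Subgroup H) (T : Finset ℕ) (S D : Subgroup H) : Finset ℕ :=
  open Classical in T.filter fun r => ¬ r ∣ S.index ∧ ∃ R : Subgroup H, SylIn r ⊤ R ∧ R ≤ S ∧
    R ≤ C ∧ (∀ x ∈ R, ∀ y ∈ R, x * y * x⁻¹ * y⁻¹ ∈ D) ∧ ∀ s ∈ S, ∀ t ∈ R, s * t * s⁻¹ ∈ D ⊔ R

/-- The state inequality. -/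
def Iq (C : Subgroup H) (T : Finset ℕ) (c : ℕ) (S D : Subgroup H) : Prop :=
  (chA T S).card + c ≤ (chM C T S D).card

/-- The elements of `C` acting trivially on `A`. -/
def CenX {X : Type} [AddCommGroup X] [DistribMulAction H X] (C : Subgroup H) (A : AddSubgroup X) :
    Subgroup H where
  carrier := {c | c ∈ C ∧ ∀ x ∈ A, c • x = x}
  one_mem' := ⟨C.one_mem, fun x _ => one_smul H x⟩
  mul_mem' := fun {a b} ha hb => ⟨C.mul_mem ha.1 hb.1, fun x hx => by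
    rw [mul_smul, hb.2 x hx, ha.2 x hx]⟩
  inv_mem' := fun {a} ha => ⟨C.inv_mem ha.1, fun x hx => by
    rw [inv_smul_eq_iff, ha.2 x hx]⟩

/-- `A` is invariant under `H`. -/
def HInv (H : Type) {X : Type} [Group H] [AddCommGroup X] [DistribMulAction H X]
    (A : AddSubgroup X) : Prop := ∀ h : H, ∀ x ∈ A, h • x ∈ A

end

/-- **Case I** (4.1). `W = Hom(N, ℂ*)`, `C = C_H(F')`. -/
structure DatI (H W : Type) [Group H] [AddCommGroup W] [DistribMulAction H W] (C : Subgroup H)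
    (T : Finset ℕ) : Prop where
  finH : Finite H
  finW : Finite W
  ntW : Nontrivial W
  sol : Group.IsSolvable H
  irr : ∀ A : AddSubgroup W, HInv H A → A = ⊥ ∨ A = ⊤
  nor : C.Normal
  faith : ∀ c ∈ C, (∀ x : W, c • x = x) → c = 1
  tp : ∀ r ∈ T, r.Prime ∧ r ∣ Nat.card H
  st : ∀ (v : W) (S D K : Subgroup H), Ch C (Stb ⊤ v) S D K → Iq C T 1 S D

/-- **Case II** (4.2). `X = Hom(P/Φ(P), ℂ*)`, `Zd = Hom(Z, ℂ*)`, `C = C_H(F')`, `R μ` is the annihilator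
of the radical of `B_μ(x,y) = μ [x,y]` in `X` (so `R μ` is the image of `x ↦ B_μ(x, ·)`). -/
structure DatII (H X Zd : Type) [Group H] [AddCommGroup X] [DistribMulAction H X]
    [AddCommGroup Zd] [DistribMulAction H Zd] (C : Subgroup H) (T : Finset ℕ) (p : ℕ)
    (R : Zd → AddSubgroup X) : Prop where
  finH : Finite H
  finX : Finite X
  finZ : Finite Zd
  ntX : Nontrivial X
  ntZ : Nontrivial Zd
  sol : Group.IsSolvable H
  pp : p.Prime
  pn : ¬ p ∣ Nat.card H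
  px : ∀ x : X, p • x = 0
  pz : ∀ μ : Zd, p • μ = 0
  nor : C.Normal
  faith : ∀ c ∈ C, (∀ x : X, c • x = x) → c = 1
  irr : ∀ A : AddSubgroup Zd, HInv H A → A = ⊥ ∨ A = ⊤
  tp : ∀ r ∈ T, r.Prime ∧ r ∣ Nat.card H
  /-- 1.3 -/
  idx : Idx H T
  /-- L-states -/
  stL : ∀ X1 X2 : AddSubgroup X, HInv H X1 → HInv H X2 → X1 ⊓ X2 = ⊥ → X1 ⊔ X2 = ⊤ →
    ∀ v ∈ X1, ∀ S D K : Subgroup H, Ch (CenX C X2) (Stb ⊤ v) S D K → Iq (CenX C X2) T 0 S D
  /-- N-states -/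
  stN : ∀ (μ : Zd) (ν : X), μ ≠ 0 → ∀ S0 : Subgroup H,
    (∀ h, h ∈ S0 ↔ h • μ = μ ∧ h • ν - ν ∈ R μ) →
    ∀ S D K : Subgroup H, Ch C S0 S D K → Iq C T 2 S D
  rin : ∀ (μ : Zd) (h : H), h • μ = μ → ∀ x ∈ R μ, h • x ∈ R μ
  ndg : (∀ μ : Zd, μ ≠ 0 → R μ = ⊤) → p * Nat.card Zd ≤ Nat.card X
  /-- 9.1 -/
  spl : ∀ X1 X2 : AddSubgroup X, HInv H X1 → HInv H X2 → X1 ⊓ X2 = ⊥ → X1 ⊔ X2 = ⊤ → X2 ≠ ⊥ →
    ∀ U : Subgroup H, U.Normal → (∀ u ∈ U, ∀ μ : Zd, u • μ = μ) →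
      (∀ x ∈ X1, (∀ u ∈ U, u • x = x) → x = 0) → (∀ u ∈ U, ∀ x ∈ X2, u • x = x) →
      ∀ c ∈ C, (∀ x ∈ X2, c • x = x) → ∀ μ : Zd, c • μ = μ

/-! ## 1. Translation lemmas -/

/-- **SYX** [80 lines]. `r` divides the index of `S` iff no Sylow `r`-subgroup of `H` is contained in
`S`. PROOF. If `r ∤ |H : S|` a Sylow `r`-subgroup of `S` is one of `H`. If `R ≤ S` is Sylow in `H` then
`|H : S|` divides `|H : R|`. (`SylIn r ⊤ R` means: `R` is an `r`-group, `r ∤ R.relIndex ⊤ = R.index`.) -/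
def SpecSYX : Prop :=
  ∀ (H : Type) [Group H] [Finite H] (S : Subgroup H) (r : ℕ), r.Prime →
    (r ∣ S.index ↔ ∀ R : Subgroup H, SylIn r ⊤ R → ∃ h ∈ R, h ∉ S)

/-- **CH1** [150 lines]. A state `(v, D, bet)` in the sense of `StV` is a chain of length one.
(hyps: SYX)
PROOF. `S0 := Stb ⊤ v`, `K1` the complement in `StV.cpl` (`D ⊔ K1 = S0`: `⊆` by `fx` and the condition on
`K1`), `K' := {k ∈ K1 : FixB D bet k}`. `S := ⊥ ⊔ D ⊔ K'` is the group of the `h` with `FxS v D bet h`: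
`h = d k`, and `d ∈ D` fixes `bet` (`D` abelian), so `h` fixes `bet` iff `k` does
(`bet (d (k x k⁻¹) d⁻¹) = bet (k x k⁻¹)`). The set `chA T S` is `setA T v D bet` (SYX), `chM C T S D` is
`setM C T v D bet` (if some Sylow `R ≤ S` then `r ∤ S.index`). -/
def SpecCH1 : Prop :=
  ∀ (H X : Type) [Group H] [Finite H] [AddCommGroup X] [DistribMulAction H X] (C : Subgroup H)
    (T : Finset ℕ) (v : X) (D : Subgroup H) (bet : H → ℂ), (∀ r ∈ T, r.Prime) → StV C v D bet →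
    ∃ S K : Subgroup H, Ch C (Stb ⊤ v) S D K ∧ (∀ h, h ∈ S ↔ FxS v D bet h) ∧
      chA T S = setA T v D bet ∧ chM C T S D = setM C T v D bet

/-- **DI** [120 lines]. Case I is impossible. (hyps: CNT, CH1, SYX)
PROOF. CNT (`Th := T`) gives `w, D, K, bet`; `C` is faithful on `W`, so the last set is empty (a Sylow
`r`-subgroup trivial on `W` and in `C` is trivial, but `r ∣ |H|`). `(w, ⊥, 1)` and `(0, D, bet)` are `StV`
(the complement of `D` is `K`), CH1 and `st`: `|A(w)| + 1 ≤ |M(w)|`, `|A(bet)| + 1 ≤ |M(bet)|`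
(`setM C T w ⊥ 1 = M(w)`, `MiH`; `setM C T 0 D bet`: `MiB`). Sum against CNT: `2 ≤ 1`. -/
def SpecDI : Prop :=
  ∀ (H W : Type) [Group H] [AddCommGroup W] [DistribMulAction H W] (C : Subgroup H)
    (T : Finset ℕ), DatI H W C T → False

/-- `Π₀` (4.3). -/
noncomputable def Pi0 {H : Type} (Zd : Type) [Group H] [AddCommGroup Zd] [DistribMulAction H Zd]
    (C : Subgroup H) (T : Finset ℕ) : Finset ℕ :=
  open Classical in T.filter fun r => ∃ R : Subgroup H, SylIn r ⊤ R ∧ R.Normal ∧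
    (∀ x ∈ R, ∀ y ∈ R, x * y = y * x) ∧ R ≤ C ∧ ∀ t ∈ R, ∀ μ : Zd, t • μ = μ

/-- **DTS** [150 lines]. The setting `TS` for an irreducible direct summand `X1` of `X` on which some
normal Sylow `r`-subgroup of `H`, `r ∈ T`, acts non-trivially. `Y` is a copy of `X1`. (hyps: CH1)
PROOF. `faith`: `c ∈ C` trivial on `X2` and on `Y`: trivial on `X1 ⊔ X2 = ⊤`. `irr`, `px`, `pn` clear
(transport along `ι`). `nor`: `CenX C X2` is normal as `X2` is invariant. `tight`: `StV` for `v : Y` is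
`StV` for `ι v`; CH1 and `stL`; `setA T v D bet = setA T (ι v) D bet`, and similarly `setM`
(`h • v = v ↔ h • ι v = ι v`). `ne`: `R0` is the only Sylow `r`-subgroup; its fixed points in `Y` are an
invariant subgroup, not `⊤`, so `⊥`. -/
def SpecDTS : Prop :=
  ∀ (H X Zd : Type) [Group H] [AddCommGroup X] [DistribMulAction H X]
    [AddCommGroup Zd] [DistribMulAction H Zd] (C : Subgroup H) (T : Finset ℕ) (p : ℕ)
    (R : Zd → AddSubgroup X), DatII H X Zd C T p R →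
    ∀ X1 X2 : AddSubgroup X, HInv H X1 → HInv H X2 → X1 ⊓ X2 = ⊥ → X1 ⊔ X2 = ⊤ → X1 ≠ ⊥ →
    (∀ A : AddSubgroup X, A ≤ X1 → HInv H A → A = ⊥ ∨ A = X1) →
    (∃ r ∈ T, ∃ R0 : Subgroup H, SylIn r ⊤ R0 ∧ R0.Normal ∧ ∃ t ∈ R0, ∃ x ∈ X1, t • x ≠ x) →
    ∀ (Y : Type) [AddCommGroup Y] [DistribMulAction H Y] (ι : Y →+ X), Function.Injective ι →
      (∀ (h : H) (y : Y), ι (h • y) = h • ι y) → ι.range = X1 → TS H Y p (CenX C X2) T

/-! ## 2. Input from sections 5 - 7 -/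

/-- **PRT**. The properties `PRP` in the setting `TS` (assembly of the interface modules of SpecT1B,
helper66). -/
def SpecPRT : Prop :=
  ∀ (H X : Type) [Group H] [AddCommGroup X] [DistribMulAction H X] (p : ℕ) (C : Subgroup H)
    (T : Finset ℕ), TS H X p C T → PRP H X C T

/-- **O7** [150 lines] (what section 8 needs from sections 5 - 7). (hyps: PRT, UEN)
PROOF. UEN: `v`, `D, R, H1, dl` with `US`. `K := R ⊔ H1` (`R`, `H1` commute, so its elements are `x y`).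
`D ⊓ K = ⊥`: `unq`; `D ⊔ K = ⊤`: `dec`. `h = d x y` commutes with `C ≥ D, R`: it commutes with `dl`, `y` and `d` do (`D`
cyclic): `x dl = dl x`, `x = 1` (`mov`); it commutes with `ρ ∈ R`, `y` does: `d ρ = ρ d`, `d = 1` (`fxd`); so
`h = y ∈ K`. `centralizer D = {h : h commutes with dl}`: `d x y` is in it iff `x = 1`: it is `D H1`, so
`|H| = |D| |R| |H1|` (`dec`, `unq`), `|H : centralizer D| = |R| = ∏ r ∈ kM C T v, r`: for `r ∈ T` (prime) `r` divides it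
iff `r ∈ kM C T v` (the elements of `kM C T v` are primes, `tp`). `r ∈ kM C T v`: the Sylow `r`-subgroup in `syl` is
`≤ R ≤ C`, `C` normal, all Sylow `r`-subgroups are conjugate: `≤ C`. `r ∣ |D|`: `dvD`. If `r` is killed by
every `v ≠ 0`: `r ∈ kA H T v = PiN`. Last item: `cMN`. -/
def SpecO7 : Prop :=
  ∀ (H X : Type) [Group H] [AddCommGroup X] [DistribMulAction H X] (p : ℕ) (C : Subgroup H)
    (T : Finset ℕ), TS H X p C T → Idx H T →
    ∃ D K : Subgroup H, D.Normal ∧ D ≤ C ∧ IsCyclic D ∧ D ⊓ K = ⊥ ∧ D ⊔ K = ⊤ ∧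
      (∀ h : H, (∀ c ∈ C, h * c = c * h) → h ∈ K) ∧
      (∀ r ∈ T, r ∣ (Subgroup.centralizer (D : Set H)).index →
        ∀ S : Subgroup H, SylIn r ⊤ S → S ≤ C) ∧
      (∀ r ∈ T, r ∣ Nat.card D → r ∈ PiN C T) ∧
      (∀ r ∈ T, (∀ v : X, v ≠ 0 → Kl H v r) → r ∈ PiN C T) ∧
      (PiN C T).card = (chA T (Subgroup.centralizer (D : Set H))).card

/-! ## 3. Case II.A (section 8) -/

/-- The combined data of 8.1: `D` is the product of the cyclic groups `D^i`, `i` in a finite set,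
`b` is faithful on each, `N = ⋃ Π_N^i`. -/
structure Fam {H : Type} [Group H] (C : Subgroup H) (T : Finset ℕ) (D K : Subgroup H)
    (b : H → ℂ) (N : Finset ℕ) : Prop where
  nor : D.Normal
  le : D ≤ C
  ab : ∀ x ∈ D, ∀ y ∈ D, x * y = y * x
  inf : D ⊓ K = ⊥
  sup : D ⊔ K = ⊤
  lin : Lin D b
  /-- only the elements of `C_H(D)` fix `b` -/
  fix : ∀ h, FixB D b h → h ∈ Subgroup.centralizer (D : Set H)
  cK : ∀ h : H, (∀ c ∈ C, h * c = c * h) → h ∈ K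
  syl : ∀ r ∈ T, r ∣ (Subgroup.centralizer (D : Set H)).index →
    ∀ S : Subgroup H, SylIn r ⊤ S → S ≤ C
  nT : N ⊆ T
  pd : ∀ r ∈ T, r ∣ Nat.card D → r ∈ N
  card : N.card ≤ (chA T (Subgroup.centralizer (D : Set H))).card

/-- **FA1** [120 lines]. O7 gives `Fam C T D K b (PiN C T)`.
PROOF. `b`: a faithful character of the cyclic group `D` (Mathlib: `IsCyclic` and a primitive root of
unity in `ℂ`; `D ≃* Multiplicative (ZMod n)`, or: `CommGroup.exists_apply_ne_one...` is not enough, use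
`IsPrimitiveRoot` `Complex.isPrimitiveRoot_exp` and the generator: `b (g^k) = ζ^k`), `1` outside. If `h` fixes
`b` then `b (h x h⁻¹ x⁻¹) = 1`, so `h x h⁻¹ = x`. -/
def SpecFA1 : Prop :=
  ∀ (H : Type) [Group H] [Finite H] (C : Subgroup H) (T : Finset ℕ) (D K : Subgroup H),
    D.Normal → D ≤ C → IsCyclic D → D ⊓ K = ⊥ → D ⊔ K = ⊤ →
    (∀ h : H, (∀ c ∈ C, h * c = c * h) → h ∈ K) →
    (∀ r ∈ T, r ∣ (Subgroup.centralizer (D : Set H)).index →
        ∀ S : Subgroup H, SylIn r ⊤ S → S ≤ C) →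
    (∀ r ∈ T, r ∣ Nat.card D → r ∈ PiN C T) →
    (PiN C T).card = (chA T (Subgroup.centralizer (D : Set H))).card →
    ∃ b, Fam C T D K b (PiN C T)

/-- **FA2** [200 lines]. Union of two families with commuting disjoint groups `C1`, `C2`.
PROOF. `D := D1 ⊔ D2`, `K := K1 ⊓ K2`, `b (d1 d2) := b1 d1 * b2 d2`, `N := N1 ∪ N2`. `D2 ≤ K1` (it commutes
with `C1`) and `D1 ≤ K2`. `D ⊓ K = ⊥`: `d1 d2 ∈ K1`, `d2 ∈ K1` so `d1 ∈ K1`, `d1 = 1`; similarly `d2 = 1`.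
`D ⊔ K = ⊤`: `h = d1 k1`, `k1 = d2 k2` with `k2 ∈ K2`, `k2 = d2⁻¹ k1 ∈ K1`. `b` is well defined as
`D1 ⊓ D2 = ⊥`, `Lin` because `D1`, `D2` commute. `fix`: `h` fixes `b1` and `b2`.
`centralizer D = centralizer D1 ⊓ centralizer D2`; its index is divisible by `r` iff one of the two
indices is: `→`: `r` divides `|H : A ⊓ B|`, `A, B` normal, `|H : A ⊓ B| = |H : A| |A : A ⊓ B|` and
`|A : A ⊓ B|` divides `|H : B|`. So `syl`, with `C := C1 ⊔ C2` (`S ≤ C1` or `S ≤ C2`), and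
`chA T (cent D) = chA T (cent D1) ∪ chA T (cent D2)`, which are disjoint: for a common `r` a Sylow
`r`-subgroup is in `C1 ⊓ C2 = ⊥`, but `r ∣ |H|`. `cK`: commuting with `C1 ⊔ C2`. `pd`: `|D|` divides
`|D1| |D2|`. -/
def SpecFA2 : Prop :=
  ∀ (H : Type) [Group H] [Finite H] (C1 C2 : Subgroup H) (T : Finset ℕ)
    (D1 K1 D2 K2 : Subgroup H) (b1 b2 : H → ℂ) (N1 N2 : Finset ℕ),
    (∀ r ∈ T, r.Prime ∧ r ∣ Nat.card H) → (∀ x ∈ C1, ∀ y ∈ C2, x * y = y * x) → C1 ⊓ C2 = ⊥ →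
    Fam C1 T D1 K1 b1 N1 → Fam C2 T D2 K2 b2 N2 →
    ∃ b, Fam (C1 ⊔ C2) T (D1 ⊔ D2) (K1 ⊓ K2) b (N1 ∪ N2)

/-- **IRX** [200 lines]. 5.9: for `r ∈ Π₀` with Sylow subgroup `R0`, `X = X1 ⊕ C_X(R0)` with `X1` irreducible.
(hyps: DTS, O7)
PROOF. `X` is completely reducible (Maschke: RB.specMAS, `pn`, `px`). `C_X(R0)` is invariant, let `X1` be an
invariant complement. `X1 ≠ ⊥` (`R0 ≤ C` is faithful, `R0 ≠ 1`). Let `A ≤ X1` be a minimal non-zero invariant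
subgroup, `A'` an invariant complement of `A` in `X` containing `C_X(R0)` (complement of `A` in `X1` plus
`C_X(R0)`). `R0` is non-trivial on `A` (a fixed point in `A ≤ X1` is `0`). DTS and O7 for `A, A'`: `r` is killed by
every non-zero `v ∈ A` (`R0` is the only Sylow `r`-subgroup, `C_A(R0) = 0`), so `r ∈ PiN (CenX C A')`:
`R0 ≤ CenX C A'`, i.e. `A' ≤ C_X(R0)`: `A' = C_X(R0)`, so `A = X1` by modularity. -/
def SpecIRX : Prop :=
  ∀ (H X Zd : Type) [Group H] [AddCommGroup X] [DistribMulAction H X]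
    [AddCommGroup Zd] [DistribMulAction H Zd] (C : Subgroup H) (T : Finset ℕ) (p : ℕ)
    (R : Zd → AddSubgroup X), DatII H X Zd C T p R →
    ∀ r ∈ T, ∀ R0 : Subgroup H, SylIn r ⊤ R0 → R0.Normal → R0 ≤ C →
      (∀ x ∈ R0, ∀ y ∈ R0, x * y = y * x) →
      ∃ X1 : AddSubgroup X, HInv H X1 ∧ X1 ≠ ⊥ ∧ X1 ⊓ FixY X R0 = ⊥ ∧ X1 ⊔ FixY X R0 = ⊤ ∧
        ∀ A : AddSubgroup X, A ≤ X1 → HInv H A → A = ⊥ ∨ A = X1

/-- **FA3** [200 lines]. 8.1: the family for all of `Π₀`, in Case II.A. (hyps: DTS, O7, IRX, FA1, FA2)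
PROOF. Claim, by induction over `|X2|`: let `X = X' ⊕ X2` be invariant, `C0 ≤ CenX C X2` trivial on `Zd`,
`Fam C0 T D K b N`, and `r ∈ N` for all `r ∈ Π₀` whose `R0` is trivial on `X2`. Then the conclusion holds. START:
`X2 = ⊤`, `C0 = D = ⊥`, `K = ⊤`, `b = 1`, `N = ∅` (`R0` trivial on `X`: `R0 = 1`, but `r ∣ |H|`).
STEP. If all `R0`, `r ∈ Π₀`, are trivial on `X2`: `Fam` is monotone in `C`, take `C` instead of `C0`; `D ≤ C0`. Otherwise
let `R0` (`r ∈ Π₀`) be non-trivial on `X2`, `X1` from IRX. (a) If some `R0'` (`r' ∈ Π₀`, summand `X1'`) is non-trivial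
on an invariant `A` then `X1' ≤ A`: `t x - x ≠ 0` is in `A` and in `X1'` (`x = x1 + f`, `f` fixed), so
`A ⊓ X1' ≠ ⊥`, irreducible. So `X1 ≤ X2`, and `R0` is trivial on `X'`. (b) `X2' := X2 ⊓ FixY X R0`:
`X2 = X1 ⊕ X2'` (modular law), `FixY X R0 = X' ⊕ X2'`, `|X2'| < |X2|`. (c) `C2 := CenX C (FixY X R0)` is normal in `H`;
an element of `C0 ⊓ C2` is trivial on `X2 ≥ X1` and on `FixY X R0`, so it is `1`; `c c2 c⁻¹ c2⁻¹ ∈ C2`, and it is trivial on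
`X2` (`c2 c⁻¹ c2⁻¹` is, `X2` is invariant): `C0`, `C2` commute. (d) DTS, O7 for a copy `Y` of `X1` (e.g. `Y = X1` with the
restricted action), FA1: `Fam C2 T D2 K2 b2 (PiN C2 T)`. FA2: family for `C0 ⊔ C2`, which is trivial on `Zd`
(hypothesis) and contained in `CenX C X2'`. (e) covering: `r' ∈ Π₀`, `R0'` trivial on `X2'`. If `R0'` is trivial on `X2`: `r' ∈ N`.
Otherwise `X1' ≤ X2` by (a), so `R0'` is trivial on `X'` (else `X1' ≤ X' ⊓ X2`), hence on `FixY X R0 = X' ⊕ X2'`: `R0' ≤ C2`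
and `r' ∈ PiN C2 T`. Induction for `X' ⊔ X1`, `X2'`. -/
def SpecFA3 : Prop :=
  ∀ (H X Zd : Type) [Group H] [AddCommGroup X] [DistribMulAction H X]
    [AddCommGroup Zd] [DistribMulAction H Zd] (C : Subgroup H) (T : Finset ℕ) (p : ℕ)
    (R : Zd → AddSubgroup X), DatII H X Zd C T p R →
    (∀ r ∈ Pi0 Zd C T, ∀ R0 : Subgroup H, SylIn r ⊤ R0 → R0.Normal → R0 ≤ C →
      ∀ c ∈ CenX C (FixY X R0), ∀ μ : Zd, c • μ = μ) →
    ∃ (D K : Subgroup H) (b : H → ℂ) (N : Finset ℕ), Fam C T D K b N ∧ Pi0 Zd C T ⊆ N ∧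
      ∀ d ∈ D, ∀ μ : Zd, d • μ = μ

/-- **FA4** [250 lines]. 8.2. (hyps: REL, SYX)
PROOF. `Z1 := C_H(D)` (normal in `H`), `K1 := Z1 ⊓ K`: `Z1 = D ⊔ K1`, `D ⊓ K1 = ⊥`, and
`k ∈ K1 ↔ k ∈ K ∧ FixB D b k`. Let `a := chA T Z1`, `T_b := {r ∈ T : r ∉ a, r ∤ |D|}`. `W1 ≤ Zd` a minimal
non-zero `K1`-invariant subgroup. REL with `X := Zd`, `J := K1`, `C ⊓ K1`, `Th := T_b`: `μ ∈ W1`, `D', K', β'`.
(N) `stN` with `μ`, `ν = 0`, `S0 = Stb ⊤ μ`, one step: `D ≤ S0`, `K ⊓ S0` is its complement in `S0`, the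
stabiliser of `b` is `K1 ⊓ S0`: `S = D ⊔ (K1 ⊓ Stb ⊤ μ)`, `|A_s| + 2 ≤ |M_s|`.
(L) `stL` with `X1 = ⊤`, `X2 = ⊥`, `v = 0` (`S0 = ⊤`), first step `D, K, b` (`K1`), second step
`D' ≤ K1`, complement `K'`, `β'`: `S = D ⊔ D' ⊔ K''`, `K'' = {k ∈ K' : FixB D' β' k}`: `|A_t| ≤ |M_t|`.
Counting. `a ⊆ A_s, A_t` (`S ≤ Z1`, so `|H : Z1|` divides `|H : S|`). For `r ∈ T_b`: the Sylow `r`-subgroups of
`K1` are Sylow in `H` (`r ∤ |H : Z1| |D|`), and every Sylow `r`-subgroup of `H` contained in `Z1` lies in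
`K1`: [it is an `r`-group in `D × K1`, `r ∤ |D|`: its elements are `d k`, `(dk)^n = d^n k^n`..., so `d = 1`].
So `r ∈ A_s` iff no Sylow `r`-subgroup of `K1` fixes `μ` (SYX), `r ∈ M_s` implies `MiJ K1 (C ⊓ K1) μ r R`;
`r ∈ A_t` iff no Sylow `r`-subgroup of `K1` fixes `β'`; `r ∈ M_t` implies `MiBJ K1 (C ⊓ K1) D' β' r R`
(`R ≤ K1`, `x y x⁻¹ y⁻¹ ∈ (D ⊔ D') ⊓ K1 = D'`, `s t s⁻¹ ∈ (D ⊔ D' ⊔ R) ⊓ K1 = D' ⊔ R` for `s ∈ K1` fixing `β'`).
The relative `Π₀₀` is contained in `N`: `R` normal in `K1`, centralised by `D`: normal in `Z1`, it is the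
only Sylow `r`-subgroup of the normal subgroup `Z1`, so normal in `H`; trivial on `W1 ≠ ⊥`, so on `Zd`
(`irr`): `r ∈ Pi0 ⊆ N`. The primes of `T \ a` dividing `|D|` are in `N` (`pd`), disjoint from `T_b`. So with
`n0 := |{r ∈ T \ a : r ∣ |D|}|`, `n1 := |Π₀₀|`: `n0 + n1 ≤ |N| ≤ |a|`, and
`|M_s| + |M_t| ≤ 2 n0 + |M'(μ)| + |M'(β')| ≤ 2 n0 + |A'(μ)| + |A'(β')| + 2 n1 + 1`,
`|A_s| + |A_t| ≥ 2 |a| + |A'(μ)| + |A'(β')|`: `2 + 2|a| ≤ 2|a| + 1`, contradiction. -/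
def SpecFA4 : Prop :=
  ∀ (H X Zd : Type) [Group H] [AddCommGroup X] [DistribMulAction H X]
    [AddCommGroup Zd] [DistribMulAction H Zd] (C : Subgroup H) (T : Finset ℕ) (p : ℕ)
    (R : Zd → AddSubgroup X), DatII H X Zd C T p R →
    ∀ (D K : Subgroup H) (b : H → ℂ) (N : Finset ℕ), Fam C T D K b N → Pi0 Zd C T ⊆ N →
      (∀ d ∈ D, ∀ μ : Zd, d • μ = μ) → False

/-! ## 4. Case II.B (section 9) -/

/-- **E9** (9.5; helper16). If `X` is irreducible, Case II is impossible. (hyps: PRT, UEN and the proof of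
`SpecEND`; `TS H X p C T` is DTS for `X1 = ⊤`.)
PROOF. `Π := kM C T v`, `Π_N := PiN C T`, `|Π| = |Π_N|`; a prime `r ∈ T` whose Sylow subgroups are contained in
`C` is in `Π ∪ Π_N`. (1) `R μ ≠ ⊤` for some `μ ≠ 0`: choose `ν ∉ R μ`. N-state `(μ, ν)`, chain of length `0`. `Π_N ⊆ A`:
`r ∈ Π_N`, `R0` normal Sylow `≤ C`, `R0 ≠ 1`, so `C_X(R0) = 0` (`X` irreducible, `C` faithful); if `R0` fixes `μ` then it
acts on `X / R μ` (`rin`) without non-zero fixed points (coprime), so it moves `ν + R μ`. `M ⊆ Π`: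
`|M| ≤ |Π| = |Π_N| ≤ |A|`, contradiction to `stN`. (2) `R μ = ⊤` for all `μ ≠ 0`: `p |Zd| ≤ |X|` (`ndg`). N-states
`(μ; E', γ)`, see EXACT.md 9.5 and X/END.lean. -/
def SpecE9 : Prop :=
  ∀ (H X Zd : Type) [Group H] [AddCommGroup X] [DistribMulAction H X]
    [AddCommGroup Zd] [DistribMulAction H Zd] (C : Subgroup H) (T : Finset ℕ) (p : ℕ)
    (R : Zd → AddSubgroup X), DatII H X Zd C T p R → TS H X p C T → False

/-- **DII** [100 lines]. Case II is impossible. (hyps: DTS, IRX, FA3, FA4, E9)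
PROOF. If for all `r ∈ Π₀` (with `R0`) the group `CenX C (FixY X R0)` is trivial on `Zd`: FA3, FA4. (`Π₀ = ∅` is
included: EXACT 4.3.) Otherwise take such an `r`, `R0`, and `X1` from IRX: by `spl` (`U := R0`, `X2 := FixY X R0`), `FixY X R0 = ⊥`, so
`X1 = ⊤`, and `X` is irreducible; DTS with `Y = X`, `ι = id`: `TS H X p (CenX C ⊥) T`, `CenX C ⊥ = C`; E9. -/
def SpecDII : Prop :=
  ∀ (H X Zd : Type) [Group H] [AddCommGroup X] [DistribMulAction H X]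
    [AddCommGroup Zd] [DistribMulAction H Zd] (C : Subgroup H) (T : Finset ℕ) (p : ℕ)
    (R : Zd → AddSubgroup X), DatII H X Zd C T p R → False

/-! ## 5. The reduction and the theorem -/

/-- **RII** (helper4: sections 0, 1, 4). A minimal counterexample gives `DatI` or `DatII`. -/
def SpecRII : Prop :=
  (∀ (H W : Type) (_ : Group H) (_ : AddCommGroup W) (_ : DistribMulAction H W) (C : Subgroup H)
    (T : Finset ℕ), DatI H W C T → False) →
  (∀ (H X Zd : Type) (_ : Group H) (_ : AddCommGroup X) (_ : DistribMulAction H X)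
    (_ : AddCommGroup Zd) (_ : DistribMulAction H Zd) (C : Subgroup H) (T : Finset ℕ) (p : ℕ)
    (R : Zd → AddSubgroup X), DatII H X Zd C T p R → False) →
  ∀ (G : Type) [Group G] [Finite G], Group.IsSolvable G → ∀ Th : Finset ℕ,
    (∀ r ∈ Th, r.Prime ∧ ¬ NAS G r) → ∃ d, IsDeg G d ∧
      Th.card ≤ 2 * (open Classical in (Th.filter fun r => r ∣ d)).card

/-- **THE THEOREM** (hyps: RII, DI, DII, ITO (RP.SpecITOR), FDR (RP.SpecFDR)). PROOF. `Th :=` the set of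
the primes dividing some degree; it is finite (degrees divide `|G|` or there are finitely many) and
each is not in `NAS G` by Ito. -/
def SpecHUP : Prop :=
  ∀ (G : Type) [Group G] [Finite G], Group.IsSolvable G →
    ∃ V : FDRep ℂ G, CategoryTheory.Simple V ∧
      {p : ℕ | p.Prime ∧ ∃ W : FDRep ℂ G, CategoryTheory.Simple W ∧
          p ∣ Module.finrank ℂ W}.ncard
        ≤ 2 * (Module.finrank ℂ V).primeFactors.card

end Pool.Agent.Lib.MPbe1941.X
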