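import Pool.Agent.Lib.MP_be1941_al.X.PSB
import Pool.Agent.Lib.MP_be1941_al.X.DefsP

/-!
# MP_be1941_al EXACT, block T1, part A: independent lemmas (owner helper66)

Text: /team-store/MP_be1941_al_T1.md (sections 1-4) and /team-store/MP_be1941_al_EXACT.md (2.8, 5.7).
Every Spec below is a closed statement; module `NAME` proves `theorem NAME.main : SpecNAME`.
-/

set_option autoImplicit false

namespace Pool.Agent.Lib.MPbe1941.X

open Pool.Agent.Lib.MPbe1941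
open Pool.Agent.Lib.MPbe1941.XF
open scoped commutatorElement

/-- `v` is a nonzero vector whose stabiliser in `F` is as large as possible (`PS.Ext S w` is
`ExtV S.F w`). -/
def ExtV {H X : Type} [Group H] [AddCommGroup X] [DistribMulAction H X] (F : Subgroup H)
    (v : X) : Prop :=
  v ≠ 0 ∧ ∀ w : X, w ≠ 0 → Nat.card (Stb F w) ≤ Nat.card (Stb F v)

/-- **[EIG]** `x` an `r`-element with `x v = c v ≠ v`: no Sylow `r`-subgroup of `H` fixes `v`.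

Proof. `N := {h | ∃ c : ℕ, h v = c v}` (the stabiliser of the line of `v`; a subgroup because
`p v = 0`: `h v = c v ≠ 0`, so `c` is invertible mod `p`). `Stb ⊤ v` is normal in `N`
(`N` acts on the line through the abelian group `F_p^*`). The image of `x` in `N / Stb ⊤ v` is a
nontrivial `r`-element, so `r ∣ |N : Stb ⊤ v|`, which divides `|H : Stb ⊤ v|`, which divides
`|H : R|` if `R ≤ Stb ⊤ v`. -/
def SpecEIG : Prop :=
  ∀ (H X : Type) [Group H] [Finite H] [AddCommGroup X] [DistribMulAction H X] (r p : ℕ),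
    r.Prime → p.Prime → (∀ v : X, p • v = 0) →
    ∀ (x : H) (k : ℕ), x ^ r ^ k = 1 → ∀ (v : X) (c : ℕ), x • v = c • v → x • v ≠ v →
    ∀ R : Subgroup H, SylIn r ⊤ R → ∃ h ∈ R, h • v ≠ v

/-- **[EKA]** (T1.md section 4, EK). `P` is the Sylow `l`-subgroup of `FF = P P'`, `v` is extremal,
`B = Stb P v`, `P = Q B`, `Q` abelian, normal in `P`, not cyclic, `Q ∩ B = 1`, `C_Q(B)` cyclic.
Then for some `K ≤ Q` of order `l` the vector `v' = ∑ k ∈ K, k v` is extremal with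
`C_P(v') = K C_B(K)`, `C_Q(v') = K`, `C_{P'}(v') = C_{P'}(v)`.

Proof. `Z₁ := Ω₁(C_Q(B))` has order `l` (`C_Q(B) ≠ 1`: `B` is an `l`-group acting on the `l`-group
`Q ≠ 1`) and is central in `P` and in `FF`. `Ω := Ω₁(Q)` is not cyclic (a noncyclic abelian
`l`-group), `B` acts on `Ω/Z₁ ≠ 1` with a fixed point of order `l`: there is `E`,
`Z₁ < E ≤ Ω`, `|E| = l²`, `[E,B] ≤ Z₁`. For a subgroup `K` put `N_K v := ∑ k ∈ K, k • v`.
Summing over the `l + 1` subgroups `K` of order `l` of `E`: `∑_K N_K v = l v + N_E v`.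
`N_{Z₁} v = 0`: otherwise this vector is fixed by `Z₁` and by `Stb FF v` (`Z₁` is central in
`FF`), and `Stb Z₁ v ≤ Q ∩ B = 1`: against maximality. `N_E v = 0` (sum of `N_{Z₁} v` over coset
representatives). So `∑_{K ≠ Z₁} N_K v = l v ≠ 0` (`l ≠ p`), and `v' := N_K v ≠ 0` for some
`K ≠ Z₁`. `B` permutes the `l` subgroups `K ≠ Z₁` of order `l` of `E`, and `N_B(K)` centralises `K`
(`[K, N_B(K)] ≤ K ∩ Z₁ = 1`), so `|B : C_B(K)| ≤ l`. `K C_B(K)` fixes `v'`, so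
`|C_P(v')| ≥ l |C_B(K)| ≥ |B|`; `P'` commutes with `K`, so `C_{P'}(v') ≥ C_{P'}(v)`;
`|C_FF(w)| = |C_P(w)| |C_{P'}(w)|` (coprime commuting factors). Maximality of `v` gives equality
everywhere. If `k b ∈ Q` (`k ∈ K`, `b ∈ C_B(K)`) then `b ∈ Q ∩ B = 1`. -/
def SpecEKA : Prop :=
  ∀ (H X : Type) [Group H] [Finite H] [AddCommGroup X] [Finite X] [DistribMulAction H X]
    (l p : ℕ), l.Prime → p.Prime → (∀ v : X, p • v = 0) → ¬ p ∣ Nat.card H →
    ∀ (FF P P' Q : Subgroup H) (v : X), IsPGroup l P → ¬ l ∣ Nat.card P' →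
    (∀ x ∈ P, ∀ y ∈ P', x * y = y * x) → P ⊔ P' = FF → ExtV FF v →
    Q ≤ P → Nrm P Q → (∀ x ∈ Q, ∀ y ∈ Q, x * y = y * x) →
    (∀ x ∈ P, ∃ q ∈ Q, ∃ b ∈ Stb P v, x = q * b) → Stb Q v = ⊥ →
    IsCyclic (CK Q (Stb P v)) → ¬ IsCyclic Q →
    ∃ K : Subgroup H, K ≤ Q ∧ Nat.card K = l ∧ ∃ v' : X, ExtV FF v' ∧
      (∀ h : H, (∀ k ∈ K, h * k * h⁻¹ ∈ K) → h • v = v → h • v' = v') ∧
      Stb P v' = K ⊔ CK (Stb P v) K ∧ Stb Q v' = K ∧ Stb P' v' = Stb P' v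

/-- **[QSF]** (T1.md section 3). `N` acts on `Y` as the quaternion group `{±1, ±i, ±j, ±ij}`.
Then `Y` contains a subgroup `V ≠ 0` such that for every `0 ≠ w ∈ V` and every `3`-element `s`
which fixes `w`, normalises `N` and acts nontrivially on the operators of `N`, some power of `s`
has an eigenvector `v' ∈ V` with eigenvalue `≠ 1` in `F_p`.

Proof. Choose `a, b ∈ ℤ` with `a² + b² = -1` mod `p`, `b ≠ 0` mod `p` (`ZMod.isSquare..`/
`ZMod.sq_add_sq`; if `b = 0` swap). `u := a i + b j` satisfies `u² = 1` on `Y`, and `u ≠ 1` on `Y`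
(`i u - u i = 2 b i j ≠ 0`), `u ≠ -1`. So there is `0 ≠ v₁ ∈ Y` with `u v₁ = e v₁`, `e = ±1`
(`v₁ = (u + e) y`). `V := {c v₁ + d i v₁ : c, d ∈ ℤ}` is stable under `i` and `j`
(`b j v₁ = e v₁ - a i v₁`, `j i v₁ = - i j v₁`). No line of `V` is stable under `i` and `j`
(on a line `i j = j i`, but `i j = - j i`, `p` odd). So `|V| = p²` and every `0 ≠ w ∈ V` generates
`V` under `i, j`; also the eight operators are different on `V`, so `s` is not trivial on `V`, and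
`s V = V` because `s (n w) = (s n s⁻¹) w`. Let `s' := s^(3^(m-1))` where `s` has order `3^m` on `V`
(`m ≥ 1`): `s'^3 = 1` on `V`, `s' ≠ 1` on `V`, `s' w = w`. `V / F_p w` is a line: `s'` acts on it
as a scalar `d`, `d³ = 1`. `d ≠ 1`: otherwise `(s' - 1)² = 0` on `V`, so
`0 = s'^3 - 1 = 3 (s' - 1)` on `V` and `s' = 1` on `V` (`p ≠ 3`). `v' := (s' - 1) u` for `u ∈ V`
outside `F_p w`: `s' v' = d v'`, `v' ≠ 0`. -/
def SpecQSF : Prop :=
  ∀ (H X : Type) [Group H] [Finite H] [AddCommGroup X] [Finite X] [DistribMulAction H X]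
    (p : ℕ), p.Prime → p ≠ 2 → p ≠ 3 → (∀ v : X, p • v = 0) →
    ∀ (Y : AddSubgroup X) (N : Subgroup H) (i j : H), Y ≠ ⊥ →
    (∀ n ∈ N, ∀ y ∈ Y, n • y ∈ Y) → i ∈ N → j ∈ N →
    (∀ y ∈ Y, i • i • y = -y) → (∀ y ∈ Y, j • j • y = -y) → (∀ y ∈ Y, i • j • y = -(j • i • y)) →
    (∀ n ∈ N, ∃ m ∈ ({1, i, j, i * j} : Set H),
      (∀ y ∈ Y, n • y = m • y) ∨ ∀ y ∈ Y, n • y = -(m • y)) →
    ∃ V : AddSubgroup X, V ≤ Y ∧ V ≠ ⊥ ∧ ∀ w ∈ V, w ≠ 0 →
      ∀ s : H, (∃ k, s ^ 3 ^ k = 1) → s • w = w → (∀ n ∈ N, s * n * s⁻¹ ∈ N) →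
      (∃ n ∈ N, ∃ y ∈ Y, (s * n * s⁻¹) • y ≠ n • y) →
      ∃ v' ∈ V, ∃ m c : ℕ, s ^ m • v' = c • v' ∧ s ^ m • v' ≠ v'

end Pool.Agent.Lib.MPbe1941.X
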