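import Pool.Agent.Lib.MP_be1941_al.X.SpecT1
import Pool.Agent.Lib.MP_be1941_al.X.SpecQ

/-!
# MP_be1941_al EXACT, block T1, part B: clean extremal vectors, special subgroups are cyclic

Owner helper66. Text: /team-store/MP_be1941_al_T1.md, sections 0, 2, 3, 10, 11.

The setting `TS H X p C T` is the tight case for one irreducible summand `X` of `Irr(P/Φ(P))`:
`C` acts faithfully on `X`. The properties `FCop` .. `FFam` are the outputs of block PROP (helper42,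
for `G = H`, `phi = id`, see `TS.ps`) and of GAM (helper64); each has its own interface module
(`SpecTCP` .. `SpecTFM`). The modules `BD2` .. `NIC` only use these properties.

Files `X/Xxx.lean` (`XXX` the name of the module), `import Pool.Agent.Lib.MP_be1941_al.X.SpecT1B`,
namespace `Pool.Agent.Lib.MPbe1941.X`, `theorem specXXX (hYYY : SpecYYY) .. : SpecXXX`; own lemmas in
the namespace `Pool.Agent.Lib.MPbe1941.X.XXXM`. Hypotheses not needed may be dropped.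
-/

set_option autoImplicit false

namespace Pool.Agent.Lib.MPbe1941.X

open Pool.Agent.Lib.MPbe1941
open Pool.Agent.Lib.MPbe1941.XF
open scoped commutatorElement

section

variable {H X : Type} [Group H] [AddCommGroup X] [DistribMulAction H X]

/-- The element `h` fixes the state `(v, bet)`, `bet` a character of `D`. -/
def FxS (v : X) (D : Subgroup H) (bet : H → ℂ) (h : H) : Prop := h • v = v ∧ FixB D bet h

/-- `r` is killed by the state: no Sylow `r`-subgroup of `H` fixes it. -/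
def KlS (v : X) (D : Subgroup H) (bet : H → ℂ) (r : ℕ) : Prop :=
  ∀ R : Subgroup H, SylIn r ⊤ R → ∃ h ∈ R, ¬ FxS v D bet h

/-- `r` is missed by the state. -/
def MiS (C : Subgroup H) (v : X) (D : Subgroup H) (bet : H → ℂ) (r : ℕ) : Prop :=
  ∃ R : Subgroup H, SylIn r ⊤ R ∧ R ≤ C ∧ (∀ h ∈ R, FxS v D bet h) ∧
    (∀ x ∈ R, ∀ y ∈ R, x * y * x⁻¹ * y⁻¹ ∈ D) ∧
    ∀ h : H, FxS v D bet h → ∀ t ∈ R, h * t * h⁻¹ ∈ D ⊔ R

/-- `(v, D, bet)` is a state (`v = 0` and `D = ⊥` are allowed). -/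
structure StV (C : Subgroup H) (v : X) (D : Subgroup H) (bet : H → ℂ) : Prop where
  le : D ≤ C
  fx : ∀ d ∈ D, d • v = v
  nor : ∀ h : H, h • v = v → ∀ d ∈ D, h * d * h⁻¹ ∈ D
  ab : ∀ x ∈ D, ∀ y ∈ D, x * y = y * x
  cpl : ∃ K : Subgroup H, (∀ k ∈ K, k • v = v) ∧ D ⊓ K = ⊥ ∧
    ∀ h : H, h • v = v → ∃ d ∈ D, ∃ k ∈ K, h = d * k
  lin : Lin D bet

/-- `C_X(B)`. -/
def FixY (X : Type) [AddCommGroup X] [DistribMulAction H X] (B : Subgroup H) : AddSubgroup X where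
  carrier := {x | ∀ b ∈ B, b • x = x}
  zero_mem' := fun b _ => smul_zero b
  add_mem' := fun {x y} hx hy b hb => by rw [smul_add, hx b hb, hy b hb]
  neg_mem' := fun {x} hx b hb => by rw [smul_neg, hx b hb]

/-- `N_P(B)`. -/
def Nz (P B : Subgroup H) : Subgroup H where
  carrier := {x | x ∈ P ∧ ∀ b, b ∈ B ↔ x * b * x⁻¹ ∈ B}
  one_mem' := ⟨P.one_mem, fun b => by simp⟩
  mul_mem' := fun {x y} hx hy => ⟨P.mul_mem hx.1 hy.1, fun b => by
    rw [hy.2 b, hx.2 (y * b * y⁻¹)]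
    have : x * (y * b * y⁻¹) * x⁻¹ = x * y * b * (x * y)⁻¹ := by group
    rw [this]⟩
  inv_mem' := fun {x} hx => ⟨P.inv_mem hx.1, fun b => by
    rw [hx.2 (x⁻¹ * b * x⁻¹⁻¹)]
    have : x * (x⁻¹ * b * x⁻¹⁻¹) * x⁻¹ = b := by group
    rw [this]⟩

end

/-- `r ∈ A(v)`: no Sylow `r`-subgroup of `H` fixes `v`. -/
def Kl (H : Type) {X : Type} [Group H] [AddCommGroup X] [DistribMulAction H X] (v : X)
    (r : ℕ) : Prop :=
  ∀ R : Subgroup H, SylIn r ⊤ R → ∃ h ∈ R, h • v ≠ v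

/-- The primes of `T` killed by every non-zero vector. -/
noncomputable def PiK (H X : Type) [Group H] [AddCommGroup X] [DistribMulAction H X]
    (T : Finset ℕ) : Finset ℕ :=
  open Classical in T.filter fun r => ∀ v : X, v ≠ 0 → Kl H v r

/-- `A` of a state, as a finite set. -/
noncomputable def setA {H X : Type} [Group H] [AddCommGroup X] [DistribMulAction H X]
    (T : Finset ℕ) (v : X) (D : Subgroup H) (bet : H → ℂ) : Finset ℕ :=
  open Classical in T.filter fun r => KlS v D bet r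

/-- `M` of a state, as a finite set. -/
noncomputable def setM {H X : Type} [Group H] [AddCommGroup X] [DistribMulAction H X]
    (C : Subgroup H) (T : Finset ℕ) (v : X) (D : Subgroup H) (bet : H → ℂ) : Finset ℕ :=
  open Classical in T.filter fun r => MiS C v D bet r

/-- The tight setting. -/
structure TS (H X : Type) [Group H] [AddCommGroup X] [DistribMulAction H X] (p : ℕ)
    (C : Subgroup H) (T : Finset ℕ) : Prop where
  finH : Finite H
  finX : Finite X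
  ntX : Nontrivial X
  sol : Group.IsSolvable H
  pp : p.Prime
  pn : ¬ p ∣ Nat.card H
  px : ∀ x : X, p • x = 0
  irr : ∀ A : AddSubgroup X, (∀ h : H, ∀ x ∈ A, h • x ∈ A) → A = ⊥ ∨ A = ⊤
  nor : C.Normal
  faith : ∀ c ∈ C, (∀ x : X, c • x = x) → c = 1
  tp : ∀ r ∈ T, r.Prime ∧ r ∣ Nat.card H
  tight : ∀ (v : X) (D : Subgroup H) (bet : H → ℂ), StV C v D bet →
    (setA T v D bet).card ≤ (setM C T v D bet).card
  ne : ∃ r ∈ T, ∀ v : X, v ≠ 0 → Kl H v r

/-- `A(v)` as a finite set. -/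
noncomputable def kA (H : Type) {X : Type} [Group H] [AddCommGroup X] [DistribMulAction H X]
    (T : Finset ℕ) (v : X) : Finset ℕ :=
  open Classical in T.filter fun r => Kl H v r

/-- `M(v)` as a finite set. -/
noncomputable def kM {H X : Type} [Group H] [AddCommGroup X] [DistribMulAction H X]
    (C : Subgroup H) (T : Finset ℕ) (v : X) : Finset ℕ :=
  open Classical in T.filter fun r => ∃ R, MiH C v r R

/-- `r` is a good prime of `M(v)` (compare `PS.Good`). -/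
def Gd {H X : Type} [Group H] [AddCommGroup X] [DistribMulAction H X] (C : Subgroup H) (v : X)
    (r : ℕ) (R : Subgroup H) : Prop :=
  MiH C v r R ∧ r ≠ 2 ∧ (∀ h ∈ Or H r, ∀ g ∈ Oc 2 C, h * g = g * h) ∧ Dr H r ≤ Fit C


/-- `R` acts non-trivially on `P`. -/
def NtOn {H : Type} [Group H] (R P : Subgroup H) : Prop := ∃ x ∈ R, ∃ y ∈ P, x * y ≠ y * x

/-- `x` acts on `Q` as a power which is not trivial modulo `l`. -/
def PwOn {H : Type} [Group H] (l : ℕ) (Q : Subgroup H) (x : H) : Prop :=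
  ∃ a : ℤ, ¬ (l : ℤ) ∣ a - 1 ∧ ∀ q ∈ Q, x * q * x⁻¹ = q ^ a

/-- A special `l`-subgroup in the tight case: `[P_l, S_r]` for a good prime `r ∈ T` of an extremal
vector, non-trivial on `P_l`. -/
def Spq {H : Type} (X : Type) [Group H] [AddCommGroup X] [DistribMulAction H X] (C : Subgroup H)
    (T : Finset ℕ) (l : ℕ) (Q : Subgroup H) : Prop :=
  l.Prime ∧ ∃ (v : X) (r : ℕ) (R : Subgroup H), ExtV (Fit C) v ∧ r ∈ T ∧ Gd C v r R ∧
    NtOn R (Oc l C) ∧ Q = ⁅Oc l C, R⁆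

/-- `v` is clean: extremal, and all primes of `M(v)` are good. -/
def Clean {H X : Type} [Group H] [AddCommGroup X] [DistribMulAction H X] (C : Subgroup H)
    (T : Finset ℕ) (v : X) : Prop :=
  ExtV (Fit C) v ∧ ∀ r ∈ T, ∀ R, MiH C v r R → Gd C v r R

/-- The data of `PS` in the tight case: `G = H`, `phi = id`. -/
noncomputable def TS.ps {H X : Type} [gH : Group H] [aX : AddCommGroup X]
    [dH : DistribMulAction H X] {p : ℕ} {C : Subgroup H} {T : Finset ℕ} (h : TS H X p C T) : PS where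
  H := H
  G := H
  W := X
  gH := gH
  gG := gH
  aW := aX
  dH := dH
  dG := dH
  phi := MonoidHom.id H
  C := C
  finH := h.finH
  finG := h.finH
  finW := h.finX
  ntW := h.ntX
  sol := h.sol
  surj := Function.surjective_id
  cmp := fun _ _ => rfl
  ker := fun x => ⟨fun hx => by
      have : x = 1 := hx
      subst this
      exact ⟨C.one_mem, fun w => one_smul H w⟩, fun hx => h.faith x hx.1 hx.2⟩
  nor := h.nor
  irr := h.irr

/-! ## The properties delivered by PROP and GAM -/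

section Props

variable (H X : Type) [Group H] [AddCommGroup X] [DistribMulAction H X] (p : ℕ) (C : Subgroup H)
  (T : Finset ℕ)

/-- (P1) `r` does not divide `|F|` and `R` centralises `C_F(v)`. -/
def FCop : Prop := ∀ (v : X) (r : ℕ) (R : Subgroup H), ExtV (Fit C) v → r ∈ T → MiH C v r R →
  ¬ r ∣ Nat.card (Fit C) ∧ ∀ x ∈ R, ∀ b ∈ Stb (Fit C) v, x * b = b * x

/-- `R` acts non-trivially on some `P_l`. -/
def FNtv : Prop := ∀ (v : X) (r : ℕ) (R : Subgroup H), ExtV (Fit C) v → r ∈ T → MiH C v r R →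
  ∃ l, l.Prime ∧ NtOn R (Oc l C)

/-- (P2) if `R` is non-trivial on `P_l`, then on the operators of `N_{P_l}(B_l)` on `C_X(B)`. -/
def FNz : Prop := ∀ (v : X) (r : ℕ) (R : Subgroup H), ExtV (Fit C) v → r ∈ T → MiH C v r R →
  ∀ l, l.Prime → NtOn R (Oc l C) →
  ∃ x ∈ R, ∃ n ∈ Nz (Oc l C) (Stb (Oc l C) v), ∃ y ∈ FixY X (Stb (Fit C) v),
    (x * n * x⁻¹) • y ≠ n • y

/-- `N_{P_l}(B_l)` acts on `C_X(B)`; an element with a non-zero fixed point is in `B_l`. Every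
`0 ≠ y ∈ C_X(B)` is extremal with the same stabiliser in `F`. -/
def FSem : Prop := ∀ v : X, ExtV (Fit C) v → ∀ y ∈ FixY X (Stb (Fit C) v),
  (y ≠ 0 → ExtV (Fit C) y ∧ Stb (Fit C) y = Stb (Fit C) v) ∧
  ∀ l, l.Prime → (y ≠ 0 → Stb (Oc l C) y = Stb (Oc l C) v) ∧
    ∀ n ∈ Nz (Oc l C) (Stb (Oc l C) v), n • y ∈ FixY X (Stb (Fit C) v) ∧
      (y ≠ 0 → n • y = y → n ∈ Stb (Oc l C) v)

/-- (P2) for `l = 2`: the quaternion group. -/
def FTwo : Prop := ∀ (v : X) (r : ℕ) (R : Subgroup H), ExtV (Fit C) v → r ∈ T → MiH C v r R →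
  r ≠ 2 → NtOn R (Oc 2 C) →
  r = 3 ∧ ∃ i ∈ Nz (Oc 2 C) (Stb (Oc 2 C) v), ∃ j ∈ Nz (Oc 2 C) (Stb (Oc 2 C) v),
    (∀ y ∈ FixY X (Stb (Fit C) v), i • i • y = -y) ∧
    (∀ y ∈ FixY X (Stb (Fit C) v), j • j • y = -y) ∧
    (∀ y ∈ FixY X (Stb (Fit C) v), i • j • y = -(j • i • y)) ∧
    ∀ n ∈ Nz (Oc 2 C) (Stb (Oc 2 C) v), ∃ m ∈ ({1, i, j, i * j} : Set H),
      (∀ y ∈ FixY X (Stb (Fit C) v), n • y = m • y) ∨
        ∀ y ∈ FixY X (Stb (Fit C) v), n • y = -(m • y)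

/-- (P3) `r` and `l` odd. -/
def FOdd : Prop := ∀ (v : X) (r : ℕ) (R : Subgroup H), ExtV (Fit C) v → r ∈ T → MiH C v r R →
  r ≠ 2 → ∀ l, l.Prime → l ≠ 2 → NtOn R (Oc l C) →
  (∀ x ∈ ⁅Oc l C, R⁆, ∀ y ∈ ⁅Oc l C, R⁆, x * y = y * x) ∧ ⁅Oc l C, R⁆ ≤ Oc l C ∧
  ⁅Oc l C, R⁆ ≠ ⊥ ∧ Nrm (Oc l C) ⁅Oc l C, R⁆ ∧
  (∀ x ∈ Oc l C, ∃ q ∈ ⁅Oc l C, R⁆, ∃ b ∈ Stb (Oc l C) v, x = q * b) ∧
  Stb ⁅Oc l C, R⁆ v = ⊥ ∧ (∀ x ∈ Oc l C, (∀ s ∈ R, s * x = x * s) → x • v = v) ∧
  (∀ s ∈ R, (∃ a : ℤ, ∀ q ∈ ⁅Oc l C, R⁆, s * q * s⁻¹ = q ^ a) ∧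
    ((∃ y ∈ Oc l C, s * y ≠ y * s) → PwOn l ⁅Oc l C, R⁆ s)) ∧
  IsCyclic (CK ⁅Oc l C, R⁆ (Stb (Oc l C) v))

/-- Two odd primes of `M(v)` non-trivial on `P_l` have the same `[P_l, S_r]`. -/
def FSam : Prop := ∀ (v : X) (r r' : ℕ) (R R' : Subgroup H), ExtV (Fit C) v → r ∈ T → r' ∈ T →
  MiH C v r R → MiH C v r' R' → r ≠ 2 → r' ≠ 2 → ∀ l, l.Prime → l ≠ 2 → NtOn R (Oc l C) →
  NtOn R' (Oc l C) → ⁅Oc l C, R⁆ = ⁅Oc l C, R'⁆

/-- (P4) primes `≥ 5` are good. -/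
def FG5 : Prop := ∀ (v : X) (r : ℕ) (R : Subgroup H), ExtV (Fit C) v → r ∈ T → MiH C v r R →
  5 ≤ r → Gd C v r R

/-- (P4) `3` is good if `2 ∈ M(w)` for some `w ≠ 0`. -/
def FG2 : Prop := ∀ (v w : X) (R U : Subgroup H), ExtV (Fit C) v → w ≠ 0 → 3 ∈ T →
  MiH C v 3 R → MiH C w 2 U → Gd C v 3 R

/-- `l` is a bad place for `R` (`r = 3`): some `R`-invariant `t`-subgroup `U = [U,R]` of `D_3`, `t ≠ l`,
acts non-trivially on `P_l`. -/
def BadP {H : Type} [Group H] (C R : Subgroup H) (l : ℕ) : Prop :=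
  ∃ t, t.Prime ∧ t ≠ l ∧ ∃ U : Subgroup H, IsPGroup t U ∧ U ≤ Dr H 3 ∧ Nrm R U ∧ ⁅U, R⁆ = U ∧
    NtOn U (Oc l C)

/-- (P4) `3` is good if it is trivial on `P_2` and there is no bad place `l ≠ 2`. -/
def FG3 : Prop := ∀ (v : X) (R : Subgroup H), ExtV (Fit C) v → 3 ∈ T → MiH C v 3 R →
  ¬ NtOn R (Oc 2 C) → (∀ l, l.Prime → l ≠ 2 → ¬ BadP C R l) → Gd C v 3 R

/-- (GAM) if `3 ∈ M(y)` for all `0 ≠ y ∈ C_X(B)`, and `l` is a bad place, then `[P_l, R]` is not
cyclic. -/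
def FGam : Prop := ∀ (v : X) (R : Subgroup H), ExtV (Fit C) v → 3 ∈ T → MiH C v 3 R →
  ¬ NtOn R (Oc 2 C) → (∀ y ∈ FixY X (Stb (Fit C) v), y ≠ 0 → ∃ R', MiH C y 3 R') →
  ∀ l, l.Prime → l ≠ 2 → BadP C R l → ¬ IsCyclic (⁅Oc l C, R⁆ : Subgroup H)

/-- For a good prime, `[P_l, R]` is normal in `H`, and `l ≠ 2`. -/
def FSpn : Prop := ∀ (v : X) (r : ℕ) (R : Subgroup H), ExtV (Fit C) v → r ∈ T → Gd C v r R →
  ∀ l, l.Prime → NtOn R (Oc l C) → l ≠ 2 ∧ (⁅Oc l C, R⁆ : Subgroup H).Normal ∧ ⁅Oc l C, R⁆ ≠ ⊥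

/-- Frattini: `r` good in `M(v)`, `w` fixed by some Sylow `r`-subgroup: `C_{[P_l,R]}(w)` is complemented
in the stabiliser of `w`. -/
def FFra : Prop := ∀ (v : X) (r : ℕ) (R : Subgroup H), ExtV (Fit C) v → r ∈ T → Gd C v r R →
  ∀ l, l.Prime → NtOn R (Oc l C) → ∀ w : X, ¬ Kl H w r →
  ∃ K : Subgroup H, (∀ k ∈ K, k • w = w) ∧ Stb ⁅Oc l C, R⁆ w ⊓ K = ⊥ ∧
    ∀ h : H, h • w = w → ∃ d ∈ Stb ⁅Oc l C, R⁆ w, ∃ k ∈ K, h = d * k

/-- (0.3) The family bound: `Q l`, `l ∈ I`, special; a prime `r ∈ U` has an `r`-element acting on some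
`Q l` by a power which is not trivial modulo `l`. Then `|U| ≤ |Π_K|`. -/
def FFam : Prop := ∀ (I : Finset ℕ) (Q : ℕ → Subgroup H), (∀ l ∈ I, Spq X C T l (Q l)) →
  ∀ U : Finset ℕ, U ⊆ T → (∀ r ∈ U, ∃ l ∈ I, ∃ x : H, LE r x ∧ PwOn l (Q l) x) →
    U.card ≤ (PiK H X T).card

end Props

/-- All the properties. -/
structure PRP (H X : Type) [Group H] [AddCommGroup X] [DistribMulAction H X]
    (C : Subgroup H) (T : Finset ℕ) : Prop where
  cop : FCop H X C T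
  ntv : FNtv H X C T
  nz : FNz H X C T
  sem : FSem H X C
  two : FTwo H X C T
  odd : FOdd H X C T
  sam : FSam H X C T
  g5 : FG5 H X C T
  g2 : FG2 H X C T
  g3 : FG3 H X C T
  gam : FGam H X C T
  spn : FSpn H X C T
  fra : FFra H X C T
  fam : FFam H X C T

/-! ## Interface modules (`G = H`, `phi = id`)

In all of them `S := h.ps`, `h : TS H X p C T`. `S.N = C.map (MonoidHom.id H) = C` (`Subgroup.map_id`),
so `S.P l = Oc l C`, `S.F = Fit C`, `S.B w l = Stb (Oc l C) w`, `S.CP l x ↔ ∀ g ∈ Oc l C, x g = g x`,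
`S.Mi w r R ↔ MiH C w r R`, `S.Ext w ↔ ExtV (Fit C) w`, `S.Good w r R ↔ r.Prime ∧ S.Nt R ∧ Gd C w r R`
up to these rewritings. Module **TPS** exports these facts. -/

/-- **TPS** [80 lines]. Translation. (no hyps)
PROOF. `Subgroup.map_id`, unfolding. `Nt`: `R ≠ ⊥` as `r ∣ |H|`, and `C` is faithful. -/
def SpecTPS : Prop :=
  ∀ (H X : Type) [Group H] [AddCommGroup X] [DistribMulAction H X] (p : ℕ) (C : Subgroup H)
    (T : Finset ℕ) (h : TS H X p C T),
    (∀ l, h.ps.P l = Oc l C) ∧ h.ps.F = Fit C ∧ (∀ w : X, h.ps.Ext w ↔ ExtV (Fit C) w) ∧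
    (∀ (w : X) (r : ℕ) (R : Subgroup H), h.ps.Mi w r R ↔ MiH C w r R) ∧
    (∀ (w : X) (r : ℕ) (R : Subgroup H), r ∈ T → (h.ps.Pr w r R ↔ MiH C w r R)) ∧
    (∀ (w : X) (r : ℕ) (R : Subgroup H), r ∈ T → (h.ps.Good w r R ↔ Gd C w r R)) ∧
    ∀ (l : ℕ) (x : H), h.ps.CP l x ↔ ∀ g ∈ Oc l C, x * g = g * x

/-- **TCP** [80 lines]. (hyps: TPS, PAA, FTF, PSB)
PROOF. PAA (2): `Oc r C = ⊥`; FTF (5) for `K = Fit C`: if `r ∣ |Fit C|` then `r` divides some
`|Oc l C|`, an `l`-group, so `l = r`, contradiction. `b ∈ Stb (Fit C) v` fixes `v`, so it normalises `R`: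
`b t b⁻¹ t⁻¹ ∈ R`, and it is in `Fit C` (normal in `H`): `R ⊓ Fit C = ⊥` by orders. -/
def SpecTCP : Prop :=
  ∀ (H X : Type) [Group H] [AddCommGroup X] [DistribMulAction H X] (p : ℕ) (C : Subgroup H)
    (T : Finset ℕ), TS H X p C T → FCop H X C T

/-- **TNV** [30 lines]. (hyps: TPS, PAA (4)) -/
def SpecTNV : Prop :=
  ∀ (H X : Type) [Group H] [AddCommGroup X] [DistribMulAction H X] (p : ℕ) (C : Subgroup H)
    (T : Finset ℕ), TS H X p C T → FNtv H X C T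

/-- **TSE** [120 lines]. Semiregularity. (hyps: TPS, PSR, FTF, PSB)
PROOF. `B := Stb (Fit C) v ≤ Stb (Fit C) y`, so equality by maximality (`Subgroup.eq_of_le_of_card_ge`) and
`y` is extremal. `Stb (Oc l C) y = Oc l C ⊓ Stb (Fit C) y`. The rest is PSR for `w := v`. -/
def SpecTSE : Prop :=
  ∀ (H X : Type) [Group H] [AddCommGroup X] [DistribMulAction H X] (p : ℕ) (C : Subgroup H)
    (T : Finset ℕ), TS H X p C T → FSem H X C

/-- **TNZ** [120 lines]. (hyps: TPS, TCP, TSE, THO, OCF)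
PROOF. Suppose `(x n x⁻¹) y = n y` for all `x ∈ R`, `n ∈ N := Nz P_l B_l`, `y ∈ C_X(B)`. Take `y = v`
(`v ∈ C_X(B)`): `n⁻¹ x n x⁻¹ ∈ P_l` fixes `v`, so it is in `B_l`: `x n x⁻¹ = n b`, `b ∈ B_l`, and `x`
commutes with `b` (TCP). Coprime orders (`l ≠ r` since `r ∤ |Fit C|` and `P_l ≠ 1`): `b = 1`
(`comm_eq_one` in X/THO.lean, or: `x^k n x^(-k) = n b^k`, `k` the order of `x`, so `b^k = 1`, `l ∤ k`). So
`R` centralises `N ≥ C_{P_l}(B_l)`. THO with `P := P_l`, `A := R`, `B := B_l`: `R` centralises `P_l`. -/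
def SpecTNZ : Prop :=
  ∀ (H X : Type) [Group H] [AddCommGroup X] [DistribMulAction H X] (p : ℕ) (C : Subgroup H)
    (T : Finset ℕ), TS H X p C T → FNz H X C T

/-- **TTW** [200 lines]. The quaternion group. (hyps: TPS, TCP, TSE, TNZ, PCC; the finer form of FRT
in helper49's X/FRC.lean, X/FRT.lean)
PROOF. `r = 3`: PCC (2) excludes `r ≥ 5`. `K := Nz P_2 B_2` acts on `Y := C_X(B)`, an element with a
non-zero fixed point in `Y` is in `B_2`, `B_2` is trivial on `Y`. By TNZ some `ρ ∈ R` is non-trivial on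
`K / B_2`; `ρ` has odd order and normalises `K` and `B_2`. Finer FRT: `K / B_2 = Q_8`: there are
`i, j ∈ K` with `i², j² , (ij)²` in the same class `z` modulo `B_2`, `z² ∈ B_2`, `z ∉ B_2`,
`[i,j] = z` modulo `B_2`, `K = ⟨i,j⟩ B_2`. `z = -1` on `Y`: `(z y + y)` is fixed by `z`, so it is `0`. So
`i² = j² = -1`, `i j = z j i = - j i` on `Y`, and every `n ∈ K` is one of `±1, ±i, ±j, ±ij` on `Y`. -/
def SpecTTW : Prop :=
  ∀ (H X : Type) [Group H] [AddCommGroup X] [DistribMulAction H X] (p : ℕ) (C : Subgroup H)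
    (T : Finset ℕ), TS H X p C T → FTwo H X C T

/-- **TOD** [150 lines]. (hyps: TPS, PAA, PCC, PCG, PSB)
PROOF. For `t ∈ R` non-trivial on `P_l`: `Pow v l t a Q` (PCC (1)), and `Q` is the same for all such `t`
(PCG with `r' = r`). `⁅Oc l C, R⁆` is generated by the commutators `x s x⁻¹ s⁻¹`, `s ∈ R`, `x ∈ P_l`: for `s`
trivial on `P_l` they are `1`, for the others they are in `Q` (which is normalised by `P_l`), so
`⁅Oc l C, R⁆ = Q`. Now read off everything from `Pow`: `Q ⊓ B_l = ⊥` gives `Stb Q v = ⊥`; `Q ⊔ B_l = P_l` with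
`Q` normal in `P_l`: `x = q b`; `s` trivial on `P_l`: power `a = 1`; cyclic: `c` generates `C_Q(B_l)`. -/
def SpecTOD : Prop :=
  ∀ (H X : Type) [Group H] [AddCommGroup X] [DistribMulAction H X] (p : ℕ) (C : Subgroup H)
    (T : Finset ℕ), TS H X p C T → FOdd H X C T

/-- **TSM** [60 lines]. (hyps: TPS, PCC, PCG, TOD) PROOF. As in TOD: both are the `Q` of PCG. -/
def SpecTSM : Prop :=
  ∀ (H X : Type) [Group H] [AddCommGroup X] [DistribMulAction H X] (p : ℕ) (C : Subgroup H)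
    (T : Finset ℕ), TS H X p C T → FSam H X C T

/-- **TG5** [60 lines]. (hyps: TPS, PDA) -/
def SpecTG5 : Prop :=
  ∀ (H X : Type) [Group H] [AddCommGroup X] [DistribMulAction H X] (p : ℕ) (C : Subgroup H)
    (T : Finset ℕ), TS H X p C T → FG5 H X C T ∧ FG2 H X C T

/-- **TG3** [100 lines]. (hyps: TPS, PDG, RLO; XF/CA, CB)
PROOF. PDG: let `l ≠ 2, 3` and `T₁` an `R`-invariant Sylow `t`-subgroup of `D_3`, `t ≠ l`. `U := ⁅T₁, R⁆` is an
`R`-invariant `t`-subgroup of `D_3` with `⁅U, R⁆ = U` (`XF.comm_comm`, coprime since `3 ∤ |D_3|`; if `t = 3`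
then `T₁ = 1`). By hypothesis `U` centralises `P_l`, so all `s x s⁻¹ x⁻¹` do. -/
def SpecTG3 : Prop :=
  ∀ (H X : Type) [Group H] [AddCommGroup X] [DistribMulAction H X] (p : ℕ) (C : Subgroup H)
    (T : Finset ℕ), TS H X p C T → FG3 H X C T

/-- **TSN** [100 lines]. (hyps: TPS, PDB, TOD, PSB)
PROOF. `R` is non-trivial on `P_l`: some `s ∈ R` has `¬ CP l s`; PDB (8): `l ≠ 2`, `l ≠ r` and
`Dr H r ⊓ Oc l C = Q` (`phi = id`), `Q = ⁅Oc l C, R⁆` as in TOD. Both `Dr H r` and `Oc l C` are normal. -/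
def SpecTSN : Prop :=
  ∀ (H X : Type) [Group H] [AddCommGroup X] [DistribMulAction H X] (p : ℕ) (C : Subgroup H)
    (T : Finset ℕ), TS H X p C T → FSpn H X C T

/-- **TFR** [200 lines]. (hyps: TPS, PDB, RLO, FRA, TSN, TOD)
PROOF. `w` is fixed by a Sylow `r`-subgroup `R' = g R g⁻¹` (all Sylow subgroups are conjugate). Let
`I := Stb ⊤ w`, `D := Dr H r ⊓ I`. `D` is abelian, normal in `I`; `L_r ⊓ I = D R'` (`L_r = D_r R'`, RLO, and
`R' ≤ I`) is normal in `I`; `|D|` is prime to `r`; `C_D(R') = 1` (PDB (4) conjugated by `g`: `D_r` is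
normal). FRA in the group `I`: a complement `K₁` of `D` in `I`. `Q := ⁅Oc l C, R⁆ = D_r ⊓ P_l` (TSN) is the
`l`-part of `D_r`; `Stb Q w = Q ⊓ D` is the `l`-part of `D`, and `K := D' K₁`, `D'` the set of the elements of `D` of
order prime to `l` (normal in `I`). -/
def SpecTFR : Prop :=
  ∀ (H X : Type) [Group H] [AddCommGroup X] [DistribMulAction H X] (p : ℕ) (C : Subgroup H)
    (T : Finset ℕ), TS H X p C T → FFra H X C T

/-- **TFM** [200 lines]. The family bound. (hyps: TPS, SPA, SPM, PBX, PEM, PE1, PDC, TSN, TOD,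
PSB)
PROOF. Every `Q l`, `l ∈ I`, is special in the sense of `PS.Spc`: `Q l = ⁅Oc l C, R⁆ = Lp l (S.D v)` (SPA (1);
both are the `Q` of `Pow`: PDC (8) with `phi = id`: `D(v) ⊓ P_l = Q`, and the `l`-elements of `D(v)` are in
`P_l`). `E := sSup {K | ∃ l ∈ I, K = Q l}`: SPM; PBX: `bet`. `(0, E, bet)` is a state (`StV C 0 E bet`, everything
fixes `0`; `E K = H` gives `h = d k`). `tight`: `|A| ≤ |M|`. (i) `U ⊆ A`: let `r ∈ U`, `l ∈ I`, `x` an `r`-element acting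
on `Q l` as a power `a`, `l ∤ a - 1`. Suppose the Sylow `r`-subgroup `R'` fixes `bet`. A conjugate `x' = g x g⁻¹`
is in `R'`; it acts on `Q l` (normal) by the same power `a`. `Q l ≠ ⊥` (TSN), so `l ∣ |E|` and by `Full` there is
an `l`-element `q ∈ E`, so `q ∈ Q l` (SPM (4)), with `bet q ≠ 1`: `bet q = bet (x' q x'⁻¹) = (bet q)^a`, and `bet q`
has `l`-power order: `(bet q)^(a-1) = 1`, so `bet q = 1`, contradiction. (ii) `M ⊆ PiK`: let `r ∈ M` with
`R'`. If `r ∣ |E|`: PE1: no Sylow `r`-subgroup fixes a `v ≠ 0`. Otherwise PEM: `R'` is normal in `H`; if a Sylow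
`r`-subgroup fixes `v ≠ 0`, it is `R'`, so `R'` is trivial on `X` (PSB (6)), `R' ≤ C` is faithful: `R' = 1`, but
`r ∣ |H|`. -/
def SpecTFM : Prop :=
  ∀ (H X : Type) [Group H] [AddCommGroup X] [DistribMulAction H X] (p : ℕ) (C : Subgroup H)
    (T : Finset ℕ), TS H X p C T → FFam H X C T

/-- **TGA** [?]. (helper64, block GAM) -/
def SpecTGA : Prop :=
  ∀ (H X : Type) [Group H] [AddCommGroup X] [DistribMulAction H X] (p : ℕ) (C : Subgroup H)
    (T : Finset ℕ), TS H X p C T → FGam H X C T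

/-! ## The main modules -/

/-- **CNB** [100 lines]. Counting for vectors. (no hyps)
PROOF. (1), (2): definitions. (3) `tight` for the state `(v, ⊥, 1)`: `StV C v ⊥ (fun _ => 1)` (complement:
`Stb ⊤ v`); `FxS v ⊥ 1 h ↔ h • v = v` (`FixB` is trivial for `bet = 1`); `KlS` is `Kl H v r`; `MiS` is
`∃ R, MiH C v r R` (`D = ⊥`: the commutators are `1`, `⊥ ⊔ R = R`). -/
def SpecCNB : Prop :=
  ∀ (H X : Type) [Group H] [AddCommGroup X] [DistribMulAction H X] (p : ℕ) (C : Subgroup H)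
    (T : Finset ℕ), TS H X p C T → 0 < (PiK H X T).card ∧ ∀ v : X, v ≠ 0 →
      PiK H X T ⊆ kA H T v ∧ (kA H T v).card ≤ (kM C T v).card

/-- **GDB** [120 lines]. The number of good primes of `M(v)` is at most `k = |Π_K|`. (hyps: none,
only fields `ntv`, `spn`, `odd`, `fam` and `sam` of `PRP`)
PROOF. `I :=` the set of the primes `l` such that some good prime `r ∈ T` of `M(v)` is non-trivial on
`P_l` (a subset of the prime divisors of `|H|`; `l ≠ 2` by `spn`); for `l ∈ I` choose such an `r`, `R` and put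
`Q l := ⁅Oc l C, R⁆`. For a good `r' ∈ U`, `R'`: by `ntv` non-trivial on some `P_l`, `l ∈ I`, `Q l = ⁅Oc l C, R'⁆`
(`sam`), and by `odd` an element `x` of `R'` acts on it by a non-trivial power. `fam`. -/
def SpecGDB : Prop :=
  ∀ (H X : Type) [Group H] [AddCommGroup X] [DistribMulAction H X] (p : ℕ) (C : Subgroup H)
    (T : Finset ℕ), TS H X p C T → PRP H X C T → ∀ v : X, ExtV (Fit C) v →
    ∀ U : Finset ℕ, U ⊆ T → (∀ r ∈ U, ∃ R, Gd C v r R) → U.card ≤ (PiK H X T).card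

/-- **CLE** [60 lines]. `v` clean: `A(v) = Π_K`, `|M(v)| = k`. (hyps: CNB, GDB)
PROOF. `kM C T v` consists of good primes: `|M(v)| ≤ k` (GDB); `k ≤ |A(v)| ≤ |M(v)|` (CNB). -/
def SpecCLE : Prop :=
  ∀ (H X : Type) [Group H] [AddCommGroup X] [DistribMulAction H X] (p : ℕ) (C : Subgroup H)
    (T : Finset ℕ), TS H X p C T → PRP H X C T → ∀ v : X, Clean C T v →
      kA H T v = PiK H X T ∧ (kM C T v).card = (PiK H X T).card

/-- **BD2** [120 lines]. `2 ∈ M(v)` for no extremal `v`. (hyps: EIG, CLE)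
PROOF (T1.md section 2). Let `R` witness `2 ∈ M(v)`. `Y := FixY X (Stb (Fit C) v)`; `R` acts on `Y` (it
commutes with `Stb (Fit C) v`: `cop`). By `ntv`, `nz`: some `x ∈ R`, `n ∈ Nz P_l B_l`, `y ∈ Y` with
`(x n x⁻¹) y ≠ n y`; `n` maps `Y` to `Y` (`sem`): if `R` were trivial on `Y` then `x n x⁻¹ y = x n y = n y`. So some
`x ∈ R` is non-trivial on `Y`. Replace it by a power: `x² = 1` on `Y`, `x ≠ 1` on `Y` (`R` is a `2`-group). `v' := y - x y
≠ 0` for some `y ∈ Y`: `x v' = - v' ≠ v'` (`p ≠ 2` because `2 ∣ |H|`, `p ∤ |H|`). EIG (`c = p - 1`): `Kl H v' 2`. `v' ∈ Y`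
is extremal (`sem`). `v'` is clean: `r ∈ T`, `MiH C v' r R'`: `r ≠ 2` (killed); `r = 3`: `g2` (with `w := v`); `r ≥ 5`:
`g5`. CLE: `2 ∈ kA H T v' = Π_K`, so `Kl H v 2`: but `R` fixes `v`. -/
def SpecBD2 : Prop :=
  ∀ (H X : Type) [Group H] [AddCommGroup X] [DistribMulAction H X] (p : ℕ) (C : Subgroup H)
    (T : Finset ℕ), TS H X p C T → PRP H X C T → ∀ v : X, ExtV (Fit C) v → 2 ∈ T →
      ¬ ∃ R, MiH C v 2 R

/-- **Q8T** [120 lines]. `3 ∈ M(v)`, `R` non-trivial on `P_2`: there is `v'` with `3 ∉ M(v')`, with the same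
stabiliser in `F`. (hyps: EIG, QSF)
PROOF (T1.md section 3). `Y := FixY X (Stb (Fit C) v)`, `N := Nz P_2 B_2`, `i, j` from `two`. QSF: `V ≤ Y`. (`p ≠ 2, 3`
because `2, 3 ∣ |H|`: `3 ∈ T`, and `P_2 ≠ 1`.) Take `0 ≠ w ∈ V`. If `3 ∉ M(w)`: `v' := w`. Otherwise `MiH C w 3 R'`;
`R'` is conjugate to `R` and `P_2` is normal in `H`: `R'` is non-trivial on `P_2`. `nz` for `w` (with
`Stb (Fit C) w = Stb (Fit C) v`, `Stb P_2 w = B_2` by `sem`): `s ∈ R'`, `n ∈ N`, `y ∈ Y` with `(s n s⁻¹) y ≠ n y`. `s`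
normalises `N` (it commutes with `B_2` by `cop`, and normalises `P_2`). QSF: `v' ∈ V`, `s^m v' = c v' ≠ v'`; EIG:
`Kl H v' 3`, so `3 ∉ M(v')`. `v' ≠ 0`, `v' ∈ Y`: `sem`. -/
def SpecQ8T : Prop :=
  ∀ (H X : Type) [Group H] [AddCommGroup X] [DistribMulAction H X] (p : ℕ) (C : Subgroup H)
    (T : Finset ℕ), TS H X p C T → PRP H X C T → ∀ v : X, ExtV (Fit C) v → 3 ∈ T →
      ∀ R, MiH C v 3 R → NtOn R (Oc 2 C) →
      ∃ v' : X, ExtV (Fit C) v' ∧ Stb (Fit C) v' = Stb (Fit C) v ∧ ¬ ∃ R', MiH C v' 3 R'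

/-- **EKT** [150 lines]. The projection. `r` odd in `M(v)` (good or bad), `l` odd, `Q = [P_l, R]` not cyclic:
there is an extremal `v'` with `|C_Q(v')| = l`, the same stabilisers in `P_l'`, `l' ≠ l`, and `r ∉ M(v')`.
(hyps: EKA, FTF, OCF, PWM)
PROOF (T1.md section 4). EKA with `FF := Fit C`, `P := Oc l C`, `P' := ⨆ l' ≠ l, Oc l' C` (the sup over the primes
`l' ≠ l`; it commutes with `P`, has order prime to `l`, and `P ⊔ P' = Fit C`: FTF, OCF), `Q := ⁅Oc l C, R⁆`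
(`odd`). `Stb (Oc l' C) v' = Oc l' C ⊓ Stb P' v'`. Every `s ∈ R` normalises `K ≤ Q` (powers) and fixes `v`, so it
fixes `v'`. Some `x ∈ R` is non-trivial on `P_l`, so it acts on `K` as `a`, `l ∤ a - 1`. If `MiH C v' r R'` then `R`,
a Sylow `r`-subgroup of `H` fixing `v'`, is equal to `R'` (`R'` is normal in the stabiliser of `v'`, which
contains both; Sylow), and `R` centralises `Stb (Fit C) v' ≥ K` (`cop`): `k = x k x⁻¹ = k^a`, `k^(a-1) = 1`, `k = 1`,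
contradiction. -/
def SpecEKT : Prop :=
  ∀ (H X : Type) [Group H] [AddCommGroup X] [DistribMulAction H X] (p : ℕ) (C : Subgroup H)
    (T : Finset ℕ), TS H X p C T → PRP H X C T → ∀ (v : X) (r : ℕ) (R : Subgroup H),
      ExtV (Fit C) v → r ∈ T → MiH C v r R → r ≠ 2 → ∀ l, l.Prime → l ≠ 2 → NtOn R (Oc l C) →
      ¬ IsCyclic (⁅Oc l C, R⁆ : Subgroup H) →
      ∃ v' : X, ExtV (Fit C) v' ∧ (¬ ∃ R', MiH C v' r R') ∧
        Nat.card (Stb ⁅Oc l C, R⁆ v') = l ∧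
        ∀ l', l'.Prime → l' ≠ l → Stb (Oc l' C) v' = Stb (Oc l' C) v

/-- **UNC** [150 lines]. What an unclean extremal vector looks like, and how to repair it at a bad
place. `v` extremal, not clean. (hyps: BD2, Q8T, EKT)
Then `3 ∈ T`, `3 ∈ M(v)` (with `R`), not good, all other primes of `M(v)` are good, and either
(a) there is a clean `v'` with `Stb (Fit C) v' = Stb (Fit C) v`, or (b) there is a bad place `l ≠ 2`, and for
every bad place `l ≠ 2` there is a clean `v'` with `Stb (Oc l' C) v' = Stb (Oc l' C) v` for all primes `l' ≠ l`.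
PROOF (T1.md section 10). The bad prime `r` of `M(v)` is not `≥ 5` (`g5`), not `2` (BD2): `r = 3`. If some
`y ∈ FixY X (Stb (Fit C) v)`, `y ≠ 0`, has `3 ∉ M(y)`, it is clean (extremal with the same stabiliser by `sem`;
`2 ∉ M(y)` by BD2; `g5`): (a). Otherwise: `R` is trivial on `P_2` (else Q8T gives `v'` with `Stb (Fit C) v' =
Stb (Fit C) v`, so `v' ∈ FixY X (Stb (Fit C) v)`, and `3 ∉ M(v')`: contradiction). By `g3` there is a bad place
`l ≠ 2`. Let `l ≠ 2` be any bad place. `R` is non-trivial on `P_l` (else `U = ⁅U,R⁆` is trivial on `P_l`: the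
elements of `H` which centralise `P_l` form a normal subgroup). `gam`: `⁅Oc l C, R⁆` is not cyclic. EKT: `v'`
with `3 ∉ M(v')`; clean by BD2, `g5`. -/
def SpecUNC : Prop :=
  ∀ (H X : Type) [Group H] [AddCommGroup X] [DistribMulAction H X] (p : ℕ) (C : Subgroup H)
    (T : Finset ℕ), TS H X p C T → PRP H X C T → ∀ v : X, ExtV (Fit C) v → ¬ Clean C T v →
      3 ∈ T ∧ ∃ R, MiH C v 3 R ∧ (∀ r ∈ T, r ≠ 3 → ∀ R', MiH C v r R' → Gd C v r R') ∧
      ((∃ v' : X, Clean C T v' ∧ Stb (Fit C) v' = Stb (Fit C) v) ∨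
        ((∃ l, l.Prime ∧ l ≠ 2 ∧ BadP C R l) ∧ ∀ l, l.Prime → l ≠ 2 → BadP C R l →
          ∃ v' : X, Clean C T v' ∧ ∀ l', l'.Prime → l' ≠ l → Stb (Oc l' C) v' = Stb (Oc l' C) v))

/-- **CLN** [40 lines]. There is a clean vector. (hyps: UNC)
PROOF. Take an extremal `v` (finite non-empty set of non-zero vectors); if it is not clean: UNC. -/
def SpecCLN : Prop :=
  ∀ (H X : Type) [Group H] [AddCommGroup X] [DistribMulAction H X] (p : ℕ) (C : Subgroup H)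
    (T : Finset ℕ), TS H X p C T → PRP H X C T → ∃ v : X, Clean C T v

/-- **NI1** [200 lines]. T1.md (11.1), (11.2). `Q = [P_l, R₀]` special for `(v₀, r₀, R₀)`, `P := ` the set of the
good primes `r ∈ T` of `M(v₀)` non-trivial on `P_l` (so `Q = [P_l, S_r]`), `v` extremal with `|C_Q(v)| = l`. Then
`k + |P| ≤ |M(v)|`, and no `r ∈ P` is in `M(v)`. (hyps: CNB)
PROOF. `K := Stb Q v`, `|K| = l`, `K ≤ Stb (Fit C) v`, `K` is normalised by the stabiliser of `v` (`Q` is normal in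
`H`: `spn`). (a) `r ∈ P`: some `x ∈ S_r` acts on `Q` as `a`, `l ∤ a - 1` (`odd`, `sam`). If `MiH C v r R'`: `R' = g S_r g⁻¹`, `g x g⁻¹`
acts on `Q` as `a` too and centralises `K` (`cop`): `K = 1`, contradiction: `r ∉ M(v)`. Also `r ∉ PiK` (`S_r` fixes
`v₀`). (b) If all `r ∈ P` are in `A(v)`: `|A(v)| ≥ |PiK ∪ P| = k + |P|` and CNB. (c) Otherwise some `r ∈ P` is not in
`A(v)`; `fra` (for `v₀`, `r`, `w := v`; `⁅Oc l C, S_r⁆ = Q` by `sam`): a complement of `K` in the stabiliser of `v`.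
`K` is cyclic of order `l`: let `bet` be a faithful linear character of `K` (`bet (g^i) = ζ^i`, `ζ` a primitive
`l`-th root of unity). `(v, K, bet)` is a state. `A ⊇ PiK ∪ P`: `PiK ⊆ kA v` clear; `r ∈ P`: a Sylow `r`-subgroup
`R'` fixing `v` and `bet` contains a conjugate `x'` of `x`: `bet k = bet (x' k x'⁻¹) = (bet k)^a`, so `bet k = 1` for
all `k ∈ K`, contradiction. `M ⊆ kM C T v`: let `R'` witness `r ∈ M` of the state. `r ≠ l` (else `Q ≤ R'` (normal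
`l`-subgroup) fixes `v`, so `X` is centralised by `Q`, contradiction to faithful). `R'` fixes the faithful `bet`
and normalises `K`, so it centralises `K`; `[R',R'] ≤ R' ⊓ K = 1`; let `h` fix `v`. If `h` centralises `K` then
`FxS v K bet h`, `h t h⁻¹ ∈ K ⊔ R' = K × R'`, an `r`-element: `∈ R'`. So `R'` is the unique Sylow `r`-subgroup
of `Z := {h : h v = v, h centralises K}` (every Sylow `r`-subgroup of `Z` is conjugate in `Z`), and `Z` is normalised
by the stabiliser of `v`: `h t h⁻¹ ∈ R'` for every `h` fixing `v`. So `MiH C v r R'`. `tight`: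
`k + |P| ≤ |A| ≤ |M| ≤ |kM C T v|`. -/
def SpecNI1 : Prop :=
  ∀ (H X : Type) [Group H] [AddCommGroup X] [DistribMulAction H X] (p : ℕ) (C : Subgroup H)
    (T : Finset ℕ), TS H X p C T → PRP H X C T → ∀ (v₀ : X) (r₀ : ℕ) (R₀ : Subgroup H),
      ExtV (Fit C) v₀ → r₀ ∈ T → Gd C v₀ r₀ R₀ → ∀ l, l.Prime → NtOn R₀ (Oc l C) →
      ∀ P : Finset ℕ, (∀ r, r ∈ P ↔ r ∈ T ∧ ∃ R, Gd C v₀ r R ∧ NtOn R (Oc l C)) →
      ∀ v : X, ExtV (Fit C) v → Nat.card (Stb ⁅Oc l C, R₀⁆ v) = l →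
        (PiK H X T).card + P.card ≤ (kM C T v).card ∧ ∀ r ∈ P, ¬ ∃ R', MiH C v r R'

/-- **NI2** [150 lines]. T1.md (11.5): if a good prime `r₁` of `M(v)` is non-trivial on `P_l`, then `l` is
not a bad place for `3` at `v`. (no hyps but `PRP`)
PROOF. Let `MiH C v 3 R`, `Gd C v r₁ R₁`, `r₁ ≠ 3`, `R₁` non-trivial on `P_l`; let `U = ⁅U,R⁆ ≤ D_3` be an `R`-invariant
`t`-subgroup, `t ≠ l`; to show: `U` centralises `P_l`. If `R` centralises `P_l` then so does `U` (`{h : h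
centralises P_l}` is normal in `H`). Otherwise `Q := ⁅Oc l C, R⁆ = ⁅Oc l C, R₁⁆` (`sam`) is normal in `H` (`spn`).
`R` centralises `P_l` modulo `Q`, so `U = ⁅U,R⁆` does (the elements `h` with `h x h⁻¹ x⁻¹ ∈ Q` for all `x ∈ P_l` form
a normal subgroup of `H`). `R` acts on `Q` by powers (`odd`), so for `u ∈ U`, `s ∈ R`: `u s u⁻¹ s⁻¹` is trivial on
`Q` (a power map commutes with conjugation by `u`); these elements generate `U`: `U` centralises `Q`. Coprime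
(`t ≠ l`): for `u ∈ U`, `x ∈ P_l`: `u x u⁻¹ = q x`, `q ∈ Q` commutes with `u`, so `u^n x u⁻ⁿ = q^n x`, `n` the order of
`u`: `q^n = 1`, `l ∤ n`: `q = 1`. -/
def SpecNI2 : Prop :=
  ∀ (H X : Type) [Group H] [AddCommGroup X] [DistribMulAction H X] (p : ℕ) (C : Subgroup H)
    (T : Finset ℕ), TS H X p C T → PRP H X C T → ∀ (v : X) (r₁ : ℕ) (R R₁ : Subgroup H),
      ExtV (Fit C) v → 3 ∈ T → MiH C v 3 R → r₁ ∈ T → Gd C v r₁ R₁ →
      ∀ l, l.Prime → l ≠ 2 → NtOn R₁ (Oc l C) → ¬ BadP C R l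

/-- **NIC** [200 lines]. Every special subgroup is cyclic. (hyps: EKT, UNC, CLE, NI1, NI2)
PROOF (T1.md section 11). Let `(v₀, r₀, R₀)`, `l`, `Q` as in NI1 and suppose `Q` is not cyclic. `P` as in NI1,
`c := |P| ≥ 1` (`r₀ ∈ P`). Call an extremal `v` nice if `|C_Q(v)| = l`; `Stb Q v = Q ⊓ Stb (Oc l C) v` only depends on
`Stb (Oc l C) v` (`Q ≤ Oc l C`). Nice vectors exist: EKT. (1) no nice vector is clean: CLE: `|M(v)| = k`, NI1:
`k + c ≤ |M(v)|`. (2) let `v` be nice. UNC: `R` for `3`. Case (a) of UNC: `v'` clean with the same stabiliser in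
`Fit C`, so in `Oc l C`: nice and clean, contradiction. So case (b). (3) Suppose all good primes `r₁ ∈ T`
of `M(v)` are trivial on `P_l`. Let `G` be the set of the good primes of `M(v)`; `kM C T v ⊆ {3} ∪ G`, so
`k + c ≤ 1 + |G|`. Family: as in GDB for the good primes of `M(v)`: `I`, `Q l'`; here `l ∉ I`; put
`I' := I ∪ {l}`, `Q l := Q`. It kills `G ∪ P`, a disjoint union (NI1): `fam`: `|G| + c ≤ k`. So
`k + c ≤ 1 + k - c`: `2 c ≤ 1`, contradiction. (4) So some good `r₁` of `M(v)` is non-trivial on `P_l`: NI2 (and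
`l ≠ 2` by `spn`): `l` is not a bad place. By (b) there is a bad place `l'`, `l' ≠ l`, and a clean `v'` with
`Stb (Oc l C) v' = Stb (Oc l C) v`: nice and clean, contradiction. -/
def SpecNIC : Prop :=
  ∀ (H X : Type) [Group H] [AddCommGroup X] [DistribMulAction H X] (p : ℕ) (C : Subgroup H)
    (T : Finset ℕ), TS H X p C T → PRP H X C T → ∀ (v₀ : X) (r₀ : ℕ) (R₀ : Subgroup H),
      ExtV (Fit C) v₀ → r₀ ∈ T → Gd C v₀ r₀ R₀ → ∀ l, l.Prime → NtOn R₀ (Oc l C) →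
      IsCyclic (⁅Oc l C, R₀⁆ : Subgroup H)

/-- **DCY** [120 lines]. Output: for a clean vector the group `D(v)` of PROP is cyclic, all primes of
`M(v)` are good, `A(v) = Π_K`, `|M(v)| = k ≥ 1`. (hyps: NIC, CLE, CNB, TPS, PDC, TSN)
PROOF. `D := h.ps.D v` is abelian, normal (PDC). Let `l` be a prime dividing `|D|`: by PDC (4) there are a
good `r` and `t ∈ R` non-trivial on `P_l`; PDC (8): `D ⊓ P_l = Q = ⁅Oc l C, R⁆` contains all `l`-elements of `D`
(PDC (7)); it is cyclic (NIC; `r ∈ T`? the good primes of `PS` need not be in `T`: see below). A finite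
abelian group with cyclic Sylow subgroups is cyclic. (`PS.D` is generated by the `Dr H r` for ALL good primes
`r` of `v`, also those outside `T`. To avoid this we state the result for the group `DT` generated by the
`Dr H r`, `r ∈ T` good. `DT ≤ D(v)`; its `l`-elements are in `Dr H r` for some good `r ∈ T` by the proof of PDC
(3), (4).) -/
def SpecDCY : Prop :=
  ∀ (H X : Type) [Group H] [AddCommGroup X] [DistribMulAction H X] (p : ℕ) (C : Subgroup H)
    (T : Finset ℕ), TS H X p C T → PRP H X C T → ∀ v : X, Clean C T v →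
      IsCyclic (sSup {K | ∃ r ∈ T, ∃ R, Gd C v r R ∧ K = Dr H r} : Subgroup H)

end Pool.Agent.Lib.MPbe1941.X
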