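import Pool.Agent.Lib.MP_be1941_al.X.SpecT1B

/-!
# MP_be1941_al EXACT, block U: sections 7 and 9.2 - 9.4 of EXACT.md

Owner helper42. Setting: helper66's `TS H X p C T` (the tight case, X/SpecT1B.lean), `v` a clean vector,
`D = DT C T v` the group generated by the `D_r`, `r ∈ T` good in `M(v)`; it is cyclic (`SpecDCY`).

Part A (section 7): `A(v) = Π_N`, `M(v) = {r ∈ T : r ∣ |H : C_H(D)|}`, `H = (D R) × H₁`: structure `US`.
Part B (9.2 - 9.4, only used in case II.B, but the hypotheses are the same): the ring `F` generated by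
`D` in the endomorphisms of `X` is a field, `X` is one-dimensional over `F`, `|X| - 1 = |D_r| (q_r - 1)`,
`|X| = q_r ^ r`.

Files `X/Xxx.lean` (`XXX` the name of the module), `import Pool.Agent.Lib.MP_be1941_al.X.SpecU`,
namespace `Pool.Agent.Lib.MPbe1941.X`, `theorem specXXX (hYYY : SpecYYY) .. : SpecXXX`; own lemmas in
the namespace `Pool.Agent.Lib.MPbe1941.X.XXXM`. Hypotheses not needed may be dropped, any other Spec may
be added as a hypothesis if it is useful (say so in the report).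
-/

set_option autoImplicit false

namespace Pool.Agent.Lib.MPbe1941.X

open Pool.Agent.Lib.MPbe1941
open Pool.Agent.Lib.MPbe1941.XF
open scoped commutatorElement

/-- `Π_N`: the primes of `T` whose Sylow subgroup is normal in `H`, abelian and contained in `C`. -/
noncomputable def PiN {H : Type} [Group H] (C : Subgroup H) (T : Finset ℕ) : Finset ℕ :=
  open Classical in T.filter fun r => ∃ R : Subgroup H, SylIn r ⊤ R ∧ R.Normal ∧ R ≤ C ∧
    ∀ x ∈ R, ∀ y ∈ R, x * y = y * x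

/-- The group generated by the `D_r`, `r ∈ T` good in `M(v)`. -/
def DT {H X : Type} [Group H] [AddCommGroup X] [DistribMulAction H X] (C : Subgroup H)
    (T : Finset ℕ) (v : X) : Subgroup H :=
  sSup {K | ∃ r ∈ T, ∃ R, Gd C v r R ∧ K = Dr H r}

/-- (P'): normal subgroups of prime index. -/
def Idx (H : Type) [Group H] (T : Finset ℕ) : Prop :=
  ∀ N : Subgroup H, N.Normal → N.index.Prime → N.index ∈ T ∧ ¬ N.index ∣ Nat.card N

/-! ## Part A: section 7 -/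

/-- **UDB** [250 lines]. The group `D = DT C T v`, `v` extremal.
(hyps: TPS, PSB, PAA, RLO, PDB, PDC, SPA, SPM, PE1)
PROOF. `S := h.ps` (`G = H`, `φ = id`), TPS translates. `D ≤ S.D v`. Let `I` be the set of the primes `l ∣ |H|`
such that some good `r ∈ T` (with `R`) has an element `t ∈ R` with `¬ CP l t`, `E := sSup {K | ∃ l ∈ I,
K = Lp l (S.D v)}`. Claim `D = E`. `≥`: `l ∈ I`, `r` as in the definition: `Lp l (S.D v) ≤ Dr H r` by PDC (3) (an
`l`-element of `S.D v` is in `Dr H r`). `≤`: `Dr H r` (`r ∈ T` good) is abelian, generated by its elements `x ≠ 1` of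
prime power order; let `x` be an `l`-element; some `t ∈ R` has `¬ CP l t` (else `x` commutes with `R` by PDB (7),
`x = 1` by PDB (4)), so `l ∈ I`, `x ∈ Lp l (S.D v)`. SPA: `Lp l (S.D v)` is special, SPM: `E` is admissible
(normal, `≤ C`, abelian, faithful) and complemented: (1), (8). (2) PDB, RLO, PDC (5) (`D ≤ S.D v`, so `|D|`
divides `|S.D v|`). (3) `x ∈ D`, `x ≠ 1`: a power of it is an `l`-element `≠ 1`, by SPM (5), (4) it is in
`Lp l (S.D v)`, `l ∈ I`, so in some `Dr H r`, `r ∈ T` good, and it commutes with `R`: PDB (4). (4) as in (3) we may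
assume that `x` is an `l`-element, `l ∈ I`; PDC (8): `x ∈ S.D v ⊓ P_l = Q`, `Q ⊓ B_l = ⊥` (`Pow`), `x ∈ B_l`. (5) PE1 (for
the admissible group `E`). (6) PDC (8) for `r`, `t` as in the definition of `l ∈ I` (if `l ∣ |D|` then `l ∈ I` by SPM
(5)): `P_l = Q ⊔ B_l`, `Q` normalised by `P_l` (`Pow`), so `x = d b`, `d ∈ Q = S.D v ⊓ P_l`, an `l`-element of `S.D v`,
so in `Lp l (S.D v) ≤ D`. -/
def SpecUDB : Prop :=
  ∀ (H X : Type) [Group H] [AddCommGroup X] [DistribMulAction H X] (p : ℕ) (C : Subgroup H)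
    (T : Finset ℕ), TS H X p C T → ∀ v : X, ExtV (Fit C) v →
    ((DT C T v).Normal ∧ DT C T v ≤ C ∧ ∀ x ∈ DT C T v, ∀ y ∈ DT C T v, x * y = y * x) ∧
    (∀ r ∈ T, ∀ R, Gd C v r R → (Or H r).Normal ∧ R ≤ Or H r ∧ Dr H r ≤ DT C T v ∧
      Dr H r ≠ ⊥ ∧ (¬ r ∣ Nat.card (DT C T v)) ∧ (∀ g ∈ Or H r, ∃ d ∈ Dr H r, ∃ t ∈ R, g = d * t) ∧
      ∀ x ∈ Dr H r, (∀ t ∈ R, t * x = x * t) → x = 1) ∧
    (∀ x ∈ DT C T v, (∀ r ∈ T, ∀ R, Gd C v r R → ∀ t ∈ R, t * x = x * t) → x = 1) ∧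
    (∀ x ∈ DT C T v, x • v = v → x = 1) ∧
    (∀ l ∈ T, l ∣ Nat.card (DT C T v) → l ∈ PiK H X T) ∧
    (∀ l, l.Prime → l ∣ Nat.card (DT C T v) → ∀ x ∈ Oc l C, ∃ d ∈ DT C T v, LE l d ∧
      ∃ b ∈ Oc l C, b • v = v ∧ x = d * b) ∧
    ∃ K : Subgroup H, DT C T v ⊓ K = ⊥ ∧ DT C T v ⊔ K = ⊤

/-- **UBF** [80 lines] (pure). A faithful linear character of a finite cyclic subgroup.
PROOF. `D = zpowers g`, `n` the order, `ζ` a primitive `n`-th root of unity in `ℂ`; `bet (g^i) = ζ^i`, `1`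
outside `D`. (Or: `D` is a cyclic group; `IsCyclic` and a primitive root give an injective hom `D →* ℂˣ`.) -/
def SpecUBF : Prop :=
  ∀ (H : Type) [Group H] [Finite H] (D : Subgroup H), IsCyclic D → ∃ bet : H → ℂ, Lin D bet ∧
    ∀ x ∈ D, bet x = 1 → x = 1

/-- **UEQ** [250 lines]. EXACT 7.1. `v` clean, `D` cyclic. (hyps: UDB, UBF, CNB, PSB, OCF, TPS)
PROOF. `Z := centralizer D`, normal in `H`. `bet` from UBF. `bet` is injective on `D` (`bet x = bet y` gives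
`bet (x y⁻¹) = 1`), so `FixB D bet h ↔ h ∈ Z`. `(0, D, bet)` is a state (`StV C 0 D bet`, complement by UDB). Let
`A`, `M` be its sets, `|A| ≤ |M|` (`tight`). (i) for `r ∈ T`: `r ∈ A ↔ r ∣ Z.index`: if some Sylow `r`-subgroup is in
`Z` then `r ∤ Z.index`; conversely if `r ∤ Z.index` a Sylow `r`-subgroup of `Z` is one of `H` (CO.specSYL).
(ii) `M ⊆ PiN`: let `R` witness `r ∈ M`: `R ≤ Z`. Let `D_r` be the `r`-elements of `D`: a normal `r`-subgroup of `H`, so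
`D_r ≤ R`. An element of `D ⊔ R` is `d t = d' (d_r t)`, `d'` of order prime to `r`, central in `Z`, `d_r t ∈ R`; it is an
`r`-element iff `d' = 1`. So for `h ∈ Z`, `t ∈ R`: `h t h⁻¹ ∈ D ⊔ R` is an `r`-element, so in `R`: `R` is normal in `Z`,
it is the unique Sylow `r`-subgroup of `Z` and `Z` is normal in `H`: `R` is normal in `H`. `R` is abelian:
if `r ∤ |D|` then `[R,R] ≤ D ⊓ R = 1`. If `r ∣ |D|`: `R ≤ Oc r C` (OCF (4)), so `R = Oc r C` (Sylow), UDB (6): every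
`x ∈ R` is `d b`, `d ∈ D`, `b ∈ R`, `b v = v`; for two such `b, b'`: `[b,b'] ∈ D` fixes `v`: `1` (UDB (4)); and `D` commutes
with `R ≤ Z`: `R` is abelian. (iii) `kM C T v ⊆ A`: `r ∈ kM`, `R`: good since `v` is clean; if `r ∤ Z.index` then `R ≤ Z`
(conjugate of a Sylow subgroup in the normal `Z`), `R` centralises `Dr H r ≤ D`, so `Dr H r = 1` (UDB (2)),
contradiction. (iv) `PiN ⊆ kA H T v`: `R` normal, Sylow, `≤ C`; if some Sylow `r`-subgroup fixes `v` then `R` does, `R`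
is trivial on `X` (PSB (7)), so `R = 1` by `faith`; but `r ∣ |H|`. So `|kM| ≤ |A| ≤ |M| ≤ |PiN| ≤ |kA| ≤ |kM|` (CNB):
equalities everywhere. `ne` and CNB: `0 < |PiK| ≤ |kA|`. -/
def SpecUEQ : Prop :=
  ∀ (H X : Type) [Group H] [AddCommGroup X] [DistribMulAction H X] (p : ℕ) (C : Subgroup H)
    (T : Finset ℕ), TS H X p C T → ∀ v : X, Clean C T v → IsCyclic (DT C T v) →
    kA H T v = PiN C T ∧ (kM C T v).card = (PiN C T).card ∧ 0 < (PiN C T).card ∧
    ∀ r ∈ T, (r ∈ kM C T v ↔ r ∣ (Subgroup.centralizer (DT C T v : Set H)).index)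

/-- **USQ** [150 lines]. EXACT 7.2, first part. `D` a cyclic normal subgroup, `Z` its centraliser: `H/Z` is
abelian, `|H : Z|` is squarefree, its prime divisors are in `T` and do not divide `|Z|`. (pure)
PROOF. `h g h⁻¹ = g^(a)` for a generator `g` of `D`: power automorphisms commute, so `[h,h'] ∈ Z`. Let `s` be
a prime dividing `Z.index`. `H ⧸ Z` is abelian and `s` divides its order: it has a subgroup of index `s`
(e.g. contained in a maximal subgroup over the `s`-th powers: the group modulo `s`-th powers is a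
non-trivial vector space over `F_s`; or by `IsCyclic`/Sylow/Cauchy applied to the dual), so there is a
normal subgroup `N ≥ Z` of `H` of index `s`. `Idx`: `s ∈ T`, `s ∤ |N|`, so `s ∤ |Z|` and `s² ∤ |H|` (`|H| = s |N|`):
`Z.index` is squarefree, and a Sylow `s`-subgroup of `H` has order `s`. -/
def SpecUSQ : Prop :=
  ∀ (H : Type) [Group H] [Finite H] (D : Subgroup H) (T : Finset ℕ), Idx H T → D.Normal →
    IsCyclic D →
    (∀ h h' : H, h * h' * h⁻¹ * h'⁻¹ ∈ Subgroup.centralizer (D : Set H)) ∧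
    (Subgroup.centralizer (D : Set H)).index =
      ∏ r ∈ T.filter (fun r => r.Prime ∧ r ∣ (Subgroup.centralizer (D : Set H)).index), r ∧
    ∀ r, r.Prime → r ∣ (Subgroup.centralizer (D : Set H)).index → r ∈ T ∧
      (¬ r ∣ Nat.card (Subgroup.centralizer (D : Set H))) ∧
      ∀ S : Subgroup H, SylIn r ⊤ S → Nat.card S = r

/-- The structure obtained in section 7: `H = (D R) × H₁`, `D` cyclic generated by `dl`, `R` abelian,
the product of the Sylow `r`-subgroups (of order `r`) of the stabiliser of `v`, `r ∈ M(v)`. -/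
structure US (H X : Type) [Group H] [AddCommGroup X] [DistribMulAction H X] (p : ℕ)
    (C : Subgroup H) (T : Finset ℕ) (v : X) (D R H1 : Subgroup H) (dl : H) : Prop where
  ts : TS H X p C T
  v0 : v ≠ 0
  Dn : D.Normal
  DC : D ≤ C
  Dg : D = Subgroup.zpowers dl
  RC : R ≤ C
  Rab : ∀ x ∈ R, ∀ y ∈ R, x * y = y * x
  Rv : ∀ x ∈ R, x • v = v
  H1D : ∀ y ∈ H1, ∀ d ∈ D, y * d = d * y
  H1R : ∀ y ∈ H1, ∀ x ∈ R, y * x = x * y
  dec : ∀ h : H, ∃ d ∈ D, ∃ x ∈ R, ∃ y ∈ H1, h = d * x * y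
  unq : ∀ d ∈ D, ∀ x ∈ R, ∀ y ∈ H1, d * x * y = 1 → d = 1 ∧ x = 1 ∧ y = 1
  stv : ∀ h : H, h • v = v → ∃ x ∈ R, ∃ y ∈ H1, y • v = v ∧ h = x * y
  Dv : ∀ d ∈ D, d • v = v → d = 1
  mov : ∀ x ∈ R, x * dl = dl * x → x = 1
  fxd : ∀ d ∈ D, (∀ x ∈ R, x * d = d * x) → d = 1
  cR : Nat.card R = ∏ r ∈ kM C T v, r
  syl : ∀ r ∈ kM C T v, r.Prime ∧ ∃ S : Subgroup H, S ≤ R ∧ SylIn r ⊤ S ∧ Nat.card S = r ∧
    Dr H r = ⁅D, S⁆ ∧ Dr H r ≠ ⊥
  cop : ∀ r ∈ kM C T v, (¬ r ∣ Nat.card D) ∧ ¬ r ∣ Nat.card H1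
  kAN : kA H T v = PiN C T
  cMN : (kM C T v).card = (PiN C T).card
  pos : 0 < (PiN C T).card
  dvD : ∀ r ∈ T, r ∣ Nat.card D → r ∈ PiN C T

/-- **UST** [250 lines]. EXACT 7.2. (hyps: UDB, UEQ, USQ, RLO, CNB)
PROOF. `D := DT C T v`, cyclic, generated by `dl`; `Z := centralizer D`. `Π := kM C T v`; UEQ, USQ: `Π` is the set of
the primes dividing `Z.index = ∏_{r ∈ Π} r`, `r ∤ |Z|`. For `r ∈ Π` let `S_r` be the witness of `MiH C v r` (good, as
`v` is clean), of order `r`. `R := sSup {S | ∃ r ∈ Π, MiH C v r S}`. For `r ≠ r'` `S_r`, `S_r'` are normal in the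
stabiliser of `v`, of coprime orders, so they commute; `R` is abelian, contained in `C`, fixes `v`, and
`|R| = ∏ r = Z.index` (commuting subgroups of coprime prime orders). `R ⊓ Z = 1` (orders), so `H = Z R`
(`|Z| |R| = |H|`). For `z ∈ Z`, `s ∈ S_r`: `[z,s] ∈ Or H r` (normal, contains `s`) and `[z,s] ∈ Z` (normal): `[z,s] = d t`,
`d ∈ Dr H r ≤ D ≤ Z`, `t ∈ S_r ⊓ Z = 1`. So `[Z,R] ≤ D`; `|R|` is prime to `|Z|` and `R` is abelian: by XF.CD
(`mem_comm_mul_ab`, or fixed points in the cosets of `D`) every `z ∈ Z` is `d y`, `y ∈ H₁ := Z ⊓ centralizer R`.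
`D ⊓ H₁ = 1` by UDB (3). So `Z = D H₁`, `H = Z R = D R H₁`; uniqueness: `d x y = 1` gives `x ∈ R ⊓ Z = 1`,
`d y = 1`, `d ∈ D ⊓ H₁ = 1`. `stv`: `h = d x y` fixes `v`, so it normalises `R` (each `S_r` is normal in the
stabiliser): for `ρ ∈ R`: `h ρ h⁻¹ = d ρ d⁻¹`, so `d ρ d⁻¹ ρ⁻¹ ∈ D ⊓ R = 1`, `d` commutes with `R`, `d = 1`. `mov`: then
`x ∈ R ⊓ Z = 1`. `fxd`: UDB (3). `Dv`: UDB (4). `syl`: `Dr H r ≠ 1` (UDB); `Dr H r = ⁅Dr H r, S⁆ ≤ ⁅D, S⁆` (RLO, last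
item; `SylIn r ⊤ S` abelian), and `⁅D,S⁆ ≤ D ⊓ Or H r = Dr H r` (elements of `Or H r` in `Z` are in `Dr H r`, see above).
`cop`: `D, H₁ ≤ Z`. `kAN`, `cMN`, `pos`: UEQ. `dvD`: UDB (5) and `PiK ⊆ kA H T v = PiN` (CNB). -/
def SpecUST : Prop :=
  ∀ (H X : Type) [Group H] [AddCommGroup X] [DistribMulAction H X] (p : ℕ) (C : Subgroup H)
    (T : Finset ℕ), TS H X p C T → Idx H T → ∀ v : X, Clean C T v → IsCyclic (DT C T v) →
    ∃ (R H1 : Subgroup H) (dl : H), US H X p C T v (DT C T v) R H1 dl ∧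
      ∀ r ∈ kM C T v, ∀ S : Subgroup H, MiH C v r S → S ≤ R

/-- **USY** [120 lines]. Sylow subgroups in the situation `US`.
PROOF. (1) all Sylow `r`-subgroups are conjugate to the subgroup `S ≤ R` of `syl` by an element `d x y`;
`x` and `y` normalise (centralise) `S`. (2) let `r ∈ T`, `r ∉ kM C T v`, `r ∉ PiN`, i.e. `r ∉ kA H T v`: some Sylow
`r`-subgroup fixes `v`; `r ∤ |R|` (`cR`), its elements are `x y` (`stv`); `x y ↦ x` is a homomorphism from the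
stabiliser to `R`, so `x = 1`. (3) same proof: every `r`-subgroup of the stabiliser of `v` is in `H₁`. (4) by
(2) `|H|` and `|J₁|` have the same `r`-part. (5) an `r`-subgroup `S' ≤ H`, `r ∤ |D| |R|`, is contained in `H₁`? Only
if `r ∤ |D R|`: `D R` is a normal subgroup of order prime to `r` and `H = (D R) × H₁`: the projection to `D R`
is trivial on `S'`. -/
def SpecUSY : Prop :=
  ∀ (H X : Type) [Group H] [AddCommGroup X] [DistribMulAction H X] (p : ℕ) (C : Subgroup H)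
    (T : Finset ℕ) (v : X) (D R H1 : Subgroup H) (dl : H), US H X p C T v D R H1 dl →
    (∀ r ∈ kM C T v, ∀ S S' : Subgroup H, S ≤ R → SylIn r ⊤ S → SylIn r ⊤ S' →
      ∃ d ∈ D, ∀ x, x ∈ S' ↔ d⁻¹ * x * d ∈ S) ∧
    (∀ r ∈ T, r ∉ kM C T v → r ∉ PiN C T →
      (∃ S : Subgroup H, SylIn r ⊤ S ∧ S ≤ Stb H1 v) ∧
      (∀ S : Subgroup H, IsPGroup r S → S ≤ H1) ∧
      (∀ S : Subgroup H, SylIn r (Stb H1 v) S ↔ (SylIn r ⊤ S ∧ S ≤ Stb H1 v))) ∧
    ∀ r ∈ T, r ∉ kM C T v → ∀ S : Subgroup H, IsPGroup r S → (∀ x ∈ S, x • v = v) → S ≤ Stb H1 v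

/-! ## Part B: 9.2 - 9.4 -/

/-- The ring of endomorphisms of `X` generated by the subgroup `D`. -/
def Fd (X : Type) {H : Type} [Group H] [AddCommGroup X] [DistribMulAction H X]
    (D : Subgroup H) : Subring (AddMonoid.End X) :=
  Subring.closure {f | ∃ d ∈ D, f = DistribMulAction.toAddMonoidEnd H X d}

/-- **UFB** [150 lines]. Basic facts on the ring `F = Fd X D`, `D` abelian normal, `p ∤ |H|`, `p X = 0`.
PROOF. (1) generated by commuting elements (`Subring.closure_induction₂` or commutativity of closures).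
(2) `h f h⁻¹` for `f = d` is `h d h⁻¹`; induction over the closure. (3) elements commuting with `D` commute
with `F`. (4) no nilpotent elements: `F` is finite commutative, an elementary proof: let `a ∈ F`, `a² = 0`; `F` is
a module over `F_p[D]`, i.e. `D` acts on the finite elementary abelian `p`-group `F` (multiplication), the ideal
`a F` is a `D`-submodule with a `D`-invariant complement `K` in `F` (Maschke, `p ∤ |D|`), and `K` is then an ideal
(`F` is generated by `D` as a ring, additively by `D` since `D` is a group): `1 = a b + k`, `a = a b a + k a = k a`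
(`a² = 0`), `k a ∈ K ⊓ aF = 0`: `a = 0`. (5) every `a ∈ F` has a power which is idempotent (finite monoid);
it is `≠ 0` if `a ≠ 0`. -/
def SpecUFB : Prop :=
  ∀ (H X : Type) [Group H] [Finite H] [AddCommGroup X] [Finite X] [DistribMulAction H X] (p : ℕ)
    (D : Subgroup H), p.Prime → ¬ p ∣ Nat.card H → (∀ x : X, p • x = 0) → D.Normal →
    (∀ x ∈ D, ∀ y ∈ D, x * y = y * x) →
    (∀ a ∈ Fd X D, ∀ b ∈ Fd X D, a * b = b * a) ∧
    (∀ (h : H), ∀ a ∈ Fd X D, ∃ b ∈ Fd X D, ∀ x : X, h • a x = b (h • x)) ∧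
    (∀ h : H, (∀ d ∈ D, h * d = d * h) → ∀ a ∈ Fd X D, ∀ x : X, h • a x = a (h • x)) ∧
    (∀ a ∈ Fd X D, a * a = 0 → a = 0) ∧
    ∀ a ∈ Fd X D, a ≠ 0 → ∃ n : ℕ, 0 < n ∧ a ^ n * a ^ n = a ^ n ∧ a ^ n ≠ 0

/-- **UHM** [250 lines]. EXACT 9.2: `F = Fd X D` is a field (every non-zero element is injective).
(hyps: UFB, USY, CNB)
PROOF. Among the idempotents `e ∈ F` with `e v ≠ 0` (`e = 1` is one) choose one with `|e X|` minimal (`e X` the
image). (a) for every idempotent `f ∈ F`: `e f = 0` or `e f = e`: `e v = (e f) v + (e (1 - f)) v`, so one of the two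
idempotents `e f`, `e (1 - f)` does not kill `v`; its image is contained in `e X`, so equal to `e X` by
minimality: if `e f X = e X` then `e = f e` (on `e X` `f` is the identity), if `e (1-f) X = e X` then `f e = 0`.
(b) for `h ∈ H` let `e^h ∈ F` be the conjugate idempotent (`h • e x = e^h (h • x)`, UFB (2); it is unique and
idempotent). `e^h = e` for `h ∈ D` and `h ∈ H₁` (UFB (3)). `e^h` has property (a) too (conjugate), so
`e e^h ∈ {0, e} ∩ {0, e^h}`: `e^h = e` or `e e^h = 0`. (c) Suppose `e^ρ ≠ e` for some `ρ ∈ R`. `R` is generated by the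
subgroups `S` of `syl` (`cR`), so we may take `ρ ∈ S`, `r ∈ kM C T v`, `S ≤ R` Sylow. `w := e v ≠ 0`.
(c1) `r ∈ kA H T w`: let the Sylow `r`-subgroup `S'` fix `w`; USY (1): `S' = d S d⁻¹`, `ρ' := d ρ d⁻¹ ∈ S'`, `e^(ρ') = e^ρ`
(`D` commutes with `F`). `w = ρ' w = ρ' e w = e^ρ (ρ' w) = e^ρ w = e^ρ e w = 0`: contradiction. (c2) `PiN ⊆ kA H T w`
(normal Sylow subgroup in `C`, irreducible and faithful; or `PiN = kA H T v` and every `r' ∈ PiN` kills every
non-zero vector: its normal Sylow subgroup `R'` fixing `w` would be trivial on `X`), and `r ∉ PiN = kA H T v`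
since `S` fixes `v`. So `|kA H T w| ≥ |PiN| + 1`. (c3) `kM C T w ⊆ kM C T v \ {r}`: `r ∉ kM C T w` by (c1). Let
`r' ∈ kM C T w` with witness `S'`, and suppose `r' ∉ kM C T v`. `r' ∉ kA H T w ⊇ PiN`. USY (2): a Sylow `r'`-subgroup
`S'' ≤ Stb H1 v`; it fixes `w = e v` (`H₁` commutes with `e`). `S'` is normal in the stabiliser of `w` and `S''` is
another Sylow `r'`-subgroup of it: `S'' = S'`. So `S'' ≤ C` is abelian, normalised by `Stb H1 v` (which fixes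
`w`) and centralised by `R` (`S'' ≤ H₁`), so normal in the stabiliser of `v` (`stv`): `r' ∈ kM C T v`,
contradiction. (c4) CNB: `|PiN| + 1 ≤ |kA w| ≤ |kM w| ≤ |kM v| - 1 = |PiN| - 1`: contradiction. (d) So `e^h = e` for all
`h ∈ H` (`dec`), `e X` is `H`-invariant and non-zero, so `e X = X`, `e = 1`. By (a) every idempotent of `F` is `0`
or `1`; by UFB (5) every `a ≠ 0` in `F` has a power equal to `1`. -/
def SpecUHM : Prop :=
  ∀ (H X : Type) [Group H] [AddCommGroup X] [DistribMulAction H X] (p : ℕ) (C : Subgroup H)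
    (T : Finset ℕ) (v : X) (D R H1 : Subgroup H) (dl : H), US H X p C T v D R H1 dl →
    ∀ a ∈ Fd X D, a ≠ 0 → ∃ n : ℕ, 0 < n ∧ a ^ n = 1

/-- **UIV** [250 lines]. EXACT 9.3, choice of `W₂`. `F` a field, `F v ≠ X`. (hyps: UFB)
PROOF. `L := {a v : a ∈ F} =` the subgroup generated by the `d v`, `d ∈ D`. `G₀ := D (stabiliser of v)`, a subgroup of
`H` (`D` normal); `L` is `G₀`-invariant (UFB (2)). `p ∤ |G₀|`: by Maschke there is a `G₀`-invariant complement `M` of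
`L` in `X`; `M` is `F`-invariant (`D ≤ G₀`) and `M ≠ 0`. Let `0 ≠ m ∈ M`. CLAIM: there is `a ∈ F` with
`u := ∑_{ρ ∈ R} ρ (a m) ≠ 0`. `ρ (a m) = a^ρ (ρ m)`, `a ↦ a^ρ` a ring automorphism of `F`; these automorphisms are
different for different `ρ ∈ R`: if `dl^ρ = dl^ρ'` on `X` then `[ρ⁻¹ρ', dl]` is an element of `D ≤ C` trivial on `X`,
so `1` (`faith`), so `ρ⁻¹ ρ'` commutes with `dl`, `ρ = ρ'` by `mov`. Dedekind's argument: suppose
`∑_{ρ ∈ R'} a^ρ x_ρ = 0` for all `a ∈ F`, `x_ρ ∈ X` all `≠ 0`, `R' ≠ ∅` with `|R'|` minimal. `|R'| = 1`: `a = 1` gives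
`x_ρ = 0`. Otherwise `ρ₁ ≠ ρ₂` in `R'`, `b ∈ F` with `b^ρ₁ ≠ b^ρ₂`: subtract `b^ρ₁ ·` (relation for `a`) from the relation
for `a b`: `∑_{ρ ≠ ρ₁} a^ρ (b^ρ - b^ρ₁) x_ρ = 0`, the coefficient at `ρ₂` is `≠ 0` (non-zero elements of `F` are
injective): a shorter relation. Contradiction. (Apply with `x_ρ = ρ m`.) `u ∈ M` is fixed by `R`. So
`M' := {x ∈ M : R fixes x} ≠ 0`; it is invariant under `J₁ := Stb H1 v` (it commutes with `R`). Take `W` minimal
among the non-zero `J₁`-invariant subgroups of `M'` (finite). `W ⊓ L ≤ M ⊓ L = 0`. -/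
def SpecUIV : Prop :=
  ∀ (H X : Type) [Group H] [AddCommGroup X] [DistribMulAction H X] (p : ℕ) (C : Subgroup H)
    (T : Finset ℕ) (v : X) (D R H1 : Subgroup H) (dl : H), US H X p C T v D R H1 dl →
    (∀ a ∈ Fd X D, a ≠ 0 → ∃ n : ℕ, 0 < n ∧ a ^ n = 1) →
    AddSubgroup.closure {x : X | ∃ d ∈ D, x = d • v} ≠ ⊤ →
    ∃ W : AddSubgroup X, W ≠ ⊥ ∧ (∀ ρ ∈ R, ∀ x ∈ W, ρ • x = x) ∧
      (∀ y ∈ Stb H1 v, ∀ x ∈ W, y • x ∈ W) ∧
      (∀ A : AddSubgroup X, A ≤ W → (∀ y ∈ Stb H1 v, ∀ x ∈ A, y • x ∈ A) → A = ⊥ ∨ A = W) ∧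
      ∀ x ∈ W, x ∈ AddSubgroup.closure {x : X | ∃ d ∈ D, x = d • v} → x = 0

/-- **UIN** [120 lines]. Independence. `F` a field, `x ∈ X` fixed by `R`, `x ∉ F v` unless `x = 0`.
(hyps: UFB)
PROOF. (1) `u + dl u' = 0`, `u, u'` fixed by `R`. `R ≠ 1` (`pos`, `cMN`, `syl`): take `1 ≠ ρ ∈ R`. Apply `ρ`:
`u + dl^ρ u' = 0`, so `(dl - dl^ρ) u' = 0`; `dl - dl^ρ ≠ 0` in `F` (else `dl` and `dl^ρ` agree on `X`, `faith`, `mov`), and it is
injective: `u' = 0`, `u = 0`. (2) let `a v + b x = 0`, `a, b ∈ F`, `b ≠ 0`: `x = c v`, `c = - b⁻¹ a ∈ F` (`b⁻¹` a power of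
`b`), so `x ∈ L`, `x = 0`. So for `x ≠ 0`: `b = 0`, `a v = 0`, `a = 0`. (3) `d (v + dl x)` fixed by `ρ ∈ R`, `d ∈ D`,
`x ≠ 0`: `(d^ρ - d) v + ((d dl)^ρ - d dl) x = 0`, so `d^ρ = d`, `(d dl)^ρ = d dl` on `X` by (2), so in `H` (`faith`), so
`dl^ρ = dl`, `ρ = 1` by `mov`. -/
def SpecUIN : Prop :=
  ∀ (H X : Type) [Group H] [AddCommGroup X] [DistribMulAction H X] (p : ℕ) (C : Subgroup H)
    (T : Finset ℕ) (v : X) (D R H1 : Subgroup H) (dl : H), US H X p C T v D R H1 dl →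
    (∀ a ∈ Fd X D, a ≠ 0 → ∃ n : ℕ, 0 < n ∧ a ^ n = 1) →
    (∀ u u' : X, (∀ ρ ∈ R, ρ • u = u) → (∀ ρ ∈ R, ρ • u' = u') → u + dl • u' = 0 →
      u = 0 ∧ u' = 0) ∧
    ∀ x : X, x ≠ 0 → (∀ ρ ∈ R, ρ • x = x) →
      x ∉ AddSubgroup.closure {x : X | ∃ d ∈ D, x = d • v} →
      ∀ d ∈ D, ∀ ρ ∈ R, ρ • d • (v + dl • x) = d • (v + dl • x) → ρ = 1

/-- **UTW** [300 lines]. EXACT 9.3: `X = F v`. (hyps: UIV, UIN, USY, REL, CNB)
PROOF. Suppose not; `W` from UIV. `J := Stb H1 v`, `T₁ := T \ (kM C T v ∪ PiN C T)`. REL for `J`, `C ⊓ J`, `W`, `T₁`: `x ∈ W`,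
`x ≠ 0`, `D₂ ≤ C ⊓ J`, `K₂`, `bet`. (`J` is solvable.) STATE s := `(v + dl • x, ⊥, 1)`, i.e. the non-zero vector
`s = v + dl • x` (non-zero by UIN (1), as `v ≠ 0` is fixed by `R`): CNB: `|kA s| ≤ |kM s|`. STATE t := `(v, D₂, bet)`:
`StV C v D₂ bet`: the stabiliser of `v` is `R J` (`stv`), `R` commutes with `J ≥ D₂`; complement `R ⊔ K₂` (`J = D₂ K₂`,
`R ⊓ H₁ = 1`): `tight`. Claims, for `r ∈ T`:
(i) `r ∈ PiN`: `r ∈ kA s` and `r ∈ A(t)` (every non-zero vector is killed: `kA H T v = PiN`, more precisely its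
normal Sylow subgroup in `C` fixes no non-zero vector; for `s` the same). So `r ∉ kM s`, `r ∉ M(t)`.
(ii) `r ∈ kM C T v`: `r ∈ kA s`: let the Sylow subgroup `S'` fix `s`; USY (1): `S' = d S d⁻¹`, `S ≤ R`; so for `ρ ∈ S`
`ρ (d⁻¹ s) = d⁻¹ s`: UIN (2) (with `d⁻¹`): `ρ = 1`, but `S ≠ 1`. So `r ∉ kM s`.
(iii) `r ∈ T₁`. (a) if a Sylow subgroup `S` of `H` fixes `s` then `S ≤ H₁` (USY (2)), so `S` commutes with `dl` and
`R`; `h ∈ S`: `(h v - v) + dl (h x - x) = 0` and `h v - v`, `h x - x` are fixed by `R`: UIN (1): `h v = v`, `h x = x`. So `S ≤ J`,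
`S` fixes `x`. Hence: [no Sylow `r`-subgroup of `J` fixes `x`] implies `r ∈ kA s` (USY (2): Sylow subgroups of `J`
are the Sylow subgroups of `H` contained in `J`). (b) `r ∈ kM s` with witness `S` implies `MiJ J (C ⊓ J) x r S`: an
element of `J` fixing `x` fixes `s` (it commutes with `dl`). (c) [no Sylow `r`-subgroup of `J` fixes `bet`] implies
`r ∈ A(t)`: a Sylow subgroup `S` of `H` fixing `v` is in `J` (USY (3)). (d) `r ∈ M(t)` implies `MiBJ J (C ⊓ J) D₂ bet r S`.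
(e) the last set of REL is empty: `S` normal in `J`, Sylow in `J`, `≤ C`, abelian, fixes `v`: it is normal in the
stabiliser `R J` of `v`, so `MiH C v r S`, `r ∈ kM C T v`, contradiction.
Counting: with `a, b` the sizes of the two sets `no Sylow subgroup fixes x`, `no Sylow subgroup fixes bet` and `m, n`
those of MiJ, MiBJ: `|kA s| ≥ |PiN| + |kM v| + a`, `|A(t)| ≥ |PiN| + b`, `|kM s| ≤ m`, `|M(t)| ≤ |kM v| + n`, `m + n ≤ a + b + 1`
(REL). So `2 |PiN| + |kM v| + a + b ≤ |kM v| + m + n ≤ |kM v| + a + b + 1`: `2 |PiN| ≤ 1`, contradiction to `pos`. -/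
def SpecUTW : Prop :=
  ∀ (H X : Type) [Group H] [AddCommGroup X] [DistribMulAction H X] (p : ℕ) (C : Subgroup H)
    (T : Finset ℕ) (v : X) (D R H1 : Subgroup H) (dl : H), US H X p C T v D R H1 dl →
    (∀ a ∈ Fd X D, a ≠ 0 → ∃ n : ℕ, 0 < n ∧ a ^ n = 1) →
    AddSubgroup.closure {x : X | ∃ d ∈ D, x = d • v} = ⊤

/-- **UCM** [200 lines]. EXACT 9.4, first part. `X = F v`. (hyps: UFB, USY, CNB)
PROOF. (1) `c ∈ C ⊓ H₁` commutes with `D`, so with `F`; `c v = a v` for some `a ∈ F`, `X = F v`: `c` acts on `X` as `a`. So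
two elements of `E := D ⊔ (C ⊓ H₁)` commute on `X`, hence commute (`faith`). (2) `C ⊓ H₁` is normal in `H` (`H₁` is
normalised by `D R H₁`: it commutes with `D` and `R`). `E` is an abelian normal subgroup of `H`. Let `r ∈ T`,
`r ∉ kM C T v`, `S` a Sylow `r`-subgroup, `S ≤ C`. `C = D R (C ⊓ H₁)` (`D R ≤ C`), `r ∤ |R|`: `C/E` has order dividing `|R|`, so
`S ≤ E`; `S` is the set of the `r`-elements of `E` (abelian), so it is normal in `H`: `r ∈ PiN`. (3) `w ≠ 0`.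
`PiN ⊆ kA w` (UHM (c2)); `kM C T w ⊆ kM C T v`: a witness is a Sylow subgroup `≤ C`, so `r ∈ kM v ∪ PiN` by (2), and
`r ∉ kA w ⊇ PiN`. `|PiN| ≤ |kA w| ≤ |kM w| ≤ |kM v| = |PiN|`: equalities. -/
def SpecUCM : Prop :=
  ∀ (H X : Type) [Group H] [AddCommGroup X] [DistribMulAction H X] (p : ℕ) (C : Subgroup H)
    (T : Finset ℕ) (v : X) (D R H1 : Subgroup H) (dl : H), US H X p C T v D R H1 dl →
    AddSubgroup.closure {x : X | ∃ d ∈ D, x = d • v} = ⊤ →
    (∀ x ∈ C ⊓ H1, ∀ y ∈ C ⊓ H1, x * y = y * x) ∧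
    (∀ r ∈ T, ∀ S : Subgroup H, SylIn r ⊤ S → S ≤ C → r ∈ kM C T v ∨ r ∈ PiN C T) ∧
    ∀ w : X, w ≠ 0 → kM C T w = kM C T v ∧ kA H T w = PiN C T

/-- **UCT** [250 lines]. EXACT 9.4, counting: `r ∈ M(v)`, `S ≤ R` the Sylow `r`-subgroup of `R`.
(hyps: UFB, USY, UCM)
PROOF. (1) every `w ≠ 0` is fixed by exactly one Sylow `r`-subgroup of `H` (UCM (3): the witness is normal in
the stabiliser of `w`, and it is a Sylow subgroup of it). So `|X| - 1 = ∑_{S'} (|C_X(S')| - 1)`, over the Sylow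
`r`-subgroups `S'` of `H`; they are the `d S d⁻¹`, `d ∈ D` (USY (1)), `|C_X(d S d⁻¹)| = |C_X(S)|`, and their number
is `|D : C_D(S)|` (`d` normalises `S` iff `[d,s] ∈ D ⊓ S = 1` for all `s ∈ S`) `= |⁅D,S⁆|`, because `D = ⁅D,S⁆ × C_D(S)`
(coprime action on an abelian group; XF.comm_inf_cen, XF.mem_comm_mul). (2) `F` is a finite field: `a ↦ a v` is
a bijection `F → X` (injective: `a ≠ 0` is invertible). `S` has prime order `r`, generated by `σ`, and acts on `F` by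
the automorphism `a ↦ a^σ`, `σ (a v) = a^σ v`; it is not trivial (`mov`, `faith`), so it has order `r`. `C_X(S) = F^σ v`.
CO.specFFA: `|F| = |F^σ|^r`. -/
def SpecUCT : Prop :=
  ∀ (H X : Type) [Group H] [AddCommGroup X] [DistribMulAction H X] (p : ℕ) (C : Subgroup H)
    (T : Finset ℕ) (v : X) (D R H1 : Subgroup H) (dl : H), US H X p C T v D R H1 dl →
    (∀ a ∈ Fd X D, a ≠ 0 → ∃ n : ℕ, 0 < n ∧ a ^ n = 1) →
    AddSubgroup.closure {x : X | ∃ d ∈ D, x = d • v} = ⊤ →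
    ∀ r ∈ kM C T v, ∀ S : Subgroup H, S ≤ R → SylIn r ⊤ S →
      Nat.card X - 1 = Nat.card (⁅D, S⁆ : Subgroup H) * (Nat.card (FixY X S) - 1) ∧
      Nat.card X = Nat.card (FixY X S) ^ r

/-- **UEN** [60 lines]. Output of block U. (hyps: CLN, DCY, UST, UHM, UTW, UCM, UCT)
PROOF. CLN gives a clean `v`; DCY: `DT C T v` is cyclic; UST; the rest. -/
def SpecUEN : Prop :=
  ∀ (H X : Type) [Group H] [AddCommGroup X] [DistribMulAction H X] (p : ℕ) (C : Subgroup H)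
    (T : Finset ℕ), TS H X p C T → PRP H X C T → Idx H T →
    ∃ (v : X) (D R H1 : Subgroup H) (dl : H), Clean C T v ∧ US H X p C T v D R H1 dl ∧
      (∀ a ∈ Fd X D, a ≠ 0 → ∃ n : ℕ, 0 < n ∧ a ^ n = 1) ∧
      AddSubgroup.closure {x : X | ∃ d ∈ D, x = d • v} = ⊤ ∧
      (∀ x ∈ C ⊓ H1, ∀ y ∈ C ⊓ H1, x * y = y * x) ∧
      (∀ r ∈ T, ∀ S : Subgroup H, SylIn r ⊤ S → S ≤ C → r ∈ kM C T v ∨ r ∈ PiN C T) ∧
      (∀ w : X, w ≠ 0 → kM C T w = kM C T v ∧ kA H T w = PiN C T) ∧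
      ∀ r ∈ kM C T v, ∀ S : Subgroup H, S ≤ R → SylIn r ⊤ S →
        Nat.card X - 1 = Nat.card (⁅D, S⁆ : Subgroup H) * (Nat.card (FixY X S) - 1) ∧
        Nat.card X = Nat.card (FixY X S) ^ r

end Pool.Agent.Lib.MPbe1941.X
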