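import Pool.Agent.Lib.MP_be1941_al.X.PSB
import Pool.Agent.Lib.MP_be1941_al.X.SpecT1
import Pool.Agent.Lib.MP_be1941_al.X.SpecT1B
import Pool.Agent.Lib.MP_be1941_al.X.SpecD
import Mathlib.GroupTheory.SpecificGroups.ZGroup
import Pool.Agent.Lib.MP_be1941_al.X.SpecU
import Pool.Agent.Lib.MP_be1941_al.X.REL

section
/-!
# EIG (T1 text, section 1)

If the `r`-element `x` has `x v = c v ≠ v`, `c` an integer, then `r` divides the index of the
stabiliser of `v`: no Sylow `r`-subgroup fixes `v`.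
-/
set_option autoImplicit false

namespace Pool.Agent.Lib.MPbe1941.XEIG

open Pool.Agent.Lib.MPbe1941

variable {H V : Type} [Group H] [AddCommGroup V] [DistribMulAction H V]

/-- The elements which map `v` to a multiple of `v` (and so do their inverses). -/
def lineStab (v : V) : Subgroup H where
  carrier := {h | (∃ a : ℤ, h • v = a • v) ∧ ∃ b : ℤ, h⁻¹ • v = b • v}
  one_mem' := ⟨⟨1, by simp⟩, ⟨1, by simp⟩⟩
  mul_mem' := by
    rintro g h ⟨⟨a, ha⟩, ⟨b, hb⟩⟩ ⟨⟨c, hc⟩, ⟨d, hd⟩⟩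
    refine ⟨⟨c * a, ?_⟩, ⟨b * d, ?_⟩⟩
    · rw [mul_smul, hc, smul_comm, ha, smul_smul]
    · rw [mul_inv_rev, mul_smul, hb, smul_comm, hd, smul_smul]
  inv_mem' := by
    rintro g ⟨h1, h2⟩
    exact ⟨h2, by rwa [inv_inv]⟩

theorem stab_le (v : V) : MulAction.stabilizer H v ≤ lineStab v := by
  intro h hh
  have h1 : h • v = v := hh
  refine ⟨⟨1, by rw [h1, one_smul]⟩, ⟨1, ?_⟩⟩
  rw [one_smul, inv_smul_eq_iff, h1]

theorem stab_normal (v : V) :
    ((MulAction.stabilizer H v).subgroupOf (lineStab (H := H) v)).Normal := by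
  refine ⟨?_⟩
  rintro ⟨s, hs'⟩ hs ⟨g, ⟨⟨a, ha⟩, ⟨b, hb⟩⟩⟩
  have h1 : s • v = v := hs
  show (g * s * g⁻¹) • v = v
  rw [mul_smul, mul_smul, hb, smul_comm s b v, h1, ← hb, smul_inv_smul]

theorem dvd_index [Finite H] {r : ℕ} (hr : r.Prime) {x : H} {v : V} {c : ℤ} {m : ℕ}
    (hx : x ^ (r ^ m) = 1) (hxv : x • v = c • v) (hne : x • v ≠ v) :
    r ∣ (MulAction.stabilizer H v).index := by
  have hxN : x ∈ lineStab (H := H) v := by
    have hpow : ∀ k : ℕ, x ^ k • v = (c ^ k) • v := by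
      intro k
      induction k with
      | zero => simp
      | succ k ih => rw [pow_succ', mul_smul, ih, smul_comm, hxv, smul_smul, ← pow_succ]
    refine ⟨⟨c, hxv⟩, ⟨c ^ (orderOf x - 1), ?_⟩⟩
    have h1 : x⁻¹ = x ^ (orderOf x - 1) := by
      rw [inv_eq_iff_mul_eq_one, ← pow_succ', Nat.sub_add_cancel (orderOf_pos x),
        pow_orderOf_eq_one]
    rw [h1, hpow]
  have hn := stab_normal (H := H) v
  set K := (MulAction.stabilizer H v).subgroupOf (lineStab (H := H) v) with hK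
  have h1 : ((⟨x, hxN⟩ : lineStab (H := H) v) : lineStab (H := H) v ⧸ K) ≠ 1 := by
    intro h
    rw [QuotientGroup.eq_one_iff] at h
    exact hne h
  have h2 : ((⟨x, hxN⟩ : lineStab (H := H) v) : lineStab (H := H) v ⧸ K) ^ (r ^ m) = 1 := by
    rw [← QuotientGroup.mk_pow, QuotientGroup.eq_one_iff]
    have : (⟨x, hxN⟩ : lineStab (H := H) v) ^ (r ^ m) = 1 := Subtype.ext (by simpa using hx)
    rw [this]
    exact K.one_mem
  obtain ⟨i, -, h3⟩ := (Nat.dvd_prime_pow hr).1 (orderOf_dvd_of_pow_eq_one h2)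
  rcases i with _ | i
  · rw [pow_zero] at h3
    exact absurd (orderOf_eq_one_iff.1 h3) h1
  have h4 : r ∣ Nat.card (lineStab (H := H) v ⧸ K) := by
    have h4' := orderOf_dvd_natCard ((⟨x, hxN⟩ : lineStab (H := H) v) : lineStab (H := H) v ⧸ K)
    rw [h3, pow_succ] at h4'
    exact (dvd_mul_left _ _).trans h4'
  have h5 : Nat.card (lineStab (H := H) v ⧸ K)
      = (MulAction.stabilizer H v).relIndex (lineStab (H := H) v) := rfl
  rw [h5] at h4
  rw [← Subgroup.relIndex_mul_index (stab_le (H := H) v)]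
  exact h4.mul_right _

/-- **EIG** for subgroups: no Sylow `r`-subgroup of `H` fixes `v`. -/
theorem eig [Finite H] {r : ℕ} (hr : r.Prime) {x : H} {v : V} {c : ℤ} {m : ℕ}
    (hx : x ^ (r ^ m) = 1) (hxv : x • v = c • v) (hne : x • v ≠ v) {R : Subgroup H}
    (hR : SylIn r ⊤ R) : ∃ s ∈ R, s • v ≠ v := by
  by_contra hcon
  push Not at hcon
  have h1 : R ≤ MulAction.stabilizer H v := fun s hs => hcon s hs
  apply hR.2.2
  rw [Subgroup.relIndex_top_right]
  exact (dvd_index hr hx hxv hne).trans (Subgroup.index_dvd_of_le h1)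

/-- **EIG** relative to a subgroup `J`: if `x ∈ J` then no Sylow `r`-subgroup of `J` fixes `v`. -/
theorem eig_rel [Finite H] {r : ℕ} (hr : r.Prime) {J : Subgroup H} {x : H} (hxJ : x ∈ J) {v : V}
    {c : ℤ} {m : ℕ} (hx : x ^ (r ^ m) = 1) (hxv : x • v = c • v) (hne : x • v ≠ v)
    {R : Subgroup H} (hR : SylIn r J R) : ∃ s ∈ R, s • v ≠ v := by
  have h1 : r ∣ (MulAction.stabilizer J v).index := by
    refine dvd_index (H := J) (x := ⟨x, hxJ⟩) (m := m) hr ?_ hxv hne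
    exact Subtype.ext (by simpa using hx)
  by_contra hcon
  push Not at hcon
  have h2 : R.subgroupOf J ≤ MulAction.stabilizer J v := fun s hs => hcon s hs
  apply hR.2.2
  exact h1.trans (Subgroup.index_dvd_of_le h2)

end Pool.Agent.Lib.MPbe1941.XEIG

/-- Module EIG. -/
theorem Pool.Agent.Lib.MPbe1941.X.specEIG : Pool.Agent.Lib.MPbe1941.X.SpecEIG := by
  intro H X _ _ _ _ r p hr _ _ x k hx v c hxv hne R hR
  exact Pool.Agent.Lib.MPbe1941.XEIG.eig hr hx (c := (c : ℤ))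
    (by rw [natCast_zsmul]; exact hxv) hne hR
end

section
/-!
# Module BD2: `2` is in `M(v)` for no extremal `v`
-/
set_option autoImplicit false

namespace Pool.Agent.Lib.MPbe1941.X

open Pool.Agent.Lib.MPbe1941

namespace BD2M

variable {H X : Type} [Group H] [AddCommGroup X] [DistribMulAction H X]

/-- a subgroup commuting with `B` acts on `C_X(B)` -/
theorem smul_mem {B R : Subgroup H} (h : ∀ x ∈ R, ∀ b ∈ B, x * b = b * x) {s : H} (hs : s ∈ R)
    {z : X} (hz : z ∈ FixY X B) : s • z ∈ FixY X B := by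
  intro b hb
  rw [← mul_smul, ← h s hs b hb, mul_smul, hz b hb]

/-- some power of a `2`-element non-trivial on `Y` is an involution on `Y` -/
theorem exists_invol {Y : AddSubgroup X} {s : H} {k : ℕ} (hk : s ^ 2 ^ k = 1)
    (hs : ∃ z ∈ Y, s • z ≠ z) :
    ∃ m, (∀ z ∈ Y, (s ^ m * s ^ m) • z = z) ∧ ∃ z ∈ Y, s ^ m • z ≠ z := by
  classical
  have hex : ∃ m, ∀ z ∈ Y, s ^ 2 ^ m • z = z := ⟨k, fun z _ => by rw [hk, one_smul]⟩
  have h1 := Nat.find_spec hex
  have h0 : Nat.find hex ≠ 0 := by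
    intro h0
    rw [h0] at h1
    obtain ⟨z, hz, hne⟩ := hs
    apply hne
    have := h1 z hz
    rwa [pow_zero, pow_one] at this
  obtain ⟨m, hm⟩ := Nat.exists_eq_succ_of_ne_zero h0
  have h2 := Nat.find_min hex (m := m) (by omega)
  push Not at h2
  refine ⟨2 ^ m, ?_, h2⟩
  intro z hz
  have := h1 z hz
  rw [hm] at this
  rwa [← pow_add, ← two_mul, ← pow_succ']

end BD2M

open BD2M in
/-- **BD2** -/
theorem specBD2 (hCLE : SpecCLE) : SpecBD2 := by
  classical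
  rintro H X _ _ _ p C T h hP v hv h2T ⟨R, hR⟩
  have : Finite H := h.finH
  have : Finite X := h.finX
  have hcop := (hP.cop v 2 R hv h2T hR).2
  obtain ⟨l, hl, hnt⟩ := hP.ntv v 2 R hv h2T hR
  obtain ⟨x, hx, n, hn, y, hy, hne⟩ := hP.nz v 2 R hv h2T hR l hl hnt
  have hRY : ∀ s ∈ R, ∀ z ∈ FixY X (Stb (Fit C) v), s • z ∈ FixY X (Stb (Fit C) v) :=
    fun s hs z hz => smul_mem hcop hs hz
  obtain ⟨s, hs, z, hz, hsz⟩ : ∃ s ∈ R, ∃ z ∈ FixY X (Stb (Fit C) v), s • z ≠ z := by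
    by_contra hcon
    push Not at hcon
    have h1 : x⁻¹ • y = y := hcon x⁻¹ (R.inv_mem hx) y hy
    have h2 : n • y ∈ FixY X (Stb (Fit C) v) := (((hP.sem v hv y hy).2 l hl).2 n hn).1
    have h3 := hcon x hx (n • y) h2
    apply hne
    rw [mul_smul, mul_smul, h1, h3]
  obtain ⟨k, hk⟩ := hR.1.2.1 ⟨s, hs⟩
  have hk' : s ^ 2 ^ k = 1 := by
    have := congrArg Subtype.val hk
    simpa using this
  obtain ⟨m, hm1, z', hz', hm2⟩ := exists_invol hk' ⟨z, hz, hsz⟩
  set t : H := s ^ m with ht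
  have htR : t ∈ R := R.pow_mem hs m
  have hv'Y : z' - t • z' ∈ FixY X (Stb (Fit C) v) :=
    AddSubgroup.sub_mem _ hz' (hRY t htR z' hz')
  have hv'0 : z' - t • z' ≠ 0 := fun h0 => hm2 (sub_eq_zero.1 h0).symm
  have htv : t • (z' - t • z') = (-1 : ℤ) • (z' - t • z') := by
    rw [smul_sub, ← mul_smul, hm1 z' hz', neg_one_zsmul, neg_sub]
  have hp2 : p ≠ 2 := by
    rintro rfl
    exact h.pn (h.tp 2 h2T).2
  have htne : t • (z' - t • z') ≠ z' - t • z' := by
    intro h0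
    rw [htv, neg_one_zsmul] at h0
    have h1 : 2 • (z' - t • z') = 0 := by
      rw [two_nsmul]
      nth_rewrite 1 [← h0]
      exact neg_add_cancel _
    have h2 := h.px (z' - t • z')
    have h3 : Nat.Coprime 2 p := (Nat.coprime_primes Nat.prime_two h.pp).2 (Ne.symm hp2)
    have h4 : addOrderOf (z' - t • z') ∣ 2 := addOrderOf_dvd_iff_nsmul_eq_zero.2 h1
    have h5 : addOrderOf (z' - t • z') ∣ p := addOrderOf_dvd_iff_nsmul_eq_zero.2 h2
    have h6 : addOrderOf (z' - t • z') = 1 := Nat.eq_one_of_dvd_coprimes h3 h4 h5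
    exact hv'0 (AddMonoid.addOrderOf_eq_one_iff.1 h6)
  obtain ⟨k', hkt⟩ := hR.1.2.1 ⟨t, htR⟩
  have hkt' : t ^ 2 ^ k' = 1 := by
    have := congrArg Subtype.val hkt
    simpa using this
  have hKl : Kl H (z' - t • z') 2 := fun R' hR' =>
    XEIG.eig Nat.prime_two hkt' htv htne hR'
  have hext : ExtV (Fit C) (z' - t • z') := ((hP.sem v hv _ hv'Y).1 hv'0).1
  have hclean : Clean C T (z' - t • z') := by
    refine ⟨hext, fun r hr R' hR' => ?_⟩
    have hrp := (h.tp r hr).1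
    by_cases h5 : 5 ≤ r
    · exact hP.g5 _ r R' hext hr hR' h5
    · have hr2 := hrp.two_le
      have hcases : r = 2 ∨ r = 3 ∨ r = 4 := by omega
      rcases hcases with rfl | rfl | rfl
      · obtain ⟨u, hu, hne'⟩ := hKl R' hR'.1
        exact absurd (hR'.2.2.2.1 u hu) hne'
      · exact hP.g2 _ v R' R hext hv.1 hr hR' hR
      · exact absurd hrp (by norm_num)
  have hkA := (hCLE H X p C T h hP _ hclean).1
  have h2A : 2 ∈ kA H T (z' - t • z') := by
    unfold kA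
    rw [Finset.mem_filter]
    exact ⟨h2T, hKl⟩
  rw [hkA] at h2A
  unfold PiK at h2A
  rw [Finset.mem_filter] at h2A
  obtain ⟨u, hu, hne'⟩ := h2A.2 v hv.1 R hR.1
  exact hne' (hR.2.2.2.1 u hu)

end Pool.Agent.Lib.MPbe1941.X
end

section
/-!
# MP_be1941_al EXACT, block D: SYX
-/
set_option autoImplicit false

namespace Pool.Agent.Lib.MPbe1941.X

open Pool.Agent.Lib.MPbe1941

theorem specSYX : SpecSYX := by
  intro H _ _ S r hr
  have : Fact r.Prime := ⟨hr⟩
  constructor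
  · intro hd R hR
    by_contra hall
    push Not at hall
    have h1 := hR.2.2
    rw [Subgroup.relIndex_top_right] at h1
    exact h1 (hd.trans (Subgroup.index_dvd_of_le hall))
  · intro hall
    by_contra hd
    obtain ⟨P⟩ : Nonempty (Sylow r S) := inferInstance
    have h1 : ((P : Subgroup S).map S.subtype).index = (P : Subgroup S).index * S.index :=
      Subgroup.index_map_subtype _
    have h2 : ¬ r ∣ (P : Subgroup S).index := P.not_dvd_index
    have h3 : SylIn r ⊤ ((P : Subgroup S).map S.subtype) := by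
      refine ⟨le_top, P.isPGroup'.map _, ?_⟩
      rw [Subgroup.relIndex_top_right, h1]
      intro h4
      rcases (Nat.Prime.dvd_mul hr).1 h4 with h5 | h5
      · exact h2 h5
      · exact hd h5
    obtain ⟨h, hh, hS⟩ := hall _ h3
    obtain ⟨x, -, rfl⟩ := hh
    exact hS x.2

end Pool.Agent.Lib.MPbe1941.X
end

section
/-!
# MP_be1941_al EXACT, block D: CH1
-/
set_option autoImplicit false

namespace Pool.Agent.Lib.MPbe1941.X

open Pool.Agent.Lib.MPbe1941

namespace CH1M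

/-- elements of the sup of a subgroup `Q` normalised by `B` -/
theorem mem_sup_norm {G : Type} [Group G] {Q B : Subgroup G}
    (h : ∀ b ∈ B, ∀ q ∈ Q, b * q * b⁻¹ ∈ Q) {x : G} :
    x ∈ Q ⊔ B ↔ ∃ q ∈ Q, ∃ b ∈ B, x = q * b := by
  let K : Subgroup G :=
    { carrier := {x | ∃ q ∈ Q, ∃ b ∈ B, x = q * b}
      one_mem' := ⟨1, Q.one_mem, 1, B.one_mem, by simp⟩
      mul_mem' := by
        rintro _ _ ⟨q, hq, b, hb, rfl⟩ ⟨q', hq', b', hb', rfl⟩
        refine ⟨q * (b * q' * b⁻¹), Q.mul_mem hq (h b hb q' hq'), b * b', B.mul_mem hb hb', ?_⟩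
        group
      inv_mem' := by
        rintro _ ⟨q, hq, b, hb, rfl⟩
        refine ⟨b⁻¹ * q⁻¹ * b⁻¹⁻¹, h b⁻¹ (B.inv_mem hb) q⁻¹ (Q.inv_mem hq), b⁻¹, B.inv_mem hb, ?_⟩
        group }
  have hle : Q ⊔ B ≤ K := by
    refine sup_le (fun q hq => ⟨q, hq, 1, B.one_mem, by simp⟩) fun b hb =>
      ⟨1, Q.one_mem, b, hb, by simp⟩
  refine ⟨fun hx => hle hx, ?_⟩
  rintro ⟨q, hq, b, hb, rfl⟩
  exact Subgroup.mul_mem_sup hq hb

/-- the stabiliser of `bet` in a group `K` normalising `D` -/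
def stB {H : Type} [Group H] (D K : Subgroup H) (bet : H → ℂ)
    (hn : ∀ k ∈ K, ∀ x ∈ D, k * x * k⁻¹ ∈ D) : Subgroup H where
  carrier := {k | k ∈ K ∧ FixB D bet k}
  one_mem' := ⟨K.one_mem, fun x _ => by rw [one_mul, inv_one, mul_one]⟩
  mul_mem' := by
    rintro a b ⟨ha, ha'⟩ ⟨hb, hb'⟩
    refine ⟨K.mul_mem ha hb, fun x hx => ?_⟩
    have e1 : a * b * x * (a * b)⁻¹ = a * (b * x * b⁻¹) * a⁻¹ := by group
    rw [e1, ha' _ (hn b hb x hx), hb' x hx]
  inv_mem' := by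
    rintro a ⟨ha, ha'⟩
    refine ⟨K.inv_mem ha, fun x hx => ?_⟩
    have h1 := ha' _ (hn a⁻¹ (K.inv_mem ha) x hx)
    have e1 : a * (a⁻¹ * x * a⁻¹⁻¹) * a⁻¹ = x := by group
    rw [e1] at h1
    exact h1.symm

theorem mem_stB {H : Type} [Group H] (D K : Subgroup H) (bet : H → ℂ)
    (hn : ∀ k ∈ K, ∀ x ∈ D, k * x * k⁻¹ ∈ D) (k : H) :
    k ∈ stB D K bet hn ↔ k ∈ K ∧ FixB D bet k := Iff.rfl

end CH1M

open Classical in
theorem specCH1 : SpecCH1 := by
  intro H X _ _ _ _ C T v D bet hT hst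
  obtain ⟨K1, hK1v, hK1i, hK1d⟩ := hst.cpl
  have hn : ∀ k ∈ K1, ∀ x ∈ D, k * x * k⁻¹ ∈ D := fun k hk => hst.nor k (hK1v k hk)
  have hDS : D ≤ Stb (⊤ : Subgroup H) v := fun d hd => ⟨trivial, hst.fx d hd⟩
  have hKS : K1 ≤ Stb (⊤ : Subgroup H) v := fun k hk => ⟨trivial, hK1v k hk⟩
  have hsup : D ⊔ K1 = Stb (⊤ : Subgroup H) v := by
    apply le_antisymm (sup_le hDS hKS)
    intro h hh
    obtain ⟨d, hd, k, hk, rfl⟩ := hK1d h hh.2
    exact Subgroup.mul_mem_sup hd hk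
  have hch := Ch.step D K1 (CH1M.stB D K1 bet hn) bet
    (Ch.base (C := C) (S0 := Stb (⊤ : Subgroup H) v)) hDS hst.le hst.ab
    (fun k hk => hst.nor k hk.2) hKS hK1i hsup hst.lin (CH1M.mem_stB D K1 bet hn)
  rw [bot_sup_eq] at hch
  have hmem : ∀ h, h ∈ D ⊔ CH1M.stB D K1 bet hn ↔ FxS v D bet h := by
    intro h
    rw [CH1M.mem_sup_norm (Q := D) (B := CH1M.stB D K1 bet hn) fun b hb => hn b hb.1]
    constructor
    · rintro ⟨d, hd, k, ⟨hk, hkb⟩, rfl⟩
      refine ⟨by rw [mul_smul, hK1v k hk, hst.fx d hd], fun x hx => ?_⟩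
      have e1 : d * k * x * (d * k)⁻¹ = d * (k * x * k⁻¹) * d⁻¹ := by group
      have e2 : d * (k * x * k⁻¹) * d⁻¹ = k * x * k⁻¹ := by
        rw [hst.ab d hd _ (hn k hk x hx), mul_inv_cancel_right]
      rw [e1, e2, hkb x hx]
    · rintro ⟨hv, hb⟩
      obtain ⟨d, hd, k, hk, rfl⟩ := hK1d h hv
      refine ⟨d, hd, k, ⟨hk, fun x hx => ?_⟩, rfl⟩
      have e1 : d * k * x * (d * k)⁻¹ = d * (k * x * k⁻¹) * d⁻¹ := by group
      have e2 : d * (k * x * k⁻¹) * d⁻¹ = k * x * k⁻¹ := by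
        rw [hst.ab d hd _ (hn k hk x hx), mul_inv_cancel_right]
      rw [← hb x hx, e1, e2]
  refine ⟨_, _, hch, hmem, ?_, ?_⟩
  · unfold chA setA
    refine Finset.filter_congr fun r hr => ?_
    rw [specSYX H _ r (hT r hr)]
    unfold KlS
    refine forall_congr' fun R => forall_congr' fun _ => exists_congr fun h => ?_
    rw [hmem]
  · unfold chM setM
    refine Finset.filter_congr fun r hr => ?_
    rw [specSYX H _ r (hT r hr)]
    unfold MiS
    constructor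
    · rintro ⟨-, R, h1, h2, h3, h4, h5⟩
      exact ⟨R, h1, h3, fun h hh => (hmem h).1 (h2 hh), h4, fun h hh => h5 h ((hmem h).2 hh)⟩
    · rintro ⟨R, h1, h3, h2, h4, h5⟩
      refine ⟨fun hall => ?_, R, h1, fun h hh => (hmem h).2 (h2 h hh), h3, h4,
        fun h hh => h5 h ((hmem h).1 hh)⟩
      obtain ⟨h, hh, hS⟩ := hall R h1
      exact hS ((hmem h).2 (h2 h hh))

end Pool.Agent.Lib.MPbe1941.X
end

section
set_option autoImplicit false

namespace Pool.Agent.Lib.MPbe1941.X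

/-- **CLE**: for a clean vector `A(v) = Π_K` and `|M(v)| = k`. -/
theorem specCLE (hCNB : SpecCNB) (hGDB : SpecGDB) : SpecCLE := by
  intro H X _ _ _ p C T hT hP v hv
  have hv0 : v ≠ 0 := hv.1.1
  obtain ⟨-, hC⟩ := hCNB H X p C T hT
  obtain ⟨hsub, hle⟩ := hC v hv0
  have hM : (kM C T v).card ≤ (PiK H X T).card := by
    refine hGDB H X p C T hT hP v hv.1 (kM C T v) ?_ ?_
    · intro r hr
      classical
      exact (Finset.mem_filter.1 (by simpa only [kM] using hr)).1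
    · intro r hr
      classical
      obtain ⟨hrT, R, hR⟩ := Finset.mem_filter.1 (by simpa only [kM] using hr)
      exact ⟨R, hv.2 r hrT R hR⟩
  have h1 : (PiK H X T).card ≤ (kA H T v).card := Finset.card_le_card hsub
  refine ⟨(Finset.eq_of_subset_of_card_le hsub (hle.trans hM)).symm, le_antisymm hM (h1.trans hle)⟩

end Pool.Agent.Lib.MPbe1941.X
end

section
set_option autoImplicit false

namespace Pool.Agent.Lib.MPbe1941.X

namespace CLNM

/-- An extremal vector exists. -/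
theorem exists_ext {H X : Type} [Group H] [AddCommGroup X] [DistribMulAction H X] [Finite X]
    [Nontrivial X] (F : Subgroup H) : ∃ v : X, ExtV F v := by
  classical
  have hne : (Set.univ.toFinite.toFinset.filter fun v : X => v ≠ 0).Nonempty := by
    obtain ⟨v, hv⟩ := exists_ne (0 : X)
    exact ⟨v, by simp [hv]⟩
  obtain ⟨v, hv, hmax⟩ := Finset.exists_max_image _ (fun v : X => Nat.card (Stb F v)) hne
  refine ⟨v, by simpa using hv, fun w hw => hmax w (by simp [hw])⟩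

end CLNM

/-- **CLN**: there is a clean vector. -/
theorem specCLN (hUNC : SpecUNC) : SpecCLN := by
  intro H X _ _ _ p C T hT hP
  have := hT.finX
  have := hT.ntX
  obtain ⟨v, hv⟩ := CLNM.exists_ext (X := X) (Fit C)
  by_cases hc : Clean C T v
  · exact ⟨v, hc⟩
  · obtain ⟨-, R, -, -, h⟩ := hUNC H X p C T hT hP v hv hc
    rcases h with ⟨v', h1, -⟩ | ⟨⟨l, hl, hl2, hb⟩, h2⟩
    · exact ⟨v', h1⟩
    · obtain ⟨v', h3, -⟩ := h2 l hl hl2 hb
      exact ⟨v', h3⟩

end Pool.Agent.Lib.MPbe1941.X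
end

section
/-!
# MP_be1941_al EXACT, block T1, module CNB: counting for vectors
-/
set_option autoImplicit false

namespace Pool.Agent.Lib.MPbe1941.X

open Pool.Agent.Lib.MPbe1941
open Pool.Agent.Lib.MPbe1941.XF

theorem mem_PiK {H X : Type} [Group H] [AddCommGroup X] [DistribMulAction H X] {T : Finset ℕ}
    {r : ℕ} : r ∈ PiK H X T ↔ r ∈ T ∧ ∀ v : X, v ≠ 0 → Kl H v r := by
  classical exact Finset.mem_filter

theorem mem_kA {H X : Type} [Group H] [AddCommGroup X] [DistribMulAction H X] {T : Finset ℕ}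
    {v : X} {r : ℕ} : r ∈ kA H T v ↔ r ∈ T ∧ Kl H v r := by
  classical exact Finset.mem_filter

theorem mem_kM {H X : Type} [Group H] [AddCommGroup X] [DistribMulAction H X] {C : Subgroup H}
    {T : Finset ℕ} {v : X} {r : ℕ} : r ∈ kM C T v ↔ r ∈ T ∧ ∃ R, MiH C v r R :=
  by
  classical exact Finset.mem_filter

theorem mem_setA {H X : Type} [Group H] [AddCommGroup X] [DistribMulAction H X] {T : Finset ℕ}
    {v : X} {D : Subgroup H} {bet : H → ℂ} {r : ℕ} :
    r ∈ setA T v D bet ↔ r ∈ T ∧ KlS v D bet r := by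
  classical exact Finset.mem_filter

theorem mem_setM {H X : Type} [Group H] [AddCommGroup X] [DistribMulAction H X] {C : Subgroup H}
    {T : Finset ℕ} {v : X} {D : Subgroup H} {bet : H → ℂ} {r : ℕ} :
    r ∈ setM C T v D bet ↔ r ∈ T ∧ MiS C v D bet r := by
  classical exact Finset.mem_filter

theorem specCNB : SpecCNB := by
  intro H X _ _ _ p C T h
  constructor
  · obtain ⟨r, hr, hk⟩ := h.ne
    rw [Finset.card_pos]
    refine ⟨r, ?_⟩
    rw [mem_PiK]
    exact ⟨hr, hk⟩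
  · intro v hv
    constructor
    · intro r hr
      rw [mem_PiK] at hr
      rw [mem_kA]
      exact ⟨hr.1, hr.2 v hv⟩
    · have hst : StV C v (⊥ : Subgroup H) (fun _ => (1 : ℂ)) := by
        refine ⟨bot_le, ?_, ?_, ?_, ?_, ?_⟩
        · intro d hd
          rw [Subgroup.mem_bot] at hd
          rw [hd, one_smul]
        · intro g _ d hd
          rw [Subgroup.mem_bot] at hd ⊢
          rw [hd]; group
        · intro x hx y hy
          rw [Subgroup.mem_bot] at hx hy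
          rw [hx, hy]
        · refine ⟨Stb ⊤ v, fun k hk => hk.2, bot_inf_eq _, fun g hg => ?_⟩
          exact ⟨1, Subgroup.one_mem _, g, ⟨Subgroup.mem_top g, hg⟩, (one_mul g).symm⟩
        · exact ⟨rfl, fun x _ y _ => (one_mul 1).symm⟩
      have hfx : ∀ g : H, FxS v (⊥ : Subgroup H) (fun _ => (1 : ℂ)) g ↔ g • v = v := by
        intro g
        constructor
        · exact fun h => h.1
        · exact fun h => ⟨h, fun x _ => rfl⟩
      have h1 := h.tight v ⊥ (fun _ => (1 : ℂ)) hst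
      have hA : setA T v (⊥ : Subgroup H) (fun _ => (1 : ℂ)) = kA H T v := by
        ext r
        rw [mem_setA, mem_kA]
        unfold KlS Kl
        simp only [hfx]
      have hM : setM C T v (⊥ : Subgroup H) (fun _ => (1 : ℂ)) ⊆ kM C T v := by
        intro r hr
        rw [mem_setM] at hr
        rw [mem_kM]
        refine ⟨hr.1, ?_⟩
        obtain ⟨R, hR, hRC, hRf, hRc, hRn⟩ := hr.2
        refine ⟨R, hR, hRC, ?_, ?_, ?_⟩
        · intro x hx y hy
          have := hRc x hx y hy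
          rw [Subgroup.mem_bot] at this
          calc x * y = (x * y * x⁻¹ * y⁻¹) * (y * x) := by group
            _ = y * x := by rw [this, one_mul]
        · intro t ht
          exact ((hfx t).1 (hRf t ht))
        · intro g hg t ht
          have := hRn g ((hfx g).2 hg) t ht
          rwa [bot_sup_eq] at this
      rw [hA] at h1
      exact h1.trans (Finset.card_le_card hM)

end Pool.Agent.Lib.MPbe1941.X
end

section
/-!
# MP_be1941_al EXACT, block T1, module TSN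
-/
set_option autoImplicit false

namespace Pool.Agent.Lib.MPbe1941.X

open Pool.Agent.Lib.MPbe1941
open Pool.Agent.Lib.MPbe1941.XF
open scoped commutatorElement

namespace TSNM

/-- For a good prime `r` non-trivial on `P_l`: `[P_l, R] = D_r ⊓ P_l`. -/
theorem comm_eq (hTPS : SpecTPS) (hPDB : SpecPDB) {H X : Type} [Group H] [AddCommGroup X]
    [DistribMulAction H X] {p : ℕ} {C : Subgroup H} {T : Finset ℕ} (h : TS H X p C T) {v : X}
    {r : ℕ} {R : Subgroup H} (hv : ExtV (Fit C) v) (hr : r ∈ T) (hG : Gd C v r R) {l : ℕ}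
    (hl : l.Prime) (hN : NtOn R (Oc l C)) :
    l ≠ 2 ∧ l ≠ r ∧ ⁅Oc l C, R⁆ = Dr H r ⊓ Oc l C := by
  obtain ⟨hP, hF, hExt, hMi, hPr, hGood, hCP⟩ := hTPS H X p C T h
  have hE : h.ps.Ext v := (hExt v).2 hv
  have hGo : h.ps.Good v r R := (hGood v r R hr).2 hG
  obtain ⟨-, -, -, -, -, -, -, h8⟩ := hPDB h.ps v hE r R hGo
  have key : ∀ s ∈ R, (¬ ∀ g ∈ Oc l C, s * g = g * s) → l ≠ 2 ∧ l ≠ r ∧
      Dr H r ⊓ Oc l C = Subgroup.closure {y | ∃ x ∈ Oc l C, y = s * x * s⁻¹ * x⁻¹} := by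
    intro s hs hn
    have hn' : ¬ h.ps.CP l s := fun h1 => hn ((hCP l s).1 h1)
    obtain ⟨h2, h3, a, Q, hPow, -, hQ⟩ := h8 l hl s hs hn'
    refine ⟨h2, h3, ?_⟩
    have e0 : ∀ P' : Subgroup H, P' = h.ps.P l →
        Q = Subgroup.closure {y : H | ∃ x ∈ P', y = s * x * s⁻¹ * x⁻¹} := by
      rintro P' rfl
      exact hPow.2.1
    have e1 := e0 (Oc l C) (hP l).symm
    have e2 : (Dr H r).map (MonoidHom.id H) ⊓ h.ps.P l = Q := hQ
    rw [hP l] at e2
    rw [Subgroup.map_id] at e2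
    rw [e2, e1]
  obtain ⟨s0, hs0, y0, hy0, hne⟩ := hN
  have hs0' : ¬ ∀ g ∈ Oc l C, s0 * g = g * s0 := fun h1 => hne (h1 y0 hy0)
  obtain ⟨h2, h3, h4⟩ := key s0 hs0 hs0'
  refine ⟨h2, h3, le_antisymm ?_ ?_⟩
  · rw [Subgroup.commutator_le]
    intro x hx s hs
    rw [commutatorElement_def]
    by_cases hc : ∀ g ∈ Oc l C, s * g = g * s
    · have : x * s * x⁻¹ * s⁻¹ = 1 := by
        rw [← hc x hx]; group
      rw [this]
      exact Subgroup.one_mem _
    · obtain ⟨-, -, h5⟩ := key s hs hc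
      rw [h5]
      have h6 : x * s * x⁻¹ * s⁻¹ = (s * x * s⁻¹ * x⁻¹)⁻¹ := by group
      rw [h6]
      exact Subgroup.inv_mem _ (Subgroup.subset_closure ⟨x, hx, rfl⟩)
  · rw [h4, Subgroup.closure_le]
    rintro y ⟨x, hx, rfl⟩
    have h6 : s0 * x * s0⁻¹ * x⁻¹ = (x * s0 * x⁻¹ * s0⁻¹)⁻¹ := by group
    rw [h6]
    exact Subgroup.inv_mem _ (comm_mem hx hs0)

end TSNM

theorem specTSN (hTPS : SpecTPS) (hPDB : SpecPDB) (hPSB : SpecPSB) : SpecTSN := by
  intro H X _ _ _ p C T h v r R hv hr hG l hl hN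
  obtain ⟨h2, h3, h4⟩ := TSNM.comm_eq hTPS hPDB h hv hr hG hl hN
  obtain ⟨hP, -⟩ := hTPS H X p C T h
  obtain ⟨-, -, -, hPl, -, -, -, -, -, hOr⟩ := hPSB h.ps
  have hn1 : (Oc l C).Normal := by
    have := (hPl l hl).1
    rwa [hP l] at this
  have hn2 : (Dr H r).Normal := (hOr r (h.tp r hr).1).2
  refine ⟨h2, ?_, ?_⟩
  · rw [h4]
    exact Subgroup.normal_inf_normal _ _
  · rw [Ne, comm_eq_bot_iff]
    intro hc
    obtain ⟨x, hx, y, hy, hne⟩ := hN
    exact hne (hc x hx y hy)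

end Pool.Agent.Lib.MPbe1941.X
end

section
/-!
# MP_be1941_al EXACT, block T1, module DCY: the group `D` of a clean vector is cyclic
-/
set_option autoImplicit false

namespace Pool.Agent.Lib.MPbe1941.X

open Pool.Agent.Lib.MPbe1941
open Pool.Agent.Lib.MPbe1941.XF
open scoped commutatorElement

namespace DCYM

/-- A finite abelian subgroup whose `q`-parts are contained in cyclic subgroups is cyclic. -/
theorem cyc_of_parts {G : Type} [Group G] [Finite G] {D : Subgroup G}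
    (hab : ∀ x ∈ D, ∀ y ∈ D, x * y = y * x)
    (h : ∀ q, q.Prime → (∃ x ∈ D, LE q x ∧ x ≠ 1) →
      ∃ Q : Subgroup G, IsCyclic Q ∧ ∀ x ∈ D, LE q x → x ∈ Q) : IsCyclic D := by
  let _ : CommGroup D := { (inferInstance : Group D) with
    mul_comm := fun x y => Subtype.ext (hab x x.2 y y.2) }
  have hZ : IsZGroup D := by
    refine ⟨fun q hq P => ?_⟩
    by_cases hex : ∃ x ∈ D, LE q x ∧ x ≠ 1
    · obtain ⟨Q, hQ, hQ'⟩ := h q hq hex
      have hmem : ∀ x : P, ((x : D) : G) ∈ Q := by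
        intro x
        apply hQ' _ (x : D).2
        obtain ⟨k, hk⟩ := P.isPGroup' x
        refine ⟨k, ?_⟩
        have h1 := congrArg (fun y : P => ((y : D) : G)) hk
        simpa using h1
      let f : P →* Q :=
        { toFun := fun x => ⟨((x : D) : G), hmem x⟩
          map_one' := rfl
          map_mul' := fun x y => rfl }
      refine isCyclic_of_injective f ?_
      intro x y hxy
      have h1 := congrArg Subtype.val hxy
      exact Subtype.ext (Subtype.ext h1)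
    · push Not at hex
      have hsub : Subsingleton P := by
        refine ⟨fun x y => ?_⟩
        have key : ∀ z : P, z = 1 := by
          intro z
          obtain ⟨k, hk⟩ := P.isPGroup' z
          have h1 := hex _ (z : D).2 ⟨k, by
            have h1 := congrArg (fun y : P => ((y : D) : G)) hk
            simpa using h1⟩
          exact Subtype.ext (Subtype.ext h1)
        rw [key x, key y]
      infer_instance
  exact inferInstanceAs (IsCyclic D)

end DCYM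

theorem specDCY (hTPS : SpecTPS) (hPDB : SpecPDB) (hPDC : SpecPDC) (hNIC : SpecNIC) :
    SpecDCY := by
  intro H X _ _ _ p C T h hp v hv
  have hfin : Finite H := h.finH
  obtain ⟨hP, hF, hExt, hMi, hPr, hGood, hCP⟩ := hTPS H X p C T h
  have hE : h.ps.Ext v := (hExt v).2 hv.1
  obtain ⟨⟨-, -, hDab⟩, -, hD3, -, -, -, hD7, -⟩ := hPDC h.ps v hE
  obtain ⟨DT, hDT⟩ : ∃ DT : Subgroup H,
      DT = sSup {K | ∃ r ∈ T, ∃ R, Gd C v r R ∧ K = Dr H r} := ⟨_, rfl⟩
  rw [← hDT]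
  have hle : ∀ x ∈ DT, x ∈ h.ps.D v := by
    have h1 : DT ≤ (h.ps.D v : Subgroup H) := by
      rw [hDT]
      refine sSup_le ?_
      rintro K ⟨r, hr, R, hG, rfl⟩
      exact le_sSup ⟨r, R, (hGood v r R hr).2 hG, rfl⟩
    exact fun x hx => h1 hx
  refine DCYM.cyc_of_parts (fun x hx y hy => hDab x (hle x hx) y (hle y hy)) ?_
  rintro q hq ⟨x, hx, hxq, hx1⟩
  have hFq : Fact q.Prime := ⟨hq⟩
  -- some good prime is non-trivial on `P_q`
  obtain ⟨r, hr, R, hG, hN⟩ : ∃ r ∈ T, ∃ R, Gd C v r R ∧ NtOn R (Oc q C) := by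
    by_contra hcon
    push Not at hcon
    have key : ∀ r ∈ T, ∀ R, Gd C v r R → ¬ q ∣ Nat.card (Dr H r) := by
      intro r hr R hG hd
      obtain ⟨y, hy⟩ := exists_prime_orderOf_dvd_card' q hd
      have hyq : LE q (y : H) := ⟨1, by
        rw [pow_one]
        have h1 : y ^ q = 1 := by rw [← hy]; exact pow_orderOf_eq_one y
        have h2 := congrArg Subtype.val h1
        simpa using h2⟩
      have hGo : h.ps.Good v r R := (hGood v r R hr).2 hG
      obtain ⟨-, -, -, h4, -, -, h7, -⟩ := hPDB h.ps v hE r R hGo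
      have hCPs : ∀ s ∈ R, h.ps.CP q s := by
        intro s hs
        rw [hCP]
        intro g hg
        by_contra hne
        exact hcon r hr R hG ⟨s, hs, g, hg, hne⟩
      have h8 : (y : H) = 1 := h4 (y : H) y.2 (fun s hs => h7 q hq s hs (hCPs s hs) (y : H) y.2 hyq)
      have h9 : y = 1 := Subtype.ext h8
      rw [h9, orderOf_one] at hy
      exact hq.one_lt.ne hy
    -- all elements of `DT` have order prime to `q`
    obtain ⟨K', hK'⟩ : ∃ K' : Subgroup H, ∀ y, y ∈ K' ↔ y ∈ h.ps.D v ∧ ∃ n : ℕ, ¬ q ∣ n ∧ y ^ n = 1 := by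
      refine ⟨{ carrier := {y | y ∈ h.ps.D v ∧ ∃ n : ℕ, ¬ q ∣ n ∧ y ^ n = 1}
                one_mem' := ⟨Subgroup.one_mem _, 1, fun h => hq.one_lt.ne' (Nat.dvd_one.1 h),
                  one_pow 1⟩
                mul_mem' := ?_
                inv_mem' := ?_ }, fun y => Iff.rfl⟩
      · rintro a b ⟨ha, n, hn, han⟩ ⟨hb, m, hm, hbm⟩
        refine ⟨Subgroup.mul_mem _ ha hb, n * m, fun hd => ?_, ?_⟩
        · rcases (Nat.Prime.dvd_mul hq).1 hd with hd | hd
          · exact hn hd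
          · exact hm hd
        · have hc : Commute (a : H) b := hDab a ha b hb
          rw [hc.mul_pow, pow_mul, han, one_pow, one_mul, mul_comm, pow_mul, hbm, one_pow]
      · rintro a ⟨ha, n, hn, han⟩
        exact ⟨Subgroup.inv_mem _ ha, n, hn, by rw [inv_pow, han, inv_one]⟩
    have hsub : DT ≤ K' := by
      rw [hDT]
      refine sSup_le ?_
      rintro K ⟨r, hr, R, hG, rfl⟩
      intro y hy
      rw [hK']
      refine ⟨?_, Nat.card (Dr H r), key r hr R hG, ?_⟩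
      · apply hle
        rw [hDT]
        have h1 : Dr H r ∈ {K | ∃ r ∈ T, ∃ R, Gd C v r R ∧ K = Dr H r} := ⟨r, hr, R, hG, rfl⟩
        exact (le_sSup h1) hy
      · have h1 : (⟨y, hy⟩ : Dr H r) ^ Nat.card (Dr H r) = 1 := pow_card_eq_one'
        exact congrArg Subtype.val h1
    obtain ⟨-, n, hn, hxn⟩ := (hK' x).1 (hsub hx)
    obtain ⟨k, hk⟩ := hxq
    have h1 : orderOf x ∣ n := orderOf_dvd_of_pow_eq_one hxn
    have h2 : orderOf x ∣ q ^ k := orderOf_dvd_of_pow_eq_one hk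
    have h3 : Nat.Coprime n (q ^ k) :=
      Nat.Coprime.pow_right k ((Nat.Prime.coprime_iff_not_dvd hq).2 hn).symm
    have h4 : orderOf x = 1 := Nat.eq_one_of_dvd_coprimes h3 h1 h2
    exact hx1 (orderOf_eq_one_iff.1 h4)
  refine ⟨⁅Oc q C, R⁆, hNIC H X p C T h hp v r R hv.1 hr hG q hq hN, ?_⟩
  intro y hy hyq
  rw [(TSNM.comm_eq hTPS hPDB h hv.1 hr hG hq hN).2.2]
  have hGo : h.ps.Good v r R := (hGood v r R hr).2 hG
  have hex : ∃ t ∈ R, ¬ h.ps.CP q t := by
    obtain ⟨t, ht, z, hz, hne⟩ := hN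
    refine ⟨t, ht, fun h1 => hne ?_⟩
    rw [hCP] at h1
    exact h1 z hz
  refine ⟨hD3 r q R hq hGo hex y (hle y hy) hyq, ?_⟩
  have h1 := hD7 q hq y (hle y hy) hyq
  rw [hP q] at h1
  exact h1

end Pool.Agent.Lib.MPbe1941.X
end

section
/-!
# MP_be1941_al EXACT, block D: DI, Case I is impossible
-/
set_option autoImplicit false

namespace Pool.Agent.Lib.MPbe1941.X

open Pool.Agent.Lib.MPbe1941

namespace DIM

theorem ncard_eq (T : Finset ℕ) (P : ℕ → Prop) [DecidablePred P] :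
    Set.ncard {r | r ∈ T ∧ P r} = (T.filter P).card := by
  rw [← Set.ncard_coe_finset]
  congr 1
  ext r
  simp

end DIM

open Classical in
theorem specDI (hCNT : SpecCNT) : SpecDI := by
  intro H W _ _ _ C T h
  have hfH : Finite H := h.finH
  have hfW : Finite W := h.finW
  have hnt : Nontrivial W := h.ntW
  obtain ⟨w, D, K, bet, hw, hDn, hDC, hDab, hDf, hi, hs, hl, hcnt⟩ :=
    hCNT H W h.sol h.irr C h.nor T fun r hr => (h.tp r hr).1
  -- the two states
  have hst1 : StV C w (⊥ : Subgroup H) (fun _ => (1 : ℂ)) :=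
    { le := bot_le
      fx := fun d hd => by rw [Subgroup.mem_bot.1 hd, one_smul]
      nor := fun g _ d hd => by
        rw [Subgroup.mem_bot.1 hd, mul_one, mul_inv_cancel]; exact Subgroup.one_mem _
      ab := fun x hx y hy => by rw [Subgroup.mem_bot.1 hx, Subgroup.mem_bot.1 hy]
      cpl := ⟨Stb ⊤ w, fun k hk => hk.2, bot_inf_eq _, fun g hg =>
        ⟨1, Subgroup.one_mem _, g, ⟨trivial, hg⟩, (one_mul g).symm⟩⟩
      lin := ⟨rfl, fun _ _ _ _ => by rw [mul_one]⟩ }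
  have hst2 : StV C (0 : W) D bet :=
    { le := hDC
      fx := fun d _ => smul_zero d
      nor := fun g _ d hd => hDn.conj_mem d hd g
      ab := hDab
      cpl := ⟨K, fun k _ => smul_zero k, hi, fun g _ => by
        have hg : g ∈ D ⊔ K := by rw [hs]; trivial
        exact (CH1M.mem_sup_norm fun b _ q hq => hDn.conj_mem q hq b).1 hg⟩
      lin := hl }
  have hT : ∀ r ∈ T, r.Prime := fun r hr => (h.tp r hr).1
  obtain ⟨S1, K1, hc1, -, hA1, hM1⟩ := specCH1 H W C T w ⊥ _ hT hst1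
  obtain ⟨S2, K2, hc2, -, hA2, hM2⟩ := specCH1 H W C T 0 D bet hT hst2
  have hi1 := h.st w S1 ⊥ K1 hc1
  have hi2 := h.st 0 S2 D K2 hc2
  unfold Iq at hi1 hi2
  rw [hA1, hM1] at hi1
  rw [hA2, hM2] at hi2
  rw [DIM.ncard_eq, DIM.ncard_eq, DIM.ncard_eq, DIM.ncard_eq, DIM.ncard_eq] at hcnt
  -- comparison of the sets
  have e1 : (setM C T w (⊥ : Subgroup H) fun _ => (1 : ℂ)).card ≤
      (T.filter fun r => ∃ R, MiH C w r R).card := by
    apply Finset.card_le_card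
    unfold setM
    intro r hr
    rw [Finset.mem_filter] at hr ⊢
    obtain ⟨hr, R, h1, h2, h3, h4, h5⟩ := hr
    refine ⟨hr, R, h1, h2, fun x hx y hy => ?_, fun t ht => (h3 t ht).1, fun g hg t ht => ?_⟩
    · have h6 := Subgroup.mem_bot.1 (h4 x hx y hy)
      have e : x * y = x * y * x⁻¹ * y⁻¹ * (y * x) := by group
      rw [e, h6, one_mul]
    · have h6 := h5 g ⟨hg, fun x _ => rfl⟩ t ht
      rwa [bot_sup_eq] at h6
  have e2 : (setM C T (0 : W) D bet).card ≤ (T.filter fun r => ∃ R, MiB C D bet r R).card := by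
    apply Finset.card_le_card
    unfold setM
    intro r hr
    rw [Finset.mem_filter] at hr ⊢
    obtain ⟨hr, R, h1, h2, h3, h4, h5⟩ := hr
    exact ⟨hr, R, h1, h2, fun t ht => (h3 t ht).2, h4, fun g hg => h5 g ⟨smul_zero g, hg⟩⟩
  have e3 : (T.filter fun r => ∀ R : Subgroup H, SylIn r ⊤ R → ∃ t ∈ R, t • w ≠ w).card ≤
      (setA T w (⊥ : Subgroup H) fun _ => (1 : ℂ)).card := by
    apply Finset.card_le_card
    unfold setA
    intro r hr
    rw [Finset.mem_filter] at hr ⊢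
    refine ⟨hr.1, fun R hR => ?_⟩
    obtain ⟨t, ht, h1⟩ := hr.2 R hR
    exact ⟨t, ht, fun h2 => h1 h2.1⟩
  have e4 : (T.filter fun r => ∀ R : Subgroup H, SylIn r ⊤ R → ∃ t ∈ R, ¬ FixB D bet t).card ≤
      (setA T (0 : W) D bet).card := by
    apply Finset.card_le_card
    unfold setA
    intro r hr
    rw [Finset.mem_filter] at hr ⊢
    refine ⟨hr.1, fun R hR => ?_⟩
    obtain ⟨t, ht, h1⟩ := hr.2 R hR
    exact ⟨t, ht, fun h2 => h1 h2.2⟩
  have e5 : (T.filter fun r => ∃ R : Subgroup H, SylIn r ⊤ R ∧ R.Normal ∧ R ≤ C ∧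
      (∀ x ∈ R, ∀ y ∈ R, x * y = y * x) ∧ ∀ t ∈ R, ∀ v : W, t • v = v).card = 0 := by
    rw [Finset.card_eq_zero, Finset.filter_eq_empty_iff]
    rintro r hr ⟨R, h1, -, h3, -, h5⟩
    have h6 : R = ⊥ := (Subgroup.eq_bot_iff_forall R).2 fun x hx => h.faith x (h3 hx) (h5 x hx)
    have h7 := h1.2.2
    rw [Subgroup.relIndex_top_right, h6, Subgroup.index_bot] at h7
    exact h7 (h.tp r hr).2
  rw [e5] at hcnt
  omega

end Pool.Agent.Lib.MPbe1941.X
end

section
/-!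
# MP_be1941_al EXACT, DII: Case II is impossible
-/
set_option autoImplicit false

namespace Pool.Agent.Lib.MPbe1941.X

open Pool.Agent.Lib.MPbe1941
open Pool.Agent.Lib.MPbe1941.XF

namespace DIIM

theorem cenX_bot {H X : Type} [Group H] [AddCommGroup X] [DistribMulAction H X]
    (C : Subgroup H) : CenX C (⊥ : AddSubgroup X) = C := by
  ext c
  constructor
  · intro h
    exact h.1
  · intro h
    refine ⟨h, fun x hx => ?_⟩
    rw [AddSubgroup.mem_bot] at hx
    rw [hx, smul_zero]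

theorem fixY_inv {H X : Type} [Group H] [AddCommGroup X] [DistribMulAction H X]
    (R0 : Subgroup H) (hn : R0.Normal) : HInv H (FixY X R0) := by
  intro h x hx t ht
  have h1 : h⁻¹ * t * h ∈ R0 := by
    have := hn.conj_mem t ht h⁻¹
    simpa using this
  have h2 : (h⁻¹ * t * h) • x = x := hx _ h1
  have h3 : t • h • x = h • ((h⁻¹ * t * h) • x) := by
    rw [smul_smul, smul_smul]
    congr 1
    group
  rw [h3, h2]

end DIIM

open DIIM in
theorem specDII (hDTS : SpecDTS) (hIRX : SpecIRX) (hFA3 : SpecFA3) (hFA4 : SpecFA4)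
    (hE9 : SpecE9) : SpecDII := by
  intro H X Zd _ _ _ _ _ C T p R h
  have := h.finH
  by_cases hA : ∀ r ∈ Pi0 Zd C T, ∀ R0 : Subgroup H, SylIn r ⊤ R0 → R0.Normal → R0 ≤ C →
      ∀ c ∈ CenX C (FixY X R0), ∀ μ : Zd, c • μ = μ
  · obtain ⟨D, K, b, N, hF, hN, hD⟩ := hFA3 H X Zd C T p R h hA
    exact hFA4 H X Zd C T p R h D K b N hF hN hD
  · push Not at hA
    obtain ⟨r, hr, R0, hS, hn, hC, c, hc, μ, hμ⟩ := hA
    classical
    rw [Pi0, Finset.mem_filter] at hr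
    obtain ⟨hrT, R1, hS1, hn1, hab1, hC1, hZ1⟩ := hr
    obtain ⟨hrp, hrd⟩ := h.tp r hrT
    have hR : R0 = R1 := CNTM.syl_unique hrp hS1 hS hn1
    subst hR
    have hne : R0 ≠ ⊥ := by
      rintro rfl
      apply hS.2.2
      rw [Subgroup.relIndex_top_right, Subgroup.index_bot]
      exact hrd
    obtain ⟨X1, hi, hX1, hd, hs, hirr⟩ := hIRX H X Zd C T p R h r hrT R0 hS hn hC hab1
    have hX2 : FixY X R0 = ⊥ := by
      by_contra hX2
      exact hμ (h.spl X1 (FixY X R0) hi (fixY_inv R0 hn) hd hs hX2 R0 hn hZ1 (by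
        intro x hx hfx
        have : x ∈ X1 ⊓ FixY X R0 := ⟨hx, hfx⟩
        rw [hd] at this
        exact (AddSubgroup.mem_bot).1 this) (fun u hu x hx => hx u hu) c hc.1 hc.2 μ)
    have hX1t : X1 = ⊤ := by
      rw [hX2, sup_bot_eq] at hs
      exact hs
    subst hX1t
    have hnt : ∃ t ∈ R0, ∃ x ∈ (⊤ : AddSubgroup X), t • x ≠ x := by
      by_contra hcon
      push Not at hcon
      apply hne
      rw [eq_bot_iff]
      intro t ht
      rw [Subgroup.mem_bot]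
      exact h.faith t (hC ht) fun x => hcon t ht x (AddSubgroup.mem_top x)
    have hTS := hDTS H X Zd C T p R h ⊤ ⊥ hi (by
      intro g x hx
      rw [AddSubgroup.mem_bot] at hx ⊢
      rw [hx, smul_zero]) (by simp) (by simp) hX1 (by
        intro A _ hAi
        exact hirr A le_top hAi) ⟨r, hrT, R0, hS, hn, hnt⟩ X (AddMonoidHom.id X)
        (fun a b hab => hab) (fun g y => rfl) (by
          ext x
          simp)
    rw [cenX_bot] at hTS
    exact hE9 H X Zd C T p R h hTS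

end Pool.Agent.Lib.MPbe1941.X
end

section
/-!
# MP_be1941_al, exact bound, module DTS: the setting `TS` for a direct summand
-/
set_option autoImplicit false

namespace Pool.Agent.Lib.MPbe1941.X

open Pool.Agent.Lib.MPbe1941

namespace DTSM

theorem sylIn_normal {H : Type} [Group H] {r : ℕ} [Finite H] (hr : r.Prime) {S S' : Subgroup H}
    (hS : SylIn r ⊤ S) (hn : S.Normal) (hS' : SylIn r ⊤ S') : S' = S := by
  obtain ⟨g, -, hg⟩ := (CO.specSYL H r hr).2.2.1 ⊤ S S' hS hS'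
  ext x
  rw [hg]
  constructor
  · intro h
    have := hn.conj_mem _ h g
    have e : g * (g⁻¹ * x * g) * g⁻¹ = x := by group
    rwa [e] at this
  · intro h
    have := hn.conj_mem _ h g⁻¹
    simpa using this

theorem cenX_normal {H X : Type} [Group H] [AddCommGroup X] [DistribMulAction H X]
    {C : Subgroup H} (hC : C.Normal) {A : AddSubgroup X} (hA : HInv H A) : (CenX C A).Normal := by
  constructor
  rintro n ⟨hn, hf⟩ g
  refine ⟨hC.conj_mem _ hn g, fun x hx => ?_⟩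
  rw [mul_smul, mul_smul, hf _ (hA g⁻¹ x hx), smul_inv_smul]

end DTSM

open DTSM in
theorem specDTS (hCH1 : SpecCH1) : SpecDTS := by
  intro H X Zd _ _ _ _ _ C T p R hd X1 X2 h1 h2 hinf hsup hne hirr hex Y _ _ ι hinj hι hran
  classical
  have hfH := hd.finH
  have hfX := hd.finX
  have hmem : ∀ y : Y, ι y ∈ X1 := fun y => by rw [← hran]; exact ⟨y, rfl⟩
  have hsurj : ∀ x ∈ X1, ∃ y : Y, ι y = x := fun x hx => by
    rw [← hran] at hx
    exact hx
  have hsm : ∀ (h : H) (y z : Y), h • y = z ↔ h • ι y = ι z := by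
    intro h y z
    rw [← hι]
    exact ⟨fun e => by rw [e], fun e => hinj e⟩
  -- invariant subgroups
  have hirrY : ∀ A : AddSubgroup Y, (∀ h : H, ∀ y ∈ A, h • y ∈ A) → A = ⊥ ∨ A = ⊤ := by
    intro A hA
    rcases hirr (A.map ι) (by
      rintro _ ⟨y, _, rfl⟩
      exact hmem y) (by
      rintro h _ ⟨y, hy, rfl⟩
      exact ⟨h • y, hA h y hy, hι h y⟩) with h | h
    · left
      rw [eq_bot_iff]
      intro y hy
      have : ι y ∈ A.map ι := ⟨y, hy, rfl⟩
      rw [h, AddSubgroup.mem_bot] at this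
      rw [AddSubgroup.mem_bot]
      exact hinj (by rw [this, map_zero])
    · right
      rw [eq_top_iff]
      intro y _
      have : ι y ∈ A.map ι := by rw [h]; exact hmem y
      obtain ⟨z, hz, hzy⟩ := this
      have := hinj hzy
      rwa [← this]
  refine
    { finH := hfH
      finX := Finite.of_injective ι hinj
      ntX := ?_
      sol := hd.sol
      pp := hd.pp
      pn := hd.pn
      px := ?_
      irr := hirrY
      nor := cenX_normal hd.nor h2
      faith := ?_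
      tp := hd.tp
      tight := ?_
      ne := ?_ }
  · by_contra hn
    rw [not_nontrivial_iff_subsingleton] at hn
    apply hne
    rw [eq_bot_iff]
    intro x hx
    obtain ⟨y, rfl⟩ := hsurj x hx
    rw [AddSubgroup.mem_bot, hn.elim y 0, map_zero]
  · intro y
    apply hinj
    rw [map_nsmul, map_zero]
    exact hd.px _
  · rintro c ⟨hc, hc2⟩ hcY
    refine hd.faith c hc fun x => ?_
    have hx : x ∈ X1 ⊔ X2 := by rw [hsup]; trivial
    obtain ⟨a, ha, b, hb, rfl⟩ := AddSubgroup.mem_sup.1 hx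
    obtain ⟨y, rfl⟩ := hsurj a ha
    rw [smul_add, hc2 b hb, ← hι, hcY y]
  · intro v D bet hst
    have hst' : StV (CenX C X2) (ι v) D bet := by
      refine ⟨hst.le, fun d hd' => (hsm d v v).1 (hst.fx d hd'), fun h hh => hst.nor h ((hsm h v v).2 hh),
        hst.ab, ?_, hst.lin⟩
      obtain ⟨K, hK, hDK, hdec⟩ := hst.cpl
      exact ⟨K, fun k hk => (hsm k v v).1 (hK k hk), hDK, fun h hh => hdec h ((hsm h v v).2 hh)⟩
    obtain ⟨S, K, hCh, -, hA, hM⟩ := hCH1 H X (CenX C X2) T (ι v) D bet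
      (fun r hr => (hd.tp r hr).1) hst'
    have hq := hd.stL X1 X2 h1 h2 hinf hsup (ι v) (hmem v) S D K
    have hCh' := hq (by
      have : Ch (CenX C X2) (Stb ⊤ (ι v)) S D K := hCh
      exact this)
    unfold Iq at hCh'
    rw [hA, hM, Nat.add_zero] at hCh'
    have hfx : ∀ h : H, FxS (ι v) D bet h ↔ FxS v D bet h := by
      intro h
      unfold FxS
      rw [← hsm h v v]
    have eA : setA T (ι v) D bet = setA T v D bet := by
      unfold setA KlS
      simp only [hfx]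
    have eM : setM (CenX C X2) T (ι v) D bet = setM (CenX C X2) T v D bet := by
      unfold setM MiS
      simp only [hfx]
    rwa [eA, eM] at hCh'
  · obtain ⟨r, hr, R0, hS, hn, t, ht, x, hx, htx⟩ := hex
    refine ⟨r, hr, fun v hv R' hR' => ?_⟩
    have hRR : R' = R0 := sylIn_normal (hd.tp r hr).1 hS hn hR'
    rw [hRR]
    by_contra hcon
    push Not at hcon
    rcases hirrY
      { carrier := {y | ∀ b ∈ R0, b • y = y}
        zero_mem' := fun b _ => smul_zero b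
        add_mem' := fun {x y} hx hy b hb => by rw [smul_add, hx b hb, hy b hb]
        neg_mem' := fun {x} hx b hb => by rw [smul_neg, hx b hb] } (by
      intro h y hy b hb
      have e1 := hy (h⁻¹ * b * h) (by
        have := hn.conj_mem b hb h⁻¹
        rwa [inv_inv] at this)
      have e2 : b • h • y = h • (h⁻¹ * b * h) • y := by
        rw [← mul_smul, ← mul_smul]
        congr 1
        group
      rw [e2, e1]) with h | h
    · apply hv
      have : v ∈ (⊥ : AddSubgroup Y) := by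
        rw [← h]
        exact hcon
      rwa [AddSubgroup.mem_bot] at this
    · obtain ⟨y, rfl⟩ := hsurj x hx
      apply htx
      have : y ∈ (⊤ : AddSubgroup Y) := trivial
      rw [← h] at this
      exact (hsm t y y).1 (this t ht)

end Pool.Agent.Lib.MPbe1941.X
end

section
/-!
Block U -> 9.5: the output of block U in the form needed by `SpecEND` (helper16).
-/
set_option autoImplicit false

namespace Pool.Agent.Lib.MPbe1941.X

open Pool.Agent.Lib.MPbe1941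
open Pool.Agent.Lib.MPbe1941.XF
open scoped commutatorElement

/-- Output of block U for `SpecEND`. -/
def SpecUFI : Prop :=
  ∀ (H X : Type) [Group H] [AddCommGroup X] [DistribMulAction H X] (p : ℕ) (C : Subgroup H)
    (T : Finset ℕ), TS H X p C T → PRP H X C T → Idx H T →
    ∃ (D R : Subgroup H) (Pi PN : Finset ℕ), D.Normal ∧ D ≤ C ∧
      (∃ g ∈ D, ∀ x ∈ D, ∃ n : ℤ, x = g ^ n) ∧ (D ⊔ R).Normal ∧
      Nat.Coprime (Nat.card D) (Nat.card R) ∧
      (∀ r ∈ Pi, r ∈ T ∧ r.Prime ∧ ∃ S : Subgroup H, SylIn r ⊤ S ∧ S ≤ R ∧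
        Nat.card X ≤ Nat.card (⁅D, S⁆ : Subgroup H) ^ 2) ∧
      (∀ r ∈ PN, r ∈ T ∧ r.Prime ∧ ∃ S : Subgroup H, SylIn r ⊤ S ∧ S.Normal ∧ S ≤ C ∧ S ≠ ⊥) ∧
      (∀ r ∈ T, ∀ S : Subgroup H, SylIn r ⊤ S → S ≤ C → r ∈ Pi ∨ r ∈ PN) ∧
      Pi.card = PN.card ∧ 0 < PN.card

namespace UFIM

theorem arith {n d q r : ℕ} (hq : 2 ≤ q) (hr : 2 ≤ r) (h1 : n - 1 = d * (q - 1))
    (h2 : n = q ^ r) : n ≤ d ^ 2 := by
  obtain ⟨m, rfl⟩ : ∃ m, q = m + 1 := ⟨q - 1, by omega⟩
  have hm : 1 ≤ m := by omega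
  have hq2 : (m + 1) ^ 2 ≤ n := by rw [h2]; exact Nat.pow_le_pow_right (by omega) hr
  have h1' : n = d * m + 1 := by
    have : 1 ≤ n := by nlinarith
    have e : m + 1 - 1 = m := by omega
    rw [e] at h1; omega
  -- d >= m + 2
  have hd : m + 2 ≤ d := by
    by_contra hc
    have : d ≤ m + 1 := by omega
    nlinarith [Nat.mul_le_mul_right m this]
  nlinarith [Nat.mul_le_mul_left d hd]

theorem sup_normal {H : Type} [Group H] {D R H1 : Subgroup H}
    (hH1D : ∀ y ∈ H1, ∀ d ∈ D, y * d = d * y) (hH1R : ∀ y ∈ H1, ∀ x ∈ R, y * x = x * y)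
    (hdec : ∀ h : H, ∃ d ∈ D, ∃ x ∈ R, ∃ y ∈ H1, h = d * x * y) : (D ⊔ R).Normal := by
  constructor
  intro n hn g
  obtain ⟨d, hd, x, hx, y, hy, rfl⟩ := hdec g
  have hle : D ⊔ R ≤ Subgroup.centralizer {y} := by
    refine sup_le (fun z hz => ?_) (fun z hz => ?_)
    · rw [Subgroup.mem_centralizer_singleton_iff]; exact (hH1D y hy z hz).symm
    · rw [Subgroup.mem_centralizer_singleton_iff]; exact (hH1R y hy z hz).symm
  have hc : n * y = y * n := Subgroup.mem_centralizer_singleton_iff.1 (hle hn)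
  have e : d * x * y * n * (d * x * y)⁻¹ = d * x * n * (d * x)⁻¹ := by
    have : y * n * y⁻¹ = n := by rw [← hc, mul_inv_cancel_right]
    calc d * x * y * n * (d * x * y)⁻¹ = d * x * (y * n * y⁻¹) * (d * x)⁻¹ := by group
      _ = _ := by rw [this]
  rw [e]
  have hdx : d * x ∈ D ⊔ R :=
    (D ⊔ R).mul_mem (Subgroup.mem_sup_left hd) (Subgroup.mem_sup_right hx)
  exact (D ⊔ R).mul_mem ((D ⊔ R).mul_mem hdx hn) ((D ⊔ R).inv_mem hdx)

end UFIM

theorem specUFI (hUEN : SpecUEN) : SpecUFI := by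
  classical
  intro H X _ _ _ p C T hTS hP hI
  obtain ⟨v, D, R, H1, dl, hcl, hU, hF, hX, hab, hsyl, hall, hcnt⟩ := hUEN H X p C T hTS hP hI
  have hfH : Finite H := hTS.finH
  have hfX : Finite X := hTS.finX
  have hnt : Nontrivial X := hTS.ntX
  refine ⟨D, R, kM C T v, PiN C T, hU.Dn, hU.DC, ⟨dl, ?_, fun x hx => ?_⟩,
    UFIM.sup_normal hU.H1D hU.H1R hU.dec, ?_, ?_, ?_, hsyl, hU.cMN, hU.pos⟩
  · rw [hU.Dg]; exact Subgroup.mem_zpowers dl
  · rw [hU.Dg] at hx
    obtain ⟨n, hn⟩ := Subgroup.mem_zpowers_iff.1 hx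
    exact ⟨n, hn.symm⟩
  · rw [hU.cR]
    refine Nat.Coprime.prod_right fun r hr => ?_
    exact (((hU.syl r hr).1.coprime_iff_not_dvd).2 (hU.cop r hr).1).symm
  · intro r hr
    obtain ⟨hrp, S, hSR, hS, hcS, -⟩ := hU.syl r hr
    have hrT : r ∈ T := by
      unfold kM at hr
      exact (Finset.mem_filter.1 hr).1
    refine ⟨hrT, hrp, S, hS, hSR, ?_⟩
    obtain ⟨h1, h2⟩ := hcnt r hr S hSR hS
    refine UFIM.arith ?_ hrp.two_le h1 h2
    by_contra hc
    have hle : Nat.card (FixY X S) ≤ 1 := by omega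
    have hX1 : Nat.card X ≤ 1 := by
      rw [h2]
      calc Nat.card (FixY X S) ^ r ≤ 1 ^ r := Nat.pow_le_pow_left hle r
        _ = 1 := one_pow r
    have := Finite.one_lt_card (α := X)
    omega
  · intro r hr
    have hr' := hr
    unfold PiN at hr'
    obtain ⟨hrT, S, hS, hSn, hSC, -⟩ := Finset.mem_filter.1 hr'
    obtain ⟨hrp, hrd⟩ := hTS.tp r hrT
    refine ⟨hrT, hrp, S, hS, hSn, hSC, ?_⟩
    rintro rfl
    refine hS.2.2 ?_
    rw [Subgroup.relIndex_top_right, Subgroup.index_bot]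
    exact hrd

end Pool.Agent.Lib.MPbe1941.X
end

section
/-!
# MP_be1941_al EXACT, block D: FA1
-/
set_option autoImplicit false

namespace Pool.Agent.Lib.MPbe1941.X

open Pool.Agent.Lib.MPbe1941

theorem specFA1 (hUBF : SpecUBF) : SpecFA1 := by
  classical
  intro H _ _ C T D K hn hle hcyc hinf hsup hcK hsyl hpd hcard
  obtain ⟨b, hb, hinj⟩ := hUBF H D hcyc
  have hab : ∀ x ∈ D, ∀ y ∈ D, x * y = y * x := by
    intro x hx y hy
    have h1 : (⟨x, hx⟩ : D) * ⟨y, hy⟩ = ⟨y, hy⟩ * ⟨x, hx⟩ := by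
      obtain ⟨g, hg⟩ := hcyc.exists_generator
      obtain ⟨i, hi⟩ := Subgroup.mem_zpowers_iff.1 (hg ⟨x, hx⟩)
      obtain ⟨j, hj⟩ := Subgroup.mem_zpowers_iff.1 (hg ⟨y, hy⟩)
      rw [← hi, ← hj]
      exact ((Commute.refl g).zpow_zpow i j).eq
    exact congrArg Subtype.val h1
  refine ⟨b, ⟨hn, hle, hab, hinf, hsup, hb, ?_, hcK, hsyl, ?_, hpd, hcard.le⟩⟩
  · intro h hfix
    rw [Subgroup.mem_centralizer_iff]
    intro x hx
    have hx' : h * x * h⁻¹ ∈ D := hn.conj_mem x hx h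
    have h1 : b (h * x * h⁻¹) = b x := hfix x hx
    have h2 : b (h * x * h⁻¹ * x⁻¹) = 1 := by
      rw [hb.2 _ hx' _ (D.inv_mem hx), h1, ← hb.2 _ hx _ (D.inv_mem hx), mul_inv_cancel, hb.1]
    have h3 := hinj _ (D.mul_mem hx' (D.inv_mem hx)) h2
    have h4 : h * x * h⁻¹ = x := by
      rw [mul_inv_eq_one] at h3
      exact h3
    rw [mul_inv_eq_iff_eq_mul] at h4
    exact h4.symm
  · intro r hr
    unfold PiN at hr
    exact (Finset.mem_filter.1 hr).1

end Pool.Agent.Lib.MPbe1941.X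
end

section
/-!
# Module FA2: union of two families with commuting disjoint groups
-/
set_option autoImplicit false

namespace Pool.Agent.Lib.MPbe1941.X

open Pool.Agent.Lib.MPbe1941
open Pool.Agent.Lib.MPbe1941.XF

namespace FA2M

variable {H : Type} [Group H]

/-- a product of two linear characters of commuting subgroups with trivial intersection -/
theorem exists_prod {D1 D2 : Subgroup H} (hinf : D1 ⊓ D2 = ⊥)
    (b1 b2 : H → ℂ) : ∃ b : H → ℂ, ∀ d1 ∈ D1, ∀ d2 ∈ D2, b (d1 * d2) = b1 d1 * b2 d2 := by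
  classical
  refine ⟨fun x => if h : ∃ d ∈ D1, d⁻¹ * x ∈ D2 then b1 h.choose * b2 (h.choose⁻¹ * x) else 0,
    fun d1 h1 d2 h2 => ?_⟩
  have h : ∃ d ∈ D1, d⁻¹ * (d1 * d2) ∈ D2 := ⟨d1, h1, by rwa [inv_mul_cancel_left]⟩
  simp only
  rw [dif_pos h]
  obtain ⟨h3, h4⟩ := h.choose_spec
  have h5 : h.choose⁻¹ * d1 ∈ D1 ⊓ D2 := by
    refine ⟨D1.mul_mem (D1.inv_mem h3) h1, ?_⟩
    have := D2.mul_mem h4 (D2.inv_mem h2)
    rwa [mul_assoc, mul_inv_cancel_right] at this
  rw [hinf, Subgroup.mem_bot, inv_mul_eq_one] at h5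
  rw [h5, inv_mul_cancel_left]

theorem dvd_index_inf {A B : Subgroup H} (hB : B.Normal) {r : ℕ} (hr : r.Prime)
    (h : r ∣ (A ⊓ B).index) : r ∣ A.index ∨ r ∣ B.index := by
  rw [← Subgroup.relIndex_mul_index (inf_le_left : A ⊓ B ≤ A), Subgroup.inf_relIndex_left] at h
  rcases hr.dvd_mul.1 h with h1 | h1
  · exact Or.inr (h1.trans (Subgroup.relIndex_dvd_index_of_normal B A))
  · exact Or.inl h1

theorem dvd_card_sup {A B : Subgroup H} (hA : A.Normal) {r : ℕ} (hr : r.Prime)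
    (h : r ∣ Nat.card (A ⊔ B : Subgroup H)) : r ∣ Nat.card A ∨ r ∣ Nat.card B := by
  have h1 : Nat.card A * A.relIndex (A ⊔ B) = Nat.card (A ⊔ B : Subgroup H) := by
    have h2 := Subgroup.relIndex_mul_relIndex ⊥ A (A ⊔ B) bot_le le_sup_left
    rwa [Subgroup.relIndex_bot_left, Subgroup.relIndex_bot_left] at h2
  rw [← h1, Subgroup.relIndex_sup_left] at h
  rcases hr.dvd_mul.1 h with h2 | h2
  · exact Or.inl h2
  · exact Or.inr (h2.trans (Subgroup.relIndex_dvd_card A B))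

theorem cen_sup (A B : Subgroup H) : Subgroup.centralizer ((A ⊔ B : Subgroup H) : Set H) =
    Subgroup.centralizer (A : Set H) ⊓ Subgroup.centralizer (B : Set H) := by
  refine le_antisymm (le_inf (Subgroup.centralizer_le (le_sup_left : A ≤ A ⊔ B))
    (Subgroup.centralizer_le (le_sup_right : B ≤ A ⊔ B))) ?_
  rintro h ⟨h1, h2⟩
  have h3 : A ⊔ B ≤ Subgroup.centralizer {h} := by
    refine sup_le (fun x hx => ?_) fun x hx => ?_
    · rw [Subgroup.mem_centralizer_iff]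
      rintro y rfl
      exact ((Subgroup.mem_centralizer_iff.1 h1) x hx).symm
    · rw [Subgroup.mem_centralizer_iff]
      rintro y rfl
      exact ((Subgroup.mem_centralizer_iff.1 h2) x hx).symm
  rw [Subgroup.mem_centralizer_iff]
  intro x hx
  exact ((Subgroup.mem_centralizer_iff.1 (h3 hx)) h rfl).symm

end FA2M

open FA2M in
theorem specFA2 : SpecFA2 := by
  classical
  intro H _ _ C1 C2 T D1 K1 D2 K2 b1 b2 N1 N2 hT hcm hinf F1 F2
  have hD21 : D2 ≤ K1 := fun h hh => F1.cK h fun c hc => (hcm c hc h (F2.le hh)).symm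
  have hD12 : D1 ≤ K2 := fun h hh => F2.cK h fun c hc => hcm h (F1.le hh) c hc
  have hcD : ∀ x ∈ D1, ∀ y ∈ D2, x * y = y * x := fun x hx y hy =>
    hcm x (F1.le hx) y (F2.le hy)
  have hDD : D1 ⊓ D2 = ⊥ := by
    rw [eq_bot_iff, ← hinf]
    exact inf_le_inf F1.le F2.le
  have hn1 : D1.Normal := F1.nor
  have hn2 : D2.Normal := F2.nor
  have hmem : ∀ {x : H}, x ∈ D1 ⊔ D2 ↔ ∃ y ∈ D1, ∃ z ∈ D2, y * z = x :=
    Subgroup.mem_sup_of_normal_left
  obtain ⟨b, hb⟩ := exists_prod hDD b1 b2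
  have hb1 : ∀ x ∈ D1, b x = b1 x := fun x hx => by
    have := hb x hx 1 D2.one_mem
    rwa [mul_one, F2.lin.1, mul_one] at this
  have hb2 : ∀ x ∈ D2, b x = b2 x := fun x hx => by
    have := hb 1 D1.one_mem x hx
    rwa [one_mul, F1.lin.1, one_mul] at this
  have hnc : (Subgroup.centralizer (D2 : Set H)).Normal := inferInstance
  refine ⟨b, ?_⟩
  refine
    { nor := Subgroup.sup_normal D1 D2
      le := sup_le_sup F1.le F2.le
      ab := ?_
      inf := ?_
      sup := ?_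
      lin := ?_
      fix := ?_
      cK := ?_
      syl := ?_
      nT := Finset.union_subset F1.nT F2.nT
      pd := ?_
      card := ?_ }
  · rintro x hx y hy
    obtain ⟨x1, hx1, x2, hx2, rfl⟩ := hmem.1 hx
    obtain ⟨y1, hy1, y2, hy2, rfl⟩ := hmem.1 hy
    have e1 := F1.ab x1 hx1 y1 hy1
    have e2 := F2.ab x2 hx2 y2 hy2
    have e3 := hcD y1 hy1 x2 hx2
    have e4 := hcD x1 hx1 y2 hy2
    calc x1 * x2 * (y1 * y2) = x1 * (x2 * y1) * y2 := by group
      _ = x1 * (y1 * x2) * y2 := by rw [e3]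
      _ = (x1 * y1) * (x2 * y2) := by group
      _ = (y1 * x1) * (y2 * x2) := by rw [e1, e2]
      _ = y1 * (x1 * y2) * x2 := by group
      _ = y1 * (y2 * x1) * x2 := by rw [e4]
      _ = y1 * y2 * (x1 * x2) := by group
  · rw [eq_bot_iff]
    rintro x ⟨hx, hx1, hx2⟩
    obtain ⟨d1, h1, d2, h2, rfl⟩ := hmem.1 hx
    have h3 : d1 ∈ D1 ⊓ K1 := by
      refine ⟨h1, ?_⟩
      have := K1.mul_mem hx1 (K1.inv_mem (hD21 h2))
      rwa [mul_inv_cancel_right] at this
    have h4 : d2 ∈ D2 ⊓ K2 := by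
      refine ⟨h2, ?_⟩
      have := K2.mul_mem (K2.inv_mem (hD12 h1)) hx2
      rwa [inv_mul_cancel_left] at this
    rw [F1.inf, Subgroup.mem_bot] at h3
    rw [F2.inf, Subgroup.mem_bot] at h4
    rw [h3, h4, mul_one]
    exact Subgroup.one_mem _
  · rw [eq_top_iff]
    intro h _
    have h1 : h ∈ D1 ⊔ K1 := by rw [F1.sup]; exact Subgroup.mem_top h
    obtain ⟨d1, hd1, k1, hk1, rfl⟩ := Subgroup.mem_sup_of_normal_left.1 h1
    have h2 : k1 ∈ D2 ⊔ K2 := by rw [F2.sup]; exact Subgroup.mem_top k1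
    obtain ⟨d2, hd2, k2, hk2, rfl⟩ := Subgroup.mem_sup_of_normal_left.1 h2
    have h3 : k2 ∈ K1 := by
      have := K1.mul_mem (K1.inv_mem (hD21 hd2)) hk1
      rwa [inv_mul_cancel_left] at this
    rw [← mul_assoc]
    exact Subgroup.mul_mem_sup (Subgroup.mul_mem_sup hd1 hd2) ⟨h3, hk2⟩
  · refine ⟨?_, ?_⟩
    · rw [hb1 1 D1.one_mem]
      exact F1.lin.1
    · rintro x hx y hy
      obtain ⟨x1, hx1, x2, hx2, rfl⟩ := hmem.1 hx
      obtain ⟨y1, hy1, y2, hy2, rfl⟩ := hmem.1 hy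
      have e3 := hcD y1 hy1 x2 hx2
      have e5 : x1 * x2 * (y1 * y2) = (x1 * y1) * (x2 * y2) := by
        calc x1 * x2 * (y1 * y2) = x1 * (x2 * y1) * y2 := by group
          _ = x1 * (y1 * x2) * y2 := by rw [e3]
          _ = (x1 * y1) * (x2 * y2) := by group
      rw [e5, hb _ (D1.mul_mem hx1 hy1) _ (D2.mul_mem hx2 hy2), hb _ hx1 _ hx2, hb _ hy1 _ hy2,
        F1.lin.2 _ hx1 _ hy1, F2.lin.2 _ hx2 _ hy2]
      ring
  · intro h hfix
    rw [cen_sup]
    refine ⟨F1.fix h fun x hx => ?_, F2.fix h fun x hx => ?_⟩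
    · rw [← hb1 _ (hn1.conj_mem x hx h), ← hb1 x hx]
      exact hfix x (Subgroup.mem_sup_left hx)
    · rw [← hb2 _ (hn2.conj_mem x hx h), ← hb2 x hx]
      exact hfix x (Subgroup.mem_sup_right hx)
  · intro h hh
    exact ⟨F1.cK h fun c hc => hh c (Subgroup.mem_sup_left hc),
      F2.cK h fun c hc => hh c (Subgroup.mem_sup_right hc)⟩
  · intro r hr hri S hS
    rw [cen_sup] at hri
    rcases dvd_index_inf hnc (hT r hr).1 hri with h1 | h1
    · exact (F1.syl r hr h1 S hS).trans le_sup_left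
    · exact (F2.syl r hr h1 S hS).trans le_sup_right
  · intro r hr hrd
    rcases dvd_card_sup hn1 (hT r hr).1 hrd with h1 | h1
    · exact Finset.mem_union_left _ (F1.pd r hr h1)
    · exact Finset.mem_union_right _ (F2.pd r hr h1)
  · have hdis : Disjoint (chA T (Subgroup.centralizer (D1 : Set H)))
        (chA T (Subgroup.centralizer (D2 : Set H))) := by
      rw [Finset.disjoint_left]
      intro r h1 h2
      have h1' := Finset.mem_filter.1 h1
      have h2' := Finset.mem_filter.1 h2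
      have hrT := h1'.1
      have hfact : Fact r.Prime := ⟨(hT r hrT).1⟩
      obtain ⟨S⟩ : Nonempty (Sylow r H) := inferInstance
      have hS : SylIn r ⊤ (S : Subgroup H) := by
        refine ⟨le_top, S.2, ?_⟩
        rw [Subgroup.relIndex_top_right]
        exact S.not_dvd_index
      have h3 : (S : Subgroup H) ≤ ⊥ := by
        rw [← hinf]
        exact le_inf (F1.syl r hrT h1'.2 _ hS) (F2.syl r hrT h2'.2 _ hS)
      rw [le_bot_iff] at h3
      have h4 := S.not_dvd_index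
      rw [h3, Subgroup.index_bot] at h4
      exact h4 (hT r hrT).2
    have hsub : chA T (Subgroup.centralizer (D1 : Set H)) ∪
        chA T (Subgroup.centralizer (D2 : Set H)) ⊆
        chA T (Subgroup.centralizer ((D1 ⊔ D2 : Subgroup H) : Set H)) := by
      intro r hr
      rw [cen_sup]
      rcases Finset.mem_union.1 hr with h1 | h1
      · have h1' := Finset.mem_filter.1 h1
        exact Finset.mem_filter.2 ⟨h1'.1, h1'.2.trans (Subgroup.index_dvd_of_le inf_le_left)⟩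
      · have h1' := Finset.mem_filter.1 h1
        exact Finset.mem_filter.2 ⟨h1'.1, h1'.2.trans (Subgroup.index_dvd_of_le inf_le_right)⟩
    calc (N1 ∪ N2).card ≤ N1.card + N2.card := Finset.card_union_le _ _
      _ ≤ (chA T (Subgroup.centralizer (D1 : Set H))).card +
          (chA T (Subgroup.centralizer (D2 : Set H))).card := Nat.add_le_add F1.card F2.card
      _ = (chA T (Subgroup.centralizer (D1 : Set H)) ∪
          chA T (Subgroup.centralizer (D2 : Set H))).card := (Finset.card_union_of_disjoint hdis).symm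
      _ ≤ _ := Finset.card_le_card hsub

end Pool.Agent.Lib.MPbe1941.X
end

section
/-!
# MP_be1941_al, exact bound, module FA4: the counting of 8.2
-/
set_option autoImplicit false

namespace Pool.Agent.Lib.MPbe1941.X

open Pool.Agent.Lib.MPbe1941

namespace FA4M

section

variable {H : Type} [Group H]

/-- decomposition of the elements of a join -/
theorem sup_dec {A B : Subgroup H} (h : ∀ b ∈ B, ∀ a ∈ A, b * a * b⁻¹ ∈ A) :
    ∀ x ∈ A ⊔ B, ∃ a ∈ A, ∃ b ∈ B, x = a * b := by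
  let P : Subgroup H :=
    { carrier := {x | ∃ a ∈ A, ∃ b ∈ B, x = a * b}
      one_mem' := ⟨1, A.one_mem, 1, B.one_mem, by simp⟩
      mul_mem' := by
        rintro _ _ ⟨a, ha, b, hb, rfl⟩ ⟨a', ha', b', hb', rfl⟩
        exact ⟨a * (b * a' * b⁻¹), A.mul_mem ha (h b hb a' ha'), b * b', B.mul_mem hb hb', by group⟩
      inv_mem' := by
        rintro _ ⟨a, ha, b, hb, rfl⟩
        exact ⟨b⁻¹ * a⁻¹ * b⁻¹⁻¹, h b⁻¹ (B.inv_mem hb) a⁻¹ (A.inv_mem ha), b⁻¹, B.inv_mem hb, by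
          group⟩ }
  have hle : A ⊔ B ≤ P := sup_le (fun a ha => ⟨a, ha, 1, B.one_mem, by simp⟩)
    fun b hb => ⟨1, A.one_mem, b, hb, by simp⟩
  exact fun x hx => hle hx

/-- an `r`-element `d k`, `d` and `k` commuting, `d` in `D`, `k ∈ K1`, `D ⊓ K1 = ⊥`, `r ∤ |D|` -/
theorem rel_one [Finite H] {D K1 : Subgroup H} (hinf : D ⊓ K1 = ⊥) {r : ℕ} (hr : r.Prime)
    (hrD : ¬ r ∣ Nat.card D) {d k : H} (hd : d ∈ D) (hk : k ∈ K1) (hc : d * k = k * d) {n : ℕ}
    (hn : (d * k) ^ r ^ n = 1) : d = 1 := by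
  have hC : Commute d k := hc
  rw [hC.mul_pow] at hn
  have h1 : d ^ r ^ n = 1 := by
    have : d ^ r ^ n ∈ D ⊓ K1 := by
      refine ⟨D.pow_mem hd _, ?_⟩
      rw [eq_inv_of_mul_eq_one_left hn]
      exact K1.inv_mem (K1.pow_mem hk _)
    rw [hinf, Subgroup.mem_bot] at this
    exact this
  have h2 : orderOf d ∣ r ^ n := orderOf_dvd_of_pow_eq_one h1
  have h3 : orderOf d ∣ Nat.card D := by
    have := orderOf_dvd_natCard (⟨d, hd⟩ : D)
    rwa [Subgroup.orderOf_mk] at this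
  have h4 : (r ^ n).Coprime (Nat.card D) := (hr.coprime_iff_not_dvd.2 hrD).pow_left n
  have h5 : orderOf d ∣ 1 := by
    have := Nat.dvd_gcd h2 h3
    rwa [h4] at this
  exact orderOf_eq_one_iff.1 (Nat.dvd_one.1 h5)

/-- the elements of `K` fixing `b` -/
def FixK (K D : Subgroup H) (b : H → ℂ) (h : ∀ k ∈ K, ∀ x ∈ D, k * x * k⁻¹ ∈ D) : Subgroup H where
  carrier := {k | k ∈ K ∧ FixB D b k}
  one_mem' := ⟨K.one_mem, fun x _ => by simp⟩
  mul_mem' := by
    rintro k l ⟨hk, hk'⟩ ⟨hl, hl'⟩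
    refine ⟨K.mul_mem hk hl, fun x hx => ?_⟩
    have e : k * l * x * (k * l)⁻¹ = k * (l * x * l⁻¹) * k⁻¹ := by group
    rw [e, hk' _ (h l hl x hx), hl' x hx]
  inv_mem' := by
    rintro k ⟨hk, hk'⟩
    refine ⟨K.inv_mem hk, fun x hx => ?_⟩
    have := hk' _ (h k⁻¹ (K.inv_mem hk) x hx)
    have e : k * (k⁻¹ * x * k⁻¹⁻¹) * k⁻¹ = x := by group
    rw [e] at this
    exact this.symm

theorem mem_stb {W : Type} [MulAction H W] (w : W) (g : H) : g ∈ Stb ⊤ w ↔ g • w = w :=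
  ⟨fun h => h.2, fun h => ⟨trivial, h⟩⟩

end

/-- minimal invariant subgroups -/
theorem exists_min {H Z : Type} [Group H] [AddCommGroup Z] [Finite Z] [Nontrivial Z]
    [DistribMulAction H Z] (J : Subgroup H) : ∃ W : AddSubgroup Z, W ≠ ⊥ ∧
      (∀ h ∈ J, ∀ x ∈ W, h • x ∈ W) ∧
      ∀ A : AddSubgroup Z, A ≤ W → (∀ h ∈ J, ∀ x ∈ A, h • x ∈ A) → A = ⊥ ∨ A = W := by
  have hfin : {W : AddSubgroup Z | W ≠ ⊥ ∧ ∀ h ∈ J, ∀ x ∈ W, h • x ∈ W}.Finite := Set.toFinite _
  obtain ⟨W, hW⟩ := hfin.exists_minimal ⟨⊤, top_ne_bot, fun _ _ _ _ => trivial⟩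
  refine ⟨W, hW.prop.1, hW.prop.2, fun A hA hA' => ?_⟩
  by_cases h : A = ⊥
  · exact Or.inl h
  · exact Or.inr (le_antisymm hA (hW.le_of_le ⟨h, hA'⟩ hA))

end FA4M

open FA4M in
theorem specFA4 (hREL : SpecREL) (hSYX : SpecSYX) : SpecFA4 := by
  intro H X Zd _ _ _ _ _ C T p R hd D K b N hf hP hDZ
  classical
  have hfH := hd.finH
  have hfX := hd.finX
  have hfZ := hd.finZ
  have hnZ := hd.ntZ
  have hDn := hf.nor
  set Z1 : Subgroup H := Subgroup.centralizer (D : Set H) with hZ1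
  have hZn : Z1.Normal := by
    rw [hZ1]
    infer_instance
  have hZc : ∀ h : H, h ∈ Z1 ↔ ∀ d ∈ D, d * h = h * d := fun h => by
    rw [hZ1, Subgroup.mem_centralizer_iff]
    rfl
  have hDZ1 : D ≤ Z1 := fun x hx => (hZc x).2 fun d hd' => hf.ab d hd' x hx
  set K1 : Subgroup H := Z1 ⊓ K with hK1
  have hK1Z : K1 ≤ Z1 := inf_le_left
  have hdecT : ∀ h : H, ∃ d ∈ D, ∃ k ∈ K, h = d * k := fun h =>
    sup_dec (fun b _ a ha => hDn.conj_mem a ha b) h (by rw [hf.sup]; trivial)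
  have hdec : ∀ h ∈ Z1, ∃ d ∈ D, ∃ k ∈ K1, h = d * k := by
    intro h hh
    obtain ⟨d, hd', k, hk, rfl⟩ := hdecT h
    refine ⟨d, hd', k, ⟨?_, hk⟩, rfl⟩
    have := Z1.mul_mem (Z1.inv_mem (hDZ1 hd')) hh
    rwa [inv_mul_cancel_left] at this
  have hDK1 : D ⊓ K1 = ⊥ := by
    rw [eq_bot_iff, ← hf.inf]
    exact fun x hx => ⟨hx.1, hx.2.2⟩
  have hcap : ∀ x ∈ D, x ∈ K1 → x = 1 := fun x h1 h2 => by
    have : x ∈ D ⊓ K1 := ⟨h1, h2⟩
    rwa [hDK1, Subgroup.mem_bot] at this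
  have hfixK : ∀ k, k ∈ K1 ↔ k ∈ K ∧ FixB D b k := by
    intro k
    constructor
    · intro hk
      refine ⟨hk.2, fun x hx => ?_⟩
      have := (hZc k).1 hk.1 x hx
      rw [← this, mul_inv_cancel_right]
    · rintro ⟨hk, hk'⟩
      exact ⟨hf.fix k hk', hk⟩
  -- `(D ⊔ B) ⊓ K1 = B`
  have hmod : ∀ B : Subgroup H, B ≤ K1 → ∀ x ∈ D ⊔ B, x ∈ K1 → x ∈ B := by
    intro B hB x hx hxK
    obtain ⟨d, hd', y, hy, rfl⟩ := sup_dec (fun b _ a ha => hDn.conj_mem a ha b) x hx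
    have : d = 1 := hcap d hd' (by
      have := K1.mul_mem hxK (K1.inv_mem (hB hy))
      rwa [mul_inv_cancel_right] at this)
    rw [this, one_mul]
    exact hy
  -- `r`-subgroups of `Z1`
  have hrK : ∀ r : ℕ, r.Prime → ¬ r ∣ Nat.card D → ∀ P : Subgroup H, IsPGroup r P → P ≤ Z1 →
      P ≤ K1 := by
    intro r hr hrD P hPp hPZ x hx
    obtain ⟨d, hd', k, hk, rfl⟩ := hdec x (hPZ hx)
    obtain ⟨n, hn⟩ := hPp ⟨d * k, hx⟩
    have hn' : (d * k) ^ r ^ n = 1 := by
      have := congrArg Subtype.val hn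
      simpa using this
    have : d = 1 := rel_one hDK1 hr hrD hd' hk ((hZc k).1 (hK1Z hk) d hd') hn'
    rw [this, one_mul]
    exact hk
  set a : Finset ℕ := chA T Z1 with ha
  have hamem : ∀ r, r ∈ a ↔ r ∈ T ∧ r ∣ Z1.index := fun r => by
    rw [ha, chA, Finset.mem_filter]
  set Tb : Finset ℕ := T.filter fun r => r ∉ a ∧ ¬ r ∣ Nat.card D with hTb
  have hTbmem : ∀ r, r ∈ Tb ↔ r ∈ T ∧ r ∉ a ∧ ¬ r ∣ Nat.card D := fun r => by
    rw [hTb, Finset.mem_filter]
  set Td : Finset ℕ := T.filter fun r => r ∉ a ∧ r ∣ Nat.card D with hTd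
  have hTdmem : ∀ r, r ∈ Td ↔ r ∈ T ∧ r ∉ a ∧ r ∣ Nat.card D := fun r => by
    rw [hTd, Finset.mem_filter]
  -- `REL`
  obtain ⟨W1, hW1, hW1i, hW1m⟩ := exists_min (Z := Zd) K1
  have hsolK : Group.IsSolvable K1 := by
    have := hd.sol
    infer_instance
  obtain ⟨μ, D', K2, β, hμ, hμ0, hD'C, hD'n, hD'ab, -, hK2, hD'K2, hD'sup, hlin, hcount⟩ :=
    hREL H Zd K1 (C ⊓ K1) W1 hsolK hW1 hW1i hW1m inf_le_right
      (fun h hh c hc => ⟨hd.nor.conj_mem c hc.1 h,
        K1.mul_mem (K1.mul_mem hh hc.2) (K1.inv_mem hh)⟩) Tb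
      (fun r hr => (hd.tp r ((hTbmem r).1 hr).1).1)
  have hD'K1 : D' ≤ K1 := fun x hx => (hD'C hx).2
  -- state (N)
  have hN0 : Ch C (Stb ⊤ μ) (⊥ ⊔ D ⊔ (K1 ⊓ Stb ⊤ μ)) (⊥ ⊔ D) (K1 ⊓ Stb ⊤ μ) := by
    refine Ch.step D (K ⊓ Stb ⊤ μ) (K1 ⊓ Stb ⊤ μ) b Ch.base ?_ hf.le hf.ab
      (fun k _ x hx => hDn.conj_mem x hx k) inf_le_right ?_ ?_ hf.lin ?_
    · exact fun x hx => (mem_stb μ x).2 (hDZ x hx μ)
    · rw [eq_bot_iff, ← hf.inf]
      exact fun x hx => ⟨hx.1, hx.2.1⟩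
    · apply le_antisymm
      · exact sup_le (fun x hx => (mem_stb μ x).2 (hDZ x hx μ)) inf_le_right
      · intro x hx
        obtain ⟨d, hd', k, hk, rfl⟩ := hdecT x
        refine Subgroup.mul_mem_sup hd' ⟨hk, ?_⟩
        have h1 : d⁻¹ ∈ Stb ⊤ μ := (mem_stb μ _).2 (hDZ _ (D.inv_mem hd') μ)
        have := (Stb ⊤ μ).mul_mem h1 hx
        rwa [inv_mul_cancel_left] at this
    · intro k
      constructor
      · rintro ⟨h1, h2⟩
        exact ⟨⟨((hfixK k).1 h1).1, h2⟩, ((hfixK k).1 h1).2⟩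
      · rintro ⟨⟨h1, h2⟩, h3⟩
        exact ⟨(hfixK k).2 ⟨h1, h3⟩, h2⟩
  rw [bot_sup_eq] at hN0
  have hIs := hd.stN μ 0 hμ0 (Stb ⊤ μ) (fun h => by
    rw [mem_stb, smul_zero, sub_zero]
    exact ⟨fun e => ⟨e, zero_mem _⟩, fun e => e.1⟩) _ _ _ hN0
  -- state (L)
  have hCX : CenX C (⊥ : AddSubgroup X) = C := by
    ext c
    constructor
    · exact fun h => h.1
    · intro h
      refine ⟨h, fun x hx => ?_⟩
      rw [AddSubgroup.mem_bot] at hx
      rw [hx, smul_zero]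
  have hS0 : Stb ⊤ (0 : X) = (⊤ : Subgroup H) := by
    rw [eq_top_iff]
    exact fun x _ => (mem_stb _ _).2 (smul_zero x)
  have hnK2 : ∀ k ∈ K2, ∀ x ∈ D', k * x * k⁻¹ ∈ D' := fun k hk x hx => hD'n k (hK2 hk) x hx
  set KK : Subgroup H := FixK K2 D' β hnK2 with hKK
  have hKKm : ∀ k, k ∈ KK ↔ k ∈ K2 ∧ FixB D' β k := fun k => Iff.rfl
  have hL0 : Ch C (⊤ : Subgroup H) (⊥ ⊔ D ⊔ D' ⊔ KK) (⊥ ⊔ D ⊔ D') KK := by
    refine Ch.step D' K2 KK β (Ch.step D K K1 b Ch.base le_top hf.le hf.ab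
      (fun k _ x hx => hDn.conj_mem x hx k) le_top hf.inf hf.sup hf.lin hfixK)
      hD'K1 (fun x hx => (hD'C hx).1) hD'ab hD'n hK2 hD'K2 hD'sup hlin hKKm
  rw [bot_sup_eq] at hL0
  have hIt := hd.stL ⊤ ⊥ (fun _ _ _ => trivial) (fun h x hx => by
    rw [AddSubgroup.mem_bot] at hx ⊢
    rw [hx, smul_zero]) (by simp) (by simp) 0 trivial (D ⊔ D' ⊔ KK) (D ⊔ D') KK (by
      rw [hCX, hS0]
      exact hL0)
  rw [hCX] at hIt
  unfold Iq at hIs hIt
  have hKKle : KK ≤ K1 := fun x hx => hK2 hx.1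
  set Ss : Subgroup H := D ⊔ (K1 ⊓ Stb ⊤ μ) with hSs
  set St : Subgroup H := D ⊔ D' ⊔ KK with hSt
  have hStassoc : St = D ⊔ (D' ⊔ KK) := by rw [hSt, sup_assoc]
  have hSsZ : Ss ≤ Z1 := sup_le hDZ1 (inf_le_left.trans hK1Z)
  have hStZ : St ≤ Z1 := sup_le (sup_le hDZ1 (hD'K1.trans hK1Z)) (hKKle.trans hK1Z)
  have hSsμ : Ss ≤ Stb ⊤ μ :=
    sup_le (fun x hx => (mem_stb μ x).2 (hDZ x hx μ)) inf_le_right
  -- elements of `D'` fix `β`
  have hfixD : ∀ d ∈ D', ∀ k, (∀ x ∈ D', k * x * k⁻¹ ∈ D') → (FixB D' β (d * k) ↔ FixB D' β k) := by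
    intro d hd' k hk
    have e : ∀ x ∈ D', d * k * x * (d * k)⁻¹ = k * x * k⁻¹ := by
      intro x hx
      have h1 := hD'ab d hd' _ (hk x hx)
      have h2 : d * k * x * (d * k)⁻¹ = d * (k * x * k⁻¹) * d⁻¹ := by group
      rw [h2, h1, mul_inv_cancel_right]
    constructor
    · intro h x hx
      have := h x hx
      rwa [e x hx] at this
    · intro h x hx
      rw [e x hx]
      exact h x hx
  -- elements of `St ⊓ K1` fix `β`
  have hStβ : ∀ x ∈ St, x ∈ K1 → FixB D' β x := by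
    intro x hx hxK
    rw [hStassoc] at hx
    have h1 := hmod (D' ⊔ KK) (sup_le hD'K1 hKKle) x hx hxK
    obtain ⟨d, hd', k, hk, rfl⟩ := sup_dec (A := D') (B := KK)
      (fun b hb a ha => hnK2 b ((hKKm b).1 hb).1 a ha) x h1
    exact (hfixD d hd' k (hnK2 k hk.1)).2 hk.2
  have hβSt : ∀ x ∈ K1, FixB D' β x → x ∈ St := by
    intro x hx hxβ
    rw [← hD'sup] at hx
    obtain ⟨d, hd', k, hk, rfl⟩ := sup_dec hnK2 x hx
    rw [hStassoc]
    refine Subgroup.mem_sup_right (Subgroup.mul_mem_sup hd' ?_)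
    exact ⟨hk, (hfixD d hd' k (hnK2 k hk)).1 hxβ⟩
  -- Sylow subgroups
  have hex : ∀ S : Subgroup H, ∀ r : ℕ, r.Prime → ¬ r ∣ S.index →
      ∃ P : Subgroup H, SylIn r ⊤ P ∧ P ≤ S := by
    intro S r hr hS
    rw [hSYX H S r hr] at hS
    push Not at hS
    exact hS
  have hnd : ∀ S P : Subgroup H, ∀ r : ℕ, r.Prime → SylIn r ⊤ P → P ≤ S → ¬ r ∣ S.index := by
    intro S P r hr hP1 hP2 hdv
    obtain ⟨h, hh, hn⟩ := (hSYX H S r hr).1 hdv P hP1
    exact hn (hP2 hh)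
  have hmid : ∀ P : Subgroup H, ∀ r : ℕ, r.Prime → SylIn r ⊤ P → ∀ S : Subgroup H, P ≤ S →
      SylIn r S P := fun P r hr hP1 S hS => (CO.specSYL H r hr).2.2.2.1 ⊤ S P hP1 hS le_top
  -- (1) lower bounds
  have hsubA : ∀ S : Subgroup H, S ≤ Z1 → a ⊆ chA T S := by
    intro S hS r hr
    rw [chA, Finset.mem_filter]
    exact ⟨((hamem r).1 hr).1, ((hamem r).1 hr).2.trans (Subgroup.index_dvd_of_le hS)⟩
  have hlow : ∀ S : Subgroup H, S ≤ Z1 → ∀ A' : Finset ℕ, A' ⊆ Tb →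
      (∀ r ∈ A', r ∣ S.index) → a.card + A'.card ≤ (chA T S).card := by
    intro S hS A' hA' hA
    rw [← Finset.card_union_of_disjoint]
    · apply Finset.card_le_card
      apply Finset.union_subset (hsubA S hS)
      intro r hr
      rw [chA, Finset.mem_filter]
      exact ⟨((hTbmem r).1 (hA' hr)).1, hA r hr⟩
    · rw [Finset.disjoint_left]
      intro r hr hr'
      exact ((hTbmem r).1 (hA' hr')).2.1 hr
  -- (2) upper bounds
  have hupp : ∀ S E : Subgroup H, S ≤ Z1 → ∀ M' : Finset ℕ,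
      (∀ r ∈ Tb, r ∈ chM C T S E → r ∈ M') → (chM C T S E).card ≤ Td.card + M'.card := by
    intro S E hS M' hM
    refine (Finset.card_le_card ?_).trans (Finset.card_union_le Td M')
    intro r hr
    rw [Finset.mem_union]
    have hr' := hr
    rw [chM, Finset.mem_filter] at hr'
    have hra : r ∉ a := fun h => hr'.2.1 (((hamem r).1 h).2.trans (Subgroup.index_dvd_of_le hS))
    by_cases hrD : r ∣ Nat.card D
    · exact Or.inl ((hTdmem r).2 ⟨hr'.1, hra, hrD⟩)
    · exact Or.inr (hM r ((hTbmem r).2 ⟨hr'.1, hra, hrD⟩) hr)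
  -- the five sets of REL
  have hfs : ∀ P : ℕ → Prop, Set.ncard {r | r ∈ Tb ∧ P r} = (Tb.filter P).card := by
    intro P
    rw [← Set.ncard_coe_finset]
    congr 1
    ext r
    simp
  rw [hfs, hfs, hfs, hfs, hfs] at hcount
  -- the state `s`
  have hA1 := hlow Ss hSsZ
    (Tb.filter fun r => ∀ T : Subgroup H, SylIn r K1 T → ∃ t ∈ T, t • μ ≠ μ)
    (Finset.filter_subset _ _) (by
      intro r hr
      rw [Finset.mem_filter] at hr
      obtain ⟨hr1, hr2⟩ := hr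
      obtain ⟨hrT, hra, hrD⟩ := (hTbmem r).1 hr1
      have hrp := (hd.tp r hrT).1
      by_contra hcon
      obtain ⟨P, hP1, hP2⟩ := hex Ss r hrp hcon
      have hPK : P ≤ K1 := hrK r hrp hrD P hP1.2.1 (hP2.trans hSsZ)
      obtain ⟨t, ht, htμ⟩ := hr2 P (hmid P r hrp hP1 K1 hPK)
      exact htμ ((mem_stb μ t).1 (hSsμ (hP2 ht))))
  have hM1 := hupp Ss D hSsZ
    (Tb.filter fun r => ∃ T, MiJ K1 (C ⊓ K1) μ r T) (by
      intro r hr hrM
      rw [Finset.mem_filter]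
      refine ⟨hr, ?_⟩
      obtain ⟨hrT, hra, hrD⟩ := (hTbmem r).1 hr
      have hrp := (hd.tp r hrT).1
      rw [chM, Finset.mem_filter] at hrM
      obtain ⟨-, -, P, hP1, hP2, hPC, hPc, hPn⟩ := hrM
      have hPK : P ≤ K1 := hrK r hrp hrD P hP1.2.1 (hP2.trans hSsZ)
      refine ⟨P, hmid P r hrp hP1 K1 hPK, fun x hx => ⟨hPC hx, hPK hx⟩, ?_, ?_, ?_⟩
      · intro x hx y hy
        have h1 := hPc x hx y hy
        have h2 : x * y * x⁻¹ * y⁻¹ = 1 := hcap _ h1
          (K1.mul_mem (K1.mul_mem (K1.mul_mem (hPK hx) (hPK hy)) (K1.inv_mem (hPK hx)))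
            (K1.inv_mem (hPK hy)))
        have h3 : x * y * x⁻¹ * y⁻¹ * y * x = x * y := by group
        rw [h2, one_mul] at h3
        exact h3.symm
      · exact fun t ht => (mem_stb μ t).1 (hSsμ (hP2 ht))
      · intro h hh hhμ t ht
        have h1 : h ∈ Ss := Subgroup.mem_sup_right ⟨hh, (mem_stb μ h).2 hhμ⟩
        exact hmod P hPK _ (hPn h h1 t ht)
          (K1.mul_mem (K1.mul_mem hh (hPK ht)) (K1.inv_mem hh)))
  -- the state `t`
  have hA2 := hlow St hStZ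
    (Tb.filter fun r => ∀ T : Subgroup H, SylIn r K1 T → ∃ t ∈ T, ¬ FixB D' β t)
    (Finset.filter_subset _ _) (by
      intro r hr
      rw [Finset.mem_filter] at hr
      obtain ⟨hr1, hr2⟩ := hr
      obtain ⟨hrT, hra, hrD⟩ := (hTbmem r).1 hr1
      have hrp := (hd.tp r hrT).1
      by_contra hcon
      obtain ⟨P, hP1, hP2⟩ := hex St r hrp hcon
      have hPK : P ≤ K1 := hrK r hrp hrD P hP1.2.1 (hP2.trans hStZ)
      obtain ⟨t, ht, htβ⟩ := hr2 P (hmid P r hrp hP1 K1 hPK)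
      exact htβ (hStβ t (hP2 ht) (hPK ht)))
  have hM2 := hupp St (D ⊔ D') hStZ
    (Tb.filter fun r => ∃ T, MiBJ K1 (C ⊓ K1) D' β r T) (by
      intro r hr hrM
      rw [Finset.mem_filter]
      refine ⟨hr, ?_⟩
      obtain ⟨hrT, hra, hrD⟩ := (hTbmem r).1 hr
      have hrp := (hd.tp r hrT).1
      rw [chM, Finset.mem_filter] at hrM
      obtain ⟨-, -, P, hP1, hP2, hPC, hPc, hPn⟩ := hrM
      have hPK : P ≤ K1 := hrK r hrp hrD P hP1.2.1 (hP2.trans hStZ)
      refine ⟨P, hmid P r hrp hP1 K1 hPK, fun x hx => ⟨hPC hx, hPK hx⟩, ?_, ?_, ?_⟩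
      · exact fun t ht => hStβ t (hP2 ht) (hPK ht)
      · intro x hx y hy
        exact hmod D' hD'K1 _ (hPc x hx y hy)
          (K1.mul_mem (K1.mul_mem (K1.mul_mem (hPK hx) (hPK hy)) (K1.inv_mem (hPK hx)))
            (K1.inv_mem (hPK hy)))
      · intro h hh hhβ t ht
        have h1 : h ∈ St := hβSt h hh hhβ
        have h2 := hPn h h1 t ht
        rw [sup_assoc] at h2
        exact hmod (D' ⊔ P) (sup_le hD'K1 hPK) _ h2
          (K1.mul_mem (K1.mul_mem hh (hPK ht)) (K1.inv_mem hh)))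
  -- the relative `Π₀₀`
  set P0 : Finset ℕ := Tb.filter fun r => ∃ T : Subgroup H, SylIn r K1 T ∧
          (∀ h ∈ K1, ∀ t ∈ T, h * t * h⁻¹ ∈ T) ∧ T ≤ C ⊓ K1 ∧ (∀ x ∈ T, ∀ y ∈ T, x * y = y * x) ∧
          ∀ t ∈ T, ∀ v ∈ W1, t • v = v with hP0
  have hsubN : P0 ⊆ N := by
    intro r hr
    apply hP
    rw [hP0, Finset.mem_filter] at hr
    obtain ⟨hr1, Q, hQ, hQn, hQC, hQab, hQW⟩ := hr
    obtain ⟨hrT, hra, hrD⟩ := (hTbmem r).1 hr1
    have hrp := (hd.tp r hrT).1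
    obtain ⟨hsy1, hsy2, hsy3, hsy4, hsy5, hsy6, -⟩ := CO.specSYL H r hrp
    have hri : ¬ r ∣ Z1.index := fun h => hra ((hamem r).2 ⟨hrT, h⟩)
    obtain ⟨P, hP1, hP2⟩ := hex Z1 r hrp hri
    have hPK : P ≤ K1 := hrK r hrp hrD P hP1.2.1 hP2
    have hPK' : SylIn r K1 P := hmid P r hrp hP1 K1 hPK
    obtain ⟨g, hg, hgQ⟩ := hsy3 K1 P Q hPK' hQ
    have hQs : SylIn r ⊤ Q := hsy6 ⊤ P Q hP1 g trivial hgQ
    have hQK : Q ≤ K1 := hQ.1
    -- `Q` is normalised by `Z1`
    have hQZ : ∀ h ∈ Z1, ∀ t ∈ Q, h * t * h⁻¹ ∈ Q := by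
      intro h hh t ht
      obtain ⟨d, hd', k, hk, rfl⟩ := hdec h hh
      have h1 : k * t * k⁻¹ ∈ Q := hQn k hk t ht
      have h2 := (hZc _).1 (hK1Z (hQK h1)) d hd'
      have h3 : d * k * t * (d * k)⁻¹ = d * (k * t * k⁻¹) * d⁻¹ := by group
      rw [h3, h2, mul_inv_cancel_right]
      exact h1
    have hQnor : Q.Normal := by
      constructor
      intro n hn g
      -- the conjugate of `Q`
      have hg6 := hsy6 ⊤ Q (Q.map (MulAut.conj g).toMonoidHom) hQs g trivial (by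
        intro x
        constructor
        · rintro ⟨y, hy, rfl⟩
          have : g⁻¹ * (MulAut.conj g).toMonoidHom y * g = y := by
            change g⁻¹ * (g * y * g⁻¹) * g = y
            group
          rw [this]
          exact hy
        · intro hx
          refine ⟨_, hx, ?_⟩
          change g * (g⁻¹ * x * g) * g⁻¹ = x
          group)
      have hle : Q.map (MulAut.conj g).toMonoidHom ≤ Z1 := by
        rintro _ ⟨y, hy, rfl⟩
        exact hZn.conj_mem y (hK1Z (hQK hy)) g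
      obtain ⟨z, hz, hzQ⟩ := hsy3 Z1 Q _ (hmid Q r hrp hQs Z1 (hQK.trans hK1Z))
        (hmid _ r hrp hg6 Z1 hle)
      have h1 : g * n * g⁻¹ ∈ Q.map (MulAut.conj g).toMonoidHom := ⟨n, hn, rfl⟩
      have h2 := (hzQ _).1 h1
      have h3 := hQZ z hz _ h2
      have h4 : z * (z⁻¹ * (g * n * g⁻¹) * z) * z⁻¹ = g * n * g⁻¹ := by group
      rwa [h4] at h3
    rw [Pi0, Finset.mem_filter]
    refine ⟨hrT, Q, hQs, hQnor, hQab, fun x hx => (hQC hx).1, ?_⟩
    -- `Q` is trivial on `Zd`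
    let A : AddSubgroup Zd :=
      { carrier := {y | ∀ t ∈ Q, t • y = y}
        zero_mem' := fun t _ => smul_zero t
        add_mem' := fun {x y} hx hy t ht => by rw [smul_add, hx t ht, hy t ht]
        neg_mem' := fun {x} hx t ht => by rw [smul_neg, hx t ht] }
    have hAinv : HInv H A := by
      intro h y hy t ht
      have e1 := hy (h⁻¹ * t * h) (by
        have := hQnor.conj_mem t ht h⁻¹
        rwa [inv_inv] at this)
      have e2 : t • h • y = h • (h⁻¹ * t * h) • y := by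
        rw [← mul_smul, ← mul_smul]
        congr 1
        group
      rw [e2, e1]
    have hA : A = ⊤ := by
      rcases hd.irr A hAinv with h | h
      · exfalso
        apply hW1
        rw [eq_bot_iff, ← h]
        exact fun x hx t ht => hQW t ht x hx
      · exact h
    intro t ht ν
    have : ν ∈ A := by rw [hA]; trivial
    exact this t ht
  have hTdN : Td ⊆ N := fun r hr => hf.pd r ((hTdmem r).1 hr).1 ((hTdmem r).1 hr).2.2
  have hcardN : Td.card + P0.card ≤ a.card := by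
    refine le_trans ?_ hf.card
    rw [← Finset.card_union_of_disjoint]
    · exact Finset.card_le_card (Finset.union_subset hTdN hsubN)
    · rw [Finset.disjoint_left]
      intro r hr hr'
      exact ((hTbmem r).1 (Finset.mem_filter.1 hr').1).2.2 ((hTdmem r).1 hr).2.2
  omega

end Pool.Agent.Lib.MPbe1941.X
end

section
/-!
# Module Q8T: `3 ∈ M(v)` and `R` non-trivial on `P_2`
-/
set_option autoImplicit false

namespace Pool.Agent.Lib.MPbe1941.X

open Pool.Agent.Lib.MPbe1941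

namespace Q8TM

variable {H X : Type} [Group H] [AddCommGroup X] [DistribMulAction H X]

/-- `s` normalises `P` and commutes with `B`: it normalises `N_P(B)` -/
theorem conj_mem_Nz {P B : Subgroup H} {s : H} (hP : ∀ x ∈ P, s * x * s⁻¹ ∈ P)
    (hB : ∀ b ∈ B, s * b = b * s) {n : H} (hn : n ∈ Nz P B) : s * n * s⁻¹ ∈ Nz P B := by
  have h1 : ∀ b ∈ B, s * b * s⁻¹ = b := fun b hb => by
    rw [hB b hb, mul_inv_cancel_right]
  have h2 : ∀ b ∈ B, s⁻¹ * b * s = b := fun b hb => by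
    rw [mul_assoc, ← hB b hb, inv_mul_cancel_left]
  refine ⟨hP n hn.1, fun b => ⟨fun hb => ?_, fun hb => ?_⟩⟩
  · have h3 : s * n * s⁻¹ * b * (s * n * s⁻¹)⁻¹ = s * (n * (s⁻¹ * b * s) * n⁻¹) * s⁻¹ := by group
    have h4 := (hn.2 b).1 hb
    rw [h3, h2 b hb, h1 _ h4]
    exact h4
  · have h3 : n * (s⁻¹ * b * s) * n⁻¹ = s⁻¹ * (s * n * s⁻¹ * b * (s * n * s⁻¹)⁻¹) * s := by group
    have h4 : s⁻¹ * b * s ∈ B := by
      rw [hn.2, h3, h2 _ hb]
      exact hb
    have h5 := h1 _ h4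
    have h6 : s * (s⁻¹ * b * s) * s⁻¹ = b := by group
    rw [h6] at h5
    rw [h5]
    exact h4

/-- a non-trivial `r`-subgroup -/
theorem dvd_card [Finite H] {r : ℕ} (hr : r.Prime) {P : Subgroup H} (hP : IsPGroup r P) {x : H}
    (hx : x ∈ P) (h1 : x ≠ 1) : r ∣ Nat.card H := by
  have : Fact r.Prime := ⟨hr⟩
  obtain ⟨n, hn⟩ := IsPGroup.iff_card.1 hP
  have h0 : n ≠ 0 := by
    rintro rfl
    rw [pow_zero] at hn
    have := Subgroup.card_eq_one.1 hn
    rw [this, Subgroup.mem_bot] at hx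
    exact h1 hx
  exact ((dvd_pow_self r h0).trans (by rw [← hn])).trans (Subgroup.card_subgroup_dvd_card P)

end Q8TM

open Q8TM in
/-- **Q8T** -/
theorem specQ8T (hQSF : SpecQSF) : SpecQ8T := by
  classical
  intro H X _ _ _ p C T h hP v hv h3T R hR hnt
  have : Finite H := h.finH
  have : Finite X := h.finX
  have hCn := h.nor
  have hO2 : ∀ g : H, ∀ x ∈ Oc 2 C, g * x * g⁻¹ ∈ Oc 2 C := fun g =>
    OCFM.Oc_inv fun n hn => hCn.conj_mem n hn g
  have hOF : Oc 2 C ≤ Fit C := le_sSup ⟨2, Nat.prime_two, rfl⟩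
  have hStb : ∀ w : X, Stb (Oc 2 C) w ≤ Stb (Fit C) w := fun w b hb => ⟨hOF hb.1, hb.2⟩
  obtain ⟨-, i, hi, j, hj, hii, hjj, hij, hN⟩ := hP.two v 3 R hv h3T hR (by norm_num) hnt
  have hvY : v ∈ FixY X (Stb (Fit C) v) := fun b hb => hb.2
  have hY : FixY X (Stb (Fit C) v) ≠ ⊥ := by
    intro h0
    rw [h0] at hvY
    exact hv.1 hvY
  have hNY : ∀ n ∈ Nz (Oc 2 C) (Stb (Oc 2 C) v), ∀ y ∈ FixY X (Stb (Fit C) v),
      n • y ∈ FixY X (Stb (Fit C) v) := fun n hn y hy =>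
    (((hP.sem v hv y hy).2 2 Nat.prime_two).2 n hn).1
  have hp3 : p ≠ 3 := by
    rintro rfl
    exact h.pn (h.tp 3 h3T).2
  have hp2 : p ≠ 2 := by
    rintro rfl
    obtain ⟨x, hx, y, hy, hne⟩ := hnt
    refine h.pn (dvd_card Nat.prime_two (OCFM.Oc_mem 2 C).2.1 hy ?_)
    rintro rfl
    exact hne (by rw [mul_one, one_mul])
  obtain ⟨V, hVY, hV, hQ⟩ := hQSF H X p h.pp hp2 hp3 h.px (FixY X (Stb (Fit C) v))
    (Nz (Oc 2 C) (Stb (Oc 2 C) v)) i j hY hNY hi hj hii hjj hij hN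
  obtain ⟨w, hwV, hw0⟩ : ∃ w ∈ V, w ≠ 0 := by
    by_contra hcon
    push Not at hcon
    exact hV ((AddSubgroup.eq_bot_iff_forall V).2 hcon)
  have hwY := hVY hwV
  obtain ⟨hw1, hw2⟩ := (hP.sem v hv w hwY).1 hw0
  have hw3 := ((hP.sem v hv w hwY).2 2 Nat.prime_two).1 hw0
  by_cases hM : ∃ R', MiH C w 3 R'
  · obtain ⟨R', hR'⟩ := hM
    -- `R'` is non-trivial on `P_2`
    have hnt' : NtOn R' (Oc 2 C) := by
      obtain ⟨g, -, hg⟩ := (CO.specSYL H 3 Nat.prime_three).2.2.1 ⊤ R R' hR.1 hR'.1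
      obtain ⟨x, hx, y, hy, hne⟩ := hnt
      refine ⟨g * x * g⁻¹, (hg _).2 (by
        have : g⁻¹ * (g * x * g⁻¹) * g = x := by group
        rwa [this]), g * y * g⁻¹, hO2 g y hy, ?_⟩
      intro h0
      apply hne
      have h1 : g * (x * y) * g⁻¹ = g * (y * x) * g⁻¹ := by
        calc g * (x * y) * g⁻¹ = g * x * g⁻¹ * (g * y * g⁻¹) := by group
          _ = g * y * g⁻¹ * (g * x * g⁻¹) := h0
          _ = g * (y * x) * g⁻¹ := by group
      exact mul_left_cancel (mul_right_cancel h1)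
    obtain ⟨s, hs, n, hn, y, hy, hne⟩ := hP.nz w 3 R' hw1 h3T hR' 2 Nat.prime_two hnt'
    rw [hw3] at hn
    rw [hw2] at hy
    have hcop := (hP.cop w 3 R' hw1 h3T hR').2
    have hsN : ∀ n ∈ Nz (Oc 2 C) (Stb (Oc 2 C) v), s * n * s⁻¹ ∈ Nz (Oc 2 C) (Stb (Oc 2 C) v) := by
      intro n hn
      refine conj_mem_Nz (hO2 s) (fun b hb => hcop s hs b ?_) hn
      rw [← hw3] at hb
      exact hStb w hb
    obtain ⟨k, hk⟩ := hR'.1.2.1 ⟨s, hs⟩
    have hk' : s ^ 3 ^ k = 1 := by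
      have := congrArg Subtype.val hk
      simpa using this
    obtain ⟨v', hv'V, m, c, hc, hcne⟩ := hQ w hwV hw0 s ⟨k, hk'⟩ (hR'.2.2.2.1 s hs) hsN
      ⟨n, hn, y, hy, hne⟩
    have hv'0 : v' ≠ 0 := by
      rintro rfl
      exact hcne (smul_zero _)
    obtain ⟨h1, h2⟩ := (hP.sem v hv v' (hVY hv'V)).1 hv'0
    refine ⟨v', h1, h2, ?_⟩
    rintro ⟨R'', hR''⟩
    have hsm : (s ^ m) ^ 3 ^ k = 1 := by
      rw [← pow_mul, mul_comm, pow_mul, hk', one_pow]
    obtain ⟨u, hu, hune⟩ := XEIG.eig Nat.prime_three hsm (c := (c : ℤ))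
      (by rw [natCast_zsmul]; exact hc) hcne hR''.1
    exact hune (hR''.2.2.2.1 u hu)
  · exact ⟨w, hw1, hw2, hM⟩

end Pool.Agent.Lib.MPbe1941.X
end

section
/-!
# MP_be1941_al EXACT, block U: UBF
-/
set_option autoImplicit false

namespace Pool.Agent.Lib.MPbe1941.X

open Pool.Agent.Lib.MPbe1941

open Classical in
theorem specUBF : SpecUBF := by
  intro H _ _ D hD
  have hn : NeZero (Nat.card D) := ⟨Nat.card_pos.ne'⟩
  have hcard : Nat.card D = Nat.card (rootsOfUnity (Nat.card D) ℂ) := by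
    rw [Complex.card_rootsOfUnity]
  let e : D ≃* rootsOfUnity (Nat.card D) ℂ := mulEquivOfCyclicCardEq hcard
  let bet : H → ℂ := fun x => if h : x ∈ D then (((e ⟨x, h⟩ : rootsOfUnity (Nat.card D) ℂ) : ℂˣ) : ℂ)
    else 1
  have hb : ∀ (x : H) (h : x ∈ D), bet x =
      (((e ⟨x, h⟩ : rootsOfUnity (Nat.card D) ℂ) : ℂˣ) : ℂ) := fun x h => dif_pos h
  refine ⟨bet, ⟨?_, ?_⟩, ?_⟩
  · rw [hb 1 D.one_mem]
    have h1 : (⟨1, D.one_mem⟩ : D) = 1 := rfl
    rw [h1, map_one]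
    rfl
  · intro x hx y hy
    rw [hb _ (D.mul_mem hx hy), hb x hx, hb y hy]
    have h1 : (⟨x * y, D.mul_mem hx hy⟩ : D) = ⟨x, hx⟩ * ⟨y, hy⟩ := rfl
    rw [h1, map_mul]
    rfl
  · intro x hx h
    rw [hb x hx] at h
    have h1 : e ⟨x, hx⟩ = 1 := by
      apply Subtype.ext
      apply Units.ext
      exact h
    have h2 : (⟨x, hx⟩ : D) = 1 := by
      rw [← map_one e] at h1
      exact e.injective h1
    exact congrArg Subtype.val h2

end Pool.Agent.Lib.MPbe1941.X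
end

section
/-!
# Module UFB: basic facts on the ring generated by `D`

`a ^ (p ^ k) = a` for all `a ∈ F`, if `p ^ k ≡ 1` modulo `|D|` (Frobenius).
-/
set_option autoImplicit false

namespace Pool.Agent.Lib.MPbe1941.X

open Pool.Agent.Lib.MPbe1941

namespace UFBM

variable {H X : Type} [Group H] [AddCommGroup X] [DistribMulAction H X]

theorem end_comm {D : Subgroup H} (hD : ∀ x ∈ D, ∀ y ∈ D, x * y = y * x) :
    ∀ a ∈ Fd X D, ∀ b ∈ Fd X D, a * b = b * a := by
  set s : Set (AddMonoid.End X) := {f | ∃ d ∈ D, f = DistribMulAction.toAddMonoidEnd H X d} with hs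
  have h1 : Subring.closure s ≤ Subring.centralizer s := by
    rw [Subring.closure_le]
    rintro _ ⟨x, hx, rfl⟩
    rw [SetLike.mem_coe, Subring.mem_centralizer_iff]
    rintro _ ⟨y, hy, rfl⟩
    rw [← map_mul, ← map_mul, hD x hx y hy]
  have h2 : Subring.closure s ≤ Subring.centralizer (Subring.closure s : Set (AddMonoid.End X)) := by
    rw [Subring.closure_le]
    intro f hf
    rw [SetLike.mem_coe, Subring.mem_centralizer_iff]
    intro g hg
    have h3 := h1 hg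
    rw [Subring.mem_centralizer_iff] at h3
    exact (h3 f hf).symm
  intro a ha b hb
  have h3 := h2 ha
  rw [Subring.mem_centralizer_iff] at h3
  exact (h3 b hb).symm

theorem conj_end {D : Subgroup H} (hD : D.Normal) (h : H) {a : AddMonoid.End X}
    (ha : a ∈ Fd X D) : ∃ b ∈ Fd X D, ∀ x : X, h • a x = b (h • x) := by
  unfold Fd at ha
  induction ha using Subring.closure_induction with
  | mem f hf =>
    obtain ⟨d, hd, rfl⟩ := hf
    refine ⟨DistribMulAction.toAddMonoidEnd H X (h * d * h⁻¹),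
      Subring.subset_closure ⟨_, hD.conj_mem d hd h, rfl⟩, fun x => ?_⟩
    show h • d • x = (h * d * h⁻¹) • h • x
    rw [← mul_smul, ← mul_smul, inv_mul_cancel_right]
  | zero => exact ⟨0, (Fd X D).zero_mem, fun x => smul_zero h⟩
  | one => exact ⟨1, (Fd X D).one_mem, fun x => rfl⟩
  | add a a' _ _ iha iha' =>
    obtain ⟨b, hb, h1⟩ := iha
    obtain ⟨b', hb', h2⟩ := iha'
    refine ⟨b + b', (Fd X D).add_mem hb hb', fun x => ?_⟩
    show h • (a x + a' x) = b (h • x) + b' (h • x)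
    rw [smul_add, h1, h2]
  | neg a _ iha =>
    obtain ⟨b, hb, h1⟩ := iha
    refine ⟨-b, (Fd X D).neg_mem hb, fun x => ?_⟩
    show h • (-(a x)) = -(b (h • x))
    rw [smul_neg, h1]
  | mul a a' _ _ iha iha' =>
    obtain ⟨b, hb, h1⟩ := iha
    obtain ⟨b', hb', h2⟩ := iha'
    refine ⟨b * b', (Fd X D).mul_mem hb hb', fun x => ?_⟩
    show h • a (a' x) = b (b' (h • x))
    rw [h1, h2]

theorem comm_end {D : Subgroup H} {h : H} (hc : ∀ d ∈ D, h * d = d * h) {a : AddMonoid.End X}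
    (ha : a ∈ Fd X D) : ∀ x : X, h • a x = a (h • x) := by
  unfold Fd at ha
  induction ha using Subring.closure_induction with
  | mem f hf =>
    obtain ⟨d, hd, rfl⟩ := hf
    intro x
    show h • d • x = d • h • x
    rw [← mul_smul, ← mul_smul, hc d hd]
  | zero => intro x; exact smul_zero h
  | one => intro x; rfl
  | add a a' _ _ h1 h2 =>
    intro x
    show h • (a x + a' x) = a (h • x) + a' (h • x)
    rw [smul_add, h1, h2]
  | neg a _ h1 =>
    intro x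
    show h • (-(a x)) = -(a (h • x))
    rw [smul_neg, h1]
  | mul a a' _ _ h1 h2 =>
    intro x
    show h • a (a' x) = a (a' (h • x))
    rw [h1, h2]

/-- the Frobenius map -/
theorem frob [Finite H] [Nontrivial X] {p : ℕ} {D : Subgroup H} (hp : p.Prime)
    (hpH : ¬ p ∣ Nat.card H) (hpX : ∀ x : X, p • x = 0)
    (hD : ∀ x ∈ D, ∀ y ∈ D, x * y = y * x) :
    ∃ k : ℕ, 0 < k ∧ ∀ a ∈ Fd X D, a ^ p ^ k = a := by
  have hpD : Nat.Coprime p (Nat.card D) := by
    rw [Nat.Prime.coprime_iff_not_dvd hp]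
    exact fun h => hpH (h.trans (Subgroup.card_subgroup_dvd_card D))
  have hchar : CharP (AddMonoid.End X) p := by
    have h1 : (p : AddMonoid.End X) = 0 := by
      ext x
      show (p : AddMonoid.End X) x = 0
      rw [AddMonoid.End.natCast_apply]
      exact hpX x
    obtain ⟨q, hq⟩ := CharP.exists (AddMonoid.End X)
    have h2 : q ∣ p := (CharP.cast_eq_zero_iff (AddMonoid.End X) q p).1 h1
    rcases (Nat.dvd_prime hp).1 h2 with h3 | h3
    · subst h3
      exfalso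
      have h4 := (CharP.cast_eq_zero_iff (AddMonoid.End X) 1 1).2 (dvd_refl 1)
      rw [Nat.cast_one] at h4
      obtain ⟨x, hx⟩ := exists_ne (0 : X)
      exact hx (DFunLike.congr_fun h4 x)
    · rwa [h3] at hq
  have : Fact p.Prime := ⟨hp⟩
  have hk0 : 0 < Nat.totient (Nat.card D) := Nat.totient_pos.2 Nat.card_pos
  refine ⟨Nat.totient (Nat.card D), hk0, ?_⟩
  set k := Nat.totient (Nat.card D) with hk
  have hq0 : p ^ k ≠ 0 := pow_ne_zero _ hp.ne_zero
  have hadd : ∀ a ∈ Fd X D, ∀ b ∈ Fd X D, (a + b) ^ p ^ k = a ^ p ^ k + b ^ p ^ k := by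
    intro a ha b hb
    exact add_pow_char_pow_of_commute p k (end_comm hD a ha b hb)
  intro a ha
  have ha' : a ∈ Subring.closure {f : AddMonoid.End X | ∃ d ∈ D,
      f = DistribMulAction.toAddMonoidEnd H X d} := ha
  clear ha
  induction ha' using Subring.closure_induction with
  | mem f hf =>
    obtain ⟨d, hd, rfl⟩ := hf
    rw [← map_pow]
    congr 1
    have h1 : p ^ k ≡ 1 [MOD Nat.card D] := Nat.ModEq.pow_totient hpD
    have h2 : orderOf d ∣ Nat.card D := by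
      have := orderOf_dvd_natCard (⟨d, hd⟩ : D)
      rwa [Subgroup.orderOf_mk] at this
    have h3 := pow_eq_pow_iff_modEq.2 (h1.of_dvd h2)
    rwa [pow_one] at h3
  | zero => exact zero_pow hq0
  | one => exact one_pow _
  | add a b ha hb h1 h2 => rw [hadd a ha b hb, h1, h2]
  | neg a ha h1 =>
    have h2 := hadd a ha (-a) ((Fd X D).neg_mem ha)
    rw [add_neg_cancel, zero_pow hq0, h1] at h2
    exact (neg_eq_of_add_eq_zero_right h2.symm).symm
  | mul a b ha hb h1 h2 =>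
    rw [(show Commute a b from end_comm hD a ha b hb).mul_pow, h1, h2]

end UFBM

open UFBM in
/-- **UFB** -/
theorem specUFB : SpecUFB := by
  intro H X _ _ _ _ _ p D hp hpH hpX hDn hD
  refine ⟨end_comm hD, fun h a ha => conj_end hDn h ha, fun h hc a ha => comm_end hc ha, ?_, ?_⟩
  · intro a ha h0
    rcases subsingleton_or_nontrivial X with hs | hn
    · ext x
      exact Subsingleton.elim _ _
    · obtain ⟨k, hk, hf⟩ := frob hp hpH hpX hD
      have h2 : 2 ≤ p ^ k := hp.two_le.trans (Nat.le_self_pow hk.ne' p)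
      obtain ⟨m, hm⟩ := Nat.exists_eq_add_of_le h2
      rw [← hf a ha, hm, pow_add, pow_two, h0, zero_mul]
  · intro a ha h0
    rcases subsingleton_or_nontrivial X with hs | hn
    · exfalso
      apply h0
      ext x
      exact Subsingleton.elim _ _
    · obtain ⟨k, hk, hf⟩ := frob hp hpH hpX hD
      have h2 : 2 ≤ p ^ k := hp.two_le.trans (Nat.le_self_pow hk.ne' p)
      obtain ⟨m, hm⟩ := Nat.exists_eq_add_of_le h2
      have h3 : a ^ (m + 1) * a = a := by
        have := hf a ha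
        rw [hm, show 2 + m = m + 1 + 1 by ring, pow_succ] at this
        exact this
      refine ⟨m + 1, Nat.succ_pos m, ?_, ?_⟩
      · have h4 : a ^ (m + 1) * a ^ (m + 1) = a ^ (m + 1) * a * a ^ m := by
          rw [mul_assoc, ← pow_succ']
        rw [h4, h3, ← pow_succ']
      · intro h4
        rw [h4, zero_mul] at h3
        exact h0 h3.symm

end Pool.Agent.Lib.MPbe1941.X
end

section
/-!
# Module UCM: EXACT 9.4, first part
-/
set_option autoImplicit false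

namespace Pool.Agent.Lib.MPbe1941.X

open Pool.Agent.Lib.MPbe1941

namespace UCMM

variable {H X : Type} [Group H] [AddCommGroup X] [DistribMulAction H X]

/-- the additive closure of `D v` is `F v` -/
theorem exists_end {D : Subgroup H} {v x : X}
    (hx : x ∈ AddSubgroup.closure {x : X | ∃ d ∈ D, x = d • v}) : ∃ a ∈ Fd X D, a v = x := by
  induction hx using AddSubgroup.closure_induction with
  | mem x hx =>
    obtain ⟨d, hd, rfl⟩ := hx
    exact ⟨DistribMulAction.toAddMonoidEnd H X d, Subring.subset_closure ⟨d, hd, rfl⟩, rfl⟩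
  | zero => exact ⟨0, (Fd X D).zero_mem, rfl⟩
  | add x y _ _ hx hy =>
    obtain ⟨a, ha, rfl⟩ := hx
    obtain ⟨b, hb, rfl⟩ := hy
    exact ⟨a + b, (Fd X D).add_mem ha hb, rfl⟩
  | neg x _ hx =>
    obtain ⟨a, ha, rfl⟩ := hx
    exact ⟨-a, (Fd X D).neg_mem ha, rfl⟩

/-- an element which commutes with `D` acts as an element of `F`, if `X = F v` -/
theorem acts {D : Subgroup H} (hD : ∀ x ∈ D, ∀ y ∈ D, x * y = y * x) {v : X}
    (htop : AddSubgroup.closure {x : X | ∃ d ∈ D, x = d • v} = ⊤) {c : H}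
    (hc : ∀ d ∈ D, c * d = d * c) : ∃ a ∈ Fd X D, ∀ x : X, c • x = a x := by
  obtain ⟨a, ha, hav⟩ := exists_end (D := D) (v := v) (x := c • v) (by
    rw [htop]
    exact AddSubgroup.mem_top _)
  refine ⟨a, ha, fun x => ?_⟩
  obtain ⟨b, hb, rfl⟩ := exists_end (D := D) (v := v) (x := x) (by
    rw [htop]
    exact AddSubgroup.mem_top _)
  rw [UFBM.comm_end hc hb v, ← hav]
  have := DFunLike.congr_fun (UFBM.end_comm hD b hb a ha) v
  exact this

variable {p : ℕ} {C : Subgroup H} {T : Finset ℕ} {v : X} {D R H1 : Subgroup H} {dl : H}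

theorem D_comm (h : US H X p C T v D R H1 dl) : ∀ x ∈ D, ∀ y ∈ D, x * y = y * x := by
  intro x hx y hy
  rw [h.Dg] at hx hy
  obtain ⟨i, rfl⟩ := hx
  obtain ⟨j, rfl⟩ := hy
  exact (Commute.refl dl).zpow_zpow i j

theorem E_comm (h : US H X p C T v D R H1 dl)
    (htop : AddSubgroup.closure {x : X | ∃ d ∈ D, x = d • v} = ⊤) {c c' : H}
    (hc : c ∈ C) (hc' : c' ∈ C) (hcD : ∀ d ∈ D, c * d = d * c) (hcD' : ∀ d ∈ D, c' * d = d * c') :
    c * c' = c' * c := by
  obtain ⟨a, ha, h1⟩ := acts (D_comm h) htop hcD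
  obtain ⟨b, hb, h2⟩ := acts (D_comm h) htop hcD'
  have h3 : ∀ x : X, (c * c' * (c' * c)⁻¹) • x = x := by
    have h4 : ∀ x : X, (c * c') • x = (c' * c) • x := by
      intro x
      rw [mul_smul, mul_smul, h1, h2, h1, h2]
      exact DFunLike.congr_fun (UFBM.end_comm (D_comm h) a ha b hb) x
    intro x
    rw [mul_smul, h4, smul_inv_smul]
  have h5 := h.ts.faith (c * c' * (c' * c)⁻¹) (C.mul_mem (C.mul_mem hc hc')
    (C.inv_mem (C.mul_mem hc' hc))) h3
  exact mul_inv_eq_one.1 h5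

/-- `x` is the component in `R` of `h` -/
def Rc (D H1 : Subgroup H) (h x : H) : Prop := ∃ d ∈ D, ∃ y ∈ H1, h = d * x * y

theorem Rc_mul (h : US H X p C T v D R H1 dl) {g g' x x' : H} (_hx : x ∈ R) (hx' : x' ∈ R)
    (h1 : Rc D H1 g x) (h2 : Rc D H1 g' x') : Rc D H1 (g * g') (x * x') := by
  obtain ⟨d, hd, y, hy, rfl⟩ := h1
  obtain ⟨d', hd', y', hy', rfl⟩ := h2
  refine ⟨d * (x * d' * x⁻¹), D.mul_mem hd (h.Dn.conj_mem d' hd' x), y * y', H1.mul_mem hy hy', ?_⟩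
  have e1 : y * d' = d' * y := h.H1D y hy d' hd'
  have e2 : y * x' = x' * y := h.H1R y hy x' hx'
  calc d * x * y * (d' * x' * y') = d * x * (y * d') * x' * y' := by group
    _ = d * x * d' * (y * x') * y' := by rw [e1]; group
    _ = d * (x * d' * x⁻¹) * (x * x') * (y * y') := by rw [e2]; group

theorem Rc_pow (h : US H X p C T v D R H1 dl) {g x : H} (hx : x ∈ R) (h1 : Rc D H1 g x) (n : ℕ) :
    Rc D H1 (g ^ n) (x ^ n) := by
  induction n with
  | zero => exact ⟨1, D.one_mem, 1, H1.one_mem, by simp⟩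
  | succ n ih =>
    rw [pow_succ, pow_succ]
    exact Rc_mul h (R.pow_mem hx n) hx ih h1

end UCMM

open UCMM in
/-- **UCM** -/
theorem specUCM : SpecUCM := by
  classical
  intro H X _ _ _ p C T v D R H1 dl h htop
  have hts := h.ts
  have : Finite H := hts.finH
  have : Finite X := hts.finX
  have hCn := hts.nor
  have hRC := h.RC
  have hDc := D_comm h
  have hcD : ∀ c ∈ C ⊓ H1, ∀ d ∈ D, c * d = d * c := fun c hc d hd => h.H1D c hc.2 d hd
  have h1 : ∀ x ∈ C ⊓ H1, ∀ y ∈ C ⊓ H1, x * y = y * x := fun x hx y hy =>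
    E_comm h htop hx.1 hy.1 (hcD x hx) (hcD y hy)
  -- elements of `E = D (C ⊓ H1)`
  have hEmem : ∀ d ∈ D, ∀ y ∈ C ⊓ H1, d * y ∈ C ∧ ∀ d' ∈ D, d * y * d' = d' * (d * y) := by
    intro d hd y hy
    refine ⟨C.mul_mem (h.DC hd) hy.1, fun d' hd' => ?_⟩
    rw [mul_assoc, hcD y hy d' hd', ← mul_assoc, hDc d hd d' hd', mul_assoc]
  have hEconj : ∀ g : H, ∀ d ∈ D, ∀ y ∈ C ⊓ H1, ∃ d' ∈ D, ∃ y' ∈ C ⊓ H1,
      g * (d * y) * g⁻¹ = d' * y' := by
    intro g d hd y hy
    refine ⟨g * d * g⁻¹, h.Dn.conj_mem d hd g, g * y * g⁻¹, ⟨hCn.conj_mem y hy.1 g, ?_⟩, by group⟩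
    obtain ⟨d', hd', x', hx', y', hy', rfl⟩ := h.dec g
    have e1 : y' * y * y'⁻¹ ∈ H1 := H1.mul_mem (H1.mul_mem hy' hy.2) (H1.inv_mem hy')
    have e2 : d' * x' * y' * y * (d' * x' * y')⁻¹ = y' * y * y'⁻¹ := by
      have e3 : x' * (y' * y * y'⁻¹) * x'⁻¹ = y' * y * y'⁻¹ := by
        rw [← h.H1R _ e1 x' hx', mul_inv_cancel_right]
      have e4 : d' * (y' * y * y'⁻¹) * d'⁻¹ = y' * y * y'⁻¹ := by
        rw [← h.H1D _ e1 d' hd', mul_inv_cancel_right]
      calc d' * x' * y' * y * (d' * x' * y')⁻¹ =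
          d' * (x' * (y' * y * y'⁻¹) * x'⁻¹) * d'⁻¹ := by group
        _ = y' * y * y'⁻¹ := by rw [e3, e4]
    rw [e2]
    exact e1
  have h2 : ∀ r ∈ T, ∀ S : Subgroup H, SylIn r ⊤ S → S ≤ C → r ∈ kM C T v ∨ r ∈ PiN C T := by
    intro r hr S hS hSC
    by_cases hrM : r ∈ kM C T v
    · exact Or.inl hrM
    right
    obtain ⟨hrp, hrd⟩ := hts.tp r hr
    have : Fact r.Prime := ⟨hrp⟩
    -- `r` does not divide `|R|`
    have hrR : Nat.Coprime r (Nat.card R) := by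
      rw [h.cR]
      apply Nat.Coprime.prod_right
      intro q hq
      rw [Nat.coprime_primes hrp (h.syl q hq).1]
      rintro rfl
      exact hrM hq
    have hLE : ∀ s ∈ S, ∃ k : ℕ, s ^ r ^ k = 1 := by
      intro s hs
      obtain ⟨k, hk⟩ := hS.2.1 ⟨s, hs⟩
      exact ⟨k, congrArg Subtype.val hk⟩
    have hSE : ∀ s ∈ S, ∃ d ∈ D, ∃ y ∈ C ⊓ H1, s = d * y := by
      intro s hs
      obtain ⟨d, hd, x, hx, y, hy, hsd⟩ := h.dec s
      obtain ⟨k, hk⟩ := hLE s hs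
      obtain ⟨d', hd', y', hy', e⟩ := Rc_pow h hx ⟨d, hd, y, hy, hsd⟩ (r ^ k)
      rw [hk] at e
      have hx1 := (h.unq d' hd' (x ^ r ^ k) (R.pow_mem hx _) y' hy' e.symm).2.1
      have hx2 : x ^ Nat.card R = 1 := by
        have h3 : (⟨x, hx⟩ : R) ^ Nat.card R = 1 := pow_card_eq_one'
        exact congrArg Subtype.val h3
      have hx3 : x = 1 := by
        have h4 : orderOf x = 1 := Nat.eq_one_of_dvd_coprimes (Nat.Coprime.pow_left k hrR)
          (orderOf_dvd_of_pow_eq_one hx1) (orderOf_dvd_of_pow_eq_one hx2)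
        exact orderOf_eq_one_iff.1 h4
      rw [hx3, mul_one] at hsd
      refine ⟨d, hd, y, ⟨?_, hy⟩, hsd⟩
      have : y = d⁻¹ * s := by rw [hsd, inv_mul_cancel_left]
      rw [this]
      exact C.mul_mem (C.inv_mem (h.DC hd)) (hSC hs)
    have hEab : ∀ s ∈ S, ∀ d ∈ D, ∀ y ∈ C ⊓ H1, s * (d * y) = d * y * s := by
      intro s hs d hd y hy
      obtain ⟨d', hd', y', hy', rfl⟩ := hSE s hs
      exact E_comm h htop (hEmem d' hd' y' hy').1 (hEmem d hd y hy).1 (hEmem d' hd' y' hy').2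
        (hEmem d hd y hy).2
    unfold PiN
    rw [Finset.mem_filter]
    refine ⟨hr, S, hS, ⟨?_⟩, hSC, ?_⟩
    · intro s hs g
      obtain ⟨d', hd', y', hy', e⟩ : ∃ d' ∈ D, ∃ y' ∈ C ⊓ H1, g * s * g⁻¹ = d' * y' := by
        obtain ⟨d, hd, y, hy, rfl⟩ := hSE s hs
        exact hEconj g d hd y hy
      obtain ⟨k, hk⟩ := hLE s hs
      have hcomm : ∀ t ∈ S, t * (g * s * g⁻¹) = g * s * g⁻¹ * t := by
        intro t ht
        rw [e]
        exact hEab t ht d' hd' y' hy'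
      refine PAAM.mem_syl hrp hS ⟨k, by rw [conj_pow, hk, mul_one, mul_inv_cancel]⟩ ?_ ?_
      · intro t ht
        rw [← hcomm t ht, mul_inv_cancel_right]
        exact ht
      · intro t ht
        rw [mul_assoc, hcomm t ht, inv_mul_cancel_left]
        exact ht
    · intro s hs t ht
      obtain ⟨d, hd, y, hy, e⟩ := hSE t ht
      rw [e]
      exact hEab s hs d hd y hy
  refine ⟨h1, h2, fun w hw => ?_⟩
  -- the normal Sylow subgroups kill `w`
  have hNk : ∀ r ∈ PiN C T, r ∈ T ∧ Kl H w r := by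
    intro r hr
    unfold PiN at hr
    rw [Finset.mem_filter] at hr
    obtain ⟨hrT, R', hR', hn, hC, -⟩ := hr
    obtain ⟨hrp, hrd⟩ := hts.tp r hrT
    obtain ⟨-, -, hconj, -, -, -, -, hne, -⟩ := CO.specSYL H r hrp
    refine ⟨hrT, fun R'' hR'' => ?_⟩
    by_contra hcon
    push Not at hcon
    obtain ⟨g, -, hg⟩ := hconj ⊤ R' R'' hR' hR''
    have hfix : ∀ t ∈ R', t • w = w := by
      intro t ht
      apply hcon
      rw [hg]
      have := hn.conj_mem t ht g⁻¹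
      rwa [inv_inv] at this
    let A : AddSubgroup X := FixY X R'
    have hA : ∀ g : H, ∀ x ∈ A, g • x ∈ A := by
      intro g x hx t ht
      have h3 := hn.conj_mem t ht g⁻¹
      rw [inv_inv] at h3
      have h4 : (g⁻¹ * t * g) • x = x := hx _ h3
      have h5 : t • g • x = g • (g⁻¹ * t * g) • x := by
        rw [← mul_smul, ← mul_smul]
        congr 1
        group
      rw [h5, h4]
    rcases hts.irr A hA with h3 | h3
    · have : w ∈ A := hfix
      rw [h3] at this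
      exact hw this
    · apply hne R' hR' hrd
      rw [Subgroup.eq_bot_iff_forall]
      intro t ht
      apply hts.faith t (hC ht)
      intro x
      have : x ∈ A := by
        rw [h3]
        exact AddSubgroup.mem_top x
      exact this t ht
  have hsub : PiN C T ⊆ kA H T w := by
    intro r hr
    rw [mem_kA]
    exact hNk r hr
  have hsub2 : kM C T w ⊆ kM C T v := by
    intro r hr
    obtain ⟨hrT, S, hS⟩ := mem_kM.1 hr
    rcases h2 r hrT S hS.1 hS.2.1 with h3 | h3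
    · exact h3
    · obtain ⟨t, ht, hne⟩ := (hNk r h3).2 S hS.1
      exact absurd (hS.2.2.2.1 t ht) hne
  have hc1 := Finset.card_le_card hsub
  have hc2 := ((specCNB H X p C T hts).2 w hw).2
  have hc3 := Finset.card_le_card hsub2
  have hc4 := h.cMN
  exact ⟨Finset.eq_of_subset_of_card_le hsub2 (by omega),
    (Finset.eq_of_subset_of_card_le hsub (by omega)).symm⟩

end Pool.Agent.Lib.MPbe1941.X
end

section
/-!
# MP_be1941_al EXACT, block U, module UEQ: EXACT 7.1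
-/
set_option autoImplicit false

namespace Pool.Agent.Lib.MPbe1941.X

open Pool.Agent.Lib.MPbe1941

namespace UEQM

open PAAM FTNM

variable {H X : Type} [Group H] [AddCommGroup X] [DistribMulAction H X]

theorem mem_PiN {C : Subgroup H} {T : Finset ℕ} {r : ℕ} :
    r ∈ PiN C T ↔ r ∈ T ∧ ∃ R : Subgroup H, SylIn r ⊤ R ∧ R.Normal ∧ R ≤ C ∧
      ∀ x ∈ R, ∀ y ∈ R, x * y = y * x := by
  classical exact Finset.mem_filter

/-- for an injective linear character of the normal subgroup `D`, the stabiliser is the centraliser -/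
theorem fixB_iff {D : Subgroup H} (hD : D.Normal) {bet : H → ℂ} (hlin : Lin D bet)
    (hinj : ∀ x ∈ D, bet x = 1 → x = 1) (h : H) :
    FixB D bet h ↔ h ∈ Subgroup.centralizer (D : Set H) := by
  rw [Subgroup.mem_centralizer_iff]
  constructor
  · intro hf x hx
    have hy := hD.conj_mem x hx h
    have h1 : bet (h * x * h⁻¹ * x⁻¹) = 1 := by
      rw [hlin.2 _ hy _ (D.inv_mem hx), hf x hx, ← hlin.2 x hx _ (D.inv_mem hx), mul_inv_cancel,
        hlin.1]
    have h2 := hinj _ (D.mul_mem hy (D.inv_mem hx)) h1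
    rw [mul_inv_eq_one, mul_inv_eq_iff_eq_mul] at h2
    exact h2.symm
  · intro hc x hx
    rw [← hc x hx, mul_inv_cancel_right]

/-- a normal Sylow subgroup in `C` kills every non-zero vector -/
theorem kl_of_normal {p : ℕ} {C : Subgroup H} {T : Finset ℕ} (hts : TS H X p C T) {r : ℕ}
    (hr : r ∈ PiN C T) {w : X} (hw : w ≠ 0) : Kl H w r := by
  have : Finite H := hts.finH
  obtain ⟨hrT, R', hR', hn, hC, -⟩ := mem_PiN.1 hr
  obtain ⟨hrp, hrd⟩ := hts.tp r hrT
  obtain ⟨-, -, hconj, -, -, -, -, hne, -⟩ := CO.specSYL H r hrp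
  intro R'' hR''
  by_contra hcon
  push Not at hcon
  obtain ⟨g, -, hg⟩ := hconj ⊤ R' R'' hR' hR''
  have hfix : ∀ t ∈ R', t • w = w := by
    intro t ht
    apply hcon
    rw [hg]
    have := hn.conj_mem t ht g⁻¹
    rwa [inv_inv] at this
  let A : AddSubgroup X := FixY X R'
  have hA : ∀ g : H, ∀ x ∈ A, g • x ∈ A := by
    intro g x hx t ht
    have h3 := hn.conj_mem t ht g⁻¹
    rw [inv_inv] at h3
    have h4 : (g⁻¹ * t * g) • x = x := hx _ h3
    have h5 : t • g • x = g • (g⁻¹ * t * g) • x := by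
      rw [← mul_smul, ← mul_smul]
      congr 1
      group
    rw [h5, h4]
  rcases hts.irr A hA with h3 | h3
  · have : w ∈ A := hfix
    rw [h3] at this
    exact hw this
  · apply hne R' hR' hrd
    rw [Subgroup.eq_bot_iff_forall]
    intro t ht
    apply hts.faith t (hC ht)
    intro x
    have : x ∈ A := by
      rw [h3]
      exact AddSubgroup.mem_top x
    exact this t ht

theorem not_dvd_index [Finite H] {r : ℕ} {R Z : Subgroup H} (hR : SylIn r ⊤ R) (hRZ : R ≤ Z) :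
    ¬ r ∣ Z.index := by
  intro h1
  have h2 := hR.2.2
  rw [Subgroup.relIndex_top_right] at h2
  exact h2 (h1.trans (Subgroup.index_dvd_of_le hRZ))

/-- the `D`-component of an `r`-element is an `r`-element -/
theorem dpow {r : ℕ} {d t : H} (hdt : d * t = t * d) (h1 : LE r (d * t)) (h2 : LE r t) :
    LE r d := by
  obtain ⟨n1, hn1⟩ := h1
  obtain ⟨n2, hn2⟩ := h2
  refine ⟨n1 + n2, ?_⟩
  have h3 : (d * t) ^ r ^ (n1 + n2) = 1 := by
    rw [pow_add, pow_mul, hn1, one_pow]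
  have h4 : t ^ r ^ (n1 + n2) = 1 := by
    rw [add_comm, pow_add, pow_mul, hn2, one_pow]
  rw [(show Commute d t from hdt).mul_pow, h4, mul_one] at h3
  exact h3

end UEQM

open UEQM PAAM FTNM in
/-- **UEQ** -/
theorem specUEQ (hUDB : SpecUDB) : SpecUEQ := by
  classical
  intro H X _ _ _ p C T h v hv hcyc
  have hfin : Finite H := h.finH
  have hv0 : v ≠ 0 := hv.1.1
  obtain ⟨⟨hDn, hDC, hDab⟩, hGd, hD3, hDv, -, hD6, K, hK1, hK2⟩ := hUDB H X p C T h v hv.1
  obtain ⟨bet, hlin, hinj⟩ := specUBF H (DT C T v) hcyc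
  set D : Subgroup H := DT C T v with hD
  set Z : Subgroup H := Subgroup.centralizer (D : Set H) with hZ
  have hZn : Z.Normal := Subgroup.normal_centralizer
  have hFix : ∀ g : H, FxS (0 : X) D bet g ↔ g ∈ Z := by
    intro g
    unfold FxS
    rw [fixB_iff hDn hlin hinj]
    exact ⟨fun h1 => h1.2, fun h1 => ⟨smul_zero g, h1⟩⟩
  have hZc : ∀ g ∈ Z, ∀ d ∈ D, d * g = g * d := by
    intro g hg d hd
    exact Subgroup.mem_centralizer_iff.1 hg d hd
  have hst : StV C (0 : X) D bet := by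
    refine ⟨hDC, fun d _ => smul_zero d, fun g _ d hd => hDn.conj_mem d hd g, hDab,
      ⟨K, fun k _ => smul_zero k, hK1, fun g _ => ?_⟩, hlin⟩
    have hg : g ∈ D ⊔ K := by
      rw [hK2]
      exact Subgroup.mem_top g
    obtain ⟨d, hd, k, hk, e⟩ := Subgroup.mem_sup_of_normal_left.1 hg
    exact ⟨d, hd, k, hk, e.symm⟩
  have ht := h.tight 0 D bet hst
  -- (i)
  have hA : ∀ r ∈ T, (r ∈ setA T (0 : X) D bet ↔ r ∣ Z.index) := by
    intro r hr
    obtain ⟨hrp, hrd⟩ := h.tp r hr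
    obtain ⟨-, -, -, -, -, -, hidx, -, -⟩ := CO.specSYL H r hrp
    rw [mem_setA]
    constructor
    · rintro ⟨-, hkl⟩
      apply hidx
      rintro ⟨R, hR, hRZ⟩
      obtain ⟨g, hg, hng⟩ := hkl R hR
      exact hng ((hFix g).2 (hRZ hg))
    · intro hdvd
      refine ⟨hr, fun R hR => ?_⟩
      by_contra hcon
      push Not at hcon
      exact not_dvd_index hR (fun g hg => (hFix g).1 (hcon g hg)) hdvd
  -- (ii)
  have hM : setM C T (0 : X) D bet ⊆ PiN C T := by
    intro r hr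
    rw [mem_setM] at hr
    obtain ⟨hrT, R, hR, hRC, hRf, hRc, hRn⟩ := hr
    obtain ⟨hrp, hrd⟩ := h.tp r hrT
    have hRZ : R ≤ Z := fun g hg => (hFix g).1 (hRf g hg)
    have hLE : ∀ t ∈ R, LE r t := fun t ht => LE_of_isPGroup hR.2.1 ht
    -- `r`-elements of `D` are in `R`
    have hDR : ∀ d ∈ D, LE r d → d ∈ R := by
      intro d hd hdr
      refine mem_syl hrp hR hdr ?_ ?_
      · intro t ht
        rw [hZc t (hRZ ht) d hd, mul_inv_cancel_right]
        exact ht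
      · intro t ht
        rw [mul_assoc, ← hZc t (hRZ ht) d hd, inv_mul_cancel_left]
        exact ht
    have hconj : ∀ z ∈ Z, ∀ t ∈ R, z * t * z⁻¹ ∈ R := by
      intro z hz t ht
      have h1 := hRn z ((hFix z).2 hz) t ht
      obtain ⟨d, hd, t', ht', e⟩ := Subgroup.mem_sup_of_normal_left.1 h1
      rw [← e]
      refine R.mul_mem (hDR d hd (dpow (hZc t' (hRZ ht') d hd) ?_ (hLE t' ht'))) ht'
      rw [e]
      obtain ⟨n, hn⟩ := hLE t ht
      exact ⟨n, by rw [conj_pow, hn]; group⟩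
    have hRN : R.Normal := by
      refine ⟨fun t ht g => ?_⟩
      have hx : g * t * g⁻¹ ∈ Z := hZn.conj_mem t (hRZ ht) g
      refine mem_syl hrp hR ?_ (hconj _ hx) ?_
      · obtain ⟨n, hn⟩ := hLE t ht
        exact ⟨n, by rw [conj_pow, hn]; group⟩
      · intro t' ht'
        have := hconj _ (Z.inv_mem hx) t' ht'
        rwa [inv_inv] at this
    rw [mem_PiN]
    refine ⟨hrT, R, hR, hRN, hRC, ?_⟩
    by_cases hrD : r ∣ Nat.card D
    · obtain ⟨-, -, -, hO4, hO5, -⟩ := specOCF H r hrp C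
      obtain ⟨-, -, -, hS4, -⟩ := CO.specSYL H r hrp
      have hRO : R ≤ Oc r C := hO4 R hRC hR.2.1 (fun n _ k hk => hRN.conj_mem k hk n)
      have hOR : Oc r C ≤ R := hO5 R (hS4 ⊤ C R hR hRC le_top)
      intro x hx y hy
      obtain ⟨d, hd, hdr, b, hb, hbv, rfl⟩ := hD6 r hrp hrD x (hRO hx)
      obtain ⟨d', hd', hdr', b', hb', hbv', rfl⟩ := hD6 r hrp hrD y (hRO hy)
      have hbR := hOR hb
      have hbR' := hOR hb'
      have h1 : b * b' * b⁻¹ * b'⁻¹ = 1 := by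
        apply hDv _ (hRc b hbR b' hbR')
        have e1 : b⁻¹ • v = v := by rw [inv_smul_eq_iff, hbv]
        have e2 : b'⁻¹ • v = v := by rw [inv_smul_eq_iff, hbv']
        rw [mul_smul, mul_smul, mul_smul, e2, e1, hbv', hbv]
      have h2 : b * b' = b' * b := by
        rw [mul_inv_eq_one, mul_inv_eq_iff_eq_mul] at h1
        exact h1
      have e1 : b * d' = d' * b := (hZc b (hRZ hbR) d' hd').symm
      have e2 : b' * d = d * b' := (hZc b' (hRZ hbR') d hd).symm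
      calc d * b * (d' * b') = d * (b * d') * b' := by group
        _ = d * d' * (b * b') := by rw [e1]; group
        _ = d' * d * (b' * b) := by rw [hDab d hd d' hd', h2]
        _ = d' * (d * b') * b := by group
        _ = d' * b' * (d * b) := by rw [← e2]; group
    · intro x hx y hy
      have h1 := hRc x hx y hy
      have h2 : x * y * x⁻¹ * y⁻¹ ∈ R :=
        R.mul_mem (R.mul_mem (R.mul_mem hx hy) (R.inv_mem hx)) (R.inv_mem hy)
      obtain ⟨n, hn⟩ := hLE _ h2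
      have h3 : x * y * x⁻¹ * y⁻¹ = 1 := by
        refine pow_eq_one_of hrp hn fun h4 => hrD (h4.trans ?_)
        have h5 : (⟨x * y * x⁻¹ * y⁻¹, h1⟩ : D) ^ Nat.card D = 1 := pow_card_eq_one'
        exact orderOf_dvd_of_pow_eq_one (congrArg Subtype.val h5)
      rw [mul_inv_eq_one, mul_inv_eq_iff_eq_mul] at h3
      exact h3
  -- (iii)
  have hkM : kM C T v ⊆ setA T (0 : X) D bet := by
    intro r hr
    rw [mem_kM] at hr
    obtain ⟨hrT, R, hRM⟩ := hr
    obtain ⟨hrp, hrd⟩ := h.tp r hrT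
    rw [hA r hrT]
    by_contra hcon
    obtain ⟨-, -, hcj, -, -, -, hidx, -, -⟩ := CO.specSYL H r hrp
    have hex : ∃ R, SylIn r ⊤ R ∧ R ≤ Z := by
      by_contra h1
      exact hcon (hidx Z h1)
    obtain ⟨R0, hR0, hR0Z⟩ := hex
    obtain ⟨g, -, hg⟩ := hcj ⊤ R0 R hR0 hRM.1
    have hRZ : R ≤ Z := by
      intro t ht
      have h1 := hZn.conj_mem _ (hR0Z ((hg t).1 ht)) g
      have h2 : g * (g⁻¹ * t * g) * g⁻¹ = t := by group
      rwa [h2] at h1
    obtain ⟨-, -, hDrD, hDr0, -, -, hDr1⟩ := hGd r hrT R (hv.2 r hrT R hRM)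
    apply hDr0
    rw [Subgroup.eq_bot_iff_forall]
    intro x hx
    exact hDr1 x hx fun t ht => (hZc t (hRZ ht) x (hDrD hx)).symm
  -- (iv)
  have hPk : PiN C T ⊆ kA H T v := by
    intro r hr
    rw [mem_kA]
    exact ⟨(mem_PiN.1 hr).1, kl_of_normal h hr hv0⟩
  have hcnb := specCNB H X p C T h
  have hcnb2 := hcnb.2 v hv0
  have c1 := Finset.card_le_card hkM
  have c2 := Finset.card_le_card hM
  have c3 := Finset.card_le_card hPk
  have c4 := Finset.card_le_card hcnb2.1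
  have c5 := hcnb2.2
  have c6 := hcnb.1
  refine ⟨(Finset.eq_of_subset_of_card_le hPk (by omega)).symm, by omega, by omega, ?_⟩
  intro r hr
  rw [Finset.eq_of_subset_of_card_le hkM (by omega), hA r hr]

end Pool.Agent.Lib.MPbe1941.X
end

section
/-!
# MP_be1941_al EXACT, block U, module UTW (EXACT 9.3): the two-step state, `X = F v`
-/
set_option autoImplicit false

namespace Pool.Agent.Lib.MPbe1941.X

open Pool.Agent.Lib.MPbe1941
open Pool.Agent.Lib.MPbe1941.XF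
open scoped commutatorElement

namespace UTWM

open Classical in
theorem ncard_filter (Th : Finset ℕ) (P : ℕ → Prop) :
    Set.ncard {r | r ∈ Th ∧ P r} = (Th.filter P).card := by
  rw [← Set.ncard_coe_finset]
  congr 1
  ext r
  simp

theorem mem_PiN {H : Type} [Group H] {C : Subgroup H} {T : Finset ℕ} {r : ℕ} :
    r ∈ PiN C T ↔ r ∈ T ∧ ∃ R : Subgroup H, SylIn r ⊤ R ∧ R.Normal ∧ R ≤ C ∧
      ∀ x ∈ R, ∀ y ∈ R, x * y = y * x := by
  classical exact Finset.mem_filter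

/-- A prime of `Π_N` kills every non-zero vector. -/
theorem kl_of_PiN {H X : Type} [Group H] [AddCommGroup X] [DistribMulAction H X] {p : ℕ}
    {C : Subgroup H} {T : Finset ℕ} (h : TS H X p C T) {r : ℕ} (hr : r ∈ PiN C T) {w : X}
    (hw : w ≠ 0) : Kl H w r := by
  have hfin : Finite H := h.finH
  rw [mem_PiN] at hr
  obtain ⟨hrT, R, hR, hRn, hRC, -⟩ := hr
  obtain ⟨hrp, hrd⟩ := h.tp r hrT
  have hFr : Fact r.Prime := ⟨hrp⟩
  intro S hS
  by_contra hcon
  push Not at hcon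
  obtain ⟨g, -, hg⟩ := (CO.specSYL H r hrp).2.2.1 _ _ _ hR hS
  have hRS : ∀ x ∈ R, x ∈ S := by
    intro x hx
    rw [hg]
    have h1 := hRn.conj_mem x hx g⁻¹
    rwa [inv_inv] at h1
  -- the fixed points of `R`
  have hfix : ∀ x : X, ∀ ρ ∈ R, ρ • x = x := by
    obtain ⟨A, hA⟩ : ∃ A : AddSubgroup X, ∀ x, x ∈ A ↔ ∀ ρ ∈ R, ρ • x = x :=
      ⟨FixY X R, fun x => Iff.rfl⟩
    have hinv : ∀ g : H, ∀ x ∈ A, g • x ∈ A := by
      intro g x hx
      rw [hA] at hx ⊢
      intro ρ hρ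
      have h1 := hx _ (by have := hRn.conj_mem ρ hρ g⁻¹; rwa [inv_inv] at this)
      calc ρ • g • x = g • (g⁻¹ * ρ * g) • x := by
            rw [smul_smul, smul_smul]; congr 1; group
        _ = g • x := by rw [h1]
    rcases h.irr A hinv with h1 | h1
    · exfalso
      have h2 : w ∈ A := by
        rw [hA]
        exact fun ρ hρ => hcon ρ (hRS ρ hρ)
      rw [h1] at h2
      exact hw (AddSubgroup.mem_bot.1 h2)
    · intro x
      rw [← hA, h1]
      exact AddSubgroup.mem_top x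
  have hbot : R = ⊥ := by
    rw [Subgroup.eq_bot_iff_forall]
    exact fun x hx => h.faith x (hRC hx) (fun y => hfix y x hx)
  exact (CO.specSYL H r hrp).2.2.2.2.2.2.2.1 R hR hrd hbot

end UTWM

open UTWM in
theorem specUTW (hUIV : SpecUIV) (hUIN : SpecUIN) (hUSY : SpecUSY) (hREL : SpecREL)
    (hCNB : SpecCNB) : SpecUTW := by
  classical
  intro H X _ _ _ p C T v D R H1 dl hU hF
  by_contra hne
  have hfin : Finite H := hU.ts.finH
  have hfinX : Finite X := hU.ts.finX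
  have hsol : Group.IsSolvable H := hU.ts.sol
  have hCn : C.Normal := hU.ts.nor
  obtain ⟨W, hW0, hWR, hWJ, hWirr, hWL⟩ := hUIV H X p C T v D R H1 dl hU hF hne
  obtain ⟨hI1, hI2⟩ := hUIN H X p C T v D R H1 dl hU hF
  obtain ⟨hY1, hY2, hY3⟩ := hUSY H X p C T v D R H1 dl hU
  obtain ⟨J, hJ⟩ : ∃ J, J = Stb H1 v := ⟨_, rfl⟩
  rw [← hJ] at hWJ hWirr hY2 hY3
  have hJm : ∀ y, y ∈ J ↔ y ∈ H1 ∧ y • v = v := by
    intro y; rw [hJ]; exact Iff.rfl
  obtain ⟨T1, hT1⟩ : ∃ T1, T1 = T \ (kM C T v ∪ PiN C T) := ⟨_, rfl⟩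
  have hT1m : ∀ r, r ∈ T1 ↔ r ∈ T ∧ r ∉ kM C T v ∧ r ∉ PiN C T := by
    intro r
    rw [hT1, Finset.mem_sdiff, Finset.mem_union]
    tauto
  obtain ⟨x, D2, K2, bet, hxW, hx0, hD2C, hD2n, hD2ab, -, hK2J, hDK, hDKJ, hlin, hcnt⟩ :=
    hREL H X J (C ⊓ J) W inferInstance hW0 hWJ hWirr inf_le_right
      (fun h hh c hc => ⟨hCn.conj_mem c hc.1 h, J.mul_mem (J.mul_mem hh hc.2) (J.inv_mem hh)⟩)
      T1 (fun r hr => (hU.ts.tp r ((hT1m r).1 hr).1).1)
  have hxR : ∀ ρ ∈ R, ρ • x = x := fun ρ hρ => hWR ρ hρ x hxW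
  have hxL : x ∉ AddSubgroup.closure {x : X | ∃ d ∈ D, x = d • v} := fun h => hx0 (hWL x hxW h)
  have hJdl : ∀ y ∈ J, y * dl = dl * y := by
    intro y hy
    exact hU.H1D y ((hJm y).1 hy).1 dl (by rw [hU.Dg]; exact Subgroup.mem_zpowers dl)
  -- stabiliser of `v`
  have hstv : ∀ h : H, h • v = v → ∃ ρ ∈ R, ∃ y ∈ J, h = ρ * y := by
    intro h hh
    obtain ⟨ρ, hρ, y, hy, hyv, he⟩ := hU.stv h hh
    exact ⟨ρ, hρ, y, (hJm y).2 ⟨hy, hyv⟩, he⟩
  have hcomm : ∀ ρ ∈ R, ∀ y ∈ J, ρ * y = y * ρ := by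
    intro ρ hρ y hy
    exact (hU.H1R y ((hJm y).1 hy).1 ρ hρ).symm
  -- conjugation by the stabiliser of `v` of subgroups of `J`
  have hconj : ∀ ρ ∈ R, ∀ y ∈ J, ∀ t ∈ J, (ρ * y) * t * (ρ * y)⁻¹ = y * t * y⁻¹ := by
    intro ρ hρ y hy t ht
    have h1 := hcomm ρ hρ (y * t * y⁻¹) (J.mul_mem (J.mul_mem hy ht) (J.inv_mem hy))
    calc (ρ * y) * t * (ρ * y)⁻¹ = ρ * (y * t * y⁻¹) * ρ⁻¹ := by group
      _ = y * t * y⁻¹ := by rw [h1]; group
  obtain ⟨s, hs⟩ : ∃ s, s = v + dl • x := ⟨_, rfl⟩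
  have hs0 : s ≠ 0 := by
    intro h
    rw [hs] at h
    exact hU.v0 (hI1 v x hU.Rv hxR h).1
  have hCs := (hCNB H X p C T hU.ts).2 s hs0
  have hD2J : D2 ≤ J := fun d hd => (hD2C hd).2
  have hRJ : ∀ ρ ∈ R, ρ ∈ H1 → ρ = 1 := by
    intro ρ hρ hρ1
    exact (hU.unq 1 D.one_mem ρ hρ ρ⁻¹ (H1.inv_mem hρ1) (by group)).2.1
  have hJH1 : ∀ y ∈ J, y ∈ H1 := fun y hy => ((hJm y).1 hy).1
  -- the state `t`
  have hRK : ∀ k, k ∈ R ⊔ K2 ↔ ∃ ρ ∈ R, ∃ y ∈ K2, ρ * y = k := by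
    intro k
    rw [XF.mem_sup]
    intro y hy ρ hρ
    have : y * ρ * y⁻¹ = ρ := by rw [← hcomm ρ hρ y (hK2J hy)]; group
    rw [this]; exact hρ
  have hst : StV C v D2 bet := by
    refine ⟨fun d hd => (hD2C hd).1, fun d hd => ((hJm d).1 (hD2J hd)).2, ?_, hD2ab, ?_, hlin⟩
    · intro h hh d hd
      obtain ⟨ρ, hρ, y, hy, rfl⟩ := hstv h hh
      rw [hconj ρ hρ y hy d (hD2J hd)]
      exact hD2n y hy d hd
    · refine ⟨R ⊔ K2, ?_, ?_, ?_⟩
      · intro k hk
        obtain ⟨ρ, hρ, y, hy, rfl⟩ := (hRK k).1 hk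
        rw [mul_smul, ((hJm y).1 (hK2J hy)).2, hU.Rv ρ hρ]
      · rw [eq_bot_iff]
        rintro d ⟨hd, hd2⟩
        obtain ⟨ρ, hρ, y, hy, rfl⟩ := (hRK d).1 hd2
        have h1 : ρ ∈ H1 := by
          have : ρ = (ρ * y) * y⁻¹ := by group
          rw [this]
          exact H1.mul_mem (hJH1 _ (hD2J hd)) (H1.inv_mem (hJH1 _ (hK2J hy)))
        have h2 := hRJ ρ hρ h1
        subst h2
        rw [one_mul] at hd ⊢
        rw [← hDK]
        exact ⟨hd, hy⟩
      · intro h hh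
        obtain ⟨ρ, hρ, y, hy, rfl⟩ := hstv h hh
        have hy' : y ∈ D2 ⊔ K2 := by rw [hDKJ]; exact hy
        rw [XF.mem_sup (fun k hk d hd => hD2n k (hK2J hk) d hd)] at hy'
        obtain ⟨d, hd, k, hk, rfl⟩ := hy'
        refine ⟨d, hd, ρ * k, (hRK _).2 ⟨ρ, hρ, k, hk, rfl⟩, ?_⟩
        calc ρ * (d * k) = (ρ * d) * k := by group
          _ = (d * ρ) * k := by rw [hcomm ρ hρ d (hD2J hd)]
          _ = d * (ρ * k) := by group
  have htight := hU.ts.tight v D2 bet hst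
  -- (i)
  have hi : ∀ r ∈ PiN C T, ∀ w : X, w ≠ 0 → Kl H w r := fun r hr w hw =>
    kl_of_PiN hU.ts hr hw
  -- (ii)
  have hii : ∀ r ∈ kM C T v, Kl H s r := by
    intro r hr S' hS'
    by_contra hcon
    push Not at hcon
    obtain ⟨hrp, S, hSR, hS, hSc, -, -⟩ := hU.syl r hr
    obtain ⟨d, hd, hdS⟩ := hY1 r hr S S' hSR hS hS'
    have hS1 : ∀ ρ ∈ S, ρ = 1 := by
      intro ρ hρ
      refine hI2 x hx0 hxR hxL d⁻¹ (D.inv_mem hd) ρ (hSR hρ) ?_
      have h1 : d * ρ * d⁻¹ ∈ S' := by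
        rw [hdS]
        have : d⁻¹ * (d * ρ * d⁻¹) * d = ρ := by group
        rw [this]; exact hρ
      have h2 := hcon _ h1
      rw [hs] at h2
      calc ρ • d⁻¹ • (v + dl • x) = d⁻¹ • (d * ρ * d⁻¹) • (v + dl • x) := by
            rw [smul_smul, smul_smul]; congr 1; group
        _ = d⁻¹ • (v + dl • x) := by rw [h2]
    have hSb : S = ⊥ := (Subgroup.eq_bot_iff_forall S).2 hS1
    rw [hSb, Subgroup.card_bot] at hSc
    exact hrp.one_lt.ne hSc
  -- (iii a)
  have hiiia : ∀ r ∈ T1, ∀ S : Subgroup H, SylIn r ⊤ S → (∀ t ∈ S, t • s = s) →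
      S ≤ J ∧ ∀ t ∈ S, t • x = x := by
    intro r hr S hS hSs
    obtain ⟨hrT, hr1, hr2⟩ := (hT1m r).1 hr
    have hSH : S ≤ H1 := (hY2 r hrT hr1 hr2).2.1 S hS.2.1
    have key : ∀ t ∈ S, t • v = v ∧ t • x = x := by
      intro t ht
      have h1 := hSs t ht
      rw [hs, smul_add] at h1
      have htd : t * dl = dl * t := hU.H1D t (hSH ht) dl (by
        rw [hU.Dg]; exact Subgroup.mem_zpowers dl)
      have h2 : t • dl • x = dl • t • x := by rw [smul_smul, htd, ← smul_smul]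
      rw [h2] at h1
      have h3 : (t • v - v) + dl • (t • x - x) = 0 := by
        rw [smul_sub]
        have : t • v - v + (dl • t • x - dl • x) = (t • v + dl • t • x) - (v + dl • x) := by abel
        rw [this, h1, sub_self]
      have hfx : ∀ w : X, (∀ ρ ∈ R, ρ • w = w) → ∀ ρ ∈ R, ρ • (t • w - w) = t • w - w := by
        intro w hw ρ hρ
        have h4 := hU.H1R t (hSH ht) ρ hρ
        rw [smul_sub, hw ρ hρ, smul_smul, ← h4, ← smul_smul, hw ρ hρ]
      obtain ⟨h5, h6⟩ := hI1 _ _ (hfx v hU.Rv) (hfx x hxR) h3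
      exact ⟨sub_eq_zero.1 h5, sub_eq_zero.1 h6⟩
    exact ⟨fun t ht => (hJm t).2 ⟨hSH ht, (key t ht).1⟩, fun t ht => (key t ht).2⟩
  -- Sylow subgroups
  have hsyl : ∀ r ∈ T1, ∀ S : Subgroup H, SylIn r J S ↔ (SylIn r ⊤ S ∧ S ≤ J) := by
    intro r hr S
    obtain ⟨hrT, hr1, hr2⟩ := (hT1m r).1 hr
    exact (hY2 r hrT hr1 hr2).2.2 S
  have hsylv : ∀ r ∈ T1, ∀ S : Subgroup H, SylIn r ⊤ S → (∀ t ∈ S, t • v = v) → S ≤ J := by
    intro r hr S hS hSv
    obtain ⟨hrT, hr1, hr2⟩ := (hT1m r).1 hr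
    exact hY3 r hrT hr1 S hS.2.1 hSv
  rw [ncard_filter, ncard_filter, ncard_filter, ncard_filter, ncard_filter] at hcnt
  -- the last set is empty
  have hlast : (T1.filter (fun r => ∃ T₀ : Subgroup H, SylIn r J T₀ ∧
      (∀ h ∈ J, ∀ t ∈ T₀, h * t * h⁻¹ ∈ T₀) ∧ T₀ ≤ C ⊓ J ∧ (∀ x ∈ T₀, ∀ y ∈ T₀, x * y = y * x) ∧
      ∀ t ∈ T₀, ∀ v ∈ W, t • v = v)).card = 0 := by
    rw [Finset.card_eq_zero, Finset.filter_eq_empty_iff]
    rintro r hr ⟨T₀, h1, h2, h3, h4, -⟩
    obtain ⟨hrT, hr1, hr2⟩ := (hT1m r).1 hr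
    apply hr1
    rw [mem_kM]
    refine ⟨hrT, T₀, ((hsyl r hr T₀).1 h1).1, fun t ht => (h3 ht).1, h4,
      fun t ht => ((hJm t).1 (h3 ht).2).2, ?_⟩
    intro h hh t ht
    obtain ⟨ρ, hρ, y, hy, rfl⟩ := hstv h hh
    rw [hconj ρ hρ y hy t (h3 ht).2]
    exact h2 y hy t ht
  rw [hlast] at hcnt
  obtain ⟨FA, hFA⟩ : ∃ F, F = T1.filter (fun r => ∀ T₀ : Subgroup H, SylIn r J T₀ →
    ∃ t ∈ T₀, t • x ≠ x) := ⟨_, rfl⟩
  obtain ⟨FB, hFB⟩ : ∃ F, F = T1.filter (fun r => ∀ T₀ : Subgroup H, SylIn r J T₀ →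
    ∃ t ∈ T₀, ¬ FixB D2 bet t) := ⟨_, rfl⟩
  obtain ⟨FM, hFM⟩ : ∃ F, F = T1.filter (fun r => ∃ T₀, MiJ J (C ⊓ J) x r T₀) := ⟨_, rfl⟩
  obtain ⟨FN, hFN⟩ : ∃ F, F = T1.filter (fun r => ∃ T₀, MiBJ J (C ⊓ J) D2 bet r T₀) := ⟨_, rfl⟩
  rw [← hFA, ← hFB, ← hFM, ← hFN] at hcnt
  -- disjointness
  have hd1 : Disjoint (PiN C T) (kM C T v) := by
    rw [Finset.disjoint_left]
    intro r hr hr'
    obtain ⟨-, S, hS⟩ := mem_kM.1 hr'
    obtain ⟨t, ht, htv⟩ := hi r hr v hU.v0 S hS.1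
    exact htv (hS.2.2.2.1 t ht)
  have hd2 : ∀ F : Finset ℕ, F ⊆ T1 → Disjoint (PiN C T ∪ kM C T v) F := by
    intro F hF
    rw [Finset.disjoint_left]
    intro r hr hr'
    obtain ⟨-, h1, h2⟩ := (hT1m r).1 (hF hr')
    rcases Finset.mem_union.1 hr with h3 | h3
    · exact h2 h3
    · exact h1 h3
  have hFAs : FA ⊆ T1 := by rw [hFA]; exact Finset.filter_subset _ _
  have hFBs : FB ⊆ T1 := by rw [hFB]; exact Finset.filter_subset _ _
  -- lower bound for `kA s`
  have hA1 : (PiN C T).card + (kM C T v).card + FA.card ≤ (kA H T s).card := by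
    rw [← Finset.card_union_of_disjoint hd1, ← Finset.card_union_of_disjoint (hd2 FA hFAs)]
    apply Finset.card_le_card
    intro r hr
    rw [mem_kA]
    rcases Finset.mem_union.1 hr with hr | hr
    · rcases Finset.mem_union.1 hr with hr | hr
      · exact ⟨(mem_PiN.1 hr).1, hi r hr s hs0⟩
      · exact ⟨(mem_kM.1 hr).1, hii r hr⟩
    · have hrT1 := hFAs hr
      refine ⟨((hT1m r).1 hrT1).1, ?_⟩
      intro S hS
      by_contra hcon
      push Not at hcon
      obtain ⟨h1, h2⟩ := hiiia r hrT1 S hS hcon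
      rw [hFA, Finset.mem_filter] at hr
      obtain ⟨t, ht, hne⟩ := hr.2 S ((hsyl r hrT1 S).2 ⟨hS, h1⟩)
      exact hne (h2 t ht)
  -- lower bound for `A(t)`
  have hA2 : (PiN C T).card + FB.card ≤ (setA T v D2 bet).card := by
    have hd3 : Disjoint (PiN C T) FB := by
      have := hd2 FB hFBs
      rw [Finset.disjoint_union_left] at this
      exact this.1
    rw [← Finset.card_union_of_disjoint hd3]
    apply Finset.card_le_card
    intro r hr
    rw [mem_setA]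
    rcases Finset.mem_union.1 hr with hr | hr
    · refine ⟨(mem_PiN.1 hr).1, fun S hS => ?_⟩
      obtain ⟨t, ht, hne⟩ := hi r hr v hU.v0 S hS
      exact ⟨t, ht, fun h => hne h.1⟩
    · have hrT1 := hFBs hr
      refine ⟨((hT1m r).1 hrT1).1, ?_⟩
      intro S hS
      by_contra hcon
      push Not at hcon
      have h1 := hsylv r hrT1 S hS (fun t ht => (hcon t ht).1)
      rw [hFB, Finset.mem_filter] at hr
      obtain ⟨t, ht, hne⟩ := hr.2 S ((hsyl r hrT1 S).2 ⟨hS, h1⟩)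
      exact hne (hcon t ht).2
  -- upper bound for `kM s`
  have hM1 : (kM C T s).card ≤ FM.card := by
    apply Finset.card_le_card
    intro r hr
    obtain ⟨hrT, S, hS⟩ := mem_kM.1 hr
    have hnk : ¬ Kl H s r := by
      intro hk
      obtain ⟨t, ht, hne⟩ := hk S hS.1
      exact hne (hS.2.2.2.1 t ht)
    have hrT1 : r ∈ T1 := by
      rw [hT1m]
      exact ⟨hrT, fun h => hnk (hii r h), fun h => hnk (hi r h s hs0)⟩
    obtain ⟨h1, h2⟩ := hiiia r hrT1 S hS.1 hS.2.2.2.1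
    rw [hFM, Finset.mem_filter]
    refine ⟨hrT1, S, (hsyl r hrT1 S).2 ⟨hS.1, h1⟩, fun t ht => ⟨hS.2.1 ht, h1 ht⟩, hS.2.2.1, h2, ?_⟩
    intro h hh hhx t ht
    refine hS.2.2.2.2 h ?_ t ht
    rw [hs, smul_add, ((hJm h).1 hh).2, smul_smul, hJdl h hh, ← smul_smul, hhx]
  -- upper bound for `M(t)`
  have hM2 : (setM C T v D2 bet).card ≤ (kM C T v).card + FN.card := by
    refine le_trans (Finset.card_le_card ?_) (Finset.card_union_le _ _)
    intro r hr
    obtain ⟨hrT, S, hS, hSC, hSf, hSc, hSn⟩ := mem_setM.1 hr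
    rw [Finset.mem_union]
    by_cases hrv : r ∈ kM C T v
    · exact Or.inl hrv
    · right
      have hrT1 : r ∈ T1 := by
        rw [hT1m]
        refine ⟨hrT, hrv, fun h => ?_⟩
        obtain ⟨t, ht, hne⟩ := hi r h v hU.v0 S hS
        exact hne (hSf t ht).1
      have h1 := hsylv r hrT1 S hS (fun t ht => (hSf t ht).1)
      rw [hFN, Finset.mem_filter]
      refine ⟨hrT1, S, (hsyl r hrT1 S).2 ⟨hS, h1⟩, fun t ht => ⟨hSC ht, h1 ht⟩,
        fun t ht => (hSf t ht).2, hSc, ?_⟩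
      intro h hh hhb t ht
      exact hSn h ⟨((hJm h).1 hh).2, hhb⟩ t ht
  have hpos := hU.pos
  have h1 := hCs.2
  omega

end Pool.Agent.Lib.MPbe1941.X
end
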