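import Pool.Agent.Lib.MP_be1941_al.X.SpecE
import Pool.Agent.Lib.MP_be1941_al.X.PSB
import Pool.Agent.Lib.MP_be1941_al.X.SpecD
import Pool.Agent.Lib.MP_be1941_al.X.UTW
import Pool.Agent.Lib.MP_be1941_al.X.REL

section
/-!
# MP_be1941_al, exact bound: the end of case II.B, part A: stabilisers, and the case `Rad ≠ 0`
-/
set_option autoImplicit false

namespace Pool.Agent.Lib.MPbe1941.X.END

open Pool.Agent.Lib.MPbe1941 Pool.Agent.Lib.MPbe1941.X

/-- A normal subgroup fixing a nonzero vector of an irreducible module is trivial on it. -/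
theorem irr_fix {H V : Type} [Group H] [AddCommGroup V] [DistribMulAction H V]
    (irr : ∀ A : AddSubgroup V, (∀ h : H, ∀ x ∈ A, h • x ∈ A) → A = ⊥ ∨ A = ⊤) {K : Subgroup H}
    (hK : K.Normal) {v : V} (hv : v ≠ 0) (h : ∀ k ∈ K, k • v = v) : ∀ k ∈ K, ∀ w : V, k • w = w := by
  let A : AddSubgroup V :=
    { carrier := {w | ∀ k ∈ K, k • w = w}
      zero_mem' := fun k _ => smul_zero k
      add_mem' := fun {a b} ha hb k hk => by rw [smul_add, ha k hk, hb k hk]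
      neg_mem' := fun {a} ha k hk => by rw [smul_neg, ha k hk] }
  rcases irr A (fun g x hx k hk => by
    have h1 := hx (g⁻¹ * k * g) (by
      have := hK.conj_mem k hk g⁻¹
      simpa using this)
    have h2 : k • g • x = g • (g⁻¹ * k * g) • x := by
      rw [smul_smul, smul_smul]; congr 1; group
    rw [h2, h1]) with h1 | h1
  · exfalso
    have h2 : v ∈ A := h
    rw [h1] at h2
    exact hv ((AddSubgroup.mem_bot).1 h2)
  · intro k hk w
    have h2 : w ∈ A := by rw [h1]; trivial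
    exact h2 k hk

section

variable {H M Z : Type} [Group H] [AddCommGroup M] [AddCommGroup Z] [DistribMulAction H M]
    [DistribMulAction H Z] {p : ℕ} {B : Z → M → M → ℂ}

theorem rad_smul (fd : FormD H M Z p B) {μ : Z} {h : H} (hμ : h • μ = μ) {x : M}
    (hx : ∀ y, B μ x y = 1) : ∀ y, B μ (h • x) y = 1 := by
  intro y
  have h1 := fd.Bh h μ x (h⁻¹ • y)
  rw [hμ, smul_smul, mul_inv_cancel, one_smul, hx] at h1
  exact h1

/-- The stabiliser of `(μ, lam)`. -/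
def NSt (fd : FormD H M Z p B) (μ : Z) (lam : AddChar M ℂ) : Subgroup H where
  carrier := {h | NFix B μ lam h}
  one_mem' := ⟨one_smul H μ, fun x _ => by rw [one_smul]⟩
  mul_mem' := by
    rintro a b ⟨ha, ha'⟩ ⟨hb, hb'⟩
    refine ⟨by rw [mul_smul, hb, ha], fun x hx => ?_⟩
    rw [mul_smul, ha' _ (rad_smul fd hb hx), hb' x hx]
  inv_mem' := by
    rintro a ⟨ha, ha'⟩
    have hi : a⁻¹ • μ = μ := by rw [inv_smul_eq_iff, ha]
    refine ⟨hi, fun x hx => ?_⟩
    have h1 := ha' _ (rad_smul fd hi hx)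
    rw [smul_smul, mul_inv_cancel, one_smul] at h1
    exact h1.symm

theorem mem_NSt (fd : FormD H M Z p B) {μ : Z} {lam : AddChar M ℂ} {h : H} :
    h ∈ NSt fd μ lam ↔ NFix B μ lam h := Iff.rfl

/-- A normal Sylow subgroup is the only one. -/
theorem sylIn_normal {r : ℕ} [Finite H] (hr : r.Prime) {S S' : Subgroup H} (hS : SylIn r ⊤ S)
    (hn : S.Normal) (hS' : SylIn r ⊤ S') : S' = S := by
  obtain ⟨g, -, hg⟩ := (CO.specSYL H r hr).2.2.1 ⊤ S S' hS hS'
  ext x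
  rw [hg]
  constructor
  · intro h
    have := hn.conj_mem _ h g
    have e : g * (g⁻¹ * x * g) * g⁻¹ = x := by group
    rwa [e] at this
  · intro h
    have := hn.conj_mem _ h g⁻¹
    simpa using this

/-- A normal subgroup `S ≠ 1` in the faithful normal subgroup `C` has no fixed points on `M`, and a
character of `M` fixed by `S` on an `S`-invariant set of vectors is trivial there. -/
theorem char_one (fd : FormD H M Z p B) {C S : Subgroup H}
    (hC : ∀ c ∈ C, (∀ x : M, c • x = x) → c = 1) (hS : S.Normal) (hSC : S ≤ C) (hne : S ≠ ⊥)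
    {R : Set M} {lam : AddChar M ℂ}
    (hlam : ∀ s ∈ S, ∀ x ∈ R, lam (s • x) = lam x) : ∀ x ∈ R, lam x = 1 := by
  have hfH := fd.finH
  intro x hx
  have hfin : Finite S := inferInstance
  have hft : Fintype S := Fintype.ofFinite S
  set y : M := ∑ s : S, (s : H) • x with hy
  have hy0 : y = 0 := by
    by_contra hne0
    have hfix : ∀ s ∈ S, s • y = y := by
      intro s hs
      rw [hy, Finset.smul_sum]
      refine Fintype.sum_bijective (fun t : S => (⟨s, hs⟩ : S) * t)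
        (Group.mulLeft_bijective _) _ _ ?_
      intro t
      rw [Subgroup.coe_mul, mul_smul]
    have h1 := irr_fix fd.Mirr hS hne0 hfix
    apply hne
    rw [Subgroup.eq_bot_iff_forall]
    intro s hs
    exact hC s (hSC hs) (h1 s hs)
  have h2 : lam y = lam x ^ Nat.card S := by
    have hsum : ∀ t : Finset S, lam (∑ s ∈ t, (s : H) • x) = ∏ s ∈ t, lam ((s : H) • x) := by
      classical
      intro t
      induction t using Finset.induction_on with
      | empty => rw [Finset.sum_empty, Finset.prod_empty, AddChar.map_zero_eq_one]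
      | insert a t ha ih =>
        rw [Finset.sum_insert ha, Finset.prod_insert ha, AddChar.map_add_eq_mul, ih]
    rw [hy, hsum]
    rw [Finset.prod_congr rfl (fun (s : S) _ => hlam (s : H) s.2 x hx), Finset.prod_const,
      Finset.card_univ, Nat.card_eq_fintype_card]
  rw [hy0, AddChar.map_zero_eq_one] at h2
  have h3 : lam x ^ p = 1 := by
    rw [← AddChar.map_nsmul_eq_pow, fd.Mexp, AddChar.map_zero_eq_one]
  have hcop : Nat.Coprime (Nat.card S) p := by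
    rw [Nat.coprime_comm, Nat.Prime.coprime_iff_not_dvd fd.pp]
    intro h
    exact fd.cop (h.trans (Subgroup.card_subgroup_dvd_card S))
  have h4 : orderOf (lam x) ∣ 1 := by
    rw [← hcop]
    exact Nat.dvd_gcd (orderOf_dvd_of_pow_eq_one h2.symm) (orderOf_dvd_of_pow_eq_one h3)
  exact orderOf_eq_one_iff.1 (Nat.dvd_one.1 h4)

/-- The prime `r` with a normal Sylow subgroup `S ≠ 1` in `C` is killed by `(μ, lam)` if `lam` is not
trivial on the radical, or if `S` acts nontrivially on `Z`. -/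
theorem killed (fd : FormD H M Z p B) {C S : Subgroup H}
    (hC : ∀ c ∈ C, (∀ x : M, c • x = x) → c = 1) (hS : S.Normal) (hSC : S ≤ C) (hne : S ≠ ⊥)
    {μ : Z} (hμ : μ ≠ 0) {lam : AddChar M ℂ}
    (h : (∃ x, (∀ y, B μ x y = 1) ∧ lam x ≠ 1) ∨ ∃ s ∈ S, ∃ ν : Z, s • ν ≠ ν) :
    ∃ s ∈ S, ¬ NFix B μ lam s := by
  by_contra hcon
  push Not at hcon
  rcases h with ⟨x, hx, hx1⟩ | ⟨s, hs, ν, hν⟩
  · apply hx1
    exact char_one fd hC hS hSC hne (R := {x | ∀ y, B μ x y = 1})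
      (fun s hs x hx => (hcon s hs).2 x hx) x hx
  · exact hν (irr_fix fd.Zirr hS hμ (fun k hk => (hcon k hk).1) s hs ν)

/-- The case `Rad_μ ≠ 0` (EXACT.md 9.5 (1)). -/
theorem case_one (fd : FormD H M Z p B) {T : Set ℕ} (hT : T.Finite) {C : Subgroup H}
    (hC : ∀ c ∈ C, (∀ x : M, c • x = x) → c = 1) (hN : NIneq T C B) {Pi PiN : Set ℕ}
    (hPi : ∀ r ∈ Pi, r ∈ T)
    (hPiN : ∀ r ∈ PiN, r ∈ T ∧ r.Prime ∧ ∃ S : Subgroup H, SylIn r ⊤ S ∧ S.Normal ∧ S ≤ C ∧ S ≠ ⊥)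
    (hall : ∀ r ∈ T, ∀ S : Subgroup H, SylIn r ⊤ S → S ≤ C → r ∈ Pi ∨ r ∈ PiN)
    (hcard : Pi.ncard = PiN.ncard) {μ : Z} (hμ : μ ≠ 0) {x : M} (hx0 : x ≠ 0)
    (hx : ∀ y, B μ x y = 1) : False := by
  have hfH := fd.finH
  have hfM := fd.finM
  obtain ⟨lam, hlam⟩ := AddChar.exists_apply_ne_zero.2 hx0
  have h1 := hN μ lam ⊥ (NSt fd μ lam) 1 hμ bot_le
    (by
      intro a ha b hb
      rw [Subgroup.mem_bot] at ha hb
      rw [ha, hb])
    (by
      intro a ha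
      rw [Subgroup.mem_bot] at ha
      rw [ha]
      exact (NSt fd μ lam).one_mem)
    (by
      intro h _ a ha
      rw [Subgroup.mem_bot] at ha
      rw [ha]
      simp)
    (fun k hk => hk) (by rw [bot_inf_eq]) (fun h hh => Subgroup.mem_sup_right hh)
    ⟨rfl, fun a _ b _ => by simp⟩
  have h2 : PiN ⊆ {r | r ∈ T ∧ ∀ S : Subgroup H, SylIn r ⊤ S →
        ∃ s ∈ S, ¬ (NFix B μ lam s ∧ FixB (⊥ : Subgroup H) 1 s)} := by
    intro r hr
    obtain ⟨hrT, hrp, S, hS, hSn, hSC, hSne⟩ := hPiN r hr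
    refine ⟨hrT, fun S' hS' => ?_⟩
    rw [sylIn_normal hrp hS hSn hS']
    obtain ⟨s, hs, hs2⟩ := killed fd hC hSn hSC hSne hμ (lam := lam) (Or.inl ⟨x, hx, hlam⟩)
    exact ⟨s, hs, fun h => hs2 h.1⟩
  have h3 : {r | r ∈ T ∧ ∃ S : Subgroup H, SylIn r ⊤ S ∧ S ≤ C ∧
        (∀ s ∈ S, NFix B μ lam s ∧ FixB (⊥ : Subgroup H) 1 s) ∧
        (∀ x ∈ S, ∀ y ∈ S, x * y * x⁻¹ * y⁻¹ ∈ (⊥ : Subgroup H)) ∧
        ∀ h, NFix B μ lam h → FixB (⊥ : Subgroup H) 1 h → ∀ s ∈ S, h * s * h⁻¹ ∈ S ⊔ ⊥} ⊆ Pi := by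
    rintro r ⟨hrT, S, hS, hSC, hSf, -, -⟩
    rcases hall r hrT S hS hSC with h | h
    · exact h
    · exfalso
      obtain ⟨-, h4⟩ := h2 h
      obtain ⟨s, hs, hs2⟩ := h4 S hS
      exact hs2 (hSf s hs)
  have hPif : Pi.Finite := hT.subset hPi
  have h4 := Set.ncard_le_ncard h2 (hT.subset (fun r hr => hr.1))
  have h5 := Set.ncard_le_ncard h3 hPif
  omega

end

end Pool.Agent.Lib.MPbe1941.X.END
end

section
/-!
# MP_be1941_al, exact bound: the end of case II.B, part B: counting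
-/
set_option autoImplicit false

namespace Pool.Agent.Lib.MPbe1941.X.END

open Pool.Agent.Lib.MPbe1941 Pool.Agent.Lib.MPbe1941.X

/-- Every subgroup of a normal cyclic subgroup is normal. -/
theorem sub_cyc {H : Type} [Group H] {D K : Subgroup H} (hD : D.Normal)
    (hcyc : ∃ g ∈ D, ∀ x ∈ D, ∃ n : ℤ, x = g ^ n) (hK : K ≤ D) : K.Normal := by
  obtain ⟨g, hg, hgen⟩ := hcyc
  refine ⟨fun x hx h => ?_⟩
  obtain ⟨n, hn⟩ := hgen x (hK hx)
  obtain ⟨k, hk⟩ := hgen (h * g * h⁻¹) (hD.conj_mem g hg h)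
  have h1 : h * x * h⁻¹ = x ^ k := by
    rw [hn, ← conj_zpow, hk, ← zpow_mul, ← zpow_mul, mul_comm]
  rw [h1]
  exact K.zpow_mem hx k

/-- A semiregular group. -/
theorem dvd_card_sub_one {H V : Type} [Group H] [Finite H] [AddCommGroup V] [DistribMulAction H V]
    [Finite V] (K : Subgroup H) (h : ∀ k ∈ K, ∀ v : V, v ≠ 0 → k • v = v → k = 1) :
    Nat.card K ∣ Nat.card V - 1 := by
  classical
  have hfK : Fintype K := Fintype.ofFinite K
  have hfV : Fintype V := Fintype.ofFinite V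
  have hf : ∀ g : K, Fintype (MulAction.fixedBy V g) := fun g => Fintype.ofFinite _
  have hq : Fintype (Quotient (MulAction.orbitRel K V)) := Fintype.ofFinite _
  have h1 := MulAction.sum_card_fixedBy_eq_card_orbits_mul_card_group K V
  have h2 : ∀ g : K, g ≠ 1 → Fintype.card (MulAction.fixedBy V g) = 1 := by
    intro g hg
    rw [Fintype.card_eq_one_iff]
    refine ⟨⟨0, smul_zero g⟩, ?_⟩
    rintro ⟨v, hv⟩
    apply Subtype.ext
    show v = 0
    by_contra hv0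
    exact hg (Subtype.ext (h g g.2 v hv0 hv))
  have h3 : Fintype.card (MulAction.fixedBy V (1 : K)) = Fintype.card V := by
    refine Fintype.card_congr ⟨fun v => v.1, fun v => ⟨v, one_smul K v⟩, fun v => rfl,
      fun v => rfl⟩
  rw [← Finset.add_sum_erase Finset.univ _ (Finset.mem_univ (1 : K)), h3,
    Finset.sum_congr rfl (fun g hg => h2 g (Finset.ne_of_mem_erase hg)), Finset.sum_const,
    Finset.card_erase_of_mem (Finset.mem_univ _), Finset.card_univ, smul_eq_mul, mul_one] at h1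
  rw [Nat.card_eq_fintype_card, Nat.card_eq_fintype_card]
  have h4 : 1 ≤ Fintype.card K := Fintype.card_pos
  have h5 : 1 ≤ Fintype.card V := Fintype.card_pos
  have h6 : Fintype.card V - 1 + Fintype.card K =
      Fintype.card (Quotient (MulAction.orbitRel K V)) * Fintype.card K := by omega
  exact (Nat.dvd_add_left (dvd_refl _)).1 (Dvd.intro_left _ h6.symm)

theorem card_pow {V : Type} [AddCommGroup V] [Finite V] {p : ℕ} (hp : p.Prime)
    (h : ∀ x : V, p • x = 0) : ∃ n : ℕ, Nat.card V = p ^ n := by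
  have : Fact p.Prime := ⟨hp⟩
  let _ : Module (ZMod p) V := AddCommGroup.zmodModule h
  have hfV : Fintype V := Fintype.ofFinite V
  refine ⟨Module.finrank (ZMod p) V, ?_⟩
  rw [Nat.card_eq_fintype_card, Module.card_eq_pow_finrank (K := ZMod p), ZMod.card]

/-- Arithmetic. -/
theorem arith {p m f n : ℕ} (hp : p.Prime) (hf : 1 ≤ f) (hfm : f < m) (h1 : n ∣ p ^ m - 1)
    (h2 : n ∣ p ^ f - 1) : n ^ 2 < p ^ m := by
  have h3 : n ∣ p ^ (m.gcd f) - 1 := by
    rw [← Nat.pow_sub_one_gcd_pow_sub_one]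
    exact Nat.dvd_gcd h1 h2
  have hg : 0 < m.gcd f := Nat.gcd_pos_of_pos_right _ hf
  obtain ⟨c, hc⟩ := Nat.gcd_dvd_left m f
  have hle : m.gcd f ≤ f := Nat.gcd_le_right _ hf
  have hc2 : 2 ≤ c := by
    rcases Nat.lt_or_ge c 2 with h | h
    · exfalso
      interval_cases c
      · omega
      · omega
    · exact h
  have h4 : 2 * m.gcd f ≤ m := by
    calc 2 * m.gcd f ≤ c * m.gcd f := Nat.mul_le_mul_right _ hc2
      _ = m := by rw [mul_comm]; exact hc.symm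
  have h5 : 2 ≤ p ^ (m.gcd f) := by
    calc 2 ≤ p := hp.two_le
      _ = p ^ 1 := (pow_one p).symm
      _ ≤ p ^ (m.gcd f) := Nat.pow_le_pow_right hp.pos hg
  have h6 : n ≤ p ^ (m.gcd f) - 1 := Nat.le_of_dvd (by omega) h3
  have h7 : n < p ^ (m.gcd f) := by omega
  calc n ^ 2 < (p ^ (m.gcd f)) ^ 2 := Nat.pow_lt_pow_left h7 (by norm_num)
    _ = p ^ (2 * m.gcd f) := by rw [← pow_mul, mul_comm]
    _ ≤ p ^ m := Nat.pow_le_pow_right hp.pos h4

section

variable {H M Z : Type} [Group H] [AddCommGroup M] [AddCommGroup Z] [DistribMulAction H M]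
    [DistribMulAction H Z] {p : ℕ} {B : Z → M → M → ℂ}

theorem B_zero_left (fd : FormD H M Z p B) (μ : Z) (y : M) : B μ 0 y = 1 := by
  have h1 := fd.Bl μ 0 0 y
  rw [add_zero] at h1
  have h2 := fd.Bne μ 0 y
  field_simp at h1
  exact h1.symm

theorem B_zero_right (fd : FormD H M Z p B) (μ : Z) (x : M) : B μ x 0 = 1 := by
  have h1 := fd.Br μ x 0 0
  rw [add_zero] at h1
  have h2 := fd.Bne μ x 0
  field_simp at h1
  exact h1.symm

/-- `B μ x` is a character of `M / ⟨x⟩`. -/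
theorem card_le (fd : FormD H M Z p B)
    (hrad : ∀ μ : Z, μ ≠ 0 → ∀ x : M, (∀ y, B μ x y = 1) → x = 0) :
    Nat.card Z * p ≤ Nat.card M := by
  have hfM := fd.finM
  have hfZ := fd.finZ
  have hnt := fd.ntM
  obtain ⟨x, hx⟩ := exists_ne (0 : M)
  set A : AddSubgroup M := AddSubgroup.zmultiples x with hA
  -- the character
  let f : Z → AddChar M ℂ := fun μ =>
    { toFun := fun y => B μ x y
      map_zero_eq_one' := B_zero_right fd μ x
      map_add_eq_mul' := fun y y' => fd.Br μ x y y' }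
  have hfx : ∀ μ, ∀ a ∈ A, f μ a = 1 := by
    intro μ a ha
    obtain ⟨n, rfl⟩ := AddSubgroup.mem_zmultiples_iff.1 ha
    rw [AddChar.map_zsmul_eq_zpow]
    have : f μ x = 1 := fd.Balt μ x
    rw [this, one_zpow]
  let g : Z → AddChar (M ⧸ A) ℂ := fun μ =>
    { toFun := Quotient.lift (fun y => f μ y) (by
        intro a b hab
        have h1 : -a + b ∈ A := QuotientAddGroup.leftRel_apply.1 hab
        have h2 := hfx μ _ h1
        show f μ a = f μ b
        have h3 : b = a + (-a + b) := by abel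
        rw [h3, AddChar.map_add_eq_mul, h2, mul_one])
      map_zero_eq_one' := AddChar.map_zero_eq_one (f μ)
      map_add_eq_mul' := by
        intro a b
        induction a using Quotient.inductionOn with
        | h a =>
          induction b using Quotient.inductionOn with
          | h b => exact AddChar.map_add_eq_mul (f μ) a b }
  have hg : Function.Injective g := by
    intro μ ν h
    by_contra hne
    have h1 : ∀ y, B μ x y = B ν x y := by
      intro y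
      exact DFunLike.congr_fun h (QuotientAddGroup.mk y : M ⧸ A)
    apply hx
    refine hrad (μ - ν) (sub_ne_zero.2 hne) x (fun y => ?_)
    have h2 := fd.Bz (μ - ν) ν x y
    rw [sub_add_cancel, h1 y] at h2
    have h3 := fd.Bne ν x y
    field_simp at h2
    exact h2.symm
  have hftq : Fintype (M ⧸ A) := Fintype.ofFinite _
  have h1 : Nat.card Z ≤ Nat.card (M ⧸ A) := by
    calc Nat.card Z ≤ Nat.card (AddChar (M ⧸ A) ℂ) := Nat.card_le_card_of_injective g hg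
      _ = Nat.card (M ⧸ A) := by
        rw [Nat.card_eq_fintype_card, Nat.card_eq_fintype_card, AddChar.card_eq]
  have h2 : Nat.card A = p := by
    have : Fact p.Prime := ⟨fd.pp⟩
    rw [hA, Nat.card_zmultiples]
    exact addOrderOf_eq_prime (fd.Mexp x) hx
  have h3 : Nat.card M = Nat.card (M ⧸ A) * Nat.card A := AddSubgroup.card_eq_card_quotient_mul_card_addSubgroup A
  rw [h3, h2]
  exact Nat.mul_le_mul_right p h1

/-- For a cyclic group `K`, all of whose subgroups are normal in `H`, with `|M| ≤ |K|²`: some element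
of `K` different from `1` is trivial on `Z`. -/
theorem exists_triv (fd : FormD H M Z p B)
    (hrad : ∀ μ : Z, μ ≠ 0 → ∀ x : M, (∀ y, B μ x y = 1) → x = 0) {C K : Subgroup H}
    (hC : ∀ c ∈ C, (∀ x : M, c • x = x) → c = 1) (hKC : K ≤ C)
    (hK : ∀ L : Subgroup H, L ≤ K → L.Normal) (hcard : Nat.card M ≤ Nat.card K ^ 2) :
    ∃ k ∈ K, k ≠ 1 ∧ ∀ μ : Z, k • μ = μ := by
  have hfH := fd.finH
  have hfM := fd.finM
  have hfZ := fd.finZ
  have hntZ := fd.ntZ
  by_contra hcon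
  push Not at hcon
  have hz : ∀ k ∈ K, Subgroup.zpowers k ≤ K := fun k hk =>
    (Subgroup.zpowers_le (g := k) (H := K)).2 hk
  have h1 : Nat.card K ∣ Nat.card M - 1 := by
    apply dvd_card_sub_one K
    intro k hk v hv hkv
    apply hC k (hKC hk)
    refine irr_fix fd.Mirr (hK _ (hz k hk)) hv ?_ k (Subgroup.mem_zpowers k)
    intro y hy
    obtain ⟨n, rfl⟩ := Subgroup.mem_zpowers_iff.1 hy
    have : k ∈ MulAction.stabilizer H v := hkv
    exact (MulAction.stabilizer H v).zpow_mem this n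
  have h2 : Nat.card K ∣ Nat.card Z - 1 := by
    apply dvd_card_sub_one K
    intro k hk v hv hkv
    by_contra hk1
    obtain ⟨ν, hν⟩ := hcon k hk hk1
    apply hν
    refine irr_fix fd.Zirr (hK _ (hz k hk)) hv ?_ k (Subgroup.mem_zpowers k) ν
    intro y hy
    obtain ⟨n, rfl⟩ := Subgroup.mem_zpowers_iff.1 hy
    have : k ∈ MulAction.stabilizer H v := hkv
    exact (MulAction.stabilizer H v).zpow_mem this n
  obtain ⟨m, hm⟩ := card_pow fd.pp fd.Mexp
  obtain ⟨f, hf⟩ := card_pow fd.pp fd.Zexp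
  have h3 := card_le fd hrad
  have hp := fd.pp
  have hf1 : 1 ≤ f := by
    rcases Nat.eq_zero_or_pos f with h0 | h0
    · exfalso
      rw [h0, pow_zero] at hf
      have := Finite.one_lt_card (α := Z)
      omega
    · exact h0
  have hfm : f < m := by
    rw [hm, hf, ← pow_succ] at h3
    exact (Nat.pow_le_pow_iff_right hp.one_lt).1 h3
  rw [hm] at h1 hcard
  rw [hf] at h2
  have := arith hp hf1 hfm h1 h2
  omega

end

end Pool.Agent.Lib.MPbe1941.X.END
end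

section
/-!
# MP_be1941_al, exact bound: the end of case II.B, part C: complements in a stabiliser
-/
set_option autoImplicit false

namespace Pool.Agent.Lib.MPbe1941.X.END

open Pool.Agent.Lib.MPbe1941 Pool.Agent.Lib.MPbe1941.X
open scoped commutatorElement

variable {H : Type} [Group H]

theorem card_subgroupOf {E J : Subgroup H} (h : E ≤ J) :
    Nat.card (E.subgroupOf J) = Nat.card E :=
  Nat.card_congr (Subgroup.subgroupOfEquivOfLe h).toEquiv

/-- FRA inside a subgroup `J`. -/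
theorem fra_amb [Finite H] (hFRA : SpecFRA) {J E S : Subgroup H} (hEJ : E ≤ J) (hSJ : S ≤ J)
    (hE : ∀ j ∈ J, ∀ x ∈ E, j * x * j⁻¹ ∈ E) (hab : ∀ x ∈ E, ∀ y ∈ E, x * y = y * x)
    (hco : Nat.Coprime (Nat.card E) (Nat.card S))
    (hES : ∀ j ∈ J, ∀ s ∈ S, j * s * j⁻¹ ∈ E ⊔ S)
    (hfix : ∀ d ∈ E, (∀ s ∈ S, s * d = d * s) → d = 1) :
    ∃ K : Subgroup H, K ≤ J ∧ E ⊓ K = ⊥ ∧ ∀ j ∈ J, j ∈ E ⊔ K := by
  obtain ⟨K, -, h2, h3⟩ := hFRA J (E.subgroupOf J) (S.subgroupOf J)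
    ⟨fun x hx j => hE j j.2 x hx⟩
    (fun x hx y hy => Subtype.ext (hab x hx y hy))
    (by rw [card_subgroupOf hEJ, card_subgroupOf hSJ]; exact hco)
    (by
      rw [← Subgroup.subgroupOf_sup hEJ hSJ]
      refine ⟨fun x hx j => ?_⟩
      show (j : H) * x * (j : H)⁻¹ ∈ E ⊔ S
      have hx' : (x : H) ∈ E ⊔ S := hx
      have hle : XF.Nrm J (E ⊔ S) := by
        intro j hj y hy
        refine XF.sup_ind (S := E) (T := S) (p := fun y => j * y * j⁻¹ ∈ E ⊔ S)
          (fun y hy => Subgroup.mem_sup_left (hE j hj y hy)) (fun y hy => hES j hj y hy)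
          (fun a b ha hb => ?_) hy
        have : j * (a * b) * j⁻¹ = (j * a * j⁻¹) * (j * b * j⁻¹) := by group
        rw [this]
        exact Subgroup.mul_mem _ ha hb
      exact hle j j.2 x hx')
    (fun d hd h => Subtype.ext (hfix d hd (fun s hs => by
      have := h ⟨s, hSJ hs⟩ hs
      exact congrArg Subtype.val this)))
  refine ⟨K.map J.subtype, Subgroup.map_subtype_le _, ?_, ?_⟩
  · rw [eq_bot_iff]
    rintro x ⟨hx, hx2⟩
    obtain ⟨hxJ, hxK⟩ := (CO.SYLM.mem_map K x).1 hx2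
    have h4 : (⟨x, hxJ⟩ : J) ∈ E.subgroupOf J ⊓ K := ⟨hx, hxK⟩
    rw [h2, Subgroup.mem_bot] at h4
    rw [Subgroup.mem_bot]
    exact congrArg Subtype.val h4
  · intro j hj
    have h4 : (⟨j, hj⟩ : J) ∈ E.subgroupOf J ⊔ K := by rw [h3]; trivial
    have h5 : J.subtype ⟨j, hj⟩ ∈ (E.subgroupOf J ⊔ K).map J.subtype :=
      Subgroup.mem_map_of_mem _ h4
    rw [Subgroup.map_sup, Subgroup.subgroupOf_map_subtype, inf_eq_left.2 hEJ] at h5
    exact h5

/-- Schur-Zassenhaus inside `G₁`. -/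
theorem exists_compl [Finite H] {D R G₁ : Subgroup H} (hD : D.Normal)
    (hco : Nat.Coprime (Nat.card D) (Nat.card R)) (hG : G₁ ≤ D ⊔ R) :
    ∃ R' : Subgroup H, R' ≤ G₁ ∧ Nat.Coprime (Nat.card D) (Nat.card R') ∧
      ∀ g ∈ G₁, ∃ e ∈ D ⊓ G₁, ∃ ρ ∈ R', g = e * ρ := by
  have hn : (D.subgroupOf G₁).Normal := hD.subgroupOf G₁
  have h1 : (D.subgroupOf G₁).index ∣ Nat.card R := by
    have e1 : (D.subgroupOf G₁).index = D.relIndex G₁ := rfl
    have e2 : D.relIndex G₁ = D.relIndex (G₁ ⊔ D) := (Subgroup.relIndex_sup_right (H := G₁) (K := D)).symm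
    have e3 := Subgroup.relIndex_mul_relIndex D (G₁ ⊔ D) (R ⊔ D) le_sup_right
      (sup_le (hG.trans (by rw [sup_comm])) le_sup_right)
    have e4 : D.relIndex (R ⊔ D) = D.relIndex R := Subgroup.relIndex_sup_right (H := R) (K := D)
    rw [e1, e2]
    refine (Dvd.intro _ e3).trans ?_
    rw [e4]
    exact Subgroup.relIndex_dvd_card D R
  have h2 : Nat.card (D.subgroupOf G₁) ∣ Nat.card D := by
    have e1 : D.subgroupOf G₁ = (D ⊓ G₁).subgroupOf G₁ := (Subgroup.inf_subgroupOf_right D G₁).symm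
    rw [e1, card_subgroupOf inf_le_right]
    exact Subgroup.card_dvd_of_le inf_le_left
  have h3 : Nat.Coprime (Nat.card (D.subgroupOf G₁)) (D.subgroupOf G₁).index :=
    Nat.Coprime.coprime_dvd_left h2 (Nat.Coprime.coprime_dvd_right h1 hco)
  obtain ⟨K, hK⟩ := Subgroup.exists_right_complement'_of_coprime h3
  refine ⟨K.map G₁.subtype, Subgroup.map_subtype_le _, ?_, ?_⟩
  · have e1 : Nat.card (K.map G₁.subtype) = Nat.card K :=
      Nat.card_congr (K.equivMapOfInjective G₁.subtype G₁.subtype_injective).symm.toEquiv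
    have e2 : Nat.card K = (D.subgroupOf G₁).index := hK.symm.index_eq_card.symm
    rw [e1, e2]
    exact Nat.Coprime.coprime_dvd_right h1 hco
  · intro g hg
    obtain ⟨⟨⟨e, he⟩, ⟨ρ, hρ⟩⟩, h4⟩ := hK.2 ⟨g, hg⟩
    refine ⟨e, ⟨he, e.2⟩, ρ, Subgroup.mem_map_of_mem _ hρ, ?_⟩
    exact (congrArg Subtype.val h4).symm

/-- The subgroup `E₁` of the cyclic group `D ⊓ J` and its complement in `J`. -/
theorem compl_stab [Finite H] (hFRA : SpecFRA) {D R J : Subgroup H} (hD : D.Normal)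
    (hsub : ∀ L : Subgroup H, L ≤ D → L.Normal) (hab : ∀ x ∈ D, ∀ y ∈ D, x * y = y * x)
    (hDR : (D ⊔ R).Normal) (hco : Nat.Coprime (Nat.card D) (Nat.card R)) :
    ∃ E K : Subgroup H, E ≤ D ⊓ J ∧ K ≤ J ∧ E ⊓ K = ⊥ ∧ (∀ j ∈ J, j ∈ E ⊔ K) ∧
      ∀ g ∈ (D ⊔ R) ⊓ J, ∀ x ∈ D ⊓ J, g * x * g⁻¹ * x⁻¹ ∈ E := by
  obtain ⟨R', hR1, hR2, hR3⟩ := exists_compl (G₁ := (D ⊔ R) ⊓ J) hD hco inf_le_left
  set E0 : Subgroup H := D ⊓ J with hE0
  have hE0D : E0 ≤ D := inf_le_left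
  have hE0n : E0.Normal := hsub E0 hE0D
  have hE1 : ⁅E0, R'⁆ ≤ E0 := XF.comm_le (XF.nrm_of_normal hE0n)
  set E : Subgroup H := ⁅E0, R'⁆ with hE
  have hEn : E.Normal := hsub E (hE1.trans hE0D)
  have hE0G : ∀ g ∈ (D ⊔ R) ⊓ J, ∃ e ∈ E0, ∃ ρ ∈ R', g = e * ρ := by
    intro g hg
    obtain ⟨e, he, ρ, hρ, h⟩ := hR3 g hg
    exact ⟨e, ⟨he.1, he.2.2⟩, ρ, hρ, h⟩
  have hcoE0 : Nat.Coprime (Nat.card E0) (Nat.card R') :=
    Nat.Coprime.coprime_dvd_left (Subgroup.card_dvd_of_le hE0D) hR2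
  have hcoE : Nat.Coprime (Nat.card E) (Nat.card R') :=
    Nat.Coprime.coprime_dvd_left (Subgroup.card_dvd_of_le hE1) hcoE0
  have hcomm : ∀ x ∈ E0, ∀ ρ ∈ R', ρ * x * ρ⁻¹ * x⁻¹ ∈ E := by
    intro x hx ρ hρ
    have h1 := XF.comm_mem (K := E0) (S := R') hx hρ
    have h2 : ρ * x * ρ⁻¹ * x⁻¹ = (x * ρ * x⁻¹ * ρ⁻¹)⁻¹ := by group
    rw [h2]
    exact E.inv_mem h1
  obtain ⟨K, hKJ, hEK, hJ⟩ := fra_amb hFRA (J := J) (E := E) (S := R')
    (hE1.trans inf_le_right) (hR1.trans inf_le_right)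
    (fun j _ x hx => hEn.conj_mem x hx j)
    (fun x hx y hy => hab x (hE0D (hE1 hx)) y (hE0D (hE1 hy))) hcoE
    (by
      intro j hj ρ hρ
      have hjG : j * ρ * j⁻¹ ∈ (D ⊔ R) ⊓ J := by
        refine ⟨hDR.conj_mem ρ (hR1 hρ).1 j, ?_⟩
        exact J.mul_mem (J.mul_mem hj (hR1 hρ).2) (J.inv_mem hj)
      obtain ⟨e, he, ρ', hρ', h1⟩ := hE0G _ hjG
      rw [h1]
      refine Subgroup.mul_mem _ (Subgroup.mem_sup_left ?_) (Subgroup.mem_sup_right hρ')
      -- `e ^ n ∈ E`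
      have h2 : (e * ρ') ^ Nat.card R' = 1 := by
        rw [← h1, conj_pow]
        have : ρ ^ Nat.card R' = 1 := by
          have := pow_card_eq_one' (x := (⟨ρ, hρ⟩ : R'))
          exact congrArg Subtype.val this
        rw [this]; group
      have h3 : Commute (QuotientGroup.mk' E e) (QuotientGroup.mk' E ρ') := by
        show QuotientGroup.mk' E e * QuotientGroup.mk' E ρ' =
          QuotientGroup.mk' E ρ' * QuotientGroup.mk' E e
        rw [← map_mul, ← map_mul]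
        symm
        refine QuotientGroup.eq_iff_div_mem.2 ?_
        have h4 := hcomm e he ρ' hρ'
        have h5 : ρ' * e / (e * ρ') = ρ' * e * ρ'⁻¹ * e⁻¹ := by
          rw [div_eq_mul_inv, mul_inv_rev, ← mul_assoc]
        rw [h5]
        exact h4
      have h4 : (QuotientGroup.mk' E ρ') ^ Nat.card R' = 1 := by
        have := pow_card_eq_one' (x := (⟨ρ', hρ'⟩ : R'))
        have h5 : ρ' ^ Nat.card R' = 1 := congrArg Subtype.val this
        rw [← map_pow, h5, map_one]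
      have h5 : (QuotientGroup.mk' E e) ^ Nat.card R' = 1 := by
        have h6 : (QuotientGroup.mk' E (e * ρ')) ^ Nat.card R' = 1 := by
          rw [← map_pow, h2, map_one]
        rw [map_mul, h3.mul_pow, h4, mul_one] at h6
        exact h6
      have h6 : (QuotientGroup.mk' E e) ^ Nat.card E0 = 1 := by
        have := pow_card_eq_one' (x := (⟨e, he⟩ : E0))
        have h5 : e ^ Nat.card E0 = 1 := congrArg Subtype.val this
        rw [← map_pow, h5, map_one]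
      have h7 : orderOf (QuotientGroup.mk' E e) ∣ 1 := by
        rw [← hcoE0]
        exact Nat.dvd_gcd (orderOf_dvd_of_pow_eq_one h6) (orderOf_dvd_of_pow_eq_one h5)
      have h8 : QuotientGroup.mk' E e = 1 := orderOf_eq_one_iff.1 (Nat.dvd_one.1 h7)
      exact (QuotientGroup.eq_one_iff e).1 h8)
    (by
      intro d hd h
      have h1 : d ∈ ⁅E0, R'⁆ ⊓ XF.CK E0 R' := ⟨hd, XF.mem_CK.2 ⟨hE1 hd, h⟩⟩
      rw [XF.comm_inf_cen_cop (XF.nrm_of_normal hE0n) hcoE0.symm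
        (fun x hx y hy => hab x (hE0D hx) y (hE0D hy))] at h1
      exact h1)
  refine ⟨E, K, hE1, hKJ, hEK, hJ, ?_⟩
  intro g hg x hx
  obtain ⟨e, he, ρ, hρ, rfl⟩ := hE0G g hg
  have h1 := hcomm x hx ρ hρ
  have h2 : e * ρ * x * (e * ρ)⁻¹ * x⁻¹ = e * (ρ * x * ρ⁻¹) * e⁻¹ * x⁻¹ := by group
  have h3 : ρ * x * ρ⁻¹ ∈ D := hD.conj_mem x hx.1 ρ
  have h4 : e * (ρ * x * ρ⁻¹) * e⁻¹ = ρ * x * ρ⁻¹ := by
    rw [hab e he.1 _ h3, mul_inv_cancel_right]
  rw [h2, h4]
  exact h1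

/-- A faithful linear character of a cyclic group. -/
theorem exists_gam [Finite H] {D E : Subgroup H} (hcyc : ∃ g ∈ D, ∀ x ∈ D, ∃ n : ℤ, x = g ^ n)
    (hE : E ≤ D) : ∃ gam : H → ℂ, Lin E gam ∧ ∀ x ∈ E, ∀ y ∈ E, gam x = gam y → x = y := by
  classical
  obtain ⟨g, hg, hgen⟩ := hcyc
  have hcD : IsCyclic D := by
    refine ⟨⟨⟨g, hg⟩, fun x => ?_⟩⟩
    obtain ⟨n, hn⟩ := hgen x x.2
    exact Subgroup.mem_zpowers_iff.2 ⟨n, Subtype.ext hn.symm⟩
  have hcE : IsCyclic E := by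
    have h1 : IsCyclic (E.subgroupOf D) := inferInstance
    exact (Subgroup.subgroupOfEquivOfLe hE).isCyclic.1 h1
  have hne : NeZero (Nat.card E) := ⟨Nat.card_pos.ne'⟩
  let φ := (zmodCyclicMulEquiv hcE).symm
  refine ⟨fun x => if h : x ∈ E then ZMod.stdAddChar (Multiplicative.toAdd (φ ⟨x, h⟩)) else 0,
    ⟨?_, ?_⟩, ?_⟩
  · show (if h : (1 : H) ∈ E then ZMod.stdAddChar (Multiplicative.toAdd (φ ⟨1, h⟩)) else 0) = 1
    rw [dif_pos E.one_mem]
    have : φ ⟨1, E.one_mem⟩ = 1 := map_one φ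
    rw [this, toAdd_one, AddChar.map_zero_eq_one]
  · intro x hx y hy
    show (if h : x * y ∈ E then ZMod.stdAddChar (Multiplicative.toAdd (φ ⟨x * y, h⟩)) else 0) =
      (if h : x ∈ E then ZMod.stdAddChar (Multiplicative.toAdd (φ ⟨x, h⟩)) else 0) *
      (if h : y ∈ E then ZMod.stdAddChar (Multiplicative.toAdd (φ ⟨y, h⟩)) else 0)
    rw [dif_pos (E.mul_mem hx hy), dif_pos hx, dif_pos hy]
    have : φ ⟨x * y, E.mul_mem hx hy⟩ = φ ⟨x, hx⟩ * φ ⟨y, hy⟩ := map_mul φ ⟨x, hx⟩ ⟨y, hy⟩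
    rw [this, toAdd_mul, AddChar.map_add_eq_mul]
  · intro x hx y hy
    show (if h : x ∈ E then ZMod.stdAddChar (Multiplicative.toAdd (φ ⟨x, h⟩)) else 0) =
      (if h : y ∈ E then ZMod.stdAddChar (Multiplicative.toAdd (φ ⟨y, h⟩)) else 0) → x = y
    rw [dif_pos hx, dif_pos hy]
    intro h
    have h1 := ZMod.injective_stdAddChar h
    have h2 : φ ⟨x, hx⟩ = φ ⟨y, hy⟩ := h1
    exact congrArg Subtype.val (φ.injective h2)

end Pool.Agent.Lib.MPbe1941.X.END
end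

section
/-!
# MP_be1941_al, exact bound: the end of case II.B (EXACT.md 9.5), module END
-/
set_option autoImplicit false

namespace Pool.Agent.Lib.MPbe1941.X.END

open Pool.Agent.Lib.MPbe1941 Pool.Agent.Lib.MPbe1941.X
open scoped commutatorElement

variable {H M Z : Type} [Group H] [AddCommGroup M] [AddCommGroup Z] [DistribMulAction H M]
    [DistribMulAction H Z] {p : ℕ} {B : Z → M → M → ℂ}

/-- If `s` commutes with `[s,x]` then `[s,x] = 1`, by coprimality. -/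
theorem comm_one {D : Subgroup H} {s x : H} {n m : ℕ} (hco : Nat.Coprime n m)
    (hs : s ^ n = 1) (hD : ∀ y ∈ D, y ^ m = 1) (hu : s * x * s⁻¹ * x⁻¹ ∈ D)
    (hc : s * (s * x * s⁻¹ * x⁻¹) * s⁻¹ = s * x * s⁻¹ * x⁻¹) : s * x * s⁻¹ * x⁻¹ = 1 := by
  obtain ⟨u, hu'⟩ : ∃ u, u = s * x * s⁻¹ * x⁻¹ := ⟨_, rfl⟩
  rw [← hu'] at hu hc ⊢
  have h1 : ∀ k : ℕ, s ^ k * x * (s ^ k)⁻¹ = u ^ k * x := by
    intro k
    induction k with
    | zero => simp
    | succ k ih =>
      have h2 : s ^ (k + 1) * x * (s ^ (k + 1))⁻¹ = s * (s ^ k * x * (s ^ k)⁻¹) * s⁻¹ := by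
        rw [pow_succ']; group
      rw [h2, ih]
      have h3 : s * (u ^ k * x) * s⁻¹ = (s * u * s⁻¹) ^ k * (s * x * s⁻¹) := by
        rw [conj_pow]; group
      have h4 : s * x * s⁻¹ = u * x := by rw [hu']; group
      rw [h3, hc, h4, pow_succ, mul_assoc]
  have h2 := h1 n
  rw [hs] at h2
  have h3 : u ^ n = 1 := by
    have : (1 : H) * x * (1 : H)⁻¹ = x := by group
    rw [this] at h2
    exact (mul_eq_right.1 h2.symm)
  have h4 : orderOf u ∣ 1 := by
    rw [← hco]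
    exact Nat.dvd_gcd (orderOf_dvd_of_pow_eq_one h3) (orderOf_dvd_of_pow_eq_one (hD u hu))
  exact orderOf_eq_one_iff.1 (Nat.dvd_one.1 h4)

theorem pow_card_mem [Finite H] {D : Subgroup H} {x : H} (hx : x ∈ D) : x ^ Nat.card D = 1 := by
  have := pow_card_eq_one' (x := (⟨x, hx⟩ : D))
  exact congrArg Subtype.val this

/-- The case `Rad = 0` (EXACT.md 9.5 (2)). -/
theorem case_two (hFRA : SpecFRA) (fd : FormD H M Z p B) {T : Set ℕ} {C D R : Subgroup H}
    {Pi PiN : Set ℕ} (hT : T.Finite) (hC : ∀ c ∈ C, (∀ x : M, c • x = x) → c = 1)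
    (hN : NIneq T C B) (hD : D.Normal) (hDC : D ≤ C)
    (hcyc : ∃ g ∈ D, ∀ x ∈ D, ∃ n : ℤ, x = g ^ n) (hDR : (D ⊔ R).Normal)
    (hco : Nat.Coprime (Nat.card D) (Nat.card R))
    (hPi : ∀ r ∈ Pi, r ∈ T ∧ r.Prime ∧ ∃ S : Subgroup H, SylIn r ⊤ S ∧ S ≤ R ∧
      Nat.card M ≤ Nat.card (⁅D, S⁆ : Subgroup H) ^ 2)
    (hPiN : ∀ r ∈ PiN, r ∈ T)
    (hall : ∀ r ∈ T, ∀ S : Subgroup H, SylIn r ⊤ S → S ≤ C → r ∈ Pi ∨ r ∈ PiN)
    (hcard : Pi.ncard = PiN.ncard)
    (hrad : ∀ μ : Z, μ ≠ 0 → ∀ x : M, (∀ y, B μ x y = 1) → x = 0) : False := by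
  have hfH := fd.finH
  have hntZ := fd.ntZ
  obtain ⟨μ, hμ⟩ := exists_ne (0 : Z)
  have hsub : ∀ L : Subgroup H, L ≤ D → L.Normal := fun L hL => sub_cyc hD hcyc hL
  have hab : ∀ x ∈ D, ∀ y ∈ D, x * y = y * x := by
    obtain ⟨g, hg, hgen⟩ := hcyc
    intro x hx y hy
    obtain ⟨n, rfl⟩ := hgen x hx
    obtain ⟨m, rfl⟩ := hgen y hy
    exact ((Commute.refl g).zpow_zpow n m).eq
  set lam : AddChar M ℂ := 1 with hlam
  set J : Subgroup H := NSt fd μ lam with hJ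
  have hJμ : ∀ h : H, h ∈ J ↔ h • μ = μ := by
    intro h
    rw [hJ, mem_NSt]
    refine ⟨fun hh => hh.1, fun hh => ⟨hh, fun x hx => ?_⟩⟩
    rw [hrad μ hμ x hx, smul_zero]
  obtain ⟨E, K, hE, hK, hEK, hEKJ, hEcomm⟩ := compl_stab (J := J) hFRA hD hsub hab hDR hco
  obtain ⟨gam, hgam, hgam2⟩ := exists_gam (E := E) hcyc (hE.trans inf_le_left)
  have hEn : E.Normal := hsub E (hE.trans inf_le_left)
  have h1 := hN μ lam E K gam hμ ((hE.trans inf_le_left).trans hDC)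
    (fun x hx y hy => hab x (hE hx).1 y (hE hy).1)
    (fun x hx => (hE hx).2) (fun h _ x hx => hEn.conj_mem x hx h) (fun k hk => hK hk) hEK
    (fun h hh => hEKJ h hh) hgam
  -- every `r ∈ Pi` is killed
  have hkill : Pi ⊆ {r | r ∈ T ∧ ∀ S : Subgroup H, SylIn r ⊤ S →
        ∃ s ∈ S, ¬ (NFix B μ lam s ∧ FixB E gam s)} := by
    intro r hr
    obtain ⟨hrT, hrp, S, hS, hSR, hScard⟩ := hPi r hr
    refine ⟨hrT, fun S' hS' => ?_⟩
    by_contra hcon
    push Not at hcon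
    -- `S'` centralises `E`
    have hcen : ∀ s ∈ S', ∀ x ∈ E, s * x * s⁻¹ = x := by
      intro s hs x hx
      exact hgam2 _ (hEn.conj_mem x hx s) _ hx ((hcon s hs).2 x hx)
    obtain ⟨g, -, hg⟩ := (CO.specSYL H r hrp).2.2.1 ⊤ S S' hS hS'
    have hS'DR : S' ≤ D ⊔ R := by
      intro x hx
      have h2 := hDR.conj_mem _ (Subgroup.mem_sup_right (hSR ((hg x).1 hx))) g
      have e : g * (g⁻¹ * x * g) * g⁻¹ = x := by group
      rwa [e] at h2
    have hS'J : S' ≤ J := fun s hs => (hcon s hs).1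
    -- order of `S`
    have hcoS : Nat.Coprime (Nat.card D) (Nat.card S) :=
      Nat.Coprime.coprime_dvd_right (Subgroup.card_dvd_of_le hSR) hco
    have hDS : (⁅D, S⁆ : Subgroup H) ≤ D := XF.comm_le (XF.nrm_of_normal hD)
    obtain ⟨x, hx, hx1, hxZ⟩ := exists_triv fd hrad hC (hDS.trans hDC)
      (fun L hL => hsub L (hL.trans hDS)) hScard
    -- `x` is centralised by `S`
    have hxJ : x ∈ J := (hJμ x).2 (hxZ μ)
    have hxcen : ∀ s ∈ S', s * x * s⁻¹ * x⁻¹ = 1 := by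
      intro s hs
      have hsn : s ^ Nat.card S = 1 := by
        have h3 : (g⁻¹ * s * g) ^ Nat.card S = 1 := pow_card_mem ((hg s).1 hs)
        have h4 : g⁻¹ * s * g = g⁻¹ * s * (g⁻¹)⁻¹ := by group
        rw [h4, conj_pow] at h3
        have h5 : s ^ Nat.card S = g * (g⁻¹ * s ^ Nat.card S * (g⁻¹)⁻¹) * g⁻¹ := by group
        rw [h5, h3]; group
      have hu := hEcomm s ⟨hS'DR hs, hS'J hs⟩ x ⟨hDS hx, hxJ⟩
      exact comm_one (D := D) (n := Nat.card S) (m := Nat.card D) hcoS.symm hsn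
        (fun y hy => pow_card_mem hy) (hE hu).1 (hcen s hs _ hu)
    -- so `x` is centralised by `S`, in `[D,S]`
    have hx2 : g⁻¹ * x * g ∈ (⁅D, S⁆ : Subgroup H) := by
      have := (hsub _ hDS).conj_mem x hx g⁻¹
      simpa using this
    have hx3 : g⁻¹ * x * g ∈ ⁅D, S⁆ ⊓ XF.CK D S := by
      refine ⟨hx2, XF.mem_CK.2 ⟨hDS hx2, fun s hs => ?_⟩⟩
      have h3 : g * s * g⁻¹ ∈ S' := by
        rw [hg]
        have : g⁻¹ * (g * s * g⁻¹) * g = s := by group
        rwa [this]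
      have h4 := hxcen _ h3
      have h5 : g * s * g⁻¹ * x = x * (g * s * g⁻¹) := by
        have h6 := mul_inv_eq_one.1 h4
        have h7 := mul_inv_eq_iff_eq_mul.1 h6
        exact h7
      calc s * (g⁻¹ * x * g) = g⁻¹ * (g * s * g⁻¹ * x) * g := by group
        _ = g⁻¹ * (x * (g * s * g⁻¹)) * g := by rw [h5]
        _ = g⁻¹ * x * g * s := by group
    rw [XF.comm_inf_cen_cop (XF.nrm_of_normal hD) hcoS.symm hab, Subgroup.mem_bot] at hx3
    apply hx1
    have : x = g * (g⁻¹ * x * g) * g⁻¹ := by group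
    rw [this, hx3]; group
  have hM : {r | r ∈ T ∧ ∃ S : Subgroup H, SylIn r ⊤ S ∧ S ≤ C ∧
        (∀ s ∈ S, NFix B μ lam s ∧ FixB E gam s) ∧
        (∀ x ∈ S, ∀ y ∈ S, x * y * x⁻¹ * y⁻¹ ∈ E) ∧
        ∀ h, NFix B μ lam h → FixB E gam h → ∀ s ∈ S, h * s * h⁻¹ ∈ S ⊔ E} ⊆ PiN := by
    rintro r ⟨hrT, S, hS, hSC, hSf, -, -⟩
    rcases hall r hrT S hS hSC with h | h
    · exfalso
      obtain ⟨s, hs, hs2⟩ := (hkill h).2 S hS
      exact hs2 (hSf s hs)
    · exact h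
  have h4 := Set.ncard_le_ncard hkill (hT.subset (fun r hr => hr.1))
  have h5 := Set.ncard_le_ncard hM (hT.subset hPiN)
  omega

end Pool.Agent.Lib.MPbe1941.X.END

namespace Pool.Agent.Lib.MPbe1941.X

open END in
/-- **END**. -/
theorem specEND (hFRA : SpecFRA) : SpecEND := by
  intro H M Z _ _ _ _ _ p B fd T C D R Pi PiN hT hC hN hD hDC hcyc hDR hco hPi hPiN hall hcard
  by_cases hcase : ∃ μ : Z, μ ≠ 0 ∧ ∃ x : M, x ≠ 0 ∧ ∀ y, B μ x y = 1
  · obtain ⟨μ, hμ, x, hx0, hx⟩ := hcase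
    exact case_one fd hT hC hN (fun r hr => (hPi r hr).1) hPiN hall hcard hμ hx0 hx
  · push Not at hcase
    refine case_two hFRA fd hT hC hN hD hDC hcyc hDR hco hPi (fun r hr => (hPiN r hr).1) hall hcard
      (fun μ hμ x hx => ?_)
    by_contra hx0
    obtain ⟨y, hy⟩ := hcase μ hμ x hx0
    exact hy (hx y)

end Pool.Agent.Lib.MPbe1941.X
end

section
/-!
# MP_be1941_al, exact bound: 9.5 in module form (no bilinear forms)

`X`, `Z` irreducible modules of the `p'`-group `H`, `C` faithful on `X`, `Rd μ` the annihilator of the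
radical of `μ` (a subgroup of `X`).
-/
set_option autoImplicit false

namespace Pool.Agent.Lib.MPbe1941.X.END

open Pool.Agent.Lib.MPbe1941 Pool.Agent.Lib.MPbe1941.X
open scoped commutatorElement

/-- A normal subgroup `S ≠ 1` contained in `C`, which fixes `nu` modulo a subgroup `A` invariant under
`S`: `nu ∈ A`. -/
theorem nu_mem {H X : Type} [Group H] [Finite H] [AddCommGroup X] [DistribMulAction H X] {p : ℕ}
    (pp : p.Prime) (pn : ¬ p ∣ Nat.card H) (px : ∀ x : X, p • x = 0)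
    (irr : ∀ A : AddSubgroup X, (∀ h : H, ∀ x ∈ A, h • x ∈ A) → A = ⊥ ∨ A = ⊤)
    {C S : Subgroup H} (hC : ∀ c ∈ C, (∀ x : X, c • x = x) → c = 1) (hS : S.Normal) (hSC : S ≤ C)
    (hne : S ≠ ⊥) {A : AddSubgroup X} {nu : X} (h : ∀ s ∈ S, s • nu - nu ∈ A) : nu ∈ A := by
  have hfin : Finite S := inferInstance
  have hft : Fintype S := Fintype.ofFinite S
  set y : X := ∑ s : S, (s : H) • nu with hy
  have hy0 : y = 0 := by
    by_contra hne0
    have hfix : ∀ s ∈ S, s • y = y := by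
      intro s hs
      rw [hy, Finset.smul_sum]
      refine Fintype.sum_bijective (fun t : S => (⟨s, hs⟩ : S) * t)
        (Group.mulLeft_bijective _) _ _ ?_
      intro t
      rw [Subgroup.coe_mul, mul_smul]
    have h1 := irr_fix irr hS hne0 hfix
    apply hne
    rw [Subgroup.eq_bot_iff_forall]
    intro s hs
    exact hC s (hSC hs) (h1 s hs)
  have h2 : Nat.card S • nu ∈ A := by
    have h3 : y - Nat.card S • nu ∈ A := by
      have e : y - Nat.card S • nu = ∑ s : S, ((s : H) • nu - nu) := by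
        rw [Finset.sum_sub_distrib, Finset.sum_const, Finset.card_univ, Nat.card_eq_fintype_card]
      rw [e]
      exact A.sum_mem (fun s _ => h s s.2)
    rw [hy0, zero_sub] at h3
    exact (A.neg_mem_iff).1 h3
  have hcop : Nat.Coprime (Nat.card S) p := by
    rw [Nat.coprime_comm, Nat.Prime.coprime_iff_not_dvd pp]
    intro h
    exact pn (h.trans (Subgroup.card_subgroup_dvd_card S))
  have h4 := Int.isCoprime_iff_gcd_eq_one.2 (by exact_mod_cast hcop : Int.gcd (Nat.card S) p = 1)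
  obtain ⟨a, b, hab⟩ := h4
  have h5 : nu = a • (Nat.card S • nu) + b • (p • nu) := by
    rw [← natCast_zsmul nu (Nat.card S), ← natCast_zsmul nu p, smul_smul, smul_smul, ← add_smul,
      hab, one_smul]
  rw [h5, px, smul_zero, add_zero]
  exact A.zsmul_mem h2 a

/-- Two modules, `|Z| p ≤ |X|`: a cyclic group `K` with `|X| ≤ |K|²`, all of whose subgroups are normal,
contains an element `≠ 1` trivial on `Z`. -/
theorem exists_triv_mod {H X Z : Type} [Group H] [Finite H] [AddCommGroup X] [Finite X]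
    [DistribMulAction H X] [AddCommGroup Z] [Finite Z] [Nontrivial Z] [DistribMulAction H Z]
    {p : ℕ} (pp : p.Prime) (px : ∀ x : X, p • x = 0) (pz : ∀ x : Z, p • x = 0)
    (irX : ∀ A : AddSubgroup X, (∀ h : H, ∀ x ∈ A, h • x ∈ A) → A = ⊥ ∨ A = ⊤)
    (irZ : ∀ A : AddSubgroup Z, (∀ h : H, ∀ x ∈ A, h • x ∈ A) → A = ⊥ ∨ A = ⊤)
    (hZX : p * Nat.card Z ≤ Nat.card X) {C K : Subgroup H}
    (hC : ∀ c ∈ C, (∀ x : X, c • x = x) → c = 1) (hKC : K ≤ C)
    (hK : ∀ L : Subgroup H, L ≤ K → L.Normal) (hcard : Nat.card X ≤ Nat.card K ^ 2) :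
    ∃ k ∈ K, k ≠ 1 ∧ ∀ μ : Z, k • μ = μ := by
  by_contra hcon
  push Not at hcon
  have hz : ∀ k ∈ K, Subgroup.zpowers k ≤ K := fun k hk =>
    (Subgroup.zpowers_le (g := k) (H := K)).2 hk
  have h1 : Nat.card K ∣ Nat.card X - 1 := by
    apply dvd_card_sub_one K
    intro k hk v hv hkv
    apply hC k (hKC hk)
    refine irr_fix irX (hK _ (hz k hk)) hv ?_ k (Subgroup.mem_zpowers k)
    intro y hy
    obtain ⟨n, rfl⟩ := Subgroup.mem_zpowers_iff.1 hy
    have : k ∈ MulAction.stabilizer H v := hkv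
    exact (MulAction.stabilizer H v).zpow_mem this n
  have h2 : Nat.card K ∣ Nat.card Z - 1 := by
    apply dvd_card_sub_one K
    intro k hk v hv hkv
    by_contra hk1
    obtain ⟨ν, hν⟩ := hcon k hk hk1
    apply hν
    refine irr_fix irZ (hK _ (hz k hk)) hv ?_ k (Subgroup.mem_zpowers k) ν
    intro y hy
    obtain ⟨n, rfl⟩ := Subgroup.mem_zpowers_iff.1 hy
    have : k ∈ MulAction.stabilizer H v := hkv
    exact (MulAction.stabilizer H v).zpow_mem this n
  obtain ⟨m, hm⟩ := card_pow pp px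
  obtain ⟨f, hf⟩ := card_pow pp pz
  have hf1 : 1 ≤ f := by
    rcases Nat.eq_zero_or_pos f with h0 | h0
    · exfalso
      rw [h0, pow_zero] at hf
      have := Finite.one_lt_card (α := Z)
      omega
    · exact h0
  have hfm : f < m := by
    rw [hm, hf, ← pow_succ'] at hZX
    exact (Nat.pow_le_pow_iff_right pp.one_lt).1 hZX
  rw [hm] at h1 hcard
  rw [hf] at h2
  have := arith pp hf1 hfm h1 h2
  omega

/-- The group-theoretic part of 9.5 (2): `J` a subgroup, `D` normal cyclic, `D R` normal, coprime. -/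
theorem kill_two (hFRA : SpecFRA) {H : Type} [Group H] [Finite H] {D R J : Subgroup H}
    (hD : D.Normal) (hcyc : ∃ g ∈ D, ∀ x ∈ D, ∃ n : ℤ, x = g ^ n) (hDR : (D ⊔ R).Normal)
    (hco : Nat.Coprime (Nat.card D) (Nat.card R)) :
    ∃ (E K : Subgroup H) (gam : H → ℂ), E ≤ D ⊓ J ∧ E.Normal ∧
      (∀ x ∈ E, ∀ y ∈ E, x * y = y * x) ∧ K ≤ J ∧ E ⊓ K = ⊥ ∧ E ⊔ K = J ∧
      Lin E gam ∧ (∀ h, FixB E gam h → ∀ x ∈ E, h * x * h⁻¹ = x) ∧
      ∀ r, r.Prime → ∀ S S' : Subgroup H, SylIn r ⊤ S → S ≤ R → SylIn r ⊤ S' → S' ≤ J →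
        (∀ s ∈ S', FixB E gam s) → ∀ x ∈ (⁅D, S⁆ : Subgroup H), x ∈ J → x = 1 := by
  have hsub : ∀ L : Subgroup H, L ≤ D → L.Normal := fun L hL => sub_cyc hD hcyc hL
  have hab : ∀ x ∈ D, ∀ y ∈ D, x * y = y * x := by
    obtain ⟨g, hg, hgen⟩ := hcyc
    intro x hx y hy
    obtain ⟨n, rfl⟩ := hgen x hx
    obtain ⟨m, rfl⟩ := hgen y hy
    exact ((Commute.refl g).zpow_zpow n m).eq
  obtain ⟨E, K, hE, hK, hEK, hEKJ, hEcomm⟩ := compl_stab (J := J) hFRA hD hsub hab hDR hco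
  obtain ⟨gam, hgam, hgam2⟩ := exists_gam (E := E) hcyc (hE.trans inf_le_left)
  have hEn : E.Normal := hsub E (hE.trans inf_le_left)
  have hfixE : ∀ h, FixB E gam h → ∀ x ∈ E, h * x * h⁻¹ = x := by
    intro h hh x hx
    exact hgam2 _ (hEn.conj_mem x hx h) _ hx (hh x hx)
  refine ⟨E, K, gam, hE, hEn, fun x hx y hy => hab x (hE hx).1 y (hE hy).1, hK, hEK,
    le_antisymm (sup_le (hE.trans inf_le_right) hK) (fun j hj => hEKJ j hj), hgam, hfixE, ?_⟩
  intro r hrp S S' hS hSR hS' hS'J hfix x hx hxJ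
  have hcen : ∀ s ∈ S', ∀ x ∈ E, s * x * s⁻¹ = x := fun s hs => hfixE s (hfix s hs)
  obtain ⟨g, -, hg⟩ := (CO.specSYL H r hrp).2.2.1 ⊤ S S' hS hS'
  have hS'DR : S' ≤ D ⊔ R := by
    intro x hx
    have h2 := hDR.conj_mem _ (Subgroup.mem_sup_right (hSR ((hg x).1 hx))) g
    have e : g * (g⁻¹ * x * g) * g⁻¹ = x := by group
    rwa [e] at h2
  have hcoS : Nat.Coprime (Nat.card D) (Nat.card S) :=
    Nat.Coprime.coprime_dvd_right (Subgroup.card_dvd_of_le hSR) hco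
  have hDS : (⁅D, S⁆ : Subgroup H) ≤ D := XF.comm_le (XF.nrm_of_normal hD)
  have hxcen : ∀ s ∈ S', s * x * s⁻¹ * x⁻¹ = 1 := by
    intro s hs
    have hsn : s ^ Nat.card S = 1 := by
      have h3 : (g⁻¹ * s * g) ^ Nat.card S = 1 := pow_card_mem ((hg s).1 hs)
      have h4 : g⁻¹ * s * g = g⁻¹ * s * (g⁻¹)⁻¹ := by group
      rw [h4, conj_pow] at h3
      have h5 : s ^ Nat.card S = g * (g⁻¹ * s ^ Nat.card S * (g⁻¹)⁻¹) * g⁻¹ := by group
      rw [h5, h3]; group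
    have hu := hEcomm s ⟨hS'DR hs, hS'J hs⟩ x ⟨hDS hx, hxJ⟩
    exact comm_one (D := D) (n := Nat.card S) (m := Nat.card D) hcoS.symm hsn
      (fun y hy => pow_card_mem hy) (hE hu).1 (hcen s hs _ hu)
  have hx2 : g⁻¹ * x * g ∈ (⁅D, S⁆ : Subgroup H) := by
    have := (hsub _ hDS).conj_mem x hx g⁻¹
    simpa using this
  have hx3 : g⁻¹ * x * g ∈ ⁅D, S⁆ ⊓ XF.CK D S := by
    refine ⟨hx2, XF.mem_CK.2 ⟨hDS hx2, fun s hs => ?_⟩⟩
    have h3 : g * s * g⁻¹ ∈ S' := by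
      rw [hg]
      have : g⁻¹ * (g * s * g⁻¹) * g = s := by group
      rwa [this]
    have h4 := hxcen _ h3
    have h5 : g * s * g⁻¹ * x = x * (g * s * g⁻¹) := by
      have h6 := mul_inv_eq_one.1 h4
      have h7 := mul_inv_eq_iff_eq_mul.1 h6
      exact h7
    calc s * (g⁻¹ * x * g) = g⁻¹ * (g * s * g⁻¹ * x) * g := by group
      _ = g⁻¹ * (x * (g * s * g⁻¹)) * g := by rw [h5]
      _ = g⁻¹ * x * g * s := by group
  rw [XF.comm_inf_cen_cop (XF.nrm_of_normal hD) hcoS.symm hab, Subgroup.mem_bot] at hx3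
  have : x = g * (g⁻¹ * x * g) * g⁻¹ := by group
  rw [this, hx3]; group

/-- `q - 1 = d (f - 1)`, `q = f^r`, `r ≥ 2`: `q ≤ d²`. -/
theorem card_sq {q d f r : ℕ} (hr : 2 ≤ r) (hq : 2 ≤ q) (h1 : q - 1 = d * (f - 1))
    (h2 : q = f ^ r) : q ≤ d ^ 2 := by
  have hf : 2 ≤ f := by
    rcases Nat.lt_or_ge f 2 with h | h
    · exfalso
      have : f ^ r ≤ 1 := by
        interval_cases f
        · rw [zero_pow (by omega)]; omega
        · rw [one_pow]
      omega
    · exact h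
  have h3 : f ^ (r - 1) ≤ d := by
    by_contra hlt
    push Not at hlt
    have h4 : d * (f - 1) ≤ (f ^ (r - 1) - 1) * (f - 1) := Nat.mul_le_mul_right _ (by omega)
    have h5 : 1 ≤ f ^ (r - 1) := Nat.one_le_pow _ _ (by omega)
    have h6 : f ^ r = f ^ (r - 1) * f := by rw [← pow_succ]; congr 1; omega
    have h7 : (f ^ (r - 1) - 1) * (f - 1) + (f ^ (r - 1) + f - 1) = f ^ (r - 1) * f := by
      obtain ⟨a, ha⟩ : ∃ a, f ^ (r - 1) = a + 1 := ⟨f ^ (r - 1) - 1, by omega⟩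
      obtain ⟨b, hb⟩ : ∃ b, f = b + 1 := ⟨f - 1, by omega⟩
      rw [ha, hb]
      have e1 : a + 1 - 1 = a := by omega
      have e2 : b + 1 - 1 = b := by omega
      have e3 : a + 1 + (b + 1) - 1 = a + b + 1 := by omega
      rw [e1, e2, e3]; ring
    rw [← h1, h2, h6] at h4
    omega
  calc q = f ^ r := h2
    _ ≤ f ^ (2 * (r - 1)) := Nat.pow_le_pow_right (by omega) (by omega)
    _ = (f ^ (r - 1)) ^ 2 := by rw [← pow_mul, mul_comm]
    _ ≤ d ^ 2 := Nat.pow_le_pow_left h3 2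

end Pool.Agent.Lib.MPbe1941.X.END
end

section
/-!
# MP_be1941_al, exact bound: E9 (EXACT.md 9.5), the end of case II.B
-/
set_option autoImplicit false

namespace Pool.Agent.Lib.MPbe1941.X

open Pool.Agent.Lib.MPbe1941
open Pool.Agent.Lib.MPbe1941.XF
open scoped commutatorElement

namespace E9M

variable {H : Type} [Group H]

/-- The subgroup of the elements of `J` fixing the character `bet` of the normal subgroup `E`. -/
def FixG (J E : Subgroup H) (hE : E.Normal) (bet : H → ℂ) : Subgroup H where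
  carrier := {h | h ∈ J ∧ FixB E bet h}
  one_mem' := ⟨J.one_mem, fun x _ => by simp⟩
  mul_mem' := by
    rintro a b ⟨ha, ha'⟩ ⟨hb, hb'⟩
    refine ⟨J.mul_mem ha hb, fun x hx => ?_⟩
    have e : a * b * x * (a * b)⁻¹ = a * (b * x * b⁻¹) * a⁻¹ := by group
    rw [e, ha' _ (hE.conj_mem x hx b), hb' x hx]
  inv_mem' := by
    rintro a ⟨ha, ha'⟩
    refine ⟨J.inv_mem ha, fun x hx => ?_⟩
    have h1 : a⁻¹ * x * a⁻¹⁻¹ ∈ E := hE.conj_mem x hx a⁻¹
    have h2 := ha' _ h1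
    have e : a * (a⁻¹ * x * a⁻¹⁻¹) * a⁻¹ = x := by group
    rw [e] at h2
    exact h2.symm

theorem mem_FixG {J E : Subgroup H} {hE : E.Normal} {bet : H → ℂ} {h : H} :
    h ∈ FixG J E hE bet ↔ h ∈ J ∧ FixB E bet h := Iff.rfl

theorem mem_chA {T : Finset ℕ} {S : Subgroup H} {r : ℕ} :
    r ∈ chA T S ↔ r ∈ T ∧ r ∣ S.index := by
  classical
  simp [chA]

theorem mem_chM {C : Subgroup H} {T : Finset ℕ} {S D : Subgroup H} {r : ℕ} :
    r ∈ chM C T S D ↔ r ∈ T ∧ ¬ r ∣ S.index ∧ ∃ R : Subgroup H, SylIn r ⊤ R ∧ R ≤ S ∧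
    R ≤ C ∧ (∀ x ∈ R, ∀ y ∈ R, x * y * x⁻¹ * y⁻¹ ∈ D) ∧ ∀ s ∈ S, ∀ t ∈ R, s * t * s⁻¹ ∈ D ⊔ R := by
  classical
  simp [chM]

/-- If `r` does not divide the index of `S` then `S` contains a Sylow `r`-subgroup of `H`. -/
theorem exists_syl [Finite H] {r : ℕ} (hr : r.Prime) {S : Subgroup H} (h : ¬ r ∣ S.index) :
    ∃ R, SylIn r ⊤ R ∧ R ≤ S := by
  by_contra hne
  exact h ((CO.specSYL H r hr).2.2.2.2.2.2.1 S hne)

end E9M

open E9M END in
/-- **E9**. -/
theorem specE9 (hPRT : SpecPRT) (hUFI : SpecUFI) : SpecE9 := by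
  intro H X Zd _ _ _ _ _ C T p Rm dat ts
  have hfH := dat.finH
  have hfX := dat.finX
  have hfZ := dat.finZ
  have hntZ := dat.ntZ
  obtain ⟨D, R0, Pi, PN, hDn, hDC, hcyc, hDR, hco, hPi, hPN, hall, hcard, -⟩ :=
    hUFI H X p C T ts (hPRT H X p C T ts) dat.idx
  have irX : ∀ A : AddSubgroup X, (∀ h : H, ∀ x ∈ A, h • x ∈ A) → A = ⊥ ∨ A = ⊤ := ts.irr
  have irZ : ∀ A : AddSubgroup Zd, (∀ h : H, ∀ x ∈ A, h • x ∈ A) → A = ⊥ ∨ A = ⊤ := dat.irr
  by_cases hcase : ∃ μ : Zd, μ ≠ 0 ∧ Rm μ ≠ ⊤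
  · -- case 1
    obtain ⟨μ, hμ, hR⟩ := hcase
    obtain ⟨ν, hν⟩ : ∃ ν, ν ∉ Rm μ := by
      by_contra hcon
      push Not at hcon
      exact hR (eq_top_iff.2 (fun x _ => hcon x))
    let S0 : Subgroup H :=
      { carrier := {h | h • μ = μ ∧ h • ν - ν ∈ Rm μ}
        one_mem' := ⟨one_smul H μ, by rw [one_smul, sub_self]; exact (Rm μ).zero_mem⟩
        mul_mem' := by
          rintro a b ⟨ha, ha'⟩ ⟨hb, hb'⟩
          refine ⟨by rw [mul_smul, hb, ha], ?_⟩
          have h1 := dat.rin μ a ha _ hb'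
          have e : (a * b) • ν - ν = a • (b • ν - ν) + (a • ν - ν) := by
            rw [smul_sub, mul_smul]; abel
          rw [e]
          exact (Rm μ).add_mem h1 ha'
        inv_mem' := by
          rintro a ⟨ha, ha'⟩
          have hi : a⁻¹ • μ = μ := by rw [inv_smul_eq_iff, ha]
          refine ⟨hi, ?_⟩
          have h1 := dat.rin μ a⁻¹ hi _ ha'
          have e : a⁻¹ • (a • ν - ν) = -(a⁻¹ • ν - ν) := by
            rw [smul_sub, smul_smul, inv_mul_cancel, one_smul]; abel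
          rw [e] at h1
          exact (AddSubgroup.neg_mem_iff _).1 h1 }
    have hS0 : ∀ h, h ∈ S0 ↔ h • μ = μ ∧ h • ν - ν ∈ Rm μ := fun h => Iff.rfl
    have hiq := dat.stN μ ν hμ S0 hS0 S0 ⊥ S0 Ch.base
    have h1 : PN ⊆ chA T S0 := by
      intro r hr
      obtain ⟨hrT, hrp, S, hS, hSn, hSC, hSne⟩ := hPN r hr
      rw [mem_chA]
      refine ⟨hrT, ?_⟩
      by_contra hdvd
      obtain ⟨S', hS', hle⟩ := exists_syl hrp hdvd
      rw [sylIn_normal hrp hS hSn hS'] at hle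
      exact hν (nu_mem dat.pp dat.pn dat.px irX dat.faith hSn hSC hSne
        (fun s hs => ((hS0 s).1 (hle hs)).2))
    have h2 : chM C T S0 ⊥ ⊆ Pi := by
      intro r hr
      rw [mem_chM] at hr
      obtain ⟨hrT, hrd, S, hS, -, hSC, -, -⟩ := hr
      rcases hall r hrT S hS hSC with h | h
      · exact h
      · exact absurd (mem_chA.1 (h1 h)).2 hrd
    have h3 := Finset.card_le_card h1
    have h4 := Finset.card_le_card h2
    unfold Iq at hiq
    omega
  · -- case 2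
    push Not at hcase
    have hZX := dat.ndg hcase
    obtain ⟨μ, hμ⟩ := exists_ne (0 : Zd)
    set J : Subgroup H := Stb ⊤ μ with hJ
    have hJm : ∀ h, h ∈ J ↔ h • μ = μ := fun h =>
      ⟨fun hh => hh.2, fun hh => ⟨Subgroup.mem_top h, hh⟩⟩
    obtain ⟨E, K, gam, hE, hEn, hEab, hK, hEK, hEKJ, hgam, hfixE, hkill⟩ :=
      kill_two specFRA (J := J) hDn hcyc hDR hco
    have hEJ : E ≤ J := hE.trans inf_le_right
    have hEC : E ≤ C := (hE.trans inf_le_left).trans hDC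
    set K' : Subgroup H := FixG K E hEn gam with hK'
    have hch := Ch.step (C := C) (S0 := J) E K K' gam Ch.base hEJ hEC hEab
      (fun k _ x hx => hEn.conj_mem x hx k) hK hEK hEKJ hgam (fun k => mem_FixG)
    have hiq := dat.stN μ 0 hμ J (fun h => by
      rw [hJm, smul_zero, sub_self]
      exact ⟨fun hh => ⟨hh, (Rm μ).zero_mem⟩, fun hh => hh.1⟩) _ _ _ hch
    have hS : ⊥ ⊔ E ⊔ K' ≤ FixG J E hEn gam := by
      refine sup_le (sup_le bot_le (fun e he => ⟨hEJ he, fun x hx => ?_⟩))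
        (fun k hk => ⟨hK hk.1, hk.2⟩)
      rw [hEab e he x hx, mul_inv_cancel_right]
    have h1 : Pi ⊆ chA T (⊥ ⊔ E ⊔ K') := by
      intro r hr
      obtain ⟨hrT, hrp, S, hSyl, hSR, hScard⟩ := hPi r hr
      rw [mem_chA]
      refine ⟨hrT, ?_⟩
      by_contra hdvd
      obtain ⟨S', hS', hle⟩ := exists_syl hrp hdvd
      have hle' := hle.trans hS
      have hDS : (⁅D, S⁆ : Subgroup H) ≤ D := comm_le (nrm_of_normal hDn)
      obtain ⟨x, hx, hx1, hxZ⟩ := exists_triv_mod dat.pp dat.px dat.pz irX irZ hZX dat.faith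
        (hDS.trans hDC) (fun L hL => sub_cyc hDn hcyc (hL.trans hDS)) hScard
      exact hx1 (hkill r hrp S S' hSyl hSR hS' (fun s hs => (hle' hs).1)
        (fun s hs => (hle' hs).2) x hx ((hJm x).2 (hxZ μ)))
    have h2 : chM C T (⊥ ⊔ E ⊔ K') (⊥ ⊔ E) ⊆ PN := by
      intro r hr
      rw [mem_chM] at hr
      obtain ⟨hrT, hrd, S, hS, -, hSC, -, -⟩ := hr
      rcases hall r hrT S hS hSC with h | h
      · exact absurd (mem_chA.1 (h1 h)).2 hrd
      · exact h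
    have h3 := Finset.card_le_card h1
    have h4 := Finset.card_le_card h2
    unfold Iq at hiq
    omega

end Pool.Agent.Lib.MPbe1941.X
end

section
/-!
# MP_be1941_al EXACT, block D: FA3
-/
set_option autoImplicit false

namespace Pool.Agent.Lib.MPbe1941.X

open Pool.Agent.Lib.MPbe1941

namespace FA3M

variable {H X : Type} [Group H] [AddCommGroup X] [DistribMulAction H X]

theorem mem_FixY {B : Subgroup H} {x : X} : x ∈ FixY X B ↔ ∀ b ∈ B, b • x = x := Iff.rfl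

theorem mem_CenX {C : Subgroup H} {A : AddSubgroup X} {c : H} :
    c ∈ CenX C A ↔ c ∈ C ∧ ∀ x ∈ A, c • x = x := Iff.rfl

/-- The fixed points of a normal subgroup are invariant. -/
theorem hinv_FixY {B : Subgroup H} (hB : B.Normal) : HInv H (FixY X B) := by
  intro h x hx b hb
  have h1 : h⁻¹ * b * h ∈ B := by
    have := hB.conj_mem b hb h⁻¹
    rwa [inv_inv] at this
  have h2 := hx _ h1
  rw [← smul_smul, ← smul_smul, inv_smul_eq_iff] at h2
  exact h2

/-- `C_C(A)` is normal if `A` is invariant. -/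
theorem CenX_conj {C : Subgroup H} {A : AddSubgroup X} (hC : C.Normal) (hA : HInv H A) {c : H}
    (hc : c ∈ CenX C A) (h : H) : h * c * h⁻¹ ∈ CenX C A := by
  refine ⟨hC.conj_mem c hc.1 h, fun x hx => ?_⟩
  rw [mul_smul, mul_smul, hc.2 _ (hA h⁻¹ x hx), smul_inv_smul]

/-- (a): if `B` is non-trivial on the invariant subgroup `A`, then `X1 ≤ A`. -/
theorem le_of_nt {B : Subgroup H} {X1 A : AddSubgroup X} (hX1 : HInv H X1)
    (hsup : X1 ⊔ FixY X B = ⊤)
    (hirr : ∀ A : AddSubgroup X, A ≤ X1 → HInv H A → A = ⊥ ∨ A = X1)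
    (hA : HInv H A) (hnt : ¬ ∀ t ∈ B, ∀ x ∈ A, t • x = x) : X1 ≤ A := by
  push Not at hnt
  obtain ⟨t, ht, x, hx, hne⟩ := hnt
  have h1 : x ∈ X1 ⊔ FixY X B := by rw [hsup]; trivial
  obtain ⟨x1, hx1, f, hf, rfl⟩ := AddSubgroup.mem_sup.1 h1
  have h2 : t • (x1 + f) - (x1 + f) = t • x1 - x1 := by
    rw [smul_add, mem_FixY.1 hf t ht]
    abel
  have h3 : t • x1 - x1 ∈ A ⊓ X1 := by
    refine ⟨?_, X1.sub_mem (hX1 t x1 hx1) hx1⟩
    have := A.sub_mem (hA t _ hx) hx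
    rwa [h2] at this
  have h4 : t • x1 - x1 ≠ 0 := by
    rw [← h2, sub_ne_zero]
    exact hne
  rcases hirr (A ⊓ X1) inf_le_right (fun h y hy => ⟨hA h y hy.1, hX1 h y hy.2⟩) with h5 | h5
  · rw [h5, AddSubgroup.mem_bot] at h3
    exact absurd h3 h4
  · rw [← h5]
    exact inf_le_left

/-- The restricted action on an invariant subgroup. -/
@[reducible] def resAct {X1 : AddSubgroup X} (hX1 : HInv H X1) : DistribMulAction H X1 where
  smul h x := ⟨h • x.1, hX1 h x.1 x.2⟩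
  one_smul x := Subtype.ext (one_smul H x.1)
  mul_smul g h x := Subtype.ext (mul_smul g h x.1)
  smul_zero h := Subtype.ext (smul_zero h)
  smul_add h x y := Subtype.ext (smul_add h x.1 y.1)

/-- The trivial family. -/
theorem fam_bot {T : Finset ℕ} (hT : ∀ r ∈ T, r.Prime) :
    Fam (⊥ : Subgroup H) T ⊥ ⊤ (fun _ => (1 : ℂ)) ∅ := by
  have hc : Subgroup.centralizer ((⊥ : Subgroup H) : Set H) = ⊤ := by
    rw [eq_top_iff]
    intro h _
    rw [Subgroup.mem_centralizer_iff]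
    intro x hx
    rw [SetLike.mem_coe, Subgroup.mem_bot] at hx
    subst hx
    rw [one_mul, mul_one]
  constructor
  · infer_instance
  · exact le_refl _
  · intro x hx y hy
    rw [Subgroup.mem_bot] at hx hy
    rw [hx, hy]
  · exact inf_top_eq _
  · exact sup_top_eq _
  · exact ⟨rfl, fun x _ y _ => (one_mul 1).symm⟩
  · intro h _
    rw [hc]
    trivial
  · intro h _
    trivial
  · intro r hr hd
    rw [hc, Subgroup.index_top] at hd
    exact absurd (Nat.dvd_one.1 hd) (hT r hr).one_lt.ne'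
  · exact Finset.empty_subset _
  · intro r hr hd
    rw [Subgroup.card_bot] at hd
    exact absurd (Nat.dvd_one.1 hd) (hT r hr).one_lt.ne'
  · simp

/-- `Fam` is monotone in `C`. -/
theorem fam_mono {C0 C : Subgroup H} (hle : C0 ≤ C) {T : Finset ℕ} {D K : Subgroup H} {b : H → ℂ}
    {N : Finset ℕ} (h : Fam C0 T D K b N) : Fam C T D K b N where
  nor := h.nor
  le := h.le.trans hle
  ab := h.ab
  inf := h.inf
  sup := h.sup
  lin := h.lin
  fix := h.fix
  cK := fun x hx => h.cK x (fun c hc => hx c (hle hc))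
  syl := fun r hr hd S hS => (h.syl r hr hd S hS).trans hle
  nT := h.nT
  pd := h.pd
  card := h.card

theorem mem_Pi0 {Zd : Type} [AddCommGroup Zd] [DistribMulAction H Zd] {C : Subgroup H}
    {T : Finset ℕ} {r : ℕ} : r ∈ Pi0 Zd C T ↔ r ∈ T ∧ ∃ R : Subgroup H, SylIn r ⊤ R ∧ R.Normal ∧
    (∀ x ∈ R, ∀ y ∈ R, x * y = y * x) ∧ R ≤ C ∧ ∀ t ∈ R, ∀ μ : Zd, t • μ = μ := by
  classical
  simp [Pi0]

theorem mem_PiN {C : Subgroup H} {T : Finset ℕ} {r : ℕ} : r ∈ PiN C T ↔ r ∈ T ∧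
    ∃ R : Subgroup H, SylIn r ⊤ R ∧ R.Normal ∧ R ≤ C ∧ ∀ x ∈ R, ∀ y ∈ R, x * y = y * x := by
  classical
  simp [PiN]

end FA3M

open FA3M in
theorem specFA3 (hDTS : SpecDTS) (hO7 : SpecO7) (hIRX : SpecIRX) (hFA1 : SpecFA1)
    (hFA2 : SpecFA2) : SpecFA3 := by
  classical
  intro H X Zd _ _ _ _ _ C T p Rm dat hZ
  haveI := dat.finH
  haveI := dat.finX
  haveI hCn := dat.nor
  have key : ∀ X2 : AddSubgroup X, ∀ X' : AddSubgroup X, HInv H X' → HInv H X2 → X' ⊓ X2 = ⊥ →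
      X' ⊔ X2 = ⊤ → ∀ C0 : Subgroup H, C0 ≤ CenX C X2 → (∀ c ∈ C0, ∀ μ : Zd, c • μ = μ) →
      ∀ (D K : Subgroup H) (b : H → ℂ) (N : Finset ℕ), Fam C0 T D K b N →
      (∀ r ∈ Pi0 Zd C T, ∀ R0 : Subgroup H, SylIn r ⊤ R0 → R0.Normal → R0 ≤ C →
        (∀ x ∈ R0, ∀ y ∈ R0, x * y = y * x) → (∀ t ∈ R0, ∀ x ∈ X2, t • x = x) → r ∈ N) →
      ∃ (D K : Subgroup H) (b : H → ℂ) (N : Finset ℕ), Fam C T D K b N ∧ Pi0 Zd C T ⊆ N ∧
        ∀ d ∈ D, ∀ μ : Zd, d • μ = μ := by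
    intro X2
    induction X2 using WellFoundedLT.induction with
    | ind X2 ih =>
    intro X' hX' hX2 hinf hsup C0 hC0 hC0Z D K b N hF hcov
    have hC0C : C0 ≤ C := fun c hc => (hC0 hc).1
    by_cases hA : ∀ r ∈ Pi0 Zd C T, ∀ R0 : Subgroup H, SylIn r ⊤ R0 → R0.Normal → R0 ≤ C →
        (∀ x ∈ R0, ∀ y ∈ R0, x * y = y * x) → ∀ t ∈ R0, ∀ x ∈ X2, t • x = x
    · refine ⟨D, K, b, N, fam_mono hC0C hF, ?_, fun d hd => hC0Z d (hF.le hd)⟩
      intro r hr
      obtain ⟨-, R0, hR0, hR0n, hR0a, hR0C, -⟩ := mem_Pi0.1 hr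
      exact hcov r hr R0 hR0 hR0n hR0C hR0a (hA r hr R0 hR0 hR0n hR0C hR0a)
    · obtain ⟨r, hr, R0, hR0, hR0n, hR0C, hR0a, hnt⟩ : ∃ r ∈ Pi0 Zd C T, ∃ R0 : Subgroup H,
          SylIn r ⊤ R0 ∧ R0.Normal ∧ R0 ≤ C ∧ (∀ x ∈ R0, ∀ y ∈ R0, x * y = y * x) ∧
          ¬ ∀ t ∈ R0, ∀ x ∈ X2, t • x = x := by
        by_contra hcon
        apply hA
        intro r hr R0 h1 h2 h3 h4
        by_contra h5
        exact hcon ⟨r, hr, R0, h1, h2, h3, h4, h5⟩
      have hrT : r ∈ T := (mem_Pi0.1 hr).1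
      obtain ⟨X1, hX1, hX1ne, hX1inf, hX1sup, hX1irr⟩ :=
        hIRX H X Zd C T p Rm dat r hrT R0 hR0 hR0n hR0C hR0a
      have hFY : HInv H (FixY X R0) := hinv_FixY hR0n
      -- (a)
      have h12 : X1 ≤ X2 := le_of_nt hX1 hX1sup hX1irr hX2 hnt
      have htr : ∀ t ∈ R0, ∀ x ∈ X', t • x = x := by
        by_contra hcon
        have h1 : X1 ≤ X' := le_of_nt hX1 hX1sup hX1irr hX' hcon
        apply hX1ne
        rw [eq_bot_iff, ← hinf]
        exact le_inf h1 h12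
      have hX'F : X' ≤ FixY X R0 := fun x hx t ht => htr t ht x hx
      -- (b)
      have hinv2 : HInv H (X2 ⊓ FixY X R0) := fun h x hx => ⟨hX2 h x hx.1, hFY h x hx.2⟩
      have hlt : X2 ⊓ FixY X R0 < X2 := by
        refine lt_of_le_of_ne inf_le_left (fun he => hnt ?_)
        intro t ht x hx
        rw [← he] at hx
        exact hx.2 t ht
      have hFsup : ∀ x ∈ FixY X R0, ∃ x' ∈ X', ∃ y ∈ X2 ⊓ FixY X R0, x = x' + y := by
        intro x hx
        have h1 : x ∈ X' ⊔ X2 := by rw [hsup]; trivial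
        obtain ⟨x', hx', x2, hx2, rfl⟩ := AddSubgroup.mem_sup.1 h1
        refine ⟨x', hx', x2, ⟨hx2, ?_⟩, rfl⟩
        have h2 := (FixY X R0).sub_mem hx (hX'F hx')
        have e : x' + x2 - x' = x2 := by abel
        rwa [e] at h2
      have hX2sup : ∀ x ∈ X2, ∃ x1 ∈ X1, ∃ y ∈ X2 ⊓ FixY X R0, x = x1 + y := by
        intro x hx
        have h1 : x ∈ X1 ⊔ FixY X R0 := by rw [hX1sup]; trivial
        obtain ⟨x1, hx1, f, hf, rfl⟩ := AddSubgroup.mem_sup.1 h1
        refine ⟨x1, hx1, f, ⟨?_, hf⟩, rfl⟩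
        have h2 := X2.sub_mem hx (h12 hx1)
        have e : x1 + f - x1 = f := by abel
        rwa [e] at h2
      -- (c)
      have htriv : ∀ c ∈ C, (∀ x ∈ X2, c • x = x) → (∀ x ∈ FixY X R0, c • x = x) → c = 1 := by
        intro c hc h1 h2
        apply dat.faith c hc
        intro x
        have h3 : x ∈ X1 ⊔ FixY X R0 := by rw [hX1sup]; trivial
        obtain ⟨x1, hx1, f, hf, rfl⟩ := AddSubgroup.mem_sup.1 h3
        rw [smul_add, h1 x1 (h12 hx1), h2 f hf]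
      have hcomm : ∀ x ∈ C0, ∀ y ∈ CenX C (FixY X R0), x * y = y * x := by
        intro c hc c2 hc2
        have h1 : c * c2 * c⁻¹ ∈ CenX C (FixY X R0) := CenX_conj hCn hFY hc2 c
        have h2 : c * c2 * c⁻¹ * c2⁻¹ ∈ CenX C (FixY X R0) :=
          Subgroup.mul_mem _ h1 (Subgroup.inv_mem _ hc2)
        have h3 : c * c2 * c⁻¹ * c2⁻¹ = 1 := by
          refine htriv _ h2.1 ?_ h2.2
          intro x hx
          have h4 : c2⁻¹ • x ∈ X2 := hX2 c2⁻¹ x hx
          have h5 : c⁻¹ • c2⁻¹ • x = c2⁻¹ • x := by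
            rw [inv_smul_eq_iff]
            exact ((hC0 hc).2 _ h4).symm
          rw [mul_smul, mul_smul, mul_smul, h5, smul_inv_smul]
          exact (hC0 hc).2 _ hx
        rw [mul_inv_eq_one, mul_inv_eq_iff_eq_mul] at h3
        exact h3
      have hdisj : C0 ⊓ CenX C (FixY X R0) = ⊥ := by
        rw [eq_bot_iff]
        rintro c ⟨hc, hc2⟩
        rw [Subgroup.mem_bot]
        exact htriv c hc2.1 (hC0 hc).2 hc2.2
      -- (d)
      letI act : DistribMulAction H X1 := resAct hX1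
      have hTS : TS H X1 p (CenX C (FixY X R0)) T := by
        refine hDTS H X Zd C T p Rm dat X1 (FixY X R0) hX1 hFY hX1inf hX1sup hX1ne hX1irr ?_ X1
          X1.subtype (AddSubgroup.subtype_injective X1) (fun h y => rfl) (AddSubgroup.range_subtype X1)
        refine ⟨r, hrT, R0, hR0, hR0n, ?_⟩
        by_contra hcon
        push Not at hcon
        apply hX1ne
        rw [eq_bot_iff, ← hX1inf]
        exact fun x hx => ⟨hx, fun t ht => hcon t ht x hx⟩
      obtain ⟨D2, K2, hD2n, hD2C, hD2c, hD2inf, hD2sup, hD2K, hD2syl, hD2pd, -, hD2card⟩ :=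
        hO7 H X1 p (CenX C (FixY X R0)) T hTS dat.idx
      obtain ⟨b2, hF2⟩ := hFA1 H (CenX C (FixY X R0)) T D2 K2 hD2n hD2C hD2c hD2inf hD2sup hD2K
        hD2syl hD2pd hD2card
      obtain ⟨b', hF'⟩ := hFA2 H C0 (CenX C (FixY X R0)) T D K D2 K2 b b2 N _ dat.tp hcomm hdisj
        hF hF2
      -- induction
      refine ih (X2 ⊓ FixY X R0) hlt (X' ⊔ X1) ?_ hinv2 ?_ ?_ (C0 ⊔ CenX C (FixY X R0)) ?_ ?_
        _ _ b' _ hF' ?_
      · intro h x hx
        obtain ⟨x', hx', x1, hx1, rfl⟩ := AddSubgroup.mem_sup.1 hx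
        rw [smul_add]
        exact AddSubgroup.add_mem_sup (hX' h x' hx') (hX1 h x1 hx1)
      · rw [eq_bot_iff]
        rintro x ⟨hx, hx2⟩
        obtain ⟨x', hx', x1, hx1, rfl⟩ := AddSubgroup.mem_sup.1 hx
        have h1 : x' ∈ X' ⊓ X2 := by
          refine ⟨hx', ?_⟩
          have h2 := X2.sub_mem hx2.1 (h12 hx1)
          have e : x' + x1 - x1 = x' := by abel
          rwa [e] at h2
        rw [hinf, AddSubgroup.mem_bot] at h1
        subst h1
        rw [zero_add] at hx2 ⊢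
        rw [← hX1inf]
        exact ⟨hx1, hx2.2⟩
      · rw [eq_top_iff]
        intro x _
        have h1 : x ∈ X' ⊔ X2 := by rw [hsup]; trivial
        obtain ⟨x', hx', x2, hx2, rfl⟩ := AddSubgroup.mem_sup.1 h1
        obtain ⟨x1, hx1, y, hy, rfl⟩ := hX2sup x2 hx2
        rw [← add_assoc]
        exact AddSubgroup.add_mem_sup (AddSubgroup.add_mem_sup hx' hx1) hy
      · refine sup_le ?_ ?_
        · intro c hc
          exact ⟨(hC0 hc).1, fun x hx => (hC0 hc).2 x hx.1⟩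
        · intro c hc
          exact ⟨hc.1, fun x hx => hc.2 x hx.2⟩
      · intro c hc μ
        obtain ⟨c1, hc1, c2, hc2, rfl⟩ : ∃ c1 ∈ C0, ∃ c2 ∈ CenX C (FixY X R0), c1 * c2 = c := by
          haveI : (CenX C (FixY X R0)).Normal :=
            ⟨fun c hc h => CenX_conj hCn hFY hc h⟩
          exact Subgroup.mem_sup_of_normal_right.1 hc
        rw [mul_smul, hZ r hr R0 hR0 hR0n hR0C c2 hc2 μ, hC0Z c1 hc1 μ]
      · intro r' hr' R0' hR0' hR0n' hR0C' hR0a' htr'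
        rw [Finset.mem_union]
        by_cases hall : ∀ t ∈ R0', ∀ x ∈ X2, t • x = x
        · exact Or.inl (hcov r' hr' R0' hR0' hR0n' hR0C' hR0a' hall)
        · right
          have hrT' : r' ∈ T := (mem_Pi0.1 hr').1
          obtain ⟨X1', hX1', hX1ne', hX1inf', hX1sup', hX1irr'⟩ :=
            hIRX H X Zd C T p Rm dat r' hrT' R0' hR0' hR0n' hR0C' hR0a'
          have h12' : X1' ≤ X2 := le_of_nt hX1' hX1sup' hX1irr' hX2 hall
          have htrx : ∀ t ∈ R0', ∀ x ∈ X', t • x = x := by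
            by_contra hcon
            have h1 : X1' ≤ X' := le_of_nt hX1' hX1sup' hX1irr' hX' hcon
            apply hX1ne'
            rw [eq_bot_iff, ← hinf]
            exact le_inf h1 h12'
          rw [mem_PiN]
          refine ⟨hrT', R0', hR0', hR0n', ?_, hR0a'⟩
          intro t ht
          refine ⟨hR0C' ht, fun x hx => ?_⟩
          obtain ⟨x', hx', y, hy, rfl⟩ := hFsup x hx
          rw [smul_add, htrx t ht x' hx', htr' t ht y hy]
  refine key ⊤ ⊥ ?_ ?_ ?_ ?_ ⊥ bot_le ?_ ⊥ ⊤ _ ∅ (fam_bot (fun r hr => (dat.tp r hr).1)) ?_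
  · intro h x hx
    rw [AddSubgroup.mem_bot] at hx ⊢
    rw [hx, smul_zero]
  · intro h x _
    trivial
  · exact inf_top_eq _
  · exact sup_top_eq _
  · intro c hc μ
    rw [Subgroup.mem_bot] at hc
    rw [hc, one_smul]
  · intro r hr R0 hR0 _ hR0C _ htr
    exfalso
    have hrT : r ∈ T := (mem_Pi0.1 hr).1
    apply (CO.specSYL H r (dat.tp r hrT).1).2.2.2.2.2.2.2.1 R0 hR0 (dat.tp r hrT).2
    rw [eq_bot_iff]
    intro t ht
    rw [Subgroup.mem_bot]
    exact dat.faith t (hR0C ht) (fun x => htr t ht x trivial)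

end Pool.Agent.Lib.MPbe1941.X
end
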