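import Pool.Agent.Lib.MP_be1941_al.X.SpecP

section
/-!
# MP_be1941_al (exact bound), module FRC: `l`-groups acting semiregularly

Paper: /team-store/MP_be1941_al_H.md, section 3 (b), (c).

* `cyc_of_rank_one`: an `l`-group (`l` odd) in which any two commuting elements of order `l`
  generate the same subgroup is cyclic.
* `rank_one_of_semireg`: an `l`-group acting semiregularly on the nonzero elements of a finite
  abelian group has this property.
* `q8_of_odd`: an automorphism of odd order acting nontrivially on a `2`-group with a unique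
  involution permutes the elements `x, y, xy` of a quaternion subgroup cyclically.
* `frc_odd`, `frc_two`: the ambient forms.
-/
set_option autoImplicit false

namespace Pool.Agent.Lib.MPbe1941.X

namespace FRC

/-- Any two commuting elements of order `l` generate the same subgroup. -/
def R1 (l : ℕ) (X : Type*) [Group X] : Prop :=
  ∀ x y : X, x ^ l = 1 → y ^ l = 1 → y ≠ 1 → x * y = y * x → x ∈ Subgroup.zpowers y

theorem R1.sub {l : ℕ} {X : Type*} [Group X] (h : R1 l X) (M : Subgroup X) : R1 l M := by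
  intro x y hx hy hy1 hc
  have h1 := h x y (by simpa using congrArg Subtype.val hx) (by simpa using congrArg Subtype.val hy)
    (fun h0 => hy1 (Subtype.ext h0)) (by simpa using congrArg Subtype.val hc)
  obtain ⟨n, hn⟩ := Subgroup.mem_zpowers_iff.1 h1
  exact Subgroup.mem_zpowers_iff.2 ⟨n, Subtype.ext (by simpa using hn)⟩

/-- `(u x)^k = u^k x^k c^(0 + 1 + ... + (k-1))` when `x u = c u x` and `c` is central. -/
theorem mul_pow_class_two {X : Type*} [Group X] {u x c : X} (h : x * u = c * (u * x))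
    (hu : c * u = u * c) (hx : c * x = x * c) (k : ℕ) :
    (u * x) ^ k = u ^ k * x ^ k * c ^ (∑ i ∈ Finset.range k, i) := by
  have hcu : Commute c u := hu
  have hcx : Commute c x := hx
  have key : ∀ j : ℕ, x ^ j * u = c ^ j * u * x ^ j := by
    intro j
    induction j with
    | zero => simp
    | succ j ih =>
      have h1 : x ^ j * (c * (u * x)) = c * (x ^ j * u) * x := by
        have := (hcx.pow_right j).eq
        calc x ^ j * (c * (u * x)) = (x ^ j * c) * u * x := by group
          _ = (c * x ^ j) * u * x := by rw [this]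
          _ = c * (x ^ j * u) * x := by group
      calc x ^ (j + 1) * u = x ^ j * (x * u) := by rw [pow_succ]; group
        _ = x ^ j * (c * (u * x)) := by rw [h]
        _ = c * (x ^ j * u) * x := h1
        _ = c * (c ^ j * u * x ^ j) * x := by rw [ih]
        _ = c ^ (j + 1) * u * x ^ (j + 1) := by rw [pow_succ' c, pow_succ x]; group
  induction k with
  | zero => simp
  | succ k ih =>
    have h1 : Commute (c ^ (∑ i ∈ Finset.range k, i)) (u * x) :=
      (hcu.mul_right hcx).pow_left _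
    have h2 : Commute (c ^ k) (u ^ k) := (hcu.pow_left k).pow_right k
    have h3 : Commute (c ^ k) (x ^ k) := (hcx.pow_left k).pow_right k
    have h4 : Commute (c ^ k) u := hcu.pow_left k
    have h5 : Commute (c ^ k) x := hcx.pow_left k
    calc (u * x) ^ (k + 1) = (u * x) ^ k * (u * x) := pow_succ _ _
      _ = u ^ k * x ^ k * c ^ (∑ i ∈ Finset.range k, i) * (u * x) := by rw [ih]
      _ = u ^ k * x ^ k * (c ^ (∑ i ∈ Finset.range k, i) * (u * x)) := by group
      _ = u ^ k * x ^ k * ((u * x) * c ^ (∑ i ∈ Finset.range k, i)) := by rw [h1.eq]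
      _ = u ^ k * (x ^ k * u) * x * c ^ (∑ i ∈ Finset.range k, i) := by group
      _ = u ^ k * (c ^ k * u * x ^ k) * x * c ^ (∑ i ∈ Finset.range k, i) := by rw [key]
      _ = u ^ k * u * x ^ k * x * c ^ k * c ^ (∑ i ∈ Finset.range k, i) := by
          have e1 : c ^ k * u * x ^ k = u * x ^ k * c ^ k := by
            rw [h4.eq, mul_assoc, h3.eq, mul_assoc]
          have e2 : x * c ^ k = c ^ k * x := h5.eq.symm
          calc u ^ k * (c ^ k * u * x ^ k) * x * c ^ (∑ i ∈ Finset.range k, i)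
              = u ^ k * (u * x ^ k * c ^ k) * x * c ^ (∑ i ∈ Finset.range k, i) := by rw [e1]
            _ = u ^ k * u * x ^ k * (c ^ k * x) * c ^ (∑ i ∈ Finset.range k, i) := by group
            _ = u ^ k * u * x ^ k * (x * c ^ k) * c ^ (∑ i ∈ Finset.range k, i) := by rw [e2]
            _ = _ := by group
      _ = u ^ (k + 1) * x ^ (k + 1) * c ^ (∑ i ∈ Finset.range (k + 1), i) := by
          rw [Finset.sum_range_succ, pow_add, pow_succ, pow_succ x]
          have : c ^ k * c ^ (∑ i ∈ Finset.range k, i) = c ^ (∑ i ∈ Finset.range k, i) * c ^ k := by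
            rw [← pow_add, ← pow_add, add_comm]
          calc u ^ k * u * x ^ k * x * c ^ k * c ^ (∑ i ∈ Finset.range k, i)
              = u ^ k * u * x ^ k * x * (c ^ k * c ^ (∑ i ∈ Finset.range k, i)) := by group
            _ = _ := by rw [this]; group

/-- If `a ^ l = 1` modulo `l ^ n`, `n ≥ 1`, then `l` and `l ^ (n - 1)` divide `a - 1`. -/
theorem dvd_sub_one {l : ℕ} (hl : l.Prime) (hl2 : l ≠ 2) {n : ℕ} {a : ℤ}
    (h : ((l : ℤ) ^ (n + 1)) ∣ a ^ l - 1) : (l : ℤ) ∣ a - 1 ∧ (l : ℤ) ^ n ∣ a - 1 := by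
  have : Fact l.Prime := ⟨hl⟩
  have h0 : (l : ℤ) ∣ a ^ l - 1 := (dvd_pow_self (l : ℤ) (Nat.succ_ne_zero n)).trans h
  have h1 : (l : ℤ) ∣ a - 1 := by
    have h2 : ((a ^ l - 1 : ℤ) : ZMod l) = 0 := (ZMod.intCast_zmod_eq_zero_iff_dvd _ _).2 h0
    have h3 : ((a - 1 : ℤ) : ZMod l) = 0 := by
      push_cast at h2 ⊢
      rwa [ZMod.pow_card] at h2
    exact (ZMod.intCast_zmod_eq_zero_iff_dvd _ _).1 h3
  refine ⟨h1, ?_⟩
  have hodd : Odd l := hl.odd_of_ne_two hl2
  have ha : ¬ (l : ℤ) ∣ a := by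
    intro h2
    have h3 : (l : ℤ) ∣ 1 := by
      have := dvd_sub h2 h1
      simpa using this
    have h4 : l ∣ 1 := by exact_mod_cast h3
    exact hl.one_lt.ne' (Nat.dvd_one.1 h4)
  have h4 := Int.emultiplicity_pow_sub_pow hl hodd (x := a) (y := 1) h1 ha l
  rw [one_pow] at h4
  have h5 : emultiplicity l l = 1 := by
    have := (Nat.finiteMultiplicity_iff.2 ⟨hl.one_lt.ne', hl.pos⟩).emultiplicity_self
    exact this
  rw [h5] at h4
  have h6 : ((n + 1 : ℕ) : ℕ∞) ≤ emultiplicity (l : ℤ) (a ^ l - 1) := by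
    exact le_emultiplicity_of_pow_dvd h
  rw [h4] at h6
  have h7 : ((n : ℕ) : ℕ∞) ≤ emultiplicity (l : ℤ) (a - 1) := by
    push_cast at h6
    exact (ENat.add_le_add_iff_right (by simp)).1 h6
  exact pow_dvd_of_le_emultiplicity h7

theorem cyc_aux {l : ℕ} (hl : l.Prime) (hl2 : l ≠ 2) : ∀ (n : ℕ) (X : Type) [Group X] [Finite X],
    Nat.card X = l ^ n → R1 l X → IsCyclic X := by
  intro n
  have hfl : Fact l.Prime := ⟨hl⟩
  induction n with
  | zero =>
    intro X _ _ hc _
    rw [pow_zero] at hc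
    have : Subsingleton X := (Nat.card_eq_one_iff_unique.1 hc).1
    infer_instance
  | succ n ih =>
    intro X _ _ hc hR
    rcases Nat.eq_zero_or_pos n with hn | hn
    · subst hn
      exact isCyclic_of_prime_card (p := l) (by rw [hc]; simp)
    obtain ⟨M, hM⟩ := Sylow.exists_subgroup_card_pow_prime (G := X) l (n := n)
      (by rw [hc]; exact pow_dvd_pow l (Nat.le_succ n))
    have hMi : M.index = l := by
      have h1 := Subgroup.card_mul_index M
      rw [hM, hc, pow_succ] at h1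
      exact Nat.eq_of_mul_eq_mul_left (pow_pos hl.pos n) h1
    have hMn : M.Normal := by
      apply Subgroup.normal_of_index_eq_minFac_card
      rw [hMi, hc, Nat.pow_minFac (Nat.succ_ne_zero n), hl.minFac_eq]
    have hMc : IsCyclic M := ih M hM (hR.sub M)
    obtain ⟨m0, hm0⟩ := hMc.exists_generator
    obtain ⟨m, hm⟩ : ∃ m : X, m = m0 := ⟨_, rfl⟩
    have hmM : ∀ w : X, w ∈ M ↔ w ∈ Subgroup.zpowers m := by
      intro w
      constructor
      · intro hw
        obtain ⟨k, hk⟩ := Subgroup.mem_zpowers_iff.1 (hm0 ⟨w, hw⟩)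
        refine Subgroup.mem_zpowers_iff.2 ⟨k, ?_⟩
        rw [hm]
        simpa using congrArg Subtype.val hk
      · intro hw
        obtain ⟨k, hk⟩ := Subgroup.mem_zpowers_iff.1 hw
        rw [← hk, hm]
        exact M.zpow_mem m0.2 k
    have hmo : orderOf m = l ^ n := by
      rw [← hM, ← Nat.card_zpowers]
      have : Subgroup.zpowers m = M := by
        ext w
        exact (hmM w).symm
      rw [this]
    by_contra hcy
    -- an element outside `M`
    obtain ⟨x, hx⟩ : ∃ x : X, x ∉ M := by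
      by_contra h0
      push Not at h0
      have : M = ⊤ := by
        ext w
        simp [h0 w]
      rw [this, Subgroup.index_top] at hMi
      exact hl.one_lt.ne' hMi.symm
    have hxl : x ^ l ∈ M := by
      have := M.pow_index_mem x
      rwa [hMi] at this
    obtain ⟨b, hb⟩ := Subgroup.mem_zpowers_iff.1 ((hmM _).1 hxl)
    have hconj : x * m * x⁻¹ ∈ M := hMn.conj_mem m (by rw [hm]; exact m0.2) x
    obtain ⟨a, ha⟩ := Subgroup.mem_zpowers_iff.1 ((hmM _).1 hconj)
    -- the action of powers of `x`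
    have hpow : ∀ k : ℕ, x ^ k * m * (x ^ k)⁻¹ = m ^ (a ^ k) := by
      intro k
      induction k with
      | zero => simp
      | succ k ihk =>
        have h1 : x ^ (k + 1) * m * (x ^ (k + 1))⁻¹ = x ^ k * (x * m * x⁻¹) * (x ^ k)⁻¹ := by
          rw [pow_succ]; group
        rw [h1, ← ha]
        have h2 : x ^ k * m ^ a * (x ^ k)⁻¹ = (x ^ k * m * (x ^ k)⁻¹) ^ a := by
          rw [conj_zpow]
        rw [h2, ihk, ← zpow_mul, pow_succ]
    have hcm : ∀ u v : X, u ∈ M → v ∈ M → u * v = v * u := by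
      intro u v hu hv
      obtain ⟨i, rfl⟩ := Subgroup.mem_zpowers_iff.1 ((hmM _).1 hu)
      obtain ⟨j, rfl⟩ := Subgroup.mem_zpowers_iff.1 ((hmM _).1 hv)
      rw [← zpow_add, ← zpow_add, add_comm]
    have hmm : m ∈ M := by rw [hm]; exact m0.2
    have hal : ((l : ℤ) ^ n) ∣ a ^ l - 1 := by
      have h1 := hpow l
      have h2 : x ^ l * m * (x ^ l)⁻¹ = m := by
        rw [hcm _ _ hxl hmm]; group
      rw [h2] at h1
      have h3 : m ^ (a ^ l - 1) = 1 := by
        rw [zpow_sub, ← h1]; simp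
      have h4 := orderOf_dvd_iff_zpow_eq_one.2 h3
      rw [hmo] at h4
      exact_mod_cast h4
    obtain ⟨n', rfl⟩ : ∃ n', n = n' + 1 := ⟨n - 1, by omega⟩
    obtain ⟨ha1, ha2⟩ := dvd_sub_one hl hl2 hal
    -- `x` commutes with elements of `M` of order `l`
    have hxc : ∀ w ∈ M, w ^ l = 1 → x * w = w * x := by
      intro w hw hwl
      obtain ⟨i, rfl⟩ := Subgroup.mem_zpowers_iff.1 ((hmM _).1 hw)
      have h1 : x * m ^ i * x⁻¹ = (m ^ i) ^ a := by
        rw [← conj_zpow, ← ha, ← zpow_mul, ← zpow_mul, mul_comm]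
      have h2 : (m ^ i) ^ a = m ^ i := by
        obtain ⟨t, ht⟩ := ha1
        have h3 : a = 1 + l * t := by linarith
        rw [h3, zpow_add, zpow_one, zpow_mul, zpow_natCast, hwl, one_zpow, mul_one]
      rw [h2] at h1
      calc x * m ^ i = (x * m ^ i * x⁻¹) * x := by group
        _ = m ^ i * x := by rw [h1]
    -- `l` divides `b`
    have hbl : (l : ℤ) ∣ b := by
      by_contra hbn
      apply hcy
      apply isCyclic_of_orderOf_eq_card x
      rw [hc]
      have h1 : orderOf (x ^ l) = l ^ (n' + 1) := by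
        rw [← hb]
        have hcop : IsCoprime b ((l ^ (n' + 1) : ℕ) : ℤ) := by
          push_cast
          exact (((Nat.prime_iff_prime_int.1 hl).coprime_iff_not_dvd.2 hbn).symm).pow_right
        have h2 : Subgroup.zpowers (m ^ b) = Subgroup.zpowers m := by
          apply le_antisymm
          · rw [Subgroup.zpowers_le]
            exact Subgroup.mem_zpowers_iff.2 ⟨b, rfl⟩
          · rw [Subgroup.zpowers_le]
            obtain ⟨s, t, hst⟩ := hcop
            refine Subgroup.mem_zpowers_iff.2 ⟨s, ?_⟩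
            rw [← zpow_mul]
            have h3 : b * s = 1 - t * ((l ^ (n' + 1) : ℕ) : ℤ) := by linarith
            rw [h3, zpow_sub, zpow_one, mul_comm t, zpow_mul, zpow_natCast, ← hmo,
              pow_orderOf_eq_one]
            simp
        rw [← Nat.card_zpowers, h2, Nat.card_zpowers, hmo]
      have h2 : orderOf x ∣ l ^ (n' + 1 + 1) := by
        rw [← hc]
        exact orderOf_dvd_natCard x
      obtain ⟨j, hj, hjo⟩ := (Nat.dvd_prime_pow hl).1 h2
      rcases Nat.lt_or_ge j (n' + 1 + 1) with hlt | hge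
      · exfalso
        have h3 : (x ^ l) ^ (l ^ n') = 1 := by
          rw [← pow_mul, ← pow_succ', ← orderOf_dvd_iff_pow_eq_one, hjo]
          exact pow_dvd_pow l (by omega)
        have h4 := orderOf_dvd_of_pow_eq_one h3
        rw [h1] at h4
        exact absurd (Nat.pow_dvd_pow_iff_le_right hl.one_lt |>.1 h4) (by omega)
      · rw [hjo, le_antisymm hj hge]
    obtain ⟨b', rfl⟩ := hbl
    -- the commutator of `x` and `m ^ (-b')`
    obtain ⟨u, hu⟩ : ∃ u, u = m ^ (-b') := ⟨_, rfl⟩
    have huM : u ∈ M := by rw [hu]; exact M.zpow_mem hmm _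
    obtain ⟨c, hcdef⟩ : ∃ c, c = x * u * x⁻¹ * u⁻¹ := ⟨_, rfl⟩
    have hcu : c = u ^ (a - 1) := by
      have h1 : x * u * x⁻¹ = u ^ a := by
        rw [hu, ← conj_zpow, ← ha, ← zpow_mul, ← zpow_mul, mul_comm]
      rw [hcdef, h1, zpow_sub_one]
    have hcM : c ∈ M := by rw [hcu]; exact M.zpow_mem huM _
    have hcl : c ^ l = 1 := by
      rw [hcu, hu, ← zpow_mul, ← zpow_natCast, ← zpow_mul]
      obtain ⟨t, ht⟩ := ha2
      have h1 : (-b' * (a - 1) * (l : ℤ)) = ((l ^ (n' + 1) : ℕ) : ℤ) * (-b' * t) := by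
        rw [ht]
        push_cast
        ring
      rw [h1, zpow_mul, zpow_natCast, ← hmo, pow_orderOf_eq_one, one_zpow]
    have hcx : c * x = x * c := (hxc c hcM hcl).symm
    have hcuu : c * u = u * c := hcm _ _ hcM huM
    have hux : x * u = c * (u * x) := by rw [hcdef]; group
    have hyl : (u * x) ^ l = 1 := by
      rw [mul_pow_class_two hux hcuu hcx]
      have h1 : c ^ (∑ i ∈ Finset.range l, i) = 1 := by
        rw [← orderOf_dvd_iff_pow_eq_one]
        refine (orderOf_dvd_of_pow_eq_one hcl).trans ?_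
        have h2 := Finset.sum_range_id_mul_two l
        have h3 : l ∣ (∑ i ∈ Finset.range l, i) * 2 := by
          rw [h2]; exact dvd_mul_right _ _
        exact (Nat.Coprime.dvd_of_dvd_mul_right
          ((Nat.coprime_primes hl Nat.prime_two).2 hl2) h3)
      rw [h1, mul_one, ← hb, hu, ← zpow_natCast, ← zpow_mul, ← zpow_add]
      have : -b' * (l : ℤ) + (l : ℤ) * b' = 0 := by ring
      rw [this, zpow_zero]
    have hyM : u * x ∉ M := fun h => hx ((M.mul_mem_cancel_left huM).1 h)
    -- an element of order `l` of `M`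
    obtain ⟨z, hz⟩ : ∃ z, z = m ^ (l ^ n') := ⟨_, rfl⟩
    have hzM : z ∈ M := by rw [hz]; exact M.pow_mem hmm _
    have hzl : z ^ l = 1 := by
      rw [hz, ← pow_mul, ← pow_succ, ← hmo, pow_orderOf_eq_one]
    have hz1 : z ≠ 1 := by
      intro h
      rw [hz] at h
      have h4 := orderOf_dvd_of_pow_eq_one h
      rw [hmo] at h4
      exact absurd (Nat.pow_dvd_pow_iff_le_right hl.one_lt |>.1 h4) (by omega)
    have h5 := hR (u * x) z hyl hzl hz1 (by
      have h6 := hxc z hzM hzl
      have h7 := hcm u z huM hzM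
      calc u * x * z = u * (x * z) := by group
        _ = u * (z * x) := by rw [h6]
        _ = (u * z) * x := by group
        _ = (z * u) * x := by rw [h7]
        _ = z * (u * x) := by group)
    apply hyM
    obtain ⟨k, hk⟩ := Subgroup.mem_zpowers_iff.1 h5
    rw [← hk]
    exact M.zpow_mem hzM k

/-- An `l`-group (`l` odd) in which any two commuting elements of order `l` generate the same
subgroup is cyclic. -/
theorem cyc_of_rank_one {l : ℕ} (hl : l.Prime) (hl2 : l ≠ 2) {X : Type} [Group X] [Finite X]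
    (hX : IsPGroup l X) (hR : R1 l X) : IsCyclic X := by
  have : Fact l.Prime := ⟨hl⟩
  obtain ⟨n, hn⟩ := IsPGroup.iff_card.1 hX
  exact cyc_aux hl hl2 n X hn hR

/-- Semiregular action on the nonzero elements. -/
def SR {X V : Type*} [Group X] [AddCommGroup V] (φ : X →* AddMonoid.End V) : Prop :=
  ∀ (x : X) (v : V), v ≠ 0 → φ x v = v → x = 1

theorem sum_eq_zero {X V : Type*} [Group X] [AddCommGroup V] {φ : X →* AddMonoid.End V}
    (hφ : SR φ) {l : ℕ} (hl : 0 < l) {g : X} (hg : g ≠ 1) (hgl : g ^ l = 1) (v : V) :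
    ∑ i ∈ Finset.range l, φ (g ^ i) v = 0 := by
  by_contra hne
  apply hg
  refine hφ g _ hne ?_
  rw [map_sum]
  have h1 : ∀ i ∈ Finset.range l, φ g (φ (g ^ i) v) = φ (g ^ (i + 1)) v := by
    intro i _
    rw [pow_succ', map_mul]
    rfl
  rw [Finset.sum_congr rfl h1]
  obtain ⟨k, rfl⟩ : ∃ k, l = k + 1 := ⟨l - 1, by omega⟩
  rw [Finset.sum_range_succ, hgl, Finset.sum_range_succ' (fun i => φ (g ^ i) v), pow_zero]

/-- An `l`-group acting semiregularly on the nonzero elements of a finite abelian group has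
rank one. -/
theorem rank_one_of_semireg {l : ℕ} (hl : l.Prime) {X V : Type*} [Group X] [Finite X]
    [AddCommGroup V] [Finite V] [Nontrivial V] (hX : IsPGroup l X) {φ : X →* AddMonoid.End V}
    (hφ : SR φ) : R1 l X := by
  intro x y hx hy hy1 hc
  by_contra hxy
  have hfl : Fact l.Prime := ⟨hl⟩
  have hcom : Commute x y := hc
  -- `l v = 0`
  have hlv : ∀ v : V, l • v = 0 := by
    intro v
    have h1 : ∀ i ∈ Finset.range l, ∑ j ∈ Finset.range l, φ ((x * y ^ i) ^ j) v = 0 := by
      intro i _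
      refine sum_eq_zero hφ hl.pos ?_ ?_ v
      · intro h
        apply hxy
        have h2 : x = (y ^ i)⁻¹ := eq_inv_of_mul_eq_one_left h
        rw [h2]
        exact Subgroup.inv_mem _ (Subgroup.pow_mem _ (Subgroup.mem_zpowers y) i)
      · rw [(hcom.pow_right i).mul_pow, hx, ← pow_mul, mul_comm i l, pow_mul, hy, one_pow, one_mul]
    have h2 := Finset.sum_eq_zero h1
    rw [Finset.sum_comm] at h2
    have h3 : ∀ j ∈ Finset.range l, j ≠ 0 →
        ∑ i ∈ Finset.range l, φ ((x * y ^ i) ^ j) v = 0 := by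
      intro j hj hj0
      have h4 : ∀ i ∈ Finset.range l, φ ((x * y ^ i) ^ j) v = φ ((y ^ j) ^ i) (φ (x ^ j) v) := by
        intro i _
        have h5 : (x * y ^ i) ^ j = (y ^ j) ^ i * x ^ j := by
          rw [(hcom.pow_right i).mul_pow, ← pow_mul, ← pow_mul, mul_comm i j]
          exact ((hcom.pow_left j).pow_right (j * i)).eq
        rw [h5, map_mul]
        rfl
      rw [Finset.sum_congr rfl h4]
      refine sum_eq_zero hφ hl.pos ?_ ?_ _
      · intro h
        have h6 : orderOf y = l := orderOf_eq_prime hy hy1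
        have h7 := orderOf_dvd_of_pow_eq_one h
        rw [h6] at h7
        exact absurd (Nat.le_of_dvd (Nat.pos_of_ne_zero hj0) h7)
          (by rw [Finset.mem_range] at hj; omega)
      · rw [← pow_mul, mul_comm, pow_mul, hy, one_pow]
    rw [Finset.sum_eq_single_of_mem 0 (Finset.mem_range.2 hl.pos)
      (fun j hj hj0 => h3 j hj hj0)] at h2
    simpa using h2
  -- an `l`-group has a nonzero fixed point on a nonzero `l`-group
  obtain ⟨w, hw⟩ := exists_ne (0 : V)
  have hcard : l ∣ Nat.card V := by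
    have h1 : addOrderOf w = l := addOrderOf_eq_prime (hlv w) hw
    rw [← h1]
    exact addOrderOf_dvd_natCard w
  let _ : MulAction X V := MulAction.compHom V φ
  have hsm : ∀ (g : X) (v : V), g • v = φ g v := fun _ _ => rfl
  have h0 : (0 : V) ∈ MulAction.fixedPoints X V := by
    intro g
    rw [hsm, map_zero]
  obtain ⟨v, hv, hv0⟩ := hX.exists_fixed_point_of_prime_dvd_card_of_fixed_point V hcard h0
  exact hy1 (hφ y v (Ne.symm hv0) (hv y))

section

variable {G V : Type} [Group G] [AddCommGroup V] [DistribMulAction G V] {K B : Subgroup G}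
  {Y : AddSubgroup V}

/-- The action of `K` on the invariant subgroup `Y`. -/
def actY (hY : ∀ x ∈ K, ∀ v ∈ Y, x • v ∈ Y) : K →* AddMonoid.End Y where
  toFun k :=
    { toFun := fun v => ⟨(k : G) • (v : V), hY k k.2 v v.2⟩
      map_zero' := Subtype.ext (smul_zero _)
      map_add' := fun a b => Subtype.ext (smul_add _ _ _) }
  map_one' := by
    ext v
    exact one_smul G (v : V)
  map_mul' := fun a b => by
    ext v
    exact mul_smul (a : G) (b : G) (v : V)

theorem conj_mem (hY : ∀ x ∈ K, ∀ v ∈ Y, x • v ∈ Y) (hne : ∃ v ∈ Y, v ≠ 0) (hBK : B ≤ K)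
    (hBY : ∀ b ∈ B, ∀ v ∈ Y, b • v = v) (hf : ∀ x ∈ K, ∀ v ∈ Y, v ≠ 0 → x • v = v → x ∈ B)
    {x b : G} (hx : x ∈ K) (hb : b ∈ B) : x * b * x⁻¹ ∈ B := by
  obtain ⟨v, hv, hv0⟩ := hne
  refine hf _ (K.mul_mem (K.mul_mem hx (hBK hb)) (K.inv_mem hx)) v hv hv0 ?_
  rw [mul_smul, mul_smul, hBY b hb _ (hY _ (K.inv_mem hx) v hv), smul_inv_smul]

theorem subgroupOf_normal (hY : ∀ x ∈ K, ∀ v ∈ Y, x • v ∈ Y) (hne : ∃ v ∈ Y, v ≠ 0) (hBK : B ≤ K)
    (hBY : ∀ b ∈ B, ∀ v ∈ Y, b • v = v) (hf : ∀ x ∈ K, ∀ v ∈ Y, v ≠ 0 → x • v = v → x ∈ B) :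
    (B.subgroupOf K).Normal := by
  constructor
  intro n hn g
  rw [Subgroup.mem_subgroupOf] at hn ⊢
  exact conj_mem hY hne hBK hBY hf g.2 hn

/-- The action of `K / B` on `Y`. -/
theorem exists_act [hn : (B.subgroupOf K).Normal] (hY : ∀ x ∈ K, ∀ v ∈ Y, x • v ∈ Y)
    (hBY : ∀ b ∈ B, ∀ v ∈ Y, b • v = v) (hf : ∀ x ∈ K, ∀ v ∈ Y, v ≠ 0 → x • v = v → x ∈ B) :
    ∃ φ : K ⧸ B.subgroupOf K →* AddMonoid.End Y,
      (∀ (k : K) (v : Y), ((φ (QuotientGroup.mk k) v : Y) : V) = (k : G) • (v : V)) ∧ SR φ := by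
  refine ⟨QuotientGroup.lift (B.subgroupOf K) (actY hY) ?_, fun k v => rfl, ?_⟩
  · intro b hb
    rw [Subgroup.mem_subgroupOf] at hb
    rw [MonoidHom.mem_ker]
    ext v
    exact hBY b hb v v.2
  · intro x v hv h
    induction x using QuotientGroup.induction_on with
    | H k =>
      rw [QuotientGroup.eq_one_iff, Subgroup.mem_subgroupOf]
      refine hf k k.2 v v.2 (fun h0 => hv (Subtype.ext h0)) ?_
      exact congrArg Subtype.val h

end

end FRC

theorem specFRC : SpecFRC := by
  intro G V _ _ _ _ _ l K B Y hl hl2 hK hBK hY hne hBY hf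
  have hn := FRC.subgroupOf_normal hY hne hBK hBY hf
  obtain ⟨φ, hφ, hSR⟩ := FRC.exists_act hY hBY hf
  have hnt : Nontrivial Y := by
    obtain ⟨v, hv, hv0⟩ := hne
    exact ⟨⟨v, hv⟩, 0, fun h => hv0 (congrArg Subtype.val h)⟩
  have hX : IsPGroup l (K ⧸ B.subgroupOf K) := hK.to_quotient _
  have hcy := FRC.cyc_of_rank_one hl hl2 hX (FRC.rank_one_of_semireg hl hX hSR)
  obtain ⟨g, hg⟩ := hcy.exists_generator
  obtain ⟨k, rfl⟩ := QuotientGroup.mk_surjective g
  refine ⟨k, k.2, fun x hx => ?_⟩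
  obtain ⟨n, hn'⟩ := Subgroup.mem_zpowers_iff.1 (hg (QuotientGroup.mk ⟨x, hx⟩))
  refine ⟨-n, ?_⟩
  have h1 : ((⟨x, hx⟩ * k ^ (-n) : K) : K ⧸ B.subgroupOf K) = 1 := by
    rw [QuotientGroup.mk_mul, QuotientGroup.mk_zpow, ← hn', ← zpow_add]
    simp
  rw [QuotientGroup.eq_one_iff, Subgroup.mem_subgroupOf] at h1
  simpa using h1

end Pool.Agent.Lib.MPbe1941.X
end

section
/-!
# MP_be1941_al (exact bound), module FRT: automorphisms of odd order of a `2`-group with a unique
involution
-/
set_option autoImplicit false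

namespace Pool.Agent.Lib.MPbe1941.X

namespace FRTM

variable {R : Type*} [Group R]

theorem iter_mul {α : R →* R} {x c : R} (h : α x = x * c) (hc : α c = c) (k : ℕ) :
    α^[k] x = x * c ^ k := by
  have hck : ∀ k : ℕ, α (c ^ k) = c ^ k := fun k => by rw [map_pow, hc]
  induction k with
  | zero => simp
  | succ k ih =>
    rw [Function.iterate_succ_apply', ih, map_mul, h, hck, pow_succ']
    group

/-- `α x = x c`, `α c = c`, `c` a `2`-element, `α` of odd order: `c = 1`. -/
theorem fix_of {α : R →* R} {n : ℕ} (hn : ¬ 2 ∣ n) (hα : ∀ x, α^[n] x = x) {x c : R}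
    (h : α x = x * c) (hc : α c = c) {m : ℕ} (hm : c ^ 2 ^ m = 1) : c = 1 := by
  have h1 := iter_mul h hc n
  rw [hα] at h1
  have h2 : c ^ n = 1 := by
    have : x * c ^ n = x * 1 := by rw [← h1, mul_one]
    exact mul_left_cancel this
  have h3 : orderOf c ∣ n := orderOf_dvd_of_pow_eq_one h2
  have h4 : orderOf c ∣ 2 ^ m := orderOf_dvd_of_pow_eq_one hm
  have h5 : Nat.Coprime n (2 ^ m) :=
    Nat.Coprime.pow_right m ((Nat.coprime_comm.1 ((Nat.Prime.coprime_iff_not_dvd Nat.prime_two).2 hn)))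
  exact orderOf_eq_one_iff.1 (Nat.dvd_one.1 (h5 ▸ Nat.dvd_gcd h3 h4))

theorem iter_two {α : R →* R} {n : ℕ} (hn : ¬ 2 ∣ n) (hα : ∀ x, α^[n] x = x) {x : R}
    (h : α (α x) = x) : α x = x := by
  have h1 : ∀ k : ℕ, α^[2 * k] x = x := by
    intro k
    induction k with
    | zero => rfl
    | succ k ih =>
      have : 2 * (k + 1) = 2 * k + 1 + 1 := by ring
      rw [this, Function.iterate_succ_apply, Function.iterate_succ_apply, h, ih]
  obtain ⟨k, hk⟩ : ∃ k, n = 2 * k + 1 := ⟨n / 2, by omega⟩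
  have h2 := hα x
  rw [hk, Function.iterate_succ_apply', h1] at h2
  exact h2

/-- An automorphism of odd order acting nontrivially on a `2`-group with a unique involution
permutes the elements `x, y, ± x y` of a quaternion subgroup cyclically. -/
theorem q8 [Finite R] (hR : IsPGroup 2 R) {z : R} (hz1 : z ≠ 1) (hzc : ∀ x, z * x = x * z)
    (hz : ∀ x : R, x * x = 1 → x = 1 ∨ x = z) (hzz : z * z = 1) {α : R →* R} {n : ℕ}
    (hn : ¬ 2 ∣ n) (hα : ∀ x, α^[n] x = x) {x0 : R} (hx0 : α x0 ≠ x0) :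
    ∃ x, x * x = z ∧ α x * α x = z ∧ x * α x = z * (α x * x) ∧ α x ≠ x ∧
      (α (α x) = x * α x ∨ α (α x) = z * (x * α x)) ∧ α (α (α x)) = x := by
  have h2el : ∀ c : R, ∃ m : ℕ, c ^ 2 ^ m = 1 := fun c => hR c
  have hinj : Function.Injective α := by
    intro a b hab
    have hn0 : ∃ k, n = k + 1 := ⟨n - 1, by
      have : n ≠ 0 := by rintro rfl; exact hn (dvd_zero 2)
      omega⟩
    obtain ⟨k, hk⟩ := hn0
    have h1 := hα a
    have h2 := hα b
    rw [hk, Function.iterate_succ_apply] at h1 h2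
    rw [hab, h2] at h1
    exact h1.symm
  have hαz : α z = z := by
    have h1 : α z * α z = 1 := by rw [← map_mul, hzz, map_one]
    rcases hz _ h1 with h | h
    · exact absurd (hinj (by rw [h, map_one])) hz1
    · exact h
  -- a minimal invariant subgroup which is moved
  let s : Set (Subgroup R) := {K | (∀ k ∈ K, α k ∈ K) ∧ ∃ k ∈ K, α k ≠ k}
  have hsne : s.Nonempty := ⟨⊤, fun _ _ => Subgroup.mem_top _, x0, Subgroup.mem_top _, hx0⟩
  obtain ⟨K, hKmin⟩ := (Set.toFinite s).exists_minimal hsne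
  obtain ⟨hKα, k0, hk0, hk0α⟩ := hKmin.prop
  have hmin : ∀ L : Subgroup R, L ≤ K → (∀ k ∈ L, α k ∈ L) → ¬ K ≤ L → ∀ k ∈ L, α k = k := by
    intro L hLK hLα hKL k hk
    by_contra hne
    exact hKL (hKmin.le_of_le ⟨hLα, k, hk, hne⟩ hLK)
  -- the subgroup generated by the squares
  obtain ⟨T, hT⟩ : ∃ T, T = Subgroup.closure {w : R | ∃ k ∈ K, w = k * k} := ⟨_, rfl⟩
  have hTsq : ∀ k ∈ K, k * k ∈ T := fun k hk => by
    rw [hT]; exact Subgroup.subset_closure ⟨k, hk, rfl⟩
  have hTK : T ≤ K := by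
    rw [hT, Subgroup.closure_le]
    rintro w ⟨k, hk, rfl⟩
    exact K.mul_mem hk hk
  have hTα : ∀ t ∈ T, α t ∈ T := by
    intro t ht
    rw [hT] at ht
    induction ht using Subgroup.closure_induction with
    | mem w hw =>
      obtain ⟨k, hk, rfl⟩ := hw
      rw [map_mul]
      exact hTsq _ (hKα k hk)
    | one => rw [map_one]; exact T.one_mem
    | mul a b _ _ ha hb => rw [map_mul]; exact T.mul_mem ha hb
    | inv a _ ha => rw [map_inv]; exact T.inv_mem ha
  have hTne : ¬ K ≤ T := by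
    intro hKT
    have hf2 : Fact (Nat.Prime 2) := ⟨Nat.prime_two⟩
    obtain ⟨m, hm⟩ := IsPGroup.iff_card.1 (hR.to_subgroup K)
    have hm0 : m ≠ 0 := by
      rintro rfl
      rw [pow_zero] at hm
      have h1 : K = ⊥ := Subgroup.eq_bot_of_card_eq K hm
      rw [h1, Subgroup.mem_bot] at hk0
      exact hk0α (by rw [hk0, map_one])
    obtain ⟨j, rfl⟩ : ∃ j, m = j + 1 := ⟨m - 1, by omega⟩
    obtain ⟨M, hM⟩ := Sylow.exists_subgroup_card_pow_prime (G := K) 2 (n := j)
      (by rw [hm]; exact pow_dvd_pow 2 (Nat.le_succ j))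
    have hMi : M.index = 2 := by
      have h1 := Subgroup.card_mul_index M
      rw [hM, hm, pow_succ] at h1
      exact Nat.eq_of_mul_eq_mul_left (pow_pos (by norm_num) j) h1
    have h1 : ∀ t ∈ T, ∃ ht : t ∈ K, (⟨t, ht⟩ : K) ∈ M := by
      intro t ht
      rw [hT] at ht
      induction ht using Subgroup.closure_induction with
      | mem w hw =>
        obtain ⟨k, hk, rfl⟩ := hw
        exact ⟨K.mul_mem hk hk, Subgroup.mul_self_mem_of_index_two hMi (⟨k, hk⟩ : K)⟩
      | one => exact ⟨K.one_mem, M.one_mem⟩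
      | mul a b _ _ ha hb =>
        obtain ⟨ha1, ha2⟩ := ha
        obtain ⟨hb1, hb2⟩ := hb
        exact ⟨K.mul_mem ha1 hb1, M.mul_mem ha2 hb2⟩
      | inv a _ ha =>
        obtain ⟨ha1, ha2⟩ := ha
        exact ⟨K.inv_mem ha1, M.inv_mem ha2⟩
    have h2 : M = ⊤ := by
      rw [eq_top_iff]
      rintro ⟨k, hk⟩ _
      obtain ⟨_, h3⟩ := h1 k (hKT hk)
      exact h3
    rw [h2, Subgroup.index_top] at hMi
    omega
  have hTfix : ∀ t ∈ T, α t = t := hmin T hTK hTα hTne
  have hTn : ∀ k ∈ K, ∀ t ∈ T, k * t * k⁻¹ ∈ T := by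
    intro k hk t ht
    rw [hT] at ht
    induction ht using Subgroup.closure_induction with
    | mem w hw =>
      obtain ⟨v, hv, rfl⟩ := hw
      have h1 : k * (v * v) * k⁻¹ = (k * v * k⁻¹) * (k * v * k⁻¹) := by group
      rw [h1]
      exact hTsq _ (K.mul_mem (K.mul_mem hk hv) (K.inv_mem hk))
    | one => simp [T.one_mem]
    | mul a b _ _ ha hb =>
      have h1 : k * (a * b) * k⁻¹ = (k * a * k⁻¹) * (k * b * k⁻¹) := by group
      rw [h1]; exact T.mul_mem ha hb
    | inv a _ ha =>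
      have h1 : k * a⁻¹ * k⁻¹ = (k * a * k⁻¹)⁻¹ := by group
      rw [h1]; exact T.inv_mem ha
  -- `K = [K, α]`
  obtain ⟨E, hE⟩ : ∃ E, E = Subgroup.closure {w : R | ∃ k ∈ K, w = k⁻¹ * α k} := ⟨_, rfl⟩
  have hEg : ∀ k ∈ K, k⁻¹ * α k ∈ E := fun k hk => by
    rw [hE]; exact Subgroup.subset_closure ⟨k, hk, rfl⟩
  have hEK : E ≤ K := by
    rw [hE, Subgroup.closure_le]
    rintro w ⟨k, hk, rfl⟩
    exact K.mul_mem (K.inv_mem hk) (hKα k hk)
  have hEα : ∀ t ∈ E, α t ∈ E := by
    intro t ht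
    rw [hE] at ht
    induction ht using Subgroup.closure_induction with
    | mem w hw =>
      obtain ⟨k, hk, rfl⟩ := hw
      rw [map_mul, map_inv]
      exact hEg _ (hKα k hk)
    | one => rw [map_one]; exact E.one_mem
    | mul a b _ _ ha hb => rw [map_mul]; exact E.mul_mem ha hb
    | inv a _ ha => rw [map_inv]; exact E.inv_mem ha
  have hKE : K ≤ E := by
    by_contra hne
    have h1 := hmin E hEK hEα hne
    obtain ⟨m, hm⟩ := h2el (k0⁻¹ * α k0)
    have h2 := fix_of hn hα (x := k0) (c := k0⁻¹ * α k0) (by group) (h1 _ (hEg k0 hk0)) hm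
    exact hk0α (inv_mul_eq_one.1 h2).symm
  -- `T` is central in `K`
  have hTc : ∀ t ∈ T, ∀ k ∈ K, k * t = t * k := by
    intro t ht k hk
    have hk' := hKE hk
    rw [hE] at hk'
    induction hk' using Subgroup.closure_induction with
    | mem w hw =>
      obtain ⟨x, hx, rfl⟩ := hw
      have h1 := hTfix _ (hTn x hx t ht)
      rw [map_mul, map_mul, map_inv, hTfix t ht] at h1
      calc x⁻¹ * α x * t = x⁻¹ * (α x * t * (α x)⁻¹) * α x := by group
        _ = x⁻¹ * (x * t * x⁻¹) * α x := by rw [h1]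
        _ = t * (x⁻¹ * α x) := by group
    | one => simp
    | mul a b ha' hb' ha hb =>
      have ha1 : a ∈ K := hEK (by rw [hE]; exact ha')
      have hb1 : b ∈ K := hEK (by rw [hE]; exact hb')
      calc a * b * t = a * (b * t) := by group
        _ = a * (t * b) := by rw [hb hb1]
        _ = (a * t) * b := by group
        _ = (t * a) * b := by rw [ha ha1]
        _ = t * (a * b) := by group
    | inv a ha' ha =>
      have ha1 : a ∈ K := hEK (by rw [hE]; exact ha')
      calc a⁻¹ * t = a⁻¹ * (t * a) * a⁻¹ := by group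
        _ = a⁻¹ * (a * t) * a⁻¹ := by rw [ha ha1]
        _ = t * a⁻¹ := by group
  -- squares are fixed
  have hsqfix : ∀ k ∈ K, α k * α k = k * k := fun k hk => by
    rw [← map_mul]; exact hTfix _ (hTsq k hk)
  -- the commutator of two elements with the same square is `1` or `z`
  have hcomm : ∀ a ∈ K, ∀ b ∈ K, a * b = b * a ∨ a * b = z * (b * a) := by
    intro a ha b hb
    obtain ⟨e, he⟩ : ∃ e, e = a * b * a⁻¹ * b⁻¹ := ⟨_, rfl⟩
    have he1 : a * b = e * (b * a) := by rw [he]; group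
    have heT : e ∈ T := by
      have h1 : e = ((a * b) * (a * b)) * (b⁻¹ * (a * a)⁻¹ * b) * (b * b)⁻¹ := by
        rw [he]; group
      rw [h1]
      refine T.mul_mem (T.mul_mem (hTsq _ (K.mul_mem ha hb)) ?_) (T.inv_mem (hTsq b hb))
      have h2 := hTn b⁻¹ (K.inv_mem hb) _ (T.inv_mem (hTsq a ha))
      rwa [inv_inv] at h2
    have hec : ∀ k ∈ K, k * e = e * k := hTc e heT
    have hee : e * e = 1 := by
      have h1 : a * a * b = e * e * (b * (a * a)) := by
        calc a * a * b = a * (a * b) := by group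
          _ = a * (e * (b * a)) := by rw [he1]
          _ = (a * e) * (b * a) := by group
          _ = (e * a) * (b * a) := by rw [hec a ha]
          _ = e * (a * b) * a := by group
          _ = e * (e * (b * a)) * a := by rw [he1]
          _ = e * e * (b * (a * a)) := by group
      have h2 : b * (a * a) = a * a * b := hTc _ (hTsq a ha) b hb
      rw [← h2] at h1
      exact (mul_eq_right.1 h1.symm)
    rcases hz e hee with h | h
    · left; rw [he1, h, one_mul]
    · right; rw [he1, h]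
  -- equal squares and commuting
  have hsame : ∀ a ∈ K, ∀ b ∈ K, a * a = b * b → a * b = b * a → b = a ∨ b = a * z := by
    intro a ha b hb h1 h2
    have h3 : (a⁻¹ * b) * (a⁻¹ * b) = 1 := by
      have h4 : b * a⁻¹ = a⁻¹ * b := by
        calc b * a⁻¹ = a⁻¹ * (a * b) * a⁻¹ := by group
          _ = a⁻¹ * (b * a) * a⁻¹ := by rw [h2]
          _ = a⁻¹ * b := by group
      calc (a⁻¹ * b) * (a⁻¹ * b) = a⁻¹ * (b * a⁻¹) * b := by group
        _ = a⁻¹ * (a⁻¹ * b) * b := by rw [h4]
        _ = a⁻¹ * a⁻¹ * (b * b) := by group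
        _ = a⁻¹ * a⁻¹ * (a * a) := by rw [h1]
        _ = 1 := by group
    rcases hz _ h3 with h | h
    · left; exact (inv_mul_eq_one.1 h).symm
    · right
      rw [← h]; group
  obtain ⟨x, hx⟩ : ∃ x, x = k0 := ⟨_, rfl⟩
  have hxK : x ∈ K := by rw [hx]; exact hk0
  have hxα : α x ≠ x := by rw [hx]; exact hk0α
  obtain ⟨y, hy⟩ : ∃ y, y = α x := ⟨_, rfl⟩
  have hyK : y ∈ K := by rw [hy]; exact hKα x hxK
  have hxy : x * x = y * y := by rw [hy, hsqfix x hxK]
  have hyx : y ≠ x := by rw [hy]; exact hxα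
  have hzfix : ∀ {u : R}, u * z ≠ u := fun {u} h => hz1 (mul_eq_left.1 h)
  have hyxz : y ≠ x * z := by
    intro h
    rw [hy] at h
    exact hz1 (fix_of hn hα h hαz (m := 1) (by rw [pow_one, pow_two]; exact hzz))
  have hexy : x * y = z * (y * x) := by
    rcases hcomm x hxK y hyK with h | h
    · rcases hsame x hxK y hyK hxy h with h' | h'
      · exact absurd h' hyx
      · exact absurd h' hyxz
    · exact h
  -- `x * x = z`
  obtain ⟨t, ht⟩ : ∃ t, t = x * x := ⟨_, rfl⟩
  have htT : t ∈ T := by rw [ht]; exact hTsq x hxK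
  have htz : t = z := by
    by_contra htz
    have ht1 : t ≠ 1 := by
      intro h
      rcases hz x (by rw [← ht, h]) with h' | h'
      · exact hxα (by rw [h', map_one])
      · exact hxα (by rw [h', hαz])
    obtain ⟨m, hm⟩ := h2el t
    obtain ⟨k, _, hko⟩ := (Nat.dvd_prime_pow Nat.prime_two).1 (orderOf_dvd_of_pow_eq_one hm)
    have hk2 : 2 ≤ k := by
      by_contra hlt
      interval_cases k
      · rw [pow_zero, orderOf_eq_one_iff] at hko
        exact ht1 hko
      · rw [pow_one] at hko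
        have h1 : t * t = 1 := by
          rw [← pow_two, ← hko, pow_orderOf_eq_one]
        rcases hz t h1 with h | h
        · exact ht1 h
        · exact htz h
    obtain ⟨j, rfl⟩ : ∃ j, k = j + 2 := ⟨k - 2, by omega⟩
    obtain ⟨d, hd⟩ : ∃ d, d = t ^ (2 ^ j) := ⟨_, rfl⟩
    have hdd : d * d = z := by
      have h1 : (d * d) * (d * d) = 1 := by
        rw [hd, ← pow_add, ← pow_add, ← orderOf_dvd_iff_pow_eq_one, hko]
        exact dvd_of_eq (by ring)
      rcases hz _ h1 with h | h
      · exfalso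
        rw [hd, ← pow_add, ← orderOf_dvd_iff_pow_eq_one, hko] at h
        have h2 : 2 ^ (j + 2) ∣ 2 ^ (j + 1) := by
          have : 2 ^ (j + 1) = 2 ^ j + 2 ^ j := by ring
          rw [this]; exact h
        exact absurd (Nat.pow_dvd_pow_iff_le_right (by norm_num) |>.1 h2) (by omega)
      · exact h
    have hdT : d ∈ T := by rw [hd]; exact T.pow_mem htT _
    have htd : t * d ∈ T := T.mul_mem htT hdT
    have htdc := hTc _ htd
    have h1 : (x * y) * (x * y) = (t * d) * (t * d) := by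
      have e1 : (x * y) * (x * y) = z * t * t := by
        calc (x * y) * (x * y) = x * (y * x) * y := by group
          _ = z * z * (x * (y * x) * y) := by rw [hzz, one_mul]
          _ = z * (x * (z * (y * x)) * y) := by
              rw [show z * z * (x * (y * x) * y) = z * (z * x) * (y * x) * y by group, hzc x]
              group
          _ = z * (x * (x * y) * y) := by rw [← hexy]
          _ = z * ((x * x) * (y * y)) := by group
          _ = z * t * t := by rw [← hxy, ← ht]; group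
      have e2 : (t * d) * (t * d) = z * t * t := by
        have hdt : d * t = t * d := hTc t htT d (hTK hdT)
        calc (t * d) * (t * d) = t * (d * t) * d := by group
          _ = t * (t * d) * d := by rw [hdt]
          _ = t * t * (d * d) := by group
          _ = t * t * z := by rw [hdd]
          _ = z * (t * t) := by rw [hzc]
          _ = z * t * t := by group
      rw [e1, e2]
    have hxyK := K.mul_mem hxK hyK
    have h2 := hsame (t * d) (hTK htd) (x * y) hxyK h1.symm ((htdc _ hxyK).symm)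
    have hzcK : ∀ u : R, u * z = z * u := fun u => (hzc u).symm
    have h3 : ∀ k ∈ K, k * (x * y) = (x * y) * k := by
      intro k hk
      rcases h2 with h | h
      · rw [h]; exact htdc k hk
      · rw [h]
        calc k * (t * d * z) = k * (t * d) * z := by group
          _ = (t * d) * k * z := by rw [htdc k hk]
          _ = (t * d) * (k * z) := by group
          _ = (t * d) * (z * k) := by rw [hzcK k]
          _ = (t * d * z) * k := by group
    have h4 := h3 x hxK
    have h5 : x * y = y * x := by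
      have : x * (x * y) = x * (y * x) := by rw [h4]; group
      exact mul_left_cancel this
    rcases hsame x hxK y hyK hxy h5 with h' | h'
    · exact hyx h'
    · exact hyxz h'
  have hxx : x * x = z := by rw [← ht, htz]
  have hyy : y * y = z := by rw [← hxy, hxx]
  obtain ⟨w, hw⟩ : ∃ w, w = α y := ⟨_, rfl⟩
  have hwK : w ∈ K := by rw [hw]; exact hKα y hyK
  have hww : w * w = z := by rw [hw, hsqfix y hyK, hyy]
  have heyw : y * w = z * (w * y) := by
    rw [hw]
    nth_rewrite 1 [hy]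
    rw [← map_mul, hexy, map_mul, hαz, map_mul, ← hy]
  have hexw : x * w = z * (w * x) := by
    rcases hcomm x hxK w hwK with h | h
    · rcases hsame x hxK w hwK (by rw [hxx, hww]) h with h' | h'
      · exact absurd (iter_two hn hα (x := x) (by rw [← hy, ← hw, h'])) hxα
      · exfalso
        have h1 : α (α (α (α x))) = x := by
          rw [← hy, ← hw, h', map_mul, map_mul, hαz, hαz, ← hy, ← hw, h', mul_assoc, hzz, mul_one]
        have h2 : Function.IsPeriodicPt α (Nat.gcd 4 n) x :=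
          Function.IsPeriodicPt.gcd (show α^[4] x = x from h1) (hα x)
        have h3 : Nat.gcd 4 n = 1 := by
          have : Nat.Coprime (2 ^ 2) n :=
            Nat.Coprime.pow_left 2 ((Nat.Prime.coprime_iff_not_dvd Nat.prime_two).2 hn)
          exact this
        rw [h3] at h2
        exact hxα h2
    · exact h
  -- the product `x y w`
  have hxyxy : (x * y) * (x * y) = z := by
    calc (x * y) * (x * y) = x * (y * x) * y := by group
      _ = z * z * (x * (y * x) * y) := by rw [hzz, one_mul]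
      _ = z * (x * (z * (y * x)) * y) := by
          rw [show z * z * (x * (y * x) * y) = z * (z * x) * (y * x) * y by group, hzc x]
          group
      _ = z * (x * (x * y) * y) := by rw [← hexy]
      _ = z * ((x * x) * (y * y)) := by group
      _ = z := by rw [hxx, hyy, hzz, mul_one]
  have hcomxyw : (x * y) * w = w * (x * y) := by
    calc (x * y) * w = x * (y * w) := by group
      _ = x * (z * (w * y)) := by rw [heyw]
      _ = (x * z) * (w * y) := by group
      _ = (z * x) * (w * y) := by rw [hzc x]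
      _ = z * (x * w) * y := by group
      _ = z * (z * (w * x)) * y := by rw [hexw]
      _ = (z * z) * (w * (x * y)) := by group
      _ = w * (x * y) := by rw [hzz, one_mul]
  have hfin := hsame (x * y) (K.mul_mem hxK hyK) w hwK (by rw [hxyxy, hww]) hcomxyw
  have hwor : w = x * y ∨ w = z * (x * y) := by
    rcases hfin with h | h
    · exact Or.inl h
    · exact Or.inr (by rw [h, hzc])
  refine ⟨x, hxx, by rw [← hy, hyy], by rw [← hy, hexy], hxα, ?_, ?_⟩
  · rw [← hy, ← hw]; exact hwor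
  · rw [← hy, ← hw]
    have hyxy : y * (x * y) = x := by
      calc y * (x * y) = (y * x) * y := by group
        _ = (z * z) * ((y * x) * y) := by rw [hzz, one_mul]
        _ = z * (z * (y * x)) * y := by group
        _ = z * (x * y) * y := by rw [← hexy]
        _ = z * x * (y * y) := by group
        _ = z * x * z := by rw [hyy]
        _ = z * (x * z) := by group
        _ = z * (z * x) := by rw [hzc x]
        _ = (z * z) * x := by group
        _ = x := by rw [hzz, one_mul]
    rcases hwor with h | h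
    · rw [h, map_mul, ← hy, ← hw, h]; exact hyxy
    · rw [h, map_mul, map_mul, hαz, ← hy, ← hw, h]
      calc z * (y * (z * (x * y))) = z * ((y * z) * (x * y)) := by group
        _ = z * ((z * y) * (x * y)) := by rw [hzc y]
        _ = (z * z) * (y * (x * y)) := by group
        _ = x := by rw [hzz, one_mul, hyxy]

/-- **Q₈**: `K` a `2`-group acting on `Y`, `B` the kernel, an element with a nonzero fixed point
is in `B`; `ρ` of odd order normalises `K` and `B` and does not centralise `K/B`. -/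
theorem frt_q8 {G V : Type} [Group G] [Finite G] [AddCommGroup V] [Finite V] [DistribMulAction G V]
    {K B : Subgroup G} {Y : AddSubgroup V} {ρ : G} (hK : IsPGroup 2 K) (hBK : B ≤ K)
    (hY : ∀ x ∈ K, ∀ v ∈ Y, x • v ∈ Y) (hne : ∃ v ∈ Y, v ≠ 0)
    (hBY : ∀ b ∈ B, ∀ v ∈ Y, b • v = v) (hf : ∀ x ∈ K, ∀ v ∈ Y, v ≠ 0 → x • v = v → x ∈ B)
    (hρK : ∀ x ∈ K, ρ * x * ρ⁻¹ ∈ K) (hρB : ∀ b ∈ B, ρ * b * ρ⁻¹ ∈ B) (hρ2 : ¬ 2 ∣ orderOf ρ)
    (hnt : ∃ x ∈ K, ρ * x * ρ⁻¹ * x⁻¹ ∉ B) :
    3 ∣ orderOf ρ ∧ ∃ i ∈ K, ∃ j ∈ K, j = ρ * i * ρ⁻¹ ∧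
      (∀ v ∈ Y, i • i • v = -v) ∧ (∀ v ∈ Y, j • j • v = -v) ∧ (∀ v ∈ Y, i • j • v = -(j • i • v)) ∧
      ((∀ v ∈ Y, (ρ * j * ρ⁻¹) • v = i • j • v) ∨ ∀ v ∈ Y, (ρ * j * ρ⁻¹) • v = -(i • j • v)) ∧
      ∀ v ∈ Y, (ρ * (ρ * j * ρ⁻¹) * ρ⁻¹) • v = i • v := by
  have hn := FRC.subgroupOf_normal hY hne hBK hBY hf
  obtain ⟨φ, hφ, hSR⟩ := FRC.exists_act hY hBY hf
  have hntY : Nontrivial Y := by
    obtain ⟨v, hv, hv0⟩ := hne
    exact ⟨⟨v, hv⟩, 0, fun h => hv0 (congrArg Subtype.val h)⟩
  have hX : IsPGroup 2 (K ⧸ B.subgroupOf K) := hK.to_quotient _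
  have hR1 := FRC.rank_one_of_semireg Nat.prime_two hX hSR
  have hf2 : Fact (Nat.Prime 2) := ⟨Nat.prime_two⟩
  -- conjugation by `ρ`
  let c0 : K →* K :=
    { toFun := fun x => ⟨ρ * x * ρ⁻¹, hρK x x.2⟩
      map_one' := Subtype.ext (by simp)
      map_mul' := fun a b => Subtype.ext (by simp) }
  have hc0 : B.subgroupOf K ≤ (B.subgroupOf K).comap c0 := by
    intro b hb
    rw [Subgroup.mem_comap, Subgroup.mem_subgroupOf]
    rw [Subgroup.mem_subgroupOf] at hb
    exact hρB b hb
  let α : K ⧸ B.subgroupOf K →* K ⧸ B.subgroupOf K :=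
    QuotientGroup.map (B.subgroupOf K) (B.subgroupOf K) c0 hc0
  have hα1 : ∀ x : K, α (QuotientGroup.mk x) = QuotientGroup.mk (c0 x) := fun x => rfl
  have hαn : ∀ (n : ℕ) (x : K), ∃ y : K, (y : G) = ρ ^ n * x * (ρ ^ n)⁻¹ ∧
      α^[n] (QuotientGroup.mk x) = QuotientGroup.mk y := by
    intro n
    induction n with
    | zero => intro x; exact ⟨x, by simp, rfl⟩
    | succ n ih =>
      intro x
      obtain ⟨y, hy1, hy2⟩ := ih x
      refine ⟨c0 y, ?_, ?_⟩
      · change ρ * (y : G) * ρ⁻¹ = _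
        rw [hy1, pow_succ']; group
      · rw [Function.iterate_succ_apply', hy2, hα1]
  have hα : ∀ x, α^[orderOf ρ] x = x := by
    intro x
    obtain ⟨k, rfl⟩ := QuotientGroup.mk_surjective x
    obtain ⟨y, hy1, hy2⟩ := hαn (orderOf ρ) k
    rw [hy2]
    congr 1
    apply Subtype.ext
    rw [hy1, pow_orderOf_eq_one]; simp
  obtain ⟨x0, hx0K, hx0⟩ := hnt
  have hx0α : α (QuotientGroup.mk ⟨x0, hx0K⟩) ≠ QuotientGroup.mk ⟨x0, hx0K⟩ := by
    intro h
    rw [hα1, eq_comm, QuotientGroup.eq, Subgroup.mem_subgroupOf] at h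
    apply hx0
    have h1 : x0⁻¹ * (ρ * x0 * ρ⁻¹) ∈ B := h
    have h2 := FRC.conj_mem hY hne hBK hBY hf hx0K h1
    have h3 : x0 * (x0⁻¹ * (ρ * x0 * ρ⁻¹)) * x0⁻¹ = ρ * x0 * ρ⁻¹ * x0⁻¹ := by group
    rwa [h3] at h2
  have hntX : Nontrivial (K ⧸ B.subgroupOf K) := ⟨_, _, hx0α⟩
  -- the central involution
  have hcn := hX.center_nontrivial
  obtain ⟨z0, hz0⟩ := exists_ne (1 : Subgroup.center (K ⧸ B.subgroupOf K))
  obtain ⟨z, hzc, hz1, hzz⟩ : ∃ z : K ⧸ B.subgroupOf K, (∀ x, z * x = x * z) ∧ z ≠ 1 ∧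
      z * z = 1 := by
    obtain ⟨m, hm⟩ := hX (z0 : K ⧸ B.subgroupOf K)
    obtain ⟨k, _, hko⟩ := (Nat.dvd_prime_pow Nat.prime_two).1 (orderOf_dvd_of_pow_eq_one hm)
    have hk0 : k ≠ 0 := by
      rintro rfl
      rw [pow_zero, orderOf_eq_one_iff] at hko
      exact hz0 (Subtype.ext hko)
    obtain ⟨j, rfl⟩ : ∃ j, k = j + 1 := ⟨k - 1, by omega⟩
    refine ⟨(z0 : K ⧸ B.subgroupOf K) ^ 2 ^ j, ?_, ?_, ?_⟩
    · intro x
      have h1 : Commute (z0 : K ⧸ B.subgroupOf K) x :=
        (Subgroup.mem_center_iff.1 z0.2 x).symm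
      exact (h1.pow_left _).eq
    · intro h
      have h2 := orderOf_dvd_of_pow_eq_one h
      rw [hko] at h2
      exact absurd (Nat.pow_dvd_pow_iff_le_right (by norm_num) |>.1 h2) (by omega)
    · rw [← pow_add, ← orderOf_dvd_iff_pow_eq_one, hko]
      exact dvd_of_eq (by ring)
  have hzu : ∀ x : K ⧸ B.subgroupOf K, x * x = 1 → x = 1 ∨ x = z := by
    intro x hx
    obtain ⟨n, hn'⟩ := Subgroup.mem_zpowers_iff.1
      (hR1 x z (by rw [pow_two]; exact hx) (by rw [pow_two]; exact hzz) hz1 (hzc x).symm)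
    rcases Int.even_or_odd' n with ⟨m, rfl | rfl⟩
    · left
      rw [← hn', zpow_mul, zpow_two, hzz, one_zpow]
    · right
      rw [← hn', zpow_add, zpow_mul, zpow_two, hzz, one_zpow, one_mul, zpow_one]
  obtain ⟨x, hxx, hyy, hxy, hne', hw, h3⟩ := q8 hX hz1 hzc hzu hzz hρ2 hα hx0α
  -- `z` acts as `-1`
  have hzneg : ∀ v : Y, φ z v = -v := by
    intro v
    by_contra hv
    have hv' : φ z v + v ≠ 0 := fun h => hv (eq_neg_of_add_eq_zero_left h)
    apply hz1
    refine hSR z _ hv' ?_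
    rw [map_add]
    have h1 : φ z (φ z v) = v := by
      have h2 : φ (z * z) v = v := by rw [hzz, map_one]; rfl
      rw [map_mul] at h2
      exact h2
    rw [h1, add_comm]
  have hmul : ∀ (a b : K ⧸ B.subgroupOf K) (v : Y), φ (a * b) v = φ a (φ b v) := by
    intro a b v
    rw [map_mul]; rfl
  obtain ⟨i, rfl⟩ := QuotientGroup.mk_surjective x
  refine ⟨?_, i, i.2, ρ * i * ρ⁻¹, hρK i i.2, rfl, ?_, ?_, ?_, ?_, ?_⟩
  · by_contra h3'
    apply hne'
    have h4 : Function.IsPeriodicPt α (Nat.gcd 3 (orderOf ρ)) (QuotientGroup.mk i) :=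
      Function.IsPeriodicPt.gcd (show α^[3] _ = _ from h3) (hα _)
    have h5 : Nat.gcd 3 (orderOf ρ) = 1 := (Nat.Prime.coprime_iff_not_dvd Nat.prime_three).2 h3'
    rw [h5] at h4
    exact h4
  · intro v hv
    have h1 := hmul (QuotientGroup.mk i) (QuotientGroup.mk i) ⟨v, hv⟩
    rw [hxx, hzneg] at h1
    have h2 := congrArg Subtype.val h1
    simp only [AddSubgroup.coe_neg, hφ] at h2
    exact h2.symm
  · intro v hv
    have h1 := hmul (QuotientGroup.mk (c0 i)) (QuotientGroup.mk (c0 i)) ⟨v, hv⟩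
    rw [hα1] at hyy
    rw [hyy, hzneg] at h1
    have h2 := congrArg Subtype.val h1
    simp only [AddSubgroup.coe_neg, hφ] at h2
    exact h2.symm
  · intro v hv
    have h1 := hmul (QuotientGroup.mk i) (QuotientGroup.mk (c0 i)) ⟨v, hv⟩
    rw [hα1] at hxy
    rw [hxy, hmul, hzneg, hmul] at h1
    have h2 := congrArg Subtype.val h1
    simp only [AddSubgroup.coe_neg, hφ] at h2
    exact h2.symm
  · rcases hw with h | h
    · left
      intro v hv
      rw [hα1, hα1] at h
      have h1 : φ (QuotientGroup.mk (c0 (c0 i))) ⟨v, hv⟩ =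
          φ (QuotientGroup.mk i * QuotientGroup.mk (c0 i)) ⟨v, hv⟩ := by rw [h]
      rw [hmul] at h1
      have h2 := congrArg Subtype.val h1
      simp only [AddSubgroup.coe_neg, hφ] at h2
      exact h2
    · right
      intro v hv
      rw [hα1, hα1] at h
      have h1 : φ (QuotientGroup.mk (c0 (c0 i))) ⟨v, hv⟩ =
          φ (z * (QuotientGroup.mk i * QuotientGroup.mk (c0 i))) ⟨v, hv⟩ := by rw [h]
      rw [hmul, hzneg, hmul] at h1
      have h2 := congrArg Subtype.val h1
      simp only [AddSubgroup.coe_neg, hφ] at h2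
      exact h2
  · intro v hv
    rw [hα1, hα1, hα1] at h3
    have h1 : φ (QuotientGroup.mk (c0 (c0 (c0 i)))) ⟨v, hv⟩ =
        φ (QuotientGroup.mk i) ⟨v, hv⟩ := by rw [h3]
    have h2 := congrArg Subtype.val h1
    simp only [hφ] at h2
    exact h2

end FRTM

theorem specFRT : SpecFRT := by
  intro G V _ _ _ _ _ K B Y ρ hK hBK hY hne hBY hf hρK hρB hρ2 hρ3 x hx
  by_contra h
  exact hρ3 (FRTM.frt_q8 hK hBK hY hne hBY hf hρK hρB hρ2 ⟨x, hx, h⟩).1

end Pool.Agent.Lib.MPbe1941.X
end
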