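import Pool.Agent.Lib.MP_be1941_al.RB.SpecB
import Pool.Agent.Lib.MP_be1941_al.X.SpecD
import Pool.Agent.Lib.MP_be1941_al.X.PSB

section
/-!
# MP_be1941_al, block RB, module DUA: the dual of a commutative normal subgroup
-/
set_option autoImplicit false

namespace Pool.Agent.Lib.MPbe1941.RB

open Pool.Agent.Lib.MPbe1941

namespace DUAM

variable {G : Type} [Group G]

/-- the homomorphism into the units given by a character -/
noncomputable def hom (D : Subgroup G) (f : G → ℂ) (hf : IsChar D f) : D →* ℂˣ :=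
  MonoidHom.toHomUnits
    { toFun := fun x => f x
      map_one' := hf.one
      map_mul' := fun x y => hf.mul x x.2 y y.2 }

theorem hom_apply (D : Subgroup G) (f : G → ℂ) (hf : IsChar D f) (x : D) :
    ((hom D f hf x : ℂˣ) : ℂ) = f x := rfl

/-- facts from the duality theory of finite commutative groups -/
theorem dual_facts (A : Type) [CommGroup A] [Finite A] :
    Finite (A →* ℂˣ) ∧ Nat.card (A →* ℂˣ) = Nat.card A ∧
      ∀ a : A, (∀ φ : A →* ℂˣ, φ a = 1) → a = 1 := by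
  have h0 : NeZero (Monoid.exponent A) := ⟨Monoid.exponent_ne_zero_of_finite⟩
  have h1 : NeZero ((Monoid.exponent A : ℕ) : ℂ) := ⟨Nat.cast_ne_zero.2 h0.out⟩
  have h2 : HasEnoughRootsOfUnity ℂ (Monoid.exponent A) := inferInstance
  have h3 := CommGroup.card_monoidHom_of_hasEnoughRootsOfUnity A ℂ
  refine ⟨?_, h3, fun a ha => ?_⟩
  · refine Nat.finite_of_card_ne_zero ?_
    rw [h3]
    exact Nat.card_pos.ne'
  · by_contra hne
    obtain ⟨φ, hφ⟩ := CommGroup.exists_apply_ne_one_of_hasEnoughRootsOfUnity A ℂ hne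
    exact hφ (ha φ)

/-- the same for a subgroup whose elements commute -/
theorem dual_sub [Finite G] (D : Subgroup G) (hD : ∀ x ∈ D, ∀ y ∈ D, x * y = y * x) :
    Finite (D →* ℂˣ) ∧ Nat.card (D →* ℂˣ) = Nat.card D ∧
      ∀ a : D, (∀ φ : D →* ℂˣ, φ a = 1) → a = 1 := by
  let _ : CommGroup D := { (inferInstance : Group D) with
    mul_comm := fun x y => Subtype.ext (hD x x.2 y y.2) }
  exact dual_facts D

/-- the action -/
@[reducible] def act (D H : Subgroup G) [D.Normal] : DistribMulAction H (Additive (D →* ℂˣ)) where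
  smul h μ := Additive.ofMul ((Additive.toMul μ).comp
    (MulAut.conjNormal ((h : G)⁻¹) : MulAut D).toMonoidHom)
  one_smul μ := by
    refine Additive.toMul.injective (MonoidHom.ext fun x => ?_)
    show (Additive.toMul μ) (MulAut.conjNormal (((1 : H) : G)⁻¹) x) = Additive.toMul μ x
    simp
  mul_smul h k μ := by
    refine Additive.toMul.injective (MonoidHom.ext fun x => ?_)
    show (Additive.toMul μ) (MulAut.conjNormal (((h * k : H) : G)⁻¹) x) =
      (Additive.toMul μ) (MulAut.conjNormal ((k : G)⁻¹) (MulAut.conjNormal ((h : G)⁻¹) x))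
    congr 1
    rw [Subgroup.coe_mul, mul_inv_rev, map_mul]
    rfl
  smul_zero h := by
    refine Additive.toMul.injective (MonoidHom.ext fun x => ?_)
    rfl
  smul_add h μ ν := by
    refine Additive.toMul.injective (MonoidHom.ext fun x => ?_)
    rfl

end DUAM

open DUAM in
theorem specDUA : SpecDUA := by
  classical
  intro G _ _ D H hN hD
  obtain ⟨hfin, -, hsep⟩ := dual_sub D hD
  refine ⟨Additive (D →* ℂˣ), inferInstance, act D H, fun μ x => if hx : x ∈ D then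
    ((Additive.toMul μ ⟨x, hx⟩ : ℂˣ) : ℂ) else 1, ?_⟩
  let _ := act D H
  have hev : ∀ (μ : Additive (D →* ℂˣ)) (x : G) (hx : x ∈ D),
      (if hx : x ∈ D then ((Additive.toMul μ ⟨x, hx⟩ : ℂˣ) : ℂ) else 1) =
        ((Additive.toMul μ ⟨x, hx⟩ : ℂˣ) : ℂ) := fun μ x hx => dif_pos hx
  refine ⟨?_, ?_, ?_, ?_, ?_, ?_, ?_⟩
  · exact Finite.of_equiv _ Additive.ofMul
  · intro μ
    refine ⟨?_, fun x hx y hy => ?_⟩
    · rw [hev μ 1 D.one_mem]
      have : (⟨1, D.one_mem⟩ : D) = 1 := rfl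
      rw [this, map_one]
      rfl
    · rw [hev μ _ (D.mul_mem hx hy), hev μ x hx, hev μ y hy]
      have : (⟨x * y, D.mul_mem hx hy⟩ : D) = ⟨x, hx⟩ * ⟨y, hy⟩ := rfl
      rw [this, map_mul]
      rfl
  · intro μ ν x hx
    rw [hev (μ + ν) x hx, hev μ x hx, hev ν x hx]
    rfl
  · intro μ h x hx
    have hx' : (h : G) * x * (h : G)⁻¹ ∈ D := hN.conj_mem x hx h
    rw [hev _ _ hx', hev μ x hx]
    have h1 : (Additive.toMul (h • μ)) ⟨(h : G) * x * (h : G)⁻¹, hx'⟩ =
        (Additive.toMul μ) (MulAut.conjNormal ((h : G)⁻¹) ⟨(h : G) * x * (h : G)⁻¹, hx'⟩) := rfl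
    rw [h1]
    congr 2
    apply Subtype.ext
    rw [MulAut.conjNormal_apply]
    simp only [inv_inv]
    group
  · intro μ ν h
    refine Additive.toMul.injective (MonoidHom.ext fun x => Units.ext ?_)
    have h1 := h x x.2
    rw [hev μ x x.2, hev ν x x.2] at h1
    exact h1
  · intro f hf
    refine ⟨Additive.ofMul (hom D f hf), fun x hx => ?_⟩
    rw [hev _ x hx]
    exact hom_apply D f hf ⟨x, hx⟩
  · intro x hx h
    have h1 := hsep ⟨x, hx⟩ fun φ => ?_
    · exact congrArg Subtype.val h1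
    · have h2 := h (Additive.ofMul φ)
      rw [hev _ x hx] at h2
      exact Units.ext h2

end Pool.Agent.Lib.MPbe1941.RB
end

section
/-!
# MP_be1941_al, block RB: exponents, centrality and normality (ELE)
-/
set_option autoImplicit false

namespace Pool.Agent.Lib.MPbe1941.RB.ELEM

open Pool.Agent.Lib.MPbe1941 Pool.Agent.Lib.MPbe1941.RB

section

variable {G : Type} [Group G] {P : Subgroup G}

theorem expo {p : ℕ} (hn : P.Normal) (hP : IsPGroup p P)
    (hc : ∀ x ∈ ⁅P, P⁆, ∀ y ∈ P, x * y = y * x) (hnab : ⁅P, P⁆ ≠ ⊥)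
    (hmn : ∀ N : Subgroup G, N.Normal → N ≤ ⁅P, P⁆ → N = ⊥ ∨ N = ⁅P, P⁆) :
    ∀ x ∈ ⁅P, P⁆, x ^ p = 1 := by
  have hle : ⁅P, P⁆ ≤ P := by
    rw [Subgroup.commutator_le]
    intro x hx y hy
    exact P.mul_mem (P.mul_mem (P.mul_mem hx hy) (P.inv_mem hx)) (P.inv_mem hy)
  have hDn : (⁅P, P⁆).Normal := inferInstance
  let N : Subgroup G :=
    { carrier := {z | z ∈ ⁅P, P⁆ ∧ z ^ p = 1}
      mul_mem' := by
        rintro a b ⟨ha, ha'⟩ ⟨hb, hb'⟩
        refine ⟨mul_mem ha hb, ?_⟩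
        have hab : Commute a b := hc a ha b (hle hb)
        rw [hab.mul_pow, ha', hb', one_mul]
      one_mem' := ⟨one_mem _, one_pow _⟩
      inv_mem' := by
        rintro a ⟨ha, ha'⟩
        exact ⟨inv_mem ha, by rw [inv_pow, ha', inv_one]⟩ }
  have hN : N.Normal := by
    refine ⟨fun n hn' g => ⟨hDn.conj_mem n hn'.1 g, ?_⟩⟩
    rw [conj_pow, hn'.2, mul_one, mul_inv_cancel]
  have hNle : N ≤ ⁅P, P⁆ := fun x hx => hx.1
  rcases hmn N hN hNle with h | h
  · exfalso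
    apply hnab
    rw [eq_bot_iff]
    intro x hx
    by_contra hx1
    have hx1' : x ≠ 1 := fun h => hx1 (by rw [h]; exact one_mem _)
    have hex : ∃ k : ℕ, x ^ p ^ k = 1 := by
      obtain ⟨k, hk⟩ := hP ⟨x, hle hx⟩
      exact ⟨k, by simpa using congrArg Subtype.val hk⟩
    classical
    have hk := Nat.find_spec hex
    have hkpos : 0 < Nat.find hex := by
      rcases Nat.eq_zero_or_pos (Nat.find hex) with h0 | h0
      · rw [h0, pow_zero, pow_one] at hk; exact absurd hk hx1'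
      · exact h0
    obtain ⟨k, hk'⟩ : ∃ k, Nat.find hex = k + 1 := ⟨Nat.find hex - 1, by omega⟩
    have hmin : x ^ p ^ k ≠ 1 := Nat.find_min hex (by omega)
    have hmem : x ^ p ^ k ∈ N := by
      refine ⟨pow_mem hx _, ?_⟩
      rw [← pow_mul, ← pow_succ, ← hk']; exact hk
    rw [h] at hmem
    exact hmin (Subgroup.mem_bot.mp hmem)
  · intro x hx
    rw [← h] at hx
    exact hx.2

theorem zc_mem {x : G} : x ∈ Zc P ↔ x ∈ P ∧ ∀ y ∈ P, x * y = y * x := by
  unfold Zc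
  rw [Subgroup.mem_inf, Subgroup.mem_centralizer_iff]
  constructor
  · rintro ⟨h1, h2⟩
    exact ⟨h1, fun y hy => (h2 y hy).symm⟩
  · rintro ⟨h1, h2⟩
    exact ⟨h1, fun y hy => (h2 y hy).symm⟩

theorem zc_normal (hn : P.Normal) : (Zc P).Normal := by
  refine ⟨fun x hx g => ?_⟩
  rw [zc_mem] at hx ⊢
  refine ⟨hn.conj_mem x hx.1 g, fun y hy => ?_⟩
  have h1 := hx.2 _ (hn.conj_mem y hy g⁻¹)
  rw [inv_inv] at h1
  calc g * x * g⁻¹ * y = g * (x * (g⁻¹ * y * g)) * g⁻¹ := by group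
    _ = g * (g⁻¹ * y * g * x) * g⁻¹ := by rw [h1]
    _ = y * (g * x * g⁻¹) := by group

theorem phi_normal (hn : P.Normal) (p : ℕ) : (PhiG P p).Normal := by
  have h1 : (Subgroup.closure ((fun x => x ^ p) '' (P : Set G))).Normal := by
    refine ⟨fun x hx g => ?_⟩
    induction hx using Subgroup.closure_induction with
    | mem x hx =>
      obtain ⟨y, hy, rfl⟩ := hx
      refine Subgroup.subset_closure ⟨g * y * g⁻¹, hn.conj_mem y hy g, ?_⟩
      exact conj_pow
    | one => rw [mul_one, mul_inv_cancel]; exact one_mem _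
    | mul x y _ _ hx hy =>
      have e : g * (x * y) * g⁻¹ = g * x * g⁻¹ * (g * y * g⁻¹) := by group
      rw [e]; exact mul_mem hx hy
    | inv x _ hx =>
      have e : g * x⁻¹ * g⁻¹ = (g * x * g⁻¹)⁻¹ := by group
      rw [e]; exact inv_mem hx
  have h2 : (⁅P, P⁆).Normal := inferInstance
  unfold PhiG
  exact Subgroup.sup_normal _ _

end

theorem spec (hRAD : SpecRAD) : SpecELE := by
  intro G ι _ _ pr P U H hS
  have hex : ∀ i, ∀ x ∈ ⁅P i, P i⁆, x ^ pr i = 1 := fun i =>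
    expo (hS.Pn i) (hS.Pp i) (hS.cen i) (hS.nab i) (hS.mn i)
  refine ⟨hex, fun i => ?_, fun i => phi_normal (hS.Pn i) _, fun i => zc_normal (hS.Pn i),
    fun i x hx => ?_⟩
  · obtain ⟨-, hmem, -, -, hpow⟩ := hRAD G (P i) (hS.cen i)
    refine sup_le ?_ ?_
    · intro x hx
      rw [zc_mem]
      refine ⟨?_, hS.cen i x hx⟩
      have hle : ⁅P i, P i⁆ ≤ P i := by
        rw [Subgroup.commutator_le]
        intro x hx y hy
        exact (P i).mul_mem ((P i).mul_mem ((P i).mul_mem hx hy) ((P i).inv_mem hx))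
          ((P i).inv_mem hy)
      exact hle hx
    · rw [Subgroup.closure_le]
      rintro _ ⟨x, hx, rfl⟩
      change x ^ pr i ∈ Zc (P i)
      rw [zc_mem]
      refine ⟨(P i).pow_mem hx _, fun y hy => ?_⟩
      have h1 := hpow x hx y hy (pr i)
      rw [hex i _ (hmem x hx y hy)] at h1
      unfold cm at h1
      have h2 := mul_inv_eq_one.mp h1
      exact mul_inv_eq_iff_eq_mul.mp h2
  · exact Subgroup.mem_sup_right (Subgroup.subset_closure ⟨x, hx, rfl⟩)

end Pool.Agent.Lib.MPbe1941.RB.ELEM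

namespace Pool.Agent.Lib.MPbe1941.RB

theorem specELE (hRAD : SpecRAD) : SpecELE := ELEM.spec hRAD

end Pool.Agent.Lib.MPbe1941.RB
end

section
/-!
# MP_be1941_al, block RB: extension of linear characters (EXT)
-/
set_option autoImplicit false

namespace Pool.Agent.Lib.MPbe1941.RB.EXTM

open Pool.Agent.Lib.MPbe1941 Pool.Agent.Lib.MPbe1941.RB

/-- The quotient by a normal subgroup containing the commutators. -/
theorem quot {K : Type} [Group K] [Finite K] (N : Subgroup K) (hN : N.Normal)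
    (hc : ∀ x y : K, x⁻¹ * y⁻¹ * x * y ∈ N) :
    ∃ (A : Type) (_ : CommGroup A) (_ : Finite A) (π : K →* A), ∀ x, π x = 1 ↔ x ∈ N := by
  refine ⟨K ⧸ N, { (inferInstance : Group (K ⧸ N)) with
    mul_comm := ?_ }, inferInstance, QuotientGroup.mk' N, ?_⟩
  · intro a b
    induction a using QuotientGroup.induction_on with
    | H a =>
      induction b using QuotientGroup.induction_on with
      | H b =>
        change ((a * b : K) : K ⧸ N) = ((b * a : K) : K ⧸ N)
        rw [QuotientGroup.eq]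
        have h := hc b a
        have e : (a * b)⁻¹ * (b * a) = b⁻¹ * a⁻¹ * b * a := by group
        rw [e]; exact h
  · intro x
    exact QuotientGroup.eq_one_iff x

/-- Extension of a homomorphism to the units of `ℂ` which kills the commutators. -/
theorem ext_hom {K : Type} [Group K] [Finite K] (D : Subgroup K) (φ : D →* ℂˣ)
    (hc : ∀ x y : K, ∃ h : x * y * x⁻¹ * y⁻¹ ∈ D, φ ⟨_, h⟩ = 1) :
    ∃ ψ : K →* ℂˣ, ∀ x : D, ψ x = φ x := by
  have hc' : ∀ x y : K, x * y * x⁻¹ * y⁻¹ ∈ φ.ker.map D.subtype := by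
    intro x y
    obtain ⟨h, h1⟩ := hc x y
    exact ⟨⟨_, h⟩, h1, rfl⟩
  have hN : (φ.ker.map D.subtype).Normal := by
    refine ⟨fun n hn g => ?_⟩
    have h := mul_mem (hc' g n) hn
    have e : g * n * g⁻¹ * n⁻¹ * n = g * n * g⁻¹ := by group
    rw [e] at h; exact h
  obtain ⟨A, _, _, π, hπ⟩ := quot _ hN (fun x y => by
    have h := hc' x⁻¹ y⁻¹
    rwa [inv_inv, inv_inv] at h)
  have hs : Function.Surjective (π.subgroupMap D) := π.subgroupMap_surjective D
  have hk : (π.subgroupMap D).ker ≤ φ.ker := by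
    intro x hx
    have h1 : π x = 1 := by
      have := congrArg Subtype.val (MonoidHom.mem_ker.mp hx)
      simpa using this
    obtain ⟨y, hy, hy'⟩ := (hπ _).mp h1
    have : y = x := Subtype.ext hy'
    rw [← this]; exact hy
  obtain ⟨ψ, hψ⟩ := MonoidHom.domRestrict_surjective ℂ (D.map π)
    ((π.subgroupMap D).liftOfSurjective hs ⟨φ, hk⟩)
  refine ⟨ψ.comp π, fun x => ?_⟩
  have h1 := MonoidHom.liftOfRightInverse_comp_apply (π.subgroupMap D)
    (Function.surjInv hs) (Function.rightInverse_surjInv hs) ⟨φ, hk⟩ x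
  have h2 := DFunLike.congr_fun hψ (π.subgroupMap D x)
  rw [MonoidHom.liftOfSurjective] at h2
  exact h2.trans h1

theorem ne_zero {G : Type} [Group G] {D : Subgroup G} {f : G → ℂ} (hf : IsChar D f) {x : G}
    (hx : x ∈ D) : f x ≠ 0 := by
  intro h
  have h1 := hf.mul x hx x⁻¹ (inv_mem hx)
  rw [mul_inv_cancel, hf.one, h, zero_mul] at h1
  exact one_ne_zero h1

theorem spec : SpecEXT := by
  intro G _ _ D K f hDK hf hcm
  classical
  let φ : D.subgroupOf K →* ℂˣ :=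
    { toFun := fun x => Units.mk0 (f (x : K)) (ne_zero hf (Subgroup.mem_subgroupOf.mp x.2))
      map_one' := by
        ext; simpa using hf.one
      map_mul' := by
        intro x y
        ext
        simpa using hf.mul _ (Subgroup.mem_subgroupOf.mp x.2) _ (Subgroup.mem_subgroupOf.mp y.2) }
  obtain ⟨ψ, hψ⟩ := ext_hom (D.subgroupOf K) φ (by
    intro x y
    have h := hcm x x.2 y y.2
    refine ⟨Subgroup.mem_subgroupOf.mpr h.1, ?_⟩
    ext
    exact h.2)
  refine ⟨fun x => if h : x ∈ K then (ψ ⟨x, h⟩ : ℂ) else 1, ⟨?_, ?_⟩, ?_⟩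
  · have h1 : (1 : G) ∈ K := K.one_mem
    simp only [h1, dif_pos]
    have : (⟨1, h1⟩ : K) = 1 := rfl
    rw [this, map_one, Units.val_one]
  · intro x hx y hy
    have hxy := K.mul_mem hx hy
    simp only [hx, hy, hxy, dif_pos]
    have : (⟨x * y, hxy⟩ : K) = ⟨x, hx⟩ * ⟨y, hy⟩ := rfl
    rw [this, map_mul, Units.val_mul]
  · intro x hx
    have hxK := hDK hx
    simp only [hxK, dif_pos]
    have := hψ ⟨⟨x, hxK⟩, Subgroup.mem_subgroupOf.mpr hx⟩
    have h2 := congrArg Units.val this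
    exact h2

end Pool.Agent.Lib.MPbe1941.RB.EXTM

namespace Pool.Agent.Lib.MPbe1941.RB

theorem specEXT : SpecEXT := EXTM.spec

end Pool.Agent.Lib.MPbe1941.RB
end

section
/-!
# MP_be1941_al, block RB, module FT1: coprime action on a `p`-group with central Frattini subgroup
-/
set_option autoImplicit false

namespace Pool.Agent.Lib.MPbe1941.RB

open Pool.Agent.Lib.MPbe1941

theorem specFT1 : SpecFT1 := by
  intro G _ _ P p h hp hP hΦ hPh hm ht
  classical
  have hcen : ∀ z ∈ PhiG P p, z ∈ P ∧ ∀ y ∈ P, y * z = z * y := fun z hz =>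
    ⟨(hΦ hz).1, fun y hy => (Subgroup.mem_centralizer_iff.mp (hΦ hz).2) y hy⟩
  -- the homomorphism `t`
  let τ : P →* G :=
    { toFun := fun x => h * x * h⁻¹ * (x : G)⁻¹
      map_one' := by simp
      map_mul' := by
        intro x y
        have hy := (hcen _ (ht y y.2)).2 x x.2
        have e : h * ((x * y : P) : G) * h⁻¹ * ((x * y : P) : G)⁻¹ =
            h * x * h⁻¹ * (h * y * h⁻¹ * (y : G)⁻¹) * (x : G)⁻¹ := by
          push_cast
          group
        rw [e]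
        have e2 : h * x * h⁻¹ * (h * y * h⁻¹ * (y : G)⁻¹) * (x : G)⁻¹ =
            h * x * h⁻¹ * (x : G)⁻¹ * (x * (h * y * h⁻¹ * (y : G)⁻¹)) * (x : G)⁻¹ := by
          group
        rw [e2, hy]
        group }
  have hτ : ∀ x : P, τ x = h * x * h⁻¹ * (x : G)⁻¹ := fun _ => rfl
  have hτΦ : ∀ x : P, τ x ∈ PhiG P p := fun x => ht x x.2
  have hτc : ∀ x y : P, Commute (τ x) (τ y) := fun x y =>
    (hcen _ (hτΦ y)).2 _ (hcen _ (hτΦ x)).1
  -- the subgroup of the `p`-th powers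
  let N : Subgroup G :=
    { carrier := {w | ∃ y : P, w = τ y ^ p}
      one_mem' := ⟨1, by simp⟩
      mul_mem' := by
        rintro a b ⟨y, rfl⟩ ⟨z, rfl⟩
        exact ⟨y * z, by rw [map_mul, (hτc y z).mul_pow]⟩
      inv_mem' := by
        rintro a ⟨y, rfl⟩
        exact ⟨y⁻¹, by rw [map_inv, inv_pow]⟩ }
  have hN : ∀ w, w ∈ N ↔ ∃ y : P, w = τ y ^ p := fun _ => Iff.rfl
  have hNΦ : ∀ w ∈ N, w ∈ PhiG P p := by
    rintro w ⟨y, rfl⟩
    exact (PhiG P p).pow_mem (hτΦ y) p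
  -- `t` maps `Φ` into `N`
  have hΦN : PhiG P p ≤ (N.comap τ).map P.subtype := by
    unfold PhiG
    refine sup_le ?_ ?_
    · rw [Subgroup.commutator_le]
      intro x hx y hy
      refine ⟨(⟨x, hx⟩ : P) * (⟨y, hy⟩ : P) * (⟨x, hx⟩ : P)⁻¹ * (⟨y, hy⟩ : P)⁻¹, ?_, rfl⟩
      have h0 : τ ((⟨x, hx⟩ : P) * (⟨y, hy⟩ : P) * (⟨x, hx⟩ : P)⁻¹ * (⟨y, hy⟩ : P)⁻¹) = 1 := by
        rw [map_mul, map_mul, map_mul, map_inv, map_inv, (hτc _ _).eq, mul_inv_cancel_right,
          mul_inv_cancel]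
      show τ ((⟨x, hx⟩ : P) * (⟨y, hy⟩ : P) * (⟨x, hx⟩ : P)⁻¹ * (⟨y, hy⟩ : P)⁻¹) ∈ N
      rw [h0]
      exact N.one_mem
    · rw [Subgroup.closure_le]
      rintro _ ⟨x, hx, rfl⟩
      exact ⟨(⟨x, hx⟩ : P) ^ p, ⟨⟨x, hx⟩, by rw [map_pow]⟩, rfl⟩
  have hΦN' : ∀ z : P, (z : G) ∈ PhiG P p → τ z ∈ N := by
    intro z hz
    obtain ⟨z', hz', e⟩ := hΦN hz
    have : z' = z := Subtype.ext e
    rw [← this]
    exact hz'
  -- powers of `h`
  have hpow : ∀ x : P, ∀ n : ℕ, ∃ u ∈ N, h ^ n * x * (h ^ n)⁻¹ = τ x ^ n * x * u := by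
    intro x n
    induction n with
    | zero => exact ⟨1, N.one_mem, by simp⟩
    | succ n ih =>
      obtain ⟨u, hu, e⟩ := ih
      have huP : u ∈ P := (hcen u (hNΦ u hu)).1
      have htP : τ x ∈ P := (hcen _ (hτΦ x)).1
      have hnP : τ x ^ n ∈ P := P.pow_mem htP n
      -- the three parts
      have hc1 : ∀ z : P, h * (z : G) * h⁻¹ = τ z * z := by
        intro z
        rw [hτ, inv_mul_cancel_right]
      have h1 : h * (τ x ^ n) * h⁻¹ = τ (⟨τ x, htP⟩ ^ n) * τ x ^ n := hc1 (⟨τ x, htP⟩ ^ n)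
      have h2 : h * (x : G) * h⁻¹ = τ x * x := hc1 x
      have h3 : h * u * h⁻¹ = τ ⟨u, huP⟩ * u := hc1 ⟨u, huP⟩
      have m1 : τ (⟨τ x, htP⟩ ^ n) ∈ N := by
        rw [map_pow]
        exact N.pow_mem (hΦN' ⟨τ x, htP⟩ (hτΦ x)) n
      have m3 : τ ⟨u, huP⟩ ∈ N := hΦN' _ (hNΦ u hu)
      refine ⟨τ (⟨τ x, htP⟩ ^ n) * (τ ⟨u, huP⟩ * u), N.mul_mem m1 (N.mul_mem m3 hu), ?_⟩
      have e1 : h ^ (n + 1) * (x : G) * (h ^ (n + 1))⁻¹ = h * (h ^ n * x * (h ^ n)⁻¹) * h⁻¹ := by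
        rw [pow_succ']
        group
      have e2 : h * (τ x ^ n * x * u) * h⁻¹ =
          (h * (τ x ^ n) * h⁻¹) * (h * (x : G) * h⁻¹) * (h * u * h⁻¹) := by group
      rw [e1, e, e2, h1, h2, h3]
      -- move the central element to the right
      have c1 := (hcen _ (hNΦ _ m1)).2
      have d1 : τ x ^ n * (τ x * x) ∈ P := P.mul_mem hnP (P.mul_mem htP x.2)
      have d2 := c1 _ d1
      calc τ (⟨τ x, htP⟩ ^ n) * τ x ^ n * (τ x * ↑x) * (τ ⟨u, huP⟩ * u)
          = (τ (⟨τ x, htP⟩ ^ n) * (τ x ^ n * (τ x * ↑x))) * (τ ⟨u, huP⟩ * u) := by group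
        _ = ((τ x ^ n * (τ x * ↑x)) * τ (⟨τ x, htP⟩ ^ n)) * (τ ⟨u, huP⟩ * u) := by rw [d2]
        _ = τ x ^ (n + 1) * ↑x * (τ (⟨τ x, htP⟩ ^ n) * (τ ⟨u, huP⟩ * u)) := by
            rw [pow_succ]; group
  -- elements of `P` have `p`-power order
  have hord : ∀ x : P, ∃ k : ℕ, τ x ^ p ^ k = 1 := by
    intro x
    obtain ⟨k, hk⟩ := hP ⟨τ x, (hcen _ (hτΦ x)).1⟩
    exact ⟨k, by simpa using congrArg (Subtype.val) hk⟩
  -- the claim
  have claim : ∀ x : P, ∃ y : P, τ x = τ y ^ p := by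
    intro x
    rw [← hN]
    obtain ⟨u, hu, e⟩ := hpow x (orderOf h)
    have huZ := (hcen u (hNΦ u hu)).2 x x.2
    have e2 : τ x ^ orderOf h = u⁻¹ := by
      have e' : (x : G) = τ x ^ orderOf h * x * u := by
        rw [← e, pow_orderOf_eq_one]
        simp
      rw [mul_assoc, huZ, ← mul_assoc] at e'
      have e'' : (1 : G) = τ x ^ orderOf h * u := by
        have := congrArg (· * (x : G)⁻¹) e'
        simpa using this
      exact eq_inv_of_mul_eq_one_left e''.symm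
    have e3 : τ x ^ orderOf h ∈ N := by rw [e2]; exact N.inv_mem hu
    obtain ⟨k, hk⟩ := hord x
    have hcop : IsCoprime ((orderOf h : ℕ) : ℤ) ((p ^ k : ℕ) : ℤ) := by
      rw [Nat.isCoprime_iff_coprime]
      exact Nat.Coprime.pow_right k ((Nat.Prime.coprime_iff_not_dvd hp).mpr hm).symm
    obtain ⟨a, b, hab⟩ := hcop
    have e4 : τ x = (τ x ^ orderOf h) ^ a * (τ x ^ p ^ k) ^ b := by
      rw [← zpow_natCast, ← zpow_natCast, ← zpow_mul, ← zpow_mul, ← zpow_add,
        mul_comm _ a, mul_comm _ b, hab, zpow_one]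
    rw [e4, hk, one_zpow, mul_one]
    exact N.zpow_mem e3 a
  have claim2 : ∀ k : ℕ, ∀ x : P, ∃ y : P, τ x = τ y ^ p ^ k := by
    intro k
    induction k with
    | zero => exact fun x => ⟨x, by simp⟩
    | succ k ih =>
      intro x
      obtain ⟨y, hy⟩ := ih x
      obtain ⟨z, hz⟩ := claim y
      exact ⟨z, by rw [hy, hz, ← pow_mul, pow_succ']⟩
  have : Fact p.Prime := ⟨hp⟩
  obtain ⟨K, hK⟩ := (IsPGroup.iff_card (p := p) (G := P)).mp hP
  intro x hx
  obtain ⟨y, hy⟩ := claim2 K ⟨x, hx⟩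
  have hy1 : τ y ^ p ^ K = 1 := by
    have := pow_card_eq_one' (x := (⟨τ y, (hcen _ (hτΦ y)).1⟩ : P))
    rw [hK] at this
    simpa using congrArg (Subtype.val) this
  rw [hy1, hτ] at hy
  have e : h * x * h⁻¹ = x := by
    have := mul_inv_eq_one.mp hy
    simpa using this
  exact mul_inv_eq_iff_eq_mul.mp e

end Pool.Agent.Lib.MPbe1941.RB
end

section
/-!
# MP_be1941_al, block RB, module IDX: indices in a `p`-group (helper76)
-/
set_option autoImplicit false

namespace Pool.Agent.Lib.MPbe1941.RB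

open Pool.Agent.Lib.MPbe1941

theorem specIDX : SpecIDX := by
  intro G _ _ P K p n hp hP hn _
  have : Fact p.Prime := ⟨hp⟩
  obtain ⟨m, hm⟩ := IsPGroup.iff_card.1 hP
  have h1 : K.relIndex P ∣ p ^ m := hm ▸ Subgroup.relIndex_dvd_card K P
  obtain ⟨k, _, hk⟩ := (Nat.dvd_prime_pow hp).1 h1
  rw [hk]
  refine ⟨Nat.Coprime.pow_left _ ((Nat.Prime.coprime_iff_not_dvd hp).2 hn), fun h2 => ?_⟩
  refine dvd_pow_self p ?_
  intro h3
  apply h2
  rw [h3, pow_zero] at hk
  exact Subgroup.relIndex_eq_one.1 hk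

end Pool.Agent.Lib.MPbe1941.RB
end

section
/-!
# MP_be1941_al, block RB: invariant extension of linear characters (INV)
-/
set_option autoImplicit false

namespace Pool.Agent.Lib.MPbe1941.RB.INVM

open Pool.Agent.Lib.MPbe1941 Pool.Agent.Lib.MPbe1941.RB

theorem pow_char {G : Type} [Group G] {D : Subgroup G} {f : G → ℂ} (hf : IsChar D f) {x : G}
    (hx : x ∈ D) (n : ℕ) : f (x ^ n) = f x ^ n := by
  induction n with
  | zero => rw [pow_zero, pow_zero, hf.one]
  | succ n ih => rw [pow_succ, hf.mul _ (pow_mem hx n) _ hx, ih, pow_succ]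

theorem spec (hEXT : SpecEXT) : SpecINV := by
  intro G _ _ D K C p f hp hDK hf hexp hC hcm hCK hCD
  classical
  have := Fintype.ofFinite C
  obtain ⟨φ, hφ, hφD⟩ := hEXT G D K f hDK hf hcm
  have hcop : Nat.Coprime (Fintype.card C) p := by
    rw [Fintype.card_eq_nat_card]
    exact (Nat.Coprime.symm ((Nat.Prime.coprime_iff_not_dvd hp).mpr hC))
  obtain ⟨m, -, hm⟩ := Nat.exists_mul_mod_eq_one_of_coprime hcop hp.one_lt
  refine ⟨fun x => (∏ h : C, φ ((h : G) * x * (h : G)⁻¹)) ^ m, ⟨?_, ?_⟩, ?_, ?_⟩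
  · simp [hφ.one]
  · intro x hx y hy
    rw [← mul_pow, ← Finset.prod_mul_distrib]
    congr 1
    refine Finset.prod_congr rfl fun h _ => ?_
    rw [← hφ.mul _ (hCK h h.2 x hx) _ (hCK h h.2 y hy)]
    congr 1
    group
  · intro x hx
    have h1 : ∀ h : C, φ ((h : G) * x * (h : G)⁻¹) = f x := by
      intro h
      obtain ⟨h1, h2⟩ := hCD h h.2 x hx
      rw [hφD _ h1, h2]
    simp only [h1, Finset.prod_const, Finset.card_univ]
    have h2 : f x ^ p = 1 := by
      rw [← pow_char hf hx, hexp x hx, hf.one]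
    rw [← pow_mul, ← Nat.div_add_mod (Fintype.card C * m) p, hm, pow_add, pow_mul, h2, one_pow,
      one_mul, pow_one]
  · intro h hh x hx
    change (∏ k : C, φ ((k : G) * (h * x * h⁻¹) * (k : G)⁻¹)) ^ m =
      (∏ k : C, φ ((k : G) * x * (k : G)⁻¹)) ^ m
    congr 1
    refine Fintype.prod_equiv (Equiv.mulRight (⟨h, hh⟩ : C)) _ _ fun k => ?_
    congr 1
    simp only [Equiv.coe_mulRight, Subgroup.coe_mul]
    group

end Pool.Agent.Lib.MPbe1941.RB.INVM

namespace Pool.Agent.Lib.MPbe1941.RB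

theorem specINV (hEXT : SpecEXT) : SpecINV := INVM.spec hEXT

end Pool.Agent.Lib.MPbe1941.RB
end

section
/-!
# MP_be1941_al, block RB, module LOC: the local pair (helper76)
-/
set_option autoImplicit false

namespace Pool.Agent.Lib.MPbe1941.RB

open Pool.Agent.Lib.MPbe1941

namespace LOCM

theorem cm_eq_one {G : Type} [Group G] {x y : G} (h : x * y = y * x) : cm x y = 1 := by
  unfold cm
  rw [h]
  group

theorem cm_inv {G : Type} [Group G] (x y : G) : cm y x = (cm x y)⁻¹ := by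
  unfold cm
  group

/-- the commutator subgroup lies in the radical -/
theorem le_rad {G : Type} [Group G] {P K : Subgroup G} {f : G → ℂ}
    (hcen : ∀ x ∈ ⁅P, P⁆, ∀ y ∈ P, x * y = y * x) (hf : IsChar ⁅P, P⁆ f) (hK : IsRad P K f) :
    ⁅P, P⁆ ≤ K := by
  intro x hx
  refine (hK x).2 ⟨Subgroup.commutator_le_self P hx, fun y hy => ?_⟩
  rw [cm_eq_one (hcen x hx y hy)]
  exact hf.one

end LOCM

open LOCM in
theorem specLOC (hRAD : SpecRAD) : SpecLOC := by
  intro G _ P K f kz ell hcen hf hK hkz hkz' hell hell'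
  obtain ⟨_, r1, _, _, _⟩ := hRAD G P hcen
  have KP : K ≤ P := fun x hx => ((hK x).1 hx).1
  have DK : ⁅P, P⁆ ≤ K := le_rad hcen hf hK
  refine ⟨⟨KP, ⟨?_, ?_⟩, ?_, ?_, ?_⟩, DK⟩
  · show kz 1 * ell 1 = 1
    rw [hkz.one, hell.one, one_mul]
  · intro x hx y hy
    show kz (x * y) * ell (x * y) = kz x * ell x * (kz y * ell y)
    rw [hkz.mul x hx y hy, hell.mul x (KP hx) y (KP hy)]
    ring
  · intro x hx y hy
    exact DK (r1 x hx y hy)
  · intro x hx y hy
    show kz (y * x * y⁻¹) * ell (y * x * y⁻¹) = kz x * ell x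
    have h1 : y * x * y⁻¹ = cm y x * x := by
      unfold cm
      group
    have h2 : cm y x ∈ ⁅P, P⁆ := r1 y hy x (KP hx)
    have h3 : cm x y ∈ ⁅P, P⁆ := r1 x (KP hx) y hy
    have h4 : f (cm x y) = 1 := ((hK x).1 hx).2 y hy
    have h5 : f (cm y x) = 1 := by
      have h6 := hf.mul (cm x y) h3 (cm y x) h2
      rw [h4, one_mul, cm_inv x y, mul_inv_cancel, hf.one] at h6
      rw [cm_inv x y]
      exact h6.symm
    rw [h1, hkz.mul _ (DK h2) x hx, hell.mul _ (KP (DK h2)) x (KP hx), hkz' _ h2, hell' _ h2, h5,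
      one_mul, one_mul]
  · intro x hx hx'
    have h1 : ∃ y ∈ P, f (cm x y) ≠ 1 := by
      by_contra h
      push Not at h
      exact hx' ((hK x).2 ⟨hx, h⟩)
    obtain ⟨y, hy, hy'⟩ := h1
    refine ⟨y, hy, ?_⟩
    show kz (cm x y) * ell (cm x y) ≠ 1
    rw [hkz' _ (r1 x hx y hy), hell' _ (r1 x hx y hy), mul_one]
    exact hy'

end Pool.Agent.Lib.MPbe1941.RB
end

section
/-!
# MP_be1941_al, block RB, module MAS: Maschke
-/
set_option autoImplicit false

namespace Pool.Agent.Lib.MPbe1941.RB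

open Pool.Agent.Lib.MPbe1941

namespace MASM

/-- a projection onto a subspace -/
theorem projB {C K : Type} [AddCommGroup C] [Field K] [Module K C]
    (S : Submodule K C) : ∃ f : C → C, (∀ x y, f (x + y) = f x + f y) ∧ (∀ x, f x ∈ S) ∧
      ∀ x ∈ S, f x = x := by
  obtain ⟨g, hg⟩ := LinearMap.exists_leftInverse_of_injective S.subtype (by
      rw [LinearMap.ker_eq_bot]
      exact Subtype.val_injective)
  refine ⟨fun x => (g x : C), fun x y => ?_, fun x => (g x).2, fun x hx => ?_⟩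
  · simp only
    rw [map_add]
    rfl
  · exact congrArg Subtype.val (LinearMap.congr_fun hg ⟨x, hx⟩)

/-- a projection onto a subgroup of a group of exponent `p` -/
theorem projA {C : Type} [AddCommGroup C] (p : ℕ) (hp : p.Prime) (hC : ∀ x : C, p • x = 0)
    (A : AddSubgroup C) : ∃ f : C → C, (∀ x y, f (x + y) = f x + f y) ∧ (∀ x, f x ∈ A) ∧
      ∀ x ∈ A, f x = x := by
  have : Fact p.Prime := ⟨hp⟩
  let _ : Module (ZMod p) C := AddCommGroup.zmodModule hC
  exact projB (AddSubgroup.toZModSubmodule p A)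

/-- a linear projection, written with functions on `V` -/
theorem proj {V : Type} [AddCommGroup V] (p : ℕ) (hp : p.Prime) (C : AddSubgroup V)
    (hC : ∀ x ∈ C, p • x = 0) (A : AddSubgroup V) (hAC : A ≤ C) :
    ∃ f : V → V, (∀ x ∈ C, ∀ y ∈ C, f (x + y) = f x + f y) ∧ (∀ x ∈ C, f x ∈ A) ∧
      ∀ x ∈ A, f x = x := by
  classical
  obtain ⟨g, g1, g2, g3⟩ := projA p hp (C := C) (fun x => Subtype.ext (hC x x.2))
    (A.addSubgroupOf C)
  refine ⟨fun x => if hx : x ∈ C then ((g ⟨x, hx⟩ : C) : V) else 0, ?_, ?_, ?_⟩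
  · intro x hx y hy
    simp only
    rw [dif_pos hx, dif_pos hy, dif_pos (C.add_mem hx hy)]
    exact congrArg Subtype.val (g1 ⟨x, hx⟩ ⟨y, hy⟩)
  · intro x hx
    simp only
    rw [dif_pos hx]
    exact g2 ⟨x, hx⟩
  · intro x hx
    simp only
    rw [dif_pos (hAC hx)]
    exact congrArg Subtype.val (g3 ⟨x, hAC hx⟩ hx)

/-- inverse modulo `p` -/
theorem inv_mod (p n : ℕ) (hp : p.Prime) (hn : ¬ p ∣ n) :
    ∃ m : ℕ, ∀ (V : Type) [AddCommGroup V] (x : V), p • x = 0 → m • n • x = x := by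
  have : Fact p.Prime := ⟨hp⟩
  have h1 : ((n : ℕ) : ZMod p) ≠ 0 := by
    rw [Ne, ZMod.natCast_eq_zero_iff]
    exact hn
  refine ⟨((n : ZMod p)⁻¹).val, fun V _ x hx => ?_⟩
  have h2 : (((n : ZMod p)⁻¹).val * n) % p = 1 % p := by
    have h3 : ((((n : ZMod p)⁻¹).val * n : ℕ) : ZMod p) = ((1 : ℕ) : ZMod p) := by
      rw [Nat.cast_mul, ZMod.natCast_val, ZMod.cast_id', id, inv_mul_cancel₀ h1, Nat.cast_one]
    exact (ZMod.natCast_eq_natCast_iff' _ _ _).1 h3
  rw [Nat.mod_eq_of_lt hp.one_lt] at h2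
  rw [← mul_smul]
  conv_lhs => rw [← Nat.div_add_mod (((n : ZMod p)⁻¹).val * n) p, h2]
  rw [add_smul, one_smul, mul_comm, mul_smul, hx, smul_zero, zero_add]

end MASM

open MASM in
theorem specMAS : SpecMAS := by
  classical
  intro V H _ _ _ _ p hp hpH C hC hCH A hAC hAH
  obtain ⟨f, hadd, hfA, hfid⟩ := proj p hp C hC A hAC
  obtain ⟨m, hm⟩ := inv_mod p (Nat.card H) hp hpH
  have : Fintype H := Fintype.ofFinite H
  obtain ⟨F, hF⟩ : ∃ F : V → V, ∀ x, F x = m • ∑ h : H, h • f (h⁻¹ • x) := ⟨_, fun _ => rfl⟩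
  have Fadd : ∀ x ∈ C, ∀ y ∈ C, F (x + y) = F x + F y := by
    intro x hx y hy
    rw [hF, hF, hF, ← smul_add, ← Finset.sum_add_distrib]
    congr 1
    refine Finset.sum_congr rfl fun h _ => ?_
    rw [smul_add, hadd _ (hCH _ x hx) _ (hCH _ y hy), smul_add]
  have FA : ∀ x ∈ C, F x ∈ A := by
    intro x hx
    rw [hF]
    exact A.nsmul_mem (A.sum_mem fun h _ => hAH h _ (hfA _ (hCH _ x hx))) m
  have Fid : ∀ x ∈ A, F x = x := by
    intro x hx
    rw [hF]
    have h1 : ∀ h : H, h • f (h⁻¹ • x) = x := by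
      intro h
      rw [hfid _ (hAH _ x hx), smul_inv_smul]
    simp only [h1]
    rw [Finset.sum_const, Finset.card_univ, ← Nat.card_eq_fintype_card]
    exact hm V x (hC x (hAC hx))
  have Feq : ∀ (k : H) (x : V), F (k • x) = k • F x := by
    intro k x
    have hsm : ∀ (n : ℕ) (y : V), k • (n • y) = n • (k • y) := fun n y =>
      map_nsmul (DistribSMul.toAddMonoidHom V k) n y
    rw [hF, hF, hsm]
    congr 1
    rw [Finset.smul_sum, ← Equiv.sum_comp (Equiv.mulLeft k) (fun h : H => h • f (h⁻¹ • k • x))]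
    refine Finset.sum_congr rfl fun h _ => ?_
    simp only [Equiv.coe_mulLeft, mul_inv_rev]
    rw [mul_smul, mul_smul, inv_smul_smul]
  have Fzero : F 0 = 0 := by
    have h1 := Fadd 0 C.zero_mem 0 C.zero_mem
    rw [add_zero] at h1
    exact left_eq_add.1 h1
  have Fneg : ∀ x ∈ C, F (-x) = - F x := by
    intro x hx
    have h1 := Fadd x hx (-x) (C.neg_mem hx)
    rw [add_neg_cancel, Fzero] at h1
    exact (neg_eq_of_add_eq_zero_right h1.symm).symm
  refine ⟨{ carrier := {x | x ∈ C ∧ F x = 0}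
            zero_mem' := ⟨C.zero_mem, Fzero⟩
            add_mem' := ?_
            neg_mem' := ?_ }, ?_, ?_, ?_, ?_⟩
  · rintro x y ⟨hx, hx'⟩ ⟨hy, hy'⟩
    exact ⟨C.add_mem hx hy, by rw [Fadd x hx y hy, hx', hy', add_zero]⟩
  · rintro x ⟨hx, hx'⟩
    exact ⟨C.neg_mem hx, by rw [Fneg x hx, hx', neg_zero]⟩
  · exact fun x hx => hx.1
  · rintro h x ⟨hx, hx'⟩
    exact ⟨hCH h x hx, by rw [Feq, hx', smul_zero]⟩
  · rw [eq_bot_iff]
    rintro x ⟨hx, hx'⟩
    rw [AddSubgroup.mem_bot, ← Fid x hx]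
    exact hx'.2
  · refine le_antisymm (sup_le hAC fun x hx => hx.1) ?_
    intro x hx
    rw [AddSubgroup.mem_sup]
    refine ⟨F x, FA x hx, x - F x, ⟨C.sub_mem hx (hAC (FA x hx)), ?_⟩, by abel⟩
    rw [sub_eq_add_neg, Fadd x hx _ (C.neg_mem (hAC (FA x hx))), Fneg _ (hAC (FA x hx)),
      Fid _ (FA x hx), add_neg_cancel]

end Pool.Agent.Lib.MPbe1941.RB
end

section
/-!
# MP_be1941_al, block RB: class 2 calculus (RAD)
-/
set_option autoImplicit false

namespace Pool.Agent.Lib.MPbe1941.RB.RADM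

open Pool.Agent.Lib.MPbe1941 Pool.Agent.Lib.MPbe1941.RB

section

variable {G : Type} [Group G] {P : Subgroup G}

theorem cm_mem {x y : G} (hx : x ∈ P) (hy : y ∈ P) : cm x y ∈ ⁅P, P⁆ :=
  Subgroup.commutator_mem_commutator hx hy

theorem comm_le : ⁅P, P⁆ ≤ P := by
  rw [Subgroup.commutator_le]
  intro x hx y hy
  exact P.mul_mem (P.mul_mem (P.mul_mem hx hy) (P.inv_mem hx)) (P.inv_mem hy)

theorem cm_mul_left (hc : ∀ x ∈ ⁅P, P⁆, ∀ y ∈ P, x * y = y * x) {x x' y : G} (hx : x ∈ P)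
    (hx' : x' ∈ P) (hy : y ∈ P) : cm (x * x') y = cm x y * cm x' y := by
  have e1 : cm (x * x') y = x * cm x' y * x⁻¹ * cm x y := by
    unfold cm; group
  have e2 : x * cm x' y = cm x' y * x := (hc _ (cm_mem hx' hy) x hx).symm
  have e3 : cm x' y * cm x y = cm x y * cm x' y := hc _ (cm_mem hx' hy) _ (comm_le (cm_mem hx hy))
  rw [e1, e2, mul_inv_cancel_right, e3]

theorem cm_mul_right (hc : ∀ x ∈ ⁅P, P⁆, ∀ y ∈ P, x * y = y * x) {x y y' : G} (hx : x ∈ P)
    (hy : y ∈ P) (hy' : y' ∈ P) : cm x (y * y') = cm x y * cm x y' := by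
  have e1 : cm x (y * y') = cm x y * (y * cm x y' * y⁻¹) := by
    unfold cm; group
  have e2 : y * cm x y' = cm x y' * y := (hc _ (cm_mem hx hy') y hy).symm
  rw [e1, e2, mul_inv_cancel_right]

theorem cm_one_left (y : G) : cm (1 : G) y = 1 := by
  unfold cm; group

theorem cm_pow (hc : ∀ x ∈ ⁅P, P⁆, ∀ y ∈ P, x * y = y * x) {x y : G} (hx : x ∈ P) (hy : y ∈ P)
    (n : ℕ) : cm (x ^ n) y = cm x y ^ n := by
  induction n with
  | zero => rw [pow_zero, pow_zero, cm_one_left]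
  | succ n ih => rw [pow_succ, pow_succ, cm_mul_left hc (P.pow_mem hx n) hx hy, ih]

theorem rad (hc : ∀ x ∈ ⁅P, P⁆, ∀ y ∈ P, x * y = y * x) (f : G → ℂ) (hf : IsChar ⁅P, P⁆ f) :
    ∃ K : Subgroup G, IsRad P K f := by
  refine ⟨{ carrier := {x | x ∈ P ∧ ∀ y ∈ P, f (cm x y) = 1}
            mul_mem' := ?_
            one_mem' := ?_
            inv_mem' := ?_ }, fun x => Iff.rfl⟩
  · rintro a b ⟨ha, ha'⟩ ⟨hb, hb'⟩
    refine ⟨P.mul_mem ha hb, fun y hy => ?_⟩
    rw [cm_mul_left hc ha hb hy, hf.mul _ (cm_mem ha hy) _ (cm_mem hb hy), ha' y hy, hb' y hy,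
      one_mul]
  · exact ⟨P.one_mem, fun y _ => by rw [cm_one_left, hf.one]⟩
  · rintro a ⟨ha, ha'⟩
    refine ⟨P.inv_mem ha, fun y hy => ?_⟩
    have h1 := cm_mul_left hc (P.inv_mem ha) ha hy
    rw [inv_mul_cancel, cm_one_left] at h1
    have h2 := hf.mul _ (cm_mem (P.inv_mem ha) hy) _ (cm_mem ha hy)
    rw [← h1, hf.one, ha' y hy, mul_one] at h2
    exact h2.symm

end

theorem spec : SpecRAD := by
  intro G _ P hc
  exact ⟨fun f hf => rad hc f hf, fun x hx y hy => cm_mem hx hy,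
    fun x hx x' hx' y hy => cm_mul_left hc hx hx' hy,
    fun x hx y hy y' hy' => cm_mul_right hc hx hy hy', fun x hx y hy n => cm_pow hc hx hy n⟩

end Pool.Agent.Lib.MPbe1941.RB.RADM

namespace Pool.Agent.Lib.MPbe1941.RB

theorem specRAD : SpecRAD := RADM.spec

end Pool.Agent.Lib.MPbe1941.RB
end

section
/-!
# MP_be1941_al, block RB, module STB: who fixes the local pair (helper76)
-/
set_option autoImplicit false

namespace Pool.Agent.Lib.MPbe1941.RB

open Pool.Agent.Lib.MPbe1941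

namespace STBM

theorem cm_eq_one {G : Type} [Group G] {x y : G} (h : x * y = y * x) : cm x y = 1 := by
  unfold cm
  rw [h]
  group

/-- conjugation by an element normalising `P` preserves the commutator subgroup -/
theorem conj_mem {G : Type} [Group G] {P : Subgroup G} {h : G}
    (hh : ∀ x, x ∈ P ↔ h * x * h⁻¹ ∈ P) : ∀ x ∈ ⁅P, P⁆, h * x * h⁻¹ ∈ ⁅P, P⁆ := by
  have h1 : P.map (MulAut.conj h).toMonoidHom ≤ P := by
    rintro _ ⟨x, hx, rfl⟩
    exact (hh x).1 hx
  intro x hx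
  have h2 : (MulAut.conj h).toMonoidHom x ∈ ⁅P, P⁆.map (MulAut.conj h).toMonoidHom :=
    ⟨x, hx, rfl⟩
  rw [Subgroup.map_commutator] at h2
  exact Subgroup.commutator_mono h1 h1 h2

end STBM

open STBM in
theorem specSTB (hRAD : SpecRAD) : SpecSTB := by
  intro G _ P K f kz ell h hh hcen hf hK hkz hkz' hell hell' hinv
  obtain ⟨_, r1, _, _, _⟩ := hRAD G P hcen
  have KP : K ≤ P := fun x hx => ((hK x).1 hx).1
  have DK : ⁅P, P⁆ ≤ K := by
    intro x hx
    refine (hK x).2 ⟨Subgroup.commutator_le_self P hx, fun y hy => ?_⟩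
    rw [cm_eq_one (hcen x hx y hy)]
    exact hf.one
  have kz0 : ∀ x ∈ K, kz x ≠ 0 := by
    intro x hx h0
    have h1 := hkz.mul x hx x⁻¹ (K.inv_mem hx)
    rw [h0, mul_inv_cancel, hkz.one, zero_mul] at h1
    exact one_ne_zero h1
  constructor
  · intro hfix
    have h1 : ∀ x ∈ ⁅P, P⁆, f (h * x * h⁻¹) = f x := by
      intro x hx
      have h2 := (hfix x (DK hx)).2
      change kz (h * x * h⁻¹) * ell (h * x * h⁻¹) = kz x * ell x at h2
      rw [hkz' x hx, hell' x hx, hkz' _ (conj_mem hh x hx), hell' _ (conj_mem hh x hx), mul_one,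
        mul_one] at h2
      exact h2
    refine ⟨h1, fun x hx => ?_⟩
    have h2 := (hfix x hx).2
    change kz (h * x * h⁻¹) * ell (h * x * h⁻¹) = kz x * ell x at h2
    rw [hinv h1 x hx] at h2
    exact mul_left_cancel₀ (kz0 x hx) h2
  · rintro ⟨h1, h2⟩ x hx
    refine ⟨?_, ?_⟩
    · refine (hK _).2 ⟨(hh x).1 (KP hx), fun y hy => ?_⟩
      have e1 : cm (h * x * h⁻¹) y = h * cm x (h⁻¹ * y * h) * h⁻¹ := by
        unfold cm
        group
      have e2 : h⁻¹ * y * h ∈ P := by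
        rw [hh]
        have e3 : h * (h⁻¹ * y * h) * h⁻¹ = y := by group
        rw [e3]
        exact hy
      rw [e1, h1 _ (r1 x (KP hx) _ e2)]
      exact ((hK x).1 hx).2 _ e2
    · show kz (h * x * h⁻¹) * ell (h * x * h⁻¹) = kz x * ell x
      rw [hinv h1 x hx, h2 x hx]

end Pool.Agent.Lib.MPbe1941.RB
end

section
/-!
# IRX: for `r ∈ Π₀` with Sylow subgroup `R0`, `X = X1 ⊕ C_X(R0)` with `X1` irreducible
-/
set_option autoImplicit false

namespace Pool.Agent.Lib.MPbe1941.X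

open Pool.Agent.Lib.MPbe1941

namespace IRXM

/-- A normal Sylow subgroup is the only Sylow subgroup. -/
theorem syl_unique {H : Type} [Group H] [Finite H] {r : ℕ} (hr : r.Prime) {T T' : Subgroup H}
    (hT : SylIn r ⊤ T) (hT' : SylIn r ⊤ T') (hn : T.Normal) : T' = T := by
  obtain ⟨_, _, h3, _⟩ := CO.specSYL H r hr
  obtain ⟨g, _, hg⟩ := h3 ⊤ T T' hT hT'
  ext x
  rw [hg]
  constructor
  · intro h
    have := hn.conj_mem _ h g
    have h2 : g * (g⁻¹ * x * g) * g⁻¹ = x := by group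
    rwa [h2] at this
  · intro h
    have := hn.conj_mem _ h g⁻¹
    rwa [inv_inv] at this

/-- the restriction of the action to an invariant subgroup -/
def act {H X : Type} [Group H] [AddCommGroup X] [DistribMulAction H X] (A : AddSubgroup X)
    (hA : HInv H A) : DistribMulAction H A where
  smul h x := ⟨h • (x : X), hA h x x.2⟩
  one_smul x := Subtype.ext (one_smul H (x : X))
  mul_smul g h x := Subtype.ext (mul_smul g h (x : X))
  smul_zero h := Subtype.ext (smul_zero (A := X) h)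
  smul_add h x y := Subtype.ext (smul_add h (x : X) (y : X))

theorem fix_inv {H X : Type} [Group H] [AddCommGroup X] [DistribMulAction H X] (R0 : Subgroup H)
    (hn : R0.Normal) : HInv H (FixY X R0) := by
  intro h x hx b hb
  have h1 : h⁻¹ * b * h ∈ R0 := by
    have := hn.conj_mem b hb h⁻¹
    rwa [inv_inv] at this
  have h2 := hx _ h1
  calc b • h • x = h • (h⁻¹ * b * h) • x := by rw [← mul_smul, ← mul_smul]; group
    _ = h • x := by rw [h2]

theorem sup_inv {H X : Type} [Group H] [AddCommGroup X] [DistribMulAction H X]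
    {A B : AddSubgroup X} (hA : HInv H A) (hB : HInv H B) : HInv H (A ⊔ B) := by
  intro h x hx
  obtain ⟨a, ha, b, hb, rfl⟩ := AddSubgroup.mem_sup.1 hx
  rw [smul_add]
  exact AddSubgroup.add_mem_sup (hA h a ha) (hB h b hb)

end IRXM

open IRXM

theorem specIRX (hDTS : SpecDTS) (hO7 : SpecO7) : SpecIRX := by
  classical
  intro H X Zd _ _ _ _ _ C T p R hd r hrT R0 hR0 hR0n hR0C hR0ab
  have finH := hd.finH
  have finX := hd.finX
  have hr := (hd.tp r hrT).1
  have hF : HInv H (FixY X R0) := fix_inv R0 hR0n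
  have px : ∀ x : X, p • x = 0 := hd.px
  obtain ⟨X1, -, hX1, hinf, hsup⟩ := RB.specMAS X H p hd.pp hd.pn ⊤ (fun x _ => px x)
    (fun h x _ => AddSubgroup.mem_top _) (FixY X R0) le_top hF
  have hX1ne : X1 ≠ ⊥ := by
    rintro rfl
    rw [sup_bot_eq] at hsup
    have h1 : R0 = ⊥ := by
      rw [eq_bot_iff]
      intro t ht
      rw [Subgroup.mem_bot]
      refine hd.faith t (hR0C ht) fun x => ?_
      have hx : x ∈ FixY X R0 := by rw [hsup]; exact AddSubgroup.mem_top x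
      exact hx t ht
    have h2 := hR0.2.2
    rw [h1, Subgroup.relIndex_top_right, Subgroup.index_bot] at h2
    exact h2 (hd.tp r hrT).2
  have hdis : ∀ x ∈ X1, x ∈ FixY X R0 → x = 0 := by
    intro x h1 h2
    have : x ∈ FixY X R0 ⊓ X1 := ⟨h2, h1⟩
    rw [hinf] at this
    exact (AddSubgroup.mem_bot).1 this
  have hfA : Finite (AddSubgroup X) := by
    exact Finite.of_injective (fun A : AddSubgroup X => (A : Set X)) SetLike.coe_injective
  obtain ⟨A, ⟨hAX, hAi, hAne⟩, hAmin⟩ := (wellFounded_lt (α := AddSubgroup X)).has_min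
    {A | A ≤ X1 ∧ HInv H A ∧ A ≠ ⊥} ⟨X1, le_refl _, hX1, hX1ne⟩
  have hAirr : ∀ B : AddSubgroup X, B ≤ A → HInv H B → B = ⊥ ∨ B = A := by
    intro B hB hBi
    by_cases h : B = ⊥
    · exact Or.inl h
    · refine Or.inr ?_
      by_contra h2
      exact hAmin B ⟨hB.trans hAX, hBi, h⟩ (lt_of_le_of_ne hB h2)
  obtain ⟨A1, hA1X, hA1i, hA1inf, hA1sup⟩ := RB.specMAS X H p hd.pp hd.pn X1 (fun x _ => px x)
    hX1 A hAX hAi
  have hA'i : HInv H (A1 ⊔ FixY X R0) := sup_inv hA1i hF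
  have hinf' : A ⊓ (A1 ⊔ FixY X R0) = ⊥ := by
    rw [eq_bot_iff]
    rintro x ⟨hxA, hx⟩
    obtain ⟨a, ha, f, hf, rfl⟩ := AddSubgroup.mem_sup.1 hx
    have hfX : f ∈ X1 := by
      have := X1.sub_mem (hAX hxA) (hA1X ha)
      rwa [add_sub_cancel_left] at this
    rw [hdis f hfX hf, add_zero] at hxA ⊢
    have : a ∈ A ⊓ A1 := ⟨hxA, ha⟩
    rwa [hA1inf] at this
  have hsup' : A ⊔ (A1 ⊔ FixY X R0) = ⊤ := by
    rw [← sup_assoc, hA1sup, sup_comm, hsup]
  obtain ⟨x0, hx0, hx0n⟩ : ∃ x0 ∈ A, x0 ≠ 0 := by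
    by_contra hcon
    push Not at hcon
    exact hAne ((AddSubgroup.eq_bot_iff_forall _).2 hcon)
  have hnf : ∀ x ∈ A, x ≠ 0 → ∃ t ∈ R0, t • x ≠ x := by
    intro x hx hx0
    by_contra hcon
    push Not at hcon
    exact hx0 (hdis x (hAX hx) hcon)
  have hts := hDTS H X Zd C T p R hd A (A1 ⊔ FixY X R0) hAi hA'i hinf' hsup' hAne hAirr
    (by
      obtain ⟨t, ht, h⟩ := hnf x0 hx0 hx0n
      exact ⟨r, hrT, R0, hR0, hR0n, t, ht, x0, hx0, h⟩)
  let inst := act A hAi
  have hts' : TS H A p (CenX C (A1 ⊔ FixY X R0)) T := by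
    refine hts A A.subtype A.subtype_injective (fun h y => rfl) ?_
    exact A.range_subtype
  obtain ⟨-, -, -, -, -, -, -, -, -, -, hk, -⟩ := hO7 H A p _ T hts' hd.idx
  have h1 : r ∈ PiN (CenX C (A1 ⊔ FixY X R0)) T := by
    refine hk r hrT fun v hv S hS => ?_
    rw [syl_unique hr hR0 hS hR0n]
    obtain ⟨t, ht, h⟩ := hnf v v.2 (fun h => hv (Subtype.ext h))
    exact ⟨t, ht, fun h2 => h (congrArg Subtype.val h2)⟩
  unfold PiN at h1
  obtain ⟨-, S, hS, -, hSC, -⟩ := Finset.mem_filter.1 h1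
  rw [syl_unique hr hR0 hS hR0n] at hSC
  have hle : A1 ⊔ FixY X R0 ≤ FixY X R0 := by
    intro x hx t ht
    exact (hSC ht).2 x hx
  have hAX1 : A = X1 := by
    refine le_antisymm hAX fun x hx => ?_
    have hx' : x ∈ A ⊔ (A1 ⊔ FixY X R0) := by rw [hsup']; exact AddSubgroup.mem_top x
    obtain ⟨a, ha, f, hf, rfl⟩ := AddSubgroup.mem_sup.1 hx'
    have hfX : f ∈ X1 := by
      have := X1.sub_mem hx (hAX ha)
      rwa [add_sub_cancel_left] at this
    rw [hdis f hfX (hle hf), add_zero]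
    exact ha
  refine ⟨X1, hX1, hX1ne, by rw [inf_comm]; exact hinf, by rw [sup_comm]; exact hsup, ?_⟩
  rw [← hAX1]
  exact hAirr

end Pool.Agent.Lib.MPbe1941.X
end
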