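import Mathlib
import Pool.Agent.Lib.MP_be1941_al.X.SpecP

section
/-!
# MP_be1941_al, exact version, foundations: L4 (power automorphisms)

`Q` an abelian `l`-group, `B` an `l`-group acting on `Q` with `C_Q(B)` cyclic, `σ` an automorphism
of `Q` of order prime to `l` which commutes with `B`: then `σ` is a power map.
-/
set_option autoImplicit false

namespace Pool.Agent.Lib.MPbe1941.XF

namespace L4M

/-- Teichmüller lift: from `c0 ^ m = 1` modulo `l ^ j` to `c ^ m = 1` modulo `l ^ e`. -/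
theorem lift {l : ℕ} (hl : l.Prime) (m j e : ℕ) (hml : ¬ l ∣ m) (hj : 1 ≤ j) (c0 : ℤ)
    (h : c0 ^ m ≡ 1 [ZMOD (l : ℤ) ^ j]) :
    ∃ c : ℤ, c ^ m ≡ 1 [ZMOD (l : ℤ) ^ e] ∧ c ≡ c0 [ZMOD (l : ℤ) ^ j] := by
  have hm0 : m ≠ 0 := by rintro rfl; exact hml (dvd_zero l)
  -- `k = 0` mod `l ^ e`, `k = 1` mod `m`
  have hco : Nat.Coprime (l ^ e) m := ((hl.coprime_iff_not_dvd.2 hml)).pow_left e
  obtain ⟨k, hk1, hk2⟩ := Nat.chineseRemainder hco 0 1
  have hk1' : l ^ e ∣ k := (Nat.modEq_zero_iff_dvd).1 hk1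
  -- replace `k` by a positive representative
  obtain ⟨k', hk1', hk2', hpos⟩ : ∃ k' : ℕ, l ^ e ∣ k' ∧ k' ≡ 1 [MOD m] ∧ 1 ≤ k' := by
    refine ⟨k + l ^ e * m, ?_, ?_, ?_⟩
    · exact dvd_add hk1' (dvd_mul_right _ _)
    · have : k + l ^ e * m ≡ k [MOD m] := by
        have := (Nat.modEq_zero_iff_dvd.2 (dvd_mul_left m (l ^ e)))
        exact (Nat.ModEq.refl k).add this
      exact this.trans hk2
    · have : 0 < l ^ e * m := Nat.mul_pos (pow_pos hl.pos e) (Nat.pos_of_ne_zero hm0)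
      omega
  refine ⟨c0 ^ k', ?_, ?_⟩
  · -- `(c0 ^ m) ^ (l ^ e) = 1` modulo `l ^ e`
    have h1 : c0 ^ m ≡ 1 [ZMOD (l : ℤ)] :=
      h.of_dvd (dvd_pow_self _ (by omega))
    have hpow : ∀ t : ℕ, (c0 ^ m) ^ (l ^ t) ≡ 1 [ZMOD (l : ℤ) ^ (t + 1)] := by
      intro t
      induction t with
      | zero => simpa using h1
      | succ t ih =>
        obtain ⟨d, hd⟩ := ih.symm.dvd
        have hd' : (c0 ^ m) ^ (l ^ t) = 1 + (l : ℤ) ^ (t + 1) * d := by linarith
        have hps : (c0 ^ m) ^ (l ^ (t + 1)) = (1 + (l : ℤ) ^ (t + 1) * d) ^ l := by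
          rw [pow_succ l t, pow_mul, hd']
        rw [hps]
        have := Int.ModEq.symm (Int.modEq_iff_dvd.2 (?_ :
          (l : ℤ) ^ (t + 1 + 1) ∣ (1 + (l : ℤ) ^ (t + 1) * d) ^ l - 1))
        · exact this
        · -- dvd
          have h3 : ((1 + (l : ℤ) ^ (t + 1) * d) ^ l - 1)
              = ((l : ℤ) ^ (t + 1) * d) * ∑ i ∈ Finset.range l, (1 + (l : ℤ) ^ (t + 1) * d) ^ i := by
            have := mul_geom_sum (1 + (l : ℤ) ^ (t + 1) * d) l
            rw [← this]
            ring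
          rw [h3, pow_succ]
          have h4 : (l : ℤ) ∣ ∑ i ∈ Finset.range l, (1 + (l : ℤ) ^ (t + 1) * d) ^ i := by
            apply (Int.modEq_zero_iff_dvd).1
            have h5 : ∀ i ∈ Finset.range l, (1 + (l : ℤ) ^ (t + 1) * d) ^ i ≡ 1 [ZMOD (l : ℤ)] := by
              intro i _
              have h6 : (1 + (l : ℤ) ^ (t + 1) * d) ≡ 1 [ZMOD (l : ℤ)] := by
                have : (l : ℤ) ^ (t + 1) * d ≡ 0 [ZMOD (l : ℤ)] :=
                  Int.modEq_zero_iff_dvd.2 ((dvd_pow_self _ (by omega)).mul_right _)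
                simpa using (Int.ModEq.refl 1).add this
              simpa using h6.pow i
            have h7 := Int.ModEq.sum h5
            refine h7.trans ?_
            simp
          exact mul_dvd_mul (dvd_mul_right _ _) h4
    have h2 : (c0 ^ m) ^ (l ^ e) ≡ 1 [ZMOD (l : ℤ) ^ e] := (hpow e).of_dvd (pow_dvd_pow _ (by omega))
    obtain ⟨q, hq⟩ := hk1'
    have h8 : (c0 ^ k') ^ m = ((c0 ^ m) ^ (l ^ e)) ^ q := by
      rw [hq, ← pow_mul, ← pow_mul, ← pow_mul]
      congr 1
      ring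
    rw [h8]
    simpa using h2.pow q
  · obtain ⟨q, hq⟩ : ∃ q, k' = 1 + m * q := by
      have := (Nat.modEq_iff_dvd' hpos).1 hk2'.symm
      obtain ⟨q, hq⟩ := this
      exact ⟨q, by omega⟩
    rw [hq, pow_add, pow_one, pow_mul]
    have := (Int.ModEq.refl c0).mul (h.pow q)
    simpa using this

end L4M

/-- **L4**, additive form. -/
theorem L4add {Q : Type*} [AddCommGroup Q] [Finite Q] {B : Type*} [Group B]
    [DistribMulAction B Q] {l : ℕ} (hl : l.Prime) (hQ : ∃ e : ℕ, Nat.card Q = l ^ e)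
    (hB : IsPGroup l B) (σ : AddMonoid.End Q) (m : ℕ) (hm : σ ^ m = 1) (hml : ¬ l ∣ m)
    (hc : ∀ (b : B) (x : Q), σ (b • x) = b • σ x)
    (hcyc : ∃ z : Q, (∀ b : B, b • z = z) ∧
      ∀ x : Q, (∀ b : B, b • x = x) → x ∈ AddSubgroup.zmultiples z) :
    ∃ c : ℤ, ∀ x : Q, σ x = c • x := by
  classical
  have hlf : Fact l.Prime := ⟨hl⟩
  obtain ⟨z, hz, hz'⟩ := hcyc
  obtain ⟨e, he⟩ := hQ
  have hm0 : m ≠ 0 := by rintro rfl; exact hml (dvd_zero l)
  -- a `B`-invariant subgroup without nonzero `B`-fixed points is trivial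
  have key : ∀ A : AddSubgroup Q, (∀ (b : B), ∀ x ∈ A, b • x ∈ A) →
      (∀ x ∈ A, (∀ b : B, b • x = x) → x = 0) → A = ⊥ := by
    intro A hA hfix
    let act : MulAction B A :=
      { smul := fun b x => ⟨b • (x : Q), hA b _ x.2⟩
        one_smul := fun x => Subtype.ext (one_smul B (x : Q))
        mul_smul := fun b c x => Subtype.ext (mul_smul b c (x : Q)) }
    have hmod := hB.card_modEq_card_fixedPoints (α := A)
    have hone : Nat.card (MulAction.fixedPoints B A) = 1 := by
      rw [Nat.card_eq_one_iff_unique]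
      refine ⟨⟨?_⟩, ⟨⟨0, fun b => Subtype.ext (smul_zero b)⟩⟩⟩
      rintro ⟨x, hx⟩ ⟨y, hy⟩
      apply Subtype.ext
      apply Subtype.ext
      have h1 : (x : Q) = 0 := hfix x x.2 (fun b => congrArg Subtype.val (hx b))
      have h2 : (y : Q) = 0 := hfix y y.2 (fun b => congrArg Subtype.val (hy b))
      show (x : Q) = (y : Q)
      rw [h1, h2]
    rw [hone] at hmod
    have hd : Nat.card A ∣ Nat.card Q := AddSubgroup.card_addSubgroup_dvd_card A
    rw [he] at hd
    obtain ⟨k, hk, hk'⟩ := (Nat.dvd_prime_pow hl).1 hd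
    rcases Nat.eq_zero_or_pos k with h0 | hpos
    · rw [h0, pow_zero] at hk'
      exact AddSubgroup.card_eq_one.1 hk'
    · exfalso
      rw [hk'] at hmod
      have h0 : l ^ k ≡ 0 [MOD l] := Nat.modEq_zero_iff_dvd.2 (dvd_pow_self l (by omega))
      have h1 : l ∣ 1 := Nat.modEq_zero_iff_dvd.1 (hmod.symm.trans h0)
      exact hl.one_lt.ne' (Nat.dvd_one.1 h1)
  by_cases hQt : ∀ x : Q, x = 0
  · exact ⟨0, fun x => by rw [hQt (σ x), hQt x, smul_zero]⟩
  push Not at hQt
  obtain ⟨w, hw⟩ := hQt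
  have hz0 : z ≠ 0 := by
    intro h0
    have htop : (⊤ : AddSubgroup Q) = ⊥ := by
      apply key ⊤ (fun b x _ => AddSubgroup.mem_top _)
      intro x _ hx
      have := hz' x hx
      rw [h0, AddSubgroup.zmultiples_zero_eq_bot] at this
      exact this
    have : w ∈ (⊥ : AddSubgroup Q) := htop ▸ AddSubgroup.mem_top w
    exact hw (AddSubgroup.mem_bot.1 this)
  have hann : ∀ x : Q, ((l : ℤ) ^ e) • x = 0 := by
    intro x
    have h1 : Nat.card Q • x = 0 := by
      have := card_nsmul_eq_zero' (x := x)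
      exact this
    rw [he] at h1
    have : ((l : ℤ) ^ e) • x = (l ^ e) • x := by
      rw [← natCast_zsmul]; push_cast; rfl
    rw [this, h1]
  -- order of `z`
  obtain ⟨j, hj, hjz⟩ : ∃ j, 1 ≤ j ∧ addOrderOf z = l ^ j := by
    have hd : addOrderOf z ∣ l ^ e := by
      rw [← he]; exact addOrderOf_dvd_natCard z
    obtain ⟨j, _, hj'⟩ := (Nat.dvd_prime_pow hl).1 hd
    refine ⟨j, ?_, hj'⟩
    rcases Nat.eq_zero_or_pos j with h0 | h
    · exfalso
      rw [h0, pow_zero] at hj'
      exact hz0 (AddMonoid.addOrderOf_eq_one_iff.1 hj')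
    · exact h
  have hσz : ∀ b : B, b • σ z = σ z := by
    intro b
    rw [← hc, hz b]
  obtain ⟨c0, hc0⟩ := AddSubgroup.mem_zmultiples_iff.1 (hz' (σ z) hσz)
  have hpow : ∀ k : ℕ, (σ ^ k) z = (c0 ^ k) • z := by
    intro k
    induction k with
    | zero => simp
    | succ k ih =>
      rw [pow_succ']
      show σ ((σ ^ k) z) = _
      rw [ih, map_zsmul, ← hc0, smul_smul, pow_succ]
  have hc0m : c0 ^ m ≡ 1 [ZMOD (l : ℤ) ^ j] := by
    have h1 : (c0 ^ m) • z = (1 : ℤ) • z := by
      rw [← hpow, hm, one_smul]; rfl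
    have h2 : (c0 ^ m - 1) • z = 0 := by rw [sub_smul, h1, sub_self]
    have h3 : ((addOrderOf z : ℕ) : ℤ) ∣ c0 ^ m - 1 := (addOrderOf_dvd_iff_zsmul_eq_zero).2 h2
    rw [hjz] at h3
    push_cast at h3
    exact (Int.modEq_iff_dvd.2 h3).symm
  obtain ⟨c, hc1, hc2⟩ := L4M.lift hl m j e hml hj c0 hc0m
  have hcz : c • z = c0 • z := by
    have h3 : (l : ℤ) ^ j ∣ c0 - c := hc2.dvd
    have h4 : ((addOrderOf z : ℕ) : ℤ) ∣ c0 - c := by rw [hjz]; push_cast; exact h3
    have h5 := (addOrderOf_dvd_iff_zsmul_eq_zero).1 h4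
    rw [sub_smul, sub_eq_zero] at h5
    exact h5.symm
  refine ⟨c, ?_⟩
  -- the endomorphism `θ = σ - c`
  let θ : AddMonoid.End Q := σ - (c : AddMonoid.End Q)
  have hθ : ∀ x, θ x = σ x - c • x := by
    intro x
    show σ x - ((c : AddMonoid.End Q)) x = _
    rw [AddMonoid.End.intCast_apply]
  have hcom : Commute σ (c : AddMonoid.End Q) := (Int.cast_commute c σ).symm
  let g : AddMonoid.End Q := ∑ i ∈ Finset.range m, σ ^ i * (c : AddMonoid.End Q) ^ (m - 1 - i)
  have hgθ : ∀ x, g (θ x) = 0 := by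
    intro x
    have h1 : g * θ = σ ^ m - (c : AddMonoid.End Q) ^ m := hcom.geom_sum₂_mul m
    have h2 : g (θ x) = (g * θ) x := rfl
    rw [h2, h1, hm]
    show (1 : AddMonoid.End Q) x - ((c : AddMonoid.End Q) ^ m) x = 0
    have h3 : ((c : AddMonoid.End Q) ^ m) x = (c ^ m) • x := by
      rw [← Int.cast_pow, AddMonoid.End.intCast_apply]
    rw [h3]
    obtain ⟨d, hd⟩ := hc1.dvd
    have h4 : c ^ m = 1 - (l : ℤ) ^ e * d := by linarith
    rw [h4, sub_smul, one_smul, mul_comm, mul_smul, hann]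
    show x - (x - d • 0) = 0
    simp
  have hrange : θ.range = ⊥ := by
    apply key
    · rintro b _ ⟨x, rfl⟩
      refine ⟨b • x, ?_⟩
      show θ (b • x) = b • θ x
      rw [hθ, hθ, hc, smul_sub]
      congr 1
      exact (smul_comm b c x).symm
    · rintro _ ⟨x, rfl⟩ hx
      obtain ⟨n, hn⟩ := AddSubgroup.mem_zmultiples_iff.1 (hz' _ hx)
      have h1 : ∀ i : ℕ, (σ ^ i) (θ x) = (c ^ i) • θ x := by
        intro i
        show (σ ^ i) (θ x) = (c ^ i) • θ x
        have hn' : θ x = n • z := hn.symm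
        rw [hn', map_zsmul, hpow]
        have : ∀ i : ℕ, (c0 ^ i) • z = (c ^ i) • z := by
          intro i
          induction i with
          | zero => simp
          | succ i ih =>
            rw [pow_succ, mul_smul, ← hcz, smul_comm, ih, smul_smul, pow_succ, mul_comm]
        rw [this, smul_comm]
      have h2 := hgθ x
      have h3 : g (θ x) = ((m : ℤ) * c ^ (m - 1)) • θ x := by
        have hsum : ∀ (s : Finset ℕ) (f : ℕ → AddMonoid.End Q) (y : Q),
            (∑ i ∈ s, f i) y = ∑ i ∈ s, (f i) y := fun s f y =>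
          AddMonoidHom.finsetSum_apply f s y
        show (∑ i ∈ Finset.range m, σ ^ i * (c : AddMonoid.End Q) ^ (m - 1 - i)) (θ x) = _
        rw [hsum]
        have h4 : ∀ i ∈ Finset.range m,
            (σ ^ i * (c : AddMonoid.End Q) ^ (m - 1 - i)) (θ x) = (c ^ (m - 1)) • θ x := by
          intro i hi
          show (σ ^ i) (((c : AddMonoid.End Q) ^ (m - 1 - i)) (θ x)) = _
          rw [← Int.cast_pow, AddMonoid.End.intCast_apply, map_zsmul, h1,
            smul_smul, ← pow_add]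
          congr 2
          have := Finset.mem_range.1 hi
          omega
        rw [Finset.sum_congr rfl h4, Finset.sum_const, Finset.card_range, mul_smul]
        simp
      rw [h3] at h2
      -- `m * c ^ (m - 1)` is prime to `l`
      have hcop : IsCoprime ((m : ℤ) * c ^ (m - 1)) ((l : ℤ) ^ e) := by
        apply IsCoprime.pow_right
        apply IsCoprime.mul_left
        · exact_mod_cast Nat.isCoprime_iff_coprime.2 ((hl.coprime_iff_not_dvd.2 hml).symm)
        · apply IsCoprime.pow_left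
          have h5 : (l : ℤ) ∣ 1 - c0 ^ m := dvd_trans (dvd_pow_self _ (by omega)) hc0m.dvd
          have h6 : (l : ℤ) ∣ c0 - c := dvd_trans (dvd_pow_self _ (by omega)) hc2.dvd
          have h7 : ¬ (l : ℤ) ∣ c := by
            intro h8
            have h9 : (l : ℤ) ∣ c0 := by
              have := dvd_add h6 h8
              simpa using this
            have h10 : (l : ℤ) ∣ 1 := by
              have := dvd_add h5 (h9.trans (dvd_pow_self c0 hm0))
              simpa using this
            have := Int.natCast_dvd_natCast.1 (by simpa using h10 : (l : ℤ) ∣ ((1 : ℕ) : ℤ))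
            exact hl.one_lt.ne' (Nat.dvd_one.1 this)
          exact ((Nat.prime_iff_prime_int.1 hl).coprime_iff_not_dvd.2 h7).symm
      obtain ⟨u, v, huv⟩ := hcop
      show θ x = 0
      have : θ x = (u * ((m : ℤ) * c ^ (m - 1)) + v * (l : ℤ) ^ e) • θ x := by
        rw [huv, one_smul]
      rw [this, add_smul, mul_smul, h2, mul_smul, hann]
      simp
  intro x
  have : θ x ∈ θ.range := ⟨x, rfl⟩
  rw [hrange, AddSubgroup.mem_bot, hθ, sub_eq_zero] at this
  exact this

/-- **L4** inside a group `Γ`: `Q` an abelian `l`-subgroup, `B` an `l`-subgroup normalising `Q`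
with `C_Q(B)` cyclic, `s` normalises `Q`, acts on `Q` with order prime to `l` and commuting with the
action of `B`: then `s` acts on `Q` as a power map. -/
theorem L4 {Γ : Type*} [Group Γ] [Finite Γ] {l : ℕ} (hl : l.Prime) (Q B : Subgroup Γ)
    (hQa : ∀ x ∈ Q, ∀ y ∈ Q, x * y = y * x) (hQ : IsPGroup l Q) (hB : IsPGroup l B)
    (hBn : ∀ b ∈ B, ∀ x ∈ Q, b * x * b⁻¹ ∈ Q) (s : Γ) (hs : ∀ x ∈ Q, s * x * s⁻¹ ∈ Q) (m : ℕ)
    (hml : ¬ l ∣ m) (hm : ∀ x ∈ Q, s ^ m * x = x * s ^ m)
    (hc : ∀ b ∈ B, ∀ x ∈ Q, s * (b * x * b⁻¹) * s⁻¹ = b * (s * x * s⁻¹) * b⁻¹)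
    (z : Γ) (hzQ : z ∈ Q) (hzB : ∀ b ∈ B, b * z = z * b)
    (hcyc : ∀ x ∈ Q, (∀ b ∈ B, b * x = x * b) → x ∈ Subgroup.zpowers z) :
    ∃ c : ℤ, ∀ x ∈ Q, s * x * s⁻¹ = x ^ c := by
  classical
  have hlf : Fact l.Prime := ⟨hl⟩
  let cg : CommGroup Q :=
    { (inferInstance : Group Q) with
      mul_comm := fun x y => Subtype.ext (hQa x x.2 y y.2) }
  let A := Additive Q
  have : Finite A := inferInstanceAs (Finite Q)
  let act : DistribMulAction B A :=
    { smul := fun b x => Additive.ofMul ⟨b * (Additive.toMul x : Q) * (b : Γ)⁻¹,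
        hBn b b.2 _ (Additive.toMul x : Q).2⟩
      one_smul := by
        intro x
        apply Additive.toMul.injective
        apply Subtype.ext
        show ((1 : B) : Γ) * ((Additive.toMul x : Q) : Γ) * ((1 : B) : Γ)⁻¹ = _
        simp
      mul_smul := by
        intro b c x
        apply Additive.toMul.injective
        apply Subtype.ext
        show ((b * c : B) : Γ) * ((Additive.toMul x : Q) : Γ) * ((b * c : B) : Γ)⁻¹ =
          (b : Γ) * ((c : Γ) * ((Additive.toMul x : Q) : Γ) * (c : Γ)⁻¹) * (b : Γ)⁻¹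
        rw [Subgroup.coe_mul]
        group
      smul_zero := by
        intro b
        apply Additive.toMul.injective
        apply Subtype.ext
        show (b : Γ) * (1 : Γ) * (b : Γ)⁻¹ = 1
        group
      smul_add := by
        intro b x y
        apply Additive.toMul.injective
        apply Subtype.ext
        show (b : Γ) * (((Additive.toMul x : Q) : Γ) * ((Additive.toMul y : Q) : Γ)) * (b : Γ)⁻¹ =
          ((b : Γ) * ((Additive.toMul x : Q) : Γ) * (b : Γ)⁻¹) *
            ((b : Γ) * ((Additive.toMul y : Q) : Γ) * (b : Γ)⁻¹)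
        group }
  let σ : AddMonoid.End A :=
    { toFun := fun x => Additive.ofMul ⟨s * (Additive.toMul x : Q) * s⁻¹,
        hs _ (Additive.toMul x : Q).2⟩
      map_zero' := by
        apply Additive.toMul.injective
        apply Subtype.ext
        show s * (1 : Γ) * s⁻¹ = 1
        group
      map_add' := by
        intro x y
        apply Additive.toMul.injective
        apply Subtype.ext
        show s * (((Additive.toMul x : Q) : Γ) * ((Additive.toMul y : Q) : Γ)) * s⁻¹ =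
          (s * ((Additive.toMul x : Q) : Γ) * s⁻¹) *
            (s * ((Additive.toMul y : Q) : Γ) * s⁻¹)
        group }
  have hσv : ∀ x : A, ((Additive.toMul (σ x) : Q) : Γ) = s * ((Additive.toMul x : Q) : Γ) * s⁻¹ :=
    fun _ => rfl
  have hpow : ∀ (k : ℕ) (x : A),
      ((Additive.toMul ((σ ^ k) x) : Q) : Γ) = s ^ k * ((Additive.toMul x : Q) : Γ) * (s ^ k)⁻¹ := by
    intro k
    induction k with
    | zero => intro x; simp
    | succ k ih =>
      intro x
      rw [pow_succ']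
      show ((Additive.toMul (σ ((σ ^ k) x)) : Q) : Γ) = _
      rw [hσv, ih, pow_succ' s]
      group
  have hcard : ∃ e : ℕ, Nat.card A = l ^ e := by
    obtain ⟨e, he⟩ := IsPGroup.exists_card_eq hQ
    exact ⟨e, he⟩
  obtain ⟨c, hcc⟩ := L4add (Q := A) (B := B) hl hcard hB σ m (by
      apply AddMonoidHom.ext
      intro x
      apply Additive.toMul.injective
      apply Subtype.ext
      refine (hpow m x).trans ?_
      show s ^ m * ((Additive.toMul x : Q) : Γ) * (s ^ m)⁻¹ = ((Additive.toMul x : Q) : Γ)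
      rw [hm _ (Additive.toMul x : Q).2]
      group) hml (by
      intro b x
      apply Additive.toMul.injective
      apply Subtype.ext
      exact hc b b.2 _ (Additive.toMul x : Q).2)
    ⟨Additive.ofMul ⟨z, hzQ⟩, by
      intro b
      apply Additive.toMul.injective
      apply Subtype.ext
      show (b : Γ) * z * (b : Γ)⁻¹ = z
      rw [hzB b b.2]
      group, by
      intro x hx
      have h1 : ((Additive.toMul x : Q) : Γ) ∈ Subgroup.zpowers z := by
        apply hcyc _ (Additive.toMul x : Q).2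
        intro b hb
        have := congrArg (fun y : A => ((Additive.toMul y : Q) : Γ)) (hx ⟨b, hb⟩)
        have h2 : b * ((Additive.toMul x : Q) : Γ) * b⁻¹ = ((Additive.toMul x : Q) : Γ) := this
        exact mul_inv_eq_iff_eq_mul.1 h2
      obtain ⟨n, hn⟩ := Subgroup.mem_zpowers_iff.1 h1
      refine AddSubgroup.mem_zmultiples_iff.2 ⟨n, ?_⟩
      apply Additive.toMul.injective
      apply Subtype.ext
      rw [toMul_zsmul]
      show ((⟨z, hzQ⟩ : Q) ^ n : Q).1 = _
      rw [Subgroup.coe_zpow, hn]⟩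
  refine ⟨c, ?_⟩
  intro x hx
  have h1 := hcc (Additive.ofMul ⟨x, hx⟩)
  have h2 := congrArg (fun y : A => ((Additive.toMul y : Q) : Γ)) h1
  exact h2

end Pool.Agent.Lib.MPbe1941.XF
end

section
/-!
# MP_be1941_al, exact bound: module LFO (= L4), from `XF/L4.lean`
-/
set_option autoImplicit false

namespace Pool.Agent.Lib.MPbe1941.X

theorem specLFO : SpecLFO := by
  intro G _ _ l Q B S hl hQ hQa hB hS hBn hSn hcom ⟨z, hz, hzB, hcyc⟩ s hs
  refine XF.L4 hl Q B hQa hQ hB hBn s (hSn s hs) (Nat.card S) hS ?_ ?_ z hz hzB ?_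
  · intro x _
    have h1 : s ^ Nat.card S = 1 := by
      have := pow_card_eq_one' (x := (⟨s, hs⟩ : S))
      exact congrArg Subtype.val this
    rw [h1, one_mul, mul_one]
  · intro b hb x hx
    -- `y = s x s⁻¹`; `b s b⁻¹ s⁻¹` commutes with `b * y * b⁻¹`
    have h1 := hcom b hb s hs
    -- `(b s b⁻¹ s⁻¹)` commutes with `z := s (b x b⁻¹) s⁻¹`
    have h2 := h1 (s * (b * x * b⁻¹) * s⁻¹) (hSn s hs _ (hBn b hb x hx))
    have h3 : b * s * b⁻¹ * s⁻¹ * (s * (b * x * b⁻¹) * s⁻¹) = b * s * x * b⁻¹ * s⁻¹ := by group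
    rw [h3] at h2
    have h4 : b * (s * x * s⁻¹) * b⁻¹ = (b * s * x * b⁻¹ * s⁻¹) * (b * s * b⁻¹ * s⁻¹)⁻¹ := by
      group
    rw [h4, h2]
    group
  · intro x hx hxB
    obtain ⟨n, hn⟩ := hcyc x hx hxB
    exact Subgroup.mem_zpowers_iff.2 ⟨n, hn.symm⟩

end Pool.Agent.Lib.MPbe1941.X
end
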