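import Mathlib
import Pool.Agent.Lib.MP_be1941_al.X.SpecP

section
/-!
# MP_be1941_al, exact version, foundations: eigenvectors of automorphisms of exponent `l - 1`
-/
set_option autoImplicit false

namespace Pool.Agent.Lib.MPbe1941.XF

namespace EIGM

open Polynomial

/-- If `∏ (X - ζ)` kills a nonzero vector then some `ζ` is an eigenvalue. -/
theorem exists_root {K V : Type*} [Field K] [AddCommGroup V] [Module K V] (f : V →ₗ[K] V)
    (s : Finset K) : ∀ v : V, v ≠ 0 → (aeval f (∏ ζ ∈ s, (X - C ζ))) v = 0 →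
    ∃ ζ ∈ s, ∃ w : V, w ≠ 0 ∧ f w = ζ • w := by
  classical
  induction s using Finset.induction_on with
  | empty =>
    intro v hv h
    simp at h
    exact absurd h hv
  | insert ζ s hζ ih =>
    intro v hv h
    rw [Finset.prod_insert hζ, map_mul] at h
    by_cases hw : (aeval f (∏ ζ ∈ s, (X - C ζ))) v = 0
    · obtain ⟨ζ', h1, h2⟩ := ih v hv hw
      exact ⟨ζ', Finset.mem_insert_of_mem h1, h2⟩
    · refine ⟨ζ, Finset.mem_insert_self _ _, _, hw, ?_⟩
      have h1 : (aeval f (X - C ζ)) ((aeval f (∏ ζ ∈ s, (X - C ζ))) v) = 0 := h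
      rw [map_sub, aeval_X, aeval_C, LinearMap.sub_apply, Module.algebraMap_end_apply,
        sub_eq_zero] at h1
      exact h1

/-- `f ^ (l - 1) = 1` over `ZMod l`: there is an eigenvector. -/
theorem eigv {l : ℕ} (hl : l.Prime) {V : Type*} [AddCommGroup V] [Nontrivial V]
    [Module (ZMod l) V] (f : V →ₗ[ZMod l] V) (hf : ∀ v, f ((f ^ (l - 1)) v) = f v) :
    ∃ ζ : ZMod l, ∃ w : V, w ≠ 0 ∧ f w = ζ • w := by
  classical
  have : Fact l.Prime := ⟨hl⟩
  obtain ⟨v, hv⟩ := exists_ne (0 : V)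
  have h1 : (∏ ζ ∈ (Finset.univ : Finset (ZMod l)), (X - C ζ) : (ZMod l)[X]) = X ^ l - X := by
    have h := FiniteField.roots_X_pow_card_sub_X (ZMod l)
    rw [ZMod.card] at h
    have hmonic : (X ^ l - X : (ZMod l)[X]).Monic := by
      apply monic_X_pow_sub
      rw [degree_X]
      exact_mod_cast hl.one_lt
    have hdeg : (X ^ l - X : (ZMod l)[X]).natDegree = l :=
      FiniteField.X_pow_card_sub_X_natDegree_eq (ZMod l) hl.one_lt
    have h2 := prod_multiset_X_sub_C_of_monic_of_roots_card_eq hmonic (by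
      rw [h, hdeg]
      simp [ZMod.card])
    rw [h] at h2
    rw [← h2]
    rfl
  have h3 : (aeval f (∏ ζ ∈ (Finset.univ : Finset (ZMod l)), (X - C ζ))) v = 0 := by
    rw [h1, map_sub, map_pow, aeval_X, LinearMap.sub_apply]
    have h4 := hf v
    have h5 : (f ^ l) v = f ((f ^ (l - 1)) v) := by
      have h6 : f ^ l = f * f ^ (l - 1) := by
        rw [← pow_succ']
        congr 1
        have := hl.pos
        omega
      rw [h6]
      rfl
    rw [h5, h4, sub_self]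
  obtain ⟨ζ, _, w, hw⟩ := exists_root f Finset.univ v hv h3
  exact ⟨ζ, w, hw⟩

/-- The same for an additive group killed by `l`. -/
theorem eiga {l : ℕ} (hl : l.Prime) {V : Type*} [AddCommGroup V] [Nontrivial V]
    (hz : ∀ x : V, l • x = 0) (f : V →+ V) (hf : ∀ v, (f^[l - 1]) v = v) :
    ∃ ζ : ℕ, ∃ w : V, w ≠ 0 ∧ f w = ζ • w := by
  have : Fact l.Prime := ⟨hl⟩
  let mod : Module (ZMod l) V := AddCommGroup.zmodModule hz
  obtain ⟨ζ, w, hw, hfw⟩ := eigv hl (f.toZModLinearMap l) (by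
    intro v
    congr 1
    have h1 : ∀ k : ℕ, ((f.toZModLinearMap l) ^ k) v = (f^[k]) v := by
      intro k
      induction k with
      | zero => rfl
      | succ k ih =>
        rw [pow_succ']
        show (f.toZModLinearMap l) (((f.toZModLinearMap l) ^ k) v) = _
        rw [ih, Function.iterate_succ_apply']
        rfl
    rw [h1, hf])
  refine ⟨ζ.val, w, hw, ?_⟩
  have h2 : f w = ζ • w := hfw
  rw [h2]
  conv_lhs => rw [← ZMod.natCast_zmod_val ζ]
  rw [Nat.cast_smul_eq_nsmul]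

end EIGM

/-- A central element of order `l` on which `ρ` is a power map. -/
theorem EIG {l : ℕ} (hl : l.Prime) {P : Type*} [Group P] [Finite P] [Nontrivial P]
    (hP : IsPGroup l P) (ρ : P →* P) (hρ : ∀ x, (ρ^[l - 1]) x = x) :
    ∃ n : P, n ≠ 1 ∧ n ∈ Subgroup.center P ∧ n ^ l = 1 ∧ ∃ ν : ℕ, ρ n = n ^ ν := by
  classical
  have : Fact l.Prime := ⟨hl⟩
  have hl1 : l - 1 ≠ 0 := by have := hl.one_lt; omega
  have hsurj : Function.Surjective ρ := by
    intro x
    refine ⟨(ρ^[l - 1 - 1]) x, ?_⟩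
    rw [← Function.iterate_succ_apply' ρ, show (l - 1 - 1).succ = l - 1 by omega, hρ]
  have hcen : ∀ x ∈ Subgroup.center P, ρ x ∈ Subgroup.center P := by
    intro x hx
    rw [Subgroup.mem_center_iff] at hx ⊢
    intro y
    obtain ⟨y', rfl⟩ := hsurj y
    rw [← map_mul, hx, map_mul]
  let V0 : Subgroup P :=
    { carrier := {x | x ∈ Subgroup.center P ∧ x ^ l = 1}
      one_mem' := ⟨one_mem _, one_pow _⟩
      mul_mem' := by
        rintro x y ⟨hx, hx'⟩ ⟨hy, hy'⟩
        refine ⟨mul_mem hx hy, ?_⟩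
        have hc : Commute x y := (Subgroup.mem_center_iff.1 hy x)
        rw [hc.mul_pow, hx', hy', one_mul]
      inv_mem' := by
        rintro x ⟨hx, hx'⟩
        exact ⟨inv_mem hx, by rw [inv_pow, hx', inv_one]⟩ }
  have hV0 : ∀ x ∈ V0, ρ x ∈ V0 := by
    rintro x ⟨hx, hx'⟩
    exact ⟨hcen x hx, by rw [← map_pow, hx', map_one]⟩
  let cg : CommGroup V0 :=
    { (inferInstance : Group V0) with
      mul_comm := by
        rintro ⟨x, hx⟩ ⟨y, hy⟩
        apply Subtype.ext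
        exact (Subgroup.mem_center_iff.1 hy.1 x) }
  let V := Additive V0
  have hVnt : Nontrivial V := by
    have h1 := hP.center_nontrivial
    have h2 : l ∣ Nat.card (Subgroup.center P) := by
      obtain ⟨k, hk⟩ := IsPGroup.exists_card_eq (hP.to_subgroup (Subgroup.center P))
      rw [hk]
      apply dvd_pow_self
      rintro rfl
      rw [pow_zero] at hk
      exact (Finite.one_lt_card_iff_nontrivial.2 h1).ne' hk
    obtain ⟨z, hz⟩ := exists_prime_orderOf_dvd_card' l h2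
    refine ⟨Additive.ofMul ⟨(z : P), z.2, ?_⟩, 0, ?_⟩
    · have := pow_orderOf_eq_one z
      rw [hz] at this
      exact_mod_cast congrArg Subtype.val this
    · intro h0
      have h3 : (z : P) = 1 := congrArg (fun t : V => ((Additive.toMul t : V0) : P)) h0
      have h4 : z = 1 := Subtype.ext h3
      rw [h4, orderOf_one] at hz
      exact hl.one_lt.ne hz
  have hzero : ∀ x : V, l • x = 0 := by
    intro x
    apply Additive.toMul.injective
    apply Subtype.ext
    show ((Additive.toMul (l • x) : V0) : P) = 1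
    rw [toMul_nsmul]
    show ((Additive.toMul x : V0) : P) ^ l = 1
    exact (Additive.toMul x : V0).2.2
  let f0 : V →+ V :=
    { toFun := fun x => Additive.ofMul ⟨ρ (Additive.toMul x : V0), hV0 _ (Additive.toMul x : V0).2⟩
      map_zero' := by
        apply Additive.toMul.injective
        apply Subtype.ext
        exact map_one ρ
      map_add' := by
        intro x y
        apply Additive.toMul.injective
        apply Subtype.ext
        exact map_mul ρ _ _ }
  have hfv : ∀ x : V, ((Additive.toMul (f0 x) : V0) : P) = ρ ((Additive.toMul x : V0) : P) :=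
    fun _ => rfl
  have hfp : ∀ (k : ℕ) (x : V),
      ((Additive.toMul ((f0^[k]) x) : V0) : P) = (ρ^[k]) ((Additive.toMul x : V0) : P) := by
    intro k
    induction k with
    | zero => intro x; rfl
    | succ k ih =>
      intro x
      rw [Function.iterate_succ_apply', Function.iterate_succ_apply', hfv, ih]
  obtain ⟨ζ, w, hw, hfw⟩ := EIGM.eiga hl hzero f0 (by
    intro v
    apply Additive.toMul.injective
    apply Subtype.ext
    rw [hfp, hρ])
  refine ⟨((Additive.toMul w : V0) : P), ?_, (Additive.toMul w : V0).2.1,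
    (Additive.toMul w : V0).2.2, ζ, ?_⟩
  · intro h1
    apply hw
    apply Additive.toMul.injective
    apply Subtype.ext
    exact h1
  · rw [← hfv, hfw, toMul_nsmul]
    rfl

end Pool.Agent.Lib.MPbe1941.XF
end

section
/-!
# MP_be1941_al, exact version, foundations: the inductive core of L2 (c)
-/
set_option autoImplicit false

namespace Pool.Agent.Lib.MPbe1941.XF

universe u

namespace CORM

/-- `[P, ρ]`. -/
def Qr {P : Type*} [Group P] (ρ : P →* P) : Subgroup P :=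
  Subgroup.closure (Set.range fun x => ρ x * x⁻¹)

theorem comm_pow1 {P : Type*} [Group P] {u v z : P} (hz : ∀ y, z * y = y * z)
    (h : u * v = v * u * z) (i : ℕ) : u ^ i * v = v * u ^ i * z ^ i := by
  have hzc : ∀ (k : ℕ) (y : P), z ^ k * y = y * z ^ k := fun k y =>
    ((show Commute z y from hz y).pow_left k)
  induction i with
  | zero => simp
  | succ i ih =>
    calc u ^ (i + 1) * v = u ^ i * (u * v) := by rw [pow_succ, mul_assoc]
      _ = u ^ i * v * (u * z) := by rw [h]; simp only [mul_assoc]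
      _ = v * u ^ i * (z ^ i * u) * z := by rw [ih]; simp only [mul_assoc]
      _ = v * u ^ (i + 1) * z ^ (i + 1) := by
        rw [hzc i u, pow_succ u, pow_succ z]
        simp only [mul_assoc]

theorem comm_pow {P : Type*} [Group P] {u v z : P} (hz : ∀ y, z * y = y * z)
    (h : u * v = v * u * z) (i j : ℕ) : u ^ i * v ^ j = v ^ j * u ^ i * z ^ (i * j) := by
  have hzc : ∀ (k : ℕ) (y : P), z ^ k * y = y * z ^ k := fun k y =>
    ((show Commute z y from hz y).pow_left k)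
  induction j with
  | zero => simp
  | succ j ih =>
    calc u ^ i * v ^ (j + 1) = u ^ i * v ^ j * v := by rw [pow_succ, mul_assoc]
      _ = v ^ j * u ^ i * (z ^ (i * j) * v) := by rw [ih, mul_assoc]
      _ = v ^ j * (u ^ i * v) * z ^ (i * j) := by rw [hzc]; simp only [mul_assoc]
      _ = v ^ j * (v * u ^ i * z ^ i) * z ^ (i * j) := by rw [comm_pow1 hz h]
      _ = v ^ (j + 1) * u ^ i * z ^ (i * (j + 1)) := by
        rw [pow_succ v, mul_add, mul_one, add_comm, pow_add z]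
        simp only [mul_assoc]

theorem pow_of_dvd {P : Type*} [Group P] [Finite P] {N : ℕ} (h : Nat.card P ∣ N) (x : P) :
    x ^ N = 1 := by
  obtain ⟨k, rfl⟩ := h
  rw [pow_mul, pow_card_eq_one', one_pow]

theorem pow_eq_of_modEq {P : Type*} [Group P] [Finite P] {N : ℕ} (h : Nat.card P ∣ N) (x : P)
    {i j : ℕ} (hij : i ≡ j [MOD N]) : x ^ i = x ^ j := by
  rw [pow_eq_pow_iff_modEq]
  exact hij.of_dvd ((orderOf_dvd_natCard x).trans h)

def gA (a : ℕ) : ℕ → ℕ
  | 0 => 0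
  | k + 1 => a * gA a k + 1

def hA (a : ℕ) : ℕ → ℕ
  | 0 => 0
  | k + 1 => hA a k + gA a k

def hB (a : ℕ) : ℕ → ℕ
  | 0 => 0
  | k + 1 => a * hB a k + a ^ k

theorem gA_id (a k : ℕ) : ((a : ℤ) - 1) * (gA a k : ℤ) = (a : ℤ) ^ k - 1 := by
  induction k with
  | zero => simp [gA]
  | succ k ih =>
    rw [gA]
    push_cast
    linear_combination (a : ℤ) * ih

theorem hA_id (a k : ℕ) : ((a : ℤ) - 1) * (hA a k : ℤ) = (gA a k : ℤ) - k := by
  induction k with
  | zero => simp [gA, hA]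
  | succ k ih =>
    have h1 := gA_id a k
    rw [hA, gA]
    push_cast
    linear_combination ih + h1 - h1

theorem hB_id (a k : ℕ) : a * hB a k = k * a ^ k := by
  induction k with
  | zero => simp [hB]
  | succ k ih =>
    rw [hB, mul_add, ih]
    ring

/-- Case `ν = 1`. -/
theorem caseA {P : Type*} [Group P] [Finite P] {l e : ℕ} (hl : l.Prime) (he : 1 ≤ e)
    (hcard : Nat.card P ∣ l ^ e) (ρ : P →* P) (hρ : ∀ x, (ρ^[l - 1]) x = x) (a : ℕ)
    (ha : a ^ (l - 1) ≡ 1 [MOD l ^ e]) (ha1 : ¬ a ≡ 1 [MOD l]) (x t : P)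
    (htc : ∀ y, t * y = y * t) (htl : t ^ l = 1) (hρt : ρ t = t)
    (hu : ρ (ρ x * x⁻¹) = (ρ x * x⁻¹) ^ a * t) : t = 1 := by
  have hzc : ∀ (k : ℕ) (y : P), t ^ k * y = y * t ^ k := fun k y =>
    ((show Commute t y from htc y).pow_left k)
  set u := ρ x * x⁻¹ with hudef
  have hmulp : ∀ (k : ℕ), (u ^ a * t) ^ k = u ^ (a * k) * t ^ k := by
    intro k
    rw [((show Commute t (u ^ a) from htc _).symm).mul_pow, ← pow_mul]
  have hk : ∀ k, (ρ^[k]) x * x⁻¹ = u ^ gA a k * t ^ hA a k := by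
    intro k
    induction k with
    | zero => simp [gA, hA]
    | succ k ih =>
      have h1 : (ρ^[k + 1]) x * x⁻¹ = ρ ((ρ^[k]) x * x⁻¹) * u := by
        rw [Function.iterate_succ_apply', map_mul, map_inv, hudef]
        group
      rw [h1, ih, map_mul, map_pow, map_pow, hu, hρt, hmulp, gA, hA, mul_assoc, mul_assoc,
        ← mul_assoc (t ^ gA a k), ← pow_add, hzc, ← mul_assoc, ← pow_succ]
      congr 2
      ring
  have hk' := hk (l - 1)
  rw [hρ, mul_inv_cancel] at hk'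
  have hlZ : Prime (l : ℤ) := Nat.prime_iff_prime_int.1 hl
  have ha1' : ¬ (l : ℤ) ∣ (a : ℤ) - 1 := by
    intro hd
    apply ha1
    have := (Int.modEq_iff_dvd.2 hd).symm
    exact_mod_cast this
  have hcop : IsCoprime ((l : ℤ) ^ e) ((a : ℤ) - 1) :=
    IsCoprime.pow_left ((hlZ.coprime_iff_not_dvd).2 ha1')
  have hge : (l : ℤ) ^ e ∣ (gA a (l - 1) : ℤ) := by
    apply hcop.dvd_of_dvd_mul_left
    rw [gA_id]
    have := (Int.natCast_modEq_iff.2 ha).symm.dvd
    push_cast at this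
    exact this
  have hug : u ^ gA a (l - 1) = 1 := by
    have : l ^ e ∣ gA a (l - 1) := by exact_mod_cast hge
    exact pow_of_dvd (hcard.trans this) u
  rw [hug, one_mul] at hk'
  by_contra ht
  have : Fact l.Prime := ⟨hl⟩
  have hord : orderOf t = l := orderOf_eq_prime htl ht
  have h1 : l ∣ hA a (l - 1) := by
    have h0 := orderOf_dvd_of_pow_eq_one hk'.symm
    rwa [hord] at h0
  have h2 : (l : ℤ) ∣ ((a : ℤ) - 1) * (hA a (l - 1) : ℤ) :=
    Dvd.dvd.mul_left (by exact_mod_cast h1) _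
  rw [hA_id] at h2
  have h3 : (l : ℤ) ∣ (gA a (l - 1) : ℤ) := (dvd_pow_self (l : ℤ) (by omega)).trans hge
  have h4 : (l : ℤ) ∣ ((l - 1 : ℕ) : ℤ) := by
    have := dvd_sub h3 h2
    simpa using this
  have h5 : l ∣ l - 1 := by exact_mod_cast h4
  have h6 := Nat.le_of_dvd (by have := hl.one_lt; omega) h5
  have := hl.one_lt
  omega

/-- Case `ν = a`. -/
theorem caseB {P : Type*} [Group P] [Finite P] {l e : ℕ} (hl : l.Prime)
    (hcard : Nat.card P ∣ l ^ e) (ρ : P →* P) (hρ : ∀ x, (ρ^[l - 1]) x = x) (a : ℕ)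
    (ha : a ^ (l - 1) ≡ 1 [MOD l ^ e]) (hal : ¬ l ∣ a) (u t : P)
    (htc : ∀ y, t * y = y * t) (htl : t ^ l = 1) (hρt : ρ t = t ^ a)
    (hu : ρ u = u ^ a * t) : t = 1 := by
  have hzc : ∀ (k : ℕ) (y : P), t ^ k * y = y * t ^ k := fun k y =>
    ((show Commute t y from htc y).pow_left k)
  have hmulp : ∀ (k : ℕ), (u ^ a * t) ^ k = u ^ (a * k) * t ^ k := by
    intro k
    rw [((show Commute t (u ^ a) from htc _).symm).mul_pow, ← pow_mul]
  have hk : ∀ k, (ρ^[k]) u = u ^ (a ^ k) * t ^ hB a k := by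
    intro k
    induction k with
    | zero => simp [hB]
    | succ k ih =>
      rw [Function.iterate_succ_apply', ih, map_mul, map_pow, map_pow, hu, hρt, hmulp, hB,
        mul_assoc, ← pow_mul, ← pow_add, ← pow_succ']
      congr 2
      ring
  have h1 := hk (l - 1)
  rw [hρ, pow_eq_of_modEq hcard u ha, pow_one] at h1
  have h2 : t ^ hB a (l - 1) = 1 := by
    have := congrArg (fun y => u⁻¹ * y) h1
    simpa using this.symm
  by_contra ht
  have : Fact l.Prime := ⟨hl⟩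
  have hord : orderOf t = l := orderOf_eq_prime htl ht
  have h3 : l ∣ hB a (l - 1) := by
    have h0 := orderOf_dvd_of_pow_eq_one h2
    rwa [hord] at h0
  have h4 : l ∣ (l - 1) * a ^ (l - 1) := by
    rw [← hB_id]
    exact Dvd.dvd.mul_left h3 a
  rcases (hl.dvd_mul).1 h4 with h5 | h5
  · have h6 := Nat.le_of_dvd (by have := hl.one_lt; omega) h5
    have := hl.one_lt
    omega
  · exact hal (hl.dvd_of_dvd_pow h5)

/-- `Nat.card P ≤ n` version of the core, see `COR`. -/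
theorem main {l e : ℕ} (hl : l.Prime) (a : ℕ) (ha : a ^ (l - 1) ≡ 1 [MOD l ^ e])
    (ha2 : ¬ a ^ 2 ≡ 1 [MOD l]) (n : ℕ) : ∀ (P : Type u) [Group P] [Finite P] (ρ : P →* P),
    Nat.card P ≤ n → Nat.card P ∣ l ^ e → (∀ x, (ρ^[l - 1]) x = x) →
    (∀ (x : P) (c : ℕ), c ^ (l - 1) ≡ 1 [MOD l ^ e] → (∀ b, ρ b = b → x * b = b * x) →
      ρ x = x ^ c → x = 1 ∨ c ≡ 1 [MOD l] ∨ c ≡ a [MOD l]) →
    (∀ u ∈ Qr ρ, ∀ v ∈ Qr ρ, u * v = v * u) ∧ ∀ u ∈ Qr ρ, ρ u = u ^ a := by
  have hlf : Fact l.Prime := ⟨hl⟩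
  induction n with
  | zero =>
    intro P _ _ ρ h0
    have := Nat.card_pos (α := P)
    omega
  | succ n ih =>
    intro P _ _ ρ hn hcard hρ hstar
    rcases subsingleton_or_nontrivial P with hs | hnt
    · exact ⟨fun u _ v _ => Subsingleton.elim _ _, fun u _ => Subsingleton.elim _ _⟩
    have hP : IsPGroup l P := by
      obtain ⟨k, _, hk⟩ := (Nat.dvd_prime_pow hl).1 hcard
      exact IsPGroup.of_card hk
    have he : 1 ≤ e := by
      rcases Nat.eq_zero_or_pos e with h0 | h0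
      · rw [h0, pow_zero, Nat.dvd_one] at hcard
        exact absurd hcard (Finite.one_lt_card_iff_nontrivial.2 hnt).ne'
      · exact h0
    have ha1 : ¬ a ≡ 1 [MOD l] := by
      intro h
      apply ha2
      simpa using h.pow 2
    have hal1 : a ^ (l - 1) ≡ 1 [MOD l] := ha.of_dvd (dvd_pow_self l (by omega))
    have hal : ¬ l ∣ a := by
      intro hd
      have h1 : l ∣ a ^ (l - 1) := hd.trans (dvd_pow_self a (by have := hl.one_lt; omega))
      have h2 : (1 : ℕ) ≡ 0 [MOD l] := hal1.symm.trans (Nat.modEq_zero_iff_dvd.2 h1)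
      exact hl.one_lt.ne' (Nat.dvd_one.1 (Nat.modEq_zero_iff_dvd.1 h2))
    have hinj : Function.Injective ρ := by
      intro x y hxy
      have h1 : (ρ^[l - 1]) x = (ρ^[l - 1]) y := by
        rw [show l - 1 = (l - 1 - 1) + 1 by have := hl.one_lt; omega, Function.iterate_succ_apply,
          Function.iterate_succ_apply, hxy]
      rw [hρ, hρ] at h1
      exact h1
    obtain ⟨n0, hn1, hnc, hnl, ν0, hν0⟩ := EIG hl hP ρ hρ
    -- the Teichmüller representative of the eigenvalue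
    obtain ⟨ν, hν, hνp⟩ : ∃ ν : ℕ, ρ n0 = n0 ^ ν ∧ ν ^ (l - 1) ≡ 1 [MOD l ^ e] := by
      have hν0l : ¬ l ∣ ν0 := by
        rintro ⟨k, rfl⟩
        rw [pow_mul, hnl, one_pow, ← map_one ρ] at hν0
        exact hn1 (hinj hν0)
      refine ⟨ν0 ^ (l ^ e), ?_, ?_⟩
      · rw [hν0]
        rw [pow_eq_pow_iff_modEq, orderOf_eq_prime hnl hn1]
        have h1 : ((ν0 ^ (l ^ e) : ℕ) : ZMod l) = (ν0 : ZMod l) := by
          push_cast
          exact ZMod.pow_card_pow _
        exact ((ZMod.natCast_eq_natCast_iff _ _ _).1 h1).symm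
      · rw [← pow_mul]
        have hco : Nat.Coprime ν0 (l ^ (e + 1)) :=
          ((hl.coprime_iff_not_dvd.2 hν0l).symm).pow_right _
        have h1 := Nat.ModEq.pow_totient hco
        rw [Nat.totient_prime_pow_succ hl] at h1
        exact h1.of_dvd (pow_dvd_pow l (by omega))
    have hν1a : ν ≡ 1 [MOD l] ∨ ν ≡ a [MOD l] := by
      rcases hstar n0 ν hνp (fun b _ => (Subgroup.mem_center_iff.1 hnc b).symm) hν with h | h
      · exact absurd h hn1
      · exact h
    let N : Subgroup P := Subgroup.zpowers n0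
    have hNz : ∀ z ∈ N, (∀ y, z * y = y * z) ∧ z ^ l = 1 ∧ ρ z = z ^ ν := by
      intro z hz
      obtain ⟨k, rfl⟩ := Subgroup.mem_zpowers_iff.1 hz
      refine ⟨fun y => ?_, ?_, ?_⟩
      · exact ((show Commute n0 y from (Subgroup.mem_center_iff.1 hnc y).symm).zpow_left k)
      · rw [← zpow_natCast, ← zpow_mul, mul_comm, zpow_mul, zpow_natCast, hnl, one_zpow]
      · rw [map_zpow, hν, ← zpow_natCast, ← zpow_natCast, ← zpow_mul, ← zpow_mul, mul_comm]
    have hNn : N.Normal := ⟨fun z hz g => by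
      rw [← (hNz z hz).1 g, mul_assoc, mul_inv_cancel, mul_one]
      exact hz⟩
    have hNc : N ≤ N.comap ρ := by
      intro z hz
      rw [Subgroup.mem_comap, (hNz z hz).2.2]
      exact pow_mem hz ν
    have hord : orderOf n0 = l := orderOf_eq_prime hnl hn1
    -- powers of elements of `N`
    have hNpow : ∀ z ∈ N, ∀ i j : ℕ, z ^ i = z ^ j → ¬ i ≡ j [MOD l] → z = 1 := by
      intro z hz i j hij hne
      by_contra hz1
      apply hne
      rw [← orderOf_eq_prime (hNz z hz).2.1 hz1]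
      exact (pow_eq_pow_iff_modEq).1 hij
    let ρ' : P ⧸ N →* P ⧸ N := QuotientGroup.map N N ρ hNc
    have hρ' : ∀ x : P, ρ' (x : P ⧸ N) = ((ρ x : P) : P ⧸ N) := fun x => rfl
    have hρ'k : ∀ (k : ℕ) (x : P), (ρ'^[k]) (x : P ⧸ N) = (((ρ^[k]) x : P) : P ⧸ N) := by
      intro k
      induction k with
      | zero => intro x; rfl
      | succ k ihk => intro x; rw [Function.iterate_succ_apply', ihk, hρ',
          Function.iterate_succ_apply']
    have hcardN : Nat.card N = l := by rw [← hord]; exact Nat.card_zpowers n0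
    have hcardQ : Nat.card P = Nat.card (P ⧸ N) * l := by
      rw [← hcardN]
      exact Subgroup.card_eq_card_quotient_mul_card_subgroup N
    have hq := ih (P ⧸ N) ρ' (by
        have h1 : 0 < Nat.card (P ⧸ N) := Nat.card_pos
        have h2 := hl.two_le
        nlinarith) ((Dvd.intro _ hcardQ.symm).trans hcard) (by
        intro x
        induction x using QuotientGroup.induction_on with
        | H x => rw [hρ'k, hρ]) (by
        intro xq c hc hxq hρx
        obtain ⟨x, rfl⟩ := QuotientGroup.mk_surjective xq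
        by_cases hcν : c ≡ ν [MOD l]
        · exact Or.inr (hν1a.imp (fun h => hcν.trans h) (fun h => hcν.trans h))
        -- adjust `x` by an element of `N`
        have hxc : ∃ k : ℤ, ρ x = x ^ c * n0 ^ k := by
          rw [hρ'] at hρx
          have h1 : (((x ^ c : P)) : P ⧸ N) = ((ρ x : P) : P ⧸ N) := hρx.symm
          rw [QuotientGroup.eq] at h1
          obtain ⟨k, hk⟩ := Subgroup.mem_zpowers_iff.1 h1
          exact ⟨k, by rw [hk]; group⟩
        obtain ⟨k, hk⟩ := hxc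
        obtain ⟨j, hj⟩ : ∃ j : ℤ, (l : ℤ) ∣ k + ν * j - c * j := by
          have hlZ : Prime (l : ℤ) := Nat.prime_iff_prime_int.1 hl
          have h1 : ¬ (l : ℤ) ∣ (c : ℤ) - ν := by
            intro hd
            apply hcν
            have := (Int.modEq_iff_dvd.2 hd).symm
            exact_mod_cast this
          obtain ⟨u, v, huv⟩ := (hlZ.coprime_iff_not_dvd).2 h1
          refine ⟨v * k, ⟨u * k, ?_⟩⟩
          linear_combination (-k) * huv
        have hcomm : ∀ (i : ℤ) (y : P), n0 ^ i * y = y * n0 ^ i := fun i y =>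
          ((show Commute n0 y from (Subgroup.mem_center_iff.1 hnc y).symm).zpow_left i)
        have hx' : ρ (x * n0 ^ j) = (x * n0 ^ j) ^ c := by
          rw [map_mul, map_zpow, hk, hν, ((show Commute x (n0 ^ j) from
            (hcomm j x).symm)).mul_pow, mul_assoc]
          congr 1
          rw [← zpow_natCast, ← zpow_natCast, ← zpow_mul, ← zpow_mul, ← zpow_add]
          have h2 : n0 ^ (k + ν * j - c * j) = 1 := by
            rw [← orderOf_dvd_iff_zpow_eq_one, hord]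
            exact hj
          have h3 : k + (ν : ℤ) * j = (k + ν * j - c * j) + j * c := by ring
          rw [h3, zpow_add, h2, one_mul]
        have hxN : ∀ y : P, ((x * n0 ^ j : P) : P ⧸ N) = (x : P ⧸ N) := by
          intro _
          rw [eq_comm, QuotientGroup.eq]
          rw [← mul_assoc, inv_mul_cancel, one_mul]
          exact Subgroup.zpow_mem_zpowers n0 j
        have hfin := hstar (x * n0 ^ j) c hc (by
          intro b hb
          have h1 : ((x : P ⧸ N)) * (b : P ⧸ N) = (b : P ⧸ N) * (x : P ⧸ N) := by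
            apply hxq
            rw [hρ', hb]
          rw [← hxN b] at h1
          have h2 : ((b * (x * n0 ^ j) : P) : P ⧸ N) = (((x * n0 ^ j) * b : P) : P ⧸ N) := h1.symm
          rw [QuotientGroup.eq] at h2
          set x' := x * n0 ^ j with hx'def
          set z := (b * x')⁻¹ * (x' * b) with hz
          have hxz : x' * b = b * x' * z := by rw [hz]; group
          have h3 : x' ^ c * b = b * x' ^ c * z ^ c := comm_pow1 (hNz z h2).1 hxz c
          have h4 := congrArg ρ hxz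
          rw [map_mul ρ x' b, map_mul ρ (b * x') z, map_mul ρ b x', hx', hb, (hNz z h2).2.2,
            h3] at h4
          have h5 : z ^ c = z ^ ν := mul_left_cancel h4
          have h6 := hNpow z h2 c ν h5 hcν
          rw [hxz, h6, mul_one]) hx'
        rcases hfin with h | h
        · left
          rw [← hxN x, h]
          rfl
        · exact Or.inr h)
    obtain ⟨hqab, hqpow⟩ := hq
    have hmap : ∀ u ∈ Qr ρ, ((u : P) : P ⧸ N) ∈ Qr ρ' := by
      intro u hu
      induction hu using Subgroup.closure_induction with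
      | mem u hu =>
        obtain ⟨x, rfl⟩ := hu
        exact Subgroup.subset_closure ⟨(x : P ⧸ N), rfl⟩
      | one => exact one_mem _
      | mul x y _ _ hx hy => exact mul_mem hx hy
      | inv x _ hx => exact inv_mem hx
    -- the error terms lie in `N`
    have ht : ∀ u ∈ Qr ρ, ∃ t ∈ N, ρ u = u ^ a * t := by
      intro u hu
      have h1 := hqpow _ (hmap u hu)
      rw [hρ'] at h1
      have h2 : ((u ^ a : P) : P ⧸ N) = ((ρ u : P) : P ⧸ N) := h1.symm
      rw [QuotientGroup.eq] at h2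
      exact ⟨_, h2, by group⟩
    have hab : ∀ u ∈ Qr ρ, ∀ v ∈ Qr ρ, u * v = v * u := by
      intro u hu v hv
      have h1 : ((v * u : P) : P ⧸ N) = ((u * v : P) : P ⧸ N) :=
        (hqab _ (hmap u hu) _ (hmap v hv)).symm
      rw [QuotientGroup.eq] at h1
      set z := (v * u)⁻¹ * (u * v) with hz
      have huz : u * v = v * u * z := by rw [hz]; group
      obtain ⟨t, htN, htu⟩ := ht u hu
      obtain ⟨s, hsN, hsv⟩ := ht v hv
      have h2 := congrArg ρ huz
      rw [map_mul, map_mul, map_mul, htu, hsv, (hNz z h1).2.2] at h2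
      have h3 : u ^ a * t * (v ^ a * s) = v ^ a * u ^ a * z ^ (a * a) * (t * s) := by
        rw [← comm_pow (hNz z h1).1 huz a a]
        calc u ^ a * t * (v ^ a * s) = u ^ a * (t * v ^ a) * s := by simp only [mul_assoc]
          _ = u ^ a * v ^ a * (t * s) := by rw [(hNz t htN).1]; simp only [mul_assoc]
      have h4 : v ^ a * s * (u ^ a * t) * z ^ ν = v ^ a * u ^ a * z ^ ν * (t * s) := by
        calc v ^ a * s * (u ^ a * t) * z ^ ν = v ^ a * (s * u ^ a) * (t * z ^ ν) := by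
              simp only [mul_assoc]
          _ = v ^ a * (u ^ a * s) * (z ^ ν * t) := by
              rw [(hNz s hsN).1, (hNz t htN).1 (z ^ ν)]
          _ = v ^ a * u ^ a * (s * z ^ ν) * t := by simp only [mul_assoc]
          _ = v ^ a * u ^ a * (z ^ ν * s) * t := by rw [(hNz s hsN).1 (z ^ ν)]
          _ = v ^ a * u ^ a * z ^ ν * (s * t) := by simp only [mul_assoc]
          _ = v ^ a * u ^ a * z ^ ν * (t * s) := by rw [(hNz s hsN).1 t]
      rw [h3, h4] at h2
      have h5 : z ^ (a * a) = z ^ ν := mul_left_cancel (mul_right_cancel h2)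
      have h6 : z = 1 := by
        apply hNpow z h1 _ _ h5
        intro hmod
        rcases hν1a with h7 | h7
        · apply ha2
          rw [pow_two]
          exact hmod.trans h7
        · apply ha1
          have h8 : a * a ≡ a * 1 [MOD l] := by rw [mul_one]; exact hmod.trans h7
          exact Nat.ModEq.cancel_left_of_coprime
            ((hl.coprime_iff_not_dvd).2 hal) h8
      rw [huz, h6, mul_one]
    refine ⟨hab, ?_⟩
    have hgen : ∀ x : P, ρ (ρ x * x⁻¹) = (ρ x * x⁻¹) ^ a := by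
      intro x
      obtain ⟨t, htN, htu⟩ := ht (ρ x * x⁻¹) (Subgroup.subset_closure ⟨x, rfl⟩)
      have htρ := (hNz t htN).2.2
      have ht1 : t = 1 := by
        rcases hν1a with h7 | h7
        · refine caseA hl he hcard ρ hρ a ha ha1 x t (hNz t htN).1 (hNz t htN).2.1 ?_ htu
          rw [htρ]
          by_cases ht1 : t = 1
          · rw [ht1, one_pow]
          · nth_rewrite 2 [← pow_one t]
            rw [pow_eq_pow_iff_modEq, orderOf_eq_prime (hNz t htN).2.1 ht1]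
            exact h7
        · refine caseB hl hcard ρ hρ a ha hal _ t (hNz t htN).1 (hNz t htN).2.1 ?_ htu
          rw [htρ]
          by_cases ht1 : t = 1
          · rw [ht1, one_pow, one_pow]
          · rw [pow_eq_pow_iff_modEq, orderOf_eq_prime (hNz t htN).2.1 ht1]
            exact h7
      rw [htu, ht1, mul_one]
    intro u hu
    induction hu using Subgroup.closure_induction with
    | mem u hu =>
      obtain ⟨x, rfl⟩ := hu
      exact hgen x
    | one => rw [map_one, one_pow]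
    | mul x y hx hy ihx ihy =>
      rw [map_mul, ihx, ihy, ((show Commute x y from hab x hx y hy)).mul_pow]
    | inv x _ ihx => rw [map_inv, ihx, inv_pow]

end CORM

open CORM in
/-- **The core of L2 (c)**: `ρ` an automorphism of the `l`-group `P` with `ρ ^ (l - 1) = 1`; `a` a
Teichmüller representative with `a ^ 2 ≠ 1` modulo `l`; every `x` which commutes with `C_P(ρ)` and
on which `ρ` is the power `c` has `x = 1`, `c = 1` or `c = a` modulo `l`. Then `[P, ρ]` is abelian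
and `ρ` is the power map `a` on it. -/
theorem COR {l e : ℕ} (hl : l.Prime) (a : ℕ) (ha : a ^ (l - 1) ≡ 1 [MOD l ^ e])
    (ha2 : ¬ a ^ 2 ≡ 1 [MOD l]) (P : Type u) [Group P] [Finite P] (ρ : P →* P)
    (hcard : Nat.card P ∣ l ^ e) (hρ : ∀ x, (ρ^[l - 1]) x = x)
    (hstar : ∀ (x : P) (c : ℕ), c ^ (l - 1) ≡ 1 [MOD l ^ e] → (∀ b, ρ b = b → x * b = b * x) →
      ρ x = x ^ c → x = 1 ∨ c ≡ 1 [MOD l] ∨ c ≡ a [MOD l]) :
    (∀ u ∈ Qr ρ, ∀ v ∈ Qr ρ, u * v = v * u) ∧ ∀ u ∈ Qr ρ, ρ u = u ^ a :=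
  main hl a ha ha2 (Nat.card P) P ρ le_rfl hcard hρ hstar

end Pool.Agent.Lib.MPbe1941.XF
end

section
/-!
# MP_be1941_al, exact version, foundations: L1 (Thompson's A x B lemma)

`P` a finite `l`-group, `B` an `l`-group acting on `P`, `α` an automorphism of `P` of order prime
to `l` commuting with the action of `B`. If `α` is trivial on `C_P(B)` then `α = 1`.
-/
set_option autoImplicit false

namespace Pool.Agent.Lib.MPbe1941.XF

open Subgroup

namespace L1M

variable {P : Type*} [Group P]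

/-- Fixed points of an endomorphism. -/
def fx (α : P →* P) : Subgroup P where
  carrier := {x | α x = x}
  one_mem' := map_one α
  mul_mem' := by
    intro a b ha hb
    show α (a * b) = a * b
    rw [map_mul, show α a = a from ha, show α b = b from hb]
  inv_mem' := by
    intro a ha
    show α a⁻¹ = a⁻¹
    rw [map_inv, show α a = a from ha]

theorem mem_fx {α : P →* P} {x : P} : x ∈ fx α ↔ α x = x := Iff.rfl

theorem iter {α : P →* P} {x y : P} (hy : α y = y) (hx : α x = y * x) (k : ℕ) :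
    (α^[k]) x = y ^ k * x := by
  induction k with
  | zero => simp
  | succ n ih =>
    rw [Function.iterate_succ_apply', ih, map_mul, map_pow, hy, hx, pow_succ]
    group

end L1M

open L1M in
/-- **L1**, Thompson's `A × B` lemma, for one automorphism `α` with `α^m = 1`, `l ∤ m`. -/
theorem L1 {P : Type*} [Group P] [Finite P] {B : Type*} [Group B] [MulDistribMulAction B P]
    {l : ℕ} (hl : l.Prime) (hP : IsPGroup l P) (hB : IsPGroup l B) (α : P →* P) (m : ℕ)
    (hm : ∀ x, (α^[m]) x = x) (hml : ¬ l ∣ m) (hc : ∀ (b : B) (x : P), α (b • x) = b • α x)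
    (h : ∀ x : P, (∀ b : B, b • x = x) → α x = x) : ∀ x, α x = x := by
  classical
  have hlf : Fact l.Prime := ⟨hl⟩
  by_contra hne
  push Not at hne
  obtain ⟨x0, hx0⟩ := hne
  have hF : ∀ (b : B) (x : P), x ∈ fx α → b • x ∈ fx α := by
    intro b x hx
    rw [mem_fx] at hx ⊢
    rw [hc, hx]
  -- the action of `B` on the cosets of the fixed points
  let act : MulAction B (P ⧸ fx α) :=
    { smul := fun b q => Quotient.liftOn' q (fun x => ((b • x : P) : P ⧸ fx α)) (by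
        intro x y hxy
        rw [QuotientGroup.leftRel_apply] at hxy
        show ((b • x : P) : P ⧸ fx α) = ((b • y : P) : P ⧸ fx α)
        rw [QuotientGroup.eq, ← smul_inv', ← smul_mul']
        exact hF b _ hxy)
      one_smul := by
        intro q
        induction q using QuotientGroup.induction_on with
        | H x =>
          show (((1 : B) • x : P) : P ⧸ fx α) = (x : P ⧸ fx α)
          rw [one_smul]
      mul_smul := by
        intro b c q
        induction q using QuotientGroup.induction_on with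
        | H x =>
          show (((b * c) • x : P) : P ⧸ fx α) = ((b • (c • x) : P) : P ⧸ fx α)
          rw [mul_smul] }
  have hsm : ∀ (b : B) (x : P), b • (x : P ⧸ fx α) = ((b • x : P) : P ⧸ fx α) := fun _ _ => rfl
  have hmod := hB.card_modEq_card_fixedPoints (α := P ⧸ fx α)
  have hne1 : Nat.card (P ⧸ fx α) ≠ 1 := by
    intro h1
    have : fx α = ⊤ := by
      rw [← Subgroup.index_eq_one]
      exact h1
    exact hx0 (mem_fx.1 (this ▸ Subgroup.mem_top x0))
  have hdvd : l ∣ Nat.card (P ⧸ fx α) := by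
    have hd : (fx α).index ∣ Nat.card P := Subgroup.index_dvd_card _
    obtain ⟨n, hn⟩ := (IsPGroup.iff_card).1 hP
    rw [hn] at hd
    obtain ⟨k, hk, hk'⟩ := (Nat.dvd_prime_pow hl).1 hd
    have : Nat.card (P ⧸ fx α) = l ^ k := hk'
    rw [this] at hne1 ⊢
    exact dvd_pow_self l (by rintro rfl; exact hne1 (pow_zero l))
  have hdf : l ∣ Nat.card (MulAction.fixedPoints B (P ⧸ fx α)) :=
    (Nat.modEq_zero_iff_dvd.1 ((hmod.symm).trans (Nat.modEq_zero_iff_dvd.2 hdvd)))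
  have h1f : ((1 : P) : P ⧸ fx α) ∈ MulAction.fixedPoints B (P ⧸ fx α) := by
    intro b
    rw [hsm, smul_one]
  have hfin : Finite (MulAction.fixedPoints B (P ⧸ fx α)) := inferInstance
  have hpos : 0 < Nat.card (MulAction.fixedPoints B (P ⧸ fx α)) :=
    Nat.card_pos_iff.2 ⟨⟨⟨_, h1f⟩⟩, hfin⟩
  have hgt : 1 < Nat.card (MulAction.fixedPoints B (P ⧸ fx α)) :=
    lt_of_lt_of_le hl.one_lt (Nat.le_of_dvd hpos hdf)
  have hnt : Nontrivial (MulAction.fixedPoints B (P ⧸ fx α)) :=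
    (Finite.one_lt_card_iff_nontrivial).1 hgt
  obtain ⟨⟨q, hq⟩, hqne⟩ := exists_ne (⟨_, h1f⟩ : MulAction.fixedPoints B (P ⧸ fx α))
  obtain ⟨x, rfl⟩ := QuotientGroup.mk_surjective q
  have hxF : x ∉ fx α := by
    intro hx
    apply hqne
    apply Subtype.ext
    show (x : P ⧸ fx α) = ((1 : P) : P ⧸ fx α)
    rw [eq_comm, QuotientGroup.eq]
    simpa using hx
  have hfb : ∀ b : B, x⁻¹ * (b • x) ∈ fx α := by
    intro b
    have := hq b
    rw [hsm, eq_comm, QuotientGroup.eq] at this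
    exact this
  have hy : ∀ b : B, b • (α x * x⁻¹) = α x * x⁻¹ := by
    intro b
    have h1 := mem_fx.1 (hfb b)
    rw [map_mul, map_inv, hc] at h1
    have h2 : b • α x = α x * (x⁻¹ * b • x) := by
      rw [← h1]
      group
    rw [smul_mul', smul_inv', h2]
    group
  have hy2 : α (α x * x⁻¹) = α x * x⁻¹ := h _ hy
  have hit := iter hy2 (x := x) (by group) m
  rw [hm] at hit
  have hy3 : (α x * x⁻¹) ^ m = 1 := by
    have := congrArg (· * x⁻¹) hit
    simpa using this.symm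
  obtain ⟨k, hk⟩ := hP (α x * x⁻¹)
  have hy4 : α x * x⁻¹ = 1 := by
    have hco : Nat.Coprime m (l ^ k) :=
      ((hl.coprime_iff_not_dvd.2 hml).symm).pow_right k
    have h1 : orderOf (α x * x⁻¹) ∣ m := orderOf_dvd_of_pow_eq_one hy3
    have h2 : orderOf (α x * x⁻¹) ∣ l ^ k := orderOf_dvd_of_pow_eq_one hk
    have h3 : orderOf (α x * x⁻¹) ∣ 1 := by
      rw [← hco.gcd_eq_one]
      exact Nat.dvd_gcd h1 h2
    exact orderOf_eq_one_iff.1 (Nat.dvd_one.1 h3)
  exact hxF (mem_fx.2 (mul_inv_eq_one.1 hy4))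

end Pool.Agent.Lib.MPbe1941.XF
end

section
/-!
# MP_be1941_al, exact version, foundations: L2 (ambient form)
-/
set_option autoImplicit false

namespace Pool.Agent.Lib.MPbe1941.XF

namespace L2M

open Subgroup

/-- Conjugation by an element which normalises `P`. -/
def cj {G : Type*} [Group G] (P : Subgroup G) (ρ : G) (h : ∀ x ∈ P, ρ * x * ρ⁻¹ ∈ P) : P →* P where
  toFun x := ⟨ρ * x * ρ⁻¹, h x x.2⟩
  map_one' := by ext; simp
  map_mul' := by intro x y; ext; simp

theorem cj_pow {G : Type*} [Group G] (P : Subgroup G) (ρ : G) (h : ∀ x ∈ P, ρ * x * ρ⁻¹ ∈ P)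
    (k : ℕ) (x : P) : (((cj P ρ h)^[k] x : P) : G) = ρ ^ k * x * (ρ ^ k)⁻¹ := by
  induction k with
  | zero => simp
  | succ k ih =>
    rw [Function.iterate_succ_apply']
    show ρ * (((cj P ρ h)^[k] x : P) : G) * ρ⁻¹ = _
    rw [ih, pow_succ']
    group

theorem pow_norm {G : Type*} [Group G] {P : Subgroup G} {ρ : G} (h : ∀ x ∈ P, ρ * x * ρ⁻¹ ∈ P)
    (k : ℕ) : ∀ x ∈ P, ρ ^ k * x * (ρ ^ k)⁻¹ ∈ P := by
  intro x hx
  have := ((cj P ρ h)^[k] ⟨x, hx⟩).2
  rw [cj_pow] at this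
  exact this

/-- **L1**, ambient form for one element `ρ` of order prime to `l`. -/
theorem L1amb {G : Type*} [Group G] [Finite G] {l : ℕ} (hl : l.Prime) (P B : Subgroup G) (ρ : G)
    (hP : IsPGroup l P) (hBP : B ≤ P) (hρP : ∀ x ∈ P, ρ * x * ρ⁻¹ ∈ P)
    (hρB : ∀ b ∈ B, ρ * b = b * ρ) (hol : ¬ l ∣ orderOf ρ)
    (h : ∀ x ∈ P, (∀ b ∈ B, b * x = x * b) → ρ * x = x * ρ) : ∀ x ∈ P, ρ * x = x * ρ := by
  let act : MulDistribMulAction B P :=
    { smul := fun b x => ⟨(b : G) * x * (b : G)⁻¹,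
        mul_mem (mul_mem (hBP b.2) x.2) (inv_mem (hBP b.2))⟩
      one_smul := by
        intro x; apply Subtype.ext
        show ((1 : B) : G) * x * ((1 : B) : G)⁻¹ = x
        simp
      mul_smul := by
        intro b c x; apply Subtype.ext
        show ((b * c : B) : G) * x * ((b * c : B) : G)⁻¹ = (b : G) * ((c : G) * x * (c : G)⁻¹) *
          (b : G)⁻¹
        rw [Subgroup.coe_mul]; group
      smul_one := by
        intro b; apply Subtype.ext
        show (b : G) * (1 : G) * (b : G)⁻¹ = 1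
        group
      smul_mul := by
        intro b x y; apply Subtype.ext
        show (b : G) * ((x : G) * (y : G)) * (b : G)⁻¹ =
          ((b : G) * x * (b : G)⁻¹) * ((b : G) * y * (b : G)⁻¹)
        group }
  have hB : IsPGroup l B := hP.to_le hBP
  have key := L1 hl hP hB (cj P ρ hρP) (orderOf ρ) (by
      intro x
      apply Subtype.ext
      rw [cj_pow, pow_orderOf_eq_one]
      simp) hol (by
      intro b x
      apply Subtype.ext
      show ρ * ((b : G) * x * (b : G)⁻¹) * ρ⁻¹ = (b : G) * (ρ * x * ρ⁻¹) * (b : G)⁻¹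
      have h1 := hρB b b.2
      have h2 : (b : G)⁻¹ * ρ⁻¹ = ρ⁻¹ * (b : G)⁻¹ := by
        rw [← mul_inv_rev, ← mul_inv_rev, h1]
      calc ρ * ((b : G) * x * (b : G)⁻¹) * ρ⁻¹ = (ρ * b) * x * ((b : G)⁻¹ * ρ⁻¹) := by group
        _ = (b * ρ) * x * (ρ⁻¹ * (b : G)⁻¹) := by rw [h1, h2]
        _ = _ := by group) (by
      intro x hx
      apply Subtype.ext
      show ρ * x * ρ⁻¹ = x
      rw [h x x.2 (by
        intro b hb
        have := congrArg Subtype.val (hx ⟨b, hb⟩)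
        have h3 : b * (x : G) * b⁻¹ = x := this
        exact mul_inv_eq_iff_eq_mul.1 h3)]
      group)
  intro x hx
  have h1 : ρ * x * ρ⁻¹ = x := congrArg Subtype.val (key ⟨x, hx⟩)
  exact mul_inv_eq_iff_eq_mul.1 h1

/-- `x b^n = x`-argument: `ρ` centralises `B` and acts trivially modulo `B`. -/
theorem triv_mod {G : Type*} [Group G] [Finite G] {l : ℕ} (hl : l.Prime) (B : Subgroup G) (ρ x b : G)
    (hB : IsPGroup l B) (hb : b ∈ B) (hρb : ρ * b = b * ρ) (hol : ¬ l ∣ orderOf ρ)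
    (h : ρ * x * ρ⁻¹ = x * b) : ρ * x = x * ρ := by
  have h1 : ∀ k : ℕ, ρ ^ k * x * (ρ ^ k)⁻¹ = x * b ^ k := by
    intro k
    induction k with
    | zero => simp
    | succ k ih =>
      calc ρ ^ (k + 1) * x * (ρ ^ (k + 1))⁻¹ = ρ * (ρ ^ k * x * (ρ ^ k)⁻¹) * ρ⁻¹ := by
            rw [pow_succ']; group
        _ = (ρ * x * ρ⁻¹) * (ρ * b ^ k * ρ⁻¹) := by rw [ih]; group
        _ = x * b ^ (k + 1) := by
            rw [h, ((show Commute ρ b from hρb).pow_right k).eq, pow_succ']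
            group
  have h2 := h1 (orderOf ρ)
  rw [pow_orderOf_eq_one] at h2
  have h3 : b ^ orderOf ρ = 1 := by
    have := congrArg (fun y => x⁻¹ * y) h2
    simpa using this.symm
  obtain ⟨k, hk⟩ := hB ⟨b, hb⟩
  have hk' : b ^ (l ^ k) = 1 := congrArg Subtype.val hk
  have h4 : orderOf b ∣ Nat.gcd (orderOf ρ) (l ^ k) :=
    Nat.dvd_gcd (orderOf_dvd_of_pow_eq_one h3) (orderOf_dvd_of_pow_eq_one hk')
  have h5 : Nat.Coprime (orderOf ρ) (l ^ k) := ((hl.coprime_iff_not_dvd.2 hol).symm).pow_right k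
  rw [h5.gcd_eq_one, Nat.dvd_one] at h4
  rw [orderOf_eq_one_iff.1 h4, mul_one] at h
  exact mul_inv_eq_iff_eq_mul.1 h

/-- `c ^ n = 1` modulo `l ^ k`, `c = 1` modulo `l`, `n` prime to `l` : `c = 1` modulo `l ^ k`. -/
theorem one_of_one {l : ℕ} (hl : l.Prime) (n k : ℕ) (hn : ¬ l ∣ n) (c : ℤ)
    (h1 : (l : ℤ) ^ k ∣ c ^ n - 1) (h2 : (l : ℤ) ∣ c - 1) : (l : ℤ) ^ k ∣ c - 1 := by
  have h3 : c ^ n - 1 = (∑ i ∈ Finset.range n, c ^ i) * (c - 1) := (geom_sum_mul c n).symm
  rw [h3] at h1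
  have hlZ : Prime (l : ℤ) := Nat.prime_iff_prime_int.1 hl
  have h4 : ¬ (l : ℤ) ∣ ∑ i ∈ Finset.range n, c ^ i := by
    intro hd
    have h5 : (∑ i ∈ Finset.range n, c ^ i) ≡ n [ZMOD (l : ℤ)] := by
      have h6 : ∀ i ∈ Finset.range n, c ^ i ≡ 1 [ZMOD (l : ℤ)] := by
        intro i _
        have h7 : c ≡ 1 [ZMOD (l : ℤ)] := (Int.modEq_iff_dvd.2 h2).symm
        simpa using h7.pow i
      have h8 := Int.ModEq.sum h6
      refine h8.trans ?_
      simp
    have h9 : (n : ℤ) ≡ 0 [ZMOD (l : ℤ)] := h5.symm.trans (Int.modEq_zero_iff_dvd.2 hd)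
    exact hn (by exact_mod_cast Int.modEq_zero_iff_dvd.1 h9)
  exact (IsCoprime.pow_left ((hlZ.coprime_iff_not_dvd).2 h4)).dvd_of_dvd_mul_left h1

end L2M

end Pool.Agent.Lib.MPbe1941.XF
end

section
/-!
# MP_be1941_al, exact version, foundations: L2 (c), ambient form (PROP, helper42)
-/
set_option autoImplicit false

namespace Pool.Agent.Lib.MPbe1941.XF

open L2M CORM

/-- Step 1: the quotient `N_P(B)/B` and the eigenvalue `a0` of `ρ` on it. -/
theorem L2step {G : Type*} [Group G] [Finite G] {l : ℕ} (hl : l.Prime) (P B : Subgroup G)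
    (ρ : G) (hP : IsPGroup l P) (hBP : B ≤ P) (hρP : ∀ x ∈ P, ρ * x * ρ⁻¹ ∈ P)
    (hρB : ∀ b ∈ B, ρ * b = b * ρ) (hol : ¬ l ∣ orderOf ρ) (hne : ∃ x ∈ P, ρ * x ≠ x * ρ)
    (g : G) (hgP : g ∈ P) (hgB : ∀ b, b ∈ B ↔ g * b * g⁻¹ ∈ B)
    (hgen : ∀ x ∈ P, (∀ b, b ∈ B ↔ x * b * x⁻¹ ∈ B) → ∃ n : ℤ, x * g ^ n ∈ B) :
    ∃ a0 : ℤ, ¬ (l : ℤ) ∣ a0 ∧
      (∀ j : ℕ, (l : ℤ) ∣ a0 ^ j - 1 → ∀ x ∈ P, ρ ^ j * x = x * ρ ^ j) ∧
      (∀ x ∈ P, (∀ b, b ∈ B ↔ x * b * x⁻¹ ∈ B) → x ∉ B → ∀ c : ℤ, ρ * x * ρ⁻¹ = x ^ c →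
        (l : ℤ) ∣ c - a0) := by
  classical
  have hlf : Fact l.Prime := ⟨hl⟩
  let NP : Subgroup G := P ⊓ Subgroup.normalizer (B : Set G)
  have hNPm : ∀ x, x ∈ NP ↔ x ∈ P ∧ ∀ b, b ∈ B ↔ x * b * x⁻¹ ∈ B := by
    intro x
    rw [Subgroup.mem_inf, Subgroup.mem_normalizer_iff]
  have hBNP : B ≤ NP := by
    intro b hb
    rw [hNPm]
    refine ⟨hBP hb, fun c => ⟨fun hc => mul_mem (mul_mem hb hc) (inv_mem hb), fun hc => ?_⟩⟩
    have := mul_mem (mul_mem (inv_mem hb) hc) hb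
    simpa [mul_assoc] using this
  have hρinv : ∀ b ∈ B, ρ⁻¹ * b * ρ = b := by
    intro b hb
    rw [mul_assoc, ← hρB b hb]; group
  have hρNP : ∀ x ∈ NP, ρ * x * ρ⁻¹ ∈ NP := by
    intro x hx
    rw [hNPm] at hx ⊢
    refine ⟨hρP x hx.1, fun b => ?_⟩
    have h1 : ∀ b ∈ B, ρ * x * ρ⁻¹ * b * (ρ * x * ρ⁻¹)⁻¹ = ρ * (x * b * x⁻¹) * ρ⁻¹ := by
      intro b hb
      calc ρ * x * ρ⁻¹ * b * (ρ * x * ρ⁻¹)⁻¹ = ρ * x * (ρ⁻¹ * b * ρ) * x⁻¹ * ρ⁻¹ := by group
        _ = ρ * (x * b * x⁻¹) * ρ⁻¹ := by rw [hρinv b hb]; group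
    constructor
    · intro hb
      rw [h1 b hb]
      have h2 := (hx.2 b).1 hb
      rw [hρB _ h2, mul_assoc, mul_inv_cancel, mul_one]
      exact h2
    · intro hb
      -- `x (ρ⁻¹ b ρ) x⁻¹` is in `B`
      have h3 : ρ * (x * (ρ⁻¹ * b * ρ) * x⁻¹) * ρ⁻¹ ∈ B := by
        have : ρ * (x * (ρ⁻¹ * b * ρ) * x⁻¹) * ρ⁻¹ = ρ * x * ρ⁻¹ * b * (ρ * x * ρ⁻¹)⁻¹ := by
          group
        rw [this]; exact hb
      have h4 : x * (ρ⁻¹ * b * ρ) * x⁻¹ ∈ B := by
        have h5 := hρinv _ h3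
        have h6 : ρ⁻¹ * (ρ * (x * (ρ⁻¹ * b * ρ) * x⁻¹) * ρ⁻¹) * ρ = x * (ρ⁻¹ * b * ρ) * x⁻¹ := by
          group
        rw [← h6, h5]; exact h3
      have h7 : ρ⁻¹ * b * ρ ∈ B := (hx.2 _).2 h4
      have h8 := hρB _ h7
      have h9 : ρ * (ρ⁻¹ * b * ρ) = b * ρ := by group
      rw [h9] at h8
      have h10 : b = ρ⁻¹ * b * ρ := mul_right_cancel h8
      rw [h10]; exact h7
  let BN : Subgroup NP := B.subgroupOf NP
  have hBNm : ∀ x : NP, x ∈ BN ↔ (x : G) ∈ B := fun x => Subgroup.mem_subgroupOf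
  have hBNn : BN.Normal := ⟨fun b hb x => by
    rw [hBNm] at hb ⊢
    exact (((hNPm x).1 x.2).2 b).1 hb⟩
  let π : NP →* NP ⧸ BN := QuotientGroup.mk' BN
  have hπ1 : ∀ x : NP, π x = 1 ↔ (x : G) ∈ B := by
    intro x
    rw [QuotientGroup.mk'_apply, QuotientGroup.eq_one_iff, hBNm]
  let gN : NP := ⟨g, (hNPm g).2 ⟨hgP, hgB⟩⟩
  have hπg : ∀ x : NP, ∃ n : ℤ, π x = π gN ^ n := by
    intro x
    obtain ⟨n, hn⟩ := hgen x ((hNPm x).1 x.2).1 ((hNPm x).1 x.2).2
    refine ⟨-n, ?_⟩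
    have h1 : π (x * gN ^ n) = 1 := (hπ1 _).2 (by
      rw [Subgroup.coe_mul, Subgroup.coe_zpow]; exact hn)
    rw [map_mul, map_zpow] at h1
    rw [zpow_neg]
    exact eq_inv_of_mul_eq_one_left h1
  let r : NP →* NP := cj NP ρ hρNP
  have hrB : ∀ x : NP, (x : G) ∈ B → r x = x := by
    intro x hx
    apply Subtype.ext
    show ρ * (x : G) * ρ⁻¹ = x
    rw [hρB _ hx]; group
  obtain ⟨a0, ha0⟩ := hπg (r gN)
  have hπr : ∀ x : NP, π (r x) = π x ^ a0 := by
    intro x
    obtain ⟨n, hn⟩ := hπg x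
    have h1 : ((x * gN ^ (-n) : NP) : G) ∈ B := by
      rw [← hπ1, map_mul, map_zpow, hn, zpow_neg, mul_inv_cancel]
    have h2 := hrB _ h1
    have h3 : r x = x * gN ^ (-n) * r gN ^ n := by
      rw [← h2, map_mul, map_zpow]
      group
    rw [h3, map_mul, map_mul, map_zpow, map_zpow, ha0, hn, zpow_neg, mul_inv_cancel, one_mul,
      ← zpow_mul, ← zpow_mul, mul_comm]
  have hπk : ∀ (j : ℕ) (x : NP), π (r^[j] x) = π x ^ (a0 ^ j) := by
    intro j
    induction j with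
    | zero => intro x; simp
    | succ j ih =>
      intro x
      rw [Function.iterate_succ_apply', hπr, ih, ← zpow_mul, pow_succ]
  have hcj : ∀ (j : ℕ) (x : NP), ((r^[j] x : NP) : G) = ρ ^ j * x * (ρ ^ j)⁻¹ :=
    fun j x => cj_pow NP ρ hρNP j x
  -- the order of `π g`
  have hNPp : IsPGroup l NP := hP.to_le inf_le_left
  obtain ⟨k, hk⟩ : ∃ k : ℕ, orderOf (π gN) = l ^ k := by
    obtain ⟨m, hm⟩ := hNPp gN
    have h1 : orderOf (π gN) ∣ l ^ m := orderOf_dvd_of_pow_eq_one (by rw [← map_pow, hm, map_one])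
    obtain ⟨k, _, hk⟩ := (Nat.dvd_prime_pow hl).1 h1
    exact ⟨k, hk⟩
  have hzp : ∀ c : ℤ, π gN ^ c = π gN → (l : ℤ) ^ k ∣ c - 1 := by
    intro c hc
    have h1 : π gN ^ (c - 1) = 1 := by rw [zpow_sub, hc, zpow_one, mul_inv_cancel]
    have h2 := orderOf_dvd_iff_zpow_eq_one.2 h1
    rw [hk] at h2
    exact_mod_cast h2
  have hn : (l : ℤ) ^ k ∣ a0 ^ (orderOf ρ) - 1 := by
    apply hzp
    rw [← hπk]
    congr 1
    apply Subtype.ext
    rw [hcj, pow_orderOf_eq_one]
    simp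
  -- `ρ ^ j` acts trivially on `N/B` implies that it centralises `P`
  have hcent : ∀ j : ℕ, (l : ℤ) ^ k ∣ a0 ^ j - 1 → ∀ x ∈ P, ρ ^ j * x = x * ρ ^ j := by
    intro j hj
    have hol' : ¬ l ∣ orderOf (ρ ^ j) := fun h => hol (h.trans (orderOf_pow_dvd j))
    have hρBj : ∀ b ∈ B, ρ ^ j * b = b * ρ ^ j := fun b hb =>
      ((show Commute ρ b from hρB b hb).pow_left j)
    have h1 : ∀ x ∈ NP, ρ ^ j * x = x * ρ ^ j := by
      intro x hx
      obtain ⟨m, hm⟩ := hπg ⟨x, hx⟩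
      have h2 : π (r^[j] ⟨x, hx⟩) = π ⟨x, hx⟩ := by
        rw [hπk]
        have h3 : π gN ^ (a0 ^ j - 1) = 1 := by
          rw [← orderOf_dvd_iff_zpow_eq_one, hk]
          exact_mod_cast hj
        have h4 : π ⟨x, hx⟩ ^ (a0 ^ j - 1) = 1 := by
          rw [hm, ← zpow_mul, mul_comm, zpow_mul, h3, one_zpow]
        rw [zpow_sub, zpow_one] at h4
        exact mul_inv_eq_one.1 h4
      have h5 : (((⟨x, hx⟩ : NP)⁻¹ * r^[j] ⟨x, hx⟩ : NP) : G) ∈ B := by
        rw [← hπ1, map_mul, map_inv, h2, inv_mul_cancel]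
      rw [Subgroup.coe_mul, Subgroup.coe_inv, hcj] at h5
      exact triv_mod hl B (ρ ^ j) x _ (hP.to_le hBP) h5 (hρBj _ h5) hol' (by group)
    refine L1amb hl P B (ρ ^ j) hP hBP (pow_norm hρP j) hρBj hol' ?_
    intro x hx hxB
    apply h1 x
    rw [hNPm]
    refine ⟨hx, fun b => ?_⟩
    constructor
    · intro hb
      rw [← hxB b hb, mul_assoc, mul_inv_cancel, mul_one]; exact hb
    · intro hb
      have h6 := hxB _ hb
      have h7 : x * b * x⁻¹ * x = x * (x * b * x⁻¹) := h6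
      have h8 : x * b = x * (x * b * x⁻¹) := by rw [← h7]; group
      have h9 : b = x * b * x⁻¹ := mul_left_cancel h8
      rw [h9]; exact hb
  have hk1 : 1 ≤ k := by
    rcases Nat.eq_zero_or_pos k with h0 | h0
    · exfalso
      obtain ⟨x, hx, hx'⟩ := hne
      have := hcent 1 (by rw [h0]; simp) x hx
      rw [pow_one] at this
      exact hx' this
    · exact h0
  have hlk : (l : ℤ) ∣ (l : ℤ) ^ k := dvd_pow_self _ (by omega)
  have ho0 : orderOf ρ ≠ 0 := (orderOf_pos ρ).ne'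
  have hla : ¬ (l : ℤ) ∣ a0 := by
    intro hd
    have h1 : (l : ℤ) ∣ a0 ^ orderOf ρ := hd.trans (dvd_pow_self a0 ho0)
    have h2 : (l : ℤ) ∣ 1 := by
      have := dvd_sub h1 (hlk.trans hn)
      simpa using this
    have h3 : l ∣ 1 := by exact_mod_cast h2
    exact hl.one_lt.ne' (Nat.dvd_one.1 h3)
  refine ⟨a0, hla, ?_, ?_⟩
  · intro j hj
    apply hcent j
    apply one_of_one hl (orderOf ρ) k hol _ _ hj
    have h1 : (a0 ^ j) ^ orderOf ρ - 1 = (a0 ^ orderOf ρ) ^ j - 1 ^ j := by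
      rw [← pow_mul, ← pow_mul, mul_comm, one_pow]
    rw [h1]
    exact hn.trans (sub_dvd_pow_sub_pow _ _ j)
  · intro x hx hxN hxB c hc
    have hxNP : x ∈ NP := (hNPm x).2 ⟨hx, hxN⟩
    have h1 : π ⟨x, hxNP⟩ ≠ 1 := by
      rw [Ne, hπ1]; exact hxB
    have h2 : π ⟨x, hxNP⟩ ^ (c - a0) = 1 := by
      have h3 := hπr ⟨x, hxNP⟩
      have h4 : r ⟨x, hxNP⟩ = (⟨x, hxNP⟩ : NP) ^ c := by
        apply Subtype.ext
        rw [Subgroup.coe_zpow]
        exact hc
      rw [h4, map_zpow] at h3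
      rw [zpow_sub, h3, mul_inv_cancel]
    have h5 := orderOf_dvd_iff_zpow_eq_one.2 h2
    obtain ⟨m, hm⟩ := hNPp ⟨x, hxNP⟩
    have h6 : orderOf (π ⟨x, hxNP⟩) ∣ l ^ m :=
      orderOf_dvd_of_pow_eq_one (by rw [← map_pow, hm, map_one])
    obtain ⟨i, _, hi⟩ := (Nat.dvd_prime_pow hl).1 h6
    have hi1 : i ≠ 0 := by
      rintro rfl
      rw [pow_zero, orderOf_eq_one_iff] at hi
      exact h1 hi
    rw [hi] at h5
    push_cast at h5
    exact (dvd_pow_self (l : ℤ) hi1).trans h5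

end Pool.Agent.Lib.MPbe1941.XF
end

section
/-!
# MP_be1941_al, exact version, foundations: L2 (c), final ambient form
-/
set_option autoImplicit false

namespace Pool.Agent.Lib.MPbe1941.XF

open L2M CORM

namespace L2M

/-- A generator which lies in the normaliser. -/
theorem gen_norm {G : Type*} [Group G] [Finite G] (P B : Subgroup G) (hBP : B ≤ P)
    (g : G) (hgP : g ∈ P)
    (hgen : ∀ x ∈ P, (∀ b, b ∈ B ↔ x * b * x⁻¹ ∈ B) → ∃ n : ℤ, x * g ^ n ∈ B) :
    ∃ g' ∈ P, (∀ b, b ∈ B ↔ g' * b * g'⁻¹ ∈ B) ∧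
      ∀ x ∈ P, (∀ b, b ∈ B ↔ x * b * x⁻¹ ∈ B) → ∃ n : ℤ, x * g' ^ n ∈ B := by
  let NP : Subgroup G := P ⊓ Subgroup.normalizer (B : Set G)
  have hNPm : ∀ x, x ∈ NP ↔ x ∈ P ∧ ∀ b, b ∈ B ↔ x * b * x⁻¹ ∈ B := by
    intro x
    rw [Subgroup.mem_inf, Subgroup.mem_normalizer_iff]
  have hBNP : B ≤ NP := by
    intro b hb
    rw [hNPm]
    refine ⟨hBP hb, fun c => ⟨fun hc => mul_mem (mul_mem hb hc) (inv_mem hb), fun hc => ?_⟩⟩
    have := mul_mem (mul_mem (inv_mem hb) hc) hb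
    simpa [mul_assoc] using this
  let K : AddSubgroup ℤ :=
    { carrier := {n | g ^ n ∈ NP}
      zero_mem' := by simp
      add_mem' := by
        intro a b ha hb
        show g ^ (a + b) ∈ NP
        rw [zpow_add]; exact mul_mem ha hb
      neg_mem' := by
        intro a ha
        show g ^ (-a) ∈ NP
        rw [zpow_neg]; exact inv_mem ha }
  obtain ⟨k, hk⟩ := Int.subgroup_cyclic K
  have hkK : k ∈ K := by
    rw [hk]; exact AddSubgroup.subset_closure rfl
  have hkN : g ^ k ∈ NP := hkK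
  refine ⟨g ^ k, ((hNPm _).1 hkN).1, ((hNPm _).1 hkN).2, ?_⟩
  intro x hx hxB
  obtain ⟨n, hn⟩ := hgen x hx hxB
  have h1 : n ∈ K := by
    show g ^ n ∈ NP
    have h2 := mul_mem (inv_mem ((hNPm x).2 ⟨hx, hxB⟩)) (hBNP hn)
    simpa using h2
  rw [hk] at h1
  have h2 : n ∈ AddSubgroup.zmultiples k := by
    rw [AddSubgroup.zmultiples_eq_closure]; exact h1
  obtain ⟨m, hm⟩ := AddSubgroup.mem_zmultiples_iff.1 h2
  refine ⟨m, ?_⟩
  have h3 : m * k = n := by rw [← smul_eq_mul]; exact hm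
  rw [← zpow_mul, mul_comm k m, h3]
  exact hn

/-- The fixed points of `B` in `Q` form a nontrivial cyclic group. -/
theorem cyc_fix {G : Type*} [Group G] [Finite G] {l : ℕ} (hl : l.Prime) (Q B : Subgroup G)
    (hQ : IsPGroup l Q) (hB : IsPGroup l B) (hQ1 : ∃ q ∈ Q, q ≠ 1)
    (hnorm : ∀ x ∈ B, ∀ q ∈ Q, x * q * x⁻¹ ∈ Q) (hQB : ∀ x ∈ Q, x ∈ B → x = 1) (g : G)
    (hgen : ∀ x ∈ Q, (∀ b ∈ B, b * x = x * b) → ∃ n : ℤ, x * g ^ n ∈ B) :
    ∃ c ∈ Q, c ≠ 1 ∧ (∀ b ∈ B, b * c = c * b) ∧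
        ∀ y ∈ Q, (∀ b ∈ B, b * y = y * b) → y ∈ Subgroup.zpowers c := by
  classical
  have hlf : Fact l.Prime := ⟨hl⟩
  -- nontrivial
  have hnt : ∃ y ∈ Q, y ≠ 1 ∧ ∀ b ∈ B, b * y = y * b := by
    let act : MulAction B Q :=
      { smul := fun b q => ⟨b * q * (b : G)⁻¹, hnorm b b.2 q q.2⟩
        one_smul := by
          intro q
          apply Subtype.ext
          show ((1 : B) : G) * q * ((1 : B) : G)⁻¹ = q
          simp
        mul_smul := by
          intro b b' q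
          apply Subtype.ext
          show ((b * b' : B) : G) * q * ((b * b' : B) : G)⁻¹ =
            b * (b' * q * (b' : G)⁻¹) * (b : G)⁻¹
          push_cast
          group }
    obtain ⟨m, hm⟩ := IsPGroup.exists_card_eq hQ
    have hm0 : m ≠ 0 := by
      rintro rfl
      rw [pow_zero] at hm
      obtain ⟨q, hq, hq1⟩ := hQ1
      have h1 := (Nat.card_eq_one_iff_unique.1 hm).1
      exact hq1 (congrArg Subtype.val (h1.elim ⟨q, hq⟩ 1))
    have hd : l ∣ Nat.card Q := by rw [hm]; exact dvd_pow_self l hm0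
    have h1 : (1 : Q) ∈ MulAction.fixedPoints B Q := by
      intro b
      apply Subtype.ext
      show (b : G) * 1 * (b : G)⁻¹ = 1
      simp
    obtain ⟨y, hy, hy1⟩ := hB.exists_fixed_point_of_prime_dvd_card_of_fixed_point Q hd h1
    refine ⟨y, y.2, fun h => hy1 (Subtype.ext h.symm), ?_⟩
    intro b hb
    have h2 : (b : G) * y * (b : G)⁻¹ = y := congrArg Subtype.val (hy ⟨b, hb⟩)
    exact mul_inv_eq_iff_eq_mul.1 h2
  let T : Subgroup (G × Multiplicative ℤ) :=
    { carrier := {p | p.1 ∈ Q ∧ (∀ b ∈ B, b * p.1 = p.1 * b) ∧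
        p.1 * g ^ (Multiplicative.toAdd p.2) ∈ B}
      one_mem' := ⟨one_mem _, by simp, by simp⟩
      mul_mem' := by
        rintro ⟨y1, n1⟩ ⟨y2, n2⟩ ⟨h1, h1', h1''⟩ ⟨h2, h2', h2''⟩
        refine ⟨mul_mem h1 h2, ?_, ?_⟩
        · intro b hb
          exact ((show Commute b y1 from h1' b hb).mul_right (h2' b hb)).eq
        · show y1 * y2 * g ^ (Multiplicative.toAdd (n1 * n2)) ∈ B
          have h3 : y1 * y2 * g ^ (Multiplicative.toAdd (n1 * n2)) =
              y1 * (y2 * g ^ (Multiplicative.toAdd n2)) * g ^ (Multiplicative.toAdd n1) := by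
            rw [toAdd_mul, add_comm, zpow_add]; group
          rw [h3, ← h1' _ h2'', mul_assoc]
          exact mul_mem h2'' h1''
      inv_mem' := by
        rintro ⟨y, n⟩ ⟨h1, h2, h3⟩
        refine ⟨inv_mem h1, ?_, ?_⟩
        · intro b hb
          exact ((show Commute b y from h2 b hb).inv_right).eq
        · show y⁻¹ * g ^ (Multiplicative.toAdd (n⁻¹)) ∈ B
          have h4 := h2 _ (inv_mem h3)
          have h5 : y⁻¹ * g ^ (Multiplicative.toAdd (n⁻¹)) =
              y⁻¹ * ((y * g ^ (Multiplicative.toAdd n))⁻¹ * y) := by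
            rw [toAdd_inv, zpow_neg]; group
          rw [h5, h4]
          have h6 : y⁻¹ * (y * (y * g ^ (Multiplicative.toAdd n))⁻¹) =
            (y * g ^ (Multiplicative.toAdd n))⁻¹ := by group
          rw [h6]
          exact inv_mem h3 }
  let K : AddSubgroup ℤ :=
    { carrier := {n | ∃ y, (y, Multiplicative.ofAdd n) ∈ T}
      zero_mem' := ⟨1, T.one_mem⟩
      add_mem' := by
        rintro a b ⟨y, hy⟩ ⟨z, hz⟩
        exact ⟨y * z, T.mul_mem hy hz⟩
      neg_mem' := by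
        rintro a ⟨y, hy⟩
        exact ⟨y⁻¹, T.inv_mem hy⟩ }
  obtain ⟨k, hk⟩ := Int.subgroup_cyclic K
  have hkK : k ∈ K := by
    rw [hk]; exact AddSubgroup.subset_closure rfl
  obtain ⟨c, hc⟩ := hkK
  have hcy : ∀ y ∈ Q, (∀ b ∈ B, b * y = y * b) → y ∈ Subgroup.zpowers c := by
    intro y hy hyB
    obtain ⟨n, hn⟩ := hgen y hy hyB
    have hyT : (y, Multiplicative.ofAdd n) ∈ T := ⟨hy, hyB, hn⟩
    have h1 : n ∈ K := ⟨y, hyT⟩
    rw [hk] at h1
    have h2 : n ∈ AddSubgroup.zmultiples k := by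
      rw [AddSubgroup.zmultiples_eq_closure]; exact h1
    obtain ⟨m, hm⟩ := AddSubgroup.mem_zmultiples_iff.1 h2
    have h3 : (c, Multiplicative.ofAdd k) ^ m ∈ T := T.zpow_mem hc m
    have h4 : (y, Multiplicative.ofAdd n) * ((c, Multiplicative.ofAdd k) ^ m)⁻¹ ∈ T :=
      T.mul_mem hyT (T.inv_mem h3)
    have h5 : (y, Multiplicative.ofAdd n) * ((c, Multiplicative.ofAdd k) ^ m)⁻¹ =
        (y * (c ^ m)⁻¹, (1 : Multiplicative ℤ)) := by
      apply Prod.ext
      · rfl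
      · show Multiplicative.ofAdd n * ((Multiplicative.ofAdd k) ^ m)⁻¹ = 1
        rw [← ofAdd_zsmul, hm]; exact mul_inv_cancel _
    rw [h5] at h4
    obtain ⟨h6, h7, h8⟩ := h4
    have h9 : y * (c ^ m)⁻¹ ∈ B := by
      have : y * (c ^ m)⁻¹ * g ^ (Multiplicative.toAdd (1 : Multiplicative ℤ)) ∈ B := h8
      simpa using this
    have h10 := hQB _ h6 h9
    rw [Subgroup.mem_zpowers_iff]
    exact ⟨m, (mul_inv_eq_one.1 h10).symm⟩
  obtain ⟨y, hy, hy1, hyB⟩ := hnt
  refine ⟨c, hc.1, ?_, hc.2.1, hcy⟩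
  rintro rfl
  have := hcy y hy hyB
  rw [Subgroup.zpowers_one_eq_bot, Subgroup.mem_bot] at this
  exact hy1 this

end L2M

/-- **L2 (c)**, ambient form. `P` an `l`-subgroup, `B ≤ P`, `ρ` an element of order prime to `2 l`
normalising `P`, centralising `B` but not `P`, and `N_P(B)/B` cyclic. Then `Q = [P, ρ]` is abelian,
normal in `P`, `ρ` acts on `Q` as the power `a` with `l ∤ a - 1`, `l ∤ a ^ 2 - 1`, `Q ⊓ B = 1`,
`P = Q B`, `C_P(ρ) = B` and `C_Q(B)` is cyclic and nontrivial. -/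
theorem L2c {G : Type*} [Group G] [Finite G] {l : ℕ} (hl : l.Prime) (P B : Subgroup G)
    (ρ : G) (hP : IsPGroup l P) (hBP : B ≤ P) (hρP : ∀ x ∈ P, ρ * x * ρ⁻¹ ∈ P)
    (hρB : ∀ b ∈ B, ρ * b = b * ρ) (hol : ¬ l ∣ orderOf ρ) (ho2 : ¬ 2 ∣ orderOf ρ)
    (hne : ∃ x ∈ P, ρ * x ≠ x * ρ)
    (hcyc : ∃ g ∈ P, ∀ x ∈ P, (∀ b, b ∈ B ↔ x * b * x⁻¹ ∈ B) → ∃ n : ℤ, x * g ^ n ∈ B) :
    ∃ (Q : Subgroup G) (a : ℤ), Q = Subgroup.closure {y | ∃ x ∈ P, y = ρ * x * ρ⁻¹ * x⁻¹} ∧
      Q ≤ P ∧ (∀ x ∈ Q, ∀ y ∈ Q, x * y = y * x) ∧ (∀ y ∈ Q, ρ * y * ρ⁻¹ = y ^ a) ∧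
      ¬ (l : ℤ) ∣ a - 1 ∧ ¬ (l : ℤ) ∣ a ^ 2 - 1 ∧
      (∀ x ∈ Q, x ∈ B → x = 1) ∧ (∀ x ∈ P, ∃ q ∈ Q, ∃ b ∈ B, x = q * b) ∧
      (∀ x ∈ P, ρ * x = x * ρ → x ∈ B) ∧ (∀ x ∈ P, ∀ q ∈ Q, x * q * x⁻¹ ∈ Q) ∧
      (∀ x ∈ P, ρ ^ (l - 1) * x = x * ρ ^ (l - 1)) ∧
      ∃ c ∈ Q, c ≠ 1 ∧ (∀ b ∈ B, b * c = c * b) ∧
        ∀ y ∈ Q, (∀ b ∈ B, b * y = y * b) → y ∈ Subgroup.zpowers c := by
  classical
  have hlf : Fact l.Prime := ⟨hl⟩
  obtain ⟨g0, hg0P, hgen0⟩ := hcyc
  obtain ⟨g, hgP, hgB, hgen⟩ := gen_norm P B hBP g0 hg0P hgen0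
  obtain ⟨a0, hla0, hcent, hF1⟩ := L2step hl P B ρ hP hBP hρP hρB hol hne g hgP hgB hgen
  have hlZ : Prime (l : ℤ) := Nat.prime_iff_prime_int.1 hl
  have hne' : ¬ ∀ x ∈ P, ρ * x = x * ρ := by
    intro h
    obtain ⟨x, hx, hx'⟩ := hne
    exact hx' (h x hx)
  have hF2 : ¬ (l : ℤ) ∣ a0 - 1 := by
    intro hd
    apply hne'
    have := hcent 1 (by rw [pow_one]; exact hd)
    rw [pow_one] at this
    exact this
  have hF3 : ¬ (l : ℤ) ∣ a0 ^ 2 - 1 := by
    intro hd
    apply hne'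
    intro x hx
    have h1 : Commute (ρ ^ 2) x := hcent 2 hd x hx
    obtain ⟨m, hm⟩ : ∃ m, orderOf ρ = 2 * m + 1 := by
      rcases Nat.even_or_odd (orderOf ρ) with h | h
      · exact absurd h.two_dvd ho2
      · exact h
    have h2 : ρ = (ρ ^ 2) ^ (m + 1) := by
      rw [← pow_mul]
      have : 2 * (m + 1) = orderOf ρ + 1 := by omega
      rw [this, pow_succ, pow_orderOf_eq_one, one_mul]
    have h3 : Commute ρ x := by
      rw [h2]; exact h1.pow_left _
    exact h3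
  have hF4 : ∀ x ∈ P, ρ ^ (l - 1) * x = x * ρ ^ (l - 1) := by
    apply hcent
    have h1 : (a0 : ZMod l) ≠ 0 := by
      intro h
      exact hla0 ((ZMod.intCast_zmod_eq_zero_iff_dvd a0 l).1 h)
    have h2 := ZMod.pow_card_sub_one_eq_one h1
    rw [← ZMod.intCast_zmod_eq_zero_iff_dvd]
    push_cast
    rw [h2, sub_self]
  -- `C_P(ρ) = B`
  have hF5 : ∀ x ∈ P, ρ * x = x * ρ → x ∈ B := by
    let F : Subgroup G :=
      { carrier := {x | x ∈ P ∧ ρ * x = x * ρ}
        one_mem' := ⟨one_mem _, by simp⟩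
        mul_mem' := by
          rintro x y ⟨hx, hx'⟩ ⟨hy, hy'⟩
          exact ⟨mul_mem hx hy, ((show Commute ρ x from hx').mul_right hy').eq⟩
        inv_mem' := by
          rintro x ⟨hx, hx'⟩
          exact ⟨inv_mem hx, ((show Commute ρ x from hx').inv_right).eq⟩ }
    have hBF : B ≤ F := fun b hb => ⟨hBP hb, hρB b hb⟩
    by_contra hcon
    push Not at hcon
    obtain ⟨x, hx, hx', hxB⟩ := hcon
    have hFP : IsPGroup l F := hP.to_le (fun y hy => hy.1)
    have hnil : Group.IsNilpotent F := hFP.isNilpotent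
    have hNC := Group.normalizerCondition_of_isNilpotent (G := F)
    have hlt : B.subgroupOf F < ⊤ := by
      rw [lt_top_iff_ne_top]
      intro h
      have h1 : (⟨x, hx, hx'⟩ : F) ∈ B.subgroupOf F := by rw [h]; exact Subgroup.mem_top _
      exact hxB (Subgroup.mem_subgroupOf.1 h1)
    have h2 := hNC _ hlt
    obtain ⟨y, hy1, hy2⟩ := SetLike.exists_of_lt h2
    rw [Subgroup.mem_normalizer_iff] at hy1
    rw [Subgroup.mem_subgroupOf] at hy2
    have hyN : ∀ b, b ∈ B ↔ (y : G) * b * (y : G)⁻¹ ∈ B := by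
      intro b
      constructor
      · intro hb
        have := (hy1 ⟨b, hBF hb⟩).1 (Subgroup.mem_subgroupOf.2 hb)
        exact Subgroup.mem_subgroupOf.1 this
      · intro hb
        have hbF : b ∈ F := by
          have h3 := hBF hb
          have h4 : (y : G)⁻¹ * ((y : G) * b * (y : G)⁻¹) * (y : G) ∈ F :=
            mul_mem (mul_mem (inv_mem y.2) h3) y.2
          have h5 : (y : G)⁻¹ * ((y : G) * b * (y : G)⁻¹) * (y : G) = b := by group
          rwa [h5] at h4
        have := (hy1 ⟨b, hbF⟩).2 (Subgroup.mem_subgroupOf.2 hb)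
        exact Subgroup.mem_subgroupOf.1 this
    have h3 := hF1 y y.2.1 hyN hy2 1 (by
      have h4 : ρ * (y : G) = y * ρ := y.2.2
      rw [zpow_one, h4]; group)
    apply hF2
    have := (dvd_neg).2 h3
    simpa using this
  -- the Teichmüller representative
  obtain ⟨e, he⟩ := IsPGroup.exists_card_eq hP
  obtain ⟨a, haa, ha1⟩ : ∃ a : ℕ, (l : ℤ) ∣ (a : ℤ) - a0 ∧ a ^ (l - 1) ≡ 1 [MOD l ^ e] := by
    have hl0 : (l : ℤ) ≠ 0 := by exact_mod_cast hl.ne_zero
    obtain ⟨a1, ha1⟩ : ∃ a1 : ℕ, (l : ℤ) ∣ (a1 : ℤ) - a0 := by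
      refine ⟨(a0 % l).toNat, ?_⟩
      rw [Int.toNat_of_nonneg (Int.emod_nonneg _ hl0)]
      have := Int.emod_add_mul_ediv a0 l
      refine ⟨-(a0 / l), ?_⟩
      linarith
    have hla1 : ¬ l ∣ a1 := by
      intro h
      apply hla0
      have h1 : (l : ℤ) ∣ (a1 : ℤ) := by exact_mod_cast h
      have := dvd_sub h1 ha1
      simpa using this
    refine ⟨a1 ^ (l ^ e), ?_, ?_⟩
    · rw [← ZMod.intCast_zmod_eq_zero_iff_dvd] at ha1 ⊢
      push_cast at ha1 ⊢
      rw [ZMod.pow_card_pow]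
      exact ha1
    · rw [← pow_mul]
      have hco : Nat.Coprime a1 (l ^ (e + 1)) :=
        ((hl.coprime_iff_not_dvd.2 hla1).symm).pow_right _
      have h1 := Nat.ModEq.pow_totient hco
      rw [Nat.totient_prime_pow_succ hl] at h1
      exact h1.of_dvd (pow_dvd_pow l (by omega))
  have haℤ1 : ¬ (l : ℤ) ∣ (a : ℤ) - 1 := by
    intro h
    apply hF2
    have := dvd_sub h haa
    simpa using this
  have haℤ2 : ¬ (l : ℤ) ∣ (a : ℤ) ^ 2 - 1 := by
    intro h
    apply hF3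
    have h1 : (l : ℤ) ∣ (a : ℤ) ^ 2 - a0 ^ 2 := haa.trans (sub_dvd_pow_sub_pow _ _ 2)
    have := dvd_sub h h1
    simpa using this
  have ha2 : ¬ a ^ 2 ≡ 1 [MOD l] := by
    intro h
    apply haℤ2
    have := (Int.natCast_modEq_iff.2 h).symm.dvd
    push_cast at this
    exact this
  let r : P →* P := cj P ρ hρP
  have hcard : Nat.card P ∣ l ^ e := by rw [he]
  have hcore := COR (l := l) (e := e) hl a ha1 ha2 P r hcard (by
      intro x
      apply Subtype.ext
      rw [cj_pow, hF4 x x.2]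
      group) (by
      intro x c hc hxb hrx
      by_cases hxB : (x : G) ∈ B
      · by_cases hx1 : x = 1
        · exact Or.inl hx1
        · right; left
          have h1 : x ^ c = x ^ 1 := by
            rw [pow_one, ← hrx]
            apply Subtype.ext
            show ρ * (x : G) * ρ⁻¹ = x
            rw [hρB _ hxB]; group
          rw [pow_eq_pow_iff_modEq] at h1
          obtain ⟨m, hm⟩ := hP x
          obtain ⟨i, _, hi⟩ := (Nat.dvd_prime_pow hl).1 (orderOf_dvd_of_pow_eq_one hm)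
          have hi0 : i ≠ 0 := by
            rintro rfl
            rw [pow_zero, orderOf_eq_one_iff] at hi
            exact hx1 hi
          rw [hi] at h1
          exact h1.of_dvd (dvd_pow_self l hi0)
      · right; right
        have hxb' : ∀ b ∈ B, (x : G) * b = b * x := by
          intro b hb
          have h1 := hxb ⟨b, hBP hb⟩ (by
            apply Subtype.ext
            show ρ * b * ρ⁻¹ = b
            rw [hρB b hb]; group)
          exact congrArg Subtype.val h1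
        have h2 := hF1 x x.2 (by
          intro b
          constructor
          · intro hb
            rw [hxb' b hb]
            simpa using hb
          · intro hb
            have h3 := hxb' _ hb
            have h4 : (x : G) * b = x * (x * b * (x : G)⁻¹) := by rw [h3]; group
            have h5 : b = x * b * (x : G)⁻¹ := mul_left_cancel h4
            rw [h5]; exact hb) hxB c (by
          have := congrArg Subtype.val hrx
          rw [zpow_natCast]
          exact this)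
        have h3 : (l : ℤ) ∣ (a : ℤ) - c := by
          have := dvd_sub haa h2
          simpa using this
        have h4 : (c : ℤ) ≡ (a : ℤ) [ZMOD (l : ℤ)] := Int.modEq_iff_dvd.2 h3
        exact_mod_cast h4)
  obtain ⟨hab, hpow⟩ := hcore
  let Q : Subgroup G := Subgroup.closure {y | ∃ x ∈ P, y = ρ * x * ρ⁻¹ * x⁻¹}
  have hQmap : Q = (Qr r).map P.subtype := by
    show Subgroup.closure _ = Subgroup.map P.subtype (Subgroup.closure _)
    rw [MonoidHom.map_closure]
    congr 1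
    ext y
    constructor
    · rintro ⟨x, hx, rfl⟩
      exact ⟨r ⟨x, hx⟩ * (⟨x, hx⟩ : P)⁻¹, ⟨⟨x, hx⟩, rfl⟩, rfl⟩
    · rintro ⟨_, ⟨x, rfl⟩, rfl⟩
      exact ⟨x, x.2, rfl⟩
  have hQm : ∀ y ∈ Q, ∃ h : y ∈ P, (⟨y, h⟩ : P) ∈ Qr r := by
    intro y hy
    rw [hQmap] at hy
    obtain ⟨z, hz, rfl⟩ := Subgroup.mem_map.1 hy
    exact ⟨z.2, hz⟩
  have hQP : Q ≤ P := fun y hy => (hQm y hy).1
  have hQab : ∀ x ∈ Q, ∀ y ∈ Q, x * y = y * x := by
    intro x hx y hy
    obtain ⟨hx1, hx2⟩ := hQm x hx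
    obtain ⟨hy1, hy2⟩ := hQm y hy
    exact congrArg Subtype.val (hab _ hx2 _ hy2)
  have hQpow : ∀ y ∈ Q, ρ * y * ρ⁻¹ = y ^ (a : ℤ) := by
    intro y hy
    obtain ⟨hy1, hy2⟩ := hQm y hy
    rw [zpow_natCast]
    exact congrArg Subtype.val (hpow _ hy2)
  have hlpow : ∀ x ∈ P, x ^ (l ^ e) = 1 := by
    intro x hx
    have := pow_card_eq_one' (x := (⟨x, hx⟩ : P))
    rw [he] at this
    exact congrArg Subtype.val this
  have hcopa : IsCoprime ((a : ℤ) - 1) ((l : ℤ) ^ e) :=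
    (IsCoprime.pow_left ((hlZ.coprime_iff_not_dvd).2 haℤ1)).symm
  have hQB : ∀ x ∈ Q, x ∈ B → x = 1 := by
    intro x hx hxB
    have h1 := hQpow x hx
    rw [hρB x hxB] at h1
    have h2 : x ^ ((a : ℤ) - 1) = 1 := by
      rw [zpow_sub, zpow_one, ← h1]; group
    obtain ⟨u, v, huv⟩ := hcopa
    have h3 : x ^ ((l : ℤ) ^ e) = 1 := by
      have := hlpow x (hQP hx)
      rw [← zpow_natCast] at this
      push_cast at this
      exact this
    calc x = x ^ (u * ((a : ℤ) - 1) + v * (l : ℤ) ^ e) := by rw [huv, zpow_one]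
      _ = 1 := by rw [zpow_add, mul_comm u, mul_comm v, zpow_mul, zpow_mul, h2, h3]; simp
  have hsup : ∀ x ∈ P, ∃ q ∈ Q, ∃ b ∈ B, x = q * b := by
    intro x hx
    set u := ρ * x * ρ⁻¹ * x⁻¹ with hu
    have huQ : u ∈ Q := Subgroup.subset_closure ⟨x, hx, rfl⟩
    obtain ⟨s, v, hsv⟩ := hcopa
    have hul : u ^ ((l : ℤ) ^ e) = 1 := by
      have := hlpow u (hQP huQ)
      rw [← zpow_natCast] at this
      push_cast at this
      exact this
    have hq : (u ^ s) ^ ((a : ℤ) - 1) = u := by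
      rw [← zpow_mul]
      calc u ^ (s * ((a : ℤ) - 1)) = u ^ (s * ((a : ℤ) - 1) + v * (l : ℤ) ^ e) := by
            rw [zpow_add, mul_comm v, zpow_mul u ((l : ℤ) ^ e), hul, one_zpow, mul_one]
        _ = u := by rw [hsv, zpow_one]
    have hqQ : u ^ s ∈ Q := zpow_mem huQ s
    refine ⟨u ^ s, hqQ, (u ^ s)⁻¹ * x, ?_, by group⟩
    apply hF5
    · exact mul_mem (inv_mem (hQP hqQ)) hx
    · have h1 := hQpow _ hqQ
      -- `ρ (u^s)⁻¹ x ρ⁻¹ = (u^s)⁻¹ x`
      have h2 : ρ * ((u ^ s)⁻¹ * x) * ρ⁻¹ = (u ^ s)⁻¹ * x := by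
        calc ρ * ((u ^ s)⁻¹ * x) * ρ⁻¹ = (ρ * (u ^ s) * ρ⁻¹)⁻¹ * (ρ * x * ρ⁻¹ * x⁻¹) * x := by group
          _ = ((u ^ s) ^ (a : ℤ))⁻¹ * (u ^ s) ^ ((a : ℤ) - 1) * x := by rw [h1, hq]
          _ = (u ^ s)⁻¹ * x := by rw [zpow_sub, zpow_one]; group
      exact mul_inv_eq_iff_eq_mul.1 h2
  have hnorm : ∀ x ∈ P, ∀ q ∈ Q, x * q * x⁻¹ ∈ Q := by
    intro x hx q hq
    induction hq using Subgroup.closure_induction with
    | mem q hq =>
      obtain ⟨y, hy, rfl⟩ := hq
      have h1 : x * (ρ * y * ρ⁻¹ * y⁻¹) * x⁻¹ =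
          (ρ * x * ρ⁻¹ * x⁻¹)⁻¹ * (ρ * (x * y) * ρ⁻¹ * (x * y)⁻¹) := by group
      rw [h1]
      exact mul_mem (inv_mem (Subgroup.subset_closure ⟨x, hx, rfl⟩))
        (Subgroup.subset_closure ⟨x * y, mul_mem hx hy, rfl⟩)
    | one => simp
    | mul p q _ _ ihp ihq =>
      have : x * (p * q) * x⁻¹ = (x * p * x⁻¹) * (x * q * x⁻¹) := by group
      rw [this]; exact mul_mem ihp ihq
    | inv p _ ihp =>
      have : x * p⁻¹ * x⁻¹ = (x * p * x⁻¹)⁻¹ := by group
      rw [this]; exact inv_mem ihp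
  refine ⟨Q, a, rfl, hQP, hQab, hQpow, haℤ1, haℤ2, hQB, hsup, hF5, hnorm, hF4, ?_⟩
  -- `C_Q(B)` is cyclic and nontrivial
  refine cyc_fix hl Q B (hP.to_le hQP) (hP.to_le hBP) ?_ (fun x hx => hnorm x (hBP hx)) hQB g ?_
  · obtain ⟨x, hx, hx'⟩ := hne
    refine ⟨ρ * x * ρ⁻¹ * x⁻¹, Subgroup.subset_closure ⟨x, hx, rfl⟩, fun h => hx' ?_⟩
    have h1 := mul_inv_eq_one.1 h
    exact mul_inv_eq_iff_eq_mul.1 h1
  · intro x hx hxB
    apply hgen x (hQP hx)
    intro b
    constructor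
    · intro hb
      have : x * b * x⁻¹ = b := by rw [← hxB b hb]; group
      rw [this]; exact hb
    · intro hb
      have h3 := hxB _ hb
      have h4 : x * b = x * (x * b * x⁻¹) := by rw [← h3]; group
      have h5 : b = x * b * x⁻¹ := mul_left_cancel h4
      rw [h5]; exact hb

end Pool.Agent.Lib.MPbe1941.XF
end

section
/-!
# MP_be1941_al, exact bound: module LTC (= L2 (c)), from `XF/L2D.lean`
-/
set_option autoImplicit false

namespace Pool.Agent.Lib.MPbe1941.X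

theorem specLTC : SpecLTC := by
  intro G _ _ l P B ρ hl _ hP hBP hρP hρB ho2 hol hne hcyc
  obtain ⟨Q, a, h1, h2, h3, h4, h5, h6, h7, h8, h9, h10, _, c, hc, _, hcB, hcy⟩ :=
    XF.L2c hl P B ρ hP hBP hρP hρB hol ho2 hne hcyc
  refine ⟨a, Q, h2, h1, h3, h4, ?_, ?_, h9, h5, h6, h10, c, hc, hcB, ?_⟩
  · rw [eq_bot_iff]
    intro x hx
    rw [Subgroup.mem_inf] at hx
    exact h7 x hx.1 hx.2
  · apply le_antisymm (sup_le h2 hBP)
    intro x hx
    obtain ⟨q, hq, b, hb, rfl⟩ := h8 x hx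
    exact Subgroup.mul_mem_sup hq hb
  · intro y hy hyB
    obtain ⟨n, hn⟩ := Subgroup.mem_zpowers_iff.1 (hcy y hy hyB)
    exact ⟨n, hn.symm⟩

end Pool.Agent.Lib.MPbe1941.X
end
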