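import Pool.Agent.Lib.MP_be1941_al.X.SpecD

/-!
# MP_be1941_al EXACT, block D: O7
-/

set_option autoImplicit false

namespace Pool.Agent.Lib.MPbe1941.X

open Pool.Agent.Lib.MPbe1941

namespace O7M

variable {H X : Type} [Group H] [AddCommGroup X] [DistribMulAction H X] {p : ℕ}
  {C : Subgroup H} {T : Finset ℕ} {v : X} {D R H1 : Subgroup H} {dl : H}

/-- The complement of `D`. -/
def cplK (us : US H X p C T v D R H1 dl) : Subgroup H where
  carrier := {h | ∃ x ∈ R, ∃ y ∈ H1, h = x * y}
  one_mem' := ⟨1, R.one_mem, 1, H1.one_mem, (mul_one 1).symm⟩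
  mul_mem' := by
    rintro _ _ ⟨x, hx, y, hy, rfl⟩ ⟨x', hx', y', hy', rfl⟩
    refine ⟨x * x', R.mul_mem hx hx', y * y', H1.mul_mem hy hy', ?_⟩
    have h1 := us.H1R y hy x' hx'
    calc x * y * (x' * y') = x * (y * x') * y' := by group
      _ = x * (x' * y) * y' := by rw [h1]
      _ = x * x' * (y * y') := by group
  inv_mem' := by
    rintro _ ⟨x, hx, y, hy, rfl⟩
    refine ⟨x⁻¹, R.inv_mem hx, y⁻¹, H1.inv_mem hy, ?_⟩
    have h1 := us.H1R y hy x hx
    rw [← h1, mul_inv_rev]

theorem dlD (us : US H X p C T v D R H1 dl) : dl ∈ D := by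
  have := us.Dg
  rw [this]
  exact Subgroup.mem_zpowers dl

theorem Dcomm (us : US H X p C T v D R H1 dl) {d : H} (hd : d ∈ D) : d * dl = dl * d := by
  have := us.Dg
  rw [this] at hd
  obtain ⟨k, rfl⟩ := Subgroup.mem_zpowers_iff.1 hd
  exact (Commute.refl dl).zpow_left k

theorem Dab (us : US H X p C T v D R H1 dl) {d e : H} (hd : d ∈ D) (he : e ∈ D) :
    d * e = e * d := by
  have := us.Dg
  rw [this] at hd he
  obtain ⟨k, rfl⟩ := Subgroup.mem_zpowers_iff.1 hd
  obtain ⟨l, rfl⟩ := Subgroup.mem_zpowers_iff.1 he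
  exact (Commute.refl dl).zpow_zpow k l

theorem indexZ [Finite H] (us : US H X p C T v D R H1 dl) :
    (Subgroup.centralizer (D : Set H)).index = Nat.card R := by
  apply Subgroup.IsComplement'.index_eq_card
  apply Subgroup.isComplement'_of_disjoint_and_mul_eq_univ
  · rw [Subgroup.disjoint_def]
    intro x hx hz
    apply us.mov x hx
    rw [Subgroup.mem_centralizer_iff] at hz
    exact (hz dl (dlD us)).symm
  · apply Set.eq_univ_of_forall
    intro h
    obtain ⟨d, hd, x, hx, y, hy, rfl⟩ := us.dec h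
    rw [Set.mem_mul]
    refine ⟨x, hx, x⁻¹ * d * x * y, ?_, by group⟩
    rw [SetLike.mem_coe, Subgroup.mem_centralizer_iff]
    intro e he
    have hdx : x⁻¹ * d * x ∈ D := by
      have := us.Dn.conj_mem d hd x⁻¹
      rwa [inv_inv] at this
    have h1 := Dab us he hdx
    have h2 := us.H1D y hy e he
    calc e * (x⁻¹ * d * x * y) = (e * (x⁻¹ * d * x)) * y := by group
      _ = (x⁻¹ * d * x) * (e * y) := by rw [h1]; group
      _ = (x⁻¹ * d * x) * (y * e) := by rw [h2]
      _ = x⁻¹ * d * x * y * e := by group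

theorem mem_kM (us : US H X p C T v D R H1 dl) [Finite H] {r : ℕ} (hr : r ∈ T) :
    r ∣ (Subgroup.centralizer (D : Set H)).index ↔ r ∈ kM C T v := by
  have hp : r.Prime := (us.ts.tp r hr).1
  rw [indexZ us, us.cR]
  constructor
  · intro h
    obtain ⟨a, ha, hd⟩ := (Prime.dvd_finsetProd_iff hp.prime _).1 h
    have hap : a.Prime := (us.syl a ha).1
    rw [(Nat.prime_dvd_prime_iff_eq hp hap).1 hd]
    exact ha
  · intro h
    exact Finset.dvd_prod_of_mem (fun r => r) h

end O7M

open O7M in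
theorem specO7 (hPRT : SpecPRT) (hUEN : SpecUEN) : SpecO7 := by
  classical
  intro H X _ _ _ p C T hTS hIdx
  haveI := hTS.finH
  haveI := hTS.finX
  obtain ⟨v, D, R, H1, dl, -, us, -⟩ := hUEN H X p C T hTS (hPRT H X p C T hTS) hIdx
  refine ⟨D, cplK us, us.Dn, us.DC, ?_, ?_, ?_, ?_, ?_, us.dvD, ?_, ?_⟩
  · rw [us.Dg]
    infer_instance
  · rw [eq_bot_iff]
    rintro k ⟨hk, x, hx, y, hy, rfl⟩
    rw [Subgroup.mem_bot]
    have h1 := us.unq (x * y)⁻¹ (D.inv_mem hk) x hx y hy (by group)
    exact inv_eq_one.1 h1.1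
  · rw [eq_top_iff]
    intro h _
    obtain ⟨d, hd, x, hx, y, hy, rfl⟩ := us.dec h
    rw [mul_assoc]
    exact Subgroup.mul_mem _ (Subgroup.mem_sup_left hd) (Subgroup.mem_sup_right ⟨x, hx, y, hy, rfl⟩)
  · intro h hc
    obtain ⟨d, hd, x, hx, y, hy, rfl⟩ := us.dec h
    have h1 := hc dl (us.DC (dlD us))
    have h2 := us.H1D y hy dl (dlD us)
    have h3 := Dcomm us hd
    have hx1 : x = 1 := by
      apply us.mov x hx
      have e1 : d * x * y * dl = d * (x * dl) * y := by
        calc d * x * y * dl = d * x * (y * dl) := by group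
          _ = d * x * (dl * y) := by rw [h2]
          _ = d * (x * dl) * y := by group
      have e2 : dl * (d * x * y) = d * (dl * x) * y := by
        calc dl * (d * x * y) = (dl * d) * x * y := by group
          _ = (d * dl) * x * y := by rw [h3]
          _ = d * (dl * x) * y := by group
      rw [e1, e2] at h1
      exact mul_left_cancel (mul_right_cancel h1)
    subst hx1
    have hd1 : d = 1 := by
      apply us.fxd d hd
      intro ρ hρ
      have h4 := hc ρ (us.RC hρ)
      have h5 := us.H1R y hy ρ hρ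
      have e1 : d * 1 * y * ρ = d * ρ * y := by
        calc d * 1 * y * ρ = d * (y * ρ) := by group
          _ = d * (ρ * y) := by rw [h5]
          _ = d * ρ * y := by group
      have e2 : ρ * (d * 1 * y) = ρ * d * y := by group
      rw [e1, e2] at h4
      exact (mul_right_cancel h4).symm
    subst hd1
    exact ⟨1, R.one_mem, y, hy, by group⟩
  · intro r hr hdv S hS x hx
    have hk := (mem_kM us hr).1 hdv
    obtain ⟨hp, S0, hS0, hS0s, -⟩ := us.syl r hk
    obtain ⟨g, -, hg⟩ := (CO.specSYL H r hp).2.2.1 ⊤ S0 S hS0s hS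
    have h1 := us.RC (hS0 ((hg x).1 hx))
    have h2 := us.ts.nor.conj_mem _ h1 g
    have e : g * (g⁻¹ * x * g) * g⁻¹ = x := by group
    rwa [e] at h2
  · intro r hr h
    have h1 : r ∈ kA H T v := by
      unfold kA
      rw [Finset.mem_filter]
      exact ⟨hr, h v us.v0⟩
    rwa [us.kAN] at h1
  · rw [← us.cMN]
    congr 1
    ext r
    unfold chA
    rw [Finset.mem_filter]
    constructor
    · intro h
      have hT : r ∈ T := by
        unfold kM at h
        exact (Finset.mem_filter.1 h).1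
      exact ⟨hT, (mem_kM us hT).2 h⟩
    · rintro ⟨hT, h⟩
      exact (mem_kM us hT).1 h

end Pool.Agent.Lib.MPbe1941.X
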