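import Mathlib
import Pool.Agent.Lib.MP_be1941_al.X.SpecT1
import Pool.Agent.Lib.MP_be1941_al.X.PSB
import Pool.Agent.Lib.MP_be1941_al.X.SpecQ
import Pool.Agent.Lib.MP_be1941_al.X.SpecP

section
/-!
# MP_be1941_al (exact bound), module THO: Thompson's `A × B` lemma

Paper: /team-store/MP_be1941_al_H.md, L1. Ambient form: all groups are subgroups of a finite
group `G`.
-/
set_option autoImplicit false

namespace Pool.Agent.Lib.MPbe1941.X

open scoped commutatorElement

/-- `a x a⁻¹ = c x` with `c` commuting with `a`, and the orders of `a` and `c` are coprime: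
`c = 1`. -/
theorem comm_eq_one {G : Type*} [Group G] {a x c : G} (h : a * x * a⁻¹ = c * x)
    (hc : a * c = c * a) (hco : (orderOf a).Coprime (orderOf c)) : c = 1 := by
  have key : ∀ n : ℕ, a ^ n * x * (a ^ n)⁻¹ = c ^ n * x := by
    intro n
    induction n with
    | zero => simp
    | succ n ih =>
      have hcn : a * c ^ n = c ^ n * a := (Commute.pow_right (show Commute a c from hc) n).eq
      calc a ^ (n + 1) * x * (a ^ (n + 1))⁻¹ = a * (a ^ n * x * (a ^ n)⁻¹) * a⁻¹ := by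
            rw [pow_succ' a n]; group
        _ = a * (c ^ n * x) * a⁻¹ := by rw [ih]
        _ = (a * c ^ n) * x * a⁻¹ := by group
        _ = (c ^ n * a) * x * a⁻¹ := by rw [hcn]
        _ = c ^ n * (a * x * a⁻¹) := by group
        _ = c ^ n * (c * x) := by rw [h]
        _ = c ^ (n + 1) * x := by rw [pow_succ]; group
  have h1 := key (orderOf a)
  rw [pow_orderOf_eq_one] at h1
  have h2 : c ^ orderOf a = 1 := by
    have : (1 : G) * x * (1 : G)⁻¹ = x := by group
    rw [this] at h1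
    exact (mul_eq_right.1 h1.symm)
  have h3 : orderOf c ∣ orderOf a := orderOf_dvd_of_pow_eq_one h2
  have h4 : orderOf c = 1 := Nat.Coprime.eq_one_of_dvd hco.symm h3
  exact orderOf_eq_one_iff.1 h4

/-- Coprime orders of an element of an `l`-subgroup and an element of a subgroup of order prime to
`l`. -/
theorem coprime_orders {G : Type*} [Group G] [Finite G] {l : ℕ} (hl : l.Prime) {P A : Subgroup G}
    (hP : IsPGroup l P) (hA : ¬ l ∣ Nat.card A) {a x : G} (ha : a ∈ A) (hx : x ∈ P) :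
    (orderOf a).Coprime (orderOf x) := by
  obtain ⟨k, hk⟩ := hP ⟨x, hx⟩
  have hk' : x ^ l ^ k = 1 := by
    have := congrArg Subtype.val hk
    simpa using this
  have h1 : orderOf x ∣ l ^ k := orderOf_dvd_of_pow_eq_one hk'
  have h2 : orderOf a ∣ Nat.card A := by
    have := orderOf_dvd_natCard (⟨a, ha⟩ : A)
    rwa [Subgroup.orderOf_mk] at this
  have h3 : (Nat.card A).Coprime l := ((Nat.Prime.coprime_iff_not_dvd hl).2 hA).symm
  exact Nat.Coprime.coprime_dvd_left h2 (Nat.Coprime.coprime_dvd_right h1 (h3.pow_right k))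

/-- An `l`-group `B` acting on a nontrivial `l`-group `P`: `[P, B] < P`. -/
theorem commutator_lt {G : Type*} [Group G] [Finite G] {l : ℕ} (hl : l.Prime) {P B : Subgroup G}
    (hP : IsPGroup l P) (hB : IsPGroup l B) (hBP : ∀ b ∈ B, ∀ x ∈ P, b * x * b⁻¹ ∈ P)
    (hne : P ≠ ⊥) : ⁅P, B⁆ < P := by
  have hFl : Fact l.Prime := ⟨hl⟩
  have hle : ⁅P, B⁆ ≤ P := by
    rw [Subgroup.commutator_le]
    intro x hx b hb
    rw [commutatorElement_def]
    have h1 : b * x⁻¹ * b⁻¹ ∈ P := hBP b hb _ (P.inv_mem hx)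
    have : x * b * x⁻¹ * b⁻¹ = x * (b * x⁻¹ * b⁻¹) := by group
    rw [this]
    exact P.mul_mem hx h1
  refine lt_of_le_of_ne hle ?_
  intro heq
  have hnorm : B ≤ Subgroup.normalizer (P : Set G) := by
    intro b hb
    rw [Subgroup.mem_normalizer_iff]
    intro x
    constructor
    · intro hx
      exact hBP b hb x hx
    · intro hx
      have := hBP b⁻¹ (B.inv_mem hb) _ hx
      have e : b⁻¹ * (b * x * b⁻¹) * b⁻¹⁻¹ = x := by group
      rwa [e] at this
  have hPB : IsPGroup l (B ⊔ P : Subgroup G) := hB.to_sup_of_normal_right' hP hnorm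
  have hnil : Group.IsNilpotent (B ⊔ P : Subgroup G) := hPB.isNilpotent
  obtain ⟨n, hn⟩ := (Subgroup.isNilpotent_iff_lowerCentralSeries (B ⊔ P : Subgroup G)).1 hnil
  have key : ∀ n, P ≤ (B ⊔ P : Subgroup G).lowerCentralSeries n := by
    intro n
    induction n with
    | zero => exact le_sup_right
    | succ n ih =>
      conv_lhs => rw [← heq]
      rw [Subgroup.lowerCentralSeries_succ]
      exact Subgroup.commutator_mono ih le_sup_left
  have h1 := key n
  rw [hn] at h1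
  exact hne (le_bot_iff.1 h1)

/-- **L1** (Thompson's `A × B` lemma). -/
theorem thompson {G : Type*} [Group G] [Finite G] {l : ℕ} (hl : l.Prime) (A B : Subgroup G)
    (hB : IsPGroup l B) (hA : ¬ l ∣ Nat.card A) (hAB : ∀ a ∈ A, ∀ b ∈ B, a * b = b * a) :
    ∀ P : Subgroup G, IsPGroup l P → (∀ a ∈ A, ∀ x ∈ P, a * x * a⁻¹ ∈ P) →
      (∀ b ∈ B, ∀ x ∈ P, b * x * b⁻¹ ∈ P) →
      (∀ a ∈ A, ∀ x ∈ P, (∀ b ∈ B, b * x = x * b) → a * x = x * a) →
      ∀ a ∈ A, ∀ x ∈ P, a * x = x * a := by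
  intro P
  induction hn : Nat.card P using Nat.strong_induction_on generalizing P with
  | _ n ih =>
    intro hP hAP hBP h a ha x hx
    by_cases hne : P = ⊥
    · rw [hne, Subgroup.mem_bot] at hx
      rw [hx]; group
    have hlt := commutator_lt hl hP hB hBP hne
    have hcard : Nat.card (⁅P, B⁆ : Subgroup G) < n := by
      rw [← hn]
      exact Set.Finite.card_lt_card (Set.toFinite _) hlt
    have hle : ⁅P, B⁆ ≤ P := hlt.le
    -- conjugation of the generators
    have hconj : ∀ g : G, (∀ x ∈ P, g * x * g⁻¹ ∈ P) → (∀ b ∈ B, g * b * g⁻¹ ∈ B) →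
        ∀ y ∈ ⁅P, B⁆, g * y * g⁻¹ ∈ ⁅P, B⁆ := by
      intro g h1 h2 y hy
      have h3 : ⁅P, B⁆ ≤ (⁅P, B⁆ : Subgroup G).comap (MulAut.conj g).toMonoidHom := by
        rw [Subgroup.commutator_le]
        intro p hp b hb
        rw [Subgroup.mem_comap]
        have e : (MulAut.conj g).toMonoidHom ⁅p, b⁆ = ⁅g * p * g⁻¹, g * b * g⁻¹⁆ := by
          rw [map_commutatorElement]; rfl
        rw [e]
        exact Subgroup.commutator_mem_commutator (h1 p hp) (h2 b hb)
      exact h3 hy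
    have hA' := ih _ hcard ⁅P, B⁆ rfl (hP.to_le hle)
      (fun a ha => hconj a (hAP a ha) (fun b hb => by
        have : a * b * a⁻¹ = b := by rw [hAB a ha b hb]; group
        rw [this]; exact hb))
      (fun b hb => hconj b (hBP b hb) (fun b' hb' => B.mul_mem (B.mul_mem hb hb') (B.inv_mem hb)))
      (fun a ha y hy hyB => h a ha y (hle hy) hyB)
    -- three subgroups lemma
    have h1 : ⁅⁅P, B⁆, A⁆ = ⊥ := by
      rw [Subgroup.commutator_eq_bot_iff_le_centralizer]
      intro y hy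
      rw [Subgroup.mem_centralizer_iff]
      intro a ha
      exact hA' a ha y hy
    have h2 : ⁅⁅B, A⁆, P⁆ = ⊥ := by
      have : ⁅B, A⁆ = ⊥ := by
        rw [Subgroup.commutator_eq_bot_iff_le_centralizer]
        intro b hb
        rw [Subgroup.mem_centralizer_iff]
        intro a ha
        exact hAB a ha b hb
      rw [this]
      exact Subgroup.commutator_bot_left _
    have h3 : ⁅⁅A, P⁆, B⁆ = ⊥ := Subgroup.commutator_commutator_eq_bot_of_rotate h1 h2
    have hc : ∀ b ∈ B, b * ⁅a, x⁆ = ⁅a, x⁆ * b := by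
      rw [Subgroup.commutator_eq_bot_iff_le_centralizer] at h3
      have := h3 (Subgroup.commutator_mem_commutator ha hx)
      rw [Subgroup.mem_centralizer_iff] at this
      exact this
    have hcP : ⁅a, x⁆ ∈ P := by
      rw [commutatorElement_def]
      exact P.mul_mem (hAP a ha x hx) (P.inv_mem hx)
    have hac := h a ha _ hcP hc
    have h4 : a * x * a⁻¹ = ⁅a, x⁆ * x := by rw [commutatorElement_def]; group
    have h5 := comm_eq_one h4 hac (coprime_orders hl hP hA ha hcP)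
    rw [h5, one_mul] at h4
    calc a * x = a * x * a⁻¹ * a := by group
      _ = x * a := by rw [h4]

end Pool.Agent.Lib.MPbe1941.X
end

section
/-!
# MP_be1941_al (exact bound), module EKA: projection of an extremal vector

Paper: /team-store/MP_be1941_al_T1.md, section 4.
-/
set_option autoImplicit false

namespace Pool.Agent.Lib.MPbe1941.X

open Pool.Agent.Lib.MPbe1941

namespace EKAM

section pow

variable {H X : Type} [Group H] [AddCommGroup X] [DistribMulAction H X]

/-- The sum of the `g ^ j • x`, `j < l`. -/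
def N (l : ℕ) (g : H) (x : X) : X := ∑ j ∈ Finset.range l, g ^ j • x

theorem sum_cast {l : ℕ} [NeZero l] (G : ZMod l → X) :
    ∑ j ∈ Finset.range l, G (j : ZMod l) = ∑ a : ZMod l, G a := by
  refine Finset.sum_nbij' (fun j => (j : ZMod l)) (fun a => a.val) ?_ ?_ ?_ ?_ ?_
  · intro j _; exact Finset.mem_univ _
  · intro a _; exact Finset.mem_range.2 (ZMod.val_lt a)
  · intro j hj; exact ZMod.val_cast_of_lt (Finset.mem_range.1 hj)
  · intro a _; exact ZMod.natCast_zmod_val a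
  · intro j _; rfl

theorem pow_cast {l : ℕ} [NeZero l] {g : H} (hg : g ^ l = 1) (n : ℕ) :
    g ^ ((n : ZMod l).val) = g ^ n := by
  rw [ZMod.val_natCast]
  conv_rhs => rw [← Nat.div_add_mod n l]
  rw [pow_add, pow_mul, hg, one_pow, one_mul]

/-- Reindexing by a unit. -/
theorem sum_mul {l : ℕ} (hl : l.Prime) {g : H} (hg : g ^ l = 1) {m : ℕ} (hm : ¬ l ∣ m) (x : X) :
    ∑ j ∈ Finset.range l, g ^ (m * j) • x = N l g x := by
  have : Fact l.Prime := ⟨hl⟩
  have h1 : ∀ n : ℕ, g ^ n • x = g ^ ((n : ZMod l).val) • x := by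
    intro n; rw [pow_cast hg]
  unfold N
  calc ∑ j ∈ Finset.range l, g ^ (m * j) • x
      = ∑ j ∈ Finset.range l, (fun a : ZMod l => g ^ (((m : ZMod l) * a).val) • x) (j : ZMod l) := by
        refine Finset.sum_congr rfl fun j _ => ?_
        rw [h1 (m * j), Nat.cast_mul]
    _ = ∑ a : ZMod l, g ^ (((m : ZMod l) * a).val) • x :=
        sum_cast (fun a : ZMod l => g ^ (((m : ZMod l) * a).val) • x)
    _ = ∑ a : ZMod l, g ^ (a.val) • x := by
        have hm0 : (m : ZMod l) ≠ 0 := by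
          intro h
          exact hm ((ZMod.natCast_eq_zero_iff m l).1 h)
        exact Fintype.sum_equiv (Equiv.mulLeft₀ (m : ZMod l) hm0) _ _ (fun a => rfl)
    _ = ∑ j ∈ Finset.range l, (fun a : ZMod l => g ^ (a.val) • x) (j : ZMod l) :=
        (sum_cast (fun a : ZMod l => g ^ (a.val) • x)).symm
    _ = ∑ j ∈ Finset.range l, g ^ j • x := by
        refine Finset.sum_congr rfl fun j _ => ?_
        change g ^ ((j : ZMod l).val) • x = g ^ j • x
        rw [pow_cast hg]

theorem N_fix {l : ℕ} (hl : 0 < l) {g : H} (hg : g ^ l = 1) (x : X) : g • N l g x = N l g x := by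
  obtain ⟨n, rfl⟩ : ∃ n, l = n + 1 := ⟨l - 1, by omega⟩
  unfold N
  rw [Finset.smul_sum]
  have h1 : ∀ j, g • g ^ j • x = g ^ (j + 1) • x := by
    intro j; rw [smul_smul, ← pow_succ']
  simp_rw [h1]
  rw [Finset.sum_range_succ, hg, Finset.sum_range_succ' (fun j => g ^ j • x), pow_zero]

theorem N_smul {l : ℕ} (hl : l.Prime) {g h : H} (hg : g ^ l = 1) {m : ℕ} (hm : ¬ l ∣ m)
    (hgh : h * g * h⁻¹ = g ^ m) {x : X} (hx : h • x = x) : h • N l g x = N l g x := by
  conv_rhs => rw [← sum_mul hl hg hm x]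
  unfold N
  rw [Finset.smul_sum]
  refine Finset.sum_congr rfl fun j _ => ?_
  have h1 : h * g ^ j = g ^ (m * j) * h := by
    have h2 : h * g ^ j * h⁻¹ = g ^ (m * j) := by
      rw [← conj_pow, hgh, ← pow_mul]
    rw [← h2]; group
  rw [smul_smul, h1, ← smul_smul, hx]

theorem sum_N {l : ℕ} (hl : l.Prime) {z w : H} (hz : z ^ l = 1) (hzw : z * w = w * z) {x : X}
    (hx : N l z x = 0) : ∑ i ∈ Finset.range l, N l (w * z ^ i) x = l • x := by
  have h1 : ∀ i j : ℕ, (w * z ^ i) ^ j • x = w ^ j • z ^ (j * i) • x := by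
    intro i j
    have hc : Commute w (z ^ i) := (show Commute w z from hzw.symm).pow_right i
    rw [hc.mul_pow, ← pow_mul, smul_smul, mul_comm i j]
  unfold N
  simp_rw [h1]
  rw [Finset.sum_comm]
  have h2 : ∀ j ∈ Finset.range l, ∑ i ∈ Finset.range l, w ^ j • z ^ (j * i) • x
      = if j = 0 then l • x else 0 := by
    intro j hj
    rw [← Finset.smul_sum]
    by_cases h0 : j = 0
    · subst h0
      simp
    · rw [if_neg h0]
      have hnd : ¬ l ∣ j := by
        intro hd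
        have := Nat.le_of_dvd (Nat.pos_of_ne_zero h0) hd
        have := Finset.mem_range.1 hj
        omega
      rw [sum_mul hl hz hnd, hx, smul_zero]
  rw [Finset.sum_congr rfl h2, Finset.sum_ite_eq' (Finset.range l) 0]
  rw [if_pos (Finset.mem_range.2 hl.pos)]

end pow

section grp

variable {G : Type} [Group G] [Finite G] {l : ℕ}

open scoped commutatorElement

/-- An `l`-group `K` normalised by an `l`-group `B`, not contained in `M`: there is an element outside
`M` commuting with `B` modulo `M`. -/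
theorem exists_fix (hl : l.Prime) {B : Subgroup G} (hB : IsPGroup l B) (M : Subgroup G) :
    ∀ (n : ℕ) (K : Subgroup G), Nat.card K = n → IsPGroup l K →
      (∀ b ∈ B, ∀ x ∈ K, b * x * b⁻¹ ∈ K) → ¬ K ≤ M →
      ∃ w ∈ K, w ∉ M ∧ ∀ b ∈ B, w * b * w⁻¹ * b⁻¹ ∈ M := by
  intro n
  induction n using Nat.strong_induction_on with
  | _ n ih =>
    intro K hn hK hBK hKM
    have hne : K ≠ ⊥ := by
      intro h
      exact hKM (by rw [h]; exact bot_le)
    have hlt := commutator_lt hl hK hB hBK hne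
    by_cases h : ⁅K, B⁆ ≤ M
    · obtain ⟨w, hw, hwM⟩ := SetLike.not_le_iff_exists.1 hKM
      refine ⟨w, hw, hwM, fun b hb => ?_⟩
      have := h (Subgroup.commutator_mem_commutator hw hb)
      rwa [commutatorElement_def] at this
    · have hcard : Nat.card (⁅K, B⁆ : Subgroup G) < n := by
        rw [← hn]
        exact Set.Finite.card_lt_card (Set.toFinite _) hlt
      have hconj : ∀ b ∈ B, ∀ y ∈ ⁅K, B⁆, b * y * b⁻¹ ∈ ⁅K, B⁆ := by
        intro g hg y hy
        have h3 : ⁅K, B⁆ ≤ (⁅K, B⁆ : Subgroup G).comap (MulAut.conj g).toMonoidHom := by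
          rw [Subgroup.commutator_le]
          intro p hp b hb
          rw [Subgroup.mem_comap]
          have e : (MulAut.conj g).toMonoidHom ⁅p, b⁆ = ⁅g * p * g⁻¹, g * b * g⁻¹⁆ := by
            rw [map_commutatorElement]; rfl
          rw [e]
          exact Subgroup.commutator_mem_commutator (hBK g hg p hp)
            (B.mul_mem (B.mul_mem hg hb) (B.inv_mem hg))
        exact h3 hy
      obtain ⟨w, hw, hwM, hwb⟩ := ih _ hcard ⁅K, B⁆ rfl (hK.to_le hlt.le) hconj h
      exact ⟨w, hlt.le hw, hwM, hwb⟩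

/-- An abelian `l`-group with a unique subgroup of order `l` is cyclic. -/
theorem cyc_of_unique (hl : l.Prime) {Q : Subgroup G} (hQ : IsPGroup l Q)
    (hab : ∀ x ∈ Q, ∀ y ∈ Q, x * y = y * x) {z : G} (hz : z ∈ Q) (hzl : z ^ l = 1) (hz1 : z ≠ 1)
    (h : ∀ y ∈ Q, y ^ l = 1 → ∃ n : ℤ, y = z ^ n) : ∃ c ∈ Q, ∀ y ∈ Q, ∃ n : ℤ, y = c ^ n := by
  have hFl : Fact l.Prime := ⟨hl⟩
  -- an element of maximal order
  obtain ⟨⟨c, hc⟩, hmax⟩ := Finite.exists_max (fun x : Q => orderOf (x : G))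
  have hord : ∀ y ∈ Q, ∃ k : ℕ, orderOf y = l ^ k := by
    intro y hy
    obtain ⟨k, hk⟩ := (IsPGroup.iff_orderOf.1 hQ) ⟨y, hy⟩
    exact ⟨k, by rwa [Subgroup.orderOf_mk] at hk⟩
  obtain ⟨e, he⟩ := hord c hc
  have hexp : ∀ y ∈ Q, y ^ l ^ e = 1 := by
    intro y hy
    obtain ⟨k, hk⟩ := hord y hy
    have h1 : orderOf y ≤ orderOf c := hmax ⟨y, hy⟩
    rw [hk, he] at h1
    have h2 : k ≤ e := (Nat.pow_le_pow_iff_right hl.one_lt).1 h1
    apply orderOf_dvd_iff_pow_eq_one.1
    rw [hk]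
    exact pow_dvd_pow l h2
  have he0 : e ≠ 0 := by
    rintro rfl
    have := hexp z hz
    rw [pow_zero, pow_one] at this
    exact hz1 this
  obtain ⟨f, rfl⟩ : ∃ f, e = f + 1 := ⟨e - 1, by omega⟩
  -- `z` is a power of `c`
  have hzc : ∃ n : ℤ, z = c ^ n := by
    have h1 : (c ^ l ^ f) ^ l = 1 := by
      rw [← pow_mul, ← pow_succ]
      exact hexp c hc
    obtain ⟨n, hn⟩ := h _ (Q.pow_mem hc _) h1
    have h2 : c ^ l ^ f ≠ 1 := by
      intro h3
      have h4 := orderOf_dvd_of_pow_eq_one h3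
      rw [he] at h4
      have := Nat.le_of_dvd (pow_pos hl.pos _) h4
      have h5 : l ^ f < l ^ (f + 1) := Nat.pow_lt_pow_right hl.one_lt (Nat.lt_succ_self f)
      omega
    have h3 : orderOf z = l := orderOf_eq_prime hzl hz1
    have h4 : ¬ (l : ℤ) ∣ n := by
      intro h5
      apply h2
      rw [hn]
      obtain ⟨m, rfl⟩ := h5
      rw [zpow_mul, zpow_natCast, hzl, one_zpow]
    have h5 : IsCoprime (n : ℤ) (l : ℤ) :=
      ((Nat.prime_iff_prime_int.1 hl).coprime_iff_not_dvd.2 h4).symm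
    obtain ⟨u, v, huv⟩ := h5
    refine ⟨(l : ℤ) ^ f * u, ?_⟩
    have h6 : c ^ ((l : ℤ) ^ f * u) = (c ^ l ^ f) ^ u := by
      rw [zpow_mul]
      congr 1
      rw [← zpow_natCast]
      push_cast
      rfl
    rw [h6, hn, ← zpow_mul]
    have h7 : n * u = 1 - v * l := by linarith
    rw [h7, zpow_sub, zpow_one, mul_comm v, zpow_mul, zpow_natCast, hzl, one_zpow, inv_one, mul_one]
  refine ⟨c, hc, ?_⟩
  have key : ∀ (n : ℕ), ∀ y ∈ Q, orderOf y = l ^ n → ∃ m : ℤ, y = c ^ m := by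
    intro n
    induction n with
    | zero =>
      intro y _ h1
      rw [pow_zero, orderOf_eq_one_iff] at h1
      exact ⟨0, by rw [h1, zpow_zero]⟩
    | succ n ih =>
      intro y hy h1
      have h2 : orderOf (y ^ l) = l ^ n := by
        rw [orderOf_pow, h1, pow_succ, Nat.gcd_eq_right (Dvd.intro_left _ rfl),
          Nat.mul_div_cancel _ hl.pos]
      obtain ⟨m, hm⟩ := ih _ (Q.pow_mem hy l) h2
      have h3 : c ^ (m * (l : ℤ) ^ f) = 1 := by
        rw [zpow_mul, ← hm]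
        have h4 : ((y ^ l) ^ ((l : ℤ) ^ f)) = y ^ l ^ (f + 1) := by
          rw [pow_succ' l f, pow_mul, ← zpow_natCast (y ^ l)]
          push_cast
          rfl
        rw [h4]
        exact hexp y hy
      have h4 : (l : ℤ) ^ (f + 1) ∣ m * (l : ℤ) ^ f := by
        have := orderOf_dvd_iff_zpow_eq_one.2 h3
        rw [he] at this
        push_cast at this
        exact this
      have h5 : (l : ℤ) ∣ m := by
        rw [pow_succ'] at h4
        exact Int.dvd_of_mul_dvd_mul_right (pow_ne_zero f (by exact_mod_cast hl.ne_zero)) h4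
      obtain ⟨m', rfl⟩ := h5
      have h6 : (y * (c ^ m')⁻¹) ^ l = 1 := by
        have hcm : Commute y (c ^ m')⁻¹ := hab y hy _ (Q.inv_mem (Q.zpow_mem hc m'))
        rw [hcm.mul_pow, hm, inv_pow, ← zpow_natCast (c ^ m'), ← zpow_mul, mul_comm m']
        exact mul_inv_cancel _
      obtain ⟨n', hn'⟩ := h _ (Q.mul_mem hy (Q.inv_mem (Q.zpow_mem hc m'))) h6
      obtain ⟨a, ha⟩ := hzc
      refine ⟨a * n' + m', ?_⟩
      rw [zpow_add, zpow_mul, ← ha, ← hn']
      group
  intro y hy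
  obtain ⟨k, hk⟩ := hord y hy
  exact key k y hy hk

end grp

section main

variable {H X : Type} [Group H] [Finite H] [AddCommGroup X] [DistribMulAction H X] {l : ℕ}

omit [Finite H] in
theorem card_sup_comm {S T : Subgroup H} (h : ∀ s ∈ S, ∀ t ∈ T, s * t = t * s)
    (h0 : ∀ x ∈ S, x ∈ T → x = 1) :
    Nat.card (S ⊔ T : Subgroup H) = Nat.card S * Nat.card T := by
  refine XF.card_sup ?_ ?_
  · intro t ht s hs
    have : t * s * t⁻¹ = s := by rw [← h s hs t ht]; group
    rw [this]; exact hs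
  · rw [eq_bot_iff]
    intro x hx
    rw [Subgroup.mem_bot]
    exact h0 x hx.1 hx.2

/-- **EK**, core form. `B` is the stabiliser of the extremal vector `lam` in `P`. -/
theorem core (hl : l.Prime) (hX : ∀ x : X, l • x = 0 → x = 0) (F P B Q : Subgroup H) (lam : X)
    (hPF : P ≤ F) (hP : IsPGroup l P)
    (hFP : ∀ y ∈ F, ∃ a ∈ P, ∀ x ∈ P, a * y⁻¹ * x = x * (a * y⁻¹)) (h0 : lam ≠ 0)
    (hext : ∀ v : X, v ≠ 0 → Nat.card (Stb F v) ≤ Nat.card (Stb F lam))
    (hB : ∀ b, b ∈ B ↔ b ∈ P ∧ b • lam = lam) (hQP : Q ≤ P)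
    (hab : ∀ x ∈ Q, ∀ y ∈ Q, x * y = y * x) (hQn : ∀ x ∈ P, ∀ y ∈ Q, x * y * x⁻¹ ∈ Q)
    (hQB : ∀ x ∈ P, ∃ q ∈ Q, ∃ b ∈ B, x = q * b) (hQB0 : ∀ x ∈ Q, x ∈ B → x = 1)
    (hcyc : ∃ c ∈ Q, (∀ b ∈ B, b * c = c * b) ∧
      ∀ y ∈ Q, (∀ b ∈ B, b * y = y * b) → ∃ n : ℤ, y = c ^ n)
    (hnc : ¬ ∃ c ∈ Q, ∀ y ∈ Q, ∃ n : ℤ, y = c ^ n) :
    ∃ k ∈ Q, k ^ l = 1 ∧ k ≠ 1 ∧ N l k lam ≠ 0 ∧
      (∀ h : H, h * k * h⁻¹ ∈ Subgroup.zpowers k → h • lam = lam → h • N l k lam = N l k lam) ∧
      Subgroup.zpowers k ⊔ (B ⊓ Subgroup.centralizer {k}) ≤ Stb P (N l k lam) ∧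
      Nat.card B ≤ Nat.card (Subgroup.zpowers k ⊔ (B ⊓ Subgroup.centralizer {k}) : Subgroup H) := by
  have hFl : Fact l.Prime := ⟨hl⟩
  have hBP : B ≤ P := fun b hb => ((hB b).1 hb).1
  have hBl : IsPGroup l B := hP.to_le hBP
  have hQl : IsPGroup l Q := hP.to_le hQP
  have hBQ : ∀ b ∈ B, ∀ x ∈ Q, b * x * b⁻¹ ∈ Q := fun b hb x hx => hQn b (hBP hb) x hx
  -- the subgroup of order `l` of `C_Q(B)`
  obtain ⟨c, hcQ, hcB, hcg⟩ := hcyc
  obtain ⟨y0, hy0, hy1, hyB⟩ := exists_fix hl hBl ⊥ _ Q rfl hQl hBQ (by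
    intro h
    apply hnc
    refine ⟨1, Q.one_mem, fun y hy => ⟨0, ?_⟩⟩
    have := h hy
    rw [Subgroup.mem_bot] at this
    rw [this, zpow_zero])
  have hyB' : ∀ b ∈ B, b * y0 = y0 * b := by
    intro b hb
    have := hyB b hb
    rw [Subgroup.mem_bot] at this
    calc b * y0 = (y0 * b * y0⁻¹ * b⁻¹)⁻¹ * (y0 * b) := by group
      _ = y0 * b := by rw [this]; group
  obtain ⟨n0, hn0⟩ := hcg y0 hy0 hyB'
  have hc1 : c ≠ 1 := by
    rintro rfl
    rw [one_zpow] at hn0
    exact hy1 (by rw [hn0]; exact Subgroup.one_mem _)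
  obtain ⟨e, he⟩ : ∃ k : ℕ, orderOf c = l ^ k := by
    obtain ⟨k, hk⟩ := (IsPGroup.iff_orderOf.1 hQl) ⟨c, hcQ⟩
    exact ⟨k, by rwa [Subgroup.orderOf_mk] at hk⟩
  have he0 : e ≠ 0 := by
    rintro rfl
    rw [pow_zero, orderOf_eq_one_iff] at he
    exact hc1 he
  obtain ⟨f, rfl⟩ : ∃ f, e = f + 1 := ⟨e - 1, by omega⟩
  obtain ⟨z, hzdef⟩ : ∃ z, z = c ^ l ^ f := ⟨_, rfl⟩
  have hzQ : z ∈ Q := by rw [hzdef]; exact Q.pow_mem hcQ _
  have hzl : z ^ l = 1 := by
    rw [hzdef, ← pow_mul, ← pow_succ, ← he]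
    exact pow_orderOf_eq_one c
  have hz1 : z ≠ 1 := by
    intro h3
    rw [hzdef] at h3
    have h4 := orderOf_dvd_of_pow_eq_one h3
    rw [he] at h4
    have := Nat.le_of_dvd (pow_pos hl.pos _) h4
    have h5 : l ^ f < l ^ (f + 1) := Nat.pow_lt_pow_right hl.one_lt (Nat.lt_succ_self f)
    omega
  have hzB : ∀ b ∈ B, b * z = z * b := by
    intro b hb
    rw [hzdef]
    exact ((show Commute b c from hcB b hb).pow_right _).eq
  have hzg : ∀ y ∈ Q, y ^ l = 1 → (∀ b ∈ B, b * y = y * b) → ∃ n : ℤ, y = z ^ n := by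
    intro y hy hyl hyB
    obtain ⟨n, hn⟩ := hcg y hy hyB
    have h3 : c ^ (n * (l : ℤ)) = 1 := by
      rw [zpow_mul, ← hn, zpow_natCast, hyl]
    have h4 : (l : ℤ) ^ (f + 1) ∣ n * (l : ℤ) := by
      have := orderOf_dvd_iff_zpow_eq_one.2 h3
      rw [he] at this
      push_cast at this
      exact this
    rw [pow_succ] at h4
    have h5 : (l : ℤ) ^ f ∣ n :=
      Int.dvd_of_mul_dvd_mul_right (by exact_mod_cast hl.ne_zero) h4
    obtain ⟨m, rfl⟩ := h5
    refine ⟨m, ?_⟩
    rw [hn, hzdef, zpow_mul]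
    congr 1
    rw [← zpow_natCast]
    push_cast
    rfl
  have hzP : z ∈ P := hQP hzQ
  have hzcP : ∀ x ∈ P, x * z = z * x := by
    intro x hx
    obtain ⟨q, hq, b, hb, rfl⟩ := hQB x hx
    rw [mul_assoc, hzB b hb, ← mul_assoc, hab q hq z hzQ, mul_assoc]
  have hzcF : ∀ y ∈ F, y * z = z * y := by
    intro y hy
    obtain ⟨a, ha, hay⟩ := hFP y hy
    have h1 := hay z hzP
    have h2 := hzcP a ha
    have h3 : y⁻¹ * z = z * y⁻¹ := by
      have h4 : a * (y⁻¹ * z) = a * (z * y⁻¹) := by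
        calc a * (y⁻¹ * z) = a * y⁻¹ * z := by group
          _ = z * (a * y⁻¹) := h1
          _ = (z * a) * y⁻¹ := by group
          _ = (a * z) * y⁻¹ := by rw [h2]
          _ = a * (z * y⁻¹) := by group
      exact mul_left_cancel h4
    calc y * z = y * (z * y⁻¹) * y := by group
      _ = y * (y⁻¹ * z) * y := by rw [h3]
      _ = z * y := by group
  -- the projection to the fixed space of `z` vanishes
  have hordz : orderOf z = l := orderOf_eq_prime hzl hz1
  have hNz : N l z lam = 0 := by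
    by_contra hne
    have h1 := hext _ hne
    have h2 : Subgroup.zpowers z ⊔ Stb F lam ≤ Stb F (N l z lam) := by
      refine sup_le ?_ ?_
      · rw [Subgroup.zpowers_le]
        exact ⟨hPF hzP, N_fix hl.pos hzl lam⟩
      · intro y hy
        refine ⟨hy.1, ?_⟩
        refine N_smul hl hzl (m := 1) (fun h => hl.one_lt.ne' (Nat.dvd_one.1 h)) ?_ hy.2
        rw [pow_one, hzcF y hy.1]
        group
    have h3 : Nat.card (Subgroup.zpowers z ⊔ Stb F lam : Subgroup H)
        = Nat.card (Subgroup.zpowers z) * Nat.card (Stb F lam) := by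
      refine card_sup_comm ?_ ?_
      · intro s hs t ht
        obtain ⟨n, rfl⟩ := Subgroup.mem_zpowers_iff.1 hs
        exact ((show Commute z t from (hzcF t ht.1).symm).zpow_left n).eq
      · intro x hx hx2
        have hxQ : x ∈ Q := (Subgroup.zpowers_le.2 hzQ) hx
        exact hQB0 x hxQ ((hB x).2 ⟨hQP hxQ, hx2.2⟩)
    have h4 := Nat.card_le_card_of_injective _ (Subgroup.inclusion_injective h2)
    rw [h3, Nat.card_zpowers, hordz] at h4
    have h5 : 0 < Nat.card (Stb F lam) := Nat.card_pos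
    have h6 : 2 * Nat.card (Stb F lam) ≤ l * Nat.card (Stb F lam) :=
      Nat.mul_le_mul_right _ hl.two_le
    omega
  -- the second element
  obtain ⟨Om, hOm⟩ : ∃ Om : Subgroup H, ∀ x, x ∈ Om ↔ x ∈ Q ∧ x ^ l = 1 :=
    ⟨{ carrier := {x | x ∈ Q ∧ x ^ l = 1}
       one_mem' := ⟨Q.one_mem, one_pow l⟩
       mul_mem' := fun {a b} ha hb => ⟨Q.mul_mem ha.1 hb.1, by
        rw [(show Commute a b from hab a ha.1 b hb.1).mul_pow, ha.2, hb.2, one_mul]⟩
       inv_mem' := fun {a} ha => ⟨Q.inv_mem ha.1, by rw [inv_pow, ha.2, inv_one]⟩ },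
      fun x => Iff.rfl⟩
  have hOmQ : Om ≤ Q := fun x hx => ((hOm x).1 hx).1
  have hOmz : ¬ Om ≤ Subgroup.zpowers z := by
    intro h
    apply hnc
    refine cyc_of_unique hl hQl hab hzQ hzl hz1 ?_
    intro y hy hyl
    obtain ⟨n, hn⟩ := Subgroup.mem_zpowers_iff.1 (h ((hOm y).2 ⟨hy, hyl⟩))
    exact ⟨n, hn.symm⟩
  obtain ⟨w, hwOm, hwz, hwB⟩ := exists_fix hl hBl (Subgroup.zpowers z) _ Om rfl (hQl.to_le hOmQ)
    (by
      intro b hb x hx
      rw [hOm] at hx ⊢
      refine ⟨hBQ b hb x hx.1, ?_⟩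
      rw [conj_pow, hx.2]
      group) hOmz
  have hwQ : w ∈ Q := hOmQ hwOm
  have hwl : w ^ l = 1 := ((hOm w).1 hwOm).2
  have hzw : z * w = w * z := hab z hzQ w hwQ
  obtain ⟨i, _, hi⟩ : ∃ i ∈ Finset.range l, N l (w * z ^ i) lam ≠ 0 := by
    by_contra hcon
    push Not at hcon
    have h1 := sum_N hl hzl hzw hNz
    rw [Finset.sum_eq_zero hcon] at h1
    exact h0 (hX lam h1.symm)
  obtain ⟨k, hk⟩ : ∃ k, k = w * z ^ i := ⟨_, rfl⟩
  rw [← hk] at hi
  have hkQ : k ∈ Q := by rw [hk]; exact Q.mul_mem hwQ (Q.pow_mem hzQ i)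
  have hkl : k ^ l = 1 := by
    rw [hk, ((show Commute w z from hzw.symm).pow_right i).mul_pow, hwl, one_mul, ← pow_mul,
      mul_comm, pow_mul, hzl, one_pow]
  have hk1 : k ≠ 1 := by
    intro h
    apply hwz
    rw [hk] at h
    have : w = z ^ (-(i : ℤ)) := by
      rw [zpow_neg, zpow_natCast]
      exact eq_inv_of_mul_eq_one_left h
    rw [this]
    exact Subgroup.zpow_mem_zpowers z _
  have hordk : orderOf k = l := orderOf_eq_prime hkl hk1
  -- the commutators of `k` with `B`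
  have hkB : ∀ b ∈ B, k * b * k⁻¹ * b⁻¹ ∈ Subgroup.zpowers z := by
    intro b hb
    have h1 : (z ^ i) * b * (z ^ i)⁻¹ = b := by
      rw [← ((show Commute b z from hzB b hb).pow_right i).eq]; group
    have h2 : k * b * k⁻¹ * b⁻¹ = w * b * w⁻¹ * b⁻¹ := by
      rw [hk]
      calc w * z ^ i * b * (w * z ^ i)⁻¹ * b⁻¹ = w * ((z ^ i) * b * (z ^ i)⁻¹) * w⁻¹ * b⁻¹ := by
            group
        _ = w * b * w⁻¹ * b⁻¹ := by rw [h1]
    rw [h2]
    exact hwB b hb
  have hcomm : ∀ t ∈ Subgroup.zpowers z, ∀ b ∈ B, b * t * b⁻¹ = t := by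
    intro t ht b hb
    obtain ⟨n, rfl⟩ := Subgroup.mem_zpowers_iff.1 ht
    rw [((show Commute b z from hzB b hb).zpow_right n).eq]
    group
  have hmul : ∀ b ∈ B, ∀ b' ∈ B, k * (b * b') * k⁻¹ * (b * b')⁻¹
      = (k * b * k⁻¹ * b⁻¹) * (k * b' * k⁻¹ * b'⁻¹) := by
    intro b hb b' hb'
    have h1 := hcomm _ (hkB b' hb') b hb
    calc k * (b * b') * k⁻¹ * (b * b')⁻¹
        = (k * b * k⁻¹ * b⁻¹) * (b * (k * b' * k⁻¹ * b'⁻¹) * b⁻¹) := by group
      _ = _ := by rw [h1]
  let φ : B →* Subgroup.zpowers z :=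
    MonoidHom.mk' (fun b => ⟨k * b * k⁻¹ * (b : H)⁻¹, hkB b b.2⟩) (by
      intro b b'
      apply Subtype.ext
      exact hmul b b.2 b' b'.2)
  have hker : φ.ker = (B ⊓ Subgroup.centralizer {k}).subgroupOf B := by
    ext b
    rw [MonoidHom.mem_ker, Subgroup.mem_subgroupOf, Subgroup.mem_inf,
      Subgroup.mem_centralizer_singleton_iff]
    constructor
    · intro h
      have h1 : k * b * k⁻¹ * (b : H)⁻¹ = 1 := congrArg Subtype.val h
      refine ⟨b.2, ?_⟩
      symm
      calc k * (b : H) = (k * b * k⁻¹ * (b : H)⁻¹) * (b * k) := by group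
        _ = b * k := by rw [h1, one_mul]
    · intro h
      apply Subtype.ext
      change k * b * k⁻¹ * (b : H)⁻¹ = 1
      rw [← h.2]
      group
  have hcard : Nat.card B ≤ l * Nat.card (B ⊓ Subgroup.centralizer {k} : Subgroup H) := by
    have h1 := Subgroup.card_mul_index φ.ker
    rw [Subgroup.index_ker] at h1
    have h2 : Nat.card φ.range ≤ l := by
      have := Subgroup.card_le_card_group φ.range
      rwa [Nat.card_zpowers, hordz] at this
    have h3 : Nat.card φ.ker = Nat.card (B ⊓ Subgroup.centralizer {k} : Subgroup H) := by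
      rw [hker]
      exact Nat.card_congr (Subgroup.subgroupOfEquivOfLe inf_le_left).toEquiv
    rw [← h1, h3, mul_comm]
    exact Nat.mul_le_mul_right _ h2
  have hcard2 : Nat.card (Subgroup.zpowers k ⊔ (B ⊓ Subgroup.centralizer {k}) : Subgroup H)
      = l * Nat.card (B ⊓ Subgroup.centralizer {k} : Subgroup H) := by
    rw [card_sup_comm, Nat.card_zpowers, hordk]
    · intro s hs t ht
      obtain ⟨n, rfl⟩ := Subgroup.mem_zpowers_iff.1 hs
      have h1 := Subgroup.mem_centralizer_singleton_iff.1 ht.2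
      exact ((show Commute k t from h1.symm).zpow_left n).eq
    · intro x hx hx2
      exact hQB0 x ((Subgroup.zpowers_le.2 hkQ) hx) hx2.1
  have hfix : ∀ h : H, h * k * h⁻¹ ∈ Subgroup.zpowers k → h • lam = lam →
      h • N l k lam = N l k lam := by
    intro h hh hx
    obtain ⟨m, hm⟩ : ∃ m : ℕ, h * k * h⁻¹ = k ^ m := by
      obtain ⟨n, hn⟩ := (mem_powers_iff_mem_zpowers.2 hh)
      exact ⟨n, hn.symm⟩
    refine N_smul hl hkl (m := m) ?_ hm hx
    rintro ⟨j, rfl⟩
    rw [pow_mul, hkl, one_pow] at hm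
    apply hk1
    calc k = h⁻¹ * (h * k * h⁻¹) * h := by group
      _ = 1 := by rw [hm]; group
  refine ⟨k, hkQ, hkl, hk1, hi, hfix, ?_, ?_⟩
  · refine sup_le ?_ ?_
    · rw [Subgroup.zpowers_le]
      exact ⟨hQP hkQ, N_fix hl.pos hkl lam⟩
    · intro b hb
      refine ⟨hBP hb.1, hfix b ?_ ((hB b).1 hb.1).2⟩
      have h1 := Subgroup.mem_centralizer_singleton_iff.1 hb.2
      rw [h1]
      have : k * b * b⁻¹ = k := by group
      rw [this]
      exact Subgroup.mem_zpowers k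
  · rw [hcard2]
    exact hcard

theorem Stb_sup {P P' : Subgroup H} (hl : l.Prime) (hP : IsPGroup l P) (hP' : ¬ l ∣ Nat.card P')
    (hc : ∀ x ∈ P, ∀ y ∈ P', x * y = y * x) (w : X) :
    Nat.card (Stb (P ⊔ P') w) = Nat.card (Stb P w) * Nat.card (Stb P' w) := by
  have hmem : ∀ y, y ∈ P ⊔ P' ↔ ∃ a ∈ P, ∃ b ∈ P', a * b = y := by
    intro y
    refine XF.mem_sup ?_
    intro s hs k hk
    rw [← hc k hk s hs]
    have : k * s * s⁻¹ = k := by group
    rw [this]
    exact hk
  have hcop : ∀ a ∈ P, ∀ b ∈ P', (orderOf b).Coprime (orderOf a) := fun a ha b hb =>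
    coprime_orders hl hP hP' hb ha
  have hint : ∀ x ∈ P, x ∈ P' → x = 1 := by
    intro x hx hx'
    have := hcop x hx x hx'
    rw [Nat.coprime_self, orderOf_eq_one_iff] at this
    exact this
  have hsup : Stb (P ⊔ P') w = Stb P w ⊔ Stb P' w := by
    apply le_antisymm
    · rintro y ⟨hy, hyw⟩
      obtain ⟨a, ha, b, hb, rfl⟩ := (hmem y).1 hy
      have hab : Commute a b := hc a ha b hb
      have hfix : ∀ n : ℕ, (a * b) ^ n • w = w := by
        intro n
        induction n with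
        | zero => rw [pow_zero, one_smul]
        | succ n ih => rw [pow_succ, mul_smul, hyw, ih]
      have haw : a • w = w := by
        have h1 := (hcop a ha b hb)
        obtain ⟨n, hn⟩ := Nat.chineseRemainder h1 0 1
        have h2 : (a * b) ^ n = a := by
          rw [hab.mul_pow]
          have h3 : b ^ n = 1 := by
            rw [← orderOf_dvd_iff_pow_eq_one]
            exact (Nat.modEq_zero_iff_dvd).1 hn.1
          have h4 : a ^ n = a ^ 1 := pow_eq_pow_iff_modEq.2 hn.2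
          rw [h3, h4, pow_one, mul_one]
        rw [← h2]
        exact hfix n
      have hbw : b • w = w := by
        have h1 : a • b • w = w := by rw [← mul_smul]; exact hyw
        have h2 : a⁻¹ • a • b • w = a⁻¹ • w := by rw [h1]
        rw [inv_smul_smul] at h2
        rw [h2, inv_smul_eq_iff, haw]
      exact (Stb P w ⊔ Stb P' w).mul_mem (Subgroup.mem_sup_left ⟨ha, haw⟩)
        (Subgroup.mem_sup_right ⟨hb, hbw⟩)
    · refine sup_le ?_ ?_
      · rintro y ⟨hy, hyw⟩
        exact ⟨Subgroup.mem_sup_left hy, hyw⟩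
      · rintro y ⟨hy, hyw⟩
        exact ⟨Subgroup.mem_sup_right hy, hyw⟩
  rw [hsup]
  exact card_sup_comm (fun s hs t ht => hc s hs.1 t ht.1) (fun x hx hx' => hint x hx.1 hx'.1)

omit [Finite H] in
theorem cyc_iff (Q : Subgroup H) : IsCyclic Q ↔ ∃ c ∈ Q, ∀ y ∈ Q, ∃ n : ℤ, y = c ^ n := by
  constructor
  · rintro ⟨⟨c, hc⟩, hg⟩
    refine ⟨c, hc, fun y hy => ?_⟩
    obtain ⟨n, hn⟩ := Subgroup.mem_zpowers_iff.1 (hg ⟨y, hy⟩)
    refine ⟨n, ?_⟩
    have := congrArg Subtype.val hn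
    simpa using this.symm
  · rintro ⟨c, hc, hg⟩
    refine ⟨⟨c, hc⟩, fun y => ?_⟩
    obtain ⟨n, hn⟩ := hg y y.2
    refine ⟨n, ?_⟩
    apply Subtype.ext
    simpa using hn.symm

end main

end EKAM

open XF in
theorem specEKA : SpecEKA := by
  intro H X _ _ _ _ _ l p hl hp hpX hpH FF P P' Q v hP hP' hc hFF hv hQP hQn hab hQB hQ0 hcyc hnc
  subst hFF
  have hFl : Fact l.Prime := ⟨hl⟩
  -- `l` is invertible on `X`
  obtain ⟨B, hBdef⟩ : ∃ B, B = Stb P v := ⟨_, rfl⟩
  rw [← hBdef] at hQB hcyc ⊢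
  have hB : ∀ b, b ∈ B ↔ b ∈ P ∧ b • v = v := by
    intro b; rw [hBdef]; exact Iff.rfl
  have hQne : Q ≠ ⊥ := by
    rintro rfl
    exact hnc inferInstance
  have hlH : l ∣ Nat.card H := by
    have h1 : Nat.card Q ∣ Nat.card H := Subgroup.card_subgroup_dvd_card Q
    obtain ⟨n, hn⟩ := (IsPGroup.iff_card).1 (hP.to_le hQP)
    have h2 : n ≠ 0 := by
      rintro rfl
      rw [pow_zero] at hn
      exact hQne (Subgroup.card_eq_one.1 hn)
    rw [hn] at h1
    exact (dvd_pow_self l h2).trans h1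
  have hlp : l ≠ p := by
    rintro rfl
    exact hpH hlH
  have hX : ∀ x : X, l • x = 0 → x = 0 := by
    intro x hx
    have h1 : addOrderOf x ∣ l := addOrderOf_dvd_of_nsmul_eq_zero hx
    have h2 : addOrderOf x ∣ p := addOrderOf_dvd_of_nsmul_eq_zero (hpX x)
    have h3 : addOrderOf x ∣ 1 := by
      have := Nat.dvd_gcd h1 h2
      rwa [(Nat.coprime_primes hl hp).2 hlp] at this
    exact AddMonoid.addOrderOf_eq_one_iff.1 (Nat.dvd_one.1 h3)
  have hQ0' : ∀ x ∈ Q, x ∈ B → x = 1 := by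
    intro x hx hxB
    have : x ∈ Stb Q v := ⟨hx, ((hB x).1 hxB).2⟩
    rw [hQ0] at this
    exact Subgroup.mem_bot.1 this
  obtain ⟨k, hkQ, hkl, hk1, hne, hfix, hle, hcard⟩ := EKAM.core hl hX (P ⊔ P') P B Q v le_sup_left hP
    (by
      intro y hy
      have hmem : y ∈ P ⊔ P' ↔ ∃ a ∈ P, ∃ b ∈ P', a * b = y := by
        refine XF.mem_sup ?_
        intro s hs k hk
        rw [← hc k hk s hs]
        have : k * s * s⁻¹ = k := by group
        rw [this]
        exact hk
      obtain ⟨a, ha, b, hb, rfl⟩ := hmem.1 hy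
      refine ⟨a, ha, fun x hx => ?_⟩
      have h1 : a * (a * b)⁻¹ = b⁻¹ := by
        rw [hc a ha b hb]; group
      rw [h1]
      exact (hc x hx b⁻¹ (P'.inv_mem hb)).symm)
    hv.1 hv.2 hB hQP hab (fun x hx y hy => hQn x hx y hy) hQB hQ0'
    (by
      obtain ⟨c, hcC, hg⟩ := (EKAM.cyc_iff _).1 hcyc
      rw [mem_CK] at hcC
      refine ⟨c, hcC.1, hcC.2, fun y hy hyB => hg y ?_⟩
      rw [mem_CK]
      exact ⟨hy, hyB⟩)
    (fun h => hnc ((EKAM.cyc_iff _).2 h))
  obtain ⟨v', hv'⟩ : ∃ v', v' = EKAM.N l k v := ⟨_, rfl⟩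
  rw [← hv'] at hne hfix hle
  have hCK : CK B (Subgroup.zpowers k) = B ⊓ Subgroup.centralizer {k} := by
    ext x
    rw [mem_CK, Subgroup.mem_inf, Subgroup.mem_centralizer_singleton_iff]
    constructor
    · rintro ⟨h1, h2⟩
      exact ⟨h1, (h2 k (Subgroup.mem_zpowers k)).symm⟩
    · rintro ⟨h1, h2⟩
      refine ⟨h1, fun s hs => ?_⟩
      obtain ⟨n, rfl⟩ := Subgroup.mem_zpowers_iff.1 hs
      exact ((show Commute k x from h2.symm).zpow_left n).eq
  have hP'v : Stb P' v ≤ Stb P' v' := by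
    rintro y ⟨hy, hyv⟩
    refine ⟨hy, hfix y ?_ hyv⟩
    have h1 : y * k * y⁻¹ = k := by rw [← hc k (hQP hkQ) y hy]; group
    rw [h1]
    exact Subgroup.mem_zpowers k
  have hc1 : Nat.card B ≤ Nat.card (Stb P v') :=
    hcard.trans (Nat.card_le_card_of_injective _ (Subgroup.inclusion_injective hle))
  have hc2 : Nat.card (Stb P' v) ≤ Nat.card (Stb P' v') :=
    Nat.card_le_card_of_injective _ (Subgroup.inclusion_injective hP'v)
  have hc3 := hv.2 v' hne
  rw [EKAM.Stb_sup hl hP hP' hc, EKAM.Stb_sup hl hP hP' hc, ← hBdef] at hc3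
  have hpos1 : 0 < Nat.card B := Nat.card_pos
  have hpos2 : 0 < Nat.card (Stb P' v) := Nat.card_pos
  have he2 : Nat.card (Stb P' v') = Nat.card (Stb P' v) := by
    by_contra hcon
    have h1 : Nat.card (Stb P' v) < Nat.card (Stb P' v') := lt_of_le_of_ne hc2 (Ne.symm hcon)
    have h2 : Nat.card B * Nat.card (Stb P' v) < Nat.card (Stb P v') * Nat.card (Stb P' v') :=
      lt_of_lt_of_le (Nat.mul_lt_mul_of_pos_left h1 hpos1) (Nat.mul_le_mul_right _ hc1)
    omega
  have he1 : Nat.card (Stb P v') = Nat.card B := by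
    rw [he2] at hc3
    exact le_antisymm (Nat.le_of_mul_le_mul_right hc3 hpos2) hc1
  have hS : Subgroup.zpowers k ⊔ (B ⊓ Subgroup.centralizer {k}) = Stb P v' := by
    apply Subgroup.eq_of_le_of_card_ge hle
    rw [he1]
    exact hcard
  refine ⟨Subgroup.zpowers k, (Subgroup.zpowers_le.2 hkQ), ?_, v', ?_, ?_, ?_, ?_, ?_⟩
  · have : Fact l.Prime := ⟨hl⟩
    rw [Nat.card_zpowers, orderOf_eq_prime hkl hk1]
  · refine ⟨hne, fun w hw => ?_⟩
    have h1 := hv.2 w hw
    rw [EKAM.Stb_sup hl hP hP' hc v', he1, he2]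
    rw [EKAM.Stb_sup hl hP hP' hc v, ← hBdef] at h1
    exact h1
  · intro h hh hhv
    exact hfix h (hh k (Subgroup.mem_zpowers k)) hhv
  · rw [hCK, hS]
  · apply le_antisymm
    · rintro x ⟨hxQ, hxv⟩
      have h1 : x ∈ Stb P v' := ⟨hQP hxQ, hxv⟩
      rw [← hS] at h1
      have hmem : x ∈ Subgroup.zpowers k ⊔ (B ⊓ Subgroup.centralizer {k}) ↔
          ∃ a ∈ Subgroup.zpowers k, ∃ b ∈ B ⊓ Subgroup.centralizer {k}, a * b = x := by
        refine XF.mem_sup ?_
        intro s hs t ht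
        obtain ⟨n, rfl⟩ := Subgroup.mem_zpowers_iff.1 ht
        have h2 : s * k = k * s := Subgroup.mem_centralizer_singleton_iff.1 hs.2
        have h3 : s * k ^ n * s⁻¹ = k ^ n := by
          rw [((show Commute s k from h2).zpow_right n).eq]; group
        rw [h3]
        exact ht
      obtain ⟨a, ha, b, hb, rfl⟩ := hmem.1 h1
      have haQ : a ∈ Q := (Subgroup.zpowers_le.2 hkQ) ha
      have hbQ : b ∈ Q := by
        have : b = a⁻¹ * (a * b) := by group
        rw [this]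
        exact Q.mul_mem (Q.inv_mem haQ) hxQ
      rw [hQ0' b hbQ hb.1, mul_one]
      exact ha
    · rw [Subgroup.zpowers_le]
      refine ⟨hkQ, ?_⟩
      rw [hv']
      exact EKAM.N_fix hl.pos hkl v
  · exact (Subgroup.eq_of_le_of_card_ge hP'v he2.le).symm

namespace EKA

theorem main : SpecEKA := specEKA

end EKA

end Pool.Agent.Lib.MPbe1941.X
end

section
/-!
# MP_be1941_al (exact bound), module TWD: the two-dimensional case of the ratio lemma

`Γ` a finite group acting on a two-dimensional space over an algebraically closed field, `T` a normal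
`t`-subgroup, `ρ ∈ Γ` of odd order prime to `t`, and `t ≠ 2` or the order of `ρ` is prime to `3` or
`T` is abelian. Then `ρ` and `T` commute on the space.
-/
set_option autoImplicit false

namespace Pool.Agent.Lib.MPbe1941.X

open Module

theorem hom_comm_eq_one {G M : Type*} [Group G] [Monoid M] (f : G →* M) {a x c : G}
    (h : a * x * a⁻¹ = c * x) (hc : f a * f c = f c * f a)
    (hco : (orderOf a).Coprime (orderOf c)) : f c = 1 := by
  have h1 : f.toHomUnits a * f.toHomUnits x * (f.toHomUnits a)⁻¹ =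
      f.toHomUnits c * f.toHomUnits x := by
    rw [← map_mul, ← map_inv, ← map_mul, h, map_mul]
  have h2 : f.toHomUnits a * f.toHomUnits c = f.toHomUnits c * f.toHomUnits a := by
    apply Units.ext
    simpa using hc
  have h3 := comm_eq_one h1 h2 (Nat.Coprime.coprime_dvd_left (orderOf_map_dvd _ _)
    (Nat.Coprime.coprime_dvd_right (orderOf_map_dvd _ _) hco))
  have := congrArg Units.val h3
  simpa using this

section Two

variable {k U : Type*} [Field k] [AddCommGroup U] [Module k U]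

/-- `A` is a scalar. -/
def Sc (A : U →ₗ[k] U) : Prop := ∃ c : k, ∀ v, A v = c • v

/-- `e1, e2` is a basis. -/
structure Fr (k : Type*) {U : Type*} [Field k] [AddCommGroup U] [Module k U] (e1 e2 : U) :
    Prop where
  sp : ∀ v : U, ∃ x y : k, v = x • e1 + y • e2
  li : ∀ x y : k, x • e1 + y • e2 = 0 → x = 0 ∧ y = 0

/-- diagonal -/
def Dg (e1 e2 : U) (A : U →ₗ[k] U) : Prop := ∃ p q : k, A e1 = p • e1 ∧ A e2 = q • e2

/-- antidiagonal -/
def Ad (e1 e2 : U) (A : U →ₗ[k] U) : Prop := ∃ p q : k, A e1 = p • e2 ∧ A e2 = q • e1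

theorem Fr.ne1 {e1 e2 : U} (h : Fr k e1 e2) : e1 ≠ 0 := by
  intro h0
  have := h.li 1 0 (by rw [h0]; simp)
  exact one_ne_zero this.1

theorem Fr.ne2 {e1 e2 : U} (h : Fr k e1 e2) : e2 ≠ 0 := by
  intro h0
  have := h.li 0 1 (by rw [h0]; simp)
  exact one_ne_zero this.2

theorem Fr.not {e1 e2 : U} (h : Fr k e1 e2) {p q : k} (hp : p • e1 = q • e2) : p = 0 ∧ q = 0 := by
  have := h.li p (-q) (by rw [hp]; simp)
  exact ⟨this.1, by simpa using this.2⟩

theorem Fr.eqmap {e1 e2 : U} (h : Fr k e1 e2) {A B : U →ₗ[k] U} (h1 : A e1 = B e1)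
    (h2 : A e2 = B e2) : A = B := by
  ext v
  obtain ⟨x, y, rfl⟩ := h.sp v
  rw [map_add, map_add, map_smul, map_smul, map_smul, map_smul, h1, h2]

/-- A linear map of finite order prime to the characteristic, not a scalar, has two different
eigenvalues. -/
theorem exists_eigen [IsAlgClosed k] [FiniteDimensional k U] [Nontrivial U] (A : U →ₗ[k] U) {n : ℕ}
    (hn : (n : k) ≠ 0) (hA : A ^ n = 1) (hs : ¬ Sc A) :
    ∃ (a d : k) (e1 e2 : U), a ≠ d ∧ e1 ≠ 0 ∧ e2 ≠ 0 ∧ A e1 = a • e1 ∧ A e2 = d • e2 := by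
  obtain ⟨a, ha⟩ := Module.End.exists_eigenvalue A
  obtain ⟨e1, he1⟩ := ha.exists_hasEigenvector
  have hss : Module.End.IsSemisimple A := by
    refine Module.End.isSemisimple_of_squarefree_aeval_eq_zero
      (p := (Polynomial.X ^ n - 1 : Polynomial k)) ?_ ?_
    · exact (Polynomial.X_pow_sub_one_separable_iff.2 hn).squarefree
    · simp [hA]
  have htop := Module.End.iSup_maxGenEigenspace_eq_top A
  by_contra hcon
  push Not at hcon
  apply hs
  refine ⟨a, ?_⟩
  have h1 : ∀ d, d ≠ a → Module.End.eigenspace A d = ⊥ := by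
    intro d hd
    rw [Submodule.eq_bot_iff]
    intro x hx
    by_contra hx0
    exact hcon a d e1 x (Ne.symm hd) he1.2 hx0 (Module.End.mem_eigenspace_iff.1 he1.1)
      (Module.End.mem_eigenspace_iff.1 hx)
  have h2 : Module.End.eigenspace A a = ⊤ := by
    rw [← top_le_iff, ← htop]
    refine iSup_le ?_
    intro d
    rw [Module.End.IsFinitelySemisimple.maxGenEigenspace_eq_eigenspace hss.isFinitelySemisimple]
    by_cases hd : d = a
    · rw [hd]
    · rw [h1 d hd]; exact bot_le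
  intro v
  exact Module.End.mem_eigenspace_iff.1 (by rw [h2]; trivial)

/-- Two eigenvectors for different eigenvalues form a basis of a two-dimensional space. -/
theorem frame [FiniteDimensional k U] (hd : finrank k U = 2) {A : U →ₗ[k] U} {a d : k} {e1 e2 : U}
    (hne : a ≠ d) (h1 : e1 ≠ 0) (h2 : e2 ≠ 0) (ha : A e1 = a • e1) (hb : A e2 = d • e2) :
    Fr k e1 e2 := by
  have hli : ∀ x y : k, x • e1 + y • e2 = 0 → x = 0 ∧ y = 0 := by
    intro x y h
    have h3 : A (x • e1 + y • e2) = 0 := by rw [h, map_zero]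
    rw [map_add, map_smul, map_smul, ha, hb] at h3
    have h4 : (x * (a - d)) • e1 = 0 := by
      have : x • a • e1 + y • d • e2 - d • (x • e1 + y • e2) = 0 := by rw [h3, h, smul_zero, sub_zero]
      rw [← this]
      module
    have h5 : x = 0 := by
      rcases smul_eq_zero.1 h4 with h6 | h6
      · rcases mul_eq_zero.1 h6 with h7 | h7
        · exact h7
        · exact absurd (sub_eq_zero.1 h7) hne
      · exact absurd h6 h1
    refine ⟨h5, ?_⟩
    rw [h5, zero_smul, zero_add] at h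
    rcases smul_eq_zero.1 h with h6 | h6
    · exact h6
    · exact absurd h6 h2
  refine ⟨?_, hli⟩
  have hlin : LinearIndependent k ![e1, e2] := by
    rw [LinearIndependent.pair_iff]
    exact hli
  intro v
  have hspan : Submodule.span k (Set.range ![e1, e2]) = ⊤ :=
    hlin.span_eq_top_of_card_eq_finrank (by rw [hd]; simp)
  have hv : v ∈ Submodule.span k (Set.range ![e1, e2]) := by rw [hspan]; trivial
  rw [Matrix.range_cons, Matrix.range_cons, Matrix.range_empty, Set.union_empty] at hv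
  have hv' : v ∈ Submodule.span k {e1, e2} := hv
  rw [Submodule.mem_span_pair] at hv'
  obtain ⟨x, y, hxy⟩ := hv'
  exact ⟨x, y, hxy.symm⟩

/-- eigenvectors of a diagonal map with two different eigenvalues -/
theorem eigvec {e1 e2 : U} (hF : Fr k e1 e2) {A : U →ₗ[k] U} {a d : k} (hne : a ≠ d)
    (ha : A e1 = a • e1) (hb : A e2 = d • e2) {v : U} {m : k} (hv : v ≠ 0) (hA : A v = m • v) :
    (m = a ∧ ∃ x : k, v = x • e1) ∨ (m = d ∧ ∃ y : k, v = y • e2) := by
  obtain ⟨x, y, hxy⟩ := hF.sp v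
  rw [hxy, map_add, map_smul, map_smul, ha, hb] at hA
  have h1 : (x * (a - m)) • e1 + (y * (d - m)) • e2 = 0 := by
    have : x • a • e1 + y • d • e2 - m • (x • e1 + y • e2) = 0 := by rw [hA]; simp
    rw [← this]
    module
  obtain ⟨h2, h3⟩ := hF.li _ _ h1
  by_cases hx : x = 0
  · right
    have hy : y ≠ 0 := by
      rintro rfl
      apply hv
      rw [hxy, hx]; simp
    refine ⟨?_, y, by rw [hxy, hx]; simp⟩
    rcases mul_eq_zero.1 h3 with h | h
    · exact absurd h hy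
    · exact (sub_eq_zero.1 h).symm
  · left
    have hm : m = a := by
      rcases mul_eq_zero.1 h2 with h | h
      · exact absurd h hx
      · exact (sub_eq_zero.1 h).symm
    refine ⟨hm, x, ?_⟩
    have hy : y = 0 := by
      rcases mul_eq_zero.1 h3 with h | h
      · exact h
      · rw [hm] at h
        exact absurd (sub_eq_zero.1 h).symm hne
    rw [hxy, hy]; simp

/-- A map which commutes up to a scalar with a diagonal map with two different eigenvalues is
diagonal or antidiagonal. -/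
theorem dg_or_ad {e1 e2 : U} (hF : Fr k e1 e2) {A B : U →ₗ[k] U} {a d z : k} (hne : a ≠ d)
    (ha0 : a ≠ 0) (hd0 : d ≠ 0)
    (ha : A e1 = a • e1) (hb : A e2 = d • e2) (hz : z ≠ 0) (h : ∀ v, B (A v) = z • A (B v))
    (hB : ∀ v, B v = 0 → v = 0) : Dg e1 e2 B ∨ Ad e1 e2 B := by
  have h1 : A (B e1) = (z⁻¹ * a) • B e1 := by
    have := h e1
    rw [ha, map_smul] at this
    rw [mul_smul, this, smul_smul, inv_mul_cancel₀ hz, one_smul]
  have h2 : A (B e2) = (z⁻¹ * d) • B e2 := by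
    have := h e2
    rw [hb, map_smul] at this
    rw [mul_smul, this, smul_smul, inv_mul_cancel₀ hz, one_smul]
  have hn1 : B e1 ≠ 0 := fun h0 => hF.ne1 (hB _ h0)
  have hn2 : B e2 ≠ 0 := fun h0 => hF.ne2 (hB _ h0)
  rcases eigvec hF hne ha hb hn1 h1 with ⟨h3, x, hx⟩ | ⟨h3, x, hx⟩
  · rcases eigvec hF hne ha hb hn2 h2 with ⟨h4, y, hy⟩ | ⟨h4, y, hy⟩
    · exfalso
      have : z⁻¹ = 1 := by
        have := h3
        field_simp at this ⊢
        exact this
      rw [this, one_mul] at h4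
      exact hne h4.symm
    · exact Or.inl ⟨x, y, hx, hy⟩
  · rcases eigvec hF hne ha hb hn2 h2 with ⟨h4, y, hy⟩ | ⟨h4, y, hy⟩
    · exact Or.inr ⟨x, y, hx, hy⟩
    · exfalso
      have : z⁻¹ = 1 := by
        have := h4
        field_simp at this ⊢
        exact this
      rw [this, one_mul] at h3
      exact hne h3

theorem Dg.mul {e1 e2 : U} {A B : U →ₗ[k] U} (hA : Dg e1 e2 A) (hB : Dg e1 e2 B) :
    Dg e1 e2 (A * B) := by
  obtain ⟨p, q, h1, h2⟩ := hA
  obtain ⟨p', q', h3, h4⟩ := hB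
  refine ⟨p' * p, q' * q, ?_, ?_⟩
  · rw [Module.End.mul_apply, h3, map_smul, h1, smul_smul]
  · rw [Module.End.mul_apply, h4, map_smul, h2, smul_smul]

theorem Dg.mul_ad {e1 e2 : U} {A B : U →ₗ[k] U} (hA : Dg e1 e2 A) (hB : Ad e1 e2 B) :
    Ad e1 e2 (A * B) := by
  obtain ⟨p, q, h1, h2⟩ := hA
  obtain ⟨p', q', h3, h4⟩ := hB
  refine ⟨p' * q, q' * p, ?_, ?_⟩
  · rw [Module.End.mul_apply, h3, map_smul, h2, smul_smul]
  · rw [Module.End.mul_apply, h4, map_smul, h1, smul_smul]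

theorem Ad.mul_dg {e1 e2 : U} {A B : U →ₗ[k] U} (hA : Ad e1 e2 A) (hB : Dg e1 e2 B) :
    Ad e1 e2 (A * B) := by
  obtain ⟨p, q, h1, h2⟩ := hA
  obtain ⟨p', q', h3, h4⟩ := hB
  refine ⟨p' * p, q' * q, ?_, ?_⟩
  · rw [Module.End.mul_apply, h3, map_smul, h1, smul_smul]
  · rw [Module.End.mul_apply, h4, map_smul, h2, smul_smul]

theorem Ad.mul {e1 e2 : U} {A B : U →ₗ[k] U} (hA : Ad e1 e2 A) (hB : Ad e1 e2 B) :
    Dg e1 e2 (A * B) := by
  obtain ⟨p, q, h1, h2⟩ := hA
  obtain ⟨p', q', h3, h4⟩ := hB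
  refine ⟨p' * q, q' * p, ?_, ?_⟩
  · rw [Module.End.mul_apply, h3, map_smul, h2, smul_smul]
  · rw [Module.End.mul_apply, h4, map_smul, h1, smul_smul]

theorem Dg.comm {e1 e2 : U} (hF : Fr k e1 e2) {A B : U →ₗ[k] U} (hA : Dg e1 e2 A)
    (hB : Dg e1 e2 B) : A * B = B * A := by
  obtain ⟨p, q, h1, h2⟩ := hA
  obtain ⟨p', q', h3, h4⟩ := hB
  refine hF.eqmap ?_ ?_
  · rw [Module.End.mul_apply, Module.End.mul_apply, h3, h1, map_smul, map_smul, h1, h3, smul_smul,
      smul_smul, mul_comm]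
  · rw [Module.End.mul_apply, Module.End.mul_apply, h4, h2, map_smul, map_smul, h2, h4, smul_smul,
      smul_smul, mul_comm]

theorem Ad.pow_odd {e1 e2 : U} {A : U →ₗ[k] U} (hA : Ad e1 e2 A) (n : ℕ) :
    Ad e1 e2 (A ^ (2 * n + 1)) := by
  induction n with
  | zero => simpa using hA
  | succ n ih =>
    have : A ^ (2 * (n + 1) + 1) = A ^ (2 * n + 1) * (A * A) := by
      rw [show 2 * (n + 1) + 1 = (2 * n + 1) + 2 by ring, pow_add, pow_two]
    rw [this]
    exact ih.mul_dg (hA.mul hA)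

/-- The element `z`: not a scalar, and commuting with `T` up to scalars. -/
theorem exists_central {Γ : Type*} [Group Γ] [Finite Γ] (φ : Γ →* (U →ₗ[k] U)) {t : ℕ}
    (ht : t.Prime) {T : Subgroup Γ} (hT : IsPGroup t T)
    (hsc : ¬ ∀ y ∈ T, Sc (φ y)) :
    ∃ z ∈ T, ¬ Sc (φ z) ∧ ∀ y ∈ T, ∃ c : k, c ≠ 0 ∧ ∀ v, φ y (φ z v) = c • φ z (φ y v) := by
  have hFt : Fact t.Prime := ⟨ht⟩
  let Z : Subgroup T :=
    { carrier := {g | Sc (φ g)}
      one_mem' := ⟨1, fun v => by simp⟩
      mul_mem' := by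
        rintro a b ⟨c, hc⟩ ⟨d, hd⟩
        refine ⟨c * d, fun v => ?_⟩
        rw [Subgroup.coe_mul, map_mul, Module.End.mul_apply, hd, map_smul, hc, smul_smul, mul_comm]
      inv_mem' := by
        rintro a ⟨c, hc⟩
        by_cases hU : ∀ v : U, v = 0
        · exact ⟨1, fun v => by rw [hU v]; simp⟩
        push Not at hU
        obtain ⟨v0, hv0⟩ := hU
        have hinv : ∀ v, φ ((a : Γ)⁻¹) (φ (a : Γ) v) = v := by
          intro v
          rw [← Module.End.mul_apply, ← map_mul, inv_mul_cancel, map_one, Module.End.one_apply]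
        have hc0 : c ≠ 0 := by
          rintro rfl
          apply hv0
          rw [← hinv v0, hc, zero_smul, map_zero]
        refine ⟨c⁻¹, fun v => ?_⟩
        have h1 := hinv v
        rw [hc, map_smul] at h1
        rw [Subgroup.coe_inv, ← h1, smul_smul, inv_mul_cancel₀ hc0, one_smul, h1] }
  have hZn : Z.Normal := by
    refine ⟨?_⟩
    rintro n ⟨c, hc⟩ g
    refine ⟨c, fun v => ?_⟩
    have hinv : φ (g : Γ) (φ ((g : Γ)⁻¹) v) = v := by
      rw [← Module.End.mul_apply, ← map_mul, mul_inv_cancel, map_one, Module.End.one_apply]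
    rw [Subgroup.coe_mul, Subgroup.coe_mul, Subgroup.coe_inv, map_mul, map_mul,
      Module.End.mul_apply, Module.End.mul_apply, hc, map_smul, hinv]
  push Not at hsc
  obtain ⟨y0, hy0, hy1⟩ := hsc
  have hnt : Nontrivial (T ⧸ Z) := by
    refine ⟨((⟨y0, hy0⟩ : T) : T ⧸ Z), 1, ?_⟩
    intro h
    rw [QuotientGroup.eq_one_iff] at h
    exact hy1 h
  have hQ : IsPGroup t (T ⧸ Z) := hT.to_quotient Z
  have hcen : Nontrivial (Subgroup.center (T ⧸ Z)) := hQ.center_nontrivial
  obtain ⟨⟨q, hq⟩, hq1⟩ := exists_ne (1 : Subgroup.center (T ⧸ Z))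
  obtain ⟨z, rfl⟩ := QuotientGroup.mk_surjective q
  have hz : ¬ Sc (φ (z : Γ)) := by
    intro h
    apply hq1
    apply Subtype.ext
    exact (QuotientGroup.eq_one_iff z).2 h
  refine ⟨z, z.2, hz, ?_⟩
  intro y hy
  have h1 := (Subgroup.mem_center_iff.1 hq) ((⟨y, hy⟩ : T) : T ⧸ Z)
  have h2 : ((z * ⟨y, hy⟩)⁻¹ * (⟨y, hy⟩ * z) : T) ∈ Z := by
    rw [← QuotientGroup.eq]
    exact h1.symm
  obtain ⟨c, hc⟩ := h2
  have e : y * (z : Γ) = (z : Γ) * y * (((z * ⟨y, hy⟩)⁻¹ * (⟨y, hy⟩ * z) : T) : Γ) := by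
    simp only [Subgroup.coe_mul, Subgroup.coe_inv]
    group
  have hkey : ∀ v, φ y (φ (z : Γ) v) = c • φ (z : Γ) (φ y v) := by
    intro v
    rw [← Module.End.mul_apply, ← map_mul, e, map_mul, Module.End.mul_apply, hc, map_smul, map_mul,
      Module.End.mul_apply]
  refine ⟨c, ?_, hkey⟩
  rintro rfl
  apply hz
  refine ⟨0, fun v => ?_⟩
  have h3 := hkey v
  rw [zero_smul] at h3
  have h4 : φ y⁻¹ (φ y (φ (z : Γ) v)) = φ (z : Γ) v := by
    rw [← Module.End.mul_apply, ← map_mul, inv_mul_cancel, map_one, Module.End.one_apply]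
  rw [← h4, h3, map_zero, zero_smul]

/-- Every injective map of a three-element set has order dividing `6`. -/
theorem fin3_six (σ : Fin 3 → Fin 3) (h : Function.Injective σ) : σ^[6] = id := by
  revert σ
  decide

/-- **The two-dimensional case.** -/
theorem two_dim [IsAlgClosed k] [FiniteDimensional k U] (hdim : finrank k U = 2) {Γ : Type*}
    [Group Γ] [Finite Γ] (φ : Γ →* (U →ₗ[k] U)) {t : ℕ} (ht : t.Prime) (htk : (t : k) ≠ 0)
    {T : Subgroup Γ} (hTn : T.Normal) (hT : IsPGroup t T) (ρ : Γ) (ho : Odd (orderOf ρ))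
    (hco : ¬ t ∣ orderOf ρ)
    (h3 : t ≠ 2 ∨ ¬ 3 ∣ orderOf ρ ∨ ∀ g ∈ T, ∀ h ∈ T, g * h = h * g) :
    ∀ y ∈ T, φ ρ * φ y = φ y * φ ρ := by
  have hnt : Nontrivial U := by
    rw [← finrank_pos_iff (R := k), hdim]; norm_num
  by_cases hsc : ∀ y ∈ T, Sc (φ y)
  · intro y hy
    obtain ⟨c, hc⟩ := hsc y hy
    ext v
    rw [Module.End.mul_apply, Module.End.mul_apply, hc, hc, map_smul]
  obtain ⟨z, hzT, hz, hzc⟩ := exists_central φ ht hT hsc
  have hinj : ∀ g : Γ, ∀ v, φ g v = 0 → v = 0 := by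
    intro g v hv
    have h4 : φ g⁻¹ (φ g v) = v := by
      rw [← Module.End.mul_apply, ← map_mul, inv_mul_cancel, map_one, Module.End.one_apply]
    rw [← h4, hv, map_zero]
  -- the basis
  obtain ⟨j, hj⟩ := (hT ⟨z, hzT⟩)
  have hzj : z ^ t ^ j = 1 := by
    have := congrArg Subtype.val hj
    simpa using this
  have htj : ((t ^ j : ℕ) : k) ≠ 0 := by
    push_cast
    exact pow_ne_zero _ htk
  obtain ⟨a, d, e1, e2, had, h1, h2, ha, hd⟩ := exists_eigen (φ z) htj
    (by rw [← map_pow, hzj, map_one]) hz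
  have hF : Fr k e1 e2 := frame hdim had h1 h2 ha hd
  have ha0 : a ≠ 0 := by
    rintro rfl
    exact h1 (hinj z e1 (by rw [ha, zero_smul]))
  have hd0 : d ≠ 0 := by
    rintro rfl
    exact h2 (hinj z e2 (by rw [hd, zero_smul]))
  have hDz : Dg e1 e2 (φ z) := ⟨a, d, ha, hd⟩
  have hda : ∀ y ∈ T, Dg e1 e2 (φ y) ∨ Ad e1 e2 (φ y) := by
    intro y hy
    obtain ⟨c, hc0, hc⟩ := hzc y hy
    exact dg_or_ad hF had ha0 hd0 ha hd hc0 hc (hinj y)
  have hcp : ∀ g ∈ T, (orderOf ρ).Coprime (orderOf g) := by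
    intro g hg
    obtain ⟨i, hi⟩ := (hT ⟨g, hg⟩)
    have hgi : g ^ t ^ i = 1 := by
      have := congrArg Subtype.val hi
      simpa using this
    refine Nat.Coprime.coprime_dvd_right (orderOf_dvd_of_pow_eq_one hgi) ?_
    exact (((Nat.Prime.coprime_iff_not_dvd ht).2 hco).symm).pow_right _
  have hρT : ∀ y ∈ T, ρ * y * ρ⁻¹ ∈ T := fun y hy => hTn.conj_mem y hy ρ
  set z' := ρ * z * ρ⁻¹ with hz'
  have hz'T : z' ∈ T := hρT z hzT
  have hz's : ¬ Sc (φ z') := by
    rintro ⟨c, hc⟩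
    apply hz
    refine ⟨c, fun v => ?_⟩
    have e : z = ρ⁻¹ * z' * ρ := by rw [hz']; group
    have hinv : φ ρ⁻¹ (φ ρ v) = v := by
      rw [← Module.End.mul_apply, ← map_mul, inv_mul_cancel, map_one, Module.End.one_apply]
    rw [e, map_mul, map_mul, Module.End.mul_apply, Module.End.mul_apply, hc, map_smul, hinv]
  have hz'c : ∀ y ∈ T, ∃ c : k, c ≠ 0 ∧ ∀ v, φ y (φ z' v) = c • φ z' (φ y v) := by
    intro y hy
    obtain ⟨c, hc0, hc⟩ := hzc (ρ⁻¹ * y * ρ) (by
      have := hTn.conj_mem y hy ρ⁻¹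
      simpa using this)
    refine ⟨c, hc0, fun v => ?_⟩
    have h5 := congrArg (φ ρ) (hc (φ ρ⁻¹ v))
    rw [map_smul] at h5
    simp only [← Module.End.mul_apply, ← map_mul] at h5 ⊢
    have e1' : ρ * (ρ⁻¹ * y * ρ * (z * ρ⁻¹)) = y * z' := by rw [hz']; group
    have e2' : ρ * (z * (ρ⁻¹ * y * ρ * ρ⁻¹)) = z' * y := by rw [hz']; group
    rw [e1', e2'] at h5
    exact h5
  rcases hda z' hz'T with hD | hA
  · -- `ρ` is diagonal
    obtain ⟨p, q, hp, hq⟩ := hD
    have hpq : p ≠ q := by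
      rintro rfl
      apply hz's
      refine ⟨p, fun v => ?_⟩
      obtain ⟨x, y, rfl⟩ := hF.sp v
      rw [map_add, map_smul, map_smul, hp, hq]
      module
    have hv1 : φ z' (φ ρ e1) = a • φ ρ e1 := by
      rw [← Module.End.mul_apply, ← map_mul]
      have e : z' * ρ = ρ * z := by rw [hz']; group
      rw [e, map_mul, Module.End.mul_apply, ha, map_smul]
    have hv2 : φ z' (φ ρ e2) = d • φ ρ e2 := by
      rw [← Module.End.mul_apply, ← map_mul]
      have e : z' * ρ = ρ * z := by rw [hz']; group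
      rw [e, map_mul, Module.End.mul_apply, hd, map_smul]
    have hn1 : φ ρ e1 ≠ 0 := fun h => hF.ne1 (hinj _ _ h)
    have hn2 : φ ρ e2 ≠ 0 := fun h => hF.ne2 (hinj _ _ h)
    have hDρ : Dg e1 e2 (φ ρ) := by
      have hor : Dg e1 e2 (φ ρ) ∨ Ad e1 e2 (φ ρ) := by
        rcases eigvec hF hpq hp hq hn1 hv1 with ⟨h3', x, hx⟩ | ⟨h3', x, hx⟩
        · rcases eigvec hF hpq hp hq hn2 hv2 with ⟨h4, y, hy⟩ | ⟨h4, y, hy⟩
          · exact absurd (h3'.trans h4.symm) had
          · exact Or.inl ⟨x, y, hx, hy⟩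
        · rcases eigvec hF hpq hp hq hn2 hv2 with ⟨h4, y, hy⟩ | ⟨h4, y, hy⟩
          · exact Or.inr ⟨x, y, hx, hy⟩
          · exact absurd (h3'.trans h4.symm) had
      rcases hor with h | h
      · exact h
      · exfalso
        obtain ⟨m, hm⟩ := ho
        have h5 := h.pow_odd m
        rw [← map_pow, ← hm, pow_orderOf_eq_one, map_one] at h5
        obtain ⟨p', q', h6, -⟩ := h5
        rw [Module.End.one_apply] at h6
        have := (hF.not (p := 1) (q := p') (by rw [one_smul]; exact h6)).1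
        exact one_ne_zero this
    intro y hy
    have hDi : Dg e1 e2 (φ ρ⁻¹) := by
      obtain ⟨p', q', h6, h7⟩ := hDρ
      have hinv : ∀ v, φ ρ⁻¹ (φ ρ v) = v := by
        intro v
        rw [← Module.End.mul_apply, ← map_mul, inv_mul_cancel, map_one, Module.End.one_apply]
      have hp0 : p' ≠ 0 := by
        rintro rfl
        exact hn1 (by rw [h6, zero_smul])
      have hq0 : q' ≠ 0 := by
        rintro rfl
        exact hn2 (by rw [h7, zero_smul])
      refine ⟨p'⁻¹, q'⁻¹, ?_, ?_⟩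
      · have := hinv e1
        rw [h6, map_smul] at this
        rw [← this, smul_smul, inv_mul_cancel₀ hp0, one_smul, this]
      · have := hinv e2
        rw [h7, map_smul] at this
        rw [← this, smul_smul, inv_mul_cancel₀ hq0, one_smul, this]
    have hcT : ρ * y * ρ⁻¹ * y⁻¹ ∈ T := T.mul_mem (hρT y hy) (T.inv_mem hy)
    have hDc : Dg e1 e2 (φ (ρ * y * ρ⁻¹ * y⁻¹)) := by
      rw [map_mul, map_mul, map_mul]
      rcases hda y hy with h | h
      · rcases hda y⁻¹ (T.inv_mem hy) with h' | h'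
        · exact ((hDρ.mul h).mul hDi).mul h'
        · exfalso
          have h5 := h.mul_ad h'
          rw [← map_mul, mul_inv_cancel, map_one] at h5
          obtain ⟨p', q', h6, -⟩ := h5
          rw [Module.End.one_apply] at h6
          have := (hF.not (p := 1) (q := p') (by rw [one_smul]; exact h6)).1
          exact one_ne_zero this
      · rcases hda y⁻¹ (T.inv_mem hy) with h' | h'
        · exfalso
          have h5 := h.mul_dg h'
          rw [← map_mul, mul_inv_cancel, map_one] at h5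
          obtain ⟨p', q', h6, -⟩ := h5
          rw [Module.End.one_apply] at h6
          have := (hF.not (p := 1) (q := p') (by rw [one_smul]; exact h6)).1
          exact one_ne_zero this
        · exact ((hDρ.mul_ad h).mul_dg hDi).mul h'
    have h6 := hom_comm_eq_one φ (a := ρ) (x := y) (c := ρ * y * ρ⁻¹ * y⁻¹) (by group)
      (Dg.comm hF hDρ hDc) (hcp _ hcT)
    have h7 : φ ρ * φ y * φ ρ⁻¹ * φ y⁻¹ = 1 := by
      rw [← map_mul, ← map_mul, ← map_mul]; exact h6
    have h8 : φ ρ * φ y = (φ ρ * φ y * φ ρ⁻¹ * φ y⁻¹) * (φ y * φ ρ) := by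
      simp only [← map_mul]
      congr 1
      group
    rw [h8, h7, one_mul]
  · -- `t = 2`, the image of `T` is a Klein four group modulo scalars
    exfalso
    obtain ⟨p, q, hp, hq⟩ := hA
    have hp0 : p ≠ 0 := by
      rintro rfl
      exact hF.ne1 (hinj _ _ (by rw [hp, zero_smul]))
    have hq0 : q ≠ 0 := by
      rintro rfl
      exact hF.ne2 (hinj _ _ (by rw [hq, zero_smul]))
    obtain ⟨c, hc0, hc⟩ := hzc z' hz'T
    have hA1 := hc e1
    rw [ha, map_smul, hp, map_smul, hd, smul_smul, smul_smul, smul_smul] at hA1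
    have hA2 := hc e2
    rw [hd, map_smul, hq, map_smul, ha, smul_smul, smul_smul, smul_smul] at hA2
    have hB1 : a * p = c * (p * d) := by
      have h5 : (a * p - c * (p * d)) • e2 = 0 := by rw [sub_smul, hA1, mul_assoc]; simp
      rcases smul_eq_zero.1 h5 with h | h
      · exact sub_eq_zero.1 h
      · exact absurd h hF.ne2
    have hB2 : d * q = c * (q * a) := by
      have h5 : (d * q - c * (q * a)) • e1 = 0 := by rw [sub_smul, hA2, mul_assoc]; simp
      rcases smul_eq_zero.1 h5 with h | h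
      · exact sub_eq_zero.1 h
      · exact absurd h hF.ne1
    have hC1 : a = c * d := mul_right_cancel₀ hp0 (by rw [hB1]; ring)
    have hC2 : d = c * a := mul_right_cancel₀ hq0 (by rw [hB2]; ring)
    have hcc : c * c = 1 := by
      have : c * c * a = 1 * a := by rw [mul_assoc, ← hC2, ← hC1, one_mul]
      exact mul_right_cancel₀ ha0 this
    have hc1 : c = -1 := by
      rcases mul_self_eq_one_iff.1 hcc with h | h
      · exact absurd (by rw [hC1, h, one_mul]) had
      · exact h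
    have hda' : d = -a := by rw [hC2, hc1]; ring
    -- `t = 2`
    have ht2 : t = 2 := by
      by_contra htn
      have hodd : Odd t := ht.odd_of_ne_two htn
      have hwT : z' * z * z'⁻¹ * z⁻¹ ∈ T :=
        T.mul_mem (T.mul_mem (T.mul_mem hz'T hzT) (T.inv_mem hz'T)) (T.inv_mem hzT)
      obtain ⟨i, hi⟩ := (hT ⟨_, hwT⟩)
      have hwi : (z' * z * z'⁻¹ * z⁻¹) ^ t ^ i = 1 := by
        have := congrArg Subtype.val hi
        simpa using this
      have hw : φ (z' * z * z'⁻¹ * z⁻¹) = c • 1 := by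
        have e : φ (z' * z * z'⁻¹ * z⁻¹) = φ (z' * z) * φ (z'⁻¹ * z⁻¹) := by
          rw [← map_mul]; congr 1; group
        have e2 : φ (z' * z) = c • φ (z * z') := by
          ext v
          have h9 := hc v
          rw [← Module.End.mul_apply, ← Module.End.mul_apply, ← map_mul, ← map_mul] at h9
          exact h9
        rw [e, e2, smul_mul_assoc, ← map_mul]
        have e3 : z * z' * (z'⁻¹ * z⁻¹) = 1 := by group
        rw [e3, map_one]
      have h5 : (c • (1 : U →ₗ[k] U)) ^ t ^ i = 1 := by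
        rw [← hw, ← map_pow, hwi, map_one]
      rw [smul_pow, one_pow, hc1, (hodd.pow).neg_one_pow] at h5
      have h6 := LinearMap.congr_fun h5 e1
      simp only [LinearMap.smul_apply, Module.End.one_apply] at h6
      have h7 : ((-1 : k) - 1) • e1 = 0 := by rw [sub_smul, h6, one_smul, sub_self]
      rcases smul_eq_zero.1 h7 with h | h
      · apply had
        rw [hda']
        have : a = ((-1 : k)) * a := by
          have : (-1 : k) = 1 := sub_eq_zero.1 h
          rw [this, one_mul]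
        rw [neg_one_mul] at this
        exact this
      · exact hF.ne1 h
    have hr3 : ¬ 3 ∣ orderOf ρ := by
      rcases h3 with h | h | h
      · exact absurd ht2 h
      · exact h
      · exfalso
        have h5 := h z' hz'T z hzT
        have h6 := hc e1
        rw [← Module.End.mul_apply, ← map_mul, h5, map_mul, Module.End.mul_apply] at h6
        have h7 : (1 - c) • φ z (φ z' e1) = 0 := by rw [sub_smul, one_smul, ← h6, sub_self]
        rcases smul_eq_zero.1 h7 with h8 | h8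
        · have h9 : c = 1 := (sub_eq_zero.1 h8).symm
          exact had (by rw [hC1, h9, one_mul])
        · exact hF.ne1 (hinj _ _ (hinj _ _ h8))
    -- the three classes
    let w : Fin 3 → Γ := ![z, z', z * z']
    have hwT : ∀ i, w i ∈ T := by
      intro i
      fin_cases i
      · exact hzT
      · exact hz'T
      · exact T.mul_mem hzT hz'T
    -- proportional
    have hcl0 : ∀ g ∈ T, Dg e1 e2 (φ g) → ¬ Sc (φ g) → ∃ x : k, φ g = x • φ z := by
      intro g hg hD hs
      obtain ⟨x, y, hx, hy⟩ := hD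
      obtain ⟨b, hb0, hb⟩ := hz'c g hg
      have hE1 := hb e1
      rw [hp, map_smul, hy, hx, map_smul, hp, smul_smul, smul_smul, smul_smul] at hE1
      have hE2 := hb e2
      rw [hq, map_smul, hx, hy, map_smul, hq, smul_smul, smul_smul, smul_smul] at hE2
      have hG1 : p * y = b * (x * p) := by
        have h5 : (p * y - b * (x * p)) • e2 = 0 := by rw [sub_smul, hE1, mul_assoc]; simp
        rcases smul_eq_zero.1 h5 with h | h
        · exact sub_eq_zero.1 h
        · exact absurd h hF.ne2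
      have hG2 : q * x = b * (y * q) := by
        have h5 : (q * x - b * (y * q)) • e1 = 0 := by rw [sub_smul, hE2, mul_assoc]; simp
        rcases smul_eq_zero.1 h5 with h | h
        · exact sub_eq_zero.1 h
        · exact absurd h hF.ne1
      have hH1 : y = b * x := mul_left_cancel₀ hp0 (by rw [hG1]; ring)
      have hH2 : x = b * y := mul_left_cancel₀ hq0 (by rw [hG2]; ring)
      have hx0 : x ≠ 0 := by
        rintro rfl
        exact hF.ne1 (hinj g e1 (by rw [hx, zero_smul]))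
      have hbb : b * b = 1 := by
        have : b * b * x = 1 * x := by rw [mul_assoc, ← hH1, ← hH2, one_mul]
        exact mul_right_cancel₀ hx0 this
      rcases mul_self_eq_one_iff.1 hbb with h | h
      · exfalso
        apply hs
        refine ⟨x, fun v => ?_⟩
        obtain ⟨m, n, rfl⟩ := hF.sp v
        rw [map_add, map_smul, map_smul, hx, hy, hH1, h, one_mul]
        module
      · refine ⟨x * a⁻¹, hF.eqmap ?_ ?_⟩
        · rw [hx, LinearMap.smul_apply, ha, smul_smul, mul_assoc, inv_mul_cancel₀ ha0, mul_one]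
        · rw [hy, LinearMap.smul_apply, hd, smul_smul, hda', hH1, h]
          congr 1
          field_simp
    have hcls : ∀ g ∈ T, ¬ Sc (φ g) → ∃ i, ∃ x : k, φ g = x • φ (w i) := by
      intro g hg hs
      rcases hda g hg with hD | hA
      · obtain ⟨x, hx⟩ := hcl0 g hg hD hs
        exact ⟨0, x, hx⟩
      · have hAi : Ad e1 e2 (φ z'⁻¹) := by
          rcases hda z'⁻¹ (T.inv_mem hz'T) with h' | h'
          · exfalso
            have h5 := h'.mul_ad ⟨p, q, hp, hq⟩
            rw [← map_mul, inv_mul_cancel, map_one] at h5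
            obtain ⟨p', q', h6, -⟩ := h5
            rw [Module.End.one_apply] at h6
            have := (hF.not (p := 1) (q := p') (by rw [one_smul]; exact h6)).1
            exact one_ne_zero this
          · exact h'
        have hD' : Dg e1 e2 (φ (g * z'⁻¹)) := by
          rw [map_mul]; exact hA.mul hAi
        have e : φ g = φ (g * z'⁻¹) * φ z' := by rw [← map_mul]; congr 1; group
        by_cases hs' : Sc (φ (g * z'⁻¹))
        · obtain ⟨x, hx⟩ := hs'
          refine ⟨1, x, ?_⟩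
          rw [e]
          ext v
          rw [Module.End.mul_apply, hx]
          rfl
        · obtain ⟨x, hx⟩ := hcl0 _ (T.mul_mem hg (T.inv_mem hz'T)) hD' hs'
          refine ⟨2, x, ?_⟩
          rw [e, hx, smul_mul_assoc, ← map_mul]
          rfl
    have hns : ∀ i, ¬ Sc (φ (w i)) := by
      intro i
      fin_cases i
      · exact hz
      · exact hz's
      · rintro ⟨x, hx⟩
        have hAd : Ad e1 e2 (φ (z * z')) := by
          rw [map_mul]; exact hDz.mul_ad ⟨p, q, hp, hq⟩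
        obtain ⟨p', q', h6, h7⟩ := hAd
        have h8 := hx e1
        change φ (z * z') e1 = x • e1 at h8
        rw [h6] at h8
        have := hF.not h8.symm
        exact hF.ne1 (hinj (z * z') e1 (by rw [h6, this.2, zero_smul]))
    have hdist : ∀ i j, (∃ x : k, φ (w i) = x • φ (w j)) → i = j := by
      have hA' : Ad e1 e2 (φ (z * z')) := by
        rw [map_mul]; exact hDz.mul_ad ⟨p, q, hp, hq⟩
      have hDA : ∀ g h : Γ, Dg e1 e2 (φ g) → Ad e1 e2 (φ h) → ∀ x : k, φ g ≠ x • φ h := by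
        rintro g h ⟨p1, q1, h5, -⟩ ⟨p2, q2, h6, -⟩ x hx
        have h7 := LinearMap.congr_fun hx e1
        rw [LinearMap.smul_apply, h5, h6, smul_smul] at h7
        have := hF.not h7
        exact hF.ne1 (hinj g e1 (by rw [h5, this.1, zero_smul]))
      have hAD : ∀ g h : Γ, Ad e1 e2 (φ g) → Dg e1 e2 (φ h) → ∀ x : k, φ g ≠ x • φ h := by
        rintro g h ⟨p1, q1, h5, -⟩ ⟨p2, q2, h6, -⟩ x hx
        have h7 := LinearMap.congr_fun hx e1
        rw [LinearMap.smul_apply, h5, h6, smul_smul] at h7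
        have := hF.not h7.symm
        exact hF.ne1 (hinj g e1 (by rw [h5, this.2, zero_smul]))
      have hZZ : ∀ x : k, φ z' ≠ x • φ (z * z') := by
        intro x hx
        apply hz
        have h5 : (1 : U →ₗ[k] U) = x • φ z := by
          have : φ z' * φ z'⁻¹ = (x • φ (z * z')) * φ z'⁻¹ := by rw [← hx]
          rw [smul_mul_assoc, ← map_mul, ← map_mul, mul_inv_cancel, map_one] at this
          rw [this]
          congr 2
          group
        have hx0 : x ≠ 0 := by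
          rintro rfl
          rw [zero_smul] at h5
          have := LinearMap.congr_fun h5 e1
          simp only [Module.End.one_apply, LinearMap.zero_apply] at this
          exact hF.ne1 this
        refine ⟨x⁻¹, fun v => ?_⟩
        have h6 := LinearMap.congr_fun h5 v
        rw [Module.End.one_apply, LinearMap.smul_apply] at h6
        rw [eq_comm, inv_smul_eq_iff₀ hx0]
        exact h6
      have hZZ' : ∀ x : k, φ (z * z') ≠ x • φ z' := by
        intro x hx
        apply hz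
        refine ⟨x, fun v => ?_⟩
        have h5 := LinearMap.congr_fun hx (φ z'⁻¹ v)
        rw [LinearMap.smul_apply, ← Module.End.mul_apply, ← Module.End.mul_apply, ← map_mul,
          ← map_mul, mul_inv_cancel, map_one, Module.End.one_apply] at h5
        have e : z * z' * z'⁻¹ = z := by group
        rw [e] at h5
        exact h5
      rintro i j ⟨x, hx⟩
      fin_cases i <;> fin_cases j
      · rfl
      · exact absurd hx (hDA _ _ hDz ⟨p, q, hp, hq⟩ x)
      · exact absurd hx (hDA _ _ hDz hA' x)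
      · exact absurd hx (hAD _ _ ⟨p, q, hp, hq⟩ hDz x)
      · rfl
      · exact absurd hx (hZZ x)
      · exact absurd hx (hAD _ _ hA' hDz x)
      · exact absurd hx (hZZ' x)
      · rfl
    have hσ : ∀ i, ∃ j, ∃ x : k, φ (ρ * w i * ρ⁻¹) = x • φ (w j) := by
      intro i
      refine hcls _ (hρT _ (hwT i)) ?_
      rintro ⟨x, hx⟩
      apply hns i
      refine ⟨x, fun v => ?_⟩
      have e : w i = ρ⁻¹ * (ρ * w i * ρ⁻¹) * ρ := by group
      have hinv : φ ρ⁻¹ (φ ρ v) = v := by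
        rw [← Module.End.mul_apply, ← map_mul, inv_mul_cancel, map_one, Module.End.one_apply]
      rw [e, map_mul, map_mul, Module.End.mul_apply, Module.End.mul_apply, hx, map_smul, hinv]
    choose σ x hσx using hσ
    have hx0 : ∀ i, x i ≠ 0 := by
      intro i h0
      have h5 := hσx i
      rw [h0, zero_smul] at h5
      have h6 := LinearMap.congr_fun h5 e1
      exact hF.ne1 (hinj _ _ h6)
    have hσinj : Function.Injective σ := by
      intro i j hij
      apply hdist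
      refine ⟨x i * (x j)⁻¹, ?_⟩
      have h5 := hσx i
      rw [hij] at h5
      have h6 := hσx j
      have h7 : φ (w (σ j)) = (x j)⁻¹ • φ (ρ * w j * ρ⁻¹) := by
        rw [h6, smul_smul, inv_mul_cancel₀ (hx0 j), one_smul]
      rw [h7, smul_smul] at h5
      have h8 : φ ρ⁻¹ * φ (ρ * w i * ρ⁻¹) * φ ρ =
          φ ρ⁻¹ * ((x i * (x j)⁻¹) • φ (ρ * w j * ρ⁻¹)) * φ ρ := by rw [h5]
      rw [mul_smul_comm, smul_mul_assoc] at h8
      simp only [← map_mul] at h8
      have e : ∀ g : Γ, ρ⁻¹ * (ρ * g * ρ⁻¹) * ρ = g := fun g => by group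
      rw [e, e] at h8
      exact h8
    have hiter : ∀ n : ℕ, ∀ i, ∃ y : k, φ (ρ ^ n * w i * (ρ ^ n)⁻¹) = y • φ (w (σ^[n] i)) := by
      intro n
      induction n with
      | zero => intro i; exact ⟨1, by simp⟩
      | succ n ih =>
        intro i
        obtain ⟨y, hy⟩ := ih i
        refine ⟨y * x (σ^[n] i), ?_⟩
        have e : ρ ^ (n + 1) * w i * (ρ ^ (n + 1))⁻¹ = ρ * (ρ ^ n * w i * (ρ ^ n)⁻¹) * ρ⁻¹ := by
          rw [pow_succ' ρ n]; group
        rw [e, map_mul, map_mul, hy, mul_smul_comm, smul_mul_assoc, ← map_mul, ← map_mul,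
          hσx (σ^[n] i), smul_smul, Function.iterate_succ_apply']
    -- `ρ ^ (6 m) = ρ`
    have hco6 : Nat.Coprime 6 (orderOf ρ) := by
      have h2' : Nat.Coprime 2 (orderOf ρ) := by
        rw [Nat.Prime.coprime_iff_not_dvd Nat.prime_two]
        rw [← ht2]; exact hco
      have h3' : Nat.Coprime 3 (orderOf ρ) := by
        rw [Nat.Prime.coprime_iff_not_dvd Nat.prime_three]
        exact hr3
      have : Nat.Coprime (2 * 3) (orderOf ρ) := Nat.Coprime.mul_left h2' h3'
      simpa using this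
    obtain ⟨m, hm⟩ : ∃ m : ℕ, ρ ^ (6 * m) = ρ := by
      by_cases h1' : orderOf ρ = 1
      · refine ⟨0, ?_⟩
        rw [orderOf_eq_one_iff] at h1'
        rw [h1']; simp
      have hgt : 1 < orderOf ρ := by
        have := orderOf_pos ρ
        omega
      obtain ⟨m, -, hm⟩ := Nat.exists_mul_mod_eq_one_of_coprime hco6 hgt
      refine ⟨m, ?_⟩
      rw [← pow_mod_orderOf, hm, pow_one]
    have h5 := hiter (6 * m) 0
    rw [hm] at h5
    have h6 : σ^[6 * m] = id := by
      rw [Function.iterate_mul, fin3_six σ hσinj, Function.iterate_id]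
    rw [h6] at h5
    obtain ⟨y, hy⟩ := h5
    have h7 : (1 : Fin 3) = 0 := hdist 1 0 ⟨y, hy⟩
    exact absurd h7 (by decide)

end Two

end Pool.Agent.Lib.MPbe1941.X
end

section
/-!
# MP_be1941_al (exact bound), module QAD: two quadratic elements which differ by an element of a
normal `t`-subgroup commute
-/
set_option autoImplicit false

namespace Pool.Agent.Lib.MPbe1941.X

open Module

section

variable {k U : Type*} [Field k] [AddCommGroup U] [Module k U]

/-- An irreducible pair of idempotents lives on a space of dimension at most two. -/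
theorem dim_le_two [IsAlgClosed k] [FiniteDimensional k U] [Nontrivial U] (e f : U →ₗ[k] U)
    (he : e * e = e) (hf : f * f = f)
    (hirr : ∀ W : Submodule k U, (∀ w ∈ W, e w ∈ W) → (∀ w ∈ W, f w ∈ W) → W = ⊥ ∨ W = ⊤) :
    finrank k U ≤ 2 := by
  set z : U →ₗ[k] U := e + f - e * f - f * e with hz
  have hez : e * z = z * e := by
    rw [hz]
    simp only [mul_sub, mul_add, sub_mul, add_mul, he]
    have h1 : e * (e * f) = e * f := by rw [← mul_assoc, he]
    have h2 : e * f * e = e * (f * e) := mul_assoc _ _ _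
    have h3 : f * e * e = f * e := by rw [mul_assoc, he]
    rw [h1, h2, h3]
    try abel
  have hfz : f * z = z * f := by
    rw [hz]
    simp only [mul_sub, mul_add, sub_mul, add_mul, hf]
    have h1 : f * (f * e) = f * e := by rw [← mul_assoc, hf]
    have h2 : f * e * f = f * (e * f) := mul_assoc _ _ _
    have h3 : e * f * f = e * f := by rw [mul_assoc, hf]
    rw [h1, h2, h3]
    try abel
  obtain ⟨c, hc⟩ := Module.End.exists_eigenvalue z
  have hI1 : ∀ w ∈ Module.End.eigenspace z c, e w ∈ Module.End.eigenspace z c := by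
    intro w hw
    rw [Module.End.mem_eigenspace_iff] at hw ⊢
    have := LinearMap.congr_fun hez w
    rw [Module.End.mul_apply, Module.End.mul_apply, hw, map_smul] at this
    exact this.symm
  have hI2 : ∀ w ∈ Module.End.eigenspace z c, f w ∈ Module.End.eigenspace z c := by
    intro w hw
    rw [Module.End.mem_eigenspace_iff] at hw ⊢
    have := LinearMap.congr_fun hfz w
    rw [Module.End.mul_apply, Module.End.mul_apply, hw, map_smul] at this
    exact this.symm
  have htop : Module.End.eigenspace z c = ⊤ := by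
    rcases hirr (Module.End.eigenspace z c) hI1 hI2 with h | h
    · exact absurd h hc
    · exact h
  obtain ⟨m, hm⟩ := Module.End.exists_eigenvalue e
  obtain ⟨v, hv⟩ := hm.exists_hasEigenvector
  have hev : e v = m • v := Module.End.mem_eigenspace_iff.1 hv.1
  have hzv : z v = c • v := Module.End.mem_eigenspace_iff.1 (by rw [htop]; trivial)
  have hefv : e (f v) = m • v + f v - m • f v - c • v := by
    rw [hz] at hzv
    simp only [LinearMap.sub_apply, LinearMap.add_apply, Module.End.mul_apply, hev, map_smul] at hzv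
    rw [← hzv]
    try abel
  have hJ1 : ∀ w ∈ Submodule.span k ({v, f v} : Set U),
      e w ∈ Submodule.span k ({v, f v} : Set U) := by
    intro w hw
    rw [Submodule.mem_span_pair] at hw
    obtain ⟨x, y, rfl⟩ := hw
    rw [map_add, map_smul, map_smul, hev, hefv, Submodule.mem_span_pair]
    exact ⟨x * m + y * m - y * c, y - y * m, by module⟩
  have hJ2 : ∀ w ∈ Submodule.span k ({v, f v} : Set U),
      f w ∈ Submodule.span k ({v, f v} : Set U) := by
    intro w hw
    rw [Submodule.mem_span_pair] at hw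
    obtain ⟨x, y, rfl⟩ := hw
    have hffv : f (f v) = f v := LinearMap.congr_fun hf v
    rw [map_add, map_smul, map_smul, hffv, Submodule.mem_span_pair]
    exact ⟨0, x + y, by module⟩
  have hspan : Submodule.span k ({v, f v} : Set U) = ⊤ := by
    rcases hirr (Submodule.span k ({v, f v} : Set U)) hJ1 hJ2 with h | h
    · exfalso
      apply hv.2
      have : v ∈ Submodule.span k ({v, f v} : Set U) := Submodule.subset_span (by simp)
      rw [h] at this
      exact (Submodule.mem_bot k).1 this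
    · exact h
  have hfin : finrank k (Submodule.span k ({v, f v} : Set U)) ≤ 2 := by
    classical
    have h1 : (({v, f v} : Finset U) : Set U) = {v, f v} := by simp
    rw [← h1]
    refine (finrank_span_finset_le_card _).trans Finset.card_le_two
  rw [hspan, finrank_top] at hfin
  exact hfin

/-- The idempotent of a quadratic map. -/
theorem quad_idem {A : U →ₗ[k] U} {a : k} (ha : a ≠ 1)
    (hA : ∀ v, A (A v) + a • v = (1 + a) • A v) :
    ∃ e : U →ₗ[k] U, e * e = e ∧ (∀ v, A v = v + (a - 1) • e v) ∧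
      ∀ v, e v = (a - 1)⁻¹ • (A v - v) := by
  have h0 : a - 1 ≠ 0 := sub_ne_zero.2 ha
  refine ⟨(a - 1)⁻¹ • (A - 1), ?_, ?_, ?_⟩
  · ext v
    simp only [Module.End.mul_apply, LinearMap.smul_apply, LinearMap.sub_apply,
      Module.End.one_apply, map_smul, map_sub]
    have h1 : A (A v) = (1 + a) • A v - a • v := by rw [← hA v]; abel
    rw [h1, ← smul_sub]
    have h2 : (1 + a) • A v - a • v - A v - (A v - v) = (a - 1) • (A v - v) := by module
    rw [h2, smul_smul (a - 1)⁻¹ (a - 1), inv_mul_cancel₀ h0, one_smul]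
  · intro v
    simp only [LinearMap.smul_apply, LinearMap.sub_apply, Module.End.one_apply]
    rw [smul_smul, mul_inv_cancel₀ h0, one_smul]
    abel
  · intro v
    simp only [LinearMap.smul_apply, LinearMap.sub_apply, Module.End.one_apply]

end

/-- Two elements `ρ, ρ'` generating the finite group `Γ` of order prime to the characteristic,
acting quadratically with the same eigenvalues `1, a`, and `ρ⁻¹ ρ'` in a normal `t`-subgroup: they
commute on the space. -/
theorem quad_comm {k : Type*} [Field k] [IsAlgClosed k] {Γ : Type*} [Group Γ] [Finite Γ]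
    (hΓ : (Nat.card Γ : k) ≠ 0) {t : ℕ} (ht : t.Prime) (htk : (t : k) ≠ 0) {T : Subgroup Γ}
    (hTn : T.Normal) (hT : IsPGroup t T) {ρ ρ' : Γ} (hρ : ρ⁻¹ * ρ' ∈ T)
    (hgen : Subgroup.closure {ρ, ρ'} = ⊤)
    (ho : Odd (orderOf ρ)) (hco : ¬ t ∣ orderOf ρ)
    (h3 : t ≠ 2 ∨ ¬ 3 ∣ orderOf ρ ∨ ∀ g ∈ T, ∀ h ∈ T, g * h = h * g) {a : k} (ha : a ≠ 1) :
    ∀ (n : ℕ) (U : Type*) [AddCommGroup U] [Module k U] [FiniteDimensional k U],
      finrank k U = n → ∀ φ : Γ →* (U →ₗ[k] U),
      (∀ v, φ ρ (φ ρ v) + a • v = (1 + a) • φ ρ v) →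
      (∀ v, φ ρ' (φ ρ' v) + a • v = (1 + a) • φ ρ' v) →
      ∀ v, φ ρ (φ ρ' v) = φ ρ' (φ ρ v) := by
  intro n
  induction n using Nat.strong_induction_on with
  | _ n ih =>
    intro U _ _ _ hn φ h1 h2 v
    have hNZ : NeZero (Nat.card Γ : k) := ⟨hΓ⟩
    by_cases hred : ∃ W : Submodule k U, (∀ g, ∀ w ∈ W, φ g w ∈ W) ∧ W ≠ ⊥ ∧ W ≠ ⊤
    · obtain ⟨W, hWi, hW1, hW2⟩ := hred
      have hrep : Representation.IsSemisimpleRepresentation (k := k) (G := Γ) (V := U) φ :=
        inferInstance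
      let WR : Subrepresentation (A := k) (G := Γ) (W := U) φ := ⟨W, fun g w hw => hWi g w hw⟩
      obtain ⟨WR', hWW⟩ := hrep.exists_isCompl WR
      have key : ∀ Y : Subrepresentation (A := k) (G := Γ) (W := U) φ,
          finrank k Y.toSubmodule < finrank k U →
          ∀ w ∈ Y.toSubmodule, φ ρ (φ ρ' w) = φ ρ' (φ ρ w) := by
        intro Y hY w hw
        have h5 := ih (finrank k Y.toSubmodule) (by rw [← hn]; exact hY) Y.toSubmodule rfl
          Y.toRepresentation
          (fun v => Subtype.ext (h1 v)) (fun v => Subtype.ext (h2 v)) ⟨w, hw⟩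
        exact congrArg Subtype.val h5
      have hlt : ∀ Y : Submodule k U, Y ≠ ⊤ → finrank k Y < finrank k U := by
        intro Y hY
        exact Submodule.finrank_lt hY
      have hd : WR.toSubmodule ⊓ WR'.toSubmodule = ⊥ := by
        have := hWW.inf_eq_bot
        exact congrArg Subrepresentation.toSubmodule this
      have hs : WR.toSubmodule ⊔ WR'.toSubmodule = ⊤ := by
        have := hWW.sup_eq_top
        exact congrArg Subrepresentation.toSubmodule this
      have hW'2 : WR'.toSubmodule ≠ ⊤ := by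
        intro h
        apply hW1
        rw [h, inf_top_eq] at hd
        exact hd
      have hv : v ∈ WR.toSubmodule ⊔ WR'.toSubmodule := by rw [hs]; trivial
      obtain ⟨x, hx, y, hy, rfl⟩ := Submodule.mem_sup.1 hv
      rw [map_add, map_add, map_add, map_add, key WR (hlt _ hW2) x hx,
        key WR' (hlt _ hW'2) y hy]
    · push Not at hred
      by_cases hnt : Nontrivial U
      · obtain ⟨e, he, hAe, heA⟩ := quad_idem ha h1
        obtain ⟨f, hf, hBf, hfB⟩ := quad_idem ha h2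
        have h0 : a - 1 ≠ 0 := sub_ne_zero.2 ha
        have hle : finrank k U ≤ 2 := by
          refine dim_le_two e f he hf ?_
          intro W hWe hWf
          by_contra hcon
          push Not at hcon
          refine hcon.2 (hred W ?_ hcon.1)
          -- invariance under the group
          have hW1 : ∀ w ∈ W, φ ρ w ∈ W := by
            intro w hw
            rw [hAe]
            exact W.add_mem hw (W.smul_mem _ (hWe w hw))
          have hW2 : ∀ w ∈ W, φ ρ' w ∈ W := by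
            intro w hw
            rw [hBf]
            exact W.add_mem hw (W.smul_mem _ (hWf w hw))
          let S : Subgroup Γ :=
            { carrier := {g | (∀ w ∈ W, φ g w ∈ W) ∧ ∀ w ∈ W, φ g⁻¹ w ∈ W}
              one_mem' := ⟨fun w hw => by simpa using hw, fun w hw => by simpa using hw⟩
              mul_mem' := by
                rintro x y ⟨hx, hx'⟩ ⟨hy, hy'⟩
                refine ⟨fun w hw => ?_, fun w hw => ?_⟩
                · rw [map_mul]; exact hx _ (hy _ hw)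
                · rw [mul_inv_rev, map_mul]; exact hy' _ (hx' _ hw)
              inv_mem' := by
                rintro x ⟨hx, hx'⟩
                exact ⟨hx', by simpa using hx⟩ }
          have hinv : ∀ g : Γ, (∀ w ∈ W, φ g w ∈ W) → g ∈ S := by
            intro g hg
            refine ⟨hg, ?_⟩
            have hpow : ∀ m : ℕ, ∀ w ∈ W, φ (g ^ m) w ∈ W := by
              intro m
              induction m with
              | zero => intro w hw; simpa using hw
              | succ m ihm =>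
                intro w hw
                rw [pow_succ, map_mul]
                exact ihm _ (hg _ hw)
            intro w hw
            have e1 : g⁻¹ = g ^ (orderOf g - 1) := by
              rw [inv_eq_iff_mul_eq_one, ← pow_succ', Nat.sub_add_cancel (orderOf_pos g),
                pow_orderOf_eq_one]
            rw [e1]
            exact hpow _ w hw
          have hle : Subgroup.closure {ρ, ρ'} ≤ S := by
            rw [Subgroup.closure_le]
            rintro g (rfl | rfl)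
            · exact hinv _ hW1
            · exact hinv _ hW2
          intro g w hw
          have hg : g ∈ S := hle (by rw [hgen]; trivial)
          exact hg.1 w hw
        have hpos : 0 < finrank k U := finrank_pos
        by_cases hdim : finrank k U = 2
        · have h5 := two_dim hdim φ ht htk hTn hT ρ ho hco h3 _ hρ
          have h6 : φ ρ * φ ρ' = φ ρ' * φ ρ := by
            have e1 : φ ρ' = φ ρ * φ (ρ⁻¹ * ρ') := by rw [← map_mul]; congr 1; group
            rw [e1]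
            rw [mul_assoc (φ ρ) (φ (ρ⁻¹ * ρ')) (φ ρ), ← h5]
          exact LinearMap.congr_fun h6 v
        · have hdim1 : finrank k U = 1 := by omega
          obtain ⟨u, hu, hu2⟩ := finrank_eq_one_iff'.1 hdim1
          obtain ⟨x, hx⟩ := hu2 (φ ρ u)
          obtain ⟨y, hy⟩ := hu2 (φ ρ' u)
          obtain ⟨c, hc⟩ := hu2 v
          rw [← hc, map_smul, map_smul, map_smul, map_smul, ← hx, ← hy, map_smul, map_smul, ← hx,
            ← hy, smul_comm x y]
      · rw [not_nontrivial_iff_subsingleton] at hnt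
        exact Subsingleton.elim _ _

end Pool.Agent.Lib.MPbe1941.X
end

section
/-!
# MP_be1941_al (exact bound), module RAT: the ratio lemma (L3)
-/
set_option autoImplicit false

namespace Pool.Agent.Lib.MPbe1941.X

open Module

/-- The group generated by `ρ` and `ρ'` (with `ρ⁻¹ ρ' ∈ T`, a normal `t`-subgroup) has order
prime to `l`. -/
theorem card_two_gen {Γ : Type*} [Group Γ] [Finite Γ] {t l : ℕ} (ht : t.Prime) (hl : l.Prime)
    (htl : t ≠ l) {T : Subgroup Γ} (hTn : T.Normal) (hT : IsPGroup t T) {ρ ρ' : Γ}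
    (hρ : ρ⁻¹ * ρ' ∈ T) (hgen : Subgroup.closure {ρ, ρ'} = ⊤) (hlo : ¬ l ∣ orderOf ρ) :
    ¬ l ∣ Nat.card Γ := by
  have hFt : Fact t.Prime := ⟨ht⟩
  intro hdvd
  have h1 : Nat.card Γ = Nat.card T * T.index := (Subgroup.card_mul_index T).symm
  rw [h1] at hdvd
  rcases hl.dvd_mul.1 hdvd with h | h
  · obtain ⟨n, hn⟩ := IsPGroup.iff_card.1 hT
    rw [hn] at h
    exact htl ((Nat.prime_dvd_prime_iff_eq hl ht).1 (hl.dvd_of_dvd_pow h)).symm
  · apply hlo
    have h2 : (ρ : Γ ⧸ T) = (ρ' : Γ ⧸ T) := by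
      rw [QuotientGroup.eq]; exact hρ
    have h3 : Subgroup.zpowers (ρ : Γ ⧸ T) = ⊤ := by
      rw [eq_top_iff]
      have h4 : Subgroup.closure {ρ, ρ'} ≤
          (Subgroup.zpowers (ρ : Γ ⧸ T)).comap (QuotientGroup.mk' T) := by
        rw [Subgroup.closure_le]
        rintro g (rfl | rfl)
        · exact Subgroup.mem_zpowers _
        · change (QuotientGroup.mk' T) g ∈ Subgroup.zpowers (ρ : Γ ⧸ T)
          rw [QuotientGroup.mk'_apply, ← h2]
          exact Subgroup.mem_zpowers _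
      intro q _
      obtain ⟨g, rfl⟩ := QuotientGroup.mk_surjective q
      have hg : g ∈ Subgroup.closure {ρ, ρ'} := by rw [hgen]; trivial
      exact h4 hg
    have h5 : Nat.card (Γ ⧸ T) = orderOf (ρ : Γ ⧸ T) := by
      rw [← Nat.card_zpowers, h3]
      exact (Subgroup.card_top).symm
    have h6 : orderOf (ρ : Γ ⧸ T) ∣ orderOf ρ := orderOf_map_dvd (QuotientGroup.mk' T) ρ
    rw [Subgroup.index_eq_card, h5] at h
    exact h.trans h6

/-- **L3**, homomorphism form, with the vector space structure. -/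
theorem ratio_mod {G V : Type*} [Group G] [Finite G] [AddCommGroup V] [Finite V] {l : ℕ}
    [Fact l.Prime] [Module (ZMod l) V] (f : G →* AddMonoid.End V) (hl : l.Prime) {t : ℕ}
    (ht : t.Prime) (htl : t ≠ l) {T : Subgroup G} (hT : IsPGroup t T) {ρ : G}
    (hρT : ∀ x ∈ T, ρ * x * ρ⁻¹ ∈ T) (ho : Odd (orderOf ρ)) (hco : ¬ t ∣ orderOf ρ)
    (hlo : ¬ l ∣ orderOf ρ) 
    (h3 : t ≠ 2 ∨ ¬ 3 ∣ orderOf ρ ∨ ∀ g ∈ T, ∀ h ∈ T, g * h = h * g) (a : ℕ)
    (hq : ∀ v, f ρ (f ρ v) + a • v = (1 + a) • f ρ v) :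
    ∀ x ∈ T, ∀ v, f ρ (f x v) = f x (f ρ v) := by
  have hfin : Module.Finite (ZMod l) V := Module.Finite.of_finite
  by_cases ha1 : (a : ZMod l) = 1
  · -- `ρ` acts trivially
    have hav : ∀ v : V, a • v = v := by
      intro v
      have : ((a : ZMod l)) • v = a • v := Nat.cast_smul_eq_nsmul _ _ _
      rw [← this, ha1, one_smul]
    have hfix : ∀ v, f ρ v = v := by
      intro v
      set w := f ρ v - v with hw
      have hw1 : f ρ w = w := by
        rw [hw, map_sub]
        have h5 := hq v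
        rw [hav, add_smul, one_smul, hav] at h5
        rw [sub_eq_sub_iff_add_eq_add, h5]
      have hn : ∀ n : ℕ, (f (ρ ^ n)) v = v + n • w := by
        intro n
        induction n with
        | zero => simp
        | succ n ih =>
          have e1 : f (ρ ^ (n + 1)) v = f ρ (f (ρ ^ n) v) := by
            rw [pow_succ', map_mul]; rfl
          rw [e1, ih, map_add, map_nsmul, hw1, add_smul, one_smul]
          have : f ρ v = v + w := by rw [hw]; abel
          rw [this]
          abel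
      have h5 := hn (orderOf ρ)
      rw [pow_orderOf_eq_one, map_one] at h5
      have h6 : (orderOf ρ) • w = 0 := by
        have h7 : (1 : AddMonoid.End V) v = v := rfl
        rw [h7] at h5
        exact left_eq_add.1 h5
      have h8 : ((orderOf ρ : ℕ) : ZMod l) • w = 0 := by
        rw [Nat.cast_smul_eq_nsmul]; exact h6
      have hne : ((orderOf ρ : ℕ) : ZMod l) ≠ 0 := by
        intro h9
        exact hlo ((ZMod.natCast_eq_zero_iff _ _).1 h9)
      have h9 : w = 0 := by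
        have h10 : ((orderOf ρ : ℕ) : ZMod l)⁻¹ • ((orderOf ρ : ℕ) : ZMod l) • w = 0 := by
          rw [h8, smul_zero]
        rwa [smul_smul, inv_mul_cancel₀ hne, one_smul] at h10
      rw [hw] at h9
      exact sub_eq_zero.1 h9
    intro x _ v
    rw [hfix, hfix]
  intro x hx
  -- the group generated by `ρ` and `ρ' = x⁻¹ ρ x`
  set ρ' := x⁻¹ * ρ * x with hρ'
  set Γ : Subgroup G := Subgroup.closure {ρ, ρ'} with hΓ
  have hρΓ : ρ ∈ Γ := Subgroup.subset_closure (by simp)
  have hρ'Γ : ρ' ∈ Γ := Subgroup.subset_closure (by simp)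
  -- `Γ` normalises `T`
  have hρn : ρ ∈ Subgroup.normalizer (T : Set G) := by
    have h5 : ∀ n : ℕ, ∀ x ∈ T, ρ ^ n * x * (ρ ^ n)⁻¹ ∈ T := by
      intro n
      induction n with
      | zero => intro x hx; simpa using hx
      | succ n ih =>
        intro x hx
        have e : ρ ^ (n + 1) * x * (ρ ^ (n + 1))⁻¹ = ρ * (ρ ^ n * x * (ρ ^ n)⁻¹) * ρ⁻¹ := by
          rw [pow_succ' ρ n]; group
        rw [e]
        exact hρT _ (ih x hx)
    rw [Subgroup.mem_normalizer_iff]
    intro y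
    constructor
    · exact hρT y
    · intro hy
      have e1 : ρ⁻¹ = ρ ^ (orderOf ρ - 1) := by
        rw [inv_eq_iff_mul_eq_one, ← pow_succ', Nat.sub_add_cancel (orderOf_pos ρ),
          pow_orderOf_eq_one]
      have h6 := h5 (orderOf ρ - 1) _ hy
      rw [← e1] at h6
      have e2 : ρ⁻¹ * (ρ * y * ρ⁻¹) * ρ⁻¹⁻¹ = y := by group
      rwa [e2] at h6
  have hTN : T ≤ Subgroup.normalizer (T : Set G) := Subgroup.le_normalizer
  have hΓn : Γ ≤ Subgroup.normalizer (T : Set G) := by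
    rw [hΓ, Subgroup.closure_le]
    rintro g (rfl | rfl)
    · exact hρn
    · exact Subgroup.mul_mem _ (Subgroup.mul_mem _ (Subgroup.inv_mem _ (hTN hx)) hρn) (hTN hx)
  have hTn : (T.subgroupOf Γ).Normal := by
    refine ⟨?_⟩
    intro n hn g
    rw [Subgroup.mem_subgroupOf] at hn ⊢
    have := (Subgroup.mem_normalizer_iff.1 (hΓn g.2) (n : G)).1 hn
    simpa using this
  have hTp : IsPGroup t (T.subgroupOf Γ) := by
    intro g
    obtain ⟨n, hn⟩ := hT ⟨(g : Γ), g.2⟩
    refine ⟨n, ?_⟩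
    apply Subtype.ext
    apply Subtype.ext
    have := congrArg Subtype.val hn
    simpa using this
  have hgen : Subgroup.closure {(⟨ρ, hρΓ⟩ : Γ), ⟨ρ', hρ'Γ⟩} = ⊤ := by
    rw [eq_top_iff]
    rintro ⟨g, hg⟩ _
    have h5 : Γ ≤ (Subgroup.closure {(⟨ρ, hρΓ⟩ : Γ), ⟨ρ', hρ'Γ⟩}).map Γ.subtype := by
      conv_lhs => rw [hΓ]
      rw [Subgroup.closure_le]
      rintro y (rfl | rfl)
      · exact ⟨⟨_, hρΓ⟩, Subgroup.subset_closure (by simp), rfl⟩
      · exact ⟨⟨_, hρ'Γ⟩, Subgroup.subset_closure (by simp), rfl⟩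
    obtain ⟨y, hy, hyg⟩ := h5 hg
    have : y = ⟨g, hg⟩ := Subtype.ext hyg
    rw [← this]; exact hy
  have hmemT : (⟨ρ, hρΓ⟩ : Γ)⁻¹ * ⟨ρ', hρ'Γ⟩ ∈ T.subgroupOf Γ := by
    rw [Subgroup.mem_subgroupOf]
    change ρ⁻¹ * ρ' ∈ T
    have e : ρ⁻¹ * ρ' = (ρ⁻¹ * x⁻¹ * ρ) * x := by rw [hρ']; group
    rw [e]
    refine T.mul_mem ?_ hx
    have := (Subgroup.mem_normalizer_iff.1 (Subgroup.inv_mem _ hρn) x⁻¹).1 (T.inv_mem hx)
    simpa using this
  have hord : orderOf (⟨ρ, hρΓ⟩ : Γ) = orderOf ρ := Subgroup.orderOf_mk _ _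
  have h3' : t ≠ 2 ∨ ¬ 3 ∣ orderOf (⟨ρ, hρΓ⟩ : Γ) ∨
      ∀ g ∈ T.subgroupOf Γ, ∀ h ∈ T.subgroupOf Γ, g * h = h * g := by
    rw [hord]
    rcases h3 with h | h | h
    · exact Or.inl h
    · exact Or.inr (Or.inl h)
    · exact Or.inr (Or.inr fun g hg g' hg' => Subtype.ext (h _ hg _ hg'))
  -- scalar extension
  let k := AlgebraicClosure (ZMod l)
  have hchar : CharP k l := charP_of_injective_algebraMap (algebraMap (ZMod l) k).injective l
  have hcard : (Nat.card Γ : k) ≠ 0 := by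
    intro h
    rw [CharP.cast_eq_zero_iff k l] at h
    exact card_two_gen ht hl htl hTn hTp hmemT hgen (by rw [hord]; exact hlo) h
  have htk : (t : k) ≠ 0 := by
    intro h
    rw [CharP.cast_eq_zero_iff k l] at h
    exact htl ((Nat.prime_dvd_prime_iff_eq hl ht).1 h).symm
  have hak : (a : k) ≠ 1 := by
    intro h
    apply ha1
    have h5 : algebraMap (ZMod l) k (a : ZMod l) = algebraMap (ZMod l) k 1 := by
      rw [map_natCast, map_one]; exact h
    exact (algebraMap (ZMod l) k).injective h5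
  let lin : G → (V →ₗ[ZMod l] V) := fun g => AddMonoidHom.toZModLinearMap l (f g)
  have hlin : ∀ (g : G) (v : V), lin g v = f g v := fun g v => rfl
  let φ : Γ →* ((TensorProduct (ZMod l) k V) →ₗ[k] (TensorProduct (ZMod l) k V)) :=
    { toFun := fun g => (lin g).baseChange k
      map_one' := by
        have : lin ((1 : Γ) : G) = LinearMap.id := by
          ext v; rw [hlin, Subgroup.coe_one, map_one]; rfl
        rw [this, LinearMap.baseChange_id]; rfl
      map_mul' := by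
        intro x y
        have : lin ((x * y : Γ) : G) = lin x ∘ₗ lin y := by
          ext v; rw [LinearMap.comp_apply, hlin, hlin, hlin, Subgroup.coe_mul, map_mul]; rfl
        rw [this, LinearMap.baseChange_comp]; rfl }
  have hφ : ∀ (g : Γ) (c : k) (v : V), φ g (c ⊗ₜ[ZMod l] v) = c ⊗ₜ[ZMod l] (f g v) := by
    intro g c v
    rfl
  have hquad : ∀ g : Γ, (∀ v, f g (f g v) + a • v = (1 + a) • f g v) →
      ∀ u, φ g (φ g u) + (a : k) • u = (1 + (a : k)) • φ g u := by
    intro g hg u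
    induction u using TensorProduct.induction_on with
    | zero => simp
    | tmul c v =>
      rw [hφ, hφ]
      have e1 : (a : k) • (c ⊗ₜ[ZMod l] v) = c ⊗ₜ[ZMod l] (a • v) := by
        rw [Nat.cast_smul_eq_nsmul, TensorProduct.tmul_smul]
      have e2 : (1 + (a : k)) • (c ⊗ₜ[ZMod l] (f g v)) = c ⊗ₜ[ZMod l] ((1 + a) • f g v) := by
        have : (1 + (a : k)) = ((1 + a : ℕ) : k) := by push_cast; ring
        rw [this, Nat.cast_smul_eq_nsmul, TensorProduct.tmul_smul]
      rw [e1, e2, ← TensorProduct.tmul_add, hg]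
    | add u w hu hw =>
      rw [map_add, map_add, smul_add, smul_add, ← hu, ← hw]
      abel
  have hq' : ∀ v, f ρ' (f ρ' v) + a • v = (1 + a) • f ρ' v := by
    intro v
    have h5 := congrArg (f x⁻¹) (hq (f x v))
    rw [map_add, map_nsmul, map_nsmul] at h5
    have e1 : ∀ g h : G, ∀ v, f g (f h v) = f (g * h) v := by
      intro g h v; rw [map_mul]; rfl
    simp only [e1] at h5 ⊢
    have e2 : x⁻¹ * (ρ * (ρ * x)) = ρ' * ρ' := by rw [hρ']; group
    have e3 : x⁻¹ * x = 1 := by group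
    have e4 : x⁻¹ * (ρ * x) = ρ' := by rw [hρ']; group
    rw [e2, e3, e4, map_one] at h5
    exact h5
  have hcomm := quad_comm (k := k) (Γ := Γ) hcard ht htk hTn hTp hmemT hgen
    (by rw [hord]; exact ho) (by rw [hord]; exact hco) h3' hak
    (finrank k (TensorProduct (ZMod l) k V)) (TensorProduct (ZMod l) k V) rfl φ
    (hquad ⟨ρ, hρΓ⟩ hq) (hquad ⟨ρ', hρ'Γ⟩ hq')
  have hinj : Function.Injective (TensorProduct.mk (ZMod l) k V 1) :=
    Module.Flat.tensorProduct_mk_injective (R := ZMod l) (S := k) (M := V)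
  have hcomm' : ∀ v, f ρ (f ρ' v) = f ρ' (f ρ v) := by
    intro v
    apply hinj
    exact hcomm ((1 : k) ⊗ₜ[ZMod l] v)
  -- the coprime argument
  set c := ρ * x⁻¹ * ρ⁻¹ * x with hc
  have hcT : c ∈ T := T.mul_mem (hρT _ (T.inv_mem hx)) hx
  have hcop : (orderOf ρ).Coprime (orderOf c) := by
    obtain ⟨n, hn⟩ := hT ⟨c, hcT⟩
    have hn' : c ^ t ^ n = 1 := by
      have := congrArg Subtype.val hn
      simpa using this
    refine Nat.Coprime.coprime_dvd_right (orderOf_dvd_of_pow_eq_one hn') ?_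
    exact (((Nat.Prime.coprime_iff_not_dvd ht).2 hco).symm).pow_right _
  have hi : ∀ g : G, f g * f g⁻¹ = 1 := by
    intro g; rw [← map_mul, mul_inv_cancel, map_one]
  have hi' : ∀ g : G, f g⁻¹ * f g = 1 := by
    intro g; rw [← map_mul, inv_mul_cancel, map_one]
  have hfc : f ρ * f c = f c * f ρ := by
    have h5 : f ρ * f ρ' = f ρ' * f ρ := by
      ext v; exact hcomm' v
    have e : c = ρ * ρ'⁻¹ := by rw [hc, hρ']; group
    rw [e, map_mul]
    have h6 : f ρ * f ρ'⁻¹ = f ρ'⁻¹ * f ρ := by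
      calc f ρ * f ρ'⁻¹ = (f ρ'⁻¹ * f ρ') * (f ρ * f ρ'⁻¹) := by rw [hi', one_mul]
        _ = f ρ'⁻¹ * (f ρ' * f ρ) * f ρ'⁻¹ := by simp only [mul_assoc]
        _ = f ρ'⁻¹ * (f ρ * f ρ') * f ρ'⁻¹ := by rw [h5]
        _ = f ρ'⁻¹ * f ρ * (f ρ' * f ρ'⁻¹) := by simp only [mul_assoc]
        _ = f ρ'⁻¹ * f ρ := by rw [hi, mul_one]
    rw [mul_assoc, ← h6]
  have hc1 := hom_comm_eq_one f (a := ρ) (x := x⁻¹) (c := c) (by rw [hc]; group) hfc hcop
  intro v
  have h5 : f x * f ρ = f ρ * f x := by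
    have e : ρ = c * (x⁻¹ * ρ * x) := by rw [hc]; group
    have h6 : f ρ = f (x⁻¹ * ρ * x) := by
      conv_lhs => rw [e, map_mul, hc1, one_mul]
    conv_lhs => rw [h6]
    rw [← map_mul, ← map_mul]
    congr 1
    group
  exact (DFunLike.congr_fun h5 v).symm

/-- **L3**, homomorphism form. -/
theorem ratio_hom {G V : Type*} [Group G] [Finite G] [AddCommGroup V] [Finite V]
    (f : G →* AddMonoid.End V) {l : ℕ} (hl : l.Prime) (hlV : ∀ v : V, l • v = 0) {t : ℕ}
    (ht : t.Prime) (htl : t ≠ l) {T : Subgroup G} (hT : IsPGroup t T) {ρ : G}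
    (hρT : ∀ x ∈ T, ρ * x * ρ⁻¹ ∈ T) (ho : Odd (orderOf ρ)) (hco : ¬ t ∣ orderOf ρ)
    (hlo : ¬ l ∣ orderOf ρ) 
    (h3 : t ≠ 2 ∨ ¬ 3 ∣ orderOf ρ ∨ ∀ g ∈ T, ∀ h ∈ T, g * h = h * g) (a : ℕ)
    (hq : ∀ v, f ρ (f ρ v) + a • v = (1 + a) • f ρ v) :
    ∀ x ∈ T, ∀ v, f ρ (f x v) = f x (f ρ v) := by
  have hFl : Fact l.Prime := ⟨hl⟩
  let _ : Module (ZMod l) V := AddCommGroup.zmodModule hlV
  exact ratio_mod (l := l) f hl ht htl hT hρT ho hco hlo h3 a hq

/-- **L3V**: the ratio lemma on an elementary abelian `l`-group. -/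
theorem ratio_V {G V : Type*} [Group G] [Finite G] [AddCommGroup V] [Finite V]
    [DistribMulAction G V] {l : ℕ} (hl : l.Prime) (hlV : ∀ v : V, l • v = 0) {t : ℕ}
    (ht : t.Prime) (htl : t ≠ l) {T : Subgroup G} (hT : IsPGroup t T) {ρ : G}
    (hρT : ∀ x ∈ T, ρ * x * ρ⁻¹ ∈ T) (ho : Odd (orderOf ρ)) (hco : ¬ t ∣ orderOf ρ)
    (hlo : ¬ l ∣ orderOf ρ) 
    (h3 : t ≠ 2 ∨ ¬ 3 ∣ orderOf ρ ∨ ∀ g ∈ T, ∀ h ∈ T, g * h = h * g) (a : ℕ)
    (hq : ∀ v : V, ρ • ρ • v + a • v = (1 + a) • ρ • v) :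
    ∀ x ∈ T, ∀ v : V, ρ • x • v = x • ρ • v :=
  ratio_hom (DistribMulAction.toAddMonoidEnd G V) hl hlV ht htl hT hρT ho hco hlo h3 a hq

end Pool.Agent.Lib.MPbe1941.X
end

section
/-!
# MP_be1941_al (exact bound), module RAP: the ratio lemma (L3) for an `l`-group `P`
-/
set_option autoImplicit false

namespace Pool.Agent.Lib.MPbe1941.X

open scoped commutatorElement

/-- The subgroup generated by the commutators and the `l`-th powers. -/
def Phi (l : ℕ) (P : Type*) [Group P] : Subgroup P :=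
  commutator P ⊔ Subgroup.closure {x | ∃ y : P, x = y ^ l}

theorem Phi_map {l : ℕ} {P : Type*} [Group P] (f : P →* P) : Phi l P ≤ (Phi l P).comap f := by
  refine sup_le ?_ ?_
  · rw [commutator_def, Subgroup.commutator_le]
    intro x _ y _
    rw [Subgroup.mem_comap, map_commutatorElement]
    exact Subgroup.mem_sup_left (Subgroup.commutator_mem_commutator trivial trivial)
  · rw [Subgroup.closure_le]
    rintro _ ⟨y, rfl⟩
    change f (y ^ l) ∈ Phi l P
    rw [map_pow]
    exact Subgroup.mem_sup_right (Subgroup.subset_closure ⟨f y, rfl⟩)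

instance Phi_normal {l : ℕ} {P : Type*} [Group P] : (Phi l P).Normal := by
  refine ⟨fun n hn g => ?_⟩
  exact Phi_map (MulAut.conj g).toMonoidHom hn

/-- `P / Phi` is abelian. -/
@[reducible] def Phi_comm (l : ℕ) (P : Type*) [Group P] : CommGroup (P ⧸ Phi l P) :=
  { (inferInstance : Group (P ⧸ Phi l P)) with
    mul_comm := by
      intro a b
      obtain ⟨x, rfl⟩ := QuotientGroup.mk_surjective a
      obtain ⟨y, rfl⟩ := QuotientGroup.mk_surjective b
      change ((x * y : P) : P ⧸ Phi l P) = ((y * x : P) : P ⧸ Phi l P)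
      rw [QuotientGroup.eq]
      have e : (x * y)⁻¹ * (y * x) = ⁅y⁻¹, x⁻¹⁆ := by rw [commutatorElement_def]; group
      rw [e]
      exact Subgroup.mem_sup_left (Subgroup.commutator_mem_commutator trivial trivial) }

theorem Phi_exp {l : ℕ} {P : Type*} [Group P] (a : P ⧸ Phi l P) : a ^ l = 1 := by
  obtain ⟨x, rfl⟩ := QuotientGroup.mk_surjective a
  rw [← QuotientGroup.mk_pow, QuotientGroup.eq_one_iff]
  exact Subgroup.mem_sup_right (Subgroup.subset_closure ⟨x, rfl⟩)

/-- `Phi` consists of nongenerators. -/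
theorem frat {l : ℕ} (hl : l.Prime) {P : Type*} [Group P] [Finite P] (hP : IsPGroup l P)
    (C : Subgroup P) (hC : C ⊔ Phi l P = ⊤) : C = ⊤ := by
  have hFl : Fact l.Prime := ⟨hl⟩
  by_contra hne
  obtain ⟨M, hM, hCM⟩ := (eq_top_or_exists_le_coatom C).resolve_left hne
  have hnil : Group.IsNilpotent P := hP.isNilpotent
  have hMn : M.Normal := 
    Subgroup.NormalizerCondition.normal_of_coatom M Group.normalizerCondition_of_isNilpotent hM
  have hQ : IsPGroup l (P ⧸ M) := hP.to_quotient M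
  have hnt : Nontrivial (P ⧸ M) := by
    rw [← not_subsingleton_iff_nontrivial]
    intro h
    apply hM.1
    rw [eq_top_iff]
    intro x _
    exact (QuotientGroup.eq_one_iff x).1 (Subsingleton.elim _ _)
  -- no proper subgroups
  have hsub : ∀ S : Subgroup (P ⧸ M), S ≠ ⊥ → S = ⊤ := by
    intro S hS
    have h1 : M ≤ S.comap (QuotientGroup.mk' M) := by
      intro x hx
      rw [Subgroup.mem_comap]
      have : (QuotientGroup.mk' M) x = 1 := (QuotientGroup.eq_one_iff x).2 hx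
      rw [this]; exact S.one_mem
    have h2 : M ≠ S.comap (QuotientGroup.mk' M) := by
      intro h
      apply hS
      rw [Subgroup.eq_bot_iff_forall]
      intro q hq
      obtain ⟨x, rfl⟩ := QuotientGroup.mk_surjective q
      have hx : x ∈ S.comap (QuotientGroup.mk' M) := hq
      rw [← h] at hx
      exact (QuotientGroup.eq_one_iff x).2 hx
    have h3 := hM.2 _ (lt_of_le_of_ne h1 h2)
    rw [eq_top_iff]
    intro q _
    obtain ⟨x, rfl⟩ := QuotientGroup.mk_surjective q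
    have hx : x ∈ S.comap (QuotientGroup.mk' M) := by rw [h3]; trivial
    exact hx
  obtain ⟨q, hq⟩ : ∃ q : P ⧸ M, orderOf q = l := by
    obtain ⟨n, hn, hc⟩ := hQ.nontrivial_iff_card.1 hnt
    refine exists_prime_orderOf_dvd_card' l ?_
    rw [hc]
    exact dvd_pow_self l (by omega)
  have hz : Subgroup.zpowers q = ⊤ := by
    apply hsub
    intro h
    rw [Subgroup.zpowers_eq_bot] at h
    rw [h, orderOf_one] at hq
    exact hl.one_lt.ne hq
  have hall : ∀ a : P ⧸ M, ∃ n : ℤ, q ^ n = a := by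
    intro a
    have : a ∈ Subgroup.zpowers q := by rw [hz]; trivial
    exact Subgroup.mem_zpowers_iff.1 this
  have hPhi : Phi l P ≤ M := by
    refine sup_le ?_ ?_
    · rw [commutator_def, Subgroup.commutator_le]
      intro x _ y _
      rw [← QuotientGroup.eq_one_iff]
      obtain ⟨m, hm⟩ := hall (x : P ⧸ M)
      obtain ⟨n, hn⟩ := hall (y : P ⧸ M)
      have e : ((⁅x, y⁆ : P) : P ⧸ M) = ⁅(x : P ⧸ M), (y : P ⧸ M)⁆ :=
        map_commutatorElement (QuotientGroup.mk' M) x y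
      rw [e, ← hm, ← hn, commutatorElement_def, ← zpow_add, ← zpow_neg, ← zpow_neg, ← zpow_add,
        ← zpow_add]
      have : m + n + -m + -n = 0 := by ring
      rw [this, zpow_zero]
    · rw [Subgroup.closure_le]
      rintro _ ⟨y, rfl⟩
      change y ^ l ∈ M
      rw [← QuotientGroup.eq_one_iff, QuotientGroup.mk_pow]
      obtain ⟨n, hn⟩ := hall (y : P ⧸ M)
      rw [← hn, ← zpow_natCast, ← zpow_mul, mul_comm, zpow_mul, zpow_natCast, ← hq,
        pow_orderOf_eq_one, one_zpow]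
  apply hM.1
  rw [eq_top_iff, ← hC]
  exact sup_le hCM hPhi

/-- Multiplicative form of L3. -/
theorem ratio_mul {G Q : Type*} [Group G] [Finite G] [CommGroup Q] [Finite Q]
    (f : G →* Monoid.End Q) {l : ℕ} (hl : l.Prime) (hlQ : ∀ q : Q, q ^ l = 1) {t : ℕ}
    (ht : t.Prime) (htl : t ≠ l) {T : Subgroup G} (hT : IsPGroup t T) {ρ : G}
    (hρT : ∀ x ∈ T, ρ * x * ρ⁻¹ ∈ T) (ho : Odd (orderOf ρ)) (hco : ¬ t ∣ orderOf ρ)
    (hlo : ¬ l ∣ orderOf ρ) 
    (h3 : t ≠ 2 ∨ ¬ 3 ∣ orderOf ρ ∨ ∀ g ∈ T, ∀ h ∈ T, g * h = h * g) (a : ℕ)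
    (hq : ∀ q : Q, f ρ (f ρ q) * q ^ a = (f ρ q) ^ (1 + a)) :
    ∀ x ∈ T, ∀ q : Q, f ρ (f x q) = f x (f ρ q) := by
  let F : G →* AddMonoid.End (Additive Q) :=
    { toFun := fun g => MonoidHom.toAdditive (f g)
      map_one' := by ext v; rw [map_one]; rfl
      map_mul' := by intro x y; ext v; rw [map_mul]; rfl }
  have h := ratio_hom (V := Additive Q) F hl (fun v => hlQ v.toMul) ht htl hT hρT ho hco hlo h3 a
    (fun v => hq v.toMul)
  intro x hx q
  exact h x hx (Additive.ofMul q)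

theorem aux_comm {Q : Type*} [CommGroup Q] (A B : Q) (a : ℤ) :
    ((A ^ a) ^ a * B) * (A * B) ^ a = (A ^ a * B) * (A ^ a * B) ^ a := by
  rw [mul_zpow, mul_zpow, mul_mul_mul_comm, mul_comm ((A ^ a) ^ a) (A ^ a), mul_mul_mul_comm]

theorem aux_comm2 {Q : Type*} [CommGroup Q] (w u x : Q) (a : ℤ) (h : w * u⁻¹ = (u * x⁻¹) ^ a) :
    w * x ^ a = u * u ^ a := by
  rw [mul_zpow, inv_zpow] at h
  have h1 : w = u ^ a * (x ^ a)⁻¹ * u := by rw [← h]; group
  rw [h1]
  have : u ^ a * (x ^ a)⁻¹ * u * x ^ a = u * u ^ a * ((x ^ a)⁻¹ * x ^ a) := by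
    rw [mul_comm (u ^ a * (x ^ a)⁻¹) u, ← mul_assoc, mul_assoc (u * u ^ a)]
  rw [this, inv_mul_cancel, mul_one]

/-- **L3P**, core: `ρ` acts on `P / Phi` with eigenvalues `1, a`; the `t`-group `T` is normalised
by `ρ`: then `[ρ, T]` centralises `P`. -/
theorem ratio_core {G : Type} [Group G] [Finite G] {l t : ℕ} (hl : l.Prime) (ht : t.Prime)
    (htl : t ≠ l) {P T : Subgroup G} (hP : IsPGroup l P) (hT : IsPGroup t T)
    (hTP : ∀ x ∈ T, ∀ y ∈ P, x * y * x⁻¹ ∈ P) {ρ : G} (hρP : ∀ y ∈ P, ρ * y * ρ⁻¹ ∈ P)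
    (hρT : ∀ x ∈ T, ρ * x * ρ⁻¹ ∈ T) (ho : Odd (orderOf ρ)) (hco : ¬ t ∣ orderOf ρ)
    (hlo : ¬ l ∣ orderOf ρ) 
    (h3 : t ≠ 2 ∨ ¬ 3 ∣ orderOf ρ ∨ ∀ g ∈ T, ∀ h ∈ T, g * h = h * g) (a : ℤ)
    (hqb : ∀ x u w : P, (u : G) = ρ * x * ρ⁻¹ → (w : G) = ρ * u * ρ⁻¹ →
      (w : P ⧸ Phi l P) * (x : P ⧸ Phi l P) ^ a = (u : P ⧸ Phi l P) * (u : P ⧸ Phi l P) ^ a) :
    ∀ x ∈ T, ∀ y ∈ P, (ρ * x * ρ⁻¹ * x⁻¹) * y = y * (ρ * x * ρ⁻¹ * x⁻¹) := by
  have hFt : Fact t.Prime := ⟨ht⟩
  -- the group acting on `P`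
  set K : Subgroup G := Subgroup.normalizer (P : Set G) with hK
  have hmemK : ∀ g : G, (∀ y ∈ P, g * y * g⁻¹ ∈ P) → g ∈ K := by
    intro g hg
    have hpow : ∀ n : ℕ, ∀ y ∈ P, g ^ n * y * (g ^ n)⁻¹ ∈ P := by
      intro n
      induction n with
      | zero => intro y hy; simpa using hy
      | succ n ih =>
        intro y hy
        have e : g ^ (n + 1) * y * (g ^ (n + 1))⁻¹ = g * (g ^ n * y * (g ^ n)⁻¹) * g⁻¹ := by
          rw [pow_succ' g n]; group
        rw [e]
        exact hg _ (ih y hy)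
    rw [hK, Subgroup.mem_normalizer_iff]
    intro y
    constructor
    · exact hg y
    · intro hy
      have e1 : g⁻¹ = g ^ (orderOf g - 1) := by
        rw [inv_eq_iff_mul_eq_one, ← pow_succ', Nat.sub_add_cancel (orderOf_pos g),
          pow_orderOf_eq_one]
      have h6 := hpow (orderOf g - 1) _ hy
      rw [← e1] at h6
      have e2 : g⁻¹ * (g * y * g⁻¹) * g⁻¹⁻¹ = y := by group
      rwa [e2] at h6
  have hρK : ρ ∈ K := hmemK ρ hρP
  have hTK : T ≤ K := fun x hx => hmemK x (hTP x hx)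
  have hconj : ∀ (g : K) (y : P), (g : G) * y * (g : G)⁻¹ ∈ P := fun g y =>
    (Subgroup.mem_normalizer_iff.1 g.2 y).1 y.2
  let _ : CommGroup (P ⧸ Phi l P) := Phi_comm l P
  let α : K →* Monoid.End P :=
    { toFun := fun g =>
        { toFun := fun y => ⟨(g : G) * y * (g : G)⁻¹, hconj g y⟩
          map_one' := by apply Subtype.ext; simp
          map_mul' := by intro x y; apply Subtype.ext; simp }
      map_one' := by
        ext y
        change (1 : G) * y * (1 : G)⁻¹ = y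
        group
      map_mul' := by
        intro x y; ext z
        change (x : G) * y * z * ((x : G) * y)⁻¹ = (x : G) * ((y : G) * z * (y : G)⁻¹) * (x : G)⁻¹
        group }
  have hα : ∀ (g : K) (y : P), ((α g y : P) : G) = (g : G) * y * (g : G)⁻¹ := fun g y => rfl
  let f : K →* Monoid.End (P ⧸ Phi l P) :=
    { toFun := fun g => QuotientGroup.map (Phi l P) (Phi l P) (α g) (Phi_map (α g))
      map_one' := by
        ext q
        obtain ⟨y, rfl⟩ := QuotientGroup.mk_surjective q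
        change ((α 1 y : P) : P ⧸ Phi l P) = (y : P ⧸ Phi l P)
        rw [map_one]; rfl
      map_mul' := by
        intro g h
        ext q
        obtain ⟨y, rfl⟩ := QuotientGroup.mk_surjective q
        change ((α (g * h) y : P) : P ⧸ Phi l P) = ((α g (α h y) : P) : P ⧸ Phi l P)
        rw [map_mul]; rfl }
  have hf : ∀ (g : K) (y : P), f g (y : P ⧸ Phi l P) = ((α g y : P) : P ⧸ Phi l P) :=
    fun g y => rfl
  -- the quadratic relation
  set ρK : K := ⟨ρ, hρK⟩ with hρKdef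
  obtain ⟨a', ha'⟩ : ∃ a' : ℕ, ∀ q : P ⧸ Phi l P, q ^ a = q ^ a' := by
    refine ⟨(a % l).toNat, fun q => ?_⟩
    have hl0 : (l : ℤ) ≠ 0 := by exact_mod_cast hl.ne_zero
    have h5 : ((a % l).toNat : ℤ) = a % l := Int.toNat_of_nonneg (Int.emod_nonneg a hl0)
    rw [← zpow_natCast, h5]
    conv_lhs => rw [← Int.emod_add_mul_ediv a l, zpow_add, zpow_mul, zpow_natCast, Phi_exp,
      one_zpow, mul_one]
  have hquad : ∀ q : P ⧸ Phi l P, f ρK (f ρK q) * q ^ a' = (f ρK q) ^ (1 + a') := by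
    intro q
    obtain ⟨x, rfl⟩ := QuotientGroup.mk_surjective q
    have h5 := hqb x (α ρK x) (α ρK (α ρK x)) rfl rfl
    rw [ha', ha'] at h5
    rw [hf, hf, add_comm, pow_succ']
    exact h5
  have hTp : IsPGroup t (T.subgroupOf K) := by
    intro g
    obtain ⟨n, hn⟩ := hT ⟨(g : K), g.2⟩
    refine ⟨n, ?_⟩
    apply Subtype.ext
    apply Subtype.ext
    have := congrArg Subtype.val hn
    simpa using this
  have hord : orderOf ρK = orderOf ρ := Subgroup.orderOf_mk _ _
  have h3' : t ≠ 2 ∨ ¬ 3 ∣ orderOf ρK ∨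
      ∀ g ∈ T.subgroupOf K, ∀ h ∈ T.subgroupOf K, g * h = h * g := by
    rw [hord]
    rcases h3 with h | h | h
    · exact Or.inl h
    · exact Or.inr (Or.inl h)
    · exact Or.inr (Or.inr fun g hg g' hg' => Subtype.ext (h _ hg _ hg'))
  have hrat := ratio_mul f hl Phi_exp ht htl hTp (ρ := ρK)
    (fun x hx => hρT x hx) (by rw [hord]; exact ho) (by rw [hord]; exact hco)
    (by rw [hord]; exact hlo) h3' a' hquad
  intro x hx
  set c := ρ * x * ρ⁻¹ * x⁻¹ with hc
  have hcT : c ∈ T := T.mul_mem (hρT x hx) (T.inv_mem hx)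
  have hcK : c ∈ K := hTK hcT
  have hi : ∀ (g : K) (q : P ⧸ Phi l P), f g (f g⁻¹ q) = q := by
    intro g q
    change (f g * f g⁻¹) q = q
    rw [← map_mul, mul_inv_cancel, map_one]; rfl
  have hfc : ∀ q, f ⟨c, hcK⟩ q = q := by
    intro q
    have h5 := hrat ⟨x, hTK hx⟩ hx (f ρK⁻¹ (f (⟨x, hTK hx⟩ : K)⁻¹ q))
    rw [hi, hi] at h5
    have e : (⟨c, hcK⟩ : K) = ρK * ⟨x, hTK hx⟩ * ρK⁻¹ * (⟨x, hTK hx⟩ : K)⁻¹ := by
      apply Subtype.ext
      rfl
    rw [e, map_mul, map_mul, map_mul]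
    exact h5
  -- all powers of `c` act trivially
  have hker : ∀ s ∈ Subgroup.zpowers c, ∀ y ∈ P, ∃ n : P, n ∈ Phi l P ∧ (n : G) = y⁻¹ * (s * y * s⁻¹) := by
    intro s hs y hy
    have hsK : s ∈ K := (Subgroup.zpowers_le.2 hcK) hs
    have h5 : (⟨s, hsK⟩ : K) ∈ f.ker := by
      obtain ⟨m, hm⟩ := Subgroup.mem_zpowers_iff.1 hs
      have e : (⟨s, hsK⟩ : K) = (⟨c, hcK⟩ : K) ^ m := by
        apply Subtype.ext
        rw [SubgroupClass.coe_zpow]
        exact hm.symm
      rw [e]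
      refine Subgroup.zpow_mem _ ?_ m
      rw [MonoidHom.mem_ker]
      ext q
      exact hfc q
    rw [MonoidHom.mem_ker] at h5
    have h6 : f ⟨s, hsK⟩ ((⟨y, hy⟩ : P) : P ⧸ Phi l P) = ((⟨y, hy⟩ : P) : P ⧸ Phi l P) := by
      rw [h5]; rfl
    rw [hf, eq_comm, QuotientGroup.eq] at h6
    exact ⟨_, h6, rfl⟩
  have hnrmP : XF.Nrm (Subgroup.zpowers c) P := by
    intro s hs y hy
    exact (Subgroup.mem_normalizer_iff.1 ((Subgroup.zpowers_le.2 hcK) hs) y).1 hy
  have hSp : IsPGroup t (Subgroup.zpowers c) := hT.to_le (Subgroup.zpowers_le.2 hcT)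
  have htP : ¬ t ∣ Nat.card P := by
    have hFl : Fact l.Prime := ⟨hl⟩
    intro h
    obtain ⟨n, hn⟩ := IsPGroup.iff_card.1 hP
    rw [hn] at h
    exact htl ((Nat.prime_dvd_prime_iff_eq ht hl).1 (ht.dvd_of_dvd_pow h))
  set N : Subgroup G := (Phi l P).map P.subtype with hN
  have hNP : N ≤ P := by
    rintro _ ⟨y, -, rfl⟩
    exact y.2
  have hnrmN : XF.Nrm (Subgroup.zpowers c) N := by
    rintro s hs _ ⟨y, hy, rfl⟩
    have hsK : s ∈ K := (Subgroup.zpowers_le.2 hcK) hs
    exact ⟨α ⟨s, hsK⟩ y, Phi_map (α ⟨s, hsK⟩) hy, rfl⟩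
  let C : Subgroup P :=
    { carrier := {y | ∀ s ∈ Subgroup.zpowers c, s * y = y * s}
      one_mem' := by intro s _; simp
      mul_mem' := by
        intro y z hy hz s hs
        rw [Subgroup.coe_mul, ← mul_assoc, hy s hs, mul_assoc, hz s hs, mul_assoc]
      inv_mem' := by
        intro y hy s hs
        rw [Subgroup.coe_inv, mul_inv_eq_iff_eq_mul, mul_assoc, hy s hs, inv_mul_cancel_left] }
  have hCtop : C = ⊤ := by
    refine frat hl hP C ?_
    rw [eq_top_iff]
    intro y _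
    obtain ⟨n, hn, hnk⟩ := XF.fix_lift ht hnrmP hSp htP hNP hnrmN y.2 (fun s hs => by
      obtain ⟨n, hn, hne⟩ := hker s hs (y : G)⁻¹ (P.inv_mem y.2)
      refine ⟨n, hn, ?_⟩
      change (n : G) = _
      rw [hne]
      group)
    obtain ⟨n', hn', rfl⟩ := hn
    rw [XF.mem_CK] at hnk
    have e : y = n'⁻¹ * (n' * y) := by group
    rw [e]
    refine Subgroup.mul_mem _ (Subgroup.mem_sup_right ((Phi l P).inv_mem hn')) ?_
    refine Subgroup.mem_sup_left ?_
    intro s hs
    exact hnk.2 s hs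
  intro y hy
  have h5 : (⟨y, hy⟩ : P) ∈ C := by rw [hCtop]; trivial
  exact h5 c (Subgroup.mem_zpowers c)

/-- **L3P**: every element of the `l`-group `P` is `q b`, `ρ` acts on `q` as the power `a` and
centralises `b`; the `t`-group `T` is normalised by `ρ`: then `[ρ, T]` centralises `P`. -/
theorem ratio_P {G : Type} [Group G] [Finite G] {l t : ℕ} (hl : l.Prime) (ht : t.Prime)
    (htl : t ≠ l) {P T : Subgroup G} (hP : IsPGroup l P) (hT : IsPGroup t T)
    (hTP : ∀ x ∈ T, ∀ y ∈ P, x * y * x⁻¹ ∈ P) {ρ : G} (hρP : ∀ y ∈ P, ρ * y * ρ⁻¹ ∈ P)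
    (hρT : ∀ x ∈ T, ρ * x * ρ⁻¹ ∈ T) (ho : Odd (orderOf ρ)) (hco : ¬ t ∣ orderOf ρ)
    (hlo : ¬ l ∣ orderOf ρ)
    (h3 : t ≠ 2 ∨ ¬ 3 ∣ orderOf ρ ∨ ∀ g ∈ T, ∀ h ∈ T, g * h = h * g) (a : ℤ)
    (hqb : ∀ x ∈ P, ∃ q ∈ P, ∃ b ∈ P, x = q * b ∧ ρ * q * ρ⁻¹ = q ^ a ∧ ρ * b * ρ⁻¹ = b) :
    ∀ x ∈ T, ∀ y ∈ P, (ρ * x * ρ⁻¹ * x⁻¹) * y = y * (ρ * x * ρ⁻¹ * x⁻¹) := by
  refine ratio_core hl ht htl hP hT hTP hρP hρT ho hco hlo h3 a ?_
  intro x u w hu hw
  obtain ⟨q0, hq0, b0, hb0, hxe, hq1, hb1⟩ := hqb x x.2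
  let _ : CommGroup (P ⧸ Phi l P) := Phi_comm l P
  set q : P := ⟨q0, hq0⟩ with hq
  set b : P := ⟨b0, hb0⟩ with hb
  have hx : x = q * b := Subtype.ext hxe
  have hu' : u = q ^ a * b := by
    apply Subtype.ext
    rw [hu, hxe, Subgroup.coe_mul, SubgroupClass.coe_zpow, ← hq1]
    have e : ρ * (q0 * b0) * ρ⁻¹ = (ρ * q0 * ρ⁻¹) * (ρ * b0 * ρ⁻¹) := by group
    rw [e, hb1]
  have hw' : w = (q ^ a) ^ a * b := by
    apply Subtype.ext
    rw [hw, hu', Subgroup.coe_mul, Subgroup.coe_mul, SubgroupClass.coe_zpow,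
      SubgroupClass.coe_zpow, SubgroupClass.coe_zpow]
    have e : ρ * (q0 ^ a * b0) * ρ⁻¹ = (ρ * q0 ^ a * ρ⁻¹) * (ρ * b0 * ρ⁻¹) := by group
    have e2 : ρ * q0 ^ a * ρ⁻¹ = (q0 ^ a) ^ a := by
      rw [← conj_zpow, hq1]
    change ρ * (q0 ^ a * b0) * ρ⁻¹ = (q0 ^ a) ^ a * b0
    rw [e, hb1, e2]
  rw [hw', hu', hx]
  exact aux_comm ((q : P) : P ⧸ Phi l P) ((b : P) : P ⧸ Phi l P) a

/-- **RAT** in the form of `SpecP.lean`. -/
theorem ratio_comm {G : Type} [Group G] [Finite G] {l t : ℕ} (hl : l.Prime) (ht : t.Prime)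
    (htl : t ≠ l) {P T : Subgroup G} (hP : IsPGroup l P) (hT : IsPGroup t T)
    (hTP : ∀ x ∈ T, ∀ y ∈ P, x * y * x⁻¹ ∈ P) {ρ : G} (hρP : ∀ y ∈ P, ρ * y * ρ⁻¹ ∈ P)
    (hρT : ∀ x ∈ T, ρ * x * ρ⁻¹ ∈ T) (ho : Odd (orderOf ρ)) (hco : ¬ t ∣ orderOf ρ)
    (hlo : ¬ l ∣ orderOf ρ)
    (h3 : t ≠ 2 ∨ ¬ 3 ∣ orderOf ρ ∨ ∀ g ∈ T, ∀ h ∈ T, g * h = h * g) (a : ℤ)
    (hqb : ∀ x ∈ P, ρ * (ρ * x * ρ⁻¹ * x⁻¹) * ρ⁻¹ = (ρ * x * ρ⁻¹ * x⁻¹) ^ a) :
    ∀ x ∈ T, ∀ y ∈ P, (ρ * x * ρ⁻¹ * x⁻¹) * y = y * (ρ * x * ρ⁻¹ * x⁻¹) := by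
  refine ratio_core hl ht htl hP hT hTP hρP hρT ho hco hlo h3 a ?_
  intro x u w hu hw
  let _ : CommGroup (P ⧸ Phi l P) := Phi_comm l P
  have h5 := hqb x x.2
  have h6 : w * u⁻¹ = (u * x⁻¹) ^ a := by
    apply Subtype.ext
    rw [SubgroupClass.coe_zpow, Subgroup.coe_mul, Subgroup.coe_mul, Subgroup.coe_inv,
      Subgroup.coe_inv, hw, hu]
    rw [← h5]
    group
  exact aux_comm2 (w : P ⧸ Phi l P) (u : P ⧸ Phi l P) (x : P ⧸ Phi l P) a
    (congrArg (QuotientGroup.mk (s := Phi l P)) h6)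

end Pool.Agent.Lib.MPbe1941.X
end

section
/-!
# MP_be1941_al (exact bound), L3R part A: linear algebra
-/
set_option autoImplicit false

namespace Pool.Agent.Lib.MPbe1941.X.LRM

open Module

/-- A commutator is an involution of determinant one. -/
theorem lin_core {K V : Type*} [Group K] [Finite K] [AddCommGroup V] [Finite V] {l : ℕ}
    [Fact l.Prime] [Module (ZMod l) V] (hl2 : l ≠ 2) (f : K →* Module.End (ZMod l) V)
    {S T : Subgroup K} (hT : IsPGroup 2 T) (hST : ∀ s ∈ S, ∀ x ∈ T, s * x * s⁻¹ ∈ T) {z : V}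
    (hz : ∀ s ∈ S, ∀ v, f s v - v ∈ Submodule.span (ZMod l) {z})
    {x ρ : K} (hx : x ∈ T) (hρ : ρ ∈ S) (hne : f (ρ⁻¹ * x * ρ * x⁻¹) ≠ 1) :
    ∃ u ∈ T, f u z = -z ∧ ∀ s ∈ S, f (s * u * s⁻¹ * u⁻¹) = 1 := by
  have hfin : Module.Finite (ZMod l) V := Module.Finite.of_finite
  have hmul : ∀ (g h : K) (v : V), f (g * h) v = f g (f h v) := fun g h v => by
    rw [map_mul]; rfl
  have hone : ∀ v : V, f 1 v = v := fun v => by rw [map_one]; rfl
  have h2l : (2 : ZMod l) ≠ 0 := by
    intro h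
    have h1 : ((2 : ℕ) : ZMod l) = 0 := by exact_mod_cast h
    rw [ZMod.natCast_eq_zero_iff] at h1
    have hp : l.Prime := Fact.out
    exact hl2 ((Nat.prime_dvd_prime_iff_eq hp Nat.prime_two).1 h1)
  set τ : K := ρ⁻¹ * x * ρ * x⁻¹ with hτ
  have hτT : τ ∈ T := by
    refine T.mul_mem ?_ (T.inv_mem hx)
    have := hST ρ⁻¹ (S.inv_mem hρ) x hx
    rwa [inv_inv] at this
  set V2 : Submodule (ZMod l) V := Submodule.span (ZMod l) {z, f x z} with hV2
  have hzV2 : Submodule.span (ZMod l) {z} ≤ V2 :=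
    Submodule.span_mono (by intro a ha; rw [Set.mem_singleton_iff] at ha; rw [ha]; simp)
  -- (1)
  have h1 : ∀ v, f τ v - v ∈ V2 := by
    intro v
    have ha := hz ρ hρ (f x⁻¹ v)
    obtain ⟨c, hc⟩ := Submodule.mem_span_singleton.1 ha
    have hb : f x (f ρ (f x⁻¹ v)) - v = c • f x z := by
      have hxv : f x (f x⁻¹ v) = v := by rw [← hmul, mul_inv_cancel, hone]
      rw [← map_smul, hc, map_sub, hxv]
    have hd := hz ρ⁻¹ (S.inv_mem hρ) (f x (f ρ (f x⁻¹ v)))
    have he : f τ v - v = (f ρ⁻¹ (f x (f ρ (f x⁻¹ v))) - f x (f ρ (f x⁻¹ v))) + c • f x z := by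
      rw [← hb, hτ, hmul, hmul, hmul]
      abel
    rw [he]
    exact V2.add_mem (hzV2 hd) (V2.smul_mem _ (Submodule.subset_span (by simp)))
  have h2 : ∀ n : ℕ, ∀ v, f (τ ^ n) v - v ∈ V2 := by
    intro n
    induction n with
    | zero => intro v; rw [pow_zero, hone, sub_self]; exact V2.zero_mem
    | succ n ih =>
      intro v
      have : f (τ ^ (n + 1)) v - v = (f τ (f (τ ^ n) v) - f (τ ^ n) v) + (f (τ ^ n) v - v) := by
        rw [pow_succ', hmul]; abel
      rw [this]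
      exact V2.add_mem (h1 _) (ih v)
  -- the involution `u`
  obtain ⟨k, hk⟩ := hT ⟨τ, hτT⟩
  have hk' : τ ^ 2 ^ k = 1 := congrArg Subtype.val hk
  have hex : ∃ m, f (τ ^ 2 ^ m) = 1 := ⟨k, by rw [hk', map_one]⟩
  classical
  obtain ⟨m, hm⟩ : ∃ m, Nat.find hex = m + 1 := by
    rcases h : Nat.find hex with _ | m
    · exfalso
      have := Nat.find_spec hex
      rw [h, pow_zero, pow_one] at this
      exact hne this
    · exact ⟨m, rfl⟩
  set u : K := τ ^ 2 ^ m with hu
  have hu1 : f u ≠ 1 := Nat.find_min hex (by omega)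
  have hu2 : f (u * u) = 1 := by
    have := Nat.find_spec hex
    rw [hm, pow_succ, pow_mul, pow_two] at this
    exact this
  have huT : u ∈ T := T.pow_mem hτT _
  have huu : ∀ v, f u (f u v) = v := by
    intro v; rw [← hmul, hu2]; rfl
  -- determinant
  have hdet : LinearMap.det (f u) = 1 := by
    have e1 : LinearMap.det (f τ) = 1 := by
      rw [hτ, map_mul, map_mul, map_mul, map_mul, map_mul, map_mul]
      have e2 : LinearMap.det (f ρ⁻¹) * LinearMap.det (f ρ) = 1 := by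
        rw [← map_mul, ← map_mul, inv_mul_cancel, map_one, map_one]
      have e3 : LinearMap.det (f x) * LinearMap.det (f x⁻¹) = 1 := by
        rw [← map_mul, ← map_mul, mul_inv_cancel, map_one, map_one]
      calc LinearMap.det (f ρ⁻¹) * LinearMap.det (f x) * LinearMap.det (f ρ)
            * LinearMap.det (f x⁻¹)
          = (LinearMap.det (f ρ⁻¹) * LinearMap.det (f ρ))
            * (LinearMap.det (f x) * LinearMap.det (f x⁻¹)) := by ring
        _ = 1 := by rw [e2, e3, one_mul]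
    rw [hu, map_pow, map_pow, e1, one_pow]
  set W : Submodule (ZMod l) V := LinearMap.range (f u - 1) with hW
  have hWm : ∀ v, f u v - v ∈ W := fun v => ⟨v, rfl⟩
  have hWn : ∀ w ∈ W, f u w = -w := by
    rintro w ⟨v, rfl⟩
    change f u (f u v - v) = -(f u v - v)
    rw [map_sub, huu]; abel
  have hWV2 : W ≤ V2 := by
    rintro w ⟨v, rfl⟩
    exact h2 (2 ^ m) v
  have hcomap : W ≤ W.comap (f u) := by
    intro w hw
    rw [Submodule.mem_comap, hWn w hw]
    exact W.neg_mem hw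
  have hdW : (-1 : ZMod l) ^ finrank (ZMod l) W = 1 := by
    have e := LinearMap.det_eq_det_mul_det W (f u) hcomap
    rw [hdet] at e
    have e1 : (f u).restrict (p := W) (q := W) (fun x hx => hcomap hx) =
        (-1 : ZMod l) • LinearMap.id := by
      ext w
      change f u w = (-1 : ZMod l) • (w : V)
      rw [hWn w w.2, neg_smul, one_smul]
    have e2 : W.mapQ W (f u) hcomap = LinearMap.id := by
      refine LinearMap.ext fun q => ?_
      obtain ⟨v, rfl⟩ := Submodule.Quotient.mk_surjective W q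
      rw [Submodule.mapQ_apply, LinearMap.id_apply, Submodule.Quotient.eq]
      exact hWm v
    rw [e1, e2, LinearMap.det_smul, LinearMap.det_id, LinearMap.det_id, mul_one, mul_one] at e
    exact e.symm
  have hWne : W ≠ ⊥ := by
    intro h
    apply hu1
    refine LinearMap.ext fun v => ?_
    have := hWm v
    rw [h, Submodule.mem_bot, sub_eq_zero] at this
    rw [this]; rfl
  have hWpos : 0 < finrank (ZMod l) W := by
    rw [Nat.pos_iff_ne_zero]
    intro h
    exact hWne (Submodule.finrank_eq_zero.1 h)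
  have hV2le : finrank (ZMod l) V2 ≤ 2 := by
    have e := finrank_span_le_card (R := ZMod l) ({z, f x z} : Set V)
    refine e.trans ?_
    rw [Set.toFinset_card]
    have : Nat.card ({z, f x z} : Set V) ≤ 2 := by
      rw [Nat.card_coe_set_eq]
      exact Set.ncard_insert_le _ _ |>.trans (by rw [Set.ncard_singleton])
    rw [← Nat.card_eq_fintype_card]
    exact this
  have hWle : finrank (ZMod l) W ≤ finrank (ZMod l) V2 := Submodule.finrank_mono hWV2
  have hW2 : finrank (ZMod l) W ≠ 1 := by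
    intro h
    rw [h, pow_one] at hdW
    apply h2l
    have : (1 : ZMod l) + 1 = 0 := by
      nth_rewrite 1 [← hdW]; ring
    rw [← this]; norm_num
  have hWV : W = V2 := Submodule.eq_of_le_of_finrank_le hWV2 (by omega)
  have hzW : z ∈ W := by rw [hWV]; exact Submodule.subset_span (by simp)
  refine ⟨u, huT, hWn z hzW, fun s hs => ?_⟩
  have hspW : Submodule.span (ZMod l) {z} ≤ W := by
    rw [Submodule.span_singleton_le_iff_mem]; exact hzW
  have hsW : ∀ s ∈ S, ∀ w ∈ W, f s w ∈ W := by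
    intro s hs w hw
    have : f s w = (f s w - w) + w := by abel
    rw [this]
    exact W.add_mem (hspW (hz s hs w)) hw
  -- `u' = s u s⁻¹`
  have hu'W : ∀ w ∈ W, f (s * u * s⁻¹) w = -w := by
    intro w hw
    rw [hmul, hmul, hWn _ (hsW s⁻¹ (S.inv_mem hs) w hw), map_neg, ← hmul, mul_inv_cancel, hone]
  have hu'V : ∀ v, f (s * u * s⁻¹) v - v ∈ W := by
    intro v
    have e := hsW s hs _ (hWm (f s⁻¹ v))
    have e2 : f s (f s⁻¹ v) = v := by rw [← hmul, mul_inv_cancel, hone]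
    rw [map_sub, e2] at e
    rw [hmul, hmul]
    exact e
  have huinv : ∀ v, f u⁻¹ v = f u v := by
    intro v
    have e : f u⁻¹ (f u (f u v)) = f u v := by rw [← hmul, inv_mul_cancel, hone]
    rw [huu] at e
    exact e
  set g : K := s * u * s⁻¹ * u⁻¹ with hg
  have hgT : g ∈ T := T.mul_mem (hST s hs u huT) (T.inv_mem huT)
  have hgW : ∀ w ∈ W, f g w = w := by
    intro w hw
    rw [hg, hmul, huinv, hWn w hw, map_neg, hu'W w hw, neg_neg]
  have hgV : ∀ v, f g v - v ∈ W := by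
    intro v
    have e : f g v - v = (f (s * u * s⁻¹) (f u v) - f u v) + (f u v - v) := by
      rw [hg, hmul, huinv]; abel
    rw [e]
    exact W.add_mem (hu'V _) (hWm v)
  obtain ⟨k', hk2⟩ := hT ⟨g, hgT⟩
  have hgk : g ^ 2 ^ k' = 1 := congrArg Subtype.val hk2
  refine LinearMap.ext fun v => ?_
  have hn : ∀ n : ℕ, f (g ^ n) v = v + n • (f g v - v) := by
    intro n
    induction n with
    | zero => rw [pow_zero, hone, zero_smul, add_zero]
    | succ n ih =>
      rw [pow_succ', hmul, ih, map_add, map_nsmul, hgW _ (hgV v), add_smul, one_smul]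
      abel
  have h5 := hn (2 ^ k')
  rw [hgk, hone] at h5
  have h6 : (2 ^ k') • (f g v - v) = 0 := left_eq_add.1 h5
  have h7 : ((2 : ZMod l) ^ k') • (f g v - v) = 0 := by
    have e : ((2 ^ k' : ℕ) : ZMod l) • (f g v - v) = (2 ^ k' : ℕ) • (f g v - v) :=
      Nat.cast_smul_eq_nsmul _ _ _
    rw [h6] at e
    push_cast at e
    exact e
  rcases smul_eq_zero.1 h7 with h8 | h8
  · exact absurd h8 (pow_ne_zero _ h2l)
  · rw [sub_eq_zero] at h8
    rw [h8]; rfl

end Pool.Agent.Lib.MPbe1941.X.LRM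
end

section
/-!
# MP_be1941_al (exact bound), L3R part B: the reflection case of the ratio lemma
-/
set_option autoImplicit false

namespace Pool.Agent.Lib.MPbe1941.X.LRM

open Module
open scoped commutatorElement

variable {G : Type} [Group G]

theorem mem_nrm [Finite G] {P : Subgroup G} {g : G} (hg : ∀ y ∈ P, g * y * g⁻¹ ∈ P) :
    g ∈ Subgroup.normalizer (P : Set G) := by
  have hpow : ∀ n : ℕ, ∀ y ∈ P, g ^ n * y * (g ^ n)⁻¹ ∈ P := by
    intro n
    induction n with
    | zero => intro y hy; simpa using hy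
    | succ n ih =>
      intro y hy
      have e : g ^ (n + 1) * y * (g ^ (n + 1))⁻¹ = g * (g ^ n * y * (g ^ n)⁻¹) * g⁻¹ := by
        rw [pow_succ' g n]; group
      rw [e]
      exact hg _ (ih y hy)
  rw [Subgroup.mem_normalizer_iff]
  intro y
  constructor
  · exact hg y
  · intro hy
    have e1 : g⁻¹ = g ^ (orderOf g - 1) := by
      rw [inv_eq_iff_mul_eq_one, ← pow_succ', Nat.sub_add_cancel (orderOf_pos g),
        pow_orderOf_eq_one]
    have h6 := hpow (orderOf g - 1) _ hy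
    rw [← e1] at h6
    have e2 : g⁻¹ * (g * y * g⁻¹) * g⁻¹⁻¹ = y := by group
    rwa [e2] at h6

theorem nrm_conj {P : Subgroup G} {g : G} (hg : g ∈ Subgroup.normalizer (P : Set G)) {y : G}
    (hy : y ∈ P) : g * y * g⁻¹ ∈ P := (Subgroup.mem_normalizer_iff.1 hg y).1 hy

/-- The normaliser of `P` acts on `P`. -/
def alp (P : Subgroup G) : Subgroup.normalizer (P : Set G) →* Monoid.End P where
  toFun g :=
    { toFun := fun y => ⟨(g : G) * y * (g : G)⁻¹, nrm_conj g.2 y.2⟩
      map_one' := by apply Subtype.ext; simp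
      map_mul' := by intro x y; apply Subtype.ext; simp }
  map_one' := by
    ext y
    change (1 : G) * y * (1 : G)⁻¹ = y
    group
  map_mul' := by
    intro x y; ext z
    change (x : G) * y * z * ((x : G) * y)⁻¹ = (x : G) * ((y : G) * z * (y : G)⁻¹) * (x : G)⁻¹
    group

theorem alp_apply {P : Subgroup G} (g : Subgroup.normalizer (P : Set G)) (y : P) :
    ((alp P g y : P) : G) = (g : G) * y * (g : G)⁻¹ := rfl

/-- The normaliser of `P` acts on `P / Phi`. -/
def act (l : ℕ) (P : Subgroup G) : Subgroup.normalizer (P : Set G) →* Monoid.End (P ⧸ Phi l P) where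
  toFun g := QuotientGroup.map (Phi l P) (Phi l P) (alp P g) (Phi_map (alp P g))
  map_one' := by
    ext q
    obtain ⟨y, rfl⟩ := QuotientGroup.mk_surjective q
    change ((alp P 1 y : P) : P ⧸ Phi l P) = (y : P ⧸ Phi l P)
    rw [map_one]; rfl
  map_mul' := by
    intro g h
    ext q
    obtain ⟨y, rfl⟩ := QuotientGroup.mk_surjective q
    change ((alp P (g * h) y : P) : P ⧸ Phi l P) = ((alp P g (alp P h y) : P) : P ⧸ Phi l P)
    rw [map_mul]; rfl

theorem act_apply {l : ℕ} {P : Subgroup G} (g : Subgroup.normalizer (P : Set G)) (y : P) :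
    act l P g (y : P ⧸ Phi l P) = ((alp P g y : P) : P ⧸ Phi l P) := rfl

/-- An `l'`-element (of prime power order) trivial on `P / Phi` centralises `P`. -/
theorem triv_of_frat [Finite G] {l t : ℕ} (hl : l.Prime) (ht : t.Prime) (htl : t ≠ l)
    {P T : Subgroup G} (hP : IsPGroup l P) (hT : IsPGroup t T) {c : G} (hcT : c ∈ T)
    (hcK : c ∈ Subgroup.normalizer (P : Set G)) (hfc : ∀ q, act l P ⟨c, hcK⟩ q = q) :
    ∀ y ∈ P, c * y = y * c := by
  have hFt : Fact t.Prime := ⟨ht⟩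
  have hker : ∀ s ∈ Subgroup.zpowers c, ∀ y ∈ P, ∃ n : P, n ∈ Phi l P ∧
      (n : G) = y⁻¹ * (s * y * s⁻¹) := by
    intro s hs y hy
    have hsK : s ∈ Subgroup.normalizer (P : Set G) := (Subgroup.zpowers_le.2 hcK) hs
    have h5 : (⟨s, hsK⟩ : Subgroup.normalizer (P : Set G)) ∈ (act l P).ker := by
      obtain ⟨m, hm⟩ := Subgroup.mem_zpowers_iff.1 hs
      have e : (⟨s, hsK⟩ : Subgroup.normalizer (P : Set G)) =
          (⟨c, hcK⟩ : Subgroup.normalizer (P : Set G)) ^ m := by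
        apply Subtype.ext
        rw [SubgroupClass.coe_zpow]
        exact hm.symm
      rw [e]
      refine Subgroup.zpow_mem _ ?_ m
      rw [MonoidHom.mem_ker]
      ext q
      exact hfc q
    rw [MonoidHom.mem_ker] at h5
    have h6 : act l P ⟨s, hsK⟩ ((⟨y, hy⟩ : P) : P ⧸ Phi l P) =
        ((⟨y, hy⟩ : P) : P ⧸ Phi l P) := by
      rw [h5]; rfl
    rw [act_apply, eq_comm, QuotientGroup.eq] at h6
    exact ⟨_, h6, rfl⟩
  have hnrmP : XF.Nrm (Subgroup.zpowers c) P := by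
    intro s hs y hy
    exact (Subgroup.mem_normalizer_iff.1 ((Subgroup.zpowers_le.2 hcK) hs) y).1 hy
  have hSp : IsPGroup t (Subgroup.zpowers c) := hT.to_le (Subgroup.zpowers_le.2 hcT)
  have htP : ¬ t ∣ Nat.card P := by
    have hFl : Fact l.Prime := ⟨hl⟩
    intro h
    obtain ⟨n, hn⟩ := IsPGroup.iff_card.1 hP
    rw [hn] at h
    exact htl ((Nat.prime_dvd_prime_iff_eq ht hl).1 (ht.dvd_of_dvd_pow h))
  set N : Subgroup G := (Phi l P).map P.subtype with hN
  have hNP : N ≤ P := by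
    rintro _ ⟨y, -, rfl⟩
    exact y.2
  have hnrmN : XF.Nrm (Subgroup.zpowers c) N := by
    rintro s hs _ ⟨y, hy, rfl⟩
    have hsK : s ∈ Subgroup.normalizer (P : Set G) := (Subgroup.zpowers_le.2 hcK) hs
    exact ⟨alp P ⟨s, hsK⟩ y, Phi_map (alp P ⟨s, hsK⟩) hy, rfl⟩
  let C : Subgroup P :=
    { carrier := {y | ∀ s ∈ Subgroup.zpowers c, s * y = y * s}
      one_mem' := by intro s _; simp
      mul_mem' := by
        intro y z hy hz s hs
        rw [Subgroup.coe_mul, ← mul_assoc, hy s hs, mul_assoc, hz s hs, mul_assoc]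
      inv_mem' := by
        intro y hy s hs
        rw [Subgroup.coe_inv, mul_inv_eq_iff_eq_mul, mul_assoc, hy s hs, inv_mul_cancel_left] }
  have hCtop : C = ⊤ := by
    refine frat hl hP C ?_
    rw [eq_top_iff]
    intro y _
    obtain ⟨n, hn, hnk⟩ := XF.fix_lift ht hnrmP hSp htP hNP hnrmN y.2 (fun s hs => by
      obtain ⟨n, hn, hne⟩ := hker s hs (y : G)⁻¹ (P.inv_mem y.2)
      refine ⟨n, hn, ?_⟩
      change (n : G) = _
      rw [hne]
      group)
    obtain ⟨n', hn', rfl⟩ := hn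
    rw [XF.mem_CK] at hnk
    have e : y = n'⁻¹ * (n' * y) := by group
    rw [e]
    refine Subgroup.mul_mem _ (Subgroup.mem_sup_right ((Phi l P).inv_mem hn')) ?_
    refine Subgroup.mem_sup_left ?_
    intro s hs
    exact hnk.2 s hs
  intro y hy
  have h5 : (⟨y, hy⟩ : P) ∈ C := by rw [hCtop]; trivial
  exact h5 c (Subgroup.mem_zpowers c)

/-- Powers of order prime to `l`, congruent to `1`. -/
theorem int_pow_one {l : ℕ} (hl : l.Prime) {a : ℤ} {n e : ℕ} (hn : ¬ l ∣ n)
    (h1 : (l : ℤ) ∣ a - 1) (h2 : ((l : ℤ) ^ e) ∣ a ^ n - 1) : ((l : ℤ) ^ e) ∣ a - 1 := by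
  have h3 : (a - 1) * ∑ i ∈ Finset.range n, a ^ i = a ^ n - 1 := mul_geom_sum a n
  have h4 : (l : ℤ) ∣ (∑ i ∈ Finset.range n, a ^ i) - n := by
    have e1 : (∑ i ∈ Finset.range n, a ^ i) - (n : ℤ) = ∑ i ∈ Finset.range n, (a ^ i - 1) := by
      rw [Finset.sum_sub_distrib]; simp
    rw [e1]
    refine Finset.dvd_sum (fun i _ => h1.trans ?_)
    have := sub_dvd_pow_sub_pow a 1 i
    rwa [one_pow] at this
  have hlp : Prime (l : ℤ) := Nat.prime_iff_prime_int.1 hl
  have h5 : IsCoprime ((l : ℤ) ^ e) (∑ i ∈ Finset.range n, a ^ i) := by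
    refine IsCoprime.pow_left ?_
    rw [hlp.coprime_iff_not_dvd]
    intro h
    have h6 : (l : ℤ) ∣ (n : ℤ) := by
      have := dvd_sub h h4
      rwa [sub_sub_cancel] at this
    exact hn (Int.natCast_dvd_natCast.1 h6)
  rw [← h3] at h2
  exact h5.dvd_of_dvd_mul_right h2

end Pool.Agent.Lib.MPbe1941.X.LRM
end

section
/-!
# MP_be1941_al (exact bound), L3R: the reflection case of the ratio lemma (EXACT.md 2.8)
-/
set_option autoImplicit false

namespace Pool.Agent.Lib.MPbe1941.X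

open Module LRM
open scoped commutatorElement

/-- **L3R**: `[P,S]` is cyclic, `T` a `2`-group normalised by the `3`-group `S`, `[T,S]` nontrivial on
`P`: there is `j ∈ T`, centralised by `S`, which inverts `[P,S]`. -/
theorem l3r_core {G : Type} [Group G] [Finite G] {l : ℕ} (hl : l.Prime) (hl2 : l ≠ 2)
    {P T S : Subgroup G} (hP : IsPGroup l P) (hT : IsPGroup 2 T) (hS : IsPGroup 3 S)
    (hSP : XF.Nrm S P) (hTP : XF.Nrm T P) (hST : XF.Nrm S T)
    (hcyc : ∃ c, ⁅P, S⁆ ≤ Subgroup.zpowers c)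
    (hne : ∃ x ∈ T, ∃ s ∈ S, ∃ y ∈ P,
      s * x * s⁻¹ * x⁻¹ * y ≠ y * (s * x * s⁻¹ * x⁻¹)) :
    ∃ j ∈ T, (∀ s ∈ S, j * s = s * j) ∧ ∀ y ∈ ⁅P, S⁆, j * y * j⁻¹ = y⁻¹ := by
  have hFl : Fact l.Prime := ⟨hl⟩
  have hQP : (⁅P, S⁆ : Subgroup G) ≤ P := XF.comm_le hSP
  -- a generator of `[P,S]`
  obtain ⟨q0, hq0, hgen⟩ : ∃ q0 ∈ (⁅P, S⁆ : Subgroup G), ∀ y ∈ (⁅P, S⁆ : Subgroup G),
      ∃ n : ℤ, y = q0 ^ n := by
    obtain ⟨c, hc⟩ := hcyc
    have h1 : IsCyclic ((⁅P, S⁆ : Subgroup G).subgroupOf (Subgroup.zpowers c)) := inferInstance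
    have h2 : IsCyclic (⁅P, S⁆ : Subgroup G) := (Subgroup.subgroupOfEquivOfLe hc).isCyclic.1 h1
    obtain ⟨q, hq⟩ := h2.exists_generator
    refine ⟨q, q.2, fun y hy => ?_⟩
    obtain ⟨n, hn⟩ := Subgroup.mem_zpowers_iff.1 (hq ⟨y, hy⟩)
    exact ⟨n, (congrArg Subtype.val hn).symm⟩
  set K : Subgroup G := Subgroup.normalizer (P : Set G) with hK
  have hSK : S ≤ K := fun s hs => mem_nrm (hSP s hs)
  have hTK : T ≤ K := fun s hs => mem_nrm (hTP s hs)
  let _ : CommGroup (P ⧸ Phi l P) := Phi_comm l P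
  let _ : Module (ZMod l) (Additive (P ⧸ Phi l P)) :=
    AddCommGroup.zmodModule (n := l) (G := Additive (P ⧸ Phi l P)) (fun v => Phi_exp v.toMul)
  let F : K →* Module.End (ZMod l) (Additive (P ⧸ Phi l P)) :=
    { toFun := fun g => AddMonoidHom.toZModLinearMap l (MonoidHom.toAdditive (act l P g))
      map_one' := by
        refine LinearMap.ext fun v => ?_
        change Additive.ofMul (act l P 1 v.toMul) = v
        rw [map_one]; rfl
      map_mul' := by
        intro x y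
        refine LinearMap.ext fun v => ?_
        change Additive.ofMul (act l P (x * y) v.toMul) =
          Additive.ofMul (act l P x (act l P y v.toMul))
        rw [map_mul]; rfl }
  have hF : ∀ (g : K) (q : P ⧸ Phi l P), F g (Additive.ofMul q) = Additive.ofMul (act l P g q) :=
    fun g q => rfl
  have hF1 : ∀ g : K, F g = 1 → ∀ q, act l P g q = q := by
    intro g h q
    have h1 := hF g q
    rw [h] at h1
    exact (Additive.ofMul.injective h1).symm
  set q1 : P := ⟨q0, hQP hq0⟩ with hq1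
  set z : Additive (P ⧸ Phi l P) := Additive.ofMul (q1 : P ⧸ Phi l P) with hz
  have hzs : ∀ s ∈ S.subgroupOf K, ∀ v, F s v - v ∈ Submodule.span (ZMod l) {z} := by
    intro s hs v
    obtain ⟨y, hy⟩ := QuotientGroup.mk_surjective v.toMul
    have hv : v = Additive.ofMul (y : P ⧸ Phi l P) := by rw [hy]; rfl
    rw [hv, hF, act_apply]
    have h1 : (y : G) * (s : G) * (y : G)⁻¹ * (s : G)⁻¹ ∈ (⁅P, S⁆ : Subgroup G) :=
      XF.comm_mem y.2 hs
    obtain ⟨n, hn⟩ := hgen _ (Subgroup.inv_mem _ h1)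
    have h2 : (alp P s y : P) * y⁻¹ = q1 ^ n := by
      apply Subtype.ext
      change (s : G) * y * (s : G)⁻¹ * (y : G)⁻¹ = q0 ^ n
      rw [← hn]; group
    have h3 : Additive.ofMul ((alp P s y : P) : P ⧸ Phi l P) - Additive.ofMul (y : P ⧸ Phi l P)
        = n • z := by
      have e : ((alp P s y : P) : P ⧸ Phi l P) * (y : P ⧸ Phi l P)⁻¹ = (q1 : P ⧸ Phi l P) ^ n := by
        have := congrArg (QuotientGroup.mk (s := Phi l P)) h2
        exact this
      change Additive.ofMul (((alp P s y : P) : P ⧸ Phi l P) / (y : P ⧸ Phi l P)) =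
        Additive.ofMul ((q1 : P ⧸ Phi l P) ^ n)
      rw [div_eq_mul_inv, e]
    rw [h3]
    exact zsmul_mem (Submodule.mem_span_singleton_self z) n
  obtain ⟨x, hx, s, hs, y, hy, hxy⟩ := hne
  have hgT : s * x * s⁻¹ * x⁻¹ ∈ T := T.mul_mem (hST s hs x hx) (T.inv_mem hx)
  have hFne : F ((⟨s, hSK hs⟩ : K)⁻¹⁻¹ * ⟨x, hTK hx⟩ * (⟨s, hSK hs⟩ : K)⁻¹ *
      (⟨x, hTK hx⟩ : K)⁻¹) ≠ 1 := by
    intro h
    apply hxy
    have e : (⟨s, hSK hs⟩ : K)⁻¹⁻¹ * ⟨x, hTK hx⟩ * (⟨s, hSK hs⟩ : K)⁻¹ * (⟨x, hTK hx⟩ : K)⁻¹ =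
        ⟨s * x * s⁻¹ * x⁻¹, hTK hgT⟩ := by
      apply Subtype.ext
      change s⁻¹⁻¹ * x * s⁻¹ * x⁻¹ = s * x * s⁻¹ * x⁻¹
      rw [inv_inv]
    rw [e] at h
    exact triv_of_frat hl Nat.prime_two (Ne.symm hl2) hP hT hgT (hTK hgT) (hF1 _ h) y hy
  have hTp : IsPGroup 2 (T.subgroupOf K) := by
    intro g
    obtain ⟨n, hn⟩ := hT ⟨(g : K), g.2⟩
    refine ⟨n, ?_⟩
    apply Subtype.ext
    apply Subtype.ext
    have := congrArg Subtype.val hn
    simpa using this
  obtain ⟨u, huT, huz, hus⟩ := lin_core (l := l) hl2 F hTp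
    (S := S.subgroupOf K) (fun s hs x hx => hST s hs x hx) hzs (x := ⟨x, hTK hx⟩)
    (ρ := (⟨s, hSK hs⟩ : K)⁻¹) hx (S.inv_mem hs) hFne
  have huT' : (u : G) ∈ T := huT
  -- `z ≠ 0`
  have hz0 : z ≠ 0 := by
    intro h0
    have h1 : ∀ s ∈ S.subgroupOf K, F s = 1 := by
      intro s hs
      refine LinearMap.ext fun v => ?_
      have := hzs s hs v
      rw [h0, Submodule.span_zero_singleton, Submodule.mem_bot, sub_eq_zero] at this
      rw [this]; rfl
    apply hFne
    have hs' : (⟨s, hSK hs⟩ : K) ∈ S.subgroupOf K := hs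
    have e1 : F (⟨s, hSK hs⟩ : K)⁻¹⁻¹ = 1 := by rw [inv_inv]; exact h1 _ hs'
    have e2 : F (⟨s, hSK hs⟩ : K)⁻¹ = 1 := h1 _ (Subgroup.inv_mem _ hs')
    rw [map_mul, map_mul, map_mul, e1, e2, one_mul, mul_one, ← map_mul, mul_inv_cancel, map_one]
  -- lift
  have hN : ∀ s ∈ S, (s * u * s⁻¹ * (u : G)⁻¹) ∈ XF.CK T P := by
    intro s hs
    have hg : s * u * s⁻¹ * (u : G)⁻¹ ∈ T := T.mul_mem (hST s hs u huT') (T.inv_mem huT')
    rw [XF.mem_CK]
    refine ⟨hg, fun y hy => ?_⟩
    have h1 := hus ⟨s, hSK hs⟩ hs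
    have e : (⟨s, hSK hs⟩ : K) * u * (⟨s, hSK hs⟩ : K)⁻¹ * u⁻¹ =
        ⟨s * u * s⁻¹ * (u : G)⁻¹, hTK hg⟩ := rfl
    rw [e] at h1
    exact (triv_of_frat hl Nat.prime_two (Ne.symm hl2) hP hT hg (hTK hg) (hF1 _ h1) y hy).symm
  have hSN : XF.Nrm S (XF.CK T P) := by
    intro s hs k hk
    rw [XF.mem_CK] at hk ⊢
    refine ⟨hST s hs k hk.1, fun y hy => ?_⟩
    have h1 : s⁻¹ * y * s ∈ P := by
      have := hSP s⁻¹ (S.inv_mem hs) y hy
      rwa [inv_inv] at this
    have h2 := hk.2 _ h1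
    calc y * (s * k * s⁻¹) = s * (s⁻¹ * y * s * k) * s⁻¹ := by group
      _ = s * (k * (s⁻¹ * y * s)) * s⁻¹ := by rw [h2]
      _ = s * k * s⁻¹ * y := by group
  have h3T : ¬ 3 ∣ Nat.card T := by
    have hF2 : Fact (Nat.Prime 2) := ⟨Nat.prime_two⟩
    intro h
    obtain ⟨n, hn⟩ := IsPGroup.iff_card.1 hT
    rw [hn] at h
    have := Nat.prime_three.dvd_of_dvd_pow h
    omega
  obtain ⟨n, hn, hj⟩ := XF.fix_lift Nat.prime_three hST hS h3T
    (inf_le_left : XF.CK T P ≤ T) hSN huT' (fun s hs => by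
      have := (XF.CK T P).inv_mem (hN s hs)
      have e : (s * u * s⁻¹ * (u : G)⁻¹)⁻¹ = (u : G) * s * (u : G)⁻¹ * s⁻¹ := by group
      rwa [e] at this)
  set j : G := n * u with hjdef
  rw [XF.mem_CK] at hj
  replace hn := XF.mem_CK.1 hn
  have hjS : ∀ s ∈ S, j * s = s * j := fun s hs => (hj.2 s hs).symm
  refine ⟨j, hj.1, hjS, ?_⟩
  -- `j` acts on `[P,S]` as a power
  have hjz : XF.Nrm (Subgroup.zpowers j) (⁅P, S⁆ : Subgroup G) := by
    apply XF.nrm_comm
    · exact hTP.mono ((Subgroup.zpowers_le).2 hj.1)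
    · intro k hk s hs
      have h1 : k ∈ Subgroup.centralizer {s} := by
        refine (Subgroup.zpowers_le (H := Subgroup.centralizer {s})).2 ?_ hk
        rw [Subgroup.mem_centralizer_iff]
        intro t ht
        rw [Set.mem_singleton_iff] at ht
        rw [ht]
        exact (hjS s hs).symm
      rw [Subgroup.mem_centralizer_iff] at h1
      have h2 := h1 s rfl
      rw [← h2, mul_inv_cancel_right]
      exact hs
  obtain ⟨b, hb⟩ := hgen _ (hjz j (Subgroup.mem_zpowers j) q0 hq0)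
  have hjb : j * q0 * j⁻¹ = (u : G) * q0 * (u : G)⁻¹ := by
    have h1 : (u : G) * q0 * (u : G)⁻¹ ∈ P := hTP u huT' q0 (hQP hq0)
    have h2 := hn.2 _ h1
    have e : j * q0 * j⁻¹ = n * ((u : G) * q0 * (u : G)⁻¹) * n⁻¹ := by rw [hjdef]; group
    rw [e, ← h2]; group
  have hlb : (l : ℤ) ∣ b + 1 := by
    have h1 : act l P u (q1 : P ⧸ Phi l P) = ((q1 : P ⧸ Phi l P))⁻¹ := by
      have := huz
      rw [hz, hF] at this
      exact Additive.ofMul.injective this
    have h2 : (q1 : P ⧸ Phi l P) ^ (b + 1) = 1 := by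
      have e : (alp P u q1 : P) = q1 ^ b := by
        apply Subtype.ext
        change (u : G) * q0 * (u : G)⁻¹ = q0 ^ b
        rw [← hjb, hb]
      rw [act_apply, e] at h1
      have h3 : (q1 : P ⧸ Phi l P) ^ b = ((q1 : P ⧸ Phi l P))⁻¹ := h1
      rw [zpow_add, zpow_one, h3, inv_mul_cancel]
    have h3 : orderOf (q1 : P ⧸ Phi l P) = l := by
      refine orderOf_eq_prime (Phi_exp _) ?_
      intro h
      apply hz0
      rw [hz, h]; rfl
    rw [← h3]
    exact orderOf_dvd_iff_zpow_eq_one.2 h2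
  obtain ⟨e, he⟩ : ∃ e, orderOf q0 = l ^ e := by
    obtain ⟨e, he⟩ := hP ⟨q0, hQP hq0⟩
    have h1 : q0 ^ l ^ e = 1 := congrArg Subtype.val he
    obtain ⟨k, -, hk⟩ := (Nat.dvd_prime_pow hl).1 (orderOf_dvd_of_pow_eq_one h1)
    exact ⟨k, hk⟩
  obtain ⟨k, hk⟩ := hT ⟨j, hj.1⟩
  have hk' : j ^ 2 ^ k = 1 := congrArg Subtype.val hk
  have hpow : ∀ m : ℕ, j ^ m * q0 * (j ^ m)⁻¹ = q0 ^ (b ^ m) := by
    intro m
    induction m with
    | zero => simp
    | succ m ih =>
      have e1 : j ^ (m + 1) * q0 * (j ^ (m + 1))⁻¹ = j ^ m * (j * q0 * j⁻¹) * (j ^ m)⁻¹ := by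
        rw [pow_succ]; group
      rw [e1, hb, ← conj_zpow, ih, ← zpow_mul, ← pow_succ]
  have hbe : ((l : ℤ) ^ e) ∣ (-b) ^ (2 ^ (k + 1)) - 1 := by
    have h1 := hpow (2 ^ (k + 1))
    have h2 : j ^ 2 ^ (k + 1) = 1 := by rw [pow_succ, pow_mul, hk', one_pow]
    rw [h2] at h1
    have h3 : q0 ^ (b ^ 2 ^ (k + 1) - 1) = 1 := by
      rw [zpow_sub, zpow_one, ← h1]; group
    have h4 := orderOf_dvd_iff_zpow_eq_one.2 h3
    rw [he] at h4
    push_cast at h4
    have h5 : (-b) ^ 2 ^ (k + 1) = b ^ 2 ^ (k + 1) := by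
      rw [Even.neg_pow]
      exact (Nat.even_pow.2 ⟨even_two, Nat.succ_ne_zero k⟩)
    rw [h5]
    exact h4
  have hb1 : ((l : ℤ) ^ e) ∣ -b - 1 := by
    refine int_pow_one hl (n := 2 ^ (k + 1)) ?_ ?_ hbe
    · intro h
      exact hl2 ((Nat.prime_dvd_prime_iff_eq hl Nat.prime_two).1 (hl.dvd_of_dvd_pow h))
    · have := (dvd_neg).2 hlb
      have e1 : -(b + 1) = -b - 1 := by ring
      rwa [e1] at this
  have hbinv : q0 ^ b = q0⁻¹ := by
    have h1 : (orderOf q0 : ℤ) ∣ -b - 1 := by rw [he]; push_cast; exact hb1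
    have h2 := orderOf_dvd_iff_zpow_eq_one.1 h1
    have h3 : q0 ^ (-b - 1) = (q0 ^ b)⁻¹ * q0⁻¹ := by
      rw [zpow_sub, zpow_neg, zpow_one]
    rw [h3] at h2
    have h4 : q0⁻¹ = q0 ^ b := by
      calc q0⁻¹ = q0 ^ b * ((q0 ^ b)⁻¹ * q0⁻¹) := by group
        _ = q0 ^ b := by rw [h2, mul_one]
    exact h4.symm
  intro y hy
  obtain ⟨m, rfl⟩ := hgen y hy
  rw [← conj_zpow, hb, hbinv, inv_zpow]

/-- **L3R**, the form used by the block GAM. -/
theorem l3r {G : Type} [Group G] [Finite G] {l : ℕ} (hl : l.Prime) (hl2 : l ≠ 2) (_hl3 : l ≠ 3)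
    {P T S : Subgroup G} (hP : IsPGroup l P) (hT : IsPGroup 2 T) (hS : IsPGroup 3 S)
    (hSP : XF.Nrm S P) (hTP : XF.Nrm T P) (hST : XF.Nrm S T)
    (hcyc : ∃ c, ⁅P, S⁆ ≤ Subgroup.zpowers c)
    (hne : ∃ x ∈ T, ∃ s ∈ S, ∃ y ∈ P,
      s * x * s⁻¹ * x⁻¹ * y ≠ y * (s * x * s⁻¹ * x⁻¹)) :
    ∃ j ∈ T, (∀ s ∈ S, j * s = s * j) ∧ ∀ y ∈ ⁅P, S⁆, j * y * j⁻¹ = y⁻¹ :=
  l3r_core hl hl2 hP hT hS hSP hTP hST hcyc hne

end Pool.Agent.Lib.MPbe1941.X
end

section
/-!
# MP_be1941_al, exact bound, module PCC (H.md section 3 (c))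
-/
set_option autoImplicit false

namespace Pool.Agent.Lib.MPbe1941.X

open Pool.Agent.Lib.MPbe1941

namespace PCCM

/-- The order of the image of an element of the `r`-group `T` is prime to every prime `q ≠ r`. -/
theorem not_dvd_order {S : PS} {r q : ℕ} (hr : r.Prime) (hq : q.Prime) (hqr : q ≠ r)
    {T : Subgroup S.H} (hT : IsPGroup r T) {t : S.H} (ht : t ∈ T) : ¬ q ∣ orderOf (S.phi t) := by
  obtain ⟨k, hk⟩ := hT ⟨t, ht⟩
  have hk' : t ^ r ^ k = 1 := by
    have := congrArg Subtype.val hk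
    simpa using this
  have h1 : orderOf (S.phi t) ∣ r ^ k := by
    apply orderOf_dvd_of_pow_eq_one
    rw [← map_pow, hk', map_one]
  intro h
  exact hqr ((Nat.prime_dvd_prime_iff_eq hq hr).1 (hq.dvd_of_dvd_pow (h.trans h1)))

end PCCM

open PCCM in
theorem specPCC (hPSB : SpecPSB) (hPAA : SpecPAA) (hPBC : SpecPBC) (hLTC : SpecLTC)
    (hTHO : SpecTHO) : SpecPCC := by
  intro S w hw r T hr hr2 hM t ht
  obtain ⟨-, -, -, hP, -, -, -, -, -, -⟩ := hPSB S
  obtain ⟨-, hPr, hcomm, -⟩ := hPAA S w r T hw.1 hr hM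
  obtain ⟨hB1, hB2⟩ := hPBC S w hw
  have hnorm : ∀ l, l.Prime → ∀ x ∈ S.P l, S.phi t * x * (S.phi t)⁻¹ ∈ S.P l :=
    fun l hl x hx => (hP l hl).1.conj_mem x hx (S.phi t)
  have hBP : ∀ l, S.B w l ≤ S.P l := fun l x hx => hx.1
  have hcB : ∀ l, l.Prime → ∀ b ∈ S.B w l, S.phi t * b = b * S.phi t :=
    fun l hl b hb => (hcomm l hl b hb t ht).symm
  have h2 : ¬ 2 ∣ orderOf (S.phi t) := not_dvd_order hr Nat.prime_two (Ne.symm hr2) hM.1.2.1 ht
  refine ⟨fun l hl hl2 hCP => ?_, fun h5 => ?_⟩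
  · have hex : ∃ x ∈ S.P l, S.phi t * x ≠ x * S.phi t := by
      unfold PS.CP at hCP
      push Not at hCP
      exact hCP
    have hlr : l ≠ r := by
      rintro rfl
      obtain ⟨x, hx, hne⟩ := hex
      rw [hPr, Subgroup.mem_bot] at hx
      exact hne (by rw [hx, mul_one, one_mul])
    exact hLTC S.G l (S.P l) (S.B w l) (S.phi t) hl hl2 (hP l hl).2.1 (hBP l) (hnorm l hl)
      (hcB l hl) h2 (not_dvd_order hr hl hlr hM.1.2.1 ht) hex (hB1 l hl hl2)
  · have h3 : ¬ 3 ∣ orderOf (S.phi t) :=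
      not_dvd_order hr Nat.prime_three (by omega) hM.1.2.1 ht
    have hcard : ¬ 2 ∣ Nat.card (Subgroup.zpowers (S.phi t)) := by
      rwa [Nat.card_zpowers]
    have hBpg : IsPGroup 2 (S.B w 2) := (hP 2 Nat.prime_two).2.1.to_le (hBP 2)
    have hA : ∀ a ∈ Subgroup.zpowers (S.phi t), ∀ x ∈ S.P 2, a * x * a⁻¹ ∈ S.P 2 :=
      fun a _ x hx => (hP 2 Nat.prime_two).1.conj_mem x hx a
    have hAB : ∀ a ∈ Subgroup.zpowers (S.phi t), ∀ b ∈ S.B w 2, a * b = b * a := by
      intro a ha b hb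
      obtain ⟨n, rfl⟩ := Subgroup.mem_zpowers_iff.1 ha
      exact (Commute.zpow_left (show Commute (S.phi t) b from hcB 2 Nat.prime_two b hb) n).eq
    have hfix : ∀ a ∈ Subgroup.zpowers (S.phi t), ∀ x ∈ S.P 2, (∀ b ∈ S.B w 2, b * x = x * b) →
        a * x = x * a := by
      intro a ha x hx hxb
      have hnx : ∀ b, b ∈ S.B w 2 ↔ x * b * x⁻¹ ∈ S.B w 2 := by
        intro b
        constructor
        · intro hb
          rw [← hxb b hb, mul_inv_cancel_right]
          exact hb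
        · intro hb
          have h1 := hxb _ hb
          have h2 : b = x * b * x⁻¹ := by
            have h3 : x * b * x⁻¹ * x = x * b := by group
            rw [h3] at h1
            have h4 : b = x * b * x⁻¹ := mul_left_cancel h1
            exact h4
          rw [h2]
          exact hb
      have hb := hB2 (S.phi t) (hcB 2 Nat.prime_two) h2 h3 x hx hnx
      have hρx : S.phi t * x * (S.phi t)⁻¹ = (S.phi t * x * (S.phi t)⁻¹ * x⁻¹) * x := by group
      have hcop : (orderOf (S.phi t)).Coprime (orderOf (S.phi t * x * (S.phi t)⁻¹ * x⁻¹)) :=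
        coprime_orders Nat.prime_two (hP 2 Nat.prime_two).2.1 hcard
          (Subgroup.mem_zpowers (S.phi t)) (hBP 2 hb)
      have h1 := comm_eq_one hρx (hcB 2 Nat.prime_two _ hb) hcop
      have hcx : Commute (S.phi t) x := by
        have h4 : S.phi t * x * (S.phi t)⁻¹ = x := by
          rw [hρx, h1, one_mul]
        exact (mul_inv_eq_iff_eq_mul.1 h4)
      obtain ⟨n, rfl⟩ := Subgroup.mem_zpowers_iff.1 ha
      exact (hcx.zpow_left n).eq
    intro g hg
    exact hTHO S.G 2 (S.P 2) (Subgroup.zpowers (S.phi t)) (S.B w 2) Nat.prime_two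
      (hP 2 Nat.prime_two).2.1 hBpg hcard hA
      (fun b _ x hx => (hP 2 Nat.prime_two).1.conj_mem x hx b) hAB hfix (S.phi t)
      (Subgroup.mem_zpowers _) g hg

end Pool.Agent.Lib.MPbe1941.X
end

section
/-!
# MP_be1941_al (exact bound): the modules THO and RAT of `SpecP.lean`
-/
set_option autoImplicit false

namespace Pool.Agent.Lib.MPbe1941.X

theorem specTHO : SpecTHO := by
  intro G _ _ l P A B hl hP hB hA hAP hBP hAB h
  exact thompson hl A B hB hA hAB P hP hAP hBP h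

theorem specRAT : SpecRAT := by
  intro G _ _ l t P T ρ a hl _ ht htl hP hT hρP hTP hρT h2 hco hlo hqb h3
  have ho : Odd (orderOf ρ) := by
    rw [← Nat.not_even_iff_odd, even_iff_two_dvd]
    exact h2
  exact fun g hg x hx => ratio_comm hl ht htl hP hT hTP hρP hρT ho hco hlo h3 a hqb g hg x hx

end Pool.Agent.Lib.MPbe1941.X
end
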