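import Pool.Agent.Lib.MP_be1941_al.X.REL
import Pool.Agent.Lib.MP_be1941_al.X.SPR

/-!
# MP_be1941_al (exact bound), module PEM: property (M) of an admissible group
-/

set_option autoImplicit false

namespace Pool.Agent.Lib.MPbe1941.X

open Pool.Agent.Lib.MPbe1941

namespace PEMM

/-- An element of prime power order normalising a Sylow subgroup is in it. -/
theorem mem_of_normalizes {H : Type} [Group H] [Finite H] {r : ℕ} (hr : r.Prime) {T : Subgroup H}
    (hT : SylIn r ⊤ T) {x : H} {k : ℕ} (hx : x ^ r ^ k = 1)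
    (hn : ∀ t ∈ T, x * t * x⁻¹ ∈ T) : x ∈ T := by
  have hF : Fact r.Prime := ⟨hr⟩
  have hidx : ¬ r ∣ T.index := by
    have := hT.2.2
    rwa [Subgroup.relIndex_top_right] at this
  have h1 : IsPGroup r (Subgroup.zpowers x) := by
    rw [IsPGroup.iff_card]
    rw [Nat.card_zpowers]
    exact (Nat.dvd_prime_pow hr).1 (orderOf_dvd_of_pow_eq_one hx) |>.imp fun a ha => ha.2
  have h2 : Subgroup.zpowers x ≤ Subgroup.normalizer (T : Set H) := by
    rw [Subgroup.zpowers_le]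
    have hsub : ∀ t, x * t * x⁻¹ ∈ T → t ∈ T := by
      -- injective self-map of a finite set
      let f : T → T := fun t => ⟨x * t.1 * x⁻¹, hn t.1 t.2⟩
      have hf : Function.Injective f := by
        intro a b hab
        have := congrArg Subtype.val hab
        apply Subtype.ext
        simpa [f] using this
      have hs : Function.Surjective f := Finite.surjective_of_injective hf
      intro t ht
      obtain ⟨u, hu⟩ := hs ⟨_, ht⟩
      have h3 : x * u.1 * x⁻¹ = x * t * x⁻¹ := congrArg Subtype.val hu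
      have h4 : u.1 = t := by simpa using h3
      rw [← h4]
      exact u.2
    rw [Subgroup.mem_normalizer_iff]
    intro t
    exact ⟨fun ht => hn t ht, fun ht => hsub t ht⟩
  have h3 : IsPGroup r (Subgroup.zpowers x ⊔ T : Subgroup H) :=
    IsPGroup.to_sup_of_normal_right' h1 hT.2.1 h2
  have h4 := (hT.2.1.toSylow hidx).is_maximal' h3
  rw [IsPGroup.toSylow_coe] at h4
  have h5 := h4 le_sup_right
  have h6 : x ∈ (Subgroup.zpowers x ⊔ T : Subgroup H) :=
    Subgroup.mem_sup_left (Subgroup.mem_zpowers x)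
  rwa [h5] at h6

/-- Action by a power: an element of order prime to `l` acting on the `l`-elements of `E` by the power
`k`, `l ∣ k - 1`, centralises them. -/
theorem fixed_of_pow {H : Type} [Group H] {l : ℕ} {E : Subgroup H} {s : H} (k j : ℤ)
    (hk : k - 1 = l * j) (hs : (orderOf s).Coprime l)
    (hp : ∀ x ∈ E, LE l x → s * x * s⁻¹ = x ^ k) :
    ∀ a : ℕ, ∀ x ∈ E, x ^ l ^ a = 1 → s * x * s⁻¹ = x := by
  intro a
  induction a with
  | zero =>
    intro x _ h1
    have : x = 1 := by simpa using h1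
    rw [this]; group
  | succ a ih =>
    intro x hx h1
    have h2 : s * x ^ l * s⁻¹ = x ^ l := by
      apply ih _ (E.pow_mem hx l)
      rw [← pow_mul, ← pow_succ']
      exact h1
    have h3 : s * x * s⁻¹ = (x ^ l) ^ j * x := by
      rw [hp x hx ⟨a + 1, h1⟩]
      have h4 : k = (l : ℤ) * j + 1 := by linarith
      rw [h4, zpow_add, zpow_mul, zpow_one, zpow_natCast]
    have h5 : Commute s (x ^ l) := by
      have := mul_inv_eq_iff_eq_mul.1 h2
      exact this
    have h6 : s * (x ^ l) ^ j = (x ^ l) ^ j * s := (h5.zpow_right j).eq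
    have h7 : ((x ^ l) ^ j) ^ l ^ a = 1 := by
      rw [← zpow_natCast, ← zpow_mul, mul_comm, zpow_mul, zpow_natCast, ← pow_mul, ← pow_succ', h1,
        one_zpow]
    have h8 : (x ^ l) ^ j = 1 := by
      apply comm_eq_one h3 h6
      exact Nat.Coprime.coprime_dvd_right (orderOf_dvd_of_pow_eq_one h7) (hs.pow_right a)
    rw [h3, h8, one_mul]

/-- Powers of a linear character. -/
theorem lin_pow {H : Type} [Group H] {E : Subgroup H} {bet : H → ℂ} (h : Lin E bet) {x : H}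
    (hx : x ∈ E) (n : ℕ) : bet (x ^ n) = bet x ^ n := by
  induction n with
  | zero => simp [h.1]
  | succ n ih => rw [pow_succ, h.2 _ (E.pow_mem hx n) _ hx, ih, pow_succ]

end PEMM

open PEMM in
theorem specPEM (hPSB : SpecPSB) (hLFO : SpecLFO) : SpecPEM := by
  classical
  rintro S E bet r T ⟨hEn, hEC, hcom, hfa, hlP⟩ hcyc hlin hfull hinv hr hrE hT hfix hTT hstab
  obtain ⟨hNn, -, -, hP, -⟩ := hPSB S
  have hPn : ∀ l, l.Prime → (S.P l).Normal := fun l hl => (hP l hl).1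
  have hE0 : Nat.card E ≠ 0 := Nat.card_pos.ne'
  have hpowE : ∀ x ∈ E, x ^ Nat.card E = 1 := by
    intro x hx
    have h := congrArg Subtype.val (pow_card_eq_one' (x := (⟨x, hx⟩ : E)))
    rwa [Subgroup.coe_pow] at h
  have hTr : ∀ t ∈ T, ∃ k, t ^ r ^ k = 1 := by
    intro t ht
    obtain ⟨k, hk⟩ := hT.2.1 ⟨t, ht⟩
    exact ⟨k, by simpa using congrArg Subtype.val hk⟩
  have hcop : (Nat.card E).Coprime r := ((Nat.Prime.coprime_iff_not_dvd hr).2 hrE).symm
  -- `E ∩ T = 1`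
  have hET : ∀ x ∈ E, ∀ k, x ^ r ^ k = 1 → x = 1 := by
    intro x hx k hk
    exact PBXM.one_of_coprime (hpowE x hx) hk (hcop.pow_right k)
  have hTab : ∀ x ∈ T, ∀ y ∈ T, x * y = y * x := by
    intro x hx y hy
    have h1 : x * y * x⁻¹ * y⁻¹ ∈ T :=
      T.mul_mem (T.mul_mem (T.mul_mem hx hy) (T.inv_mem hx)) (T.inv_mem hy)
    obtain ⟨k, hk⟩ := hTr _ h1
    have h2 := hET _ (hTT x hx y hy) k hk
    have h3 := mul_inv_eq_one.1 h2
    exact mul_inv_eq_iff_eq_mul.1 h3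
  -- elements of `ker φ`
  have hker1 : ∀ x ∈ E, S.phi x = 1 → x = 1 := fun x hx h => hfa x hx ((S.ker x).1 h).2
  -- decomposition in `E ⊔ T`
  have hdec : ∀ x ∈ E ⊔ T, ∃ e ∈ E, ∃ t ∈ T, x = e * t := by
    intro x hx
    have := hEn
    obtain ⟨e, he, t, ht, h⟩ := Subgroup.mem_sup_of_normal_left.1 hx
    exact ⟨e, he, t, ht, h.symm⟩
  -- the main step
  have hmain : ∀ l, l.Prime → l ∣ Nat.card E → ∀ s ∈ T, ∀ x ∈ E, LE l x → s * x * s⁻¹ = x := by
    intro l hl hd s hs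
    have hlr : l ≠ r := fun h => hrE (h ▸ hd)
    have hF : Fact l.Prime := ⟨hl⟩
    -- (i)
    have hi : ∀ g ∈ S.P l, ∀ u ∈ T, ∃ e ∈ E, g * S.phi u * g⁻¹ * (S.phi u)⁻¹ = S.phi e := by
      intro g hg u hu
      obtain ⟨c, hc, rfl⟩ := (hP l hl).2.2 hg
      have h1 : FixB E bet c := hinv l hl hd c hc hg
      obtain ⟨e, he, t, ht, h2⟩ := hdec _ (hstab c h1 u hu)
      have h3 : S.phi c * S.phi u * (S.phi c)⁻¹ * (S.phi u)⁻¹ = S.phi e * S.phi (t * u⁻¹) := by
        rw [← map_inv, ← map_inv, ← map_mul, ← map_mul, ← map_mul, ← map_mul, h2]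
        congr 1
        group
      have h4 : S.phi c * S.phi u * (S.phi c)⁻¹ * (S.phi u)⁻¹ ∈ S.P l := by
        have h5 : S.phi c * S.phi u * (S.phi c)⁻¹ * (S.phi u)⁻¹
            = S.phi c * (S.phi u * (S.phi c)⁻¹ * (S.phi u)⁻¹) := by group
        rw [h5]
        exact (S.P l).mul_mem hg ((hPn l hl).conj_mem _ ((S.P l).inv_mem hg) _)
      -- work modulo `φ(E)`
      have hEm : (E.map S.phi).Normal := hEn.map _ S.surj
      have h6 : (QuotientGroup.mk (S.phi (t * u⁻¹)) : S.G ⧸ E.map S.phi) = 1 := by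
        obtain ⟨k, hk⟩ := hTr _ (T.mul_mem ht (T.inv_mem hu))
        obtain ⟨n, hn⟩ := (hP l hl).2.1 ⟨_, h4⟩
        have hn' : (S.phi c * S.phi u * (S.phi c)⁻¹ * (S.phi u)⁻¹) ^ l ^ n = 1 := by
          simpa using congrArg Subtype.val hn
        have h7 : (QuotientGroup.mk (S.phi (t * u⁻¹)) : S.G ⧸ E.map S.phi)
            = QuotientGroup.mk (S.phi c * S.phi u * (S.phi c)⁻¹ * (S.phi u)⁻¹) := by
          rw [h3]
          have h8 : (QuotientGroup.mk (S.phi e) : S.G ⧸ E.map S.phi) = 1 :=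
            (QuotientGroup.eq_one_iff _).2 ⟨e, he, rfl⟩
          rw [QuotientGroup.mk_mul, h8, one_mul]
        refine PBXM.one_of_coprime (a := r ^ k) (b := l ^ n) ?_ ?_
          (((Nat.coprime_primes hr hl).2 (Ne.symm hlr)).pow k n)
        · rw [← QuotientGroup.mk_pow, ← map_pow, hk, map_one, QuotientGroup.mk_one]
        · rw [h7, ← QuotientGroup.mk_pow, hn', QuotientGroup.mk_one]
      obtain ⟨e', he', h9⟩ := (QuotientGroup.eq_one_iff _).1 h6
      refine ⟨e * e', E.mul_mem he he', ?_⟩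
      rw [h3, ← h9, map_mul]
    -- (ii)
    have hQ : ∀ y ∈ (E.map S.phi ⊓ S.P l : Subgroup S.G), ∃ x ∈ E, LE l x ∧ S.phi x = y := by
      rintro y ⟨⟨x, hx, rfl⟩, hy⟩
      obtain ⟨n, hn⟩ := (hP l hl).2.1 ⟨_, hy⟩
      have hn' : (S.phi x) ^ l ^ n = 1 := by simpa using congrArg Subtype.val hn
      exact ⟨x, hx, ⟨n, hker1 _ (E.pow_mem hx _) (by rw [map_pow, hn'])⟩, rfl⟩
    have hEm : (E.map S.phi).Normal := hEn.map _ S.surj
    have habE : ∀ x ∈ E.map S.phi, ∀ y ∈ E.map S.phi, x * y = y * x := by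
      rintro _ ⟨x, hx, rfl⟩ _ ⟨y, hy, rfl⟩
      rw [← map_mul, ← map_mul, hcom x hx y hy]
    have hl1 : ¬ l ∣ Nat.card (T.map S.phi) := by
      have hFr : Fact r.Prime := ⟨hr⟩
      have h1 : IsPGroup r (T.map S.phi) := hT.2.1.map _
      obtain ⟨n, hn⟩ := IsPGroup.iff_card.1 h1
      rw [hn]
      intro h2
      exact hlr ((Nat.prime_dvd_prime_iff_eq hl hr).1 (hl.dvd_of_dvd_pow h2))
    have hLF := hLFO S.G l (E.map S.phi ⊓ S.P l) (S.P l) (T.map S.phi) hl
      ((hP l hl).2.1.to_le inf_le_right) (fun x hx y hy => habE x hx.1 y hy.1) (hP l hl).2.1 hl1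
      (fun b _ x hx => ⟨hEm.conj_mem x hx.1 b, (hPn l hl).conj_mem x hx.2 b⟩)
      (fun b _ x hx => ⟨hEm.conj_mem x hx.1 b, (hPn l hl).conj_mem x hx.2 b⟩)
      (by
        rintro b hb _ ⟨u, hu, rfl⟩ x hx
        obtain ⟨e, he, h1⟩ := hi b hb u hu
        rw [h1]
        exact habE _ ⟨e, he, rfl⟩ x hx.1)
      (by
        obtain ⟨c, hcE, hcl, hcP, hcg⟩ := hcyc l hl hd
        refine ⟨S.phi c, ⟨⟨c, hcE, rfl⟩, hlP l hl c hcE hcl⟩, fun b hb => (hcP b hb).symm, ?_⟩
        intro y hy hyb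
        obtain ⟨x, hx, hxl, rfl⟩ := hQ y hy
        obtain ⟨n, hn⟩ := hcg x hx hxl (fun g hg => (hyb g hg).symm)
        exact ⟨n, by rw [hn, map_zpow]⟩)
    obtain ⟨k, hk⟩ := hLF (S.phi s) ⟨s, hs, rfl⟩
    have hk1 : ∀ x ∈ E, LE l x → s * x * s⁻¹ = x ^ k := by
      intro x hx hxl
      have h1 := hk (S.phi x) ⟨⟨x, hx, rfl⟩, hlP l hl x hx hxl⟩
      have h2 : S.phi (s * x * s⁻¹ * (x ^ k)⁻¹) = 1 := by
        rw [map_mul, map_mul, map_mul, map_inv, map_inv, map_zpow, h1, mul_inv_cancel]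
      have h3 := hker1 _ (E.mul_mem (hEn.conj_mem x hx s) (E.inv_mem (E.zpow_mem hx k))) h2
      exact mul_inv_eq_one.1 h3
    -- (iii)
    have hdk : (l : ℤ) ∣ k - 1 := by
      obtain ⟨x0, hx0, hx0l, hb0⟩ := hfull l hl hd
      obtain ⟨n, hn⟩ := hx0l
      by_contra hnd
      -- a natural exponent
      obtain ⟨m, hm⟩ : ∃ m : ℕ, (m : ℤ) % (l ^ n : ℕ) = k % (l ^ n : ℕ) := by
        refine ⟨(k % (l ^ n : ℕ)).toNat, ?_⟩
        have h0 : ((l ^ n : ℕ) : ℤ) ≠ 0 := by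
          have := pow_pos hl.pos n
          exact_mod_cast this.ne'
        rw [Int.toNat_of_nonneg (Int.emod_nonneg _ h0), Int.emod_emod_of_dvd _ dvd_rfl]
      have h1 : x0 ^ k = x0 ^ m := by
        have h2 : x0 ^ k = x0 ^ (m : ℤ) := by
          rw [← zpow_mod_orderOf x0 k, ← zpow_mod_orderOf x0 (m : ℤ)]
          congr 1
          have h3 : (orderOf x0 : ℤ) ∣ ((l ^ n : ℕ) : ℤ) :=
            Int.natCast_dvd_natCast.2 (orderOf_dvd_of_pow_eq_one hn)
          rw [← Int.emod_emod_of_dvd k h3, ← Int.emod_emod_of_dvd (m : ℤ) h3, hm]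
        rw [h2, zpow_natCast]
      have h2 : bet x0 = bet x0 ^ m := by
        rw [← lin_pow hlin hx0 m, ← h1, ← hk1 x0 hx0 ⟨n, hn⟩]
        exact (hfix s hs x0 hx0).symm
      have h3 : bet x0 ^ l ^ n = 1 := by
        rw [← lin_pow hlin hx0, hn, hlin.1]
      have hne : bet x0 ≠ 0 := by
        intro h4
        rw [h4, zero_pow (pow_pos hl.pos n).ne'] at h3
        exact zero_ne_one h3
      set z : ℂˣ := Units.mk0 (bet x0) hne with hz
      have hz1 : z ^ l ^ n = 1 := by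
        ext
        rw [hz]
        simpa using h3
      have hz2 : z ^ ((m : ℤ) - 1) = 1 := by
        rw [zpow_sub_one, zpow_natCast, mul_inv_eq_one]
        ext
        rw [hz]
        simpa using h2.symm
      have hz3 : (orderOf z : ℤ) ∣ (m : ℤ) - 1 := orderOf_dvd_iff_zpow_eq_one.2 hz2
      obtain ⟨a, ha, ha2⟩ := (Nat.dvd_prime_pow hl).1 (orderOf_dvd_of_pow_eq_one hz1)
      have ha0 : a ≠ 0 := by
        rintro rfl
        have : z = 1 := orderOf_eq_one_iff.1 (by simpa using ha2)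
        apply hb0
        have h5 := congrArg Units.val this
        simpa [hz] using h5
      have hn0 : n ≠ 0 := by omega
      apply hnd
      have h6 : (l : ℤ) ∣ (m : ℤ) - 1 := by
        refine dvd_trans ?_ hz3
        rw [ha2]
        push_cast
        exact dvd_pow_self _ ha0
      have h7 : (l : ℤ) ∣ k - m := by
        have h8 : ((l ^ n : ℕ) : ℤ) ∣ k - m := Int.ModEq.dvd hm
        refine dvd_trans ?_ h8
        push_cast
        exact dvd_pow_self _ hn0
      have h9 := dvd_add h7 h6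
      have h10 : k - (m : ℤ) + ((m : ℤ) - 1) = k - 1 := by ring
      rwa [h10] at h9
    obtain ⟨j, hj⟩ := hdk
    have hso : (orderOf s).Coprime l := by
      obtain ⟨k', hk'⟩ := hTr s hs
      exact Nat.Coprime.coprime_dvd_left (orderOf_dvd_of_pow_eq_one hk')
        (((Nat.coprime_primes hr hl).2 (Ne.symm hlr)).pow_left k')
    rintro x hx ⟨a, ha⟩
    exact fixed_of_pow k j hj hso hk1 a x hx ha
  -- `T` centralises `E`
  have hcent : ∀ t ∈ T, ∀ x ∈ E, t * x * t⁻¹ = x := by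
    intro t ht x hx
    have hwE : t * x * t⁻¹ * x⁻¹ ∈ E := E.mul_mem (hEn.conj_mem x hx t) (E.inv_mem hx)
    by_contra hne
    have hw1 : t * x * t⁻¹ * x⁻¹ ≠ 1 := fun h => hne (mul_inv_eq_one.1 h)
    have ho : orderOf (t * x * t⁻¹ * x⁻¹) ≠ 1 := fun h => hw1 (orderOf_eq_one_iff.1 h)
    obtain ⟨l, hl, hld⟩ := Nat.exists_prime_and_dvd ho
    have hlE : l ∣ Nat.card E := hld.trans (orderOf_dvd_of_pow_eq_one (hpowE _ hwE))
    have hpos : orderOf x ≠ 0 := (orderOf_pos x).ne'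
    obtain ⟨a, q, hq, haq⟩ := Nat.exists_eq_pow_mul_and_not_dvd hpos l hl.ne_one
    have hxq : (x ^ q) ^ l ^ a = 1 := by rw [← pow_mul, mul_comm, ← haq, pow_orderOf_eq_one]
    have h1 := hmain l hl hlE t ht (x ^ q) (E.pow_mem hx q) ⟨a, hxq⟩
    have h2 : (t * x * t⁻¹ * x⁻¹) ^ q = 1 := by
      have h3 : Commute (t * x * t⁻¹) x⁻¹ := hcom _ (hEn.conj_mem x hx t) _ (E.inv_mem hx)
      rw [h3.mul_pow, conj_pow, h1, inv_pow, mul_inv_cancel]
    exact hq (hld.trans (orderOf_dvd_of_pow_eq_one h2))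
  have hcent' : ∀ t ∈ T, ∀ x ∈ E, t * x = x * t := fun t ht x hx =>
    mul_inv_eq_iff_eq_mul.1 (hcent t ht x hx)
  -- the stabiliser of `bet` normalises `T`
  have hnorm : ∀ h : S.H, FixB E bet h → ∀ t ∈ T, h * t * h⁻¹ ∈ T := by
    intro h hh t ht
    obtain ⟨e, he, u, hu, h1⟩ := hdec _ (hstab h hh t ht)
    obtain ⟨k, hk⟩ := hTr t ht
    obtain ⟨k', hk'⟩ := hTr u hu
    have h2 : (h * t * h⁻¹) ^ r ^ (k + k') = 1 := by
      rw [conj_pow, pow_add, pow_mul, hk, one_pow]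
      group
    have h3 : u ^ r ^ (k + k') = 1 := by
      rw [add_comm, pow_add, pow_mul, hk', one_pow]
    have h4 : e ^ r ^ (k + k') = 1 := by
      have hc : Commute e u := (hcent' u hu e he).symm
      rw [h1, hc.mul_pow, h3, mul_one] at h2
      exact h2
    rw [h1, hET e he _ h4, one_mul]
    exact hu
  refine ⟨⟨?_⟩, hTab, hcent'⟩
  intro t ht h
  obtain ⟨k, hk⟩ := hTr t ht
  refine mem_of_normalizes hr hT (k := k) (by rw [conj_pow, hk]; group) ?_
  -- `h t h⁻¹` centralises `E`, so it fixes `bet`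
  apply hnorm
  intro x hx
  have h1 : h⁻¹ * x * h ∈ E := by
    have := hEn.conj_mem x hx h⁻¹
    simpa using this
  have h2 : h * t * h⁻¹ * x * (h * t * h⁻¹)⁻¹ = h * (t * (h⁻¹ * x * h) * t⁻¹) * h⁻¹ := by group
  rw [h2, hcent t ht _ h1]
  congr 1
  group

end Pool.Agent.Lib.MPbe1941.X
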