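import Pool.Agent.Lib.MP_be1941_al.X.SpecT1

/-!
# MP_be1941_al (exact bound), module QSF: quaternion groups and eigenvectors of `3`-elements

Paper: /team-store/MP_be1941_al_T1.md, section 3.
-/

set_option autoImplicit false

namespace Pool.Agent.Lib.MPbe1941.X

open Pool.Agent.Lib.MPbe1941

namespace QSFM

/-- Linear algebra: `i, j` are operators on `Y`, stable, with the quaternion relations. -/
theorem exists_line {K X : Type} [Field K] [AddCommGroup X] [Module K X] (Y : Submodule K X)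
    (f g : X →ₗ[K] X) (hf : ∀ y ∈ Y, f y ∈ Y) (hg : ∀ y ∈ Y, g y ∈ Y) (hff : ∀ y ∈ Y, f (f y) = -y)
    (hgg : ∀ y ∈ Y, g (g y) = -y) (hfg : ∀ y ∈ Y, f (g y) = -(g (f y))) {α β : K}
    (hab : α ^ 2 + β ^ 2 = -1) {y : X} (hy : y ∈ Y) (hy0 : y ≠ 0) :
    ∃ v ∈ Y, v ≠ 0 ∧ ∃ α' β' : K, g v = α' • v + β' • f v := by
  by_cases h : g y - β • f y + α • y = 0
  · refine ⟨y, hy, hy0, -α, β, ?_⟩
    linear_combination (norm := module) h
  · refine ⟨_, ?_, h, α, β, ?_⟩
    · exact Y.add_mem (Y.sub_mem (hg y hy) (Y.smul_mem _ (hf y hy))) (Y.smul_mem _ hy)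
    · rw [map_add, map_sub, map_smul, map_smul, map_add, map_sub, map_smul, map_smul, hgg y hy,
        hff y hy, hfg y hy]
      have h1 : (α ^ 2 + β ^ 2) • y = (-1 : K) • y := by rw [hab]
      linear_combination (norm := module) (-1 : K) • h1

section line

variable {K X : Type} [Field K] [AddCommGroup X] [Module K X]

theorem no_line (h2 : (2 : K) ≠ 0) (Y : Submodule K X)
    (f g : X →ₗ[K] X) (hff : ∀ y ∈ Y, f (f y) = -y)
    (hgg : ∀ y ∈ Y, g (g y) = -y) (hfg : ∀ y ∈ Y, f (g y) = -(g (f y))) {w : X} (hw : w ∈ Y)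
    (hw0 : w ≠ 0) {c d : K} (hc : f w = c • w) (hd : g w = d • w) : False := by
  have h1 := hff w hw
  rw [hc, map_smul, hc] at h1
  have h3 := hgg w hw
  rw [hd, map_smul, hd] at h3
  have h4 := hfg w hw
  rw [hd, hc, map_smul, map_smul, hc, hd] at h4
  have e1 : c * c = -1 := by
    have : (c * c + 1) • w = 0 := by linear_combination (norm := module) h1
    rcases smul_eq_zero.1 this with h | h
    · linear_combination h
    · exact absurd h hw0
  have e2 : d * d = -1 := by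
    have : (d * d + 1) • w = 0 := by linear_combination (norm := module) h3
    rcases smul_eq_zero.1 this with h | h
    · linear_combination h
    · exact absurd h hw0
  have e3 : 2 * (c * d) = 0 := by
    have : (2 * (c * d)) • w = 0 := by linear_combination (norm := module) h4
    rcases smul_eq_zero.1 this with h | h
    · exact h
    · exact absurd h hw0
  have e4 : c * d = 0 := by
    rcases mul_eq_zero.1 e3 with h | h
    · exact absurd h h2
    · exact h
  have e5 : (c * d) * (c * d) = 1 := by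
    linear_combination d * d * e1 + (-1 : K) * e2
  rw [e4, zero_mul] at e5
  exact zero_ne_one e5

/-- If `w` and `x` are in the span of `v` and `v'` and `w, x` are independent then they span. -/
theorem span_of {v v' w x : X} {a b c d : K} (hw : w = a • v + b • v') (hx : x = c • v + d • v')
    (hw0 : w ≠ 0) (hi : ∀ e : K, x ≠ e • w) :
    (∀ r s : K, ∃ t u : K, r • v + s • v' = t • w + u • x) ∧
      ∀ t u : K, t • w + u • x = 0 → t = 0 ∧ u = 0 := by
  have hli : ∀ t u : K, t • w + u • x = 0 → t = 0 ∧ u = 0 := by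
    intro t u h
    have hu : u = 0 := by
      by_contra hu
      apply hi (-(u⁻¹ * t))
      have h1 : x = u⁻¹ • (u • x) := by rw [smul_smul, inv_mul_cancel₀ hu, one_smul]
      have h3 : u • x = -(t • w) := by linear_combination (norm := module) h
      rw [h1, h3]
      module
    subst hu
    refine ⟨?_, rfl⟩
    rw [zero_smul, add_zero] at h
    rcases smul_eq_zero.1 h with h | h
    · exact h
    · exact absurd h hw0
  refine ⟨?_, hli⟩
  have hdet : a * d - b * c ≠ 0 := by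
    intro h0
    have h1 : d • w + (-b) • x = 0 := by
      rw [hw, hx]
      linear_combination (norm := module) h0 • v
    have h2 : c • w + (-a) • x = 0 := by
      rw [hw, hx]
      linear_combination (norm := module) (-1 : K) • (h0 • v')
    have h3 := (hli _ _ h1).2
    have h4 := (hli _ _ h2).2
    apply hw0
    rw [hw, neg_eq_zero.1 h3, neg_eq_zero.1 h4]
    simp
  intro r s
  obtain ⟨D, hD⟩ : ∃ D, D = a * d - b * c := ⟨_, rfl⟩
  rw [← hD] at hdet
  refine ⟨D⁻¹ * (r * d - s * c), D⁻¹ * (s * a - r * b), ?_⟩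
  have h1 : D • (r • v + s • v') = (r * d - s * c) • w + (s * a - r * b) • x := by
    rw [hw, hx, hD]
    module
  calc r • v + s • v' = D⁻¹ • (D • (r • v + s • v')) := by
        rw [smul_smul, inv_mul_cancel₀ hdet, one_smul]
    _ = _ := by rw [h1]; module

theorem three (h3 : (3 : K) ≠ 0) {w x : X} (S : X →ₗ[K] X)
    (hli : ∀ t u : K, t • w + u • x = 0 → t = 0 ∧ u = 0) (hw : S w = w) {c d : K}
    (hx : S x = c • w + d • x) (h : S (S (S x)) = x) (hne : S x ≠ x) :
    S (S x - x) = d • (S x - x) ∧ S x - x ≠ 0 ∧ d ≠ 1 := by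
  have h1 : (c * (1 + d + d * d)) • w + (d * d * d - 1) • x = 0 := by
    have h4 : S (S (S x)) = (c * (1 + d + d * d)) • w + (d * d * d) • x := by
      simp only [map_add, map_smul, hw, hx]
      module
    rw [h] at h4
    linear_combination (norm := module) (-1 : K) • h4
  obtain ⟨e1, e2⟩ := hli _ _ h1
  have hd : d ≠ 1 := by
    rintro rfl
    apply hne
    have h5 : c = 0 := by
      have : c * 3 = 0 := by linear_combination e1
      rcases mul_eq_zero.1 this with h | h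
      · exact h
      · exact absurd h h3
    rw [hx, h5]
    simp
  refine ⟨?_, sub_ne_zero.2 hne, hd⟩
  rw [map_sub, hx, map_add, map_smul, map_smul, hw, hx]
  module

end line

section act

variable {H X : Type} [Group H] [AddCommGroup X] [DistribMulAction H X] {p : ℕ}

theorem same (hX : ∀ v : X, v + v = 0 → v = 0) (Y : AddSubgroup X) (N : Subgroup H) (i j : H)
    (hii : ∀ y ∈ Y, i • i • y = -y) (hjj : ∀ y ∈ Y, j • j • y = -y)
    (hij : ∀ y ∈ Y, i • j • y = -(j • i • y)) (hjY : ∀ y ∈ Y, j • y ∈ Y)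
    (hN : ∀ n ∈ N, ∃ m ∈ ({1, i, j, i * j} : Set H),
      (∀ y ∈ Y, n • y = m • y) ∨ ∀ y ∈ Y, n • y = -(m • y)) {w : X} (hw : w ∈ Y) (hw0 : w ≠ 0)
    {n n' : H} (hn : n ∈ N) (hn' : n' ∈ N) (h : n • w = n' • w) : ∀ y ∈ Y, n • y = n' • y := by
  have hq : (n'⁻¹ * n) • w = w := by rw [mul_smul, h, inv_smul_smul]
  have key : ∀ y ∈ Y, (n'⁻¹ * n) • y = y := by
    obtain ⟨m, hm, hs⟩ := hN _ (N.mul_mem (N.inv_mem hn') hn)
    have hneg : (-w = w) → False := by
      intro h1
      exact hw0 (hX w (by nth_rewrite 1 [← h1]; exact neg_add_cancel w))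
    have hsq : ∀ e : H, (e • e • w = -w) → (e • w = w ∨ e • w = -w) → False := by
      intro e he h1
      rcases h1 with h1 | h1
      · rw [h1, h1] at he
        exact hneg he.symm
      · rw [h1, smul_neg, h1, neg_neg] at he
        exact hneg he.symm
    simp only [Set.mem_insert_iff, Set.mem_singleton_iff] at hm
    rcases hm with rfl | rfl | rfl | rfl
    · rcases hs with hs | hs
      · intro y hy
        rw [hs y hy, one_smul]
      · exfalso
        have := hs w hw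
        rw [hq, one_smul] at this
        exact hneg this.symm
    · exfalso
      apply hsq m (hii w hw)
      rcases hs with hs | hs
      · left; rw [← hs w hw, hq]
      · right; rw [← neg_eq_iff_eq_neg, ← hs w hw, hq]
    · exfalso
      apply hsq m (hjj w hw)
      rcases hs with hs | hs
      · left; rw [← hs w hw, hq]
      · right; rw [← neg_eq_iff_eq_neg, ← hs w hw, hq]
    · exfalso
      apply hsq (i * j) ?_
      · rcases hs with hs | hs
        · left; rw [← hs w hw, hq]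
        · right; rw [← neg_eq_iff_eq_neg, ← hs w hw, hq]
      · rw [mul_smul, mul_smul]
        have h1 := hij (j • w) (hjY w hw)
        have h2 : j • i • j • w = i • w := by
          rw [← neg_eq_iff_eq_neg] at h1
          rw [← h1, hjj w hw, smul_neg, neg_neg]
        rw [h2, hii w hw]
  intro y hy
  have h1 := key y hy
  rw [mul_smul, inv_smul_eq_iff] at h1
  exact h1

end act

section core

variable {H X : Type} [Group H] [AddCommGroup X] [DistribMulAction H X] {p : ℕ} [Fact p.Prime]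
  [Module (ZMod p) X]

theorem core (hp2 : p ≠ 2) (hp3 : p ≠ 3) (Y : AddSubgroup X) (N : Subgroup H) (i j : H)
    (hY : Y ≠ ⊥) (hNY : ∀ n ∈ N, ∀ y ∈ Y, n • y ∈ Y) (hi : i ∈ N) (hj : j ∈ N)
    (hii : ∀ y ∈ Y, i • i • y = -y) (hjj : ∀ y ∈ Y, j • j • y = -y)
    (hij : ∀ y ∈ Y, i • j • y = -(j • i • y))
    (hN : ∀ n ∈ N, ∃ m ∈ ({1, i, j, i * j} : Set H),
      (∀ y ∈ Y, n • y = m • y) ∨ ∀ y ∈ Y, n • y = -(m • y)) :
    ∃ V : AddSubgroup X, V ≤ Y ∧ V ≠ ⊥ ∧ ∀ w ∈ V, w ≠ 0 →
      ∀ s : H, (∃ k, s ^ 3 ^ k = 1) → s • w = w → (∀ n ∈ N, s * n * s⁻¹ ∈ N) →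
      (∃ n ∈ N, ∃ y ∈ Y, (s * n * s⁻¹) • y ≠ n • y) →
      ∃ v' ∈ V, ∃ m c : ℕ, s ^ m • v' = c • v' ∧ s ^ m • v' ≠ v' := by
  have hp : p.Prime := Fact.out
  have h2 : (2 : ZMod p) ≠ 0 := by
    intro h
    have h1 : ((2 : ℕ) : ZMod p) = 0 := by exact_mod_cast h
    rw [ZMod.natCast_eq_zero_iff] at h1
    exact hp2 ((Nat.prime_dvd_prime_iff_eq hp Nat.prime_two).1 h1)
  have h3 : (3 : ZMod p) ≠ 0 := by
    intro h
    have h1 : ((3 : ℕ) : ZMod p) = 0 := by exact_mod_cast h
    rw [ZMod.natCast_eq_zero_iff] at h1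
    exact hp3 ((Nat.prime_dvd_prime_iff_eq hp Nat.prime_three).1 h1)
  have hX2 : ∀ v : X, v + v = 0 → v = 0 := by
    intro v hv
    have h1 : (2 : ZMod p) • v = 0 := by rw [two_smul]; exact hv
    rcases smul_eq_zero.1 h1 with h | h
    · exact absurd h h2
    · exact h
  obtain ⟨L, hL⟩ : ∃ L : H → (X →ₗ[ZMod p] X), ∀ h : H, ∀ x : X, (L h) x = h • x :=
    ⟨fun h => (DistribSMul.toAddMonoidHom X h).toZModLinearMap p, fun h x => rfl⟩
  have hsc : ∀ (h : H) (c : ZMod p) (x : X), h • c • x = c • h • x := by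
    intro h c x
    rw [← hL, ← hL, map_smul]
  obtain ⟨Y', hY'⟩ : ∃ Y' : Submodule (ZMod p) X, ∀ x, x ∈ Y' ↔ x ∈ Y :=
    ⟨AddSubgroup.toZModSubmodule p Y, fun x => Iff.rfl⟩
  obtain ⟨y0, hy0, hy1⟩ : ∃ y ∈ Y, y ≠ 0 := by
    by_contra hcon
    push Not at hcon
    exact hY ((AddSubgroup.eq_bot_iff_forall Y).2 hcon)
  obtain ⟨α, β, hab⟩ := ZMod.sq_add_sq p (-1 : ZMod p)
  obtain ⟨v, hvY, hv0, a, b, hab'⟩ := exists_line Y' (L i) (L j)
    (fun y hy => by rw [hL, hY']; exact hNY i hi y ((hY' y).1 hy))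
    (fun y hy => by rw [hL, hY']; exact hNY j hj y ((hY' y).1 hy))
    (fun y hy => by rw [hL, hL]; exact hii y ((hY' y).1 hy))
    (fun y hy => by rw [hL, hL]; exact hjj y ((hY' y).1 hy))
    (fun y hy => by rw [hL, hL, hL, hL]; exact hij y ((hY' y).1 hy)) hab ((hY' y0).2 hy0) hy1
  rw [hL, hL] at hab'
  have hvY' : v ∈ Y := (hY' v).1 hvY
  -- the plane
  obtain ⟨V', hV'⟩ : ∃ V' : Submodule (ZMod p) X, ∀ x, x ∈ V' ↔ ∃ r s : ZMod p,
      r • v + s • (i • v) = x := ⟨Submodule.span (ZMod p) {v, i • v}, fun x =>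
        Submodule.mem_span_pair⟩
  have hVY : ∀ x ∈ V', x ∈ Y := by
    intro x hx
    obtain ⟨r, s, rfl⟩ := (hV' x).1 hx
    rw [← hY']
    exact Y'.add_mem (Y'.smul_mem _ hvY) (Y'.smul_mem _ ((hY' _).2 (hNY i hi v hvY')))
  have hiV : ∀ x ∈ V', i • x ∈ V' := by
    intro x hx
    obtain ⟨r, s, rfl⟩ := (hV' x).1 hx
    rw [hV']
    refine ⟨-s, r, ?_⟩
    rw [smul_add, hsc, hsc, hii v hvY']
    generalize i • v = iv
    module
  have hjV : ∀ x ∈ V', j • x ∈ V' := by
    intro x hx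
    obtain ⟨r, s, rfl⟩ := (hV' x).1 hx
    rw [hV']
    have h1 := hij v hvY'
    have h4 : j • i • v = b • v - a • i • v := by
      rw [← neg_eq_iff_eq_neg] at h1
      rw [← h1, hab', smul_add, hsc, hsc, hii v hvY']
      generalize i • v = iv
      module
    refine ⟨r * a + s * b, r * b - s * a, ?_⟩
    rw [smul_add, hsc, hsc, hab', h4]
    generalize i • v = iv
    module
  have hNV : ∀ n ∈ N, ∀ x ∈ V', n • x ∈ V' := by
    intro n hn x hx
    obtain ⟨m, hm, hs⟩ := hN n hn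
    have h1 : m • x ∈ V' := by
      simp only [Set.mem_insert_iff, Set.mem_singleton_iff] at hm
      rcases hm with rfl | rfl | rfl | rfl
      · rw [one_smul]; exact hx
      · exact hiV x hx
      · exact hjV x hx
      · rw [mul_smul]; exact hiV _ (hjV x hx)
    rcases hs with hs | hs
    · rw [hs x (hVY x hx)]; exact h1
    · rw [hs x (hVY x hx)]; exact V'.neg_mem h1
  refine ⟨V'.toAddSubgroup, fun x hx => hVY x hx, ?_, ?_⟩
  · intro hbot
    have hv : v ∈ V'.toAddSubgroup := (hV' v).2 ⟨1, 0, by simp⟩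
    rw [hbot] at hv
    exact hv0 (AddSubgroup.mem_bot.1 hv)
  intro w hw hw0 s hs3 hsw hsN hne
  have hwV : w ∈ V' := hw
  have hwY : w ∈ Y := hVY w hwV
  -- a second vector
  obtain ⟨n, hn, hnw⟩ : ∃ n ∈ N, ∀ e : ZMod p, n • w ≠ e • w := by
    by_contra hcon
    push Not at hcon
    obtain ⟨c, hc⟩ := hcon i hi
    obtain ⟨d, hd⟩ := hcon j hj
    exact no_line h2 Y' (L i) (L j)
      (fun y hy => by rw [hL, hL]; exact hii y ((hY' y).1 hy))
      (fun y hy => by rw [hL, hL]; exact hjj y ((hY' y).1 hy))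
      (fun y hy => by rw [hL, hL, hL, hL]; exact hij y ((hY' y).1 hy)) ((hY' w).2 hwY) hw0
      (by rw [hL]; exact hc) (by rw [hL]; exact hd)
  obtain ⟨x, hx⟩ : ∃ x, x = n • w := ⟨_, rfl⟩
  have hxV : x ∈ V' := by rw [hx]; exact hNV n hn w hwV
  obtain ⟨a1, b1, hw1⟩ := (hV' w).1 hwV
  obtain ⟨c1, d1, hx1⟩ := (hV' x).1 hxV
  obtain ⟨hspan, hli⟩ := span_of hw1.symm hx1.symm hw0 (fun e => by rw [hx]; exact hnw e)
  have hspan' : ∀ y ∈ V', ∃ t u : ZMod p, y = t • w + u • x := by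
    intro y hy
    obtain ⟨r, q, rfl⟩ := (hV' y).1 hy
    exact hspan r q
  -- powers of `s`
  have hpow : ∀ m : ℕ, (s ^ m • w = w) ∧ (∀ n ∈ N, s ^ m * n * (s ^ m)⁻¹ ∈ N) := by
    intro m
    induction m with
    | zero => exact ⟨by rw [pow_zero, one_smul], fun n hn => by simpa using hn⟩
    | succ m ih =>
      refine ⟨by rw [pow_succ', mul_smul, ih.1, hsw], fun n hn => ?_⟩
      have h1 : s ^ (m + 1) * n * (s ^ (m + 1))⁻¹ = s * (s ^ m * n * (s ^ m)⁻¹) * s⁻¹ := by
        rw [pow_succ']; group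
      rw [h1]
      exact hsN _ (ih.2 n hn)
  have hpV : ∀ m : ℕ, s ^ m • x ∈ V' := by
    intro m
    have h1 : s ^ m • x = (s ^ m * n * (s ^ m)⁻¹) • w := by
      rw [hx, mul_smul, mul_smul]
      congr 2
      rw [eq_comm, inv_smul_eq_iff]
      exact (hpow m).1.symm
    rw [h1]
    exact hNV _ ((hpow m).2 n hn) w hwV
  have hsx : s • x ≠ x := by
    intro hsx
    have htriv : ∀ y ∈ V', s • y = y := by
      intro y hy
      obtain ⟨t, u, rfl⟩ := hspan' y hy
      rw [smul_add, hsc, hsc, hsw, hsx]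
    obtain ⟨n1, hn1, y1, hy1, hne1⟩ := hne
    apply hne1
    refine same hX2 Y N i j hii hjj hij (fun y hy => hNY j hj y hy) hN hwY hw0 (hsN n1 hn1) hn1 ?_
      y1 hy1
    have h1 : s⁻¹ • w = w := by rw [inv_smul_eq_iff]; exact hsw.symm
    rw [mul_smul, mul_smul, h1]
    exact htriv _ (hNV n1 hn1 w hwV)
  obtain ⟨k, hk⟩ := hs3
  obtain ⟨m, hm1, hm2⟩ : ∃ m : ℕ, s ^ 3 ^ m • x ≠ x ∧ s ^ 3 ^ (m + 1) • x = x := by
    by_contra hcon
    push Not at hcon
    have h1 : ∀ m : ℕ, s ^ 3 ^ m • x ≠ x := by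
      intro m
      induction m with
      | zero => rw [pow_zero, pow_one]; exact hsx
      | succ m ih => exact hcon m ih
    apply h1 k
    rw [hk, one_smul]
  obtain ⟨c, d, hcd⟩ := hspan' _ (hpV (3 ^ m))
  have hS3 : s ^ 3 ^ m • s ^ 3 ^ m • s ^ 3 ^ m • x = x := by
    rw [← mul_smul, ← mul_smul]
    have : s ^ 3 ^ m * (s ^ 3 ^ m * s ^ 3 ^ m) = s ^ 3 ^ (m + 1) := by
      rw [← pow_add, ← pow_add]
      congr 1
      ring
    rw [mul_assoc, this]
    exact hm2
  obtain ⟨e1, e2, e3⟩ := three h3 (L (s ^ 3 ^ m)) hli (by rw [hL]; exact (hpow _).1)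
    (by rw [hL]; exact hcd) (by rw [hL, hL, hL]; exact hS3) (by rw [hL]; exact hm1)
  rw [hL, hL] at e1
  rw [hL] at e2
  refine ⟨s ^ 3 ^ m • x - x, V'.sub_mem (hpV _) hxV, 3 ^ m, d.val, ?_, ?_⟩
  · rw [e1, ← Nat.cast_smul_eq_nsmul (ZMod p), ZMod.natCast_zmod_val]
  · rw [e1]
    intro h
    have h1 : (d - 1) • (s ^ 3 ^ m • x - x) = 0 := by
      rw [sub_smul, h, one_smul, sub_self]
    rcases smul_eq_zero.1 h1 with h4 | h4
    · exact e3 (sub_eq_zero.1 h4)
    · exact e2 h4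

end core

end QSFM

theorem specQSF : SpecQSF := by
  intro H X _ _ _ _ _ p hp hp2 hp3 hpX Y N i j hY hNY hi hj hii hjj hij hN
  have hFp : Fact p.Prime := ⟨hp⟩
  let _ : Module (ZMod p) X := AddCommGroup.zmodModule hpX
  exact QSFM.core hp2 hp3 Y N i j hY hNY hi hj hii hjj hij hN

namespace QSF

theorem main : SpecQSF := specQSF

end QSF

end Pool.Agent.Lib.MPbe1941.X
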