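import Pool.Agent.Lib.MP_be1941_al.X.IRX
import Pool.Agent.Lib.MP_be1941_al.X.SpecD
import Pool.Agent.Lib.MP_be1941_al.XF.STD
import Pool.Agent.Lib.MP_be1941_al.X.SpecU
import Pool.Agent.Lib.MP_be1941_al.X.UTW
import Pool.Agent.Lib.MP_be1941_al.X.PSB

section
/-!
# MP_be1941_al, exact bound, reduction: the dual of `P / Φ`

`P` and `Φ` are normal subgroups of `G`, `[P, P] ≤ Φ ≤ P`. The dual `X` of `P / Φ` as a module for a
subgroup `H` of `G`.
-/
set_option autoImplicit false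

namespace Pool.Agent.Lib.MPbe1941.XF.RE

open Pool.Agent.Lib.MPbe1941
open scoped commutatorElement

/-- `X` is the dual of `P / Φ`, with evaluation `ev`. -/
structure IsDQ {G : Type} [Group G] (P Φ H : Subgroup G) (X : Type) [AddCommGroup X]
    [DistribMulAction H X] (ev : X → G → ℂ) : Prop where
  fin : Finite X
  chr : ∀ μ, RB.IsChar P (ev μ)
  tri : ∀ μ, ∀ x ∈ Φ, ev μ x = 1
  add : ∀ μ ν, ∀ x ∈ P, ev (μ + ν) x = ev μ x * ev ν x
  act : ∀ μ (h : H), ∀ x ∈ P, ev (h • μ) ((h : G) * x * (h : G)⁻¹) = ev μ x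
  ext : ∀ μ ν, (∀ x ∈ P, ev μ x = ev ν x) → μ = ν
  surj : ∀ f : G → ℂ, RB.IsChar P f → (∀ x ∈ Φ, f x = 1) → ∃ μ, ∀ x ∈ P, ev μ x = f x
  sep : ∀ Q : Subgroup G, Φ ≤ Q → Q ≤ P → ∀ x ∈ P,
    (∀ μ, (∀ q ∈ Q, ev μ q = 1) → ev μ x = 1) → x ∈ Q
  dbl : ∀ (A : AddSubgroup X) (μ : X), (∀ x ∈ P, (∀ ν ∈ A, ev ν x = 1) → ev μ x = 1) → μ ∈ A

section

variable {G : Type} [Group G]

/-- Conjugation on `P / Φ`. -/
def cq (P Φ : Subgroup G) [P.Normal] [Φ.Normal] (g : G) :
    P ⧸ Φ.subgroupOf P →* P ⧸ Φ.subgroupOf P :=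
  QuotientGroup.map _ _ (MulAut.conjNormal g : MulAut P).toMonoidHom (by
    intro x hx
    rw [Subgroup.mem_comap]
    rw [Subgroup.mem_subgroupOf] at hx ⊢
    change ((MulAut.conjNormal g x : P) : G) ∈ Φ
    rw [MulAut.conjNormal_apply]
    exact (inferInstance : Φ.Normal).conj_mem _ hx g)

theorem cq_mk (P Φ : Subgroup G) [P.Normal] [Φ.Normal] (g : G) (x : P) :
    cq P Φ g (QuotientGroup.mk x) = QuotientGroup.mk (MulAut.conjNormal g x) := rfl

theorem cq_one (P Φ : Subgroup G) [P.Normal] [Φ.Normal] (y : P ⧸ Φ.subgroupOf P) :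
    cq P Φ 1 y = y := by
  induction y using QuotientGroup.induction_on with
  | H x => rw [cq_mk, map_one]; rfl

theorem cq_mul (P Φ : Subgroup G) [P.Normal] [Φ.Normal] (g h : G) (y : P ⧸ Φ.subgroupOf P) :
    cq P Φ (g * h) y = cq P Φ g (cq P Φ h y) := by
  induction y using QuotientGroup.induction_on with
  | H x => rw [cq_mk, cq_mk, cq_mk, map_mul]; rfl

/-- The action on the dual. -/
@[reducible] def actQ (P Φ H : Subgroup G) [P.Normal] [Φ.Normal] :
    DistribMulAction H (Additive ((P ⧸ Φ.subgroupOf P) →* ℂˣ)) where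
  smul h μ := Additive.ofMul ((Additive.toMul μ).comp (cq P Φ ((h : G)⁻¹)))
  one_smul μ := by
    refine Additive.toMul.injective (MonoidHom.ext fun x => ?_)
    show (Additive.toMul μ) (cq P Φ (((1 : H) : G)⁻¹) x) = Additive.toMul μ x
    rw [Subgroup.coe_one, inv_one, cq_one]
  mul_smul h k μ := by
    refine Additive.toMul.injective (MonoidHom.ext fun x => ?_)
    show (Additive.toMul μ) (cq P Φ (((h * k : H) : G)⁻¹) x) =
      (Additive.toMul μ) (cq P Φ ((k : G)⁻¹) (cq P Φ ((h : G)⁻¹) x))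
    rw [Subgroup.coe_mul, mul_inv_rev, cq_mul]
  smul_zero h := by
    refine Additive.toMul.injective (MonoidHom.ext fun x => ?_)
    rfl
  smul_add h μ ν := by
    refine Additive.toMul.injective (MonoidHom.ext fun x => ?_)
    rfl

/-- The evaluation. -/
noncomputable def evQ (P Φ : Subgroup G) [P.Normal] [Φ.Normal]
    (μ : Additive ((P ⧸ Φ.subgroupOf P) →* ℂˣ)) (x : G) : ℂ :=
  open Classical in if hx : x ∈ P then
    ((Additive.toMul μ (QuotientGroup.mk ⟨x, hx⟩) : ℂˣ) : ℂ) else 1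

theorem evQ_of (P Φ : Subgroup G) [P.Normal] [Φ.Normal]
    (μ : Additive ((P ⧸ Φ.subgroupOf P) →* ℂˣ)) {x : G} (hx : x ∈ P) :
    evQ P Φ μ x = ((Additive.toMul μ (QuotientGroup.mk ⟨x, hx⟩) : ℂˣ) : ℂ) := dif_pos hx

theorem exists_isDQ [Finite G] (P Φ H : Subgroup G) (hP : P.Normal) (hΦ : Φ.Normal) (hle : Φ ≤ P)
    (hc : ∀ x ∈ P, ∀ y ∈ P, x * y * x⁻¹ * y⁻¹ ∈ Φ) :
    ∃ (X : Type) (_ : AddCommGroup X) (_ : DistribMulAction H X) (ev : X → G → ℂ),
      IsDQ P Φ H X ev := by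
  classical
  let iA : CommGroup (P ⧸ Φ.subgroupOf P) := { (inferInstance : Group (P ⧸ Φ.subgroupOf P)) with
    mul_comm := by
      intro a b
      induction a using QuotientGroup.induction_on with
      | H x =>
      induction b using QuotientGroup.induction_on with
      | H y =>
      rw [← QuotientGroup.mk_mul, ← QuotientGroup.mk_mul, QuotientGroup.eq]
      rw [Subgroup.mem_subgroupOf]
      have h1 := hc _ (P.inv_mem y.2) _ (P.inv_mem x.2)
      have h2 : ((((x * y)⁻¹ * (y * x) : P)) : G) = (y : G)⁻¹ * (x : G)⁻¹ * (y : G)⁻¹⁻¹ *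
          (x : G)⁻¹⁻¹ := by
        simp only [Subgroup.coe_mul, Subgroup.coe_inv, mul_inv_rev, inv_inv]
        group
      rw [h2]
      exact h1 }
  have h0 : NeZero (Monoid.exponent (P ⧸ Φ.subgroupOf P)) := ⟨Monoid.exponent_ne_zero_of_finite⟩
  have h1 : NeZero ((Monoid.exponent (P ⧸ Φ.subgroupOf P) : ℕ) : ℂ) := ⟨Nat.cast_ne_zero.2 h0.out⟩
  have h2 : HasEnoughRootsOfUnity ℂ (Monoid.exponent (P ⧸ Φ.subgroupOf P)) := inferInstance
  refine ⟨Additive ((P ⧸ Φ.subgroupOf P) →* ℂˣ), inferInstance, actQ P Φ H, evQ P Φ, ?_⟩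
  let _ := actQ P Φ H
  refine ⟨?_, ?_, ?_, ?_, ?_, ?_, ?_, ?_, ?_⟩
  · have h3 := CommGroup.card_monoidHom_of_hasEnoughRootsOfUnity (P ⧸ Φ.subgroupOf P) ℂ
    have h4 : Finite ((P ⧸ Φ.subgroupOf P) →* ℂˣ) := by
      refine Nat.finite_of_card_ne_zero ?_
      rw [h3]
      exact Nat.card_pos.ne'
    exact Finite.of_equiv _ Additive.ofMul
  · intro μ
    refine ⟨?_, fun x hx y hy => ?_⟩
    · rw [evQ_of P Φ μ P.one_mem]
      have : (QuotientGroup.mk (⟨1, P.one_mem⟩ : P) : P ⧸ Φ.subgroupOf P) = 1 := rfl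
      rw [this, map_one]
      rfl
    · rw [evQ_of P Φ μ (P.mul_mem hx hy), evQ_of P Φ μ hx, evQ_of P Φ μ hy, ← Units.val_mul,
        ← map_mul]
      rfl
  · intro μ x hx
    rw [evQ_of P Φ μ (hle hx)]
    have : (QuotientGroup.mk (⟨x, hle hx⟩ : P) : P ⧸ Φ.subgroupOf P) = 1 := by
      rw [QuotientGroup.eq_one_iff, Subgroup.mem_subgroupOf]
      exact hx
    rw [this, map_one]
    rfl
  · intro μ ν x hx
    rw [evQ_of P Φ (μ + ν) hx, evQ_of P Φ μ hx, evQ_of P Φ ν hx]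
    rfl
  · intro μ h x hx
    have hx' : (h : G) * x * (h : G)⁻¹ ∈ P := hP.conj_mem x hx h
    rw [evQ_of P Φ _ hx', evQ_of P Φ μ hx]
    have h3 : (Additive.toMul (h • μ)) (QuotientGroup.mk ⟨(h : G) * x * (h : G)⁻¹, hx'⟩) =
        (Additive.toMul μ) (cq P Φ ((h : G)⁻¹) (QuotientGroup.mk
          ⟨(h : G) * x * (h : G)⁻¹, hx'⟩)) := rfl
    rw [h3, cq_mk]
    congr 3
    apply Subtype.ext
    rw [MulAut.conjNormal_apply]
    simp only [inv_inv]
    group
  · intro μ ν h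
    refine Additive.toMul.injective (MonoidHom.ext fun y => Units.ext ?_)
    induction y using QuotientGroup.induction_on with
    | H x =>
      have h3 := h x x.2
      rw [evQ_of P Φ μ x.2, evQ_of P Φ ν x.2] at h3
      exact h3
  · intro f hf hf1
    let f1 : P →* ℂˣ := RB.DUAM.hom P f hf
    have hk : Φ.subgroupOf P ≤ f1.ker := by
      intro x hx
      rw [MonoidHom.mem_ker]
      apply Units.ext
      rw [RB.DUAM.hom_apply]
      exact hf1 x (Subgroup.mem_subgroupOf.1 hx)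
    refine ⟨Additive.ofMul (QuotientGroup.lift _ f1 hk), fun x hx => ?_⟩
    rw [evQ_of P Φ _ hx]
    exact RB.DUAM.hom_apply P f hf ⟨x, hx⟩
  · intro Q hΦQ hQP x hx h
    have h3 := (CommGroup.forall_monoidHom_apply_eq_one_iff ℂ
      ((Q.subgroupOf P).map (QuotientGroup.mk' (Φ.subgroupOf P)))
      (QuotientGroup.mk (⟨x, hx⟩ : P) : P ⧸ Φ.subgroupOf P)).1 ?_
    · obtain ⟨q, hq, hqx⟩ := h3
      have h4 : (QuotientGroup.mk q : P ⧸ Φ.subgroupOf P) = QuotientGroup.mk ⟨x, hx⟩ := hqx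
      rw [QuotientGroup.eq, Subgroup.mem_subgroupOf] at h4
      have h5 : (q : G) ∈ Q := Subgroup.mem_subgroupOf.1 hq
      have h6 := Q.mul_mem h5 (hΦQ h4)
      have h7 : (q : G) * ((q⁻¹ * (⟨x, hx⟩ : P) : P) : G) = x := by
        simp only [Subgroup.coe_mul, Subgroup.coe_inv]
        group
      rwa [h7] at h6
    · intro φ hφ
      have h4 := h (Additive.ofMul φ) (by
        intro q hq
        rw [evQ_of P Φ _ (hQP hq)]
        have h5 := hφ (QuotientGroup.mk ⟨q, hQP hq⟩) ⟨⟨q, hQP hq⟩, Subgroup.mem_subgroupOf.2 hq, rfl⟩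
        have h6 : Additive.toMul (Additive.ofMul φ) = φ := rfl
        rw [h6, h5]
        rfl)
      rw [evQ_of P Φ _ hx] at h4
      exact Units.ext h4
  · intro A μ h
    obtain ⟨A', hA'⟩ : ∃ A' : Subgroup ((P ⧸ Φ.subgroupOf P) →* ℂˣ),
        ∀ φ, φ ∈ A' ↔ Additive.ofMul φ ∈ A :=
      ⟨{ carrier := {φ | Additive.ofMul φ ∈ A}
         one_mem' := A.zero_mem
         mul_mem' := fun ha hb => A.add_mem ha hb
         inv_mem' := fun ha => A.neg_mem ha }, fun _ => Iff.rfl⟩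
    have h3 : (CommGroup.subgroupOrderIsoSubgroupMonoidHom (P ⧸ Φ.subgroupOf P) ℂ
        ((CommGroup.subgroupOrderIsoSubgroupMonoidHom (P ⧸ Φ.subgroupOf P) ℂ).symm
          (OrderDual.toDual A'))).ofDual = A' := by
      rw [OrderIso.apply_symm_apply]
      rfl
    have h4 : Additive.toMul μ ∈ A' := by
      rw [← h3, CommGroup.mem_subgroupOrderIsoSubgroupMonoidHom_iff]
      intro y hy
      rw [CommGroup.mem_subgroupOrderIsoSubgroupMonoidHom_symm_iff] at hy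
      induction y using QuotientGroup.induction_on with
      | H x =>
        have h5 := h x x.2 (by
          intro ν hν
          rw [evQ_of P Φ _ x.2]
          have h6 := hy (Additive.toMul ν) ((hA' _).2 hν)
          rw [h6]
          rfl)
        rw [evQ_of P Φ _ x.2] at h5
        exact Units.ext h5
    exact (hA' _).1 h4

end

end Pool.Agent.Lib.MPbe1941.XF.RE
end

section
/-!
# MP_be1941_al, exact bound, reduction: the dual of `P / Φ`, annihilators
-/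
set_option autoImplicit false

namespace Pool.Agent.Lib.MPbe1941.XF.RE

open Pool.Agent.Lib.MPbe1941 Pool.Agent.Lib.MPbe1941.X
open scoped commutatorElement

section

variable {G : Type} [Group G] {P : Subgroup G} {f : G → ℂ}

theorem chr_ne (h : RB.IsChar P f) {x : G} (hx : x ∈ P) : f x ≠ 0 := by
  intro h0
  have h1 := h.mul x hx x⁻¹ (P.inv_mem hx)
  rw [mul_inv_cancel, h.one, h0, zero_mul] at h1
  exact one_ne_zero h1

theorem chr_inv (h : RB.IsChar P f) {x : G} (hx : x ∈ P) : f x⁻¹ = (f x)⁻¹ := by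
  have h1 := h.mul x hx x⁻¹ (P.inv_mem hx)
  rw [mul_inv_cancel, h.one] at h1
  exact (eq_inv_of_mul_eq_one_right h1.symm)

theorem chr_pow (h : RB.IsChar P f) {x : G} (hx : x ∈ P) (n : ℕ) : f (x ^ n) = f x ^ n := by
  induction n with
  | zero => rw [pow_zero, pow_zero, h.one]
  | succ n ih => rw [pow_succ, pow_succ, h.mul _ (P.pow_mem hx n) _ hx, ih]

theorem chr_cm (h : RB.IsChar P f) {x y : G} (hx : x ∈ P) (hy : y ∈ P) :
    f (x * y * x⁻¹ * y⁻¹) = 1 := by
  rw [h.mul _ (P.mul_mem (P.mul_mem hx hy) (P.inv_mem hx)) _ (P.inv_mem hy),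
    h.mul _ (P.mul_mem hx hy) _ (P.inv_mem hx), h.mul _ hx _ hy, chr_inv h hx, chr_inv h hy]
  have h1 := chr_ne h hx
  have h2 := chr_ne h hy
  field_simp

/-- `f` takes the same values on `x` and `y` iff it is trivial on `x y⁻¹`. -/
theorem chr_eq_iff (h : RB.IsChar P f) {x y : G} (hx : x ∈ P) (hy : y ∈ P) :
    f (x * y⁻¹) = 1 ↔ f x = f y := by
  rw [h.mul _ hx _ (P.inv_mem hy), chr_inv h hy]
  have h2 := chr_ne h hy
  constructor
  · intro h3
    field_simp at h3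
    exact h3
  · intro h3
    rw [h3]
    field_simp

end

namespace IsDQ

variable {G : Type} [Group G] {P Φ H : Subgroup G} {X : Type} [AddCommGroup X]
  [DistribMulAction H X] {ev : X → G → ℂ}

theorem zero (h : IsDQ P Φ H X ev) {x : G} (hx : x ∈ P) : ev 0 x = 1 := by
  have h1 := h.add 0 0 x hx
  rw [add_zero] at h1
  have h2 := chr_ne (h.chr 0) hx
  exact (mul_left_cancel₀ h2 (by rw [mul_one]; exact h1)).symm

theorem neg (h : IsDQ P Φ H X ev) (μ : X) {x : G} (hx : x ∈ P) : ev (-μ) x = (ev μ x)⁻¹ := by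
  have h1 := h.add μ (-μ) x hx
  rw [add_neg_cancel, h.zero hx] at h1
  exact eq_inv_of_mul_eq_one_right h1.symm

theorem sub (h : IsDQ P Φ H X ev) (μ ν : X) {x : G} (hx : x ∈ P) :
    ev (μ - ν) x = ev μ x * (ev ν x)⁻¹ := by
  rw [sub_eq_add_neg, h.add _ _ x hx, h.neg ν hx]

theorem nsmul (h : IsDQ P Φ H X ev) (n : ℕ) (μ : X) {x : G} (hx : x ∈ P) :
    ev (n • μ) x = ev μ x ^ n := by
  induction n with
  | zero => rw [zero_smul, pow_zero, h.zero hx]
  | succ n ih => rw [succ_nsmul, h.add _ _ x hx, ih, pow_succ]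

theorem eq_zero (h : IsDQ P Φ H X ev) {μ : X} (h1 : ∀ x ∈ P, ev μ x = 1) : μ = 0 :=
  h.ext μ 0 (fun x hx => by rw [h1 x hx, h.zero hx])

/-- The stabiliser. -/
theorem smul_iff (h : IsDQ P Φ H X ev) (hP : P.Normal) (k : H) (μ : X) :
    k • μ = μ ↔ ∀ x ∈ P, ev μ ((k : G) * x * (k : G)⁻¹) = ev μ x := by
  constructor
  · intro h1 x hx
    have h2 := h.act μ k x hx
    rwa [h1] at h2
  · intro h1
    refine h.ext _ _ (fun y hy => ?_)
    have hy' : (k : G)⁻¹ * y * (k : G) ∈ P := by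
      have := hP.conj_mem y hy (k : G)⁻¹
      rwa [inv_inv] at this
    have h2 := h.act μ k _ hy'
    have h3 := h1 _ hy'
    have e : (k : G) * ((k : G)⁻¹ * y * (k : G)) * (k : G)⁻¹ = y := by group
    rw [e] at h2 h3
    rw [h2, h3]

/-- `k` fixes `μ` iff `μ` is trivial on the commutators with `k`. -/
theorem smul_iff' (h : IsDQ P Φ H X ev) (hP : P.Normal) (k : H) (μ : X) :
    k • μ = μ ↔ ∀ x ∈ P, ev μ ((k : G) * x * (k : G)⁻¹ * x⁻¹) = 1 := by
  rw [h.smul_iff hP]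
  refine forall₂_congr fun x hx => ?_
  rw [chr_eq_iff (h.chr μ) (hP.conj_mem x hx _) hx]

/-- The annihilator in `P` of a subgroup of `X`. -/
def ann (h : IsDQ P Φ H X ev) (A : AddSubgroup X) : Subgroup G where
  carrier := {x | x ∈ P ∧ ∀ μ ∈ A, ev μ x = 1}
  one_mem' := ⟨P.one_mem, fun μ _ => (h.chr μ).one⟩
  mul_mem' := fun {a b} ha hb => ⟨P.mul_mem ha.1 hb.1, fun μ hμ => by
    rw [(h.chr μ).mul a ha.1 b hb.1, ha.2 μ hμ, hb.2 μ hμ, one_mul]⟩
  inv_mem' := fun {a} ha => ⟨P.inv_mem ha.1, fun μ hμ => by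
    rw [chr_inv (h.chr μ) ha.1, ha.2 μ hμ, inv_one]⟩

theorem mem_ann (h : IsDQ P Φ H X ev) {A : AddSubgroup X} {x : G} :
    x ∈ h.ann A ↔ x ∈ P ∧ ∀ μ ∈ A, ev μ x = 1 := Iff.rfl

theorem ann_le (h : IsDQ P Φ H X ev) (A : AddSubgroup X) : h.ann A ≤ P := fun _ hx => hx.1

theorem le_ann (h : IsDQ P Φ H X ev) (hle : Φ ≤ P) (A : AddSubgroup X) : Φ ≤ h.ann A :=
  fun _ hx => ⟨hle hx, fun μ _ => h.tri μ _ hx⟩

theorem ann_inv (h : IsDQ P Φ H X ev) (hP : P.Normal) {A : AddSubgroup X} (hA : HInv H A) :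
    ∀ k ∈ H, ∀ x ∈ h.ann A, k * x * k⁻¹ ∈ h.ann A := by
  intro k hk x hx
  refine ⟨hP.conj_mem x hx.1 k, fun μ hμ => ?_⟩
  have h1 := h.act ((⟨k, hk⟩ : H)⁻¹ • μ) ⟨k, hk⟩ x hx.1
  rw [smul_inv_smul] at h1
  rw [h1]
  exact hx.2 _ (hA _ μ hμ)

theorem ann_conj (h : IsDQ P Φ H X ev) {A : AddSubgroup X} :
    ∀ k ∈ P, ∀ x ∈ h.ann A, k * x * k⁻¹ ∈ h.ann A := by
  intro k hk x hx
  refine ⟨P.mul_mem (P.mul_mem hk hx.1) (P.inv_mem hk), fun μ hμ => ?_⟩
  rw [(h.chr μ).mul _ (P.mul_mem hk hx.1) _ (P.inv_mem hk), (h.chr μ).mul _ hk _ hx.1,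
    chr_inv (h.chr μ) hk, hx.2 μ hμ, mul_one, mul_inv_cancel₀ (chr_ne (h.chr μ) hk)]

/-- The double annihilator. -/
theorem mem_of_ann (h : IsDQ P Φ H X ev) {A : AddSubgroup X} {μ : X}
    (h1 : ∀ x ∈ h.ann A, ev μ x = 1) : μ ∈ A :=
  h.dbl A μ (fun x hx h2 => h1 x ⟨hx, h2⟩)

/-- Elements of `P` on which all characters are trivial. -/
theorem mem_base (h : IsDQ P Φ H X ev) (hle : Φ ≤ P) {x : G} (hx : x ∈ P)
    (h1 : ∀ μ, ev μ x = 1) : x ∈ Φ := h.sep Φ le_rfl hle x hx (fun μ _ => h1 μ)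

theorem ann_inf (h : IsDQ P Φ H X ev) (hle : Φ ≤ P) {A B : AddSubgroup X} (hAB : A ⊔ B = ⊤) :
    h.ann A ⊓ h.ann B = Φ := by
  apply le_antisymm
  · rintro x ⟨hx, hx2⟩
    refine h.mem_base hle hx.1 (fun μ => ?_)
    have hμ : μ ∈ A ⊔ B := by rw [hAB]; trivial
    obtain ⟨a, ha, b, hb, rfl⟩ := AddSubgroup.mem_sup.1 hμ
    rw [h.add a b x hx.1, hx.2 a ha, hx2.2 b hb, one_mul]
  · exact le_inf (h.le_ann hle A) (h.le_ann hle B)

theorem ann_sup (h : IsDQ P Φ H X ev) (hle : Φ ≤ P) {A B : AddSubgroup X} (hAB : A ⊓ B = ⊥) :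
    h.ann A ⊔ h.ann B = P := by
  apply le_antisymm (sup_le (h.ann_le A) (h.ann_le B))
  intro x hx
  refine h.sep _ ((h.le_ann hle A).trans le_sup_left) (sup_le (h.ann_le A) (h.ann_le B)) x hx
    (fun μ hμ => ?_)
  have h1 : μ ∈ A := h.mem_of_ann (fun y hy => hμ y (Subgroup.mem_sup_left hy))
  have h2 : μ ∈ B := h.mem_of_ann (fun y hy => hμ y (Subgroup.mem_sup_right hy))
  have h3 : μ ∈ A ⊓ B := ⟨h1, h2⟩
  rw [hAB, AddSubgroup.mem_bot] at h3
  rw [h3, h.zero hx]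

/-- `k` acts trivially on `A` iff the commutators with `k` are in the annihilator of `A`. -/
theorem triv_iff (h : IsDQ P Φ H X ev) (hP : P.Normal) (k : H) (A : AddSubgroup X) :
    (∀ μ ∈ A, k • μ = μ) ↔ ∀ x ∈ P, (k : G) * x * (k : G)⁻¹ * x⁻¹ ∈ h.ann A := by
  constructor
  · intro h1 x hx
    refine ⟨P.mul_mem (hP.conj_mem x hx _) (P.inv_mem hx), fun μ hμ => ?_⟩
    exact (h.smul_iff' hP k μ).1 (h1 μ hμ) x hx
  · intro h1 μ hμ
    exact (h.smul_iff' hP k μ).2 (fun x hx => (h1 x hx).2 μ hμ)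

theorem irr (h : IsDQ P Φ H X ev) (hP : P.Normal) (hle : Φ ≤ P)
    (hmin : ∀ M : Subgroup G, Φ ≤ M → M ≤ P → (∀ k ∈ H, ∀ x ∈ M, k * x * k⁻¹ ∈ M) →
      (∀ k ∈ P, ∀ x ∈ M, k * x * k⁻¹ ∈ M) → M = Φ ∨ M = P) (A : AddSubgroup X)
    (hA : HInv H A) : A = ⊥ ∨ A = ⊤ := by
  rcases hmin (h.ann A) (h.le_ann hle A) (h.ann_le A) (h.ann_inv hP hA) h.ann_conj with h1 | h1
  · right
    rw [AddSubgroup.eq_top_iff']
    intro μ
    refine h.mem_of_ann (fun x hx => ?_)
    rw [h1] at hx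
    exact h.tri μ x hx
  · left
    rw [AddSubgroup.eq_bot_iff_forall]
    intro μ hμ
    refine h.eq_zero (fun x hx => ?_)
    rw [← h1] at hx
    exact hx.2 μ hμ

theorem nontriv (h : IsDQ P Φ H X ev) (hle : Φ ≤ P) (hne : Φ ≠ P) : Nontrivial X := by
  by_contra hX
  rw [not_nontrivial_iff_subsingleton] at hX
  apply hne
  apply le_antisymm hle
  intro x hx
  refine h.mem_base hle hx (fun μ => ?_)
  rw [Subsingleton.elim μ 0, h.zero hx]

theorem exp (h : IsDQ P Φ H X ev) {p : ℕ} (hp : ∀ x ∈ P, x ^ p ∈ Φ) (μ : X) : p • μ = 0 := by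
  refine h.eq_zero (fun x hx => ?_)
  rw [h.nsmul p μ hx, ← chr_pow (h.chr μ) hx]
  exact h.tri μ _ (hp x hx)

end IsDQ

end Pool.Agent.Lib.MPbe1941.XF.RE
end

section
/-!
# MP_be1941_al, exact bound: the nonlinear initial state

`P` a normal `p`-subgroup with `P'` central in `P` and of exponent `p`, `f` a nontrivial linear
character of `P'`, `K` its radical (`x ∈ K` iff `f [x, y] = 1` for all `y ∈ P`), `α` a linear
character of `K / P'`. The stabiliser of `f` and `α` in `H` gives a state which kills `p`.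
-/
set_option autoImplicit false

namespace Pool.Agent.Lib.MPbe1941.XF.ST

open Pool.Agent.Lib.MPbe1941 Pool.Agent.Lib.MPbe1941.RP Pool.Agent.Lib.MPbe1941.XF
open scoped commutatorElement

section

variable {G0 G H : Type} [Group G0] [Group G] [Group H]

theorem Pre.mono {j : H →* G} {E : Subgroup G} {Q0 Q1 : Set ℕ} {S D K : Subgroup H}
    (h : Pre G0 j E Q0 S D K) (hQ : Q1 ⊆ Q0) : Pre G0 j E Q1 S D K where
  emb := h.emb
  DS := h.DS
  KS := h.KS
  Dn := h.Dn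
  DE := h.DE
  inf := h.inf
  sup := h.sup
  st := h.st.mono (by
    rintro r ⟨hr, h1 | h1⟩
    · exact ⟨hr, Or.inl (hQ h1)⟩
    · exact ⟨hr, Or.inr h1⟩)

theorem comm_self_le (P : Subgroup G) : ⁅P, P⁆ ≤ P := by
  rw [Subgroup.commutator_le]
  intro a ha b hb
  rw [commutatorElement_def]
  exact P.mul_mem (P.mul_mem (P.mul_mem ha hb) (P.inv_mem ha)) (P.inv_mem hb)

theorem rad_le {P K : Subgroup G} {f : G → ℂ} (hPc : ∀ x ∈ ⁅P, P⁆, ∀ y ∈ P, x * y = y * x)
    (hf : RB.IsChar ⁅P, P⁆ f) (hK : RB.IsRad P K f) : ⁅P, P⁆ ≤ K := by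
  intro x hx
  rw [hK x]
  refine ⟨comm_self_le P hx, fun y hy => ?_⟩
  have : RB.cm x y = 1 := by
    unfold RB.cm
    rw [hPc x hx y hy]
    group
  rw [this, hf.one]

theorem cm_mem (P : Subgroup G) {x y : G} (hx : x ∈ P) (hy : y ∈ P) : RB.cm x y ∈ ⁅P, P⁆ := by
  have := Subgroup.commutator_mem_commutator hx hy
  rwa [commutatorElement_def] at this

/-- The radical is invariant under the stabiliser of `f`. -/
theorem rad_inv {P K : Subgroup G} {f : G → ℂ} (hPn : P.Normal) (hK : RB.IsRad P K f) {g : G}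
    (hg : ∀ x ∈ ⁅P, P⁆, f (g * x * g⁻¹) = f x) : ∀ x ∈ K, g * x * g⁻¹ ∈ K := by
  intro x hx
  rw [hK] at hx ⊢
  refine ⟨hPn.conj_mem x hx.1 g, fun y hy => ?_⟩
  have hy' : g⁻¹ * y * g ∈ P := by
    have := hPn.conj_mem y hy g⁻¹
    rwa [inv_inv] at this
  have e : RB.cm (g * x * g⁻¹) y = g * RB.cm x (g⁻¹ * y * g) * g⁻¹ := by
    unfold RB.cm
    group
  rw [e, hg _ (cm_mem P hx.1 hy')]
  exact hx.2 _ hy'

/-- **The nonlinear initial state.** -/
theorem Pre.nst [Finite G] {j : H →* G} {E P K : Subgroup G} {p : ℕ} (hp : p.Prime)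
    (hE : Emb j E) (hPn : P.Normal) (hPp : IsPGroup p P)
    (hPc : ∀ x ∈ ⁅P, P⁆, ∀ y ∈ P, x * y = y * x) (hexp : ∀ x ∈ ⁅P, P⁆, x ^ p = 1)
    (hPE : ∀ x ∈ P, ∀ e ∈ E, x * e = e * x) (hinf : P ⊓ JJ j E ⊤ = ⊥)
    (hsup : P ⊔ JJ j E ⊤ = ⊤) (hpc : ¬ p ∣ Nat.card (JJ j E (⊤ : Subgroup H)))
    {f : G → ℂ} (hf : RB.IsChar ⁅P, P⁆ f) (hf1 : ∃ x ∈ ⁅P, P⁆, f x ≠ 1) (hK : RB.IsRad P K f)
    {α : G → ℂ} (hα : RB.IsChar K α) (hα1 : ∀ x ∈ ⁅P, P⁆, α x = 1) {S : Subgroup H}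
    (hS : ∀ h, h ∈ S ↔ (∀ x ∈ ⁅P, P⁆, f (j h * x * (j h)⁻¹) = f x) ∧
      ∀ x ∈ K, α (j h * x * (j h)⁻¹) = α x) :
    Pre G j E {p} S ⊥ S := by
  have hfH : Finite H := Finite.of_injective j hE.inj
  have hDK := rad_le hPc hf hK
  have hKP : K ≤ P := fun x hx => ((hK x).1 hx).1
  have hDn : (⁅P, P⁆ : Subgroup G).Normal := inferInstance
  obtain ⟨ell, hell, hell2⟩ := RB.specEXT G K P α hKP hα (fun x hx y hy =>
    ⟨hDK (cm_mem P hx hy), hα1 _ (cm_mem P hx hy)⟩)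
  -- the stabiliser of `f`
  let C0 : Subgroup H :=
    { carrier := {h | ∀ x ∈ ⁅P, P⁆, f (j h * x * (j h)⁻¹) = f x}
      one_mem' := fun x _ => by simp
      mul_mem' := by
        intro a b ha hb x hx
        have e : j (a * b) * x * (j (a * b))⁻¹ = j a * (j b * x * (j b)⁻¹) * (j a)⁻¹ := by
          rw [map_mul]; group
        rw [e, ha _ (hDn.conj_mem x hx _), hb x hx]
      inv_mem' := by
        intro a ha x hx
        have hx' := hDn.conj_mem x hx (j a⁻¹)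
        rw [← ha _ hx']
        congr 1
        rw [map_inv]
        group }
  have mC0 : ∀ h, h ∈ C0 ↔ ∀ x ∈ ⁅P, P⁆, f (j h * x * (j h)⁻¹) = f x := fun h => Iff.rfl
  obtain ⟨kz, hkz, hkz2, hkz3⟩ := RB.specINV RB.specEXT G ⁅P, P⁆ K (C0.map j) p f hp hDK hf hexp
    (by
      intro hd
      apply hpc
      refine hd.trans (Subgroup.card_dvd_of_le ?_)
      refine le_trans (Subgroup.map_mono le_top) ?_
      exact le_sup_right)
    (fun x hx y hy => ⟨cm_mem P (hKP hx) (hKP hy), ((hK x).1 hx).2 y (hKP hy)⟩)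
    (by
      rintro _ ⟨h, hh, rfl⟩ x hx
      exact rad_inv hPn hK ((mC0 h).1 hh) x hx)
    (by
      rintro _ ⟨h, hh, rfl⟩ x hx
      exact ⟨hDn.conj_mem x hx _, (mC0 h).1 hh x hx⟩)
  have hell1 : ∀ x ∈ ⁅P, P⁆, ell x = 1 := fun x hx => by rw [hell2 x (hDK hx), hα1 x hx]
  obtain ⟨hLP, -⟩ := RB.specLOC RB.specRAD G P K f kz ell hPc hf hK hkz hkz2 hell hell1
  have hap : APair ⊤ P K (fun x => kz x * ell x) :=
    { FL := le_top
      Fn := fun l _ x hx => hPn.conj_mem x hx l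
      le := hKP
      comm := hLP.com
      one := hLP.chr.one
      mul := hLP.chr.mul
      inv := fun y hy x hx => by
        refine ⟨?_, hLP.inv x hx y hy⟩
        have e : y * x * y⁻¹ = RB.cm y x * x := by unfold RB.cm; group
        rw [e]
        exact K.mul_mem (hDK (cm_mem P hy (hKP hx))) hx
      nd := hLP.ram }
  have hidx := RB.specIDX G P K p (Nat.card (JJ j E (⊤ : Subgroup H))) hp hPp hpc
    Nat.card_pos.ne'
  have hPK : ¬ P ≤ K := by
    intro h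
    obtain ⟨x, hx, hx1⟩ := hf1
    apply hx1
    have key : ∀ y ∈ ⁅P, P⁆, f y = 1 ∧ f y⁻¹ = 1 := by
      intro y hy
      have hy2 := hy
      rw [Subgroup.commutator_def] at hy2
      induction hy2 using Subgroup.closure_induction with
      | mem z hz =>
        obtain ⟨a, ha, b, hb, rfl⟩ := hz
        have e1 : f ⁅a, b⁆ = 1 := by
          rw [commutatorElement_def]
          exact ((hK a).1 (h ha)).2 b hb
        have e2 : f ⁅a, b⁆⁻¹ = 1 := by
          rw [commutatorElement_inv, commutatorElement_def]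
          exact ((hK b).1 (h hb)).2 a ha
        exact ⟨e1, e2⟩
      | one => exact ⟨hf.one, by rw [inv_one]; exact hf.one⟩
      | mul a b ha hb iha ihb =>
        rw [← Subgroup.commutator_def] at ha hb
        have i1 := iha ha
        have i2 := ihb hb
        refine ⟨by rw [hf.mul a ha b hb, i1.1, i2.1, one_mul], ?_⟩
        rw [mul_inv_rev, hf.mul _ (Subgroup.inv_mem _ hb) _ (Subgroup.inv_mem _ ha), i1.2, i2.2,
          one_mul]
      | inv a ha iha =>
        rw [← Subgroup.commutator_def] at ha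
        have i1 := iha ha
        exact ⟨i1.2, by rw [inv_inv]; exact i1.1⟩
    exact (key x hx).1
  refine (Pre.pair hE hap hPE hinf hsup hidx.1 (S := S) ?_).mono ?_
  · intro h
    rw [hS h]
    have hst := RB.specSTB RB.specRAD G P K f kz ell (j h) (fun x => by
        constructor
        · intro hx
          exact hPn.conj_mem x hx _
        · intro hx
          have := hPn.conj_mem _ hx (j h)⁻¹
          have e : (j h)⁻¹ * (j h * x * (j h)⁻¹) * (j h)⁻¹⁻¹ = x := by group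
          rwa [e] at this) hPc hf hK hkz hkz2 hell hell1
      (fun hh x hx => hkz3 (j h) ⟨h, (mC0 h).2 hh, rfl⟩ x hx)
    constructor
    · rintro ⟨h1, h2⟩
      refine hst.2 ⟨h1, fun x hx => ?_⟩
      rw [hell2 x hx, hell2 _ (rad_inv hPn hK h1 x hx), h2 x hx]
    · intro h1
      obtain ⟨h2, h3⟩ := hst.1 h1
      refine ⟨h2, fun x hx => ?_⟩
      have := h3 x hx
      rwa [hell2 x hx, hell2 _ (rad_inv hPn hK h2 x hx)] at this
  · intro r hr
    rw [Set.mem_singleton_iff] at hr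
    rw [hr]
    exact hidx.2 hPK

end

end Pool.Agent.Lib.MPbe1941.XF.ST
end

section
/-!
# MP_be1941_al EXACT, block U, module UIV (EXACT 9.3): the choice of `W₂`
-/
set_option autoImplicit false

namespace Pool.Agent.Lib.MPbe1941.X

open Pool.Agent.Lib.MPbe1941
open Pool.Agent.Lib.MPbe1941.XF
open scoped commutatorElement

namespace UIVM

variable {H X : Type} [Group H] [AddCommGroup X] [DistribMulAction H X]

/-- The endomorphism of `X` given by `h`. -/
def te (X : Type) {H : Type} [Group H] [AddCommGroup X] [DistribMulAction H X] (h : H) :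
    AddMonoid.End X :=
  DistribMulAction.toAddMonoidEnd H X h

theorem te_apply (h : H) (x : X) : te X h x = h • x := rfl

theorem te_mem {D : Subgroup H} {d : H} (hd : d ∈ D) : te X d ∈ Fd X D :=
  Subring.subset_closure ⟨d, hd, rfl⟩

theorem te_mul (g h : H) : te X (g * h) = te X g * te X h := map_mul _ g h

theorem te_one : te X (1 : H) = 1 := map_one _

theorem te_inv_mul (h : H) : te X h⁻¹ * te X h = 1 := by
  rw [← te_mul, inv_mul_cancel, te_one]

/-- The conjugate of an endomorphism. -/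
def sg (ρ : H) (a : AddMonoid.End X) : AddMonoid.End X := te X ρ * a * te X ρ⁻¹

theorem sg_smul (ρ : H) (a : AddMonoid.End X) (x : X) : ρ • a x = sg ρ a (ρ • x) := by
  show ρ • a x = ρ • a (ρ⁻¹ • ρ • x)
  rw [inv_smul_smul]

theorem sg_one (ρ : H) : sg ρ (1 : AddMonoid.End X) = 1 := by
  unfold sg
  rw [mul_one, ← te_mul, mul_inv_cancel, te_one]

theorem sg_mul (ρ : H) (a b : AddMonoid.End X) : sg ρ (a * b) = sg ρ a * sg ρ b := by
  unfold sg
  calc te X ρ * (a * b) * te X ρ⁻¹ = te X ρ * a * (1 * b) * te X ρ⁻¹ := by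
        rw [one_mul, mul_assoc (te X ρ) a b]
    _ = te X ρ * a * ((te X ρ⁻¹ * te X ρ) * b) * te X ρ⁻¹ := by rw [te_inv_mul]
    _ = te X ρ * a * te X ρ⁻¹ * (te X ρ * b * te X ρ⁻¹) := by simp only [mul_assoc]

theorem sg_te (ρ d : H) : sg ρ (te X d) = te X (ρ * d * ρ⁻¹) := by
  unfold sg
  rw [te_mul, te_mul]

theorem sg_mem {D : Subgroup H} (hD : D.Normal) (ρ : H) {a : AddMonoid.End X}
    (ha : a ∈ Fd X D) : sg ρ a ∈ Fd X D := by
  obtain ⟨b, hb, h1⟩ := UFBM.conj_end hD ρ ha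
  have h2 : sg ρ a = b := by
    refine AddMonoidHom.ext fun x => ?_
    have h3 := h1 (ρ⁻¹ • x)
    rw [smul_inv_smul] at h3
    exact h3
  rw [h2]
  exact hb

theorem sub_apply' (f g : AddMonoid.End X) (x : X) : (f - g) x = f x - g x := rfl

theorem mul_apply' (f g : AddMonoid.End X) (x : X) : (f * g) x = f (g x) := rfl

theorem pow_succ_apply (f : AddMonoid.End X) (n : ℕ) (x : X) : (f ^ (n + 1)) x = (f ^ n) (f x) := by
  rw [pow_succ]
  rfl

theorem inj_of {D : Subgroup H} (hF : ∀ a ∈ Fd X D, a ≠ 0 → ∃ n : ℕ, 0 < n ∧ a ^ n = 1)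
    {a : AddMonoid.End X} (ha : a ∈ Fd X D) (ha0 : a ≠ 0) {x : X} (hx : a x = 0) : x = 0 := by
  obtain ⟨n, hn, h1⟩ := hF a ha ha0
  obtain ⟨m, rfl⟩ : ∃ m, n = m + 1 := ⟨n - 1, by omega⟩
  have := congrArg (fun f : AddMonoid.End X => f x) h1
  simp only [pow_succ_apply, hx, map_zero] at this
  exact this.symm

/-- An element of `F` preserves every `D`-invariant subgroup. -/
theorem fd_inv {D : Subgroup H} {M : AddSubgroup X} (hM : ∀ d ∈ D, ∀ x ∈ M, d • x ∈ M)
    {a : AddMonoid.End X} (ha : a ∈ Fd X D) : ∀ x ∈ M, a x ∈ M := by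
  unfold Fd at ha
  induction ha using Subring.closure_induction with
  | mem f hf =>
    obtain ⟨d, hd, rfl⟩ := hf
    exact fun x hx => hM d hd x hx
  | zero => exact fun x _ => M.zero_mem
  | one => exact fun x hx => hx
  | add a a' _ _ iha iha' => exact fun x hx => M.add_mem (iha x hx) (iha' x hx)
  | neg a _ iha => exact fun x hx => M.neg_mem (iha x hx)
  | mul a a' _ _ iha iha' => exact fun x hx => iha _ (iha' x hx)

/-- Dedekind's argument. -/
theorem dedekind {D R : Subgroup H} (hD : D.Normal) (hDab : ∀ x ∈ D, ∀ y ∈ D, x * y = y * x)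
    (hF : ∀ a ∈ Fd X D, a ≠ 0 → ∃ n : ℕ, 0 < n ∧ a ^ n = 1) {dl : H} (hdl : dl ∈ D)
    (hne : ∀ ρ ∈ R, ∀ τ ∈ R, te X (ρ * dl * ρ⁻¹) = te X (τ * dl * τ⁻¹) → ρ = τ) :
    ∀ n : ℕ, ∀ S : Finset R, S.card = n → S.Nonempty → ∀ x : R → X, (∀ ρ ∈ S, x ρ ≠ 0) →
      ∃ a ∈ Fd X D, ∑ ρ ∈ S, sg (ρ : H) a (x ρ) ≠ 0 := by
  classical
  intro n
  induction n using Nat.strong_induction_on with
  | _ n ih =>
    intro S hSn hS x hx
    by_contra hcon
    push Not at hcon
    obtain ⟨ρ₁, hρ₁⟩ := hS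
    have hbF : te X dl ∈ Fd X D := te_mem hdl
    -- a second element
    have h2 : ∃ ρ₂ ∈ S, ρ₂ ≠ ρ₁ := by
      by_contra hno
      push Not at hno
      have hS1 : S = {ρ₁} := by
        ext ρ
        rw [Finset.mem_singleton]
        exact ⟨hno ρ, fun h => h ▸ hρ₁⟩
      have h3 := hcon 1 (Fd X D).one_mem
      rw [hS1, Finset.sum_singleton, sg_one] at h3
      exact hx ρ₁ hρ₁ h3
    obtain ⟨ρ₂, hρ₂, h21⟩ := h2
    set x' : R → X := fun ρ => (sg (ρ : H) (te X dl) - sg (ρ₁ : H) (te X dl)) (x ρ) with hx'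
    have hsum : ∀ a ∈ Fd X D, ∑ ρ ∈ S, sg (ρ : H) a (x' ρ) = 0 := by
      intro a ha
      have h4 : ∀ ρ ∈ S, sg (ρ : H) a (x' ρ) =
          sg (ρ : H) (a * te X dl) (x ρ) - sg (ρ₁ : H) (te X dl) (sg (ρ : H) a (x ρ)) := by
        intro ρ _
        have h5 := UFBM.end_comm (X := X) hDab _ (sg_mem hD (ρ : H) ha) _ (sg_mem hD (ρ₁ : H) hbF)
        have h6 : sg (ρ : H) a (sg (ρ₁ : H) (te X dl) (x ρ)) =
            sg (ρ₁ : H) (te X dl) (sg (ρ : H) a (x ρ)) :=
          congrArg (fun f : AddMonoid.End X => f (x ρ)) h5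
        rw [hx']
        show sg (ρ : H) a (sg (ρ : H) (te X dl) (x ρ) - sg (ρ₁ : H) (te X dl) (x ρ)) = _
        rw [map_sub, h6, sg_mul]
        rfl
      rw [Finset.sum_congr rfl h4, Finset.sum_sub_distrib, ← map_sum,
        hcon _ ((Fd X D).mul_mem ha hbF), hcon a ha, map_zero, sub_zero]
    set S' : Finset R := S.filter fun ρ => x' ρ ≠ 0 with hS'
    have hρ₁' : ρ₁ ∉ S' := by
      intro h
      have := (Finset.mem_filter.1 h).2
      apply this
      rw [hx']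
      show (sg (ρ₁ : H) (te X dl) - sg (ρ₁ : H) (te X dl)) (x ρ₁) = 0
      rw [sub_self]
      rfl
    have hρ₂' : ρ₂ ∈ S' := by
      rw [hS', Finset.mem_filter]
      refine ⟨hρ₂, fun h => hx ρ₂ hρ₂ ?_⟩
      refine inj_of hF ((Fd X D).sub_mem (sg_mem hD _ hbF) (sg_mem hD _ hbF)) ?_ h
      intro h0
      rw [sg_te, sg_te, sub_eq_zero] at h0
      exact h21 (Subtype.ext (hne _ ρ₂.2 _ ρ₁.2 h0))
    have hlt : S'.card < n := by
      rw [← hSn]
      refine Finset.card_lt_card ⟨Finset.filter_subset _ _, fun h => hρ₁' (h hρ₁)⟩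
    obtain ⟨a, ha, hne0⟩ := ih _ hlt S' rfl ⟨ρ₂, hρ₂'⟩ x' (fun ρ hρ => (Finset.mem_filter.1 hρ).2)
    apply hne0
    rw [← hsum a ha]
    refine Finset.sum_subset (Finset.filter_subset _ _) fun ρ hρ hρ' => ?_
    have h7 : x' ρ = 0 := by
      by_contra h
      exact hρ' (Finset.mem_filter.2 ⟨hρ, h⟩)
    rw [h7, map_zero]

end UIVM

open UIVM in
theorem specUIV : SpecUIV := by
  classical
  intro H X _ _ _ p C T v D R H1 dl h hF hLtop
  have hfin : Finite H := h.ts.finH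
  have hfinX : Finite X := h.ts.finX
  have hDab : ∀ x ∈ D, ∀ y ∈ D, x * y = y * x := by
    intro x hx y hy
    rw [h.Dg] at hx hy
    obtain ⟨a, rfl⟩ := Subgroup.mem_zpowers_iff.1 hx
    obtain ⟨b, rfl⟩ := Subgroup.mem_zpowers_iff.1 hy
    rw [← zpow_add, ← zpow_add, add_comm]
  have hdl : dl ∈ D := by
    rw [h.Dg]
    exact Subgroup.mem_zpowers dl
  set L : AddSubgroup X := AddSubgroup.closure {x : X | ∃ d ∈ D, x = d • v} with hL
  have hLD : ∀ d ∈ D, ∀ x ∈ L, d • x ∈ L := by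
    intro d hd x hx
    refine AddSubgroup.closure_induction (p := fun y _ => d • y ∈ L) ?_ ?_ ?_ ?_ hx
    · rintro _ ⟨d', hd', rfl⟩
      exact AddSubgroup.subset_closure ⟨d * d', D.mul_mem hd hd', (mul_smul _ _ _).symm⟩
    · rw [smul_zero]; exact L.zero_mem
    · intro a b _ _ ha hb
      rw [smul_add]; exact L.add_mem ha hb
    · intro a _ ha
      rw [smul_neg]; exact L.neg_mem ha
  have hLv : ∀ g : H, g • v = v → ∀ x ∈ L, g • x ∈ L := by
    intro g hg x hx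
    refine AddSubgroup.closure_induction (p := fun y _ => g • y ∈ L) ?_ ?_ ?_ ?_ hx
    · rintro _ ⟨d', hd', rfl⟩
      refine AddSubgroup.subset_closure ⟨g * d' * g⁻¹, h.Dn.conj_mem d' hd' g, ?_⟩
      have hg' : g⁻¹ • v = v := by
        conv_lhs => rw [← hg]
        rw [inv_smul_smul]
      rw [mul_smul, hg', mul_smul]
    · rw [smul_zero]; exact L.zero_mem
    · intro a b _ _ ha hb
      rw [smul_add]; exact L.add_mem ha hb
    · intro a _ ha
      rw [smul_neg]; exact L.neg_mem ha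
  -- the stabiliser of `L`
  obtain ⟨G0, hG0⟩ : ∃ G0 : Subgroup H, ∀ g, g ∈ G0 ↔ ∀ x, x ∈ L ↔ g • x ∈ L :=
    ⟨{ carrier := {g | ∀ x, x ∈ L ↔ g • x ∈ L}
       one_mem' := fun x => by rw [one_smul]
       mul_mem' := fun {a b} ha hb x => by rw [mul_smul, ← ha (b • x)]; exact hb x
       inv_mem' := fun {a} ha x => by
        rw [ha (a⁻¹ • x), smul_inv_smul] }, fun g => Iff.rfl⟩
  have hDG : D ≤ G0 := by
    intro d hd
    rw [hG0]
    intro x
    refine ⟨hLD d hd x, fun hx => ?_⟩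
    have := hLD d⁻¹ (D.inv_mem hd) _ hx
    rwa [inv_smul_smul] at this
  have hvG : ∀ g : H, g • v = v → g ∈ G0 := by
    intro g hg
    rw [hG0]
    intro x
    refine ⟨hLv g hg x, fun hx => ?_⟩
    have hg' : g⁻¹ • v = v := by
      conv_lhs => rw [← hg]
      rw [inv_smul_smul]
    have := hLv g⁻¹ hg' _ hx
    rwa [inv_smul_smul] at this
  obtain ⟨M, -, hMinv, hLM, hLM'⟩ := RB.specMAS X ↥G0 p h.ts.pp
    (fun hd => h.ts.pn (hd.trans (Subgroup.card_subgroup_dvd_card G0))) ⊤ (fun x _ => h.ts.px x)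
    (fun _ _ _ => AddSubgroup.mem_top _) L le_top
    (fun g x hx => ((hG0 g).1 g.2 x).1 hx)
  have hMD : ∀ d ∈ D, ∀ x ∈ M, d • x ∈ M := fun d hd x hx => hMinv ⟨d, hDG hd⟩ x hx
  have hMv : ∀ g : H, g • v = v → ∀ x ∈ M, g • x ∈ M := fun g hg x hx => hMinv ⟨g, hvG g hg⟩ x hx
  obtain ⟨m, hm, hm0⟩ : ∃ m ∈ M, m ≠ 0 := by
    by_contra hcon
    push Not at hcon
    have hMb : M = ⊥ := (AddSubgroup.eq_bot_iff_forall M).2 hcon
    rw [hMb, sup_bot_eq] at hLM'
    exact hLtop hLM'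
  -- Dedekind
  have hneR : ∀ ρ ∈ R, ∀ τ ∈ R, te X (ρ * dl * ρ⁻¹) = te X (τ * dl * τ⁻¹) → ρ = τ := by
    intro ρ hρ τ hτ he
    have h1 : ∀ x : X, (ρ * dl * ρ⁻¹) • x = (τ * dl * τ⁻¹) • x := fun x =>
      congrArg (fun f : AddMonoid.End X => f x) he
    have h2 : (τ * dl * τ⁻¹)⁻¹ * (ρ * dl * ρ⁻¹) = 1 := by
      refine h.ts.faith _ (h.DC (D.mul_mem (D.inv_mem (h.Dn.conj_mem dl hdl τ))
        (h.Dn.conj_mem dl hdl ρ))) (fun x => ?_)
      rw [mul_smul, h1, inv_smul_smul]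
    have h3 : τ * dl * τ⁻¹ = ρ * dl * ρ⁻¹ := inv_mul_eq_one.1 h2
    have h4 : τ⁻¹ * ρ * dl = dl * (τ⁻¹ * ρ) := by
      calc τ⁻¹ * ρ * dl = τ⁻¹ * (ρ * dl * ρ⁻¹) * ρ := by group
        _ = τ⁻¹ * (τ * dl * τ⁻¹) * ρ := by rw [h3]
        _ = dl * (τ⁻¹ * ρ) := by group
    have h5 := h.mov _ (R.mul_mem (R.inv_mem hτ) hρ) h4
    exact (inv_mul_eq_one.1 h5).symm
  have : Fintype R := Fintype.ofFinite R
  obtain ⟨a, haF, hne⟩ := dedekind (R := R) h.Dn hDab hF hdl hneR _ (Finset.univ : Finset R) rfl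
    ⟨1, Finset.mem_univ _⟩ (fun ρ => (ρ : H) • m) (fun ρ _ hc => hm0 ((smul_eq_zero_iff_eq _).1 hc))
  set u : X := ∑ ρ : R, (ρ : H) • a m with hu
  have hu0 : u ≠ 0 := by
    have h8 : u = ∑ ρ : R, sg (ρ : H) a ((ρ : H) • m) :=
      Finset.sum_congr rfl (fun ρ _ => sg_smul (ρ : H) a m)
    rw [h8]
    exact hne
  have huM : u ∈ M := by
    refine M.sum_mem fun ρ _ => hMv _ (h.Rv _ ρ.2) _ (fd_inv hMD haF m hm)
  have huR : ∀ τ ∈ R, τ • u = u := by
    intro τ hτ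
    rw [hu, Finset.smul_sum]
    refine Fintype.sum_equiv (Equiv.mulLeft (⟨τ, hτ⟩ : R)) _ _ fun ρ => ?_
    show τ • (ρ : H) • a m = (τ * (ρ : H)) • a m
    rw [mul_smul]
  -- the fixed points of `R` in `M`
  have hFix : ∀ x : X, x ∈ FixY X R ↔ ∀ ρ ∈ R, ρ • x = x := fun x => Iff.rfl
  have hStb : ∀ y, y ∈ Stb H1 v → y ∈ H1 ∧ y • v = v := fun y hy => hy
  set M' : AddSubgroup X := M ⊓ FixY X R with hM'
  have hM'inv : ∀ y ∈ Stb H1 v, ∀ x ∈ M', y • x ∈ M' := by
    intro y hy x hx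
    obtain ⟨hyH, hyv⟩ := hStb y hy
    refine ⟨hMv y hyv x hx.1, ?_⟩
    show ∀ ρ ∈ R, ρ • y • x = y • x
    intro ρ hρ
    have h1 : ρ * y = y * ρ := (h.H1R y hyH ρ hρ).symm
    rw [smul_smul, h1, mul_smul, (hFix x).1 hx.2 ρ hρ]
  obtain ⟨W, hW⟩ := (Set.toFinite {A : AddSubgroup X | A ≠ ⊥ ∧ A ≤ M' ∧
    ∀ y ∈ Stb H1 v, ∀ x ∈ A, y • x ∈ A}).exists_minimal
    ⟨M', fun hb => hu0 (by
      have : u ∈ M' := ⟨huM, huR⟩
      rw [hb] at this
      exact AddSubgroup.mem_bot.1 this), le_rfl, hM'inv⟩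
  obtain ⟨⟨hWb, hWM, hWinv⟩, hWmin⟩ := hW
  refine ⟨W, hWb, fun ρ hρ x hx => (hFix x).1 (hWM hx).2 ρ hρ, hWinv, ?_, ?_⟩
  · intro A hAW hAinv
    by_cases hAb : A = ⊥
    · exact Or.inl hAb
    · right
      exact le_antisymm hAW (hWmin ⟨hAb, hAW.trans hWM, hAinv⟩ hAW)
  · intro x hx hxL
    have h1 : x ∈ L ⊓ M := ⟨hxL, (hWM hx).1⟩
    rw [hLM] at h1
    exact AddSubgroup.mem_bot.1 h1

end Pool.Agent.Lib.MPbe1941.X
end

section
/-!
# MP_be1941_al EXACT, block U, module UCT (EXACT 9.4): counting the Sylow subgroups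
-/
set_option autoImplicit false

namespace Pool.Agent.Lib.MPbe1941.X

open Pool.Agent.Lib.MPbe1941
open Pool.Agent.Lib.MPbe1941.XF
open scoped commutatorElement

namespace UCTM

open UIVM

variable {H X : Type} [Group H] [AddCommGroup X] [DistribMulAction H X]

theorem sg_sg (g h : H) (a : AddMonoid.End X) : sg (g * h) a = sg g (sg h a) := by
  unfold sg
  rw [te_mul, mul_inv_rev, te_mul]
  simp only [mul_assoc]

theorem sg_eq_one' (a : AddMonoid.End X) : sg (1 : H) a = a := by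
  unfold sg
  rw [inv_one, te_one, one_mul, mul_one]

/-- A Sylow subgroup fixing `w` is the witness of `r ∈ M(w)`. -/
theorem uniq [Finite H] {C : Subgroup H} {w : X} {r : ℕ} (hr : r.Prime) {S P : Subgroup H}
    (hS : MiH C w r S) (hP : SylIn r ⊤ P) (hPw : ∀ x ∈ P, x • w = w) : ∀ x, x ∈ P ↔ x ∈ S := by
  obtain ⟨hS', hSC, hSab, hSw, hSn⟩ := hS
  have hSt : ∀ g : H, g ∈ Stb ⊤ w ↔ g • w = w := fun g =>
    ⟨fun hg => hg.2, fun hg => ⟨Subgroup.mem_top g, hg⟩⟩
  have h1 : SylIn r (Stb ⊤ w) S := (CO.specSYL H r hr).2.2.2.1 ⊤ _ _ hS'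
    (fun t ht => (hSt t).2 (hSw t ht)) le_top
  have h2 : SylIn r (Stb ⊤ w) P := (CO.specSYL H r hr).2.2.2.1 ⊤ _ _ hP
    (fun t ht => (hSt t).2 (hPw t ht)) le_top
  obtain ⟨g, hg, hgS⟩ := (CO.specSYL H r hr).2.2.1 _ _ _ h1 h2
  have hgw : g • w = w := (hSt g).1 hg
  have hgw' : g⁻¹ • w = w := by
    conv_lhs => rw [← hgw]
    rw [inv_smul_smul]
  intro x
  rw [hgS]
  constructor
  · intro hx
    have h3 := hSn g hgw _ hx
    have h4 : g * (g⁻¹ * x * g) * g⁻¹ = x := by group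
    rwa [h4] at h3
  · intro hx
    have h3 := hSn g⁻¹ hgw' x hx
    rwa [inv_inv] at h3

theorem card_ne_zero' (A : Type) [AddGroup A] [Finite A] :
    Nat.card {a : A // a ≠ 0} = Nat.card A - 1 := by
  classical
  have : Fintype A := Fintype.ofFinite A
  rw [Nat.card_eq_fintype_card, Nat.card_eq_fintype_card]
  exact Set.card_ne_eq (0 : A)

end UCTM

open UCTM UIVM in
theorem specUCT (hUSY : SpecUSY) (hUCM : SpecUCM) : SpecUCT := by
  classical
  intro H X _ _ _ p C T v D R H1 dl h hF htop r hr S hSR hS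
  have hfin : Finite H := h.ts.finH
  have hfinX : Finite X := h.ts.finX
  have hntX : Nontrivial X := h.ts.ntX
  have hDab : ∀ x ∈ D, ∀ y ∈ D, x * y = y * x := UCMM.D_comm h
  obtain ⟨hU1, -, -⟩ := hUSY H X p C T v D R H1 dl h
  obtain ⟨-, -, hcm⟩ := hUCM H X p C T v D R H1 dl h htop
  obtain ⟨hrp, S0, hS0R, hS0, hcS0, -⟩ := h.syl r hr
  have hFr : Fact r.Prime := ⟨hrp⟩
  -- `S` is the subgroup of `syl`
  have hSS0 : S = S0 := by
    have h1 : SylIn r R S := (CO.specSYL H r hrp).2.2.2.1 ⊤ _ _ hS hSR le_top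
    have h2 : SylIn r R S0 := (CO.specSYL H r hrp).2.2.2.1 ⊤ _ _ hS0 hS0R le_top
    obtain ⟨g, hg, hgS⟩ := (CO.specSYL H r hrp).2.2.1 _ _ _ h2 h1
    have hcj : ∀ x ∈ R, g⁻¹ * x * g = x := by
      intro x hx
      rw [mul_assoc, h.Rab x hx g hg, inv_mul_cancel_left]
    ext x
    constructor
    · intro hx
      have := (hgS x).1 hx
      rwa [hcj x (hSR hx)] at this
    · intro hx
      rw [hgS, hcj x (hS0R hx)]
      exact hx
  have hcS : Nat.card S = r := by rw [hSS0, hcS0]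
  have hDr : ¬ r ∣ Nat.card D := (h.cop r hr).1
  have hSD : Nrm S D := fun s _ d hd => h.Dn.conj_mem d hd s
  have hSv : ∀ s ∈ S, s • v = v := fun s hs => h.Rv s (hSR hs)
  have hDS : ∀ z, z ∈ D → z ∈ S → z = 1 := by
    intro z hzD hzS
    have h1 := h.unq z hzD z⁻¹ (R.inv_mem (hSR hzS)) 1 H1.one_mem (by rw [mul_inv_cancel, one_mul])
    exact h1.1
  have hwit : ∀ w : X, w ≠ 0 → ∃ Q, MiH C w r Q := by
    intro w hw
    have : r ∈ kM C T w := by
      rw [(hcm w hw).1]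
      exact hr
    exact (mem_kM.1 this).2
  have huniq : ∀ w : X, w ≠ 0 → ∀ P Q : Subgroup H, SylIn r ⊤ P → SylIn r ⊤ Q →
      (∀ x ∈ P, x • w = w) → (∀ x ∈ Q, x • w = w) → ∀ x, x ∈ P ↔ x ∈ Q := by
    intro w hw P Q hP hQ hPw hQw x
    obtain ⟨W, hW⟩ := hwit w hw
    rw [uniq hrp hW hP hPw, uniq hrp hW hQ hQw]
  constructor
  · -- the bijection
    rw [← card_ne_zero' X, ← card_ne_zero' (FixY X S), ← Nat.card_prod]
    refine (Nat.card_congr (Equiv.ofBijective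
      (fun q : (⁅D, S⁆ : Subgroup H) × {u : FixY X S // u ≠ 0} =>
        (⟨(q.1 : H) • (q.2.1 : X), fun h0 => q.2.2 (Subtype.ext (by
          rw [smul_eq_zero_iff_eq] at h0
          exact h0))⟩ : {w : X // w ≠ 0})) ⟨?_, ?_⟩)).symm
    · rintro ⟨⟨e, he⟩, ⟨⟨u, hu⟩, hu0⟩⟩ ⟨⟨e', he'⟩, ⟨⟨u', hu'⟩, hu0'⟩⟩ heq
      have heq' : e • u = e' • u' := congrArg Subtype.val heq
      have hu1 : ∀ s ∈ S, s • u = u := hu
      have hu1' : ∀ s ∈ S, s • u' = u' := hu'
      have hu0'' : u' ≠ 0 := fun h0 => hu0' (Subtype.ext h0)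
      have hED : ⁅D, S⁆ ≤ D := comm_le hSD
      have hcE : e'⁻¹ * e ∈ (⁅D, S⁆ : Subgroup H) :=
        Subgroup.mul_mem _ (Subgroup.inv_mem _ he') he
      have hcu : (e'⁻¹ * e) • u = u' := by rw [mul_smul, heq', inv_smul_smul]
      set c := e'⁻¹ * e with hc
      have hcD : c ∈ D := hED hcE
      -- the conjugate of `S`
      obtain ⟨P, hP⟩ : ∃ P : Subgroup H, ∀ x, x ∈ P ↔ c⁻¹ * x * c ∈ S :=
        ⟨{ carrier := {x | c⁻¹ * x * c ∈ S}
           one_mem' := by simp [S.one_mem]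
           mul_mem' := fun {a b} ha hb => by
            have h1 := S.mul_mem ha hb
            have h2 : c⁻¹ * a * c * (c⁻¹ * b * c) = c⁻¹ * (a * b) * c := by group
            rwa [h2] at h1
           inv_mem' := fun {a} ha => by
            have h1 := S.inv_mem ha
            have h2 : (c⁻¹ * a * c)⁻¹ = c⁻¹ * a⁻¹ * c := by group
            rwa [h2] at h1 }, fun x => Iff.rfl⟩
      have hPS : SylIn r ⊤ P := (CO.specSYL H r hrp).2.2.2.2.2.1 ⊤ S P hS c (Subgroup.mem_top c) hP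
      have hPu : ∀ x ∈ P, x • u' = u' := by
        intro x hx
        have h1 := hu1 _ ((hP x).1 hx)
        rw [← hcu]
        calc x • c • u = c • (c⁻¹ * x * c) • u := by
              rw [smul_smul, smul_smul]; congr 1; group
          _ = c • u := by rw [h1]
      have hPQ := huniq u' hu0'' P S hPS hS hPu hu1'
      have hcC : ∀ s ∈ S, c * s * c⁻¹ * s⁻¹ = 1 := by
        intro s hs
        apply hDS
        · have h1 := h.Dn.conj_mem c⁻¹ (D.inv_mem hcD) s
          have h2 := D.mul_mem hcD h1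
          have h3 : c * (s * c⁻¹ * s⁻¹) = c * s * c⁻¹ * s⁻¹ := by group
          rwa [h3] at h2
        · have h1 : c * s * c⁻¹ ∈ P := by
            rw [hP]
            have : c⁻¹ * (c * s * c⁻¹) * c = s := by group
            rw [this]
            exact hs
          exact S.mul_mem ((hPQ _).1 h1) (S.inv_mem hs)
      have hcCK : c ∈ CK D S := by
        rw [mem_CK]
        refine ⟨hcD, fun s hs => ?_⟩
        have h1 := hcC s hs
        have h2 : c * s = s * c := by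
          rw [mul_inv_eq_one, mul_inv_eq_iff_eq_mul] at h1
          exact h1
        exact h2.symm
      have hc1 : c = 1 := by
        have h1 : c ∈ ⁅D, S⁆ ⊓ CK D S := ⟨hcE, hcCK⟩
        rw [comm_inf_cen hrp hSD hS.2.1 hDr hDab, Subgroup.mem_bot] at h1
        exact h1
      have hee : e = e' := (inv_mul_eq_one.1 (hc ▸ hc1)).symm
      have huu : u = u' := by
        rw [← hcu, hc1, one_smul]
      subst hee
      subst huu
      rfl
    · rintro ⟨w, hw⟩
      obtain ⟨Q, hQ⟩ := hwit w hw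
      obtain ⟨d, hd, hdS⟩ := hU1 r hr S Q hSR hS hQ.1
      obtain ⟨e, he, c, hc, hec⟩ := mem_comm_mul hrp hSD hS.2.1 hDr hd
      rw [mem_CK] at hc
      have hu : ∀ s ∈ S, s • d⁻¹ • w = d⁻¹ • w := by
        intro s hs
        have h1 : d * s * d⁻¹ ∈ Q := by
          rw [hdS]
          have : d⁻¹ * (d * s * d⁻¹) * d = s := by group
          rw [this]
          exact hs
        have h2 := hQ.2.2.2.1 _ h1
        calc s • d⁻¹ • w = d⁻¹ • (d * s * d⁻¹) • w := by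
              rw [smul_smul, smul_smul]; congr 1; group
          _ = d⁻¹ • w := by rw [h2]
      have hcs : ∀ s ∈ S, s * c = c * s := hc.2
      have hu2 : ∀ s ∈ S, s • c • d⁻¹ • w = c • d⁻¹ • w := by
        intro s hs
        rw [smul_smul, hcs s hs, mul_smul, hu s hs]
      refine ⟨⟨⟨e, he⟩, ⟨⟨c • d⁻¹ • w, hu2⟩, fun h0 => hw ?_⟩⟩, ?_⟩
      · have h1 : c • d⁻¹ • w = 0 := congrArg Subtype.val h0
        rw [smul_eq_zero_iff_eq, smul_eq_zero_iff_eq] at h1
        exact h1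
      · apply Subtype.ext
        show e • c • d⁻¹ • w = w
        rw [smul_smul, hec, smul_inv_smul]
  · -- the field
    have hdl : dl ∈ D := by
      rw [h.Dg]
      exact Subgroup.mem_zpowers dl
    have hcomm := UFBM.end_comm (X := X) hDab
    have hfield : IsField (Fd X D) := by
      refine ⟨⟨0, 1, ?_⟩, fun a b => Subtype.ext (hcomm a.1 a.2 b.1 b.2), ?_⟩
      · intro h01
        obtain ⟨x, hx⟩ := exists_ne (0 : X)
        have h1 : (0 : AddMonoid.End X) = 1 := congrArg Subtype.val h01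
        exact hx (DFunLike.congr_fun h1 x).symm
      · intro a ha
        obtain ⟨n, hn, h1⟩ := hF a.1 a.2 (fun h0 => ha (Subtype.ext h0))
        obtain ⟨m, rfl⟩ : ∃ m, n = m + 1 := ⟨n - 1, by omega⟩
        refine ⟨a ^ m, Subtype.ext ?_⟩
        rw [← pow_succ']
        exact h1
    let _ : Field (Fd X D) := hfield.toField
    have hfinF : Finite (Fd X D) := by
      have : Finite (AddMonoid.End X) :=
        Finite.of_injective (fun f : AddMonoid.End X => (f : X → X)) DFunLike.coe_injective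
      infer_instance
    -- the generator
    obtain ⟨s0, hs0S, hs01⟩ : ∃ s ∈ S, s ≠ 1 := by
      by_contra hcon
      push Not at hcon
      have h1 : S = ⊥ := (Subgroup.eq_bot_iff_forall S).mpr hcon
      rw [h1, Subgroup.card_bot] at hcS
      exact hrp.one_lt.ne hcS
    have hgen : ∀ s ∈ S, ∃ n : ℤ, s0 ^ n = s := by
      intro s hs
      have h1 : (⟨s, hs⟩ : S) ∈ Subgroup.zpowers (⟨s0, hs0S⟩ : S) :=
        mem_zpowers_of_prime_card hcS (fun h0 => hs01 (congrArg Subtype.val h0))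
      obtain ⟨n, hn⟩ := Subgroup.mem_zpowers_iff.1 h1
      exact ⟨n, congrArg Subtype.val hn⟩
    have hs0r : s0 ^ r = 1 := by
      have h1 : (⟨s0, hs0S⟩ : S) ^ Nat.card S = 1 := pow_card_eq_one'
      rw [hcS] at h1
      exact congrArg Subtype.val h1
    let σ : Fd X D ≃+* Fd X D :=
      { toFun := fun a => ⟨sg s0 a.1, sg_mem h.Dn s0 a.2⟩
        invFun := fun a => ⟨sg s0⁻¹ a.1, sg_mem h.Dn s0⁻¹ a.2⟩
        left_inv := fun a => Subtype.ext (by
          show sg s0⁻¹ (sg s0 a.1) = a.1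
          rw [← sg_sg, inv_mul_cancel, sg_eq_one'])
        right_inv := fun a => Subtype.ext (by
          show sg s0 (sg s0⁻¹ a.1) = a.1
          rw [← sg_sg, mul_inv_cancel, sg_eq_one'])
        map_mul' := fun a b => Subtype.ext (sg_mul s0 a.1 b.1)
        map_add' := fun a b => Subtype.ext (by
          show sg s0 (a.1 + b.1) = sg s0 a.1 + sg s0 b.1
          unfold sg
          rw [mul_add, add_mul]) }
    have hσ : ∀ a : Fd X D, (σ a).1 = sg s0 a.1 := fun a => rfl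
    have hσpow : ∀ n : ℕ, ∀ a : Fd X D, ((σ ^ n) a).1 = sg (s0 ^ n) a.1 := by
      intro n
      induction n with
      | zero => intro a; rw [pow_zero, pow_zero, sg_eq_one']; rfl
      | succ n ih =>
        intro a
        rw [pow_succ, pow_succ, sg_sg, ← hσ, ← ih]
        rfl
    have hord : orderOf σ = r := by
      apply orderOf_eq_prime
      · refine RingEquiv.ext fun a => Subtype.ext ?_
        rw [hσpow, hs0r, sg_eq_one']
        rfl
      · intro h1
        have h2 : sg s0 (te X dl) = te X dl := by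
          have := congrArg (fun τ : Fd X D ≃+* Fd X D => (τ ⟨te X dl, te_mem hdl⟩).1) h1
          exact this
        rw [sg_te] at h2
        have h3 : ∀ x : X, (s0 * dl * s0⁻¹) • x = dl • x := fun x => DFunLike.congr_fun h2 x
        have h4 : dl⁻¹ * (s0 * dl * s0⁻¹) = 1 := by
          refine h.ts.faith _ (h.DC (D.mul_mem (D.inv_mem hdl) (h.Dn.conj_mem dl hdl s0)))
            (fun x => ?_)
          rw [mul_smul, h3, inv_smul_smul]
        have h5 : dl = s0 * dl * s0⁻¹ := inv_mul_eq_one.1 h4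
        apply hs01
        apply h.mov s0 (hSR hs0S)
        nth_rewrite 2 [h5]
        group
    have hffa := ((CO.specFFA (Fd X D)).2.2 σ).1
    rw [hord] at hffa
    -- evaluation at `v`
    have hinj : ∀ a b : Fd X D, a.1 v = b.1 v → a = b := by
      intro a b hab
      by_contra hne
      have h1 : a.1 - b.1 ≠ 0 := fun h0 => hne (Subtype.ext (sub_eq_zero.1 h0))
      exact h.v0 (inj_of hF ((Fd X D).sub_mem a.2 b.2) h1 (by
        rw [sub_apply', hab, sub_self]))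
    have hsurj : ∀ x : X, ∃ a : Fd X D, a.1 v = x := by
      intro x
      obtain ⟨a, ha, hax⟩ := UCMM.exists_end (D := D) (v := v) (x := x) (by
        rw [htop]
        exact AddSubgroup.mem_top x)
      exact ⟨⟨a, ha⟩, hax⟩
    have hc1 : Nat.card (Fd X D) = Nat.card X :=
      Nat.card_congr (Equiv.ofBijective (fun a : Fd X D => a.1 v) ⟨fun a b hab => hinj a b hab,
        hsurj⟩)
    have hfixiff : ∀ a : Fd X D, σ a = a ↔ ∀ s ∈ S, s • a.1 v = a.1 v := by
      intro a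
      constructor
      · intro ha s hs
        obtain ⟨n, rfl⟩ := hgen s hs
        have h1 : s0 • a.1 v = a.1 v := by
          rw [sg_smul, hSv s0 hs0S, ← hσ, ha]
        have h2 : s0 ∈ MulAction.stabilizer H (a.1 v) := h1
        exact (MulAction.stabilizer H (a.1 v)).zpow_mem h2 n
      · intro ha
        apply hinj
        rw [hσ]
        have h1 := ha s0 hs0S
        rw [sg_smul, hSv s0 hs0S] at h1
        exact h1
    have hc2 : Nat.card {y : Fd X D // σ y = y} = Nat.card (FixY X S) :=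
      Nat.card_congr (Equiv.ofBijective
        (fun a : {y : Fd X D // σ y = y} => (⟨a.1.1 v, (hfixiff a.1).1 a.2⟩ : FixY X S))
        ⟨fun a b hab => Subtype.ext (hinj _ _ (congrArg Subtype.val hab)), fun u => by
          obtain ⟨a, ha⟩ := hsurj u.1
          refine ⟨⟨a, (hfixiff a).2 ?_⟩, Subtype.ext ha⟩
          rw [ha]
          exact u.2⟩)
    rw [hc1, hc2] at hffa
    exact hffa

end Pool.Agent.Lib.MPbe1941.X
end
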