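import Pool.Agent.Lib.MP_be1941_al.X.REL
import Pool.Agent.Lib.MP_be1941_al.X.UCT
import Pool.Agent.Lib.MP_be1941_al.X.IRX

section
/-!
# MP_be1941_al, exact bound, reduction: minimal normal subgroups for a set `Θ` of primes

(The same as in RD/Claim.lean, with membership in the set `Θ` instead of being large.)
-/
set_option autoImplicit false

namespace Pool.Agent.Lib.MPbe1941.XF.RE

open Subgroup RD
open scoped commutatorElement

variable {G : Type} [Group G]

/-- `P` is a normal Sylow `r`-subgroup, `r ∈ Θ`. -/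
def SylT (Θ : Finset ℕ) (r : ℕ) (P : Subgroup G) : Prop :=
  r ∈ Θ ∧ P.Normal ∧ IsPGroup r P ∧ ¬ r ∣ P.index

/-- The conclusion of (1a). -/
def ClT (G : Type) [Group G] (Θ : Finset ℕ) : Prop :=
  ∀ N : Subgroup G, MinN N → (∃ K : Subgroup G, N ⊓ K = ⊥ ∧ N ⊔ K = ⊤) ∨
    ∃ (r : ℕ) (P : Subgroup G), SylT Θ r P ∧ ⁅P, P⁆ = N

/-- (1a). -/
theorem cl_of [Finite G] (hs : Group.IsSolvable G) {Θ : Finset ℕ} (hΘ : ∀ r ∈ Θ, r.Prime)
    (hbad : ∀ r ∈ Θ, ¬ NAS G r)
    (hstar : ∀ N : Subgroup G, ∀ _ : N.Normal, N ≠ ⊥ → ∃ r ∈ Θ, NAS (G ⧸ N) r) : ClT G Θ := by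
  intro N hN
  have hNn : N.Normal := hN.1
  obtain ⟨hNc, l, hl, hNl⟩ := minN_abel hs hN
  obtain ⟨r, hrL, h2⟩ := hstar N hNn hN.2.1
  have hrn := hbad r hrL
  have hr : r.Prime := hΘ r hrL
  have : Fact r.Prime := ⟨hr⟩
  obtain ⟨Q, hQn, hQc, hQp, hQi⟩ := h2
  have hsurj : Function.Surjective (QuotientGroup.mk' N) := QuotientGroup.mk'_surjective N
  let M : Subgroup G := Q.comap (QuotientGroup.mk' N)
  have hM : M.Normal := hQn.comap _
  have hNM : N ≤ M := by
    intro x hx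
    have h3 : QuotientGroup.mk' N x = 1 := (QuotientGroup.eq_one_iff x).2 hx
    change QuotientGroup.mk' N x ∈ Q
    rw [h3]
    exact Q.one_mem
  have hMi : ¬ r ∣ M.index := by
    have h3 : M.index = Q.index := Subgroup.index_comap_of_surjective Q hsurj
    rw [h3]
    exact hQi
  have hMc : ∀ x ∈ M, ∀ y ∈ M, ⁅x, y⁆ ∈ N := by
    intro x hx y hy
    rw [← QuotientGroup.eq_one_iff]
    have h3 := hQc _ hx _ hy
    change QuotientGroup.mk' N ⁅x, y⁆ = 1
    rw [map_commutatorElement]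
    exact commutatorElement_eq_one_iff_mul_comm.2 h3
  have hMp : ∀ x ∈ M, ∃ k, x ^ r ^ k ∈ N := by
    intro x hx
    obtain ⟨k, hk⟩ := pgroup_mem hQp hx
    refine ⟨k, ?_⟩
    rw [← QuotientGroup.eq_one_iff]
    rw [← map_pow] at hk
    exact hk
  have hMr : ∃ k, N.relIndex M = r ^ k := by
    have h3 : N.relIndex M = Nat.card Q := by
      have h4 := Subgroup.relIndex_ker (QuotientGroup.mk' N) (K := M)
      rw [QuotientGroup.ker_mk'] at h4
      rw [h4, Subgroup.map_comap_eq_self_of_surjective hsurj]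
    rw [h3]
    exact IsPGroup.iff_card.1 hQp
  by_cases hlr : l = r
  · right
    refine ⟨r, M, ⟨hrL, hM, ?_, hMi⟩, ?_⟩
    · apply pgroup_of
      intro x hx
      obtain ⟨k, hk⟩ := hMp x hx
      refine ⟨k + 1, ?_⟩
      rw [pow_succ, pow_mul]
      rw [hlr] at hNl
      exact hNl _ hk
    · have h3 : ⁅M, M⁆ ≤ N := by
        rw [Subgroup.commutator_le]
        exact hMc
      rcases hN.2.2 ⁅M, M⁆ inferInstance h3 with h | h
      · exfalso
        apply hrn
        refine ⟨M, hM, ?_, ?_, hMi⟩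
        · intro x hx y hy
          have h4 : ⁅x, y⁆ ∈ ⁅M, M⁆ := Subgroup.commutator_mem_commutator hx hy
          rw [h, Subgroup.mem_bot] at h4
          exact commutatorElement_eq_one_iff_mul_comm.1 h4
        · apply pgroup_of
          intro x hx
          obtain ⟨k, hk⟩ := hMp x hx
          refine ⟨k + 1, ?_⟩
          rw [pow_succ, pow_mul]
          rw [hlr] at hNl
          exact hNl _ hk
      · exact h
  · left
    exact cl_case_ne hN hNc hl hNl hr hlr hrn hM hNM hMi hMc hMp hMr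

/-- (1b). -/
theorem comm_minN [Finite G] {Θ : Finset ℕ} (hΘ : ∀ r ∈ Θ, r.Prime) (hcl : ClT G Θ) {r : ℕ} {P : Subgroup G} (hP : SylT Θ r P)
    (hne : ⁅P, P⁆ ≠ ⊥) : MinN ⁅P, P⁆ ∧ ∀ x ∈ ⁅P, P⁆, ∀ y ∈ P, x * y = y * x := by
  obtain ⟨hL, hPn, hPp, hPi⟩ := hP
  have hr : r.Prime := hΘ r hL
  obtain ⟨N, hN, hNP⟩ := exists_minN _ ⁅P, P⁆ rfl inferInstance hne
  have hNP' : N ≤ P := hNP.trans (Subgroup.commutator_le_left P P)
  have hcen := minN_central hr hN hPn hPp hNP'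
  suffices h : N = ⁅P, P⁆ by
    rw [← h]
    exact ⟨hN, hcen⟩
  rcases hcl N hN with ⟨K, hK1, hK2⟩ | ⟨r', P', hP', hNP2⟩
  · exact (not_compl hN.1 hN.2.1 hNP hPn hcen hK1 hK2).elim
  · have hNle : N ≤ P' := by
      have hPn' : P'.Normal := hP'.2.1
      rw [← hNP2]
      exact Subgroup.commutator_le_left P' P'
    have hrr : r = r' := by
      by_contra hrr
      apply hN.2.1
      rw [Subgroup.eq_bot_iff_forall]
      intro x hx
      obtain ⟨a, ha⟩ := pgroup_mem hPp (hNP' hx)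
      obtain ⟨b, hb⟩ := pgroup_mem hP'.2.2.1 (hNle hx)
      exact eq_one_of_pow hr (hΘ _ hP'.1) hrr ha hb
    subst hrr
    have h1 : P' = P := le_antisymm (le_of_sylow hr hPn hPi hP'.2.2.1)
      (le_of_sylow hr hP'.2.1 hP'.2.2.2 hPp)
    rw [← hNP2, h1]

/-- (1c). -/
theorem cop_abel [Finite G] (hs : Group.IsSolvable G) {Θ : Finset ℕ} (hΘ : ∀ r ∈ Θ, r.Prime) (hcl : ClT G Θ) {l : ℕ} (hl : l.Prime)
    (hno : ∀ P : Subgroup G, SylT Θ l P → ⁅P, P⁆ = ⊥)
    {O : Subgroup G} (hO : O.Normal) (hOp : IsPGroup l O) :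
    (∀ x ∈ O, ∀ y ∈ O, x * y = y * x) ∧ ∀ x ∈ O, x ^ l = 1 := by
  have hcompl : ∀ N : Subgroup G, MinN N → N ≤ O → ∃ K : Subgroup G, N ⊓ K = ⊥ ∧ N ⊔ K = ⊤ := by
    intro N hN hNO
    rcases hcl N hN with h | ⟨r', P', hP', hNP2⟩
    · exact h
    · exfalso
      have hNle : N ≤ P' := by
        have hPn' : P'.Normal := hP'.2.1
        rw [← hNP2]
        exact Subgroup.commutator_le_left P' P'
      have hrr : l = r' := by
        by_contra hrr
        apply hN.2.1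
        rw [Subgroup.eq_bot_iff_forall]
        intro x hx
        obtain ⟨a, ha⟩ := pgroup_mem hOp (hNO hx)
        obtain ⟨b, hb⟩ := pgroup_mem hP'.2.2.1 (hNle hx)
        exact eq_one_of_pow hl (hΘ _ hP'.1) hrr ha hb
      subst hrr
      apply hN.2.1
      rw [← hNP2]
      exact hno P' hP'
  have hc : ∀ x ∈ O, ∀ y ∈ O, x * y = y * x := by
    have h1 : ⁅O, O⁆ = ⊥ := by
      by_contra hne
      obtain ⟨N, hN, hNO⟩ := exists_minN _ ⁅O, O⁆ rfl inferInstance hne
      have hNO' : N ≤ O := hNO.trans (Subgroup.commutator_le_left O O)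
      obtain ⟨K, hK1, hK2⟩ := hcompl N hN hNO'
      exact not_compl hN.1 hN.2.1 hNO hO (minN_central hl hN hO hOp hNO') hK1 hK2
    intro x hx y hy
    have h4 : ⁅x, y⁆ ∈ ⁅O, O⁆ := Subgroup.commutator_mem_commutator hx hy
    rw [h1, Subgroup.mem_bot] at h4
    exact commutatorElement_eq_one_iff_mul_comm.1 h4
  refine ⟨hc, ?_⟩
  have h1 : powSub O hc l = ⊥ := by
    by_contra hne
    obtain ⟨N, hN, hNO⟩ := exists_minN _ (powSub O hc l) rfl (powSub_normal hO hc l) hne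
    have := hN.1
    have hNO' : N ≤ O := hNO.trans (powSub_le hc l)
    obtain ⟨K, hK1, hK2⟩ := hcompl N hN hNO'
    obtain ⟨_, l', hl', hNl⟩ := minN_abel hs hN
    have hll : ∀ x ∈ N, x ^ l = 1 := by
      intro x hx
      obtain ⟨a, ha⟩ := pgroup_mem hOp (hNO' hx)
      by_cases h : l' = l
      · rw [← h]
        exact hNl x hx
      · have := eq_one_of_pow hl' hl h (a := 1) (by rw [pow_one]; exact hNl x hx) ha
        rw [this, one_pow]
    have hle : powSub O hc l ≤ K := by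
      rintro _ ⟨x, hx, rfl⟩
      have hxm : x ∈ N ⊔ K := by rw [hK2]; exact Subgroup.mem_top x
      obtain ⟨n, hn, k, hk, rfl⟩ := Subgroup.mem_sup_of_normal_left.1 hxm
      have hkO : k ∈ O := by
        have := O.mul_mem (O.inv_mem (hNO' hn)) hx
        simpa using this
      have hcm : Commute n k := hc n (hNO' hn) k hkO
      rw [hcm.mul_pow, hll n hn, one_mul]
      exact K.pow_mem hk l
    apply hN.2.1
    rw [← hK1]
    exact (inf_eq_left.2 (hNO.trans hle)).symm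
  intro x hx
  have h2 : x ^ l ∈ powSub O hc l := ⟨x, hx, rfl⟩
  rw [h1, Subgroup.mem_bot] at h2
  exact h2

end Pool.Agent.Lib.MPbe1941.XF.RE
end

section
/-!
# MP_be1941_al, exact bound, reduction: the structure of a minimal counterexample

`SplitT`: as `IsSplit`, for a set `Θ` of primes instead of the large primes. (The proof is the one of
`RD/Red.lean`.)
-/
set_option autoImplicit false

namespace Pool.Agent.Lib.MPbe1941.XF.RE

open Pool.Agent.Lib.MPbe1941
open Subgroup RD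
open scoped commutatorElement

/-- `G = (U × ∏ P i) ⋊ H`. -/
structure SplitT {G : Type} [Group G] (Θ : Finset ℕ) {ι : Type} (pr : ι → ℕ)
    (P : ι → Subgroup G) (U H : Subgroup G) : Prop where
  prime : ∀ i, (pr i).Prime
  mem : ∀ i, pr i ∈ Θ
  inj : Function.Injective pr
  Pn : ∀ i, (P i).Normal
  Pp : ∀ i, IsPGroup (pr i) (P i)
  Pi : ∀ i, ¬ pr i ∣ (P i).index
  Un : U.Normal
  Uc : ∀ x ∈ U, ∀ y ∈ U, x * y = y * x
  Usf : ∃ N : ℕ, Squarefree N ∧ ∀ x ∈ U, x ^ N = 1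
  Ucop : ∀ i, ¬ pr i ∣ Nat.card U
  Ucr : ∀ N : Subgroup G, N.Normal → N ≤ U →
    ∃ N' : Subgroup G, N'.Normal ∧ N' ≤ U ∧ N ⊓ N' = ⊥ ∧ N ⊔ N' = U
  cen : ∀ i, ∀ x ∈ ⁅P i, P i⁆, ∀ y ∈ P i, x * y = y * x
  nab : ∀ i, ⁅P i, P i⁆ ≠ ⊥
  mn : ∀ i, ∀ N : Subgroup G, N.Normal → N ≤ ⁅P i, P i⁆ → N = ⊥ ∨ N = ⁅P i, P i⁆
  sol : Group.IsSolvable G
  cop : ∀ i, ¬ pr i ∣ Nat.card H
  sup : (⨆ i, P i) ⊔ U ⊔ H = ⊤
  inf : ((⨆ i, P i) ⊔ U) ⊓ H = ⊥
  faith : ∀ h ∈ H, (∀ i, ∀ x ∈ P i, h * x = x * h) → (∀ x ∈ U, h * x = x * h) → h = 1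
  fit : ∀ (l : ℕ) (O : Subgroup G), l.Prime → O.Normal → IsPGroup l O → O ≤ (⨆ i, P i) ⊔ U
  ord : ∀ q : ℕ, q.Prime → q ∣ Nat.card (⨆ i, P i : Subgroup G) → ∃ i, q = pr i
  cl : ClT G Θ
  cov : ∀ r ∈ Θ, (∃ i, r = pr i) ∨ r ∣ Nat.card H

theorem split_of {G : Type} [Group G] [Finite G] (hs : Group.IsSolvable G) {Θ : Finset ℕ}
    (hΘ : ∀ r ∈ Θ, r.Prime) (hbad : ∀ r ∈ Θ, ¬ NAS G r)
    (hstar : ∀ N : Subgroup G, ∀ _ : N.Normal, N ≠ ⊥ → ∃ r ∈ Θ, NAS (G ⧸ N) r) :
    ∃ (ι : Type) (_ : Finite ι) (pr : ι → ℕ) (P : ι → Subgroup G) (U H : Subgroup G),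
      SplitT Θ pr P U H := by
  classical
  have hcl : ClT G Θ := cl_of hs hΘ hbad hstar
  let BAD : ℕ → Prop := fun q => ∃ P : Subgroup G, SylT Θ q P ∧ ⁅P, P⁆ ≠ ⊥
  let ι : Type := {r : ℕ // BAD r}
  let pr : ι → ℕ := Subtype.val
  let P : ι → Subgroup G := fun i => i.2.choose
  have hP : ∀ i : ι, SylT Θ (pr i) (P i) ∧ ⁅P i, P i⁆ ≠ ⊥ := fun i => i.2.choose_spec
  have hprime : ∀ i, (pr i).Prime := fun i => hΘ _ (hP i).1.1
  have hPn : ∀ i, (P i).Normal := fun i => (hP i).1.2.1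
  have hPp : ∀ i, IsPGroup (pr i) (P i) := fun i => (hP i).1.2.2.1
  have hPi : ∀ i, ¬ pr i ∣ (P i).index := fun i => (hP i).1.2.2.2
  have hfin : Finite ι := by
    have h1 : ∀ i : ι, pr i ∈ (Nat.card G).primeFactors := by
      intro i
      rw [Nat.mem_primeFactors]
      refine ⟨hprime i, ?_, Nat.card_pos.ne'⟩
      have : Fact (pr i).Prime := ⟨hprime i⟩
      obtain ⟨k, hk⟩ := IsPGroup.iff_card.1 (hPp i)
      rcases Nat.eq_zero_or_pos k with h0 | h0
      · exfalso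
        rw [h0, pow_zero] at hk
        have h2 : P i = ⊥ := Subgroup.card_eq_one.1 hk
        apply (hP i).2
        rw [h2, Subgroup.commutator_bot_left]
      · have h3 : pr i ∣ Nat.card (P i) := by
          rw [hk]
          exact dvd_pow_self _ h0.ne'
        exact h3.trans (Subgroup.card_subgroup_dvd_card (P i))
    exact Finite.of_injective (fun i : ι => (⟨pr i, h1 i⟩ : (Nat.card G).primeFactors))
      (fun i j hij => by
        have h2 : pr i = pr j := congrArg (fun x : (Nat.card G).primeFactors => (x : ℕ)) hij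
        exact Subtype.ext h2)
  have : Fintype ι := Fintype.ofFinite ι
  -- the group U
  have hnb : ∀ l : ℕ, ¬ BAD l → ∀ P : Subgroup G, SylT Θ l P → ⁅P, P⁆ = ⊥ := by
    intro l hl P hP
    by_contra h
    exact hl ⟨P, hP, h⟩
  let S : Set (Subgroup G) := {O | O.Normal ∧ ∃ l : ℕ, l.Prime ∧ ¬ BAD l ∧ IsPGroup l O}
  let U : Subgroup G := sSup S
  have hSn : ∀ O ∈ S, O.Normal := fun O hO => hO.1
  have hUn : U.Normal := Subgroup.sSup_normal S hSn
  have hSc : ∀ O ∈ S, ∀ O' ∈ S, O ≤ centralizer (O' : Set G) := by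
    rintro O ⟨hO, l, hl, hlb, hlO⟩ O' ⟨hO', l', hl', hlb', hlO'⟩
    have := hO
    have := hO'
    by_cases hll : l = l'
    · subst hll
      have h1 : IsPGroup l (O ⊔ O' : Subgroup G) := IsPGroup.to_sup_of_normal_left hlO hlO'
      obtain ⟨h2, -⟩ := cop_abel hs hΘ hcl hl (hnb l hlb) (Subgroup.sup_normal O O') h1
      intro x hx
      rw [Subgroup.mem_centralizer_iff]
      intro y hy
      exact h2 y ((le_sup_right : O' ≤ O ⊔ O') hy) x ((le_sup_left : O ≤ O ⊔ O') hx)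
    · have h1 : Disjoint O O' := by
        rw [disjoint_iff, Subgroup.eq_bot_iff_forall]
        rintro x ⟨hx, hx'⟩
        obtain ⟨a, ha⟩ := pgroup_mem hlO hx
        obtain ⟨b, hb⟩ := pgroup_mem hlO' hx'
        exact eq_one_of_pow hl hl' hll ha hb
      intro x hx
      rw [Subgroup.mem_centralizer_iff]
      intro y hy
      exact (Subgroup.commute_of_normal_of_disjoint O O' hO hO' h1 x y hx hy).eq.symm
  have hUc : ∀ x ∈ U, ∀ y ∈ U, x * y = y * x := by
    have h1 : U ≤ centralizer (U : Set G) := by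
      apply sSup_le
      intro O hO
      rw [Subgroup.le_centralizer_iff]
      apply sSup_le
      intro O' hO'
      exact hSc O' hO' O hO
    intro x hx y hy
    exact (Subgroup.mem_centralizer_iff.1 (h1 hx) y hy).symm
  let T : Finset ℕ := (Nat.card G).primeFactors.filter (fun q => ¬ BAD q)
  let N : ℕ := ∏ q ∈ T, q
  have hNsf : Squarefree N := by
    apply Finset.squarefree_prod_of_pairwise_isCoprime
    · intro p hp q hq hpq
      have hp1 : p.Prime := Nat.prime_of_mem_primeFactors (Finset.mem_filter.1 hp).1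
      have hq1 : q.Prime := Nat.prime_of_mem_primeFactors (Finset.mem_filter.1 hq).1
      change IsRelPrime p q
      exact Nat.coprime_iff_isRelPrime.1 ((Nat.coprime_primes hp1 hq1).2 hpq)
    · intro q hq
      exact (Nat.prime_of_mem_primeFactors (Finset.mem_filter.1 hq).1).prime.squarefree
  have hUexp : ∀ x ∈ U, x ^ N = 1 := by
    have h1 : U ≤ expSub U hUc N := by
      apply sSup_le
      intro O hO x hx
      refine ⟨(le_sSup hO : O ≤ U) hx, ?_⟩
      obtain ⟨hO', l, hl, hlb, hlO⟩ := hO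
      obtain ⟨-, h3⟩ := cop_abel hs hΘ hcl hl (hnb l hlb) hO' hlO
      have h4 := h3 x hx
      by_cases hx1 : x = 1
      · rw [hx1, one_pow]
      · have h5 : orderOf x = l := by
          have h6 : orderOf x ∣ l := orderOf_dvd_of_pow_eq_one h4
          rcases (Nat.dvd_prime hl).1 h6 with h | h
          · exact absurd (orderOf_eq_one_iff.1 h) hx1
          · exact h
        have h7 : l ∈ T := by
          rw [Finset.mem_filter, Nat.mem_primeFactors]
          refine ⟨⟨hl, ?_, Nat.card_pos.ne'⟩, hlb⟩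
          rw [← h5]
          exact orderOf_dvd_natCard x
        obtain ⟨m, hm⟩ : l ∣ N := Finset.dvd_prod_of_mem (fun q => q) h7
        rw [hm, pow_mul, h4, one_pow]
    intro x hx
    exact (h1 hx).2
  have hUpr : ∀ q : ℕ, q.Prime → q ∣ Nat.card U → ¬ BAD q := by
    intro q hq hd
    have : Fact q.Prime := ⟨hq⟩
    obtain ⟨x, hx⟩ := exists_prime_orderOf_dvd_card' q hd
    have h1 : (x : G) ^ N = 1 := hUexp x x.2
    have h2 : x ^ N = 1 := Subtype.ext (by simpa using h1)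
    have h3 : q ∣ N := by
      rw [← hx]
      exact orderOf_dvd_of_pow_eq_one h2
    obtain ⟨p, hp, hqp⟩ := (Prime.dvd_finsetProd_iff hq.prime (fun q => q)).1 h3
    have hp1 : p.Prime := Nat.prime_of_mem_primeFactors (Finset.mem_filter.1 hp).1
    have h4 : q = p := (Nat.prime_dvd_prime_iff_eq hq hp1).1 hqp
    rw [h4]
    exact (Finset.mem_filter.1 hp).2
  have hminc : ∀ M : Subgroup G, MinN M → M ≤ U → ∃ K : Subgroup G, M ⊓ K = ⊥ ∧ M ⊔ K = ⊤ := by
    intro M hM hMU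
    rcases hcl M hM with h | ⟨r, Q, hQ, hQM⟩
    · exact h
    · exfalso
      have hr : r.Prime := hΘ r hQ.1
      have : Fact r.Prime := ⟨hr⟩
      have hQn : Q.Normal := hQ.2.1
      have hMQ : M ≤ Q := by
        rw [← hQM]
        exact Subgroup.commutator_le_left Q Q
      have hbad : BAD r := ⟨Q, hQ, by rw [hQM]; exact hM.2.1⟩
      obtain ⟨k, hk⟩ := IsPGroup.iff_card.1 (hQ.2.2.1.to_le hMQ)
      rcases Nat.eq_zero_or_pos k with h0 | h0
      · rw [h0, pow_zero] at hk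
        exact hM.2.1 (Subgroup.card_eq_one.1 hk)
      · have h3 : r ∣ Nat.card M := by
          rw [hk]
          exact dvd_pow_self _ h0.ne'
        exact hUpr r hr (h3.trans (Subgroup.card_dvd_of_le hMU)) hbad
  -- N0
  let N0 : Subgroup G := ⨆ i, P i
  have hN0n : N0.Normal := Subgroup.iSup_normal P
  have hN0p : ∀ q : ℕ, q.Prime → q ∣ Nat.card N0 → ∃ i, q = pr i := by
    intro q hq hd
    have h1 : (⨆ i ∈ (Finset.univ : Finset ι), P i : Subgroup G) = N0 := by simp [N0]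
    rw [← h1] at hd
    obtain ⟨i, -, hi⟩ := prime_iSup hprime hPn hPp Finset.univ q hq hd
    exact ⟨i, hi⟩
  have hN0i : ∀ i, ¬ pr i ∣ N0.index := by
    intro i hd
    exact hPi i (hd.trans (Subgroup.index_dvd_of_le (le_iSup P i)))
  have hcop0 : Nat.Coprime (Nat.card N0) N0.index := by
    apply Nat.coprime_of_dvd
    intro q hq hd hd2
    obtain ⟨i, rfl⟩ := hN0p q hq hd
    exact hN0i i hd2
  have hcopU : Nat.Coprime (Nat.card N0) (Nat.card U) := by
    apply Nat.coprime_of_dvd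
    intro q hq hd hd2
    obtain ⟨i, rfl⟩ := hN0p q hq hd
    exact hUpr _ hq hd2 i.2
  obtain ⟨L, hL⟩ := Subgroup.exists_right_complement'_of_coprime hcop0
  have hL1 : N0 ⊓ L = ⊥ := hL.disjoint.eq_bot
  have hL2 : N0 ⊔ L = ⊤ := hL.sup_eq_top
  have hLi : L.index = Nat.card N0 := by
    have h1 : Nat.card L = N0.index := card_compl hN0n hL1 hL2
    have h2 := Subgroup.card_mul_index L
    have h3 := Subgroup.card_mul_index N0
    rw [h1, ← h3, mul_comm (Nat.card N0)] at h2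
    have hpos : 0 < N0.index := Nat.pos_of_ne_zero Subgroup.FiniteIndex.index_ne_zero
    exact Nat.eq_of_mul_eq_mul_left hpos h2
  have hUL : U ≤ L := by
    apply le_of_coprime hUn
    rw [hLi]
    exact hcopU
  obtain ⟨H1, hH11, hH12⟩ := compl_of hUc hminc _ U rfl hUn le_rfl
  let H : Subgroup G := L ⊓ H1
  let F : Subgroup G := N0 ⊔ U
  have := hUn
  have hFn : F.Normal := Subgroup.sup_normal N0 U
  have hsup : F ⊔ H = ⊤ := by
    have h1 : L ≤ F ⊔ H := by
      intro l hl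
      have hlm : l ∈ U ⊔ H1 := by rw [hH12]; exact Subgroup.mem_top l
      obtain ⟨u, hu, h, hh, rfl⟩ := Subgroup.mem_sup_of_normal_left.1 hlm
      have hhL : h ∈ L := by
        have := L.mul_mem (L.inv_mem (hUL hu)) hl
        simpa using this
      exact Subgroup.mul_mem_sup ((le_sup_right : U ≤ N0 ⊔ U) hu) ⟨hhL, hh⟩
    apply top_le_iff.1
    rw [← hL2]
    exact sup_le (le_sup_left.trans le_sup_left) h1
  have hinf : F ⊓ H = ⊥ := by
    rw [Subgroup.eq_bot_iff_forall]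
    rintro x ⟨hxF, hxL, hxH⟩
    obtain ⟨n, hn, u, hu, rfl⟩ := Subgroup.mem_sup_of_normal_left.1 hxF
    have hnL : n ∈ L := by
      have := L.mul_mem hxL (L.inv_mem (hUL hu))
      simpa using this
    have hn1 : n = 1 := by
      have : n ∈ N0 ⊓ L := ⟨hn, hnL⟩
      rw [hL1, Subgroup.mem_bot] at this
      exact this
    subst hn1
    rw [one_mul] at hxH ⊢
    have : u ∈ U ⊓ H1 := ⟨hu, hxH⟩
    rw [hH11, Subgroup.mem_bot] at this
    exact this
  have hcH : Nat.card H = F.index := card_compl hFn hinf hsup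
  have hFO : ∀ (l : ℕ) (O : Subgroup G), l.Prime → O.Normal → IsPGroup l O → O ≤ F := by
    intro l O hl hO hlO
    by_cases hb : BAD l
    · exact ((le_of_sylow hl (hPn ⟨l, hb⟩) (hPi ⟨l, hb⟩) hlO).trans (le_iSup P ⟨l, hb⟩)).trans
        le_sup_left
    · have h1 : O ∈ S := ⟨hO, l, hl, hb, hlO⟩
      exact (le_sSup h1 : O ≤ U).trans le_sup_right
  have hcov : ∀ r ∈ Θ, (∃ i, r = pr i) ∨ r ∣ Nat.card H := by
    intro r hrL
    have hrn := hbad r hrL
    by_cases hb : BAD r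
    · exact Or.inl ⟨⟨r, hb⟩, rfl⟩
    · right
      by_contra hrH
      apply hrn
      have hr : r.Prime := hΘ r hrL
      have : Fact r.Prime := ⟨hr⟩
      let R : Subgroup G := expSub U hUc r
      have hRU : R ≤ U := fun x hx => hx.1
      refine ⟨R, expSub_normal hUn hUc r, fun x hx y hy => hUc x hx.1 y hy.1, ?_, ?_⟩
      · apply pgroup_of
        intro x hx
        exact ⟨1, by rw [pow_one]; exact hx.2⟩
      · intro hd
        rw [← Subgroup.relIndex_mul_index hRU] at hd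
        rcases (Nat.Prime.dvd_mul hr).1 hd with h | h
        · let Q : Sylow r U := default
          have hle : (Q : Subgroup U) ≤ R.subgroupOf U := by
            intro x hx
            rw [Subgroup.mem_subgroupOf]
            refine ⟨x.2, ?_⟩
            obtain ⟨k, hk⟩ := pgroup_mem Q.isPGroup' hx
            have h1 : (x : G) ^ N = 1 := hUexp x x.2
            have h2 : x ^ N = 1 := Subtype.ext (by simpa using h1)
            have h3 : orderOf x ∣ N := orderOf_dvd_of_pow_eq_one h2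
            have h4 : orderOf x ∣ r ^ k := orderOf_dvd_of_pow_eq_one hk
            have h5 : orderOf x ∣ r := by
              obtain ⟨j, hj, hjo⟩ := (Nat.dvd_prime_pow hr).1 h4
              rw [hjo] at h3 ⊢
              rcases Nat.lt_or_ge j 2 with hj2 | hj2
              · interval_cases j
                · simp
                · simp
              · exfalso
                have h6 : r * r ∣ N := by
                  refine Dvd.dvd.trans ?_ h3
                  rw [← pow_two]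
                  exact pow_dvd_pow r hj2
                exact hr.one_lt.ne' (Nat.isUnit_iff.1 (hNsf r h6))
            have h7 : x ^ r = 1 := orderOf_dvd_iff_pow_eq_one.1 h5
            have := congrArg Subtype.val h7
            simpa using this
          have h5 : (R.subgroupOf U).index ∣ (Q : Subgroup U).index :=
            Subgroup.index_dvd_of_le hle
          exact Q.not_dvd_index (h.trans h5)
        · rw [← Subgroup.relIndex_mul_index (le_sup_right : U ≤ N0 ⊔ U)] at h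
          rcases (Nat.Prime.dvd_mul hr).1 h with h' | h'
          · have e0 : U.relIndex (N0 ⊔ U) ∣ Nat.card N0 := by
              rw [Subgroup.relIndex_sup_right]
              exact Subgroup.relIndex_dvd_card U N0
            obtain ⟨i, hi⟩ := hN0p r hr (h'.trans e0)
            apply hb
            rw [hi]
            exact i.2
          · apply hrH
            rw [hcH]
            exact h'
  refine ⟨ι, hfin, pr, P, U, H, ?_⟩
  · exact
      { prime := hprime
        mem := fun i => (hP i).1.1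
        inj := Subtype.val_injective
        Pn := hPn
        Pp := hPp
        Pi := hPi
        Un := hUn
        Uc := hUc
        Usf := ⟨N, hNsf, hUexp⟩
        Ucop := fun i hd => hUpr _ (hprime i) hd i.2
        Ucr := crit_of hUn hUc hminc
        cen := fun i => (comm_minN hΘ hcl (hP i).1 (hP i).2).2
        nab := fun i => (hP i).2
        mn := fun i => (comm_minN hΘ hcl (hP i).1 (hP i).2).1.2.2
        sol := hs
        cop := by
          intro i hd
          apply hPi i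
          rw [hcH] at hd
          exact hd.trans (Subgroup.index_dvd_of_le ((le_iSup P i).trans le_sup_left))
        sup := hsup
        inf := hinf
        faith := by
          intro h hh hhP hhU
          have h1 : F ≤ centralizer {h} := by
            apply sup_le
            · apply iSup_le
              intro i x hx
              rw [Subgroup.mem_centralizer_iff]
              intro y hy
              rw [Set.mem_singleton_iff.1 hy]
              exact hhP i x hx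
            · intro x hx
              rw [Subgroup.mem_centralizer_iff]
              intro y hy
              rw [Set.mem_singleton_iff.1 hy]
              exact hhU x hx
          have h2 : h ∈ centralizer (F : Set G) := by
            rw [Subgroup.mem_centralizer_iff]
            intro y hy
            exact (Subgroup.mem_centralizer_iff.1 (h1 hy) h rfl).symm
          have h3 : centralizer (F : Set G) ≤ F := by
            apply cent_le hs hFO _ _ rfl inferInstance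
            intro x hx y hy
            exact (Subgroup.mem_centralizer_iff.1 hx y hy).symm
          have h4 : h ∈ F ⊓ H := ⟨h3 h2, hh⟩
          rw [hinf, Subgroup.mem_bot] at h4
          exact h4
        fit := hFO
        ord := hN0p
        cl := hcl
        cov := hcov }

end Pool.Agent.Lib.MPbe1941.XF.RE
end

section
/-!
# MP_be1941_al, exact bound, reduction: the structure of a minimal counterexample, general facts
-/
set_option autoImplicit false

namespace Pool.Agent.Lib.MPbe1941.XF.RE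

open Pool.Agent.Lib.MPbe1941
open Subgroup RD Pool.Agent.Lib.MPbe1941.XF.ST
open scoped commutatorElement

/-- The structure of a minimal counterexample. -/
theorem mc_split {G : Type} [Group G] {Θ : Finset ℕ} (h : MC G Θ) :
    ∃ (ι : Type) (_ : Finite ι) (pr : ι → ℕ) (P : ι → Subgroup G) (U H : Subgroup G),
      SplitT Θ pr P U H := by
  have := h.fin
  refine split_of h.sol h.prime h.nnas ?_
  intro N hN hne
  have hsol : Group.IsSolvable G := h.sol
  have hlt : Nat.card (G ⧸ N) < Nat.card G := by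
    rw [← Subgroup.index_eq_card, ← Subgroup.card_mul_index N]
    have h1 : 1 < Nat.card N := by
      rcases Nat.lt_or_ge 1 (Nat.card N) with h | h
      · exact h
      · exfalso
        have h2 : 0 < Nat.card N := Nat.card_pos
        exact hne (Subgroup.card_eq_one.1 (le_antisymm h h2))
    have h2 : 0 < N.index := Nat.pos_of_ne_zero Subgroup.FiniteIndex.index_ne_zero
    nlinarith
  have h1 := h.ineq (J := G ⧸ N) inferInstance hlt (St.quot N)
  have h2 : 0 < {r | r ∈ Θ ∧ r ∉ (∅ : Set ℕ) ∧ NAS (G ⧸ N) r}.ncard := by omega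
  rw [Set.ncard_pos (Θ.finite_toSet.subset (fun r hr => hr.1))] at h2
  obtain ⟨r, hr1, -, hr2⟩ := h2
  exact ⟨r, hr1, hr2⟩

section

variable {G : Type} [Group G] [Finite G] {Θ : Finset ℕ} {ι : Type} {pr : ι → ℕ}
  {P : ι → Subgroup G} {U H : Subgroup G}

/-- The Fitting subgroup. -/
def FF {G ι : Type} [Group G] (P : ι → Subgroup G) (U : Subgroup G) : Subgroup G :=
  (⨆ i, P i) ⊔ U

omit [Finite G] in
theorem SplitT.Nn (h : SplitT Θ pr P U H) : (⨆ i, P i : Subgroup G).Normal := by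
  have := h.Pn
  exact Subgroup.iSup_normal P

omit [Finite G] in
theorem SplitT.Fn (h : SplitT Θ pr P U H) : (FF P U).Normal := by
  have h1 := h.Nn
  have h2 := h.Un
  exact Subgroup.sup_normal _ _

omit [Finite G] in
theorem SplitT.NU (h : SplitT Θ pr P U H) : (⨆ i, P i) ⊓ U = ⊥ := by
  have hcop : Nat.Coprime (Nat.card (⨆ i, P i : Subgroup G)) (Nat.card U) := by
    apply Nat.coprime_of_dvd
    intro q hq hd hd2
    obtain ⟨i, rfl⟩ := h.ord q hq hd
    exact h.Ucop i hd2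
  have h1 : Nat.card ((⨆ i, P i) ⊓ U : Subgroup G) ∣ 1 := by
    rw [← hcop.gcd_eq_one]
    exact Nat.dvd_gcd (Subgroup.card_dvd_of_le inf_le_left) (Subgroup.card_dvd_of_le inf_le_right)
  exact Subgroup.card_eq_one.1 (Nat.dvd_one.1 h1)

/-- `U` is central in the Fitting subgroup. -/
theorem SplitT.Ucen (h : SplitT Θ pr P U H) : ∀ x ∈ U, ∀ y ∈ FF P U, x * y = y * x := by
  have h1 := h.Nn
  have h2 := h.Un
  intro x hx y hy
  obtain ⟨n, hn, u, hu, rfl⟩ := Subgroup.mem_sup_of_normal_left.1 hy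
  have e1 : x * n = n * x :=
    ((Subgroup.commute_of_normal_of_disjoint _ _ h1 h2 (disjoint_iff.2 h.NU) n x hn hx).eq).symm
  have e2 : x * u = u * x := h.Uc x hx u hu
  rw [← mul_assoc, e1, mul_assoc, e2, mul_assoc]

/-- A minimal normal subgroup is in the centre of the Fitting subgroup. -/
theorem SplitT.min_cen (h : SplitT Θ pr P U H) {N : Subgroup G} (hN : MinN N) :
    N ≤ FF P U ∧ ∀ x ∈ N, ∀ y ∈ FF P U, x * y = y * x := by
  have hNn := hN.1
  obtain ⟨hNc, l, hl, hNl⟩ := minN_abel h.sol hN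
  have hNp : IsPGroup l N := pgroup_of (fun x hx => ⟨1, by rw [pow_one]; exact hNl x hx⟩)
  refine ⟨h.fit l N hl hN.1 hNp, ?_⟩
  have h1 : FF P U ≤ centralizer (N : Set G) := by
    apply sup_le
    · apply iSup_le
      intro i x hx
      rw [Subgroup.mem_centralizer_iff]
      intro y hy
      have hPn := h.Pn i
      rcases hN.2.2 (N ⊓ P i) inferInstance inf_le_left with h1 | h1
      · exact (Subgroup.commute_of_normal_of_disjoint N (P i) hN.1 hPn (disjoint_iff.2 h1) y x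
          hy hx).eq
      · exact minN_central (h.prime i) hN hPn (h.Pp i) (inf_eq_left.1 h1) y hy x hx
    · intro x hx
      rw [Subgroup.mem_centralizer_iff]
      intro y hy
      have hUn := h.Un
      rcases hN.2.2 (N ⊓ U) inferInstance inf_le_left with h1 | h1
      · exact (Subgroup.commute_of_normal_of_disjoint N U hN.1 hUn (disjoint_iff.2 h1) y x
          hy hx).eq
      · exact h.Uc y (inf_eq_left.1 h1 hy) x hx
  intro x hx y hy
  exact Subgroup.mem_centralizer_iff.1 (h1 hy) x hx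

/-- `r`-elements of the Fitting subgroup are central in it, if `r` is not one of the `pr i`. -/
theorem SplitT.rel_cen (h : SplitT Θ pr P U H) {r : ℕ} (hr : r.Prime) (hri : ∀ i, r ≠ pr i)
    {y : G} (hy : y ∈ FF P U) (hyr : ∃ n : ℕ, y ^ r ^ n = 1) :
    ∀ z ∈ FF P U, y * z = z * y := by
  have h1 := h.Nn
  have h2 := h.Un
  obtain ⟨n, hn⟩ := hyr
  obtain ⟨a, ha, u, hu, rfl⟩ := Subgroup.mem_sup_of_normal_left.1 hy
  have e1 : Commute a u :=
    Subgroup.commute_of_normal_of_disjoint _ _ h1 h2 (disjoint_iff.2 h.NU) a u ha hu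
  rw [e1.mul_pow] at hn
  have h3 : a ^ r ^ n ∈ (⨆ i, P i) ⊓ U := by
    refine ⟨Subgroup.pow_mem _ ha _, ?_⟩
    rw [eq_inv_of_mul_eq_one_left hn]
    exact U.inv_mem (U.pow_mem hu _)
  rw [h.NU, Subgroup.mem_bot] at h3
  have h4 : a = 1 := by
    have h5 : orderOf a ∣ r ^ n := orderOf_dvd_of_pow_eq_one h3
    have h6 : orderOf a ∣ Nat.card (⨆ i, P i : Subgroup G) := by
      have := orderOf_dvd_natCard (⟨a, ha⟩ : (⨆ i, P i : Subgroup G))
      rwa [Subgroup.orderOf_mk] at this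
    obtain ⟨k, -, hk⟩ := (Nat.dvd_prime_pow hr).1 h5
    rcases Nat.eq_zero_or_pos k with h7 | h7
    · rw [h7, pow_zero] at hk
      exact orderOf_eq_one_iff.1 hk
    · exfalso
      obtain ⟨i, hi⟩ := h.ord r hr ((dvd_pow_self r h7.ne').trans (hk ▸ h6))
      exact hri i hi
  rw [h4, one_mul]
  exact h.Ucen u hu

end

/-! ### The inequality of a state, in terms of `H` -/

/-- `r` is missed: a Sylow `r`-subgroup `R` of `H` is in the stabiliser `S` and in `C`, `[R,R] ≤ D` and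
`D R` is normal in `S`. -/
def Ms {H : Type} [Group H] (C S D : Subgroup H) (r : ℕ) : Prop :=
  ∃ R : Subgroup H, SylIn r ⊤ R ∧ R ≤ S ∧ R ≤ C ∧ (∀ x ∈ R, ∀ y ∈ R, x * y * x⁻¹ * y⁻¹ ∈ D) ∧
    ∀ s ∈ S, ∀ t ∈ R, s * t * s⁻¹ ∈ D ⊔ R

/-- From `Pre.ineq` and `Pre.miss`. -/
theorem pre_iq {G0 G H : Type} [Group G0] [Group G] [Group H] [Finite G]
    (hsol : Group.IsSolvable G) {Θ : Finset ℕ} (hM : MC G0 Θ) {j : H →* G} {E : Subgroup G}
    {Q0 : Set ℕ} {S D K : Subgroup H} (h : Pre G0 j E Q0 S D K)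
    (hlt : Nat.card (JJ j E K) < Nat.card G0) {T B0 : Finset ℕ} (hT : T ⊆ Θ) {C : Subgroup H}
    (hC : ∀ c, (∀ e ∈ E, j c * e = e * j c) → c ∈ C)
    (hE : ∀ r ∈ T, ∀ y ∈ E, (∃ n : ℕ, y ^ r ^ n = 1) → ∀ z ∈ E, (∃ m : ℕ, ¬ r ∣ m ∧ z ^ m = 1) →
      y * z = z * y)
    (hTQ : ∀ r ∈ T, r ∉ Q0)
    (hB : ∀ r ∈ Θ, r ∉ T → r ∉ Q0 → NAS (JJ j E K) r → r ∈ B0) :
    {r | r ∈ T ∧ r ∣ S.index}.ncard + {r | r ∈ Θ ∧ r ∈ Q0}.ncard + 1 ≤
      {r | r ∈ T ∧ ¬ r ∣ S.index ∧ Ms C S D r}.ncard + B0.card := by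
  classical
  have h1 := h.ineq hsol hM hlt
  have f1 : {r | r ∈ T ∧ r ∣ S.index}.Finite := T.finite_toSet.subset (fun r hr => hr.1)
  have f2 : {r | r ∈ Θ ∧ r ∈ Q0}.Finite := Θ.finite_toSet.subset (fun r hr => hr.1)
  have f3 : {r | r ∈ Θ ∧ (r ∈ Q0 ∨ r ∣ S.index)}.Finite :=
    Θ.finite_toSet.subset (fun r hr => hr.1)
  have f4 : {r | r ∈ T ∧ ¬ r ∣ S.index ∧ Ms C S D r}.Finite :=
    T.finite_toSet.subset (fun r hr => hr.1)
  have h2 : {r | r ∈ T ∧ r ∣ S.index}.ncard + {r | r ∈ Θ ∧ r ∈ Q0}.ncard ≤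
      {r | r ∈ Θ ∧ (r ∈ Q0 ∨ r ∣ S.index)}.ncard := by
    rw [← Set.ncard_union_eq _ f1 f2]
    · apply Set.ncard_le_ncard _ f3
      rintro r (⟨hr, hr2⟩ | ⟨hr, hr2⟩)
      · exact ⟨hT hr, Or.inr hr2⟩
      · exact ⟨hr, Or.inl hr2⟩
    · rw [Set.disjoint_left]
      rintro r ⟨hr, -⟩ ⟨-, hr2⟩
      exact hTQ r hr hr2
  have h3 : {r | r ∈ Θ ∧ ¬ (r ∈ Q0 ∨ r ∣ S.index) ∧ NAS (JJ j E K) r}.ncard ≤
      {r | r ∈ T ∧ ¬ r ∣ S.index ∧ Ms C S D r}.ncard + B0.card := by
    rw [← Set.ncard_coe_finset B0]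
    refine le_trans (Set.ncard_le_ncard ?_ (f4.union B0.finite_toSet))
      (Set.ncard_union_le _ _)
    rintro r ⟨hr, hr2, hr3⟩
    have hr4 : r ∉ Q0 := fun h => hr2 (Or.inl h)
    have hr5 : ¬ r ∣ S.index := fun h => hr2 (Or.inr h)
    by_cases hrT : r ∈ T
    · left
      obtain ⟨R, hR1, hR2, hR3, hR4, hR5⟩ := h.miss (hM.prime r hr) hr5 (hE r hrT) hr3
      exact ⟨hrT, hr5, R, hR1, hR2, fun c hc => hC c (hR3 c hc), hR4, hR5⟩
    · right
      exact hB r hr hrT hr4 hr3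
  omega

end Pool.Agent.Lib.MPbe1941.XF.RE
end

section
/-!
# MP_be1941_al, exact bound, reduction: Case I, group theory

Some minimal normal subgroup `N` of the minimal counterexample `G` has a complement. Then
`G = (N × E) ⋊ H` with `E` normal.
-/
set_option autoImplicit false

namespace Pool.Agent.Lib.MPbe1941.XF.RE

open Pool.Agent.Lib.MPbe1941
open Subgroup RD Pool.Agent.Lib.MPbe1941.XF.ST
open scoped commutatorElement

/-- `G = (N × E) ⋊ H`. -/
structure CaseI {G : Type} [Group G] (Θ : Finset ℕ) (N E H : Subgroup G) (T : Finset ℕ) : Prop where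
  Nm : MinN N
  Nab : ∀ x ∈ N, ∀ y ∈ N, x * y = y * x
  En : E.Normal
  NE : ∀ x ∈ N, ∀ e ∈ E, x * e = e * x
  emb : Emb H.subtype E
  inf : N ⊓ JJ H.subtype E ⊤ = ⊥
  sup : N ⊔ JJ H.subtype E ⊤ = ⊤
  faith : ∀ h ∈ H, (∀ x ∈ N, h * x = x * h) → (∀ e ∈ E, h * e = e * h) → h = 1
  Nmin : ∀ M : Subgroup G, M ≤ N → (∀ h ∈ H, ∀ x ∈ M, h * x * h⁻¹ ∈ M) → M = ⊥ ∨ M = N
  TΘ : T ⊆ Θ
  Tp : ∀ r ∈ T, r.Prime ∧ r ∣ Nat.card H
  rel : ∀ r ∈ T, ∀ y ∈ E, (∃ n : ℕ, y ^ r ^ n = 1) → ∀ z ∈ E, y * z = z * y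
  nas : ∀ r ∈ Θ, r ∉ T → ∀ K : Subgroup H, ¬ NAS (JJ H.subtype E K) r

/-- A group with a normal abelian Sylow `r`-subgroup: two `r`-elements commute. -/
theorem nas_comm {G : Type} [Group G] [Finite G] {r : ℕ} (hr : r.Prime) {L : Subgroup G}
    (h : NAS L r) {x y : G} (hx : x ∈ L) (hy : y ∈ L) (hxr : ∃ n : ℕ, x ^ r ^ n = 1)
    (hyr : ∃ n : ℕ, y ^ r ^ n = 1) : x * y = y * x := by
  obtain ⟨P, hPn, hPc, hPp, hPi⟩ := h
  have key : ∀ z (hz : z ∈ L), (∃ n : ℕ, z ^ r ^ n = 1) → (⟨z, hz⟩ : L) ∈ P := by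
    rintro z hz ⟨n, hn⟩
    have h1 : IsPGroup r (Subgroup.zpowers (⟨z, hz⟩ : L)) := by
      apply RD.pgroup_of
      rintro _ ⟨k, rfl⟩
      refine ⟨n, ?_⟩
      have h2 : (⟨z, hz⟩ : L) ^ r ^ n = 1 := Subtype.ext hn
      change ((⟨z, hz⟩ : L) ^ k) ^ r ^ n = 1
      rw [← zpow_natCast, ← zpow_mul, mul_comm, zpow_mul, zpow_natCast, h2, one_zpow]
    exact RD.le_of_sylow hr hPn hPi h1 (Subgroup.mem_zpowers _)
  exact congrArg Subtype.val (hPc _ (key x hx hxr) _ (key y hy hyr))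

theorem caseI_of {G : Type} [Group G] [Finite G] {Θ : Finset ℕ} (hΘ : ∀ r ∈ Θ, r.Prime)
    {ι : Type} {pr : ι → ℕ} {P : ι → Subgroup G} {U H : Subgroup G} (h : SplitT Θ pr P U H)
    {N K : Subgroup G} (hN : MinN N) (hK1 : N ⊓ K = ⊥) (hK2 : N ⊔ K = ⊤) :
    ∃ (E : Subgroup G) (T : Finset ℕ), CaseI Θ N E H T := by
  classical
  have hFn := h.Fn
  have hNn := hN.1
  obtain ⟨hNF, hNc⟩ := h.min_cen hN
  obtain ⟨E, hE⟩ : ∃ E : Subgroup G, E = FF P U ⊓ K := ⟨_, rfl⟩
  have hEn : E.Normal := by rw [hE]; exact inf_normal hN.1 hK2 hFn hNc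
  have hEF : E ≤ FF P U := by rw [hE]; exact inf_le_left
  have hEK : E ≤ K := by rw [hE]; exact inf_le_right
  have hNE : ∀ x ∈ N, ∀ e ∈ E, x * e = e * x := fun x hx e he => hNc x hx e (hEF he)
  have hNEF : FF P U ≤ N ⊔ E := by
    intro x hx
    have hx2 : x ∈ N ⊔ K := by rw [hK2]; exact Subgroup.mem_top x
    obtain ⟨n, hn, k, hk, rfl⟩ := Subgroup.mem_sup_of_normal_left.1 hx2
    have hkF : k ∈ FF P U := by
      have := (FF P U).mul_mem ((FF P U).inv_mem (hNF hn)) hx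
      simpa using this
    refine Subgroup.mul_mem_sup hn ?_
    rw [hE]
    exact ⟨hkF, hk⟩
  have hFH : FF P U ⊓ H = ⊥ := h.inf
  have hFHs : FF P U ⊔ H = ⊤ := h.sup
  have hemb : Emb H.subtype E :=
    { inj := H.subtype_injective
      nor := fun k e he => hEn.conj_mem e he _
      dis := fun k hk => by
        have : (k : G) ∈ FF P U ⊓ H := ⟨hEF hk, k.2⟩
        rw [hFH, Subgroup.mem_bot] at this
        exact Subtype.ext this }
  have hmem : ∀ {L : Subgroup H} {g : G}, g ∈ JJ H.subtype E L →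
      ∃ e ∈ E, ∃ k ∈ L, e * (k : G) = g := fun hg => (mem_JJ hemb).1 hg
  have hinf : N ⊓ JJ H.subtype E ⊤ = ⊥ := by
    rw [Subgroup.eq_bot_iff_forall]
    rintro x ⟨hx, hx2⟩
    obtain ⟨e, he, k, -, rfl⟩ := hmem hx2
    have hk : (k : G) ∈ FF P U ⊓ H := by
      refine ⟨?_, k.2⟩
      have := (FF P U).mul_mem ((FF P U).inv_mem (hEF he)) (hNF hx)
      simpa using this
    rw [hFH, Subgroup.mem_bot] at hk
    rw [hk, mul_one] at hx ⊢
    have : e ∈ N ⊓ K := ⟨hx, hEK he⟩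
    rw [hK1, Subgroup.mem_bot] at this
    exact this
  have hHJ : H ≤ JJ H.subtype E ⊤ := by
    intro x hx
    exact Subgroup.mem_sup_right ⟨⟨x, hx⟩, trivial, rfl⟩
  have hsup : N ⊔ JJ H.subtype E ⊤ = ⊤ := by
    apply top_le_iff.1
    rw [← hFHs]
    refine sup_le (hNEF.trans (sup_le_sup_left ?_ N)) (hHJ.trans le_sup_right)
    exact le_sup_left
  have hfaith : ∀ x ∈ H, (∀ y ∈ N, x * y = y * x) → (∀ e ∈ E, x * e = e * x) → x = 1 := by
    intro x hx h1 h2
    have h3 : FF P U ≤ centralizer {x} := by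
      refine hNEF.trans (sup_le ?_ ?_)
      · intro y hy
        rw [Subgroup.mem_centralizer_iff]
        intro z hz
        rw [Set.mem_singleton_iff.1 hz]
        exact h1 y hy
      · intro y hy
        rw [Subgroup.mem_centralizer_iff]
        intro z hz
        rw [Set.mem_singleton_iff.1 hz]
        exact h2 y hy
    apply h.faith x hx
    · intro i y hy
      exact Subgroup.mem_centralizer_iff.1 (h3 ((le_iSup P i).trans le_sup_left hy)) x rfl
    · intro y hy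
      exact Subgroup.mem_centralizer_iff.1 (h3 ((le_sup_right : U ≤ FF P U) hy)) x rfl
  have hNmin : ∀ M : Subgroup G, M ≤ N → (∀ x ∈ H, ∀ y ∈ M, x * y * x⁻¹ ∈ M) →
      M = ⊥ ∨ M = N := by
    intro M hMN hM
    refine hN.2.2 M ⟨?_⟩ hMN
    intro y hy g
    have hg : g ∈ FF P U ⊔ H := by rw [hFHs]; exact Subgroup.mem_top g
    obtain ⟨f, hf, k, hk, rfl⟩ := Subgroup.mem_sup_of_normal_left.1 hg
    have h1 := hM k hk y hy
    have h2 := hNc _ (hMN h1) f hf
    have h3 : f * k * y * (f * k)⁻¹ = k * y * k⁻¹ := by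
      calc f * k * y * (f * k)⁻¹ = f * (k * y * k⁻¹) * f⁻¹ := by group
        _ = k * y * k⁻¹ * f * f⁻¹ := by rw [h2]
        _ = k * y * k⁻¹ := by group
    rw [h3]
    exact h1
  refine ⟨E, Θ.filter (fun r => r ∣ Nat.card H), hN, (minN_abel h.sol hN).1, hEn, hNE, hemb, hinf,
    hsup, hfaith, hNmin, Finset.filter_subset _ _, ?_, ?_, ?_⟩
  · intro r hr
    rw [Finset.mem_filter] at hr
    exact ⟨hΘ r hr.1, hr.2⟩
  · intro r hr y hy hyr z hz
    rw [Finset.mem_filter] at hr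
    have hri : ∀ i, r ≠ pr i := fun i hi => h.cop i (hi ▸ hr.2)
    exact h.rel_cen (hΘ r hr.1) hri (hEF hy) hyr z (hEF hz)
  · intro r hr hrT L hnas
    rw [Finset.mem_filter] at hrT
    have hrp := hΘ r hr
    rcases h.cov r hr with ⟨i, hi⟩ | h1
    · -- the Sylow subgroup `P i`
      have hPn := h.Pn i
      have hPi := h.Pi i
      have hPp := h.Pp i
      rw [← hi] at hPi hPp
      have hPF : P i ≤ FF P U := (le_iSup P i).trans le_sup_left
      have hcomm : ∀ x ∈ P i ⊓ K, ∀ y ∈ P i ⊓ K, x * y = y * x := by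
        rintro x ⟨hx, hxK⟩ y ⟨hy, hyK⟩
        have hxE : x ∈ E := by rw [hE]; exact ⟨hPF hx, hxK⟩
        have hyE : y ∈ E := by rw [hE]; exact ⟨hPF hy, hyK⟩
        exact nas_comm hrp hnas (Subgroup.mem_sup_left hxE) (Subgroup.mem_sup_left hyE)
          (pgroup_mem hPp hx) (pgroup_mem hPp hy)
      have hab : ∀ x ∈ P i, ∀ y ∈ P i, x * y = y * x := by
        have hdec : ∀ x ∈ P i, ∃ n ∈ N, ∃ k ∈ P i ⊓ K, n * k = x := by
          intro x hx
          have hx2 : x ∈ N ⊔ K := by rw [hK2]; exact Subgroup.mem_top x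
          rcases hN.2.2 (N ⊓ P i) inferInstance inf_le_left with h2 | h2
          · -- `N` is an `l`-group, `l ≠ r`
            have hle : P i ≤ K := by
              apply le_of_coprime hPn
              have hKi : K.index = Nat.card N := by
                have e1 : Nat.card K = N.index := card_compl hN.1 hK1 hK2
                have e2 := Subgroup.card_mul_index K
                have e3 := Subgroup.card_mul_index N
                rw [e1, ← e3, mul_comm (Nat.card N)] at e2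
                have hpos : 0 < N.index := Nat.pos_of_ne_zero Subgroup.FiniteIndex.index_ne_zero
                exact Nat.eq_of_mul_eq_mul_left hpos e2
              rw [hKi]
              have : Fact r.Prime := ⟨hrp⟩
              obtain ⟨k, hk⟩ := IsPGroup.iff_card.1 hPp
              rw [hk]
              apply Nat.Coprime.pow_right
              rw [Nat.coprime_comm, Nat.Prime.coprime_iff_not_dvd hrp]
              intro hd
              obtain ⟨z, hz⟩ := exists_prime_orderOf_dvd_card' (G := N) r hd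
              have hz1 : (z : G) ∈ P i := by
                have h3 : IsPGroup r (Subgroup.zpowers (z : G)) := by
                  apply RD.pgroup_of
                  rintro _ ⟨k, rfl⟩
                  refine ⟨1, ?_⟩
                  have h4 : (z : G) ^ r = 1 := by
                    rw [← Subgroup.orderOf_coe] at hz
                    rw [← hz]
                    exact pow_orderOf_eq_one _
                  change ((z : G) ^ k) ^ r ^ 1 = 1
                  rw [pow_one, ← zpow_natCast, ← zpow_mul, mul_comm, zpow_mul, zpow_natCast, h4,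
                    one_zpow]
                exact RD.le_of_sylow hrp hPn hPi h3 (Subgroup.mem_zpowers _)
              have hz2 : (z : G) ∈ N ⊓ P i := ⟨z.2, hz1⟩
              rw [h2, Subgroup.mem_bot] at hz2
              have hz3 : z = 1 := Subtype.ext hz2
              rw [hz3, orderOf_one] at hz
              exact hrp.one_lt.ne hz
            exact ⟨1, N.one_mem, x, ⟨hx, hle hx⟩, one_mul x⟩
          · obtain ⟨n, hn, k, hk, rfl⟩ := Subgroup.mem_sup_of_normal_left.1 hx2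
            have hkP : k ∈ P i := by
              have := (P i).mul_mem ((P i).inv_mem (inf_eq_left.1 h2 hn)) hx
              simpa using this
            exact ⟨n, hn, k, ⟨hkP, hk⟩, rfl⟩
        intro x hx y hy
        obtain ⟨n, hn, k, hk, rfl⟩ := hdec x hx
        obtain ⟨m, hm, l, hl, rfl⟩ := hdec y hy
        have e1 : Commute n k := hNc n hn k (hPF hk.1)
        have e2 : Commute n l := hNc n hn l (hPF hl.1)
        have e3 : Commute n m := hNc n hn m (hNF hm)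
        have e4 : Commute m k := hNc m hm k (hPF hk.1)
        have e5 : Commute m l := hNc m hm l (hPF hl.1)
        have e6 : Commute k l := hcomm k hk l hl
        exact (((e3.mul_right e2).mul_left ((e4.symm).mul_right e6))).eq
      apply h.nab i
      rw [eq_bot_iff, Subgroup.commutator_le]
      intro x hx y hy
      rw [Subgroup.mem_bot, commutatorElement_eq_one_iff_mul_comm]
      exact hab x hx y hy
    · exact hrT ⟨hr, h1⟩

/-- The order of the groups of the states is smaller. -/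
theorem CaseI.card_lt {G : Type} [Group G] [Finite G] {Θ : Finset ℕ} {N E H : Subgroup G}
    {T : Finset ℕ} (h : CaseI Θ N E H T) (K : Subgroup H) :
    Nat.card (JJ H.subtype E K) < Nat.card G := by
  have h1 : Nat.card (JJ H.subtype E K) ≤ Nat.card (JJ H.subtype E (⊤ : Subgroup H)) :=
    Subgroup.card_le_of_le (JJ_mono le_top)
  have h2 : Nat.card (JJ H.subtype E (⊤ : Subgroup H)) < Nat.card G := by
    rw [← Subgroup.card_top (G := G)]
    refine lt_of_le_of_ne (Subgroup.card_le_of_le le_top) ?_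
    intro h3
    have h4 : JJ H.subtype E (⊤ : Subgroup H) = ⊤ :=
      Subgroup.eq_of_le_of_card_ge le_top h3.ge
    have h5 := h.inf
    rw [h4, inf_top_eq] at h5
    exact h.Nm.2.1 h5
  omega

end Pool.Agent.Lib.MPbe1941.XF.RE
end

section
/-!
# MP_be1941_al, exact bound, reduction: Case II, group theory

No minimal normal subgroup of the minimal counterexample `G` has a complement. Then
`G = (P × E) ⋊ H`, `P` the normal nonabelian Sylow `p`-subgroup for some `p ∈ Θ`, `P'` is the only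
minimal normal subgroup of `G` in `P`.
-/
set_option autoImplicit false

namespace Pool.Agent.Lib.MPbe1941.XF.RE

open Pool.Agent.Lib.MPbe1941
open Subgroup RD Pool.Agent.Lib.MPbe1941.XF.ST
open scoped commutatorElement

/-- `G = (P × E) ⋊ H`. -/
structure CaseII {G : Type} [Group G] (Θ : Finset ℕ) (p : ℕ) (P E H : Subgroup G)
    (T : Finset ℕ) : Prop where
  pp : p.Prime
  pΘ : p ∈ Θ
  pT : p ∉ T
  Pn : P.Normal
  Pp : IsPGroup p P
  En : E.Normal
  PE : ∀ x ∈ P, ∀ e ∈ E, x * e = e * x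
  emb : Emb H.subtype E
  inf : P ⊓ JJ H.subtype E ⊤ = ⊥
  sup : P ⊔ JJ H.subtype E ⊤ = ⊤
  pJ : ¬ p ∣ Nat.card (JJ H.subtype E (⊤ : Subgroup H))
  cen : ∀ x ∈ ⁅P, P⁆, ∀ y ∈ P, x * y = y * x
  nab : ⁅P, P⁆ ≠ ⊥
  exp : ∀ x ∈ ⁅P, P⁆, x ^ p = 1
  uni : ∀ M : Subgroup G, M ≤ P → M ≠ ⊥ → (∀ g ∈ P, ∀ x ∈ M, g * x * g⁻¹ ∈ M) →
    (∀ g ∈ H, ∀ x ∈ M, g * x * g⁻¹ ∈ M) → ⁅P, P⁆ ≤ M
  faith : ∀ h ∈ H, (∀ x ∈ P, h * x = x * h) → (∀ e ∈ E, h * e = e * h) → h = 1
  TΘ : T ⊆ Θ
  Tp : ∀ r ∈ T, r.Prime ∧ r ∣ Nat.card H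
  TE : ∀ r ∈ T, ¬ r ∣ Nat.card E
  oth : ∀ r ∈ Θ, r ∉ T → r ≠ p → ∃ x ∈ E, ∃ y ∈ E, (∃ n : ℕ, x ^ r ^ n = 1) ∧
    (∃ n : ℕ, y ^ r ^ n = 1) ∧ x * y ≠ y * x
  idx : ∀ N : Subgroup H, N.Normal → N.index.Prime → N.index ∈ T ∧ ¬ N.index ∣ Nat.card N

section

variable {G : Type} [Group G] [Finite G] {Θ : Finset ℕ} {ι : Type} {pr : ι → ℕ}
  {P : ι → Subgroup G} {U H : Subgroup G}

/-- Minimal normal subgroups: complemented or one of the `P i'`. -/
theorem SplitT.min (h : SplitT Θ pr P U H) (hΘ : ∀ r ∈ Θ, r.Prime) {N : Subgroup G}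
    (hN : MinN N) : (∃ K : Subgroup G, N ⊓ K = ⊥ ∧ N ⊔ K = ⊤) ∨ ∃ i, N = ⁅P i, P i⁆ := by
  rcases h.cl N hN with h1 | ⟨r, Q, hQ, hQN⟩
  · exact Or.inl h1
  · right
    have hr := hΘ r hQ.1
    rcases h.cov r hQ.1 with ⟨i, hi⟩ | h2
    · subst hi
      refine ⟨i, ?_⟩
      have h3 : Q = P i := le_antisymm (le_of_sylow hr (h.Pn i) (h.Pi i) hQ.2.2.1)
        (le_of_sylow hr hQ.2.1 hQ.2.2.2 (h.Pp i))
      rw [← hQN, h3]
    · exfalso
      have hQF : Q ≤ FF P U := h.fit r Q hr hQ.2.1 hQ.2.2.1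
      have : Fact r.Prime := ⟨hr⟩
      obtain ⟨z, hz⟩ := exists_prime_orderOf_dvd_card' (G := H) r h2
      have h3 : IsPGroup r (Subgroup.zpowers (z : G)) := by
        apply RD.pgroup_of
        rintro _ ⟨k, rfl⟩
        refine ⟨1, ?_⟩
        have h4 : (z : G) ^ r = 1 := by
          rw [← Subgroup.orderOf_coe] at hz
          rw [← hz]
          exact pow_orderOf_eq_one _
        change ((z : G) ^ k) ^ r ^ 1 = 1
        rw [pow_one, ← zpow_natCast, ← zpow_mul, mul_comm, zpow_mul, zpow_natCast, h4, one_zpow]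
      have h4 : (z : G) ∈ Q :=
        RD.le_of_sylow hr hQ.2.1 hQ.2.2.2 h3 (Subgroup.mem_zpowers _)
      have h5 : (z : G) ∈ FF P U ⊓ H := ⟨hQF h4, z.2⟩
      have h6 : FF P U ⊓ H = ⊥ := h.inf
      rw [h6, Subgroup.mem_bot] at h5
      have h7 : z = 1 := Subtype.ext h5
      rw [h7, orderOf_one] at hz
      exact hr.one_lt.ne hz

/-- A minimal counterexample is nontrivial. -/
theorem mc_nontrivial {G : Type} [Group G] {Θ : Finset ℕ} (h : MC G Θ) : Nontrivial G := by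
  have := h.fin
  by_contra hG
  rw [not_nontrivial_iff_subsingleton] at hG
  have h1 : Θ = ∅ := by
    rw [Finset.eq_empty_iff_forall_notMem]
    intro r hr
    apply h.nnas r hr
    refine ⟨⊥, inferInstance, ?_, IsPGroup.of_bot, ?_⟩
    · intro x _ y _
      exact Subsingleton.elim _ _
    · rw [Subgroup.index_bot, Nat.card_unique]
      exact (h.prime r hr).one_lt.ne' ∘ Nat.dvd_one.1
  obtain ⟨d, ρ, hρ, -⟩ := RP.specIRR G (1 : MonoidAlgebra ℂ G) one_ne_zero
  have h2 := h.max d ⟨ρ, hρ⟩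
  rw [h1, Finset.card_empty] at h2
  omega

/-- A normal Sylow subgroup of a normal subgroup is normal. -/
theorem normal_syl {N : Subgroup G} (hN : N.Normal) {r : ℕ} (hr : r.Prime) (h : NAS N r) :
    ∃ Q : Subgroup G, Q ≤ N ∧ Q.Normal ∧ IsPGroup r Q ∧ ¬ r ∣ Q.relIndex N := by
  obtain ⟨P, hPn, hPc, hPp, hPi⟩ := h
  refine ⟨P.map N.subtype, Subgroup.map_subtype_le _, ⟨?_⟩, hPp.map _, ?_⟩
  · intro x hx g
    obtain ⟨y, hy, rfl⟩ := Subgroup.mem_map.1 hx
    have h1 : IsPGroup r (P.map (MulAut.conjNormal (H := N) g).toMonoidHom) := hPp.map _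
    have h2 := RD.le_of_sylow hr hPn hPi h1
    have h3 : MulAut.conjNormal (H := N) g y ∈ P := h2 (Subgroup.mem_map_of_mem _ hy)
    refine Subgroup.mem_map.2 ⟨_, h3, ?_⟩
    exact MulAut.conjNormal_apply g y
  · have h1 : (P.map N.subtype).relIndex N = P.index := by
      rw [Subgroup.relIndex]
      congr 1
      exact Subgroup.comap_map_eq_self_of_injective N.subtype_injective P
    rw [h1]
    exact hPi

theorem caseII_of (hmc : MC G Θ) [Finite ι] (h : SplitT Θ pr P U H)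
    (hno : ∀ N : Subgroup G, MinN N → ¬ ∃ K : Subgroup G, N ⊓ K = ⊥ ∧ N ⊔ K = ⊤) :
    ∃ (p : ℕ) (Q E : Subgroup G) (T : Finset ℕ), CaseII Θ p Q E H T := by
  classical
  have hΘ := hmc.prime
  have : Fintype ι := Fintype.ofFinite ι
  have hmin : ∀ N : Subgroup G, MinN N → ∃ i, N = ⁅P i, P i⁆ := fun N hN =>
    (h.min hΘ hN).resolve_left (hno N hN)
  have hPP : ∀ i, ⁅P i, P i⁆ ≤ P i := fun i => comm_self_le (P i)
  -- different `P i` meet trivially
  have hdis : ∀ i k, i ≠ k → P i ⊓ P k = ⊥ := by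
    intro i k hik
    rw [Subgroup.eq_bot_iff_forall]
    rintro x ⟨hx, hx2⟩
    obtain ⟨a, ha⟩ := pgroup_mem (h.Pp i) hx
    obtain ⟨b, hb⟩ := pgroup_mem (h.Pp k) hx2
    exact eq_one_of_pow (h.prime i) (h.prime k) (fun e => hik (h.inj e)) ha hb
  have hcm : ∀ i k, i ≠ k → ∀ x ∈ P i, ∀ y ∈ P k, x * y = y * x := fun i k hik x hx y hy =>
    (Subgroup.commute_of_normal_of_disjoint _ _ (h.Pn i) (h.Pn k) (disjoint_iff.2 (hdis i k hik))
      x y hx hy).eq
  -- `U = ⊥`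
  have hU : U = ⊥ := by
    by_contra hne
    obtain ⟨N, hN, hNU⟩ := exists_minN _ U rfl h.Un hne
    obtain ⟨i, hi⟩ := hmin N hN
    have h1 : N ≤ (⨆ i, P i) ⊓ U := by
      refine le_inf ?_ hNU
      rw [hi]
      exact (hPP i).trans (le_iSup P i)
    rw [h.NU] at h1
    exact hN.2.1 (le_bot_iff.1 h1)
  -- some `i`
  obtain ⟨i⟩ : Nonempty ι := by
    have := mc_nontrivial hmc
    obtain ⟨N, hN, -⟩ := exists_minN _ (⊤ : Subgroup G) rfl inferInstance top_ne_bot
    obtain ⟨i, -⟩ := hmin N hN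
    exact ⟨i⟩
  have hp := h.prime i
  have hPn := h.Pn i
  obtain ⟨E, hE⟩ : ∃ E : Subgroup G, E = ⨆ k ∈ (Finset.univ.erase i), P k := ⟨_, rfl⟩
  have hkE : ∀ k, k ≠ i → P k ≤ E := by
    intro k hk
    rw [hE]
    exact le_iSup₂_of_le k (Finset.mem_erase.2 ⟨hk, Finset.mem_univ k⟩) le_rfl
  have hEn : E.Normal := by
    rw [hE]
    have : ∀ k, (⨆ (_ : k ∈ Finset.univ.erase i), P k : Subgroup G).Normal := by
      intro k
      have := h.Pn
      exact Subgroup.iSup_normal _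
    exact Subgroup.iSup_normal _
  have hEN : E ≤ ⨆ k, P k := by
    rw [hE]
    exact iSup₂_le fun k _ => le_iSup P k
  have hEc : E ≤ centralizer (P i : Set G) := by
    rw [hE]
    refine iSup₂_le fun k hk x hx => ?_
    rw [Subgroup.mem_centralizer_iff]
    intro y hy
    exact hcm i k (Finset.ne_of_mem_erase hk).symm y hy x hx
  have hPE : ∀ x ∈ P i, ∀ e ∈ E, x * e = e * x := fun x hx e he =>
    Subgroup.mem_centralizer_iff.1 (hEc he) x hx
  have hPEsup : P i ⊔ E = ⨆ k, P k := by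
    apply le_antisymm (sup_le (le_iSup P i) hEN)
    apply iSup_le
    intro k
    by_cases hk : k = i
    · rw [hk]
      exact le_sup_left
    · exact (hkE k hk).trans le_sup_right
  have hEord : ∀ q : ℕ, q.Prime → q ∣ Nat.card E → ∃ k, k ≠ i ∧ q = pr k := by
    intro q hq hd
    rw [hE] at hd
    obtain ⟨k, hk, hk2⟩ := prime_iSup h.prime h.Pn h.Pp (Finset.univ.erase i) q hq hd
    exact ⟨k, Finset.ne_of_mem_erase hk, hk2⟩
  have hpE : ¬ pr i ∣ Nat.card E := by
    intro hd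
    obtain ⟨k, hk, hk2⟩ := hEord _ hp hd
    exact hk (h.inj hk2).symm
  have hFH : FF P U ⊓ H = ⊥ := h.inf
  have hFHs : FF P U ⊔ H = ⊤ := h.sup
  have hF : FF P U = ⨆ k, P k := by
    unfold FF
    rw [hU, sup_bot_eq]
  have hEF : E ≤ FF P U := by rw [hF]; exact hEN
  have hPF : P i ≤ FF P U := by rw [hF]; exact le_iSup P i
  have hemb : Emb H.subtype E :=
    { inj := H.subtype_injective
      nor := fun k e he => hEn.conj_mem e he _
      dis := fun k hk => by
        have : (k : G) ∈ FF P U ⊓ H := ⟨hEF hk, k.2⟩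
        rw [hFH, Subgroup.mem_bot] at this
        exact Subtype.ext this }
  have hpJ : ¬ pr i ∣ Nat.card (JJ H.subtype E (⊤ : Subgroup H)) := by
    rw [card_JJ hemb]
    intro hd
    rcases hp.dvd_mul.1 hd with h1 | h1
    · exact hpE h1
    · rw [Subgroup.card_top] at h1
      exact h.cop i h1
  have hinf : P i ⊓ JJ H.subtype E ⊤ = ⊥ := by
    have h1 := XF.inf_bot hp (h.Pp i) hpJ
    rw [inf_comm]
    exact h1
  have hsup : P i ⊔ JJ H.subtype E ⊤ = ⊤ := by
    apply top_le_iff.1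
    rw [← hFHs, hF, ← hPEsup]
    refine sup_le (sup_le_sup_left le_sup_left _) ?_
    intro x hx
    exact Subgroup.mem_sup_right (Subgroup.mem_sup_right ⟨⟨x, hx⟩, trivial, rfl⟩)
  have hcF : Nat.card H = (FF P U).index := card_compl h.Fn hFH hFHs
  refine ⟨pr i, P i, E, Θ.filter (fun r => r ∣ Nat.card H), ?_⟩
  refine
    { pp := hp
      pΘ := h.mem i
      pT := fun hd => h.cop i (Finset.mem_filter.1 hd).2
      Pn := hPn
      Pp := h.Pp i
      En := hEn
      PE := hPE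
      emb := hemb
      inf := hinf
      sup := hsup
      pJ := hpJ
      cen := h.cen i
      nab := h.nab i
      exp := ?_
      uni := ?_
      faith := ?_
      TΘ := Finset.filter_subset _ _
      Tp := fun r hr => ⟨hΘ r (Finset.mem_filter.1 hr).1, (Finset.mem_filter.1 hr).2⟩
      TE := ?_
      oth := ?_
      idx := ?_ }
  · -- exponent
    have hc : ∀ x ∈ ⁅P i, P i⁆, ∀ y ∈ ⁅P i, P i⁆, x * y = y * x := fun x hx y hy =>
      h.cen i x hx y (hPP i hy)
    have h1 : (expSub ⁅P i, P i⁆ hc (pr i)).Normal := expSub_normal inferInstance hc _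
    rcases h.mn i _ h1 (fun x hx => hx.1) with h2 | h2
    · exfalso
      apply h.nab i
      rw [Subgroup.eq_bot_iff_forall]
      intro x hx
      by_contra hx1
      have : Fact (pr i).Prime := ⟨hp⟩
      obtain ⟨k, hk⟩ := pgroup_mem (h.Pp i) (hPP i hx)
      have h3 : orderOf x ∣ pr i ^ k := orderOf_dvd_of_pow_eq_one hk
      obtain ⟨a, ha, ha2⟩ := (Nat.dvd_prime_pow hp).1 h3
      rcases Nat.eq_zero_or_pos a with h4 | h4
      · rw [h4, pow_zero] at ha2
        exact hx1 (orderOf_eq_one_iff.1 ha2)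
      · have h5 : x ^ (pr i) ^ (a - 1) ∈ expSub ⁅P i, P i⁆ hc (pr i) := by
          refine ⟨Subgroup.pow_mem _ hx _, ?_⟩
          rw [← pow_mul, ← pow_succ, Nat.sub_add_cancel h4, ← ha2, pow_orderOf_eq_one]
        rw [h2, Subgroup.mem_bot] at h5
        have h6 := orderOf_dvd_of_pow_eq_one h5
        rw [ha2] at h6
        have h7 := (Nat.pow_dvd_pow_iff_le_right hp.one_lt).1 h6
        omega
    · intro x hx
      rw [← h2] at hx
      exact hx.2
  · -- uniqueness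
    intro M hMP hne hP hH
    have hMn : M.Normal := by
      refine ⟨fun x hx g => ?_⟩
      have hg : g ∈ (P i ⊔ E) ⊔ H := by
        rw [hPEsup, ← hF, hFHs]
        exact Subgroup.mem_top g
      have hmul : ∀ a b : G, (∀ x, x ∈ M → a * x * a⁻¹ ∈ M) → (∀ x, x ∈ M → b * x * b⁻¹ ∈ M) →
          ∀ x, x ∈ M → a * b * x * (a * b)⁻¹ ∈ M := by
        intro a b ha hb x hx
        have : a * b * x * (a * b)⁻¹ = a * (b * x * b⁻¹) * a⁻¹ := by group
        rw [this]
        exact ha _ (hb x hx)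
      refine XF.sup_ind (p := fun g => ∀ x, x ∈ M → g * x * g⁻¹ ∈ M) ?_ (fun g hg x hx => hH g hg x hx)
        (fun a b ha hb => hmul a b ha hb) hg x hx
      intro g hg
      refine XF.sup_ind (p := fun g => ∀ x, x ∈ M → g * x * g⁻¹ ∈ M) (fun g hg x hx => hP g hg x hx)
        ?_ (fun a b ha hb => hmul a b ha hb) hg
      intro e he x hx
      have h1 := hPE x (hMP hx) e he
      have h2 : e * x * e⁻¹ = x := by rw [← h1]; group
      rw [h2]
      exact hx
    obtain ⟨N, hN, hNM⟩ := exists_minN _ M rfl hMn hne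
    obtain ⟨k, hk⟩ := hmin N hN
    have hki : k = i := by
      by_contra hki
      have h1 : N ≤ P k ⊓ P i := le_inf (hk ▸ hPP k) (hNM.trans hMP)
      rw [hdis k i hki] at h1
      exact hN.2.1 (le_bot_iff.1 h1)
    rw [← hki, ← hk]
    exact hNM
  · -- faithful
    intro x hx h1 h2
    apply h.faith x hx
    · intro k y hy
      by_cases hk : k = i
      · subst hk
        exact h1 y hy
      · exact h2 y (hkE k hk hy)
    · intro y hy
      rw [hU, Subgroup.mem_bot] at hy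
      rw [hy, mul_one, one_mul]
  · intro r hr hd
    rw [Finset.mem_filter] at hr
    obtain ⟨k, -, hk⟩ := hEord r (hΘ r hr.1) hd
    exact h.cop k (hk ▸ hr.2)
  · intro r hr hrT hrp
    rw [Finset.mem_filter] at hrT
    rcases h.cov r hr with ⟨k, hk⟩ | h1
    · have hki : k ≠ i := by
        rintro rfl
        exact hrp hk
      have h1 : ¬ ∀ x ∈ P k, ∀ y ∈ P k, x * y = y * x := by
        intro hab
        apply h.nab k
        rw [eq_bot_iff, Subgroup.commutator_le]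
        intro x hx y hy
        rw [Subgroup.mem_bot, commutatorElement_eq_one_iff_mul_comm]
        exact hab x hx y hy
      push Not at h1
      obtain ⟨x, hx, y, hy, hxy⟩ := h1
      refine ⟨x, hkE k hki hx, y, hkE k hki hy, ?_, ?_, hxy⟩
      · rw [hk]; exact pgroup_mem (h.Pp k) hx
      · rw [hk]; exact pgroup_mem (h.Pp k) hy
    · exact absurd ⟨hr, h1⟩ hrT
  · -- (P')
    intro N hN hs
    have hFn := h.Fn
    -- the normal subgroup `F N` of `G`
    obtain ⟨N', hN'⟩ : ∃ N' : Subgroup G, N' = FF P U ⊔ N.map H.subtype := ⟨_, rfl⟩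
    have hN'n : N'.Normal := by
      refine ⟨fun x hx g => ?_⟩
      rw [hN'] at hx ⊢
      obtain ⟨f, hf, _, ⟨n, hn, rfl⟩, rfl⟩ := Subgroup.mem_sup_of_normal_left.1 hx
      have hg : g ∈ FF P U ⊔ H := by rw [hFHs]; exact Subgroup.mem_top g
      obtain ⟨a, ha, k, hk, rfl⟩ := Subgroup.mem_sup_of_normal_left.1 hg
      have h1 : k * (n : G) * k⁻¹ ∈ N.map H.subtype :=
        ⟨⟨k, hk⟩ * n * (⟨k, hk⟩ : H)⁻¹, hN.conj_mem n hn _, rfl⟩
      have h2 : a * k * (f * (n : G)) * (a * k)⁻¹ =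
          (a * (k * f * k⁻¹)) * (k * (n : G) * k⁻¹) * a⁻¹ := by group
      change a * k * (f * (n : G)) * (a * k)⁻¹ ∈ _
      rw [h2]
      refine Subgroup.mul_mem _ (Subgroup.mul_mem _ ?_ (Subgroup.mem_sup_right h1)) ?_
      · exact Subgroup.mem_sup_left ((FF P U).mul_mem ha (hFn.conj_mem f hf k))
      · exact Subgroup.mem_sup_left ((FF P U).inv_mem ha)
    have hNinf : FF P U ⊓ N.map H.subtype = ⊥ := by
      rw [eq_bot_iff, ← hFH]
      exact inf_le_inf_left _ (Subgroup.map_subtype_le _)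
    have hcN : Nat.card N' = Nat.card (FF P U) * Nat.card N := by
      rw [hN', XF.card_sup (XF.nrm_of_normal hFn) hNinf]
      congr 1
      exact (Nat.card_congr (Subgroup.equivMapOfInjective N H.subtype
        H.subtype_injective).toEquiv).symm
    have hidx : N'.index = N.index := by
      have e1 := Subgroup.card_mul_index N'
      have e2 := Subgroup.card_mul_index (FF P U)
      have e3 := Subgroup.card_mul_index N
      rw [← hcF, ← e3] at e2
      rw [← e2, hcN, mul_assoc] at e1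
      have hpos : 0 < Nat.card (FF P U) := Nat.card_pos
      have hpos2 : 0 < Nat.card N := Nat.card_pos
      exact Nat.eq_of_mul_eq_mul_left hpos2 (Nat.eq_of_mul_eq_mul_left hpos e1)
    obtain ⟨h1, h2⟩ := hmc.prime_index hN'n (by rw [hidx]; exact hs)
    rw [hidx] at h1 h2
    have hsH : N.index ∣ Nat.card H := ⟨Nat.card N, by rw [mul_comm, Subgroup.card_mul_index]⟩
    refine ⟨Finset.mem_filter.2 ⟨h1, hsH⟩, ?_⟩
    obtain ⟨Q, hQN, hQn, hQp, hQi⟩ := normal_syl hN'n hs h2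
    have hQF : Q ≤ FF P U := h.fit _ Q hs hQn hQp
    have hQ : Q = ⊥ := by
      have hsF : ¬ N.index ∣ Nat.card (FF P U) := by
        rw [hF]
        intro hd
        obtain ⟨k, hk⟩ := h.ord _ hs hd
        exact h.cop k (hk ▸ hsH)
      have := XF.inf_bot hs hQp hsF
      rw [inf_eq_right.2 hQF] at this
      exact this
    rw [hQ, Subgroup.relIndex_bot_left, hcN] at hQi
    intro hd
    exact hQi (hd.mul_left _)

end

end Pool.Agent.Lib.MPbe1941.XF.RE
end

section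
/-!
# MP_be1941_al, exact bound, reduction: chains, Case I gives `DatI`
-/
set_option autoImplicit false

namespace Pool.Agent.Lib.MPbe1941.XF.RE

open Pool.Agent.Lib.MPbe1941 Pool.Agent.Lib.MPbe1941.X
open Subgroup RD Pool.Agent.Lib.MPbe1941.XF.ST
open scoped commutatorElement

/-- A chain of steps. -/
theorem pre_of_ch {G0 G H : Type} [Group G0] [Group G] [Group H] [Finite G] {j : H →* G}
    {E : Subgroup G} {Q0 : Set ℕ} {C S0 : Subgroup H} (hC : ∀ c ∈ C, ∀ e ∈ E, j c * e = e * j c)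
    (h0 : Pre G0 j E Q0 S0 ⊥ S0) {S D K : Subgroup H} (h : Ch C S0 S D K) :
    Pre G0 j E Q0 S D K := by
  induction h with
  | base => exact h0
  | step D1 K1 K' bet _ hD1 hD1C _ hn hK1 hinf hsup hlin hK' ih =>
    refine ih.step (D1 := D1) (K1 := K1) (K' := K') (β := bet) hn
      (fun x hx e he => hC x (hD1C hx) e he) hinf hsup hlin.1 hlin.2 (fun k hk => ((hK' k).1 hk).1)
      (fun k hk => ?_)
    rw [hK' k]
    exact ⟨fun h1 => h1.2, fun h1 => ⟨hk, h1⟩⟩

/-- `pre_iq` for the finite sets of `Iq`. -/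
theorem iq_of {G0 G H : Type} [Group G0] [Group G] [Group H] [Finite G]
    (hsol : Group.IsSolvable G) {Θ : Finset ℕ} (hM : MC G0 Θ) {j : H →* G} {E : Subgroup G}
    {Q0 : Set ℕ} {S D K : Subgroup H} (h : Pre G0 j E Q0 S D K)
    (hlt : Nat.card (JJ j E K) < Nat.card G0) {T B0 : Finset ℕ} (hT : T ⊆ Θ) {C : Subgroup H}
    (hC : ∀ c, (∀ e ∈ E, j c * e = e * j c) → c ∈ C)
    (hE : ∀ r ∈ T, ∀ y ∈ E, (∃ n : ℕ, y ^ r ^ n = 1) → ∀ z ∈ E, (∃ m : ℕ, ¬ r ∣ m ∧ z ^ m = 1) →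
      y * z = z * y)
    (hTQ : ∀ r ∈ T, r ∉ Q0)
    (hB : ∀ r ∈ Θ, r ∉ T → r ∉ Q0 → NAS (JJ j E K) r → r ∈ B0) {c : ℕ}
    (hc : c + B0.card ≤ {r | r ∈ Θ ∧ r ∈ Q0}.ncard + 1) : Iq C T c S D := by
  classical
  have h1 := pre_iq hsol hM h hlt hT hC hE hTQ hB
  have e1 : {r | r ∈ T ∧ r ∣ S.index}.ncard = (chA T S).card := by
    rw [← Set.ncard_coe_finset]
    congr 1
    ext r
    simp [chA]
  have e2 : {r | r ∈ T ∧ ¬ r ∣ S.index ∧ Ms C S D r}.ncard = (chM C T S D).card := by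
    rw [← Set.ncard_coe_finset]
    congr 1
    ext r
    simp only [chM, Finset.coe_filter, Set.mem_ofPred_eq, Ms]
  rw [e1, e2] at h1
  unfold Iq
  omega

/-- The elements of `H` centralising `E`. -/
def CE {G : Type} [Group G] (E H : Subgroup G) : Subgroup H where
  carrier := {c | ∀ e ∈ E, (c : G) * e = e * c}
  one_mem' := fun e _ => by simp
  mul_mem' := fun {a b} ha hb e he => by
    rw [Subgroup.coe_mul, mul_assoc, hb e he, ← mul_assoc, ha e he, mul_assoc]
  inv_mem' := fun {a} ha e he => by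
    rw [Subgroup.coe_inv, inv_mul_eq_iff_eq_mul, ← mul_assoc, ha e he, mul_inv_cancel_right]

theorem mem_CE {G : Type} [Group G] {E H : Subgroup G} {c : H} :
    c ∈ CE E H ↔ ∀ e ∈ E, (c : G) * e = e * c := Iff.rfl

theorem CE_normal {G : Type} [Group G] {E H : Subgroup G} (hE : E.Normal) : (CE E H).Normal := by
  refine ⟨fun c hc h => ?_⟩
  intro e he
  have he' : (h : G)⁻¹ * e * (h : G) ∈ E := by
    have := hE.conj_mem e he (h : G)⁻¹
    rwa [inv_inv] at this
  have h1 := hc _ he'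
  have h2 : ((h * c * h⁻¹ : H) : G) = (h : G) * (c : G) * (h : G)⁻¹ := by
    rw [Subgroup.coe_mul, Subgroup.coe_mul, Subgroup.coe_inv]
  rw [h2]
  calc (h : G) * c * (h : G)⁻¹ * e = h * (c * ((h : G)⁻¹ * e * h)) * (h : G)⁻¹ := by group
    _ = h * (((h : G)⁻¹ * e * h) * c) * (h : G)⁻¹ := by rw [h1]
    _ = e * (h * c * (h : G)⁻¹) := by group

/-- **Case I.** -/
theorem datI_of {G : Type} [Group G] {Θ : Finset ℕ} (hmc : MC G Θ)
    {N E H : Subgroup G} {T : Finset ℕ} (h : CaseI Θ N E H T) :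
    ∃ (W : Type) (_ : AddCommGroup W) (_ : DistribMulAction H W), DatI H W (CE E H) T := by
  classical
  have hfin := hmc.fin
  have hNn := h.Nm.1
  obtain ⟨W, iW, iD, ev, hW⟩ := exists_isDQ N ⊥ H hNn inferInstance bot_le (fun x hx y hy => by
    rw [Subgroup.mem_bot, h.Nab x hx y hy]; group)
  refine ⟨W, iW, iD, ?_⟩
  have hsolG : Group.IsSolvable G := hmc.sol
  have hmin : ∀ M : Subgroup G, ⊥ ≤ M → M ≤ N → (∀ k ∈ H, ∀ x ∈ M, k * x * k⁻¹ ∈ M) →
      (∀ k ∈ N, ∀ x ∈ M, k * x * k⁻¹ ∈ M) → M = ⊥ ∨ M = N := fun M _ hMN hMH _ =>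
    h.Nmin M hMN hMH
  refine
    { finH := inferInstance
      finW := hW.fin
      ntW := hW.nontriv bot_le h.Nm.2.1.symm
      sol := inferInstance
      irr := fun A hA => hW.irr hNn bot_le hmin A hA
      nor := CE_normal h.En
      faith := ?_
      tp := h.Tp
      st := ?_ }
  · intro c hc hcW
    have h1 : (c : G) = 1 := by
      apply h.faith c c.2
      · intro x hx
        have h2 : (c : G) * x * (c : G)⁻¹ * x⁻¹ ∈ (⊥ : Subgroup G) := by
          refine hW.mem_base bot_le (N.mul_mem (hNn.conj_mem x hx _) (N.inv_mem hx)) (fun μ => ?_)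
          exact (hW.smul_iff' hNn c μ).1 (hcW μ) x hx
        rw [Subgroup.mem_bot] at h2
        calc (c : G) * x = ((c : G) * x * (c : G)⁻¹ * x⁻¹) * (x * c) := by group
          _ = x * c := by rw [h2, one_mul]
      · exact fun e he => hc e he
    exact Subtype.ext h1
  · intro v S D K hch
    have hS : ∀ k : H, k ∈ Stb (⊤ : Subgroup H) v ↔
        ∀ x ∈ N, ev v (H.subtype k * x * (H.subtype k)⁻¹) = ev v x := by
      intro k
      have h1 : k ∈ Stb (⊤ : Subgroup H) v ↔ k • v = v :=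
        ⟨fun h => h.2, fun h => ⟨trivial, h⟩⟩
      rw [h1, hW.smul_iff hNn]
      rfl
    have hpre := Pre.lin h.emb hNn h.NE h.inf h.sup (hW.chr v).one (hW.chr v).mul hS
    have hpre2 := pre_of_ch (C := CE E H) (fun c hc e he => hc e he) hpre hch
    refine iq_of (B0 := ∅) (C := CE E H) hsolG hmc hpre2 (h.card_lt K) h.TΘ (fun c hc => hc) ?_ ?_ ?_ ?_
    · intro r hr y hy hyr z hz _
      exact h.rel r hr y hy hyr z hz
    · intro r _ hr
      exact hr.elim
    · intro r hr hrT _ hnas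
      exact absurd hnas (h.nas r hr hrT K)
    · rw [Finset.card_empty]
      omega

end Pool.Agent.Lib.MPbe1941.XF.RE
end

section
/-!
# MP_be1941_al, exact bound, reduction: Case II, basic facts and the nonlinear states
-/
set_option autoImplicit false

namespace Pool.Agent.Lib.MPbe1941.XF.RE

open Pool.Agent.Lib.MPbe1941 Pool.Agent.Lib.MPbe1941.X
open Subgroup RD Pool.Agent.Lib.MPbe1941.XF.ST
open scoped commutatorElement

/-! ### The group `Φ(P)` -/

section

variable {G : Type} [Group G] {P : Subgroup G} {p : ℕ}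

theorem pow_mem_phi {x : G} (hx : x ∈ P) : x ^ p ∈ RB.PhiG P p :=
  Subgroup.mem_sup_right (Subgroup.subset_closure ⟨x, hx, rfl⟩)

theorem comm_le_phi : ⁅P, P⁆ ≤ RB.PhiG P p := le_sup_left

theorem phi_le : RB.PhiG P p ≤ P := by
  refine sup_le (comm_self_le P) ?_
  rw [Subgroup.closure_le]
  rintro _ ⟨x, hx, rfl⟩
  exact P.pow_mem hx p

theorem cm_mem_phi {x y : G} (hx : x ∈ P) (hy : y ∈ P) : x * y * x⁻¹ * y⁻¹ ∈ RB.PhiG P p :=
  comm_le_phi (cm_mem P hx hy)

/-- `Φ(P)` is central. -/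
theorem phi_cen (hc : ∀ x ∈ ⁅P, P⁆, ∀ y ∈ P, x * y = y * x) (hexp : ∀ x ∈ ⁅P, P⁆, x ^ p = 1) :
    ∀ x ∈ RB.PhiG P p, ∀ y ∈ P, x * y = y * x := by
  have h1 : RB.PhiG P p ≤ RB.Zc P := by
    refine sup_le ?_ ?_
    · intro x hx
      rw [RB.ELEM.zc_mem]
      exact ⟨comm_self_le P hx, hc x hx⟩
    · rw [Subgroup.closure_le]
      rintro _ ⟨x, hx, rfl⟩
      change x ^ p ∈ RB.Zc P
      rw [RB.ELEM.zc_mem]
      refine ⟨P.pow_mem hx p, fun y hy => ?_⟩
      have h1 := RB.RADM.cm_pow hc hx hy p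
      rw [hexp _ (cm_mem P hx hy)] at h1
      unfold RB.cm at h1
      exact mul_inv_eq_iff_eq_mul.mp (mul_inv_eq_one.mp h1)
  intro x hx y hy
  exact (RB.ELEM.zc_mem.1 (h1 hx)).2 y hy

end

namespace CaseII

variable {G : Type} [Group G] {Θ : Finset ℕ} {p : ℕ} {P E H : Subgroup G} {T : Finset ℕ}

theorem phic (h : CaseII Θ p P E H T) : ∀ x ∈ RB.PhiG P p, ∀ y ∈ P, x * y = y * x :=
  phi_cen h.cen h.exp

theorem phine (h : CaseII Θ p P E H T) : RB.PhiG P p ≠ P := by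
  intro h1
  apply h.nab
  rw [eq_bot_iff, Subgroup.commutator_le]
  intro x hx y hy
  rw [Subgroup.mem_bot, commutatorElement_eq_one_iff_mul_comm]
  exact h.phic x (by rw [h1]; exact hx) y hy

theorem phibot (h : CaseII Θ p P E H T) : RB.PhiG P p ≠ ⊥ := by
  intro h1
  apply h.nab
  rw [eq_bot_iff, ← h1]
  exact comm_le_phi

theorem H_le (_h : CaseII Θ p P E H T) : H ≤ JJ H.subtype E ⊤ := by
  intro x hx
  exact Subgroup.mem_sup_right ⟨⟨x, hx⟩, trivial, rfl⟩

theorem E_le (_h : CaseII Θ p P E H T) : E ≤ JJ H.subtype E ⊤ := le_sup_left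

/-- `P ∩ E H = 1`. -/
theorem pj (h : CaseII Θ p P E H T) {x : G} (hx : x ∈ P) (hx2 : x ∈ JJ H.subtype E ⊤) : x = 1 := by
  have : x ∈ P ⊓ JJ H.subtype E ⊤ := ⟨hx, hx2⟩
  rwa [h.inf, Subgroup.mem_bot] at this

/-- Elements of `G`. -/
theorem dec (h : CaseII Θ p P E H T) (g : G) : ∃ x ∈ P, ∃ e ∈ E, ∃ k ∈ H, g = x * e * k := by
  have hPn := h.Pn
  have hg : g ∈ P ⊔ JJ H.subtype E ⊤ := by rw [h.sup]; exact Subgroup.mem_top g
  obtain ⟨x, hx, y, hy, rfl⟩ := Subgroup.mem_sup_of_normal_left.1 hg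
  obtain ⟨e, he, k, -, rfl⟩ := (mem_JJ h.emb).1 hy
  exact ⟨x, hx, e, he, k, k.2, by rw [mul_assoc]; rfl⟩

/-- Subgroups of `P` which are invariant under `P` and `H` are normal. -/
theorem normal_of (h : CaseII Θ p P E H T) {M : Subgroup G} (hM : M ≤ P)
    (hP : ∀ g ∈ P, ∀ x ∈ M, g * x * g⁻¹ ∈ M) (hH : ∀ g ∈ H, ∀ x ∈ M, g * x * g⁻¹ ∈ M) :
    M.Normal := by
  refine ⟨fun x hx g => ?_⟩
  obtain ⟨a, ha, e, he, k, hk, rfl⟩ := h.dec g
  have h1 := hH k hk x hx
  have h2 := h.PE _ (hM h1) e he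
  have h3 : a * e * k * x * (a * e * k)⁻¹ = a * (k * x * k⁻¹) * a⁻¹ := by
    calc a * e * k * x * (a * e * k)⁻¹ = a * (e * (k * x * k⁻¹)) * e⁻¹ * a⁻¹ := by group
      _ = a * (k * x * k⁻¹ * e) * e⁻¹ * a⁻¹ := by rw [h2]
      _ = a * (k * x * k⁻¹) * a⁻¹ := by group
  rw [h3]
  exact hP a ha _ h1

theorem pH [Finite G] (h : CaseII Θ p P E H T) : ¬ p ∣ Nat.card H := by
  intro hd
  apply h.pJ
  rw [card_JJ h.emb, Subgroup.card_top]
  exact hd.mul_left _

theorem pE [Finite G] (h : CaseII Θ p P E H T) : ¬ p ∣ Nat.card E := by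
  intro hd
  apply h.pJ
  rw [card_JJ h.emb]
  exact hd.mul_right _

theorem Zn (h : CaseII Θ p P E H T) : (⁅P, P⁆ : Subgroup G).Normal := by
  have := h.Pn
  infer_instance

theorem phin (h : CaseII Θ p P E H T) : (RB.PhiG P p).Normal := RB.ELEM.phi_normal h.Pn p

/-- `C` is faithful on `X`. -/
theorem cfaith [Finite G] (h : CaseII Θ p P E H T) {X : Type} [AddCommGroup X]
    [DistribMulAction H X] {ev : X → G → ℂ} (hX : IsDQ P (RB.PhiG P p) H X ev) :
    ∀ c ∈ CE E H, (∀ x : X, c • x = x) → c = 1 := by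
  intro c hc hcX
  have h1 : ∀ x ∈ P, (c : G) * x * (c : G)⁻¹ * x⁻¹ ∈ RB.PhiG P p := by
    intro x hx
    refine hX.mem_base phi_le (P.mul_mem (h.Pn.conj_mem x hx _) (P.inv_mem hx)) (fun μ => ?_)
    exact (hX.smul_iff' h.Pn c μ).1 (hcX μ) x hx
  have h2 : ∀ x ∈ P, (c : G) * x = x * c := by
    refine RB.specFT1 G P p c h.pp h.Pp ?_ ?_ ?_ h1
    · intro x hx
      rw [RB.ELEM.zc_mem]
      exact ⟨phi_le hx, h.phic x hx⟩
    · intro x
      constructor
      · intro hx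
        exact h.Pn.conj_mem x hx _
      · intro hx
        have := h.Pn.conj_mem _ hx (c : G)⁻¹
        have e : (c : G)⁻¹ * (c * x * (c : G)⁻¹) * (c : G)⁻¹⁻¹ = x := by group
        rwa [e] at this
    · intro hd
      apply h.pH
      rw [Subgroup.orderOf_coe] at hd
      exact hd.trans (orderOf_dvd_natCard c)
  exact Subtype.ext (h.faith c c.2 h2 (fun e he => hc e he))

end CaseII

/-! ### The groups `R μ` -/

section

variable {G : Type} [Group G] {P Φ H : Subgroup G} {X Zd : Type} [AddCommGroup X]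
  [DistribMulAction H X] [AddCommGroup Zd] [DistribMulAction H Zd] {ev : X → G → ℂ}
  {eZ : Zd → G → ℂ}

/-- The annihilator of the radical of `μ [x, y]`. -/
def RR (hX : IsDQ P Φ H X ev) (eZ : Zd → G → ℂ) (μ : Zd) : AddSubgroup X where
  carrier := {ν | ∀ x ∈ P, (∀ y ∈ P, eZ μ (RB.cm x y) = 1) → ev ν x = 1}
  zero_mem' := fun _ hx _ => hX.zero hx
  add_mem' := fun {a b} ha hb x hx hr => by
    rw [hX.add a b x hx, ha x hx hr, hb x hx hr, one_mul]
  neg_mem' := fun {a} ha x hx hr => by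
    rw [hX.neg a hx, ha x hx hr, inv_one]

omit [AddCommGroup Zd] [DistribMulAction H Zd] in
theorem mem_RR (hX : IsDQ P Φ H X ev) {μ : Zd} {ν : X} :
    ν ∈ RR hX eZ μ ↔ ∀ x ∈ P, (∀ y ∈ P, eZ μ (RB.cm x y) = 1) → ev ν x = 1 := Iff.rfl

/-- The radical is invariant. -/
theorem rad_conj (hZ : IsDQ ⁅P, P⁆ ⊥ H Zd eZ) (hP : P.Normal) {μ : Zd} {k : H} (hk : k • μ = μ)
    {x : G} (hr : ∀ y ∈ P, eZ μ (RB.cm x y) = 1) (hx : x ∈ P) :
    ∀ y ∈ P, eZ μ (RB.cm ((k : G) * x * (k : G)⁻¹) y) = 1 := by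
  intro y hy
  have hy' : (k : G)⁻¹ * y * k ∈ P := by
    have := hP.conj_mem y hy (k : G)⁻¹
    rwa [inv_inv] at this
  have e : RB.cm ((k : G) * x * (k : G)⁻¹) y = k * RB.cm x ((k : G)⁻¹ * y * k) * (k : G)⁻¹ := by
    unfold RB.cm
    group
  have hn : (⁅P, P⁆ : Subgroup G).Normal := inferInstance
  rw [e, (hZ.smul_iff hn k μ).1 hk _ (cm_mem P hx hy')]
  exact hr _ hy'

theorem rin_of (hX : IsDQ P Φ H X ev) (hZ : IsDQ ⁅P, P⁆ ⊥ H Zd eZ) (hP : P.Normal) (μ : Zd)
    (k : H) (hk : k • μ = μ) : ∀ ν ∈ RR hX eZ μ, k • ν ∈ RR hX eZ μ := by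
  intro ν hν x hx hr
  have hk' : k⁻¹ • μ = μ := by rw [inv_smul_eq_iff, hk]
  have hx' : ((k⁻¹ : H) : G) * x * ((k⁻¹ : H) : G)⁻¹ ∈ P := hP.conj_mem x hx _
  have h1 := hν _ hx' (rad_conj hZ hP hk' hr hx)
  have h2 := hX.act ν k _ hx'
  rw [h1] at h2
  rw [← h2]
  congr 1
  rw [Subgroup.coe_inv]
  group

/-- **ndg**. -/
theorem ndg_of (hX : IsDQ P Φ H X ev) (hZ : IsDQ ⁅P, P⁆ ⊥ H Zd eZ) {p : ℕ} (hp : p.Prime)
    (hle : Φ ≤ P) (hne : Φ ≠ P) (hpX : ∀ x : X, p • x = 0)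
    (hc : ∀ x ∈ ⁅P, P⁆, ∀ y ∈ P, x * y = y * x) (hΦ : ∀ x ∈ Φ, ∀ y ∈ P, x * y = y * x)
    (h0 : ∀ μ : Zd, μ ≠ 0 → RR hX eZ μ = ⊤) : p * Nat.card Zd ≤ Nat.card X := by
  classical
  have := hX.fin
  have := hZ.fin
  obtain ⟨x, hx, hxΦ⟩ : ∃ x ∈ P, x ∉ Φ := by
    by_contra hcon
    push Not at hcon
    exact hne (le_antisymm hle hcon)
  have hch : ∀ μ : Zd, ∃ χ : X, ∀ y ∈ P, ev χ y = eZ μ (RB.cm x y) := by
    intro μ
    refine hX.surj (fun y => eZ μ (RB.cm x y)) ⟨?_, ?_⟩ ?_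
    · have : RB.cm x 1 = 1 := by unfold RB.cm; group
      rw [this]
      exact (hZ.chr μ).one
    · intro y hy y' hy'
      rw [RB.RADM.cm_mul_right hc hx hy hy', (hZ.chr μ).mul _ (cm_mem P hx hy) _ (cm_mem P hx hy')]
    · intro y hy
      have : RB.cm x y = 1 := by
        unfold RB.cm
        rw [← hΦ y hy x hx]
        group
      rw [this]
      exact (hZ.chr μ).one
  choose φ hφ using hch
  have hadd : ∀ μ ν, φ (μ + ν) = φ μ + φ ν := by
    intro μ ν
    refine hX.ext _ _ (fun y hy => ?_)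
    rw [hφ _ y hy, hX.add _ _ y hy, hφ _ y hy, hφ _ y hy, hZ.add _ _ _ (cm_mem P hx hy)]
  let F : Zd →+ X := AddMonoidHom.mk' φ hadd
  have hF : ∀ μ, F μ = φ μ := fun _ => rfl
  have hinj : Function.Injective F := by
    rw [injective_iff_map_eq_zero]
    intro μ hμ
    by_contra hne2
    have h1 := h0 μ hne2
    apply hxΦ
    refine hX.mem_base hle hx (fun ν => ?_)
    have h2 : ν ∈ RR hX eZ μ := by rw [h1]; trivial
    refine h2 x hx (fun y hy => ?_)
    rw [← hφ μ y hy, ← hF, hμ, hX.zero hy]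
  have hcard : Nat.card F.range = Nat.card Zd :=
    (Nat.card_congr (AddMonoidHom.ofInjective hinj).toEquiv).symm
  have htop : F.range ≠ ⊤ := by
    intro h1
    apply hxΦ
    refine hX.mem_base hle hx (fun ν => ?_)
    have h2 : ν ∈ F.range := by rw [h1]; trivial
    obtain ⟨μ, rfl⟩ := h2
    rw [hF, hφ μ x hx]
    have : RB.cm x x = 1 := by unfold RB.cm; group
    rw [this]
    exact (hZ.chr μ).one
  have hidx : p ≤ F.range.index := by
    have h1 : F.range.index ≠ 1 := fun h => htop (AddSubgroup.index_eq_one.1 h)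
    have hq := Nat.minFac_prime h1
    have hqd := Nat.minFac_dvd F.range.index
    have h2 : F.range.index.minFac ∣ Nat.card X := hqd.trans (AddSubgroup.index_dvd_card _)
    have : Fact (F.range.index.minFac).Prime := ⟨hq⟩
    obtain ⟨y, hy⟩ := exists_prime_addOrderOf_dvd_card' (F.range.index.minFac) h2
    have h3 : F.range.index.minFac ∣ p := by
      rw [← hy]
      exact addOrderOf_dvd_of_nsmul_eq_zero (hpX y)
    have h4 := (Nat.prime_dvd_prime_iff_eq hq hp).1 h3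
    rw [← h4]
    exact Nat.minFac_le (Nat.pos_of_ne_zero AddSubgroup.FiniteIndex.index_ne_zero)
  rw [← AddSubgroup.card_mul_index F.range, hcard, mul_comm p]
  exact Nat.mul_le_mul_left _ hidx

end

/-- **The nonlinear states.** -/
theorem CaseII.stN {G : Type} [Group G] {Θ : Finset ℕ} (hmc : MC G Θ) {p : ℕ}
    {P E H : Subgroup G} {T : Finset ℕ} (h : CaseII Θ p P E H T) {X Zd : Type} [AddCommGroup X]
    [DistribMulAction H X] [AddCommGroup Zd] [DistribMulAction H Zd] {ev : X → G → ℂ}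
    {eZ : Zd → G → ℂ} (hX : IsDQ P (RB.PhiG P p) H X ev) (hZ : IsDQ ⁅P, P⁆ ⊥ H Zd eZ)
    (μ : Zd) (ν : X) (hμ : μ ≠ 0) (S0 : Subgroup H)
    (hS0 : ∀ k, k ∈ S0 ↔ k • μ = μ ∧ k • ν - ν ∈ RR hX eZ μ) {S D K : Subgroup H}
    (hch : Ch (CE E H) S0 S D K) : Iq (CE E H) T 2 S D := by
  classical
  have hfin := hmc.fin
  have hsolG : Group.IsSolvable G := hmc.sol
  have hPn := h.Pn
  have hZn := h.Zn
  have hle : RB.PhiG P p ≤ P := phi_le
  have hf : RB.IsChar ⁅P, P⁆ (eZ μ) := hZ.chr μ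
  obtain ⟨Kr, hKr⟩ := RB.RADM.rad h.cen (eZ μ) hf
  have hKP : Kr ≤ P := fun x hx => ((hKr x).1 hx).1
  have hf1 : ∃ x ∈ ⁅P, P⁆, eZ μ x ≠ 1 := by
    by_contra hcon
    push Not at hcon
    exact hμ (hZ.eq_zero hcon)
  have hα : RB.IsChar Kr (ev ν) :=
    ⟨(hX.chr ν).one, fun x hx y hy => (hX.chr ν).mul x (hKP hx) y (hKP hy)⟩
  have hS : ∀ k : H, k ∈ S0 ↔
      (∀ x ∈ ⁅P, P⁆, eZ μ (H.subtype k * x * (H.subtype k)⁻¹) = eZ μ x) ∧
        ∀ x ∈ Kr, ev ν (H.subtype k * x * (H.subtype k)⁻¹) = ev ν x := by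
    intro k
    rw [hS0 k, hZ.smul_iff hZn]
    change _ ↔ (∀ x ∈ ⁅P, P⁆, eZ μ ((k : G) * x * (k : G)⁻¹) = eZ μ x) ∧
      ∀ x ∈ Kr, ev ν ((k : G) * x * (k : G)⁻¹) = ev ν x
    refine and_congr_right fun hk => ?_
    have hk' : ∀ x ∈ ⁅P, P⁆, eZ μ ((k : G)⁻¹ * x * ((k : G)⁻¹)⁻¹) = eZ μ x := by
      intro x hx
      have hx' := hZn.conj_mem x hx (k : G)⁻¹
      rw [← hk _ hx']
      congr 1
      group
    constructor
    · intro h1 x hx
      have hx' := rad_inv hPn hKr hk x hx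
      have h2 := h1 _ (hKP hx') ((hKr _).1 hx').2
      rw [hX.sub _ _ (hKP hx'), hX.act ν k x (hKP hx)] at h2
      have h3 := chr_ne (hX.chr ν) (hKP hx')
      field_simp at h2
      exact h2.symm
    · intro h1 x hx hr
      have hxK : x ∈ Kr := (hKr x).2 ⟨hx, hr⟩
      have hx' := rad_inv hPn hKr hk' x hxK
      have h2 := h1 _ hx'
      have h3 := hX.act ν k _ (hKP hx')
      have e : (k : G) * ((k : G)⁻¹ * x * ((k : G)⁻¹)⁻¹) * (k : G)⁻¹ = x := by group
      rw [e] at h2 h3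
      rw [hX.sub _ _ hx, h3, ← h2]
      exact mul_inv_cancel₀ (chr_ne (hX.chr ν) hx)
  have hpre := Pre.nst (S := S0) h.pp h.emb hPn h.Pp h.cen h.exp h.PE h.inf h.sup h.pJ hf hf1 hKr
    hα (fun x hx => hX.tri ν x (comm_le_phi hx)) hS
  have hpre2 := pre_of_ch (C := CE E H) (fun c hc e he => hc e he) hpre hch
  have hlt : Nat.card (JJ H.subtype E K) < Nat.card G := by
    have h1 : Nat.card (JJ H.subtype E K) ≤ Nat.card (JJ H.subtype E (⊤ : Subgroup H)) :=
      Subgroup.card_le_of_le (JJ_mono le_top)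
    have h2 : Nat.card (JJ H.subtype E (⊤ : Subgroup H)) < Nat.card G := by
      rw [← Subgroup.card_top (G := G)]
      refine lt_of_le_of_ne (Subgroup.card_le_of_le le_top) ?_
      intro h3
      have h4 : JJ H.subtype E (⊤ : Subgroup H) = ⊤ :=
        Subgroup.eq_of_le_of_card_ge le_top h3.ge
      have h5 := h.inf
      rw [h4, inf_top_eq] at h5
      apply h.nab
      rw [h5, Subgroup.commutator_bot_left]
    omega
  refine iq_of (B0 := ∅) (C := CE E H) hsolG hmc hpre2 hlt h.TΘ (fun c hc => hc) ?_ ?_ ?_ ?_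
  · intro r hr y hy ⟨n, hn⟩ z _ _
    have h1 : orderOf y ∣ r ^ n := orderOf_dvd_of_pow_eq_one hn
    have h2 : orderOf y ∣ Nat.card E := by
      have := orderOf_dvd_natCard (⟨y, hy⟩ : E)
      rwa [Subgroup.orderOf_mk] at this
    have h3 : y = 1 := by
      obtain ⟨a, -, ha⟩ := (Nat.dvd_prime_pow (h.Tp r hr).1).1 h1
      rcases Nat.eq_zero_or_pos a with h4 | h4
      · rw [h4, pow_zero] at ha
        exact orderOf_eq_one_iff.1 ha
      · exfalso
        apply h.TE r hr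
        refine dvd_trans ?_ h2
        rw [ha]
        exact dvd_pow_self r h4.ne'
    rw [h3, one_mul, mul_one]
  · intro r hr hr2
    rw [Set.mem_singleton_iff] at hr2
    exact h.pT (hr2 ▸ hr)
  · intro r hr hrT hrp hnas
    exfalso
    obtain ⟨x, hx, y, hy, hxr, hyr, hxy⟩ := h.oth r hr hrT hrp
    exact hxy (nas_comm (hmc.prime r hr) hnas (Subgroup.mem_sup_left hx)
      (Subgroup.mem_sup_left hy) hxr hyr)
  · have e1 : {r | r ∈ Θ ∧ r ∈ ({p} : Set ℕ)} = {p} := by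
      ext r
      simp only [Set.mem_ofPred_eq, Set.mem_singleton_iff]
      constructor
      · exact fun h => h.2
      · rintro rfl
        exact ⟨h.pΘ, rfl⟩
    rw [Finset.card_empty, e1, Set.ncard_singleton]

end Pool.Agent.Lib.MPbe1941.XF.RE
end

section
/-!
# MP_be1941_al, exact bound, reduction: Case II, the linear states
-/
set_option autoImplicit false

namespace Pool.Agent.Lib.MPbe1941.XF.RE

open Pool.Agent.Lib.MPbe1941 Pool.Agent.Lib.MPbe1941.X
open Subgroup RD Pool.Agent.Lib.MPbe1941.XF.ST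
open scoped commutatorElement

section

variable {G : Type} [Group G] {Θ : Finset ℕ} {p : ℕ} {P E H : Subgroup G} {T : Finset ℕ}

/-- Elements of `H` in `P E`. -/
theorem CaseII.hPE (h : CaseII Θ p P E H T) {k : H} (hk : (k : G) ∈ P ⊔ E) : k = 1 := by
  have hPn := h.Pn
  obtain ⟨x, hx, e, he, hxe⟩ := Subgroup.mem_sup_of_normal_left.1 hk
  have h1 : x = 1 := by
    apply h.pj hx
    have : x = k * e⁻¹ := by rw [← hxe]; group
    rw [this]
    exact Subgroup.mul_mem _ (h.H_le k.2) (Subgroup.inv_mem _ (h.E_le he))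
  rw [h1, one_mul] at hxe
  exact h.emb.dis k (by rw [Subgroup.subtype_apply, ← hxe]; exact he)

/-- `P ∩ E = 1`. -/
theorem CaseII.pe (h : CaseII Θ p P E H T) {x : G} (hx : x ∈ P) (hx2 : x ∈ E) : x = 1 :=
  h.pj hx (h.E_le hx2)

/-- The states of a linear character `v ∈ X₁`, `X = X₁ ⊕ X₂`. -/
theorem CaseII.stL (hmc : MC G Θ) (h : CaseII Θ p P E H T) {X : Type}
    [AddCommGroup X] [DistribMulAction H X] {ev : X → G → ℂ}
    (hX : IsDQ P (RB.PhiG P p) H X ev) (X1 X2 : AddSubgroup X) (h1 : HInv H X1) (h2 : HInv H X2)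
    (h12 : X1 ⊓ X2 = ⊥) (h12' : X1 ⊔ X2 = ⊤) (v : X) (hv : v ∈ X1) {S D K : Subgroup H}
    (hch : Ch (CenX (CE E H) X2) (Stb ⊤ v) S D K) : Iq (CenX (CE E H) X2) T 0 S D := by
  classical
  have hfin := hmc.fin
  have hsolG : Group.IsSolvable G := hmc.sol
  have hPn := h.Pn
  have hEn := h.En
  obtain ⟨Φ, hΦdef⟩ : ∃ Φ, Φ = RB.PhiG P p := ⟨_, rfl⟩
  have hΦn : Φ.Normal := by rw [hΦdef]; exact h.phin
  have hΦP : Φ ≤ P := by rw [hΦdef]; exact phi_le
  have hcmΦ : ∀ x ∈ P, ∀ y ∈ P, x * y * x⁻¹ * y⁻¹ ∈ Φ := by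
    rw [hΦdef]; exact fun x hx y hy => cm_mem_phi hx hy
  have hΦbot : Φ ≠ ⊥ := by rw [hΦdef]; exact h.phibot
  rw [← hΦdef] at hX
  obtain ⟨P1, hP1⟩ : ∃ P1, P1 = hX.ann X2 := ⟨_, rfl⟩
  obtain ⟨P2, hP2⟩ : ∃ P2, P2 = hX.ann X1 := ⟨_, rfl⟩
  have hP1P : P1 ≤ P := by rw [hP1]; exact hX.ann_le _
  have hP2P : P2 ≤ P := by rw [hP2]; exact hX.ann_le _
  have hΦ1 : Φ ≤ P1 := by rw [hP1]; exact hX.le_ann hΦP _
  have hΦ2 : Φ ≤ P2 := by rw [hP2]; exact hX.le_ann hΦP _
  have hP1n : P1.Normal := by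
    rw [hP1]
    exact h.normal_of (hX.ann_le _) hX.ann_conj (hX.ann_inv hPn h2)
  have hP2n : P2.Normal := by
    rw [hP2]
    exact h.normal_of (hX.ann_le _) hX.ann_conj (hX.ann_inv hPn h1)
  have hi : P1 ⊓ P2 = Φ := by
    rw [hP1, hP2]
    exact hX.ann_inf hΦP (by rw [sup_comm]; exact h12')
  have hs : P1 ⊔ P2 = P := by
    rw [hP1, hP2]
    exact hX.ann_sup hΦP (by rw [inf_comm]; exact h12)
  obtain ⟨B, hB⟩ : ∃ B, B = P2 ⊔ E := ⟨_, rfl⟩
  have hBn : B.Normal := by rw [hB]; exact Subgroup.sup_normal _ _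
  have hBPE : B ≤ P ⊔ E := by rw [hB]; exact sup_le_sup_right hP2P E
  have hΦB : Φ ≤ B := by rw [hB]; exact hΦ2.trans le_sup_left
  have hEB : E ≤ B := by rw [hB]; exact le_sup_right
  have hBdec : ∀ b ∈ B, ∃ y ∈ P2, ∃ e ∈ E, y * e = b := by
    intro b hb
    rw [hB] at hb
    exact Subgroup.mem_sup_of_normal_left.1 hb
  obtain ⟨π, hπdef⟩ : ∃ π : G →* G ⧸ Φ, π = QuotientGroup.mk' Φ := ⟨_, rfl⟩
  have hπ : ∀ g, π g = 1 ↔ g ∈ Φ := fun g => by
    rw [hπdef]; exact QuotientGroup.eq_one_iff g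
  have hπs : Function.Surjective π := by rw [hπdef]; exact QuotientGroup.mk'_surjective Φ
  have hπe : ∀ a b, π a = π b → a⁻¹ * b ∈ Φ := by
    intro a b hab
    rw [← hπ, map_mul, map_inv, hab, inv_mul_cancel]
  obtain ⟨E', hE'⟩ : ∃ E' : Subgroup (G ⧸ Φ), E' = B.map π := ⟨_, rfl⟩
  obtain ⟨N, hN⟩ : ∃ N : Subgroup (G ⧸ Φ), N = P1.map π := ⟨_, rfl⟩
  have hmemE : ∀ {e : G ⧸ Φ}, e ∈ E' ↔ ∃ b ∈ B, π b = e := by
    intro e; rw [hE']; exact Subgroup.mem_map
  have hmemN : ∀ {e : G ⧸ Φ}, e ∈ N ↔ ∃ b ∈ P1, π b = e := by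
    intro e; rw [hN]; exact Subgroup.mem_map
  obtain ⟨j, hj⟩ : ∃ j : H →* G ⧸ Φ, ∀ k : H, j k = π (k : G) := ⟨π.comp H.subtype, fun _ => rfl⟩
  have hEmb : Emb j E' :=
    { inj := by
        rw [injective_iff_map_eq_one]
        intro k hk
        rw [hj, hπ] at hk
        exact h.hPE (Subgroup.mem_sup_left (hΦP hk))
      nor := by
        intro k e he
        obtain ⟨b, hb, rfl⟩ := hmemE.1 he
        rw [hj, ← map_mul, ← map_inv, ← map_mul]
        exact hmemE.2 ⟨_, hBn.conj_mem b hb k, rfl⟩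
      dis := by
        intro k hk
        obtain ⟨b, hb, hbk⟩ := hmemE.1 hk
        rw [hj] at hbk
        apply h.hPE
        apply hBPE
        have h3 := B.mul_mem hb (hΦB (hπe _ _ hbk))
        rwa [mul_inv_cancel_left] at h3 }
  have hNn : N.Normal := by
    rw [hN]
    exact hP1n.map π hπs
  have hcomm : ∀ x ∈ P, ∀ y ∈ P, π (x * y) = π (y * x) := by
    intro x hx y hy
    have h3 := (hπ _).2 (hcmΦ x hx y hy)
    rw [map_mul, map_mul, map_mul, map_inv, map_inv] at h3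
    rw [map_mul, map_mul]
    exact mul_inv_eq_iff_eq_mul.1 (mul_inv_eq_one.1 h3)
  have hNE : ∀ x ∈ N, ∀ e ∈ E', x * e = e * x := by
    intro x hx e he
    obtain ⟨a, ha, rfl⟩ := hmemN.1 hx
    obtain ⟨b, hb, rfl⟩ := hmemE.1 he
    obtain ⟨y, hy, e0, he0, rfl⟩ := hBdec b hb
    rw [← map_mul, ← map_mul]
    have e1 : a * (y * e0) = (a * y) * e0 := by group
    have e2 : y * e0 * a = (y * a) * e0 := by
      rw [mul_assoc, ← h.PE a (hP1P ha) e0 he0, ← mul_assoc]
    rw [e1, e2, map_mul, hcomm a (hP1P ha) y (hP2P hy), ← map_mul]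
  have hNinf : N ⊓ JJ j E' ⊤ = ⊥ := by
    rw [Subgroup.eq_bot_iff_forall]
    rintro x ⟨hx, hx2⟩
    obtain ⟨a, ha, rfl⟩ := hmemN.1 hx
    obtain ⟨e, he, k, -, hek⟩ := (mem_JJ hEmb).1 hx2
    obtain ⟨b, hb, rfl⟩ := hmemE.1 he
    obtain ⟨y, hy, e0, he0, rfl⟩ := hBdec b hb
    rw [hj, ← map_mul] at hek
    have h3 := hπe _ _ hek
    -- `t = (y e0 k)⁻¹ a ∈ Φ`
    obtain ⟨t, ht, hta⟩ : ∃ t ∈ Φ, y * e0 * (k : G) * t = a :=
      ⟨_, h3, by group⟩
    have h4 : y⁻¹ * a * t⁻¹ = e0 * k := by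
      rw [← hta]; group
    have h5 : y⁻¹ * a * t⁻¹ = 1 := by
      apply h.pj
      · exact P.mul_mem (P.mul_mem (P.inv_mem (hP2P hy)) (hP1P ha)) (P.inv_mem (hΦP ht))
      · rw [h4]
        exact Subgroup.mul_mem _ (h.E_le he0) (h.H_le k.2)
    have h6 : a ∈ P2 := by
      have : a = y * t := by
        rw [mul_inv_eq_one] at h5
        rw [← h5]; group
      rw [this]
      exact P2.mul_mem hy (hΦ2 ht)
    rw [hπ, ← hi]
    exact ⟨ha, h6⟩
  have hNsup : N ⊔ JJ j E' ⊤ = ⊤ := by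
    rw [eq_top_iff]
    intro g _
    obtain ⟨g0, rfl⟩ := hπs g
    obtain ⟨x, hx, e, he, k, hk, rfl⟩ := h.dec g0
    rw [← hs] at hx
    obtain ⟨a, ha, y, hy, rfl⟩ := Subgroup.mem_sup_of_normal_left.1 hx
    have e1 : π (a * y * e * k) = π a * (π (y * e) * j ⟨k, hk⟩) := by
      rw [hj, ← map_mul, ← map_mul]
      congr 1
      group
    rw [e1]
    refine Subgroup.mul_mem _ (Subgroup.mem_sup_left (hmemN.2 ⟨a, ha, rfl⟩))
      (Subgroup.mem_sup_right ((mem_JJ hEmb).2 ⟨_, hmemE.2 ⟨y * e, ?_, rfl⟩, _, trivial, rfl⟩))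
    rw [hB]
    exact Subgroup.mul_mem_sup hy he
  -- the character
  obtain ⟨lam, hlam⟩ : ∃ lam : G ⧸ Φ → ℂ, ∀ x ∈ P, lam (π x) = ev v x := by
    refine ⟨fun y => ev v (Quotient.out y), fun x hx => ?_⟩
    have h3 : π (Quotient.out (π x)) = π x := by
      rw [hπdef]
      exact QuotientGroup.out_eq' _
    have h4 := hπe _ _ h3
    have h5 : Quotient.out (π x) ∈ P := by
      have : Quotient.out (π x) = x * ((Quotient.out (π x))⁻¹ * x)⁻¹ := by group
      rw [this]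
      exact P.mul_mem hx (P.inv_mem (hΦP h4))
    have h6 : ev v x = ev v (Quotient.out (π x) * ((Quotient.out (π x))⁻¹ * x)) := by
      congr 1
      group
    rw [h6, (hX.chr v).mul _ h5 _ (hΦP h4), hX.tri v _ h4, mul_one]
  have hl1 : lam 1 = 1 := by
    have := hlam 1 P.one_mem
    rwa [map_one, (hX.chr v).one] at this
  have hlm : ∀ x ∈ N, ∀ y ∈ N, lam (x * y) = lam x * lam y := by
    intro x hx y hy
    obtain ⟨a, ha, rfl⟩ := hmemN.1 hx
    obtain ⟨b, hb, rfl⟩ := hmemN.1 hy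
    rw [← map_mul, hlam _ (P.mul_mem (hP1P ha) (hP1P hb)), hlam _ (hP1P ha), hlam _ (hP1P hb),
      (hX.chr v).mul _ (hP1P ha) _ (hP1P hb)]
  have hS : ∀ k : H, k ∈ Stb (⊤ : Subgroup H) v ↔ ∀ x ∈ N, lam (j k * x * (j k)⁻¹) = lam x := by
    intro k
    have e0 : k ∈ Stb (⊤ : Subgroup H) v ↔ k • v = v :=
      ⟨fun h => h.2, fun h => ⟨trivial, h⟩⟩
    rw [e0]
    constructor
    · intro hk x hx
      obtain ⟨a, ha, rfl⟩ := hmemN.1 hx
      rw [hj, ← map_mul, ← map_inv, ← map_mul, hlam _ (hPn.conj_mem a (hP1P ha) _),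
        hlam _ (hP1P ha)]
      exact (hX.smul_iff hPn k v).1 hk a (hP1P ha)
    · intro hk
      have h3 : k • v - v ∈ X2 := by
        apply hX.mem_of_ann
        intro x hx
        have hx1 : x ∈ P1 := by rw [hP1]; exact hx
        have hx' : (k : G)⁻¹ * x * (k : G) ∈ P1 := by
          have := hP1n.conj_mem x hx1 (k : G)⁻¹
          rwa [inv_inv] at this
        have h4 := hk _ (hmemN.2 ⟨_, hx', rfl⟩)
        rw [hj, ← map_mul, ← map_inv, ← map_mul, hlam _ (hPn.conj_mem _ (hP1P hx') _),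
          hlam _ (hP1P hx')] at h4
        have h5 := hX.act v k _ (hP1P hx')
        have e : (k : G) * ((k : G)⁻¹ * x * (k : G)) * (k : G)⁻¹ = x := by group
        rw [e] at h4 h5
        rw [hX.sub _ _ hx.1, h5, ← h4]
        exact mul_inv_cancel₀ (chr_ne (hX.chr v) hx.1)
      have h4 : k • v - v ∈ X1 ⊓ X2 := ⟨X1.sub_mem (h1 k v hv) hv, h3⟩
      rw [h12, AddSubgroup.mem_bot] at h4
      exact sub_eq_zero.1 h4
  have hpre0 := Pre.lin hEmb hNn hNE hNinf hNsup hl1 hlm hS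
  have hpre1 := (hpre0.of_st (St.quot Φ)).mono (Q1 := ∅) (Set.empty_subset _)
  -- elements of `C` trivial on `X2`
  have hcX : ∀ c : H, (∀ μ ∈ X2, c • μ = μ) → ∀ y ∈ P2, (c : G) * y * (c : G)⁻¹ * y⁻¹ ∈ Φ := by
    intro c hc y hy
    rw [← hi]
    refine ⟨?_, P2.mul_mem (hP2n.conj_mem y hy _) (P2.inv_mem hy)⟩
    rw [hP1]
    exact (hX.triv_iff hPn c X2).1 hc y (hP2P hy)
  have hpre2 := pre_of_ch (C := CenX (CE E H) X2) (by
    intro c hc e he
    obtain ⟨b, hb, rfl⟩ := hmemE.1 he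
    obtain ⟨y, hy, e0, he0, rfl⟩ := hBdec b hb
    rw [hj, ← map_mul, ← map_mul]
    have h3 := (hπ _).2 (hcX c hc.2 y hy)
    rw [map_mul, map_mul, map_mul, map_inv, map_inv] at h3
    have h4 : π (c : G) * π y = π y * π c := mul_inv_eq_iff_eq_mul.1 (mul_inv_eq_one.1 h3)
    have h5 : (c : G) * e0 = e0 * c := hc.1 e0 he0
    rw [← mul_assoc, map_mul, map_mul, h4, ← map_mul, ← map_mul, mul_assoc, h5, ← mul_assoc])
    hpre1 hch
  have hlt : Nat.card (JJ j E' K) < Nat.card G := by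
    have h3 : Nat.card (JJ j E' K) ≤ Nat.card (G ⧸ Φ) := Subgroup.card_le_card_group _
    have h4 : Nat.card (G ⧸ Φ) < Nat.card G := by
      rw [← Subgroup.index_eq_card, ← Subgroup.card_mul_index Φ]
      have h5 : 1 < Nat.card Φ := by
        rcases Nat.lt_or_ge 1 (Nat.card Φ) with h | h
        · exact h
        · exfalso
          have h2 : 0 < Nat.card Φ := Nat.card_pos
          exact hΦbot (Subgroup.card_eq_one.1 (le_antisymm h h2))
      have h6 : 0 < Φ.index := Nat.pos_of_ne_zero Subgroup.FiniteIndex.index_ne_zero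
      nlinarith
    omega
  have hcardB : ∀ r ∈ T, ¬ r ∣ Nat.card B := by
    intro r hr hd
    have h3 : Nat.card B ∣ Nat.card (P ⊔ E : Subgroup G) := Subgroup.card_dvd_of_le hBPE
    rw [XF.card_sup (XF.nrm_of_normal hPn) (by
      rw [Subgroup.eq_bot_iff_forall]
      exact fun x hx => h.pe hx.1 hx.2)] at h3
    rcases (h.Tp r hr).1.dvd_mul.1 (hd.trans h3) with h4 | h4
    · have : Fact p.Prime := ⟨h.pp⟩
      obtain ⟨n, hn⟩ := IsPGroup.iff_card.1 h.Pp
      rw [hn] at h4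
      have h5 := (Nat.prime_dvd_prime_iff_eq (h.Tp r hr).1 h.pp).1
        ((h.Tp r hr).1.dvd_of_dvd_pow h4)
      exact h.pT (h5 ▸ hr)
    · exact h.TE r hr h4
  refine iq_of (B0 := {p}) (C := CenX (CE E H) X2) inferInstance hmc hpre2 hlt h.TΘ ?_ ?_ ?_ ?_ ?_
  · intro c hc
    refine ⟨?_, ?_⟩
    · intro e he
      have h3 := hc _ (hmemE.2 ⟨e, hEB he, rfl⟩)
      rw [hj, ← map_mul, ← map_mul] at h3
      have h4 := hπe _ _ h3
      have h5 : (c * e : G)⁻¹ * (e * c) ∈ E := by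
        have h6 : (c * e : G)⁻¹ * (e * c) = e⁻¹ * ((c : G)⁻¹ * e * (c : G)⁻¹⁻¹) := by group
        rw [h6]
        exact E.mul_mem (E.inv_mem he) (hEn.conj_mem e he _)
      have h6 := h.pe (hΦP h4) h5
      exact inv_mul_eq_one.1 h6
    · rw [hX.triv_iff hPn]
      intro x hx
      rw [← hs] at hx
      obtain ⟨a, ha, y, hy, rfl⟩ := Subgroup.mem_sup_of_normal_left.1 hx
      have h3 := hc _ (hmemE.2 ⟨y, by rw [hB]; exact Subgroup.mem_sup_left hy, rfl⟩)
      rw [hj, ← map_mul, ← map_mul] at h3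
      have h4 := hπe _ _ h3.symm
      -- `(y c)⁻¹ (c y) ∈ Φ`
      have h5 : (y * c) * ((y * c : G)⁻¹ * (c * y)) * (y * c : G)⁻¹ ∈ Φ := hΦn.conj_mem _ h4 _
      have h6 : (c : G) * (a * y) * (c : G)⁻¹ * (a * y)⁻¹ = ((c : G) * a * (c : G)⁻¹) *
          ((y * c) * ((y * c : G)⁻¹ * (c * y)) * (y * c : G)⁻¹) * a⁻¹ := by group
      rw [h6, ← hP1]
      exact P1.mul_mem (P1.mul_mem (hP1n.conj_mem a ha _) (hΦ1 h5)) (P1.inv_mem ha)
  · intro r hr y hy ⟨n, hn⟩ z _ _
    have h3 : orderOf y ∣ r ^ n := orderOf_dvd_of_pow_eq_one hn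
    have h4 : orderOf y ∣ Nat.card B := by
      have h5 := orderOf_dvd_natCard (⟨y, hy⟩ : E')
      rw [Subgroup.orderOf_mk] at h5
      refine h5.trans ?_
      rw [hE']
      exact Subgroup.card_map_dvd _ _
    have h5 : y = 1 := by
      obtain ⟨a, -, ha⟩ := (Nat.dvd_prime_pow (h.Tp r hr).1).1 h3
      rcases Nat.eq_zero_or_pos a with h6 | h6
      · rw [h6, pow_zero] at ha
        exact orderOf_eq_one_iff.1 ha
      · exfalso
        apply hcardB r hr
        refine dvd_trans ?_ h4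
        rw [ha]
        exact dvd_pow_self r h6.ne'
    rw [h5, one_mul, mul_one]
  · intro r _ hr
    exact hr.elim
  · intro r hr hrT _ hnas
    rw [Finset.mem_singleton]
    by_contra hrp
    obtain ⟨x, hx, y, hy, ⟨n, hxr⟩, ⟨m, hyr⟩, hxy⟩ := h.oth r hr hrT hrp
    have h3 := nas_comm (x := π x) (y := π y) (hmc.prime r hr) hnas
      (Subgroup.mem_sup_left (hmemE.2 ⟨x, hEB hx, rfl⟩))
      (Subgroup.mem_sup_left (hmemE.2 ⟨y, hEB hy, rfl⟩)) ⟨n, by rw [← map_pow, hxr, map_one]⟩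
      ⟨m, by rw [← map_pow, hyr, map_one]⟩
    rw [← map_mul, ← map_mul] at h3
    have h4 := h.pe (hΦP (hπe _ _ h3)) (E.mul_mem (E.inv_mem (E.mul_mem hx hy)) (E.mul_mem hy hx))
    exact hxy (inv_mul_eq_one.1 h4)
  · rw [Finset.card_singleton]
    omega

end

end Pool.Agent.Lib.MPbe1941.XF.RE
end

section
/-!
# MP_be1941_al, exact bound, reduction: Case II, the property `spl` (9.1)
-/
set_option autoImplicit false

namespace Pool.Agent.Lib.MPbe1941.XF.RE

open Pool.Agent.Lib.MPbe1941 Pool.Agent.Lib.MPbe1941.X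
open Subgroup RD Pool.Agent.Lib.MPbe1941.XF.ST
open scoped commutatorElement

/-- Counting in an abelian group: if `Ω₁(A) = Z = A^q` then the kernel of the `q`-th power map
consists of `p`-th powers. -/
theorem ker_pow {G : Type} [Group G] [Finite G] {A Z : Subgroup G} {p q : ℕ}
    (hA : ∀ x ∈ A, ∀ y ∈ A, x * y = y * x) (hZA : Z ≤ A) (hΩ : ∀ a ∈ A, (a ^ p = 1 ↔ a ∈ Z))
    (hq : ∀ a, a ∈ Z ↔ ∃ b ∈ A, b ^ q = a) {a : G} (ha : a ∈ A) (haq : a ^ q = 1) :
    ∃ b ∈ A, b ^ p = a := by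
  let iA : CommGroup A := { (inferInstance : Group A) with
    mul_comm := fun x y => Subtype.ext (hA x x.2 y y.2) }
  obtain ⟨ψ, hψ⟩ : ∃ ψ : A →* A, ∀ x, ψ x = x ^ p := ⟨powMonoidHom p, fun _ => rfl⟩
  obtain ⟨φ, hφ⟩ : ∃ φ : A →* A, ∀ x, φ x = x ^ q := ⟨powMonoidHom q, fun _ => rfl⟩
  have e1 : ψ.ker = Z.subgroupOf A := by
    ext x
    rw [MonoidHom.mem_ker, hψ, Subgroup.mem_subgroupOf, ← hΩ x x.2]
    rw [Subtype.ext_iff]
    rfl
  have e2 : φ.range = Z.subgroupOf A := by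
    ext x
    rw [MonoidHom.mem_range, Subgroup.mem_subgroupOf, hq]
    constructor
    · rintro ⟨y, hy⟩
      refine ⟨y, y.2, ?_⟩
      rw [← hy, hφ]
      rfl
    · rintro ⟨b, hb, hbx⟩
      refine ⟨⟨b, hb⟩, ?_⟩
      rw [hφ]
      exact Subtype.ext hbx
  have c1 := Subgroup.card_mul_index ψ.ker
  have c2 := Subgroup.card_mul_index φ.ker
  rw [Subgroup.index_ker] at c1 c2
  rw [e1] at c1
  rw [e2] at c2
  have hle : ψ.range ≤ φ.ker := by
    rintro x ⟨y, rfl⟩
    rw [MonoidHom.mem_ker, hφ, hψ]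
    have h1 : (y : G) ^ q ∈ Z := (hq _).2 ⟨y, y.2, rfl⟩
    have h2 := (hΩ _ (hZA h1)).2 h1
    apply Subtype.ext
    change ((y : G) ^ p) ^ q = 1
    rw [← pow_mul, mul_comm, pow_mul]
    exact h2
  have heq : ψ.range = φ.ker := by
    apply Subgroup.eq_of_le_of_card_ge hle
    have h3 : 0 < Nat.card (Z.subgroupOf A) := Nat.card_pos
    have h4 : Nat.card (Z.subgroupOf A) * Nat.card ψ.range =
        Nat.card (Z.subgroupOf A) * Nat.card φ.ker := by
      rw [c1, ← c2, mul_comm]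
    exact (Nat.eq_of_mul_eq_mul_left h3 h4).ge
  have h5 : (⟨a, ha⟩ : A) ∈ φ.ker := by
    rw [MonoidHom.mem_ker, hφ]
    exact Subtype.ext haq
  rw [← heq] at h5
  obtain ⟨b, hb⟩ := h5
  rw [hψ] at hb
  exact ⟨b, b.2, congrArg Subtype.val hb⟩

section

variable {G : Type} [Group G] {Θ : Finset ℕ} {p : ℕ} {P E H : Subgroup G} {T : Finset ℕ}

/-- `Ω₁(A) = P'` for a central `H`-invariant subgroup `A ≥ P'`. -/
theorem CaseII.omega [Finite G] (h : CaseII Θ p P E H T) {A : Subgroup G} (hAP : A ≤ P)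
    (hAc : ∀ x ∈ A, ∀ y ∈ P, x * y = y * x) (hAH : ∀ g ∈ H, ∀ x ∈ A, g * x * g⁻¹ ∈ A)
    (hZA : ⁅P, P⁆ ≤ A) : ∀ a ∈ A, a ^ p = 1 → a ∈ ⁅P, P⁆ := by
  classical
  have hPn := h.Pn
  obtain ⟨Ω, hΩ⟩ : ∃ Ω : Subgroup G, ∀ x, x ∈ Ω ↔ x ∈ A ∧ x ^ p = 1 :=
    ⟨{ carrier := {x | x ∈ A ∧ x ^ p = 1}
       one_mem' := ⟨A.one_mem, one_pow p⟩
       mul_mem' := fun {a b} ha hb => ⟨A.mul_mem ha.1 hb.1, by
         have : Commute a b := hAc a ha.1 b (hAP hb.1)
         rw [this.mul_pow, ha.2, hb.2, one_mul]⟩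
       inv_mem' := fun {a} ha => ⟨A.inv_mem ha.1, by rw [inv_pow, ha.2, inv_one]⟩ },
      fun _ => Iff.rfl⟩
  have hΩA : Ω ≤ A := fun x hx => ((hΩ x).1 hx).1
  have hΩP : Ω ≤ P := hΩA.trans hAP
  have hZΩ : ⁅P, P⁆ ≤ Ω := fun x hx => (hΩ x).2 ⟨hZA hx, h.exp x hx⟩
  have cenP : ∀ {M : Subgroup G}, M ≤ A → ∀ g ∈ P, ∀ x ∈ M, g * x * g⁻¹ ∈ M := by
    intro M hM g hg x hx
    rw [← hAc x (hM hx) g hg, mul_inv_cancel_right]
    exact hx
  have hΩn : Ω.Normal := by
    refine h.normal_of hΩP (cenP hΩA) (fun g hg x hx => ?_)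
    rw [hΩ] at hx ⊢
    exact ⟨hAH g hg x hx.1, by rw [conj_pow, hx.2, mul_one, mul_inv_cancel]⟩
  obtain ⟨Y, iY, iD, eY, hY⟩ := exists_isDQ Ω ⊥ H hΩn inferInstance bot_le (fun x hx y hy => by
    rw [Subgroup.mem_bot, hAc x (hΩA hx) y (hΩP hy)]; group)
  have hpY : ∀ y : Y, p • y = 0 := hY.exp (fun x hx => by
    rw [Subgroup.mem_bot]; exact ((hΩ x).1 hx).2)
  obtain ⟨B, hB⟩ : ∃ B : AddSubgroup Y, ∀ ν, ν ∈ B ↔ ∀ z ∈ ⁅P, P⁆, eY ν z = 1 :=
    ⟨{ carrier := {ν | ∀ z ∈ ⁅P, P⁆, eY ν z = 1}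
       zero_mem' := fun z hz => hY.zero (hZΩ hz)
       add_mem' := fun {a b} ha hb z hz => by
         rw [hY.add a b z (hZΩ hz), ha z hz, hb z hz, one_mul]
       neg_mem' := fun {a} ha z hz => by rw [hY.neg a (hZΩ hz), ha z hz, inv_one] },
      fun _ => Iff.rfl⟩
  have hZn := h.Zn
  have hBH : ∀ k : H, ∀ ν ∈ B, k • ν ∈ B := by
    intro k ν hν
    rw [hB] at hν ⊢
    intro z hz
    have hz' : (k : G)⁻¹ * z * (k : G) ∈ ⁅P, P⁆ := by
      have := hZn.conj_mem z hz (k : G)⁻¹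
      rwa [inv_inv] at this
    have h1 := hY.act ν k _ (hZΩ hz')
    have e : (k : G) * ((k : G)⁻¹ * z * (k : G)) * (k : G)⁻¹ = z := by group
    rw [e] at h1
    rw [h1]
    exact hν _ hz'
  obtain ⟨B', -, hB'H, hBB', hBB'2⟩ := RB.specMAS Y H p h.pp h.pH ⊤ (fun y _ => hpY y)
    (fun _ _ _ => trivial) B le_top hBH
  have hW : hY.ann B' = ⊥ := by
    by_contra hne
    have h1 := h.uni (hY.ann B') ((hY.ann_le B').trans hΩP) hne
      (cenP ((hY.ann_le B').trans hΩA)) (hY.ann_inv hΩn hB'H)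
    apply h.nab
    rw [Subgroup.eq_bot_iff_forall]
    intro z hz
    have h2 := h1 hz
    have h3 : z ∈ (⊥ : Subgroup G) := by
      refine hY.mem_base bot_le (hZΩ hz) (fun μ => ?_)
      have hμ : μ ∈ B ⊔ B' := by rw [hBB'2]; trivial
      obtain ⟨b, hb, b', hb', rfl⟩ := AddSubgroup.mem_sup.1 hμ
      rw [hY.add b b' z (hZΩ hz), h2.2 b' hb', (hB b).1 hb z hz, one_mul]
    exact h3
  have hB'top : ∀ μ, μ ∈ B' := by
    intro μ
    refine hY.mem_of_ann (fun x hx => ?_)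
    rw [hW, Subgroup.mem_bot] at hx
    rw [hx]
    exact (hY.chr μ).one
  intro a ha hap
  refine hY.sep ⁅P, P⁆ bot_le hZΩ a ((hΩ a).2 ⟨ha, hap⟩) (fun μ hμ => ?_)
  have h1 : μ ∈ B ⊓ B' := ⟨(hB μ).2 hμ, hB'top μ⟩
  rw [hBB', AddSubgroup.mem_bot] at h1
  rw [h1, hY.zero ((hΩ a).2 ⟨ha, hap⟩)]

/-- **spl** (9.1). -/
theorem CaseII.spl [Finite G] (h : CaseII Θ p P E H T) {X Zd : Type}
    [AddCommGroup X] [DistribMulAction H X] [AddCommGroup Zd] [DistribMulAction H Zd]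
    {ev : X → G → ℂ} {eZ : Zd → G → ℂ} (hX : IsDQ P (RB.PhiG P p) H X ev)
    (hZ : IsDQ ⁅P, P⁆ ⊥ H Zd eZ) (X1 X2 : AddSubgroup X) (h1 : HInv H X1)
    (h12 : X1 ⊓ X2 = ⊥) (h12' : X1 ⊔ X2 = ⊤) (hne : X2 ≠ ⊥) (U : Subgroup H)
    (hUZ : ∀ u ∈ U, ∀ μ : Zd, u • μ = μ) (hU1 : ∀ x ∈ X1, (∀ u ∈ U, u • x = x) → x = 0)
    (hU2 : ∀ u ∈ U, ∀ x ∈ X2, u • x = x) (c : H) (hc : ∀ x ∈ X2, c • x = x) (μ : Zd) :
    c • μ = μ := by
  classical
  have hPn := h.Pn
  have hZn := h.Zn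
  obtain ⟨Φ, hΦdef⟩ : ∃ Φ, Φ = RB.PhiG P p := ⟨_, rfl⟩
  have hΦn : Φ.Normal := by rw [hΦdef]; exact h.phin
  have hΦP : Φ ≤ P := by rw [hΦdef]; exact phi_le
  have hcmΦ : ⁅P, P⁆ ≤ Φ := by rw [hΦdef]; exact comm_le_phi
  have hpowΦ : ∀ x ∈ P, x ^ p ∈ Φ := by rw [hΦdef]; exact fun x hx => pow_mem_phi hx
  have hΦc : ∀ x ∈ Φ, ∀ y ∈ P, x * y = y * x := by rw [hΦdef]; exact h.phic
  rw [← hΦdef] at hX
  obtain ⟨P1, hP1⟩ : ∃ P1, P1 = hX.ann X2 := ⟨_, rfl⟩
  obtain ⟨P2, hP2⟩ : ∃ P2, P2 = hX.ann X1 := ⟨_, rfl⟩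
  have hP1P : P1 ≤ P := by rw [hP1]; exact hX.ann_le _
  have hP2P : P2 ≤ P := by rw [hP2]; exact hX.ann_le _
  have hΦ2 : Φ ≤ P2 := by rw [hP2]; exact hX.le_ann hΦP _
  have hi : P1 ⊓ P2 = Φ := by
    rw [hP1, hP2]
    exact hX.ann_inf hΦP (by rw [sup_comm]; exact h12')
  have hs : P1 ⊔ P2 = P := by
    rw [hP1, hP2]
    exact hX.ann_sup hΦP (by rw [inf_comm]; exact h12)
  have hP2H : ∀ g ∈ H, ∀ x ∈ P2, g * x * g⁻¹ ∈ P2 := by
    rw [hP2]; exact hX.ann_inv hPn h1
  -- elements of `H` trivial on `X2`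
  have hcX : ∀ c : H, (∀ μ ∈ X2, c • μ = μ) → ∀ y ∈ P2, (c : G) * y * (c : G)⁻¹ * y⁻¹ ∈ Φ := by
    intro c hc y hy
    rw [← hi]
    refine ⟨?_, P2.mul_mem (hP2H c c.2 y hy) (P2.inv_mem hy)⟩
    rw [hP1]
    exact (hX.triv_iff hPn c X2).1 hc y (hP2P hy)
  -- commutators with elements of `Φ`
  have hcmr : ∀ a ∈ P, ∀ t ∈ Φ, ∀ y ∈ P, RB.cm a (t * y) = RB.cm a y := by
    intro a ha t ht y hy
    rw [RB.RADM.cm_mul_right h.cen ha (hΦP ht) hy]
    have : RB.cm a t = 1 := by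
      unfold RB.cm
      rw [← hΦc t ht a ha]
      group
    rw [this, one_mul]
  have hcml : ∀ a ∈ P, ∀ t ∈ Φ, ∀ y ∈ P, RB.cm (t * a) y = RB.cm a y := by
    intro a ha t ht y hy
    rw [RB.RADM.cm_mul_left h.cen (hΦP ht) ha hy]
    have : RB.cm t y = 1 := by
      unfold RB.cm
      rw [hΦc t ht y hy]
      group
    rw [this, one_mul]
  have hconj : ∀ g x y : G, RB.cm (g * x * g⁻¹) (g * y * g⁻¹) = g * RB.cm x y * g⁻¹ := by
    intro g x y
    unfold RB.cm
    group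
  -- `[P1, P2] = 1`
  have hcomm : ∀ x ∈ P1, ∀ y ∈ P2, x * y = y * x := by
    intro x hx y hy
    have key : RB.cm x y ∈ (⊥ : Subgroup G) := by
      refine hZ.mem_base bot_le (cm_mem P (hP1P hx) (hP2P hy)) (fun μ => ?_)
      obtain ⟨χ, hχ⟩ : ∃ χ : X, ∀ z ∈ P, ev χ z = eZ μ (RB.cm z y) := by
        refine hX.surj (fun z => eZ μ (RB.cm z y)) ⟨?_, ?_⟩ ?_
        · have : RB.cm 1 y = 1 := by unfold RB.cm; group
          rw [this]
          exact (hZ.chr μ).one
        · intro z hz z' hz'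
          rw [RB.RADM.cm_mul_left h.cen hz hz' (hP2P hy),
            (hZ.chr μ).mul _ (cm_mem P hz (hP2P hy)) _ (cm_mem P hz' (hP2P hy))]
        · intro z hz
          have : RB.cm z y = 1 := by
            unfold RB.cm
            rw [hΦc z hz y (hP2P hy)]
            group
          rw [this]
          exact (hZ.chr μ).one
      have hUχ : ∀ u ∈ U, u • χ = χ := by
        intro u hu
        rw [hX.smul_iff hPn]
        intro z hz
        have hz' : (u : G) * z * (u : G)⁻¹ ∈ P := hPn.conj_mem z hz _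
        rw [hχ _ hz', hχ z hz]
        -- replace `y` by `u y u⁻¹`
        have ht := hcX u (hU2 u hu) y hy
        have e1 : (u : G) * y * (u : G)⁻¹ = ((u : G) * y * (u : G)⁻¹ * y⁻¹) * y := by group
        have e2 := hcmr _ hz' _ ht y (hP2P hy)
        rw [← e1, hconj] at e2
        rw [← e2]
        exact (hZ.smul_iff hZn u μ).1 (hUZ u hu μ) _ (cm_mem P hz (hP2P hy))
      have hχ2 : χ ∈ X2 := by
        have hχm : χ ∈ X1 ⊔ X2 := by rw [h12']; trivial
        obtain ⟨a, ha, b, hb, hab⟩ := AddSubgroup.mem_sup.1 hχm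
        have ha0 : a = 0 := by
          apply hU1 a ha
          intro u hu
          have h3 := hUχ u hu
          rw [← hab, smul_add, hU2 u hu b hb] at h3
          exact add_right_cancel h3
        rw [← hab, ha0, zero_add]
        exact hb
      rw [← hχ x (hP1P hx)]
      rw [hP1] at hx
      exact hx.2 χ hχ2
    rw [Subgroup.mem_bot] at key
    unfold RB.cm at key
    exact mul_inv_eq_iff_eq_mul.1 (mul_inv_eq_one.1 key)
  -- it is enough to show that `c` centralises `P'`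
  suffices hcen : ∀ z ∈ ⁅P, P⁆, (c : G) * z * (c : G)⁻¹ = z by
    rw [hZ.smul_iff hZn]
    intro z hz
    rw [hcen z hz]
  by_cases hab : ∀ x ∈ P2, ∀ y ∈ P2, x * y = y * x
  · -- `P2` is central
    have hP2c : ∀ x ∈ P2, ∀ y ∈ P, x * y = y * x := by
      intro x hx y hy
      rw [← hs] at hy
      refine XF.sup_ind (p := fun y => x * y = y * x) (fun y hy => (hcomm y hy x hx).symm)
        (fun y hy => hab x hx y hy) (fun a b ha hb => ?_) hy
      rw [← mul_assoc, ha, mul_assoc, hb, ← mul_assoc]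
    have hZP2 : ⁅P, P⁆ ≤ P2 := hcmΦ.trans hΦ2
    have hom := h.omega hP2P hP2c hP2H hZP2
    have cenP : ∀ {M : Subgroup G}, M ≤ P2 → ∀ g ∈ P, ∀ x ∈ M, g * x * g⁻¹ ∈ M := by
      intro M hM g hg x hx
      rw [← hP2c x (hM hx) g hg, mul_inv_cancel_right]
      exact hx
    -- the exponent
    have hex : ∃ e : ℕ, ∀ a ∈ P2, a ^ p ^ e = 1 := by
      have : Fact p.Prime := ⟨h.pp⟩
      obtain ⟨n, hn⟩ := IsPGroup.iff_card.1 h.Pp
      refine ⟨n, fun a ha => ?_⟩
      rw [← orderOf_dvd_iff_pow_eq_one, ← hn]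
      have := orderOf_dvd_natCard (⟨a, hP2P ha⟩ : P)
      rwa [Subgroup.orderOf_mk] at this
    obtain ⟨z0, hz0, hz01⟩ : ∃ z ∈ ⁅P, P⁆, z ≠ 1 := by
      by_contra hcon
      push Not at hcon
      exact h.nab ((Subgroup.eq_bot_iff_forall _).2 hcon)
    have hspec := Nat.find_spec hex
    have hpos : 0 < Nat.find hex := by
      rcases Nat.eq_zero_or_pos (Nat.find hex) with h0 | h0
      · exfalso
        rw [h0, pow_zero] at hspec
        apply hz01
        have := hspec z0 (hZP2 hz0)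
        rwa [pow_one] at this
      · exact h0
    obtain ⟨e, he⟩ : ∃ e, Nat.find hex = e + 1 := ⟨Nat.find hex - 1, by omega⟩
    rw [he] at hspec
    obtain ⟨q, hq⟩ : ∃ q, q = p ^ e := ⟨_, rfl⟩
    have hqp : ∀ a ∈ P2, (a ^ q) ^ p = 1 := by
      intro a ha
      rw [← pow_mul, hq, ← pow_succ]
      exact hspec a ha
    have hqne : ∃ a ∈ P2, a ^ q ≠ 1 := by
      by_contra hcon
      push Not at hcon
      have h3 := Nat.find_min hex (m := e) (by omega)
      apply h3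
      rw [← hq]
      exact hcon
    -- powers
    have hpw : ∀ M : Subgroup G, M ≤ P2 → ∃ V : Subgroup G, ∀ x, x ∈ V ↔ ∃ a ∈ M, a ^ q = x := by
      intro M hM
      refine ⟨{ carrier := {x | ∃ a ∈ M, a ^ q = x}
                one_mem' := ⟨1, M.one_mem, one_pow q⟩
                mul_mem' := ?_
                inv_mem' := ?_ }, fun _ => Iff.rfl⟩
      · rintro _ _ ⟨a, ha, rfl⟩ ⟨b, hb, rfl⟩
        have : Commute a b := hab a (hM ha) b (hM hb)
        exact ⟨a * b, M.mul_mem ha hb, this.mul_pow q⟩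
      · rintro _ ⟨a, ha, rfl⟩
        exact ⟨a⁻¹, M.inv_mem ha, inv_pow a q⟩
    have hpwZ : ∀ M : Subgroup G, M ≤ P2 → (∀ g ∈ H, ∀ x ∈ M, g * x * g⁻¹ ∈ M) →
        (∃ a ∈ M, a ^ q ≠ 1) → ∀ z ∈ ⁅P, P⁆, ∃ a ∈ M, a ^ q = z := by
      intro M hM hMH hne
      obtain ⟨V, hV⟩ := hpw M hM
      have hVP2 : V ≤ P2 := by
        intro x hx
        obtain ⟨a, ha, rfl⟩ := (hV x).1 hx
        exact P2.pow_mem (hM ha) q
      have h3 := h.uni V (hVP2.trans hP2P) (by
        obtain ⟨a, ha, ha1⟩ := hne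
        intro hbot
        apply ha1
        have : a ^ q ∈ V := (hV _).2 ⟨a, ha, rfl⟩
        rwa [hbot, Subgroup.mem_bot] at this) (cenP hVP2) (by
        intro g hg x hx
        obtain ⟨a, ha, rfl⟩ := (hV x).1 hx
        exact (hV _).2 ⟨g * a * g⁻¹, hMH g hg a ha, conj_pow⟩)
      exact fun z hz => (hV z).1 (h3 hz)
    have hall := hpwZ P2 le_rfl hP2H hqne
    by_cases hΦq : ∃ a ∈ Φ, a ^ q ≠ 1
    · -- contradiction: `P2 ≤ Φ`
      exfalso
      have hΦall := hpwZ Φ hΦ2 (fun g _ x hx => hΦn.conj_mem x hx g) hΦq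
      have hP2Φ : P2 ≤ Φ := by
        intro a ha
        have h3 : a ^ q ∈ ⁅P, P⁆ := hom _ (P2.pow_mem ha q) (hqp a ha)
        obtain ⟨f, hf, hfa⟩ := hΦall _ h3
        have hfP2 := hΦ2 hf
        have h4 : (a * f⁻¹) ^ q = 1 := by
          have : Commute a f⁻¹ := hab a ha _ (P2.inv_mem hfP2)
          rw [this.mul_pow, inv_pow, hfa, mul_inv_cancel]
        obtain ⟨b, hb, hb2⟩ := ker_pow (A := P2) (Z := ⁅P, P⁆) (p := p) (q := q) hab hZP2
          (fun x hx => ⟨hom x hx, h.exp x⟩)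
          (fun x => ⟨hall x, by
            rintro ⟨b, hb, rfl⟩
            exact hom _ (P2.pow_mem hb q) (hqp b hb)⟩) (P2.mul_mem ha (P2.inv_mem hfP2)) h4
        have h5 : a = b ^ p * f := by rw [hb2]; group
        rw [h5]
        exact Φ.mul_mem (hpowΦ b (hP2P hb)) hf
      apply hne
      rw [AddSubgroup.eq_bot_iff_forall]
      intro χ hχ
      apply hX.eq_zero
      intro x hx
      rw [← hs, sup_eq_left.2 (hP2Φ.trans (by rw [← hi]; exact inf_le_left)), hP1] at hx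
      exact hx.2 χ hχ
    · push Not at hΦq
      intro z hz
      obtain ⟨a, ha, rfl⟩ := hall z hz
      have ht := hcX c hc a ha
      have h3 := hΦq _ ht
      have hca : (c : G) * a * (c : G)⁻¹ ∈ P2 := hP2H c c.2 a ha
      have h4 : Commute ((c : G) * a * (c : G)⁻¹) a⁻¹ := hab _ hca _ (P2.inv_mem ha)
      rw [h4.mul_pow, conj_pow, inv_pow] at h3
      exact mul_inv_eq_one.1 h3
  · -- `P2` is not abelian
    push Not at hab
    have hZ2 : ⁅P, P⁆ ≤ ⁅P2, P2⁆ := by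
      refine h.uni ⁅P2, P2⁆ ((comm_self_le P2).trans hP2P) ?_ ?_ ?_
      · intro hbot
        obtain ⟨x, hx, y, hy, hxy⟩ := hab
        apply hxy
        have h3 := Subgroup.commutator_mem_commutator hx hy
        rw [hbot, Subgroup.mem_bot, commutatorElement_eq_one_iff_mul_comm] at h3
        exact h3
      · intro g hg x hx
        have h3 : x ∈ ⁅P, P⁆ := Subgroup.commutator_mono hP2P hP2P hx
        rw [← h.cen x h3 g hg, mul_inv_cancel_right]
        exact hx
      · intro g hg x hx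
        exact XF.nrm_comm (T := H) (K := P2) (S := P2) hP2H hP2H g hg x hx
    have key : ∀ z ∈ ⁅P2, P2⁆, (c : G) * z * (c : G)⁻¹ = z := by
      intro z hz
      rw [Subgroup.commutator_def] at hz
      induction hz using Subgroup.closure_induction with
      | mem z hz =>
        obtain ⟨x, hx, y, hy, rfl⟩ := hz
        rw [commutatorElement_def]
        change (c : G) * RB.cm x y * (c : G)⁻¹ = RB.cm x y
        rw [← hconj]
        have htx := hcX c hc x hx
        have hty := hcX c hc y hy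
        have e1 : (c : G) * x * (c : G)⁻¹ = ((c : G) * x * (c : G)⁻¹ * x⁻¹) * x := by group
        have e2 : (c : G) * y * (c : G)⁻¹ = ((c : G) * y * (c : G)⁻¹ * y⁻¹) * y := by group
        rw [e1, e2, hcml x (hP2P hx) _ htx _ (P.mul_mem (hΦP hty) (hP2P hy)),
          hcmr x (hP2P hx) _ hty y (hP2P hy)]
      | one => group
      | mul a b _ _ ha hb =>
        have : (c : G) * (a * b) * (c : G)⁻¹ = ((c : G) * a * (c : G)⁻¹) *
            ((c : G) * b * (c : G)⁻¹) := by group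
        rw [this, ha, hb]
      | inv a _ ha =>
        have : (c : G) * a⁻¹ * (c : G)⁻¹ = ((c : G) * a * (c : G)⁻¹)⁻¹ := by group
        rw [this, ha]
    exact fun z hz => key z (hZ2 hz)

end

end Pool.Agent.Lib.MPbe1941.XF.RE
end

section
/-!
# MP_be1941_al, exact bound: the reduction (sections 0, 1, 4 of EXACT.md)
-/
set_option autoImplicit false

namespace Pool.Agent.Lib.MPbe1941.XF.RE

open Pool.Agent.Lib.MPbe1941 Pool.Agent.Lib.MPbe1941.X
open Subgroup RD Pool.Agent.Lib.MPbe1941.XF.ST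
open scoped commutatorElement

/-- **Case II.** -/
theorem datII_of {G : Type} [Group G] {Θ : Finset ℕ} (hmc : MC G Θ) {p : ℕ}
    {P E H : Subgroup G} {T : Finset ℕ} (h : CaseII Θ p P E H T) :
    ∃ (X Zd : Type) (_ : AddCommGroup X) (_ : DistribMulAction H X) (_ : AddCommGroup Zd)
      (_ : DistribMulAction H Zd) (R : Zd → AddSubgroup X), DatII H X Zd (CE E H) T p R := by
  classical
  have hfin := hmc.fin
  have hsolG : Group.IsSolvable G := hmc.sol
  have hPn := h.Pn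
  have hZn := h.Zn
  have hΦn := h.phin
  obtain ⟨X, iX, iDX, ev, hX⟩ := exists_isDQ P (RB.PhiG P p) H hPn hΦn phi_le
    (fun x hx y hy => cm_mem_phi hx hy)
  obtain ⟨Zd, iZ, iDZ, eZ, hZ⟩ := exists_isDQ ⁅P, P⁆ ⊥ H hZn inferInstance bot_le
    (fun x hx y hy => by
      rw [Subgroup.mem_bot, h.cen x hx y (comm_self_le P hy)]; group)
  have hpX : ∀ x : X, p • x = 0 := hX.exp (fun x hx => pow_mem_phi hx)
  have hpZ : ∀ μ : Zd, p • μ = 0 := hZ.exp (fun x hx => by
    rw [Subgroup.mem_bot]; exact h.exp x hx)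
  refine ⟨X, Zd, iX, iDX, iZ, iDZ, RR hX eZ, ?_⟩
  refine
    { finH := inferInstance
      finX := hX.fin
      finZ := hZ.fin
      ntX := hX.nontriv phi_le h.phine
      ntZ := hZ.nontriv bot_le h.nab.symm
      sol := inferInstance
      pp := h.pp
      pn := h.pH
      px := hpX
      pz := hpZ
      nor := CE_normal h.En
      faith := h.cfaith hX
      irr := ?_
      tp := h.Tp
      idx := h.idx
      stL := fun X1 X2 h1 h2 h12 h12' v hv S D K hch =>
        h.stL hmc hX X1 X2 h1 h2 h12 h12' v hv hch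
      stN := fun μ ν hμ S0 hS0 S D K hch => h.stN hmc hX hZ μ ν hμ S0 hS0 hch
      rin := fun μ k hk x hx => rin_of hX hZ hPn μ k hk x hx
      ndg := fun h0 => ndg_of hX hZ h.pp phi_le h.phine hpX h.cen h.phic h0
      spl := fun X1 X2 h1 _ h12 h12' hne U _ hUZ hU1 hU2 c _ hc μ =>
        h.spl hX hZ X1 X2 h1 h12 h12' hne U hUZ hU1 hU2 c hc μ }
  intro A hA
  refine hZ.irr hZn bot_le (fun M _ hM hMH _ => ?_) A hA
  by_cases hne : M = ⊥
  · exact Or.inl hne
  · right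
    apply le_antisymm hM
    refine h.uni M (hM.trans (comm_self_le P)) hne (fun g hg x hx => ?_) hMH
    rw [← h.cen x (hM hx) g hg, mul_inv_cancel_right]
    exact hx

end Pool.Agent.Lib.MPbe1941.XF.RE

namespace Pool.Agent.Lib.MPbe1941.X

open Pool.Agent.Lib.MPbe1941
open Pool.Agent.Lib.MPbe1941.XF.RE Pool.Agent.Lib.MPbe1941.XF.ST Pool.Agent.Lib.MPbe1941.RD

theorem specRII : SpecRII := by
  classical
  intro hI hII G _ _ hs Th hTh
  have key : TH G Th := by
    by_contra hTH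
    obtain ⟨G', iG, Θ, hmc⟩ := exists_MC ⟨G, inferInstance, inferInstance, hs, Th,
      fun r hr => (hTh r hr).1, hTH⟩
    have hfin := hmc.fin
    obtain ⟨ι, _, pr, P, U, H, hsp⟩ := mc_split hmc
    by_cases hc : ∃ N : Subgroup G', MinN N ∧ ∃ K : Subgroup G', N ⊓ K = ⊥ ∧ N ⊔ K = ⊤
    · obtain ⟨N, hN, K, hK1, hK2⟩ := hc
      obtain ⟨E, T, hCI⟩ := caseI_of hmc.prime hsp hN hK1 hK2
      obtain ⟨W, iW, iD, hD⟩ := datI_of hmc hCI
      exact hI _ _ _ _ _ _ _ hD
    · push Not at hc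
      obtain ⟨p, Q, E, T, hCII⟩ := caseII_of hmc hsp (fun N hN ⟨K, hK1, hK2⟩ => hc N hN K hK1 hK2)
      obtain ⟨X, Zd, iX, iDX, iZ, iDZ, R, hD⟩ := datII_of hmc hCII
      exact hII _ _ _ _ _ _ _ _ _ _ _ _ hD
  obtain ⟨d, hd, hd2⟩ := key
  refine ⟨d, hd, ?_⟩
  have e1 : {r | r ∈ Th ∧ ¬ NAS G r} = (Th : Set ℕ) := by
    ext r
    constructor
    · exact fun h => h.1
    · exact fun h => ⟨h, (hTh r h).2⟩
  have e2 : {r | r ∈ Th ∧ r ∣ d} = ((Th.filter (fun r => r ∣ d) : Finset ℕ) : Set ℕ) := by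
    ext r; simp
  rw [e1, e2, Set.ncard_coe_finset, Set.ncard_coe_finset] at hd2
  exact hd2

end Pool.Agent.Lib.MPbe1941.X
end
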