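import Pool.Agent.Lib.MP_be1941_al.X.REL

/-!
# Module RLO: solvable groups with an abelian Sylow `r`-subgroup
-/

set_option autoImplicit false

namespace Pool.Agent.Lib.MPbe1941.X

open Pool.Agent.Lib.MPbe1941
open scoped commutatorElement

namespace RLOM

open Subgroup

variable {G : Type} [Group G]

/-- an `r`-group lies in every normal subgroup of index prime to `r` -/
theorem le_of_index [Finite G] {r : ℕ} (hr : r.Prime) {N R : Subgroup G} (hN : N.Normal)
    (hi : ¬ r ∣ N.index) (hR : IsPGroup r R) : R ≤ N := by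
  have : Fact r.Prime := ⟨hr⟩
  have h1 : N.relIndex R ∣ N.index := Subgroup.relIndex_dvd_index_of_normal N R
  have h2 : N.relIndex R ∣ Nat.card R := Subgroup.relIndex_dvd_card N R
  obtain ⟨k, hk⟩ := IsPGroup.iff_card.1 hR
  rw [hk] at h2
  obtain ⟨m, -, hm⟩ := (Nat.dvd_prime_pow hr).1 h2
  rcases Nat.eq_zero_or_pos m with h0 | h0
  · exact Subgroup.relIndex_eq_one.1 (by rw [hm, h0, pow_zero])
  · exfalso
    apply hi
    refine dvd_trans ?_ h1
    rw [hm]
    exact dvd_pow_self r h0.ne'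

theorem le_of_relIndex [Finite G] {r : ℕ} (hr : r.Prime) {N L R : Subgroup G}
    (hN : (N.subgroupOf L).Normal) (hi : ¬ r ∣ N.relIndex L) (hR : IsPGroup r R) (hRL : R ≤ L) :
    R ≤ N := by
  have h1 : R.subgroupOf L ≤ N.subgroupOf L := by
    refine le_of_index hr hN hi ?_
    exact hR.comap_of_injective L.subtype Subtype.coe_injective
  intro x hx
  exact h1 (x := ⟨x, hRL hx⟩) hx

/-- the largest normal `r'`-subgroup -/
theorem exists_max [Finite G] {r : ℕ} (hr : r.Prime) : ∃ M : Subgroup G, M.Normal ∧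
    ¬ r ∣ Nat.card M ∧ ∀ N : Subgroup G, N.Normal → ¬ r ∣ Nat.card N → N ≤ M := by
  classical
  let A : Set (Subgroup G) := {M | M.Normal ∧ ¬ r ∣ Nat.card M}
  have hfin : A.Finite := Set.toFinite _
  have hsup : ∀ K ∈ A, ∀ L ∈ A, K ⊔ L ∈ A := by
    rintro K ⟨hK, hK'⟩ L ⟨hL, hL'⟩
    refine ⟨inferInstance, fun hd => ?_⟩
    have e1 : Nat.card K * K.relIndex (K ⊔ L) = Nat.card (K ⊔ L : Subgroup G) :=
      RD.card_rel le_sup_left
    rw [Subgroup.relIndex_sup_left] at e1
    rw [← e1] at hd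
    rcases (Nat.Prime.dvd_mul hr).1 hd with h | h
    · exact hK' h
    · exact hL' (h.trans (Subgroup.relIndex_dvd_card _ _))
  have hmem : hfin.toFinset.sup id ∈ A := by
    refine Finset.sup_mem A ?_ (fun x hx y hy => hsup x hx y hy) _ _ ?_
    · refine ⟨inferInstance, ?_⟩
      rw [Subgroup.card_bot]
      exact fun h => hr.one_lt.ne' (Nat.dvd_one.1 h)
    · intro K hK
      exact (Set.Finite.mem_toFinset hfin).1 hK
  refine ⟨hfin.toFinset.sup id, hmem.1, hmem.2, fun N hN hN' => ?_⟩
  exact Finset.le_sup (f := id) ((Set.Finite.mem_toFinset hfin).2 ⟨hN, hN'⟩)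

/-- normal `r'`-subgroups of the quotient are trivial -/
theorem quo_bot [Finite G] {r : ℕ} (hr : r.Prime) {M : Subgroup G} [hM : M.Normal]
    (hMr : ¬ r ∣ Nat.card M) (hmax : ∀ N : Subgroup G, N.Normal → ¬ r ∣ Nat.card N → N ≤ M)
    (Nb : Subgroup (G ⧸ M)) (hN : Nb.Normal) (hNr : ¬ r ∣ Nat.card Nb) : Nb = ⊥ := by
  have hsur : Function.Surjective (QuotientGroup.mk' M) := QuotientGroup.mk'_surjective M
  have e1 : (Nb.comap (QuotientGroup.mk' M)).index = Nb.index :=
    Subgroup.index_comap_of_surjective _ hsur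
  have e2 : Nat.card (Nb.comap (QuotientGroup.mk' M)) * (Nb.comap (QuotientGroup.mk' M)).index =
      Nat.card G := Subgroup.card_mul_index _
  have e3 : Nat.card M * M.index = Nat.card G := Subgroup.card_mul_index _
  have e4 : Nat.card Nb * Nb.index = Nat.card (G ⧸ M) := Subgroup.card_mul_index _
  have e5 : M.index = Nat.card (G ⧸ M) := rfl
  have h1 : Nat.card (Nb.comap (QuotientGroup.mk' M)) = Nat.card M * Nat.card Nb := by
    have hpos : 0 < Nb.index := Nat.pos_of_ne_zero Subgroup.index_ne_zero_of_finite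
    apply Nat.eq_of_mul_eq_mul_right hpos
    rw [e1] at e2
    rw [e2, ← e3, e5, ← e4, mul_assoc]
  have h2 : Nb.comap (QuotientGroup.mk' M) ≤ M := by
    refine hmax _ (hN.comap _) ?_
    rw [h1]
    exact fun h => ((Nat.Prime.dvd_mul hr).1 h).elim hMr hNr
  rw [eq_bot_iff, ← Subgroup.map_comap_eq_self_of_surjective hsur Nb]
  rintro _ ⟨x, hx, rfl⟩
  rw [Subgroup.mem_bot]
  exact (QuotientGroup.eq_one_iff x).2 (h2 hx)

theorem syl_map [Finite G] {Q : Type} [Group Q] {r : ℕ} {T : Subgroup G} (hT : SylIn r ⊤ T)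
    (f : G →* Q) (hf : Function.Surjective f) : SylIn r ⊤ (T.map f) := by
  refine ⟨le_top, hT.2.1.map f, ?_⟩
  rw [Subgroup.relIndex_top_right]
  intro h
  have h1 := h.trans (Subgroup.index_map_dvd T hf)
  rw [← Subgroup.relIndex_top_right] at h1
  exact hT.2.2 h1

/-- if normal `r'`-subgroups are trivial, the abelian Sylow `r`-subgroup is normal -/
theorem syl_normal [Finite G] (hs : Group.IsSolvable G) {r : ℕ} (hr : r.Prime)
    (hbot : ∀ N : Subgroup G, N.Normal → ¬ r ∣ Nat.card N → N = ⊥) {T : Subgroup G}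
    (hT : SylIn r ⊤ T) (hab : ∀ x ∈ T, ∀ y ∈ T, x * y = y * x) : T.Normal := by
  obtain ⟨-, h2, h3, h4, h5, -⟩ := specOCF G r hr ⊤
  have hn : (Oc r (⊤ : Subgroup G)).Normal :=
    ⟨fun x hx g => h3 g (fun _ _ => Subgroup.mem_top _) x hx⟩
  have hF : ∀ (l : ℕ) (O : Subgroup G), l.Prime → O.Normal → IsPGroup l O →
      O ≤ Oc r (⊤ : Subgroup G) := by
    intro l O hl hO hOl
    by_cases hlr : l = r
    · subst hlr
      exact h4 O le_top hOl (fun n _ k hk => hO.conj_mem k hk n)
    · have : Fact l.Prime := ⟨hl⟩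
      obtain ⟨k, hk⟩ := IsPGroup.iff_card.1 hOl
      rw [hbot O hO (by
        rw [hk]
        exact fun h => hlr ((Nat.prime_dvd_prime_iff_eq hr hl).1 (hr.dvd_of_dvd_pow h)).symm)]
      exact bot_le
  have hFT : Oc r (⊤ : Subgroup G) ≤ T := h5 T hT
  have hX : (Subgroup.centralizer (Oc r (⊤ : Subgroup G) : Set G)).Normal := inferInstance
  have h6 := RD.cent_le hs hF _ _ rfl hX (by
    intro x hx y hy
    exact (Subgroup.mem_centralizer_iff.1 hx y hy).symm)
  have h7 : T ≤ Subgroup.centralizer (Oc r (⊤ : Subgroup G) : Set G) := by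
    intro t ht
    rw [Subgroup.mem_centralizer_iff]
    exact fun y hy => hab y (hFT hy) t ht
  have h8 : T = Oc r (⊤ : Subgroup G) := le_antisymm (h7.trans h6) hFT
  rw [h8]
  exact hn

/-- `r`-length one -/
theorem key [Finite G] (hs : Group.IsSolvable G) {r : ℕ} (hr : r.Prime) {T : Subgroup G}
    (hT : SylIn r ⊤ T) (hab : ∀ x ∈ T, ∀ y ∈ T, x * y = y * x) :
    ∃ M : Subgroup G, M.Normal ∧ ¬ r ∣ Nat.card M ∧ (T ⊔ M).Normal := by
  obtain ⟨M, hM, hMr, hmax⟩ := exists_max (G := G) hr
  refine ⟨M, hM, hMr, ?_⟩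
  have hs' : Group.IsSolvable (G ⧸ M) := inferInstance
  have h1 : (T.map (QuotientGroup.mk' M)).Normal := by
    refine syl_normal hs' hr (fun N hN hN' => quo_bot hr hMr hmax N hN hN')
      (syl_map hT _ (QuotientGroup.mk'_surjective M)) ?_
    rintro _ ⟨x, hx, rfl⟩ _ ⟨y, hy, rfl⟩
    rw [← map_mul, hab x hx y hy, map_mul]
  have h2 := h1.comap (QuotientGroup.mk' M)
  rw [Subgroup.comap_map_eq, QuotientGroup.ker_mk'] at h2
  exact h2

theorem map_comm_le {Q : Type} [Group Q] (f : G →* Q) :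
    (_root_.commutator G).map f ≤ _root_.commutator Q := by
  rw [_root_.commutator_def, _root_.commutator_def, Subgroup.map_commutator]
  exact Subgroup.commutator_mono le_top le_top

/-- (3) -/
theorem derived [Finite G] (hs : Group.IsSolvable G) {T : Subgroup G}
    (hab : ∀ x ∈ T, ∀ y ∈ T, x * y = y * x) (htop : commutator G ⊔ T = ⊤) :
    commutator G ≤ ⁅T, commutator G⁆ := by
  have hX : (⁅T, commutator G⁆).Normal := by
    rw [← Subgroup.normalizer_eq_top_iff, eq_top_iff, ← htop]
    exact sup_le (Subgroup.normalizer_commutator_ge_right _ _)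
      (Subgroup.normalizer_commutator_ge_left _ _)
  have hsQ : Group.IsSolvable (G ⧸ ⁅T, commutator G⁆) := inferInstance
  set q := QuotientGroup.mk' (⁅T, commutator G⁆) with hq
  have hqs : Function.Surjective q := QuotientGroup.mk'_surjective _
  have hqk : ∀ x ∈ ⁅T, commutator G⁆, q x = 1 := fun x hx => (QuotientGroup.eq_one_iff x).2 hx
  -- the image of `T` is central
  have hcen : ∀ t ∈ T, ∀ g : G, q t * q g = q g * q t := by
    intro t ht g
    have hg : g ∈ commutator G ⊔ T := by rw [htop]; exact Subgroup.mem_top g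
    obtain ⟨d, hd, u, hu, rfl⟩ := Subgroup.mem_sup_of_normal_left.1 hg
    have h1 : q t * q d = q d * q t := by
      have h2 := hqk _ (Subgroup.commutator_mem_commutator ht hd)
      rw [map_commutatorElement, commutatorElement_eq_one_iff_mul_comm] at h2
      exact h2
    have h3 : q t * q u = q u * q t := by rw [← map_mul, hab t ht u hu, map_mul]
    rw [map_mul, ← mul_assoc, h1, mul_assoc, h3, mul_assoc]
  have hle : commutator (G ⧸ ⁅T, commutator G⁆) ≤
      ⁅commutator (G ⧸ ⁅T, commutator G⁆), commutator (G ⧸ ⁅T, commutator G⁆)⁆ := by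
    have hcm : ∀ d ∈ commutator G, q d ∈ commutator (G ⧸ ⁅T, commutator G⁆) := by
      intro d hd
      exact map_comm_le q ⟨d, hd, rfl⟩
    conv_lhs => rw [_root_.commutator_def]
    rw [Subgroup.commutator_le]
    intro a _ b _
    obtain ⟨a, rfl⟩ := hqs a
    obtain ⟨b, rfl⟩ := hqs b
    have ha : a ∈ commutator G ⊔ T := by rw [htop]; exact Subgroup.mem_top a
    have hb : b ∈ commutator G ⊔ T := by rw [htop]; exact Subgroup.mem_top b
    obtain ⟨d, hd, u, hu, rfl⟩ := Subgroup.mem_sup_of_normal_left.1 ha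
    obtain ⟨e, he, v, hv, rfl⟩ := Subgroup.mem_sup_of_normal_left.1 hb
    have h1 : ⁅q (d * u), q (e * v)⁆ = ⁅q d, q e⁆ := by
      have c1 := hcen u hu
      have c2 := hcen v hv
      rw [commutatorElement_def, commutatorElement_def, map_mul, map_mul]
      have e1 : q d * q u * (q e * q v) * (q d * q u)⁻¹ * (q e * q v)⁻¹ =
          q d * q e * (q v * (q u * (q d * q u)⁻¹)) * (q e * q v)⁻¹ := by
        have : q d * q u * (q e * q v) = q d * q e * (q v * q u) := by
          calc q d * q u * (q e * q v) = q d * (q u * q e) * q v := by group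
            _ = q d * (q e * q u) * q v := by rw [c1 e]
            _ = q d * q e * (q u * q v) := by group
            _ = q d * q e * (q v * q u) := by rw [c1 v]
        rw [this]
        group
      rw [e1]
      have e2 : q u * (q d * q u)⁻¹ = (q d)⁻¹ := by
        rw [mul_inv_rev]
        group
      rw [e2]
      have e3 : q v * (q d)⁻¹ = (q d)⁻¹ * q v := by
        have := c2 d
        rw [mul_inv_eq_iff_eq_mul, mul_assoc, this]
        group
      rw [e3]
      have e4 : (q e * q v)⁻¹ = (q v)⁻¹ * (q e)⁻¹ := mul_inv_rev _ _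
      rw [e4]
      group
    rw [h1]
    exact Subgroup.commutator_mem_commutator (hcm d hd) (hcm e he)
  have hbot : commutator (G ⧸ ⁅T, commutator G⁆) = ⊥ := by
    by_contra hne
    exact absurd hle (not_le_of_gt (Group.IsSolvable.commutator_lt_of_ne_bot hne))
  intro x hx
  have h1 : q x ∈ commutator (G ⧸ ⁅T, commutator G⁆) := map_comm_le q ⟨x, hx, rfl⟩
  rw [hbot, Subgroup.mem_bot] at h1
  exact (QuotientGroup.eq_one_iff x).1 h1

theorem syl_conj [Finite G] {r : ℕ} {T : Subgroup G} (hT : SylIn r ⊤ T) (g : G) :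
    SylIn r ⊤ (T.map (MulAut.conj g).toMonoidHom) :=
  syl_map hT _ (MulAut.conj g).surjective

theorem or_normal [Finite G] (r : ℕ) : (Or G r).Normal := by
  have h : ∀ g : G, Or G r ≤ (Or G r).comap (MulAut.conj g).toMonoidHom := by
    intro g
    refine sSup_le ?_
    intro R hR
    rw [← Subgroup.map_le_iff_le_comap]
    exact le_sSup (show SylIn r ⊤ _ from syl_conj hR g)
  exact ⟨fun x hx g => h g hx⟩

end RLOM

open RLOM in
/-- **RLO**. -/
theorem specRLO : SpecRLO := by
  intro H _ _ hs r T hr hT hab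
  have hOn : (Or H r).Normal := or_normal r
  have hDn : (Dr H r).Normal := Subgroup.commutator_normal _ _
  have hTO : T ≤ Or H r := le_sSup hT
  have hDO : Dr H r ≤ Or H r := Subgroup.commutator_le_left _ _
  obtain ⟨M, hM, hMr, hTM⟩ := key hs hr hT hab
  have hTi : ¬ r ∣ T.index := by
    rw [← Subgroup.relIndex_top_right]
    exact hT.2.2
  have hOTM : Or H r ≤ T ⊔ M := by
    refine sSup_le ?_
    intro R hR
    refine le_of_index hr hTM (fun h => hTi (h.trans ?_)) hR.2.1
    exact Subgroup.index_dvd_of_le le_sup_left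
  have hDM : Dr H r ≤ M := by
    refine (Subgroup.commutator_mono hOTM hOTM).trans ?_
    rw [Subgroup.commutator_le]
    intro a ha b hb
    obtain ⟨t, ht, m, hm, rfl⟩ := Subgroup.mem_sup_of_normal_right.1 ha
    obtain ⟨u, hu, n, hn, rfl⟩ := Subgroup.mem_sup_of_normal_right.1 hb
    rw [← QuotientGroup.eq_one_iff (N := M)]
    have e1 : ((t * m : H) : H ⧸ M) = (t : H ⧸ M) := by
      rw [QuotientGroup.mk_mul, (QuotientGroup.eq_one_iff m).2 hm, mul_one]
    have e2 : ((u * n : H) : H ⧸ M) = (u : H ⧸ M) := by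
      rw [QuotientGroup.mk_mul, (QuotientGroup.eq_one_iff n).2 hn, mul_one]
    have e3 : ((⁅t * m, u * n⁆ : H) : H ⧸ M) = ⁅((t * m : H) : H ⧸ M), ((u * n : H) : H ⧸ M)⁆ :=
      map_commutatorElement (QuotientGroup.mk' M) _ _
    rw [e3, e1, e2, commutatorElement_eq_one_iff_mul_comm, ← QuotientGroup.mk_mul, hab t ht u hu,
      QuotientGroup.mk_mul]
  have hDc : ¬ r ∣ Nat.card (Dr H r) := fun h => hMr (h.trans (Subgroup.card_dvd_of_le hDM))
  have hmap : (commutator (Or H r)).map (Or H r).subtype = Dr H r :=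
    Subgroup.map_subtype_commutator _
  have hsup : Or H r = Dr H r ⊔ T := by
    apply le_antisymm _ (sup_le hDO hTO)
    refine sSup_le ?_
    intro R hR
    have hRO : R ≤ Or H r := le_sSup hR
    refine le_of_relIndex hr (L := Or H r) ?_ ?_ hR.2.1 hRO
    · apply Subgroup.Normal.of_commutator_le
      intro x hx
      have h1 : (x : H) ∈ Dr H r := by
        rw [← hmap]
        exact ⟨x, hx, rfl⟩
      exact Subgroup.mem_sup_left h1
    · intro h
      apply hTi
      rw [← Subgroup.relIndex_mul_index hTO,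
        ← Subgroup.relIndex_mul_relIndex T (Dr H r ⊔ T) (Or H r) le_sup_right (sup_le hDO hTO)]
      exact (h.mul_left _).mul_right _
  refine ⟨hOn, hDn, hTO, hDO, hDc, ?_, ?_⟩
  · intro g hg
    rw [hsup] at hg
    obtain ⟨d, hd, t, ht, h⟩ := Subgroup.mem_sup_of_normal_left.1 hg
    exact ⟨d, hd, t, ht, h.symm⟩
  · have hset : Subgroup.closure {y | ∃ s ∈ T, ∃ x ∈ Dr H r, y = s * x * s⁻¹ * x⁻¹} =
        ⁅T, Dr H r⁆ := by
      rw [Subgroup.commutator_def]
      congr 1
      ext y
      constructor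
      · rintro ⟨s, hs, x, hx, rfl⟩
        exact ⟨s, hs, x, hx, rfl⟩
      · rintro ⟨s, hs, x, hx, rfl⟩
        exact ⟨s, hs, x, hx, rfl⟩
    rw [hset]
    apply le_antisymm _ (Subgroup.commutator_le_right _ _)
    have hTm : (T.subgroupOf (Or H r)).map (Or H r).subtype = T :=
      Subgroup.map_subgroupOf_eq_of_le hTO
    have htop : commutator (Or H r) ⊔ T.subgroupOf (Or H r) = ⊤ := by
      apply Subgroup.map_injective (Or H r).subtype_injective
      rw [Subgroup.map_sup, hmap, hTm, ← MonoidHom.range_eq_map, Subgroup.range_subtype, ← hsup]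
    have hsO : Group.IsSolvable (Or H r) := inferInstance
    have h1 := derived hsO (T := T.subgroupOf (Or H r))
      (fun x hx y hy => Subtype.ext (hab x hx y hy)) htop
    have h2 := Subgroup.map_mono (f := (Or H r).subtype) h1
    rw [Subgroup.map_commutator, hmap, hTm] at h2
    exact h2

end Pool.Agent.Lib.MPbe1941.X
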