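import Pool.Agent.Lib.MP_be1941_al.X.SpecQ
import Pool.Agent.Lib.MP_be1941_al.X.REL

/-!
# Module SPM: families of special subgroups
-/

set_option autoImplicit false

namespace Pool.Agent.Lib.MPbe1941.X

open Pool.Agent.Lib.MPbe1941

namespace SPMM

open FTFM

section Gen

variable {G : Type} [Group G]

theorem sup_normal (O : ℕ → Subgroup G) (s : Finset ℕ) (h : ∀ l ∈ s, (O l).Normal) :
    (s.sup O).Normal := by
  classical
  induction s using Finset.induction_on with
  | empty => rw [Finset.sup_empty]; infer_instance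
  | insert k s hks ih =>
    rw [Finset.sup_insert]
    have h1 := h k (Finset.mem_insert_self k s)
    have h2 := ih fun l hl => h l (Finset.mem_insert_of_mem hl)
    exact Subgroup.sup_normal _ _

theorem sup_comm {O : ℕ → Subgroup G} [Finite G] (hO : Fam O)
    (hab : ∀ l, ∀ x ∈ O l, ∀ y ∈ O l, x * y = y * x) (s : Finset ℕ) (hs : ∀ l ∈ s, l.Prime) :
    ∀ x ∈ s.sup O, ∀ y ∈ s.sup O, x * y = y * x := by
  classical
  induction s using Finset.induction_on with
  | empty =>
    intro x hx y _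
    have hx1 : x = 1 := by simpa using hx
    simp [hx1]
  | insert k s hks ih =>
    intro x hx y hy
    have hk : k.Prime := hs k (Finset.mem_insert_self k s)
    have hs' : ∀ j ∈ s, j.Prime := fun j hj => hs j (Finset.mem_insert_of_mem hj)
    rw [Finset.sup_insert] at hx hy
    have hcm : ∀ a ∈ O k, ∀ c ∈ s.sup O, a * c = c * a := fun a ha c hc =>
      ((hO.key s hs' c hc k hk hks).2 a ha).symm
    obtain ⟨a, ha, c, hc, rfl⟩ := mem_sup_comm hcm hx
    obtain ⟨a', ha', c', hc', rfl⟩ := mem_sup_comm hcm hy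
    have e1 := hcm a ha c' hc'
    have e2 := hcm a' ha' c hc
    have e3 := hab k a ha a' ha'
    have e4 := ih hs' c hc c' hc'
    calc a * c * (a' * c') = a * (c * a') * c' := by group
      _ = a * (a' * c) * c' := by rw [e2]
      _ = (a * a') * (c * c') := by group
      _ = (a' * a) * (c' * c) := by rw [e3, e4]
      _ = a' * (a * c') * c := by group
      _ = a' * (c' * a) * c := by rw [e1]
      _ = a' * c' * (a * c) := by group

end Gen

/-- a complement in the sense of `⊓`, `⊔` of a normal subgroup -/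
theorem compl_iff {G : Type} [Group G] {E K : Subgroup G} (hE : E.Normal) (h1 : E ⊓ K = ⊥)
    (h2 : E ⊔ K = ⊤) : Subgroup.IsComplement' E K := by
  apply Subgroup.isComplement'_of_disjoint_and_mul_eq_univ (disjoint_iff.2 h1)
  rw [← Subgroup.normal_mul, h2]
  rfl

theorem index_inf {G : Type} [Group G] [Finite G] {K L : Subgroup G}
    (h : Nat.Coprime K.index L.index) : (K ⊓ L).index = K.index * L.index := by
  apply Nat.dvd_antisymm
  · have h1 := Subgroup.relIndex_mul_index (inf_le_right : K ⊓ L ≤ L)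
    have h2 : (K ⊓ L).relIndex L = K.relIndex L := Subgroup.inf_relIndex_right K L
    have h3 : (K ⊓ L).index ∣ K.index * L.index := by
      have hle : (K ⊓ L).index ≤ K.index * L.index := Subgroup.index_inf_le
      have hd : K.index * L.index ∣ (K ⊓ L).index :=
        Nat.Coprime.mul_dvd_of_dvd_of_dvd h (Subgroup.index_dvd_of_le inf_le_left)
          (Subgroup.index_dvd_of_le inf_le_right)
      have hpos : 0 < (K ⊓ L).index := Nat.pos_of_ne_zero Subgroup.index_ne_zero_of_finite
      rw [le_antisymm hle (Nat.le_of_dvd hpos hd)]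
    exact h3
  · exact Nat.Coprime.mul_dvd_of_dvd_of_dvd h (Subgroup.index_dvd_of_le inf_le_left)
      (Subgroup.index_dvd_of_le inf_le_right)

theorem compl {G : Type} [Group G] [Finite G] {O : ℕ → Subgroup G} (hO : Fam O) (s : Finset ℕ)
    (hs : ∀ l ∈ s, l.Prime) (hn : ∀ l ∈ s, (O l).Normal)
    (hc : ∀ l ∈ s, ∃ K : Subgroup G, O l ⊓ K = ⊥ ∧ O l ⊔ K = ⊤) :
    ∃ K : Subgroup G, s.sup O ⊓ K = ⊥ ∧ s.sup O ⊔ K = ⊤ := by
  classical
  induction s using Finset.induction_on with
  | empty => exact ⟨⊤, by simp, by simp⟩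
  | insert k s hks ih =>
    have hk : k.Prime := hs k (Finset.mem_insert_self k s)
    have hs' : ∀ j ∈ s, j.Prime := fun j hj => hs j (Finset.mem_insert_of_mem hj)
    have hn' : ∀ j ∈ s, (O j).Normal := fun j hj => hn j (Finset.mem_insert_of_mem hj)
    obtain ⟨K₁, h1, h2⟩ := ih hs' hn' fun j hj => hc j (Finset.mem_insert_of_mem hj)
    obtain ⟨K₂, h3, h4⟩ := hc k (Finset.mem_insert_self k s)
    have hN1 : (s.sup O).Normal := sup_normal O s hn'
    have hN2 : (O k).Normal := hn k (Finset.mem_insert_self k s)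
    have c1 := compl_iff hN1 h1 h2
    have c2 := compl_iff hN2 h3 h4
    have hcop : Nat.Coprime (Nat.card (s.sup O : Subgroup G)) (Nat.card (O k)) := by
      have : Fact k.Prime := ⟨hk⟩
      obtain ⟨j, hj⟩ := (IsPGroup.iff_card).1 (hO.hp k hk)
      rw [hj]
      refine (Nat.Coprime.pow_left j ((Nat.Prime.coprime_iff_not_dvd hk).2 fun hd => ?_)).symm
      obtain ⟨x, hx⟩ := exists_prime_orderOf_dvd_card' k hd
      have := (hO.key s hs' x.1 x.2 k hk hks).1
      rw [Subgroup.orderOf_coe, hx] at this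
      exact this dvd_rfl
    have hidx : (K₁ ⊓ K₂).index = Nat.card (s.sup O : Subgroup G) * Nat.card (O k) := by
      rw [index_inf (by rw [c1.index_eq_card, c2.index_eq_card]; exact hcop), c1.index_eq_card,
        c2.index_eq_card]
    have hcard : Nat.card ((insert k s).sup O : Subgroup G) =
        Nat.card (s.sup O : Subgroup G) * Nat.card (O k) := by
      rw [hO.card (insert k s) hs _ le_rfl, Finset.prod_insert hks,
        hO.card s hs' _ le_rfl, mul_comm]
      congr 1
      · apply Finset.prod_congr rfl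
        intro l hl
        rw [inf_eq_right.2 (Finset.le_sup (f := O) hl),
          inf_eq_right.2 (Finset.le_sup (f := O) (Finset.mem_insert_of_mem hl))]
      · rw [inf_eq_right.2 (Finset.le_sup (f := O) (Finset.mem_insert_self k s))]
    have hdis : (insert k s).sup O ⊓ (K₁ ⊓ K₂) = ⊥ := by
      rw [Subgroup.eq_bot_iff_forall]
      rintro x ⟨hx, hx1, hx2⟩
      have hx' : x ∈ (insert k s).sup O := hx
      rw [Finset.sup_insert] at hx'
      obtain ⟨m, a, ha, b, hb, hab, hxa, hcom⟩ := hO.dec hs' hk hks hx'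
      have ha2 : a ∈ K₂ := by rw [← hxa]; exact K₂.pow_mem hx2 m
      have ha0 : a = 1 := by
        have : a ∈ O k ⊓ K₂ := ⟨ha, ha2⟩
        rw [h3] at this
        simpa using this
      rw [ha0, one_mul] at hab
      have : x ∈ s.sup O ⊓ K₁ := ⟨by rw [hab]; exact hb, hx1⟩
      rw [h1] at this
      simpa using this
    have hcomp : Subgroup.IsComplement' ((insert k s).sup O) (K₁ ⊓ K₂) := by
      apply Subgroup.isComplement'_of_card_mul_and_disjoint _ (disjoint_iff.2 hdis)
      rw [hcard, ← hidx, mul_comm]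
      exact Subgroup.card_mul_index _
    exact ⟨K₁ ⊓ K₂, hdis, hcomp.sup_eq_top⟩

end SPMM

open FTFM SPMM in
/-- SPM -/
theorem specSPM : SpecSPM := by
  classical
  intro S I Q hQ
  set O : ℕ → Subgroup S.H := fun l => if l ∈ I then Q l else ⊥ with hOdef
  have hOI : ∀ l ∈ I, O l = Q l := fun l hl => if_pos hl
  have hE : sSup {K | ∃ l ∈ I, K = Q l} = I.sup O := by
    apply le_antisymm
    · refine sSup_le ?_
      rintro K ⟨l, hl, rfl⟩
      rw [← hOI l hl]
      exact Finset.le_sup (f := O) hl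
    · refine Finset.sup_le fun l hl => ?_
      rw [hOI l hl]
      exact le_sSup ⟨l, hl, rfl⟩
  rw [hE]
  set E := I.sup O with hEdef
  have hIp : ∀ l ∈ I, l.Prime := fun l hl => (hQ l hl).1
  have hpg : ∀ l, l.Prime → IsPGroup l (O l) := by
    intro l _
    by_cases hl : l ∈ I
    · rw [hOI l hl]
      exact (hQ l hl).2.2.2.1
    · have : O l = ⊥ := if_neg hl
      rw [this]
      exact IsPGroup.of_bot
  have hON : ∀ l, (O l).Normal := by
    intro l
    by_cases hl : l ∈ I
    · rw [hOI l hl]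
      exact (hQ l hl).2.1
    · have : O l = ⊥ := if_neg hl
      rw [this]
      infer_instance
  have hO : Fam O := by
    refine ⟨hpg, ?_⟩
    intro l m hl hm hml x hx y hy
    have h1 := hON l
    have h2 := hON m
    have hdis : Disjoint (O l) (O m) := IsPGroup.disjoint_of_ne l m
      (hp₁ := ⟨hl⟩) (hp₂ := ⟨hm⟩) (Ne.symm hml) _ _ (hpg l hl) (hpg m hm)
    exact Subgroup.commute_of_normal_of_disjoint _ _ h1 h2 hdis x y hx hy
  have hab : ∀ l, ∀ x ∈ O l, ∀ y ∈ O l, x * y = y * x := by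
    intro l x hx y hy
    by_cases hl : l ∈ I
    · rw [hOI l hl] at hx hy
      exact (hQ l hl).2.2.2.2.1 x hx y hy
    · have : O l = ⊥ := if_neg hl
      rw [this] at hx
      have hx1 : x = 1 := by simpa using hx
      simp [hx1]
  -- decomposition
  have hdec : ∀ l ∈ I, ∀ x ∈ E, ∃ m : ℕ, ∃ a ∈ Q l, ∃ b ∈ (I.erase l).sup O,
      x = a * b ∧ x ^ m = a ∧ a * b = b * a ∧ ¬ l ∣ orderOf b := by
    intro l hl x hx
    have hsub : ∀ k ∈ I.erase l, k.Prime := fun k hk => hIp k (Finset.mem_of_mem_erase hk)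
    have hx' : x ∈ O l ⊔ (I.erase l).sup O := by
      rw [← Finset.sup_insert, Finset.insert_erase hl]
      exact hx
    obtain ⟨m, a, ha, b, hb, h1, h2, h3⟩ := hO.dec hsub (hIp l hl) (Finset.notMem_erase l _) hx'
    rw [hOI l hl] at ha
    exact ⟨m, a, ha, b, hb, h1, h2, h3,
      (hO.key _ hsub b hb l (hIp l hl) (Finset.notMem_erase l _)).1⟩
  have hLE : ∀ {l : ℕ} {y : S.H}, l.Prime → LE l y → ¬ l ∣ orderOf y → y = 1 := by
    intro l y hl hy hn
    obtain ⟨n, hn'⟩ := hy
    have h1 := orderOf_dvd_of_pow_eq_one hn'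
    have h2 : Nat.Coprime (orderOf y) (l ^ n) :=
      (Nat.Coprime.pow_left n ((Nat.Prime.coprime_iff_not_dvd hl).2 hn)).symm
    exact orderOf_eq_one_iff.1 (Nat.Coprime.eq_one_of_dvd h2 h1)
  have hQle : ∀ l ∈ I, Q l ≤ E := fun l hl => by
    rw [← hOI l hl]
    exact Finset.le_sup (f := O) hl
  have hel : ∀ l ∈ I, ∀ x, (x ∈ E ∧ LE l x) ↔ x ∈ Q l := by
    intro l hl x
    constructor
    · rintro ⟨hx, hxl⟩
      obtain ⟨m, a, ha, b, hb, h1, h2, h3, h4⟩ := hdec l hl x hx
      have hb1 : b = 1 := by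
        apply hLE (hIp l hl) _ h4
        obtain ⟨n, hn⟩ := hxl
        refine ⟨n, ?_⟩
        have : b = a⁻¹ * x := by rw [h1, inv_mul_cancel_left]
        have hcx : Commute a⁻¹ x := by
          rw [← h2]
          exact ((Commute.refl x).pow_left m).inv_left
        rw [this, hcx.mul_pow, hn, mul_one, inv_pow, ← h2, ← pow_mul, mul_comm, pow_mul, hn,
          one_pow, inv_one]
      rw [h1, hb1, mul_one]
      exact ha
    · intro hx
      refine ⟨hQle l hl hx, ?_⟩
      obtain ⟨n, hn⟩ := (hQ l hl).2.2.2.1 ⟨x, hx⟩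
      exact ⟨n, by simpa using congrArg Subtype.val hn⟩
  have hdvd : ∀ l, l.Prime → l ∣ Nat.card E → l ∈ I ∧ Q l ≠ ⊥ := by
    intro l hl hd
    rw [hO.card I hIp E le_rfl] at hd
    obtain ⟨k, hk, hkd⟩ := (Prime.dvd_finsetProd_iff hl.prime _).1 hd
    rw [inf_eq_right.2 (Finset.le_sup (f := O) hk)] at hkd
    have : Fact k.Prime := ⟨hIp k hk⟩
    obtain ⟨j, hj⟩ := IsPGroup.iff_card.1 (hpg k (hIp k hk))
    have hlk : l = k := by
      rw [hj] at hkd
      exact (Nat.prime_dvd_prime_iff_eq hl (hIp k hk)).1 (hl.dvd_of_dvd_pow hkd)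
    subst hlk
    refine ⟨hk, fun hb => ?_⟩
    rw [hOI l hk, hb, Subgroup.card_bot] at hkd
    exact hl.one_lt.ne' (Nat.dvd_one.1 hkd)
  have hord : ∀ x ∈ E, ∀ l, l.Prime → l ∣ orderOf x → l ∈ I := by
    intro x hx l hl hd
    apply (hdvd l hl _).1
    have h1 : orderOf (⟨x, hx⟩ : E) ∣ Nat.card E := orderOf_dvd_natCard _
    rw [Subgroup.orderOf_mk] at h1
    exact hd.trans h1
  refine ⟨⟨sup_normal O I fun l _ => hON l, ?_, sup_comm hO hab I hIp, ?_, ?_⟩, ?_, ?_, hel, hdvd⟩
  · rw [hEdef]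
    refine Finset.sup_le fun l hl => ?_
    rw [hOI l hl]
    exact (hQ l hl).2.2.1
  · intro x hx htriv
    by_contra hx1
    obtain ⟨l, hl, hd⟩ := Nat.exists_prime_and_dvd (fun h => hx1 (orderOf_eq_one_iff.1 h))
    have hlI := hord x hx l hl hd
    obtain ⟨m, a, ha, b, hb, h1, h2, h3, h4⟩ := hdec l hlI x hx
    have ha1 : a = 1 := by
      apply (hQ l hlI).2.2.2.2.2.1 a ha
      intro v
      rw [← h2]
      have : ∀ n : ℕ, x ^ n • v = v := by
        intro n
        induction n with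
        | zero => rw [pow_zero, one_smul]
        | succ n ih => rw [pow_succ, mul_smul, htriv, ih]
      exact this m
    rw [ha1, one_mul] at h1
    rw [h1] at hd
    exact h4 hd
  · intro l hl x hx hxl
    by_cases hlI : l ∈ I
    · exact (hQ l hlI).2.2.2.2.2.2.1 x ((hel l hlI x).1 ⟨hx, hxl⟩)
    · have : x = 1 := hLE hl hxl fun hd => hlI (hord x hx l hl hd)
      rw [this, map_one]
      exact one_mem _
  · intro l hl hd
    have hlI := (hdvd l hl hd).1
    obtain ⟨c, hc, hcp, hgen⟩ := (hQ l hlI).2.2.2.2.2.2.2.1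
    refine ⟨c, hQle l hlI hc, ((hel l hlI c).2 hc).2, hcp, ?_⟩
    intro y hy hyl hyc
    exact hgen y ((hel l hlI y).1 ⟨hy, hyl⟩) hyc
  · apply compl hO I hIp (fun l _ => hON l)
    intro l hl
    rw [hOI l hl]
    exact (hQ l hl).2.2.2.2.2.2.2.2

end Pool.Agent.Lib.MPbe1941.X
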