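import Pool.Agent.Lib.MP_be1941_al.X.SpecP
import Pool.Agent.Lib.MP_be1941_al.X.PSB

/-!
# MP_be1941_al, exact bound: the end of case II.B (EXACT.md 9.5), abstract form (helper16)

`M` is the module `P / Z(P)`, `Z` the dual of `P'`, `B μ x y = μ [x, y]`.
-/

set_option autoImplicit false

namespace Pool.Agent.Lib.MPbe1941.X

open Pool.Agent.Lib.MPbe1941

/-- `M`, `Z` irreducible modules of the `p'`-group `H` in characteristic `p`, `B μ` (`μ ∈ Z`)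
alternating bimultiplicative forms on `M`, compatible with `H`. -/
structure FormD (H M Z : Type) [Group H] [AddCommGroup M] [AddCommGroup Z] [DistribMulAction H M]
    [DistribMulAction H Z] (p : ℕ) (B : Z → M → M → ℂ) : Prop where
  finH : Finite H
  finM : Finite M
  finZ : Finite Z
  pp : p.Prime
  cop : ¬ p ∣ Nat.card H
  ntM : Nontrivial M
  ntZ : Nontrivial Z
  Mexp : ∀ x : M, p • x = 0
  Zexp : ∀ μ : Z, p • μ = 0
  Mirr : ∀ A : AddSubgroup M, (∀ h : H, ∀ x ∈ A, h • x ∈ A) → A = ⊥ ∨ A = ⊤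
  Zirr : ∀ A : AddSubgroup Z, (∀ h : H, ∀ μ ∈ A, h • μ ∈ A) → A = ⊥ ∨ A = ⊤
  Bne : ∀ μ x y, B μ x y ≠ 0
  Bz : ∀ μ ν x y, B (μ + ν) x y = B μ x y * B ν x y
  Bl : ∀ μ x x' y, B μ (x + x') y = B μ x y * B μ x' y
  Br : ∀ μ x y y', B μ x (y + y') = B μ x y * B μ x y'
  Balt : ∀ μ x, B μ x x = 1
  Bh : ∀ (h : H) μ x y, B (h • μ) (h • x) (h • y) = B μ x y

section

variable {H M Z : Type} [Group H] [AddCommGroup M] [AddCommGroup Z] [DistribMulAction H M]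
    [DistribMulAction H Z]

/-- `h` fixes `μ` and the restriction of the character `lam` to the radical of `B μ`. -/
def NFix (B : Z → M → M → ℂ) (μ : Z) (lam : AddChar M ℂ) (h : H) : Prop :=
  h • μ = μ ∧ ∀ x, (∀ y, B μ x y = 1) → lam (h • x) = lam x

/-- The inequality `|A| + 2 ≤ |M|` for all N-states `(μ, lam; E, gam)`: `E ≤ C` is an abelian
subgroup of the stabiliser of `(μ, lam)`, normal and complemented (by `K`) in it, `gam` a linear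
character of `E`. -/
def NIneq (T : Set ℕ) (C : Subgroup H) (B : Z → M → M → ℂ) : Prop :=
  ∀ (μ : Z) (lam : AddChar M ℂ) (E K : Subgroup H) (gam : H → ℂ), μ ≠ 0 → E ≤ C →
    (∀ x ∈ E, ∀ y ∈ E, x * y = y * x) → (∀ x ∈ E, NFix B μ lam x) →
    (∀ h, NFix B μ lam h → ∀ x ∈ E, h * x * h⁻¹ ∈ E) → (∀ k ∈ K, NFix B μ lam k) → E ⊓ K = ⊥ →
    (∀ h, NFix B μ lam h → h ∈ E ⊔ K) → Lin E gam →
    {r | r ∈ T ∧ ∀ S : Subgroup H, SylIn r ⊤ S →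
        ∃ s ∈ S, ¬ (NFix B μ lam s ∧ FixB E gam s)}.ncard + 2 ≤
      {r | r ∈ T ∧ ∃ S : Subgroup H, SylIn r ⊤ S ∧ S ≤ C ∧
        (∀ s ∈ S, NFix B μ lam s ∧ FixB E gam s) ∧
        (∀ x ∈ S, ∀ y ∈ S, x * y * x⁻¹ * y⁻¹ ∈ E) ∧
        ∀ h, NFix B μ lam h → FixB E gam h → ∀ s ∈ S, h * s * h⁻¹ ∈ S ⊔ E}.ncard

end

/-- **END** (EXACT.md 9.5): the contradiction in case II.B. `D` is cyclic and normal, `D R` is normal
of order `|D| |R|`, coprime orders; `r ∈ Pi`: the Sylow `r`-subgroups of `R` are Sylow subgroups of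
`H` and `|M| ≤ |[D,S]|²`; `r ∈ PiN`: `H` has a normal Sylow `r`-subgroup `≠ 1` contained in `C`. -/
def SpecEND : Prop :=
  ∀ (H M Z : Type) [Group H] [AddCommGroup M] [AddCommGroup Z] [DistribMulAction H M]
    [DistribMulAction H Z] (p : ℕ) (B : Z → M → M → ℂ), FormD H M Z p B →
    ∀ (T : Set ℕ) (C D R : Subgroup H) (Pi PiN : Set ℕ), T.Finite →
    (∀ c ∈ C, (∀ x : M, c • x = x) → c = 1) → NIneq T C B → D.Normal → D ≤ C →
    (∃ g ∈ D, ∀ x ∈ D, ∃ n : ℤ, x = g ^ n) → (D ⊔ R).Normal →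
    Nat.Coprime (Nat.card D) (Nat.card R) →
    (∀ r ∈ Pi, r ∈ T ∧ r.Prime ∧ ∃ S : Subgroup H, SylIn r ⊤ S ∧ S ≤ R ∧
      Nat.card M ≤ Nat.card (⁅D, S⁆ : Subgroup H) ^ 2) →
    (∀ r ∈ PiN, r ∈ T ∧ r.Prime ∧ ∃ S : Subgroup H, SylIn r ⊤ S ∧ S.Normal ∧ S ≤ C ∧ S ≠ ⊥) →
    (∀ r ∈ T, ∀ S : Subgroup H, SylIn r ⊤ S → S ≤ C → r ∈ Pi ∨ r ∈ PiN) →
    Pi.ncard = PiN.ncard → False

end Pool.Agent.Lib.MPbe1941.X
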