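import Pool.Agent.Lib.MP_be1941_al.X.SpecT1B
import Pool.Agent.Lib.MP_be1941_al.X.REL
import Pool.Agent.Lib.MP_be1941_al.X.PSB

section
/-!
# Module GDB: the number of good primes of `M(v)` is at most `|Π_K|`
-/
set_option autoImplicit false

namespace Pool.Agent.Lib.MPbe1941.X

open Pool.Agent.Lib.MPbe1941
open Pool.Agent.Lib.MPbe1941.XF
open scoped commutatorElement

theorem specGDB : SpecGDB := by
  intro H X _ _ _ p C T _ hP v hv U hUT hU
  classical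
  have hQ : ∀ l : ℕ, ∃ Q : Subgroup H, (∃ r R, r ∈ T ∧ Gd C v r R ∧ NtOn R (Oc l C)) →
      ∃ r R, r ∈ T ∧ Gd C v r R ∧ NtOn R (Oc l C) ∧ Q = ⁅Oc l C, R⁆ := by
    intro l
    by_cases h : ∃ r R, r ∈ T ∧ Gd C v r R ∧ NtOn R (Oc l C)
    · obtain ⟨r, R, h1, h2, h3⟩ := h
      exact ⟨⁅Oc l C, R⁆, fun _ => ⟨r, R, h1, h2, h3, rfl⟩⟩
    · exact ⟨⊥, fun h' => absurd h' h⟩
  choose Q hQ using hQ
  have hL : ∀ r : ℕ, ∃ l : ℕ, r ∈ U → l.Prime ∧ ∃ R, Gd C v r R ∧ NtOn R (Oc l C) := by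
    intro r
    by_cases h : r ∈ U
    · obtain ⟨R, hR⟩ := hU r h
      obtain ⟨l, hl, hn⟩ := hP.ntv v r R hv (hUT h) hR.1
      exact ⟨l, fun _ => ⟨hl, R, hR, hn⟩⟩
    · exact ⟨0, fun h' => absurd h' h⟩
  choose L hL using hL
  refine hP.fam (U.image L) Q ?_ U hUT ?_
  · intro l hl
    obtain ⟨r, hr, rfl⟩ := Finset.mem_image.1 hl
    obtain ⟨hlp, R, hR, hn⟩ := hL r hr
    obtain ⟨r', R', h1, h2, h3, h4⟩ := hQ (L r) ⟨r, R, hUT hr, hR, hn⟩
    exact ⟨hlp, v, r', R', hv, h1, h2, h3, h4⟩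
  · intro r hr
    obtain ⟨hlp, R, hR, hn⟩ := hL r hr
    obtain ⟨r', R', h1, h2, h3, h4⟩ := hQ (L r) ⟨r, R, hUT hr, hR, hn⟩
    have hl2 : L r ≠ 2 := (hP.spn v r R hv (hUT hr) hR (L r) hlp hn).1
    have hsame : ⁅Oc (L r) C, R'⁆ = ⁅Oc (L r) C, R⁆ :=
      hP.sam v r' r R' R hv h1 (hUT hr) h2.1 hR.1 h2.2.1 hR.2.1 (L r) hlp hl2 h3 hn
    obtain ⟨x, hx, y, hy, hxy⟩ := hn
    obtain ⟨-, -, -, -, -, -, -, hodd, -⟩ :=
      hP.odd v r R hv (hUT hr) hR.1 hR.2.1 (L r) hlp hl2 ⟨x, hx, y, hy, hxy⟩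
    refine ⟨L r, Finset.mem_image_of_mem L hr, x, ?_, ?_⟩
    · obtain ⟨n, hn⟩ := hR.1.1.2.1 ⟨x, hx⟩
      exact ⟨n, congrArg Subtype.val hn⟩
    · rw [h4, hsame]
      exact (hodd x hx).2 ⟨y, hy, hxy⟩

end Pool.Agent.Lib.MPbe1941.X
end

section
/-!
# MP_be1941_al EXACT, block T1: module UNC (unclean extremal vectors)
-/
set_option autoImplicit false

namespace Pool.Agent.Lib.MPbe1941.X

open Pool.Agent.Lib.MPbe1941
open Pool.Agent.Lib.MPbe1941.XF
open scoped commutatorElement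

namespace UNCM

variable {H X : Type} [Group H] [AddCommGroup X] [DistribMulAction H X] {p : ℕ}
  {C : Subgroup H} {T : Finset ℕ}

/-- `O_l(C)` is normal in `H` for `C` normal. -/
theorem oc_conj [Finite H] (hC : C.Normal) {l : ℕ} (hl : l.Prime) (g : H) {k : H}
    (hk : k ∈ Oc l C) : g * k * g⁻¹ ∈ Oc l C :=
  (specOCF H l hl C).2.2.1 g (fun n hn => hC.conj_mem n hn g) k hk

/-- If `R` is trivial on `O_l(C)` then so is `[U, R]`. -/
theorem cen_comm [Finite H] (hC : C.Normal) {l : ℕ} (hl : l.Prime) {U R : Subgroup H}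
    (hR : ¬ NtOn R (Oc l C)) : ¬ NtOn (⁅U, R⁆ : Subgroup H) (Oc l C) := by
  have hR' : ∀ x ∈ R, ∀ y ∈ Oc l C, x * y = y * x := by
    intro x hx y hy
    by_contra h
    exact hR ⟨x, hx, y, hy, h⟩
  rintro ⟨x, hx, y, hy, hxy⟩
  apply hxy
  have hle : (⁅U, R⁆ : Subgroup H) ≤ Subgroup.centralizer (Oc l C : Set H) := by
    rw [Subgroup.commutator_le]
    intro u _ s hs
    rw [Subgroup.mem_centralizer_iff]
    intro z hz
    have hz' : z ∈ Oc l C := hz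
    rw [commutatorElement_def]
    -- `u s u⁻¹` commutes with `z`, `s⁻¹` commutes with `z`
    have h1 : s * (u⁻¹ * z * u) = (u⁻¹ * z * u) * s := by
      apply hR' s hs
      have := oc_conj hC hl u⁻¹ hz'
      rwa [inv_inv] at this
    have h2 : s * z = z * s := hR' s hs z hz'
    have h3 : (u * s * u⁻¹) * z = z * (u * s * u⁻¹) := by
      calc (u * s * u⁻¹) * z = u * (s * (u⁻¹ * z * u)) * u⁻¹ := by group
        _ = u * ((u⁻¹ * z * u) * s) * u⁻¹ := by rw [h1]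
        _ = z * (u * s * u⁻¹) := by group
    have h4 : s⁻¹ * z = z * s⁻¹ := by
      calc s⁻¹ * z = s⁻¹ * (z * s) * s⁻¹ := by group
        _ = s⁻¹ * (s * z) * s⁻¹ := by rw [h2]
        _ = z * s⁻¹ := by group
    calc z * (u * s * u⁻¹ * s⁻¹) = (z * (u * s * u⁻¹)) * s⁻¹ := by group
      _ = (u * s * u⁻¹) * (z * s⁻¹) := by rw [← h3]; group
      _ = (u * s * u⁻¹) * (s⁻¹ * z) := by rw [h4]
      _ = u * s * u⁻¹ * s⁻¹ * z := by group
  have := hle hx
  rw [Subgroup.mem_centralizer_iff] at this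
  exact (this y hy).symm

theorem prime_cases {r : ℕ} (hr : r.Prime) : r = 2 ∨ r = 3 ∨ 5 ≤ r := by
  rcases Nat.lt_or_ge r 5 with h | h
  · interval_cases r
    · exact absurd hr (by norm_num)
    · exact absurd hr (by norm_num)
    · exact Or.inl rfl
    · exact Or.inr (Or.inl rfl)
    · exact absurd hr (by norm_num)
  · exact Or.inr (Or.inr h)

/-- An extremal vector with `3 ∉ M(v)` is clean. -/
theorem clean_of (hBD2 : SpecBD2) (hTS : TS H X p C T) (hP : PRP H X C T) {v : X}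
    (hv : ExtV (Fit C) v) (h3 : ¬ ∃ R, MiH C v 3 R) : Clean C T v := by
  refine ⟨hv, fun r hr R hR => ?_⟩
  rcases prime_cases (hTS.tp r hr).1 with h | h | h
  · subst h
    exact absurd ⟨R, hR⟩ (hBD2 H X p C T hTS hP v hv hr)
  · subst h
    exact absurd ⟨R, hR⟩ h3
  · exact hP.g5 v r R hv hr hR h

end UNCM

open UNCM

theorem specUNC (hBD2 : SpecBD2) (hQ8T : SpecQ8T) (hEKT : SpecEKT) : SpecUNC := by
  intro H X _ _ _ p C T hTS hP v hv hnc
  haveI := hTS.finH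
  have h2 : 2 ∈ T → ¬ ∃ R, MiH C v 2 R := hBD2 H X p C T hTS hP v hv
  -- the bad prime is `3`
  have hbad : ∃ r ∈ T, ∃ R, MiH C v r R ∧ ¬ Gd C v r R := by
    by_contra hcon
    push Not at hcon
    exact hnc ⟨hv, fun r hr R hR => hcon r hr R hR⟩
  obtain ⟨r, hrT, R, hR, hng⟩ := hbad
  have hr3 : r = 3 := by
    rcases prime_cases (hTS.tp r hrT).1 with h | h | h
    · subst h
      exact absurd ⟨R, hR⟩ (h2 hrT)
    · exact h
    · exact absurd (hP.g5 v r R hv hrT hR h) hng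
  subst hr3
  refine ⟨hrT, R, hR, ?_, ?_⟩
  · intro r' hr' hne R' hR'
    rcases prime_cases (hTS.tp r' hr').1 with h | h | h
    · subst h
      exact absurd ⟨R', hR'⟩ (h2 hr')
    · exact absurd h hne
    · exact hP.g5 v r' R' hv hr' hR' h
  · by_cases hy : ∃ y ∈ FixY X (Stb (Fit C) v), y ≠ 0 ∧ ¬ ∃ R', MiH C y 3 R'
    · left
      obtain ⟨y, hyY, hy0, hy3⟩ := hy
      obtain ⟨he, hs⟩ := (hP.sem v hv y hyY).1 hy0
      exact ⟨y, clean_of hBD2 hTS hP he hy3, hs⟩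
    · right
      push Not at hy
      have hnt2 : ¬ NtOn R (Oc 2 C) := by
        intro hnt
        obtain ⟨v', hv', hs', h3'⟩ := hQ8T H X p C T hTS hP v hv hrT R hR hnt
        apply h3'
        apply hy v' _ hv'.1
        intro b hb
        rw [← hs'] at hb
        exact hb.2
      constructor
      · by_contra hcon
        push Not at hcon
        exact hng (hP.g3 v R hv hrT hR hnt2 hcon)
      · intro l hl hl2 hB
        have hntl : NtOn R (Oc l C) := by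
          by_contra hcon
          obtain ⟨t, _, _, U, _, _, _, hUR, hU⟩ := hB
          have := cen_comm (U := U) hTS.nor hl hcon
          rw [hUR] at this
          exact this hU
        have hncyc := hP.gam v R hv hrT hR hnt2 hy l hl hl2 hB
        obtain ⟨v', hv', h3', _, hst⟩ := hEKT H X p C T hTS hP v 3 R hv hrT hR (by norm_num) l hl hl2
          hntl hncyc
        exact ⟨v', clean_of hBD2 hTS hP hv' h3', hst⟩

end Pool.Agent.Lib.MPbe1941.X
end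

section
/-!
# MP_be1941_al EXACT, block T1: module NI1 (nice vectors: counting)
-/
set_option autoImplicit false

namespace Pool.Agent.Lib.MPbe1941.X

open Pool.Agent.Lib.MPbe1941
open Pool.Agent.Lib.MPbe1941.XF
open scoped commutatorElement

namespace NI1M

section

variable {H X : Type} [Group H] [AddCommGroup X] [DistribMulAction H X] {p : ℕ}
  {C : Subgroup H} {T : Finset ℕ}

theorem mem_PiK {r : ℕ} : r ∈ PiK H X T ↔ r ∈ T ∧ ∀ v : X, v ≠ 0 → Kl H v r := by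
  classical
  unfold PiK
  rw [Finset.mem_filter]

theorem mem_kA {v : X} {r : ℕ} : r ∈ kA H T v ↔ r ∈ T ∧ Kl H v r := by
  classical
  unfold kA
  rw [Finset.mem_filter]

theorem mem_kM {v : X} {r : ℕ} : r ∈ kM C T v ↔ r ∈ T ∧ ∃ R, MiH C v r R := by
  classical
  unfold kM
  rw [Finset.mem_filter]

theorem mem_setA {v : X} {D : Subgroup H} {bet : H → ℂ} {r : ℕ} :
    r ∈ setA T v D bet ↔ r ∈ T ∧ KlS v D bet r := by
  classical
  unfold setA
  rw [Finset.mem_filter]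

theorem mem_setM {v : X} {D : Subgroup H} {bet : H → ℂ} {r : ℕ} :
    r ∈ setM C T v D bet ↔ r ∈ T ∧ MiS C v D bet r := by
  classical
  unfold setM
  rw [Finset.mem_filter]

theorem eq_one_of_zpow {G : Type} [Group G] {l : ℕ} (hl : l.Prime) {k : G} (hk : k ^ l = 1) {a : ℤ}
    (ha : ¬ (l : ℤ) ∣ a - 1) (h : k ^ a = k) : k = 1 := by
  have h1 : k ^ (a - 1) = 1 := by
    rw [zpow_sub, h, zpow_one, mul_inv_cancel]
  have h2 : orderOf k ∣ l := orderOf_dvd_of_pow_eq_one hk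
  have h3 : (orderOf k : ℤ) ∣ a - 1 := orderOf_dvd_iff_zpow_eq_one.2 h1
  rcases (Nat.dvd_prime hl).1 h2 with h4 | h4
  · exact orderOf_eq_one_iff.1 h4
  · rw [h4] at h3
    exact absurd h3 ha

/-- A power automorphism is the same for a conjugate element. -/
theorem pw_conj {Q : Subgroup H} (hQ : Q.Normal) {x g : H} {a : ℤ}
    (hx : ∀ q ∈ Q, x * q * x⁻¹ = q ^ a) : ∀ q ∈ Q, (g * x * g⁻¹) * q * (g * x * g⁻¹)⁻¹ = q ^ a := by
  intro q hq
  have h1 : g⁻¹ * q * g ∈ Q := by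
    have := hQ.conj_mem q hq g⁻¹
    rwa [inv_inv] at this
  have h2 := hx _ h1
  have h3 : (g⁻¹ * q * g) ^ a = g⁻¹ * q ^ a * g := by
    have := conj_zpow (a := g⁻¹) (b := q) (i := a)
    rw [inv_inv] at this
    exact this
  calc (g * x * g⁻¹) * q * (g * x * g⁻¹)⁻¹ = g * (x * (g⁻¹ * q * g) * x⁻¹) * g⁻¹ := by group
    _ = g * (g⁻¹ * q ^ a * g) * g⁻¹ := by rw [h2, h3]
    _ = q ^ a := by group

/-- An `r`-element of order prime to `r`. -/
theorem eq_one_of_two {G : Type} [Group G] {l r : ℕ} (hl : l.Prime) (hr : r.Prime) (hne : r ≠ l)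
    {k : G} (hk : k ^ l = 1) {n : ℕ} (hn : k ^ r ^ n = 1) : k = 1 := by
  have h1 : orderOf k ∣ l := orderOf_dvd_of_pow_eq_one hk
  have h2 : orderOf k ∣ r ^ n := orderOf_dvd_of_pow_eq_one hn
  have h3 : Nat.Coprime l (r ^ n) :=
    Nat.Coprime.pow_right n ((Nat.coprime_primes hl hr).2 hne.symm)
  exact orderOf_eq_one_iff.1 (Nat.eq_one_of_dvd_coprimes h3 h1 h2)

/-- A faithful linear character of a subgroup of prime order. -/
theorem exists_bet [Finite H] {l : ℕ} (hl : l.Prime) {K : Subgroup H} (hK : Nat.card K = l) :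
    ∃ bet : H → ℂ, Lin K bet ∧ ∀ x ∈ K, ∀ y ∈ K, bet x = bet y → x = y := by
  classical
  haveI : Fact l.Prime := ⟨hl⟩
  haveI : IsCyclic K := isCyclic_of_prime_card hK
  letI : CommGroup K := IsCyclic.commGroup
  have hnt : Nontrivial K := by
    rw [← Finite.one_lt_card_iff_nontrivial, hK]
    exact hl.one_lt
  obtain ⟨a, ha⟩ := exists_ne (1 : K)
  haveI : NeZero (Monoid.exponent K) := ⟨Monoid.exponent_ne_zero_of_finite⟩
  obtain ⟨φ, hφ⟩ := CommGroup.exists_apply_ne_one_of_hasEnoughRootsOfUnity K ℂ ha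
  have hinj : Function.Injective φ := by
    rw [← MonoidHom.ker_eq_bot_iff]
    have hcard := Subgroup.card_subgroup_dvd_card φ.ker
    rw [hK] at hcard
    rcases (Nat.dvd_prime hl).1 hcard with h | h
    · exact (Subgroup.card_eq_one).1 h
    · exfalso
      apply hφ
      have h2 : φ.ker = ⊤ := Subgroup.eq_top_of_card_eq _ (h.trans hK.symm)
      have h3 : a ∈ φ.ker := by rw [h2]; exact Subgroup.mem_top a
      exact MonoidHom.mem_ker.1 h3
  obtain ⟨bet, hbet⟩ : ∃ bet : H → ℂ, ∀ (h : H) (hh : h ∈ K), bet h = ((φ ⟨h, hh⟩ : ℂˣ) : ℂ) :=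
    ⟨fun h => if hh : h ∈ K then ((φ ⟨h, hh⟩ : ℂˣ) : ℂ) else 1, fun h hh => dif_pos hh⟩
  refine ⟨bet, ⟨?_, ?_⟩, ?_⟩
  · have h1 : (⟨1, K.one_mem⟩ : K) = 1 := rfl
    rw [hbet 1 K.one_mem, h1, map_one]
    rfl
  · intro x hx y hy
    have h1 : (⟨x * y, K.mul_mem hx hy⟩ : K) = ⟨x, hx⟩ * ⟨y, hy⟩ := rfl
    rw [hbet x hx, hbet y hy, hbet _ (K.mul_mem hx hy), h1, map_mul]
    rfl
  · intro x hx y hy hxy
    rw [hbet x hx, hbet y hy] at hxy
    have h1 := hinj (Units.ext hxy)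
    exact congrArg Subtype.val h1

/-- `Q ≤ H` normal, contained in `C`, fixing `v ≠ 0`: `Q = 1`. -/
theorem normal_fix (hTS : TS H X p C T) {Q : Subgroup H} (hQn : Q.Normal) (hQC : Q ≤ C) {v : X}
    (hv : v ≠ 0) (hfix : ∀ q ∈ Q, q • v = v) : Q = ⊥ := by
  have hinv : ∀ h : H, ∀ x ∈ FixY X Q, h • x ∈ FixY X Q := by
    intro h x hx q hq
    have h1 : h⁻¹ * q * h ∈ Q := by
      have := hQn.conj_mem q hq h⁻¹
      rwa [inv_inv] at this
    have h2 := hx _ h1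
    have h3 : q • h • x = h • (h⁻¹ * q * h) • x := by
      rw [← mul_smul, ← mul_smul]
      congr 1
      group
    rw [h3, h2]
  rcases hTS.irr (FixY X Q) hinv with h | h
  · exfalso
    have : v ∈ FixY X Q := hfix
    rw [h] at this
    exact hv ((AddSubgroup.mem_bot).1 this)
  · rw [Subgroup.eq_bot_iff_forall]
    intro q hq
    apply hTS.faith q (hQC hq)
    intro x
    have : x ∈ FixY X Q := by rw [h]; exact AddSubgroup.mem_top x
    exact this q hq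

end

end NI1M

open NI1M

theorem specNI1 (hCNB : SpecCNB) : SpecNI1 := by
  intro H X _ _ _ p C T hTS hPRP v₀ r₀ R₀ hv₀ hr₀ hG₀ l hl hN₀ P hPdef v hv hcard
  classical
  haveI := hTS.finH
  haveI := hTS.finX
  set Q : Subgroup H := ⁅Oc l C, R₀⁆ with hQ
  obtain ⟨hl2, hQn, hQbot⟩ := hPRP.spn v₀ r₀ R₀ hv₀ hr₀ hG₀ l hl hN₀
  obtain ⟨hQab, hQle, -, -, -, -, -, -, -⟩ :=
    hPRP.odd v₀ r₀ R₀ hv₀ hr₀ hG₀.1 hG₀.2.1 l hl hl2 hN₀
  have hOC : Oc l C ≤ C := (specOCF H l hl C).1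
  have hOF : Oc l C ≤ Fit C := le_sSup ⟨l, hl, rfl⟩
  have hQC : Q ≤ C := hQle.trans hOC
  -- Lemma A
  have hA : ∀ r ∈ P, ∃ R x, Gd C v₀ r R ∧ NtOn R (Oc l C) ∧ (⁅Oc l C, R⁆ : Subgroup H) = Q ∧
      x ∈ R ∧ PwOn l Q x := by
    intro r hr
    obtain ⟨hrT, R, hG, hN⟩ := (hPdef r).1 hr
    have hs := hPRP.sam v₀ r r₀ R R₀ hv₀ hrT hr₀ hG.1 hG₀.1 hG.2.1 hG₀.2.1 l hl hl2 hN hN₀
    obtain ⟨x, hx, y, hy, hxy⟩ := hN
    have h2 := ((hPRP.odd v₀ r R hv₀ hrT hG.1 hG.2.1 l hl hl2 ⟨x, hx, y, hy, hxy⟩).2.2.2.2.2.2.2.1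
      x hx).2 ⟨y, hy, hxy⟩
    rw [hs] at h2
    exact ⟨R, x, hG, ⟨x, hx, y, hy, hxy⟩, hs, hx, h2⟩
  set K : Subgroup H := Stb Q v with hK
  have hKQ : K ≤ Q := fun x hx => hx.1
  have hKv : ∀ k ∈ K, k • v = v := fun x hx => hx.2
  have hKl : ∀ k ∈ K, k ^ l = 1 := by
    intro k hk
    have h1 : (⟨k, hk⟩ : K) ^ Nat.card K = 1 := pow_card_eq_one'
    rw [hcard] at h1
    exact congrArg Subtype.val h1
  have hKnor : ∀ h : H, h • v = v → ∀ k ∈ K, h * k * h⁻¹ ∈ K := by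
    intro h hh k hk
    refine ⟨hQn.conj_mem k hk.1 h, ?_⟩
    rw [mul_smul, mul_smul, inv_smul_eq_iff.2 hh.symm, hk.2, hh]
  have hKne : ∃ k ∈ K, k ≠ 1 := by
    by_contra hcon
    push Not at hcon
    have h1 : K = ⊥ := (Subgroup.eq_bot_iff_forall K).2 hcon
    rw [h1, Subgroup.card_bot] at hcard
    exact hl.one_lt.ne hcard
  -- a conjugate of `x` in every Sylow subgroup
  have hconj : ∀ r ∈ P, ∀ R' : Subgroup H, SylIn r ⊤ R' → ∃ x' ∈ R', ∃ a : ℤ,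
      ¬ (l : ℤ) ∣ a - 1 ∧ ∀ q ∈ Q, x' * q * x'⁻¹ = q ^ a := by
    intro r hr R' hR'
    have hrp : r.Prime := (hTS.tp r ((hPdef r).1 hr).1).1
    obtain ⟨R, x, hG, -, -, hx, a, ha, hpw⟩ := hA r hr
    obtain ⟨g, -, hg⟩ := (CO.specSYL H r hrp).2.2.1 ⊤ R R' hG.1.1 hR'
    refine ⟨g * x * g⁻¹, ?_, a, ha, pw_conj hQn hpw⟩
    rw [hg]
    have : g⁻¹ * (g * x * g⁻¹) * g = x := by group
    rwa [this]
  -- (a)
  have hna : ∀ r ∈ P, ¬ ∃ R', MiH C v r R' := by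
    rintro r hr ⟨R', hR'⟩
    obtain ⟨x', hx', a, ha, hpw⟩ := hconj r hr R' hR'.1
    obtain ⟨k, hk, hk1⟩ := hKne
    have hc := (hPRP.cop v r R' hv ((hPdef r).1 hr).1 hR').2 x' hx' k
      ⟨hOF (hQle (hKQ hk)), hKv k hk⟩
    have h1 : x' * k * x'⁻¹ = k := by rw [hc]; group
    rw [hpw k (hKQ hk)] at h1
    exact hk1 (eq_one_of_zpow hl (hKl k hk) ha h1)
  refine ⟨?_, hna⟩
  obtain ⟨-, hcnb⟩ := hCNB H X p C T hTS
  obtain ⟨hsub, hle⟩ := hcnb v hv.1
  have hdis : Disjoint (PiK H X T) P := by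
    rw [Finset.disjoint_left]
    intro r hr hrP
    obtain ⟨R, x, hG, -⟩ := hA r hrP
    obtain ⟨h, hh, hne⟩ := (mem_PiK.1 hr).2 v₀ hv₀.1 R hG.1.1
    exact hne (hG.1.2.2.2.1 h hh)
  have hcu : (PiK H X T ∪ P).card = (PiK H X T).card + P.card := Finset.card_union_of_disjoint hdis
  by_cases hall : ∀ r ∈ P, Kl H v r
  · -- (b)
    rw [← hcu]
    refine (Finset.card_le_card ?_).trans hle
    intro r hr
    rw [Finset.mem_union] at hr
    rcases hr with hr | hr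
    · exact hsub hr
    · exact mem_kA.2 ⟨((hPdef r).1 hr).1, hall r hr⟩
  · -- (c)
    push Not at hall
    obtain ⟨r, hr, hnk⟩ := hall
    obtain ⟨R, x, hG, hN, hRQ, -, -⟩ := hA r hr
    obtain ⟨K1, hK1a, hK1b, hK1c⟩ := hPRP.fra v₀ r R hv₀ ((hPdef r).1 hr).1 hG l hl hN v hnk
    rw [hRQ] at hK1b hK1c
    obtain ⟨bet, hlin, hinj⟩ := exists_bet hl hcard
    have hst : StV C v K bet := by
      refine ⟨hKQ.trans hQC, hKv, hKnor, ?_, ⟨K1, hK1a, hK1b, hK1c⟩, hlin⟩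
      intro x hx y hy
      exact hQab x (hKQ hx) y (hKQ hy)
    have htight := hTS.tight v K bet hst
    have hAsub : PiK H X T ∪ P ⊆ setA T v K bet := by
      intro s hs
      rw [Finset.mem_union] at hs
      rw [mem_setA]
      rcases hs with hs | hs
      · refine ⟨(mem_PiK.1 hs).1, ?_⟩
        intro R' hR'
        obtain ⟨h, hh, hne⟩ := (mem_PiK.1 hs).2 v hv.1 R' hR'
        exact ⟨h, hh, fun hF => hne hF.1⟩
      · refine ⟨((hPdef s).1 hs).1, ?_⟩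
        intro R' hR'
        obtain ⟨x', hx', a, ha, hpw⟩ := hconj s hs R' hR'
        refine ⟨x', hx', fun hF => ?_⟩
        obtain ⟨k, hk, hk1⟩ := hKne
        have h1 : x' * k * x'⁻¹ ∈ K := hKnor x' hF.1 k hk
        have h2 := hinj _ h1 _ hk (hF.2 k hk)
        rw [hpw k (hKQ hk)] at h2
        exact hk1 (eq_one_of_zpow hl (hKl k hk) ha h2)
    have hMsub : setM C T v K bet ⊆ kM C T v := by
      intro s hs
      rw [mem_setM] at hs
      obtain ⟨hsT, R', hR', hR'C, hR'F, hR'K, hR'n⟩ := hs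
      rw [mem_kM]
      refine ⟨hsT, R', hR', hR'C, ?_, fun t ht => (hR'F t ht).1, ?_⟩
      all_goals
        have hsp : s.Prime := (hTS.tp s hsT).1
        have hsl : s ≠ l := by
          intro hsl
          subst hsl
          have h1 : Q ≤ R' := normal_le_syl hsp hR' hQn
            ((specOCF H s hsp C).2.1.to_le hQle) le_top
          exact hQbot (normal_fix hTS hQn hQC hv.1 fun q hq => (hR'F q (h1 hq)).1)
        have hcen : ∀ t ∈ R', ∀ k ∈ K, t * k * t⁻¹ = k := by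
          intro t ht k hk
          exact hinj _ (hKnor t (hR'F t ht).1 k hk) _ hk ((hR'F t ht).2 k hk)
      · intro x hx y hy
        have h1 : x * y * x⁻¹ * y⁻¹ ∈ K := hR'K x hx y hy
        have h2 : x * y * x⁻¹ * y⁻¹ ∈ R' :=
          R'.mul_mem (R'.mul_mem (R'.mul_mem hx hy) (R'.inv_mem hx)) (R'.inv_mem hy)
        obtain ⟨n, hn⟩ := hR'.2.1 ⟨_, h2⟩
        have hn' : (x * y * x⁻¹ * y⁻¹) ^ s ^ n = 1 := congrArg Subtype.val hn
        have h3 := eq_one_of_two hl hsp hsl (hKl _ h1) hn'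
        calc x * y = (x * y * x⁻¹ * y⁻¹) * (y * x) := by group
          _ = y * x := by rw [h3, one_mul]
      · -- elements centralising `K`
        have hZn : ∀ h : H, h • v = v → (∀ k ∈ K, h * k * h⁻¹ = k) → ∀ t ∈ R',
            h * t * h⁻¹ ∈ R' := by
          intro h hh hhK t ht
          have hF : FxS v K bet h := ⟨hh, fun k hk => by rw [hhK k hk]⟩
          have h1 := hR'n h hF t ht
          have hnrm : Nrm R' K := fun t ht k hk => hKnor t (hR'F t ht).1 k hk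
          obtain ⟨k1, hk1, t1, ht1, hkt⟩ := (XF.mem_sup hnrm).1 h1
          obtain ⟨n, hn⟩ := hR'.2.1 ⟨_, ht⟩
          have hn' : t ^ s ^ n = 1 := congrArg Subtype.val hn
          obtain ⟨m, hm⟩ := hR'.2.1 ⟨_, ht1⟩
          have hm' : t1 ^ s ^ m = 1 := congrArg Subtype.val hm
          have hcomm : Commute k1 t1 := by
            have h2 := hcen t1 ht1 k1 hk1
            show k1 * t1 = t1 * k1
            calc k1 * t1 = (t1 * k1 * t1⁻¹) * t1 := by rw [h2]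
              _ = t1 * k1 := by group
          have h3 : (h * t * h⁻¹) ^ s ^ (n + m) = 1 := by
            rw [conj_pow, pow_add, pow_mul, hn', one_pow]
            group
          have h4 : t1 ^ s ^ (n + m) = 1 := by
            rw [add_comm, pow_add, pow_mul, hm', one_pow]
          rw [← hkt, hcomm.mul_pow, h4, mul_one] at h3
          have h5 := eq_one_of_two hl hsp hsl (hKl _ hk1) h3
          rw [← hkt, h5, one_mul]
          exact ht1
        -- the centraliser of `K` in the stabiliser of `v`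
        let Z : Subgroup H :=
          { carrier := {h | h • v = v ∧ ∀ k ∈ K, h * k * h⁻¹ = k}
            one_mem' := ⟨one_smul H v, fun k _ => by group⟩
            mul_mem' := fun {a b} ha hb => ⟨by rw [mul_smul, hb.1, ha.1], fun k hk => by
              calc a * b * k * (a * b)⁻¹ = a * (b * k * b⁻¹) * a⁻¹ := by group
                _ = k := by rw [hb.2 k hk, ha.2 k hk]⟩
            inv_mem' := fun {a} ha => ⟨by rw [inv_smul_eq_iff, ha.1], fun k hk => by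
              calc a⁻¹ * k * a⁻¹⁻¹ = a⁻¹ * (a * k * a⁻¹) * a := by rw [ha.2 k hk]; group
                _ = k := by group⟩ }
        have hRZ : R' ≤ Z := fun t ht => ⟨(hR'F t ht).1, hcen t ht⟩
        have hRZs : SylIn s Z R' := (CO.specSYL H s hsp).2.2.2.1 ⊤ Z R' hR' hRZ le_top
        intro h hh t ht
        have htZ : h * t * h⁻¹ ∈ Z := by
          refine ⟨?_, fun k hk => ?_⟩
          · rw [mul_smul, mul_smul, inv_smul_eq_iff.2 hh.symm, (hR'F t ht).1, hh]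
          · have h1 : h⁻¹ * k * h ∈ K := by
              have := hKnor h⁻¹ (inv_smul_eq_iff.2 hh.symm) k hk
              rwa [inv_inv] at this
            calc h * t * h⁻¹ * k * (h * t * h⁻¹)⁻¹
                = h * (t * (h⁻¹ * k * h) * t⁻¹) * h⁻¹ := by group
              _ = h * (h⁻¹ * k * h) * h⁻¹ := by rw [hcen t ht _ h1]
              _ = k := by group
        have hzp : IsPGroup s (Subgroup.zpowers (h * t * h⁻¹)) := by
          obtain ⟨n, hn⟩ := hR'.2.1 ⟨_, ht⟩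
          have hn' : t ^ s ^ n = 1 := congrArg Subtype.val hn
          haveI : Fact s.Prime := ⟨hsp⟩
          have h3 : (h * t * h⁻¹) ^ s ^ n = 1 := by
            rw [conj_pow, hn']
            group
          apply IsPGroup.of_card (n := ((Nat.dvd_prime_pow hsp).1 (orderOf_dvd_of_pow_eq_one h3)).choose)
          rw [Nat.card_zpowers]
          exact ((Nat.dvd_prime_pow hsp).1 (orderOf_dvd_of_pow_eq_one h3)).choose_spec.2
        obtain ⟨R3, hR3, hle3⟩ := (CO.specSYL H s hsp).2.1 Z _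
          ((Subgroup.zpowers_le).2 htZ) hzp
        obtain ⟨g, hgZ, hg⟩ := (CO.specSYL H s hsp).2.2.1 Z R' R3 hRZs hR3
        have h6 : g⁻¹ * (h * t * h⁻¹) * g ∈ R' := (hg _).1 (hle3 (Subgroup.mem_zpowers _))
        have h7 := hZn g hgZ.1 hgZ.2 _ h6
        have h8 : g * (g⁻¹ * (h * t * h⁻¹) * g) * g⁻¹ = h * t * h⁻¹ := by group
        rwa [h8] at h7
    rw [← hcu]
    exact (Finset.card_le_card hAsub).trans (htight.trans (Finset.card_le_card hMsub))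

end Pool.Agent.Lib.MPbe1941.X
end

section
/-!
# MP_be1941_al EXACT, block T1: module NIC (every special subgroup is cyclic)
-/
set_option autoImplicit false

namespace Pool.Agent.Lib.MPbe1941.X

open Pool.Agent.Lib.MPbe1941
open Pool.Agent.Lib.MPbe1941.XF
open scoped commutatorElement

namespace NICM

variable {H X : Type} [Group H] [AddCommGroup X] [DistribMulAction H X] {p : ℕ}
  {C : Subgroup H} {T : Finset ℕ}

/-- `Stb Q v` only depends on `Stb F v` for `Q ≤ F`. -/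
theorem stb_eq {Q F : Subgroup H} (hQ : Q ≤ F) {v v' : X} (h : Stb F v' = Stb F v) :
    Stb Q v' = Stb Q v := by
  ext x
  constructor
  · rintro ⟨h1, h2⟩
    have h3 : x ∈ Stb F v' := ⟨hQ h1, h2⟩
    rw [h] at h3
    exact ⟨h1, h3.2⟩
  · rintro ⟨h1, h2⟩
    have h3 : x ∈ Stb F v := ⟨hQ h1, h2⟩
    rw [← h] at h3
    exact ⟨h1, h3.2⟩

/-- A place where something acts non-trivially divides `|H|`. -/
theorem le_card [Finite H] {l : ℕ} (hl : l.Prime) {R : Subgroup H} (h : NtOn R (Oc l C)) :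
    l < Nat.card H + 1 := by
  obtain ⟨x, _, y, hy, hxy⟩ := h
  have hy1 : y ≠ 1 := by
    rintro rfl
    exact hxy (by rw [mul_one, one_mul])
  obtain ⟨n, hn⟩ := (specOCF H l hl C).2.1 ⟨y, hy⟩
  have hn' : y ^ l ^ n = 1 := congrArg Subtype.val hn
  have h1 := orderOf_dvd_of_pow_eq_one hn'
  obtain ⟨m, _, hm⟩ := (Nat.dvd_prime_pow hl).1 h1
  have hm0 : m ≠ 0 := by
    rintro rfl
    rw [pow_zero] at hm
    exact hy1 (orderOf_eq_one_iff.1 hm)
  have h2 : l ∣ Nat.card H := (dvd_pow_self l hm0).trans (hm ▸ orderOf_dvd_natCard y)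
  exact Nat.lt_succ_of_le (Nat.le_of_dvd Nat.card_pos h2)

/-- A good prime acts by powers. -/
theorem pw_of (hPRP : PRP H X C T) {v : X} {r r' : ℕ} {R R' : Subgroup H} (hv : ExtV (Fit C) v)
    (hr : r ∈ T) (hr' : r' ∈ T) (hG : Gd C v r R) (hG' : Gd C v r' R') {l : ℕ} (hl : l.Prime)
    (hN : NtOn R (Oc l C)) (hN' : NtOn R' (Oc l C)) :
    ∃ x : H, LE r x ∧ PwOn l (⁅Oc l C, R'⁆ : Subgroup H) x := by
  have hl2 := (hPRP.spn v r R hv hr hG l hl hN).1
  have hs := hPRP.sam v r r' R R' hv hr hr' hG.1 hG'.1 hG.2.1 hG'.2.1 l hl hl2 hN hN'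
  obtain ⟨x, hx, y, hy, hxy⟩ := hN
  have h2 := ((hPRP.odd v r R hv hr hG.1 hG.2.1 l hl hl2 ⟨x, hx, y, hy, hxy⟩).2.2.2.2.2.2.2.1
    x hx).2 ⟨y, hy, hxy⟩
  rw [hs] at h2
  refine ⟨x, ?_, h2⟩
  obtain ⟨n, hn⟩ := hG.1.1.2.1 ⟨x, hx⟩
  exact ⟨n, congrArg Subtype.val hn⟩

end NICM

open NICM NI1M

theorem specNIC (hEKT : SpecEKT) (hUNC : SpecUNC) (hCLE : SpecCLE) (hNI1 : SpecNI1)
    (hNI2 : SpecNI2) : SpecNIC := by
  intro H X _ _ _ p C T hTS hPRP v₀ r₀ R₀ hv₀ hr₀ hG₀ l hl hN₀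
  classical
  haveI := hTS.finH
  by_contra hnc
  obtain ⟨hl2, -, -⟩ := hPRP.spn v₀ r₀ R₀ hv₀ hr₀ hG₀ l hl hN₀
  obtain ⟨-, hQle, -⟩ := hPRP.odd v₀ r₀ R₀ hv₀ hr₀ hG₀.1 hG₀.2.1 l hl hl2 hN₀
  have hOF : Oc l C ≤ Fit C := le_sSup ⟨l, hl, rfl⟩
  obtain ⟨P, hP⟩ : ∃ P : Finset ℕ, ∀ r, r ∈ P ↔ r ∈ T ∧ ∃ R, Gd C v₀ r R ∧ NtOn R (Oc l C) :=
    ⟨T.filter fun r => ∃ R, Gd C v₀ r R ∧ NtOn R (Oc l C), fun r => Finset.mem_filter⟩
  have hPc : 1 ≤ P.card := Finset.card_pos.2 ⟨r₀, (hP r₀).2 ⟨hr₀, R₀, hG₀, hN₀⟩⟩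
  -- (1) no nice vector is clean
  have h1 : ∀ v : X, Clean C T v → Nat.card (Stb ⁅Oc l C, R₀⁆ v) ≠ l := by
    intro v hv hcard
    obtain ⟨-, hM⟩ := hCLE H X p C T hTS hPRP v hv
    obtain ⟨h2, -⟩ := hNI1 H X p C T hTS hPRP v₀ r₀ R₀ hv₀ hr₀ hG₀ l hl hN₀ P hP v hv.1 hcard
    omega
  -- nice vectors exist
  obtain ⟨v, hv, -, hcard, -⟩ := hEKT H X p C T hTS hPRP v₀ r₀ R₀ hv₀ hr₀ hG₀.1 hG₀.2.1 l hl hl2
    hN₀ hnc
  have hncl : ¬ Clean C T v := fun h => h1 v h hcard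
  obtain ⟨hni, hnm⟩ := hNI1 H X p C T hTS hPRP v₀ r₀ R₀ hv₀ hr₀ hG₀ l hl hN₀ P hP v hv hcard
  obtain ⟨h3T, R, hR, hoth, hcase⟩ := hUNC H X p C T hTS hPRP v hv hncl
  rcases hcase with ⟨v', hv', hs'⟩ | ⟨⟨l', hl', hl'2, hB⟩, hall⟩
  · refine h1 v' hv' ?_
    rw [stb_eq (hQle.trans hOF) hs']
    exact hcard
  · by_cases h3 : ∃ (r₁ : ℕ) (R₁ : Subgroup H), r₁ ∈ T ∧ Gd C v r₁ R₁ ∧ NtOn R₁ (Oc l C)
    · -- (4)
      obtain ⟨r₁, R₁, hr₁, hG₁, hN₁⟩ := h3
      have hnb := hNI2 H X p C T hTS hPRP v r₁ R R₁ hv h3T hR hr₁ hG₁ l hl hl2 hN₁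
      have hne : l ≠ l' := by
        rintro rfl
        exact hnb hB
      obtain ⟨v', hv', hs'⟩ := hall l' hl' hl'2 hB
      refine h1 v' hv' ?_
      rw [stb_eq hQle (hs' l hl hne)]
      exact hcard
    · -- (3)
      obtain ⟨G, hG⟩ : ∃ G : Finset ℕ, ∀ r, r ∈ G ↔ r ∈ T ∧ ∃ R, Gd C v r R :=
        ⟨T.filter fun r => ∃ R, Gd C v r R, fun r => Finset.mem_filter⟩
      obtain ⟨I, hI⟩ : ∃ I : Finset ℕ, ∀ k, k ∈ I ↔ k ∈ Finset.range (Nat.card H + 1) ∧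
          (k.Prime ∧ ∃ (r : ℕ) (R : Subgroup H), r ∈ T ∧ Gd C v r R ∧ NtOn R (Oc k C)) :=
        ⟨(Finset.range (Nat.card H + 1)).filter fun k => k.Prime ∧
          ∃ (r : ℕ) (R : Subgroup H), r ∈ T ∧ Gd C v r R ∧ NtOn R (Oc k C),
          fun k => Finset.mem_filter⟩
      have hlI : l ∉ I := fun h => h3 ((hI l).1 h).2.2
      have hch : ∀ k : ℕ, ∃ K : Subgroup H, (k = l → K = ⁅Oc l C, R₀⁆) ∧
          (k ∈ I → ∃ (r : ℕ) (R : Subgroup H), r ∈ T ∧ Gd C v r R ∧ NtOn R (Oc k C) ∧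
            K = ⁅Oc k C, R⁆) := by
        intro k
        by_cases hk : k = l
        · subst hk
          exact ⟨_, fun _ => rfl, fun h => absurd h hlI⟩
        · by_cases hkI : k ∈ I
          · obtain ⟨-, -, r, R', a1, a2, a3⟩ := (hI k).1 hkI
            exact ⟨_, fun h => absurd h hk, fun _ => ⟨r, R', a1, a2, a3, rfl⟩⟩
          · exact ⟨⊥, fun h => absurd h hk, fun h => absurd h hkI⟩
      choose Q' hQ1 hQ2 using hch
      have hspq : ∀ k ∈ insert l I, Spq X C T k (Q' k) := by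
        intro k hk
        rw [Finset.mem_insert] at hk
        rcases hk with hk | hk
        · subst hk
          rw [hQ1 k rfl]
          exact ⟨hl, v₀, r₀, R₀, hv₀, hr₀, hG₀, hN₀, rfl⟩
        · obtain ⟨r, R', a1, a2, a3, a4⟩ := hQ2 k hk
          exact ⟨((hI k).1 hk).2.1, v, r, R', hv, a1, a2, a3, a4⟩
      have hUT : G ∪ P ⊆ T := by
        intro r hr
        rw [Finset.mem_union] at hr
        rcases hr with hr | hr
        · exact ((hG r).1 hr).1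
        · exact ((hP r).1 hr).1
      have hU : ∀ r ∈ G ∪ P, ∃ k ∈ insert l I, ∃ x : H, LE r x ∧ PwOn k (Q' k) x := by
        intro r hr
        rw [Finset.mem_union] at hr
        rcases hr with hr | hr
        · obtain ⟨hrT, R', hGr⟩ := (hG r).1 hr
          obtain ⟨k, hk, hNk⟩ := hPRP.ntv v r R' hv hrT hGr.1
          have hkI : k ∈ I := (hI k).2
            ⟨Finset.mem_range.2 (le_card hk hNk), hk, r, R', hrT, hGr, hNk⟩
          obtain ⟨r2, R2, a1, a2, a3, a4⟩ := hQ2 k hkI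
          refine ⟨k, Finset.mem_insert_of_mem hkI, ?_⟩
          rw [a4]
          exact pw_of hPRP hv hrT a1 hGr a2 hk hNk a3
        · obtain ⟨hrT, R', hGr, hNr⟩ := (hP r).1 hr
          refine ⟨l, Finset.mem_insert_self _ _, ?_⟩
          rw [hQ1 l rfl]
          exact pw_of hPRP hv₀ hrT hr₀ hGr hG₀ hl hNr hN₀
      have hfam := hPRP.fam (insert l I) Q' hspq (G ∪ P) hUT hU
      have hdis : Disjoint G P := by
        rw [Finset.disjoint_left]
        intro r hr hrP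
        obtain ⟨-, R', hGr⟩ := (hG r).1 hr
        exact hnm r hrP ⟨R', hGr.1⟩
      rw [Finset.card_union_of_disjoint hdis] at hfam
      have hkM : (kM C T v).card ≤ G.card + 1 := by
        have : kM C T v ⊆ insert 3 G := by
          intro r hr
          rw [mem_kM] at hr
          rw [Finset.mem_insert]
          by_cases hr3 : r = 3
          · exact Or.inl hr3
          · obtain ⟨hrT, R', hR'⟩ := hr
            exact Or.inr ((hG r).2 ⟨hrT, R', hoth r hrT hr3 R' hR'⟩)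
        exact (Finset.card_le_card this).trans (Finset.card_insert_le _ _)
      omega

end Pool.Agent.Lib.MPbe1941.X
end

section
/-!
# MP_be1941_al EXACT, module TFR: the Frattini complement of a special subgroup in the stabiliser
-/
set_option autoImplicit false

namespace Pool.Agent.Lib.MPbe1941.X

open Pool.Agent.Lib.MPbe1941
open Pool.Agent.Lib.MPbe1941.XF
open scoped commutatorElement

namespace TFRM

variable {H : Type} [Group H]

/-- The pure part: `Q` is the group of the `l`-elements of `D_r`, `I` contains the Sylow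
`r`-subgroup `R'`. -/
theorem frattini [Finite H] (hRLO : SpecRLO) (hFRA : SpecFRA) (hsol : Group.IsSolvable H)
    (r l : ℕ) (hr : r.Prime) (hl : l.Prime) (R' : Subgroup H) (hR' : SylIn r ⊤ R')
    (hab : ∀ x ∈ R', ∀ y ∈ R', x * y = y * x)
    (hD : ∀ x ∈ Dr H r, ∀ y ∈ Dr H r, x * y = y * x)
    (hcen : ∀ x ∈ Dr H r, (∀ s ∈ R', s * x = x * s) → x = 1)
    (I : Subgroup H) (hRI : R' ≤ I) (Q : Subgroup H) (hQD : Q ≤ Dr H r) (hQl : IsPGroup l Q)
    (hQ : ∀ x ∈ Dr H r, LE l x → x ∈ Q) :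
    ∃ K : Subgroup H, K ≤ I ∧ Q ⊓ I ⊓ K = ⊥ ∧ ∀ h ∈ I, ∃ d ∈ Q ⊓ I, ∃ k ∈ K, h = d * k := by
  obtain ⟨hOn, hDn, hRO, hDO, hrD, hOD, -⟩ := hRLO H hsol r R' hr hR' hab
  -- the complement in `I`
  obtain ⟨K₁, -, hK1, hK2⟩ := hFRA I ((Dr H r).subgroupOf I) (R'.subgroupOf I)
    (hDn.subgroupOf I)
    (fun x hx y hy => Subtype.ext (hD x hx y hy))
    (by
      have : Fact r.Prime := ⟨hr⟩
      obtain ⟨k, hk⟩ := (IsPGroup.iff_card (p := r)).1 (hR'.2.1.comap_subtype (K := I))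
      have h1 : Nat.card (R'.subgroupOf I) = r ^ k := hk
      rw [h1]
      refine Nat.Coprime.pow_right k ?_
      refine Nat.Coprime.symm ((Nat.Prime.coprime_iff_not_dvd hr).2 fun h => hrD ?_)
      exact h.trans (Subgroup.card_comap_dvd_of_injective (Dr H r) I.subtype
        I.subtype_injective))
    (by
      have h1 : (Dr H r).subgroupOf I ⊔ R'.subgroupOf I = (Or H r).subgroupOf I := by
        apply le_antisymm
        · exact sup_le (Subgroup.comap_mono hDO) (Subgroup.comap_mono hRO)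
        · intro x hx
          obtain ⟨d, hd, t, ht, hx2⟩ := hOD (x : H) hx
          have htI : t ∈ I := hRI ht
          have hdI : d ∈ I := by
            have h2 : d = (x : H) * t⁻¹ := by rw [hx2]; group
            rw [h2]
            exact I.mul_mem x.2 (I.inv_mem htI)
          have h3 : x = (⟨d, hdI⟩ : I) * ⟨t, htI⟩ := Subtype.ext hx2
          rw [h3]
          exact Subgroup.mul_mem _ (Subgroup.mem_sup_left (show (⟨d, hdI⟩ : I) ∈
            (Dr H r).subgroupOf I from hd)) (Subgroup.mem_sup_right (show (⟨t, htI⟩ : I) ∈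
            R'.subgroupOf I from ht))
      rw [h1]
      exact hOn.subgroupOf I)
    (by
      intro d hd hs
      refine Subtype.ext (hcen d hd fun s hs' => ?_)
      have h1 := hs ⟨s, hRI hs'⟩ hs'
      exact congrArg Subtype.val h1)
  set n := Nat.card (Dr H r) with hn
  have hn0 : n ≠ 0 := Nat.card_pos.ne'
  have hexp : ∀ x ∈ Dr H r, x ^ n = 1 := by
    intro x hx
    have h1 := pow_card_eq_one' (x := (⟨x, hx⟩ : Dr H r))
    exact congrArg Subtype.val h1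
  have hmul : ordProj[l] n * ordCompl[l] n = n := Nat.ordProj_mul_ordCompl_eq_self n l
  have hcop : Nat.Coprime (ordCompl[l] n) (ordProj[l] n) :=
    ((Nat.coprime_ordCompl hl hn0).symm).pow_right _
  have hcop' : IsCoprime ((ordCompl[l] n : ℕ) : ℤ) ((ordProj[l] n : ℕ) : ℤ) :=
    Nat.isCoprime_iff_coprime.2 hcop
  obtain ⟨a, c, hac⟩ := hcop'
  obtain ⟨D', hD'⟩ : ∃ D' : Subgroup H, ∀ x, x ∈ D' ↔ x ∈ Dr H r ∧ x ∈ I ∧
      x ^ ordCompl[l] n = 1 :=
    ⟨{ carrier := {x | x ∈ Dr H r ∧ x ∈ I ∧ x ^ ordCompl[l] n = 1}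
       one_mem' := ⟨Subgroup.one_mem _, I.one_mem, one_pow _⟩
       mul_mem' := fun {x y} hx hy => ⟨Subgroup.mul_mem _ hx.1 hy.1, I.mul_mem hx.2.1 hy.2.1, by
          rw [(show Commute x y from hD x hx.1 y hy.1).mul_pow, hx.2.2, hy.2.2, one_mul]⟩
       inv_mem' := fun {x} hx => ⟨Subgroup.inv_mem _ hx.1, I.inv_mem hx.2.1, by
          rw [inv_pow, hx.2.2, inv_one]⟩ }, fun _ => Iff.rfl⟩
  have hKI : ∀ x ∈ K₁.map I.subtype, x ∈ I := by
    rintro x ⟨y, _, rfl⟩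
    exact y.2
  have hnrm : Nrm (K₁.map I.subtype) D' := by
    intro s hs k hk
    rw [hD'] at hk ⊢
    refine ⟨hDn.conj_mem k hk.1 s, I.mul_mem (I.mul_mem (hKI s hs) hk.2.1)
      (I.inv_mem (hKI s hs)), ?_⟩
    rw [conj_pow, hk.2.2, mul_one, mul_inv_cancel]
  refine ⟨D' ⊔ K₁.map I.subtype, ?_, ?_, ?_⟩
  · refine sup_le (fun x hx => ((hD' x).1 hx).2.1) hKI
  · rw [eq_bot_iff]
    rintro x ⟨⟨hxQ, hxI⟩, hxK⟩
    obtain ⟨m, hm, s, hs, hms⟩ := (mem_sup hnrm).1 hxK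
    have hm' := (hD' m).1 hm
    obtain ⟨y, hy, rfl⟩ := hs
    have h1 : (y : H) ∈ Dr H r := by
      have h2 : (y : H) = m⁻¹ * x := by
        rw [← hms]
        show (y : H) = m⁻¹ * (m * (y : H))
        group
      rw [h2]
      exact Subgroup.mul_mem _ (Subgroup.inv_mem _ hm'.1) (hQD hxQ)
    have h3 : y ∈ (Dr H r).subgroupOf I ⊓ K₁ := ⟨h1, hy⟩
    rw [hK1, Subgroup.mem_bot] at h3
    have h4 : m = x := by
      rw [← hms, h3, map_one, mul_one]
    rw [Subgroup.mem_bot]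
    obtain ⟨k, hk⟩ := hQl ⟨x, hxQ⟩
    have h5 : x ^ l ^ k = 1 := by
      have h6 := congrArg Subtype.val hk
      simpa using h6
    have h6 : x ^ ordCompl[l] n = 1 := by rw [← h4]; exact hm'.2.2
    have h7 : Nat.Coprime (ordCompl[l] n) (l ^ k) :=
      ((Nat.coprime_ordCompl hl hn0).symm).pow_right _
    have h8 : orderOf x ∣ 1 := by
      rw [← h7]
      exact Nat.dvd_gcd (orderOf_dvd_of_pow_eq_one h6) (orderOf_dvd_of_pow_eq_one h5)
    exact orderOf_eq_one_iff.1 (Nat.dvd_one.1 h8)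
  · intro h hh
    have h1 : (⟨h, hh⟩ : I) ∈ (Dr H r).subgroupOf I ⊔ K₁ := by rw [hK2]; exact Subgroup.mem_top _
    have hnI : Nrm K₁ ((Dr H r).subgroupOf I) := nrm_of_normal (hDn.subgroupOf I)
    obtain ⟨d, hd, k, hk, hdk⟩ := (mem_sup hnI).1 h1
    have hdk' : (d : H) * (k : H) = h := congrArg Subtype.val hdk
    have hdD : (d : H) ∈ Dr H r := hd
    have hsplit : (d : H) = (d : H) ^ (a * ((ordCompl[l] n : ℕ) : ℤ)) *
        (d : H) ^ (c * ((ordProj[l] n : ℕ) : ℤ)) := by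
      rw [← zpow_add, hac, zpow_one]
    have hdn : (d : H) ^ ((n : ℕ) : ℤ) = 1 := by rw [zpow_natCast]; exact hexp _ hdD
    refine ⟨(d : H) ^ (a * ((ordCompl[l] n : ℕ) : ℤ)), ⟨?_, I.zpow_mem d.2 _⟩,
      (d : H) ^ (c * ((ordProj[l] n : ℕ) : ℤ)) * k, ?_, ?_⟩
    · refine hQ _ (Subgroup.zpow_mem _ hdD _) ⟨n.factorization l, ?_⟩
      rw [← zpow_natCast, ← zpow_mul]
      have h2 : a * ((ordCompl[l] n : ℕ) : ℤ) * ((ordProj[l] n : ℕ) : ℤ) = (n : ℤ) * a := by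
        have h3 : ((n : ℕ) : ℤ) = ((ordProj[l] n : ℕ) : ℤ) * ((ordCompl[l] n : ℕ) : ℤ) := by
          rw [← Nat.cast_mul, hmul]
        rw [h3]
        ring
      rw [h2, zpow_mul, hdn, one_zpow]
    · refine Subgroup.mul_mem _ (Subgroup.mem_sup_left ((hD' _).2 ⟨Subgroup.zpow_mem _ hdD _,
        I.zpow_mem d.2 _, ?_⟩)) (Subgroup.mem_sup_right ⟨k, hk, rfl⟩)
      rw [← zpow_natCast, ← zpow_mul]
      have h2 : c * ((ordProj[l] n : ℕ) : ℤ) * ((ordCompl[l] n : ℕ) : ℤ) = (n : ℤ) * c := by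
        have h3 : ((n : ℕ) : ℤ) = ((ordProj[l] n : ℕ) : ℤ) * ((ordCompl[l] n : ℕ) : ℤ) := by
          rw [← Nat.cast_mul, hmul]
        rw [h3]
        ring
      rw [h2, zpow_mul, hdn, one_zpow]
    · rw [← mul_assoc, ← hsplit, hdk']

end TFRM

open TFRM

theorem specTFR (hTPS : SpecTPS) (hPSB : SpecPSB) (hPDB : SpecPDB) (hRLO : SpecRLO)
    (hFRA : SpecFRA) : SpecTFR := by
  intro H X _ _ _ p C T ts v r R hv hrT hG l hl hNt w hKl
  have : Finite H := ts.finH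
  have hr : r.Prime := (ts.tp r hrT).1
  obtain ⟨tP, -, tExt, -, -, tGood, tCP⟩ := hTPS H X p C T ts
  have hGood : ts.ps.Good v r R := (tGood v r R hrT).2 hG
  obtain ⟨-, hDab0, -, hDcen0, -, hDl0, -, hD8⟩ := hPDB ts.ps v ((tExt v).2 hv) r R hGood
  have hDab : ∀ x ∈ Dr H r, ∀ y ∈ Dr H r, x * y = y * x := hDab0
  have hDcen : ∀ x ∈ Dr H r, (∀ s ∈ R, s * x = x * s) → x = 1 := hDcen0
  have hDl : ∀ x ∈ Dr H r, LE l x → x ∈ Oc l C := by
    intro x hx hxl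
    have h1 := hDl0 l hl x hx hxl
    rw [tP l] at h1
    exact h1
  have hPl : (Oc l C).Normal ∧ IsPGroup l (Oc l C) := by
    have h1 := (hPSB ts.ps).2.2.2.1 l hl
    rw [tP l] at h1
    exact ⟨h1.1, h1.2.1⟩
  have hRM : MiH C v r R := hG.1
  have hRab := hRM.2.2.1
  obtain ⟨hOn, hDn, hRO, hDO, hrD, hOD, -⟩ := hRLO H ts.sol r R hr hRM.1 hRab
  -- `Q`
  have hQ : ⁅Oc l C, R⁆ = Dr H r ⊓ Oc l C := by
    obtain ⟨s, hs, y, hy, hsy⟩ := hNt
    have hnCP : ¬ ts.ps.CP l s := by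
      rw [tCP]
      intro h
      exact hsy (h y hy)
    obtain ⟨hl2, hlr, a, Q, hPow, -, hQ⟩ := hD8 l hl s hs hnCP
    have hQ' : Dr H r ⊓ Oc l C = Q := by
      rw [← hQ, tP l]
      have h1 : (Dr ts.ps.H r).map ts.ps.phi = Dr H r := Subgroup.map_id _
      rw [h1]
      rfl
    apply le_antisymm
    · rw [Subgroup.commutator_le]
      intro (x : H) hx (t : H) ht
      have hxO : x * t * x⁻¹ * t⁻¹ ∈ Or H r :=
        Subgroup.mul_mem _ (hOn.conj_mem t (hRO ht) x) (Subgroup.inv_mem _ (hRO ht))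
      have hxP : x * t * x⁻¹ * t⁻¹ ∈ Oc l C := by
        have h1 : x * t * x⁻¹ * t⁻¹ = x * (t * x⁻¹ * t⁻¹) := by group
        rw [h1]
        exact Subgroup.mul_mem _ hx (hPl.1.conj_mem _ (Subgroup.inv_mem _ hx) t)
      refine ⟨?_, hxP⟩
      show x * t * x⁻¹ * t⁻¹ ∈ Dr H r
      obtain ⟨d, hd, u, hu, hdu⟩ := hOD _ hxO
      obtain ⟨k, hk⟩ := hPl.2 ⟨_, hxP⟩
      have hk' : (x * t * x⁻¹ * t⁻¹) ^ l ^ k = 1 := by
        have h6 := congrArg Subtype.val hk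
        simpa using h6
      obtain ⟨j, hj⟩ := hRM.1.2.1 ⟨u, hu⟩
      have hj' : u ^ r ^ j = 1 := by
        have h6 := congrArg Subtype.val hj
        simpa using h6
      -- modulo `Dr`
      have hq1 : (QuotientGroup.mk (x * t * x⁻¹ * t⁻¹) : H ⧸ Dr H r) = QuotientGroup.mk u := by
        rw [hdu, QuotientGroup.mk_mul, (QuotientGroup.eq_one_iff d).2 hd, one_mul]
      have hq2 : (QuotientGroup.mk (x * t * x⁻¹ * t⁻¹) : H ⧸ Dr H r) ^ l ^ k = 1 := by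
        rw [← QuotientGroup.mk_pow, hk', QuotientGroup.mk_one]
      have hq3 : (QuotientGroup.mk (x * t * x⁻¹ * t⁻¹) : H ⧸ Dr H r) ^ r ^ j = 1 := by
        rw [hq1, ← QuotientGroup.mk_pow, hj', QuotientGroup.mk_one]
      have hcop : Nat.Coprime (l ^ k) (r ^ j) :=
        Nat.Coprime.pow _ _ ((Nat.coprime_primes hl hr).2 hlr)
      have h8 : orderOf (QuotientGroup.mk (x * t * x⁻¹ * t⁻¹) : H ⧸ Dr H r) ∣ 1 := by
        rw [← hcop]
        exact Nat.dvd_gcd (orderOf_dvd_of_pow_eq_one hq2) (orderOf_dvd_of_pow_eq_one hq3)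
      exact (QuotientGroup.eq_one_iff _).1 (orderOf_eq_one_iff.1 (Nat.dvd_one.1 h8))
    · have hQc : (Q : Subgroup H) = Subgroup.closure {y : H | ∃ x ∈ Oc l C,
          y = s * x * s⁻¹ * x⁻¹} := by
        have h1 := hPow.2.1
        rw [tP l] at h1
        exact h1
      rw [hQ', hQc]
      refine (Subgroup.closure_le _).2 ?_
      rintro z ⟨x, hx', rfl⟩
      have h1 : ⁅x, s⁆ ∈ ⁅Oc l C, R⁆ := Subgroup.commutator_mem_commutator hx' hs
      have h2 : ⁅x, s⁆⁻¹ = s * x * s⁻¹ * x⁻¹ := by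
        rw [commutatorElement_def]
        group
      have h3 := Subgroup.inv_mem _ h1
      rw [h2] at h3
      exact h3
  -- the Sylow subgroup which fixes `w`
  obtain ⟨R', hR', hR'w⟩ : ∃ R' : Subgroup H, SylIn r ⊤ R' ∧ ∀ h ∈ R', h • w = w := by
    unfold Kl at hKl
    push Not at hKl
    exact hKl
  obtain ⟨g, -, hg⟩ := (CO.specSYL H r hr).2.2.1 ⊤ R R' hRM.1 hR'
  have hab' : ∀ x ∈ R', ∀ y ∈ R', x * y = y * x := by
    intro x hx y hy
    have h1 := hRab _ ((hg x).1 hx) _ ((hg y).1 hy)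
    have h2 : g * (g⁻¹ * x * g * (g⁻¹ * y * g)) * g⁻¹ = x * y := by group
    have h3 : g * (g⁻¹ * y * g * (g⁻¹ * x * g)) * g⁻¹ = y * x := by group
    rw [← h2, h1, h3]
  have hcen' : ∀ x ∈ Dr H r, (∀ s ∈ R', s * x = x * s) → x = 1 := by
    intro x hx hs
    have h1 : g⁻¹ * x * g ∈ Dr H r := by
      have h2 := hDn.conj_mem x hx g⁻¹
      rwa [inv_inv] at h2
    have h2 : g⁻¹ * x * g = 1 := by
      refine hDcen _ h1 fun s hs' => ?_
      have h3 : g * s * g⁻¹ ∈ R' := by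
        rw [hg]
        have h4 : g⁻¹ * (g * s * g⁻¹) * g = s := by group
        rw [h4]
        exact hs'
      have h4 := hs _ h3
      have h5 : g⁻¹ * (g * s * g⁻¹ * x) * g = s * (g⁻¹ * x * g) := by group
      have h6 : g⁻¹ * (x * (g * s * g⁻¹)) * g = g⁻¹ * x * g * s := by group
      show s * (g⁻¹ * x * g) = g⁻¹ * x * g * s
      rw [← h5, h4, h6]
    have h3 : x = g * (g⁻¹ * x * g) * g⁻¹ := by group
    rw [h3, h2]
    group
  obtain ⟨K, hK1, hK2, hK3⟩ := frattini hRLO hFRA ts.sol r l hr hl R' hR' hab' hDab hcen'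
    (Stb ⊤ w) (fun x hx => ⟨Subgroup.mem_top _, hR'w x hx⟩) ⁅Oc l C, R⁆
    (by rw [hQ]; exact inf_le_left) (by
      rw [hQ]
      exact hPl.2.to_le inf_le_right) (by
      intro x hx hxl
      rw [hQ]
      exact ⟨hx, hDl x hx hxl⟩)
  have hStb : Stb ⁅Oc l C, R⁆ w = ⁅Oc l C, R⁆ ⊓ Stb ⊤ w := by
    ext x
    exact ⟨fun h => ⟨h.1, Subgroup.mem_top _, h.2⟩, fun h => ⟨h.1, h.2.2⟩⟩
  refine ⟨K, fun k hk => (hK1 hk).2, ?_, ?_⟩
  · rw [hStb]
    exact hK2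
  · intro h hh
    rw [hStb]
    exact hK3 h ⟨Subgroup.mem_top _, hh⟩

end Pool.Agent.Lib.MPbe1941.X
end

section
/-!
# Module TG3: `3` is good if it is trivial on `P_2` and there is no bad place
-/
set_option autoImplicit false

namespace Pool.Agent.Lib.MPbe1941.X

open Pool.Agent.Lib.MPbe1941
open Pool.Agent.Lib.MPbe1941.XF

namespace TG3M

theorem aux (hRLO : SpecRLO) {H : Type} [Group H] [Finite H] (hsol : Group.IsSolvable H)
    {C R : Subgroup H} (hsyl : SylIn 3 ⊤ R) (hab : ∀ x ∈ R, ∀ y ∈ R, x * y = y * x)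
    (hbad : ∀ l, l.Prime → l ≠ 2 → ¬ BadP C R l) (l t : ℕ) (hl : l.Prime) (hl2 : l ≠ 2)
    (ht : t.Prime) (htl : t ≠ l) (T₁ : Subgroup H) (hT₁ : SylIn t (Dr H 3) T₁)
    (hN : ∀ s ∈ R, ∀ x ∈ T₁, s * x * s⁻¹ ∈ T₁) (s : H) (hs : s ∈ R) (x : H) (hx : x ∈ T₁) :
    ∀ g ∈ Oc l C, s * x * s⁻¹ * x⁻¹ * g = g * (s * x * s⁻¹ * x⁻¹) := by
  have hN : Nrm R T₁ := hN
  obtain ⟨-, -, -, -, hnd, -⟩ := hRLO H hsol 3 R Nat.prime_three hsyl hab
  have hT1 : IsPGroup t T₁ := hT₁.2.1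
  have hle1 : T₁ ≤ Dr H 3 := hT₁.1
  have hnd1 : ¬ 3 ∣ Nat.card T₁ := fun h' => hnd (h'.trans (Subgroup.card_dvd_of_le hle1))
  have hle : ⁅T₁, R⁆ ≤ T₁ := comm_le hN
  have hU : ¬ NtOn ⁅T₁, R⁆ (Oc l C) := by
    intro hNt
    refine hbad l hl hl2 ⟨t, ht, htl, ⁅T₁, R⁆, hT1.to_le hle, hle.trans hle1,
      nrm_comm_right hN, ?_, hNt⟩
    exact comm_comm Nat.prime_three hN hsyl.2.1 hnd1
  have hmem : s * x * s⁻¹ * x⁻¹ ∈ ⁅T₁, R⁆ := by
    have h1 := comm_mem (S := R) (K := T₁) hx hs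
    have h2 := Subgroup.inv_mem _ h1
    have h4 : (x * s * x⁻¹ * s⁻¹)⁻¹ = s * x * s⁻¹ * x⁻¹ := by group
    rwa [h4] at h2
  intro g hg
  by_contra hne
  exact hU ⟨_, hmem, g, hg, hne⟩

theorem fg3 (hTPS : SpecTPS) (hPDG : SpecPDG) (hRLO : SpecRLO) (H X : Type) [Group H]
    [AddCommGroup X] [DistribMulAction H X] (p : ℕ) (C : Subgroup H) (T : Finset ℕ)
    (h : TS H X p C T) (v : X) (R : Subgroup H) (hv : ExtV (Fit C) v) (h3 : 3 ∈ T)
    (hM : MiH C v 3 R) (hnt : ¬ NtOn R (Oc 2 C))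
    (hbad : ∀ l, l.Prime → l ≠ 2 → ¬ BadP C R l) : h.ps.Good v 3 R := by
  have hfin : Finite H := h.finH
  have hps := hTPS H X p C T h
  have hCP := hps.2.2.2.2.2.2
  have hPr := (hps.2.2.2.2.1 v 3 R h3).2 hM
  have k1 : ∀ t ∈ R, h.ps.CP 2 t := by
    intro t ht
    refine (hCP 2 t).2 ?_
    intro g hg
    by_contra hne
    exact hnt ⟨t, ht, g, hg, hne⟩
  have k2 : ∀ l t, l.Prime → l ≠ 2 → l ≠ 3 → t.Prime → t ≠ l → ∀ T₁ : Subgroup H,
      SylIn t (Dr H 3) T₁ → (∀ s ∈ R, ∀ x ∈ T₁, s * x * s⁻¹ ∈ T₁) →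
        ∀ s ∈ R, ∀ x ∈ T₁, h.ps.CP l (s * x * s⁻¹ * x⁻¹) := by
    intro l t hl hl2 _ ht htl T₁ hT₁ hsT s hs x hx
    refine (hCP l _).2 ?_
    exact aux hRLO h.sol hM.1 hM.2.2.1 hbad l t hl hl2 ht htl T₁ hT₁ hsT s hs x hx
  exact hPDG h.ps v 3 R hv.1 hPr (by norm_num) k1 k2

end TG3M

theorem specTG3 (hTPS : SpecTPS) (hPDG : SpecPDG) (hRLO : SpecRLO) : SpecTG3 := by
  intro H X _ _ _ p C T h v R hv h3 hM hnt hbad
  have hps := hTPS H X p C T h
  exact (hps.2.2.2.2.2.1 v 3 R h3).1 (TG3M.fg3 hTPS hPDG hRLO H X p C T h v R hv h3 hM hnt hbad)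

end Pool.Agent.Lib.MPbe1941.X
end
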