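import Mathlib
import Pool.Agent.Lib.MP_be1941_al.Defs
import Pool.Agent.Lib.MP_be1941_al.X.SpecT1B
import Pool.Agent.Lib.MP_be1941_al.X.SPR
import Pool.Agent.Lib.MP_be1941_al.X.REL

section
/-!
# MP_be1941_al (exact bound), module GAMA: the field argument of the clean vector lemma

`G` acts on the `F_p`-space `V`, `a ∈ G` acts semiregularly, as an element of odd order, every element
of `G` acts on the group generated by `a` by powers, `j` inverts `a`, every non-zero vector is fixed by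
exactly one Sylow 3-subgroup of `G`. Then the Sylow 3-subgroups commute with `a` on `V`.
-/
set_option autoImplicit false

namespace Pool.Agent.Lib.MPbe1941.X.GAM

open Polynomial

section Op

variable {G V : Type} [Group G] [AddCommGroup V] [DistribMulAction G V]
  (p : ℕ) [Module (ZMod p) V]

/-- The operator of `g`. -/
def op (g : G) : Module.End (ZMod p) V :=
  AddMonoidHom.toZModLinearMap p (DistribSMul.toAddMonoidHom V g)

theorem op_apply (g : G) (v : V) : op p g v = g • v := rfl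

theorem op_pow (g : G) (n : ℕ) : (op p g : Module.End (ZMod p) V) ^ n = op p (g ^ n) := by
  induction n with
  | zero => ext v; simp [op_apply]
  | succ n ih =>
    rw [pow_succ, ih, pow_succ]
    ext v
    rw [Module.End.mul_apply, op_apply, op_apply, op_apply, mul_smul]

theorem smul_pow {a g : G} {n : ℕ} (h : ∀ v : V, g • a • v = a ^ n • g • v) (m : ℕ) (v : V) :
    g • a ^ m • v = a ^ (m * n) • g • v := by
  induction m generalizing v with
  | zero => simp
  | succ m ih =>
    rw [pow_succ, mul_smul, ih, h, smul_smul, ← pow_add]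
    congr 2
    ring

theorem smul_aeval {a g : G} {n : ℕ} (h : ∀ v : V, g • a • v = a ^ n • g • v) (r : (ZMod p)[X])
    (v : V) : g • (aeval (op p a : Module.End (ZMod p) V) r v) =
      aeval (op p a : Module.End (ZMod p) V) (expand (ZMod p) n r) (g • v) := by
  induction r using Polynomial.induction_on' with
  | add r s hr hs => rw [map_add, LinearMap.add_apply, smul_add, hr, hs, map_add, map_add,
      LinearMap.add_apply]
  | monomial m c =>
    rw [expand_monomial, aeval_monomial, aeval_monomial, op_pow, op_pow, Module.End.mul_apply,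
      Module.End.mul_apply, Module.algebraMap_end_apply, Module.algebraMap_end_apply, op_apply,
      op_apply, ← op_apply p g, map_smul, op_apply, smul_pow h]

theorem aeval_expand (a : G) (n : ℕ) (r : (ZMod p)[X]) :
    aeval (op p a : Module.End (ZMod p) V) (expand (ZMod p) n r) =
      aeval (op p (a ^ n) : Module.End (ZMod p) V) r := by
  rw [expand_aeval, op_pow]

theorem exists_min [Finite V] [Nontrivial V] (a : G) :
    ∃ W : Submodule (ZMod p) V, W ≠ ⊥ ∧ (∀ w ∈ W, a • w ∈ W) ∧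
      ∀ U : Submodule (ZMod p) V, U ≠ ⊥ → (∀ u ∈ U, a • u ∈ U) → U ≤ W → U = W := by
  obtain ⟨W, hW, hmin⟩ := IsArtinian.set_has_minimal
    {W : Submodule (ZMod p) V | W ≠ ⊥ ∧ ∀ w ∈ W, a • w ∈ W} ⟨⊤, by
      refine ⟨?_, fun w _ => trivial⟩
      exact top_ne_bot⟩
  refine ⟨W, hW.1, hW.2, fun U hU hUa hUW => ?_⟩
  by_contra hne
  exact hmin U ⟨hU, hUa⟩ (lt_of_le_of_ne hUW hne)

theorem aeval_mem {a : G} {W : Submodule (ZMod p) V} (hW : ∀ w ∈ W, a • w ∈ W) (r : (ZMod p)[X])
    {w : V} (hw : w ∈ W) : aeval (op p a : Module.End (ZMod p) V) r w ∈ W := by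
  have hpow : ∀ m : ℕ, ∀ w ∈ W, a ^ m • w ∈ W := by
    intro m
    induction m with
    | zero => intro w hw; simpa using hw
    | succ m ih =>
      intro w hw
      rw [pow_succ, mul_smul]
      exact ih _ (hW w hw)
  induction r using Polynomial.induction_on' with
  | add r s hr hs => rw [map_add, LinearMap.add_apply]; exact W.add_mem hr hs
  | monomial m c =>
    rw [aeval_monomial, op_pow, Module.End.mul_apply, Module.algebraMap_end_apply, op_apply]
    exact W.smul_mem _ (hpow m w hw)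

/-- The vectors `r(a) v`. -/
def cyc (a : G) (v : V) : Submodule (ZMod p) V where
  carrier := {w | ∃ r : (ZMod p)[X], w = aeval (op p a : Module.End (ZMod p) V) r v}
  zero_mem' := ⟨0, by simp⟩
  add_mem' := by
    rintro _ _ ⟨r, rfl⟩ ⟨s, rfl⟩
    exact ⟨r + s, by simp⟩
  smul_mem' := by
    rintro c _ ⟨r, rfl⟩
    refine ⟨C c * r, ?_⟩
    rw [map_mul, aeval_C, Module.End.mul_apply, Module.algebraMap_end_apply]

theorem mem_cyc {a : G} {v w : V} : w ∈ cyc p a v ↔
    ∃ r : (ZMod p)[X], w = aeval (op p a : Module.End (ZMod p) V) r v := Iff.rfl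

theorem self_mem_cyc (a : G) (v : V) : v ∈ cyc p a v := ⟨1, by simp⟩

theorem cyc_inv (a : G) (v : V) : ∀ w ∈ cyc p a v, a • w ∈ cyc p a v := by
  rintro _ ⟨r, rfl⟩
  refine ⟨X * r, ?_⟩
  rw [map_mul, aeval_X, Module.End.mul_apply, op_apply]

theorem cyc_le {a : G} {W : Submodule (ZMod p) V} (hW : ∀ w ∈ W, a • w ∈ W) {v : V} (hv : v ∈ W) :
    cyc p a v ≤ W := by
  rintro _ ⟨r, rfl⟩
  exact aeval_mem p hW r hv

/-- The annihilator of a subspace in the polynomial ring. -/
def ann (a : G) (W : Submodule (ZMod p) V) : Ideal (ZMod p)[X] where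
  carrier := {r | ∀ w ∈ W, aeval (op p a : Module.End (ZMod p) V) r w = 0}
  zero_mem' := by intro w _; simp
  add_mem' := by
    intro r s hr hs w hw
    rw [map_add, LinearMap.add_apply, hr w hw, hs w hw, add_zero]
  smul_mem' := by
    intro c r hr w hw
    rw [smul_eq_mul, map_mul, Module.End.mul_apply, hr w hw, map_zero]

theorem mem_ann {a : G} {W : Submodule (ZMod p) V} {r : (ZMod p)[X]} :
    r ∈ ann p a W ↔ ∀ w ∈ W, aeval (op p a : Module.End (ZMod p) V) r w = 0 := Iff.rfl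

end Op

/-- The data of a minimal `a`-invariant subspace. -/
structure Mn {G V : Type} [Group G] [AddCommGroup V] [DistribMulAction G V]
    (p : ℕ) [Module (ZMod p) V] (a : G) (W : Submodule (ZMod p) V) : Prop where
  ne : W ≠ ⊥
  inv : ∀ w ∈ W, a • w ∈ W
  min : ∀ U : Submodule (ZMod p) V, U ≠ ⊥ → (∀ u ∈ U, a • u ∈ U) → U ≤ W → U = W

namespace Mn

variable {G V : Type} [Group G] [AddCommGroup V] [DistribMulAction G V]
  {p : ℕ} [Module (ZMod p) V] {a : G} {W : Submodule (ZMod p) V}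

theorem cyc_eq (h : Mn p a W) {v : V} (hv : v ∈ W) (h0 : v ≠ 0) : cyc p a v = W := by
  refine h.min _ ?_ (cyc_inv p a v) (cyc_le p h.inv hv)
  intro hb
  have := self_mem_cyc p a v
  rw [hb] at this
  exact h0 ((Submodule.mem_bot _).1 this)

theorem ann_iff (h : Mn p a W) {v : V} (hv : v ∈ W) (h0 : v ≠ 0) (r : (ZMod p)[X]) :
    r ∈ ann p a W ↔ aeval (op p a : Module.End (ZMod p) V) r v = 0 := by
  constructor
  · intro hr; exact hr v hv
  · intro hr w hw
    rw [← h.cyc_eq hv h0] at hw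
    obtain ⟨s, rfl⟩ := hw
    rw [← Module.End.mul_apply, ← map_mul, mul_comm, map_mul, Module.End.mul_apply, hr, map_zero]

theorem exists_ne (h : Mn p a W) : ∃ v ∈ W, v ≠ 0 := Submodule.exists_mem_ne_zero_of_ne_bot h.ne

theorem prime (h : Mn p a W) : (ann p a W).IsPrime := by
  obtain ⟨v, hv, h0⟩ := h.exists_ne
  refine ⟨?_, ?_⟩
  · intro ht
    have h1 : (1 : (ZMod p)[X]) ∈ ann p a W := by rw [ht]; trivial
    have := h1 v hv
    rw [map_one] at this
    exact h0 this
  · intro r s hrs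
    by_cases hs : s ∈ ann p a W
    · exact Or.inr hs
    · left
      rw [h.ann_iff hv h0] at hs
      rw [h.ann_iff (aeval_mem p h.inv s hv) hs, ← Module.End.mul_apply, ← map_mul]
      exact hrs v hv

/-- `K ≃ W`, `r ↦ r(a) v`. -/
noncomputable def toW (h : Mn p a W) {v : V} (hv : v ∈ W) :
    ((ZMod p)[X] ⧸ ann p a W) → W :=
  Quotient.lift (s := Submodule.quotientRel (ann p a W))
    (fun r : (ZMod p)[X] => (⟨aeval (op p a : Module.End (ZMod p) V) r v, aeval_mem p h.inv r hv⟩ : W))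
    (by
      intro r s hrs
      have h1 : r - s ∈ ann p a W := (Submodule.quotientRel_def (ann p a W)).1 hrs
      apply Subtype.ext
      have h2 := h1 v hv
      rw [map_sub, LinearMap.sub_apply, sub_eq_zero] at h2
      exact h2)

theorem toW_mk (h : Mn p a W) {v : V} (hv : v ∈ W) (r : (ZMod p)[X]) :
    (h.toW hv (Ideal.Quotient.mk _ r) : V) = aeval (op p a : Module.End (ZMod p) V) r v := rfl

theorem toW_bij (h : Mn p a W) {v : V} (hv : v ∈ W) (h0 : v ≠ 0) :
    Function.Bijective (h.toW hv) := by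
  constructor
  · intro x y hxy
    obtain ⟨r, rfl⟩ := Ideal.Quotient.mk_surjective x
    obtain ⟨s, rfl⟩ := Ideal.Quotient.mk_surjective y
    rw [Ideal.Quotient.mk_eq_mk_iff_sub_mem, h.ann_iff hv h0, map_sub, LinearMap.sub_apply,
      sub_eq_zero, ← h.toW_mk hv, ← h.toW_mk hv, hxy]
  · rintro ⟨w, hw⟩
    have hw' := hw
    rw [← h.cyc_eq hv h0] at hw'
    obtain ⟨r, hr⟩ := hw'
    exact ⟨Ideal.Quotient.mk _ r, Subtype.ext (by rw [h.toW_mk, ← hr])⟩

theorem finK (h : Mn p a W) [Finite V] : Finite ((ZMod p)[X] ⧸ ann p a W) := by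
  obtain ⟨v, hv, h0⟩ := h.exists_ne
  exact Finite.of_injective _ (h.toW_bij hv h0).1

theorem cardK (h : Mn p a W) : Nat.card ((ZMod p)[X] ⧸ ann p a W) = Nat.card W := by
  obtain ⟨v, hv, h0⟩ := h.exists_ne
  exact Nat.card_congr (Equiv.ofBijective _ (h.toW_bij hv h0))

theorem maximal (h : Mn p a W) [Finite V] : (ann p a W).IsMaximal := by
  have := h.prime
  have := h.finK
  have hd : IsDomain ((ZMod p)[X] ⧸ ann p a W) := Ideal.Quotient.isDomain _
  exact Ideal.Quotient.maximal_of_isField _ (Finite.isField_of_domain _)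

end Mn

end Pool.Agent.Lib.MPbe1941.X.GAM
end

section
/-!
# MP_be1941_al (exact bound), module GAMB: counting for the clean vector lemma
-/
set_option autoImplicit false

namespace Pool.Agent.Lib.MPbe1941.X.GAM

open Polynomial

/-- Artin: the order of a finite field is the order of the fixed field to the power `|Σ|`. -/
theorem card_fixed {K : Type} [Field K] [Finite K] (Sg : Subgroup (RingAut K)) :
    Nat.card K = (Nat.card {k : K // ∀ τ ∈ Sg, τ k = k}) ^ (Nat.card Sg) := by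
  have hfin : Finite Sg := by
    have : Finite (RingAut K) := Finite.of_injective (fun e : RingAut K => (e : K → K))
      (fun a b h => RingEquiv.ext (fun x => congrFun h x))
    infer_instance
  have := Fintype.ofFinite Sg
  have h1 := FixedPoints.finrank_eq_card Sg K
  have h2 := Module.natCard_eq_pow_finrank (K := FixedPoints.subfield Sg K) (V := K)
  rw [h1, ← Nat.card_eq_fintype_card] at h2
  rw [h2]
  congr 1
  refine Nat.card_congr (Equiv.subtypeEquivRight ?_)
  intro k
  constructor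
  · intro hk τ hτ
    exact hk ⟨τ, hτ⟩
  · rintro hk ⟨τ, hτ⟩
    exact hk τ hτ

theorem arith {x m N : ℕ} (hx : 1 < x) (hm3 : 3 ∣ m) (h : N * (x - 1) = x ^ m - 1)
    (hN : N ≡ 1 [MOD 3]) : ¬ x ≡ 1 [MOD 3] := by
  intro hx1
  have h1 : (N : ℤ) * ((x : ℤ) - 1) = (x : ℤ) ^ m - 1 := by
    have h2 := congrArg (Nat.cast : ℕ → ℤ) h
    have h3 : 1 ≤ x ^ m := Nat.one_le_pow _ _ (by omega)
    rw [Nat.cast_mul, Nat.cast_sub hx.le, Nat.cast_sub h3] at h2
    push_cast at h2
    exact h2
  have h2 : (∑ i ∈ Finset.range m, (x : ℤ) ^ i) * ((x : ℤ) - 1) = (x : ℤ) ^ m - 1 :=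
    geom_sum_mul _ _
  have hne : ((x : ℤ) - 1) ≠ 0 := by
    have : (1 : ℤ) < x := by exact_mod_cast hx
    omega
  have h3 : (N : ℤ) = ∑ i ∈ Finset.range m, (x : ℤ) ^ i :=
    mul_right_cancel₀ hne (h1.trans h2.symm)
  have h4 : (x : ℤ) ≡ 1 [ZMOD 3] := by
    have := (Int.natCast_modEq_iff (n := 3)).2 hx1
    simpa using this
  have h5 : (∑ i ∈ Finset.range m, (x : ℤ) ^ i) ≡ m [ZMOD 3] := by
    clear h h1 h2 h3 hm3
    induction m with
    | zero => simp
    | succ m ih =>
      rw [Finset.sum_range_succ]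
      push_cast
      have := h4.pow m
      rw [one_pow] at this
      exact ih.add this
  rw [← h3] at h5
  have h6 : (N : ℤ) ≡ 1 [ZMOD 3] := by
    have := (Int.natCast_modEq_iff (n := 3)).2 hN
    simpa using this
  have h7 : (m : ℤ) ≡ 0 [ZMOD 3] := by
    rw [Int.modEq_zero_iff_dvd]
    exact_mod_cast hm3
  have h8 : (1 : ℤ) ≡ 0 [ZMOD 3] := h6.symm.trans (h5.trans h7)
  have h9 := Int.modEq_iff_dvd.1 h8
  omega

/-- The setting of the field argument. -/
structure St (G V : Type) [Group G] [AddCommGroup V] [DistribMulAction G V] (a : G) : Prop where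
  pow : ∀ g : G, ∃ n : ℕ, ∀ v : V, g • a • v = a ^ n • g • v
  sr : ∀ n : ℕ, ∀ v : V, v ≠ 0 → a ^ n • v = v → ∀ w : V, a ^ n • w = w
  uni : ∀ v : V, v ≠ 0 → ∃! S : Sylow 3 G, ∀ s ∈ S, s • v = v
  nt : ∃ S : Sylow 3 G, ∃ s ∈ S, ∃ v : V, s • a • v ≠ a • s • v
  odd : ∃ L : ℕ, Odd L ∧ ∀ v : V, a ^ L • v = v

/-- `n` is an exponent of `g`. -/
def Ex (V : Type) {G : Type} [Group G] [AddCommGroup V] [DistribMulAction G V] (a g : G)
    (n : ℕ) : Prop := ∀ v : V, g • a • v = a ^ n • g • v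

section Ex

variable {G V : Type} [Group G] [AddCommGroup V] [DistribMulAction G V] {a : G}

theorem Ex.pw {g : G} {n : ℕ} (h : Ex V a g n) (m : ℕ) (v : V) :
    g • a ^ m • v = a ^ (m * n) • g • v := by
  induction m generalizing v with
  | zero => simp
  | succ m ih =>
    rw [pow_succ, mul_smul, ih, h, smul_smul, ← pow_add]
    congr 2
    ring

theorem Ex.mul {g h : G} {n m : ℕ} (hg : Ex V a g n) (hh : Ex V a h m) :
    Ex V a (g * h) (n * m) := by
  intro v
  rw [mul_smul, hh, hg.pw, mul_smul, mul_comm n m]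

theorem Ex.one : Ex V a 1 1 := by intro v; simp

theorem pow_act {b c : G} (h : ∀ v : V, b • v = c • v) (n : ℕ) (v : V) :
    b ^ n • v = c ^ n • v := by
  induction n generalizing v with
  | zero => simp
  | succ n ih => rw [pow_succ, pow_succ, mul_smul, mul_smul, h, ih]

/-- exponents of conjugates -/
theorem Ex.conj {g h : G} {n m m' : ℕ} (hg : Ex V a g n) (hm : Ex V a h m)
    (hm' : Ex V a h⁻¹ m') : Ex V a (h * g * h⁻¹) n := by
  have h1 : ∀ v : V, a ^ (m' * m) • v = a • v := by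
    intro v
    have h2 : h • h⁻¹ • a • v = a ^ (m' * m) • h • h⁻¹ • v := by rw [hm', hm.pw]
    rwa [smul_inv_smul, smul_inv_smul, eq_comm] at h2
  intro v
  rw [mul_smul, mul_smul, hm', hg.pw, hm.pw, mul_smul, mul_smul]
  have h3 := pow_act h1 n (h • g • h⁻¹ • v)
  rw [← pow_mul] at h3
  rw [← h3]
  congr 2
  ring

end Ex

section Main

variable {G V : Type} [Group G] [AddCommGroup V] [DistribMulAction G V]
  {p : ℕ} [Module (ZMod p) V] {a : G} {W : Submodule (ZMod p) V}

theorem Mn.expand_mem (h : Mn p a W) {g : G} {n : ℕ} (hex : Ex V a g n)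
    (hg : ∀ w ∈ W, g • w ∈ W) {r : (ZMod p)[X]} (hr : r ∈ ann p a W) :
    expand (ZMod p) n r ∈ ann p a W := by
  obtain ⟨v, hv, h0⟩ := h.exists_ne
  rw [h.ann_iff (hg v hv) (by rwa [Ne, smul_eq_zero_iff_eq]), ← smul_aeval p hex, hr v hv, smul_zero]

/-- An element with an exponent fixing a non-zero vector of `W` preserves `W`. -/
theorem Mn.pres (h : Mn p a W) {g : G} {n : ℕ} (hex : Ex V a g n) {v : V} (hv : v ∈ W)
    (h0 : v ≠ 0) (hfix : g • v = v) : ∀ w ∈ W, g • w ∈ W := by
  intro w hw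
  rw [← h.cyc_eq hv h0] at hw
  obtain ⟨r, rfl⟩ := hw
  rw [smul_aeval p hex, hfix]
  exact aeval_mem p h.inv _ hv

/-- `K` -/
abbrev KK (p : ℕ) {G V : Type} [Group G] [AddCommGroup V] [DistribMulAction G V]
  [Module (ZMod p) V] (a : G) (W : Submodule (ZMod p) V) : Type := (ZMod p)[X] ⧸ ann p a W

/-- the endomorphism of `K` belonging to an exponent. -/
noncomputable def tau {n : ℕ} (H : ∀ r ∈ ann p a W, expand (ZMod p) n r ∈ ann p a W) :
    KK p a W →+* KK p a W :=
  Ideal.quotientMap (ann p a W) (expand (ZMod p) n : (ZMod p)[X] →ₐ[ZMod p] (ZMod p)[X]).toRingHom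
    (fun r hr => H r hr)

theorem tau_mk {n : ℕ} (H : ∀ r ∈ ann p a W, expand (ZMod p) n r ∈ ann p a W) (r : (ZMod p)[X]) :
    tau H (Ideal.Quotient.mk _ r) = Ideal.Quotient.mk _ (expand (ZMod p) n r) := rfl

/-- two polynomials with the same operator on `V` have the same class. -/
theorem mk_eq {r s : (ZMod p)[X]}
    (h : ∀ v ∈ W, aeval (op p a : Module.End (ZMod p) V) r v =
      aeval (op p a : Module.End (ZMod p) V) s v) :
    (Ideal.Quotient.mk (ann p a W) r) = Ideal.Quotient.mk _ s := by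
  rw [Ideal.Quotient.mk_eq_mk_iff_sub_mem, mem_ann]
  intro w hw
  rw [map_sub, LinearMap.sub_apply, h w hw, sub_self]

/-- if `g` has two exponents the expansions have the same class. -/
theorem Ex.mk_eq {g : G} {n m : ℕ} (hn : Ex V a g n) (hm : Ex V a g m) (r : (ZMod p)[X]) :
    (Ideal.Quotient.mk (ann p a W) (expand (ZMod p) n r)) =
      Ideal.Quotient.mk _ (expand (ZMod p) m r) := by
  refine GAM.mk_eq ?_
  intro w _
  have h1 := smul_aeval p hn r (g⁻¹ • w)
  have h2 := smul_aeval p hm r (g⁻¹ • w)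
  rw [smul_inv_smul] at h1 h2
  rw [← h1, ← h2]

end Main

end Pool.Agent.Lib.MPbe1941.X.GAM
end

section
/-!
# MP_be1941_al (exact bound), module GAMC: counting for the clean vector lemma, part 2
-/
set_option autoImplicit false

namespace Pool.Agent.Lib.MPbe1941.X.GAM

open Polynomial

section Aut

variable {G V : Type} [Group G] [AddCommGroup V] [DistribMulAction G V]
  {p : ℕ} [Module (ZMod p) V] {a : G} {W : Submodule (ZMod p) V}

/-- an exponent of `g` -/
noncomputable def ex (hSt : St G V a) (g : G) : ℕ := (hSt.pow g).choose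

theorem ex_spec (hSt : St G V a) (g : G) : Ex V a g (ex hSt g) := (hSt.pow g).choose_spec

/-- The elements preserving `W`. -/
def NW (G : Type) {V : Type} [Group G] [AddCommGroup V] [DistribMulAction G V]
    {p : ℕ} [Module (ZMod p) V] (W : Submodule (ZMod p) V) : Subgroup G where
  carrier := {g | (∀ w ∈ W, g • w ∈ W) ∧ ∀ w ∈ W, g⁻¹ • w ∈ W}
  one_mem' := by
    refine ⟨fun w hw => by simpa using hw, fun w hw => by simpa using hw⟩
  mul_mem' := by
    intro g h hg hh
    refine ⟨fun w hw => ?_, fun w hw => ?_⟩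
    · rw [mul_smul]; exact hg.1 _ (hh.1 _ hw)
    · rw [mul_inv_rev, mul_smul]; exact hh.2 _ (hg.2 _ hw)
  inv_mem' := by
    intro g hg
    refine ⟨hg.2, fun w hw => ?_⟩
    rw [inv_inv]; exact hg.1 w hw

theorem mem_NW {g : G} : g ∈ NW G W ↔ (∀ w ∈ W, g • w ∈ W) ∧ ∀ w ∈ W, g⁻¹ • w ∈ W := Iff.rfl

/-- the endomorphism of `g`. -/
noncomputable def fg (hSt : St G V a) (h : Mn p a W) (g : NW G W) : KK p a W →+* KK p a W :=
  tau (n := ex hSt (g : G)) (fun _ hr => h.expand_mem (ex_spec hSt (g : G)) g.2.1 hr)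

theorem fg_mk (hSt : St G V a) (h : Mn p a W) (g : NW G W) {n : ℕ} (hn : Ex V a (g : G) n)
    (r : (ZMod p)[X]) :
    fg hSt h g (Ideal.Quotient.mk _ r) = Ideal.Quotient.mk _ (expand (ZMod p) n r) := by
  rw [fg, tau_mk]
  exact Ex.mk_eq (ex_spec hSt (g : G)) hn r

theorem fg_mul (hSt : St G V a) (h : Mn p a W) (g g' : NW G W) :
    fg hSt h (g * g') = (fg hSt h g).comp (fg hSt h g') := by
  refine RingHom.ext fun k => ?_
  obtain ⟨r, rfl⟩ := Ideal.Quotient.mk_surjective k
  have h1 : Ex V a ((g * g' : NW G W) : G) (ex hSt (g : G) * ex hSt (g' : G)) :=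
    (ex_spec hSt (g : G)).mul (ex_spec hSt (g' : G))
  rw [fg_mk hSt h _ h1, RingHom.comp_apply, fg_mk hSt h g' (ex_spec hSt _),
    fg_mk hSt h g (ex_spec hSt _), expand_expand]

theorem fg_one (hSt : St G V a) (h : Mn p a W) : fg hSt h 1 = RingHom.id _ := by
  refine RingHom.ext fun k => ?_
  obtain ⟨r, rfl⟩ := Ideal.Quotient.mk_surjective k
  rw [fg_mk hSt h 1 (n := 1) Ex.one, expand_one]
  rfl

/-- The homomorphism to the automorphism group. -/
noncomputable def phi (hSt : St G V a) (h : Mn p a W) : NW G W →* RingAut (KK p a W) where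
  toFun g := RingEquiv.ofRingHom (fg hSt h g) (fg hSt h g⁻¹)
    (by rw [← fg_mul, mul_inv_cancel, fg_one]) (by rw [← fg_mul, inv_mul_cancel, fg_one])
  map_one' := by
    refine RingEquiv.ext fun k => ?_
    change fg hSt h 1 k = k
    rw [fg_one]; rfl
  map_mul' := by
    intro g g'
    refine RingEquiv.ext fun k => ?_
    change fg hSt h (g * g') k = fg hSt h g (fg hSt h g' k)
    rw [fg_mul]; rfl

theorem phi_mk (hSt : St G V a) (h : Mn p a W) (g : NW G W) {n : ℕ} (hn : Ex V a (g : G) n)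
    (r : (ZMod p)[X]) :
    phi hSt h g (Ideal.Quotient.mk _ r) = Ideal.Quotient.mk _ (expand (ZMod p) n r) :=
  fg_mk hSt h g hn r

/-- the group of automorphisms of the subgroup `T` -/
noncomputable def Sig (hSt : St G V a) (h : Mn p a W) (T : Subgroup G) :
    Subgroup (RingAut (KK p a W)) :=
  (T.subgroupOf (NW G W)).map (phi hSt h)

theorem mem_Sig (hSt : St G V a) (h : Mn p a W) (T : Subgroup G) (τ : RingAut (KK p a W)) :
    τ ∈ Sig hSt h T ↔ ∃ g : NW G W, (g : G) ∈ T ∧ phi hSt h g = τ := by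
  unfold Sig
  rw [Subgroup.mem_map]
  rfl

/-- A Sylow subgroup fixing a non-zero vector of `W` preserves `W`. -/
theorem le_NW (hSt : St G V a) (h : Mn p a W) {T : Subgroup G} {v : V} (hv : v ∈ W)
    (h0 : v ≠ 0) (hT : ∀ s ∈ T, s • v = v) : T ≤ NW G W := by
  intro s hs
  exact ⟨h.pres (ex_spec hSt s) hv h0 (hT s hs), h.pres (ex_spec hSt s⁻¹) hv h0
    (hT _ (T.inv_mem hs))⟩

theorem Sig_le (hSt : St G V a) (h : Mn p a W) [Finite G] (S S' : Sylow 3 G)
    (hS' : (S' : Subgroup G) ≤ NW G W) : Sig hSt h S ≤ Sig hSt h S' := by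
  intro τ hτ
  rw [mem_Sig] at hτ ⊢
  obtain ⟨g, hg, rfl⟩ := hτ
  obtain ⟨x, hx⟩ := MulAction.exists_smul_eq G S S'
  have hmem : x * (g : G) * x⁻¹ ∈ (S' : Subgroup G) := by
    rw [← hx]
    exact Subgroup.smul_mem_pointwise_smul (g : G) (MulAut.conj x) (S : Subgroup G) hg
  refine ⟨⟨x * (g : G) * x⁻¹, hS' hmem⟩, hmem, ?_⟩
  refine RingEquiv.ext fun k => ?_
  obtain ⟨r, rfl⟩ := Ideal.Quotient.mk_surjective k
  have h1 : Ex V a (x * (g : G) * x⁻¹) (ex hSt (g : G)) :=
    (ex_spec hSt (g : G)).conj (ex_spec hSt x) (ex_spec hSt x⁻¹)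
  rw [phi_mk hSt h _ h1, phi_mk hSt h g (ex_spec hSt _)]

theorem Sig_eq (hSt : St G V a) (h : Mn p a W) [Finite G] (S S' : Sylow 3 G) (hS : (S : Subgroup G) ≤ NW G W)
    (hS' : (S' : Subgroup G) ≤ NW G W) : Sig hSt h S = Sig hSt h S' :=
  le_antisymm (Sig_le hSt h S S' hS') (Sig_le hSt h S' S hS)

/-- `g (k v) = φ(g)(k) v` if `g` fixes `v`. -/
theorem smul_toW (hSt : St G V a) (h : Mn p a W) {v : V} (hv : v ∈ W) (g : NW G W)
    (hg : (g : G) • v = v) (k : KK p a W) :
    (g : G) • (h.toW hv k : V) = h.toW hv (phi hSt h g k) := by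
  obtain ⟨r, rfl⟩ := Ideal.Quotient.mk_surjective k
  rw [h.toW_mk, phi_mk hSt h g (ex_spec hSt _), h.toW_mk, smul_aeval p (ex_spec hSt (g : G)), hg]

/-- The number of fixed vectors in `W`. -/
theorem card_fix (hSt : St G V a) (h : Mn p a W) {T : Subgroup G} {v : V} (hv : v ∈ W)
    (h0 : v ≠ 0) (hT : ∀ s ∈ T, s • v = v) :
    Nat.card {w : W // ∀ s ∈ T, s • (w : V) = w} =
      Nat.card {k : KK p a W // ∀ τ ∈ Sig hSt h T, τ k = k} := by
  symm
  refine Nat.card_congr (Equiv.subtypeEquiv (Equiv.ofBijective _ (h.toW_bij hv h0)) ?_)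
  intro k
  constructor
  · intro hk s hs
    have hsN := le_NW hSt h hv h0 hT hs
    have h1 := smul_toW hSt h hv ⟨s, hsN⟩ (hT s hs) k
    have h2 : phi hSt h ⟨s, hsN⟩ ∈ Sig hSt h T := (mem_Sig hSt h T _).2 ⟨⟨s, hsN⟩, hs, rfl⟩
    rw [hk _ h2] at h1
    exact h1
  · intro hk τ hτ
    obtain ⟨g, hg, rfl⟩ := (mem_Sig hSt h T _).1 hτ
    apply (h.toW_bij hv h0).1
    apply Subtype.ext
    rw [← smul_toW hSt h hv g (hT _ hg)]
    exact hk _ hg

end Aut

end Pool.Agent.Lib.MPbe1941.X.GAM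
end

section
/-!
# MP_be1941_al (exact bound), module GAMD: the field argument, conclusion
-/
set_option autoImplicit false

namespace Pool.Agent.Lib.MPbe1941.X.GAM

open Polynomial
open scoped Pointwise

section

variable {G V : Type} [Group G] [AddCommGroup V] [DistribMulAction G V]
  {p : ℕ} [Module (ZMod p) V] {a : G} {W : Submodule (ZMod p) V}

/-- the Sylow 3-subgroup of a vector -/
noncomputable def sg (hSt : St G V a) (v : V) (h0 : v ≠ 0) : Sylow 3 G := (hSt.uni v h0).choose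

theorem sg_fix (hSt : St G V a) {v : V} (h0 : v ≠ 0) : ∀ s ∈ sg hSt v h0, s • v = v :=
  (hSt.uni v h0).choose_spec.1

theorem sg_uni (hSt : St G V a) {v : V} (h0 : v ≠ 0) (S : Sylow 3 G) (hS : ∀ s ∈ S, s • v = v) :
    S = sg hSt v h0 := (hSt.uni v h0).choose_spec.2 S hS

/-- `g • S` fixes `g • v`. -/
theorem smul_fix {g : G} {S : Sylow 3 G} {v : V} (hS : ∀ s ∈ S, s • v = v) :
    ∀ s ∈ g • S, s • g • v = g • v := by
  intro s hs
  have hs' : s ∈ MulAut.conj g • (S : Subgroup G) := hs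
  rw [Subgroup.mem_pointwise_smul_iff_inv_smul_mem] at hs'
  have e : (MulAut.conj g)⁻¹ • s = g⁻¹ * s * g := by
    rw [← map_inv]; simp [MulAut.smul_def]
  rw [e] at hs'
  have h1 := hS _ hs'
  have h2 := congrArg (fun v => g • v) h1
  simp only [mul_smul, smul_inv_smul] at h2
  exact h2

/-- The set of the Sylow 3-subgroups of the non-zero vectors of `W`. -/
def Ts (hSt : St G V a) (W : Submodule (ZMod p) V) : Set (Sylow 3 G) :=
  {S | ∃ v ∈ W, ∃ h0 : v ≠ 0, S = sg hSt v h0}

/-- counting the non-zero vectors of `W`. -/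
theorem count [Finite G] [Finite V] (hSt : St G V a) {x : ℕ}
    (hx : ∀ v ∈ W, ∀ h0 : v ≠ 0, Nat.card {w : W // ∀ s ∈ sg hSt v h0, s • (w : V) = w} = x) :
    Nat.card (Ts hSt W) * (x - 1) = Nat.card W - 1 := by
  classical
  have := Fintype.ofFinite W
  have := Fintype.ofFinite (Sylow 3 G)
  let s : Finset W := Finset.univ.filter (fun w => (w : V) ≠ 0)
  let σ : W → Sylow 3 G := fun w => if h0 : (w : V) ≠ 0 then sg hSt (w : V) h0 else default
  have hs : s.card = Nat.card W - 1 := by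
    have h1 : s = Finset.univ.erase 0 := by
      ext w
      simp [s]
    rw [h1, Finset.card_erase_of_mem (Finset.mem_univ _), Finset.card_univ,
      Nat.card_eq_fintype_card]
  have hσ : ∀ w : W, ∀ h0 : (w : V) ≠ 0, σ w = sg hSt (w : V) h0 := by
    intro w h0
    simp only [σ, dif_pos h0]
  have himg : ((s.image σ : Finset (Sylow 3 G)) : Set (Sylow 3 G)) = Ts hSt W := by
    ext S
    rw [Finset.mem_coe, Finset.mem_image]
    constructor
    · rintro ⟨w, hw, rfl⟩
      have h0 : (w : V) ≠ 0 := (Finset.mem_filter.1 hw).2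
      exact ⟨w, w.2, h0, hσ w h0⟩
    · rintro ⟨v, hv, h0, rfl⟩
      exact ⟨⟨v, hv⟩, Finset.mem_filter.2 ⟨Finset.mem_univ _, h0⟩, hσ ⟨v, hv⟩ h0⟩
  have hcT : Nat.card (Ts hSt W) = (s.image σ).card := by
    rw [← himg]
    simp
  rw [hcT, ← hs, Finset.card_eq_sum_card_image σ s]
  rw [Finset.sum_const_nat (m := x - 1)]
  intro S hS
  obtain ⟨w0, hw0, rfl⟩ := Finset.mem_image.1 hS
  have h0 : (w0 : V) ≠ 0 := (Finset.mem_filter.1 hw0).2
  have hxw := hx w0 w0.2 h0
  -- the fibre
  have hfib : (s.filter (fun w => σ w = σ w0)) =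
      (Finset.univ.filter (fun w : W => ∀ g ∈ sg hSt (w0 : V) h0, g • (w : V) = w)).erase 0 := by
    ext w
    rw [Finset.mem_filter, Finset.mem_filter, Finset.mem_erase, Finset.mem_filter, hσ w0 h0]
    constructor
    · rintro ⟨hw, hσw⟩
      have h0w : (w : V) ≠ 0 := hw.2
      refine ⟨fun hw0 => h0w (by rw [hw0]; rfl), Finset.mem_univ _, ?_⟩
      rw [hσ w h0w] at hσw
      rw [← hσw]
      exact sg_fix hSt h0w
    · rintro ⟨hw, -, hfix⟩
      have h0w : (w : V) ≠ 0 := fun hw0 => hw (Subtype.ext hw0)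
      refine ⟨⟨Finset.mem_univ _, h0w⟩, ?_⟩
      rw [hσ w h0w]
      exact (sg_uni hSt h0w _ hfix).symm
  rw [hfib, Finset.card_erase_of_mem, ← hxw]
  · congr 1
    rw [Nat.card_eq_fintype_card, Fintype.card_subtype]
  · rw [Finset.mem_filter]
    refine ⟨Finset.mem_univ _, ?_⟩
    intro g _
    simp

/-- The number of these Sylow subgroups is `1` modulo `3`. -/
theorem card_Ts [Finite G] [Finite V] (hSt : St G V a) (h : Mn p a W) :
    Nat.card (Ts hSt W) ≡ 1 [MOD 3] := by
  have hF : Fact (Nat.Prime 3) := ⟨Nat.prime_three⟩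
  obtain ⟨v0, hv0, h0⟩ := h.exists_ne
  set S0 := sg hSt v0 h0 with hS0
  have hle : (S0 : Subgroup G) ≤ NW G W := le_NW hSt h hv0 h0 (sg_fix hSt h0)
  have hstab : ∀ (g : (S0 : Subgroup G)) (S : Sylow 3 G), S ∈ Ts hSt W → g • S ∈ Ts hSt W := by
    rintro g S ⟨v, hv, hv1, rfl⟩
    have hgv : (g : G) • v ∈ W := (hle g.2).1 v hv
    have hgv0 : (g : G) • v ≠ 0 := by rwa [Ne, smul_eq_zero_iff_eq]
    refine ⟨(g : G) • v, hgv, hgv0, ?_⟩
    exact sg_uni hSt hgv0 _ (smul_fix (sg_fix hSt hv1))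
  let M : SubMulAction (S0 : Subgroup G) (Sylow 3 G) :=
    { carrier := Ts hSt W
      smul_mem' := fun g {S} hS => hstab g S hS }
  have h1 : Nat.card M ≡ Nat.card (MulAction.fixedPoints (S0 : Subgroup G) M) [MOD 3] :=
    S0.isPGroup'.card_modEq_card_fixedPoints M
  have h2 : MulAction.fixedPoints (S0 : Subgroup G) M = {⟨S0, v0, hv0, h0, rfl⟩} := by
    ext ⟨S, hS⟩
    rw [Set.mem_singleton_iff]
    constructor
    · intro hfix
      have h3 : S ∈ MulAction.fixedPoints (S0 : Subgroup G) (Sylow 3 G) := by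
        intro g
        exact congrArg Subtype.val (hfix g)
      have h4 : (S0 : Subgroup G) ≤ S := S0.isPGroup'.sylow_mem_fixedPoints_iff.1 h3
      apply Subtype.ext
      apply Sylow.ext
      exact (S0.is_maximal' S.isPGroup' h4)
    · rintro h3
      have h3' : S = S0 := congrArg Subtype.val h3
      intro g
      apply Subtype.ext
      have h4 : S ∈ MulAction.fixedPoints (S0 : Subgroup G) (Sylow 3 G) := by
        rw [h3']
        exact (S0.isPGroup'.sylow_mem_fixedPoints_iff).2 le_rfl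
      exact h4 g
  rw [h2] at h1
  have h5 : Nat.card ({⟨S0, v0, hv0, h0, rfl⟩} : Set M) = 1 := by simp
  rw [h5] at h1
  exact h1

end

end Pool.Agent.Lib.MPbe1941.X.GAM
end

section
/-!
# MP_be1941_al (exact bound), module GAME: the field argument, conclusion

Theorem `field_arg`.
-/
set_option autoImplicit false

namespace Pool.Agent.Lib.MPbe1941.X.GAM

open Polynomial
open scoped Pointwise

section

variable {G V : Type} [Group G] [AddCommGroup V] [DistribMulAction G V]
  {p : ℕ} [Module (ZMod p) V] {a : G} {W : Submodule (ZMod p) V}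

theorem conj_mem {G : Type} [Group G] {S S' : Sylow 3 G} {x g : G} (hx : x • S = S')
    (hg : g ∈ S) : x * g * x⁻¹ ∈ S' := by
  rw [← hx]
  exact Subgroup.smul_mem_pointwise_smul g (MulAut.conj x) (S : Subgroup G) hg

/-- `a` commutes with all Sylow 3-subgroups as soon as one `φ(g)` is trivial. -/
theorem phi_ne (hSt : St G V a) (h : Mn p a W) {g : NW G W} {n : ℕ} (hn : Ex V a (g : G) n)
    (hphi : phi hSt h g = 1) : ∀ v : V, a ^ n • v = a • v := by
  obtain ⟨w, hw, h0⟩ := h.exists_ne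
  have h1 : (Ideal.Quotient.mk (ann p a W)) (expand (ZMod p) n X) = Ideal.Quotient.mk _ X := by
    rw [← phi_mk hSt h g hn, hphi]; rfl
  rw [Ideal.Quotient.mk_eq_mk_iff_sub_mem, mem_ann] at h1
  have h2 := h1 w hw
  rw [map_sub, LinearMap.sub_apply, sub_eq_zero, aeval_expand, aeval_X, aeval_X, op_apply,
    op_apply] at h2
  rcases n with _ | n
  · rw [pow_zero, one_smul] at h2
    have h3 := hSt.sr 1 w h0 (by rw [pow_one, ← h2])
    intro v
    rw [pow_zero, one_smul]
    have := h3 v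
    rw [pow_one] at this
    exact this.symm
  · have h3 : a ^ n • w = w := by
      rw [pow_succ', mul_smul] at h2
      exact smul_left_cancel a h2
    intro v
    rw [pow_succ', mul_smul, hSt.sr n w h0 h3]

theorem Sig_ne [Finite G] (hSt : St G V a) (h : Mn p a W) (S0 : Sylow 3 G)
    (hle : (S0 : Subgroup G) ≤ NW G W) : Sig hSt h S0 ≠ ⊥ := by
  have hF : Fact (Nat.Prime 3) := ⟨Nat.prime_three⟩
  intro hbot
  obtain ⟨S, s, hs, v, hv⟩ := hSt.nt
  obtain ⟨x, hx⟩ := MulAction.exists_smul_eq G S S0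
  have hmem := conj_mem hx hs
  have h1 : Ex V a (x * s * x⁻¹) (ex hSt s) :=
    (ex_spec hSt s).conj (ex_spec hSt x) (ex_spec hSt x⁻¹)
  have h2 : phi hSt h ⟨x * s * x⁻¹, hle hmem⟩ ∈ Sig hSt h S0 :=
    (mem_Sig hSt h _ _).2 ⟨⟨x * s * x⁻¹, hle hmem⟩, hmem, rfl⟩
  rw [hbot, Subgroup.mem_bot] at h2
  have h3 := phi_ne hSt h h1 h2 (s • v)
  apply hv
  rw [ex_spec hSt s v, h3]

theorem Sig_three [Finite G] (hSt : St G V a) (h : Mn p a W) (S0 : Sylow 3 G) :
    IsPGroup 3 (Sig hSt h S0) := by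
  unfold Sig
  exact (S0.isPGroup'.comap_subtype).map _

variable [hp : Fact p.Prime]

/-- The order of `W` is not a square; the Sylow subgroup of a vector moves some vector of `W`. -/
theorem even_part [Finite G] [Finite V] (hp3 : p ≠ 3) (hSt : St G V a) (h : Mn p a W) :
    (∀ y : ℕ, Nat.card (KK p a W) ≠ y ^ 2) ∧
    ∀ v ∈ W, ∀ h0 : v ≠ 0, ∃ w ∈ W, ∃ s ∈ sg hSt v h0, s • w ≠ w := by
  have hF : Fact (Nat.Prime 3) := ⟨Nat.prime_three⟩
  obtain ⟨v0, hv0, h00⟩ := h.exists_ne
  set S0 := sg hSt v0 h00 with hS0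
  have hle : (S0 : Subgroup G) ≤ NW G W := le_NW hSt h hv0 h00 (sg_fix hSt h00)
  have hmax := h.maximal
  have hfin := h.finK
  let _ : Field (KK p a W) := Ideal.Quotient.field _
  have hcard := card_fixed (K := KK p a W) (Sig hSt h S0)
  set x := Nat.card {k : KK p a W // ∀ τ ∈ Sig hSt h S0, τ k = k} with hxdef
  set m := Nat.card (Sig hSt h S0) with hm
  have hx : ∀ v ∈ W, ∀ h0 : v ≠ 0,
      Nat.card {w : W // ∀ s ∈ sg hSt v h0, s • (w : V) = w} = x := by
    intro v hv h0
    have hle' : (sg hSt v h0 : Subgroup G) ≤ NW G W := le_NW hSt h hv h0 (sg_fix hSt h0)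
    rw [hxdef, Sig_eq hSt h S0 (sg hSt v h0) hle hle']
    exact card_fix hSt h hv h0 (sg_fix hSt h0)
  have hcount := count hSt hx
  rw [← h.cardK, hcard] at hcount
  have hTs := card_Ts hSt h
  -- `m` is a power of 3, not 1
  have hfinSig : Finite (Sig hSt h S0) := by
    have : Finite (RingAut (KK p a W)) := Finite.of_injective
      (fun e : RingAut (KK p a W) => (e : KK p a W → KK p a W))
      (fun a b h => RingEquiv.ext (fun x => congrFun h x))
    infer_instance
  obtain ⟨k, hk⟩ := IsPGroup.iff_card.1 (Sig_three hSt h S0)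
  rw [← hm] at hk
  have hk0 : k ≠ 0 := by
    intro hk0
    rw [hk0, pow_zero] at hk
    exact Sig_ne hSt h S0 hle (Subgroup.card_eq_one.1 hk)
  have hm3 : 3 ∣ m := by rw [hk]; exact dvd_pow_self 3 hk0
  have hmodd : Odd m := by rw [hk]; exact Odd.pow (by decide)
  have hK1 : 1 < Nat.card (KK p a W) := by
    have : Nontrivial (KK p a W) := Ideal.Quotient.nontrivial_iff.2 hmax.ne_top
    exact Finite.one_lt_card
  have hx1 : 1 < x := by
    rcases Nat.lt_or_ge 1 x with h1 | h1
    · exact h1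
    · exfalso
      have : x ^ m ≤ 1 ^ m := Nat.pow_le_pow_left h1 m
      rw [one_pow, ← hcard] at this
      omega
  have hx3 := arith hx1 hm3 hcount hTs
  -- `x` is prime to `3`
  have hKp : ∃ e : ℕ, Nat.card (KK p a W) = p ^ e := by
    have hmod := Module.natCard_eq_pow_finrank (K := ZMod p) (V := KK p a W)
    rw [Nat.card_zmod] at hmod
    exact ⟨_, hmod⟩
  have hx0 : ¬ 3 ∣ x := by
    intro h3
    obtain ⟨e, he⟩ := hKp
    have h4 : 3 ∣ p ^ e := by
      rw [← he, hcard]
      exact dvd_pow h3 hmodd.pos.ne'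
    have h5 := Nat.prime_three.dvd_of_dvd_pow h4
    exact hp3 ((Nat.prime_dvd_prime_iff_eq Nat.prime_three hp.out).1 h5).symm
  refine ⟨?_, ?_⟩
  · intro y hy
    rw [hcard] at hy
    have h2 : x % 3 = 2 := by
      have h3 : x % 3 ≠ 1 := fun h4 => hx3 h4
      have h4 : x % 3 ≠ 0 := fun h4 => hx0 (Nat.dvd_of_mod_eq_zero h4)
      omega
    obtain ⟨c, hc⟩ := hmodd
    have h3 : x ^ m % 3 = 2 := by
      rw [hc, pow_succ, pow_mul, Nat.mul_mod, Nat.pow_mod, Nat.pow_mod x 2, h2]
      norm_num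
    have h4 : y ^ 2 % 3 = 0 ∨ y ^ 2 % 3 = 1 := by
      rw [Nat.pow_mod]
      have : y % 3 < 3 := Nat.mod_lt _ (by norm_num)
      interval_cases y % 3 <;> simp
    rw [hy] at h3
    omega
  · intro v hv h0
    by_contra hcon
    push Not at hcon
    have h1 := hx v hv h0
    have h2 : Nat.card {w : W // ∀ s ∈ sg hSt v h0, s • (w : V) = w} = Nat.card W := by
      refine Nat.card_congr (Equiv.subtypeUnivEquiv ?_)
      rintro ⟨w, hw⟩ s hs
      exact hcon w hw s hs
    rw [h2, ← h.cardK, hcard] at h1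
    have h3 : x ^ 1 < x ^ m := by
      refine Nat.pow_lt_pow_right hx1 ?_
      obtain ⟨c, hc⟩ := hm3
      have := hmodd.pos
      omega
    rw [pow_one, h1] at h3
    exact lt_irrefl _ h3

end

end Pool.Agent.Lib.MPbe1941.X.GAM
end

section
/-!
# MP_be1941_al (exact bound), module GAMF: the field argument, theorem `field_arg`
-/
set_option autoImplicit false

namespace Pool.Agent.Lib.MPbe1941.X.GAM

open Polynomial
open scoped Pointwise

section

variable {G V : Type} [Group G] [AddCommGroup V] [DistribMulAction G V]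
  {p : ℕ} [Module (ZMod p) V] {a : G} {W : Submodule (ZMod p) V}

/-- If inversion induces an automorphism of the field then the order of the field is a square. -/
theorem inv_square [Fact p.Prime] [Finite V] (hSt : St G V a) (h : Mn p a W) {n : ℕ}
    (hinv : ∀ v : V, a ^ n • a • v = v)
    (H : ∀ r ∈ ann p a W, expand (ZMod p) n r ∈ ann p a W) :
    ∃ y : ℕ, Nat.card (KK p a W) = y ^ 2 := by
  have hmax := h.maximal
  have hfin := h.finK
  let _ : Field (KK p a W) := Ideal.Quotient.field _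
  have hn1 : ∀ v : V, a ^ n • v = a⁻¹ • v := by
    intro v
    have := hinv (a⁻¹ • v)
    rwa [smul_inv_smul] at this
  have hnn : ∀ v : V, a ^ (n * n) • v = a • v := by
    intro v
    rw [pow_mul]
    have h1 := pow_act (b := a ^ n) (c := a⁻¹) hn1 n v
    rw [h1]
    have h2 : (a⁻¹ : G) ^ n • v = a • v := by
      have h3 := hinv ((a⁻¹ : G) ^ n • v)
      have h4 : a ^ n • a • (a⁻¹ : G) ^ n • v = a • v := by
        rw [smul_smul, smul_smul]
        congr 1
        rw [inv_pow, ← pow_succ, pow_succ', mul_inv_cancel_right]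
      rw [← h3, h4]
    exact h2
  have htt : (tau H).comp (tau H) = RingHom.id _ := by
    refine RingHom.ext fun k => ?_
    obtain ⟨r, rfl⟩ := Ideal.Quotient.mk_surjective k
    rw [RingHom.comp_apply, tau_mk, tau_mk, expand_expand]
    refine mk_eq ?_
    intro w _
    rw [aeval_expand]
    have : (op p (a ^ (n * n)) : Module.End (ZMod p) V) = op p a := by
      ext v; exact hnn v
    rw [this]
  let ι : RingAut (KK p a W) := RingEquiv.ofRingHom (tau H) (tau H) htt htt
  have hι : ∀ k, ι k = tau H k := fun k => rfl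
  have hne : ι ≠ 1 := by
    intro h1
    obtain ⟨w, hw, h0⟩ := h.exists_ne
    have h2 : (Ideal.Quotient.mk (ann p a W)) (expand (ZMod p) n X) = Ideal.Quotient.mk _ X := by
      rw [← tau_mk H, ← hι, h1]; rfl
    rw [Ideal.Quotient.mk_eq_mk_iff_sub_mem, mem_ann] at h2
    have h3 := h2 w hw
    rw [map_sub, LinearMap.sub_apply, sub_eq_zero, aeval_expand, aeval_X, aeval_X, op_apply,
      op_apply, hn1] at h3
    -- `a² w = w`
    have h4 : a ^ 2 • w = w := by
      rw [pow_two, mul_smul, ← h3, smul_inv_smul]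
    have h5 := hSt.sr 2 w h0 h4
    obtain ⟨L, hL, hLa⟩ := hSt.odd
    obtain ⟨k, hk⟩ := hL
    have h6 : ∀ v : V, a • v = v := by
      intro v
      have h7 := hLa v
      rw [hk, pow_succ, pow_mul, mul_smul] at h7
      have h8 := pow_act (b := a ^ 2) (c := 1) (fun v => by rw [h5, one_smul]) k (a • v)
      rw [one_pow, one_smul] at h8
      rwa [h8] at h7
    obtain ⟨S, s, _, v, hv⟩ := hSt.nt
    exact hv (by rw [h6, h6])
  have hsq : ι ^ 2 = 1 := by
    refine RingEquiv.ext fun k => ?_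
    rw [pow_two]
    exact RingHom.congr_fun htt k
  have hord : orderOf ι = 2 := orderOf_eq_prime hsq hne
  have h1 := card_fixed (K := KK p a W) (Subgroup.zpowers ι)
  rw [Nat.card_zpowers, hord] at h1
  exact ⟨_, h1⟩

/-- **The field argument** (EXACT.md 5.7). -/
theorem field_arg [hp : Fact p.Prime] (hp3 : p ≠ 3) [Finite G] [Finite V] [Nontrivial V]
    (hSt : St G V a) (j : G) (hja : ∀ v : V, a • j • a • v = j • v) : False := by
  obtain ⟨W, hne, hinvW, hmin⟩ := exists_min (V := V) p a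
  have h : Mn p a W := ⟨hne, hinvW, hmin⟩
  obtain ⟨hsq, hmove⟩ := even_part hp3 hSt h
  -- the exponent of inversion
  obtain ⟨L, hL, hLa⟩ := hSt.odd
  obtain ⟨c, hc⟩ := hL
  set n := 2 * c with hn
  have hinv : ∀ v : V, a ^ n • a • v = v := by
    intro v
    rw [smul_smul, ← pow_succ, ← hc]
    exact hLa v
  have hj : Ex V a j n := by
    intro v
    have h1 := hja v
    have h2 := hinv (j • a • v)
    rw [h1] at h2
    exact h2.symm
  have hn1 : ∀ v : V, a ^ n • v = a⁻¹ • v := by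
    intro v
    have := hinv (a⁻¹ • v)
    rwa [smul_inv_smul] at this
  have hnn : ∀ v : V, a ^ (n * n) • v = a • v := by
    intro v
    rw [pow_mul]
    have h1 := pow_act (b := a ^ n) (c := a⁻¹) hn1 n v
    rw [h1]
    have h3 := hinv ((a⁻¹ : G) ^ n • v)
    have h4 : a ^ n • a • (a⁻¹ : G) ^ n • v = a • v := by
      rw [smul_smul, smul_smul]
      congr 1
      rw [inv_pow, ← pow_succ, pow_succ', mul_inv_cancel_right]
    rw [← h3, h4]
  have hopnn : (op p (a ^ (n * n)) : Module.End (ZMod p) V) = op p a := by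
    ext v; exact hnn v
  by_cases H : ∀ r ∈ ann p a W, expand (ZMod p) n r ∈ ann p a W
  · obtain ⟨y, hy⟩ := inv_square hSt h hinv H
    exact hsq y hy
  push Not at H
  obtain ⟨r, hr, hr'⟩ := H
  have hmax := h.maximal
  obtain ⟨u, i, hi, hui⟩ := hmax.exists_inv hr'
  set d := u * expand (ZMod p) n r with hd
  have hnd : expand (ZMod p) n d ∈ ann p a W := by
    rw [hd, map_mul, expand_expand]
    refine Ideal.mul_mem_left _ _ ?_
    intro w hw
    rw [aeval_expand, hopnn]
    exact hr w hw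
  -- `j (r (a) w) = r(a⁻¹) (j w)`
  have hjr : ∀ (q : (ZMod p)[X]) (w : V),
      aeval (op p a : Module.End (ZMod p) V) q (j • w) =
        j • aeval (op p a : Module.End (ZMod p) V) (expand (ZMod p) n q) w := by
    intro q w
    rw [smul_aeval p hj, expand_expand, aeval_expand, hopnn]
  obtain ⟨v0, hv0, h00⟩ := h.exists_ne
  -- the key step
  have hkey : ∀ y1 ∈ W, ∀ h1 : y1 ≠ 0, ∀ hj0 : j • v0 ≠ 0, sg hSt y1 h1 = sg hSt (j • v0) hj0 := by
    intro y1 hy1 h1 hj0
    set v := y1 + j • v0 with hv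
    have hdv : aeval (op p a : Module.End (ZMod p) V) d v = y1 := by
      rw [hv, map_add, hjr, hnd v0 hv0, smul_zero, add_zero]
      have h2 := congrArg (fun q => aeval (op p a : Module.End (ZMod p) V) q y1) hui
      simp only [map_add, LinearMap.add_apply, hi y1 hy1, add_zero, map_one] at h2
      exact h2
    have hv1 : v ≠ 0 := by
      intro h2
      rw [h2, map_zero] at hdv
      exact h1 hdv.symm
    set S := sg hSt v hv1 with hS
    have hfix1 : ∀ g ∈ S, g • y1 = y1 := by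
      intro g hg
      have hgv := sg_fix hSt hv1 g hg
      set m := ex hSt g with hm
      have hexm : Ex V a g m := ex_spec hSt g
      -- a conjugate in the Sylow subgroup of `y1` has the same exponent
      have hmem : ∀ q ∈ ann p a W, expand (ZMod p) m q ∈ ann p a W := by
        intro q hq
        obtain ⟨x, hx⟩ := (have hF : Fact (Nat.Prime 3) := ⟨Nat.prime_three⟩;
          MulAction.exists_smul_eq G S (sg hSt y1 h1))
        have hmem' := conj_mem hx hg
        have h2 : Ex V a (x * g * x⁻¹) m := hexm.conj (ex_spec hSt x) (ex_spec hSt x⁻¹)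
        exact h.expand_mem h2 (le_NW hSt h hy1 h1 (sg_fix hSt h1) hmem').1 hq
      have e1 : g • y1 = aeval (op p a : Module.End (ZMod p) V) (expand (ZMod p) m d) v := by
        conv_lhs => rw [← hdv]
        rw [smul_aeval p hexm, hgv]
      have e2 : aeval (op p a : Module.End (ZMod p) V) (expand (ZMod p) m d) y1 = y1 := by
        have h2 := congrArg (fun q => aeval (op p a : Module.End (ZMod p) V)
          (expand (ZMod p) m q) y1) hui
        simp only [map_add, LinearMap.add_apply, hmem i hi y1 hy1, add_zero, map_one] at h2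
        exact h2
      have e3 : aeval (op p a : Module.End (ZMod p) V) (expand (ZMod p) m d) (j • v0) = 0 := by
        rw [hjr, expand_expand, mul_comm, ← expand_expand, hmem _ hnd v0 hv0, smul_zero]
      rw [e1, hv, map_add, e2, e3, add_zero]
    have hfix2 : ∀ g ∈ S, g • j • v0 = j • v0 := by
      intro g hg
      have hgv := sg_fix hSt hv1 g hg
      rw [hv, smul_add, hfix1 g hg] at hgv
      exact add_left_cancel hgv
    rw [← sg_uni hSt h1 S hfix1, ← sg_uni hSt hj0 S hfix2]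
  have hj0 : j • v0 ≠ 0 := by rwa [Ne, smul_eq_zero_iff_eq]
  obtain ⟨w, hw, s, hs, hsw⟩ := hmove v0 hv0 h00
  have hw0 : w ≠ 0 := by
    rintro rfl
    exact hsw (smul_zero s)
  rw [hkey v0 hv0 h00 hj0, ← hkey w hw hw0 hj0] at hs
  exact hsw (sg_fix hSt hw0 s hs)

end

end Pool.Agent.Lib.MPbe1941.X.GAM
end

section
/-!
# MP_be1941_al (exact bound), module GAMG: the group form of the field argument

Theorem `gam_core`.
-/
set_option autoImplicit false

namespace Pool.Agent.Lib.MPbe1941.X.GAM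

open Pool.Agent.Lib.MPbe1941

section

variable {H X : Type} [Group H] [AddCommGroup X] [DistribMulAction H X]

/-- The vectors fixed by `B`. -/
def fixS (B : Subgroup H) (X : Type) [AddCommGroup X] [DistribMulAction H X] : AddSubgroup X where
  carrier := {v | ∀ b ∈ B, b • v = v}
  zero_mem' := fun b _ => smul_zero b
  add_mem' := by
    intro v w hv hw b hb
    rw [smul_add, hv b hb, hw b hb]
  neg_mem' := by
    intro v hv b hb
    rw [smul_neg, hv b hb]

theorem mem_fixS {B : Subgroup H} {v : X} : v ∈ fixS B X ↔ ∀ b ∈ B, b • v = v := Iff.rfl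

theorem smul_mem_fixS {B : Subgroup H} {g : H} (hg : ∀ b ∈ B, g⁻¹ * b * g ∈ B) {v : X}
    (hv : v ∈ fixS B X) : g • v ∈ fixS B X := by
  intro b hb
  have h1 := hv _ (hg b hb)
  have h2 := congrArg (fun v => g • v) h1
  simp only [mul_smul, smul_inv_smul] at h2
  exact h2

theorem nrm_inv {B : Subgroup H} (g : Subgroup.normalizer (B : Set H)) :
    ∀ b ∈ B, (g : H)⁻¹ * b * g ∈ B := by
  intro b hb
  have h1 := (Subgroup.mem_normalizer_iff.1 (Subgroup.inv_mem _ g.2) b).1 hb
  simpa using h1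

/-- The action of the normaliser of `B` on the vectors fixed by `B`. -/
instance actN (B : Subgroup H) : DistribMulAction (Subgroup.normalizer (B : Set H)) (fixS B X) where
  smul g v := ⟨(g : H) • (v : X), smul_mem_fixS (nrm_inv g) v.2⟩
  one_smul v := Subtype.ext (one_smul H (v : X))
  mul_smul g h v := Subtype.ext (mul_smul (g : H) (h : H) (v : X))
  smul_zero g := Subtype.ext (smul_zero (g : H))
  smul_add g v w := Subtype.ext (smul_add (g : H) (v : X) (w : X))

theorem coe_actN {B : Subgroup H} (g : Subgroup.normalizer (B : Set H)) (v : fixS B X) :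
    ((g • v : fixS B X) : X) = (g : H) • (v : X) := rfl

/-- In a finite group it is enough to map `B` into itself. -/
theorem mem_nrm [Finite H] {B : Subgroup H} {g : H} (hg : ∀ b ∈ B, g * b * g⁻¹ ∈ B) :
    g ∈ Subgroup.normalizer (B : Set H) := by
  have hpow : ∀ n : ℕ, ∀ y ∈ B, g ^ n * y * (g ^ n)⁻¹ ∈ B := by
    intro n
    induction n with
    | zero => intro y hy; simpa using hy
    | succ n ih =>
      intro y hy
      have e : g ^ (n + 1) * y * (g ^ (n + 1))⁻¹ = g * (g ^ n * y * (g ^ n)⁻¹) * g⁻¹ := by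
        rw [pow_succ' g n]; group
      rw [e]
      exact hg _ (ih y hy)
  rw [Subgroup.mem_normalizer_iff]
  intro y
  constructor
  · exact hg y
  · intro hy
    have e1 : g⁻¹ = g ^ (orderOf g - 1) := by
      rw [inv_eq_iff_mul_eq_one, ← pow_succ', Nat.sub_add_cancel (orderOf_pos g),
        pow_orderOf_eq_one]
    have h6 := hpow (orderOf g - 1) _ hy
    rw [← e1] at h6
    have e2 : g⁻¹ * (g * y * g⁻¹) * g⁻¹⁻¹ = y := by group
    rwa [e2] at h6

/-- `T` is a Sylow `3`-subgroup of `H` commuting with `B`, fixing `v` and normal in its stabiliser. -/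
def Mc (B : Subgroup H) (v : X) (T : Subgroup H) : Prop :=
  SylIn 3 ⊤ T ∧ (∀ t ∈ T, t • v = v) ∧ (∀ h : H, h • v = v → ∀ t ∈ T, h * t * h⁻¹ ∈ T) ∧
    ∀ t ∈ T, ∀ b ∈ B, t * b = b * t

theorem Mc.le {B : Subgroup H} {v : X} {T : Subgroup H} (h : Mc B v T) :
    T ≤ Subgroup.normalizer (B : Set H) := by
  intro t ht
  rw [Subgroup.mem_normalizer_iff]
  intro b
  constructor
  · intro hb
    rw [h.2.2.2 t ht b hb]; simpa using hb
  · intro hb
    have h1 := h.2.2.2 t⁻¹ (T.inv_mem ht) _ hb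
    have h2 : b = t⁻¹ * (t * b * t⁻¹) * t := by group
    rw [h1] at h2
    rw [h2]; simpa using hb

/-- the Sylow subgroup of the normaliser -/
theorem Mc.syl [Finite H] {B : Subgroup H} {v : X} {T : Subgroup H} (h : Mc B v T) :
    ∃ S : Sylow 3 (Subgroup.normalizer (B : Set H)),
      (S : Subgroup _) = T.subgroupOf (Subgroup.normalizer (B : Set H)) := by
  have hF : Fact (Nat.Prime 3) := ⟨Nat.prime_three⟩
  have h1 : IsPGroup 3 (T.subgroupOf (Subgroup.normalizer (B : Set H))) := h.1.2.1.comap_subtype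
  refine ⟨h1.toSylow ?_, IsPGroup.toSylow_coe _ _⟩
  intro h3
  apply h.1.2.2
  rw [Subgroup.relIndex_top_right]
  change 3 ∣ T.relIndex _ at h3
  rw [← Subgroup.relIndex_mul_index h.le]
  exact dvd_mul_of_dvd_left h3 _

theorem Mc.uni [Finite H] {B : Subgroup H} {v : fixS B X} {T : Subgroup H} (h : Mc B (v : X) T) :
    ∃! S : Sylow 3 (Subgroup.normalizer (B : Set H)), ∀ s ∈ S, s • v = v := by
  have hF : Fact (Nat.Prime 3) := ⟨Nat.prime_three⟩
  obtain ⟨S, hS⟩ := h.syl
  refine ⟨S, ?_, ?_⟩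
  · intro s hs
    apply Subtype.ext
    rw [coe_actN]
    have h1 : s ∈ T.subgroupOf (Subgroup.normalizer (B : Set H)) := by rw [← hS]; exact hs
    exact h.2.1 _ h1
  · intro S' hS'
    -- `S'` normalises `T`
    have h1 : ∀ s ∈ S', ∀ t ∈ T, (s : H) * t * (s : H)⁻¹ ∈ T := by
      intro s hs t ht
      refine h.2.2.1 s ?_ t ht
      have := congrArg Subtype.val (hS' s hs)
      rwa [coe_actN] at this
    have h2 : (S' : Subgroup (Subgroup.normalizer (B : Set H))) ≤
        Subgroup.normalizer (S : Set (Subgroup.normalizer (B : Set H))) := by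
      intro s hs
      refine mem_nrm (B := (S : Subgroup (Subgroup.normalizer (B : Set H)))) ?_
      intro t ht
      rw [hS] at ht ⊢
      exact h1 s hs t ht
    have h3 : (S' : Subgroup (Subgroup.normalizer (B : Set H))) ≤
        (S : Subgroup (Subgroup.normalizer (B : Set H))) := by
      have h4 := S'.isPGroup'.inf_normalizer_sylow S
      have h5 := le_inf (le_refl (S' : Subgroup (Subgroup.normalizer (B : Set H)))) h2
      rw [h4] at h5
      exact h5.trans inf_le_right
    apply Sylow.ext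
    exact (S'.is_maximal' S.isPGroup' h3).symm

end

end Pool.Agent.Lib.MPbe1941.X.GAM
end

section
/-!
# MP_be1941_al (exact bound), module GAMH: the group form of the field argument

Theorem `gam_core`.
-/
set_option autoImplicit false

namespace Pool.Agent.Lib.MPbe1941.X.GAM

open Pool.Agent.Lib.MPbe1941

section

variable {H X : Type} [Group H] [AddCommGroup X] [DistribMulAction H X]

/-- In a cyclic subgroup the elements with `x^l = 1` are the powers of one element of order `l`. -/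
theorem mem_pow_of_cyclic [Finite H] {l : ℕ} (hl : l.Prime) {Q : Subgroup H} (hQ : IsCyclic Q)
    {a q : H} (ha : a ∈ Q) (ha1 : a ≠ 1) (hal : a ^ l = 1) (hq : q ∈ Q) (hql : q ^ l = 1) :
    ∃ n : ℕ, q = a ^ n := by
  classical
  have := Fintype.ofFinite Q
  have hord : orderOf (⟨a, ha⟩ : Q) = l := by
    refine orderOf_eq_prime_iff (hp := ⟨hl⟩) |>.2 ⟨?_, ?_⟩
    · exact Subtype.ext (by simpa using hal)
    · intro h
      exact ha1 (congrArg Subtype.val h)
  have hcard := IsCyclic.card_pow_eq_one_le (α := Q) hl.pos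
  set s : Finset Q := Finset.univ.filter (fun x : Q => x ^ l = 1) with hs
  have hsub : (Subgroup.zpowers (⟨a, ha⟩ : Q) : Set Q).toFinset ⊆ s := by
    intro x hx
    rw [Set.mem_toFinset] at hx
    obtain ⟨k, rfl⟩ := Subgroup.mem_zpowers_iff.1 hx
    rw [hs, Finset.mem_filter]
    refine ⟨Finset.mem_univ _, ?_⟩
    rw [← zpow_natCast, zpow_comm, zpow_natCast, ← hord, pow_orderOf_eq_one, one_zpow]
  have hcz : (Subgroup.zpowers (⟨a, ha⟩ : Q) : Set Q).toFinset.card = l := by
    rw [Set.toFinset_card, ← Nat.card_eq_fintype_card]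
    exact (Nat.card_zpowers _).trans hord
  have heq := Finset.eq_of_subset_of_card_le hsub (by rw [hcz]; exact hcard)
  have hqs : (⟨q, hq⟩ : Q) ∈ s := by
    rw [hs, Finset.mem_filter]
    exact ⟨Finset.mem_univ _, Subtype.ext (by simpa using hql)⟩
  rw [← heq, Set.mem_toFinset] at hqs
  have hqs' : (⟨q, hq⟩ : Q) ∈ Subgroup.zpowers (⟨a, ha⟩ : Q) := hqs
  rw [← mem_powers_iff_mem_zpowers] at hqs'
  obtain ⟨n, hn⟩ := Submonoid.mem_powers_iff _ _ |>.1 hqs'
  exact ⟨n, by simpa using (congrArg Subtype.val hn).symm⟩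

/-- **The group form of the field argument.** -/
theorem gam_core [Finite H] [Finite X] {p l : ℕ} (hp : p.Prime) (hp3 : p ≠ 3)
    (hpX : ∀ v : X, p • v = 0) (hl : l.Prime) (hl2 : l ≠ 2) {P B Q : Subgroup H}
    (hPn : P.Normal) (hQP : Q ≤ P) (hQc : IsCyclic Q) (hQB : ∀ x ∈ Q, x ∈ B → x = 1)
    (hQBP : ∀ x ∈ P, ∃ q ∈ Q, ∃ b ∈ B, x = q * b) {a : H} (haQ : a ∈ Q) (ha1 : a ≠ 1)
    (hal : a ^ l = 1) (haB : ∀ b ∈ B, a * b = b * a)
    (hsr : ∀ n : ℕ, ∀ v ∈ fixS B X, v ≠ 0 → a ^ n • v = v → a ^ n ∈ B)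
    (hM : ∀ v ∈ fixS B X, v ≠ 0 → ∃ T, Mc B v T)
    {v0 : X} (hv0 : v0 ∈ fixS B X) (h0 : v0 ≠ 0) {T0 : Subgroup H} (hT0 : Mc B v0 T0) {s : H}
    (hs : s ∈ T0) {k : ℕ} (hsa : s * a * s⁻¹ = a ^ k) (hsna : s * a ≠ a * s)
    {j : H} (hjB : ∀ b ∈ B, j * b * j⁻¹ ∈ B) (hja : j * a * j⁻¹ = a⁻¹) : False := by
  have haN : a ∈ Subgroup.normalizer (B : Set H) := by
    refine mem_nrm ?_
    intro b hb
    rw [haB b hb]; simpa using hb
  have hjN : j ∈ Subgroup.normalizer (B : Set H) := mem_nrm hjB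
  have hFp : Fact p.Prime := ⟨hp⟩
  let _ : Module (ZMod p) (fixS B X) := AddCommGroup.zmodModule
    (fun v => Subtype.ext (by rw [AddSubgroup.coe_nsmul]; exact hpX v))
  have hnt : Nontrivial (fixS B X) :=
    ⟨⟨⟨v0, hv0⟩, 0, fun h => h0 (congrArg Subtype.val h)⟩⟩
  have hQ1 : ∀ n : ℕ, a ^ n ∈ B → a ^ n = 1 := fun n hn => hQB _ (Q.pow_mem haQ n) hn
  have hSt : St (Subgroup.normalizer (B : Set H)) (fixS B X) ⟨a, haN⟩ := by
    refine ⟨?_, ?_, ?_, ?_, ?_⟩
    · intro g
      set c := (g : H) * a * (g : H)⁻¹ with hc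
      have hcP : c ∈ P := hPn.conj_mem a (hQP haQ) g
      have hcB : ∀ b ∈ B, c * b = b * c := by
        intro b hb
        have h1 := haB _ (nrm_inv g b hb)
        calc c * b = (g : H) * (a * ((g : H)⁻¹ * b * g)) * (g : H)⁻¹ := by rw [hc]; group
          _ = (g : H) * (((g : H)⁻¹ * b * g) * a) * (g : H)⁻¹ := by rw [h1]
          _ = b * c := by rw [hc]; group
      obtain ⟨q, hq, b, hb, hcqb⟩ := hQBP c hcP
      have hcl : c ^ l = 1 := by
        rw [hc, conj_pow, hal]; group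
      have hqb : Commute q b := by
        have h1 : q = c * b⁻¹ := by rw [hcqb]; group
        rw [h1]
        have h2 : Commute c b := hcB b hb
        exact h2.mul_left (Commute.refl b).inv_left
      have hql : q ^ l = 1 := by
        refine hQB _ (Q.pow_mem hq l) ?_
        have h1 : q ^ l * b ^ l = 1 := by rw [← hqb.mul_pow, ← hcqb, hcl]
        have h2 : q ^ l = (b ^ l)⁻¹ := eq_inv_of_mul_eq_one_left h1
        rw [h2]
        exact B.inv_mem (B.pow_mem hb l)
      obtain ⟨n, hn⟩ := mem_pow_of_cyclic hl hQc haQ ha1 hal hq hql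
      refine ⟨n, fun v => Subtype.ext ?_⟩
      have hgv : (g : H) • (v : X) ∈ fixS B X := (g • v : fixS B X).2
      calc (g : H) • a • (v : X) = c • (g : H) • (v : X) := by
            rw [smul_smul, smul_smul, hc]; congr 1; group
        _ = q • b • (g : H) • (v : X) := by rw [hcqb, mul_smul]
        _ = a ^ n • (g : H) • (v : X) := by rw [hgv b hb, hn]
    · intro n v hv hfix w
      have hv' : (v : X) ≠ 0 := fun h => hv (Subtype.ext h)
      have h1 : a ^ n • (v : X) = v := congrArg Subtype.val hfix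
      have h2 := hQ1 n (hsr n v v.2 hv' h1)
      apply Subtype.ext
      change a ^ n • (w : X) = w
      rw [h2, one_smul]
    · intro v hv
      have hv' : (v : X) ≠ 0 := fun h => hv (Subtype.ext h)
      obtain ⟨T, hT⟩ := hM v v.2 hv'
      exact hT.uni
    · obtain ⟨S, hS⟩ := hT0.syl
      refine ⟨S, ⟨s, hT0.le hs⟩, ?_, ⟨v0, hv0⟩, ?_⟩
      · have : (⟨s, hT0.le hs⟩ : Subgroup.normalizer (B : Set H)) ∈ (S : Subgroup _) := by
          rw [hS]; exact hs
        exact this
      · intro h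
        have h1 : s • a • v0 = a • s • v0 := congrArg Subtype.val h
        have h2 : s • v0 = v0 := hT0.2.1 s hs
        have h3 : s • a • v0 = a ^ k • v0 := by
          conv_rhs => rw [← h2, ← hsa]
          rw [smul_smul, smul_smul]
          congr 1; group
        rw [h3, h2] at h1
        -- `a^k v0 = a v0`
        have h4 : a ^ (l - 1 + k) • v0 = v0 := by
          rw [pow_add, mul_smul, h1, smul_smul, ← pow_succ, Nat.sub_add_cancel hl.pos, hal,
            one_smul]
        have h5 := hQ1 _ (hsr _ v0 hv0 h0 h4)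
        have h6 : a ^ k = a := by
          have h7 : a * a ^ (l - 1 + k) = a := by rw [h5, mul_one]
          rw [← pow_succ'] at h7
          have h8 : l - 1 + k + 1 = l + k := by have := hl.pos; omega
          rw [h8, pow_add, hal, one_mul] at h7
          exact h7
        rw [h6] at hsa
        exact hsna (mul_inv_eq_iff_eq_mul.1 hsa)
    · refine ⟨l, hl.odd_of_ne_two hl2, fun v => ?_⟩
      apply Subtype.ext
      change a ^ l • (v : X) = v
      rw [hal, one_smul]
  refine field_arg (p := p) hp3 hSt ⟨j, hjN⟩ ?_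
  intro v
  apply Subtype.ext
  change a • j • a • (v : X) = j • (v : X)
  have h1 : j * a = a⁻¹ * j := by rw [← hja]; group
  rw [smul_smul, smul_smul]
  congr 1
  rw [mul_assoc, h1, mul_inv_cancel_left]

end

end Pool.Agent.Lib.MPbe1941.X.GAM
end

section
/-!
# MP_be1941_al (exact bound), module TGA: the cyclic case of a bad place is impossible

EXACT.md 5.7.
-/
set_option autoImplicit false

namespace Pool.Agent.Lib.MPbe1941.X

open Pool.Agent.Lib.MPbe1941
open Pool.Agent.Lib.MPbe1941.XF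
open scoped commutatorElement

/-- **L3R** the reflection lemma. -/
def SpecL3R : Prop :=
  ∀ (G : Type) [Group G] [Finite G] (l : ℕ), l.Prime → l ≠ 2 → l ≠ 3 →
    ∀ P T S : Subgroup G, IsPGroup l P → IsPGroup 2 T → IsPGroup 3 S → Nrm S P → Nrm T P →
    Nrm S T → IsCyclic (⁅P, S⁆ : Subgroup G) →
    (∃ x ∈ T, ∃ s ∈ S, ∃ y ∈ P, s * x * s⁻¹ * x⁻¹ * y ≠ y * (s * x * s⁻¹ * x⁻¹)) →
    ∃ j ∈ T, (∀ s ∈ S, j * s = s * j) ∧ ∀ y ∈ ⁅P, S⁆, j * y * j⁻¹ = y⁻¹

namespace TGAM

section

variable {H : Type} [Group H]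

/-- A subgroup containing all elements of prime power order of `B` contains `B`. -/
theorem le_of_primary [Finite H] {B K : Subgroup H}
    (h : ∀ q, q.Prime → ∀ x ∈ B, LE q x → x ∈ K) : B ≤ K := by
  rw [← Subgroup.relIndex_eq_one]
  by_contra hne
  obtain ⟨q, hq, hdvd⟩ := Nat.exists_prime_and_dvd hne
  have hF : Fact q.Prime := ⟨hq⟩
  have h1 := CO.SYLM.sylIn_map (default : Sylow q B)
  have h2 : ((default : Sylow q B) : Subgroup B).map B.subtype ≤ K := by
    intro x hx
    refine h q hq x (h1.1 hx) ?_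
    obtain ⟨n, hn⟩ := h1.2.1 ⟨x, hx⟩
    exact ⟨n, by simpa using congrArg Subtype.val hn⟩
  exact h1.2.2 (hdvd.trans (Subgroup.relIndex_dvd_of_le_left B h2))

theorem le_cent {R P : Subgroup H} (h : ¬ NtOn R P) : R ≤ Subgroup.centralizer (P : Set H) := by
  intro x hx
  rw [Subgroup.mem_centralizer_iff]
  intro y hy
  by_contra hne
  exact h ⟨x, hx, y, hy, fun e => hne e.symm⟩

theorem not_NtOn {R P : Subgroup H} (h : R ≤ Subgroup.centralizer (P : Set H)) : ¬ NtOn R P := by
  rintro ⟨x, hx, y, hy, hne⟩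
  exact hne ((Subgroup.mem_centralizer_iff.1 (h hx) y hy).symm)

/-- If `R` centralises the normal subgroup `P` then so does `⁅U, R⁆`. -/
theorem comm_cent {R U P : Subgroup H} [hP : P.Normal] (hU : ⁅U, R⁆ = U) (h : ¬ NtOn R P) :
    ¬ NtOn U P := by
  apply not_NtOn
  rw [← hU]
  exact (Subgroup.commutator_mono le_rfl (le_cent h)).trans (Subgroup.commutator_le_right _ _)

/-- An element of order `l` of `Q` commuting with `P`. -/
theorem exists_cen [Finite H] {l : ℕ} (hl : l.Prime) {P Q : Subgroup H} (hP : IsPGroup l P)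
    (hQP : Q ≤ P) (hn : Nrm P Q) (hQ : Q ≠ ⊥) :
    ∃ a ∈ Q, a ≠ 1 ∧ a ^ l = 1 ∧ ∀ x ∈ P, a * x = x * a := by
  obtain ⟨w, hw, hw1, hwP⟩ := EKAM.exists_fix hl hP ⊥ _ Q rfl (hP.to_le hQP) hn (by
    intro h
    exact hQ (le_bot_iff.1 h))
  rw [Subgroup.mem_bot] at hw1
  have hwc : ∀ x ∈ P, w * x = x * w := by
    intro x hx
    have h1 := (Subgroup.mem_bot.1 (hwP x hx))
    have h2 : w * x = (w * x * w⁻¹ * x⁻¹) * (x * w) := by group
    rw [h2, h1, one_mul]
  obtain ⟨n, hn1⟩ := hP ⟨w, hQP hw⟩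
  have hn2 : w ^ l ^ n = 1 := by simpa using congrArg Subtype.val hn1
  have hFl : Fact l.Prime := ⟨hl⟩
  -- the order of `w` is `l^(k+1)`
  obtain ⟨k, hk, hk2⟩ := (Nat.dvd_prime_pow hl).1 (orderOf_dvd_of_pow_eq_one hn2)
  rcases k with _ | k
  · rw [pow_zero, orderOf_eq_one_iff] at hk2
    exact absurd hk2 hw1
  · refine ⟨w ^ l ^ k, Q.pow_mem hw _, ?_, ?_, ?_⟩
    · intro h
      have h1 := orderOf_dvd_of_pow_eq_one h
      rw [hk2] at h1
      have h2 := (Nat.pow_dvd_pow_iff_le_right hl.one_lt).1 h1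
      omega
    · rw [← pow_mul, ← pow_succ, ← hk2, pow_orderOf_eq_one]
    · intro x hx
      have : Commute w x := hwc x hx
      exact this.pow_left _

/-- A `3`-group normalised by the abelian Sylow subgroup `R` with `⁅U, R⁆ = U` is trivial. -/
theorem three_trivial [Finite H] {U R P : Subgroup H} (hU : IsPGroup 3 U) (hR : SylIn 3 ⊤ R)
    (hab : ∀ x ∈ R, ∀ y ∈ R, x * y = y * x) (hRU : Nrm R U) (hUR : ⁅U, R⁆ = U) :
    ¬ NtOn U P := by
  have hF : Fact (Nat.Prime 3) := ⟨Nat.prime_three⟩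
  have hle : U ≤ R := by
    have h1 : R ≤ Subgroup.normalizer (U : Set H) := by
      intro r hr
      rw [Subgroup.mem_normalizer_iff]
      intro y
      exact (hRU.conj_iff hr y).symm
    have h2 : IsPGroup 3 (R ⊔ U : Subgroup H) := IsPGroup.to_sup_of_normal_right' hR.2.1 hU h1
    have h3 : (R ⊔ U : Subgroup H) = R := by
      refine le_antisymm ?_ le_sup_left
      rw [← Subgroup.relIndex_eq_one]
      obtain ⟨n, hn⟩ := IsPGroup.iff_card.1 h2
      have h4 : R.relIndex (R ⊔ U) ∣ 3 ^ n := by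
        rw [← hn]; exact Subgroup.relIndex_dvd_card R _
      obtain ⟨k, _, hk⟩ := (Nat.dvd_prime_pow Nat.prime_three).1 h4
      rcases k with _ | k
      · rw [hk, pow_zero]
      · exfalso
        apply hR.2.2
        rw [Subgroup.relIndex_top_right, ← Subgroup.relIndex_mul_index (le_sup_left : R ≤ R ⊔ U), hk]
        exact dvd_mul_of_dvd_left (dvd_pow_self 3 (by omega)) _
    exact le_sup_right.trans h3.le
  rintro ⟨x, hx, y, hy, hne⟩
  apply hne
  have h1 : U = ⊥ := by
    rw [← hUR, Subgroup.commutator_eq_bot_iff_le_centralizer]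
    intro u hu
    rw [Subgroup.mem_centralizer_iff]
    intro r hr
    exact hab r hr u (hle hu)
  rw [h1, Subgroup.mem_bot] at hx
  rw [hx, one_mul, mul_one]

/-- From `s x s⁻¹ x⁻¹` centralising `P`. -/
theorem cent_of_comm {U R P : Subgroup H} (hUR : ⁅U, R⁆ = U)
    (h : ∀ s ∈ R, ∀ x ∈ U, ∀ y ∈ P, (s * x * s⁻¹ * x⁻¹) * y = y * (s * x * s⁻¹ * x⁻¹)) :
    ¬ NtOn U P := by
  apply not_NtOn
  rw [← hUR, Subgroup.commutator_le]
  intro x hx s hs
  rw [commutatorElement_def]
  have e : x * s * x⁻¹ * s⁻¹ = (s * x * s⁻¹ * x⁻¹)⁻¹ := by group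
  rw [e]
  refine Subgroup.inv_mem _ ?_
  rw [Subgroup.mem_centralizer_iff]
  intro y hy
  exact (h s hs x hx y hy).symm

theorem exists_nat_pow [Finite H] (a : ℤ) : ∃ n : ℕ, ∀ x : H, x ^ a = x ^ n := by
  refine ⟨(a % (Nat.card H : ℤ)).toNat, fun x => ?_⟩
  have h0 : (Nat.card H : ℤ) ≠ 0 := by
    have := Nat.card_pos (α := H)
    omega
  rw [← zpow_natCast x, Int.toNat_of_nonneg (Int.emod_nonneg _ h0), zpow_mod_natCard]

end

end TGAM

open TGAM GAM in
/-- **TGA** -/
theorem specTGA (hTCP : SpecTCP) (hTSE : SpecTSE) (hTOD : SpecTOD) (hL3R : SpecL3R) :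
    SpecTGA := by
  intro H X _ _ _ p C T hTS v R hv h3T hR hR2 hall l hl hl2 hbad hcyc
  have hfinH := hTS.finH
  have hfinX := hTS.finX
  have hCn := hTS.nor
  obtain ⟨t, ht, htl, U, hU, hUD, hRU, hUR, hNt⟩ := hbad
  have hcop := hTCP H X p C T hTS
  have hsem := hTSE H X p C T hTS
  have hodd := hTOD H X p C T hTS
  have hOn : ∀ q, q.Prime → (Oc q C).Normal := fun q hq =>
    ⟨fun n hn g => (specOCF H q hq C).2.2.1 g (fun n hn => hCn.conj_mem n hn g) n hn⟩
  have hPn := hOn l hl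
  have hPl : IsPGroup l (Oc l C) := (specOCF H l hl C).2.1
  have hF : ∀ q, q.Prime → Oc q C ≤ Fit C := fun q hq => le_sSup ⟨q, hq, rfl⟩
  have hFn : ∀ g : H, ∀ k ∈ Fit C, g * k * g⁻¹ ∈ Fit C := fun g =>
    (specFTF specOCF H C).2.1 g (fun n hn => hCn.conj_mem n hn g)
  have hFq : ∀ q, q.Prime → ∀ x ∈ Fit C, LE q x → x ∈ Oc q C := (specFTF specOCF H C).2.2.1
  set B := Stb (Fit C) v with hB
  have hRB : ∀ x ∈ R, ∀ b ∈ B, x * b = b * x := (hcop v 3 R hv h3T hR).2
  have h3F : ¬ 3 ∣ Nat.card (Fit C) := (hcop v 3 R hv h3T hR).1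
  have hRP : NtOn R (Oc l C) := by
    by_contra h
    exact comm_cent hUR h hNt
  obtain ⟨hQab, hQP, hQne, hQn, hQB, hStQ, hCR, hpw, hcycCK⟩ :=
    hodd v 3 R hv h3T hR (by norm_num) l hl hl2 hRP
  obtain ⟨a, haQ, ha1, hal, haP⟩ := exists_cen hl hPl hQP hQn hQne
  have hFl : Fact l.Prime := ⟨hl⟩
  have horda : orderOf a = l := orderOf_eq_prime hal ha1
  have hl3 : l ≠ 3 := by
    intro h
    apply h3F
    rw [← h, ← horda]
    exact Subgroup.orderOf_dvd_natCard _ (hF l hl (hQP haQ))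
  have hRp : IsPGroup 3 R := hR.1.2.1
  have hRab := hR.2.2.1
  have ht3 : t ≠ 3 := by
    rintro rfl
    exact three_trivial hU hR.1 hRab hRU hUR hNt
  have hnP : ∀ K : Subgroup H, Nrm K (Oc l C) := fun K s _ y hy => hPn.conj_mem y hy s
  have ht2 : t = 2 := by
    by_contra h2
    refine (cent_of_comm (P := Oc l C) hUR ?_) hNt
    intro s hs x hx y hy
    obtain ⟨a', ha'⟩ := (hpw s hs).1
    obtain ⟨k, hk⟩ := hRp ⟨s, hs⟩
    have hk' : s ^ 3 ^ k = 1 := by simpa using congrArg Subtype.val hk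
    obtain ⟨m, _, hm⟩ := (Nat.dvd_prime_pow Nat.prime_three).1 (orderOf_dvd_of_pow_eq_one hk')
    refine ratio_P hl ht htl hPl hU (hnP U) (ρ := s) (fun y hy => hPn.conj_mem y hy s)
      (fun x hx => hRU s hs x hx) ?_ ?_ ?_ (Or.inl h2) a' ?_ x hx y hy
    · rw [hm]; exact Odd.pow (by decide)
    · rw [hm]
      intro h
      exact ht3 ((Nat.prime_dvd_prime_iff_eq ht Nat.prime_three).1 (ht.dvd_of_dvd_pow h))
    · rw [hm]
      intro h
      exact hl3 ((Nat.prime_dvd_prime_iff_eq hl Nat.prime_three).1 (hl.dvd_of_dvd_pow h))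
    · intro x hx
      obtain ⟨q, hq, b, hb, hxe⟩ := hQB x hx
      refine ⟨q, hQP hq, b, hb.1, hxe, ?_, ?_⟩
      · exact ha' q hq
      · rw [hRB s hs b ⟨hF l hl hb.1, hb.2⟩, mul_inv_cancel_right]
  subst ht2
  have hne : ∃ x ∈ U, ∃ s ∈ R, ∃ y ∈ Oc l C,
      s * x * s⁻¹ * x⁻¹ * y ≠ y * (s * x * s⁻¹ * x⁻¹) := by
    by_contra hcon
    push Not at hcon
    exact (cent_of_comm (P := Oc l C) hUR (fun s hs x hx y hy => hcon x hx s hs y hy)) hNt
  obtain ⟨j, hjU, hjR, hjQ⟩ := hL3R H l hl hl2 hl3 (Oc l C) U R hPl hU hRp (hnP R) (hnP U)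
    hRU hcyc hne
  have haB : ∀ b ∈ B, a * b = b * a := by
    have h1 : B ≤ Subgroup.centralizer {a} := by
      refine le_of_primary ?_
      intro q hq x hx hxq
      have hxO := hFq q hq x hx.1 hxq
      rw [Subgroup.mem_centralizer_iff]
      intro y hy
      rw [Set.mem_singleton_iff.1 hy]
      by_cases hql : q = l
      · rw [hql] at hxO
        exact haP x hxO
      · exact ((specOCF H q hq C).2.2.2.2.2 l hl (Ne.symm hql) x hxO a (hQP haQ)).symm
    intro b hb
    exact Subgroup.mem_centralizer_iff.1 (h1 hb) a rfl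
  have hjB : ∀ b ∈ B, j * b * j⁻¹ ∈ B := by
    have h1 : B ≤ B.comap (MulAut.conj j).toMonoidHom := by
      refine le_of_primary ?_
      intro q hq x hx hxq
      have hxO := hFq q hq x hx.1 hxq
      change j * x * j⁻¹ ∈ B
      by_cases hNq : NtOn R (Oc q C)
      · have hq2 : q ≠ 2 := by
          rintro rfl
          exact hR2 hNq
        have hq' := (hodd v 3 R hv h3T hR (by norm_num) q hq hq2 hNq).2.2.2.2.2.2.1
        refine ⟨hFn j x hx.1, ?_⟩
        refine hq' _ ((hOn q hq).conj_mem x hxO j) ?_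
        intro s hs
        have e1 := hjR s hs
        have e2 := hRB s hs x hx
        have c1 : Commute s j := e1.symm
        have c2 : Commute s x := e2
        exact ((c1.mul_right c2).mul_right c1.inv_right)
      · have hn := comm_cent (P := Oc q C) (hP := hOn q hq) hUR hNq
        have h2 : j * x = x * j := by
          by_contra h3
          exact hn ⟨j, hjU, x, hxO, h3⟩
        rw [h2, mul_inv_cancel_right]
        exact hx
    exact fun b hb => h1 hb
  obtain ⟨s, hs, y0, hy0, hsy⟩ := hRP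
  obtain ⟨a', ha'l, ha'⟩ := (hpw s hs).2 ⟨y0, hy0, hsy⟩
  obtain ⟨k, hk⟩ := exists_nat_pow (H := H) a'
  refine gam_core (X := X) hTS.pp ?_ hTS.px hl hl2 (P := Oc l C) (B := B) (Q := ⁅Oc l C, R⁆)
    hPn hQP hcyc ?_ ?_ haQ ha1 hal haB ?_ ?_ (v0 := v) (fun b hb => hb.2) hv.1 (T0 := R)
    ⟨hR.1, hR.2.2.2.1, hR.2.2.2.2, hRB⟩ hs (k := k) (by rw [ha' a haQ, hk]) ?_ hjB (hjQ a haQ)
  · rintro rfl
    exact hTS.pn (hTS.tp 3 h3T).2
  · intro x hx hxB
    have h1 : x ∈ Stb ⁅Oc l C, R⁆ v := ⟨hx, hxB.2⟩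
    rw [hStQ, Subgroup.mem_bot] at h1
    exact h1
  · intro x hx
    obtain ⟨q, hq, b, hb, hxe⟩ := hQB x hx
    exact ⟨q, hq, b, ⟨hF l hl hb.1, hb.2⟩, hxe⟩
  · intro n y hy hy0 hfix
    have hNz : a ^ n ∈ Nz (Oc l C) (Stb (Oc l C) v) := by
      have hcomm : ∀ b ∈ Oc l C, a ^ n * b * (a ^ n)⁻¹ = b := by
        intro b hb
        have : Commute a b := haP b hb
        rw [(this.pow_left n).eq, mul_inv_cancel_right]
      refine ⟨(Oc l C).pow_mem (hQP haQ) n, fun b => ?_⟩
      constructor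
      · intro hb
        rw [hcomm b hb.1]
        exact hb
      · intro hb
        have hbP : b ∈ Oc l C := by
          have h1 := hPn.conj_mem _ hb.1 (a ^ n)⁻¹
          have h2 : (a ^ n)⁻¹ * (a ^ n * b * (a ^ n)⁻¹) * (a ^ n)⁻¹⁻¹ = b := by group
          rwa [h2] at h1
        rw [hcomm b hbP] at hb
        exact hb
    have h1 := (((hsem v hv y hy).2 l hl).2 (a ^ n) hNz).2 hy0 hfix
    exact ⟨hF l hl h1.1, h1.2⟩
  · intro y hy hy0
    obtain ⟨R', hR'⟩ := hall y hy hy0
    obtain ⟨hext, hst⟩ := (hsem v hv y hy).1 hy0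
    refine ⟨R', hR'.1, hR'.2.2.2.1, hR'.2.2.2.2, ?_⟩
    intro t ht b hb
    refine (hcop y 3 R' hext h3T hR').2 t ht b ?_
    rw [hst]
    exact hb
  · intro h
    have h1 : s * a * s⁻¹ = a := by rw [h, mul_inv_cancel_right]
    rw [ha' a haQ] at h1
    have h2 : a ^ (a' - 1) = 1 := by rw [zpow_sub_one, h1, mul_inv_cancel]
    have h3 := orderOf_dvd_iff_zpow_eq_one.2 h2
    rw [horda] at h3
    exact ha'l h3

end Pool.Agent.Lib.MPbe1941.X
end

section
/-!
# MP_be1941_al, exact bound: `SpecL3R`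
-/
set_option autoImplicit false

namespace Pool.Agent.Lib.MPbe1941.X

open scoped commutatorElement

theorem specL3R : SpecL3R := by
  intro G _ _ l hl hl2 hl3 P T S hP hT hS hSP hTP hST hcyc hne
  refine l3r hl hl2 hl3 hP hT hS hSP hTP hST ?_ hne
  obtain ⟨q, hq⟩ := hcyc.exists_generator
  refine ⟨q, fun y hy => ?_⟩
  obtain ⟨n, hn⟩ := Subgroup.mem_zpowers_iff.1 (hq ⟨y, hy⟩)
  exact Subgroup.mem_zpowers_iff.2 ⟨n, congrArg Subtype.val hn⟩

end Pool.Agent.Lib.MPbe1941.X
end

section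
/-!
# MP_be1941_al (exact bound): TGA with the reflection lemma
-/
set_option autoImplicit false

namespace Pool.Agent.Lib.MPbe1941.X

/-- TGA from the interface modules. -/
theorem topTGA (hTCP : SpecTCP) (hTSE : SpecTSE) (hTOD : SpecTOD) : SpecTGA :=
  specTGA hTCP hTSE hTOD specL3R

end Pool.Agent.Lib.MPbe1941.X
end
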