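import Pool.Agent.Lib.MP_be1941_al.X.SpecT1B
import Pool.Agent.Lib.MP_be1941_al.X.PSB
import Pool.Agent.Lib.MP_be1941_al.X.SPR
import Pool.Agent.Lib.MP_be1941_al.X.FRT

section
/-!
# Module TG5: the primes `≥ 5` are good, and `3` is good if `2 ∈ M(w)` for some `w ≠ 0`
-/
set_option autoImplicit false

namespace Pool.Agent.Lib.MPbe1941.X

open Pool.Agent.Lib.MPbe1941

namespace TG5M

open PDAM

/-- `3` is good if `P_2 = 1` and the Sylow `2`-subgroups of `H` are abelian. -/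
theorem good3 (hPSB : SpecPSB) (hPCC : SpecPCC) (hPDG : SpecPDG) (hRAT : SpecRAT)
    (hRLO : SpecRLO) (S : PS) (w : S.W) (hw : S.Ext w) (T : Subgroup S.H) (hT : S.Pr w 3 T)
    (hP2 : S.P 2 = ⊥) (T₂ : Subgroup S.H) (hT₂ : SylIn 2 ⊤ T₂)
    (hT₂ab : ∀ x ∈ T₂, ∀ y ∈ T₂, x * y = y * x) : S.Good w 3 T := by
  obtain ⟨hr, hMi, hNt⟩ := hT
  obtain ⟨-, -, -, hP, -⟩ := hPSB S
  obtain ⟨hsyl, hTC, hTab, hTw, hTn⟩ := hMi
  have hr2 : (3 : ℕ) ≠ 2 := by norm_num
  have hMi' : S.Mi w 3 T := ⟨hsyl, hTC, hTab, hTw, hTn⟩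
  have hcc := hPCC S w hw 3 T hr hr2 hMi'
  refine hPDG S w 3 T hw.1 ⟨hr, hMi', hNt⟩ hr2 ?_ ?_
  · intro t ht g hg
    rw [hP2, Subgroup.mem_bot] at hg
    rw [hg, one_mul, mul_one]
  · intro l t hl hl2 hlr ht htl T₁ hT₁ hsT s hs x hx
    by_cases hcp : S.CP l s
    · exact cp_comm (hP l hl).1 hcp x
    obtain ⟨a, Q, hQP, hQc, hQab, hQa, -⟩ := (hcc s hs).1 l hl hl2 hcp
    by_cases htr : t = 3
    · subst htr
      obtain ⟨-, -, -, -, hnd, -⟩ := hRLO S.H S.sol 3 T ht hsyl hTab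
      have h1 : x = 1 := by
        have : Fact (Nat.Prime 3) := ⟨ht⟩
        obtain ⟨k, hk⟩ := (IsPGroup.iff_card (p := 3) (G := T₁)).1 hT₁.2.1
        have h2 : Nat.card T₁ ∣ Nat.card (Dr S.H 3) := Subgroup.card_dvd_of_le hT₁.1
        have h3 : k = 0 := by
          by_contra hk0
          apply hnd
          refine Dvd.dvd.trans ?_ h2
          rw [hk]
          exact dvd_pow_self 3 hk0
        rw [h3, pow_zero] at hk
        have h4 : T₁ = ⊥ := Subgroup.card_eq_one.1 hk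
        rw [h4, Subgroup.mem_bot] at hx
        exact hx
      rw [h1]
      have : s * 1 * s⁻¹ * 1⁻¹ = (1 : S.H) := by group
      rw [this]
      exact cp_one
    · have hPn := (hP l hl).1
      have key := hRAT S.G l t (S.P l) (T₁.map S.phi) (S.phi s) a hl hl2 ht htl (hP l hl).2.1
        (hT₁.2.1.map S.phi) (fun x hx => hPn.conj_mem x hx _) (fun g _ x hx => hPn.conj_mem x hx _)
        ?_ (not_dvd_order hr Nat.prime_two hr2.symm hsyl.2.1 hs)
        (not_dvd_order hr ht htr hsyl.2.1 hs) (not_dvd_order hr hl hlr hsyl.2.1 hs) ?_ ?_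
      · intro g hg
        have := key (S.phi x) (Subgroup.mem_map_of_mem _ hx) g hg
        rw [map_mul, map_mul, map_mul, map_inv, map_inv]
        exact this
      · rintro g ⟨y, hy, rfl⟩
        exact ⟨s * y * s⁻¹, hsT s hs y hy, by rw [map_mul, map_mul, map_inv]⟩
      · intro y hy
        have : S.phi s * y * (S.phi s)⁻¹ * y⁻¹ ∈ Q := by
          rw [hQc]
          exact Subgroup.subset_closure ⟨y, hy, rfl⟩
        exact hQa _ this
      · by_cases ht2 : t = 2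
        · right
          right
          subst ht2
          obtain ⟨-, hex, hcj, -⟩ := CO.specSYL S.H 2 Nat.prime_two
          obtain ⟨R, hR, hTR⟩ := hex ⊤ T₁ le_top hT₁.2.1
          obtain ⟨c, -, hc⟩ := hcj ⊤ T₂ R hT₂ hR
          rintro g ⟨y, hy, rfl⟩ h ⟨z, hz, rfl⟩
          have h1 := hT₂ab _ ((hc y).1 (hTR hy)) _ ((hc z).1 (hTR hz))
          have h2 : y * z = z * y := by
            have e1 : y * z = c * (c⁻¹ * y * c * (c⁻¹ * z * c)) * c⁻¹ := by group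
            have e2 : z * y = c * (c⁻¹ * z * c * (c⁻¹ * y * c)) * c⁻¹ := by group
            rw [e1, e2, h1]
          have h3 : S.phi (y * z) = S.phi (z * y) := by rw [h2]
          rw [map_mul, map_mul] at h3
          exact h3
        · left
          exact ht2

end TG5M

theorem specTG5 (hTPS : SpecTPS) (hPDA : SpecPDA) (hPSB : SpecPSB) (hPAA : SpecPAA)
    (hPCC : SpecPCC) (hPDG : SpecPDG) (hRAT : SpecRAT) (hRLO : SpecRLO) : SpecTG5 := by
  intro H X _ _ _ p C T h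
  obtain ⟨-, -, hE, hMi, hPr, hGd, -⟩ := hTPS H X p C T h
  refine ⟨?_, ?_⟩
  · intro v r R hv hr hM h5
    exact (hGd v r R hr).1 (hPDA h.ps v ((hE v).2 hv) r R ((hPr v r R hr).2 hM) (Or.inl h5))
  · intro v w R U hv hw h3 hM hU
    have h2 : h.ps.P 2 = ⊥ := (hPAA h.ps w 2 U hw Nat.prime_two ((hMi w 2 U).2 hU)).2.1
    exact (hGd v 3 R h3).1 (TG5M.good3 hPSB hPCC hPDG hRAT hRLO h.ps v ((hE v).2 hv) R
      ((hPr v 3 R h3).2 hM) h2 U hU.1 hU.2.2.1)

end Pool.Agent.Lib.MPbe1941.X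
end

section
/-!
# MP_be1941_al EXACT, block T1, module TNV
-/
set_option autoImplicit false

namespace Pool.Agent.Lib.MPbe1941.X

open Pool.Agent.Lib.MPbe1941

theorem specTNV (hTPS : SpecTPS) (hPAA : SpecPAA) : SpecTNV := by
  intro H X _ _ _ p C T h v r R hv hr hR
  obtain ⟨-, -, hE, -, hPr, -, hCP⟩ := hTPS H X p C T h
  obtain ⟨hrp, hMi, hNt⟩ := (hPr v r R hr).2 hR
  have hv0 : v ≠ 0 := ((hE v).2 hv).1
  obtain ⟨l, hl, -, t, ht, hct⟩ := (hPAA h.ps v r R hv0 hrp hMi).2.2.2 hNt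
  refine ⟨l, hl, t, ht, ?_⟩
  by_contra hcon
  push Not at hcon
  exact hct ((hCP l t).2 hcon)

end Pool.Agent.Lib.MPbe1941.X
end

section
/-!
# Module TNZ: a Sylow subgroup which is non-trivial on `P_l` is non-trivial on `N_{P_l}(B_l)`
-/
set_option autoImplicit false

namespace Pool.Agent.Lib.MPbe1941.X

open Pool.Agent.Lib.MPbe1941
open Pool.Agent.Lib.MPbe1941.XF
open scoped commutatorElement

theorem specTNZ (hTCP : SpecTCP) (hTHO : SpecTHO) (hOCF : SpecOCF) : SpecTNZ := by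
  intro H X _ _ _ p C T h v r R hv hrT hM l hl hnt
  have hfin : Finite H := h.finH
  have hr : r.Prime := (h.tp r hrT).1
  obtain ⟨hcop, hcen⟩ := hTCP H X p C T h v r R hv hrT hM
  obtain ⟨-, hOp, hOn, -, -, -⟩ := hOCF H l hl C
  have hconj : ∀ g : H, ∀ k ∈ Oc l C, g * k * g⁻¹ ∈ Oc l C := fun g k hk =>
    hOn g (fun n hn => h.nor.conj_mem n hn g) k hk
  have hle : Oc l C ≤ Fit C := le_sSup ⟨l, hl, rfl⟩
  have hRp : IsPGroup r R := hM.1.2.1
  have hlr : l ≠ r := by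
    intro hlr
    subst hlr
    obtain ⟨x, hx, y, hy, hxy⟩ := hnt
    have hFl : Fact l.Prime := ⟨hl⟩
    obtain ⟨k, hk⟩ := (IsPGroup.iff_card (p := l) (G := Oc l C)).1 hOp
    apply hcop
    refine Dvd.dvd.trans ?_ (Subgroup.card_dvd_of_le hle)
    rw [hk]
    refine dvd_pow_self l ?_
    intro hk0
    rw [hk0, pow_zero] at hk
    have := Subgroup.card_eq_one.1 hk
    rw [this, Subgroup.mem_bot] at hy
    apply hxy
    rw [hy, mul_one, one_mul]
  have hord : ∀ {x y : H}, x ∈ R → y ∈ Oc l C → (orderOf x).Coprime (orderOf y) := by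
    intro x y hx hy
    obtain ⟨n, hn⟩ := hRp ⟨x, hx⟩
    obtain ⟨m, hm⟩ := hOp ⟨y, hy⟩
    have h1 : orderOf x ∣ r ^ n := orderOf_dvd_of_pow_eq_one (congrArg Subtype.val hn)
    have h2 : orderOf y ∣ l ^ m := orderOf_dvd_of_pow_eq_one (congrArg Subtype.val hm)
    exact Nat.Coprime.coprime_dvd_left h1 (Nat.Coprime.coprime_dvd_right h2
      (Nat.Coprime.pow _ _ ((Nat.coprime_primes hr hl).2 hlr.symm)))
  have hcenB : ∀ x ∈ R, ∀ b ∈ Stb (Oc l C) v, x * b = b * x := fun x hx b hb =>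
    hcen x hx b ⟨hle hb.1, hb.2⟩
  by_contra hcon
  push Not at hcon
  have hN : ∀ x ∈ R, ∀ n ∈ Nz (Oc l C) (Stb (Oc l C) v), x * n = n * x := by
    intro x hx n hn
    have h1 : (x * n * x⁻¹) • v = n • v := hcon x hx n hn v fun b hb => hb.2
    have hb : n⁻¹ * (x * n * x⁻¹) ∈ Stb (Oc l C) v := by
      refine ⟨(Oc l C).mul_mem ((Oc l C).inv_mem hn.1) (hconj x n hn.1), ?_⟩
      rw [mul_smul, h1, inv_smul_smul]
    have h2 : x * n⁻¹ * x⁻¹ = (n⁻¹ * (x * n * x⁻¹))⁻¹ * n⁻¹ := by group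
    have h3 : x * (n⁻¹ * (x * n * x⁻¹))⁻¹ = (n⁻¹ * (x * n * x⁻¹))⁻¹ * x :=
      hcenB x hx _ ((Stb (Oc l C) v).inv_mem hb)
    have h4 := comm_eq_one h2 h3 (hord hx ((Oc l C).inv_mem hb.1))
    have h5 : x * n * x⁻¹ = n := by
      have : n⁻¹ * (x * n * x⁻¹) = 1 := inv_eq_one.1 h4
      calc x * n * x⁻¹ = n * (n⁻¹ * (x * n * x⁻¹)) := by group
        _ = n := by rw [this, mul_one]
    calc x * n = x * n * x⁻¹ * x := by group
      _ = n * x := by rw [h5]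
  have hBp : IsPGroup l (Stb (Oc l C) v) := hOp.to_le fun b hb => hb.1
  have hdv : ¬ l ∣ Nat.card R := by
    have hFr : Fact r.Prime := ⟨hr⟩
    obtain ⟨k, hk⟩ := (IsPGroup.iff_card (p := r) (G := R)).1 hRp
    rw [hk]
    intro hd
    exact hlr ((Nat.prime_dvd_prime_iff_eq hl hr).1 (hl.dvd_of_dvd_pow hd))
  have key := hTHO H l (Oc l C) R (Stb (Oc l C) v) hl hOp hBp hdv
    (fun a _ x hx => hconj a x hx) (fun b _ x hx => hconj b x hx) hcenB ?_
  · obtain ⟨x, hx, y, hy, hxy⟩ := hnt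
    exact hxy (key x hx y hy)
  · intro a ha x hx hxB
    refine hN a ha x ⟨hx, fun b => ?_⟩
    constructor
    · intro hb
      have : x * b * x⁻¹ = b := by rw [← hxB b hb, mul_inv_cancel_right]
      rwa [this]
    · intro hb
      have h1 := hxB _ hb
      have h2 : x * b * x⁻¹ = b := by
        have h3 : x * (b * x⁻¹ * x) = x * (x * b * x⁻¹) := by
          calc x * (b * x⁻¹ * x) = x * b * x⁻¹ * x := by group
            _ = x * (x * b * x⁻¹) := h1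
        have h4 := mul_left_cancel h3
        calc x * b * x⁻¹ = b * x⁻¹ * x := h4.symm
          _ = b := by group
      rwa [h2] at hb

end Pool.Agent.Lib.MPbe1941.X
end

section
/-!
# Module TSM: `[P_l, S_r]` does not depend on the odd prime `r ∈ M(v)`
-/
set_option autoImplicit false

namespace Pool.Agent.Lib.MPbe1941.X

open Pool.Agent.Lib.MPbe1941
open Pool.Agent.Lib.MPbe1941.XF

namespace TSMM

/-- `[P_l, φ(T)]` is the group `Q` of every `t ∈ T` which is non-trivial on `P_l`. -/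
theorem comm_eq (hPCC : SpecPCC) (hPCG : SpecPCG) (S : PS) (w : S.W) (hw : S.Ext w) (r : ℕ)
    (T : Subgroup S.H) (hr : r.Prime) (hr2 : r ≠ 2) (hM : S.Mi w r T) (l : ℕ) (hl : l.Prime)
    (hl2 : l ≠ 2) (t : S.H) (ht : t ∈ T) (a : ℤ) (Q : Subgroup S.G) (hQ : S.Pow w l t a Q) :
    ⁅S.P l, T.map S.phi⁆ = Q := by
  apply le_antisymm
  · rw [Subgroup.commutator_le]
    rintro x hx y ⟨s, hs, rfl⟩
    rw [commutatorElement_def]
    by_cases hcp : S.CP l s
    · have h1 := hcp x hx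
      have h2 : x * S.phi s * x⁻¹ * (S.phi s)⁻¹ = 1 := by
        rw [← h1]
        group
      rw [h2]
      exact Q.one_mem
    · obtain ⟨a', Q', hQ'⟩ := (hPCC S w hw r T hr hr2 hM s hs).1 l hl hl2 hcp
      have hQQ : Q = Q' :=
        (hPCG S w hw r r T T hr hr2 hr hr2 hM hM t ht s hs).2 l hl hl2 a Q a' Q' hQ hQ'
      rw [hQQ]
      have h3 : S.phi s * x * (S.phi s)⁻¹ * x⁻¹ ∈ Q' := by
        rw [hQ'.2.1]
        exact Subgroup.subset_closure ⟨x, hx, rfl⟩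
      have h4 : (S.phi s * x * (S.phi s)⁻¹ * x⁻¹)⁻¹ = x * S.phi s * x⁻¹ * (S.phi s)⁻¹ := by group
      rw [← h4]
      exact Q'.inv_mem h3
  · rw [hQ.2.1, Subgroup.closure_le]
    rintro y ⟨x, hx, rfl⟩
    have h1 := Subgroup.commutator_mem_commutator hx (Subgroup.mem_map_of_mem S.phi ht)
    rw [commutatorElement_def] at h1
    have h4 : (x * S.phi t * x⁻¹ * (S.phi t)⁻¹)⁻¹ = S.phi t * x * (S.phi t)⁻¹ * x⁻¹ := by group
    have h5 := Subgroup.inv_mem _ h1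
    rw [h4] at h5
    exact h5

theorem same (hPCC : SpecPCC) (hPCG : SpecPCG) (S : PS) (w : S.W) (hw : S.Ext w) (r r' : ℕ)
    (T T' : Subgroup S.H) (hr : r.Prime) (hr2 : r ≠ 2) (hM : S.Mi w r T) (hr' : r'.Prime)
    (hr2' : r' ≠ 2) (hM' : S.Mi w r' T') (l : ℕ) (hl : l.Prime) (hl2 : l ≠ 2)
    (ht : ∃ t ∈ T, ¬ S.CP l t) (ht' : ∃ t ∈ T', ¬ S.CP l t) :
    ⁅S.P l, T.map S.phi⁆ = ⁅S.P l, T'.map S.phi⁆ := by
  obtain ⟨t, ht, hcp⟩ := ht
  obtain ⟨t', ht', hcp'⟩ := ht'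
  obtain ⟨a, Q, hQ⟩ := (hPCC S w hw r T hr hr2 hM t ht).1 l hl hl2 hcp
  obtain ⟨a', Q', hQ'⟩ := (hPCC S w hw r' T' hr' hr2' hM' t' ht').1 l hl hl2 hcp'
  rw [comm_eq hPCC hPCG S w hw r T hr hr2 hM l hl hl2 t ht a Q hQ,
    comm_eq hPCC hPCG S w hw r' T' hr' hr2' hM' l hl hl2 t' ht' a' Q' hQ']
  exact (hPCG S w hw r r' T T' hr hr2 hr' hr2' hM hM' t ht t' ht').2 l hl hl2 a Q a' Q' hQ hQ'

end TSMM

theorem specTSM (hTPS : SpecTPS) (hPCC : SpecPCC) (hPCG : SpecPCG) : SpecTSM := by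
  intro H X _ _ _ p C T h v r r' R R' hv hr hr' hM hM' hr2 hr2' l hl hl2 hN hN'
  have hps := hTPS H X p C T h
  have hP := hps.1 l
  have hCP := hps.2.2.2.2.2.2
  have n1 : ∃ t ∈ R, ¬ h.ps.CP l t := by
    obtain ⟨x, hx, y, hy, hne⟩ := hN
    exact ⟨x, hx, fun hc => hne ((hCP l x).1 hc y hy)⟩
  have n2 : ∃ t ∈ R', ¬ h.ps.CP l t := by
    obtain ⟨x, hx, y, hy, hne⟩ := hN'
    exact ⟨x, hx, fun hc => hne ((hCP l x).1 hc y hy)⟩
  have key := TSMM.same hPCC hPCG h.ps v ((hps.2.2.1 v).2 hv) r r' R R' (h.tp r hr).1 hr2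
    ((hps.2.2.2.1 v r R).2 hM) (h.tp r' hr').1 hr2' ((hps.2.2.2.1 v r' R').2 hM') l hl hl2 n1 n2
  rw [hP] at key
  have key' : ⁅Oc l C, R.map (MonoidHom.id H)⁆ = ⁅Oc l C, R'.map (MonoidHom.id H)⁆ := key
  rwa [Subgroup.map_id, Subgroup.map_id] at key'

end Pool.Agent.Lib.MPbe1941.X
end

section
/-!
# MP_be1941_al EXACT, block T1, module TOD: the odd places of an odd prime of `M(v)`
-/
set_option autoImplicit false

namespace Pool.Agent.Lib.MPbe1941.X

open Pool.Agent.Lib.MPbe1941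
open Pool.Agent.Lib.MPbe1941.XF
open scoped commutatorElement

namespace TODM

/-- `Q B = {q b}` if `B` normalises `Q`. -/
theorem mem_sup_nrm {G : Type} [Group G] {Q B : Subgroup G}
    (hn : ∀ b ∈ B, ∀ q ∈ Q, b * q * b⁻¹ ∈ Q) {x : G} (hx : x ∈ Q ⊔ B) :
    ∃ q ∈ Q, ∃ b ∈ B, x = q * b := by
  let T : Subgroup G :=
    { carrier := {x | ∃ q ∈ Q, ∃ b ∈ B, x = q * b}
      one_mem' := ⟨1, Q.one_mem, 1, B.one_mem, by simp⟩
      mul_mem' := by
        rintro _ _ ⟨q, hq, b, hb, rfl⟩ ⟨q', hq', b', hb', rfl⟩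
        refine ⟨q * (b * q' * b⁻¹), Q.mul_mem hq (hn b hb q' hq'), b * b', B.mul_mem hb hb', ?_⟩
        group
      inv_mem' := by
        rintro _ ⟨q, hq, b, hb, rfl⟩
        refine ⟨b⁻¹ * q⁻¹ * b⁻¹⁻¹, hn _ (B.inv_mem hb) _ (Q.inv_mem hq), b⁻¹, B.inv_mem hb, ?_⟩
        group }
  have hle : Q ⊔ B ≤ T :=
    sup_le (fun q hq => ⟨q, hq, 1, B.one_mem, by simp⟩) (fun b hb => ⟨1, Q.one_mem, b, hb, by simp⟩)
  exact hle hx

/-- the facts of `Pow` for `[P_l, R]` -/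
theorem facts (hTPS : SpecTPS) (hPCC : SpecPCC) (hPCG : SpecPCG) {H X : Type} [Group H]
    [AddCommGroup X] [DistribMulAction H X] {p : ℕ} {C : Subgroup H} {T : Finset ℕ}
    (h : TS H X p C T) {v : X} {r : ℕ} {R : Subgroup H} (hv : ExtV (Fit C) v) (hr : r ∈ T)
    (hM : MiH C v r R) (hr2 : r ≠ 2) {l : ℕ} (hl : l.Prime) (hl2 : l ≠ 2) {s : H} (hs : s ∈ R)
    (hn : ¬ ∀ g ∈ Oc l C, s * g = g * s) :
    ∃ a : ℤ, (∀ x ∈ ⁅Oc l C, R⁆, ∀ y ∈ ⁅Oc l C, R⁆, x * y = y * x) ∧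
      (∀ y ∈ ⁅Oc l C, R⁆, s * y * s⁻¹ = y ^ a) ∧
      ⁅Oc l C, R⁆ ⊓ Stb (Oc l C) v = ⊥ ∧ ⁅Oc l C, R⁆ ⊔ Stb (Oc l C) v = Oc l C ∧
      (∀ x ∈ Oc l C, s * x = x * s → x ∈ Stb (Oc l C) v) ∧ ¬ (l : ℤ) ∣ a - 1 ∧
      (∀ x ∈ Oc l C, ∀ y ∈ ⁅Oc l C, R⁆, x * y * x⁻¹ ∈ ⁅Oc l C, R⁆) ∧
      ∃ c ∈ ⁅Oc l C, R⁆, (∀ b ∈ Stb (Oc l C) v, b * c = c * b) ∧
        ∀ y ∈ ⁅Oc l C, R⁆, (∀ b ∈ Stb (Oc l C) v, b * y = y * b) → ∃ n : ℤ, y = c ^ n := by
  obtain ⟨hP, hF, hExt, hMi, hPr, hGood, hCP⟩ := hTPS H X p C T h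
  have hE : h.ps.Ext v := (hExt v).2 hv
  have hM' : h.ps.Mi v r R := (hMi v r R).2 hM
  have hn' : ¬ h.ps.CP l s := fun h1 => hn ((hCP l s).1 h1)
  obtain ⟨a, Q, hQ⟩ := (hPCC h.ps v hE r R (h.tp r hr).1 hr2 hM' s hs).1 l hl hl2 hn'
  have key := TSMM.comm_eq hPCC hPCG h.ps v hE r R (h.tp r hr).1 hr2 hM' l hl hl2 s hs a Q hQ
  rw [hP l] at key
  have key' : ⁅Oc l C, R.map (MonoidHom.id H)⁆ = Q := key
  rw [Subgroup.map_id] at key'
  have e0 : ∀ P' Q' : Subgroup H, P' = h.ps.P l → Q' = Q →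
      (∀ x ∈ Q', ∀ y ∈ Q', x * y = y * x) ∧ (∀ y ∈ Q', s * y * s⁻¹ = y ^ a) ∧
      Q' ⊓ Stb P' v = ⊥ ∧ Q' ⊔ Stb P' v = P' ∧
      (∀ x ∈ P', s * x = x * s → x ∈ Stb P' v) ∧ ¬ (l : ℤ) ∣ a - 1 ∧
      (∀ x ∈ P', ∀ y ∈ Q', x * y * x⁻¹ ∈ Q') ∧
      ∃ c ∈ Q', (∀ b ∈ Stb P' v, b * c = c * b) ∧
        ∀ y ∈ Q', (∀ b ∈ Stb P' v, b * y = y * b) → ∃ n : ℤ, y = c ^ n := by
    rintro _ _ rfl rfl
    obtain ⟨q1, q2, q3, q4, q5, q6, q7, q8, q9, q10, q11⟩ := hQ
    exact ⟨q3, q4, q5, q6, q7, q8, q10, q11⟩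
  exact ⟨a, e0 _ _ (hP l).symm key'⟩

end TODM

open TODM

theorem specTOD (hTPS : SpecTPS) (hPCC : SpecPCC) (hPCG : SpecPCG) : SpecTOD := by
  intro H X _ _ _ p C T h v r R hv hr hM hr2 l hl hl2 hN
  obtain ⟨x0, hx0, y0, hy0, hne⟩ := hN
  have hn0 : ¬ ∀ g ∈ Oc l C, x0 * g = g * x0 := fun h1 => hne (h1 y0 hy0)
  obtain ⟨a, f1, f2, f3, f4, f5, f6, f7, c, hc, f8, f9⟩ :=
    facts hTPS hPCC hPCG h hv hr hM hr2 hl hl2 hx0 hn0
  have hle : ⁅Oc l C, R⁆ ≤ Oc l C := le_sup_left.trans f4.le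
  refine ⟨f1, hle, ?_, fun x hx y hy => f7 x hx y hy, ?_, ?_, ?_, ?_, ?_⟩
  · intro hbot
    have h1 := Subgroup.commutator_mem_commutator hy0 hx0
    rw [hbot, Subgroup.mem_bot, commutatorElement_def, mul_inv_eq_one, mul_inv_eq_iff_eq_mul] at h1
    exact hne h1.symm
  · intro x hx
    have h1 : x ∈ ⁅Oc l C, R⁆ ⊔ Stb (Oc l C) v := by rw [f4]; exact hx
    have hnb : ∀ b ∈ Stb (Oc l C) v, ∀ q ∈ ⁅Oc l C, R⁆, b * q * b⁻¹ ∈ ⁅Oc l C, R⁆ :=
      fun b hb q hq => f7 b hb.1 q hq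
    exact mem_sup_nrm hnb h1
  · rw [Subgroup.eq_bot_iff_forall]
    intro g hg
    have h1 : g ∈ ⁅Oc l C, R⁆ ⊓ Stb (Oc l C) v := ⟨hg.1, hle hg.1, hg.2⟩
    rw [f3, Subgroup.mem_bot] at h1
    exact h1
  · intro x hx hcom
    exact (f5 x hx (hcom x0 hx0)).2
  · intro s hs
    by_cases hcs : ∀ g ∈ Oc l C, s * g = g * s
    · refine ⟨⟨1, fun q hq => ?_⟩, ?_⟩
      · rw [zpow_one, hcs q (hle hq), mul_inv_cancel_right]
      · rintro ⟨y, hy, hys⟩
        exact absurd (hcs y hy) hys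
    · obtain ⟨b, -, g2, -, -, -, g6, -⟩ := facts hTPS hPCC hPCG h hv hr hM hr2 hl hl2 hs hcs
      exact ⟨⟨b, g2⟩, fun _ => ⟨b, g6, g2⟩⟩
  · have hcm : c ∈ CK ⁅Oc l C, R⁆ (Stb (Oc l C) v) := mem_CK.2 ⟨hc, f8⟩
    refine ⟨⟨⟨c, hcm⟩, ?_⟩⟩
    rintro ⟨y, hy⟩
    obtain ⟨hy1, hy2⟩ := mem_CK.1 hy
    obtain ⟨n, hn⟩ := f9 y hy1 hy2
    exact ⟨n, Subtype.ext (by simpa using hn.symm)⟩

end Pool.Agent.Lib.MPbe1941.X
end

section
/-!
# TTW, group part: a `2`-group with a unique involution and an automorphism of odd order which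
permutes the three cyclic subgroups of order `4` of a quaternion subgroup is this quaternion group
-/
set_option autoImplicit false

namespace Pool.Agent.Lib.MPbe1941.X.TTWM

variable {R : Type*} [Group R]

/-- `g = m` up to `z`. -/
def Ap (z g m : R) : Prop := g = m ∨ g = z * m

theorem Ap.refl (z g : R) : Ap z g g := Or.inl rfl

theorem Ap.symm {z : R} (hzz : z * z = 1) {g m : R} (h : Ap z g m) : Ap z m g := by
  rcases h with h | h
  · exact Or.inl h.symm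
  · right
    rw [h, ← mul_assoc, hzz, one_mul]

theorem Ap.trans {z : R} (hzz : z * z = 1) {a b c : R} (h : Ap z a b) (h' : Ap z b c) :
    Ap z a c := by
  rcases h with h | h <;> rcases h' with h' | h'
  · exact Or.inl (h.trans h')
  · exact Or.inr (h.trans h')
  · right; rw [h, h']
  · left; rw [h, h', ← mul_assoc, hzz, one_mul]

theorem Ap.mul {z : R} (hzz : z * z = 1) (hzc : ∀ x, z * x = x * z) {a b a' b' : R}
    (h : Ap z a a') (h' : Ap z b b') : Ap z (a * b) (a' * b') := by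
  rcases h with h | h <;> rcases h' with h' | h'
  · left; rw [h, h']
  · right; rw [h, h', ← mul_assoc, ← hzc a', mul_assoc]
  · right; rw [h, h', mul_assoc]
  · left
    rw [h, h']
    calc z * a' * (z * b') = z * (a' * z) * b' := by group
      _ = z * (z * a') * b' := by rw [hzc a']
      _ = (z * z) * (a' * b') := by group
      _ = a' * b' := by rw [hzz, one_mul]

theorem Ap.inv {z : R} (hzz : z * z = 1) (hzc : ∀ x, z * x = x * z) {a a' : R}
    (h : Ap z a a') : Ap z a⁻¹ a'⁻¹ := by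
  have hz' : z⁻¹ = z := inv_eq_of_mul_eq_one_left hzz
  rcases h with h | h
  · left; rw [h]
  · right; rw [h, mul_inv_rev, hz', hzc]

/-- `u` maps the class of `q` to the class of `q'`. -/
def Rl (z u q q' : R) : Prop := Ap z (u * q * u⁻¹) q'

theorem Rl.comp {z : R} (hzz : z * z = 1) (hzc : ∀ x, z * x = x * z) {u v q q' q'' : R}
    (h : Rl z v q q') (h' : Rl z u q' q'') : Rl z (u * v) q q'' := by
  have h1 : u * v * q * (u * v)⁻¹ = u * (v * q * v⁻¹) * u⁻¹ := by group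
  rw [Rl, h1]
  refine Ap.trans hzz ?_ h'
  exact Ap.mul hzz hzc (Ap.mul hzz hzc (Ap.refl z u) h) (Ap.refl z _)

/-- The elements which fix the class of `q`. -/
def Fx (z : R) (hzz : z * z = 1) (hzc : ∀ x, z * x = x * z) (q : R) : Subgroup R where
  carrier := {u | Rl z u q q}
  one_mem' := by left; group
  mul_mem' := fun {a b} ha hb => Rl.comp hzz hzc hb ha
  inv_mem' := by
    intro u hu
    have h1 : Rl z u⁻¹ (u * q * u⁻¹) q := by left; group
    have h2 : Ap z (u * q * u⁻¹) q := hu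
    refine Ap.trans hzz ?_ h1
    exact Ap.mul hzz hzc (Ap.mul hzz hzc (Ap.refl z _) (Ap.symm hzz h2)) (Ap.refl z _)

/-- If `t ^ 3` fixes the class of `q`, so does the `2`-element `t`. -/
theorem fx_of_cube {z : R} (hzz : z * z = 1) (hzc : ∀ x, z * x = x * z) {t q : R} {m : ℕ}
    (ht : t ^ 2 ^ m = 1) (h : Rl z (t * t * t) q q) : Rl z t q q := by
  have h1 : t * t * t ∈ Fx z hzz hzc q := h
  have h2 : t ^ 3 ∈ Fx z hzz hzc q := by
    have : t ^ 3 = t * t * t := by rw [pow_succ, pow_two]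
    rw [this]; exact h1
  have hc : Nat.Coprime 3 (2 ^ m) := Nat.Coprime.pow_right m (by norm_num)
  have h3 : t ∈ Subgroup.zpowers (t ^ 3) := by
    have hco : (orderOf t).Coprime 3 := by
      have : orderOf t ∣ 2 ^ m := orderOf_dvd_of_pow_eq_one ht
      exact Nat.Coprime.coprime_dvd_left this hc.symm
    obtain ⟨k, hk⟩ := exists_pow_eq_self_of_coprime hco.symm
    have h5 := (Subgroup.zpowers (t ^ 3)).pow_mem (Subgroup.mem_zpowers (t ^ 3)) k
    rwa [hk] at h5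
  have h4 : t ∈ Fx z hzz hzc q := (Subgroup.zpowers_le.2 h2) h3
  exact h4

/-- The relations of the quaternion group, up to `z`. -/
structure Qd (z x y w : R) : Prop where
  xx : x * x = z
  yy : y * y = z
  ww : w * w = z
  xy : Ap z (x * y) w
  yw : Ap z (y * w) x
  wx : Ap z (w * x) y
  yx : x * y = z * (y * x)
  wy : y * w = z * (w * y)
  xw : w * x = z * (x * w)

theorem Qd.rot {z x y w : R} (h : Qd z x y w) : Qd z y w x :=
  ⟨h.yy, h.ww, h.xx, h.yw, h.wx, h.xy, h.wy, h.xw, h.yx⟩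

/-- The quaternion subgroup. -/
def Qs {z x y w : R} (hzz : z * z = 1) (hzc : ∀ x, z * x = x * z) (h : Qd z x y w) :
    Subgroup R where
  carrier := {g | Ap z g 1 ∨ Ap z g x ∨ Ap z g y ∨ Ap z g w}
  one_mem' := Or.inl (Or.inl rfl)
  mul_mem' := by
    intro a b ha hb
    have hxx : Ap z (x * x) 1 := by right; rw [h.xx, mul_one]
    have hyy : Ap z (y * y) 1 := by right; rw [h.yy, mul_one]
    have hww : Ap z (w * w) 1 := by right; rw [h.ww, mul_one]
    have hyx : Ap z (y * x) w := Ap.trans hzz (Ap.symm hzz (Or.inr h.yx)) h.xy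
    have hwy : Ap z (w * y) x := Ap.trans hzz (Ap.symm hzz (Or.inr h.wy)) h.yw
    have hxw : Ap z (x * w) y := Ap.trans hzz (Ap.symm hzz (Or.inr h.xw)) h.wx
    have key : ∀ {a b c d e : R}, Ap z a c → Ap z b d → Ap z (c * d) e → Ap z (a * b) e :=
      fun h1 h2 h3 => Ap.trans hzz (Ap.mul hzz hzc h1 h2) h3
    rcases ha with ha | ha | ha | ha <;> rcases hb with hb | hb | hb | hb
    · exact Or.inl (key ha hb (by left; group))
    · exact Or.inr (Or.inl (key ha hb (by left; group)))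
    · exact Or.inr (Or.inr (Or.inl (key ha hb (by left; group))))
    · exact Or.inr (Or.inr (Or.inr (key ha hb (by left; group))))
    · exact Or.inr (Or.inl (key ha hb (by left; group)))
    · exact Or.inl (key ha hb hxx)
    · exact Or.inr (Or.inr (Or.inr (key ha hb h.xy)))
    · exact Or.inr (Or.inr (Or.inl (key ha hb hxw)))
    · exact Or.inr (Or.inr (Or.inl (key ha hb (by left; group))))
    · exact Or.inr (Or.inr (Or.inr (key ha hb hyx)))
    · exact Or.inl (key ha hb hyy)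
    · exact Or.inr (Or.inl (key ha hb h.yw))
    · exact Or.inr (Or.inr (Or.inr (key ha hb (by left; group))))
    · exact Or.inr (Or.inr (Or.inl (key ha hb h.wx)))
    · exact Or.inr (Or.inl (key ha hb hwy))
    · exact Or.inl (key ha hb hww)
  inv_mem' := by
    intro a ha
    have key : ∀ {a c e : R}, Ap z a c → Ap z c⁻¹ e → Ap z a⁻¹ e :=
      fun h1 h2 => Ap.trans hzz (Ap.inv hzz hzc h1) h2
    have hi : ∀ {q : R}, q * q = z → Ap z q⁻¹ q := by
      intro q hq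
      right
      have h1 : z * q * q = 1 := by rw [mul_assoc, hq, hzz]
      exact inv_eq_of_mul_eq_one_left h1
    rcases ha with ha | ha | ha | ha
    · exact Or.inl (key ha (by left; group))
    · exact Or.inr (Or.inl (key ha (hi h.xx)))
    · exact Or.inr (Or.inr (Or.inl (key ha (hi h.yy))))
    · exact Or.inr (Or.inr (Or.inr (key ha (hi h.ww))))

theorem mem_Qs {z x y w : R} (hzz : z * z = 1) (hzc : ∀ x, z * x = x * z) (h : Qd z x y w)
    (g : R) : g ∈ Qs hzz hzc h ↔ (Ap z g 1 ∨ Ap z g x ∨ Ap z g y ∨ Ap z g w) := Iff.rfl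

theorem Qd.ne {z x y w : R} (hz1 : z ≠ 1) (h : Qd z x y w) : x * y ≠ y * x := by
  intro hc
  apply hz1
  have h1 := h.yx
  rw [hc] at h1
  exact (mul_eq_right.1 h1.symm)

theorem Qd.nap {z x y w : R} (hz1 : z ≠ 1) (hzc : ∀ x, z * x = x * z) (h : Qd z x y w) :
    ¬ Ap z x y := by
  rintro (hc | hc)
  · exact h.ne hz1 (by rw [hc])
  · refine h.ne hz1 ?_
    calc x * y = (z * y) * y := by rw [hc]
      _ = (y * z) * y := by rw [hzc y]
      _ = y * (z * y) := by group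
      _ = y * x := by rw [hc]

theorem Qd.nap1 {z x y w : R} (hz1 : z ≠ 1) (hzz : z * z = 1) (h : Qd z x y w) :
    ¬ Ap z x 1 := by
  rintro (hc | hc)
  · have h1 := h.xx
    rw [hc, one_mul] at h1
    exact hz1 h1.symm
  · have h1 := h.xx
    rw [hc, mul_one, hzz] at h1
    exact hz1 h1.symm

/-- An element commuting with `x` and `y`. -/
theorem cen [Finite R] (hR : IsPGroup 2 R) {z : R} (hz1 : z ≠ 1) (hzc : ∀ x, z * x = x * z)
    (hz : ∀ x : R, x * x = 1 → x = 1 ∨ x = z) (hzz : z * z = 1) {x y w : R} (h : Qd z x y w)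
    {c : R} (hx : c * x = x * c) (hy : c * y = y * c) : Ap z c 1 := by
  by_contra hc
  have hc1 : c ≠ 1 := fun h0 => hc (Or.inl h0)
  have hcz : c ≠ z := fun h0 => hc (Or.inr (by rw [mul_one]; exact h0))
  obtain ⟨m, hm⟩ := hR c
  obtain ⟨k, _, hko⟩ := (Nat.dvd_prime_pow Nat.prime_two).1 (orderOf_dvd_of_pow_eq_one hm)
  have hk2 : 2 ≤ k := by
    by_contra hlt
    interval_cases k
    · rw [pow_zero, orderOf_eq_one_iff] at hko
      exact hc1 hko
    · rw [pow_one] at hko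
      have h1 : c * c = 1 := by
        rw [← pow_two, ← hko, pow_orderOf_eq_one]
      rcases hz c h1 with h | h
      · exact hc1 h
      · exact hcz h
  obtain ⟨j, rfl⟩ : ∃ j, k = j + 2 := ⟨k - 2, by omega⟩
  obtain ⟨d, hd⟩ : ∃ d, d = c ^ (2 ^ j) := ⟨_, rfl⟩
  have hdd : d * d = z := by
    have h1 : (d * d) * (d * d) = 1 := by
      rw [hd, ← pow_add, ← pow_add, ← orderOf_dvd_iff_pow_eq_one, hko]
      exact dvd_of_eq (by ring)
    rcases hz _ h1 with h | h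
    · exfalso
      rw [hd, ← pow_add, ← orderOf_dvd_iff_pow_eq_one, hko] at h
      have h2 : 2 ^ (j + 2) ∣ 2 ^ (j + 1) := by
        have : 2 ^ (j + 1) = 2 ^ j + 2 ^ j := by ring
        rw [this]; exact h
      exact absurd (Nat.pow_dvd_pow_iff_le_right (by norm_num) |>.1 h2) (by omega)
    · exact h
  have hdx : d * x = x * d := by
    have h1 : Commute c x := hx
    rw [hd]; exact (h1.pow_left _).eq
  have hdy : d * y = y * d := by
    have h1 : Commute c y := hy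
    rw [hd]; exact (h1.pow_left _).eq
  have h1 : (d * x) * (d * x) = 1 := by
    calc (d * x) * (d * x) = d * (x * d) * x := by group
      _ = d * (d * x) * x := by rw [hdx]
      _ = (d * d) * (x * x) := by group
      _ = 1 := by rw [hdd, h.xx, hzz]
  have h2 : (d * x) * y = y * (d * x) := by
    rcases hz _ h1 with h3 | h3
    · rw [h3, one_mul, mul_one]
    · rw [h3]; exact hzc y
  apply h.ne hz1
  have h3 : d * (x * y) = d * (y * x) := by
    calc d * (x * y) = (d * x) * y := by group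
      _ = y * (d * x) := h2
      _ = (y * d) * x := by group
      _ = (d * y) * x := by rw [hdy]
      _ = d * (y * x) := by group
  exact mul_left_cancel h3

/-- An element which fixes the classes of `x` and `y` is in the quaternion group. -/
theorem idc [Finite R] (hR : IsPGroup 2 R) {z : R} (hz1 : z ≠ 1) (hzc : ∀ x, z * x = x * z)
    (hz : ∀ x : R, x * x = 1 → x = 1 ∨ x = z) (hzz : z * z = 1) {x y w : R} (h : Qd z x y w)
    {u : R} (hx : Rl z u x x) (hy : Rl z u y y) : u ∈ Qs hzz hzc h := by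
  have hcj : ∀ {a b : R}, a * b = z * (b * a) → a * b * a⁻¹ = z * b := by
    intro a b hab
    rw [hab]; group
  have hcj' : ∀ {a b : R}, a * b = z * (b * a) → b * a * b⁻¹ = z * a := by
    intro a b hab
    have h1 : b * a = z * (a * b) := by rw [hab, ← mul_assoc, hzz, one_mul]
    rw [h1]; group
  have hz2 : ∀ (b : R), z * (z * b) = b := fun b => by rw [← mul_assoc, hzz, one_mul]
  have hcz : ∀ (a b : R), a * (z * b) * a⁻¹ = z * (a * b * a⁻¹) := fun a b => by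
    calc a * (z * b) * a⁻¹ = (a * z) * b * a⁻¹ := by group
      _ = (z * a) * b * a⁻¹ := by rw [hzc a]
      _ = z * (a * b * a⁻¹) := by group
  have hmain : ∀ q ∈ Qs hzz hzc h, q * (u * x * u⁻¹) * q⁻¹ = x → q * (u * y * u⁻¹) * q⁻¹ = y →
      u ∈ Qs hzz hzc h := by
    intro q hq h1 h2
    have hc : ∀ {b : R}, q * (u * b * u⁻¹) * q⁻¹ = b → (q * u) * b = b * (q * u) := by
      intro b hb
      calc (q * u) * b = (q * (u * b * u⁻¹) * q⁻¹) * (q * u) := by group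
        _ = b * (q * u) := by rw [hb]
    have h3 := cen hR hz1 hzc hz hzz h (hc h1) (hc h2)
    have h4 : q * u ∈ Qs hzz hzc h := Or.inl h3
    have h5 := (Qs hzz hzc h).mul_mem ((Qs hzz hzc h).inv_mem hq) h4
    rwa [inv_mul_cancel_left] at h5
  have mx : x ∈ Qs hzz hzc h := Or.inr (Or.inl (Ap.refl z x))
  have my : y ∈ Qs hzz hzc h := Or.inr (Or.inr (Or.inl (Ap.refl z y)))
  have mw : w ∈ Qs hzz hzc h := Or.inr (Or.inr (Or.inr (Ap.refl z w)))
  rcases hx with hx | hx <;> rcases hy with hy | hy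
  · exact hmain 1 (Subgroup.one_mem _) (by rw [hx]; group) (by rw [hy]; group)
  · refine hmain x mx ?_ ?_
    · rw [hx]; group
    · rw [hy, hcz, hcj h.yx, hz2]
  · refine hmain y my ?_ ?_
    · rw [hx, hcz, hcj' h.yx, hz2]
    · rw [hy]; group
  · refine hmain w mw ?_ ?_
    · rw [hx, hcz, hcj h.xw, hz2]
    · rw [hy, hcz, hcj' h.wy, hz2]

/-- No transposition. -/
theorem trans [Finite R] (hR : IsPGroup 2 R) {z : R} (hz1 : z ≠ 1) (hzc : ∀ x, z * x = x * z)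
    (hzz : z * z = 1) {x y w : R} (h : Qd z x y w)
    {α : R →* R} (hαz : α z = z) (hαx : α x = y) (hαy : α y = w) (hαw : α w = x)
    {u : R} (hux : Rl z u x x) (huy : Rl z u y w) (huw : Rl z u w y) : False := by
  have hα : ∀ {q q' : R}, Rl z u q q' → Rl z (α u) (α q) (α q') := by
    rintro q q' (h1 | h1)
    · left; rw [← h1]; simp
    · right
      have h2 := congrArg α h1
      rw [map_mul α z, hαz] at h2
      rw [← h2]; simp
  have vy : Rl z (α u) y y := by have := hα hux; rwa [hαx] at this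
  have vw : Rl z (α u) w x := by have := hα huy; rwa [hαy, hαw] at this
  have vx : Rl z (α u) x w := by have := hα huw; rwa [hαw, hαy] at this
  have tx : Rl z (u * α u) x y := Rl.comp hzz hzc vx huw
  have ty : Rl z (u * α u) y w := Rl.comp hzz hzc vy huy
  have tw : Rl z (u * α u) w x := Rl.comp hzz hzc vw hux
  obtain ⟨m, hm⟩ := hR (u * α u)
  have t3 : Rl z ((u * α u) * (u * α u) * (u * α u)) x x :=
    Rl.comp hzz hzc tx (Rl.comp hzz hzc ty tw)
  have t1 := fx_of_cube hzz hzc hm t3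
  exact h.nap hz1 hzc (Ap.trans hzz (Ap.symm hzz t1) tx)

/-- The quaternion group is everything. -/
theorem q8_top [Finite R] (hR : IsPGroup 2 R) {z : R} (hz1 : z ≠ 1) (hzc : ∀ x, z * x = x * z)
    (hz : ∀ x : R, x * x = 1 → x = 1 ∨ x = z) (hzz : z * z = 1) {x y w : R} (h : Qd z x y w)
    {α : R →* R} (hαz : α z = z) (hαx : α x = y) (hαy : α y = w) (hαw : α w = x) :
    ∀ u : R, u ∈ Qs hzz hzc h := by
  have htop : Qs hzz hzc h = ⊤ := by
    by_contra hne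
    have hf2 : Fact (Nat.Prime 2) := ⟨Nat.prime_two⟩
    have hnil : Group.IsNilpotent R := hR.isNilpotent
    have hlt := (Group.normalizerCondition_of_isNilpotent (G := R)) (Qs hzz hzc h)
      (lt_top_iff_ne_top.2 hne)
    obtain ⟨u, hu, huQ⟩ := SetLike.exists_of_lt hlt
    have hun := Subgroup.mem_normalizer_iff.1 hu
    have key : ∀ {q : R}, q ∈ Qs hzz hzc h → ¬ Ap z q 1 →
        Rl z u q x ∨ Rl z u q y ∨ Rl z u q w := by
      intro q hq hq1
      rcases (hun q).1 hq with h1 | h1 | h1 | h1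
      · exfalso
        apply hq1
        rcases h1 with h1 | h1
        · left
          have : q = u⁻¹ * (u * q * u⁻¹) * u := by group
          rw [this, h1]; group
        · right
          rw [mul_one] at h1
          have : q = u⁻¹ * (u * q * u⁻¹) * u := by group
          rw [this, h1, mul_assoc, hzc]; group
      · exact Or.inl h1
      · exact Or.inr (Or.inl h1)
      · exact Or.inr (Or.inr h1)
    have mx : x ∈ Qs hzz hzc h := Or.inr (Or.inl (Ap.refl z x))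
    have my : y ∈ Qs hzz hzc h := Or.inr (Or.inr (Or.inl (Ap.refl z y)))
    have nxy := h.nap hz1 hzc
    have nyw := h.rot.nap hz1 hzc
    have nwx := h.rot.rot.nap hz1 hzc
    -- injectivity
    have inj : ∀ {q q' r : R}, Rl z u q r → Rl z u q' r → Ap z q q' := by
      intro q q' r h1 h2
      have h3 : Ap z (u * q * u⁻¹) (u * q' * u⁻¹) := Ap.trans hzz h1 (Ap.symm hzz h2)
      have h4 : Ap z (u⁻¹ * (u * q * u⁻¹) * u) (u⁻¹ * (u * q' * u⁻¹) * u) :=
        Ap.mul hzz hzc (Ap.mul hzz hzc (Ap.refl z _) h3) (Ap.refl z _)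
      have e1 : u⁻¹ * (u * q * u⁻¹) * u = q := by group
      have e2 : u⁻¹ * (u * q' * u⁻¹) * u = q' := by group
      rwa [e1, e2] at h4
    -- the image of a product
    have prd : ∀ {a b c a' b' c' : R}, Rl z u a a' → Rl z u b b' → Ap z (a * b) c →
        Ap z (a' * b') c' → Rl z u c c' := by
      intro a b c a' b' c' h1 h2 h3 h4
      have h5 : Ap z (u * c * u⁻¹) (u * (a * b) * u⁻¹) :=
        Ap.mul hzz hzc (Ap.mul hzz hzc (Ap.refl z _) (Ap.symm hzz h3)) (Ap.refl z _)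
      have h6 : u * (a * b) * u⁻¹ = (u * a * u⁻¹) * (u * b * u⁻¹) := by group
      rw [h6] at h5
      exact Ap.trans hzz h5 (Ap.trans hzz (Ap.mul hzz hzc h1 h2) h4)
    have hyx : Ap z (y * x) w := Ap.trans hzz (Ap.symm hzz (Or.inr h.yx)) h.xy
    have hwy : Ap z (w * y) x := Ap.trans hzz (Ap.symm hzz (Or.inr h.wy)) h.yw
    have hxw : Ap z (x * w) y := Ap.trans hzz (Ap.symm hzz (Or.inr h.xw)) h.wx
    obtain ⟨m, hm⟩ := hR u
    rcases key mx (h.nap1 hz1 hzz) with ux | ux | ux <;>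
      rcases key my (h.rot.nap1 hz1 hzz) with uy | uy | uy
    · exact nxy (inj ux uy)
    · exact huQ (idc hR hz1 hzc hz hzz h ux uy)
    · -- x → x, y → w
      exact trans hR hz1 hzc hzz h hαz hαx hαy hαw ux uy (prd ux uy h.xy hxw)
    · -- x → y, y → x
      exact trans hR hz1 hzc hzz h.rot.rot hαz hαw hαx hαy (prd ux uy h.xy hyx) ux uy
    · exact nxy (inj ux uy)
    · -- x → y → w → x
      have uw : Rl z u w x := prd ux uy h.xy h.yw
      have u3 : Rl z (u * u * u) x x := Rl.comp hzz hzc ux (Rl.comp hzz hzc uy uw)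
      exact nxy (Ap.trans hzz (Ap.symm hzz (fx_of_cube hzz hzc hm u3)) ux)
    · -- x → w, y → x, w → y
      have uw : Rl z u w y := prd ux uy h.xy h.wx
      have u3 : Rl z (u * u * u) x x := Rl.comp hzz hzc ux (Rl.comp hzz hzc uw uy)
      exact nwx (Ap.symm hzz (Ap.trans hzz (Ap.symm hzz (fx_of_cube hzz hzc hm u3)) ux))
    · -- x → w, y → y
      exact trans hR hz1 hzc hzz h.rot hαz hαy hαw hαx uy (prd ux uy h.xy hwy) ux
    · exact nxy (inj ux uy)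
  intro u
  rw [htop]
  exact Subgroup.mem_top u

end Pool.Agent.Lib.MPbe1941.X.TTWM
end

section
/-!
# TTW: the quaternion group
-/
set_option autoImplicit false

namespace Pool.Agent.Lib.MPbe1941.X

open Pool.Agent.Lib.MPbe1941

namespace TTWM

/-- **Q₈**: `K` a `2`-group acting on `Y`, `B` the kernel, an element with a nonzero fixed point
is in `B`; `ρ` of odd order normalises `K` and `B` and does not centralise `K/B`. -/
theorem frt_q8_all {G V : Type} [Group G] [Finite G] [AddCommGroup V] [Finite V] [DistribMulAction G V]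
    {K B : Subgroup G} {Y : AddSubgroup V} {ρ : G} (hK : IsPGroup 2 K) (hBK : B ≤ K)
    (hY : ∀ x ∈ K, ∀ v ∈ Y, x • v ∈ Y) (hne : ∃ v ∈ Y, v ≠ 0)
    (hBY : ∀ b ∈ B, ∀ v ∈ Y, b • v = v) (hf : ∀ x ∈ K, ∀ v ∈ Y, v ≠ 0 → x • v = v → x ∈ B)
    (hρK : ∀ x ∈ K, ρ * x * ρ⁻¹ ∈ K) (hρB : ∀ b ∈ B, ρ * b * ρ⁻¹ ∈ B) (hρ2 : ¬ 2 ∣ orderOf ρ)
    (hnt : ∃ x ∈ K, ρ * x * ρ⁻¹ * x⁻¹ ∉ B) :
    ∃ i ∈ K, ∃ j ∈ K,
      (∀ v ∈ Y, i • i • v = -v) ∧ (∀ v ∈ Y, j • j • v = -v) ∧ (∀ v ∈ Y, i • j • v = -(j • i • v)) ∧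
      ∀ n ∈ K, ∃ m ∈ ({1, i, j, i * j} : Set G),
        (∀ v ∈ Y, n • v = m • v) ∨ ∀ v ∈ Y, n • v = -(m • v) := by
  have hn := FRC.subgroupOf_normal hY hne hBK hBY hf
  obtain ⟨φ, hφ, hSR⟩ := FRC.exists_act hY hBY hf
  have hntY : Nontrivial Y := by
    obtain ⟨v, hv, hv0⟩ := hne
    exact ⟨⟨v, hv⟩, 0, fun h => hv0 (congrArg Subtype.val h)⟩
  have hX : IsPGroup 2 (K ⧸ B.subgroupOf K) := hK.to_quotient _
  have hR1 := FRC.rank_one_of_semireg Nat.prime_two hX hSR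
  have hf2 : Fact (Nat.Prime 2) := ⟨Nat.prime_two⟩
  -- conjugation by `ρ`
  let c0 : K →* K :=
    { toFun := fun x => ⟨ρ * x * ρ⁻¹, hρK x x.2⟩
      map_one' := Subtype.ext (by simp)
      map_mul' := fun a b => Subtype.ext (by simp) }
  have hc0 : B.subgroupOf K ≤ (B.subgroupOf K).comap c0 := by
    intro b hb
    rw [Subgroup.mem_comap, Subgroup.mem_subgroupOf]
    rw [Subgroup.mem_subgroupOf] at hb
    exact hρB b hb
  let α : K ⧸ B.subgroupOf K →* K ⧸ B.subgroupOf K :=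
    QuotientGroup.map (B.subgroupOf K) (B.subgroupOf K) c0 hc0
  have hα1 : ∀ x : K, α (QuotientGroup.mk x) = QuotientGroup.mk (c0 x) := fun x => rfl
  have hαn : ∀ (n : ℕ) (x : K), ∃ y : K, (y : G) = ρ ^ n * x * (ρ ^ n)⁻¹ ∧
      α^[n] (QuotientGroup.mk x) = QuotientGroup.mk y := by
    intro n
    induction n with
    | zero => intro x; exact ⟨x, by simp, rfl⟩
    | succ n ih =>
      intro x
      obtain ⟨y, hy1, hy2⟩ := ih x
      refine ⟨c0 y, ?_, ?_⟩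
      · change ρ * (y : G) * ρ⁻¹ = _
        rw [hy1, pow_succ']; group
      · rw [Function.iterate_succ_apply', hy2, hα1]
  have hα : ∀ x, α^[orderOf ρ] x = x := by
    intro x
    obtain ⟨k, rfl⟩ := QuotientGroup.mk_surjective x
    obtain ⟨y, hy1, hy2⟩ := hαn (orderOf ρ) k
    rw [hy2]
    congr 1
    apply Subtype.ext
    rw [hy1, pow_orderOf_eq_one]; simp
  obtain ⟨x0, hx0K, hx0⟩ := hnt
  have hx0α : α (QuotientGroup.mk ⟨x0, hx0K⟩) ≠ QuotientGroup.mk ⟨x0, hx0K⟩ := by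
    intro h
    rw [hα1, eq_comm, QuotientGroup.eq, Subgroup.mem_subgroupOf] at h
    apply hx0
    have h1 : x0⁻¹ * (ρ * x0 * ρ⁻¹) ∈ B := h
    have h2 := FRC.conj_mem hY hne hBK hBY hf hx0K h1
    have h3 : x0 * (x0⁻¹ * (ρ * x0 * ρ⁻¹)) * x0⁻¹ = ρ * x0 * ρ⁻¹ * x0⁻¹ := by group
    rwa [h3] at h2
  have hntX : Nontrivial (K ⧸ B.subgroupOf K) := ⟨_, _, hx0α⟩
  -- the central involution
  have hcn := hX.center_nontrivial
  obtain ⟨z0, hz0⟩ := exists_ne (1 : Subgroup.center (K ⧸ B.subgroupOf K))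
  obtain ⟨z, hzc, hz1, hzz⟩ : ∃ z : K ⧸ B.subgroupOf K, (∀ x, z * x = x * z) ∧ z ≠ 1 ∧
      z * z = 1 := by
    obtain ⟨m, hm⟩ := hX (z0 : K ⧸ B.subgroupOf K)
    obtain ⟨k, _, hko⟩ := (Nat.dvd_prime_pow Nat.prime_two).1 (orderOf_dvd_of_pow_eq_one hm)
    have hk0 : k ≠ 0 := by
      rintro rfl
      rw [pow_zero, orderOf_eq_one_iff] at hko
      exact hz0 (Subtype.ext hko)
    obtain ⟨j, rfl⟩ : ∃ j, k = j + 1 := ⟨k - 1, by omega⟩
    refine ⟨(z0 : K ⧸ B.subgroupOf K) ^ 2 ^ j, ?_, ?_, ?_⟩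
    · intro x
      have h1 : Commute (z0 : K ⧸ B.subgroupOf K) x :=
        (Subgroup.mem_center_iff.1 z0.2 x).symm
      exact (h1.pow_left _).eq
    · intro h
      have h2 := orderOf_dvd_of_pow_eq_one h
      rw [hko] at h2
      exact absurd (Nat.pow_dvd_pow_iff_le_right (by norm_num) |>.1 h2) (by omega)
    · rw [← pow_add, ← orderOf_dvd_iff_pow_eq_one, hko]
      exact dvd_of_eq (by ring)
  have hzu : ∀ x : K ⧸ B.subgroupOf K, x * x = 1 → x = 1 ∨ x = z := by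
    intro x hx
    obtain ⟨n, hn'⟩ := Subgroup.mem_zpowers_iff.1
      (hR1 x z (by rw [pow_two]; exact hx) (by rw [pow_two]; exact hzz) hz1 (hzc x).symm)
    rcases Int.even_or_odd' n with ⟨m, rfl | rfl⟩
    · left
      rw [← hn', zpow_mul, zpow_two, hzz, one_zpow]
    · right
      rw [← hn', zpow_add, zpow_mul, zpow_two, hzz, one_zpow, one_mul, zpow_one]
  obtain ⟨x, hxx, hyy, hxy, hne', hw, h3⟩ := FRTM.q8 hX hz1 hzc hzu hzz hρ2 hα hx0α
  -- `z` acts as `-1`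
  have hzneg : ∀ v : Y, φ z v = -v := by
    intro v
    by_contra hv
    have hv' : φ z v + v ≠ 0 := fun h => hv (eq_neg_of_add_eq_zero_left h)
    apply hz1
    refine hSR z _ hv' ?_
    rw [map_add]
    have h1 : φ z (φ z v) = v := by
      have h2 : φ (z * z) v = v := by rw [hzz, map_one]; rfl
      rw [map_mul] at h2
      exact h2
    rw [h1, add_comm]
  have hmul : ∀ (a b : K ⧸ B.subgroupOf K) (v : Y), φ (a * b) v = φ a (φ b v) := by
    intro a b v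
    rw [map_mul]; rfl
  obtain ⟨i, rfl⟩ := QuotientGroup.mk_surjective x
  have hαz : α z = z := by
    have h1 : α z * α z = 1 := by rw [← map_mul, hzz, map_one]
    rcases hzu _ h1 with h | h
    · exfalso
      have hn1 : orderOf ρ ≠ 0 := by
        intro h0; rw [h0] at hρ2; exact hρ2 (dvd_zero 2)
      obtain ⟨k, hk⟩ : ∃ k, orderOf ρ = k + 1 := ⟨orderOf ρ - 1, by omega⟩
      have h2 := hα z
      rw [hk, Function.iterate_succ_apply, h] at h2
      have h3 : ∀ k : ℕ, α^[k] 1 = 1 := by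
        intro k
        induction k with
        | zero => rfl
        | succ k ih => rw [Function.iterate_succ_apply, map_one, ih]
      rw [h3] at h2
      exact hz1 h2.symm
    · exact h
  have hqd : Qd z (QuotientGroup.mk i) (α (QuotientGroup.mk i)) (α (α (QuotientGroup.mk i))) := by
    have e1 : Ap z (QuotientGroup.mk i * α (QuotientGroup.mk i))
        (α (α (QuotientGroup.mk i))) := by
      rcases hw with h | h
      · left; exact h.symm
      · right; rw [h, ← mul_assoc z z, hzz, one_mul]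
    have hap : ∀ {a b : K ⧸ B.subgroupOf K}, Ap z a b → Ap z (α a) (α b) := by
      rintro a b (h | h)
      · left; rw [h]
      · right; rw [h, map_mul, hαz]
    have e2 := hap e1
    rw [map_mul, h3] at e2
    have e3 := hap e2
    rw [map_mul, h3] at e3
    have g2 := congrArg α hxy
    rw [map_mul, map_mul, map_mul, hαz] at g2
    have g3 := congrArg α g2
    rw [map_mul, map_mul, map_mul, hαz, h3] at g3
    refine ⟨hxx, hyy, ?_, e1, e2, e3, hxy, g2, g3⟩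
    rw [← map_mul, hyy, hαz]
  have htop := q8_top hX hz1 hzc hzu hzz hqd hαz rfl rfl h3
  refine ⟨i, i.2, ρ * i * ρ⁻¹, hρK i i.2, ?_, ?_, ?_, ?_⟩
  · intro v hv
    have h1 := hmul (QuotientGroup.mk i) (QuotientGroup.mk i) ⟨v, hv⟩
    rw [hxx, hzneg] at h1
    have h2 := congrArg Subtype.val h1
    simp only [AddSubgroup.coe_neg, hφ] at h2
    exact h2.symm
  · intro v hv
    have h1 := hmul (QuotientGroup.mk (c0 i)) (QuotientGroup.mk (c0 i)) ⟨v, hv⟩
    rw [hα1] at hyy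
    rw [hyy, hzneg] at h1
    have h2 := congrArg Subtype.val h1
    simp only [AddSubgroup.coe_neg, hφ] at h2
    exact h2.symm
  · intro v hv
    have h1 := hmul (QuotientGroup.mk i) (QuotientGroup.mk (c0 i)) ⟨v, hv⟩
    rw [hα1] at hxy
    rw [hxy, hmul, hzneg, hmul] at h1
    have h2 := congrArg Subtype.val h1
    simp only [AddSubgroup.coe_neg, hφ] at h2
    exact h2.symm
  · intro n hn'
    -- the operators
    have opr : ∀ (a : K ⧸ B.subgroupOf K) (m : G) (hm : ∀ (v : V) (hv : v ∈ Y),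
        ((φ a ⟨v, hv⟩ : Y) : V) = m • v), Ap z (QuotientGroup.mk (⟨n, hn'⟩ : K)) a →
        (∀ v ∈ Y, n • v = m • v) ∨ ∀ v ∈ Y, n • v = -(m • v) := by
      intro a m hm ha
      rcases ha with ha | ha
      · left
        intro v hv
        rw [← hm v hv, ← ha, hφ]
      · right
        intro v hv
        have h1 : φ (QuotientGroup.mk (⟨n, hn'⟩ : K)) ⟨v, hv⟩ = -(φ a ⟨v, hv⟩) := by
          rw [ha, hmul, hzneg]
        have h2 := congrArg Subtype.val h1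
        simp only [AddSubgroup.coe_neg, hφ, hm v hv] at h2
        exact h2
    have hi : ∀ (v : V) (hv : v ∈ Y),
        ((φ (QuotientGroup.mk i) ⟨v, hv⟩ : Y) : V) = (i : G) • v := fun v hv => by rw [hφ]
    have hj : ∀ (v : V) (hv : v ∈ Y),
        ((φ (α (QuotientGroup.mk i)) ⟨v, hv⟩ : Y) : V) = (ρ * (i : G) * ρ⁻¹) • v :=
      fun v hv => by rw [hα1, hφ]; rfl
    rcases htop (QuotientGroup.mk (⟨n, hn'⟩ : K)) with h | h | h | h
    · refine ⟨1, by simp, opr 1 1 ?_ h⟩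
      intro v hv
      rw [map_one, one_smul]; rfl
    · exact ⟨i, by simp, opr _ _ hi h⟩
    · exact ⟨ρ * i * ρ⁻¹, by simp, opr _ _ hj h⟩
    · refine ⟨i * (ρ * i * ρ⁻¹), by simp, opr (QuotientGroup.mk i * α (QuotientGroup.mk i)) _ ?_
        (Ap.trans hzz h (Ap.symm hzz hqd.xy))⟩
      intro v hv
      rw [hmul, mul_smul, ← hj v hv]
      exact hφ i _

end TTWM

theorem specTTW (hTPS : SpecTPS) (hPSB : SpecPSB) (hTCP : SpecTCP) (hTSE : SpecTSE)
    (hTNZ : SpecTNZ) (hPCC : SpecPCC) : SpecTTW := by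
  intro H X _ _ _ p C T h v r R hv hr hM hr2 hNt
  have hfinH : Finite H := h.finH
  have hfinX : Finite X := h.finX
  have hrp : r.Prime := (h.tp r hr).1
  obtain ⟨tP, tF, tE, tM, -, -, tC⟩ := hTPS H X p C T h
  -- `r = 3`
  have hr3 : r = 3 := by
    by_contra hne
    have h5 : 5 ≤ r := by
      have h1 := hrp.two_le
      have h4 : r ≠ 4 := fun h4 => by rw [h4] at hrp; exact absurd hrp (by norm_num)
      omega
    obtain ⟨x, hx, y, hy, hxy⟩ := hNt
    have h2 := (hPCC h.ps v ((tE v).2 hv) r R hrp hr2 ((tM v r R).2 hM) x hx).2 h5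
    exact hxy ((tC 2 x).1 h2 y hy)
  have hP2 := (hPSB h.ps).2.2.2.1 2 Nat.prime_two
  rw [tP 2] at hP2
  obtain ⟨hPn, hPp, -⟩ := hP2
  have hPn' : ∀ g : H, ∀ x ∈ Oc 2 C, g * x * g⁻¹ ∈ Oc 2 C := fun g x hx => hPn.conj_mem x hx g
  have hPF : Oc 2 C ≤ Fit C := le_sSup ⟨2, Nat.prime_two, rfl⟩
  have hBF : ∀ b ∈ Stb (Oc 2 C) v, b ∈ Stb (Fit C) v := fun b hb => ⟨hPF hb.1, hb.2⟩
  have hcen := (hTCP H X p C T h v r R hv hr hM).2
  have hsem := hTSE H X p C T h v hv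
  have hvY : v ∈ FixY X (Stb (Fit C) v) := fun b hb => hb.2
  have hv0 : v ≠ 0 := hv.1
  obtain ⟨ρ, hρ, n, hn, y, hy, hny⟩ := hTNZ H X p C T h v r R hv hr hM 2 Nat.prime_two hNt
  have hKP : Nz (Oc 2 C) (Stb (Oc 2 C) v) ≤ Oc 2 C := fun x hx => hx.1
  have hKp : IsPGroup 2 (Nz (Oc 2 C) (Stb (Oc 2 C) v)) := hPp.to_le hKP
  have hBK : Stb (Oc 2 C) v ≤ Nz (Oc 2 C) (Stb (Oc 2 C) v) := by
    intro b hb
    refine ⟨hb.1, fun b' => ⟨fun hb' => ?_, fun hb' => ?_⟩⟩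
    · exact Subgroup.mul_mem _ (Subgroup.mul_mem _ hb hb') (Subgroup.inv_mem _ hb)
    · have h1 := Subgroup.mul_mem _ (Subgroup.mul_mem _ (Subgroup.inv_mem _ hb) hb') hb
      have h2 : b⁻¹ * (b * b' * b⁻¹) * b = b' := by group
      rwa [h2] at h1
  have hYK : ∀ x ∈ Nz (Oc 2 C) (Stb (Oc 2 C) v), ∀ u ∈ FixY X (Stb (Fit C) v),
      x • u ∈ FixY X (Stb (Fit C) v) := fun x hx u hu =>
    (((hsem u hu).2 2 Nat.prime_two).2 x hx).1
  have hBY : ∀ b ∈ Stb (Oc 2 C) v, ∀ u ∈ FixY X (Stb (Fit C) v), b • u = u :=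
    fun b hb u hu => hu b (hBF b hb)
  have hf : ∀ x ∈ Nz (Oc 2 C) (Stb (Oc 2 C) v), ∀ u ∈ FixY X (Stb (Fit C) v), u ≠ 0 →
      x • u = u → x ∈ Stb (Oc 2 C) v := fun x hx u hu hu0 hxu =>
    (((hsem u hu).2 2 Nat.prime_two).2 x hx).2 hu0 hxu
  have hρb : ∀ b ∈ Stb (Oc 2 C) v, ρ * b * ρ⁻¹ = b := by
    intro b hb
    rw [hcen ρ hρ b (hBF b hb)]; group
  have hρb' : ∀ g : H, g ∈ Stb (Oc 2 C) v ↔ ρ * g * ρ⁻¹ ∈ Stb (Oc 2 C) v := by
    intro g
    refine ⟨fun hg => by rw [hρb g hg]; exact hg, fun hg => ?_⟩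
    have h1 := hρb _ hg
    have h2 : ρ * g * ρ⁻¹ = g := by
      have h3 : ρ * (ρ * g * ρ⁻¹) * ρ⁻¹ = ρ * g * ρ⁻¹ := h1
      have h4 : ρ * g * ρ⁻¹ = g := by
        have h5 := mul_right_cancel h3
        exact mul_left_cancel h5
      exact h4
    rwa [h2] at hg
  have hρK : ∀ x ∈ Nz (Oc 2 C) (Stb (Oc 2 C) v), ρ * x * ρ⁻¹ ∈ Nz (Oc 2 C) (Stb (Oc 2 C) v) := by
    intro x hx
    refine ⟨hPn' ρ x hx.1, fun b => ?_⟩
    have e1 : b ∈ Stb (Oc 2 C) v ↔ ρ⁻¹ * b * ρ ∈ Stb (Oc 2 C) v := by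
      rw [hρb' (ρ⁻¹ * b * ρ)]
      have : ρ * (ρ⁻¹ * b * ρ) * ρ⁻¹ = b := by group
      rw [this]
    rw [e1, hx.2 (ρ⁻¹ * b * ρ), hρb' (x * (ρ⁻¹ * b * ρ) * x⁻¹)]
    have : ρ * (x * (ρ⁻¹ * b * ρ) * x⁻¹) * ρ⁻¹ = ρ * x * ρ⁻¹ * b * (ρ * x * ρ⁻¹)⁻¹ := by group
    rw [this]
  have hρB : ∀ b ∈ Stb (Oc 2 C) v, ρ * b * ρ⁻¹ ∈ Stb (Oc 2 C) v := fun b hb =>
    (hρb' b).1 hb
  have hρ2 : ¬ 2 ∣ orderOf ρ := by
    intro hd
    obtain ⟨k, hk⟩ := hM.1.2.1 ⟨ρ, hρ⟩
    have h1 : ρ ^ r ^ k = 1 := by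
      have := congrArg Subtype.val hk
      simpa using this
    have h2 : 2 ∣ r ^ k := hd.trans (orderOf_dvd_of_pow_eq_one h1)
    have h3 := Nat.prime_two.dvd_of_dvd_pow h2
    exact hr2 ((Nat.prime_dvd_prime_iff_eq Nat.prime_two hrp).1 h3).symm
  have hnt : ∃ x ∈ Nz (Oc 2 C) (Stb (Oc 2 C) v), ρ * x * ρ⁻¹ * x⁻¹ ∉ Stb (Oc 2 C) v := by
    refine ⟨n, hn, fun hB => hny ?_⟩
    have h1 := hBY _ hB _ (hYK n hn y hy)
    rwa [← mul_smul, inv_mul_cancel_right] at h1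
  obtain ⟨i, hi, j, hj, h1, h2, h3, h4⟩ := TTWM.frt_q8_all hKp hBK hYK ⟨v, hvY, hv0⟩ hBY hf hρK
    hρB hρ2 hnt
  exact ⟨hr3, i, hi, j, hj, h1, h2, h3, h4⟩

end Pool.Agent.Lib.MPbe1941.X
end
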