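import Pool.Agent.Lib.MP_be1941_al.X.SpecT1B
import Pool.Agent.Lib.MP_be1941_al.X.SPR
import Pool.Agent.Lib.MP_be1941_al.X.UTW
import Pool.Agent.Lib.MP_be1941_al.X.PSB
import Pool.Agent.Lib.MP_be1941_al.X.SpecU

section
/-!
# Module NI2: no bad place at a special subgroup (T1.md (11.5))
-/
set_option autoImplicit false

namespace Pool.Agent.Lib.MPbe1941.X

open Pool.Agent.Lib.MPbe1941
open Pool.Agent.Lib.MPbe1941.XF
open scoped commutatorElement

namespace NI2M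

variable {H : Type} [Group H]

/-- the elements centralising the normal subgroup `P` -/
def Cn (P : Subgroup H) (_hP : P.Normal) : Subgroup H where
  carrier := {h | ∀ g ∈ P, h * g = g * h}
  one_mem' := fun g _ => by rw [one_mul, mul_one]
  mul_mem' := fun {a b} ha hb g hg => by rw [mul_assoc, hb g hg, ← mul_assoc, ha g hg, mul_assoc]
  inv_mem' := fun {a} ha g hg => by
    have : Commute a g := ha g hg
    exact this.inv_left.eq

theorem Cn_normal (P : Subgroup H) (hP : P.Normal) : (Cn P hP).Normal := by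
  refine ⟨fun a ha x g hg => ?_⟩
  have h1 : x⁻¹ * g * x ∈ P := by
    have := hP.conj_mem g hg x⁻¹
    rwa [inv_inv] at this
  have h2 := ha _ h1
  calc x * a * x⁻¹ * g = x * (a * (x⁻¹ * g * x)) * x⁻¹ := by group
    _ = x * (x⁻¹ * g * x * a) * x⁻¹ := by rw [h2]
    _ = g * (x * a * x⁻¹) := by group

/-- the elements centralising `P` modulo `Q` -/
def Cm (P Q : Subgroup H) (_hP : P.Normal) (hQ : Q.Normal) : Subgroup H where
  carrier := {h | ∀ g ∈ P, h * g * h⁻¹ * g⁻¹ ∈ Q}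
  one_mem' := fun g _ => by
    have : (1 : H) * g * 1⁻¹ * g⁻¹ = 1 := by group
    rw [this]; exact Q.one_mem
  mul_mem' := fun {a b} ha hb g hg => by
    have h1 : a * b * g * (a * b)⁻¹ * g⁻¹ =
        a * (b * g * b⁻¹ * g⁻¹) * a⁻¹ * (a * g * a⁻¹ * g⁻¹) := by group
    rw [h1]
    exact Q.mul_mem (hQ.conj_mem _ (hb g hg) a) (ha g hg)
  inv_mem' := fun {a} ha g hg => by
    have h1 : a⁻¹ * g * a⁻¹⁻¹ * g⁻¹ = a⁻¹ * (a * g * a⁻¹ * g⁻¹)⁻¹ * a⁻¹⁻¹ := by group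
    rw [h1]
    exact hQ.conj_mem _ (Q.inv_mem (ha g hg)) a⁻¹

theorem Cm_normal (P Q : Subgroup H) (hP : P.Normal) (hQ : Q.Normal) : (Cm P Q hP hQ).Normal := by
  refine ⟨fun a ha x g hg => ?_⟩
  have h1 : x⁻¹ * g * x ∈ P := by
    have := hP.conj_mem g hg x⁻¹
    rwa [inv_inv] at this
  have h2 : x * a * x⁻¹ * g * (x * a * x⁻¹)⁻¹ * g⁻¹ =
      x * (a * (x⁻¹ * g * x) * a⁻¹ * (x⁻¹ * g * x)⁻¹) * x⁻¹ := by group
  rw [h2]
  exact hQ.conj_mem _ (ha _ h1) x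

end NI2M

open NI2M in
theorem specNI2 (hOCF : SpecOCF) : SpecNI2 := by
  intro H X _ _ _ p C T h hP v r₁ R R₁ hv h3 hM hr₁ hG l hl hl2 hnt₁
  have hfin : Finite H := h.finH
  rintro ⟨t, ht, htl, U, hUt, -, -, hUR, hUnt⟩
  obtain ⟨-, hOp, hOn, -, -, -⟩ := hOCF H l hl C
  have hPn : (Oc l C).Normal := ⟨fun k hk g => hOn g (fun n hn => h.nor.conj_mem n hn g) k hk⟩
  have hUle : ∀ N : Subgroup H, N.Normal → R ≤ N → U ≤ N := by
    intro N hN hRN
    rw [← hUR]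
    exact (Subgroup.commutator_mono le_rfl hRN).trans (Subgroup.commutator_le_right U N)
  obtain ⟨u, hu, x, hx, hux⟩ := hUnt
  by_cases hnt : NtOn R (Oc l C)
  · have hsame := hP.sam v 3 r₁ R R₁ hv h3 hr₁ hM hG.1 (by norm_num) hG.2.1 l hl hl2 hnt hnt₁
    obtain ⟨-, hQn, -⟩ := hP.spn v r₁ R₁ hv hr₁ hG l hl hnt₁
    rw [← hsame] at hQn
    obtain ⟨-, hQP, -, -, -, -, -, hodd, -⟩ := hP.odd v 3 R hv h3 hM (by norm_num) l hl hl2 hnt
    have h1 : U ≤ Cm (Oc l C) ⁅Oc l C, R⁆ hPn hQn := by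
      refine hUle _ (Cm_normal _ _ hPn hQn) ?_
      intro s hs g hg
      have h4 : s * g * s⁻¹ * g⁻¹ = ⁅g, s⁆⁻¹ := by
        rw [commutatorElement_def]; group
      rw [h4]
      exact Subgroup.inv_mem _ (Subgroup.commutator_mem_commutator hg hs)
    have h2 : U ≤ Cn ⁅Oc l C, R⁆ hQn := by
      conv_lhs => rw [← hUR]
      rw [Subgroup.commutator_le]
      intro w hw s hs q hq
      obtain ⟨a, ha⟩ := (hodd s hs).1
      have hq' : s⁻¹ * q * s ∈ ⁅Oc l C, R⁆ := by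
        have := hQn.conj_mem q hq s⁻¹
        rwa [inv_inv] at this
      have e1 : s * (s⁻¹ * q * s) * s⁻¹ = (s⁻¹ * q * s) ^ a := ha _ hq'
      have e0 : q = (s⁻¹ * q * s) ^ a := by
        rw [← e1]; group
      have hq'' : w⁻¹ * (s⁻¹ * q * s) * w ∈ ⁅Oc l C, R⁆ := by
        have := hQn.conj_mem _ hq' w⁻¹
        rwa [inv_inv] at this
      have e2 : s * (w⁻¹ * (s⁻¹ * q * s) * w) * s⁻¹ = (w⁻¹ * (s⁻¹ * q * s) * w) ^ a := ha _ hq''
      have e3 : (w⁻¹ * (s⁻¹ * q * s) * w) ^ a = w⁻¹ * (s⁻¹ * q * s) ^ a * w := by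
        have := conj_zpow (a := w⁻¹) (b := s⁻¹ * q * s) (i := a)
        rwa [inv_inv] at this
      have e4 : ⁅w, s⁆ * q * ⁅w, s⁆⁻¹ = q := by
        calc ⁅w, s⁆ * q * ⁅w, s⁆⁻¹ = w * (s * (w⁻¹ * (s⁻¹ * q * s) * w) * s⁻¹) * w⁻¹ := by
              rw [commutatorElement_def]; group
          _ = w * (w⁻¹ * (s⁻¹ * q * s) ^ a * w) * w⁻¹ := by rw [e2, e3]
          _ = (s⁻¹ * q * s) ^ a := by group
          _ = q := e0.symm
      calc ⁅w, s⁆ * q = ⁅w, s⁆ * q * ⁅w, s⁆⁻¹ * ⁅w, s⁆ := by group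
        _ = q * ⁅w, s⁆ := by rw [e4]
    have hq := h1 hu x hx
    have hcomm := h2 hu _ hq
    have h5 : u * x * u⁻¹ = u * x * u⁻¹ * x⁻¹ * x := by group
    have hco : (orderOf u).Coprime (orderOf (u * x * u⁻¹ * x⁻¹)) := by
      obtain ⟨n, hn⟩ := hUt ⟨u, hu⟩
      obtain ⟨m, hm⟩ := hOp ⟨_, hQP hq⟩
      have h1 : orderOf u ∣ t ^ n := orderOf_dvd_of_pow_eq_one (congrArg Subtype.val hn)
      have h2 : orderOf (u * x * u⁻¹ * x⁻¹) ∣ l ^ m :=
        orderOf_dvd_of_pow_eq_one (congrArg Subtype.val hm)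
      exact Nat.Coprime.coprime_dvd_left h1 (Nat.Coprime.coprime_dvd_right h2
        (Nat.Coprime.pow _ _ ((Nat.coprime_primes ht hl).2 htl)))
    have h6 := comm_eq_one h5 hcomm hco
    apply hux
    calc u * x = u * x * u⁻¹ * x⁻¹ * (x * u) := by group
      _ = x * u := by rw [h6, one_mul]
  · have h1 : U ≤ Cn (Oc l C) hPn := by
      refine hUle _ (Cn_normal _ hPn) ?_
      intro s hs g hg
      by_contra hsg
      exact hnt ⟨s, hs, g, hg, hsg⟩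
    exact hux (h1 hu x hx)

end Pool.Agent.Lib.MPbe1941.X
end

section
/-!
# MP_be1941_al EXACT, block T1: TPS, the translation for `G = H`, `phi = id`
-/
set_option autoImplicit false

namespace Pool.Agent.Lib.MPbe1941.X

open Pool.Agent.Lib.MPbe1941

namespace TPSM

variable {H X : Type} [Group H] [AddCommGroup X] [DistribMulAction H X] {p : ℕ} {C : Subgroup H}
  {T : Finset ℕ}

theorem N_eq (h : TS H X p C T) : h.ps.N = C := Subgroup.map_id C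

theorem P_eq (h : TS H X p C T) (l : ℕ) : h.ps.P l = Oc l C := by
  have h1 : h.ps.P l = Oc l h.ps.N := rfl
  rw [h1]
  exact congrArg (Oc l) (N_eq h)

theorem F_eq (h : TS H X p C T) : h.ps.F = Fit C := by
  have h1 : h.ps.F = Fit h.ps.N := rfl
  rw [h1]
  exact congrArg Fit (N_eq h)

/-- `h.ps.F` as a subgroup of `H` -/
noncomputable def FH (h : TS H X p C T) : Subgroup H := h.ps.F

/-- `h.ps.P l` as a subgroup of `H` -/
noncomputable def PH (h : TS H X p C T) (l : ℕ) : Subgroup H := h.ps.P l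

theorem FH_eq (h : TS H X p C T) : FH h = Fit C := F_eq h

theorem PH_eq (h : TS H X p C T) (l : ℕ) : PH h l = Oc l C := P_eq h l

theorem Ext_iff (h : TS H X p C T) (w : X) : h.ps.Ext w ↔ ExtV (Fit C) w := by
  have h1 : h.ps.Ext w ↔ ExtV (X := X) (FH h) w := Iff.rfl
  rw [h1, FH_eq h]

theorem Mi_iff (h : TS H X p C T) (w : X) (r : ℕ) (R : Subgroup H) :
    h.ps.Mi w r R ↔ MiH C w r R := Iff.rfl

theorem exists_ne {H : Type} [Group H] [Finite H] {r : ℕ} {R : Subgroup H}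
    (hd : r ∣ Nat.card H) (hR : SylIn r ⊤ R) : ∃ t ∈ R, t ≠ 1 := by
  by_contra hall
  push Not at hall
  have h1 : R = ⊥ := (Subgroup.eq_bot_iff_forall R).2 hall
  have h2 := hR.2.2
  rw [Subgroup.relIndex_top_right, h1, Subgroup.index_bot] at h2
  exact h2 hd

theorem Nt_of (h : TS H X p C T) {w : X} {r : ℕ} {R : Subgroup H} (hr : r ∈ T)
    (hM : MiH C w r R) : ∃ t ∈ R, ∃ v : X, t • v ≠ v := by
  have : Finite H := h.finH
  obtain ⟨t, ht, h1⟩ := exists_ne (h.tp r hr).2 hM.1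
  by_contra hall
  push Not at hall
  exact h1 (h.faith t (hM.2.1 ht) (hall t ht))

theorem Pr_iff (h : TS H X p C T) (w : X) (r : ℕ) (R : Subgroup H) (hr : r ∈ T) :
    h.ps.Pr w r R ↔ MiH C w r R :=
  ⟨fun h1 => h1.2.1, fun h1 => ⟨(h.tp r hr).1, h1, Nt_of h hr h1⟩⟩

theorem Good_iff (h : TS H X p C T) (w : X) (r : ℕ) (R : Subgroup H) (hr : r ∈ T) :
    h.ps.Good w r R ↔ Gd C w r R := by
  have h4 : (Dr H r).map (MonoidHom.id H) = Dr H r := Subgroup.map_id _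
  have h5 : h.ps.Good w r R ↔ h.ps.Pr w r R ∧ r ≠ 2 ∧
      (∀ x ∈ Or H r, ∀ g ∈ PH h 2, x * g = g * x) ∧
      (Dr H r).map (MonoidHom.id H) ≤ FH h := Iff.rfl
  rw [h5, PH_eq h 2, FH_eq h, h4, Pr_iff h w r R hr]
  exact Iff.rfl

theorem CP_iff (h : TS H X p C T) (l : ℕ) (x : H) :
    h.ps.CP l x ↔ ∀ g ∈ Oc l C, x * g = g * x := by
  have h5 : h.ps.CP l x ↔ ∀ g ∈ PH h l, x * g = g * x := Iff.rfl
  rw [h5, PH_eq h l]

end TPSM

theorem specTPS : SpecTPS := by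
  intro H X _ _ _ p C T h
  exact ⟨TPSM.P_eq h, TPSM.F_eq h, TPSM.Ext_iff h, TPSM.Mi_iff h,
    fun w r R hr => TPSM.Pr_iff h w r R hr, fun w r R hr => TPSM.Good_iff h w r R hr,
    TPSM.CP_iff h⟩

end Pool.Agent.Lib.MPbe1941.X
end

section
/-!
# MP_be1941_al EXACT, block T1: TCP
-/
set_option autoImplicit false

namespace Pool.Agent.Lib.MPbe1941.X

open Pool.Agent.Lib.MPbe1941

theorem specTCP (hOCF : SpecOCF) (hFTF : SpecFTF) (hPAA : SpecPAA) : SpecTCP := by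
  intro H X _ _ _ p C T h v r R hv hr hM
  have hfin : Finite H := h.finH
  have hrp : r.Prime := (h.tp r hr).1
  have hnor : C.Normal := h.nor
  have h1 : Oc r C = ⊥ := by
    rw [← TPSM.PH_eq h r]
    exact (hPAA h.ps v r R hv.1 hrp hM).2.1
  obtain ⟨-, hF2, -, -, hF5⟩ := hFTF H C
  have hcop : ¬ r ∣ Nat.card (Fit C) := by
    intro hd
    rw [hF5 (Fit C) le_rfl] at hd
    obtain ⟨l, hl, hdl⟩ := (Prime.dvd_finsetProd_iff hrp.prime _).1 hd
    have hlp : l.Prime := Nat.prime_of_mem_primeFactors hl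
    have hO : IsPGroup l (Fit C ⊓ Oc l C : Subgroup H) :=
      (hOCF H l hlp C).2.1.to_le inf_le_right
    have : Fact l.Prime := ⟨hlp⟩
    obtain ⟨k, hk⟩ := IsPGroup.iff_card.1 hO
    rw [hk] at hdl
    have hrl : r = l := (Nat.prime_dvd_prime_iff_eq hrp hlp).1 (hrp.dvd_of_dvd_pow hdl)
    subst hrl
    rw [← hk, h1, inf_bot_eq, Subgroup.card_bot] at hdl
    exact hrp.one_lt.ne' (Nat.dvd_one.1 hdl)
  refine ⟨hcop, fun x hx b hb => ?_⟩
  have h2 : b * x * b⁻¹ ∈ R := hM.2.2.2.2 b hb.2 x hx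
  have h3 : b * x * b⁻¹ * x⁻¹ ∈ R := R.mul_mem h2 (R.inv_mem hx)
  have h4 : x * b⁻¹ * x⁻¹ ∈ Fit C :=
    hF2 x (fun n hn => hnor.conj_mem n hn x) b⁻¹ ((Fit C).inv_mem hb.1)
  have h5 : b * x * b⁻¹ * x⁻¹ ∈ Fit C := by
    have e1 : b * x * b⁻¹ * x⁻¹ = b * (x * b⁻¹ * x⁻¹) := by group
    rw [e1]
    exact (Fit C).mul_mem hb.1 h4
  have h6 : b * x * b⁻¹ * x⁻¹ = 1 := by
    set y := b * x * b⁻¹ * x⁻¹ with hy
    obtain ⟨k, hk⟩ := hM.1.2.1 ⟨y, h3⟩
    have hk' : y ^ r ^ k = 1 := congrArg Subtype.val hk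
    have h7 : orderOf y ∣ r ^ k := orderOf_dvd_of_pow_eq_one hk'
    have h8 : orderOf y ∣ Nat.card (Fit C) := by
      have := orderOf_dvd_natCard (⟨y, h5⟩ : Fit C)
      rwa [Subgroup.orderOf_mk] at this
    obtain ⟨i, -, hi⟩ := (Nat.dvd_prime_pow hrp).1 h7
    rcases Nat.eq_zero_or_pos i with h0 | h0
    · rw [h0, pow_zero] at hi
      exact orderOf_eq_one_iff.1 hi
    · exfalso
      apply hcop
      refine dvd_trans ?_ h8
      rw [hi]
      exact dvd_pow_self r h0.ne'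
  have h9 : b * x = x * b := by
    have e2 : b * x = (b * x * b⁻¹ * x⁻¹) * (x * b) := by group
    rw [e2, h6, one_mul]
  exact h9.symm

end Pool.Agent.Lib.MPbe1941.X
end

section
/-!
# MP_be1941_al EXACT, block T1, module TFM: the family bound
-/
set_option autoImplicit false

namespace Pool.Agent.Lib.MPbe1941.X

open Pool.Agent.Lib.MPbe1941
open Pool.Agent.Lib.MPbe1941.XF
open scoped commutatorElement

namespace TFMM

variable {H X : Type} [Group H] [AddCommGroup X] [DistribMulAction H X] {p : ℕ}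
  {C : Subgroup H} {T : Finset ℕ}

/-- A special subgroup is special in the sense of `PS`. -/
theorem spc_of (hTPS : SpecTPS) (hPDB : SpecPDB) (hPDC : SpecPDC) (hSPA : SpecSPA)
    (hOCF : SpecOCF) (h : TS H X p C T) {l : ℕ} {Q : Subgroup H} (hQ : Spq X C T l Q) :
    h.ps.Spc l Q := by
  haveI := h.finH
  obtain ⟨hl, v, r, R, hv, hr, hG, hN, rfl⟩ := hQ
  obtain ⟨hl2, hlr, hcomm⟩ := TSNM.comm_eq hTPS hPDB h hv hr hG hl hN
  obtain ⟨hP, hF, hExt, hMi, hPr, hGood, hCP⟩ := hTPS H X p C T h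
  have hE : h.ps.Ext v := (hExt v).2 hv
  have hGo : h.ps.Good v r R := (hGood v r R hr).2 hG
  obtain ⟨-, -, -, -, -, -, g7, g8⟩ := hPDC h.ps v hE
  obtain ⟨-, -, -, -, -, -, -, f8⟩ := hPDB h.ps v hE r R hGo
  obtain ⟨x, hx, y, hy, hne⟩ := hN
  have hn' : ¬ h.ps.CP l x := fun h1 => hne ((hCP l x).1 h1 y hy)
  obtain ⟨-, -, a, Q1, hPow1, -, hQ1⟩ := f8 l hl x hx hn'
  obtain ⟨-, -, b, Q2, hPow2, -, hQ2⟩ := g8 r l R hl hGo x hx hn'
  have hQQ : Q1 = Q2 := by rw [hPow1.2.1, hPow2.2.1]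
  have e1 : Dr H r ⊓ Oc l C = Q1 := by
    have e2 : (Dr H r).map (MonoidHom.id H) ⊓ h.ps.P l = Q1 := hQ1
    rw [hP l, Subgroup.map_id] at e2
    exact e2
  obtain ⟨Dv, hDv⟩ : ∃ Dv : Subgroup H, Dv = h.ps.D v := ⟨_, rfl⟩
  have e3 : Dv ⊓ Oc l C = Q1 := by
    have e2 : Dv.map (MonoidHom.id H) ⊓ h.ps.P l = Q2 := by rw [hDv]; exact hQ2
    rw [hP l, Subgroup.map_id] at e2
    rw [e2, hQQ]
  have e4 : ⁅Oc l C, R⁆ = Dv ⊓ Oc l C := by rw [hcomm, e1, e3]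
  obtain ⟨s1, s2, -, -⟩ := hSPA h.ps v hE l hl
  have e5 : (Lp l Dv : Subgroup H) = ⁅Oc l C, R⁆ := by
    ext z
    have s2' : z ∈ Lp l Dv ↔ z ∈ Dv ∧ LE l z := by rw [hDv]; exact s2 z
    rw [s2', e4, Subgroup.mem_inf]
    constructor
    · rintro ⟨h1, h2⟩
      refine ⟨h1, ?_⟩
      have h3 : z ∈ (h.ps.P l : Subgroup H) := g7 l hl z (by rw [hDv] at h1; exact h1) h2
      rwa [hP l] at h3
    · rintro ⟨h1, h2⟩
      refine ⟨h1, ?_⟩
      obtain ⟨n, hn⟩ := (hOCF H l hl C).2.1 ⟨z, h2⟩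
      exact ⟨n, congrArg Subtype.val hn⟩
  have s1' : h.ps.Spc l (Lp l Dv : Subgroup H) := by rw [hDv]; exact s1
  rw [e5] at s1'
  exact s1'

end TFMM

open TFMM in
theorem specTFM (hTPS : SpecTPS) (hPDB : SpecPDB) (hPDC : SpecPDC) (hSPA : SpecSPA)
    (hOCF : SpecOCF) (hSPM : SpecSPM) (hPBX : SpecPBX) (hPEM : SpecPEM) (hPE1 : SpecPE1)
    (hTSN : SpecTSN) : SpecTFM := by
  classical
  intro H X _ _ _ p C T h I Q hQ U hUT hU
  haveI := h.finH
  obtain ⟨E, hE⟩ : ∃ E : Subgroup H, E = sSup {K : Subgroup H | ∃ l ∈ I, K = Q l} := ⟨_, rfl⟩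
  have hspm := hSPM h.ps I Q (fun l hl => spc_of hTPS hPDB hPDC hSPA hOCF h (hQ l hl))
  have hA : h.ps.Adm E := by rw [hE]; exact hspm.1
  have hCyc : h.ps.Cyc E := by rw [hE]; exact hspm.2.1
  obtain ⟨K, hK1, hK2⟩ : ∃ K : Subgroup H, E ⊓ K = ⊥ ∧ E ⊔ K = ⊤ := by
    rw [hE]; exact hspm.2.2.1
  have hQE : ∀ l ∈ I, ∀ x : H, (x ∈ E ∧ LE l x) ↔ x ∈ Q l := by
    rw [hE]; exact hspm.2.2.2.1
  obtain ⟨bet, b1, b2, b3⟩ : ∃ bet : H → ℂ, Lin E bet ∧ Full E bet ∧ h.ps.InvB E bet :=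
    hPBX h.ps E hA
  have hEn : E.Normal := hA.1
  have hEC : E ≤ C := hA.2.1
  have hEab : ∀ x ∈ E, ∀ y ∈ E, x * y = y * x := hA.2.2.1
  have hst : StV C (0 : X) E bet :=
    { le := hEC
      fx := fun d _ => smul_zero d
      nor := fun g _ d hd => hEn.conj_mem d hd g
      ab := hEab
      cpl := by
        refine ⟨K, fun k _ => smul_zero k, hK1, fun g _ => ?_⟩
        have h1 : g ∈ E ⊔ K := by rw [hK2]; exact Subgroup.mem_top g
        obtain ⟨d, hd, k, hk, hdk⟩ := (mem_sup (nrm_of_normal (S := K) hEn)).1 h1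
        exact ⟨d, hd, k, hk, hdk.symm⟩
      lin := b1 }
  have hti := h.tight 0 E bet hst
  have hU1 : U ⊆ setA T (0 : X) E bet := by
    intro r hr
    unfold setA
    rw [Finset.mem_filter]
    refine ⟨hUT hr, fun R' hR' => ?_⟩
    by_contra hcon
    push Not at hcon
    have hrp : r.Prime := (h.tp r (hUT hr)).1
    obtain ⟨l, hl, x, hx, a, ha1, ha2⟩ := hU r hr
    obtain ⟨hlp, v, r', R, hv, hr', hG, hN, hQl⟩ := hQ l hl
    obtain ⟨-, hQn, hQne⟩ := hTSN H X p C T h v r' R hv hr' hG l hlp hN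
    rw [← hQl] at hQn hQne
    -- a conjugate of `x` in `R'`
    obtain ⟨g, hg⟩ : ∃ g : H, g * x * g⁻¹ ∈ R' := by
      have h1 : IsPGroup r (Subgroup.zpowers x) := by
        obtain ⟨n, hn⟩ := hx
        obtain ⟨k, -, hk⟩ := (Nat.dvd_prime_pow hrp).1 (orderOf_dvd_of_pow_eq_one hn)
        haveI : Fact r.Prime := ⟨hrp⟩
        rw [IsPGroup.iff_card]
        exact ⟨k, by rw [Nat.card_zpowers, hk]⟩
      obtain ⟨R1, hR1, hR2⟩ := (CO.specSYL H r hrp).2.1 ⊤ (Subgroup.zpowers x) le_top h1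
      obtain ⟨g, -, hg⟩ := (CO.specSYL H r hrp).2.2.1 ⊤ R1 R' hR1 hR'
      refine ⟨g, ?_⟩
      rw [hg]
      have h2 : g⁻¹ * (g * x * g⁻¹) * g = x := by group
      rw [h2]
      exact hR2 (Subgroup.mem_zpowers x)
    have hfix := (hcon _ hg).2
    -- an element `q`
    have hQleE : Q l ≤ E := fun z hz => ((hQE l hl z).2 hz).1
    have hlE : l ∣ Nat.card E := by
      obtain ⟨z, hz, hz1⟩ : ∃ z ∈ Q l, z ≠ 1 := by
        by_contra hno
        push Not at hno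
        exact hQne ((Subgroup.eq_bot_iff_forall _).2 hno)
      obtain ⟨n, hn⟩ := ((hQE l hl z).2 hz).2
      obtain ⟨k, -, hk⟩ := (Nat.dvd_prime_pow hlp).1 (orderOf_dvd_of_pow_eq_one hn)
      have hk0 : k ≠ 0 := by
        rintro rfl
        rw [pow_zero, orderOf_eq_one_iff] at hk
        exact hz1 hk
      have h1 : l ∣ orderOf z := by rw [hk]; exact dvd_pow_self l hk0
      refine h1.trans ?_
      have h2 := orderOf_dvd_natCard (⟨z, hQleE hz⟩ : E)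
      rwa [Subgroup.orderOf_mk] at h2
    obtain ⟨q, hqE, ⟨n, hn⟩, hq1⟩ := b2 l hlp hlE
    have hq : q ∈ Q l := (hQE l hl q).1 ⟨hqE, n, hn⟩
    have hqg : g⁻¹ * q * g ∈ Q l := by
      have := hQn.conj_mem q hq g⁻¹
      rwa [inv_inv] at this
    have h9 := ha2 _ hqg
    have h10 : g * x * g⁻¹ * q * (g * x * g⁻¹)⁻¹ = q ^ a := by
      have h1 : g * x * g⁻¹ * q * (g * x * g⁻¹)⁻¹ = g * (x * (g⁻¹ * q * g) * x⁻¹) * g⁻¹ := by
        group
      have h2 : g⁻¹ * q * g = g⁻¹ * q * (g⁻¹)⁻¹ := by rw [inv_inv]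
      rw [h1, h9, h2, conj_zpow]
      group
    have hfix2 := hfix q hqE
    rw [h10] at hfix2
    obtain ⟨ψ, hψ⟩ := PE2M.lin_hom b1
    apply hq1
    have h11 : (ψ ⟨q, hqE⟩) = 1 := by
      refine PE2M.eq_one_of hlp (n := n) (a := a) ?_ ?_ ha1
      · rw [← map_pow]
        have : (⟨q, hqE⟩ : E) ^ l ^ n = 1 := Subtype.ext hn
        rw [this, map_one]
      · rw [← map_zpow]
        apply Units.ext
        rw [hψ, hψ]
        exact hfix2
    have h12 := hψ ⟨q, hqE⟩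
    rw [h11] at h12
    exact h12.symm
  have hM1 : setM C T (0 : X) E bet ⊆ PiK H X T := by
    intro r hr
    unfold setM at hr
    rw [Finset.mem_filter] at hr
    obtain ⟨hrT, R', hR1, hR2, hR3, hR4, hR5⟩ := hr
    have hrp : r.Prime := (h.tp r hrT).1
    unfold PiK
    rw [Finset.mem_filter]
    refine ⟨hrT, fun v hv R hR => ?_⟩
    by_cases hd : r ∣ Nat.card E
    · exact hPE1 h.ps E r R v hA hrp hd hR hv
    · obtain ⟨hn, -, -⟩ := hPEM h.ps E bet r R' hA hCyc b1 b2 b3 hrp hd hR1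
        (fun t ht => (hR3 t ht).2) hR4 (fun (g : H) hg t ht => hR5 g ⟨smul_zero g, hg⟩ t ht)
      have hn' : R'.Normal := hn
      by_contra hcon
      push Not at hcon
      have hRR : R' ≤ R := by
        obtain ⟨g, -, hg⟩ := (CO.specSYL H r hrp).2.2.1 ⊤ R' R hR1 hR
        intro z hz
        rw [hg]
        have := hn'.conj_mem z hz g⁻¹
        rwa [inv_inv] at this
      obtain ⟨A, hAm⟩ : ∃ A : AddSubgroup X, ∀ x, x ∈ A ↔ ∀ g ∈ R', g • x = x := by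
        refine ⟨{ carrier := {x | ∀ g ∈ R', g • x = x}
                  zero_mem' := fun g _ => smul_zero g
                  add_mem' := ?_
                  neg_mem' := ?_ }, fun x => Iff.rfl⟩
        · intro x y hx hy g hg
          rw [smul_add, hx g hg, hy g hg]
        · intro x hx g hg
          rw [smul_neg, hx g hg]
      have hAinv : ∀ g : H, ∀ x ∈ A, g • x ∈ A := by
        intro g x hx
        rw [hAm] at hx ⊢
        intro t ht
        have h1 : g⁻¹ * t * g ∈ R' := by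
          have := hn'.conj_mem t ht g⁻¹
          rwa [inv_inv] at this
        have h2 := hx _ h1
        rw [← mul_smul]
        have h3 : t * g = g * (g⁻¹ * t * g) := by group
        rw [h3, mul_smul, h2]
      have hvA : v ∈ A := (hAm v).2 (fun g hg => hcon g (hRR hg))
      rcases h.irr A hAinv with h1 | h1
      · rw [h1, AddSubgroup.mem_bot] at hvA
        exact hv hvA
      · obtain ⟨t, ht, ht1⟩ := TPSM.exists_ne (h.tp r hrT).2 hR1
        apply ht1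
        apply h.faith t (hR2 ht)
        intro x
        have hx : x ∈ A := by rw [h1]; exact AddSubgroup.mem_top x
        exact (hAm x).1 hx t ht
  exact (Finset.card_le_card hU1).trans (hti.trans (Finset.card_le_card hM1))

end Pool.Agent.Lib.MPbe1941.X
end

section
/-!
# MP_be1941_al EXACT, block T1: TSE, semiregularity
-/
set_option autoImplicit false

namespace Pool.Agent.Lib.MPbe1941.X

open Pool.Agent.Lib.MPbe1941

theorem specTSE (hPSR : SpecPSR) : SpecTSE := by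
  intro H X _ _ _ p C T h v hv y hy
  have hfin : Finite H := h.finH
  have h1 : y ≠ 0 → Stb (Fit C) y = Stb (Fit C) v := by
    intro hy0
    have h2 : Stb (Fit C) v ≤ Stb (Fit C) y := fun b hb => ⟨hb.1, hy b hb⟩
    exact (Subgroup.eq_of_le_of_card_ge h2 (hv.2 y hy0)).symm
  refine ⟨fun hy0 => ⟨⟨hy0, fun w hw => ?_⟩, h1 hy0⟩, ?_⟩
  · rw [h1 hy0]
    exact hv.2 w hw
  · intro l hl
    have hle : Oc l C ≤ Fit C := le_sSup ⟨l, hl, rfl⟩
    refine ⟨fun hy0 => ?_, fun n hn => ?_⟩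
    · have h2 : ∀ w : X, Stb (Oc l C) w = Oc l C ⊓ Stb (Fit C) w := by
        intro w
        ext g
        exact ⟨fun hg => ⟨hg.1, hle hg.1, hg.2⟩, fun hg => ⟨hg.1, hg.2.2⟩⟩
      rw [h2, h2, h1 hy0]
    · have h2 : ∀ x ∈ TPSM.PH h l, (∀ b : H, b ∈ Stb (TPSM.PH h l) v ↔
          x * b * x⁻¹ ∈ Stb (TPSM.PH h l) v) → ∀ y : X, (∀ b ∈ Stb (TPSM.FH h) v, b • y = y) →
          (∀ b ∈ Stb (TPSM.FH h) v, b • (x • y) = x • y) ∧
          (y ≠ 0 → x • y = y → x ∈ Stb (TPSM.PH h l) v) :=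
        hPSR h.ps v ((TPSM.Ext_iff h v).2 hv) l hl
      rw [TPSM.PH_eq h l, TPSM.FH_eq h] at h2
      exact h2 n hn.1 hn.2 y hy

end Pool.Agent.Lib.MPbe1941.X
end

section
/-!
# MP_be1941_al EXACT, block U: UDB, the group `D = DT C T v`
-/
set_option autoImplicit false

namespace Pool.Agent.Lib.MPbe1941.X

open Pool.Agent.Lib.MPbe1941

namespace UDBM

/-- elements of the sup of a subgroup `Q` normalised by `B` -/
theorem mem_sup_norm {G : Type} [Group G] {Q B : Subgroup G}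
    (h : ∀ b ∈ B, ∀ q ∈ Q, b * q * b⁻¹ ∈ Q) {x : G} (hx : x ∈ Q ⊔ B) :
    ∃ q ∈ Q, ∃ b ∈ B, x = q * b := by
  let K : Subgroup G :=
    { carrier := {x | ∃ q ∈ Q, ∃ b ∈ B, x = q * b}
      one_mem' := ⟨1, Q.one_mem, 1, B.one_mem, by simp⟩
      mul_mem' := by
        rintro _ _ ⟨q, hq, b, hb, rfl⟩ ⟨q', hq', b', hb', rfl⟩
        refine ⟨q * (b * q' * b⁻¹), Q.mul_mem hq (h b hb q' hq'), b * b', B.mul_mem hb hb', ?_⟩
        group
      inv_mem' := by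
        rintro _ ⟨q, hq, b, hb, rfl⟩
        refine ⟨b⁻¹ * q⁻¹ * b⁻¹⁻¹, h b⁻¹ (B.inv_mem hb) q⁻¹ (Q.inv_mem hq), b⁻¹, B.inv_mem hb, ?_⟩
        group }
  have hle : Q ⊔ B ≤ K := by
    refine sup_le (fun q hq => ⟨q, hq, 1, B.one_mem, by simp⟩) fun b hb =>
      ⟨1, Q.one_mem, b, hb, by simp⟩
  exact hle hx

end UDBM

open Classical in
theorem specUDB (hPSB : SpecPSB) (hRLO : SpecRLO) (hPDB : SpecPDB) (hPDC : SpecPDC)
    (hSPA : SpecSPA) (hSPM : SpecSPM) (hPE1 : SpecPE1) : SpecUDB := by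
  intro H X _ _ _ p C T h v hv
  have hfin : Finite H := h.finH
  have hE : h.ps.Ext v := (TPSM.Ext_iff h v).2 hv
  have hGd : ∀ r ∈ T, ∀ R : Subgroup H, Gd C v r R → h.ps.Good v r R := fun r hr R hG =>
    (TPSM.Good_iff h v r R hr).2 hG
  -- the group `D(v)` of PROP
  obtain ⟨DD, hDD⟩ : ∃ DD : Subgroup H, DD = h.ps.D v := ⟨_, rfl⟩
  have hC1 : DD.Normal ∧ DD ≤ C ∧ ∀ x ∈ DD, ∀ y ∈ DD, x * y = y * x := by
    rw [hDD]; exact (hPDC h.ps v hE).1
  have hC3 : ∀ (r l : ℕ) (R : Subgroup H), l.Prime → h.ps.Good v r R →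
      (∃ t ∈ R, ¬ h.ps.CP l t) → ∀ x ∈ DD, LE l x → x ∈ Dr H r := by
    rw [hDD]; exact (hPDC h.ps v hE).2.2.1
  have hC5 : ∀ (r : ℕ) (R : Subgroup H), h.ps.Good v r R → ¬ r ∣ Nat.card DD := by
    rw [hDD]; exact (hPDC h.ps v hE).2.2.2.2.1
  have hC7 : ∀ l, l.Prime → ∀ x ∈ DD, LE l x → x ∈ Oc l C := by
    rw [hDD]
    intro l hl x hx hlx
    rw [← TPSM.PH_eq h l]
    exact (hPDC h.ps v hE).2.2.2.2.2.2.1 l hl x hx hlx
  have hC8 : ∀ (r l : ℕ) (R : Subgroup H), l.Prime → h.ps.Good v r R → ∀ t ∈ R,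
      ¬ h.ps.CP l t → ∃ Q : Subgroup H, Q ≤ Oc l C ∧ Q ⊓ Stb (Oc l C) v = ⊥ ∧
        Q ⊔ Stb (Oc l C) v = Oc l C ∧ (∀ x ∈ Oc l C, ∀ y ∈ Q, x * y * x⁻¹ ∈ Q) ∧
        DD ⊓ Oc l C = Q := by
    intro r l R hl hG t ht hCP
    obtain ⟨-, -, a, Q, hPow, -, hQ⟩ := (hPDC h.ps v hE).2.2.2.2.2.2.2 r l R hl hG t ht hCP
    obtain ⟨Q', hQ'⟩ : ∃ Q' : Subgroup H, Q' = Q := ⟨Q, rfl⟩
    have h1 : Q' ≤ TPSM.PH h l := by rw [hQ']; exact hPow.1
    have h2 : Q' ⊓ Stb (TPSM.PH h l) v = ⊥ := by rw [hQ']; exact hPow.2.2.2.2.1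
    have h3 : Q' ⊔ Stb (TPSM.PH h l) v = TPSM.PH h l := by rw [hQ']; exact hPow.2.2.2.2.2.1
    have h4 : ∀ x ∈ TPSM.PH h l, ∀ y ∈ Q', x * y * x⁻¹ ∈ Q' := by
      rw [hQ']; exact hPow.2.2.2.2.2.2.2.2.2.1
    have h5 : DD.map (MonoidHom.id H) ⊓ TPSM.PH h l = Q' := by
      rw [hQ', hDD]; exact hQ
    rw [Subgroup.map_id] at h5
    rw [TPSM.PH_eq h l] at h1 h2 h3 h4 h5
    exact ⟨Q', h1, h2, h3, h4, h5⟩
  have hDle : ∀ r (R : Subgroup H), h.ps.Good v r R → Dr H r ≤ DD := by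
    intro r R hG
    rw [hDD]
    exact le_sSup (⟨r, R, hG, rfl⟩ : Dr H r ∈ {K : Subgroup H | ∃ r R, h.ps.Good v r R ∧
      K = Dr H r})
  have hDT : DT C T v ≤ DD := sSup_le fun K hK => by
    obtain ⟨r, hr, R, hG, rfl⟩ := hK
    exact hDle r R (hGd r hr R hG)
  have hDr : ∀ r ∈ T, ∀ R : Subgroup H, Gd C v r R → Dr H r ≤ DT C T v := fun r hr R hG =>
    le_sSup (⟨r, hr, R, hG, rfl⟩ : Dr H r ∈ {K | ∃ r ∈ T, ∃ R, Gd C v r R ∧ K = Dr H r})
  -- the group `E`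
  set I : Finset ℕ := (Nat.card H).primeFactors.filter fun l => ∃ r ∈ T, ∃ R : Subgroup H,
    Gd C v r R ∧ ∃ t ∈ R, ¬ h.ps.CP l t with hI
  have hSp : ∀ l ∈ I, h.ps.Spc l (Lp l DD) := by
    intro l hl
    have hlp : l.Prime := Nat.prime_of_mem_primeFactors (Finset.mem_filter.1 hl).1
    rw [hDD]
    exact (hSPA h.ps v hE l hlp).1
  have hLp : ∀ l, l.Prime → ∀ x : H, x ∈ Lp l DD ↔ x ∈ DD ∧ LE l x := by
    rw [hDD]
    exact fun l hl => (hSPA h.ps v hE l hl).2.1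
  obtain ⟨E, hEd⟩ : ∃ E : Subgroup H, E = sSup {K | ∃ l ∈ I, K = Lp l DD} := ⟨_, rfl⟩
  obtain ⟨hAdm, -, ⟨K, hK⟩, hM4, hM5⟩ := hSPM h.ps I (fun l => Lp l DD) hSp
  have hAdm' : h.ps.Adm E := by rw [hEd]; exact hAdm
  have hK' : E ⊓ K = ⊥ ∧ E ⊔ K = ⊤ := by rw [hEd]; exact hK
  have hM4' : ∀ l ∈ I, ∀ x : H, (x ∈ E ∧ LE l x) ↔ x ∈ Lp l DD := by rw [hEd]; exact hM4
  have hM5' : ∀ l, l.Prime → l ∣ Nat.card E → l ∈ I := by
    rw [hEd]; exact fun l hl hd => (hM5 l hl hd).1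
  have hEn : E.Normal ∧ E ≤ C ∧ ∀ x ∈ E, ∀ y ∈ E, x * y = y * x := by
    obtain ⟨h1, h2, h3, -⟩ := hAdm'
    exact ⟨h1, h2, h3⟩
  have hB7 : ∀ r (R : Subgroup H), h.ps.Good v r R → ∀ l, l.Prime → ∀ s ∈ R, h.ps.CP l s →
      ∀ x ∈ Dr H r, LE l x → s * x = x * s := fun r R hG =>
    (hPDB h.ps v hE r R hG).2.2.2.2.2.2.1
  have hB4 : ∀ r (R : Subgroup H), h.ps.Good v r R → ∀ x ∈ Dr H r,
      (∀ s ∈ R, s * x = x * s) → x = 1 := fun r R hG => (hPDB h.ps v hE r R hG).2.2.2.1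
  have hEq : DT C T v = E := by
    apply le_antisymm
    · refine sSup_le fun K hK => ?_
      obtain ⟨r, hr, R, hG, rfl⟩ := hK
      have hG' := hGd r hr R hG
      apply PDBM.le_gen
      intro l hl x hx hlx
      by_cases hx1 : x = 1
      · rw [hx1]; exact E.one_mem
      · have hlI : l ∈ I := by
          rw [hI, Finset.mem_filter, Nat.mem_primeFactors]
          refine ⟨⟨hl, ?_, Nat.card_pos.ne'⟩, r, hr, R, hG, ?_⟩
          · obtain ⟨n, hn⟩ := hlx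
            obtain ⟨j, -, hj⟩ := (Nat.dvd_prime_pow hl).1 (orderOf_dvd_of_pow_eq_one hn)
            have hj0 : j ≠ 0 := by
              rintro rfl
              rw [pow_zero] at hj
              exact hx1 (orderOf_eq_one_iff.1 hj)
            exact ((dvd_pow_self l hj0).trans (dvd_of_eq hj.symm)).trans (orderOf_dvd_natCard x)
          · by_contra hall
            push Not at hall
            exact hx1 (hB4 r R hG' x hx fun s hs => hB7 r R hG' l hl s hs (hall s hs) x hx hlx)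
        exact ((hM4' l hlI x).2 ((hLp l hl x).2 ⟨hDle r R hG' hx, hlx⟩)).1
    · rw [hEd]
      refine sSup_le fun K hK => ?_
      obtain ⟨l, hlI, rfl⟩ := hK
      have hlI' := hlI
      rw [hI, Finset.mem_filter, Nat.mem_primeFactors] at hlI'
      obtain ⟨⟨hl, -, -⟩, r, hr, R, hG, t, ht, hCP⟩ := hlI'
      intro x hx
      obtain ⟨hx1, hx2⟩ := (hLp l hl x).1 hx
      have h1 : x ∈ Dr H r := hC3 r l R hl (hGd r hr R hG) ⟨t, ht, hCP⟩ x hx1 hx2
      exact hDr r hr R hG h1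
  -- data for a prime dividing the order
  have hdat : ∀ l, l.Prime → l ∣ Nat.card (DT C T v) → ∃ r ∈ T, ∃ R : Subgroup H,
      Gd C v r R ∧ ∃ t ∈ R, ¬ h.ps.CP l t := by
    intro l hl hd
    rw [hEq] at hd
    exact (Finset.mem_filter.1 (hM5' l hl hd)).2
  have hdvd : ∀ (l : ℕ) (x : H), l.Prime → x ∈ DT C T v → LE l x → x ≠ 1 →
      l ∣ Nat.card (DT C T v) := by
    rintro l x hl hx ⟨n, hn⟩ hx1
    obtain ⟨j, -, hj⟩ := (Nat.dvd_prime_pow hl).1 (orderOf_dvd_of_pow_eq_one hn)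
    have hj0 : j ≠ 0 := by
      rintro rfl
      rw [pow_zero] at hj
      exact hx1 (orderOf_eq_one_iff.1 hj)
    have h2 := orderOf_dvd_natCard (⟨x, hx⟩ : DT C T v)
    rw [Subgroup.orderOf_mk] at h2
    exact ((dvd_pow_self l hj0).trans (dvd_of_eq hj.symm)).trans h2
  refine ⟨by rw [hEq]; exact hEn, ?_, ?_, ?_, ?_, ?_, ?_⟩
  · intro r hr R hG
    have hG' := hGd r hr R hG
    obtain ⟨h1, -, h3, -, -, h6, -⟩ := hRLO H h.sol r R (h.tp r hr).1 hG.1.1 hG.1.2.2.1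
    refine ⟨h1, h3, ?_, (hPDB h.ps v hE r R hG').2.2.2.2.1, ?_, h6, hB4 r R hG'⟩
    · exact hDr r hr R hG
    · intro hd
      exact hC5 r R hG' (hd.trans (Subgroup.card_dvd_of_le hDT))
  · intro x hx hcom
    by_contra hx1
    obtain ⟨l, j, hl, hlj, hj1⟩ := PDCM.exists_pp hx1
    have hxj : x ^ j ∈ DT C T v := (DT C T v).pow_mem hx j
    obtain ⟨r, hr, R, hG, t, ht, hCP⟩ := hdat l hl (hdvd l (x ^ j) hl hxj hlj hj1)
    have hG' := hGd r hr R hG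
    have h1 : x ^ j ∈ Dr H r := hC3 r l R hl hG' ⟨t, ht, hCP⟩ _ (hDT hxj) hlj
    refine hj1 (hB4 r R hG' _ h1 fun s hs => ?_)
    have h2 : Commute s x := hcom r hr R hG s hs
    exact h2.pow_right j
  · intro x hx hxv
    by_contra hx1
    obtain ⟨l, j, hl, hlj, hj1⟩ := PDCM.exists_pp hx1
    have hxj : x ^ j ∈ DT C T v := (DT C T v).pow_mem hx j
    obtain ⟨r, hr, R, hG, t, ht, hCP⟩ := hdat l hl (hdvd l (x ^ j) hl hxj hlj hj1)
    have hG' := hGd r hr R hG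
    obtain ⟨Q, -, h2, -, -, h5⟩ := hC8 r l R hl hG' t ht hCP
    have h6 : x ^ j ∈ Oc l C := hC7 l hl _ (hDT hxj) hlj
    have h7 : x ^ j ∈ Q := by rw [← h5]; exact ⟨hDT hxj, h6⟩
    have h8 : x ^ j • v = v := by
      have h9 : x ∈ MulAction.stabilizer H v := hxv
      exact (MulAction.stabilizer H v).pow_mem h9 j
    have h10 : x ^ j ∈ Q ⊓ Stb (Oc l C) v := ⟨h7, h6, h8⟩
    rw [h2] at h10
    exact hj1 (Subgroup.mem_bot.1 h10)
  · intro l hlT hd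
    unfold PiK
    rw [Finset.mem_filter]
    refine ⟨hlT, fun w hw R hR => ?_⟩
    rw [hEq] at hd
    exact hPE1 h.ps E l R w hAdm' (h.tp l hlT).1 hd hR hw
  · intro l hl hd x hx
    obtain ⟨r, hr, R, hG, t, ht, hCP⟩ := hdat l hl hd
    have hG' := hGd r hr R hG
    obtain ⟨Q, h1, h2, h3, h4, h5⟩ := hC8 r l R hl hG' t ht hCP
    rw [← h3] at hx
    obtain ⟨q, hq, b, hb, rfl⟩ := UDBM.mem_sup_norm (Q := Q) (B := Stb (Oc l C) v)
      (fun b hb q hq => h4 b hb.1 q hq) hx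
    have hqD : q ∈ DD := by
      rw [← h5] at hq
      exact hq.1
    have hP : IsPGroup l (Oc l C) := by
      have h6 : IsPGroup l (TPSM.PH h l) := ((hPSB h.ps).2.2.2.1 l hl).2.1
      rwa [TPSM.PH_eq h l] at h6
    have hql : LE l q := PDBM.le_of_p hP (h1 hq)
    have hqT : q ∈ DT C T v := by
      have h7 : q ∈ Dr H r := hC3 r l R hl hG' ⟨t, ht, hCP⟩ q hqD hql
      exact hDr r hr R hG h7
    exact ⟨q, hqT, hql, b, hb.1, hb.2, rfl⟩
  · rw [hEq]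
    exact ⟨K, hK'⟩

end Pool.Agent.Lib.MPbe1941.X
end
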