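import Pool.Agent.Lib.MP_be1941_al.X.SpecQ
import Pool.Agent.Lib.MP_be1941_al.X.SPR
import Pool.Agent.Lib.MP_be1941_al.X.REL
import Pool.Agent.Lib.MP_be1941_al.X.RLO
import Pool.Agent.Lib.MP_be1941_al.X.LTC
import Pool.Agent.Lib.MP_be1941_al.X.LFO
import Pool.Agent.Lib.MP_be1941_al.X.PSB
import Pool.Agent.Lib.MP_be1941_al.X.FRT
import Pool.Agent.Lib.MP_be1941_al.X.SPM
import Pool.Agent.Lib.MP_be1941_al.X.PEM
import Pool.Agent.Lib.MP_be1941_al.X.UDB
import Pool.Agent.Lib.MP_be1941_al.X.TTW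
import Pool.Agent.Lib.MP_be1941_al.X.TG3
import Pool.Agent.Lib.MP_be1941_al.X.UTW
import Pool.Agent.Lib.MP_be1941_al.X.TGB
import Pool.Agent.Lib.MP_be1941_al.X.QSF

section
/-!
# Module SPA: the `l`-parts of `D(w)` are special
-/
set_option autoImplicit false

namespace Pool.Agent.Lib.MPbe1941.X

open Pool.Agent.Lib.MPbe1941

namespace SPAM

variable {H : Type} [Group H] {l : ℕ}

theorem mem_Lp {E : Subgroup H} (hE : ∀ x ∈ E, ∀ y ∈ E, x * y = y * x) (x : H) :
    x ∈ Lp l E ↔ x ∈ E ∧ LE l x := by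
  constructor
  · intro hx
    unfold Lp at hx
    induction hx using Subgroup.closure_induction with
    | mem x hx => exact hx
    | one => exact ⟨E.one_mem, 0, one_pow _⟩
    | mul x y _ _ hx hy =>
      obtain ⟨n, hn⟩ := hx.2
      obtain ⟨m, hm⟩ := hy.2
      refine ⟨E.mul_mem hx.1 hy.1, n + m, ?_⟩
      have hc : Commute x y := hE x hx.1 y hy.1
      have e1 : x ^ l ^ (n + m) = 1 := by rw [pow_add, pow_mul, hn, one_pow]
      have e2 : y ^ l ^ (n + m) = 1 := by rw [pow_add, mul_comm, pow_mul, hm, one_pow]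
      rw [hc.mul_pow, e1, e2, one_mul]
    | inv x _ hx =>
      obtain ⟨n, hn⟩ := hx.2
      exact ⟨E.inv_mem hx.1, n, by rw [inv_pow, hn, inv_one]⟩
  · intro hx
    exact Subgroup.subset_closure hx

theorem eq_one_of_coprime {x : H} {m n : ℕ} (h : m.Coprime n) (h1 : x ^ m = 1) (h2 : x ^ n = 1) :
    x = 1 :=
  orderOf_eq_one_iff.1 (Nat.Coprime.eq_one_of_dvd (Nat.Coprime.coprime_dvd_left
    (orderOf_dvd_of_pow_eq_one h1) h) (orderOf_dvd_of_pow_eq_one h2))

/-- the elements of `D` killed by `N` -/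
def Kl (D : Subgroup H) (hD : ∀ x ∈ D, ∀ y ∈ D, x * y = y * x) (N : ℕ) : Subgroup H where
  carrier := {x | x ∈ D ∧ x ^ N = 1}
  one_mem' := ⟨D.one_mem, one_pow N⟩
  mul_mem' := fun {a b} ha hb => ⟨D.mul_mem ha.1 hb.1, by
    have hc : Commute a b := hD a ha.1 b hb.1
    rw [hc.mul_pow, ha.2, hb.2, one_mul]⟩
  inv_mem' := fun {a} ha => ⟨D.inv_mem ha.1, by rw [inv_pow, ha.2, inv_one]⟩

theorem Kl_normal {D : Subgroup H} (hD : ∀ x ∈ D, ∀ y ∈ D, x * y = y * x) (hn : D.Normal) (N : ℕ) :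
    (Kl D hD N).Normal := by
  refine ⟨fun x hx g => ⟨hn.conj_mem x hx.1 g, ?_⟩⟩
  rw [conj_pow, hx.2, mul_one, mul_inv_cancel]

theorem pow_card {D : Subgroup H} {x : H} (hx : x ∈ D) : x ^ Nat.card D = 1 := by
  have h := congrArg Subtype.val (pow_card_eq_one' (x := (⟨x, hx⟩ : D)))
  exact h

/-- the `l`-part of a complemented abelian normal subgroup is complemented -/
theorem compl [Finite H] (hl : l.Prime) {D K : Subgroup H}
    (hD : ∀ x ∈ D, ∀ y ∈ D, x * y = y * x) (hn : D.Normal) (h1 : D ⊓ K = ⊥) (h2 : D ⊔ K = ⊤) :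
    ∃ K' : Subgroup H, Lp l D ⊓ K' = ⊥ ∧ Lp l D ⊔ K' = ⊤ := by
  set c := Nat.card D with hc
  have hc0 : c ≠ 0 := Nat.card_pos.ne'
  have hcop : (ordProj[l] c).Coprime (ordCompl[l] c) :=
    Nat.Coprime.pow_left _ (Nat.coprime_ordCompl hl hc0)
  have hmul : ordProj[l] c * ordCompl[l] c = c := Nat.ordProj_mul_ordCompl_eq_self c l
  have hKn := Kl_normal hD hn (ordCompl[l] c)
  refine ⟨Kl D hD (ordCompl[l] c) ⊔ K, ?_, ?_⟩
  · rw [Subgroup.eq_bot_iff_forall]
    intro x hx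
    obtain ⟨hx1, hx2⟩ := Subgroup.mem_inf.1 hx
    obtain ⟨hxD, n, hxn⟩ := (mem_Lp hD x).1 hx1
    obtain ⟨d, hd, k, hk, hdk⟩ := (Subgroup.mem_sup_of_normal_left).1 hx2
    have hk1 : k = 1 := by
      have h3 : k ∈ D := by
        have : k = d⁻¹ * x := by rw [← hdk]; group
        rw [this]
        exact D.mul_mem (D.inv_mem hd.1) hxD
      have h4 : k ∈ D ⊓ K := ⟨h3, hk⟩
      rwa [h1, Subgroup.mem_bot] at h4
    have hxd : x = d := by rw [← hdk, hk1, mul_one]
    rw [hxd] at hxn ⊢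
    refine eq_one_of_coprime (m := l ^ n) (n := ordCompl[l] c) ?_ hxn hd.2
    exact Nat.Coprime.pow_left _ (Nat.coprime_ordCompl hl hc0)
  · rw [eq_top_iff, ← h2, ← sup_assoc]
    refine sup_le_sup_right ?_ K
    intro x hx
    obtain ⟨u, v, huv⟩ := Nat.isCoprime_iff_coprime.2 hcop
    have e1 : x = x ^ (v * (ordCompl[l] c : ℕ)) * x ^ (u * (ordProj[l] c : ℕ)) := by
      rw [← zpow_add, add_comm, huv, zpow_one]
    rw [e1]
    have hxc : x ^ c = 1 := pow_card hx
    refine Subgroup.mul_mem_sup ((mem_Lp hD _).2 ⟨D.zpow_mem hx _, c.factorization l, ?_⟩)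
      ⟨D.zpow_mem hx _, ?_⟩
    · rw [← zpow_natCast, ← zpow_mul]
      have : v * ((ordCompl[l] c : ℕ) : ℤ) * ((l ^ c.factorization l : ℕ) : ℤ) = (c : ℤ) * v := by
        rw [mul_assoc, ← Nat.cast_mul, mul_comm (ordCompl[l] c), hmul, mul_comm]
      rw [this, zpow_mul, zpow_natCast, hxc, one_zpow]
    · rw [← zpow_natCast, ← zpow_mul]
      have : u * ((ordProj[l] c : ℕ) : ℤ) * ((ordCompl[l] c : ℕ) : ℤ) = (c : ℤ) * u := by
        rw [mul_assoc, ← Nat.cast_mul, hmul, mul_comm]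
      rw [this, zpow_mul, zpow_natCast, hxc, one_zpow]

end SPAM

open SPAM in
theorem specSPA (hPSB : SpecPSB) (hPDC : SpecPDC) (hPEC : SpecPEC) (hPEA : SpecPEA) : SpecSPA := by
  intro S w hw l hl
  obtain ⟨⟨hDn, hDC, hDab⟩, hDf, -, -, -, -, hD7, hD8⟩ := hPDC S w hw
  obtain ⟨K, hK1, hK2⟩ := hPEC S w hw
  have hmem := mem_Lp (l := l) hDab
  have hP : IsPGroup l (S.P l) := ((hPSB S).2.2.2.1 l hl).2.1
  refine ⟨⟨hl, ?_, ?_, ?_, ?_, ?_, ?_, ?_, compl hl hDab hDn hK1 hK2⟩, hmem, ?_, ?_⟩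
  · refine ⟨fun x hx g => ?_⟩
    obtain ⟨hx1, n, hn⟩ := (hmem x).1 hx
    exact (hmem _).2 ⟨hDn.conj_mem x hx1 g, n, by rw [conj_pow, hn, mul_one, mul_inv_cancel]⟩
  · exact fun x hx => hDC ((hmem x).1 hx).1
  · rintro ⟨x, hx⟩
    obtain ⟨-, n, hn⟩ := (hmem x).1 hx
    exact ⟨n, Subtype.ext (by simpa using hn)⟩
  · exact fun x hx y hy => hDab x ((hmem x).1 hx).1 y ((hmem y).1 hy).1
  · exact fun x hx => hDf x ((hmem x).1 hx).1
  · exact fun x hx => hD7 l hl x ((hmem x).1 hx).1 ((hmem x).1 hx).2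
  · by_cases hd : l ∣ Nat.card (S.D w)
    · obtain ⟨c, hc1, hc2, hc3, hc4⟩ := (hPEA S w hw).2 l hl hd
      exact ⟨c, (hmem c).2 ⟨hc1, hc2⟩, hc3, fun y hy => hc4 y ((hmem y).1 hy).1 ((hmem y).1 hy).2⟩
    · refine ⟨1, Subgroup.one_mem _, fun g _ => by rw [map_one, one_mul, mul_one], ?_⟩
      intro y hy _
      obtain ⟨hy1, n, hn⟩ := (hmem y).1 hy
      refine ⟨0, ?_⟩
      rw [zpow_zero]
      exact eq_one_of_coprime (Nat.Coprime.pow_left n ((Nat.Prime.coprime_iff_not_dvd hl).2 hd))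
        hn (pow_card hy1)
  · rintro ⟨r, T, hG, t, ht, hcp⟩ hbot
    obtain ⟨-, -, a, Q, hPow, -, hQ⟩ := hD8 r l T hl hG t ht hcp
    apply hcp
    have hPp : ∀ y ∈ Q, y = 1 := by
      intro y hy
      rw [← hQ] at hy
      obtain ⟨⟨x, hx, rfl⟩, hy2⟩ := hy
      obtain ⟨n, hn⟩ := hP ⟨S.phi x, hy2⟩
      have hn1 : S.phi x ^ l ^ n = 1 := by simpa using congrArg Subtype.val hn
      have hn2 : x ^ l ^ n = 1 := by
        refine hDf _ ((S.D w).pow_mem hx _) ?_
        rw [← map_pow] at hn1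
        exact ((S.ker _).1 hn1).2
      have hx1 : x ∈ Lp l (S.D w) := (hmem x).2 ⟨hx, n, hn2⟩
      rw [hbot, Subgroup.mem_bot] at hx1
      rw [hx1, map_one]
    intro g hg
    have h1 : S.phi t * g * (S.phi t)⁻¹ * g⁻¹ = 1 := by
      refine hPp _ ?_
      rw [hPow.2.1]
      exact Subgroup.subset_closure ⟨g, hg, rfl⟩
    calc S.phi t * g = S.phi t * g * (S.phi t)⁻¹ * g⁻¹ * (g * S.phi t) := by group
      _ = g * S.phi t := by rw [h1, one_mul]
  · intro r T hG t ht hcp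
    obtain ⟨-, -, a, Q, hPow, ha, -⟩ := hD8 r l T hl hG t ht hcp
    exact ⟨a, hPow.2.2.2.2.2.2.2.1, fun x hx => ha x ((hmem x).1 hx).1 ((hmem x).1 hx).2⟩

end Pool.Agent.Lib.MPbe1941.X
end

section
/-!
Block PROP, assembled: every Spec of SpecP and SpecQ without hypotheses.
-/
namespace Pool.Agent.Lib.MPbe1941.X

theorem topPSB : SpecPSB := specPSB specOCF (specFTF specOCF)
theorem topFTF : SpecFTF := specFTF specOCF
theorem topFTN : SpecFTN := specFTN specOCF specCFF
theorem topPWM : SpecPWM := specPWM specOCF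
theorem topPAA : SpecPAA := specPAA topPSB topFTF specCFF
theorem topPSR : SpecPSR := specPSR topFTF
theorem topPBC : SpecPBC := specPBC topPSB topPSR specFRC specFRT
theorem topPCC : SpecPCC := specPCC topPSB topPAA topPBC specLTC specTHO
theorem topPCG : SpecPCG := specPCG topPSB
theorem topPDG : SpecPDG := specPDG topPSB topPAA topFTN specCEN specRLO
theorem topPDA : SpecPDA := specPDA topPSB topPAA topPCC topPDG specRAT specRLO
theorem topPDB : SpecPDB := specPDB topPSB topPAA topPCC topPCG topFTF specRLO specOCF topPWM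
theorem topPDC : SpecPDC := specPDC topPAA topPDB topPSB specOCF specRLO
theorem topPEC : SpecPEC := specPEC topPDC topPCG specRLO specFRA
theorem topPEA : SpecPEA := specPEA topPDC
theorem topSPA : SpecSPA := specSPA topPSB topPDC topPEC topPEA
theorem topPBX : SpecPBX := specPBX topPSB
theorem topPEM : SpecPEM := specPEM topPSB specLFO
theorem topPE1 : SpecPE1 := specPE1 topPSB
theorem topPE2 : SpecPE2 := specPE2 topPDC topPAA topPSB
theorem topPRO : SpecPRO := specPRO topPAA topPDA topPEC topPEA topPBX topPEM topPE1 topPE2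
theorem topCNT : SpecCNT := specCNT topPRO
theorem topREL : SpecREL := specREL topCNT

end Pool.Agent.Lib.MPbe1941.X
end

section
/-!
# MP_be1941_al EXACT, block T1: assembly (helper66)
-/
set_option autoImplicit false

namespace Pool.Agent.Lib.MPbe1941.X.TopT1

open Pool.Agent.Lib.MPbe1941.X

theorem ftf : SpecFTF := specFTF specOCF
theorem ftn : SpecFTN := specFTN specOCF specCFF
theorem psb : SpecPSB := specPSB specOCF ftf
theorem psr : SpecPSR := specPSR ftf
theorem paa : SpecPAA := specPAA psb ftf specCFF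
theorem pbc : SpecPBC := specPBC psb psr specFRC specFRT
theorem pcc : SpecPCC := specPCC psb paa pbc specLTC specTHO
theorem pcg : SpecPCG := specPCG psb
theorem pdg : SpecPDG := specPDG psb paa ftn specCEN specRLO
theorem pda : SpecPDA := specPDA psb paa pcc pdg specRAT specRLO
theorem pwm : SpecPWM := specPWM specOCF
theorem pdb : SpecPDB := specPDB psb paa pcc pcg ftf specRLO specOCF pwm
theorem pdc : SpecPDC := specPDC paa pdb psb specOCF specRLO
theorem pec : SpecPEC := specPEC pdc pcg specRLO specFRA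
theorem pea : SpecPEA := specPEA pdc
theorem pbx : SpecPBX := specPBX psb
theorem pem : SpecPEM := specPEM psb specLFO
theorem pe1 : SpecPE1 := specPE1 psb
theorem spa : SpecSPA := specSPA psb pdc pec pea
theorem tcp : SpecTCP := specTCP specOCF ftf paa
theorem tse : SpecTSE := specTSE psr
theorem tnz : SpecTNZ := specTNZ tcp specTHO specOCF
theorem tsm : SpecTSM := specTSM specTPS pcc pcg
theorem tg5 : SpecTG5 := specTG5 specTPS pda psb paa pcc pdg specRAT specRLO
theorem tg3 : SpecTG3 := specTG3 specTPS pdg specRLO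
theorem tsn : SpecTSN := specTSN specTPS pdb psb
theorem tfr : SpecTFR := specTFR specTPS psb pdb specRLO specFRA
theorem tnv : SpecTNV := specTNV specTPS paa

theorem cle : SpecCLE := specCLE specCNB specGDB
theorem bd2 : SpecBD2 := specBD2 cle
theorem q8t : SpecQ8T := specQ8T specQSF
theorem ni1 : SpecNI1 := specNI1 specCNB
theorem ni2 : SpecNI2 := specNI2 specOCF

section

variable (hTTW : SpecTTW) (hTOD : SpecTOD) (hTFM : SpecTFM) (hEKT : SpecEKT)

include hTTW hTOD hTFM in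
theorem prp (H X : Type) [Group H] [AddCommGroup X] [DistribMulAction H X] (p : ℕ)
    (C : Subgroup H) (T : Finset ℕ) (h : TS H X p C T) : PRP H X C T where
  cop := tcp H X p C T h
  ntv := tnv H X p C T h
  nz := tnz H X p C T h
  sem := tse H X p C T h
  two := hTTW H X p C T h
  odd := hTOD H X p C T h
  sam := tsm H X p C T h
  g5 := (tg5 H X p C T h).1
  g2 := (tg5 H X p C T h).2
  g3 := tg3 H X p C T h
  gam := topTGA tcp tse hTOD H X p C T h
  spn := tsn H X p C T h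
  fra := tfr H X p C T h
  fam := hTFM H X p C T h

include hEKT in
theorem unc : SpecUNC := specUNC bd2 q8t hEKT

include hEKT in
theorem cln : SpecCLN := specCLN (unc hEKT)

include hEKT in
theorem nic : SpecNIC := specNIC hEKT (unc hEKT) cle ni1 ni2

include hEKT in
theorem dcy : SpecDCY := specDCY specTPS pdb pdc (nic hEKT)

end

end Pool.Agent.Lib.MPbe1941.X.TopT1
end
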