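import Pool.Agent.Lib.MP_be1941_al.X.SpecU
import Pool.Agent.Lib.MP_be1941_al.XV.SpecV
import Pool.Agent.Lib.MP_be1941_al.X.PSB

section
/-! # MP_be1941_al EXACT, module UEN (helper67). (hyps: CLN, DCY, UST, UHM, UTW, UCM, UCT) -/
set_option autoImplicit false

namespace Pool.Agent.Lib.MPbe1941.X

open Pool.Agent.Lib.MPbe1941
open Pool.Agent.Lib.MPbe1941.XF
open scoped commutatorElement

theorem specUEN (hCLN : SpecCLN) (hDCY : SpecDCY) (hUST : SpecUST) (hUHM : SpecUHM)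
    (hUTW : SpecUTW) (hUCM : SpecUCM) (hUCT : SpecUCT) : SpecUEN := by
  intro H X _ _ _ p C T hTS hPRP hIdx
  obtain ⟨v, hv⟩ := hCLN H X p C T hTS hPRP
  have hcyc : IsCyclic (DT C T v) := hDCY H X p C T hTS hPRP v hv
  obtain ⟨R, H1, dl, hUS, -⟩ := hUST H X p C T hTS hIdx v hv hcyc
  have hF := hUHM H X p C T v (DT C T v) R H1 dl hUS
  have hX := hUTW H X p C T v (DT C T v) R H1 dl hUS hF
  obtain ⟨h1, h2, h3⟩ := hUCM H X p C T v (DT C T v) R H1 dl hUS hX
  exact ⟨v, DT C T v, R, H1, dl, hv, hUS, hF, hX, h1, h2, h3,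
    hUCT H X p C T v (DT C T v) R H1 dl hUS hF hX⟩

end Pool.Agent.Lib.MPbe1941.X
end

section
/-!
# MP_be1941_al, exact bound, block U: module UCO
-/
set_option autoImplicit false

namespace Pool.Agent.Lib.MPbe1941.XV

open Pool.Agent.Lib.MPbe1941 Pool.Agent.Lib.MPbe1941.X

namespace UCOM

/-- An `r`-subgroup normalising a Sylow `r`-subgroup is contained in it. -/
theorem syl_le {H : Type} [Group H] [Finite H] {r : ℕ} (hr : r.Prime) {S K : Subgroup H}
    (hS : SylIn r ⊤ S) (hK : IsPGroup r K) (hn : ∀ k ∈ K, ∀ s ∈ S, k * s * k⁻¹ ∈ S) : K ≤ S := by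
  have hf : Fact r.Prime := ⟨hr⟩
  have h1 : K ≤ Subgroup.normalizer (S : Set H) := by
    intro k hk
    rw [Subgroup.mem_normalizer_iff]
    intro s
    constructor
    · intro hs; exact hn k hk s hs
    · intro hs
      have := hn k⁻¹ (K.inv_mem hk) _ hs
      have h2 : k⁻¹ * (k * s * k⁻¹) * k⁻¹⁻¹ = s := by group
      rwa [h2] at this
  have h2 : IsPGroup r (S ⊔ K : Subgroup H) := IsPGroup.to_sup_of_normal_left' hS.2.1 hK h1
  have h3 : ¬ r ∣ S.relIndex (S ⊔ K) := by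
    intro hd
    apply hS.2.2
    refine hd.trans ?_
    rw [Subgroup.relIndex_top_right]
    exact Subgroup.relIndex_dvd_index_of_le le_sup_left
  obtain ⟨n, hn'⟩ := IsPGroup.index h2 (S.subgroupOf (S ⊔ K))
  have h4 : S.relIndex (S ⊔ K) = r ^ n := hn'
  have h5 : n = 0 := by
    by_contra h0
    apply h3
    rw [h4]
    exact dvd_pow_self r h0
  rw [h5, pow_zero] at h4
  exact le_sup_right.trans (Subgroup.relIndex_eq_one.1 h4)

theorem inf_bot {H : Type} [Group H] [Finite H] {r l : ℕ} (hr : r.Prime) (hl : l.Prime)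
    (hne : r ≠ l) {S K : Subgroup H} (hS : IsPGroup r S) (hK : IsPGroup l K) {x : H} (hx : x ∈ S)
    (hx' : x ∈ K) : x = 1 := by
  obtain ⟨a, ha⟩ := hS ⟨x, hx⟩
  obtain ⟨b, hb⟩ := hK ⟨x, hx'⟩
  have h1 : x ^ r ^ a = 1 := congrArg Subtype.val ha
  have h2 : x ^ l ^ b = 1 := congrArg Subtype.val hb
  have h3 : Nat.Coprime (r ^ a) (l ^ b) := Nat.Coprime.pow _ _ ((Nat.coprime_primes hr hl).2 hne)
  have h4 : orderOf x ∣ 1 := by
    rw [← h3]
    exact Nat.dvd_gcd (orderOf_dvd_of_pow_eq_one h1) (orderOf_dvd_of_pow_eq_one h2)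
  exact orderOf_eq_one_iff.1 (Nat.dvd_one.1 h4)

/-- Two Sylow subgroups normal in the stabiliser commute. -/
theorem comm2 {H X : Type} [Group H] [Finite H] [AddCommGroup X] [DistribMulAction H X]
    {C : Subgroup H} {lam : X} {r r' : ℕ} (hr : r.Prime) (hr' : r'.Prime) {S S' : Subgroup H}
    (hS : MiH C lam r S) (hS' : MiH C lam r' S') {x y : H} (hx : x ∈ S) (hy : y ∈ S') :
    x * y = y * x := by
  by_cases h : r = r'
  · subst h
    have h1 : S' ≤ S := syl_le hr hS.1 hS'.1.2.1 (fun k hk s hs =>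
      hS.2.2.2.2 k (hS'.2.2.2.1 k hk) s hs)
    exact hS.2.2.1 x hx y (h1 hy)
  · have h1 : x * y * x⁻¹ ∈ S' := hS'.2.2.2.2 x (hS.2.2.2.1 x hx) y hy
    have h2 : y * x⁻¹ * y⁻¹ ∈ S := hS.2.2.2.2 y (hS'.2.2.2.1 y hy) _ (S.inv_mem hx)
    have h3 : x * y * x⁻¹ * y⁻¹ ∈ S' := S'.mul_mem h1 (S'.inv_mem hy)
    have h4 : x * y * x⁻¹ * y⁻¹ ∈ S := by
      have := S.mul_mem hx h2
      have h5 : x * (y * x⁻¹ * y⁻¹) = x * y * x⁻¹ * y⁻¹ := by group
      rwa [h5] at this
    have h5 := inf_bot hr hr' h hS.1.2.1 hS'.1.2.1 h4 h3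
    have h6 : x * y * x⁻¹ = y := by
      have := mul_inv_eq_one.1 h5
      exact this
    exact mul_inv_eq_iff_eq_mul.1 h6

theorem comm_sSup {H : Type} [Group H] {A : Set (Subgroup H)}
    (h : ∀ S ∈ A, ∀ S' ∈ A, ∀ x ∈ S, ∀ y ∈ S', x * y = y * x) :
    ∀ x ∈ sSup A, ∀ y ∈ sSup A, x * y = y * x := by
  have h1 : ∀ S ∈ A, ∀ x ∈ S, ∀ y ∈ sSup A, x * y = y * x := by
    intro S hS x hx y hy
    have h2 : sSup A ≤ Subgroup.centralizer {x} := by
      apply sSup_le
      intro S' hS' z hz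
      rw [Subgroup.mem_centralizer_singleton_iff]
      exact (h S hS S' hS' x hx z hz).symm
    have := h2 hy
    rw [Subgroup.mem_centralizer_singleton_iff] at this
    exact this.symm
  intro x hx y hy
  have h2 : sSup A ≤ Subgroup.centralizer {y} := by
    apply sSup_le
    intro S hS z hz
    rw [Subgroup.mem_centralizer_singleton_iff]
    exact (h1 S hS z hz y hy)
  have := h2 hx
  rw [Subgroup.mem_centralizer_singleton_iff] at this
  exact this

/-- cocycle lemma -/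
theorem coc (H : Type) [Group H] [Finite H] (D R : Subgroup H) (z : H)
    (hD : ∀ x ∈ D, ∀ y ∈ D, x * y = y * x) (hR : ∀ r ∈ R, ∀ x ∈ D, r * x * r⁻¹ ∈ D)
    (hco : Nat.Coprime (Nat.card R) (Nat.card D)) (hz : ∀ r ∈ R, r * z * r⁻¹ * z⁻¹ ∈ D) :
    ∃ d ∈ D, ∀ r ∈ R, r * (d * z) = d * z * r := by
  classical
  have : Fintype R := Fintype.ofFinite R
  let cg : CommGroup D :=
    { (inferInstance : Group D) with
      mul_comm := fun x y => Subtype.ext (hD x x.2 y y.2) }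
  -- action of `R` on `D`
  let act : R → D →* D := fun r =>
    { toFun := fun x => ⟨r * x * (r : H)⁻¹, hR r r.2 x x.2⟩
      map_one' := by
        apply Subtype.ext
        show (r : H) * ((1 : D) : H) * (r : H)⁻¹ = ((1 : D) : H)
        push_cast
        group
      map_mul' := by
        intro x y
        apply Subtype.ext
        show (r : H) * ((x * y : D) : H) * (r : H)⁻¹ =
          (r * x * (r : H)⁻¹) * (r * y * (r : H)⁻¹)
        push_cast
        group }
  let c : R → D := fun r => ⟨r * z * (r : H)⁻¹ * z⁻¹, hz r r.2⟩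
  have hc : ∀ r s : R, c (r * s) = act r (c s) * c r := by
    intro r s
    apply Subtype.ext
    show ((r * s : R) : H) * z * ((r * s : R) : H)⁻¹ * z⁻¹ =
      (r * (s * z * (s : H)⁻¹ * z⁻¹) * (r : H)⁻¹) * (r * z * (r : H)⁻¹ * z⁻¹)
    push_cast
    group
  obtain ⟨e, he⟩ : ∃ e : D, e = ∏ s : R, c s := ⟨_, rfl⟩
  have h1 : ∀ r : R, e = act r e * c r ^ Nat.card R := by
    intro r
    have h2 : e = ∏ s : R, c (r * s) := by
      rw [he]
      exact (Equiv.prod_comp (Equiv.mulLeft r) c).symm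
    have h3 : (∏ s : R, c (r * s)) = act r e * c r ^ Nat.card R := by
      simp only [hc]
      rw [Finset.prod_mul_distrib, Finset.prod_const, Finset.card_univ,
        ← Nat.card_eq_fintype_card, he, map_prod]
    exact h2.trans h3
  obtain ⟨d, hd⟩ := (powCoprime hco.symm).surjective e
  have hd' : d ^ Nat.card R = e := hd
  refine ⟨d, d.2, ?_⟩
  intro r hr
  have h2 : (act ⟨r, hr⟩ d * c ⟨r, hr⟩) ^ Nat.card R = d ^ Nat.card R := by
    rw [mul_pow, ← map_pow, hd', ← h1]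
  have h3 : act ⟨r, hr⟩ d * c ⟨r, hr⟩ = d := (powCoprime hco.symm).injective h2
  have h4 : (r * (d : H) * r⁻¹) * (r * z * r⁻¹ * z⁻¹) = (d : H) := congrArg Subtype.val h3
  calc r * ((d : H) * z) = (r * (d : H) * r⁻¹) * (r * z * r⁻¹ * z⁻¹) * z * r := by group
    _ = d * z * r := by rw [h4]

theorem one (H X : Type) [Group H] [Finite H] [AddCommGroup X] [DistribMulAction H X]
    (C : Subgroup H) (T : Finset ℕ) (lam : X) (hT : ∀ r ∈ T, r.Prime) :
    (∀ x ∈ (sSup {S | ∃ r ∈ T, MiH C lam r S} : Subgroup H),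
      ∀ y ∈ (sSup {S | ∃ r ∈ T, MiH C lam r S} : Subgroup H), x * y = y * x) ∧
    ∀ l, l.Prime → l ∣ Nat.card (sSup {S | ∃ r ∈ T, MiH C lam r S} : Subgroup H) →
      l ∈ T ∧ ∃ S, MiH C lam l S ∧ S ≠ ⊥ := by
  classical
  have hcom := comm_sSup (A := {S | ∃ r ∈ T, MiH C lam r S}) (by
    rintro S ⟨r, hr, hS⟩ S' ⟨r', hr', hS'⟩ x hx y hy
    exact comm2 (hT r hr) (hT r' hr') hS hS' hx hy)
  refine ⟨hcom, ?_⟩
  intro l hl hld
  have hlf : Fact l.Prime := ⟨hl⟩
  obtain ⟨T', hT'⟩ : ∃ T' : Finset ℕ, T' = T.filter (fun r => ∃ S, MiH C lam r S ∧ S ≠ ⊥) :=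
    ⟨_, rfl⟩
  obtain ⟨m, hm⟩ : ∃ m : ℕ, m = (∏ r ∈ T', r) ^ Nat.card H := ⟨_, rfl⟩
  let K : Subgroup H :=
    { carrier := {x | x ∈ (sSup {S | ∃ r ∈ T, MiH C lam r S} : Subgroup H) ∧ x ^ m = 1}
      one_mem' := ⟨one_mem _, one_pow _⟩
      mul_mem' := by
        rintro x y ⟨hx, hx'⟩ ⟨hy, hy'⟩
        refine ⟨mul_mem hx hy, ?_⟩
        rw [(show Commute x y from hcom x hx y hy).mul_pow, hx', hy', one_mul]
      inv_mem' := by
        rintro x ⟨hx, hx'⟩
        exact ⟨inv_mem hx, by rw [inv_pow, hx', inv_one]⟩ }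
  have hK : (sSup {S | ∃ r ∈ T, MiH C lam r S} : Subgroup H) ≤ K := by
    apply sSup_le
    rintro S ⟨r, hr, hS⟩ x hx
    refine ⟨(le_sSup (show S ∈ {S | ∃ r ∈ T, MiH C lam r S} from ⟨r, hr, hS⟩)) hx, ?_⟩
    by_cases hx1 : x = 1
    · rw [hx1, one_pow]
    have hSne : S ≠ ⊥ := by
      rintro rfl
      exact hx1 (Subgroup.mem_bot.1 hx)
    have hrT' : r ∈ T' := by
      rw [hT', Finset.mem_filter]
      exact ⟨hr, S, hS, hSne⟩
    have hrf : Fact r.Prime := ⟨hT r hr⟩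
    obtain ⟨k, hk⟩ := IsPGroup.iff_card.1 hS.1.2.1
    have h1 : x ^ Nat.card S = 1 := congrArg Subtype.val (pow_card_eq_one' (x := (⟨x, hx⟩ : S)))
    have h2 : Nat.card S ∣ m := by
      rw [hk, hm]
      have h3 : k ≤ Nat.card H := by
        have h4 : k < r ^ k := Nat.lt_pow_self (hT r hr).one_lt
        have h5 : Nat.card S ≤ Nat.card H := Nat.le_of_dvd Nat.card_pos (Subgroup.card_subgroup_dvd_card S)
        omega
      exact (pow_dvd_pow r h3).trans (pow_dvd_pow_of_dvd (Finset.dvd_prod_of_mem _ hrT') _)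
    obtain ⟨c, hc⟩ := h2
    rw [hc, pow_mul, h1, one_pow]
  obtain ⟨x, hx⟩ := exists_prime_orderOf_dvd_card' (G := (sSup {S | ∃ r ∈ T, MiH C lam r S} : Subgroup H)) l hld
  have h1 : (x : H) ^ m = 1 := (hK x.2).2
  have h2 : l ∣ m := by
    rw [← hx, ← Subgroup.orderOf_coe]
    exact orderOf_dvd_of_pow_eq_one h1
  rw [hm] at h2
  have h3 := hl.dvd_of_dvd_pow h2
  rw [Prime.dvd_finsetProd_iff hl.prime] at h3
  obtain ⟨r, hr, hlr⟩ := h3
  rw [hT', Finset.mem_filter] at hr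
  have h4 : l = r := (Nat.prime_dvd_prime_iff_eq hl (hT r hr.1)).1 hlr
  rw [h4]
  exact ⟨hr.1, hr.2⟩

end UCOM

theorem specUCO : SpecUCO :=
  ⟨fun H X _ _ _ _ C T lam hT => UCOM.one H X C T lam hT, fun H _ _ D R z => UCOM.coc H D R z⟩

end Pool.Agent.Lib.MPbe1941.XV
end

section
/-!
# MP_be1941_al, exact bound, block U: module UMA (EXACT.md 7.1)
-/
set_option autoImplicit false

namespace Pool.Agent.Lib.MPbe1941.XV

open Pool.Agent.Lib.MPbe1941 Pool.Agent.Lib.MPbe1941.X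

namespace UMAM

/-- an `r`-element normalising a Sylow `r`-subgroup is in it -/
theorem el_mem {H : Type} [Group H] [Finite H] {r : ℕ} (hr : r.Prime) {S : Subgroup H}
    (hS : SylIn r ⊤ S) {x : H} {k : ℕ} (hx : x ^ r ^ k = 1) (hn : ∀ s ∈ S, x * s * x⁻¹ ∈ S) :
    x ∈ S := by
  have hz : ∀ m : ℕ, ∀ s ∈ S, x ^ m * s * (x ^ m)⁻¹ ∈ S := by
    intro m
    induction m with
    | zero => intro s hs; simpa using hs
    | succ m ih =>
      intro s hs
      have h1 := ih _ (hn s hs)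
      have h2 : x ^ m * (x * s * x⁻¹) * (x ^ m)⁻¹ = x ^ (m + 1) * s * (x ^ (m + 1))⁻¹ := by
        rw [pow_succ]; group
      rwa [h2] at h1
  have hp : IsPGroup r (Subgroup.zpowers x) := by
    rintro ⟨y, hy⟩
    obtain ⟨n, rfl⟩ := Subgroup.mem_zpowers_iff.1 hy
    refine ⟨k, Subtype.ext ?_⟩
    show (x ^ n) ^ r ^ k = 1
    rw [← zpow_natCast, ← zpow_mul, mul_comm, zpow_mul, zpow_natCast, hx, one_zpow]
  have h1 : Subgroup.zpowers x ≤ S := UCOM.syl_le hr hS hp (by
    intro y hy s hs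
    obtain ⟨n, hn'⟩ := (mem_powers_iff_mem_zpowers (x := x)).2 hy
    simp only at hn'
    rw [← hn']
    exact hz n s hs)
  exact h1 (Subgroup.mem_zpowers x)

/-- powers modulo a normal subgroup -/
theorem pow_mod {H : Type} [Group H] {N : Subgroup H} [N.Normal] {d t : H} (hd : d ∈ N) (n : ℕ) :
    ∃ d' ∈ N, (d * t) ^ n = d' * t ^ n := by
  induction n with
  | zero => exact ⟨1, one_mem _, by simp⟩
  | succ n ih =>
    obtain ⟨d', hd', h⟩ := ih
    refine ⟨d' * (t ^ n * d * (t ^ n)⁻¹), mul_mem hd' (Subgroup.Normal.conj_mem inferInstance _ hd _), ?_⟩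
    rw [pow_succ, h, pow_succ]
    group

/-- a normal subgroup in `C` fixing a nonzero vector is trivial -/
theorem nofix {H X : Type} [Group H] [AddCommGroup X] [DistribMulAction H X] {p : ℕ}
    {C : Subgroup H} {T : Finset ℕ} (hTS : TS H X p C T) {K : Subgroup H}
    (hK : ∀ g : H, ∀ k ∈ K, g * k * g⁻¹ ∈ K) (hKC : K ≤ C) {v : X} (hv : v ≠ 0)
    (hf : ∀ k ∈ K, k • v = v) : ∀ k ∈ K, k = 1 := by
  let A : AddSubgroup X :=
    { carrier := {x | ∀ k ∈ K, k • x = x}
      zero_mem' := fun k _ => smul_zero k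
      add_mem' := fun {x y} hx hy k hk => by rw [smul_add, hx k hk, hy k hk]
      neg_mem' := fun {x} hx k hk => by rw [smul_neg, hx k hk] }
  have h1 := hTS.irr A (by
    intro h x hx k hk
    have h2 := hx _ (hK h⁻¹ k hk)
    have h3 : k • (h • x) = h • ((h⁻¹ * k * h⁻¹⁻¹) • x) := by
      rw [smul_smul, smul_smul]; congr 1; group
    rw [h3, h2])
  rcases h1 with h1 | h1
  · exfalso
    have h2 : v ∈ A := hf
    rw [h1] at h2
    exact hv (AddSubgroup.mem_bot.1 h2)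
  · intro k hk
    apply hTS.faith k (hKC hk)
    intro x
    have h2 : x ∈ A := by rw [h1]; exact AddSubgroup.mem_top x
    exact h2 k hk

/-- the faithful linear character of a cyclic group -/
theorem exists_bet {H : Type} [Group H] [Finite H] (D : Subgroup H)
    (hc : ∃ c ∈ D, ∀ x ∈ D, ∃ n : ℤ, x = c ^ n) :
    ∃ bet : H → ℂ, Lin D bet ∧ ∀ x ∈ D, bet x = 1 → x = 1 := by
  classical
  obtain ⟨c, hcD, hcg⟩ := hc
  have hN : orderOf c ≠ 0 := (orderOf_pos c).ne'
  obtain ⟨z, hz⟩ : ∃ z : ℂ, IsPrimitiveRoot z (orderOf c) := ⟨_, Complex.isPrimitiveRoot_exp _ hN⟩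
  have hz0 : z ≠ 0 := hz.ne_zero hN
  have key : ∀ n m : ℤ, c ^ n = c ^ m → z ^ n = z ^ m := by
    intro n m h
    have h1 : c ^ (n - m) = 1 := by rw [zpow_sub, h, mul_inv_cancel]
    have h2 : z ^ (n - m) = 1 := by
      rw [hz.zpow_eq_one_iff_dvd]
      exact orderOf_dvd_iff_zpow_eq_one.2 h1
    rw [zpow_sub₀ hz0, div_eq_one_iff_eq (zpow_ne_zero _ hz0)] at h2
    exact h2
  let bet : H → ℂ := fun x => if h : ∃ n : ℤ, x = c ^ n then z ^ h.choose else 1
  have hb : ∀ n : ℤ, bet (c ^ n) = z ^ n := by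
    intro n
    have h : ∃ m : ℤ, c ^ n = c ^ m := ⟨n, rfl⟩
    show (if h : ∃ m : ℤ, c ^ n = c ^ m then z ^ h.choose else 1) = z ^ n
    rw [dif_pos h]
    exact key _ _ h.choose_spec.symm
  refine ⟨bet, ⟨?_, ?_⟩, ?_⟩
  · have := hb 0
    simpa using this
  · intro x hx y hy
    obtain ⟨n, rfl⟩ := hcg x hx
    obtain ⟨m, rfl⟩ := hcg y hy
    rw [← zpow_add, hb, hb, hb, zpow_add₀ hz0]
  · intro x hx h
    obtain ⟨n, rfl⟩ := hcg x hx
    rw [hb, hz.zpow_eq_one_iff_dvd] at h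
    exact orderOf_dvd_iff_zpow_eq_one.1 h

theorem fix_comm {H : Type} [Group H] {D : Subgroup H} {bet : H → ℂ} (hl : Lin D bet)
    (hf : ∀ x ∈ D, bet x = 1 → x = 1) (hD : ∀ g : H, ∀ x ∈ D, g * x * g⁻¹ ∈ D) (h : H) :
    FixB D bet h ↔ ∀ x ∈ D, h * x = x * h := by
  constructor
  · intro hh x hx
    have h1 := hh x hx
    have h2 : bet (h * x * h⁻¹ * x⁻¹) = 1 := by
      rw [hl.2 _ (hD h x hx) _ (inv_mem hx), h1, ← hl.2 _ hx _ (inv_mem hx), mul_inv_cancel, hl.1]
    have h3 := hf _ (mul_mem (hD h x hx) (inv_mem hx)) h2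
    exact mul_inv_eq_iff_eq_mul.1 (mul_inv_eq_one.1 h3)
  · intro hh x hx
    rw [hh x hx]
    congr 1
    group

/-- a conjugate of an element of a Sylow subgroup is in `Or` -/
theorem conj_or {H : Type} [Group H] [Finite H] {r : ℕ} (hr : r.Prime) {S : Subgroup H}
    (hS : SylIn r ⊤ S) (g : H) {s : H} (hs : s ∈ S) : g * s * g⁻¹ ∈ Or H r := by
  have h1 : SylIn r ⊤ (S.map (MulAut.conj g).toMonoidHom) := by
    refine (CO.specSYL H r hr).2.2.2.2.2.1 ⊤ S _ hS g (Subgroup.mem_top g) ?_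
    intro x
    rw [Subgroup.mem_map]
    constructor
    · rintro ⟨y, hy, rfl⟩
      have : g⁻¹ * (MulAut.conj g).toMonoidHom y * g = y := by
        show g⁻¹ * (g * y * g⁻¹) * g = y
        group
      rwa [this]
    · intro hx
      refine ⟨_, hx, ?_⟩
      show g * (g⁻¹ * x * g) * g⁻¹ = x
      group
  exact (le_sSup (show S.map (MulAut.conj g).toMonoidHom ∈ {R | SylIn r ⊤ R} from h1))
    ⟨s, hs, rfl⟩

/-- A normal `l`-subgroup of `H` in `C`, centralising `D`, is in `D`, `l ∣ |D|`. -/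
theorem le_D {H X : Type} [Group H] [AddCommGroup X] [DistribMulAction H X] {p : ℕ}
    {C : Subgroup H} {T : Finset ℕ} {lam : X} {D : Subgroup H} (hTS : TS H X p C T)
    (hC : CLD C T lam D) {l : ℕ} (hl : l.Prime) (hlD : l ∣ Nat.card D) {S : Subgroup H}
    (hSn : ∀ g : H, ∀ s ∈ S, g * s * g⁻¹ ∈ S) (hSC : S ≤ C) (hSl : IsPGroup l S)
    (hSD : ∀ s ∈ S, ∀ x ∈ D, s * x = x * s) : S ≤ D := by
  classical
  have := hTS.finH
  have hDn := hC.Dn
  obtain ⟨c, hcD, hcg⟩ := hC.cyc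
  have hDab : ∀ x ∈ D, ∀ y ∈ D, x * y = y * x := by
    intro x hx y hy
    obtain ⟨n, rfl⟩ := hcg x hx
    obtain ⟨m, rfl⟩ := hcg y hy
    rw [← zpow_add, ← zpow_add, add_comm]
  obtain ⟨R, hR⟩ : ∃ R : Subgroup H, R = sSup {S | ∃ r ∈ T, MiH C lam r S} := ⟨_, rfl⟩
  have hgen : ∀ r ∈ T, ∀ R', MiH C lam r R' → R' ≤ R := by
    intro r hr R' hR'
    rw [hR]
    exact le_sSup (show R' ∈ {S | ∃ r ∈ T, MiH C lam r S} from ⟨r, hr, hR'⟩)
  obtain ⟨hRc, hRp⟩ := specUCO.1 H X C T lam (fun r hr => (hTS.tp r hr).1)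
  rw [← hR] at hRc hRp
  -- coprime
  have hco : Nat.Coprime (Nat.card R) (Nat.card D) := by
    rw [Nat.coprime_iff_gcd_eq_one]
    by_contra hne
    obtain ⟨q, hq, hqd⟩ := Nat.exists_prime_and_dvd hne
    obtain ⟨hqT, S', hS', _⟩ := hRp q hq (hqd.trans (Nat.gcd_dvd_left _ _))
    exact (hC.le q hqT S' hS').2.2.1 (hqd.trans (Nat.gcd_dvd_right _ _))
  -- commutators of `R` with `S` are in `D`
  have hcomD : ∀ t ∈ R, ∀ s ∈ S, t * s * t⁻¹ * s⁻¹ ∈ D := by
    let K : Subgroup H :=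
      { carrier := {t | ∀ s ∈ S, t * s * t⁻¹ * s⁻¹ ∈ D}
        one_mem' := by
          intro s _
          have : (1 : H) * s * 1⁻¹ * s⁻¹ = 1 := by group
          rw [this]; exact one_mem _
        mul_mem' := by
          intro a b ha hb s hs
          have h1 := hb s hs
          have h2 := ha s hs
          have h3 : a * b * s * (a * b)⁻¹ * s⁻¹ =
              (a * (b * s * b⁻¹ * s⁻¹) * a⁻¹) * (a * s * a⁻¹ * s⁻¹) := by group
          rw [h3]
          exact mul_mem (hDn.conj_mem _ h1 a) h2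
        inv_mem' := by
          intro a ha s hs
          have h1 := ha _ (hSn a⁻¹ s hs)
          have h2 : a⁻¹ * s * a⁻¹⁻¹ * s⁻¹ =
              (a * (a⁻¹ * s * a⁻¹⁻¹) * a⁻¹ * (a⁻¹ * s * a⁻¹⁻¹)⁻¹)⁻¹ := by group
          rw [h2]
          exact inv_mem h1 }
    have hK : R ≤ K := by
      rw [hR]
      apply sSup_le
      rintro R' ⟨r, hr, hR'⟩ t ht s hs
      obtain ⟨h1, h2, h3, _⟩ := hC.le r hr R' hR'
      have hrl : r ≠ l := by rintro rfl; exact h3 hlD
      have hrp := (hTS.tp r hr).1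
      -- `w = t s t⁻¹ s⁻¹`
      have hwS : t * s * t⁻¹ * s⁻¹ ∈ S := mul_mem (hSn t s hs) (inv_mem hs)
      have hwO : t * s * t⁻¹ * s⁻¹ ∈ Or H r := by
        have h4 : t ∈ Or H r := by
          have := conj_or hrp hR'.1 1 ht
          simpa using this
        have h5 := conj_or hrp hR'.1 s (inv_mem ht)
        have := mul_mem h4 h5
        have h6 : t * (s * t⁻¹ * s⁻¹) = t * s * t⁻¹ * s⁻¹ := by group
        rwa [h6] at this
      obtain ⟨d, hd, t', ht', hw⟩ := h2 _ hwO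
      obtain ⟨k, hk⟩ := hSl ⟨_, hwS⟩
      have hk' : (t * s * t⁻¹ * s⁻¹) ^ l ^ k = 1 := congrArg Subtype.val hk
      have hdD : d ∈ D := h1 hd
      obtain ⟨d', hd', hpow⟩ := pow_mod (N := D) (t := t') hdD (l ^ k)
      rw [hw, hpow] at hk'
      have h7 : t' ^ l ^ k = 1 := by
        have h8 : t' ^ l ^ k ∈ D := by
          have : t' ^ l ^ k = d'⁻¹ := eq_inv_of_mul_eq_one_right hk'
          rw [this]; exact inv_mem hd'
        obtain ⟨a, ha⟩ := hR'.1.2.1 ⟨t', ht'⟩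
        have ha' : t' ^ r ^ a = 1 := congrArg Subtype.val ha
        have h9 : (t' ^ l ^ k) ^ r ^ a = 1 := by rw [← pow_mul, mul_comm, pow_mul, ha', one_pow]
        have h10 : (t' ^ l ^ k) ^ Nat.card D = 1 :=
          congrArg Subtype.val (pow_card_eq_one' (x := (⟨_, h8⟩ : D)))
        have h11 : Nat.Coprime (r ^ a) (Nat.card D) :=
          Nat.Coprime.pow_left _ ((Nat.Prime.coprime_iff_not_dvd hrp).2 h3)
        have h12 : orderOf (t' ^ l ^ k) ∣ 1 := by
          rw [← h11]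
          exact Nat.dvd_gcd (orderOf_dvd_of_pow_eq_one h9) (orderOf_dvd_of_pow_eq_one h10)
        exact orderOf_eq_one_iff.1 (Nat.dvd_one.1 h12)
      have h13 : t' = 1 := by
        have hz : IsPGroup l (Subgroup.zpowers t') := by
          rintro ⟨y, hy⟩
          obtain ⟨n, rfl⟩ := Subgroup.mem_zpowers_iff.1 hy
          refine ⟨k, Subtype.ext ?_⟩
          show (t' ^ n) ^ l ^ k = 1
          rw [← zpow_natCast, ← zpow_mul, mul_comm, zpow_mul, zpow_natCast, h7, one_zpow]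
        exact UCOM.inf_bot hrp hl hrl hR'.1.2.1 hz ht' (Subgroup.mem_zpowers t')
      rw [hw, h13, mul_one]
      exact hdD
    exact fun t ht => hK ht
  -- `L = D ⊔ R` is normal
  have hLn : ∀ g : H, ∀ x ∈ D ⊔ R, g * x * g⁻¹ ∈ D ⊔ R := by
    intro g
    have h1 : D ⊔ R ≤ (D ⊔ R).comap (MulAut.conj g).toMonoidHom := by
      apply sup_le
      · intro x hx
        show g * x * g⁻¹ ∈ D ⊔ R
        exact (le_sup_left : D ≤ D ⊔ R) (hDn.conj_mem x hx g)
      · conv_lhs => rw [hR]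
        apply sSup_le
        rintro R' ⟨r, hr, hR'⟩ x hx
        show g * x * g⁻¹ ∈ D ⊔ R
        obtain ⟨h1, h2, _⟩ := hC.le r hr R' hR'
        obtain ⟨d, hd, t, ht, h3⟩ := h2 _ (conj_or (hTS.tp r hr).1 hR'.1 g hx)
        rw [h3]
        exact Subgroup.mul_mem_sup (h1 hd) (hgen r hr R' hR' ht)
    exact fun x hx => h1 hx
  -- the centraliser of `R` in `S`
  let N : Subgroup H :=
    { carrier := {s | s ∈ S ∧ ∀ t ∈ R, t * s = s * t}
      one_mem' := ⟨one_mem _, fun t _ => by simp⟩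
      mul_mem' := by
        rintro a b ⟨ha, ha'⟩ ⟨hb, hb'⟩
        exact ⟨mul_mem ha hb, fun t ht =>
          ((show Commute t a from ha' t ht).mul_right (hb' t ht)).eq⟩
      inv_mem' := by
        rintro a ⟨ha, ha'⟩
        exact ⟨inv_mem ha, fun t ht => ((show Commute t a from ha' t ht).inv_right).eq⟩ }
  have hNL : ∀ s ∈ N, ∀ x ∈ D ⊔ R, x * s = s * x := by
    rintro s ⟨hs, hs'⟩ x hx
    have h1 : D ⊔ R ≤ Subgroup.centralizer {s} := by
      apply sup_le
      · intro y hy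
        rw [Subgroup.mem_centralizer_singleton_iff]
        exact (hSD s hs y hy).symm
      · intro y hy
        rw [Subgroup.mem_centralizer_singleton_iff]
        exact hs' y hy
    have := h1 hx
    rw [Subgroup.mem_centralizer_singleton_iff] at this
    exact this
  have hNn : ∀ g : H, ∀ s ∈ N, g * s * g⁻¹ ∈ N := by
    rintro g s hs
    refine ⟨hSn g s hs.1, ?_⟩
    intro t ht
    have h1 := hNL s hs (g⁻¹ * t * g⁻¹⁻¹) (hLn g⁻¹ t ((le_sup_right : R ≤ D ⊔ R) ht))
    have h2 : t * (g * s * g⁻¹) = g * ((g⁻¹ * t * g⁻¹⁻¹) * s) * g⁻¹ := by group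
    rw [h2, h1]
    group
  have hSnor : S.Normal := ⟨fun s hs g => hSn g s hs⟩
  have hN1 := nofix hTS hNn (fun s hs => hSC hs.1) hC.ne0 (by
    intro s hs
    refine hC.fit l hl hlD S hSnor hSC hSl s hs.1 ?_
    intro r hr R' hR' t ht
    exact hs.2 t (hgen r hr R' hR' ht))
  intro s hs
  have hcoS : Nat.Coprime (Nat.card R) (Nat.card (D ⊓ S : Subgroup H)) :=
    hco.coprime_dvd_right (Subgroup.card_dvd_of_le inf_le_left)
  obtain ⟨d, hd, hd'⟩ := specUCO.2 H (D ⊓ S) R s (by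
      intro x hx y hy
      exact hDab x hx.1 y hy.1) (by
      intro r _ x hx
      exact ⟨hDn.conj_mem x hx.1 r, hSn r x hx.2⟩) hcoS (by
      intro r hr
      exact ⟨hcomD r hr s hs, S.mul_mem (hSn r s hs) (S.inv_mem hs)⟩)
  have h1 : d * s ∈ N := ⟨mul_mem hd.2 hs, hd'⟩
  have h2 := hN1 _ h1
  have h3 : s = d⁻¹ := eq_inv_of_mul_eq_one_right h2
  rw [h3]
  exact inv_mem hd.1

/-- The facts about `R`. -/
theorem Rfacts {H X : Type} [Group H] [AddCommGroup X] [DistribMulAction H X] {p : ℕ}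
    {C : Subgroup H} {T : Finset ℕ} {lam : X} {D : Subgroup H} (hTS : TS H X p C T)
    (hC : CLD C T lam D) {R : Subgroup H} (hR : R = sSup {S | ∃ r ∈ T, MiH C lam r S}) :
    Nat.Coprime (Nat.card R) (Nat.card D) ∧ (D ⊔ R).Normal := by
  classical
  have := hTS.finH
  have hDn := hC.Dn
  have hgen : ∀ r ∈ T, ∀ R', MiH C lam r R' → R' ≤ R := by
    intro r hr R' hR'
    rw [hR]
    exact le_sSup (show R' ∈ {S | ∃ r ∈ T, MiH C lam r S} from ⟨r, hr, hR'⟩)
  obtain ⟨hRc, hRp⟩ := specUCO.1 H X C T lam (fun r hr => (hTS.tp r hr).1)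
  rw [← hR] at hRc hRp
  -- coprime
  refine ⟨?_, ?_⟩
  · rw [Nat.coprime_iff_gcd_eq_one]
    by_contra hne
    obtain ⟨q, hq, hqd⟩ := Nat.exists_prime_and_dvd hne
    obtain ⟨hqT, S', hS', _⟩ := hRp q hq (hqd.trans (Nat.gcd_dvd_left _ _))
    exact (hC.le q hqT S' hS').2.2.1 (hqd.trans (Nat.gcd_dvd_right _ _))
  · refine ⟨fun x hx g => ?_⟩
    have h1 : D ⊔ R ≤ (D ⊔ R).comap (MulAut.conj g).toMonoidHom := by
      apply sup_le
      · intro x hx
        show g * x * g⁻¹ ∈ D ⊔ R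
        exact (le_sup_left : D ≤ D ⊔ R) (hDn.conj_mem x hx g)
      · conv_lhs => rw [hR]
        apply sSup_le
        rintro R' ⟨r, hr, hR'⟩ x hx
        show g * x * g⁻¹ ∈ D ⊔ R
        obtain ⟨h1, h2, _⟩ := hC.le r hr R' hR'
        obtain ⟨d, hd, t, ht, h3⟩ := h2 _ (conj_or (hTS.tp r hr).1 hR'.1 g hx)
        rw [h3]
        exact Subgroup.mul_mem_sup (h1 hd) (hgen r hr R' hR' ht)
    exact h1 hx

end UMAM

open UMAM in
theorem specUMA (hFRA : SpecFRA) : SpecUMA := by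
  classical
  intro H X _ _ _ p C T lam D hTS hC hk
  have := hTS.finH
  have := hTS.finX
  have hDn := hC.Dn
  have hDconj : ∀ g : H, ∀ x ∈ D, g * x * g⁻¹ ∈ D := fun g x hx => hDn.conj_mem x hx g
  obtain ⟨c, hcD, hcg⟩ := hC.cyc
  have hDab : ∀ x ∈ D, ∀ y ∈ D, x * y = y * x := by
    intro x hx y hy
    obtain ⟨n, rfl⟩ := hcg x hx
    obtain ⟨m, rfl⟩ := hcg y hy
    rw [← zpow_add, ← zpow_add, add_comm]
  obtain ⟨bet, hlin, hfai⟩ := exists_bet D hC.cyc
  have hfix : ∀ h : H, FixB D bet h ↔ ∀ x ∈ D, h * x = x * h := fix_comm hlin hfai hDconj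
  obtain ⟨R, hR⟩ : ∃ R : Subgroup H, R = sSup {S | ∃ r ∈ T, MiH C lam r S} := ⟨_, rfl⟩
  obtain ⟨hco, hLn⟩ := Rfacts hTS hC hR
  have hgen : ∀ r ∈ T, ∀ R', MiH C lam r R' → R' ≤ R := by
    intro r hr R' hR'
    rw [hR]
    exact le_sSup (show R' ∈ {S | ∃ r ∈ T, MiH C lam r S} from ⟨r, hr, hR'⟩)
  obtain ⟨K, _, hK1, hK2⟩ := hFRA H D R hDn hDab hco.symm hLn (by
    intro d hd hd'
    refine hC.cen d hd ?_
    intro r hr R' hR' t ht
    exact hd' t (hgen r hr R' hR' ht))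
  have hst : StV C (0 : X) D bet := by
    refine ⟨hC.DC, fun d _ => smul_zero d, fun h _ d hd => hDconj h d hd, hDab, ?_, hlin⟩
    refine ⟨K, fun k _ => smul_zero k, hK1, ?_⟩
    intro h _
    have h1 : h ∈ D ⊔ K := by rw [hK2]; exact Subgroup.mem_top h
    have h2 := Subgroup.mem_sup_of_normal_left.1 h1
    obtain ⟨y, hy, z, hz, h3⟩ := h2
    exact ⟨y, hy, z, hz, h3.symm⟩
  have hti := hTS.tight 0 D bet hst
  have hconj : ∀ r, r.Prime → ∀ S S' : Subgroup H, SylIn r ⊤ S → SylIn r ⊤ S' →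
      ∃ g : H, ∀ x, x ∈ S' ↔ g⁻¹ * x * g ∈ S := by
    intro r hr S S' hS hS'
    obtain ⟨g, _, hg⟩ := (CO.specSYL H r hr).2.2.1 ⊤ S S' hS hS'
    exact ⟨g, hg⟩
  have hA : ∀ r ∈ T, r ∈ setA T (0 : X) D bet ↔
      ∀ S : Subgroup H, SylIn r ⊤ S → ∃ t ∈ S, ∃ x ∈ D, t * x ≠ x * t := by
    intro r hr
    unfold setA
    rw [Finset.mem_filter]
    constructor
    · rintro ⟨_, h⟩ S hS
      obtain ⟨t, ht, hnf⟩ := h S hS
      refine ⟨t, ht, ?_⟩
      by_contra hcon
      push Not at hcon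
      exact hnf ⟨smul_zero t, (hfix t).2 hcon⟩
    · intro h
      refine ⟨hr, ?_⟩
      intro S hS
      obtain ⟨t, ht, x, hx, hne⟩ := h S hS
      refine ⟨t, ht, ?_⟩
      rintro ⟨_, hf⟩
      exact hne ((hfix t).1 hf x hx)
  have h1 : kM C T lam ⊆ setA T (0 : X) D bet := by
    intro r hr
    unfold kM at hr
    rw [Finset.mem_filter] at hr
    obtain ⟨hrT, R', hR'⟩ := hr
    rw [hA r hrT]
    intro S hS
    obtain ⟨t, ht, x, hx, hne⟩ := (hC.le r hrT R' hR').2.2.2.1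
    obtain ⟨g, hg⟩ := hconj r (hTS.tp r hrT).1 R' S hR'.1 hS
    refine ⟨g * t * g⁻¹, ?_, g * x * g⁻¹, hDconj g x hx, ?_⟩
    · rw [hg]
      have : g⁻¹ * (g * t * g⁻¹) * g = t := by group
      rwa [this]
    · intro h
      apply hne
      have h2 : g * (t * x) * g⁻¹ = g * (x * t) * g⁻¹ := by
        calc g * (t * x) * g⁻¹ = g * t * g⁻¹ * (g * x * g⁻¹) := by group
          _ = g * x * g⁻¹ * (g * t * g⁻¹) := h
          _ = _ := by group
      exact mul_left_cancel (mul_right_cancel h2)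
  have h2 : setM C T (0 : X) D bet ⊆ PiN C T := by
    intro r hr
    unfold setM at hr
    rw [Finset.mem_filter] at hr
    obtain ⟨hrT, S, hS, hSC, hSf, hSD, hSn⟩ := hr
    have hrp := (hTS.tp r hrT).1
    have hScom : ∀ s ∈ S, ∀ x ∈ D, s * x = x * s := fun s hs => (hfix s).1 (hSf s hs).2
    have hZ : ∀ h : H, (∀ x ∈ D, h * x = x * h) → ∀ t ∈ S, h * t * h⁻¹ ∈ S := by
      intro h hh t ht
      have h3 := hSn h ⟨smul_zero h, (hfix h).2 hh⟩ t ht
      obtain ⟨d, hd, s, hs, h4⟩ := Subgroup.mem_sup_of_normal_left.1 h3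
      rw [← h4]
      refine mul_mem ?_ hs
      -- `d` is an `r`-element
      obtain ⟨a, ha⟩ := hS.2.1 ⟨t, ht⟩
      obtain ⟨b, hb⟩ := hS.2.1 ⟨s, hs⟩
      have ha' : t ^ r ^ a = 1 := congrArg Subtype.val ha
      have hb' : s ^ r ^ b = 1 := congrArg Subtype.val hb
      have h5 : (h * t * h⁻¹) ^ r ^ (a + b) = 1 := by
        rw [conj_pow, pow_add, pow_mul, ha', one_pow]; group
      rw [← h4, (show Commute d s from (hScom s hs d hd).symm).mul_pow] at h5
      have h6 : s ^ r ^ (a + b) = 1 := by rw [pow_add, mul_comm, pow_mul, hb', one_pow]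
      rw [h6, mul_one] at h5
      refine el_mem hrp hS h5 ?_
      intro s' hs'
      have : d * s' * d⁻¹ = s' := by rw [← hScom s' hs' d hd]; group
      rw [this]; exact hs'
    have hSnor : ∀ g : H, ∀ s ∈ S, g * s * g⁻¹ ∈ S := by
      intro g s hs
      obtain ⟨a, ha⟩ := hS.2.1 ⟨s, hs⟩
      have ha' : s ^ r ^ a = 1 := congrArg Subtype.val ha
      refine el_mem hrp hS (k := a) (by rw [conj_pow, ha']; group) ?_
      apply hZ
      intro x hx
      have h3 := hScom s hs (g⁻¹ * x * g⁻¹⁻¹) (hDconj g⁻¹ x hx)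
      calc g * s * g⁻¹ * x = g * (s * (g⁻¹ * x * g⁻¹⁻¹)) * g⁻¹ := by group
        _ = g * ((g⁻¹ * x * g⁻¹⁻¹) * s) * g⁻¹ := by rw [h3]
        _ = x * (g * s * g⁻¹) := by group
    unfold PiN
    rw [Finset.mem_filter]
    refine ⟨hrT, S, hS, ⟨fun s hs g => hSnor g s hs⟩, hSC, ?_⟩
    by_cases hrD : r ∣ Nat.card D
    · have h3 := le_D hTS hC hrp hrD hSnor hSC hS.2.1 hScom
      intro x hx y hy
      exact hDab x (h3 hx) y (h3 hy)
    · intro x hx y hy
      have h3 := hSD x hx y hy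
      have h4 : x * y * x⁻¹ * y⁻¹ ∈ S := mul_mem (mul_mem (mul_mem hx hy) (inv_mem hx)) (inv_mem hy)
      obtain ⟨a, ha⟩ := hS.2.1 ⟨_, h4⟩
      have ha' : (x * y * x⁻¹ * y⁻¹) ^ r ^ a = 1 := congrArg Subtype.val ha
      have h10 : (x * y * x⁻¹ * y⁻¹) ^ Nat.card D = 1 :=
        congrArg Subtype.val (pow_card_eq_one' (x := (⟨_, h3⟩ : D)))
      have h11 : Nat.Coprime (r ^ a) (Nat.card D) :=
        Nat.Coprime.pow_left _ ((Nat.Prime.coprime_iff_not_dvd hrp).2 hrD)
      have h12 : orderOf (x * y * x⁻¹ * y⁻¹) ∣ 1 := by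
        rw [← h11]
        exact Nat.dvd_gcd (orderOf_dvd_of_pow_eq_one ha') (orderOf_dvd_of_pow_eq_one h10)
      have h13 := orderOf_eq_one_iff.1 (Nat.dvd_one.1 h12)
      exact mul_inv_eq_iff_eq_mul.1 (mul_inv_eq_one.1 h13)
  have h3 : PiN C T ⊆ PiK H X T := by
    intro r hr
    unfold PiN at hr
    rw [Finset.mem_filter] at hr
    obtain ⟨hrT, S, hS, hSn, hSC, _⟩ := hr
    have hrp := (hTS.tp r hrT).1
    unfold PiK
    rw [Finset.mem_filter]
    refine ⟨hrT, ?_⟩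
    intro v hv R' hR'
    by_contra hcon
    push Not at hcon
    obtain ⟨g, hg⟩ := hconj r hrp S R' hS hR'
    have h4 : ∀ s ∈ S, s • v = v := by
      intro s hs
      apply hcon
      rw [hg]
      have := hSn.conj_mem s hs g⁻¹
      simpa using this
    have h5 := nofix hTS (fun g k hk => hSn.conj_mem k hk g) hSC hv h4
    have h6 : S = ⊥ := by
      rw [eq_bot_iff]
      intro s hs
      rw [Subgroup.mem_bot]
      exact h5 s hs
    exact (CO.specSYL H r hrp).2.2.2.2.2.2.2.1 S hS (hTS.tp r hrT).2 h6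
  have c1 := Finset.card_le_card h1
  have c2 := Finset.card_le_card h2
  have c3 := Finset.card_le_card h3
  have e1 : PiN C T = PiK H X T := Finset.eq_of_subset_of_card_le h3 (by omega)
  have e2 : kM C T lam = setA T (0 : X) D bet := Finset.eq_of_subset_of_card_le h1 (by omega)
  refine ⟨e1.symm, ?_⟩
  intro r hr
  rw [e2, hA r hr]

end Pool.Agent.Lib.MPbe1941.XV
end

section
/-!
# MP_be1941_al, exact bound, block U (row 281): module UHM (EXACT.md 9.2)
-/
set_option autoImplicit false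

namespace Pool.Agent.Lib.MPbe1941.X

open Pool.Agent.Lib.MPbe1941

namespace UHMM

/-- `Π_N` is contained in `A(w)` for every `w ≠ 0`. -/
theorem PiN_sub {H X : Type} [Group H] [AddCommGroup X] [DistribMulAction H X] {p : ℕ}
    {C : Subgroup H} {T : Finset ℕ} (hTS : TS H X p C T) {w : X} (hw : w ≠ 0) :
    PiN C T ⊆ kA H T w := by
  classical
  have := hTS.finH
  intro r hr
  unfold PiN at hr
  rw [Finset.mem_filter] at hr
  obtain ⟨hrT, S, hS, hSn, hSC, _⟩ := hr
  have hrp := (hTS.tp r hrT).1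
  unfold kA
  rw [Finset.mem_filter]
  refine ⟨hrT, ?_⟩
  intro R' hR'
  by_contra hcon
  push Not at hcon
  obtain ⟨g, _, hg⟩ := (CO.specSYL H r hrp).2.2.1 ⊤ S R' hS hR'
  have h4 : ∀ s ∈ S, s • w = w := by
    intro s hs
    apply hcon
    rw [hg]
    have := hSn.conj_mem s hs g⁻¹
    simpa using this
  have h5 := XV.UMAM.nofix hTS (fun g k hk => hSn.conj_mem k hk g) hSC hw h4
  have h6 : S = ⊥ := by
    rw [eq_bot_iff]
    intro s hs
    rw [Subgroup.mem_bot]
    exact h5 s hs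
  exact (CO.specSYL H r hrp).2.2.2.2.2.2.2.1 S hS (hTS.tp r hrT).2 h6

/-- A Sylow subgroup contained in an `r`-subgroup is equal to it. -/
theorem syl_eq {H : Type} [Group H] [Finite H] {r : ℕ} (hr : r.Prime) {S K : Subgroup H}
    (hS : SylIn r ⊤ S) (hK : IsPGroup r K) (hSK : S ≤ K) : K ≤ S := by
  have hf : Fact r.Prime := ⟨hr⟩
  have h3 : ¬ r ∣ S.relIndex K := by
    intro hd
    apply hS.2.2
    refine hd.trans ?_
    rw [Subgroup.relIndex_top_right]
    exact Subgroup.relIndex_dvd_index_of_le hSK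
  obtain ⟨n, hn'⟩ := IsPGroup.index hK (S.subgroupOf K)
  have h4 : S.relIndex K = r ^ n := hn'
  have h5 : n = 0 := by
    by_contra h0
    apply h3
    rw [h4]
    exact dvd_pow_self r h0
  rw [h5, pow_zero] at h4
  exact Subgroup.relIndex_eq_one.1 h4

end UHMM

open UHMM in
theorem specUHM (hUFB : SpecUFB) (hUSY : SpecUSY) (hCNB : SpecCNB) : SpecUHM := by
  classical
  intro H X _ _ _ p C T v D R H1 dl hU
  have hTS := hU.ts
  have := hTS.finH
  have := hTS.finX
  have hDab : ∀ x ∈ D, ∀ y ∈ D, x * y = y * x := by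
    intro x hx y hy
    rw [hU.Dg] at hx hy
    obtain ⟨n, rfl⟩ := Subgroup.mem_zpowers_iff.1 hx
    obtain ⟨m, rfl⟩ := Subgroup.mem_zpowers_iff.1 hy
    rw [← zpow_add, ← zpow_add, add_comm]
  obtain ⟨hcom, hcj, hcm, _, hid⟩ := hUFB H X p D hTS.pp hTS.pn hTS.px hU.Dn hDab
  obtain ⟨hY1, hY2, _⟩ := hUSY H X p C T v D R H1 dl hU
  have hFm : ∀ a ∈ Fd X D, ∀ b ∈ Fd X D, a * b ∈ Fd X D := fun a ha b hb => mul_mem ha hb
  -- minimal idempotent
  obtain ⟨e, heF, hee, hev, hmin⟩ : ∃ e : AddMonoid.End X, e ∈ Fd X D ∧ e * e = e ∧ e v ≠ 0 ∧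
      ∀ f ∈ Fd X D, f * f = f → f v ≠ 0 → Nat.card (AddMonoidHom.range e) ≤
        Nat.card (AddMonoidHom.range f) := by
    have hex : ∃ n : ℕ, ∃ e : AddMonoid.End X, e ∈ Fd X D ∧ e * e = e ∧ e v ≠ 0 ∧
        Nat.card (AddMonoidHom.range e) = n :=
      ⟨_, 1, one_mem _, one_mul 1, hU.v0, rfl⟩
    obtain ⟨e, h1, h2, h3, h4⟩ := Nat.find_spec hex
    refine ⟨e, h1, h2, h3, ?_⟩
    intro f hf1 hf2 hf3
    rw [h4]
    exact Nat.find_min' hex ⟨f, hf1, hf2, hf3, rfl⟩
  have hsub : ∀ g ∈ Fd X D, g * g = g → g * e = e * g → (e * g) v ≠ 0 → e * g = e := by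
    intro g hg hgg hge hgv
    have h1 : (e * g) * (e * g) = e * g := by
      calc (e * g) * (e * g) = e * (g * e) * g := by rw [mul_assoc, mul_assoc, mul_assoc]
        _ = e * (e * g) * g := by rw [hge]
        _ = (e * e) * (g * g) := by rw [mul_assoc, mul_assoc, mul_assoc]
        _ = e * g := by rw [hee, hgg]
    have h2 := hmin (e * g) (hFm e heF g hg) h1 hgv
    have h3 : AddMonoidHom.range (e * g) ≤ AddMonoidHom.range e := by
      rintro _ ⟨x, rfl⟩
      exact ⟨g x, rfl⟩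
    have h4 : AddMonoidHom.range (e * g) = AddMonoidHom.range e :=
      AddSubgroup.eq_of_le_of_card_ge h3 h2
    ext x
    have h5 : e x ∈ AddMonoidHom.range (e * g) := by rw [h4]; exact ⟨x, rfl⟩
    obtain ⟨y, hy⟩ := h5
    have hy' : (e * g) y = e x := hy
    calc (e * g) x = (g * e) x := by rw [hge]
      _ = g (e x) := rfl
      _ = g ((e * g) y) := by rw [hy']
      _ = (g * (e * g)) y := rfl
      _ = (e * g) y := by
          congr 1
          rw [← mul_assoc, hge, mul_assoc, hgg]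
      _ = e x := hy'
  have hA : ∀ f ∈ Fd X D, f * f = f → e * f = 0 ∨ e * f = e := by
    intro f hf hff
    have hfe : f * e = e * f := hcom f hf e heF
    by_cases h1 : (e * f) v = 0
    · left
      have h2 : (1 - f) * (1 - f) = 1 - f := by
        rw [mul_sub, mul_one, sub_mul, one_mul, hff]; simp
      have h3 : (1 - f) * e = e * (1 - f) := by
        rw [sub_mul, mul_sub, one_mul, mul_one, hfe]
      have h4 : (e * (1 - f)) v ≠ 0 := by
        rw [mul_sub, mul_one]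
        have : (e - e * f) v = e v - (e * f) v := rfl
        rw [this, h1, sub_zero]
        exact hev
      have h5 := hsub (1 - f) (sub_mem (one_mem _) hf) h2 h3 h4
      rw [mul_sub, mul_one, sub_eq_self] at h5
      exact h5
    · right
      exact hsub f hf hff hfe h1
  -- conjugates
  let K : Subgroup H :=
    { carrier := {h | ∀ x : X, h • e x = e (h • x)}
      one_mem' := by intro x; simp
      mul_mem' := by
        intro a b ha hb x
        show (a * b) • e x = e ((a * b) • x)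
        rw [mul_smul, hb x, ha, mul_smul]
      inv_mem' := by
        intro a ha x
        show a⁻¹ • e x = e (a⁻¹ • x)
        have h1 := ha (a⁻¹ • x)
        rw [smul_inv_smul] at h1
        rw [← h1, inv_smul_smul] }
  have hKm : ∀ h, h ∈ K ↔ ∀ x : X, h • e x = e (h • x) := fun h => Iff.rfl
  have hB : ∀ h : H, h ∉ K → ∃ f ∈ Fd X D, (∀ x : X, h • e x = f (h • x)) ∧ e * f = 0 := by
    intro h hh
    obtain ⟨f, hf, hfx⟩ := hcj h e heF
    have hff : f * f = f := by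
      ext x
      have h1 : x = h • (h⁻¹ • x) := by rw [smul_inv_smul]
      have h2 : (f * f) x = f (f x) := rfl
      rw [h2, h1, ← hfx, ← hfx]
      congr 1
      show (e * e) (h⁻¹ • x) = e (h⁻¹ • x)
      rw [hee]
    refine ⟨f, hf, hfx, ?_⟩
    rcases hA f hf hff with h1 | h1
    · exact h1
    · exfalso
      apply hh
      have hfe : f * e = e * f := hcom f hf e heF
      -- `range e = range f`
      have h2 : AddMonoidHom.range e ≤ AddMonoidHom.range f := by
        rintro _ ⟨x, rfl⟩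
        refine ⟨e x, ?_⟩
        show (f * e) x = e x
        rw [hfe, h1]
      have h3 : Nat.card (AddMonoidHom.range f) = Nat.card (AddMonoidHom.range e) := by
        refine Nat.card_congr
          { toFun := fun y => ⟨h⁻¹ • (y : X), ?_⟩
            invFun := fun y => ⟨h • (y : X), ?_⟩
            left_inv := ?_
            right_inv := ?_ }
        · obtain ⟨y, x, hx⟩ := y
          have hx' : f x = y := hx
          refine ⟨h⁻¹ • x, ?_⟩
          show e (h⁻¹ • x) = h⁻¹ • y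
          have h4 := hfx (h⁻¹ • x)
          rw [smul_inv_smul, hx'] at h4
          rw [← h4, inv_smul_smul]
        · obtain ⟨y, x, hx⟩ := y
          have hx' : e x = y := hx
          refine ⟨h • x, ?_⟩
          show f (h • x) = h • y
          rw [← hfx, hx']
        · intro y
          apply Subtype.ext
          show h • (h⁻¹ • (y : X)) = y
          rw [smul_inv_smul]
        · intro y
          apply Subtype.ext
          show h⁻¹ • (h • (y : X)) = y
          rw [inv_smul_smul]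
      have h4 : AddMonoidHom.range e = AddMonoidHom.range f :=
        AddSubgroup.eq_of_le_of_card_ge h2 h3.le
      have h5 : f = e := by
        ext x
        have h6 : f x ∈ AddMonoidHom.range e := by rw [h4]; exact ⟨x, rfl⟩
        obtain ⟨y, hy⟩ := h6
        have hy' : e y = f x := hy
        have h7 : e (f x) = f x := by
          rw [← hy']
          show (e * e) y = e y
          rw [hee]
        rw [← h7]
        show (e * f) x = e x
        rw [h1]
      rw [hKm]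
      intro x
      rw [hfx, h5]
  have hDK : ∀ d ∈ D, d ∈ K := fun d hd => hcm d (fun x hx => hDab d hd x hx) e heF
  have hHK : ∀ y ∈ H1, y ∈ K := fun y hy => hcm y (fun x hx => hU.H1D y hy x hx) e heF
  have hkMd : ∀ (u : X) (r : ℕ), r ∈ kM C T u ↔ r ∈ T ∧ ∃ R', MiH C u r R' := by
    intro u r
    unfold kM
    rw [Finset.mem_filter]
  have hkAd : ∀ (u : X) (r : ℕ), r ∈ kA H T u ↔ r ∈ T ∧ Kl H u r := by
    intro u r
    unfold kA
    rw [Finset.mem_filter]
  -- the Sylow subgroups of `R` are in `K`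
  have hSK : ∀ r ∈ kM C T v, ∀ S : Subgroup H, S ≤ R → SylIn r ⊤ S → S ≤ K := by
    intro r hr S hSR hS ρ hρ
    by_contra hρK
    obtain ⟨f, hf, hfx, hef⟩ := hB ρ hρK
    have hrT := ((hkMd v r).1 hr).1
    obtain ⟨w, hw⟩ : ∃ w, w = e v := ⟨_, rfl⟩
    have hw0 : w ≠ 0 := by rw [hw]; exact hev
    have hew : e w = w := by
      rw [hw]
      show (e * e) v = e v
      rw [hee]
    -- (c1)
    have hc1 : r ∈ kA H T w := by
      rw [hkAd]
      refine ⟨hrT, ?_⟩
      intro S' hS'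
      by_contra hcon
      push Not at hcon
      obtain ⟨d, hd, hdx⟩ := hY1 r hr S S' hSR hS hS'
      have h1 : d * ρ * d⁻¹ ∈ S' := by
        rw [hdx]
        have : d⁻¹ * (d * ρ * d⁻¹) * d = ρ := by group
        rwa [this]
      have h2 := hcon _ h1
      have h3 : (d * ρ * d⁻¹) • w = f ((d * ρ * d⁻¹) • v) := by
        rw [hw, mul_smul, mul_smul, mul_smul, mul_smul, (hKm d⁻¹).1 (inv_mem (hDK d hd)), hfx,
          hcm d (fun x hx => hDab d hd x hx) f hf]
      rw [h3] at h2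
      apply hw0
      rw [← hew, ← h2]
      show (e * f) _ = 0
      rw [hef]
      rfl
    have hsubA : PiN C T ⊆ kA H T w := PiN_sub hTS hw0
    have hrN : r ∉ PiN C T := by
      rw [← hU.kAN, hkAd]
      rintro ⟨_, h⟩
      obtain ⟨t, ht, hne⟩ := h S hS
      exact hne (hU.Rv t (hSR ht))
    have hc3 : kM C T w ⊆ (kM C T v).erase r := by
      intro r' hr'
      obtain ⟨hr'T, S', hS'⟩ := (hkMd w r').1 hr'
      have hr'p := (hTS.tp r' hr'T).1
      have hnA : r' ∉ kA H T w := by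
        rw [hkAd]
        rintro ⟨_, h⟩
        obtain ⟨t, ht, hne⟩ := h S' hS'.1
        exact hne (hS'.2.2.2.1 t ht)
      rw [Finset.mem_erase]
      refine ⟨?_, ?_⟩
      · rintro rfl
        exact hnA hc1
      · by_contra hnM
        obtain ⟨⟨S'', hS'', hS''v⟩, _⟩ := hY2 r' hr'T hnM (fun h => hnA (hsubA h))
        have hS''w : ∀ t ∈ S'', t • w = w := by
          intro t ht
          have h1 := hS''v ht
          rw [hw, (hKm t).1 (hHK t h1.1)]
          congr 1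
          exact h1.2
        have h1 : S'' ≤ S' := XV.UCOM.syl_le hr'p hS'.1 hS''.2.1
          (fun k hk s hs => hS'.2.2.2.2 k (hS''w k hk) s hs)
        have h2 : S' ≤ S'' := syl_eq hr'p hS'' hS'.1.2.1 h1
        apply hnM
        rw [hkMd]
        refine ⟨hr'T, S'', hS'', h1.trans hS'.2.1,
          fun x hx y hy => hS'.2.2.1 x (h1 hx) y (h1 hy), fun t ht => (hS''v ht).2, ?_⟩
        intro h hh t ht
        obtain ⟨x, hx, y, hy, hyv, rfl⟩ := hU.stv h hh
        have h3 : y • w = w := by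
          rw [hw, (hKm y).1 (hHK y hy)]
          congr 1
        have h4 : y * t * y⁻¹ ∈ S'' := h2 (hS'.2.2.2.2 y h3 t (h1 ht))
        have h5 := hU.H1R _ (hS''v h4).1 x hx
        have h6 : x * y * t * (x * y)⁻¹ = x * (y * t * y⁻¹) * x⁻¹ := by group
        rw [h6, ← h5]
        have h7 : y * t * y⁻¹ * x * x⁻¹ = y * t * y⁻¹ := by group
        rw [h7]
        exact h4
    have hins : insert r (PiN C T) ⊆ kA H T w := by
      intro q hq
      rcases Finset.mem_insert.1 hq with rfl | hq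
      · exact hc1
      · exact hsubA hq
    have c1 := Finset.card_le_card hins
    rw [Finset.card_insert_of_notMem hrN] at c1
    have c2 := Finset.card_le_card hc3
    rw [Finset.card_erase_of_mem hr] at c2
    have c3 := ((hCNB H X p C T hTS).2 w hw0).2
    have c4 := hU.cMN
    have c5 := hU.pos
    omega
  have hRK : R ≤ K := by
    have h1 : Nat.card R ∣ Nat.card (R ⊓ K : Subgroup H) := by
      rw [hU.cR]
      apply Finset.prod_primes_dvd
      · intro r hr
        exact (hU.syl r hr).1.prime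
      · intro r hr
        obtain ⟨_, S, hSR, hS, hSc, _⟩ := hU.syl r hr
        have h2 : S ≤ R ⊓ K := le_inf hSR (hSK r hr S hSR hS)
        rw [← hSc]
        exact Subgroup.card_dvd_of_le h2
    have h2 : (R ⊓ K : Subgroup H) = R :=
      Subgroup.eq_of_le_of_card_ge inf_le_left (Nat.le_of_dvd Nat.card_pos h1)
    rw [← h2]
    exact inf_le_right
  have hKtop : ∀ h : H, h ∈ K := by
    intro h
    obtain ⟨d, hd, x, hx, y, hy, rfl⟩ := hU.dec h
    exact mul_mem (mul_mem (hDK d hd) (hRK hx)) (hHK y hy)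
  have he1 : e = 1 := by
    have h1 := hTS.irr (AddMonoidHom.range e) (by
      rintro h _ ⟨x, rfl⟩
      refine ⟨h • x, ?_⟩
      exact ((hKm h).1 (hKtop h) x).symm)
    rcases h1 with h1 | h1
    · exfalso
      apply hev
      have : e v ∈ AddMonoidHom.range e := ⟨v, rfl⟩
      rw [h1] at this
      exact AddSubgroup.mem_bot.1 this
    · ext x
      have : x ∈ AddMonoidHom.range e := by rw [h1]; exact AddSubgroup.mem_top x
      obtain ⟨y, hy⟩ := this
      have hy' : e y = x := hy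
      rw [← hy']
      show (e * e) y = e y
      rw [hee]
  intro a ha ha0
  obtain ⟨n, hn, h1, h2⟩ := hid a ha ha0
  refine ⟨n, hn, ?_⟩
  have h3 := hA (a ^ n) (pow_mem ha n) h1
  rw [he1, one_mul] at h3
  rcases h3 with h3 | h3
  · exact absurd h3 h2
  · exact h3

end Pool.Agent.Lib.MPbe1941.X
end

section
/-! # MP_be1941_al EXACT, module UIN (helper67). No hypotheses. -/
set_option autoImplicit false

namespace Pool.Agent.Lib.MPbe1941.X

open Pool.Agent.Lib.MPbe1941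
open Pool.Agent.Lib.MPbe1941.XF

namespace UINM

variable {H X : Type} [Group H] [AddCommGroup X] [DistribMulAction H X]

/-- The endomorphism of `X` given by `h`. -/
def te (X : Type) {H : Type} [Group H] [AddCommGroup X] [DistribMulAction H X] (h : H) :
    AddMonoid.End X :=
  DistribMulAction.toAddMonoidEnd H X h

theorem te_apply (h : H) (x : X) : te X h x = h • x := rfl

theorem te_mem {D : Subgroup H} {d : H} (hd : d ∈ D) : te X d ∈ Fd X D :=
  Subring.subset_closure ⟨d, hd, rfl⟩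

theorem sub_apply' (f g : AddMonoid.End X) (x : X) : (f - g) x = f x - g x := rfl

theorem pow_succ_apply (f : AddMonoid.End X) (n : ℕ) (x : X) : (f ^ (n + 1)) x = (f ^ n) (f x) := by
  rw [pow_succ]
  rfl

/-- Elements of `F` preserve the subgroup generated by `D v`. -/
theorem fd_mem {D : Subgroup H} {v : X} {f : AddMonoid.End X} (hf : f ∈ Fd X D) {x : X}
    (hx : x ∈ AddSubgroup.closure {x : X | ∃ d ∈ D, x = d • v}) :
    f x ∈ AddSubgroup.closure {x : X | ∃ d ∈ D, x = d • v} := by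
  have key : ∀ g : AddMonoid.End X, g ∈ Fd X D → ∀ y ∈ AddSubgroup.closure {x : X | ∃ d ∈ D, x = d • v},
      g y ∈ AddSubgroup.closure {x : X | ∃ d ∈ D, x = d • v} := by
    intro g hg
    refine Subring.closure_induction (p := fun g _ => ∀ y ∈ AddSubgroup.closure
      {x : X | ∃ d ∈ D, x = d • v}, g y ∈ AddSubgroup.closure {x : X | ∃ d ∈ D, x = d • v})
      ?_ ?_ ?_ ?_ ?_ ?_ hg
    · rintro _ ⟨d, hd, rfl⟩ y hy
      refine AddSubgroup.closure_induction (p := fun y _ => (DistribMulAction.toAddMonoidEnd H X d) y ∈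
        AddSubgroup.closure {x : X | ∃ d ∈ D, x = d • v}) ?_ ?_ ?_ ?_ hy
      · rintro _ ⟨d', hd', rfl⟩
        refine AddSubgroup.subset_closure ⟨d * d', D.mul_mem hd hd', ?_⟩
        rw [mul_smul]
        rfl
      · rw [map_zero]
        exact AddSubgroup.zero_mem _
      · intro a b _ _ ha hb
        rw [map_add]
        exact AddSubgroup.add_mem _ ha hb
      · intro a _ ha
        rw [map_neg]
        exact AddSubgroup.neg_mem _ ha
    · intro y _
      exact AddSubgroup.zero_mem _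
    · intro y hy
      exact hy
    · intro a b _ _ ha hb y hy
      exact AddSubgroup.add_mem _ (ha y hy) (hb y hy)
    · intro a _ ha y hy
      exact AddSubgroup.neg_mem _ (ha y hy)
    · intro a b _ _ ha hb y hy
      exact ha _ (hb y hy)
  exact key f hf x hx

theorem eq_of {p : ℕ} {C : Subgroup H} {T : Finset ℕ} {v : X} {D R H1 : Subgroup H} {dl : H}
    (h : US H X p C T v D R H1 dl) {a b : H} (ha : a ∈ D) (hb : b ∈ D)
    (hab : te X a - te X b = 0) : a = b := by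
  have h1 : ∀ x : X, a • x = b • x := by
    intro x
    have := congrArg (fun f : AddMonoid.End X => f x) hab
    simp only [sub_apply', te_apply] at this
    exact sub_eq_zero.mp this
  have := h.ts.faith (b⁻¹ * a) (h.DC (D.mul_mem (D.inv_mem hb) ha)) (fun x => by
    rw [mul_smul, h1, inv_smul_smul])
  exact (inv_mul_eq_one.mp this).symm

theorem inj_of {D : Subgroup H} (hF : ∀ a ∈ Fd X D, a ≠ 0 → ∃ n : ℕ, 0 < n ∧ a ^ n = 1)
    {a : AddMonoid.End X} (ha : a ∈ Fd X D) (ha0 : a ≠ 0) {x : X} (hx : a x = 0) : x = 0 := by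
  obtain ⟨n, hn, h1⟩ := hF a ha ha0
  obtain ⟨m, rfl⟩ : ∃ m, n = m + 1 := ⟨n - 1, by omega⟩
  have := congrArg (fun f : AddMonoid.End X => f x) h1
  simp only [pow_succ_apply, hx, map_zero] at this
  exact this.symm

end UINM

open UINM in
theorem specUIN : SpecUIN := by
  intro H X _ _ _ p C T v D R H1 dl h hF
  have hdl : dl ∈ D := by rw [h.Dg]; exact Subgroup.mem_zpowers dl
  have hcj : ∀ (ρ d : H) (x : X), ρ • x = x → ρ • d • x = (ρ * d * ρ⁻¹) • x := by
    intro ρ d x hx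
    have : ρ⁻¹ • x = x := by
      conv_lhs => rw [← hx]
      rw [inv_smul_smul]
    rw [mul_smul, this, mul_smul]
  refine ⟨?_, ?_⟩
  · intro u u' hu hu' huu
    obtain ⟨r, hr⟩ : (kM C T v).Nonempty := by
      rw [← Finset.card_pos, h.cMN]; exact h.pos
    obtain ⟨hrp, S, hSR, -, hcS, -⟩ := h.syl r hr
    have hfin : Finite H := h.ts.finH
    obtain ⟨ρ, hρS, hρ1⟩ : ∃ ρ ∈ S, ρ ≠ 1 := by
      by_contra hcon
      push Not at hcon
      have : S = ⊥ := (Subgroup.eq_bot_iff_forall S).mpr hcon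
      rw [this, Subgroup.card_bot] at hcS
      exact hrp.one_lt.ne hcS
    have hρR := hSR hρS
    have hd' : ρ * dl * ρ⁻¹ ∈ D := h.Dn.conj_mem dl hdl ρ
    have h2 : u + (ρ * dl * ρ⁻¹) • u' = 0 := by
      have := congrArg (fun z => ρ • z) huu
      simp only [smul_add, smul_zero, hu ρ hρR, hcj ρ dl u' (hu' ρ hρR)] at this
      exact this
    have h3 : (te X dl - te X (ρ * dl * ρ⁻¹)) u' = 0 := by
      rw [sub_apply', te_apply, te_apply, sub_eq_zero]
      exact add_left_cancel (huu.trans h2.symm)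
    have hne : te X dl - te X (ρ * dl * ρ⁻¹) ≠ 0 := by
      intro h0
      have h4 := eq_of h hdl hd' h0
      refine hρ1 (h.mov ρ hρR ?_)
      nth_rewrite 2 [h4]
      group
    have hu0 : u' = 0 := inj_of hF ((Fd X D).sub_mem (te_mem hdl) (te_mem hd')) hne h3
    refine ⟨?_, hu0⟩
    rw [hu0, smul_zero, add_zero] at huu
    exact huu
  · intro x hx0 hxR hxL d hd ρ hρ hfix
    have hd1 : ρ * d * ρ⁻¹ ∈ D := h.Dn.conj_mem d hd ρ
    have hd2 : ρ * (d * dl) * ρ⁻¹ ∈ D := h.Dn.conj_mem _ (D.mul_mem hd hdl) ρ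
    have ha : te X (ρ * d * ρ⁻¹) - te X d ∈ Fd X D := (Fd X D).sub_mem (te_mem hd1) (te_mem hd)
    have hb : te X (ρ * (d * dl) * ρ⁻¹) - te X (d * dl) ∈ Fd X D :=
      (Fd X D).sub_mem (te_mem hd2) (te_mem (D.mul_mem hd hdl))
    have hab : (te X (ρ * d * ρ⁻¹) - te X d) v +
        (te X (ρ * (d * dl) * ρ⁻¹) - te X (d * dl)) x = 0 := by
      simp only [smul_add] at hfix
      rw [hcj ρ d v (h.Rv ρ hρ), ← mul_smul d dl x, hcj ρ (d * dl) x (hxR ρ hρ)] at hfix
      rw [sub_apply', sub_apply', te_apply, te_apply, te_apply, te_apply]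
      rw [sub_add_sub_comm, sub_eq_zero]
      exact hfix
    have hb0 : te X (ρ * (d * dl) * ρ⁻¹) - te X (d * dl) = 0 := by
      by_contra hbne
      obtain ⟨n, hn, h1⟩ := hF _ hb hbne
      obtain ⟨m, rfl⟩ : ∃ m, n = m + 1 := ⟨n - 1, by omega⟩
      apply hxL
      have hbx : (te X (ρ * (d * dl) * ρ⁻¹) - te X (d * dl)) x =
          - ((te X (ρ * d * ρ⁻¹) - te X d) v) := by
        rw [eq_neg_iff_add_eq_zero, add_comm]
        exact hab
      have h5 := congrArg (fun f : AddMonoid.End X => f x) h1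
      simp only [pow_succ_apply, hbx] at h5
      have h6 : (1 : AddMonoid.End X) x = x := rfl
      rw [h6] at h5
      rw [← h5]
      refine fd_mem ((Fd X D).pow_mem hb m) (AddSubgroup.neg_mem _ (fd_mem ha ?_))
      exact AddSubgroup.subset_closure ⟨1, D.one_mem, (one_smul H v).symm⟩
    have ha0 : te X (ρ * d * ρ⁻¹) - te X d = 0 := by
      by_contra hane
      refine h.v0 (inj_of hF ha hane ?_)
      rw [hb0] at hab
      simpa using hab
    have e1 : ρ * d * ρ⁻¹ = d := eq_of h hd1 hd ha0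
    have e2 : ρ * (d * dl) * ρ⁻¹ = d * dl := eq_of h hd2 (D.mul_mem hd hdl) hb0
    refine h.mov ρ hρ ?_
    have e3 : ρ * (d * dl) * ρ⁻¹ = (ρ * d * ρ⁻¹) * (ρ * dl * ρ⁻¹) := by group
    rw [e1, e2] at e3
    have e4 : dl = ρ * dl * ρ⁻¹ := mul_left_cancel e3
    nth_rewrite 2 [e4]
    group

end Pool.Agent.Lib.MPbe1941.X
end

section
/-!
# MP_be1941_al EXACT, block U: USQ
-/
set_option autoImplicit false

namespace Pool.Agent.Lib.MPbe1941.X

open Pool.Agent.Lib.MPbe1941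

namespace USQM

variable {H : Type} [Group H]

/-- power automorphisms commute -/
theorem comm_mem (D : Subgroup H) (hn : D.Normal) (hc : IsCyclic D) (h h' : H) :
    h * h' * h⁻¹ * h'⁻¹ ∈ Subgroup.centralizer (D : Set H) := by
  obtain ⟨g, hg⟩ := hc.exists_generator
  have hpow : ∀ u : H, ∃ a : ℤ, ∀ x ∈ D, u * x * u⁻¹ = x ^ a := by
    intro u
    obtain ⟨a, ha⟩ := Subgroup.mem_zpowers_iff.1
      (hg ⟨u * (g : H) * u⁻¹, hn.conj_mem _ g.2 u⟩)
    have ha' : (g : H) ^ a = u * (g : H) * u⁻¹ := by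
      have := congrArg Subtype.val ha
      simpa using this
    refine ⟨a, fun x hx => ?_⟩
    obtain ⟨i, hi⟩ := Subgroup.mem_zpowers_iff.1 (hg ⟨x, hx⟩)
    have hi' : (g : H) ^ i = x := by
      have := congrArg Subtype.val hi
      simpa using this
    rw [← hi', ← conj_zpow, ← ha', ← zpow_mul, ← zpow_mul, mul_comm]
  rw [Subgroup.mem_centralizer_iff]
  intro x hx
  obtain ⟨a, ha⟩ := hpow h
  obtain ⟨b, hb⟩ := hpow h'
  obtain ⟨c, hc'⟩ := hpow h⁻¹
  obtain ⟨d, hd⟩ := hpow h'⁻¹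
  have h1 : h * h' * h⁻¹ * h'⁻¹ * x * (h * h' * h⁻¹ * h'⁻¹)⁻¹ = x := by
    have hx1 : h'⁻¹ * x * h' ∈ D := by simpa using hn.conj_mem x hx h'⁻¹
    have hx2 : h⁻¹ * (h'⁻¹ * x * h') * h ∈ D := by simpa using hn.conj_mem _ hx1 h⁻¹
    have e0 : h⁻¹ * (h'⁻¹ * x * h') * h = h'⁻¹ * (h⁻¹ * x * h) * h' := by
      have e1 : h'⁻¹ * x * h' = x ^ d := by simpa using hd x hx
      have e2 : h⁻¹ * x * h = x ^ c := by simpa using hc' x hx
      have e3 : h⁻¹ * (h'⁻¹ * x * h') * h = (h'⁻¹ * x * h') ^ c := by simpa using hc' _ hx1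
      have e4 : h'⁻¹ * (h⁻¹ * x * h) * h' = (h⁻¹ * x * h) ^ d := by
        have hx3 : h⁻¹ * x * h ∈ D := by simpa using hn.conj_mem x hx h⁻¹
        simpa using hd _ hx3
      rw [e3, e4, e1, e2, ← zpow_mul, ← zpow_mul, mul_comm]
    calc h * h' * h⁻¹ * h'⁻¹ * x * (h * h' * h⁻¹ * h'⁻¹)⁻¹ =
        h * (h' * (h⁻¹ * (h'⁻¹ * x * h') * h) * h'⁻¹) * h⁻¹ := by group
      _ = h * (h' * (h'⁻¹ * (h⁻¹ * x * h) * h') * h'⁻¹) * h⁻¹ := by rw [e0]
      _ = x := by group
  exact (mul_inv_eq_iff_eq_mul.1 h1).symm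

/-- a normal subgroup of prime index in the kernel of a quotient -/
theorem exists_index [Finite H] (Z : Subgroup H) [Z.Normal]
    (hab : ∀ h h' : H, h * h' * h⁻¹ * h'⁻¹ ∈ Z) {s : ℕ} (hs : s.Prime) (hd : s ∣ Z.index) :
    ∃ N : Subgroup H, N.Normal ∧ Z ≤ N ∧ N.index = s := by
  have hcomm : ∀ x y : H ⧸ Z, x * y = y * x := by
    intro x y
    obtain ⟨a, rfl⟩ := QuotientGroup.mk_surjective x
    obtain ⟨b, rfl⟩ := QuotientGroup.mk_surjective y
    rw [← QuotientGroup.mk_mul, ← QuotientGroup.mk_mul, QuotientGroup.eq]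
    have h1 := hab (b⁻¹) (a⁻¹)
    have e1 : b⁻¹ * a⁻¹ * b⁻¹⁻¹ * a⁻¹⁻¹ = (a * b)⁻¹ * (b * a) := by group
    rwa [e1] at h1
  let _ : CommGroup (H ⧸ Z) := { (inferInstance : Group (H ⧸ Z)) with mul_comm := hcomm }
  have hfin : Finite (H ⧸ Z) := inferInstance
  have h2 := CommGroup.card_monoidHom_of_hasEnoughRootsOfUnity (H ⧸ Z) ℂ
  have hfin2 : Finite ((H ⧸ Z) →* ℂˣ) := by
    apply Nat.finite_of_card_ne_zero
    rw [h2]
    exact Nat.card_pos.ne'
  have h3 : s ∣ Nat.card ((H ⧸ Z) →* ℂˣ) := by rw [h2]; exact hd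
  have : Fact s.Prime := ⟨hs⟩
  obtain ⟨χ, hχ⟩ := exists_prime_orderOf_dvd_card' s h3
  let χ' : H →* ℂˣ := χ.comp (QuotientGroup.mk' Z)
  have hs0 : NeZero s := ⟨hs.ne_zero⟩
  have hZ : Z ≤ χ'.ker := by
    intro z hz
    rw [MonoidHom.mem_ker]
    show χ (QuotientGroup.mk z) = 1
    rw [(QuotientGroup.eq_one_iff z).2 hz, map_one]
  refine ⟨χ'.ker, inferInstance, hZ, ?_⟩
  rw [Subgroup.index_ker]
  have h4 : χ'.range ≤ rootsOfUnity s ℂ := by
    rintro _ ⟨x, rfl⟩
    rw [mem_rootsOfUnity]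
    have h5 := pow_orderOf_eq_one χ
    rw [hχ] at h5
    have h6 := DFunLike.congr_fun h5 (QuotientGroup.mk' Z x)
    exact h6
  have h5 : Nat.card χ'.range ∣ s := by
    have h6 := Subgroup.card_dvd_of_le h4
    rwa [Complex.card_rootsOfUnity] at h6
  rcases (Nat.dvd_prime hs).1 h5 with h6 | h6
  · exfalso
    have h7 : χ'.range = ⊥ := Subgroup.card_eq_one.1 h6
    have h8 : χ = 1 := by
      refine MonoidHom.ext fun x => ?_
      obtain ⟨a, rfl⟩ := QuotientGroup.mk_surjective x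
      have h9 : χ' a ∈ χ'.range := ⟨a, rfl⟩
      rw [h7, Subgroup.mem_bot] at h9
      exact h9
    rw [h8, orderOf_one] at hχ
    exact hs.one_lt.ne hχ
  · exact h6

end USQM

theorem specUSQ : SpecUSQ := by
  intro H _ _ D T hIdx hn hc
  have hab := USQM.comm_mem D hn hc
  have hZn : (Subgroup.centralizer (D : Set H)).Normal := Subgroup.normal_centralizer
  have key : ∀ s, s.Prime → s ∣ (Subgroup.centralizer (D : Set H)).index → s ∈ T ∧
      (¬ s ∣ Nat.card (Subgroup.centralizer (D : Set H))) ∧ s ∣ Nat.card H ∧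
      ¬ s * s ∣ Nat.card H := by
    intro s hs hd
    obtain ⟨N, hN, hZN, hNi⟩ := USQM.exists_index _ hab hs hd
    obtain ⟨h1, h2⟩ := hIdx N hN (by rw [hNi]; exact hs)
    rw [hNi] at h1 h2
    have h3 := N.card_mul_index
    rw [hNi] at h3
    refine ⟨h1, fun h => h2 (h.trans (Subgroup.card_dvd_of_le hZN)), ?_, fun h => h2 ?_⟩
    · rw [← h3]
      exact dvd_mul_left _ _
    · rw [← h3] at h
      exact Nat.dvd_of_mul_dvd_mul_right hs.pos h
  refine ⟨hab, ?_, ?_⟩
  · have hi0 : (Subgroup.centralizer (D : Set H)).index ≠ 0 := Subgroup.index_ne_zero_of_finite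
    have hsq : Squarefree (Subgroup.centralizer (D : Set H)).index := by
      rw [Nat.squarefree_iff_prime_squarefree]
      intro s hs hd
      have hd1 : s ∣ (Subgroup.centralizer (D : Set H)).index := (dvd_mul_right s s).trans hd
      apply (key s hs hd1).2.2.2
      exact hd.trans (Subgroup.index_dvd_card _)
    conv_lhs => rw [← Nat.prod_primeFactors_of_squarefree hsq]
    refine Finset.prod_congr ?_ fun _ _ => rfl
    ext s
    rw [Nat.mem_primeFactors, Finset.mem_filter]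
    exact ⟨fun h => ⟨(key s h.1 h.2.1).1, h.1, h.2.1⟩, fun h => ⟨h.2.1, h.2.2, hi0⟩⟩
  · intro s hs hd
    obtain ⟨h1, h2, h3, h4⟩ := key s hs hd
    refine ⟨h1, h2, fun S hS => ?_⟩
    have : Fact s.Prime := ⟨hs⟩
    obtain ⟨k, hk⟩ := IsPGroup.iff_card.1 hS.2.1
    have h5 := S.card_mul_index
    have h6 : ¬ s ∣ S.index := by
      have := hS.2.2
      rwa [Subgroup.relIndex_top_right] at this
    rw [← h5] at h3 h4
    rcases Nat.lt_or_ge k 2 with hk2 | hk2
    · interval_cases k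
      · exfalso
        rw [hk, pow_zero, one_mul] at h3
        exact h6 h3
      · rw [hk, pow_one]
    · exfalso
      apply h4
      rw [hk]
      refine Dvd.dvd.mul_right ?_ _
      rw [← sq]
      exact pow_dvd_pow s hk2

end Pool.Agent.Lib.MPbe1941.X
end

section
/-!
# MP_be1941_al, exact bound, block U (row 281): module UST (EXACT.md 7.2)
-/
set_option autoImplicit false

namespace Pool.Agent.Lib.MPbe1941.X

open Pool.Agent.Lib.MPbe1941
open scoped commutatorElement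

theorem specUST (hUDB : SpecUDB) (hUEQ : SpecUEQ) (hUSQ : SpecUSQ) (hRLO : SpecRLO)
    (hCNB : SpecCNB) : SpecUST := by
  classical
  intro H X _ _ _ p C T hTS hPI v hcl hcyc
  have := hTS.finH
  have := hTS.finX
  obtain ⟨⟨hDn, hDC, hDab⟩, hD2, hD3, hD4, hD5, _, _⟩ := hUDB H X p C T hTS v hcl.1
  obtain ⟨hkAN, hcard, hpos, hkMZ⟩ := hUEQ H X p C T hTS v hcl hcyc
  obtain ⟨D, hD⟩ : ∃ D : Subgroup H, D = DT C T v := ⟨_, rfl⟩
  rw [← hD] at hDn hDC hDab hD2 hD3 hD4 hD5 hkMZ hcyc ⊢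
  obtain ⟨hab, hidx, hsq⟩ := hUSQ H D T hPI hDn hcyc
  obtain ⟨Z, hZ⟩ : ∃ Z : Subgroup H, Z = Subgroup.centralizer (D : Set H) := ⟨_, rfl⟩
  rw [← hZ] at hab hidx hsq hkMZ
  have hZm : ∀ h, h ∈ Z ↔ ∀ x ∈ D, h * x = x * h := by
    intro h
    rw [hZ, Subgroup.mem_centralizer_iff]
    exact ⟨fun hh x hx => (hh x hx).symm, fun hh x hx => (hh x hx).symm⟩
  have hDconj : ∀ g : H, ∀ x ∈ D, g * x * g⁻¹ ∈ D := fun g x hx => hDn.conj_mem x hx g
  have hZn : Z.Normal := by
    refine ⟨fun z hz g => ?_⟩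
    rw [hZm] at hz ⊢
    intro x hx
    have h3 := hz (g⁻¹ * x * g⁻¹⁻¹) (hDconj g⁻¹ x hx)
    calc g * z * g⁻¹ * x = g * (z * (g⁻¹ * x * g⁻¹⁻¹)) * g⁻¹ := by group
      _ = g * ((g⁻¹ * x * g⁻¹⁻¹) * z) * g⁻¹ := by rw [h3]
      _ = x * (g * z * g⁻¹) := by group
  have hDZ : D ≤ Z := fun x hx => (hZm x).2 (fun y hy => hDab x hx y hy)
  obtain ⟨R, hR⟩ : ∃ R : Subgroup H, R = sSup {S | ∃ r ∈ T, MiH C v r S} := ⟨_, rfl⟩
  have hgen : ∀ r ∈ T, ∀ R', MiH C v r R' → R' ≤ R := by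
    intro r hr R' hR'
    rw [hR]
    exact le_sSup (show R' ∈ {S | ∃ r ∈ T, MiH C v r S} from ⟨r, hr, hR'⟩)
  obtain ⟨hRc, hRp⟩ := XV.specUCO.1 H X C T v (fun r hr => (hTS.tp r hr).1)
  rw [← hR] at hRc hRp
  have hkMd : ∀ r, r ∈ kM C T v ↔ r ∈ T ∧ ∃ R', MiH C v r R' := by
    intro r
    unfold kM
    rw [Finset.mem_filter]
  have hS1 : ∀ r ∈ T, ∀ R', MiH C v r R' → r.Prime ∧ Nat.card R' = r ∧
      (∀ x ∈ R', x ∈ Z → x = 1) ∧ ¬ r ∣ Nat.card Z ∧ r ∣ Z.index := by
    intro r hrT R' hR'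
    have hrp := (hTS.tp r hrT).1
    have hrM : r ∈ kM C T v := (hkMd r).2 ⟨hrT, R', hR'⟩
    have h1 := (hkMZ r hrT).1 hrM
    obtain ⟨_, h2, h3⟩ := hsq r hrp h1
    refine ⟨hrp, h3 R' hR'.1, ?_, h2, h1⟩
    intro x hx hx'
    have h4 : x ^ r = 1 := by
      have := congrArg Subtype.val (pow_card_eq_one' (x := (⟨x, hx⟩ : R')))
      rw [h3 R' hR'.1] at this
      exact this
    have h5 : x ^ Nat.card Z = 1 := congrArg Subtype.val (pow_card_eq_one' (x := (⟨x, hx'⟩ : Z)))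
    have h6 : Nat.Coprime r (Nat.card Z) := (Nat.Prime.coprime_iff_not_dvd hrp).2 h2
    have h7 : orderOf x ∣ 1 := by
      rw [← h6]
      exact Nat.dvd_gcd (orderOf_dvd_of_pow_eq_one h4) (orderOf_dvd_of_pow_eq_one h5)
    exact orderOf_eq_one_iff.1 (Nat.dvd_one.1 h7)
  have hRC : R ≤ C := by
    rw [hR]
    apply sSup_le
    rintro R' ⟨r, hr, hR'⟩
    exact hR'.2.1
  have hRfix : ∀ x ∈ R, x • v = v := by
    have h1 : R ≤ MulAction.stabilizer H v := by
      rw [hR]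
      apply sSup_le
      rintro R' ⟨r, hr, hR'⟩ x hx
      exact hR'.2.2.2.1 x hx
    exact fun x hx => h1 hx
  have hRZ : Nat.Coprime (Nat.card R) (Nat.card Z) := by
    rw [Nat.coprime_iff_gcd_eq_one]
    by_contra hne
    obtain ⟨q, hq, hqd⟩ := Nat.exists_prime_and_dvd hne
    obtain ⟨hqT, S', hS', _⟩ := hRp q hq (hqd.trans (Nat.gcd_dvd_left _ _))
    exact (hS1 q hqT S' hS').2.2.2.1 (hqd.trans (Nat.gcd_dvd_right _ _))
  have hRZ1 : ∀ x ∈ R, x ∈ Z → x = 1 := by
    intro x hx hx'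
    have h1 : x ^ Nat.card R = 1 := congrArg Subtype.val (pow_card_eq_one' (x := (⟨x, hx⟩ : R)))
    have h2 : x ^ Nat.card Z = 1 := congrArg Subtype.val (pow_card_eq_one' (x := (⟨x, hx'⟩ : Z)))
    have h4 : orderOf x ∣ 1 := by
      rw [← hRZ]
      exact Nat.dvd_gcd (orderOf_dvd_of_pow_eq_one h1) (orderOf_dvd_of_pow_eq_one h2)
    exact orderOf_eq_one_iff.1 (Nat.dvd_one.1 h4)
  -- `H = Z R`
  have hZR : Z ⊔ R = ⊤ := by
    rw [← Subgroup.index_eq_one]
    by_contra hne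
    obtain ⟨q, hq, hqd⟩ := Nat.exists_prime_and_dvd hne
    have hqZ : q ∣ Z.index := hqd.trans (Subgroup.index_dvd_of_le le_sup_left)
    obtain ⟨hqT, _, _⟩ := hsq q hq hqZ
    obtain ⟨_, R', hR'⟩ := (hkMd q).1 ((hkMZ q hqT).2 hqZ)
    apply hR'.1.2.2
    rw [Subgroup.relIndex_top_right]
    exact hqd.trans (Subgroup.index_dvd_of_le ((hgen q hqT R' hR').trans le_sup_right))
  have hZRi : Z ⊓ R = ⊥ := by
    rw [eq_bot_iff]
    rintro x ⟨hx, hx'⟩
    rw [Subgroup.mem_bot]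
    exact hRZ1 x hx' hx
  have hcR : Nat.card R = ∏ r ∈ kM C T v, r := by
    have h1 : Nat.card R = Z.index := by
      have h2 := XF.card_sup (N := Z) (S := R) (fun s _ z hz => hZn.conj_mem z hz s) hZRi
      rw [hZR, Subgroup.card_top, ← Z.card_mul_index] at h2
      exact (mul_left_cancel₀ (Nat.card_pos.ne') h2).symm
    rw [h1, hidx]
    congr 1
    ext r
    rw [Finset.mem_filter]
    constructor
    · rintro ⟨h2, _, h3⟩
      exact (hkMZ r h2).2 h3
    · intro h2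
      have h3 := ((hkMd r).1 h2).1
      exact ⟨h3, (hTS.tp r h3).1, (hkMZ r h3).1 h2⟩
  have hgd : ∀ r ∈ T, ∀ R', MiH C v r R' → Gd C v r R' := fun r hr R' hR' => hcl.2 r hr R' hR'
  -- commutators with a Sylow subgroup
  have hcomS : ∀ r ∈ T, ∀ R', MiH C v r R' → ∀ t ∈ R', ∀ z ∈ Z,
      z * t * z⁻¹ * t⁻¹ ∈ Dr H r := by
    intro r hr R' hR' t ht z hz
    obtain ⟨hOn, hRO, h1, _, _, h2, _⟩ := hD2 r hr R' (hgd r hr R' hR')
    obtain ⟨hrp, _, h4, _⟩ := hS1 r hr R' hR'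
    have hwO : z * t * z⁻¹ * t⁻¹ ∈ Or H r :=
      mul_mem (hOn.conj_mem t (hRO ht) z) (inv_mem (hRO ht))
    obtain ⟨d, hd, t', ht', hw⟩ := h2 _ hwO
    have hwZ : z * t * z⁻¹ * t⁻¹ ∈ Z := by
      have h5 := mul_mem hz (hZn.conj_mem _ (inv_mem hz) t)
      have h6 : z * (t * z⁻¹ * t⁻¹) = z * t * z⁻¹ * t⁻¹ := by group
      rwa [h6] at h5
    have ht'Z : t' ∈ Z := by
      have h5 : t' = d⁻¹ * (z * t * z⁻¹ * t⁻¹) := by rw [hw]; group
      rw [h5]
      exact mul_mem (inv_mem (hDZ (h1 hd))) hwZ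
    rw [hw, h4 t' ht' ht'Z, mul_one]
    exact hd
  have hcomD : ∀ t ∈ R, ∀ z ∈ Z, z * t * z⁻¹ * t⁻¹ ∈ D := by
    let K : Subgroup H :=
      { carrier := {t | ∀ z ∈ Z, z * t * z⁻¹ * t⁻¹ ∈ D}
        one_mem' := by
          intro z _
          have : z * 1 * z⁻¹ * (1 : H)⁻¹ = 1 := by group
          rw [this]; exact one_mem _
        mul_mem' := by
          intro a b ha hb z hz
          have h1 := hb z hz
          have h2 := ha z hz
          have h3 : z * (a * b) * z⁻¹ * (a * b)⁻¹ =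
              (z * a * z⁻¹ * a⁻¹) * (a * (z * b * z⁻¹ * b⁻¹) * a⁻¹) := by group
          rw [h3]
          exact mul_mem h2 (hDn.conj_mem _ h1 a)
        inv_mem' := by
          intro a ha z hz
          have h1 := ha z hz
          have h2 : z * a⁻¹ * z⁻¹ * a⁻¹⁻¹ = a⁻¹ * (z * a * z⁻¹ * a⁻¹)⁻¹ * a⁻¹⁻¹ := by group
          rw [h2]
          exact hDn.conj_mem _ (inv_mem h1) a⁻¹ }
    have hK : R ≤ K := by
      rw [hR]
      apply sSup_le
      rintro R' ⟨r, hr, hR'⟩ t ht z hz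
      exact (hD2 r hr R' (hgd r hr R' hR')).2.2.1 (hcomS r hr R' hR' t ht z hz)
    exact fun t ht => hK ht
  have hRD : Nat.Coprime (Nat.card R) (Nat.card D) :=
    hRZ.coprime_dvd_right (Subgroup.card_dvd_of_le hDZ)
  let H₁ : Subgroup H :=
    { carrier := {z | z ∈ Z ∧ ∀ t ∈ R, z * t = t * z}
      one_mem' := ⟨one_mem _, fun t _ => by simp⟩
      mul_mem' := by
        rintro a b ⟨ha, ha'⟩ ⟨hb, hb'⟩
        exact ⟨mul_mem ha hb, fun t ht =>
          ((show Commute a t from ha' t ht).mul_left (hb' t ht)).eq⟩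
      inv_mem' := by
        rintro a ⟨ha, ha'⟩
        exact ⟨inv_mem ha, fun t ht => ((show Commute a t from ha' t ht).inv_left).eq⟩ }
  have hH1Z : H₁ ≤ Z := fun y hy => hy.1
  have hZD : ∀ z ∈ Z, ∃ d ∈ D, ∃ y ∈ H₁, z = d * y := by
    intro z hz
    obtain ⟨d, hd, hd'⟩ := XV.specUCO.2 H D R z hDab (fun r _ x hx => hDconj r x hx) hRD (by
      intro r hr
      have h1 := inv_mem (hcomD r hr z hz)
      have h2 : (z * r * z⁻¹ * r⁻¹)⁻¹ = r * z * r⁻¹ * z⁻¹ := by group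
      rwa [h2] at h1)
    refine ⟨d⁻¹, inv_mem hd, d * z, ⟨mul_mem (hDZ hd) hz, fun t ht => (hd' t ht).symm⟩, by group⟩
  have hcenR : ∀ x ∈ D, (∀ s ∈ R, s * x = x * s) → x = 1 := by
    intro x hx h
    refine hD3 x hx ?_
    intro r hr R' hR' t ht
    exact h t (hgen r hr R' hR'.1 ht)
  have hgen2 : ∀ h : H, ∃ d ∈ D, ∃ x ∈ R, ∃ y ∈ H₁, h = d * x * y := by
    intro h
    have h1 : h ∈ Z ⊔ R := by rw [hZR]; exact Subgroup.mem_top h
    obtain ⟨z, hz, x, hx, h2⟩ := Subgroup.mem_sup_of_normal_left.1 h1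
    obtain ⟨d, hd, y, hy, h3⟩ := hZD z hz
    refine ⟨d, hd, x, hx, y, hy, ?_⟩
    rw [← h2, h3, mul_assoc, hy.2 x hx, mul_assoc]
  obtain ⟨⟨g, hgD⟩, hg⟩ := hcyc.exists_generator
  have hDg : D = Subgroup.zpowers g := by
    apply le_antisymm
    · intro x hx
      obtain ⟨n, hn⟩ := Subgroup.mem_zpowers_iff.1 (hg ⟨x, hx⟩)
      rw [Subgroup.mem_zpowers_iff]
      exact ⟨n, congrArg Subtype.val hn⟩
    · rw [Subgroup.zpowers_le]
      exact hgD
  refine ⟨R, H₁, g, ?_, ?_⟩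
  · refine
      { ts := hTS
        v0 := hcl.1.1
        Dn := hDn
        DC := hDC
        Dg := hDg
        RC := hRC
        Rab := hRc
        Rv := hRfix
        H1D := fun y hy x hx => (hZm y).1 hy.1 x hx
        H1R := fun y hy x hx => hy.2 x hx
        dec := hgen2
        unq := ?_
        stv := ?_
        Dv := hD4
        mov := ?_
        fxd := fun d hd h => hcenR d hd h
        cR := hcR
        syl := ?_
        cop := ?_
        kAN := hkAN
        cMN := hcard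
        pos := hpos
        dvD := ?_ }
    · intro d hd x hx y hy h
      have h1 : x = 1 := by
        apply hRZ1 x hx
        have h2 : x = d⁻¹ * y⁻¹ := by
          calc x = d⁻¹ * (d * x * y) * y⁻¹ := by group
            _ = d⁻¹ * y⁻¹ := by rw [h, mul_one]
        rw [h2]
        exact mul_mem (inv_mem (hDZ hd)) (inv_mem hy.1)
      subst h1
      rw [mul_one] at h
      have h2 : d = y⁻¹ := eq_inv_of_mul_eq_one_left h
      have h3 : d = 1 := by
        apply hcenR d hd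
        intro s hs
        rw [h2]
        exact (((show Commute y s from hy.2 s hs).inv_left).eq).symm
      subst h3
      rw [one_mul] at h
      exact ⟨rfl, rfl, h⟩
    · intro h hh
      obtain ⟨d, hd, x, hx, y, hy, h1⟩ := hgen2 h
      have h2 : h = d * y * x := by rw [h1, mul_assoc, ← hy.2 x hx, mul_assoc]
      have hz : (d * y) • v = v := by
        rw [h2, mul_smul, hRfix x hx] at hh
        exact hh
      have hzZ : d * y ∈ Z := mul_mem (hDZ hd) hy.1
      have hzR : ∀ t ∈ R, d * y * t = t * (d * y) := by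
        have h3 : R ≤ Subgroup.centralizer {d * y} := by
          conv_lhs => rw [hR]
          apply sSup_le
          rintro R' ⟨r, hr, hR'⟩ t ht
          rw [Subgroup.mem_centralizer_singleton_iff]
          obtain ⟨hrp, _, h4, _⟩ := hS1 r hr R' hR'
          have h5 : d * y * t * (d * y)⁻¹ ∈ R' := hR'.2.2.2.2 _ hz t ht
          have h6 := h4 _ (mul_mem h5 (inv_mem ht)) (by
            have h7 := mul_mem hzZ (hZn.conj_mem _ (inv_mem hzZ) t)
            have h8 : d * y * (t * (d * y)⁻¹ * t⁻¹) = d * y * t * (d * y)⁻¹ * t⁻¹ := by group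
            rwa [h8] at h7)
          exact (mul_inv_eq_iff_eq_mul.1 (mul_inv_eq_one.1 h6)).symm
        intro t ht
        have h4 := h3 ht
        rw [Subgroup.mem_centralizer_singleton_iff] at h4
        exact h4.symm
      have hd1 : d = 1 := by
        apply hcenR d hd
        intro s hs
        have h3 := hzR s hs
        have h4 := hy.2 s hs
        have h5 : s * d * y = d * s * y := by
          rw [mul_assoc, ← h3, mul_assoc, h4, mul_assoc]
        exact mul_right_cancel h5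
      subst hd1
      rw [one_mul] at hz h1
      exact ⟨x, hx, y, hy, hz, h1⟩
    · intro x hx h
      apply hRZ1 x hx
      rw [hZm]
      intro y hy
      rw [hDg] at hy
      obtain ⟨n, rfl⟩ := Subgroup.mem_zpowers_iff.1 hy
      exact ((show Commute x g from h).zpow_right n).eq
    · intro r hr
      obtain ⟨hrT, R', hR'⟩ := (hkMd r).1 hr
      obtain ⟨hrp, h1, h2, h3, _⟩ := hS1 r hrT R' hR'
      obtain ⟨hOn, hRO, h4, h5, _, h6, _⟩ := hD2 r hrT R' (hgd r hrT R' hR')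
      obtain ⟨_, hDrn, _, _, _, _, h7⟩ := hRLO H hTS.sol r R' hrp hR'.1 hR'.2.2.1
      refine ⟨hrp, R', hgen r hrT R' hR', hR'.1, h1, ?_, h5⟩
      apply le_antisymm
      · rw [h7, Subgroup.closure_le]
        rintro _ ⟨s, hs, x, hx, rfl⟩
        have h8 : ⁅x, s⁆ ∈ ⁅D, R'⁆ := Subgroup.commutator_mem_commutator (h4 hx) hs
        have h9 := inv_mem h8
        rw [commutatorElement_inv, commutatorElement_def] at h9
        exact h9
      · rw [Subgroup.commutator_le]
        intro x hx s hs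
        rw [commutatorElement_def]
        exact hcomS r hrT R' hR' s hs x (hDZ hx)
    · intro r hr
      obtain ⟨hrT, R', hR'⟩ := (hkMd r).1 hr
      obtain ⟨_, _, _, h3, _⟩ := hS1 r hrT R' hR'
      exact ⟨fun h => h3 (h.trans (Subgroup.card_dvd_of_le hDZ)),
        fun h => h3 (h.trans (Subgroup.card_dvd_of_le hH1Z))⟩
    · intro r hrT hrd
      have h1 := hD5 r hrT hrd
      have h2 := ((hCNB H X p C T hTS).2 v hcl.1.1).1 h1
      rw [hkAN] at h2
      exact h2
  · intro r hr S hS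
    exact hgen r ((hkMd r).1 hr).1 S hS

end Pool.Agent.Lib.MPbe1941.X
end

section
/-!
# MP_be1941_al EXACT, block U, module USY: Sylow subgroups in the situation `US`
-/
set_option autoImplicit false

namespace Pool.Agent.Lib.MPbe1941.X

open Pool.Agent.Lib.MPbe1941
open Pool.Agent.Lib.MPbe1941.XF
open scoped commutatorElement

namespace USYM

variable {H : Type} [Group H]

/-- An element of `r`-power order of a group of order prime to `r` is trivial. -/
theorem eq_one_of {R : Subgroup H} [Finite H] {r : ℕ} (hr : r.Prime) (hR : ¬ r ∣ Nat.card R)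
    {x : H} (hx : x ∈ R) {n : ℕ} (h : x ^ r ^ n = 1) : x = 1 := by
  have h1 : orderOf (⟨x, hx⟩ : R) ∣ Nat.card R := orderOf_dvd_natCard _
  have h2 : orderOf (⟨x, hx⟩ : R) ∣ r ^ n := by
    rw [orderOf_dvd_iff_pow_eq_one]
    exact Subtype.ext h
  have h3 : orderOf (⟨x, hx⟩ : R) = 1 := by
    rcases (Nat.dvd_prime_pow hr).1 h2 with ⟨m, -, hm⟩
    rcases Nat.eq_zero_or_pos m with rfl | hm0
    · simpa using hm
    · exfalso
      apply hR
      refine (dvd_trans ?_ h1)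
      rw [hm]
      exact dvd_pow_self r hm0.ne'
  have h4 := orderOf_eq_one_iff.1 h3
  exact congrArg Subtype.val h4

/-- Powers of `d x`. -/
theorem mul_pow_form {D : Subgroup H} (hD : D.Normal) {d x : H} (hd : d ∈ D) :
    ∀ k : ℕ, ∃ d' ∈ D, (d * x) ^ k = d' * x ^ k := by
  intro k
  induction k with
  | zero => exact ⟨1, D.one_mem, by simp⟩
  | succ k ih =>
    obtain ⟨d', hd', h⟩ := ih
    refine ⟨d' * (x ^ k * d * (x ^ k)⁻¹), D.mul_mem hd' (hD.conj_mem d hd _), ?_⟩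
    rw [pow_succ, h, pow_succ]
    group

end USYM

open USYM in
theorem specUSY : SpecUSY := by
  intro H X _ _ _ p C T v D R H1 dl h
  have hfin : Finite H := h.ts.finH
  have hkM : ∀ r, r ∈ kM C T v → r.Prime := fun r hr => (h.syl r hr).1
  have hcardR : ∀ r : ℕ, r.Prime → r ∉ kM C T v → ¬ r ∣ Nat.card R := by
    intro r hr hrM hd
    rw [h.cR, hr.prime.dvd_finsetProd_iff] at hd
    obtain ⟨s, hs, hrs⟩ := hd
    rw [Nat.prime_dvd_prime_iff_eq hr (hkM s hs)] at hrs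
    exact hrM (hrs ▸ hs)
  have hthree : ∀ r ∈ T, r ∉ kM C T v → ∀ S : Subgroup H, IsPGroup r S → (∀ x ∈ S, x • v = v) →
      S ≤ Stb H1 v := by
    intro r hrT hrM S hS hSv z hz
    have hr : r.Prime := (h.ts.tp r hrT).1
    obtain ⟨x, hx, y, hy, hyv, rfl⟩ := h.stv z (hSv z hz)
    obtain ⟨n, hn⟩ := hS ⟨x * y, hz⟩
    have hn' : (x * y) ^ r ^ n = 1 := congrArg Subtype.val hn
    have hc : Commute x y := (h.H1R y hy x hx).symm
    rw [hc.mul_pow] at hn'
    have h1 := h.unq 1 D.one_mem (x ^ r ^ n) (R.pow_mem hx _) (y ^ r ^ n) (H1.pow_mem hy _)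
      (by rw [one_mul, hn'])
    have hx1 : x = 1 := eq_one_of hr (hcardR r hr hrM) hx h1.2.1
    rw [hx1, one_mul]
    exact ⟨hy, hyv⟩
  refine ⟨?_, ?_, hthree⟩
  · intro r hrM S S' hSR hS hS'
    have hr : r.Prime := hkM r hrM
    obtain ⟨g, -, hg⟩ := (CO.specSYL H r hr).2.2.1 _ _ _ hS hS'
    obtain ⟨d, hd, x, hx, y, hy, rfl⟩ := h.dec g
    refine ⟨d, hd, fun z => ?_⟩
    rw [hg z]
    have hcomm : ∀ s ∈ S, (x * y) * s = s * (x * y) := by
      intro s hs
      have h1 : x * s = s * x := h.Rab x hx s (hSR hs)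
      have h2 : y * s = s * y := h.H1R y hy s (hSR hs)
      rw [mul_assoc, h2, ← mul_assoc, h1, mul_assoc]
    have hid : (d * x * y)⁻¹ * z * (d * x * y) = (x * y)⁻¹ * (d⁻¹ * z * d) * (x * y) := by group
    rw [hid]
    constructor
    · intro hs
      have h3 := hcomm _ hs
      have h4 : d⁻¹ * z * d = (x * y)⁻¹ * (d⁻¹ * z * d) * (x * y) := by
        have h5 : (x * y) * ((x * y)⁻¹ * (d⁻¹ * z * d) * (x * y)) = (d⁻¹ * z * d) * (x * y) := by
          group
        rw [h5] at h3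
        exact mul_right_cancel h3
      rw [h4]
      exact hs
    · intro hs
      have h3 := hcomm _ hs
      have h4 : (x * y)⁻¹ * (d⁻¹ * z * d) * (x * y) = d⁻¹ * z * d := by
        rw [mul_assoc, ← h3, inv_mul_cancel_left]
      rw [h4]
      exact hs
  · intro r hrT hrM hrN
    have hr : r.Prime := (h.ts.tp r hrT).1
    have hkA : ¬ Kl H v r := by
      intro hK
      apply hrN
      rw [← h.kAN]
      classical exact Finset.mem_filter.2 ⟨hrT, hK⟩
    obtain ⟨S₀, hS₀, hS₀v⟩ : ∃ S : Subgroup H, SylIn r ⊤ S ∧ ∀ x ∈ S, x • v = v := by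
      unfold Kl at hkA
      push Not at hkA
      exact hkA
    have hS₀J : S₀ ≤ Stb H1 v := hthree r hrT hrM S₀ hS₀.2.1 hS₀v
    refine ⟨⟨S₀, hS₀, hS₀J⟩, ?_, ?_⟩
    · intro S hS z hz
      obtain ⟨n, hn⟩ := hS ⟨z, hz⟩
      have hn' : z ^ r ^ n = 1 := congrArg Subtype.val hn
      obtain ⟨d, hd, x, hx, y, hy, rfl⟩ := h.dec z
      have hc : Commute (d * x) y := by
        have h1 : y * d = d * y := h.H1D y hy d hd
        have h2 : y * x = x * y := h.H1R y hy x hx
        show d * x * y = y * (d * x)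
        rw [← mul_assoc, h1, mul_assoc, mul_assoc, h2]
      rw [hc.mul_pow] at hn'
      obtain ⟨d', hd', h3⟩ := mul_pow_form h.Dn (x := x) hd (r ^ n)
      rw [h3] at hn'
      have h4 := h.unq d' hd' (x ^ r ^ n) (R.pow_mem hx _) (y ^ r ^ n) (H1.pow_mem hy _) hn'
      have hx1 : x = 1 := eq_one_of hr (hcardR r hr hrM) hx h4.2.1
      have hd1 : d = 1 := by
        refine eq_one_of hr (fun hdv => hrN (h.dvD r hrT hdv)) hd (n := n) ?_
        rw [hx1, mul_one, one_pow, mul_one, h4.1] at h3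
        exact h3
      rw [hx1, hd1, one_mul, one_mul]
      exact hy
    · intro S
      constructor
      · intro hS
        refine ⟨?_, hS.1⟩
        refine (CO.specSYL H r hr).2.2.2.2.1 ⊤ (Stb H1 v) S le_top ?_ hS
        intro hd
        apply hS₀.2.2
        rw [← Subgroup.relIndex_mul_relIndex S₀ (Stb H1 v) ⊤ hS₀J le_top]
        exact Dvd.dvd.mul_left hd _
      · rintro ⟨hS, hSJ⟩
        exact (CO.specSYL H r hr).2.2.2.1 ⊤ (Stb H1 v) S hS hSJ le_top

end Pool.Agent.Lib.MPbe1941.X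
end
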