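import Pool.Agent.Lib.MP_be1941_al.X.SpecT1B
import Pool.Agent.Lib.MP_be1941_al.X.REL
import Pool.Agent.Lib.MP_be1941_al.X.TopT1
import Pool.Agent.Lib.MP_be1941_al.X.TTW
import Pool.Agent.Lib.MP_be1941_al.X.UDB
import Pool.Agent.Lib.MP_be1941_al.X.USY
import Pool.Agent.Lib.MP_be1941_al.X.UCT
import Pool.Agent.Lib.MP_be1941_al.X.UTW
import Pool.Agent.Lib.MP_be1941_al.X.FA3
import Pool.Agent.Lib.MP_be1941_al.XF.STD
import Pool.Agent.Lib.MP_be1941_al.X.IRX
import Pool.Agent.Lib.MP_be1941_al.X.O7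
import Pool.Agent.Lib.MP_be1941_al.X.RII

section
/-!
# MP_be1941_al EXACT, block T1: module EKT (the projection)
-/
set_option autoImplicit false

namespace Pool.Agent.Lib.MPbe1941.X

open Pool.Agent.Lib.MPbe1941
open Pool.Agent.Lib.MPbe1941.XF
open scoped commutatorElement

namespace EKTM

/-- The `l'`-part of the Fitting subgroup. -/
theorem exists_compl {H : Type} [Group H] [Finite H] (C : Subgroup H) {l : ℕ} (hl : l.Prime) :
    ∃ P' : Subgroup H, ¬ l ∣ Nat.card P' ∧ (∀ x ∈ Oc l C, ∀ y ∈ P', x * y = y * x) ∧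
      Oc l C ⊔ P' = Fit C ∧ ∀ l', l'.Prime → l' ≠ l → Oc l' C ≤ P' := by
  have hFTF := specFTF specOCF H C
  obtain ⟨m, m1, m2, m3, m4⟩ := specPWM specOCF H C l hl
  have hinv : ∀ x ∈ Fit C, (x⁻¹) ^ m = (x ^ m)⁻¹ := fun x _ => inv_pow x m
  obtain ⟨P', hP'⟩ : ∃ P' : Subgroup H, ∀ x, x ∈ P' ↔ x ∈ Fit C ∧ x ^ m = 1 := by
    refine ⟨{ carrier := {x | x ∈ Fit C ∧ x ^ m = 1}
              one_mem' := ⟨Subgroup.one_mem _, one_pow m⟩
              mul_mem' := ?_
              inv_mem' := ?_ }, fun x => Iff.rfl⟩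
    · rintro x y ⟨hx, hx'⟩ ⟨hy, hy'⟩
      exact ⟨Subgroup.mul_mem _ hx hy, by rw [m3 x hx y hy, hx', hy', one_mul]⟩
    · rintro x ⟨hx, hx'⟩
      exact ⟨Subgroup.inv_mem _ hx, by rw [inv_pow, hx', inv_one]⟩
  have hOF : Oc l C ≤ Fit C := FTFM.oc_le_fit C hl
  refine ⟨P', ?_, ?_, ?_, ?_⟩
  · intro hdvd
    haveI : Fact l.Prime := ⟨hl⟩
    obtain ⟨y, hy⟩ := exists_prime_orderOf_dvd_card' l hdvd
    have h1 : (y : H) ^ l = 1 := by
      have : y ^ l = 1 := by rw [← hy]; exact pow_orderOf_eq_one y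
      exact congrArg Subtype.val this
    have h2 := (hP' y).1 y.2
    have h3 : (y : H) ∈ Oc l C := hFTF.2.2.1 l hl y h2.1 ⟨1, by rw [pow_one]; exact h1⟩
    have h4 := m2 y h3
    rw [h2.2] at h4
    have h5 : y = 1 := Subtype.ext h4.symm
    rw [h5, orderOf_one] at hy
    exact hl.one_lt.ne hy
  · intro x hx y hy
    have h1 := (hP' y).1 hy
    have h2 := m4 y h1.1 x hx
    rw [h1.2, one_mul] at h2
    calc x * y = y * (y⁻¹ * x) * y := by group
      _ = y * (x * y⁻¹) * y := by rw [h2]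
      _ = y * x := by group
  · refine le_antisymm (sup_le hOF fun x hx => ((hP' x).1 hx).1) ?_
    intro x hx
    have h1 := m1 x hx
    have h2 : (x ^ m)⁻¹ * x ∈ P' := by
      rw [hP']
      have h3 : (x ^ m)⁻¹ ∈ Fit C := Subgroup.inv_mem _ (hOF h1)
      refine ⟨Subgroup.mul_mem _ h3 hx, ?_⟩
      rw [m3 _ h3 x hx, inv_pow, m2 _ h1, inv_mul_cancel]
    have h3 : x = x ^ m * ((x ^ m)⁻¹ * x) := by group
    rw [h3]
    exact Subgroup.mul_mem _ (Subgroup.mem_sup_left h1) (Subgroup.mem_sup_right h2)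
  · intro l' hl' hne x hx
    rw [hP']
    have h1 : x ∈ Fit C := FTFM.oc_le_fit C hl' hx
    refine ⟨h1, ?_⟩
    have h2 := m1 x h1
    have h3 : x ^ m ∈ Oc l' C := Subgroup.pow_mem _ hx m
    haveI : Fact l.Prime := ⟨hl⟩
    haveI : Fact l'.Prime := ⟨hl'⟩
    obtain ⟨a, ha⟩ := (specOCF H l hl C).2.1 ⟨_, h2⟩
    obtain ⟨b, hb⟩ := (specOCF H l' hl' C).2.1 ⟨_, h3⟩
    have ha' : (x ^ m) ^ l ^ a = 1 := congrArg Subtype.val ha
    have hb' : (x ^ m) ^ l' ^ b = 1 := congrArg Subtype.val hb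
    have hco : Nat.Coprime (l ^ a) (l' ^ b) :=
      Nat.Coprime.pow a b ((Nat.coprime_primes hl hl').2 hne.symm)
    have h4 : orderOf (x ^ m) = 1 :=
      Nat.eq_one_of_dvd_coprimes hco (orderOf_dvd_of_pow_eq_one ha') (orderOf_dvd_of_pow_eq_one hb')
    exact orderOf_eq_one_iff.1 h4

/-- Two Sylow subgroups, one normalised by the other. -/
theorem syl_eq {H : Type} [Group H] [Finite H] {r : ℕ} (hr : r.Prime) {R R' : Subgroup H}
    (hR : IsPGroup r R) (hR' : SylIn r ⊤ R')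
    (hn : ∀ h ∈ R, ∀ t ∈ R', h * t * h⁻¹ ∈ R') : R ≤ R' := by
  intro x hx
  refine PAAM.mem_syl hr hR' ?_ (hn x hx) ?_
  · obtain ⟨n, hn2⟩ := hR ⟨x, hx⟩
    exact ⟨n, congrArg Subtype.val hn2⟩
  intro t ht
  have := hn x⁻¹ (R.inv_mem hx) t ht
  rwa [inv_inv] at this

end EKTM

theorem specEKT (hEKA : SpecEKA) : SpecEKT := by
  intro H X _ _ _ p C T hTS hPR v r R hE hrT hM hr2 l hl hl2 hN hnc
  haveI := hTS.finH
  haveI := hTS.finX
  have hr : r.Prime := (hTS.tp r hrT).1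
  obtain ⟨hab, hQP, -, hPQ, hdec, hSQ, -, hpw, hcyc⟩ := hPR.odd v r R hE hrT hM hr2 l hl hl2 hN
  obtain ⟨P', hP1, hP2, hP3, hP4⟩ := EKTM.exists_compl C hl
  obtain ⟨K, hKQ, hKc, v', hE', hfix, hPv', hQv', hP'v'⟩ := hEKA H X l p hl hTS.pp hTS.px hTS.pn
    (Fit C) (Oc l C) P' ⁅Oc l C, R⁆ v (specOCF H l hl C).2.1 hP1 hP2 hP3 hE hQP hPQ hab hdec hSQ
    hcyc hnc
  refine ⟨v', hE', ?_, ?_, ?_⟩
  · rintro ⟨R', hM'⟩
    -- `R` fixes `v'`
    have hRv' : ∀ s ∈ R, s • v' = v' := by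
      intro s hs
      refine hfix s ?_ (hM.2.2.2.1 s hs)
      intro k hk
      obtain ⟨a, ha⟩ := (hpw s hs).1
      rw [ha k (hKQ hk)]
      exact K.zpow_mem hk a
    have hRR : R ≤ R' := EKTM.syl_eq hr hM.1.2.1 hM'.1 (fun h hh t ht =>
      hM'.2.2.2.2 h (hRv' h hh) t ht)
    obtain ⟨x, hx, y, hy, hxy⟩ := hN
    obtain ⟨a, ha1, ha2⟩ := (hpw x hx).2 ⟨y, hy, hxy⟩
    have hcop := (hPR.cop v' r R' hE' hrT hM').2 x (hRR hx)
    have hK1 : K = ⊥ := by
      rw [eq_bot_iff]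
      intro k hk
      have hkF : k ∈ Stb (Fit C) v' := by
        rw [← hQv'] at hk
        exact ⟨FTFM.oc_le_fit C hl (hQP hk.1), hk.2⟩
      have h1 := hcop k hkF
      have h2 := ha2 k (hKQ hk)
      rw [h1, mul_inv_cancel_right] at h2
      have h3 : k ^ (a - 1) = 1 := by
        rw [zpow_sub, zpow_one, ← h2, mul_inv_cancel]
      have h4 : k ^ (l : ℤ) = 1 := by
        rw [zpow_natCast, ← hKc]
        have := pow_card_eq_one' (G := K) (x := ⟨k, hk⟩)
        exact congrArg Subtype.val this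
      have h5 : IsCoprime (l : ℤ) (a - 1) :=
        (Nat.prime_iff_prime_int.1 hl).coprime_iff_not_dvd.2 ha1
      obtain ⟨u, w, huw⟩ := h5
      rw [Subgroup.mem_bot]
      have h6 : k = k ^ (u * (l : ℤ) + w * (a - 1)) := by rw [huw, zpow_one]
      rw [h6, zpow_add, mul_comm u, mul_comm w, zpow_mul, zpow_mul, h4, h3, one_zpow, one_zpow,
        one_mul]
    rw [hK1, Subgroup.card_bot] at hKc
    exact hl.one_lt.ne hKc
  · rw [hQv', hKc]
  · intro l' hl' hne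
    ext x
    constructor
    · rintro ⟨h1, h2⟩
      have h3 : x ∈ Stb P' v' := ⟨hP4 l' hl' hne h1, h2⟩
      rw [hP'v'] at h3
      exact ⟨h1, h3.2⟩
    · rintro ⟨h1, h2⟩
      have h3 : x ∈ Stb P' v := ⟨hP4 l' hl' hne h1, h2⟩
      rw [← hP'v'] at h3
      exact ⟨h1, h3.2⟩

end Pool.Agent.Lib.MPbe1941.X
end

section
/-!
# MP_be1941_al EXACT: everything together

Huppert's inequality `|ρ(G)| ≤ 2 σ(G)` for all finite solvable groups (`SpecHUP`).
-/
set_option autoImplicit false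

namespace Pool.Agent.Lib.MPbe1941.X.TopD

open Pool.Agent.Lib.MPbe1941.X

theorem ttw : SpecTTW := specTTW specTPS topPSB TopT1.tcp TopT1.tse TopT1.tnz topPCC

theorem tod : SpecTOD := specTOD specTPS topPCC topPCG

theorem tfm : SpecTFM :=
  specTFM specTPS topPDB topPDC topSPA specOCF specSPM topPBX topPEM topPE1 TopT1.tsn

theorem ekt : SpecEKT := specEKT specEKA

theorem prt : SpecPRT := fun H X _ _ _ p C T h => TopT1.prp ttw tod tfm H X p C T h

theorem udb : SpecUDB := specUDB topPSB specRLO topPDB topPDC topSPA specSPM topPE1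

theorem ust : SpecUST := specUST udb (specUEQ udb) specUSQ specRLO specCNB

theorem utw : SpecUTW := specUTW specUIV specUIN specUSY topREL specCNB

theorem uhm : SpecUHM := specUHM specUFB specUSY specCNB

theorem uct : SpecUCT := specUCT specUSY specUCM

theorem uen : SpecUEN := specUEN (TopT1.cln ekt) (TopT1.dcy ekt) ust uhm utw specUCM uct

theorem dts : SpecDTS := specDTS specCH1

theorem o7 : SpecO7 := specO7 prt uen

theorem irx : SpecIRX := specIRX dts o7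

theorem fa3 : SpecFA3 := specFA3 dts o7 irx (specFA1 specUBF) specFA2

theorem e9 : SpecE9 := specE9 prt (specUFI uen)

theorem dii : SpecDII := specDII dts irx fa3 (specFA4 topREL specSYX) e9

/-- Huppert's inequality for all finite solvable groups. -/
theorem hup : SpecHUP := specHUP specRII (specDI topCNT) dii

end Pool.Agent.Lib.MPbe1941.X.TopD
end

section
/-!
# MP_be1941_al EXACT: the inequality for an arbitrary set of primes
-/
set_option autoImplicit false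

namespace Pool.Agent.Lib.MPbe1941.X.TopD

open Pool.Agent.Lib.MPbe1941
open Pool.Agent.Lib.MPbe1941.X

/-- The set of the primes dividing some irreducible degree is finite. -/
theorem rho_finite (G : Type) [Group G] [Finite G] :
    {p : ℕ | p.Prime ∧ ∃ W : FDRep ℂ G, CategoryTheory.Simple W ∧
      p ∣ Module.finrank ℂ W}.Finite := by
  refine ((Nat.card G).primeFactors.finite_toSet).subset ?_
  rintro p ⟨hp, W, hW, hpW⟩
  obtain ⟨ρ, hρ⟩ := (RP.specFDR G _).2 ⟨W, hW, rfl⟩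
  have h := RP.specDIV G _ ρ hρ
  rw [Module.finrank_fin_fun] at h
  rw [Finset.mem_coe, Nat.mem_primeFactors]
  exact ⟨hp, hpW.trans h, Nat.card_pos.ne'⟩

/-- Huppert's inequality for the primes in a set `Θ`. -/
theorem hupTheta (G : Type) [Group G] [Finite G] (hG : Group.IsSolvable G) (Θ : Set ℕ) :
    ∃ V : FDRep ℂ G, CategoryTheory.Simple V ∧
      {p : ℕ | p ∈ Θ ∧ p.Prime ∧ ∃ W : FDRep ℂ G, CategoryTheory.Simple W ∧
          p ∣ Module.finrank ℂ W}.ncard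
        ≤ 2 * {p : ℕ | p ∈ Θ ∧ p.Prime ∧ p ∣ Module.finrank ℂ V}.ncard := by
  classical
  have hfin : {p : ℕ | p ∈ Θ ∧ p.Prime ∧ ∃ W : FDRep ℂ G, CategoryTheory.Simple W ∧
      p ∣ Module.finrank ℂ W}.Finite := (rho_finite G).subset fun p hp => hp.2
  have hDI : SpecDI := specDI topCNT
  have hDII : SpecDII := dii
  obtain ⟨d, hd, hcard⟩ := specRII (fun H W _ _ _ C T h => hDI H W C T h)
    (fun H X Zd _ _ _ _ _ C T p R h => hDII H X Zd C T p R h) G hG hfin.toFinset (by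
      intro r hr
      rw [Set.Finite.mem_toFinset] at hr
      obtain ⟨-, hp, W, hW, hpW⟩ := hr
      refine ⟨hp, fun hN => ?_⟩
      exact RP.allITO G r hp hN _ ((RP.specFDR G _).2 ⟨W, hW, rfl⟩) hpW)
  obtain ⟨V, hV, hVd⟩ := (RP.specFDR G d).1 hd
  refine ⟨V, hV, ?_⟩
  have hVfin : {p : ℕ | p ∈ Θ ∧ p.Prime ∧ p ∣ Module.finrank ℂ V}.Finite :=
    hfin.subset fun p hp => ⟨hp.1, hp.2.1, V, hV, hp.2.2⟩
  rw [Set.ncard_eq_toFinset_card _ hfin, Set.ncard_eq_toFinset_card _ hVfin]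
  refine hcard.trans (Nat.mul_le_mul_left 2 (Finset.card_le_card ?_))
  intro r hr
  rw [Finset.mem_filter, Set.Finite.mem_toFinset] at hr
  rw [Set.Finite.mem_toFinset]
  exact ⟨hr.1.1, hr.1.2.1, by rw [hVd]; exact hr.2⟩

end Pool.Agent.Lib.MPbe1941.X.TopD
end
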